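import Mathlib
import Pool.Agent.Work.MP_122e00_nt.Corr

/-!
# Thin shifts: definitions

`D_r(X; F(k))` for almost all values of a polynomial `F`.
-/

namespace Pool.Agent.Work.MP_122e00_nt.TS

open Finset Filter Topology ArithmeticFunction
open scoped ArithmeticFunction.zeta ArithmeticFunction.Moebius

/-- `e(x) = exp(2 π i x)` -/
noncomputable def ee (x : ℝ) : ℂ := Complex.exp (((2 * Real.pi * x : ℝ) : ℂ) * Complex.I)

/-- distance to the nearest integer -/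
noncomputable def nn (x : ℝ) : ℝ := |x - round x|

/-- `d_r(n)` as a real number -/
noncomputable def dr (r n : ℕ) : ℝ := (((ζ : ArithmeticFunction ℕ) ^ r) n : ℝ)

/-- the exponential sum `∑_{1 ≤ n ≤ N} a(n) e(n α)` -/
noncomputable def SS (a : ℕ → ℝ) (N : ℕ) (α : ℝ) : ℂ :=
  ∑ n ∈ Finset.Icc 1 N, (a n : ℂ) * ee (n * α)

/-- Weyl's inequality in degree `d`, in qualitative form: a large exponential sum forces the
coefficient of degree `d` to be close to a fraction with small denominator. -/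
def WeylP (d : ℕ) : Prop := ∀ δ' : ℝ, 0 < δ' → ∃ δ : ℝ, 0 < δ ∧ ∃ K0 : ℝ, ∀ K : ℕ, K0 ≤ (K : ℝ) →
  ∀ f : Polynomial ℝ, f.natDegree ≤ d → ∀ A B : ℕ, B ≤ A + K →
  (K : ℝ) ^ (1 - δ) ≤ ‖∑ k ∈ Finset.Ioc A B, ee (f.eval (k : ℝ))‖ →
  ∃ q : ℕ, 1 ≤ q ∧ (q : ℝ) ≤ (K : ℝ) ^ δ' ∧ ∃ m : ℤ, |(q : ℝ) * f.coeff d - m| ≤ (K : ℝ) ^ (δ' - d)

/-- the summatory function of `f` is `x P(log x) + O(x^(1 - c))` -/
def PS (f : ℕ → ℝ) (P : Polynomial ℝ) (c C : ℝ) : Prop := ∀ x : ℝ, 1 ≤ x →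
  |∑ n ∈ Finset.Icc 1 ⌊x⌋₊, f n - x * P.eval (Real.log x)| ≤ C * x ^ (1 - c)

/-- `lam` expands the indicator function of `g ∣ ∏ a_i` in the indicator functions of
`f_i ∣ a_i` for all `i`, `f_i ∣ g`. -/
def Lam (r g : ℕ) (lam : (Fin r → ℕ) → ℝ) : Prop :=
  (∀ f, |lam f| ≤ (g : ℝ) ^ r) ∧ ∀ a : Fin r → ℕ, (∀ i, 1 ≤ a i) →
  (if g ∣ ∏ i, a i then (1 : ℝ) else 0) =
    ∑ f ∈ Fintype.piFinset (fun _ : Fin r => g.divisors), lam f *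
      ∏ i, (if f i ∣ a i then (1 : ℝ) else 0)

/-- the multiples: `B g` are the polynomials of the means of `d_r` over the multiples of `g` -/
def MU (r : ℕ) (B : ℕ → Polynomial ℝ) : Prop :=
  (∀ g, (B g).natDegree ≤ r - 1) ∧
  (∀ g, 1 ≤ g → (B g).coeff (r - 1) = rho r g / ((r - 1).factorial : ℝ)) ∧
  ∃ c C : ℝ, 0 < c ∧ c ≤ 1 / 4 ∧ 0 < C ∧ ∀ (g : ℕ) (x : ℝ), 1 ≤ g → 1 ≤ x →
    |∑ n ∈ (Finset.Icc 1 ⌊x⌋₊).filter (g ∣ ·), dr r n - x * (B g).eval (Real.log x)| ≤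
      C * (g : ℝ) ^ C * x ^ (1 - c)

/-- additive twists: `E q` is the polynomial of the mean of `d_r(n) e(a n / q)` -/
def AP (r : ℕ) (E : ℕ → Polynomial ℝ) : Prop :=
  (∀ q, (E q).natDegree ≤ r - 1) ∧
  (∀ q, 1 ≤ q → (E q).coeff (r - 1) = rho (r - 1) q / ((r - 1).factorial : ℝ)) ∧
  ∃ c C : ℝ, 0 < c ∧ c ≤ 1 / 4 ∧ 0 < C ∧ ∀ (q : ℕ) (a : ℤ) (x : ℝ), 1 ≤ q → IsCoprime a (q : ℤ) →
    1 ≤ x → ‖SS (dr r) ⌊x⌋₊ (a / q) - ((x * (E q).eval (Real.log x) : ℝ) : ℂ)‖ ≤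
      C * (q : ℝ) ^ C * x ^ (1 - c)

/-- the coefficients of `E q` are `O(q^(-1 + ε))` -/
def CB (E : ℕ → Polynomial ℝ) : Prop := ∀ ε : ℝ, 0 < ε → ∃ C : ℝ, 0 < C ∧ ∀ q j : ℕ, 1 ≤ q →
  |(E q).coeff j| ≤ C * (q : ℝ) ^ (ε - 1)

/-- the density of `x E(log x)` at `x` is `(E + E')(log x)` -/
noncomputable def ed (P : Polynomial ℝ) : Polynomial ℝ := P + Polynomial.derivative P

/-- the model of `d_r` of level `Q` -/
noncomputable def fs (E : ℕ → Polynomial ℝ) (Q n : ℕ) : ℝ :=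
  ∑ q ∈ Finset.Icc 1 Q, Gh n q * (ed (E q)).eval (Real.log n)

/-- the difference of `d_r` and its model -/
noncomputable def fl (r : ℕ) (E : ℕ → Polynomial ℝ) (Q n : ℕ) : ℝ := dr r n - fs E Q n

/-- the correlation `∑_{n ≤ N} u(n) v(n + h)` -/
noncomputable def cor (u v : ℕ → ℝ) (N h : ℕ) : ℝ := ∑ n ∈ Finset.Icc 1 N, u n * v (n + h)

/-- the solution `R` of `R + R' = P` -/
noncomputable def rr (P : Polynomial ℝ) : Polynomial ℝ :=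
  ∑ i ∈ Finset.range (P.natDegree + 1), (-1 : ℝ) ^ i • (Polynomial.derivative^[i] P)

/-- the polynomial `P_h` of the shift `h` -/
noncomputable def PH (r : ℕ) (E : ℕ → Polynomial ℝ) (h : ℕ) : Polynomial ℝ :=
  ∑ j ∈ Finset.range (2 * (r - 1) + 1),
    Polynomial.C (∑' q : ℕ, Gh h q * (rr (ed (E q) ^ 2)).coeff j) * Polynomial.X ^ j

end Pool.Agent.Work.MP_122e00_nt.TS
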