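import Mathlib
import Pool.Agent.Work.MP_122e00_nt.TS.Defs

/-!
# Thin shifts, part 1: Weyl sums (W), the second moment over the shifts (Q), the sums of `d_r`
on the minor arcs (L)

Every docstring is a complete proof.  `ee x = exp(2 π i x)`, `nn x` is the distance to the nearest
integer.  Earlier items are hypotheses: item `X` is the file `TS/I_X.lean`, theorem `prX`.
-/

namespace Pool.Agent.Work.MP_122e00_nt.TS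

open Finset Filter Topology ArithmeticFunction
open scoped ArithmeticFunction.zeta ArithmeticFunction.Moebius

/-- GS (EASY): geometric sums.  PROOF.  The sum has at most `B - A` terms of norm `1`.  If
`nn γ = 0` nothing is left.  Otherwise `ee γ ≠ 1`, the sum is `ee((A+1)γ) (1 - ee((B-A)γ)) / (1 - ee γ)`
(empty if `B ≤ A`), and `‖1 - ee γ‖ = 2 |sin(π γ)| = 2 sin(π nn γ) ≥ 4 nn γ`
(`Real.mul_le_sin` : `(2/π) x ≤ sin x` on `[0, π/2]`). -/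
def tsGS : Prop := ∀ (A B : ℕ) (γ : ℝ),
  ‖∑ l ∈ Finset.Ioc A B, ee (l * γ)‖ * nn γ ≤ 1 / 2 ∧
  ‖∑ l ∈ Finset.Ioc A B, ee (l * γ)‖ ≤ ((B - A : ℕ) : ℝ)

/-- W1 (EASY; uses GS): Weyl in degree one.  PROOF.  Take `δ = δ'`, `K0 = 1`, `q = 1`,
`m = round α`, `α = f.coeff 1`.  `f.eval k = α k + f.coeff 0`, so the sum has norm
`‖∑ ee (k α)‖`, and `nn α ≤ 1 / (2 K^(1 - δ)) ≤ K^(δ' - 1)`. -/
def tsW1 : Prop := WeylP 1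

/-- W2 (EASY-MEDIUM): Weyl differencing.  PROOF.  `|∑ z_k|² = ∑_{k, k'} z_k conj z_k'`; the terms
`k = k'` give `B - A ≤ K` (norm one); the others come in conjugate pairs `(k + h, k)`, `(k, k + h)`
with `1 ≤ h ≤ K`, and for fixed `h` the sum is over `k ∈ Ioc A (B - h)` (natural subtraction; if
`h > B` or `B - h ≤ A` it is empty in both descriptions).  `z_(k+h) conj z_k = ee(f(k+h) - f(k))`. -/
def tsW2 : Prop := ∀ (f : ℕ → ℝ) (K A B : ℕ), B ≤ A + K →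
  ‖∑ k ∈ Finset.Ioc A B, ee (f k)‖ ^ 2 ≤ (K : ℝ) +
    2 * ∑ h ∈ Finset.Icc 1 K, ‖∑ k ∈ Finset.Ioc A (B - h), ee (f (k + h) - f k)‖

/-- W3 (MEDIUM): many multiples of `β` close to integers.  PROOF.  Let `S` be the set of the
`h ∈ [1, N]` with `nn(β h) ≤ ε`, `#S ≥ κ N`, `ε ≤ κ / 25`, `0 < κ ≤ 1`.  Dirichlet with `2 N`:
coprime `a`, `q` with `1 ≤ q ≤ 2 N`, `|β - a/q| ≤ 1 / (2 q N)` (`Real.exists_int_int_abs_mul_sub_le`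
gives `|β k - j| ≤ 1 / (2 N + 1)`, `k ≤ 2 N`; reduce the fraction).  For `h ≤ N` `|β h - a h/q| ≤ 1/(2 q)`.
So `h ∈ S` implies `nn(a h/q) ≤ ε + 1/(2 q)`, i.e. the residue `a h mod q` lies within `q ε + 1/2` of
`0` modulo `q`: at most `2 (q ε + 1/2) + 1 = 2 q ε + 2` residues `h` mod `q` (`a` is invertible), each
with at most `N/q + 1 ≤ 3 N/q` values `h ∈ [1, N]`.  Thus `κ N ≤ #S ≤ 6 N ε + 6 N/q`, `6 ε ≤ κ/4`, so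
`q ≤ 8/κ ≤ 12/κ`.  Then `ε < 1/(2 q)`; if `q ∤ h` then `nn(a h/q) ≥ 1/q` and `nn(β h) ≥ 1/(2 q) > ε`.
So all elements of `S` are multiples `h = q h'`, and `β h` is within `|θ| q h' ≤ 1/(2 q) ≤ 1/2` of the
integer `a h'`, `θ = β - a/q`, so `nn(β h) = |θ| q h'` (for `|θ| q h' ≤ 1/2` the distance to the
nearest integer is the distance to this integer).  Let `h' q` be the largest element of `S`: it is
`≥ #S` if `q = 1`, in general `h' ≥ #S ≥ κ N` (the `h'` are distinct positive integers).  Hence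
`|θ| q κ N ≤ |θ| q h' ≤ ε`, and `|q β - a| = q |θ| ≤ ε/(κ N)`. -/
def tsW3 : Prop := ∀ (β κ ε : ℝ) (N : ℕ), 1 ≤ N → 0 < κ → κ ≤ 1 → 0 ≤ ε → ε ≤ κ / 25 →
  κ * N ≤ (((Finset.Icc 1 N).filter (fun h => nn (β * (h : ℕ)) ≤ ε)).card : ℝ) →
  ∃ q : ℕ, 1 ≤ q ∧ (q : ℝ) ≤ 12 / κ ∧ ∃ m : ℤ, |(q : ℝ) * β - m| ≤ ε / (κ * N)

/-- W4 (MEDIUM; uses W2, W3): the induction step of Weyl's inequality.  PROOF.  Let `d ≥ 1`,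
`WeylP d`, `δ' > 0`; we may take `δ' ≤ 1` (for larger `δ'` use the result for `1`).  Let `η = δ'/8`,
`δ_d`, `K_d` those of `WeylP d` for `η`; `δ = min (δ_d/3) (δ'/16)`.  Let `S` be the sum for `f` of
degree `≤ d + 1`, `α = f.coeff (d+1)`, `‖S‖ ≥ K^(1-δ)`.  The polynomial `f_h(x) = f(x + h) - f(x)`
has `natDegree ≤ d` and coefficient `(d+1) h α` in degree `d`.  W2: `K^(2-2δ) ≤ K + 2 ∑_h ‖S_h‖`,
`S_h = ∑_{k ∈ Ioc A (B-h)} ee(f_h k)`, `‖S_h‖ ≤ K`.  If `n₁` is the number of `h ∈ [1, K]` with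
`‖S_h‖ ≥ K^(1-3δ)` then `K^(2-2δ) ≤ K + 2 n₁ K + 2 K^(2-3δ)`, so `n₁ ≥ K^(1-2δ)/4` for large `K`.  For
each such `h` `WeylP d` (`K^(1-δ_d) ≤ K^(1-3δ)`) gives `q_h ∈ [1, K^η]` and `m` with
`|q_h (d+1) h α - m| ≤ K^(η-d)`.  Pigeonhole: one `q` serves at least `κ K` of the `h`,
`κ = K^(-2δ-η)/4`.  W3 with `β = q (d+1) α`, `N = K`, `ε = K^(η-d)`; `ε ≤ κ/25` for large `K` as
`d ≥ 1` and `2 η + 2 δ ≤ 3/8`.  It gives `q₂ ≤ 12/κ = 48 K^(2δ+η)` and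
`|q₂ β - m| ≤ ε/(κ K) = 4 K^(2δ+2η-(d+1))`.  `q₂ q (d+1)` is the wanted integer: it is
`≤ 48 (d+1) K^(2δ+2η) ≤ K^δ'` and `4 K^(2δ+2η-(d+1)) ≤ K^(δ'-(d+1))` for large `K`, because
`2δ + 2η ≤ 3δ'/8 < δ'`. -/
def tsW4 : Prop := ∀ d : ℕ, 1 ≤ d → WeylP d → WeylP (d + 1)

/-- W5 (EASY-MEDIUM; uses W1, W4): Weyl's inequality for the multiples of an integer polynomial.
PROOF.  Induction gives `WeylP d` for `d = F.natDegree ≥ 1`.  Let `L = F.leadingCoeff ≥ 1`.  Apply it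
with `δ'/2` to the real polynomial `γ F` (`f.coeff d = γ L`), the interval `Ioc A K`, `A ≤ K`:
`|q γ L - m| ≤ K^(δ'/2-d)`, `q ≤ K^(δ'/2)`.  Take the integer `q L ≤ K^δ'` (large `K`) and divide by
`q L ≥ 1`. -/
def tsW5 : Prop := ∀ F : Polynomial ℤ, 1 ≤ F.natDegree → 0 < F.leadingCoeff → ∀ δ' : ℝ, 0 < δ' →
  ∃ δ : ℝ, 0 < δ ∧ ∃ K0 : ℝ, ∀ K : ℕ, K0 ≤ (K : ℝ) → ∀ (γ : ℝ) (A : ℕ),
  (K : ℝ) ^ (1 - δ) ≤ ‖∑ k ∈ Finset.Ioc A K, ee (γ * ((F.eval (k : ℤ) : ℤ) : ℝ))‖ →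
  ∃ q : ℕ, 1 ≤ q ∧ (q : ℝ) ≤ (K : ℝ) ^ δ' ∧ ∃ a : ℤ,
    |γ - a / q| ≤ (K : ℝ) ^ (δ' - (F.natDegree : ℝ))

/-- W6 (EASY-MEDIUM): counting the `t` with `t/M` close to a fraction of small denominator.  PROOF.
`0 ≤ t/M < 1` and `|t/M - a/q| ≤ ρ ≤ 1` give `-q ≤ a ≤ 2 q`, at most `3 q + 1 ≤ 4 q` values.  For given
`a`, `q` the integers `t` lie in an interval of length `2 ρ M`: at most `2 ρ M + 1` values.  Sum over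
`q ≤ Q`: at most `∑ 4 q (2 ρ M + 1) ≤ 4 Q² (2 ρ M + 1)`. -/
def tsW6 : Prop := ∀ (M : ℕ) (Q ρ : ℝ), 1 ≤ M → 1 ≤ Q → 0 ≤ ρ → ρ ≤ 1 →
  {t : ℕ | t < M ∧ ∃ q : ℕ, 1 ≤ q ∧ (q : ℝ) ≤ Q ∧ ∃ a : ℤ, |(t : ℝ) / M - a / q| ≤ ρ}.Finite ∧
  (Set.ncard {t : ℕ | t < M ∧ ∃ q : ℕ, 1 ≤ q ∧ (q : ℝ) ≤ Q ∧ ∃ a : ℤ, |(t : ℝ) / M - a / q| ≤ ρ} : ℝ) ≤
    4 * Q ^ 2 * (2 * ρ * M + 1)

/-- Q1 (EASY): orthogonality modulo `M`.  PROOF.  Geometric sum of the `M`-th root of unity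
`ee(t/M)`, which is `1` iff `M ∣ t`. -/
def tsQ1 : Prop := ∀ (M : ℕ) (t : ℤ), 1 ≤ M →
  ∑ j ∈ Finset.range M, ee ((j : ℝ) * t / M) = if (M : ℤ) ∣ t then (M : ℂ) else 0

/-- Q2 (EASY; uses Q1): Parseval modulo `M`.  PROOF.  Expand the square
`‖U‖² = U conj U = ∑_{n, n'} u(n) u(n') ee((n - n') j/M)`, sum over `j` first; `|n - n'| < M`. -/
def tsQ2 : Prop := ∀ (u : ℕ → ℝ) (N M : ℕ), N < M →
  ∑ j ∈ Finset.range M, ‖SS u N ((j : ℝ) / M)‖ ^ 2 = (M : ℝ) * ∑ n ∈ Finset.Icc 1 N, u n ^ 2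

/-- Q3 (EASY-MEDIUM; uses Q1): correlations by the finite Fourier transform.  PROOF.  The right hand
side is `(1/M) ∑_{n ≤ N} ∑_{m ≤ N+H} u(n) v(m) ∑_j ee((n - m + h) j/M)`; `|n - m + h| < M` because
`1 - (N + H) ≤ n - m + h ≤ N - 1 + H`, so only `m = n + h ≤ N + H` remains (`h ≤ H`). -/
def tsQ3 : Prop := ∀ (u v : ℕ → ℝ) (N H M h : ℕ), N + H < M → h ≤ H →
  ((cor u v N h : ℝ) : ℂ) = (1 / (M : ℂ)) * ∑ j ∈ Finset.range M,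
    SS u N ((j : ℝ) / M) * (starRingEnd ℂ) (SS v (N + H) ((j : ℝ) / M)) * ee ((h : ℝ) * j / M)

/-- Q4 (MEDIUM; uses Q2, Q3): the second moment over a set of shifts.  `κ` is a finite set of
indices, `sh k ≤ H` the shifts, `W(t) = ∑_k ee(sh(k) t/M)` for integers `t`, `#G` is the number of
`t ∈ [0, M)` with `‖W(t)‖ > w`; one of the two sequences has exponential sums `≤ B`.  PROOF.  Put
`U_j = ‖SS u N (j/M)‖`, `V_j = ‖SS v (N+H) (j/M)‖`.  By Q3 (squared: `cor² = cor * conj cor`)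
`∑_k cor(sh k)² = M^(-2) ∑_{i,j} (U V-terms at i) conj(U V-terms at j) ∑_k ee(sh(k)(i - j)/M)
≤ M^(-2) ∑_{i,j < M} U_i V_i U_j V_j ‖W(i - j)‖`.  `W` has period `M`, and `‖W‖ ≤ #κ`.  The pairs with
`‖W(i-j)‖ ≤ w` contribute at most `w M^(-2) (∑_i U_i V_i)² ≤ w M^(-2) (∑ U²)(∑ V²) ≤
w (∑ u²)(∑ v²)` (Cauchy, Q2).  For the others `U_i V_i U_j V_j ≤ (U_i² V_j² + U_j² V_i²)/2`; in the
case `U ≤ B` it is `≤ B² (V_j² + V_i²)/2` and for every `j` there are exactly `#G` indices `i` with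
`(i - j) mod M ∈ G` (and the same with `i`, `j` exchanged, because `‖W(-t)‖ = ‖W(t)‖`), so these pairs
contribute at most `#κ M^(-2) B² #G ∑_j V_j² = #κ B² (#G/M) ∑ v²`.  In the case `V ≤ B` the same
with `∑ u²`. -/
def tsQ4 : Prop := ∀ (κ : Finset ℕ) (sh : ℕ → ℕ) (u v : ℕ → ℝ) (N H M G : ℕ) (w B : ℝ), N + H < M →
  (∀ k ∈ κ, sh k ≤ H) → 0 ≤ w → 0 ≤ B →
  (((Finset.range M).filter
    (fun t : ℕ => w < ‖∑ k ∈ κ, ee ((sh k : ℝ) * t / M)‖)).card ≤ G) →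
  ((∀ j < M, ‖SS u N ((j : ℝ) / M)‖ ≤ B) →
    ∑ k ∈ κ, cor u v N (sh k) ^ 2 ≤
      w * (∑ n ∈ Finset.Icc 1 N, u n ^ 2) * (∑ n ∈ Finset.Icc 1 (N + H), v n ^ 2) +
      (κ.card : ℝ) * B ^ 2 * ((G : ℝ) / M) * ∑ n ∈ Finset.Icc 1 (N + H), v n ^ 2) ∧
  ((∀ j < M, ‖SS v (N + H) ((j : ℝ) / M)‖ ≤ B) →
    ∑ k ∈ κ, cor u v N (sh k) ^ 2 ≤
      w * (∑ n ∈ Finset.Icc 1 N, u n ^ 2) * (∑ n ∈ Finset.Icc 1 (N + H), v n ^ 2) +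
      (κ.card : ℝ) * B ^ 2 * ((G : ℝ) / M) * ∑ n ∈ Finset.Icc 1 N, u n ^ 2)

/-- L0 (EASY): divisor bound.  PROOF.  In the library: `zeta_pow_le` / `divisor_bound` of
`Work/MP_122e00_nt/Bd/B42.lean` (adapt: from a bound for all large `X` and `N ≤ X` one gets
`d_r(n) ≤ C n^ε` for all `n ≥ 1`, taking `X = max n X0`). -/
def tsL0 : Prop := ∀ (r : ℕ) (ε : ℝ), 0 < ε → ∃ C : ℝ, 0 < C ∧ ∀ n : ℕ, 1 ≤ n →
  dr r n ≤ C * (n : ℝ) ^ ε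

/-- L1 (MEDIUM): splitting off a long variable.  PROOF.  `r ≥ 1`, `y = X^(1/(2r)) ≥ 1`.  In the ring
of arithmetic functions with real values let `u` be the indicator function of `1 ≤ n ≤ y`,
`v = ζ - u` that of `n > y`.  `ζ^r - u^r = v * W`, `W = ∑_{i < r} u^i ζ^(r-1-i)` (`Commute.mul_geom_sum₂`
or induction), `0 ≤ W ≤ r ζ^(r-1) ≤ r ζ^r` pointwise (monotonicity of the convolution of nonnegative
functions; `W 0 = 0`).  `0 ≤ ∑_{n ≤ X} u^r(n) ≤ (∑ u(n))^r ≤ y^r = X^(1/2)` (induction on `r`).  And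
`∑_{n ≤ N} (v * W)(n) g(n) = ∑_{m ≤ N} W(m) ∑_{l ≤ N/m, l > y} g(m l)`, where for `m > X/y`
(`N ≤ X`) the inner sum is empty. -/
def tsL1 : Prop := ∀ (r : ℕ) (X : ℝ), 1 ≤ r → 1 ≤ X → ∃ W : ℕ → ℝ,
  (∀ m, 0 ≤ W m ∧ W m ≤ r * dr r m) ∧ ∀ (g : ℕ → ℂ) (N : ℕ), (∀ n, ‖g n‖ ≤ 1) → (N : ℝ) ≤ X →
  ‖∑ n ∈ Finset.Icc 1 N, (dr r n : ℂ) * g n -
    ∑ m ∈ Finset.Icc 1 ⌊X ^ (1 - 1 / (2 * (r : ℝ)))⌋₊, (W m : ℂ) *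
      ∑ l ∈ Finset.Ioc ⌊X ^ (1 / (2 * (r : ℝ)))⌋₊ (N / m), g (m * l)‖ ≤ X ^ (1 / 2 : ℝ)

/-- L2 (MEDIUM): a block of `q` consecutive multiples.  PROOF.  For `m` in the block let
`j(m) = ⌊q fract(α m)⌋ ∈ {0, …, q-1}`.  If `j(m) = j(m')` then `nn(α (m - m')) < 1/q`, and
`|α (m-m') - a (m-m')/q| ≤ |m-m'|/q² < 1/q`, so `nn(a (m-m')/q) < 2/q`: `a (m - m') ≡ 0, 1` or
`-1 (mod q)`.  As `a` is invertible and the block is a complete system of residues, every value of `j`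
is taken by at most `3` elements.  If `j(m) = j` then `nn(α m) ≥ min(j, q-1-j)/q`.  The elements with
`j = 0` or `j = q - 1` contribute at most `6 Z`, the others at most
`3 ∑_{j=1}^{q-2} q/min(j, q-1-j) ≤ 6 q ∑_{j ≤ q} 1/j ≤ 6 q (1 + log q)`. -/
def tsL2 : Prop := ∀ (α : ℝ) (a : ℤ) (q m₀ : ℕ) (Z : ℝ) (b : ℕ → ℝ), 1 ≤ q → IsCoprime a (q : ℤ) →
  |α - a / q| ≤ 1 / (q : ℝ) ^ 2 → 0 ≤ Z →
  (∀ m ∈ Finset.Ioc m₀ (m₀ + q), 0 ≤ b m ∧ b m ≤ Z ∧ b m * nn (α * (m : ℕ)) ≤ 1) →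
  ∑ m ∈ Finset.Ioc m₀ (m₀ + q), b m ≤ 6 * (Z + q * (1 + Real.log q))

/-- L3 (MEDIUM; uses L2): sums of type I.  PROOF.  `1 ≤ q ≤ X`.  For `1 ≤ m ≤ q/2`:
`|α m - a m/q| ≤ m/q² ≤ 1/(2q)` and `nn(a m/q) ≥ 1/q`, so `nn(α m) ≥ nn(a m/q)/2`; the residues `a m`
are distinct and nonzero, so these `m` contribute at most
`2 ∑_{j=1}^{q-1} q/min(j, q-j) ≤ 4 q (1 + log q)`.  The others lie in the blocks
`Ioc m₀ (m₀ + q)`, `m₀ = ⌊q/2⌋ + h q`, `h = 0, 1, …` with `m₀ < M`; there `m ≥ (h + 1/2) q`, so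
`b m ≤ Z = 2 X/((2h+1) q) ≤ 2X/((h+1) q)` (put `b m = 0` for `m > M`), and L2 bounds the block by
`6 (2X/((h+1) q) + q (1 + log q))`.  The number of blocks is at most `H + 1`, `H ≤ M/q`;
`∑_{h ≤ H} 1/(h+1) ≤ 1 + log(H+1) ≤ 1 + log(X + 1) ≤ 2 + log X`, `(H+1) q ≤ M + q`. -/
def tsL3 : Prop := ∀ (α : ℝ) (a : ℤ) (q M : ℕ) (X : ℝ) (b : ℕ → ℝ), 1 ≤ q → IsCoprime a (q : ℤ) →
  |α - a / q| ≤ 1 / (q : ℝ) ^ 2 → (q : ℝ) ≤ X → (M : ℝ) ≤ X →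
  (∀ m ∈ Finset.Icc 1 M, 0 ≤ b m ∧ b m ≤ X / m ∧ b m * nn (α * (m : ℕ)) ≤ 1) →
  ∑ m ∈ Finset.Icc 1 M, b m ≤ 100 * (X / q + M + q) * (1 + Real.log X)

/-- L4 (MEDIUM; uses GS, L0, L1, L3): the minor arcs.  PROOF.  L1 with `g n = ee(n α)`:
`‖SS (dr r) N α‖ ≤ X^(1/2) + ∑_{m ≤ M} W(m) b(m)`, `M = ⌊X^(1-1/(2r))⌋`,
`b(m) = ‖∑_{l ∈ Ioc ⌊y⌋ (N/m)} ee(l (m α))‖ ≤ N/m ≤ X/m`, `b(m) nn(α m) ≤ 1/2` (GS).
`W(m) ≤ r d_r(m) ≤ C X^(ε/2)` (L0), L3, `1 + log X ≤ C X^(ε/2)`, `X^(1/2) ≤ X^(1-1/(2r))`. -/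
def tsL4 : Prop := ∀ (r : ℕ) (ε : ℝ), 1 ≤ r → 0 < ε → ∃ C : ℝ, 0 < C ∧
  ∀ (X α : ℝ) (N q : ℕ) (a : ℤ), 1 ≤ X → (N : ℝ) ≤ X → 1 ≤ q → (q : ℝ) ≤ X → IsCoprime a (q : ℤ) →
  |α - a / q| ≤ 1 / (q : ℝ) ^ 2 →
  ‖SS (dr r) N α‖ ≤ C * X ^ ε * (X / q + X ^ (1 - 1 / (2 * (r : ℝ))) + q)

/-- L5 (EASY-MEDIUM; uses GS, L0, L1): the twists by `a/q` hardly depend on `a`.  PROOF.  L1 with
`X = x`, `N = ⌊x⌋`, `g n = (ee(n a/q) - ee(n a'/q))/2`.  If `q ∣ m` then `g(m l) = 0`.  Otherwise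
`nn(m a/q) ≥ 1/q`, so by GS `‖∑_l ee(l (m a/q))‖ ≤ q/2`, the same for `a'`.  So the difference is at
most `2 x^(1/2) + q ∑_{m ≤ x^(1-1/(2r))} W(m) ≤ C q x^(1-1/(2r)+ε)` (L0). -/
def tsL5 : Prop := ∀ (r : ℕ) (ε : ℝ), 1 ≤ r → 0 < ε → ∃ C : ℝ, 0 < C ∧
  ∀ (x : ℝ) (q : ℕ) (a a' : ℤ), 1 ≤ x → 1 ≤ q → IsCoprime a (q : ℤ) → IsCoprime a' (q : ℤ) →
  ‖SS (dr r) ⌊x⌋₊ (a / q) - SS (dr r) ⌊x⌋₊ (a' / q)‖ ≤
    C * q * x ^ (1 - 1 / (2 * (r : ℝ)) + ε)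

end Pool.Agent.Work.MP_122e00_nt.TS
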