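import Mathlib
import Pool.Agent.Work.MP_122e00_nt.TS.Stmts1

/-!
# Thin shifts, part 2: the summatory function of `d_r` (D), over the multiples of `g` (M), with
additive twists (E)

Every docstring is a complete proof.  Earlier items are hypotheses.
-/

namespace Pool.Agent.Work.MP_122e00_nt.TS

open Finset Filter Topology ArithmeticFunction
open scoped ArithmeticFunction.zeta ArithmeticFunction.Moebius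

/-- D1 (MEDIUM): logarithmic sums.  PROOF.  `f(t) = (log t)^j / t`,
`|f'(t)| = |j (log t)^(j-1) - (log t)^j| / t² ≤ C t^(-3/2)` for `t ≥ 1`.  Let
`a(n) = ∑_{m ≤ n} f(m) - (log n)^(j+1)/(j+1)`.  Then `a(n+1) - a(n) = f(n+1) - ∫_n^(n+1) f`, at most
`sup_{[n,n+1]} |f'| ≤ C n^(-3/2)` in absolute value.  So `a(n)` converges, to `γ`, and
`|a(n) - γ| ≤ ∑_{m ≥ n} C m^(-3/2) ≤ 3 C n^(-1/2)`.  For real `z`, `n = ⌊z⌋`,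
`0 ≤ (log z)^(j+1) - (log n)^(j+1) ≤ (j+1) (log z)^j (log z - log n)` and
`log z - log n ≤ (z - n)/n ≤ 2/z`; `(log z)^j / z ≤ C z^(-1/2)`. -/
def tsD1 : Prop := ∀ j : ℕ, ∃ γ C : ℝ, 0 < C ∧ ∀ z : ℝ, 1 ≤ z →
  |∑ m ∈ Finset.Icc 1 ⌊z⌋₊, (Real.log m) ^ j / m - (Real.log z) ^ (j + 1) / (j + 1) - γ| ≤
    C * z ^ (-(1 / 2) : ℝ)

/-- D2 (EASY-MEDIUM; uses D1): the same for a polynomial of `L - log m`.  PROOF.  Taylor: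
`P(L - u) = ∑_{j ≤ deg P} (-u)^j P^(j)(L)/j!`.  Apply D1 for every `j`:
`∑_{m ≤ z} (-log m)^j/m = (-1)^j ((log z)^(j+1)/(j+1) + γ_j) + O(z^(-1/2))` and
`∫_0^(log z) (-u)^j du = (-1)^j (log z)^(j+1)/(j+1)`.  `G = ∑_j (-1)^j γ_j P^(j)/j!`, and
`|P^(j)(L)| ≤ C (1 + L)^(deg P)` for `L ≥ 0`. -/
def tsD2 : Prop := ∀ P : Polynomial ℝ, ∃ G : Polynomial ℝ, G.natDegree ≤ P.natDegree ∧
  ∃ C : ℝ, 0 < C ∧ ∀ z L : ℝ, 1 ≤ z → 0 ≤ L →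
  |∑ m ∈ Finset.Icc 1 ⌊z⌋₊, P.eval (L - Real.log m) / m - (∫ u in (0 : ℝ)..Real.log z, P.eval (L - u)) -
    G.eval L| ≤ C * (1 + L) ^ P.natDegree * z ^ (-(1 / 2) : ℝ)

/-- D3 (EASY-MEDIUM): hyperbola method.  PROOF.  The left hand side is the sum of `f l` over the pairs
`(m, l)` of positive integers with `m l ≤ x`.  The pairs with `m ≤ √x` give the first sum.  If
`m > √x` then `l < √x`, and for `l ≤ √x` the `m` with `√x < m ≤ x/l` are `⌊x/l⌋ - ⌊√x⌋` in number. -/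
def tsD3 : Prop := ∀ (f : ArithmeticFunction ℝ) (x : ℝ), 1 ≤ x →
  ∑ n ∈ Finset.Icc 1 ⌊x⌋₊, ((ζ : ArithmeticFunction ℝ) * f) n =
    ∑ m ∈ Finset.Icc 1 ⌊Real.sqrt x⌋₊, ∑ l ∈ Finset.Icc 1 ⌊x / m⌋₊, f l +
    ∑ l ∈ Finset.Icc 1 ⌊Real.sqrt x⌋₊, f l * ((⌊x / l⌋₊ : ℝ) - (⌊Real.sqrt x⌋₊ : ℝ))

/-- D4 (MEDIUM): partial summation.  PROOF.  With `F(t) = ∑_{l ≤ t} f(l)` (Abel summation)
`∑_{l ≤ z} f(l)/l = F(z)/z + ∫_1^z F(t)/t² dt`.  `F(z)/z = P(log z) + O(z^(-c))`,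
`∫_1^z P(log t)/t dt = ∫_0^(log z) P`, and `κ = ∫_1^∞ (F(t) - t P(log t)) t^(-2) dt` converges
absolutely with tail `≤ C ∫_z^∞ t^(-1-c) dt = (C/c) z^(-c)`. -/
def tsD4 : Prop := ∀ (f : ℕ → ℝ) (P : Polynomial ℝ) (c C : ℝ), 0 < c → PS f P c C →
  ∃ κ C' : ℝ, 0 < C' ∧ ∀ z : ℝ, 1 ≤ z →
  |∑ l ∈ Finset.Icc 1 ⌊z⌋₊, f l / l -
    (P.eval (Real.log z) + (∫ u in (0 : ℝ)..Real.log z, P.eval u) + κ)| ≤ C' * z ^ (-c)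

/-- D5 (MEDIUM; uses D2, D3, D4): convolution with `1`.  PROOF.  Let `L = log x`, `F` the summatory
function of `f`, `d = deg P`.  D3:
`∑_{n ≤ x} (ζ * f)(n) = ∑_{m ≤ √x} F(x/m) + ∑_{l ≤ √x} f(l) (⌊x/l⌋ - ⌊√x⌋)`.
First sum: `F(x/m) = (x/m) P(L - log m) + O((x/m)^(1-c))`, and
`∑_{m ≤ √x} (x/m)^(1-c) ≤ x^(1-c) (√x)^c/c = x^(1-c/2)/c`; by D2 with `z = √x` it is
`x (∫_0^(L/2) P(L - u) du + G(L)) + O(x (1+L)^d x^(-1/4)) + O(x^(1-c/2))`, and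
`(1+L)^d x^(-1/4) ≤ C x^(-1/8) ≤ C x^(-c/2)`.
Second sum: `x ∑_{l ≤ √x} f(l)/l - ⌊√x⌋ F(√x) + O(F(√x))`; `F(√x) ≤ C √x (1+L)^d ≤ C x^(3/4)
≤ C x^(1-c/2)`; `⌊√x⌋ F(√x) = √x F(√x) + O(F(√x)) = x P(L/2) + O(x^(1-c/2))`; by D4
`x ∑_{l ≤ √x} f(l)/l = x (P(L/2) + ∫_0^(L/2) P + κ) + O(x^(1-c/2))`.
Total `x P'(L) + O(x^(1-c/2))`, `P'(L) = ∫_0^L P + G(L) + κ` (because
`∫_0^(L/2) P(L-u) du = ∫_(L/2)^L P`), and `deg G ≤ d`. -/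
def tsD5 : Prop := ∀ (f : ArithmeticFunction ℝ) (P : Polynomial ℝ) (c C : ℝ), (∀ n, 0 ≤ f n) →
  0 < c → c ≤ 1 / 4 → PS f P c C → ∃ (P' : Polynomial ℝ) (C' : ℝ), P'.natDegree ≤ P.natDegree + 1 ∧
  (∀ j, P.natDegree ≤ j → P'.coeff (j + 1) = P.coeff j / ((j : ℝ) + 1)) ∧
  PS (fun n => ((ζ : ArithmeticFunction ℝ) * f) n) P' (c / 2) C'

/-- D6 (EASY-MEDIUM; uses D5): the Piltz divisor problem with some power saving.  PROOF.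
Induction on `r`.  `r = 1`: `⌊x⌋ = x + O(1)`, `P = 1`, `c = 1/4`.  Step: D5 with `f = ζ^r` over the
reals (`dr (r+1) n = (ζ * ζ^r) n`; `j = r - 1 ≥ deg P` gives the coefficient
`1/(r-1)!/r = 1/r!` in degree `r`).  For `0 < x < 1` the sum is empty and
`x |log x|^j ≤ j!`, so `|x P(log x)|` is bounded; enlarge `C`. -/
def tsD6 : Prop := ∀ r : ℕ, 1 ≤ r → ∃ (P : Polynomial ℝ) (c C : ℝ), P.natDegree ≤ r - 1 ∧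
  P.coeff (r - 1) = 1 / ((r - 1).factorial : ℝ) ∧ 0 < c ∧ c ≤ 1 / 4 ∧ 0 < C ∧ ∀ x : ℝ, 0 < x →
  |∑ n ∈ Finset.Icc 1 ⌊x⌋₊, dr r n - x * P.eval (Real.log x)| ≤ C * (1 + x) ^ (1 - c)

/-- M1 (MEDIUM): the expansion of the indicator function of `g ∣ ∏ a_i`.  PROOF.
`lam f = ∑_e ∏_i μ(f_i/e_i)` over the `e` with `e_i ∣ f_i` for all `i` and `g ∣ ∏ e_i` (for `f` with
all `f_i ∣ g`; `0` for other `f`).  `|lam f| ≤ ∏ #divisors(f_i) ≤ ∏ f_i ≤ g^r`.  Let `G_i = gcd(a_i, g)`.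
The right hand side is `∑_e [g ∣ ∏ e_i] ∏_i (∑_{f_i} μ(f_i/e_i))`, `e_i ∣ g`, where `f_i` runs over the
integers with `e_i ∣ f_i ∣ G_i`; the inner sum is `1` if `e_i = G_i` and `0` otherwise.  So it is
`[g ∣ ∏ G_i]`, and `g ∣ ∏ gcd(a_i, g)` iff `g ∣ ∏ a_i` (from right to left by induction: `g ∣ a b`
implies `g ∣ gcd(a b, g b) = gcd(a, g) b`). -/
def tsM1 : Prop := ∀ r g : ℕ, 1 ≤ g → ∃ lam : (Fin r → ℕ) → ℝ, Lam r g lam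

/-- M2 (MEDIUM): `d_r` over the multiples of `g`.  PROOF.  `dr r n` is the number of the
`a : Fin r → ℕ` with `∏ a_i = n` (`n ≥ 1`; `Nat.finMulAntidiag`, see `claimB3` and `dv` in this
folder, or induction).  The left hand side is the sum of `[g ∣ ∏ a_i]` over the `a` with `a_i ≥ 1` and
`∏ a_i ≤ x`; insert the expansion: `∑_f lam f #{a : f_i ∣ a_i, ∏ a_i ≤ x}`, and `a_i = f_i b_i`,
`∏ b_i ≤ x/∏ f_i`. -/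
def tsM2 : Prop := ∀ (r g : ℕ) (lam : (Fin r → ℕ) → ℝ) (x : ℝ), 1 ≤ g → 0 ≤ x → Lam r g lam →
  ∑ n ∈ (Finset.Icc 1 ⌊x⌋₊).filter (g ∣ ·), dr r n =
    ∑ f ∈ Fintype.piFinset (fun _ : Fin r => g.divisors), lam f *
      ∑ n ∈ Finset.Icc 1 ⌊x / ((∏ i, f i : ℕ) : ℝ)⌋₊, dr r n

/-- M3 (MEDIUM): the mean of the expansion.  PROOF.  Sum the identity of `Lam` over all
`a : Fin r → ℕ` with `1 ≤ a_i ≤ g` and divide by `g^r`.  Left: the number of these `a` with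
`g ∣ ∏ a_i` is the number of `c : Fin r → ZMod g` with `∏ c_i = 0` (`a ↦ a mod g` is a bijection of
`Icc 1 g` onto `ZMod g`), so the left hand side is `rho r g`.  Right: `∑_{a ≤ g} [f_i ∣ a] = g/f_i` as
`f_i ∣ g`, so `∑_f lam f ∏ (1/f_i)`. -/
def tsM3 : Prop := ∀ (r g : ℕ) (lam : (Fin r → ℕ) → ℝ), 1 ≤ g → Lam r g lam →
  ∑ f ∈ Fintype.piFinset (fun _ : Fin r => g.divisors), lam f * ∏ i, (1 / (f i : ℝ)) = rho r g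

/-- M4 (EASY-MEDIUM; uses D6, M1, M2, M3): the multiples.  PROOF.  For `g ≥ 1` take `lam_g` of M1
and `B g = ∑_f lam_g f (∏ f_i)^(-1) P(X - log ∏ f_i)` with `P` of D6; `B 0 = 0`.  `deg ≤ r - 1`, the
coefficient of degree `r - 1` is `(1/(r-1)!) ∑_f lam_g f ∏ (1/f_i) = rho r g/(r-1)!` (M3).  By M2 and
D6 (at `x/∏ f_i > 0`) the error is at most
`∑_f |lam_g f| C (1 + x)^(1-c) ≤ g^r g^r C (2x)^(1-c)` (at most `g^r` values of `f`), and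
`C' = max (2 C) (2 r)` is admissible. -/
def tsM4 : Prop := ∀ r : ℕ, 1 ≤ r → ∃ B : ℕ → Polynomial ℝ, MU r B

/-- E1 (EASY-MEDIUM): Ramanujan sums.  PROOF.  Let `c(q)` be the left hand side.  Sorting
`a ∈ [0, q)` by `gcd(a, q)` gives `∑_{d ∣ q} c(d) = ∑_{a < q} ee(n a/q) = q` if `q ∣ n` and `0`
otherwise, i.e. `= Fh n q = ∑_{d ∣ q} Gh n d` (`sum_Gh`) for all `q ≥ 1`; strong induction on `q`. -/
def tsE1 : Prop := ∀ q n : ℕ, 1 ≤ q →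
  ∑ a ∈ (Finset.range q).filter (fun a => Nat.Coprime a q), ee ((n : ℝ) * a / q) = ((Gh n q : ℝ) : ℂ)

/-- E2 (MEDIUM): the recursion of `rho`.  PROOF.  `q^(s+1) rho (s+1) q` is the number of pairs
`(c₀, c)`, `c₀ ∈ ZMod q`, `c ∈ (ZMod q)^s`, with `c₀ ∏ c = 0`.  For fixed `c`, `m = ∏ c`, there are
`gcd(m, q) = ∑_{d ∣ q, d ∣ m} φ(d)` such `c₀`.  The number of `c ∈ (ZMod q)^s` with `d ∣ ∏ c` is
`(q/d)^s d^s rho s d = q^s rho s d` (each residue mod `d` has `q/d` lifts).  Divide by `q^s`. -/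
def tsE2 : Prop := ∀ s q : ℕ, 1 ≤ q →
  (q : ℝ) * rho (s + 1) q = ∑ d ∈ q.divisors, (Nat.totient d : ℝ) * rho s d

/-- E3 (MEDIUM; uses L5, E1, E2): additive twists.  PROOF.  `E 0 = 0`, for `q ≥ 1`
`E q = (1/φ(q)) ∑_{g ∣ q} μ(q/g) g B g`.  Degree: clear.  Coefficient of degree `r - 1`:
`(1/φ(q)) ∑_{g ∣ q} μ(q/g) g rho r g/(r-1)!`, and E2 (`s = r - 1`) with Moebius inversion gives
`∑_{g ∣ q} μ(q/g) g rho r g = φ(q) rho (r-1) q`.  Asymptotics: let `R` be the set of the `a' ∈ [0, q)`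
coprime to `q`, `#R = φ(q)`, `T(a) = SS (dr r) ⌊x⌋ (a/q)`.  L5 with `ε = 1/(4r)`:
`‖T(a) - T(a')‖ ≤ C q x^(1-1/(4r))` for all `a' ∈ R`, so `‖T(a) - (1/φ(q)) ∑_{a' ∈ R} T(a')‖` is at
most this.  By E1 `∑_{a' ∈ R} T(a') = ∑_{n ≤ x} dr r n Gh n q`, and `Gh n q = ∑_{g ∣ q} μ(q/g) Fh n g`,
so it is `∑_{g ∣ q} μ(q/g) g ∑_{n ≤ x, g ∣ n} dr r n = φ(q) x (E q)(log x) + O(q · q · C q^C x^(1-c))`
by MU.  Take `c' = min c (1/(4r))` and `C' = C + ⋯ + 2`. -/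
def tsE3 : Prop := ∀ (r : ℕ) (B : ℕ → Polynomial ℝ), 1 ≤ r → MU r B → ∃ E : ℕ → Polynomial ℝ, AP r E

/-- E4 (EASY-MEDIUM): coefficients of a polynomial which is bounded on `[A, 2A]`.  PROOF.  Nodes
`s_i = 1 + i/(d+1) ∈ [1, 2]`, `i = 0, …, d`, Lagrange basis `ℓ_i` (fixed polynomials of degree
`≤ d`).  `p(A s) = ∑_i p(A s_i) ℓ_i(s)` as polynomials in `s`; compare the coefficients of `s^j`:
`A^j p_j = ∑_i p(A s_i) (ℓ_i)_j`, and `A^j ≥ 1`.  `C = max_j ∑_i |(ℓ_i)_j|`. -/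
def tsE4 : Prop := ∀ d : ℕ, ∃ C : ℝ, 0 < C ∧ ∀ p : Polynomial ℝ, p.natDegree ≤ d → ∀ A M : ℝ,
  1 ≤ A → 0 ≤ M → (∀ t ∈ Set.Icc A (2 * A), |p.eval t| ≤ M) → ∀ j, |p.coeff j| ≤ C * M

/-- E5 (MEDIUM; uses L4, E4): the coefficients of `E q` are small.  PROOF.  We may take `ε ≤ 1`.
Let `c`, `C ≥ 1` be those of `AP`, `K = max (2 r) (max 2 ((C+1)/c))`, `ε' = ε/(2K)`, `C₄` the constant
of L4 for `ε'`.  Let `q ≥ 2`, `A = K log q ≥ 1` (`2 log 2 > 1`), `t ∈ [A, 2A]`, `x = e^t ∈ [q^K, q^(2K)]`.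
L4 with `X = x`, `N = ⌊x⌋`, `α = 1/q` (`a = 1`):
`‖SS (dr r) ⌊x⌋ (1/q)‖ ≤ C₄ x^ε' (x/q + x^(1-1/(2r)) + q)`.  With AP and division by `x`:
`|(E q)(t)| ≤ C₄ x^ε' (1/q + x^(-1/(2r)) + q/x) + C q^C x^(-c)`.  `x^(-1/(2r)) ≤ q^(-K/(2r)) ≤ 1/q`,
`q/x ≤ q^(1-K) ≤ 1/q`, `q^C x^(-c) ≤ q^(C-cK) ≤ 1/q`, `x^ε' ≤ q^(2Kε') = q^ε`.  So
`|(E q)(t)| ≤ (3 C₄ + C) q^(ε-1)` on `[A, 2A]`, and E4 with `d = r - 1` bounds the coefficients.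
`q = 1`: finitely many coefficients. -/
def tsE5 : Prop := ∀ (r : ℕ) (E : ℕ → Polynomial ℝ), 1 ≤ r → AP r E → CB E

end Pool.Agent.Work.MP_122e00_nt.TS
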