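import Mathlib
import Pool.Agent.Work.MP_122e00_nt.TS.Stmts2
import Pool.Agent.Work.MP_122e00_nt.Euler4

/-!
# Thin shifts, part 3: the model (F), its correlations (G), the assembly (H)

Every docstring is a complete proof.  Earlier items are hypotheses.
-/

namespace Pool.Agent.Work.MP_122e00_nt.TS

open Finset Filter Topology ArithmeticFunction
open scoped ArithmeticFunction.zeta ArithmeticFunction.Moebius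

/-- F1 (EASY; uses GS): Abel summation.  PROOF.  With `S_n = ∑_{m ≤ n} ee(m γ)`, `‖S_n‖ nn γ ≤ 1/2`
(GS with `A = 0`), the sum is `b_N S_N - ∑_{1 ≤ n < N} (b_(n+1) - b_n) S_n`. -/
def tsF1 : Prop := ∀ (b : ℕ → ℝ) (V γ : ℝ) (N : ℕ),
  |b N| + ∑ n ∈ Finset.Ico 1 N, |b (n + 1) - b n| ≤ V →
  ‖∑ n ∈ Finset.Icc 1 N, (b n : ℂ) * ee (n * γ)‖ * nn γ ≤ V

/-- F2 (EASY-MEDIUM): variation of `p(log n) p'(log(n + h))`.  PROOF.  Expand in monomials: for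
`n ≥ 1` the sequences `(log n)^i (log(n+h))^j` are nonnegative and nondecreasing, so value at `N` plus
variation is at most `2 (log(N+h))^(i+j) ≤ 2 (1 + log(N+h))^(2d)`; there are `(d+1)²` monomials with
coefficients `≤ M M'`. -/
def tsF2 : Prop := ∀ d : ℕ, ∃ C : ℝ, 0 < C ∧ ∀ (p p' : Polynomial ℝ) (M M' : ℝ) (N h : ℕ),
  p.natDegree ≤ d → p'.natDegree ≤ d → (∀ j, |p.coeff j| ≤ M) → (∀ j, |p'.coeff j| ≤ M') → 1 ≤ N →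
  |p.eval (Real.log N) * p'.eval (Real.log ((N : ℝ) + h))| +
    ∑ n ∈ Finset.Ico 1 N, |p.eval (Real.log ((n + 1 : ℕ) : ℝ)) *
        p'.eval (Real.log (((n + 1 : ℕ) : ℝ) + h)) -
      p.eval (Real.log n) * p'.eval (Real.log ((n : ℝ) + h))| ≤
  C * M * M' * (1 + Real.log ((N : ℝ) + h)) ^ (2 * d)

/-- F3 (EASY-MEDIUM): the sum of the density.  PROOF.  `φ(t) = (ed p)(log t)` is the derivative of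
`t p(log t)`, so `∫_1^x φ = x p(log x) - p(0)`.  `|φ(n) - ∫_(n-1)^n φ| ≤ ∫_(n-1)^n |φ'|` for `n ≥ 2`,
`|∫_N^x φ| ≤ sup |φ|` (`N = ⌊x⌋`), `|φ'(t)| = |(ed p)'(log t)|/t ≤ C M (1 + log t)^d/t`,
`|φ(t)| ≤ C M (1 + log t)^d`, and `∫_1^x (1 + log t)^d/t dt ≤ (1 + log x)^(d+1)`. -/
def tsF3 : Prop := ∀ d : ℕ, ∃ C : ℝ, 0 < C ∧ ∀ (p : Polynomial ℝ) (M x : ℝ), p.natDegree ≤ d →
  (∀ j, |p.coeff j| ≤ M) → 1 ≤ x →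
  |∑ n ∈ Finset.Icc 1 ⌊x⌋₊, (ed p).eval (Real.log n) - x * p.eval (Real.log x)| ≤
    C * M * (1 + Real.log x) ^ (d + 1)

/-- F4 (MEDIUM; uses F3): the major arcs.  PROOF.  Let
`R(n) = ∑_{m ≤ n} (dr r m ee(m a/q) - (ed (E q))(log m))`.  By AP and F3 (`M ≤ C` by CB with `ε = 1`)
`‖R(n)‖ ≤ C q^C n^(1-c) + C (1 + log n)^r ≤ C' q^C' n^(1-c)` for `n ≥ 1` (`c ≤ 1/4`).
`ee(m (a/q + β)) = ee(m a/q) ee(m β)`.  Abel summation: the difference is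
`R(N) ee(N β) - ∑_{1 ≤ n < N} R(n) (ee((n+1) β) - ee(n β))`, and `‖ee β - 1‖ ≤ 2 π |β|`;
`∑_{n < N} n^(1-c) ≤ N · N^(1-c)`. -/
def tsF4 : Prop := ∀ (r : ℕ) (E : ℕ → Polynomial ℝ), 1 ≤ r → AP r E → CB E →
  ∃ c C : ℝ, 0 < c ∧ c ≤ 1 / 4 ∧ 0 < C ∧ ∀ (q N : ℕ) (a : ℤ) (β : ℝ), 1 ≤ q → 1 ≤ N →
  IsCoprime a (q : ℤ) →
  ‖SS (dr r) N (a / q + β) -
    ∑ n ∈ Finset.Icc 1 N, (((ed (E q)).eval (Real.log n) : ℝ) : ℂ) * ee (n * β)‖ ≤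
  C * (q : ℝ) ^ C * (N : ℝ) ^ (1 - c) * (1 + |β| * N)

/-- F5 (MEDIUM-HARD; uses L4, E1, F1, F2, F4): the difference of `d_r` and its model has small
exponential sums.  PROOF.  `c`, `C ≥ 1` as in F4.  `η₁ = c/4`, `η₂ = min (c/64) (min (c/(8C)) (1/100))`,
`Q = ⌊X^η₂⌋`, `p_q = ed (E q)`, coefficients bounded by a constant (CB, `ε = 1`).  By E1
`SS (fs E Q) N α = ∑_{q' ≤ Q} ∑_{a'} ∑_{n ≤ N} p_q'(log n) ee(n (α + a'/q'))`, `a'` over the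
`a' ∈ [0, q')` coprime to `q'`.  Dirichlet (`Real.exists_int_int_abs_mul_sub_le` with
`n = ⌊X^(1-η₁)⌋`, reduced): coprime `a`, `q` with `1 ≤ q ≤ X^(1-η₁)`, `β = α - a/q`,
`|β| ≤ X^(η₁-1)/q ≤ 1/q²`.
(i) The pairs `(q', a')` with `a/q + a'/q'` not an integer: `nn(a/q + a'/q') ≥ 1/(q q')`, and
`q' ≤ X^η₂ ≤ X^(1-η₁)/2`, so `nn(α + a'/q') ≥ 1/(q q') - X^(η₁-1)/q ≥ 1/(2 q q') ≥
X^(η₁-1-η₂)/2`.  F1 and F2 (with `p' = 1`, `h = 0`, `d = r`): the inner sum is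
`≤ C (1 + log 2X)^(2r) X^(1-η₁+η₂)`; at most `Q²` pairs, total `≤ C (1 + log 2X)^(2r) X^(1-η₁+3η₂)`.
(ii) If `q ≤ Q` there is exactly one other pair, `q' = q`, `a' ≡ -a`, and `ee(n(α + a'/q)) = ee(n β)`;
by F4 the difference of `SS (dr r) N α` and this term is
`≤ C X^(C η₂) (2X)^(1-c) (1 + 2 X^η₁) ≤ C' X^(1-c+η₁+Cη₂)`.
(iii) If `q > Q` there is no other pair (`a/q + a'/q'` integral implies `q = q'`), and L4 with `2X`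
for `X`: `‖SS (dr r) N α‖ ≤ C (2X)^ε (2X/q + (2X)^(1-1/(2r)) + q)`, `q > Q`, so `q ≥ X^η₂`,
`q ≤ X^(1-η₁)`.
`N = 0` is trivial.  All exponents are `≤ 1 - m + ε`, `m = min (c/8) (min η₂ (1/(2r)))`; take
`ε = m/2`, `η = m/4` and `X` large. -/
def tsF5 : Prop := ∀ (r : ℕ) (E : ℕ → Polynomial ℝ), 1 ≤ r → AP r E → CB E →
  ∃ η₂ η X0 : ℝ, 0 < η₂ ∧ η₂ ≤ 1 / 100 ∧ 0 < η ∧ η ≤ 1 ∧ ∀ (X α : ℝ) (N : ℕ), X0 ≤ X →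
  (N : ℝ) ≤ 2 * X → ‖SS (fl r E ⌊X ^ η₂⌋₊) N α‖ ≤ X ^ (1 - η)

/-- F6 (MEDIUM; uses L0): pointwise bound of the model.  PROOF.  Let `ε' = ε/8`.
`|Gh n q| ≤ ∑_{g ∣ q, g ∣ n} g`, `|(ed (E q))(log n)| ≤ C q^(ε'-1) (1 + log 2X)^r` (CB).  So
`|fs E Q n| ≤ C (1 + log 2X)^r ∑_{g ∣ n} g ∑_{q' ≤ Q/g} (g q')^(ε'-1)
≤ C (1 + log 2X)^r ∑_{g ∣ n, g ≤ Q} g^ε' ∑_{q' ≤ Q} q'^(ε'-1)`, and
`∑_{q' ≤ Q} q'^(ε'-1) ≤ Q^ε' (1 + log Q)`, `#divisors(n) = dr 2 n ≤ C n^ε'` (L0). -/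
def tsF6 : Prop := ∀ (r : ℕ) (E : ℕ → Polynomial ℝ), (∀ q, (E q).natDegree ≤ r - 1) → CB E →
  ∀ ε : ℝ, 0 < ε → ∃ C : ℝ, 0 < C ∧ ∀ (X : ℝ) (Q n : ℕ), 1 ≤ X → (Q : ℝ) ≤ X → 1 ≤ n →
  (n : ℝ) ≤ 2 * X → |fs E Q n| ≤ C * X ^ ε

/-- F7 (MEDIUM; uses E1, F1): sums of products of two Ramanujan sums.  PROOF.  By E1
`Gh n q Gh (n+h) q' = ∑_{a, a'} ee(n (a/q + a'/q')) ee(h a'/q')` over the reduced residues `a`, `a'`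
in `[0, q)`, `[0, q')`.  If `a/q + a'/q'` is not an integer, `nn(a/q + a'/q') ≥ 1/(q q')`, so F1
bounds the sum over `n` by `V q q'`; at most `q q'` pairs.  If it is an integer then `q = q'` and
`a' ≡ -a`: for `q = q'` there is exactly one such `a` for every `a'`, and these pairs contribute
`∑_{a'} ee(h a'/q) ∑_n b n = Gh h q ∑_n b n` (E1). -/
def tsF7 : Prop := ∀ (b : ℕ → ℝ) (V : ℝ) (N h q q' : ℕ), 1 ≤ q → 1 ≤ q' →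
  |b N| + ∑ n ∈ Finset.Ico 1 N, |b (n + 1) - b n| ≤ V →
  |∑ n ∈ Finset.Icc 1 N, Gh n q * Gh (n + h) q' * b n -
    (if q = q' then Gh h q * ∑ n ∈ Finset.Icc 1 N, b n else 0)| ≤ V * (q : ℝ) ^ 2 * (q' : ℝ) ^ 2

/-- F8 (EASY-MEDIUM): the shift inside the logarithm.  PROOF.  `0 ≤ log(n+h) - log n ≤ h/n`,
`|p(u) - p(v)| ≤ (∑_j j M) (1 + log(N+h))^d |u - v|` and `|p(u)| ≤ (d+1) M (1 + log(N+h))^d` for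
`0 ≤ u, v ≤ log(N+h)`, `∑_{n ≤ N} 1/n ≤ 1 + log N`. -/
def tsF8 : Prop := ∀ d : ℕ, ∃ C : ℝ, 0 < C ∧ ∀ (p : Polynomial ℝ) (M : ℝ) (N h : ℕ),
  p.natDegree ≤ d → (∀ j, |p.coeff j| ≤ M) → 1 ≤ N →
  |∑ n ∈ Finset.Icc 1 N, p.eval (Real.log n) * p.eval (Real.log ((n : ℝ) + h)) -
    ∑ n ∈ Finset.Icc 1 N, p.eval (Real.log n) ^ 2| ≤
  C * M ^ 2 * h * (1 + Real.log ((N : ℝ) + h)) ^ (2 * d + 1)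

/-- F9 (EASY-MEDIUM): the equation `R + R' = P`.  PROOF.  With `D = P.natDegree`, the sum `R + R'`
telescopes to `P ± P^(D+1) = P`.  For `i ≥ 1` the derivative `P^(i)` has no coefficient in degrees
`≥ D`.  `|coeff_j P^(i)| = (j+i)!/j! |P_(j+i)| ≤ D! M` (zero unless `i + j ≤ D`); sum over the
`D + 1` values of `i`. -/
def tsF9 : Prop := ∀ P : Polynomial ℝ, ed (rr P) = P ∧ (rr P).natDegree ≤ P.natDegree ∧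
  (∀ D, P.natDegree ≤ D → (rr P).coeff D = P.coeff D) ∧
  ∀ M : ℝ, (∀ j, |P.coeff j| ≤ M) → ∀ j, |(rr P).coeff j| ≤ ((P.natDegree + 1).factorial : ℝ) * M

/-- G1 (EASY-MEDIUM): the series of Ramanujan sums.  PROOF.  `|Gh h q| ≤ ∑_{g ∣ q, g ∣ h} g`.  For
`Q > 0` and finite sets of `q ≥ 1`: `∑_q |Gh h q| q^(-3/2) ≤ ∑_{g ∣ h} g ∑_{q'} (g q')^(-3/2) ≤
∑_{g ∣ h} g^(-1/2) ∑_{q'} q'^(-3/2) ≤ 3 #divisors(h)`; for the `q = g q' > Q` use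
`(g q')^(-3/2) ≤ Q^(-1/4) (g q')^(-5/4)` and `∑ q'^(-5/4) ≤ 5`. -/
def tsG1 : Prop := ∃ C : ℝ, 0 < C ∧ ∀ h : ℕ, 1 ≤ h →
  Summable (fun q : ℕ => |Gh h q| * (q : ℝ) ^ (-(3 / 2) : ℝ)) ∧
  ∑' q : ℕ, |Gh h q| * (q : ℝ) ^ (-(3 / 2) : ℝ) ≤ C * h.divisors.card ∧
  ∀ Q : ℕ, 1 ≤ Q → ∑' q : ℕ, (if Q < q then |Gh h q| * (q : ℝ) ^ (-(3 / 2) : ℝ) else 0) ≤
    C * h.divisors.card * (Q : ℝ) ^ (-(1 / 4) : ℝ)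

/-- G2 (MEDIUM; uses F9, G1): the polynomial `P_h` and its partial sums.  PROOF.  CB with `ε = 1/4`:
`|(E q)_j| ≤ C q^(-3/4)`, so `|(ed (E q))_j| ≤ r C q^(-3/4)`, `|(ed (E q)^2)_j| ≤ r (r C)² q^(-3/2)`
(`natDegree ≤ 2 (r-1)`), and by F9 `|(rr (ed (E q)^2))_j| ≤ C' q^(-3/2)` for `q ≥ 1`, `= 0` for
`j > 2 (r-1)`; `Gh h 0 = 0`.  So the series defining the coefficients of `PH` converge absolutely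
(G1), and the tail of each is `≤ C' C #divisors(h) Q^(-1/4)`; sum the `2r - 1` coefficients times
`t^j ≤ (1+t)^(2(r-1))`. -/
def tsG2 : Prop := ∀ (r : ℕ) (E : ℕ → Polynomial ℝ), 1 ≤ r → (∀ q, (E q).natDegree ≤ r - 1) → CB E →
  ∃ C : ℝ, 0 < C ∧
  (∀ q j : ℕ, 1 ≤ q → |(rr (ed (E q) ^ 2)).coeff j| ≤ C * (q : ℝ) ^ (-(3 / 2) : ℝ)) ∧
  ∀ h : ℕ, 1 ≤ h →
  (∀ j, Summable (fun q : ℕ => Gh h q * (rr (ed (E q) ^ 2)).coeff j)) ∧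
  (∀ j, |(PH r E h).coeff j| ≤ C * h.divisors.card) ∧
  ∀ (Q : ℕ) (t : ℝ), 1 ≤ Q → 0 ≤ t →
  |(PH r E h).eval t - ∑ q ∈ Finset.Icc 1 Q, Gh h q * (rr (ed (E q) ^ 2)).eval t| ≤
    C * h.divisors.card * (Q : ℝ) ^ (-(1 / 4) : ℝ) * (1 + t) ^ (2 * (r - 1))

/-- G3 (MEDIUM-HARD; uses L0, F2, F3, F7, F8, F9, G1, G2): the correlations of the model.  PROOF.
`N = ⌊X⌋`, `Q = ⌊X^η₂⌋ ≥ 1`, `p_q = ed (E q)`, coefficients `≤ M_q = C q^(-3/4)` (CB with `ε = 1/4`).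
`cor (fs E Q) (fs E Q) N h = ∑_{q, q' ≤ Q} ∑_{n ≤ N} Gh n q Gh (n+h) q' p_q(log n) p_q'(log(n+h))`.
F7 with `b n = p_q(log n) p_q'(log(n+h))` and F2 (`V ≤ C (1 + log(N+h))^(2r)`): up to an error
`≤ Q² · Q⁴ · C (1 + log 2X)^(2r) ≤ C X^(6/100) (1 + log 2X)^(2r)` it is
`∑_{q ≤ Q} Gh h q ∑_{n ≤ N} p_q(log n) p_q(log(n+h))`.  F8: replacing `log(n+h)` by `log n` costs
`≤ ∑_q |Gh h q| C q^(-3/2) h (1 + log 2X)^(2r+1) ≤ C #divisors(h) h (1 + log 2X)^(2r+1)` (G1), and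
`h ≤ X^θ`, `#divisors(h) = dr 2 h ≤ C h^ε`.  `p_q² = ed R_q`, `R_q = rr (p_q²)` (F9), and F3
(coefficients of `R_q` are `≤ C q^(-3/2)`, G2): `∑_{n ≤ N} p_q(log n)² = X R_q(log X) +
O(q^(-3/2) (1 + log X)^(2r))`; the errors sum to `≤ C #divisors(h) (1 + log X)^(2r)`.  Finally G2 with
`t = log X`: `X ∑_{q ≤ Q} Gh h q R_q(log X) = X P_h(log X) + O(X #divisors(h) Q^(-1/4)
(1 + log X)^(2r))`, `Q ≥ X^η₂/2`.  With `ε` small (`θ + ε < 1`, `ε < η₂/8`) everything is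
`≤ X^(1-δ)` for large `X`, e.g. `δ = min ((1-θ)/2) (η₂/16)`. -/
def tsG3 : Prop := ∀ (r : ℕ) (E : ℕ → Polynomial ℝ), 1 ≤ r → (∀ q, (E q).natDegree ≤ r - 1) → CB E →
  ∀ θ η₂ : ℝ, 0 < θ → θ < 1 → 0 < η₂ → η₂ ≤ 1 / 100 → ∃ δ X0 : ℝ, 0 < δ ∧ ∀ (X : ℝ) (h : ℕ),
  X0 ≤ X → 1 ≤ h → (h : ℝ) ≤ X ^ θ →
  |cor (fs E ⌊X ^ η₂⌋₊) (fs E ⌊X ^ η₂⌋₊) ⌊X⌋₊ h - X * (PH r E h).eval (Real.log X)| ≤ X ^ (1 - δ)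

/-- G4 (MEDIUM; uses F9, G2): degree and leading coefficient.  PROOF.  `s = r - 1 ≥ 1`.  For `q ≥ 1`
the coefficient of degree `2s` of `rr (ed (E q)^2)` is (F9, `natDegree ≤ 2s`) that of
`ed (E q)^2`, i.e. the square of the coefficient of degree `s` of `ed (E q)`, which is that of
`E q`: `(rho s q/s!)²` (AP).  So the coefficient of degree `2s` of `PH` is
`∑' q, Gh h q (rho s q)²/s!² = Csing s h/s!²` (`Gh h 0 = 0`), positive by `Csing_pos`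
(`Work/MP_122e00_nt/Euler4.lean`), and `natDegree ≤ 2s` by definition. -/
def tsG4 : Prop := ∀ (r : ℕ) (E : ℕ → Polynomial ℝ), 2 ≤ r → AP r E → CB E → ∀ h : ℕ, 1 ≤ h →
  (PH r E h).natDegree = 2 * (r - 1) ∧
  (PH r E h).leadingCoeff = Csing (r - 1) h / ((r - 1).factorial : ℝ) ^ 2

/-- the value `F(k)` as a natural number -/
noncomputable def fv (F : Polynomial ℤ) (k : ℕ) : ℕ := (F.eval (k : ℤ)).toNat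

/-- H1 (EASY-MEDIUM; uses W5, W6): the frequencies where the Weyl sum of `F` is large.  PROOF.  W5 with
`δ'` (its `δ` is `δ₁`) and `γ = t/M`: such a `t` satisfies `|t/M - a/q| ≤ K^(δ'-d)` for some
`q ∈ [1, K^δ']`.  W6 with `Q = K^δ'`, `ρ = K^(δ'-d) ≤ 1` (`δ' < 1 ≤ d`): at most
`4 K^(2δ') (2 K^(δ'-d) M + 1) ≤ 12 K^(3δ'-d) M`, because `M ≥ K^d ≥ K^(d-δ')`.
(`ee((fv F k) t/M) = ee(γ F(k))` as `F(k) ≥ 1` for `k > A`.) -/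
def tsH1 : Prop := ∀ (F : Polynomial ℤ) (A : ℕ), 1 ≤ F.natDegree → 0 < F.leadingCoeff →
  (∀ k : ℕ, A < k → 1 ≤ F.eval (k : ℤ)) → ∀ δ' : ℝ, 0 < δ' → δ' < 1 → ∃ δ₁ K0 : ℝ, 0 < δ₁ ∧
  ∀ K M : ℕ, K0 ≤ (K : ℝ) → 1 ≤ K → (K : ℝ) ^ F.natDegree ≤ M →
  (((Finset.range M).filter (fun t : ℕ => (K : ℝ) ^ (1 - δ₁) <
    ‖∑ k ∈ Finset.Ioc A K, ee ((fv F k : ℝ) * t / M)‖)).card : ℝ) ≤
  12 * (K : ℝ) ^ (3 * δ' - (F.natDegree : ℝ)) * M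

/-- H2 (EASY): size of the values.  PROOF.  `F(k)/k^d → F.leadingCoeff > 0`; and
`|F(k)| ≤ (∑ |coefficients|) k^d` for `k ≥ 1`. -/
def tsH2 : Prop := ∀ F : Polynomial ℤ, 1 ≤ F.natDegree → 0 < F.leadingCoeff →
  ∃ (A : ℕ) (c C : ℝ), 0 < c ∧ 0 < C ∧
  (∀ k : ℕ, A < k → 1 ≤ F.eval (k : ℤ) ∧ c * (k : ℝ) ^ F.natDegree ≤ ((F.eval (k : ℤ) : ℤ) : ℝ)) ∧
  ∀ k : ℕ, 1 ≤ k → |((F.eval (k : ℤ) : ℤ) : ℝ)| ≤ C * (k : ℝ) ^ F.natDegree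

/-- H3 (MEDIUM; uses Q4, L0, F6, H1, H2): the second moment of the error terms.  PROOF.  `d = deg F`,
`N = ⌊X⌋`, `H = ⌊X/2⌋`, `M = N + H + 1`, `Q = ⌊X^η₂⌋`, `κ = Ioc A K`, `sh = fv F`.  For large `X` all
`F(k) ≤ C k^d ≤ C X^θ ≤ H` (`k ≤ K`; H2).  Let `δ' = η/12`, `δ₁` of H1, `w = K^(1-δ₁)`, `G` the
number of `t < M` with `‖W(t)‖ > w`: `G ≤ 12 K^(3δ'-d) M` (`K → ∞` with `X` as
`K^d ≥ X^(1-η/2)`, and `K^d ≤ X^θ ≤ M`).  `B = X^(1-η)`: the hypothesis, for `N` and for `N + H ≤ 2X`.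
By L0 and F6 `|dr r n|`, `|fs E Q n|`, `|fl r E Q n| ≤ C X^ε` for `1 ≤ n ≤ 2X`, so the sums of the
squares over `n ≤ N + H` are `≤ C X^(1+2ε)`.  Q4 (first part for `u = fl`, `v = dr`, second part for
`u = fs`, `v = fl`): each sum is at most
`K^(1-δ₁) C X^(2+4ε) + K X^(2-2η) · 12 K^(3δ'-d) · C X^(1+2ε)`.  Here `K ≤ X`,
`K^(3δ') ≤ X^(η/4)`, `K^(-d) ≤ X^(-1+η/2)`, so the second term is `≤ C K X^(2-5η/4+2ε)`; and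
`K^(-δ₁) ≤ X^(-δ₁ (1-η/2)/d) ≤ X^(-δ₁/(2d))` (`η ≤ 1`).  Take `ε = min (η/16) (δ₁/(32 d))`,
`δ = min η (δ₁/(8 d))`, `X` large. -/
def tsH3 : Prop := ∀ (r : ℕ) (E : ℕ → Polynomial ℝ) (η₂ η X0 : ℝ), 1 ≤ r → AP r E → CB E →
  0 < η₂ → η₂ ≤ 1 / 100 → 0 < η → η ≤ 1 →
  (∀ (X α : ℝ) (N : ℕ), X0 ≤ X → (N : ℝ) ≤ 2 * X → ‖SS (fl r E ⌊X ^ η₂⌋₊) N α‖ ≤ X ^ (1 - η)) →
  ∀ (F : Polynomial ℤ) (A : ℕ) (θ : ℝ), 1 ≤ F.natDegree → 0 < F.leadingCoeff →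
  (∀ k : ℕ, A < k → 1 ≤ F.eval (k : ℤ)) → θ < 1 → ∃ δ X1 : ℝ, 0 < δ ∧ ∀ (X : ℝ) (K : ℕ),
  X1 ≤ X → X ^ (1 - η / 2) ≤ (K : ℝ) ^ F.natDegree → (K : ℝ) ^ F.natDegree ≤ X ^ θ →
  ∑ k ∈ Finset.Ioc A K, cor (fl r E ⌊X ^ η₂⌋₊) (dr r) ⌊X⌋₊ (fv F k) ^ 2 ≤ K * X ^ (2 - δ) ∧
  ∑ k ∈ Finset.Ioc A K, cor (fs E ⌊X ^ η₂⌋₊) (fl r E ⌊X ^ η₂⌋₊) ⌊X⌋₊ (fv F k) ^ 2 ≤
    K * X ^ (2 - δ)

/-- H4 (EASY-MEDIUM; uses G3, H2, H3): the second moment.  PROOF.  `dr r = fs + fl`, so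
`cor (dr) (dr) = cor (fs) (fs) + cor (fl) (dr) + cor (fs) (fl)` and
`(a + b + c)² ≤ 3 (a² + b² + c²)`; `b`, `c` by H3, `a = cor (fs) (fs) - X P_h(log X)` by G3 with
`θ' = (1+θ)/2` (we may take `θ > 0`): `F(k) ≤ C K^d ≤ C X^θ ≤ X^θ'`. -/
def tsH4 : Prop := ∀ (r : ℕ) (E : ℕ → Polynomial ℝ) (η₂ η X0 : ℝ), 1 ≤ r → AP r E → CB E →
  0 < η₂ → η₂ ≤ 1 / 100 → 0 < η → η ≤ 1 →
  (∀ (X α : ℝ) (N : ℕ), X0 ≤ X → (N : ℝ) ≤ 2 * X → ‖SS (fl r E ⌊X ^ η₂⌋₊) N α‖ ≤ X ^ (1 - η)) →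
  ∀ (F : Polynomial ℤ) (A : ℕ) (θ : ℝ), 1 ≤ F.natDegree → 0 < F.leadingCoeff →
  (∀ k : ℕ, A < k → 1 ≤ F.eval (k : ℤ)) → θ < 1 → ∃ δ X1 : ℝ, 0 < δ ∧ ∀ (X : ℝ) (K : ℕ),
  X1 ≤ X → X ^ (1 - η / 2) ≤ (K : ℝ) ^ F.natDegree → (K : ℝ) ^ F.natDegree ≤ X ^ θ →
  ∑ k ∈ Finset.Ioc A K, (cor (dr r) (dr r) ⌊X⌋₊ (fv F k) -
    X * (PH r E (fv F k)).eval (Real.log X)) ^ 2 ≤ K * X ^ (2 - δ)

/-- `k` is good: the asymptotic formula holds for all `X` with `X^θ₀ ≤ F(k) ≤ X^θ'` -/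
def Gd (D : ℝ → ℕ → ℝ) (P : ℕ → Polynomial ℝ) (F : Polynomial ℤ) (θ₀ θ' δ : ℝ) (k : ℕ) : Prop :=
  ∀ X : ℝ, 1 ≤ X → X ^ θ₀ ≤ ((F.eval (k : ℤ) : ℤ) : ℝ) → ((F.eval (k : ℤ) : ℤ) : ℝ) ≤ X ^ θ' →
  |D X (fv F k) - X * (P (fv F k)).eval (Real.log X)| ≤ X ^ (1 - δ)

/-- H5 (MEDIUM-HARD; uses H2): from the second moment for every `X` to all `X` at once.  PROOF.
`d = deg F`, `A'`, `c`, `C` those of H2, `δ ≤ 1` that of the hypothesis, `δ₃ = δ/8`.  Let `K` be large,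
`I = (K/2, K]` (so `k > max A A'`), `F(k) ∈ [c 2^(-d) K^d, C K^d]` for `k ∈ I`.  If
`X^θ₀ ≤ F(k) ≤ X^θ'` then `a ≤ X ≤ b`, `a = (c 2^(-d) K^d)^(1/θ')`, `b = (C K^d)^(1/θ₀)`.  Grid
`X_j = a (1 + K^(-δ₃))^j`, `0 ≤ j ≤ J`, `J` minimal with `X_J ≥ b`: `J ≤ 1 + log(b/a)/log(1 + K^(-δ₃))
≤ C₁ K^δ₃ log K` (`log(1+u) ≥ u/2`), all `X_j ∈ [a, 2b]`.  For large `K` `X_j^θ ≥ a^θ ≥ K^d`
(`θ/θ' > 1`) and `X_j^θa ≤ (2b)^θa ≤ K^d` (`θa/θ₀ < 1`), `X_j ≥ X1`, so the hypothesis applies and the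
set `B_j` of the `k ∈ I` with `|D(X_j) - X_j P(log X_j)| > X_j^(1-δ/4)` has
`#B_j ≤ K X_j^(2-δ)/X_j^(2-δ/2) = K X_j^(-δ/2) ≤ K^(1-δ/2)` (`X_j ≥ a ≥ K^(d/θ) ≥ K`).  Altogether
`#⋃ B_j ≤ (J+1) K^(1-δ/2) ≤ K^(1-δ/4)` for large `K`.  Let `k ∈ I` be outside, `X` as above,
`X_j ≤ X ≤ X_(j+1)`.  Monotonicity: `D(X_j) ≤ D(X) ≤ D(X_(j+1))`, so `|D(X) - X P(log X)|` is at most
the maximum over `i ∈ {j, j+1}` of `|D(X_i) - X_i P(log X_i)| + |X_i P(log X_i) - X P(log X)|`; the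
second term is at most `(X_(j+1) - X_j) sup_{t ∈ [X_j, X_(j+1)]} |(P + P')(log t)| ≤
X K^(-δ₃) C₂ h^ε (1 + log 2X)^m` (derivative of `t P(log t)`), `h = F(k) ≤ X`, and
`K ≥ X^(θ₀/(2d))` (`X ≤ b ≤ K^(2d/θ₀)`).  With `ε = δ₃ θ₀/(8d)` the total is
`≤ (2X)^(1-δ/4) + X^(1-δ₃θ₀/(4d)) ≤ X^(1-δ')` with `δ' = min (δ/8) (δ₃θ₀/(8d))`, for large `K`. -/
def tsH5 : Prop := ∀ (F : Polynomial ℤ) (A m : ℕ) (D : ℝ → ℕ → ℝ) (P : ℕ → Polynomial ℝ)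
  (θa θ₀ θ' θ : ℝ), 1 ≤ F.natDegree → 0 < F.leadingCoeff →
  (∀ k : ℕ, A < k → 1 ≤ F.eval (k : ℤ)) →
  (∀ (h : ℕ) (x y : ℝ), 1 ≤ x → x ≤ y → D x h ≤ D y h) →
  (∀ h, (P h).natDegree ≤ m) →
  (∀ ε : ℝ, 0 < ε → ∃ C : ℝ, ∀ h j : ℕ, 1 ≤ h → |(P h).coeff j| ≤ C * (h : ℝ) ^ ε) →
  0 < θa → θa < θ₀ → θ₀ < θ' → θ' < θ → θ < 1 →
  (∃ δ X1 : ℝ, 0 < δ ∧ ∀ (X : ℝ) (K : ℕ), X1 ≤ X → X ^ θa ≤ (K : ℝ) ^ F.natDegree →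
    (K : ℝ) ^ F.natDegree ≤ X ^ θ →
    ∑ k ∈ Finset.Ioc A K, (D X (fv F k) - X * (P (fv F k)).eval (Real.log X)) ^ 2 ≤
      K * X ^ (2 - δ)) →
  ∃ δ' K2 : ℝ, 0 < δ' ∧ δ' < 1 ∧ ∀ K : ℕ, K2 ≤ (K : ℝ) →
    (Set.ncard {k : ℕ | A < k ∧ K < 2 * k ∧ k ≤ K ∧ ¬ Gd D P F θ₀ θ' δ' k} : ℝ) ≤
      (K : ℝ) ^ (1 - δ')

/-- H6 (EASY-MEDIUM): from dyadic blocks to `[1, K]`.  PROOF.  Let `f(K) = #(S ∩ [1, K])`.  Then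
`f(K) ≤ f(⌊K/2⌋) + #{k ∈ S : K < 2 k, k ≤ K}`.  With `C = C₀/(1 - 2^(δ'-1))`, `C₀ ≥ 1 + K2`, strong
induction: `f(K) ≤ C (K/2)^(1-δ') + C₀ K^(1-δ') = C K^(1-δ')` (for `K < K2` the block has at most
`K2` elements). -/
def tsH6 : Prop := ∀ (S : Set ℕ) (δ' K2 : ℝ), 0 < δ' → δ' < 1 →
  (∀ K : ℕ, K2 ≤ (K : ℝ) → (Set.ncard {k : ℕ | k ∈ S ∧ K < 2 * k ∧ k ≤ K} : ℝ) ≤
    (K : ℝ) ^ (1 - δ')) →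
  ∃ C : ℝ, ∀ K : ℕ, 1 ≤ K → (Set.ncard {k : ℕ | k ∈ S ∧ 1 ≤ k ∧ k ≤ K} : ℝ) ≤
    C * (K : ℝ) ^ (1 - δ')

end Pool.Agent.Work.MP_122e00_nt.TS
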