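import Mathlib
import Pool.Agent.Work.MP_122e00_nt.TS.Stmts3

/-!
# Thin shifts, part 4: short intervals (J, R) and shifts down to `X^(1 - 2/r + ε)` (T)

The sharper form: the shifts `F(k)` may be as small as `X^(1 - 2/r + ε)`.  The only new input is the
mean square over short intervals of `(d_r - model)(n) e(n γ)`, item R10.

Every docstring is a complete proof.  Earlier items are hypotheses.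
-/

namespace Pool.Agent.Work.MP_122e00_nt.TS

open Finset Filter Topology ArithmeticFunction
open scoped ArithmeticFunction.zeta ArithmeticFunction.Moebius

/-- the sum of `u(n) e(n γ)` over the `n ∈ [1, N]` with `x - L < n ≤ x` -/
noncomputable def wn (u : ℕ → ℝ) (N L x : ℕ) (γ : ℝ) : ℂ :=
  ∑ n ∈ (Finset.Icc 1 N).filter (fun n => n ≤ x ∧ x < n + L), (u n : ℂ) * ee (n * γ)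

/-- the mean square over short intervals -/
noncomputable def SI (u : ℕ → ℝ) (N L : ℕ) (γ : ℝ) : ℝ :=
  ∑ x ∈ Finset.Icc 1 (N + L), ‖wn u N L x γ‖ ^ 2

/-- the indicator function of `1 ≤ n ≤ y` -/
noncomputable def uy (y : ℝ) : ArithmeticFunction ℝ :=
  ⟨fun n => if n ≠ 0 ∧ (n : ℝ) ≤ y then 1 else 0, by simp⟩

/-- the weights `W = ∑_{i < r} u^i ζ^(r-1-i)` of the long variable -/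
noncomputable def Wy (r : ℕ) (y : ℝ) : ArithmeticFunction ℝ :=
  ∑ i ∈ Finset.range r, (uy y) ^ i * (ζ : ArithmeticFunction ℝ) ^ (r - 1 - i)

/-- `∑_{m ≤ M, s ∣ m} W(m)/m` -/
noncomputable def hs (r : ℕ) (y : ℝ) (M s : ℕ) : ℝ :=
  ∑ m ∈ (Finset.Icc 1 M).filter (s ∣ ·), Wy r y m / m

/-- J1 (MEDIUM; uses Q2 or Q1): short intervals and short arcs.  PROOF.  With `h = x - n`
`SS u N (j/M) ∑_{h < L} ee(h (j/M - γ)) = ∑_x ee(x j/M) ee(-x γ) wn u N L x γ` where `x` runs over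
`[1, N+L]` (the pairs `(n, h)`, `n ∈ [1,N]`, `0 ≤ h < L`, correspond to the pairs `(x, n)` with
`n ≤ x < n + L`).  The `x` are distinct modulo `M` (`N + L < M`); Parseval modulo `M` as in Q2 but
for complex coefficients (expand the square and use Q1), and `‖ee(-xγ)‖ = 1`. -/
def tsJ1 : Prop := ∀ (u : ℕ → ℝ) (N L M : ℕ) (γ : ℝ), 1 ≤ L → N + L < M →
  ∑ j ∈ Finset.range M, ‖SS u N ((j : ℝ) / M)‖ ^ 2 *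
    ‖∑ h ∈ Finset.range L, ee ((h : ℝ) * ((j : ℝ) / M - γ))‖ ^ 2 = (M : ℝ) * SI u N L γ

/-- J2 (EASY-MEDIUM; uses J1): PROOF.  If `nn t ≤ 1/(8L)`, `t = m + τ`, then `ee(h t) = ee(h τ)` has
real part `cos(2 π h τ) ≥ cos(π/4) ≥ 1/2` for `0 ≤ h < L`, so `‖∑_{h<L} ee(h t)‖ ≥ L/2`.  Keep only
these `j` in J1 and divide by `L²/4` and `M`. -/
def tsJ2 : Prop := ∀ (u : ℕ → ℝ) (N L M : ℕ) (γ : ℝ), 1 ≤ L → N + L < M →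
  (1 / (M : ℝ)) * ∑ j ∈ (Finset.range M).filter
    (fun j : ℕ => nn ((j : ℝ) / M - γ) ≤ 1 / (8 * (L : ℝ))), ‖SS u N ((j : ℝ) / M)‖ ^ 2 ≤
  4 / (L : ℝ) ^ 2 * SI u N L γ

/-- Q5 (MEDIUM; uses Q2, Q3, J2; model: the proof of Q4 in `TS/I_Q4.lean`): the second moment over a
set of shifts, with short arcs.  PROOF.  As Q4, with `U_j = ‖SS u N (j/M)‖`,
`V_j = ‖SS v (N+H) (j/M)‖`, `W(t)` the sum over the shifts: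
`∑_k cor(sh k)² ≤ M^(-2) ∑_{i,j < M} U_i V_i U_j V_j ‖W(i - j)‖`, and the pairs with
`‖W(i-j)‖ ≤ w` contribute `≤ w (∑ u²)(∑ v²)`.  For the others (`bad` pairs; the condition is symmetric
and depends on `(i-j) mod M` only) use `‖W‖ ≤ #κ` and
`U_i V_i U_j V_j ≤ (U_i² V_j² + U_j² V_i²)/2`, so they contribute at most
`#κ M^(-2) ∑_j V_j² ∑_{i : (i,j) bad} U_i²`.  For fixed `j` a bad `i` has, with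
`t = (i - j) mod M`, `nn(t/M - g) ≤ 1/(8L)` for some `g ∈ Γ`, i.e. `nn(i/M - (j/M + g)) ≤ 1/(8L)`; J2 with
`γ = j/M + g` bounds the sum over these `i` of `U_i²` by `M (4/L²) Y`, so the sum over all bad `i` by
`#Γ M (4/L²) Y`; `∑_j V_j² = M ∑ v²` (Q2).  Second part: exchange `U` and `V`. -/
def tsQ5 : Prop := ∀ (κ : Finset ℕ) (sh : ℕ → ℕ) (u v : ℕ → ℝ) (N H L M : ℕ) (w Y : ℝ)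
  (Γ : Finset ℝ), 1 ≤ L → N + H + L < M → (∀ k ∈ κ, sh k ≤ H) → 0 ≤ w → 0 ≤ Y →
  (∀ t < M, w < ‖∑ k ∈ κ, ee ((sh k : ℝ) * (t : ℕ) / M)‖ →
    ∃ g ∈ Γ, nn ((t : ℝ) / M - g) ≤ 1 / (8 * (L : ℝ))) →
  ((∀ γ : ℝ, SI u N L γ ≤ Y) →
    ∑ k ∈ κ, cor u v N (sh k) ^ 2 ≤
      w * (∑ n ∈ Finset.Icc 1 N, u n ^ 2) * (∑ n ∈ Finset.Icc 1 (N + H), v n ^ 2) +
      (κ.card : ℝ) * ((Γ.card : ℝ) * (4 / (L : ℝ) ^ 2 * Y)) *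
        ∑ n ∈ Finset.Icc 1 (N + H), v n ^ 2) ∧
  ((∀ γ : ℝ, SI v (N + H) L γ ≤ Y) →
    ∑ k ∈ κ, cor u v N (sh k) ^ 2 ≤
      w * (∑ n ∈ Finset.Icc 1 N, u n ^ 2) * (∑ n ∈ Finset.Icc 1 (N + H), v n ^ 2) +
      (κ.card : ℝ) * ((Γ.card : ℝ) * (4 / (L : ℝ) ^ 2 * Y)) * ∑ n ∈ Finset.Icc 1 N, u n ^ 2)

/-- R1 (EASY-MEDIUM; model: `TS/I_L1.lean`): splitting off a long variable, with the explicit weights.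
PROOF.  `u = uy y`, `v = ζ - u` is the indicator function of `n > y`.  `ζ^r - u^r = Wy r y * v`
(telescoping), `(Wy * v)(n) = ∑_{m ∣ n, n/m > y} Wy(m)`, and `n/m > y` iff `m y < n`.  `0 ≤ u ≤ ζ`
pointwise, so `0 ≤ u^i ζ^(r-1-i) ≤ ζ^(r-1) ≤ ζ^r` and `0 ≤ u^r ≤ ζ^r`; `∑_{n ≤ N} u^r(n) ≤
(∑_n u(n))^r ≤ y^r` (induction on `r`). -/
def tsR1 : Prop := ∀ (r : ℕ) (y : ℝ), 1 ≤ r → 1 ≤ y →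
  (∀ m, 0 ≤ Wy r y m ∧ Wy r y m ≤ r * dr r m) ∧
  (∀ n, 0 ≤ ((uy y) ^ r) n ∧ ((uy y) ^ r) n ≤ dr r n) ∧
  (∀ N : ℕ, ∑ n ∈ Finset.Icc 1 N, ((uy y) ^ r) n ≤ y ^ r) ∧
  ∀ n : ℕ, 1 ≤ n → dr r n = ((uy y) ^ r) n +
    ∑ m ∈ n.divisors.filter (fun m : ℕ => (m : ℝ) * y < n), Wy r y m

/-- R2 (EASY): truncated divisor sums in Ramanujan sums.  PROOF.
`[m ∣ n] = (1/m) Fh n m = (1/m) ∑_{s ∣ m} Gh n s` (`sum_Gh`); exchange the sums. -/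
def tsR2 : Prop := ∀ (w : ℕ → ℝ) (M n : ℕ), 1 ≤ n →
  ∑ m ∈ n.divisors.filter (fun m => m ≤ M), w m =
    ∑ s ∈ Finset.Icc 1 M, (∑ m ∈ (Finset.Icc 1 M).filter (s ∣ ·), w m / m) * Gh n s

/-- R3 (EASY; uses E1): Ramanujan sums over a window.  PROOF.  E1 and `n = x - h`, `0 ≤ h < L`. -/
def tsR3 : Prop := ∀ (s x L : ℕ) (γ : ℝ), 1 ≤ s → L ≤ x →
  ∑ n ∈ Finset.Ioc (x - L) x, ((Gh n s : ℝ) : ℂ) * ee (n * γ) =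
    ∑ c ∈ (Finset.range s).filter (fun c => Nat.Coprime c s), ee ((x : ℝ) * (γ + (c : ℝ) / s)) *
      ∑ h ∈ Finset.range L, ee (-((h : ℝ) * (γ + (c : ℝ) / s)))

/-- R4 (MEDIUM): the dual large sieve for Farey fractions.  PROOF.  Library: `farey_ls`
(`Work/MP_122e00_nt/Bd/B02.lean`; used in `LSMult.lean`):
`∑_{f ≤ F} ∑_c ‖∑_{n<N} z_n ee(n c/f)‖² ≤ (N + F² harmonic(F²)) ∑ ‖z_n‖²`.  With `F = 2S`,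
coefficients `z_n = ee((x₀+1+n) γ) b_n` and a shift of the interval (unimodular factors for fixed
`(s, c)`) this gives, for all `b`,
`∑_{s ∈ (S,2S]} ∑_c ‖∑_{x ∈ (x₀,x₀+N']} b_x ee(x(γ + c/s))‖² ≤ Δ ∑ ‖b_x‖²`,
`Δ = N' + 4S² harmonic(4S²) ≤ C (N' + S² (1 + log(2S)))`.  Duality: let
`F_x = ∑_{s,c} A(s,c) ee(x(γ + c/s))`, `Σ = ∑_x ‖F_x‖² = ∑_{s,c} A(s,c) ∑_x conj(F_x) ee(x(γ+c/s))`;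
Cauchy-Schwarz and the direct inequality with `b_x = conj F_x` give `Σ² ≤ (∑ ‖A‖²) Δ Σ`. -/
def tsR4 : Prop := ∃ C : ℝ, 0 < C ∧ ∀ (S N' x₀ : ℕ) (γ : ℝ) (A : ℕ → ℕ → ℂ), 1 ≤ S →
  ∑ x ∈ Finset.Ioc x₀ (x₀ + N'), ‖∑ s ∈ Finset.Ioc S (2 * S),
    ∑ c ∈ (Finset.range s).filter (fun c => Nat.Coprime c s),
      A s c * ee ((x : ℝ) * (γ + (c : ℝ) / s))‖ ^ 2 ≤
  C * ((N' : ℝ) + (S : ℝ) ^ 2 * (1 + Real.log (2 * S))) *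
    ∑ s ∈ Finset.Ioc S (2 * S), ∑ c ∈ (Finset.range s).filter (fun c => Nat.Coprime c s),
      ‖A s c‖ ^ 2

/-- R6 (EASY-MEDIUM): the kernel over the fractions with denominator `s`.  PROOF.  Expand the square:
`∑_c ∑_{h,h'} ee((h-h')(γ + c/s)) = s ∑_{h ≡ h' (s)} ee((h-h') γ)` (Q1 or a geometric sum), at most
`s L (L/s + 1)` in absolute value. -/
def tsR6 : Prop := ∀ (s L : ℕ) (γ : ℝ), 1 ≤ s →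
  ∑ c ∈ Finset.range s, ‖∑ h ∈ Finset.range L, ee (-((h : ℝ) * (γ + (c : ℝ) / s)))‖ ^ 2 ≤
    (L : ℝ) ^ 2 + s * L

/-- R5 (MEDIUM-HARD; uses R3, R4, R6): the mean square over short intervals of a combination of
Ramanujan sums with large moduli.  PROOF.  `S_i = 2^i S₀ < M`, `i = 0, …, I - 1`, the blocks
`(S_i, 2 S_i] ∩ (S₀, M]` cover `(S₀, M]`, `I ≤ C (1 + log(2M))`.  Put `h s = 0` for `s > M`.  By R3 the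
part of block `i` is `F_i(x) = ∑_{s ∈ (S_i, 2S_i]} ∑_c (h s G_{s,c}) ee(x(γ + c/s))` with
`G_{s,c} = ∑_{h<L} ee(-h(γ+c/s))`.  R4: `∑_x ‖F_i(x)‖² ≤ C (N' + S_i² (1+log(2S_i)))
∑_s (A/s)² ∑_c ‖G_{s,c}‖²` and by R6 the last sums are `≤ (A²/S_i²) S_i (L² + 2 S_i L) ≤
2 A² L² (1/S_i + 1/L)`.  So it is `≤ C A² (1 + log(2M)) L² (N'/S_i + N'/L + S_i + S_i²/L)`, and
`S₀ ≤ S_i ≤ M`.  Finally `‖∑_i F_i‖² ≤ I ∑_i ‖F_i‖²`; in total a factor `I² ≤ C (1+log(2M))²`.  (If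
`M ≤ S₀` the left hand side is `0`.) -/
def tsR5 : Prop := ∃ C : ℝ, 0 < C ∧ ∀ (S₀ M N' L x₀ : ℕ) (γ A : ℝ) (h : ℕ → ℝ), 1 ≤ S₀ → 1 ≤ L →
  L ≤ x₀ → 0 ≤ A → (∀ s ∈ Finset.Ioc S₀ M, |h s| ≤ A / s) →
  ∑ x ∈ Finset.Ioc x₀ (x₀ + N'), ‖∑ n ∈ Finset.Ioc (x - L) x,
    ((∑ s ∈ Finset.Ioc S₀ M, h s * Gh n s : ℝ) : ℂ) * ee (n * γ)‖ ^ 2 ≤
  C * A ^ 2 * (1 + Real.log (2 * M)) ^ 3 * (L : ℝ) ^ 2 *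
    ((N' : ℝ) / S₀ + (N' : ℝ) / L + M + (M : ℝ) ^ 2 / L)

/-- R8 (MEDIUM-HARD; uses GS, L0, R1): the coefficients with small modulus are those of the model.
`y = X^(1/r-σ)`, a block `(a, b]` of length about `X^(1-δ₁)`.  PROOF.  Let `β = b - a`,
`M₀ = ⌊a/y⌋`, `p_s = ed (E s)`, `c`, `C` of AP, `δs` small (see the end), `ε = δ₁/12`,
`T = ∑_{n ∈ (a,b]} dr r n ee(n/s)`.
(i) AP with the fraction `1/s` at `x = a` and `x = b`: `T = b (E s)(log b) - a (E s)(log a) +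
O(s^C (3X)^(1-c))`; the main term is `∫_a^b p_s(log t) dt = β p_s(log a) + O(β · C (1+log 3X)^r · β/a)`
(coefficients bounded by CB), `β/a ≤ X^(-δ₁/2)`.
(ii) R1: `T = ∑ u^r(n) ee(n/s) + ∑_n ∑_{m ∣ n, m y < n} W(m) ee(n/s)`.  The first sum is
`≤ y^r = X^(1-rσ)`.  The pairs with `m ≤ M₀` (then `m y ≤ a < n`): `∑_{m ≤ M₀} W(m)
∑_{l : a < m l ≤ b} ee(m l/s)`; if `s ∣ m` the inner sum is `β/m + O(1)`, otherwise it is `≤ s/2` (GS,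
`nn(m/s) ≥ 1/s`): together `β hs r y M₀ s + O(∑_{m ≤ M₀} W(m) (1 + s))`.  The pairs with `m > M₀`:
`a/y < m < b/y`, at most `β/y + 1` values, each `W(m) (β/m + 1)`, `β/m ≤ β y/a`.
With `W(m) ≤ C X^ε` (L0) and division by `β ≥ X^(1-δ₁)/2`:
`|hs r y M₀ s - p_s(log a)| ≤ C X^(-1+δ₁) (s^C X^(1-c) + X^(1-rσ) + X^ε M₀ (1+s)) +
C X^ε (β/y + 1)(y/a + 1/β) + C (1 + log 3X)^r X^(-δ₁/2)`, `M₀ ≤ 3 X^(1-1/r+σ)`,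
`s ≤ X^(δ₁/20)`, `(β/y+1)(y/a+1/β) = β/a + 1/y + y/a + 1/β ≤ X^(-δ₁/2) + X^(-3/(4r)) +
X^(-1/2+δ₁/2) + 2 X^(-1+δ₁)` (`r ≥ 2`).  All exponents are `< -δ₁/3` if
`δ₁ (2 + C/20) ≤ c`, `2 δ₁ ≤ r σ`, `δ₁ ≤ 1/(8r)`, `δ₁ ≤ 1/8`. -/
def tsR8 : Prop := ∀ (r : ℕ) (E : ℕ → Polynomial ℝ), 2 ≤ r → AP r E → CB E → ∀ σ : ℝ, 0 < σ →
  σ ≤ 1 / (4 * (r : ℝ)) → ∃ δs : ℝ, 0 < δs ∧ ∀ δ₁ : ℝ, 0 < δ₁ → δ₁ ≤ δs → ∃ X0 : ℝ,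
  ∀ (X : ℝ) (a b s : ℕ), X0 ≤ X → X ^ (1 - δ₁ / 2) ≤ a → (b : ℝ) ≤ 3 * X →
  (a : ℝ) + X ^ (1 - δ₁) / 2 ≤ b → (b : ℝ) ≤ a + X ^ (1 - δ₁) → 1 ≤ s → (s : ℝ) ≤ X ^ (δ₁ / 20) →
  |hs r (X ^ (1 / (r : ℝ) - σ)) ⌊(a : ℝ) / X ^ (1 / (r : ℝ) - σ)⌋₊ s -
    (ed (E s)).eval (Real.log a)| ≤ X ^ (-(δ₁ / 3))

/-- R9 (HARD; uses L0, R1, R2, R5, R8): one block.  PROOF.  Let `ρ = θ₁ - (1 - 2/r) > 0`,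
`σ = min (1/(4r)) (ρ/8)`, `δs` of R8,
`δ₁ = min δs (min ((1-θ₂)/8) (min (ρ/8) (min (θ₁/8) (min (rσ/4) (min (1/(8r)) (1/10))))))`,
`ε = δ₁/400`, `y = X^(1/r-σ)`, `W = Wy r y`, `Q = ⌊X^(δ₁/20)⌋`, `M₀ = ⌊a/y⌋`, `M₁ = ⌊b/y⌋`,
`β = b - a`, `p_s = ed (E s)`, `h_s = hs r y M₀ s`.  `Q ≤ M₀ ≤ M₁ ≤ 3 X^(1-1/r+σ)` for large `X`.  Let
`n ∈ (a, b]`.  By R1 (`m ≤ M₀` implies `m y ≤ a < n`) and R2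
`fl r E Q n = u^r(n) + b₁(n) + R(n) + T(n)`, with
`b₁(n) = ∑_{m ∣ n, m > M₀, m y < n} W(m) ∈ [0, b'(n)]`, `b'(n) = ∑_{m ∣ n, M₀ < m ≤ M₁} W(m)`,
`R(n) = ∑_{s ≤ Q} (h_s - p_s(log n)) Gh n s`, `T(n) = ∑_{Q < s ≤ M₀} h_s Gh n s`.
`|Gh n s| ≤ s²` (`n ≥ 1`), so by R8 and `|p_s(log n) - p_s(log a)| ≤ C (1+log 3X)^r β/a ≤ X^(-δ₁/3)`:
`|R(n)| ≤ 2 Q³ X^(-δ₁/3) ≤ 2 X^(-11δ₁/60)`.
R2 for the weight `W(m) [m > M₀]` and `M = M₁`: `b'(n) = ∑_{s ≤ M₁} h'_s Gh n s`,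
`h'_s = ∑_{M₀ < m ≤ M₁, s ∣ m} W(m)/m`.  `W ≤ C X^ε` (L0); for `s ≤ Q`
`|h'_s| ≤ C X^ε (β/y + 1)(y/a) ≤ C X^ε (β/a + y/a) ≤ 2 C X^(ε-δ₁/2)` and so
`∑_{s ≤ Q} |h'_s| s² ≤ X^(-δ₁/4)`.  For all `s`: `|h_s|, |h'_s| ≤ A/s` with
`A = C X^ε (1 + log 3X)`.  Write `b' = b'_small + b'_large` accordingly.
For `x ∈ [a+L, b]` the window `(x-L, x]` lies in `(a, b]`; its sum of `fl(n) ee(nγ)` is at most, in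
absolute value, `∑_win u^r(n) + L X^(-δ₁/4) + |∑_win b'_large(n)| + 2 L X^(-11δ₁/60) +
|∑_win T(n) ee(nγ)|`.  Squares (factor `5`), sum over `x`:
- `∑_x (∑_win u^r)² ≤ (L C X^ε) ∑_x ∑_win u^r ≤ C X^ε L² y^r = C L² X^(1-rσ+ε)` (`u^r ≤ d_r ≤ C X^ε`);
- the pointwise parts: `≤ β L² (X^(-δ₁/2) + 4 X^(-11δ₁/30))`;
- R5 (with `γ = 0` for `b'_large`, `S₀ = Q`, `x₀ = a + L - 1`, `N' = β - L + 1 ≤ β` if `L ≤ β`, which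
  holds for large `X`): `≤ C A² (1+log(6X))³ L² (β/Q + β/L + M₁ + M₁²/L)`.
Now `β ≤ X^(1-δ₁)`, `β/Q ≤ 2 X^(1-δ₁-δ₁/20)`, `β/L ≤ X^(1-δ₁-θ₁)`, `θ₁ ≥ 8δ₁`,
`M₁ ≤ 3 X^(1-3/(4r))`, `3/(4r) ≥ 6δ₁`, `M₁²/L ≤ 9 X^(2-2/r+2σ-θ₁) = 9 X^(1-ρ+2σ) ≤ 9 X^(1-6δ₁)`,
`X^(1-rσ) ≤ X^(1-4δ₁)`, and `11δ₁/30 > δ₁/20`.  Everything is `≤ L² X^(1-δ₁-δ₁/20+4ε)` up to constants
and powers of the logarithm, hence `≤ L² X^(1-δ₁-δ₁/40)` for large `X`. -/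
def tsR9 : Prop := ∀ (r : ℕ) (E : ℕ → Polynomial ℝ), 2 ≤ r → AP r E → CB E → ∀ θ₁ θ₂ : ℝ, 0 < θ₁ →
  1 - 2 / (r : ℝ) < θ₁ → θ₁ < θ₂ → θ₂ < 1 → ∃ δ₁ X0 : ℝ, 0 < δ₁ ∧ δ₁ ≤ 1 / 10 ∧
  δ₁ ≤ (1 - θ₂) / 8 ∧ ∀ (X γ : ℝ) (a b L : ℕ), X0 ≤ X → X ^ (1 - δ₁ / 2) ≤ a → (b : ℝ) ≤ 3 * X →
  (a : ℝ) + X ^ (1 - δ₁) / 2 ≤ b → (b : ℝ) ≤ a + X ^ (1 - δ₁) → X ^ θ₁ ≤ L → (L : ℝ) ≤ X ^ θ₂ →
  ∑ x ∈ Finset.Icc (a + L) b, ‖∑ n ∈ Finset.Ioc (x - L) x,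
    ((fl r E ⌊X ^ (δ₁ / 20)⌋₊ n : ℝ) : ℂ) * ee (n * γ)‖ ^ 2 ≤
  (L : ℝ) ^ 2 * X ^ (1 - δ₁ - δ₁ / 40)

/-- R10 (MEDIUM-HARD; uses L0, F6, R9): the mean square over short intervals.  PROOF.  `δ₁` of R9,
`η₂ = δ₁/20 ≤ 1/100`, `β = ⌊X^(1-δ₁)⌋`, blocks `(iβ, (i+1)β]`, `i₀` the least `i` with
`iβ ≥ X^(1-δ₁/2)`.  Call `x ∈ [1, N+L]` good if `x ≤ N` and `iβ + L ≤ x ≤ (i+1)β` for some `i ≥ i₀`: then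
the window `(x-L, x]` lies in the block and in `[1, N]`, and `wn` is the sum of R9 with `a = iβ`,
`b = (i+1)β ≤ N + β ≤ 3X`.  The good `x` contribute at most (number of blocks `≤ 2X/β + 1 ≤ 5 X^δ₁`)
`5 X^δ₁ L² X^(1-δ₁-δ₁/40) = 5 L² X^(1-δ₁/40)`.  The others: `x ≤ i₀ β ≤ X^(1-δ₁/2) + X^(1-δ₁)`, or
`x ∈ (iβ, iβ+L)` for some `i ≤ N/β + 1`, or `x ∈ (N, N+L]`: at most
`2 X^(1-δ₁/2) + (5 X^δ₁ + 3) X^θ₂ ≤ 3 X^(1-δ₁/2)` values (`θ₂ + δ₁ ≤ 1 - 7δ₁`), each with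
`‖wn‖² ≤ (L C X^ε)²` (`|fl| ≤ C X^ε` on `[1, 2X]` by L0, F6).  With `ε = δ₁/16` and
`δ = δ₁/50` the total is `≤ L² X^(1-δ)` for large `X`. -/
def tsR10 : Prop := ∀ (r : ℕ) (E : ℕ → Polynomial ℝ), 2 ≤ r → AP r E → CB E → ∀ θ₁ θ₂ : ℝ, 0 < θ₁ →
  1 - 2 / (r : ℝ) < θ₁ → θ₁ < θ₂ → θ₂ < 1 → ∃ η₂ δ X0 : ℝ, 0 < η₂ ∧ η₂ ≤ 1 / 100 ∧ 0 < δ ∧
  ∀ (X γ : ℝ) (N L : ℕ), X0 ≤ X → (N : ℝ) ≤ 2 * X → X ^ θ₁ ≤ L → (L : ℝ) ≤ X ^ θ₂ →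
  SI (fl r E ⌊X ^ η₂⌋₊) N L γ ≤ (L : ℝ) ^ 2 * X ^ (1 - δ)

/-- T1 (EASY-MEDIUM; uses W5): the centers of the short arcs where the Weyl sum is large.  PROOF.  W5
with `δ'`, `γ = t/M`: `|t/M - a/q| ≤ K^(δ'-d)`, `1 ≤ q ≤ K^δ'`.  As `0 ≤ t/M < 1` and
`K^(δ'-d) ≤ 1`, `-q ≤ a ≤ 2q`.  `Γ` is the set of these fractions `a/q`: at most
`∑_q (3q+1) ≤ 4 K^(2δ')` elements. -/
def tsT1 : Prop := ∀ (F : Polynomial ℤ) (A : ℕ), 1 ≤ F.natDegree → 0 < F.leadingCoeff →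
  (∀ k : ℕ, A < k → 1 ≤ F.eval (k : ℤ)) → ∀ δ' : ℝ, 0 < δ' → δ' < 1 → ∃ δ₁ K0 : ℝ, 0 < δ₁ ∧
  ∀ K : ℕ, K0 ≤ (K : ℝ) → 1 ≤ K → ∃ Γ : Finset ℝ, (Γ.card : ℝ) ≤ 4 * (K : ℝ) ^ (2 * δ') ∧
  ∀ M t : ℕ, t < M → (K : ℝ) ^ (1 - δ₁) < ‖∑ k ∈ Finset.Ioc A K, ee ((fv F k : ℝ) * t / M)‖ →
    ∃ g ∈ Γ, |(t : ℝ) / M - g| ≤ (K : ℝ) ^ (δ' - (F.natDegree : ℝ))

/-- T2 (MEDIUM; uses Q5, L0, F6, H2, T1; model: `TS/I_H3.lean`): the second moment of the error terms.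
PROOF.  `d = deg F`, `N = ⌊X⌋`, `H = ⌊X/2⌋`, `κ = Ioc A K`, `sh = fv F`,
`δ' = min (δ/8) (min ((θa-θ₁)/2) (1/2))`, `δ₁`, `Γ` of T1, `w = K^(1-δ₁)`, `L = ⌊K^(d-δ')/8⌋`,
`M = N + H + L + 1`, `Q = ⌊X^η₂⌋`.  For large `X`: `K` is large (`K^d ≥ X^θa`, `θa > 0`), all
`F(k) ≤ C K^d ≤ C X^θ ≤ H`; `K^(δ'-d) ≤ 1/(8L)`; `L ≥ K^(d-δ')/16 ≥ X^(θa(1-δ'))/16 ≥ X^θ₁` and
`L ≤ K^d ≤ X^θ ≤ X^θ₂`.  So the hypothesis gives `SI (fl r E Q) N' L γ ≤ Y = L² X^(1-δ)` for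
`N' = N` and `N' = N + H ≤ 2X`.  By L0 and F6 `|dr r n|`, `|fs E Q n|`, `|fl r E Q n| ≤ C X^ε` for
`1 ≤ n ≤ 2X`.  Q5 (first part for `u = fl`, `v = dr`, second part for `u = fs`, `v = fl`): each sum
is at most `K^(1-δ₁) C X^(2+4ε) + K · 4 K^(2δ') · 4 X^(1-δ) · C X^(1+2ε)`.  `K ≤ X`, so
`K^(2δ') ≤ X^(δ/4)` and the second term is `≤ C K X^(2-3δ/4+2ε)`; `K^(-δ₁) ≤ X^(-δ₁θa/d)`.  Take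
`ε = min (δ/16) (δ₁θa/(16d))` and `δ'' = min (δ/2) (δ₁θa/(2d))`, `X` large. -/
def tsT2 : Prop := ∀ (r : ℕ) (E : ℕ → Polynomial ℝ) (η₂ δ X0 θ₁ θ₂ θa θ : ℝ), 2 ≤ r → AP r E →
  CB E → 0 < η₂ → η₂ ≤ 1 / 100 → 0 < δ → 0 < θ₁ → θ₁ < θa → θ ≤ θ₂ → θ₂ < 1 →
  (∀ (X γ : ℝ) (N L : ℕ), X0 ≤ X → (N : ℝ) ≤ 2 * X → X ^ θ₁ ≤ L → (L : ℝ) ≤ X ^ θ₂ →
    SI (fl r E ⌊X ^ η₂⌋₊) N L γ ≤ (L : ℝ) ^ 2 * X ^ (1 - δ)) →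
  ∀ (F : Polynomial ℤ) (A : ℕ), 1 ≤ F.natDegree → 0 < F.leadingCoeff →
  (∀ k : ℕ, A < k → 1 ≤ F.eval (k : ℤ)) → ∃ δ'' X1 : ℝ, 0 < δ'' ∧ ∀ (X : ℝ) (K : ℕ),
  X1 ≤ X → X ^ θa ≤ (K : ℝ) ^ F.natDegree → (K : ℝ) ^ F.natDegree ≤ X ^ θ →
  ∑ k ∈ Finset.Ioc A K, cor (fl r E ⌊X ^ η₂⌋₊) (dr r) ⌊X⌋₊ (fv F k) ^ 2 ≤ K * X ^ (2 - δ'') ∧
  ∑ k ∈ Finset.Ioc A K, cor (fs E ⌊X ^ η₂⌋₊) (fl r E ⌊X ^ η₂⌋₊) ⌊X⌋₊ (fv F k) ^ 2 ≤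
    K * X ^ (2 - δ'')

/-- T3 (EASY-MEDIUM; uses G3, H2, T2; model: `TS/I_H4.lean`): the second moment.  PROOF.  As H4:
`cor (dr) (dr) = cor (fs) (fs) + cor (fl) (dr) + cor (fs) (fl)`, G3 with the exponent `(1+θ)/2`
(if `θ ≤ 0` the conditions `X^θa ≤ K^d ≤ X^θ` cannot hold for `X > 1`). -/
def tsT3 : Prop := ∀ (r : ℕ) (E : ℕ → Polynomial ℝ) (η₂ δ X0 θ₁ θ₂ θa θ : ℝ), 2 ≤ r → AP r E →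
  CB E → 0 < η₂ → η₂ ≤ 1 / 100 → 0 < δ → 0 < θ₁ → θ₁ < θa → θ ≤ θ₂ → θ₂ < 1 →
  (∀ (X γ : ℝ) (N L : ℕ), X0 ≤ X → (N : ℝ) ≤ 2 * X → X ^ θ₁ ≤ L → (L : ℝ) ≤ X ^ θ₂ →
    SI (fl r E ⌊X ^ η₂⌋₊) N L γ ≤ (L : ℝ) ^ 2 * X ^ (1 - δ)) →
  ∀ (F : Polynomial ℤ) (A : ℕ), 1 ≤ F.natDegree → 0 < F.leadingCoeff →
  (∀ k : ℕ, A < k → 1 ≤ F.eval (k : ℤ)) → ∃ δ'' X1 : ℝ, 0 < δ'' ∧ ∀ (X : ℝ) (K : ℕ),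
  X1 ≤ X → X ^ θa ≤ (K : ℝ) ^ F.natDegree → (K : ℝ) ^ F.natDegree ≤ X ^ θ →
  ∑ k ∈ Finset.Ioc A K, (cor (dr r) (dr r) ⌊X⌋₊ (fv F k) -
    X * (PH r E (fv F k)).eval (Real.log X)) ^ 2 ≤ K * X ^ (2 - δ'')

end Pool.Agent.Work.MP_122e00_nt.TS
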