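import Mathlib
import Pool.Agent.Work.MP_122e00_nt.TS.Stmts4

/-!
# Thin shifts, part 5: shifts down to `X^(1/3 + ε)` for every `r`

Goal (item U8): the mean square over short intervals of `(d_r - model)(n) e(n γ)` has a power saving
for all lengths `L ≥ X^(1/3 + ε)`, for every `r ≥ 2` (in R10: `L ≥ X^(1 - 2/r + ε)`).

Every docstring is a complete proof.  Earlier items are hypotheses.  `z = X^ε₁`, `w = X^(1/3+ε₁)`,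
`y₂ = X^(1/2 - r ε₁)`.
-/

namespace Pool.Agent.Work.MP_122e00_nt.TS

open Finset Filter Topology ArithmeticFunction MeasureTheory
open scoped ArithmeticFunction.zeta ArithmeticFunction.Moebius

/-- block of length about `X^(1-δ₁)` above `X^(1-δ₁/2)` -/
def Blk (X δ₁ : ℝ) (a b : ℕ) : Prop := X ^ (1 - δ₁ / 2) ≤ (a : ℝ) ∧ (b : ℝ) ≤ 3 * X ∧
  (a : ℝ) + X ^ (1 - δ₁) / 2 ≤ b ∧ (b : ℝ) ≤ a + X ^ (1 - δ₁)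

/-- the sum of `f(n) e(n γ)` over the window `(x - L, x]` -/
noncomputable def ws (f : ℕ → ℝ) (γ : ℝ) (L x : ℕ) : ℂ :=
  ∑ n ∈ Finset.Ioc (x - L) x, (f n : ℂ) * ee (n * γ)

/-- long variable `n/m > y` -/
noncomputable def T1 (W : ℕ → ℝ) (y : ℝ) (n : ℕ) : ℝ :=
  ∑ m ∈ n.divisors.filter (fun m : ℕ => (m : ℝ) * y < n), W m

/-- medium variable `z < n/m ≤ w` -/
noncomputable def T2 (B : ℕ → ℝ) (z w : ℝ) (n : ℕ) : ℝ :=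
  ∑ m ∈ n.divisors.filter (fun m : ℕ => (m : ℝ) * z < n ∧ (n : ℝ) ≤ m * w), B m

/-- weights bounded by divisor functions -/
def WB (r : ℕ) (W : ℕ → ℝ) : Prop := ∀ m, 0 ≤ W m ∧ W m ≤ r * dr r m

/-- the window function `1_[0,η) - 1_[η,2η)` -/
noncomputable def psi (η v : ℝ) : ℝ :=
  if 0 ≤ v ∧ v < η then 1 else if η ≤ v ∧ v < 2 * η then -1 else 0

/-- V1 (MEDIUM; model: `TS/I_R1.lean`): splitting of `d_r` by the size of the factors.  PROOF.  Put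
`z = X^ε₁ ≤ w = X^(1/3+ε₁) ≤ y₂ = X^(1/2-rε₁)` (`(r+1) ε₁ ≤ 1/24 + 1/48 < 1/6`).  Let `t, u, g₁, g₂` be
the indicator functions of `[1,z]`, `(z,w]`, `(w,y₂]`, `(y₂,∞)` as arithmetic functions with real
values; `ζ = t + u + g₁ + g₂`.  Telescoping (`Commute.mul_geom_sum₂`): `ζ^r = (ζ-u)^r + u * B`,
`B = ∑_{i<r} (ζ-u)^i ζ^(r-1-i)`, and `(ζ-u)^r = (t+g₁)^r + g₂ * W`,
`W = ∑_{i<r} (t+g₁)^i (ζ-u)^(r-1-i)`; `0 ≤ W, B ≤ r ζ^(r-1) ≤ r ζ^r` pointwise.  `(g₂ * W)(n) = T1 W y₂ n`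
and `(u * B)(n) = T2 B z w n` (`n/m > y₂` iff `m y₂ < n`, etc.).  Finally `(t+g₁)^r =
∑_j C(r,j) t^(r-j) g₁^j`; `g₁^j` is supported in `(w^j, y₂^j]` and `t^i` in `[1, z^i]`.  For `j ≥ 3`
the support lies above `w^3 = X^(1+3ε₁) > 3X`; for `j ≤ 2` below `z^r y₂² = X^(1-rε₁)`.  So
`(t+g₁)^r(n) = 0` for `X^(1-rε₁) < n ≤ 3X`. -/
def tsV1 : Prop := ∀ (r : ℕ) (ε₁ : ℝ), 2 ≤ r → 0 < ε₁ → ε₁ ≤ 1 / (24 * (r : ℝ)) → ∃ X0 : ℝ,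
  ∀ X : ℝ, X0 ≤ X → ∃ W B : ℕ → ℝ, WB r W ∧ WB r B ∧
  ∀ n : ℕ, 1 ≤ n → X ^ (1 - r * ε₁) < n → (n : ℝ) ≤ 3 * X →
    dr r n = T1 W (X ^ (1 / 2 - r * ε₁)) n + T2 B (X ^ ε₁) (X ^ (1 / 3 + ε₁)) n

/-- V2 (HARD; uses L0, R2, R5; model: `TS/I_R9.lean`, whose parts `T` and `b'` this is): the part with
a long variable.  PROOF.  `Q = ⌊X^(δ₁/20)⌋`, `δs = 1/100`, `ε = δ₁/400`, `M₀ = ⌊a/y₂⌋`,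
`M₁ = ⌊b/y₂⌋ ≤ 3 X^(1/2+rε₁) ≤ 3 X^(13/24)`, `β = b - a`, `h s = ∑_{m ≤ M₀, s ∣ m} W m/m`.  For
`n ∈ (a,b]` (`m ≤ M₀` implies `m y₂ ≤ a < n`; R2) `T1 W y₂ n = ∑_{s ≤ M₀} h_s Gh n s + b₁(n)`,
`0 ≤ b₁(n) = ∑_{m ∣ n, m > M₀, m y₂ < n} W m ≤ b'(n) = ∑_{m ∣ n, M₀ < m ≤ M₁} W m
= ∑_{s ≤ M₁} h'_s Gh n s`, `h'_s = ∑_{M₀ < m ≤ M₁, s ∣ m} W m/m` (R2).  `W ≤ C X^ε` (L0);
`|h_s|, |h'_s| ≤ A/s`, `A = C X^ε (1 + log 3X) ≤ X^(δ₁/100)`.  For `s ≤ Q`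
`|h'_s| ≤ C X^ε (β/y₂ + 1)(y₂/a) = C X^ε (β/a + y₂/a) ≤ 2C X^(ε-δ₁/2)`, `|Gh n s| ≤ s²`, so
`∑_{s ≤ Q} |h'_s| s² ≤ X^(-δ₁/4)`.  So the window sum of the difference is at most
`L X^(-δ₁/4) + |∑_win b'_large(n)| + |∑_win ∑_{Q<s≤M₀} h_s Gh n s ee(nγ)|`, and R5 (`S₀ = Q`,
`x₀ = a+L-1`, `N' = β-L+1`; nothing to prove if `L > β`) bounds the mean squares of the last two by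
`C A² (1+log 6X)³ L² (β/Q + β/L + M₁ + M₁²/L)`, `β/Q ≤ 2X^(1-δ₁-δ₁/20)`, `β/L ≤ X^(2/3)`,
`M₁²/L ≤ 9 X^(13/12-1/3) = 9 X^(3/4)`.  The first contributes `β L² X^(-δ₁/2)`. -/
def tsV2 : Prop := ∀ (r : ℕ) (ε₁ : ℝ), 2 ≤ r → 0 < ε₁ → ε₁ ≤ 1 / (24 * (r : ℝ)) → ∃ δs : ℝ, 0 < δs ∧
  ∀ δ₁ : ℝ, 0 < δ₁ → δ₁ ≤ δs → ∃ X0 : ℝ, ∀ X : ℝ, X0 ≤ X → ∀ W : ℕ → ℝ, WB r W → ∀ a b : ℕ,
  Blk X δ₁ a b → ∃ h : ℕ → ℝ, (∀ s ∈ Finset.Icc 1 ⌊X ^ (δ₁ / 20)⌋₊, |h s| ≤ X ^ (δ₁ / 100)) ∧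
  ∀ (L : ℕ) (γ : ℝ), X ^ (1 / 3 : ℝ) ≤ L → (L : ℝ) ≤ X ^ (1 - 2 * δ₁) →
  ∑ x ∈ Finset.Icc (a + L) b, ‖ws (fun n => T1 W (X ^ (1 / 2 - r * ε₁)) n -
    ∑ s ∈ Finset.Icc 1 ⌊X ^ (δ₁ / 20)⌋₊, h s * Gh n s) γ L x‖ ^ 2 ≤
  (L : ℝ) ^ 2 * X ^ (1 - δ₁ - δ₁ / 40)

/-- V3 (MEDIUM-HARD; uses GS, L2): medium variable, `γ` with a denominator `q`.  PROOF.
`F_x = ∑_{a ∈ (A,A']} T_a(x)`, `T_a(x) = ∑_{m : x-L < a m ≤ x} B m ee(a m γ)`, `m ≤ M = ⌊Z/A⌋`.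
Cauchy: `‖F_x‖² ≤ A ∑_a ‖T_a(x)‖²`.  Extend the sum over `x ∈ [L, Z]` to all integers `x` (with
`m ≤ M` fixed) and expand: `∑_x ‖T_a(x)‖² ≤ ∑_{m,m' ≤ M} B m B m' ee(aγ(m-m')) max(L - a|m-m'|, 0)`.
For `j = m - m'` the weight `max(L - a|j|, 0)` is nonincreasing in `a`, between `0` and `L`, and `0` if
`|j| ≥ L/A`; by Abel summation and GS
`|∑_{a ∈ (A,A']} max(L - a|j|,0) ee(aγj)| ≤ L b_j`, `b_j ≤ A`, `b_j nn(γ j) ≤ 1/2`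
(`b_j` = the largest absolute value of the sums `∑_{a ∈ (A,A'']} ee(aγj)`).  By L2 with `Z = A`, the
range `1 ≤ j ≤ J = ⌊L/A⌋` being covered by `J/q + 1` blocks,
`∑_{j ≤ J} b_j ≤ 6 (J/q + 1)(A + q(1 + log q))`.  For every `j` there are at most `M ≤ Z/A` pairs
`(m, m')`.  Total: `A · D² · (Z/A) · L · (A + 12 (J/q+1)(A + q(1+log q))) ≤
C D² Z L² (1+log q)(A/L + 1/q + 1/A + q/L)`. -/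
def tsV3 : Prop := ∃ C : ℝ, 0 < C ∧ ∀ (A A' L q Z : ℕ) (b : ℤ) (γ D : ℝ) (B : ℕ → ℝ), 1 ≤ A → A ≤ A' →
  A' ≤ 2 * A → A ≤ L → 1 ≤ q → IsCoprime b (q : ℤ) → |γ - b / q| ≤ 1 / (q : ℝ) ^ 2 →
  (∀ m, |B m| ≤ D) →
  ∑ x ∈ Finset.Icc L Z, ‖ws (fun n => ∑ m ∈ n.divisors.filter
    (fun m => A * m < n ∧ n ≤ A' * m), B m) γ L x‖ ^ 2 ≤
  C * D ^ 2 * Z * (L : ℝ) ^ 2 * (1 + Real.log q) *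
    (1 / (A : ℝ) + (A : ℝ) / L + 1 / (q : ℝ) + (q : ℝ) / L)

/-- V4 (EASY-MEDIUM; uses L0, V3): medium variables, minor arcs.  PROOF.  Cover `(⌊z⌋, ⌊w⌋]` by
`I ≤ 2 log X` ranges `(A_i, A_(i+1)]`, `A_0 = ⌊z⌋`, `A_(i+1) = min (2 A_i) ⌊w⌋`; `m z < n ≤ m w` iff
`⌊z⌋ m < n ≤ ⌊w⌋ m` for `m ∣ n`.  V3 with `Z = ⌊3X⌋`, `B` replaced by `0` above `3X`, `D = C X^ε` (L0),
`1/A_i ≤ 2X^(-ε₁)`, `A_i/L ≤ X^(-ε₁)`, `1/q, q/L ≤ X^(-δ₂)`; `‖∑_i F_i‖² ≤ I ∑ ‖F_i‖²`. -/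
def tsV4 : Prop := ∀ (r : ℕ) (ε₁ δ₂ : ℝ), 2 ≤ r → 0 < ε₁ → ε₁ ≤ 1 / (24 * (r : ℝ)) → 0 < δ₂ →
  δ₂ ≤ 1 → ∃ δ X0 : ℝ, 0 < δ ∧ ∀ X : ℝ, X0 ≤ X → ∀ B : ℕ → ℝ, WB r B →
  ∀ (L q : ℕ) (b : ℤ) (γ : ℝ), X ^ (1 / 3 + 2 * ε₁) ≤ L → (L : ℝ) ≤ 3 * X → X ^ δ₂ ≤ q →
  (q : ℝ) ≤ L * X ^ (-δ₂) → IsCoprime b (q : ℤ) → |γ - b / q| ≤ 1 / (q : ℝ) ^ 2 →
  ∑ x ∈ Finset.Icc L ⌊3 * X⌋₊, ‖ws (T2 B (X ^ ε₁) (X ^ (1 / 3 + ε₁))) γ L x‖ ^ 2 ≤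
    (L : ℝ) ^ 2 * X ^ (1 - δ)

/-- P1 (MEDIUM-HARD; uses W1, W4): the sums `∑ a^(-2πit)` over a progression.  PROOF.  `WeylP j` holds
for all `j ≥ 1` (W1, W4).  Let `j = ⌈7/ε₁⌉`, `δ_a = δ' = δ₆/(4(j+1))`, `δ_W ≤ 1` that of `WeylP j` for
`δ'`, `δw = min (min (ε₁/20) (1/(2j))) (min (ε₁ δ_W/10) (δ_a/2))`.
`H = ⌊(A/q) (|t| X^δ_a)^(-1/(j+1))⌋`; as `(5+δ_a)/(j+1) ≤ (3/4) ε₁`, `X^(0.15 ε₁) ≤ H ≤ A/q`.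
Number the elements: `a = a₁ + q k`, `1 ≤ k ≤ K₁ ≤ A/q + 1`, and cut the range of `k` in at most
`3A/(qH)` intervals of length `≤ H`; on one of them `a = a₀ + q k'`, `0 < k' ≤ H`, `A/2 ≤ a₀ ≤ 2A`.
`v = q k'/a₀ ≤ 2 (|t| X^δ_a)^(-1/(j+1)) ≤ 1/2`, and `|log(1+v) - ∑_{i ≤ j} (-1)^(i-1) v^i/i| ≤ v^(j+1)`,
so `ee(-t log a) = ee(f(k')) + O(2^(j+4) X^(-δ_a))` with a real polynomial `f` of degree `≤ j` whose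
coefficient of degree `j` has absolute value `α = |t| q^j/(j a₀^j)`.  Suppose the sum of `ee(f(k'))` is
`≥ H^(1-δ_W)` in absolute value.  `WeylP j` gives `1 ≤ q₁ ≤ H^δ' ≤ X^δ'` and an integer `m` with
`|q₁ α ∓ m| ≤ H^(δ'-j)`.  `q₁ α ≤ X^δ' X^5 X^(jδw) 2^j X^(-jε₁) ≤ 2^j X^(δ'-3/2) < 1/2`, so `m = 0` and
`α ≤ H^(δ'-j)`.  With `a₀ ≤ 2A` and `q H/A ≥ (1/2)(|t| X^δ_a)^(-1/(j+1))`: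
`|t| 2^(-j) (|t| X^δ_a)^(-j/(j+1)) ≤ |t| (qH/A)^j ≤ j 2^j H^δ'`, hence
`X^(δ₆/(j+1) - δ_a - δ') ≤ j 4^j`, false for large `X`.  Total:
`(3A/(qH)) (H^(1-δ_W) + H 2^(j+4) X^(-δ_a)) ≤ A X^(-δw)`. -/
def tsP1 : Prop := ∀ ε₁ δ₆ : ℝ, 0 < ε₁ → ε₁ ≤ 1 → 0 < δ₆ → δ₆ ≤ 1 → ∃ δw X0 : ℝ, 0 < δw ∧
  ∀ (X t : ℝ) (A A' q ρ : ℕ), X0 ≤ X → X ^ ε₁ ≤ A → (A : ℝ) ≤ X → A ≤ A' → A' ≤ 2 * A → 1 ≤ q →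
  (q : ℝ) ≤ X ^ δw → X ^ δ₆ ≤ |t| → |t| ≤ X ^ (5 : ℕ) →
  ‖∑ a ∈ (Finset.Ioc A A').filter (fun a => a % q = ρ % q), ee (-(t * Real.log a))‖ ≤
    A * X ^ (-δw)

/-- P2 (MEDIUM): the Fourier transform of the triangle function.  PROOF.  Let
`tri(v) = max (η - |v|) 0`: continuous, compactly supported, and
`∫ tri(v) exp(-2πitv) dv = (sin(πηt)/(πt))²` for `t ≠ 0` (integrate by parts, or it is the square of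
the transform of the indicator function of `[-η/2, η/2]`), a continuous function bounded by
`min(η², 1/(πt)²)`, integrable.  Fourier inversion (`Continuous.fourierInv_fourier_eq` or its variant
in Mathlib) and evenness (real part). -/
def tsP2 : Prop := ∀ η : ℝ, 0 < η →
  Integrable (fun t : ℝ => (Real.sin (Real.pi * η * t) / (Real.pi * t)) ^ 2) ∧
  ∀ v : ℝ, ∫ t : ℝ, (Real.sin (Real.pi * η * t) / (Real.pi * t)) ^ 2 * Real.cos (2 * Real.pi * t * v) =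
    max (η - |v|) 0

/-- P3 (MEDIUM; uses P2): Plancherel for windows.  PROOF.  Expand both sides in the finite sums.  Left:
`∫ psi η (u-x) psi η (u-y) du = 2 tri(v) - tri(v-η) - tri(v+η)`, `v = x - y`,
`tri(v) = max (η-|v|) 0` (overlap of intervals of length `η`).  By P2 this is
`∫ (sin(πηt)/(πt))² (2 cos(2πtv) - cos(2πt(v-η)) - cos(2πt(v+η))) dt`
`= ∫ (sin(πηt)/(πt))² (2 - 2 cos(2πtη)) cos(2πtv) dt`, `2 - 2 cos(2πtη) = 4 sin²(πηt)`.  Right: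
`‖C(t)‖² = ∑_{i,i'} c_i conj c_i' ee(-t(λ_i - λ_i'))`, whose real part has `cos(2πt v)` (pair `(i,i')`
with `(i',i)`). -/
def tsP3 : Prop := ∀ (ι : Type) (I : Finset ι) (lam : ι → ℝ) (c : ι → ℂ) (η : ℝ), 0 < η →
  Integrable (fun t : ℝ => (Real.sin (Real.pi * η * t) / (Real.pi * t)) ^ 2 *
    (4 * Real.sin (Real.pi * η * t) ^ 2) * ‖∑ i ∈ I, c i * ee (-(t * lam i))‖ ^ 2) ∧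
  ∫ u : ℝ, ‖∑ i ∈ I, c i * ((psi η (u - lam i) : ℝ) : ℂ)‖ ^ 2 =
    ∫ t : ℝ, (Real.sin (Real.pi * η * t) / (Real.pi * t)) ^ 2 *
      (4 * Real.sin (Real.pi * η * t) ^ 2) * ‖∑ i ∈ I, c i * ee (-(t * lam i))‖ ^ 2

/-- P4 (MEDIUM-HARD; uses P1, P3): the mean square of multiplicative windows.  PROOF.  Let `R` be the
set of the `a`; `C(t) = A(t) B(t)`, `A(t) = ∑_{a∈R} ee(-t log a)`, `B(t) = ∑_{m ≤ M} B m ee(-t log m)`,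
`‖A‖ ≤ A`, `‖B‖ ≤ M D`, `A M ≤ 3X`; `ω(t) = (sin(πηt)/(πt))² 4 sin²(πηt) ≤ 4 min(η², 1/t²)` and
`ω(t) ≤ 4π²η⁴t²`.  `T₀ = X^δ₆`, `δ₆ = δ₅/3`, `δ'` = the `δw` of P1 for `ε₁`, `δ₆`.
(1) `|t| ≤ T₀`: `≤ 2T₀ · 4π²η⁴T₀² · 9X²D² ≤ 800 η⁴ X^δ₅ X² D² ≤ 800 X^(-δ₅) η² X² D²`.
(2) `T₀ ≤ |t| ≤ X^5`: `‖A(t)‖ ≤ A X^(-δ')` (P1; `q ≤ X^δ'`, `A ≤ 3 η X^(1-ε₁) ≤ X`) and the mean
value theorem (`Pool.Agent.Work.MP_37bd4f_nt.mean_value` in `MP_37bd4f_nt/MeanValue.lean`, any complex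
coefficients, `n^(-(tI))`; substitution `t → 2πt`): `∫_{|t| ≤ T} ‖B‖² ≤ C (T + M(1+log M)) M D²`.
Split at `1/η`, `2/η`, `4/η`, …: `∫ min(η², 1/t²) ‖B‖² ≤ C M D² (η + η² M (1+log M))`, so the part is
`≤ C A² X^(-2δ') M D² (η + η² M (1+log M)) ≤ C X^(2-2δ') η² D² (1+log X)`, because
`A² M η ≤ 3XAη ≤ 9X²η²` (`A ≤ 3ηX`).
(3) `|t| ≥ X^5`: `≤ ∫ (4/t²) 9X²D² ≤ 72 X^(-3) D²`, and `η X ≥ 1/3` since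
`X^ε₁ ≤ A ≤ 3 η X^(1-ε₁)`.
`δw = min (δ₅/2) (δ'/2)`. -/
def tsP4 : Prop := ∀ ε₁ δ₅ : ℝ, 0 < ε₁ → ε₁ ≤ 1 / 20 → 0 < δ₅ → δ₅ ≤ 1 / 20 → ∃ δw X0 : ℝ, 0 < δw ∧
  ∀ (X η D : ℝ) (A A' q ρ M : ℕ) (B : ℕ → ℂ), X0 ≤ X → X ^ ε₁ ≤ A → A ≤ A' → A' ≤ 2 * A → 1 ≤ q →
  (q : ℝ) ≤ X ^ δw → (M : ℝ) ≤ 3 * X / A → 0 < η → η ≤ X ^ (-δ₅) → (A : ℝ) ≤ 3 * η * X ^ (1 - ε₁) →
  0 ≤ D → (∀ m ∈ Finset.Icc 1 M, ‖B m‖ ≤ D) →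
  ∫ u : ℝ, ‖∑ p ∈ ((Finset.Ioc A A').filter (fun a => a % q = ρ % q)) ×ˢ Finset.Icc 1 M,
    B p.2 * ((psi η (u - Real.log ((p.1 : ℝ) * p.2)) : ℝ) : ℂ)‖ ^ 2 ≤ D ^ 2 * η ^ 2 * X ^ (2 - δw)

/-- P5 (MEDIUM): additive and multiplicative windows in a block.  PROOF.  Let `x ∈ [a+2ℓ, b]`,
`x' ∈ [x, x+1)` real, `Δ(x)` the difference on the left, `V(u)` the sum on the right.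
`V(log x') = ∑_{x' e^(-η) < n ≤ x'} c n - ∑_{x' e^(-2η) < n ≤ x' e^(-η)} c n` (`n ≤ b ≤ N`).
`η = ℓ/a ≤ 1/2`, `1 - η ≤ e^(-η) ≤ 1 - η + η²/2`, so
`|x' e^(-η) - (x-ℓ)| ≤ 1 + ℓ(b+1-a)/a + (b+1)η²/2` and
`|x' e^(-2η) - (x-2ℓ)| ≤ 1 + 2ℓ(b+1-a)/a + 2(b+1)η²`; `(b+1) η² ≤ 3ℓ²/a`.  An interval between two
reals contains at most their distance plus one integers, and there is no integer in `(x, x']`.  So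
`‖Δ(x) - V(log x')‖ ≤ 30 D (1 + ℓ(b-a)/a + ℓ²/a)`.  `‖Δ‖² ≤ 2‖V‖² + 2(…)²`, integrate over `x'` and sum:
`∑_x ∫_x^(x+1) ‖V(log x')‖² dx' ≤ ∫_{a}^{b+1} ‖V(log x')‖² dx' ≤ (b+1) ∫ ‖V(u)‖² du` (`x' = e^u`). -/
def tsP5 : Prop := ∃ C : ℝ, 0 < C ∧ ∀ (c : ℕ → ℂ) (D : ℝ) (a b ℓ N : ℕ), 1 ≤ ℓ → 2 * ℓ ≤ a → a ≤ b →
  b ≤ 2 * a → b ≤ N → (∀ n, ‖c n‖ ≤ D) →
  ∑ x ∈ Finset.Icc (a + 2 * ℓ) b, ‖∑ n ∈ Finset.Ioc (x - ℓ) x, c n -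
    ∑ n ∈ Finset.Ioc (x - 2 * ℓ) (x - ℓ), c n‖ ^ 2 ≤
  8 * b * (∫ u : ℝ, ‖∑ n ∈ Finset.Icc 1 N, c n * ((psi ((ℓ : ℝ) / a) (u - Real.log n) : ℝ) : ℂ)‖ ^ 2) +
    C * ((b : ℝ) - a + 1) * D ^ 2 * (1 + ℓ * ((b : ℝ) - a) / a + (ℓ : ℝ) ^ 2 / a) ^ 2

/-- P6 (MEDIUM-HARD; uses L0, P4, P5): medium variables, major arcs.  PROOF.  Let `δw` be that of P4
for `ε₁/2`, `δ₅/2`, `δm = min (δw/8) (δ₅/4)`, `δ₁ ≤ δm`, `η = ℓ/a`.  Cover `(⌊z⌋, ⌊w⌋]` by `I ≤ 2 log X`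
ranges `(A_i, A_(i+1)]` as in V4; `M_i = ⌊3X/A_i⌋`.  For `n ≤ 3X`
`T2 B z w n ee(n b'/q) = ∑_{i, ρ < q} c^(i,ρ)_n`, `c^(i,ρ)_n = ∑ B m ee(b' ρ m/q)` over the pairs
`(a, m)` with `a m = n`, `a ∈ (A_i, A_(i+1)]`, `a ≡ ρ (mod q)`, `m ≤ M_i`.  Let `c_n` be the sum of the
`c^(i,ρ)_n` for all `n` (it vanishes for `n > 6X`), `N = ⌊6X⌋ + 1`, `|c_n| ≤ C X^ε` (L0).  P5: the sum is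
`≤ 8b ∫ ‖V‖² + C (β+1) X^(2ε) (1 + ℓβ/a + ℓ²/a)²`, `β = b - a`; `β/a ≤ X^(-δ₁/2)`,
`ℓ/a ≤ X^(-δ₅+δ₁/2) ≤ X^(-δ₁/2)`, so the second term is `≤ C ℓ² X^(1-2δ₁+2ε)`.  `V` is the sum of the
`q I` functions of P4 (`A_i ≤ w ≤ ℓ X^(-ε₁) = η a X^(-ε₁) ≤ 3 η X^(1-ε₁)`; `η ≤ X^(-δ₅/2)`), so
`∫ ‖V‖² ≤ (q I)² C X^(2ε) η² X^(2-δw)` and the first term is
`≤ C X^(1+2δm+3ε) ℓ² a^(-2) X^(2-δw) ≤ C ℓ² X^(1+2δm+δ₁+3ε-δw)`.  `ε = δ₁/100`. -/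
def tsP6 : Prop := ∀ (r : ℕ) (ε₁ δ₅ : ℝ), 2 ≤ r → 0 < ε₁ → ε₁ ≤ 1 / (24 * (r : ℝ)) → 0 < δ₅ →
  δ₅ ≤ 1 / 20 → ∃ δm : ℝ, 0 < δm ∧ ∀ δ₁ : ℝ, 0 < δ₁ → δ₁ ≤ δm → ∃ X0 : ℝ, ∀ X : ℝ, X0 ≤ X →
  ∀ B : ℕ → ℝ, WB r B → ∀ a b : ℕ, Blk X δ₁ a b → ∀ (ℓ q : ℕ) (b' : ℤ),
  X ^ (1 / 3 + 2 * ε₁) ≤ ℓ → (ℓ : ℝ) ≤ X ^ (1 - δ₅) → 1 ≤ q → (q : ℝ) ≤ X ^ δm →
  ∑ x ∈ Finset.Icc (a + 2 * ℓ) b, ‖ws (T2 B (X ^ ε₁) (X ^ (1 / 3 + ε₁))) (b' / q) ℓ x -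
    ws (T2 B (X ^ ε₁) (X ^ (1 / 3 + ε₁))) (b' / q) ℓ (x - ℓ)‖ ^ 2 ≤
  (ℓ : ℝ) ^ 2 * X ^ (1 - δ₁ - δ₁ / 40)

end Pool.Agent.Work.MP_122e00_nt.TS
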