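import Mathlib
import Pool.Agent.Work.MP_122e00_nt.TS.Stmts5

/-!
# Thin shifts, part 6: shifts down to `X^(1/3 + ε)` for every `r`, second half

Every docstring is a complete proof.  Earlier items are hypotheses.  `z = X^ε₁`, `w = X^(1/3+ε₁)`,
`y₂ = X^(1/2 - r ε₁)`, `Q = ⌊X^(δ₁/20)⌋`, `p_s = ed (E s)`, `β = b - a`,
`Blk X δ₁ a b`: `X^(1-δ₁/2) ≤ a`, `b ≤ 3X`, `X^(1-δ₁)/2 ≤ β ≤ X^(1-δ₁)`.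
-/

namespace Pool.Agent.Work.MP_122e00_nt.TS

open Finset Filter Topology ArithmeticFunction MeasureTheory
open scoped ArithmeticFunction.zeta ArithmeticFunction.Moebius

/-- U1 (MEDIUM; uses GS, R3, V1, V2, P6): adjacent windows, rational frequency with small denominator.
PROOF.  `δm = min` of `1/100`, `δ₅/2`, `2rε₁`, the `δs` of V2 and the `δm` of P6.  `W`, `B` of V1, `h` of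
V2.  For `n ∈ (a,b]` (`a ≥ X^(1-δ₁/2) ≥ X^(1-rε₁)`)
`dr r n = (T1 W y₂ n - ∑_{s ≤ Q} h_s Gh n s) + ∑_{s ≤ Q} h_s Gh n s + T2 B z w n`.
For `x ∈ [a+2ℓ, b]` both windows `(x-ℓ,x]`, `(x-2ℓ,x-ℓ]` lie in `(a,b]`.  The three parts:
(i) V2 with `L = ℓ` (`X^(1/3) ≤ ℓ ≤ X^(1-δ₅) ≤ X^(1-2δ₁)`), at `x` and at `x - ℓ ∈ [a+ℓ, b]`:
`∑ ‖A(x) - A(x-ℓ)‖² ≤ 4 ℓ² X^(1-δ₁-δ₁/40)`.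
(ii) P6.
(iii) By R3 (with `L = ℓ`, `x ≥ ℓ`) the window sum of `Gh n s ee(n b'/q)` is the sum over the reduced
residues `c` mod `s` of the sum of `ee(nφ)`, `φ = b'/q + c/s`, over the window.  If `φ` is an integer the
two windows give the same (`ℓ`); otherwise `nn φ ≥ 1/(qs)` and each is `≤ qs/2` (GS).  So the difference
of the windows is at most `∑_{s ≤ Q} |h_s| s · q s ≤ X^(δ₁/100) q Q³ ≤ X^(1/20)`, and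
`β X^(1/10) ≤ ℓ² X^(1-δ₁-δ₁/40)` as `ℓ² ≥ X^(2/3)`.
Total `3 (4 + 1 + 1) ℓ² X^(1-δ₁-δ₁/40) ≤ ℓ² X^(1-δ₁-δ₁/50)`. -/
def tsU1 : Prop := ∀ (r : ℕ) (ε₁ δ₅ : ℝ), 2 ≤ r → 0 < ε₁ → ε₁ ≤ 1 / (24 * (r : ℝ)) → 0 < δ₅ →
  δ₅ ≤ 1 / 20 → ∃ δm : ℝ, 0 < δm ∧ ∀ δ₁ : ℝ, 0 < δ₁ → δ₁ ≤ δm → ∃ X0 : ℝ, ∀ X : ℝ, X0 ≤ X →
  ∀ a b : ℕ, Blk X δ₁ a b → ∀ (ℓ q : ℕ) (b' : ℤ),
  X ^ (1 / 3 + 2 * ε₁) ≤ ℓ → (ℓ : ℝ) ≤ X ^ (1 - δ₅) → 1 ≤ q → (q : ℝ) ≤ X ^ δm →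
  ∑ x ∈ Finset.Icc (a + 2 * ℓ) b, ‖ws (dr r) (b' / q) ℓ x - ws (dr r) (b' / q) ℓ (x - ℓ)‖ ^ 2 ≤
  (ℓ : ℝ) ^ 2 * X ^ (1 - δ₁ - δ₁ / 50)

/-- U2 (MEDIUM-HARD; uses L0, U1): windows of `d_r` at rational frequencies against the main term.
PROOF.  `c`, `C` of AP, `δ₅ = min (c/4) (min ((1-θ₂)/2) (1/20))`, `δm` = minimum of that of U1 for
`ε₁`, `δ₅`, `c/(4C)`, `δ₅/4`.  Let `L_j = 2^j L`, `J` with `X^(1-δ₅)/2 < L_J ≤ X^(1-δ₅)`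
(`L ≤ X^θ₂ ≤ X^(1-2δ₅)`), `J ≤ 2 log X + 1`, `W_j(x) = ws (dr r) (b'/q) L_j x / L_j`.  For `x ≥ 2 L_j`
`W_j(x) - W_(j+1)(x) = (ws (dr r) (b'/q) L_j x - ws (dr r) (b'/q) L_j (x - L_j)) / (2 L_j)`.  U1:
`∑_{x ∈ [a+L_J, b]} ‖W_j - W_(j+1)‖² ≤ X^(1-δ₁-δ₁/50)` (`2 L_j ≤ L_J`), so
`∑_{x ∈ [a+L_J, b]} ‖W_0 - W_J‖² ≤ J² X^(1-δ₁-δ₁/50)`.
By AP at `x` and at `x - L_J ≥ a ≥ 1`, `ws (dr r) (b'/q) L_J x = x (E q)(log x) - (x-L_J)(E q)(log(x-L_J)) +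
O(q^C (3X)^(1-c))`; the main part is `∫_{x-L_J}^x p_q(log t) dt = L_J p_q(log x) + O(L_J · C (1+log 3X)^r
L_J/a)` (CB with `ε = 1`: coefficients `≤ C`; `|p_q(log t) - p_q(log x)| ≤ C (1+log 3X)^r (x-t)/t`).  So
`‖W_J(x) - p_q(log x)‖ ≤ C' (X^(Cδm-c+δ₅) + (1+log 3X)^r X^(-δ₅+δ₁/2)) ≤ X^(-δ₅/2)` for large `X`
(`Cδm - c + δ₅ ≤ -c/2`).  Its square summed over at most `β + 1` values is `≤ 2X^(1-δ₁-δ₅)`.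
The at most `L_J ≤ X^(1-δ₅)` values `x ∈ [a+L, a+L_J)`: each term is at most `(L C X^ε)²` (L0 and the
coefficient bound), `ε = δ₅/8`: `≤ C L² X^(1-δ₅+δ₅/4)`, and `δ₁ ≤ δ₅/4`. -/
def tsU2 : Prop := ∀ (r : ℕ) (E : ℕ → Polynomial ℝ), 2 ≤ r → AP r E → CB E → ∀ ε₁ θ₂ : ℝ, 0 < ε₁ →
  ε₁ ≤ 1 / (24 * (r : ℝ)) → θ₂ < 1 → ∃ δm : ℝ, 0 < δm ∧ ∀ δ₁ : ℝ, 0 < δ₁ → δ₁ ≤ δm → ∃ X0 : ℝ,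
  ∀ X : ℝ, X0 ≤ X → ∀ a b : ℕ, Blk X δ₁ a b → ∀ (L q : ℕ) (b' : ℤ),
  X ^ (1 / 3 + 2 * ε₁) ≤ L → (L : ℝ) ≤ X ^ θ₂ → 1 ≤ q → (q : ℝ) ≤ X ^ δm → IsCoprime b' (q : ℤ) →
  ∑ x ∈ Finset.Icc (a + L) b, ‖ws (dr r) (b' / q) L x -
    ((L * (ed (E q)).eval (Real.log x) : ℝ) : ℂ)‖ ^ 2 ≤
  (L : ℝ) ^ 2 * X ^ (1 - δ₁ - δ₁ / 60)

/-- U3 (MEDIUM; uses E1, F1, F2): windows of the model at rational frequencies.  PROOF.  `δ = min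
((1-θ₂)/2) (1/10)`.  `fs E Q n = ∑_{s ≤ Q} Gh n s p_s(log n)`, `Q = ⌊X^η₂⌋ ≤ X^(1/100)`; by E1 the window sum
is the sum over `s ≤ Q` and the reduced residues `c` mod `s` of `∑_{n ∈ (x-L,x]} p_s(log n) ee(nφ)`,
`φ = b'/q + c/s`.  Both fractions are reduced: `φ` is an integer only if `s = q` and `c ≡ -b'` mod `q`, and if
`q ≤ Q` there is exactly one such pair.  If `φ` is not an integer `nn φ ≥ 1/(qs)` and the window sum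
(difference of the sums over `[1,x]` and `[1,x-L]`) is `≤ 2 V q s` by F1, with
`V = C (1 + log 3X)^(2r)` (F2 with `h = 0`, `p' = 1`; coefficients `≤ C` by CB with `ε = 1`).  Total of these:
`≤ ∑_{s ≤ Q} s · 2Vqs ≤ 2 V q Q³ ≤ X^(1/20) ≤ L X^(-1/5)`.  For the pair with integral `φ`:
`|∑_{n ∈ (x-L,x]} p_q(log n) - L p_q(log x)| ≤ L · C (1+log 3X)^r L/(x-L)` and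
`L/(x-L) ≤ 2 X^(θ₂-1+(1-θ₂)/4) = 2X^(-3(1-θ₂)/4)`. -/
def tsU3 : Prop := ∀ (r : ℕ) (E : ℕ → Polynomial ℝ), 1 ≤ r → (∀ q, (E q).natDegree ≤ r - 1) → CB E →
  ∀ θ₂ : ℝ, θ₂ < 1 → ∃ δ : ℝ, 0 < δ ∧ ∀ η₂ : ℝ, 0 < η₂ → η₂ ≤ 1 / 100 → ∃ X0 : ℝ,
  ∀ X : ℝ, X0 ≤ X → ∀ (x L q : ℕ) (b' : ℤ), X ^ (1 - (1 - θ₂) / 4) ≤ x → (x : ℝ) ≤ 3 * X →
  X ^ (1 / 3 : ℝ) ≤ L → (L : ℝ) ≤ X ^ θ₂ → 1 ≤ q → (q : ℝ) ≤ X ^ (1 / 100 : ℝ) →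
  IsCoprime b' (q : ℤ) →
  ‖ws (fs E ⌊X ^ η₂⌋₊) (b' / q) L x -
    ((if q ≤ ⌊X ^ η₂⌋₊ then L * (ed (E q)).eval (Real.log x) else 0 : ℝ) : ℂ)‖ ≤ L * X ^ (-δ)

/-- U4 (EASY-MEDIUM; uses U2, U3): windows of `fl` at rational frequencies.  PROOF.  `δm` = minimum of that of
U2, of `1/100`, `(1-θ₂)/2` and the `δ` of U3.  `fl = dr r - fs`, so `ws fl = (ws (dr r) - L p_q(log x)) -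
(ws fs - [q ≤ Q] L p_q(log x)) + [q > Q] L p_q(log x)`.  Mean squares (factor `3`): U2;
U3 (`η₂ = δ₁/20`, `x ≥ a ≥ X^(1-δ₁/2)`): `(β+1) L² X^(-2δ) ≤ 2 L² X^(1-δ₁-2δ₁)`; and for `q > Q`, that is
`q > X^(δ₁/20)`, CB with `ε = 1/2` gives `|p_q(log x)| ≤ C q^(-1/2) (1+log 3X)^r ≤ C (1+log 3X)^r X^(-δ₁/40)`,
so `(β+1) L² C² (1+log 3X)^(2r) X^(-δ₁/20)`. -/
def tsU4 : Prop := ∀ (r : ℕ) (E : ℕ → Polynomial ℝ), 2 ≤ r → AP r E → CB E → ∀ ε₁ θ₂ : ℝ, 0 < ε₁ →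
  ε₁ ≤ 1 / (24 * (r : ℝ)) → θ₂ < 1 → ∃ δm : ℝ, 0 < δm ∧ ∀ δ₁ : ℝ, 0 < δ₁ → δ₁ ≤ δm → ∃ X0 : ℝ,
  ∀ X : ℝ, X0 ≤ X → ∀ a b : ℕ, Blk X δ₁ a b → ∀ (L q : ℕ) (b' : ℤ),
  X ^ (1 / 3 + 2 * ε₁) ≤ L → (L : ℝ) ≤ X ^ θ₂ → 1 ≤ q → (q : ℝ) ≤ X ^ δm → IsCoprime b' (q : ℤ) →
  ∑ x ∈ Finset.Icc (a + L) b, ‖ws (fl r E ⌊X ^ (δ₁ / 20)⌋₊) (b' / q) L x‖ ^ 2 ≤
  (L : ℝ) ^ 2 * X ^ (1 - δ₁ - δ₁ / 70)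

/-- U5 (MEDIUM; uses L0, F6, U4): all frequencies near a fraction with small denominator.  PROOF.  `δm` =
minimum of that of U4, of `ε₁/6` and `1/10`; `L' = ⌊L X^(-3δm)⌋ ≥ X^(1/3+2ε₁)` (`3δm ≤ ε₁/2`), `K = ⌊L/L'⌋`,
`τ = γ - b'/q`.  The window `(x-L,x]` is the union of the `K` windows `(x_i-L',x_i]`, `x_i = x - iL'`, `i < K`,
and a rest of at most `L'` integers.  On `(x_i-L',x_i]`: `ee(nγ) = ee(x_i τ) ee(n b'/q) ee((n-x_i)τ)`,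
`|ee((n-x_i)τ) - 1| ≤ 2π L'|τ| ≤ 7 X^(-2δm)`.  `|fl n| ≤ C X^ε` on `[1,3X]` (L0, F6), so
`‖ws fl γ L x‖ ≤ ∑_{i<K} ‖ws fl (b'/q) L' x_i‖ + L C X^ε · 7X^(-2δm) + L' C X^ε`, and the last two are
`≤ 8 C L X^(ε-2δm)`.  Squares: `≤ 2K ∑_{i<K} ‖ws fl (b'/q) L' x_i‖² + 128 C² L² X^(2ε-4δm)`.  Sum over
`x ∈ [a+L,b]`: `x_i ∈ [a+L',b]`, so by U4 `≤ 2K² L'² X^(1-δ₁-δ₁/70) + 256 C² X^(1-δ₁) L² X^(2ε-4δm)`, `K L' ≤ L`;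
`ε = δm/10`, `δ₁ ≤ δm`. -/
def tsU5 : Prop := ∀ (r : ℕ) (E : ℕ → Polynomial ℝ), 2 ≤ r → AP r E → CB E → ∀ ε₁ θ₂ : ℝ, 0 < ε₁ →
  ε₁ ≤ 1 / (24 * (r : ℝ)) → θ₂ < 1 → ∃ δm : ℝ, 0 < δm ∧ ∀ δ₁ : ℝ, 0 < δ₁ → δ₁ ≤ δm → ∃ X0 : ℝ,
  ∀ X : ℝ, X0 ≤ X → ∀ a b : ℕ, Blk X δ₁ a b → ∀ (L q : ℕ) (b' : ℤ) (γ : ℝ),
  X ^ (1 / 3 + 3 * ε₁) ≤ L → (L : ℝ) ≤ X ^ θ₂ → 1 ≤ q → (q : ℝ) ≤ X ^ δm → IsCoprime b' (q : ℤ) →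
  |γ - b' / q| ≤ X ^ δm / L →
  ∑ x ∈ Finset.Icc (a + L) b, ‖ws (fl r E ⌊X ^ (δ₁ / 20)⌋₊) γ L x‖ ^ 2 ≤
  (L : ℝ) ^ 2 * X ^ (1 - δ₁ - δ₁ / 80)

/-- U6 (MEDIUM-HARD; uses GS, R3, E1, F1, F2, V1, V2, V4): minor arcs.  PROOF.  `δ` of V4 for `ε₁`, `δ₂`;
`δs` = minimum of that of V2, of `δ/2`, `δ₂/2`, `2rε₁`, `(1-θ₂)/2`, `1/100`.  `W`, `B` of V1, `h` of V2.  For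
`n ∈ (a,b]`
`fl n = (T1 W y₂ n - ∑_{s ≤ Q} h_s Gh n s) + T2 B z w n + ∑_{s ≤ Q} h_s Gh n s - fs E Q n`.
The four window sums for `x ∈ [a+L,b]`:
(i) V2 (`L ≤ X^θ₂ ≤ X^(1-2δ₁)`): mean square `≤ L² X^(1-δ₁-δ₁/40)`.
(ii) V4 (`[a+L,b] ⊆ [L,⌊3X⌋]`): `≤ L² X^(1-δ) ≤ L² X^(1-2δ₁)`.
(iii) R3: sum over `s ≤ Q` and the reduced `c` mod `s` of `h_s ∑_win ee(nφ)`, `φ = γ + c/s`.  `b'/q + c/s` is not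
an integer (`q ≥ X^δ₂ > Q ≥ s`, `b'/q` reduced), so its distance to the integers is `≥ 1/(qs)`, and
`|γ - b'/q| ≤ 1/q² ≤ 1/(2qs)` (`q ≥ X^δ₂ ≥ 2X^(δ₁/20) ≥ 2s`): `nn φ ≥ 1/(2qs)`, GS: each sum is `≤ qs`.  Total
`≤ ∑_{s ≤ Q} |h_s| s qs ≤ q X^(δ₁/100) Q³ ≤ L X^(-δ₂+δ₁/5) ≤ L X^(-3δ₂/4)` for every `x`.
(iv) E1, F1, F2 as in U3: `≤ ∑_{s ≤ Q} s · 2V · 2qs ≤ 4 V q Q³ ≤ L X^(-3δ₂/4)`.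
The squares of (iii), (iv) summed over `x`: `≤ 2X^(1-δ₁) L² X^(-3δ₂/2)`, `δ₁ ≤ δ₂/2`. -/
def tsU6 : Prop := ∀ (r : ℕ) (E : ℕ → Polynomial ℝ), 2 ≤ r → (∀ q, (E q).natDegree ≤ r - 1) → CB E →
  ∀ ε₁ δ₂ θ₂ : ℝ, 0 < ε₁ → ε₁ ≤ 1 / (24 * (r : ℝ)) → 0 < δ₂ → δ₂ ≤ 1 → θ₂ < 1 → ∃ δs : ℝ, 0 < δs ∧
  ∀ δ₁ : ℝ, 0 < δ₁ → δ₁ ≤ δs → ∃ X0 : ℝ, ∀ X : ℝ, X0 ≤ X → ∀ a b : ℕ, Blk X δ₁ a b →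
  ∀ (L q : ℕ) (b' : ℤ) (γ : ℝ), X ^ (1 / 3 + 2 * ε₁) ≤ L → (L : ℝ) ≤ X ^ θ₂ → X ^ δ₂ ≤ q →
  (q : ℝ) ≤ L * X ^ (-δ₂) → IsCoprime b' (q : ℤ) → |γ - b' / q| ≤ 1 / (q : ℝ) ^ 2 →
  ∑ x ∈ Finset.Icc (a + L) b, ‖ws (fl r E ⌊X ^ (δ₁ / 20)⌋₊) γ L x‖ ^ 2 ≤
  (L : ℝ) ^ 2 * X ^ (1 - δ₁ - δ₁ / 80)

/-- U7 (EASY-MEDIUM; uses U5, U6): one block, all frequencies.  PROOF.  `ε₁ = min (1/(24r)) ((θ₁-1/3)/3)`,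
`δm` of U5 for `ε₁`, `θ₂`, `δ₂ = min δm (1/10)`, `δs` of U6 for `ε₁`, `δ₂`, `θ₂`,
`δ₁ = min (min δm δs) (min ((1-θ₂)/8) (1/10))`.  Let `Q₁ = ⌊L X^(-δ₂)⌋ ≥ 1` (`L ≥ X^(1/3)`).
`Real.exists_rat_abs_sub_le_and_den_le`: a reduced fraction `b'/q`, `1 ≤ q ≤ Q₁`,
`|γ - b'/q| ≤ 1/((Q₁+1) q) ≤ X^δ₂/(q L)`.  If `q ≤ X^δ₂`: U5 (`X^δ₂ ≤ X^δm`, `|γ - b'/q| ≤ X^δm/L`).  If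
`q > X^δ₂`: U6 (`1/((Q₁+1) q) ≤ 1/q²`).  The sum in the statement is `ws` (unfold). -/
def tsU7 : Prop := ∀ (r : ℕ) (E : ℕ → Polynomial ℝ), 2 ≤ r → AP r E → CB E → ∀ θ₁ θ₂ : ℝ,
  1 / 3 < θ₁ → θ₁ < θ₂ → θ₂ < 1 → ∃ δ₁ X0 : ℝ, 0 < δ₁ ∧ δ₁ ≤ 1 / 10 ∧
  δ₁ ≤ (1 - θ₂) / 8 ∧ ∀ (X γ : ℝ) (a b L : ℕ), X0 ≤ X → X ^ (1 - δ₁ / 2) ≤ a → (b : ℝ) ≤ 3 * X →
  (a : ℝ) + X ^ (1 - δ₁) / 2 ≤ b → (b : ℝ) ≤ a + X ^ (1 - δ₁) → X ^ θ₁ ≤ L → (L : ℝ) ≤ X ^ θ₂ →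
  ∑ x ∈ Finset.Icc (a + L) b, ‖∑ n ∈ Finset.Ioc (x - L) x,
    ((fl r E ⌊X ^ (δ₁ / 20)⌋₊ n : ℝ) : ℂ) * ee (n * γ)‖ ^ 2 ≤
  (L : ℝ) ^ 2 * X ^ (1 - δ₁ - δ₁ / 80)

/-- U8 (EASY-MEDIUM; uses L0, F6, U7; model: `TS/I_R10.lean`): the mean square over short intervals.
PROOF.  Word for word the proof of R10 (file `TS/I_R10.lean`, its lemmas can be imported) with U7 in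
place of R9: `δ₁/80` in place of `δ₁/40`, `δ = δ₁/100` in place of `δ₁/50`. -/
def tsU8 : Prop := ∀ (r : ℕ) (E : ℕ → Polynomial ℝ), 2 ≤ r → AP r E → CB E → ∀ θ₁ θ₂ : ℝ,
  1 / 3 < θ₁ → θ₁ < θ₂ → θ₂ < 1 → ∃ η₂ δ X0 : ℝ, 0 < η₂ ∧ η₂ ≤ 1 / 100 ∧ 0 < δ ∧
  ∀ (X γ : ℝ) (N L : ℕ), X0 ≤ X → (N : ℝ) ≤ 2 * X → X ^ θ₁ ≤ L → (L : ℝ) ≤ X ^ θ₂ →
  SI (fl r E ⌊X ^ η₂⌋₊) N L γ ≤ (L : ℝ) ^ 2 * X ^ (1 - δ)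

end Pool.Agent.Work.MP_122e00_nt.TS
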