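import Mathlib
import Pool.Agent.Work.MP_122e00_nt.TS.Stmts6

/-!
# All powers, part 7: functions with a prime factor in a window

`u(n) = ∑_{p ∣ n, z < p ≤ w} d_r(n/p)`, `z = X^ε₂`, `w = X^θw`.  Goal (item K14): the mean square over
short intervals of `(u - model)(n) e(n γ)` has a power saving for all lengths `X^θ₁ ≤ L ≤ X^θ₂` as soon as
`θw < θ₁`, for arbitrarily small `θ₁ > 0`.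

Every docstring is a complete proof.  Earlier items are hypotheses.
-/

namespace Pool.Agent.Work.MP_122e00_nt.TS

open Finset Filter Topology ArithmeticFunction MeasureTheory
open scoped ArithmeticFunction.zeta ArithmeticFunction.Moebius

/-- the primes of the window `(z, w]` -/
noncomputable def PW (z w : ℝ) : Finset ℕ :=
  (Finset.Icc 1 ⌊w⌋₊).filter (fun p : ℕ => p.Prime ∧ z < (p : ℝ))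

/-- `u(n) = ∑_{p ∣ n, z < p ≤ w} d_r(n/p)` -/
noncomputable def up (r : ℕ) (z w : ℝ) (n : ℕ) : ℝ :=
  ∑ p ∈ (PW z w).filter (· ∣ n), dr r (n / p)

/-- the polynomial of the mean of `u(n) e(a n / q)` -/
noncomputable def Eu (E : ℕ → Polynomial ℝ) (z w : ℝ) (q : ℕ) : Polynomial ℝ :=
  ∑ p ∈ PW z w, Polynomial.C (1 / (p : ℝ)) *
    (E q).comp (Polynomial.X - Polynomial.C (Real.log p))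

/-- the difference of `u` and its model of level `Q` -/
noncomputable def fu (r : ℕ) (E : ℕ → Polynomial ℝ) (z w : ℝ) (Q n : ℕ) : ℝ :=
  up r z w n - fs (Eu E z w) Q n

/-- the weight of `TS.tsP3` -/
noncomputable def om (η t : ℝ) : ℝ :=
  (Real.sin (Real.pi * η * t) / (Real.pi * t)) ^ 2 * (4 * Real.sin (Real.pi * η * t) ^ 2)

/-- K1 (EASY-MEDIUM; uses P3): the mean value theorem with the weight `om`.  PROOF.  By P3 (with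
`λ_n = log n`) the left hand side is `∫ ‖∑_n g n psi η (u - log n)‖² du`.  `psi η (u - log n) ≠ 0` iff
`e^(u-2η) < n ≤ e^u`; if some `n ≤ N` satisfies this then `e^u < N e^(2η) ≤ 2N`, and the number of these `n`
is at most `e^u (1 - e^(-2η)) + 1 ≤ 4ηN + 1`.  Cauchy: `‖…‖² ≤ (4ηN+1) ∑_n ‖g n‖² psi²`, and
`∫ psi η (u - log n)² du = 2η`.  Total `≤ 2η (1 + 4ηN) ∑ ‖g n‖²`. -/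
def tsK1 : Prop := ∀ (N : ℕ) (g : ℕ → ℂ) (η : ℝ), 0 < η → η ≤ 1 / 4 →
  ∫ t : ℝ, om η t * ‖∑ n ∈ Finset.Icc 1 N, g n * ee (-(t * Real.log n))‖ ^ 2 ≤
    8 * η * (1 + η * N) * ∑ n ∈ Finset.Icc 1 N, ‖g n‖ ^ 2

/-- K2 (MEDIUM-HARD; uses L0, L1, P1): pointwise bound for the sum of `d_r(m) m^(-2πit)` over a residue
class.  PROOF.  L1 with `X` replaced by `M`, `N = M`, `g(n) = ee(-t log n)` if `n ≡ σ (mod q)`, `0` otherwise: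
up to `M^(1/2)` the sum is `∑_{m ≤ M^(1-1/(2r))} W(m) ∑_{l ∈ (y, M/m]} g(ml)`, `y = ⌊M^(1/(2r))⌋ ≥ X^(1/(8r))`.
For given `m`: `ee(-t log(ml)) = ee(-t log m) ee(-t log l)` and `ml ≡ σ` holds for the `l` in at most `q`
residue classes `ρ` modulo `q`.  Cut `(y, M/m]` in dyadic ranges `(A_i, A_(i+1)]`, `A_0 = y`,
`A_(i+1) = min (2A_i) (M/m)`; P1 with `ε₁ = 1/(8r)` bounds each sum over `l ≡ ρ` by `A_i X^(-δw)`, and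
`∑_i A_i ≤ 2M/m + y`, `≤ 4M/m` (if the range is not empty `y ≤ M/m`).  Total
`≤ ∑_m W(m) q (4M/m) X^(-δw) + M^(1/2) ≤ 4 C X^ε (1+log X) q M X^(-δw) + M^(1/2)` (`W ≤ r d_r ≤ C X^ε`, L0).
`δ' = min (δw/4) (1/8)`, `ε = δw/4`, `X` large; `M ≥ X^(1/2)`. -/
def tsK2 : Prop := ∀ (r : ℕ) (δ₆ : ℝ), 1 ≤ r → 0 < δ₆ → δ₆ ≤ 1 → ∃ δ' X0 : ℝ, 0 < δ' ∧
  ∀ (X t : ℝ) (M q σ : ℕ), X0 ≤ X → X ^ (1 / 2 : ℝ) ≤ M → (M : ℝ) ≤ X → 1 ≤ q →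
  (q : ℝ) ≤ X ^ δ' → X ^ δ₆ ≤ |t| → |t| ≤ X ^ (5 : ℕ) →
  ‖∑ m ∈ (Finset.Icc 1 M).filter (fun m => m % q = σ % q), (dr r m : ℂ) * ee (-(t * Real.log m))‖ ≤
    M * X ^ (-δ')

/-- K3 (HARD; uses L0, P3, K1, K2): the key estimate; primes times the divisor function in
multiplicative windows.  PROOF.  `P(t)` = sum of `ee(-t log p)` over the primes `p ∈ (A,A']`, `p ≡ ρ`;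
`R(t)` = sum of `d_r(m) ee(-t log m)` over `m ≤ M`, `m ≡ σ`; `‖P‖ ≤ A`, `‖R‖ ≤ M D`, `D = C X^ε` (L0),
`A M ≤ 6X`.  By P3 the left hand side is `∫ om η t ‖P R‖² dt`; `om ≤ 4 min(η², 1/(π t)²)`, and
`om ≤ 4π²η⁴t²`.  Let `δ₆ = δ₅/4`, `δ'` that of K2 for `δ₆`, `k = ⌈1/ε₂⌉`, `α = δ'/(2k)`.
(1) `|t| ≤ X^δ₆`: `≤ 2 X^δ₆ · 4π²η⁴ X^(2δ₆) · 36 X² D² ≤ 3000 η² X^(2-2δ₅+3δ₆) D²` (`η ≤ X^(-δ₅)`).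
(3) `|t| ≥ X^5`: `≤ ∫ t^(-2) 36 X² D² ≤ 72 X^(-3) D² ≤ 72 η² X^(-1) D²` (`η X ≥ A ≥ 1`).
(2) `X^δ₆ ≤ |t| ≤ X^5`: K2 gives `‖R‖ ≤ M X^(-δ')` (`M ≤ 6X`: use K2 with `6X` in place of `X`), so
`‖P‖² ‖R‖² ≤ A² X^(-2α) ‖R‖² + A² M² X^(-2δ') (‖P‖/(A X^(-α)))^(2k)`
(if `‖P‖ ≤ A X^(-α)` use the first term, otherwise `‖P‖ ≤ A` and the second).
First term: K1 with `g = d_r` on the class: `A² X^(-2α) · 8η(1+ηM) M D² ≤ 8 X^(-2α) D² (η A (A M) + η² (AM)²)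
≤ 400 X^(2-2α) η² D²`, as `A ≤ η X`.
Second term: `P(t)^k = ∑_{n ≤ (2A)^k} g_n ee(-t log n)`, `g_n` = number of `(p_1, …, p_k)` with product `n`,
`g_n ≤ k!` (unique factorisation), `∑ g_n ≤ A^k`; K1: `∫ om ‖P‖^(2k) ≤ 8η(1 + η (2A)^k) k! A^k ≤
C_k η² A^(2k)` because `η A^k ≥ η X ≥ 1`.  So it is `≤ C_k A² M² X^(-2δ'+2kα) η² ≤ 36 C_k η² X^(2-δ')`.
`δw` = half the minimum of `δ₅`, `2α`, `δ'` (and the `δ'` of K2), `ε = δw/8`. -/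
def tsK3 : Prop := ∀ (r : ℕ) (ε₂ δ₅ : ℝ), 1 ≤ r → 0 < ε₂ → ε₂ ≤ 1 / 4 → 0 < δ₅ → δ₅ ≤ 1 / 20 →
  ∃ δw X0 : ℝ, 0 < δw ∧ ∀ (X η : ℝ) (A A' q ρ σ M : ℕ), X0 ≤ X → X ^ ε₂ ≤ A → A ≤ A' →
  A' ≤ 2 * A → 1 ≤ q → (q : ℝ) ≤ X ^ δw → X ^ (2 / 3 : ℝ) ≤ M → (M : ℝ) ≤ 6 * X / A →
  (A : ℝ) ≤ η * X → η ≤ X ^ (-δ₅) →
  ∫ u : ℝ, ‖∑ p ∈ ((Finset.Ioc A A').filter (fun a => a.Prime ∧ a % q = ρ % q)) ×ˢ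
      ((Finset.Icc 1 M).filter (fun m => m % q = σ % q)),
    (dr r p.2 : ℂ) * ((psi η (u - Real.log ((p.1 : ℝ) * p.2)) : ℝ) : ℂ)‖ ^ 2 ≤
  η ^ 2 * X ^ (2 - δw)

/-- K4 (MEDIUM-HARD; uses L0, P5, K3; model: `TS/I_P6.lean`): adjacent windows of `u`, rational frequency
with small denominator.  PROOF.  `z = X^ε₂`, `w = X^θw`, `δw` of K3 for `ε₂/2`, `δ₅/2`;
`δm = min (δw/32) (δ₅/4)`, `δ₁ ≤ δm`, `η = ℓ/a ≤ X^(-δ₅/2)`.  Cover `(⌊z⌋, ⌊w⌋]` by `I ≤ 2 log X` ranges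
`(A_i, A_(i+1)]`, `A_0 = ⌊z⌋`, `A_(i+1) = min (2A_i) ⌊w⌋`, `M_i = ⌊6X/A_i⌋ ≥ X^(2/3)`.  For `n ≤ 3X`
`u(n) ee(n b'/q) = ∑_{i, ρ, σ} ee(ρσ b'/q) c^(i,ρ,σ)_n`, `c^(i,ρ,σ)_n = ∑ d_r(m)` over the `p m = n`, `p` prime in
`(A_i, A_(i+1)]`, `p ≡ ρ`, `m ≡ σ (mod q)`, `m ≤ M_i`.  Let `c_n` be the sum of these for all `n`
(`c_n = 0` for `n > 24X`), `N = ⌊24X⌋`, `|c_n| ≤ D = C X^ε` (L0).  P5: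
the sum is `≤ 8b ∫ ‖V‖² + C (β+1) D² (1 + ℓβ/a + ℓ²/a)²`, `β = b - a`; second term as in P6
(`≤ C ℓ² X^(1-2δ₁+2ε)`).  `V` is the sum of `q² I` functions of K3 times unimodular numbers
(`A_i ≤ X^θw ≤ X^θ₁/4 ≤ ℓ/4 ≤ η X`, as `a ≤ 3X`), so `∫ ‖V‖² ≤ q⁴ I² η² X^(2-δw)` and the first term is
`≤ C X (log X)² X^(4δm) ℓ² X^(-2+δ₁) X^(2-δw) ≤ ℓ² X^(1+δ₁+5δm-δw)`.  `ε = δ₁/100`. -/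
def tsK4 : Prop := ∀ (r : ℕ) (ε₂ θw θ₁ δ₅ : ℝ), 1 ≤ r → 0 < ε₂ → ε₂ < θw → θw < θ₁ → θw ≤ 1 / 4 →
  0 < δ₅ → δ₅ ≤ 1 / 20 → ∃ δm : ℝ, 0 < δm ∧ ∀ δ₁ : ℝ, 0 < δ₁ → δ₁ ≤ δm → ∃ X0 : ℝ,
  ∀ X : ℝ, X0 ≤ X → ∀ a b : ℕ, Blk X δ₁ a b → ∀ (ℓ q : ℕ) (b' : ℤ),
  X ^ θ₁ ≤ ℓ → (ℓ : ℝ) ≤ X ^ (1 - δ₅) → 1 ≤ q → (q : ℝ) ≤ X ^ δm →
  ∑ x ∈ Finset.Icc (a + 2 * ℓ) b, ‖ws (up r (X ^ ε₂) (X ^ θw)) (b' / q) ℓ x -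
    ws (up r (X ^ ε₂) (X ^ θw)) (b' / q) ℓ (x - ℓ)‖ ^ 2 ≤
  (ℓ : ℝ) ^ 2 * X ^ (1 - δ₁ - δ₁ / 40)

/-- K5 (EASY-MEDIUM): degree and coefficients of `Eu`.  PROOF.  `comp` with a linear polynomial keeps the
degree bound; the coefficient of degree `j` of `(E q)(T - l)` is `∑_i C(i,j) (E q)_i (-l)^(i-j)`, at most
`r 2^r (max |(E q)_i|) (1+l)^r`, `l ≤ log w`; `∑_{p ≤ w} 1/p ≤ 1 + log w`; CB. -/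
def tsK5 : Prop := ∀ (r : ℕ) (E : ℕ → Polynomial ℝ), 1 ≤ r → (∀ q, (E q).natDegree ≤ r - 1) → CB E →
  (∀ (z w : ℝ) (q : ℕ), (Eu E z w q).natDegree ≤ r - 1) ∧
  ∀ ε : ℝ, 0 < ε → ∃ C : ℝ, 0 < C ∧ ∀ (z w : ℝ) (q j : ℕ), 1 ≤ w → 1 ≤ q →
    |(Eu E z w q).coeff j| ≤ C * (1 + Real.log w) ^ (r + 1) * (q : ℝ) ^ (ε - 1)

/-- K6 (MEDIUM; uses K5): the mean of `u(n) e(a n/q)`.  PROOF.  `c₀`, `C₀` of AP.  For `p ∈ PW (X^ε₂) (X^θw)`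
`p > X^ε₂ > q`, so `p` does not divide `q` and `IsCoprime (p a) q`.
`SS u ⌊x⌋ (a/q) = ∑_p ∑_{m ≤ x/p} d_r(m) ee(m p a/q)`, and AP (`x/p ≥ X^(1/2-1/4) ≥ 1`) gives
`(x/p) (E q)(log x - log p) + O(C₀ q^C₀ (x/p)^(1-c₀))`.  The main terms sum to `x (Eu E z w q)(log x)`; the
errors to `≤ C₀ q^C₀ (3X)^(1-c₀) ∑_p p^(c₀-1) ≤ C₀ q^C₀ (3X)^(1-c₀) w^c₀ (1 + log w)`, `w^c₀ ≤ X^(c₀/4)`.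
`c = c₀/2`. -/
def tsK6 : Prop := ∀ (r : ℕ) (E : ℕ → Polynomial ℝ), 1 ≤ r → AP r E → CB E → ∃ c C : ℝ, 0 < c ∧
  c ≤ 1 / 4 ∧ 0 < C ∧ ∀ ε₂ θw : ℝ, 0 < ε₂ → ε₂ < θw → θw ≤ 1 / 4 → ∃ X0 : ℝ,
  ∀ (X x : ℝ) (q : ℕ) (a : ℤ), X0 ≤ X → X ^ (1 / 2 : ℝ) ≤ x → x ≤ 3 * X → 1 ≤ q →
  (q : ℝ) < X ^ ε₂ → IsCoprime a (q : ℤ) →
  ‖SS (up r (X ^ ε₂) (X ^ θw)) ⌊x⌋₊ (a / q) -
    ((x * (Eu E (X ^ ε₂) (X ^ θw) q).eval (Real.log x) : ℝ) : ℂ)‖ ≤ C * (q : ℝ) ^ C * X ^ (1 - c)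

/-- K7 (EASY-MEDIUM; uses L0, K5; model: `TS/I_F6.lean`): `u` and its model are small.  PROOF.
`|u(n)| ≤ #divisors(n) max d_r ≤ C X^ε`.  `|fs (Eu E z w) Q n| ≤ ∑_{q ≤ Q} |Gh n q| |(ed (Eu E z w q))(log n)|`
and as in F6 with the coefficient bound of K5 (an extra factor `(1 + log X)^(r+1)`). -/
def tsK7 : Prop := ∀ (r : ℕ) (E : ℕ → Polynomial ℝ), 1 ≤ r → (∀ q, (E q).natDegree ≤ r - 1) → CB E →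
  ∀ ε : ℝ, 0 < ε → ∃ C : ℝ, 0 < C ∧ ∀ (X z w : ℝ) (Q n : ℕ), 1 ≤ X → 1 ≤ w → w ≤ X → (Q : ℝ) ≤ X →
  1 ≤ n → (n : ℝ) ≤ 3 * X → |up r z w n| ≤ C * X ^ ε ∧ |fs (Eu E z w) Q n| ≤ C * X ^ ε

/-- K8 (MEDIUM-HARD; uses K4, K5, K6, K7; model: `TS/I_U2.lean`): windows of `u` at rational frequencies
against the main term.  PROOF.  As U2 with `u` in place of `d_r` and `Eu` in place of `E`: `c`, `C` of K6,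
`δ₅ = min (c/4) (min ((1-θ₂)/2) (1/20))`, `δm` = minimum of that of K4, `c/(4C)`, `δ₅/4`, `ε₂/2`;
`L_j = 2^j L` up to `X^(1-δ₅)/2 < L_J ≤ X^(1-δ₅)`, `J ≤ 2 log X + 1`; telescoping with K4; K6 at `x` and
`x - L_J ≥ a ≥ X^(1/2)` (the sum over `(x-L_J, x]` is `SS … x - SS … (x-L_J)`); the main part is
`∫_(x-L_J)^x p(log t) dt`, `p = ed (Eu E z w q)`, with coefficients `≤ C (1+log X)^(r+1)` (K5), so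
`‖W_J(x) - p(log x)‖ ≤ C' (X^(Cδm-c+δ₅) + (1+log 3X)^(2r+1) X^(-δ₅+δ₁/2)) ≤ X^(-δ₅/2)`.  The `x < a + L_J`
trivially with K7. -/
def tsK8 : Prop := ∀ (r : ℕ) (E : ℕ → Polynomial ℝ), 1 ≤ r → AP r E → CB E → ∀ ε₂ θw θ₁ θ₂ : ℝ,
  0 < ε₂ → ε₂ < θw → θw < θ₁ → θw ≤ 1 / 4 → θ₂ < 1 → ∃ δm : ℝ, 0 < δm ∧ ∀ δ₁ : ℝ, 0 < δ₁ →
  δ₁ ≤ δm → ∃ X0 : ℝ, ∀ X : ℝ, X0 ≤ X → ∀ a b : ℕ, Blk X δ₁ a b → ∀ (L q : ℕ) (b' : ℤ),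
  X ^ θ₁ ≤ L → (L : ℝ) ≤ X ^ θ₂ → 1 ≤ q → (q : ℝ) ≤ X ^ δm → IsCoprime b' (q : ℤ) →
  ∑ x ∈ Finset.Icc (a + L) b, ‖ws (up r (X ^ ε₂) (X ^ θw)) (b' / q) L x -
    ((L * (ed (Eu E (X ^ ε₂) (X ^ θw) q)).eval (Real.log x) : ℝ) : ℂ)‖ ^ 2 ≤
  (L : ℝ) ^ 2 * X ^ (1 - δ₁ - δ₁ / 60)

/-- K9 (MEDIUM; uses E1, F1, F2; model: `TS/I_U3.lean`): windows of a model at rational frequencies, any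
coefficients.  PROOF.  `δ = min ((1-θ₂)/2) (θ₁/4)`.  As U3: for `φ = b'/q + c/s` not an integer
`nn φ ≥ 1/(qs)`, window sum `≤ 2Vqs`, `V = C M (1 + log 3X)^(2r)` (F2), total
`≤ 2 V q Q³ ≤ C M (1 + log 3X)^(2r) X^(θ₁/4) ≤ M L X^(-θ₁/2)`; integral `φ` only for `s = q`, one `c`, and
there the error is `≤ L · C M (1+log 3X)^r L/(x-L)`, `L/(x-L) ≤ 2 X^(-3(1-θ₂)/4)`. -/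
def tsK9 : Prop := ∀ (r : ℕ) (θ₁ θ₂ : ℝ), 1 ≤ r → 0 < θ₁ → θ₂ < 1 → ∃ δ X0 : ℝ, 0 < δ ∧
  ∀ (E' : ℕ → Polynomial ℝ) (M X : ℝ) (Q x L q : ℕ) (b' : ℤ), X0 ≤ X → 0 ≤ M →
  (∀ s, (E' s).natDegree ≤ r - 1) → (∀ s j, 1 ≤ s → |(E' s).coeff j| ≤ M) →
  (Q : ℝ) ≤ X ^ (θ₁ / 16) → X ^ (1 - (1 - θ₂) / 4) ≤ x → (x : ℝ) ≤ 3 * X → X ^ θ₁ ≤ L →
  (L : ℝ) ≤ X ^ θ₂ → 1 ≤ q → (q : ℝ) ≤ X ^ (θ₁ / 16) → IsCoprime b' (q : ℤ) →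
  ‖ws (fs E' Q) (b' / q) L x -
    ((if q ≤ Q then L * (ed (E' q)).eval (Real.log x) else 0 : ℝ) : ℂ)‖ ≤ M * L * X ^ (-δ)

/-- K10 (EASY-MEDIUM; uses K5, K8, K9; model: `TS/I_U4.lean`): windows of `fu` at rational frequencies.
PROOF.  As U4: K8, K9 with `E' = Eu E z w`, `M = C (1+log X)^(r+1)` (K5 with `ε = 1`), and for `q > X^(δ₁/20)`
K5 with `ε = 1/2`: `|p_q(log x)| ≤ C (1+log 3X)^(2r+1) X^(-δ₁/40)`.  `δm ≤ θ₁/16`, `(1-θ₂)/2`, the `δ` of K9. -/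
def tsK10 : Prop := ∀ (r : ℕ) (E : ℕ → Polynomial ℝ), 1 ≤ r → AP r E → CB E → ∀ ε₂ θw θ₁ θ₂ : ℝ,
  0 < ε₂ → ε₂ < θw → θw < θ₁ → θw ≤ 1 / 4 → θ₂ < 1 → ∃ δm : ℝ, 0 < δm ∧ ∀ δ₁ : ℝ, 0 < δ₁ →
  δ₁ ≤ δm → ∃ X0 : ℝ, ∀ X : ℝ, X0 ≤ X → ∀ a b : ℕ, Blk X δ₁ a b → ∀ (L q : ℕ) (b' : ℤ),
  X ^ θ₁ ≤ L → (L : ℝ) ≤ X ^ θ₂ → 1 ≤ q → (q : ℝ) ≤ X ^ δm → IsCoprime b' (q : ℤ) →
  ∑ x ∈ Finset.Icc (a + L) b, ‖ws (fu r E (X ^ ε₂) (X ^ θw) ⌊X ^ (δ₁ / 20)⌋₊) (b' / q) L x‖ ^ 2 ≤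
  (L : ℝ) ^ 2 * X ^ (1 - δ₁ - δ₁ / 70)

/-- K11 (MEDIUM; uses K7, K10; model: `TS/I_U5.lean`): frequencies near a fraction with small
denominator.  PROOF.  As U5 with K10 for the exponent `θ' = (θw+θ₁)/2` in place of `θ₁`, `δm` = minimum of
that of K10, of `(θ₁-θw)/12` and `1/10`, `L' = ⌊L X^(-3δm)⌋ ≥ X^θ'`, `K = ⌊L/L'⌋`, `|fu n| ≤ C X^ε` (K7),
`ε = δm/10`. -/
def tsK11 : Prop := ∀ (r : ℕ) (E : ℕ → Polynomial ℝ), 1 ≤ r → AP r E → CB E → ∀ ε₂ θw θ₁ θ₂ : ℝ,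
  0 < ε₂ → ε₂ < θw → θw < θ₁ → θw ≤ 1 / 4 → θ₂ < 1 → ∃ δm : ℝ, 0 < δm ∧ ∀ δ₁ : ℝ, 0 < δ₁ →
  δ₁ ≤ δm → ∃ X0 : ℝ, ∀ X : ℝ, X0 ≤ X → ∀ a b : ℕ, Blk X δ₁ a b → ∀ (L q : ℕ) (b' : ℤ) (γ : ℝ),
  X ^ θ₁ ≤ L → (L : ℝ) ≤ X ^ θ₂ → 1 ≤ q → (q : ℝ) ≤ X ^ δm → IsCoprime b' (q : ℤ) →
  |γ - b' / q| ≤ X ^ δm / L →
  ∑ x ∈ Finset.Icc (a + L) b, ‖ws (fu r E (X ^ ε₂) (X ^ θw) ⌊X ^ (δ₁ / 20)⌋₊) γ L x‖ ^ 2 ≤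
  (L : ℝ) ^ 2 * X ^ (1 - δ₁ - δ₁ / 80)

/-- K12 (EASY-MEDIUM; uses GS, L2; model: `TS/I_V3.lean`): V3 with coefficients for the medium variable.
PROOF.  Word for word V3: `F_x = ∑_{a ∈ (A,A']} c(a) T_a(x)`, Cauchy
`‖F_x‖² ≤ A ∑_a c(a)² ‖T_a(x)‖² ≤ A ∑_a ‖T_a(x)‖²`, and from here on the coefficients are gone. -/
def tsK12 : Prop := ∃ C : ℝ, 0 < C ∧ ∀ (A A' L q Z : ℕ) (b : ℤ) (γ D : ℝ) (B c : ℕ → ℝ), 1 ≤ A →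
  A ≤ A' → A' ≤ 2 * A → A ≤ L → 1 ≤ q → IsCoprime b (q : ℤ) → |γ - b / q| ≤ 1 / (q : ℝ) ^ 2 →
  (∀ m, |B m| ≤ D) → (∀ m, |c m| ≤ 1) →
  ∑ x ∈ Finset.Icc L Z, ‖ws (fun n => ∑ m ∈ n.divisors.filter
    (fun m => A * m < n ∧ n ≤ A' * m), c (n / m) * B m) γ L x‖ ^ 2 ≤
  C * D ^ 2 * Z * (L : ℝ) ^ 2 * (1 + Real.log q) *
    (1 / (A : ℝ) + (A : ℝ) / L + 1 / (q : ℝ) + (q : ℝ) / L)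

/-- K13 (EASY-MEDIUM; uses L0, K12; model: `TS/I_V4.lean`): `u` on the minor arcs.  PROOF.  As V4: dyadic ranges
for the prime `p ∈ (⌊z⌋, ⌊w⌋]`, `c` = indicator function of the primes, `B m = d_r(m)` for `m ≤ 3X`, `0` above,
`1/A_i ≤ 2X^(-ε₂)`, `A_i/L ≤ X^(θw-θ₁)`. -/
def tsK13 : Prop := ∀ (r : ℕ) (ε₂ θw θ₁ δ₂ : ℝ), 1 ≤ r → 0 < ε₂ → ε₂ < θw → θw < θ₁ → 0 < δ₂ →
  δ₂ ≤ 1 → ∃ δ X0 : ℝ, 0 < δ ∧ ∀ X : ℝ, X0 ≤ X → ∀ (L q : ℕ) (b : ℤ) (γ : ℝ), X ^ θ₁ ≤ L →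
  (L : ℝ) ≤ 3 * X → X ^ δ₂ ≤ q → (q : ℝ) ≤ L * X ^ (-δ₂) → IsCoprime b (q : ℤ) →
  |γ - b / q| ≤ 1 / (q : ℝ) ^ 2 →
  ∑ x ∈ Finset.Icc L ⌊3 * X⌋₊, ‖ws (up r (X ^ ε₂) (X ^ θw)) γ L x‖ ^ 2 ≤
    (L : ℝ) ^ 2 * X ^ (1 - δ)

/-- K14 (MEDIUM; uses E1, F1, F2; model: the last part of `TS/I_U6.lean`): windows of a model on the
minor arcs.  PROOF.  By E1 the window sum is the sum over `s ≤ Q` and the reduced `c` mod `s` of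
`∑_{n ∈ (x-L,x]} p_s(log n) ee(nφ)`, `φ = γ + c/s`.  `b'/q + c/s` is not an integer (`q ≥ X^δ₂ > Q ≥ s`, `b'/q`
reduced), so its distance to the integers is `≥ 1/(qs)`, `|γ - b'/q| ≤ 1/q² ≤ 1/(2qs)`: `nn φ ≥ 1/(2qs)`,
and F1, F2 give `≤ 2V · 2qs`, `V = C M (1+log 3X)^(2r)`.  Total `≤ 4 V q Q³ ≤ M L X^(-δ₂/4)` for large `X`. -/
def tsK14 : Prop := ∀ (r : ℕ) (δ₂ : ℝ), 1 ≤ r → 0 < δ₂ → ∃ X0 : ℝ,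
  ∀ (E' : ℕ → Polynomial ℝ) (M X γ : ℝ) (Q x L q : ℕ) (b' : ℤ), X0 ≤ X → 0 ≤ M →
  (∀ s, (E' s).natDegree ≤ r - 1) → (∀ s j, 1 ≤ s → |(E' s).coeff j| ≤ M) →
  (Q : ℝ) ≤ X ^ (δ₂ / 8) → L ≤ x → (x : ℝ) ≤ 3 * X → X ^ δ₂ ≤ q → (q : ℝ) ≤ L * X ^ (-δ₂) →
  IsCoprime b' (q : ℤ) → |γ - b' / q| ≤ 1 / (q : ℝ) ^ 2 →
  ‖ws (fs E' Q) γ L x‖ ≤ M * L * X ^ (-(δ₂ / 4))

/-- K15 (EASY-MEDIUM; uses K5, K11, K13, K14; model: `TS/I_U7.lean`): one block, all frequencies.  PROOF.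
`δm` of K11, `δ₂ = min δm (min (1/10) (θ₁/4))`, `δ` of K13 for `δ₂`,
`δ₁ = min (min δm (δ/4)) (min (δ₂/8) (min ((1-θ₂)/8) (1/10)))`.  Dirichlet with `Q₁ = ⌊L X^(-δ₂)⌋ ≥ 1`.
`q ≤ X^δ₂`: K11.  `q > X^δ₂`: `fu = u - fs (Eu E z w) Q`, `‖ws fu‖² ≤ 2‖ws u‖² + 2‖ws (fs …)‖²`; K13
(`[a+L,b] ⊆ [L,⌊3X⌋]`): `L² X^(1-δ) ≤ L² X^(1-4δ₁)`; K14 with `M = C (1+log X)^(r+1)` (K5),
`Q ≤ X^(δ₁/20) ≤ X^(δ₂/8)`: `(β+1) M² L² X^(-δ₂/2) ≤ 2 M² L² X^(1-δ₁-4δ₁)`. -/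
def tsK15 : Prop := ∀ (r : ℕ) (E : ℕ → Polynomial ℝ), 1 ≤ r → AP r E → CB E → ∀ ε₂ θw θ₁ θ₂ : ℝ,
  0 < ε₂ → ε₂ < θw → θw < θ₁ → θw ≤ 1 / 4 → θ₁ < θ₂ → θ₂ < 1 → ∃ δ₀ : ℝ, 0 < δ₀ ∧
  δ₀ ≤ 1 / 10 ∧ δ₀ ≤ (1 - θ₂) / 8 ∧ ∀ δ₁ : ℝ, 0 < δ₁ → δ₁ ≤ δ₀ → ∃ X0 : ℝ,
  ∀ (X γ : ℝ) (a b L : ℕ), X0 ≤ X → Blk X δ₁ a b → X ^ θ₁ ≤ L → (L : ℝ) ≤ X ^ θ₂ →
  ∑ x ∈ Finset.Icc (a + L) b, ‖ws (fu r E (X ^ ε₂) (X ^ θw) ⌊X ^ (δ₁ / 20)⌋₊) γ L x‖ ^ 2 ≤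
  (L : ℝ) ^ 2 * X ^ (1 - δ₁ - δ₁ / 80)

/-- K16 (EASY-MEDIUM; uses K7, K15; model: `TS/I_U8.lean`, `TS/I_R10.lean`): the mean square over short
intervals.  PROOF.  As R10/U8 with K15 (`δ₁ = min δ₀ (min ε₂ θ₁)`, `η₂ = δ₁/20`) and `|fu| ≤ C X^ε` (K7). -/
def tsK16 : Prop := ∀ (r : ℕ) (E : ℕ → Polynomial ℝ), 1 ≤ r → AP r E → CB E → ∀ ε₂ θw θ₁ θ₂ : ℝ,
  0 < ε₂ → ε₂ < θw → θw < θ₁ → θw ≤ 1 / 4 → θ₁ < θ₂ → θ₂ < 1 → ∃ η₂ δ X0 : ℝ, 0 < η₂ ∧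
  η₂ ≤ ε₂ / 20 ∧ η₂ ≤ 1 / 100 ∧ 0 < δ ∧ ∀ (X γ : ℝ) (N L : ℕ), X0 ≤ X → (N : ℝ) ≤ 2 * X →
  X ^ θ₁ ≤ L → (L : ℝ) ≤ X ^ θ₂ →
  SI (fu r E (X ^ ε₂) (X ^ θw) ⌊X ^ η₂⌋₊) N L γ ≤ (L : ℝ) ^ 2 * X ^ (1 - δ)

end Pool.Agent.Work.MP_122e00_nt.TS
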