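import Mathlib
import Pool.Agent.Work.MP_122e00_nt.TS.Stmts7
import Pool.Agent.Work.MP_0f91f8_co.FC.StmtsS

/-!
# All powers, part 8: a uniform upper bound (Shiu, Nair, Tenenbaum, Henriot type)

Goal (item N12): for all `1 ≤ h ≤ X`, `1/2 ≤ y ≤ 2`, with `ω(n)` the number of prime divisors of `n` in the
window `(X^ε₂, X^θw]`, `P` the sum of `1/p` over this window,
`∑_{n ≤ X} d_r(n) y^ω(n) d_r(n+h) ≤ C exp (r (y-1) P + (r-1)² ∑_{p ∣ h} 1/p) X (log X)^(2r-2)`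
with a constant `C = C(r)`, and its consequence (item N16) that `∑ d_r(n) d_r(n+h)` is, up to a factor
`1 + O(κ)`, the sum `∑ u(n) d_r(n+h)` divided by the mean number of window primes.

Every docstring is a complete proof.  Earlier items are hypotheses.
-/

namespace Pool.Agent.Work.MP_122e00_nt.TS

open Finset Filter Topology ArithmeticFunction MeasureTheory
open scoped ArithmeticFunction.zeta ArithmeticFunction.Moebius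

/-- K17 (EASY-MEDIUM; uses K7, K15; model: `TS/I_U8.lean`, `TS/I_R10.lean`): K16 with a free small exponent.
PROOF.  As K16 with `δ₁ = 20 η₂`, `η₀ = (min δ₀ (min ε₂ θ₁))/20`. -/
def tsK17 : Prop := ∀ (r : ℕ) (E : ℕ → Polynomial ℝ), 1 ≤ r → AP r E → CB E → ∀ ε₂ θw θ₁ θ₂ : ℝ,
  0 < ε₂ → ε₂ < θw → θw < θ₁ → θw ≤ 1 / 4 → θ₁ < θ₂ → θ₂ < 1 → ∃ η₀ : ℝ, 0 < η₀ ∧
  ∀ η₂ : ℝ, 0 < η₂ → η₂ ≤ η₀ → ∃ δ X0 : ℝ, 0 < δ ∧ ∀ (X γ : ℝ) (N L : ℕ), X0 ≤ X →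
  (N : ℝ) ≤ 2 * X → X ^ θ₁ ≤ L → (L : ℝ) ≤ X ^ θ₂ →
  SI (fu r E (X ^ ε₂) (X ^ θw) ⌊X ^ η₂⌋₊) N L γ ≤ (L : ℝ) ^ 2 * X ^ (1 - δ)

/-- the primes up to `Z` -/
def pr1 (Z : ℕ) : Finset ℕ := (Finset.Icc 1 Z).filter Nat.Prime

/-- `∑ 1/p` over the window -/
noncomputable def pw (z w : ℝ) : ℝ := ∑ p ∈ PW z w, 1 / (p : ℝ)

/-- `∑ 1/p` over the primes of the window which divide `h` -/
noncomputable def ph (z w : ℝ) (h : ℕ) : ℝ := ∑ p ∈ (PW z w).filter (· ∣ h), 1 / (p : ℝ)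

/-- the number of primes of the window which divide `n` -/
noncomputable def ow (z w : ℝ) (n : ℕ) : ℕ := ((PW z w).filter (· ∣ n)).card

/-- `∑_{p ∣ h} 1/p` -/
noncomputable def Sh (h : ℕ) : ℝ := ∑ p ∈ h.primeFactors, 1 / (p : ℝ)

/-- the `Z`-smooth part of `n` -/
def sm (Z n : ℕ) : ℕ := ∏ p ∈ n.primeFactors.filter (fun p => p ≤ Z), p ^ n.factorization p

/-- the sieving primes -/
def PD (D F : ℕ) : Finset ℕ := (Finset.Icc 1 F).filter (fun p => p.Prime ∧ 2 < p ∧ ¬ p ∣ D)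

/-- the number of residue classes removed by `p` -/
def oh (h p : ℕ) : ℕ := if p ∣ h then 1 else 2

/-- the set which is sieved: `a ∣ n`, `a' ∣ n + h`, and all primes `p ≤ Z` dividing `n (n+h)` divide `a a'` -/
noncomputable def Ns (X : ℝ) (h a a' Z : ℕ) : Finset ℕ := (Finset.Icc 1 ⌊X⌋₊).filter (fun n => a ∣ n ∧
  a' ∣ n + h ∧ ∀ p ∈ pr1 Z, p ∣ n * (n + h) → p ∣ a * a')

/-- admissible pairs: a prime `p ∣ a b` is `≤ Z`, and it divides both `a` and `b` if `p ∣ h`, and only one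
of them if not -/
noncomputable def AdP (h Z M : ℕ) : Finset (ℕ × ℕ) :=
  ((Finset.Icc 1 M) ×ˢ (Finset.Icc 1 M)).filter (fun q => ∀ p ∈ (q.1 * q.2).primeFactors, p ≤ Z ∧
    (p ∣ h → p ∣ q.1 ∧ p ∣ q.2) ∧ (¬ p ∣ h → ¬ (p ∣ q.1 ∧ p ∣ q.2)))

/-- the local sum of a weight `W` at `p` -/
noncomputable def LF (W : ℕ → ℕ → ℝ) (h M p : ℕ) : ℝ := if p ∣ h then
  ∑ i ∈ Finset.Icc 1 M, ∑ j ∈ Finset.Icc 1 M, W (p ^ i) (p ^ j) else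
  ∑ i ∈ Finset.Icc 1 M, (W (p ^ i) 1 + W 1 (p ^ i))

/-- the weight of a pair -/
noncomputable def Wp (r : ℕ) (z w y σ : ℝ) (a b : ℕ) : ℝ :=
  dr r a * y ^ ow z w a * dr r b * ((a : ℝ) * b) ^ σ *
    (((a * b : ℕ) : ℝ) / (Nat.totient (a * b) : ℝ)) ^ 2 / ((Nat.lcm a b : ℕ) : ℝ)

/-- `n` is in the bucket `(s, T)`: for some `Z` between `X^(1/(s+1))` and `X^(1/s)` the product of the
`Z`-smooth parts of `n` and `n + h` lies in `(T, X^(1/4)]` -/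
def Bk (X T : ℝ) (h s n : ℕ) : Prop := ∃ Z : ℕ, X ^ (1 / ((s : ℝ) + 1)) ≤ (Z : ℝ) ∧
  (Z : ℝ) ≤ X ^ (1 / (s : ℝ)) ∧ T < (sm Z n : ℝ) * (sm Z (n + h) : ℝ) ∧
  (sm Z n : ℝ) * (sm Z (n + h) : ℝ) ≤ X ^ (1 / 4 : ℝ)

/-- `m` has a large prime power with a small base, or a large very smooth part -/
def Ex (X : ℝ) (m : ℕ) : Prop := (∃ p j : ℕ, p.Prime ∧ (p : ℝ) ≤ X ^ (1 / 32 : ℝ) ∧ p ^ j ∣ m ∧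
  X ^ (1 / 16 : ℝ) < ((p ^ j : ℕ) : ℝ)) ∨ X ^ (1 / 16 : ℝ) < (sm ⌊Real.log X ^ 4⌋₊ m : ℝ)

/-- N1 (EASY-MEDIUM): Mertens.  PROOF.  In the library: `MP_e0c7e8_nt.Mert.mertens1` (first part) and
`MP_56b8f5_nt.WM.Mert_pf` (`WM/I_Mert.lean`; bounds `exp (∑ 1/p)` from both sides by constants times
`log Z`).  The third part from the second, as `|log Z - log Z'| …`: the sum over `z < p ≤ w` is the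
difference of the sums up to `⌊w⌋` and `⌊z⌋`, `z ≥ 2`, and `log z/2 ≤ log ⌊z⌋ ≤ log z`. -/
def tsN1 : Prop := ∃ C : ℝ, 0 < C ∧ (∀ Z : ℕ, 2 ≤ Z →
  ∑ p ∈ pr1 Z, Real.log p / p ≤ Real.log Z + C ∧
  |∑ p ∈ pr1 Z, 1 / (p : ℝ) - Real.log (Real.log Z)| ≤ C) ∧
  ∀ z w : ℝ, 2 ≤ z → z ≤ w → |pw z w - Real.log (Real.log w / Real.log z)| ≤ C

/-- N2 (EASY-MEDIUM): harmonic sums over integers coprime to `D`.  PROOF.  Every `k ≤ N` is `d m` with all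
primes of `d` dividing `D` and `m` coprime to `D`, `m ≤ N`.  So
`log N ≤ ∑_{k ≤ N} 1/k ≤ (∑_d 1/d) (∑_{m ≤ N, (m,D)=1} 1/m)`, the sum over finitely many such `d ≤ N`, at most
`∏_{p ∣ D} (1 - 1/p)⁻¹ = D/φ(D)`. -/
def tsN2 : Prop := ∀ D N : ℕ, 1 ≤ D → 1 ≤ N →
  (Nat.totient D : ℝ) / D * Real.log N ≤
    ∑ m ∈ (Finset.Icc 1 N).filter (fun m => Nat.Coprime m D), 1 / (m : ℝ)

/-- N3 (MEDIUM; uses N2): lower bound for the sum of the sieve.  PROOF.  `P = PD D F`,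
`G = ∑_{m ≤ F, m squarefree, p ∣ m → p ∈ P} ∏_{p ∣ m} o_p/(p - o_p)`.  For `p ∣ h`: `1/(p-1) = ∑_{j ≥ 1} p^(-j)`; for
`p ∤ h`, `p ≥ 3`: `2/(p-2) ≥ (2p-1)/(p-1)² = (1-1/p)^(-2) - 1 = ∑_{j ≥ 1} (j+1) p^(-j)`.  Every `k ≤ F` whose primes are
in `P` has squarefree kernel `m ≤ F`; so `G ≥ ∑_{k ≤ F, p ∣ k → p ∈ P} t(k)/k`, `t(k) = ∏_{p^j ∥ k} (j+1 or 1)` = number of
factorisations `k = k₁ k₂` with `(k₂, h) = 1`.  Hence with `N = ⌊√F⌋` (`Nat.sqrt F`)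
`G ≥ (∑_{k₁ ≤ N, (k₁, 2D) = 1} 1/k₁) (∑_{k₂ ≤ N, (k₂, 2Dh) = 1} 1/k₂)`, and N2: `φ(2D)/(2D) ≥ φ(D)/(2D)`,
`φ(2Dh)/(2Dh) ≥ (1/2) (φ(D)/D) (φ(h)/h)`, `log F ≤ 4 log N` for `F ≥ 4` (`F < (N+1)² ≤ N⁴`);
`F = 2, 3`: `G ≥ 1` (`m = 1`).  (To avoid infinite sums one may cut `j ≤ F` everywhere.) -/
def tsN3 : Prop := ∃ c : ℝ, 0 < c ∧ ∀ h D F : ℕ, 1 ≤ h → 1 ≤ D → 2 ≤ F →
  c * ((Nat.totient D : ℝ) / D) ^ 2 * ((Nat.totient h : ℝ) / h) * Real.log F ^ 2 ≤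
    Pool.Agent.F0f91f8.FC.Gs (PD D F) (oh h) F

/-- N4 (MEDIUM; uses N3): the sieve bound.  PROOF.  `StLSb` is proved in the library
(`MP_0f91f8_co/FC/AllS.lean`, `all_LSb`; also `FC/I_LSb.lean`, `I_LSq`, `I_LSp`).  `L = lcm a a'`.  If `Ns` is empty
nothing is to prove; otherwise let `n₀` be its least element.  All its elements are `≡ n₀ (mod L)`
(`a`, `a'` divide `n - n₀`), `n = n₀ + L t`, `0 ≤ t < N := ⌊X/L⌋ + 1`; let `T` be the set of these `t`.  For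
`p ∈ PD (a a') Z` (so `p ≥ 3`, `p ∤ L`) neither `n` nor `n + h` is divisible by `p`, so `t mod p` avoids the classes
`-n₀ L⁻¹` and `-(n₀+h) L⁻¹`, which are different if `p ∤ h`: `#(T mod p) + oh h p ≤ p`.  `StLSb` with `F = Z`:
`#T · G ≤ N + Z² harmonic (Z²)`, `N ≤ X/L + 1 ≤ 2X/L`, `Z² harmonic(Z²) ≤ X^(1/2) (1 + log X) ≤ 5 X^(3/4) ≤ 5 X/L`.
N3 with `D = a a'`, `F = Z`. -/
def tsN4 : Prop := ∃ C : ℝ, 0 < C ∧ ∀ (X : ℝ) (h a a' Z : ℕ), 1 ≤ X → 1 ≤ h → 1 ≤ a → 1 ≤ a' →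
  ((Nat.lcm a a' : ℕ) : ℝ) ≤ X ^ (1 / 4 : ℝ) → 2 ≤ Z → (Z : ℝ) ≤ X ^ (1 / 4 : ℝ) →
  ((Ns X h a a' Z).card : ℝ) ≤ C * X / ((Nat.lcm a a' : ℕ) : ℝ) *
    (((a * a' : ℕ) : ℝ) / (Nat.totient (a * a') : ℝ)) ^ 2 * ((h : ℝ) / (Nat.totient h : ℝ)) /
    Real.log Z ^ 2

/-- N5 (MEDIUM): sums over admissible pairs and products.  PROOF.  Induction on `Z`.  `Z = 0`: only `(1,1)`.
Step `Z → Z+1`: if `Z+1` is not a prime `AdP` and `pr1` do not change.  If `p = Z+1` is a prime, write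
`a = a₁ p^i`, `b = b₁ p^j`, `p ∤ a₁ b₁`; then `(a₁, b₁) ∈ AdP h Z M`, and `(i, j) = (0, 0)`, or (`p ∣ h`) `i, j ≥ 1`, or
(`p ∤ h`) exactly one of `i, j` is positive; `i, j ≤ M` as `p^i ≤ M`.  The map `(a, b) ↦ (a₁, b₁, i, j)` is
injective and `W a b ≤ W a₁ b₁ W (p^i) (p^j)` (for `(i,j) = (0,0)`: `W a b = W a₁ b₁`), so the sum for `Z+1` is at
most the sum for `Z` times `1 + LF W h M p`. -/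
def tsN5 : Prop := ∀ W : ℕ → ℕ → ℝ, (∀ a b, 0 ≤ W a b) →
  (∀ p i j a b : ℕ, p.Prime → ¬ p ∣ a → ¬ p ∣ b →
    W (a * p ^ i) (b * p ^ j) ≤ W a b * W (p ^ i) (p ^ j)) →
  ∀ h Z M : ℕ, ∑ q ∈ AdP h Z M, W q.1 q.2 ≤ W 1 1 * ∏ p ∈ pr1 Z, (1 + LF W h M p)

/-- N6 (MEDIUM): the local sums.  PROOF.  `dr r (p^i) = (i+r-1).choose (r-1) ≤ (i+1)^r`, `dr r p = r`;
`y^ow ≤ 2`; `n/φ(n) = (1-1/p)⁻¹` for `n = p^k`, `k ≥ 1`; `(1-1/p)^(-2) ≤ 1 + 6/p ≤ 4`; `lcm (p^i) (p^j) = p^(max i j)`.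
`p ∤ h`: the terms `i = 1` are `r (y_p + 1) p^σ (1-1/p)^(-2)/p ≤ r (y_p+1) p^(σ-1) + 18 r p^(σ-2)`; the terms `i ≥ 2` are
`≤ ∑_i 3 (i+1)^r 4 p^(i(σ-1)) ≤ C p^(2σ-2)` (`p^((i-2)(σ-1)) ≤ 2^(-(i-2)/2)`).  `p ∣ h`: the term `(1,1)` is
`r² y_p p^(2σ) (1-1/p)^(-2)/p ≤ r² y_p p^(2σ-1) + 12 r² p^(2σ-2)`; the terms with `max i j = m ≥ 2`: at most `2m` pairs,
each `≤ 2 (m+1)^(2r) 4 p^(m(2σ-1))`, sum `≤ C p^(4σ-2)`, `p^((m-2)(2σ-1)) ≤ 2^(-(m-2)/2)`.  `σ ≤ 1/16`: all exponents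
`σ-2`, `2σ-2`, `4σ-2` are `≤ -3/2`. -/
def tsN6 : Prop := ∀ r : ℕ, 1 ≤ r → ∃ C : ℝ, 0 < C ∧ ∀ (z w y σ : ℝ) (h M p : ℕ), p.Prime →
  1 / 2 ≤ y → y ≤ 2 → 0 ≤ σ → σ ≤ 1 / 16 → LF (Wp r z w y σ) h M p ≤
    (if p ∣ h then (r : ℝ) ^ 2 * (if p ∈ PW z w then y else 1) * (p : ℝ) ^ (2 * σ - 1) else
      (r : ℝ) * (1 + (if p ∈ PW z w then y else 1)) * (p : ℝ) ^ (σ - 1)) +
    C * (p : ℝ) ^ (-(3 / 2) : ℝ)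

/-- N7 (MEDIUM; uses N1, N5, N6): the sum over all admissible pairs.  PROOF.  `Wp` satisfies the
hypotheses of N5 (all factors are multiplicative for coprime arguments; `ow z w (a p^i) = ow z w a + ow z w (p^i)`
for `p ∤ a`), `Wp 1 1 = 1`; `∏ (1 + LF) ≤ exp (∑ LF)`, N6, `∑ p^(-3/2) ≤ 3`.  For `τ ≤ 2σ`:
`p^τ ≤ 1 + τ log p Z^τ ≤ 1 + 2σ log p Z^(2σ)` (`e^x - 1 ≤ x e^x`), so `∑_{p ≤ Z} LF ≤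
∑_{p ≤ Z, p ∤ h} r (1+y_p)/p + ∑_{p ≤ Z, p ∣ h} r² y_p/p + (3r+2r²) 2σ Z^(2σ) ∑_{p ≤ Z} (log p)/p + 3C`.  With
`y_p = 1 + (y-1) 1_{p ∈ PW}`, `|y-1| ≤ 1`, the first two sums are at most
`2r ∑_{p ≤ Z} 1/p + r (y-1) pw z (min w Z) + (r²-2r) ∑_{p ≤ Z, p ∣ h} 1/p + (r+r²) ph z w h`, and N1; `r² - 2r ≥ 0`. -/
def tsN7 : Prop := ∀ r : ℕ, 2 ≤ r → ∃ C : ℝ, 0 < C ∧ ∀ (z w y σ : ℝ) (h Z M : ℕ), 1 ≤ h → 2 ≤ Z →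
  1 / 2 ≤ y → y ≤ 2 → 0 ≤ σ → σ ≤ 1 / 16 → ph z w h ≤ 1 →
  ∑ q ∈ AdP h Z M, Wp r z w y σ q.1 q.2 ≤
    Real.exp (C + C * σ * (Z : ℝ) ^ (2 * σ) * (1 + Real.log Z) + r * (y - 1) * pw z (min w Z) +
      ((r : ℝ) ^ 2 - 2 * r) * Sh h) * Real.log Z ^ (2 * r)

/-- N8 (EASY-MEDIUM): smooth parts.  PROOF.  `n = sm Z n · m`, `m` the product of the `p^(v_p)` with `p > Z`.
(5): `d_r(a m) = d_r(a) d_r(m)` for coprime `a`, `m`, `d_r(m) ≤ r^Ω(m)` (`d_r(p^j) ≤ r^j`),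
`ow (a m) = ow a + ow m`, `y^(ow m) ≤ 2^Ω(m)`; `Ω(m) ≤ k` since otherwise `n ≥ m ≥ (Z+1)^(k+1) > Z^(k+1)`. -/
def tsN8 : Prop := (∀ Z n : ℕ, 1 ≤ n → sm Z n ∣ n ∧ 1 ≤ sm Z n ∧
    (∀ p : ℕ, p.Prime → (p ∣ sm Z n ↔ p ∣ n ∧ p ≤ Z))) ∧
  (∀ Z Z' n : ℕ, Z ≤ Z' → sm Z n ≤ sm Z' n) ∧
  (∀ Z n : ℕ, 1 ≤ n → sm (Z + 1) n = sm Z n * (if (Z + 1).Prime then (Z + 1) ^ n.factorization (Z + 1)
    else 1)) ∧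
  (∀ n : ℕ, 1 ≤ n → sm 0 n = 1) ∧
  ∀ (r Z n k : ℕ) (z w y : ℝ), 1 ≤ r → 1 ≤ n → 1 / 2 ≤ y → y ≤ 2 → n ≤ Z ^ (k + 1) →
    dr r n * y ^ ow z w n ≤ dr r (sm Z n) * y ^ ow z w (sm Z n) * (2 * r) ^ k

open Classical in
/-- N9 (MEDIUM-HARD; uses N1, N4, N7, N8): one bucket.  PROOF.  For `n` in the bucket choose `Z_n`; `a = sm Z_n n`,
`a' = sm Z_n (n+h)`.  `(a, a') ∈ AdP h Z M`, `Z = ⌊X^(1/s)⌋`, `M = ⌊X^(1/4)⌋`: for a prime `p ∣ a a'`, `p ≤ Z_n ≤ Z`, and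
if `p ∣ h` then `p ∣ n ⟺ p ∣ n+h`, if `p ∤ h` not both.  Let `Z' = ⌈X^(1/(s+1))⌉ ≤ Z_n`, `Z' ≥ 4`, `Z' ≤ X^(1/4)`; every prime
`p ≤ Z'` with `p ∣ n (n+h)` divides `a a'`: `n ∈ Ns X h a a' Z'`.  `2X ≤ X^((s+2)/(s+1)) ≤ Z_n^(s+2)`, so N8 with
`k = s+1` (twice, the second time with `y = 1`): `d_r(n) y^ow(n) d_r(n+h) ≤ d_r(a) y^ow(a) d_r(a') (2r)^(2s+2)`.  N4,
`lcm ≤ a a' ≤ X^(1/4)`, `1 ≤ (a a'/T)^σ`, `log Z' ≥ log X/(s+1)`: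
sum `≤ (2r)^(2s+2) C X (h/φ(h)) (s+1)² (log X)^(-2) T^(-σ) ∑_{AdP} Wp`.  `h/φ(h) = ∏ (1-1/p)⁻¹ ≤ exp (∑_{p ∣ h} (1/p + 2/p²))
≤ exp (Sh h + 4)`.  N7: `σ log Z ≤ (log s)/4`, `Z^(2σ) ≤ s^(1/2)`, so `σ Z^(2σ) (1 + log Z) ≤ s^(1/2) (1 + log s) ≤ 4 s`;
`log Z ≤ log X`; `(r²-2r) + 1 = (r-1)²`.  `r (y-1) pw z (min w Z) ≤ r (y-1) pw z w + r (log (2s) + C)`: for `y ≥ 1`
clear, for `y < 1` the difference is `≤ r ∑_{Z < p ≤ w} 1/p`, `w ≤ X`, and N1, `Z ≥ X^(1/s)/2 ≥ X^(1/(2s))`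
(`X^(1/s) ≥ 4`).  All factors depending on `s` are `≤ exp (C s)`. -/
def tsN9 : Prop := ∀ r : ℕ, 2 ≤ r → ∃ C : ℝ, 0 < C ∧ ∀ (X z w y σ T : ℝ) (h s : ℕ), 32 ≤ s →
  4 ≤ X ^ (1 / ((s : ℝ) + 1)) → 1 ≤ h → (h : ℝ) ≤ X → w ≤ X → 1 / 2 ≤ y → y ≤ 2 → 0 ≤ σ →
  σ ≤ 1 / 16 → σ * Real.log X ≤ s * Real.log s / 4 → 0 < T → ph z w h ≤ 1 →
  ∑ n ∈ (Finset.Icc 1 ⌊X⌋₊).filter (Bk X T h s), dr r n * y ^ ow z w n * dr r (n + h) ≤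
    Real.exp (C * s + r * (y - 1) * pw z w + ((r : ℝ) - 1) ^ 2 * Sh h) * T ^ (-σ) * X *
      Real.log X ^ (2 * r - 2)

open Classical in
/-- N10 (MEDIUM): the exceptional `m` are rare.  PROOF.  First kind: for each `p ≤ X^(1/32)` let `j` be least with
`p^j > X^(1/16)`; `p^j ∣ m`: at most `2X/X^(1/16)` values; in total `≤ 2 X^(1/32+15/16) = 2 X^(31/32)`.  Second
kind, `Y = ⌊(log X)^4⌋`, `N = ⌊2X⌋`: the number is `≤ X^(-1/128) ∑_{m ≤ N} (sm Y m)^(1/8)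
≤ X^(-1/128) ∑_{a ≤ N, p ∣ a → p ≤ Y} a^(1/8) N/a ≤ 2 X^(1-1/128) ∏_{p ≤ Y} (∑_{j ≥ 0} p^(-7j/8))
≤ 2 X^(1-1/128) exp (C ∑_{k ≤ Y} k^(-7/8))`, `∑_{k ≤ Y} k^(-7/8) ≤ 8 Y^(1/8) ≤ 8 (log X)^(1/2)`, and
`exp (8 C (log X)^(1/2)) ≤ X^(1/1000)` for large `X`. -/
def tsN10 : Prop := ∃ X0 : ℝ, ∀ X : ℝ, X0 ≤ X →
  (((Finset.Icc 1 ⌊2 * X⌋₊).filter (Ex X)).card : ℝ) ≤ X ^ (1 - 1 / 200 : ℝ)

/-- N11 (MEDIUM; uses N8): the decomposition.  PROOF.  `A(Z) = sm Z n · sm Z (n+h)`.  Suppose neither `n` nor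
`n+h` is in `Ex X`.  `Z₃₂ = ⌊X^(1/32)⌋ ≥ X^(1/33)` for large `X`.  If `A(Z₃₂) ≤ X^(1/4)`: bucket `(32, 1/2)`.  Otherwise
let `Z ≤ Z₃₂` be least with `A(Z) > X^(1/8)`; `A(0) = 1`, so `Z ≥ 1` and (N8) `Z` is a prime,
`A(Z) = A(Z-1) Z^(v_Z(n)) Z^(v_Z(n+h)) ≤ X^(1/8) X^(1/16) X^(1/16) = X^(1/4)` (not `Ex`).  `s = ⌊log X/log Z⌋ ≥ 32`,
`X^(1/(s+1)) ≤ Z ≤ X^(1/s)`.  If `s ≥ S₀+1` then `s + 1 > S₀ + 1 ≥ log X/(4 log log X)` and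
`Z ≤ X^(1/s) ≤ X^(1/(S₀+1)) ≤ (log X)^4`, and `A(Z) > X^(1/8)` gives `sm Z n > X^(1/16)` or `sm Z (n+h) > X^(1/16)`;
`sm` is monotone in `Z`: contradiction to not `Ex`.  So `s ≤ S₀ = ⌊log X/(4 log log X)⌋`. -/
def tsN11 : Prop := ∃ X0 : ℝ, ∀ (X : ℝ) (h n : ℕ), X0 ≤ X → 1 ≤ h → 1 ≤ n → Ex X n ∨ Ex X (n + h) ∨
  Bk X (1 / 2) h 32 n ∨
  ∃ s : ℕ, 32 ≤ s ∧ s ≤ ⌊Real.log X / (4 * Real.log (Real.log X))⌋₊ ∧ Bk X (X ^ (1 / 8 : ℝ)) h s n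

/-- N12 (MEDIUM; uses L0, N1, N9, N10, N11): the uniform upper bound.  PROOF.  `z = X^ε₂`, `w = X^θw`.
`ph z w h ≤ (number of primes > z dividing h)/z ≤ (1/ε₂) X^(-ε₂) ≤ 1` (their product is `≤ h ≤ X`).  N11:
the sum is at most (a) bucket `(32, 1/2)`: N9 with `σ = 0`; (b) for `32 ≤ s ≤ S₀` the buckets
`(s, X^(1/8))`: N9 with `σ = s log s/(4 log X) ≤ 1/16` (`s log s ≤ S₀ log log X ≤ log X/4`), `X^(-σ/8) =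
exp (-s log s/32)`, `X^(1/(s+1)) ≥ 4` for large `X`, and `∑_s exp (C s - s log s/32) ≤ C'`; (c) `n` or `n+h` in
`Ex X` (both `≤ 2X`): number `≤ 2 X^(1-1/200)` (N10), each term `≤ C X^(1/1000) 2^(1/ε₂)` (L0; `ow z w n ≤ 1/ε₂`),
so `≤ X^(1-1/300)`; the right hand side is `≥ C exp (-r pw z w) X`, and `pw z w ≤ log (θw/ε₂) + C` (N1). -/
def tsN12 : Prop := ∀ r : ℕ, 2 ≤ r → ∃ C : ℝ, 0 < C ∧ ∀ ε₂ θw : ℝ, 0 < ε₂ → ε₂ < θw → θw ≤ 1 / 4 →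
  ∃ X0 : ℝ, ∀ (X y : ℝ) (h : ℕ), X0 ≤ X → 1 ≤ h → (h : ℝ) ≤ X → 1 / 2 ≤ y → y ≤ 2 →
  ∑ n ∈ Finset.Icc 1 ⌊X⌋₊, dr r n * y ^ ow (X ^ ε₂) (X ^ θw) n * dr r (n + h) ≤
    C * Real.exp (r * (y - 1) * pw (X ^ ε₂) (X ^ θw) + ((r : ℝ) - 1) ^ 2 * Sh h) * X *
      Real.log X ^ (2 * r - 2)

/-- N13 (MEDIUM): the singular series is large if `h` has many small prime factors.  PROOF.  `Csing_eq`
(`Euler3.lean`, `Bd/B43.lean`; see `Euler4.lean` for how it is used): `Csing s h = ∏' p, locFactor s p (v_p(h))`.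
`P_j = locProb s p j` is decreasing in `j`, `P_0 = 1`, `P_1 = 1 - (1-1/p)^s ∈ [s/p - s²/(2p²), s/p]`, and for `p ≥ s`
`P_2 = 1 - (1-1/p)^s (1+s/p) ≤ s²/p²` (`(1-1/p)^s ≥ 1-s/p`).  `ν = 0`: `locFactor = 1 - P_1² ≥ 1 - s²/p²`.  `ν ≥ 1`: the
terms `j = 0, 1` (all terms are `≥ 0`) give `locFactor ≥ 1 - P_1² + p (P_1² - P_2²) ≥ 1 + s²/p - C/p²`.  So for `p ≥ p₀(s)`
`locFactor s p ν ≥ exp (s²/p [p ∣ h]) (1 - C'/p²)` with `C'/p² ≤ 1/2`, and for `p < p₀`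
`locFactor s p ν ≥ 1 - P_1² ≥ c > 0`.  Hence `∏_{p ∈ S} locFactor ≥ c' exp (s² ∑_{p ∈ S, p ∣ h} 1/p)` for every finite set
`S` of primes, with `c' = c'(s) > 0` (`∏ (1 - C'/p²) ≥ exp (-2C' ∑ 1/p²)`); pass to the limit (the product
converges, see the proof of `Csing_pos`). -/
def tsN13 : Prop := ∀ s : ℕ, 1 ≤ s → ∃ C : ℝ, 0 < C ∧ ∀ h : ℕ, 1 ≤ h →
  Real.exp ((s : ℝ) ^ 2 * Sh h) ≤ C * Csing s h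

/-- the mean number of window primes, with the weights of the main term -/
noncomputable def jw (r : ℕ) (X z w : ℝ) : ℝ :=
  ∑ p ∈ PW z w, 1 / (p : ℝ) * (1 - Real.log p / Real.log X) ^ (r - 1)

/-- N14 (EASY; uses N1): `jw` and `pw`.  PROOF.  For `p ≤ w ≤ X`, `x = log p/log X ∈ [0,1]`:
`1 - (r-1) x ≤ (1-x)^(r-1) ≤ 1` (Bernoulli), and `∑_{p ≤ w} (log p)/p ≤ log w + C`. -/
def tsN14 : Prop := ∃ C : ℝ, 0 < C ∧ ∀ (r : ℕ) (X z w : ℝ), 1 ≤ r → 3 ≤ X → 1 ≤ w → w ≤ X →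
  jw r X z w ≤ pw z w ∧ pw z w - r * (Real.log w + C) / Real.log X ≤ jw r X z w

/-- N15 (EASY-MEDIUM; uses L0): `r u(n)` is nearly `ω(n) d_r(n)`.  PROOF.  For `p ∥ n`: `d_r(n) = r d_r(n/p)`.  So
`r up n - ow n dr n = ∑ (r dr (n/p) - dr n)` over the `p ∈ PW` with `p² ∣ n`, and the sum is at most
`∑_{p > z} ∑_{n ≤ X, p² ∣ n} C X^(ε₂/4) ≤ C X^(ε₂/4) ∑_{p > z} X/p² ≤ 2 C X^(1+ε₂/4-ε₂)`. -/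
def tsN15 : Prop := ∀ (r : ℕ) (ε₂ θw : ℝ), 1 ≤ r → 0 < ε₂ → ε₂ < θw → θw ≤ 1 / 4 → ∃ X0 : ℝ,
  ∀ (X : ℝ) (h : ℕ), X0 ≤ X → 1 ≤ h → (h : ℝ) ≤ X →
  ∑ n ∈ Finset.Icc 1 ⌊X⌋₊, |r * up r (X ^ ε₂) (X ^ θw) n -
    (ow (X ^ ε₂) (X ^ θw) n : ℝ) * dr r n| * dr r (n + h) ≤ X ^ (1 - ε₂ / 2)

/-- N16 (MEDIUM; uses N1, N12, N14, N15): almost all of the sum comes from `n` with the expected number of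
window primes.  PROOF.  `P = pw`, `J = jw`, `P - r ≤ J ≤ P` for large `X` (N14), `J ≥ log (θw/ε₂) - C' - r` (N1);
`v_n = dr n dr (n+h)`, `ω = ow n`, `M = exp ((r-1)² Sh h) X (log X)^(2r-2)`; N12: `∑ v_n y^ω ≤ C exp (r(y-1)P) M`.  By
N15 the difference is at most `∑ v_n |1 - ω/(rJ)| + X^(1-ε₂/2)` (`J ≥ 1`).  Let `0 < t ≤ 1/2`.
(1) `|ω - rJ| ≤ t rJ`: at most `t ∑ v_n ≤ t C M` (`y = 1`).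
(2) `ω > m₁ = (1+t) rJ`, `y = 1 + t/2`, `J ≥ 4/t`: `|1 - ω/(rJ)| ≤ 2ω/m₁ ≤ 2 exp ((ω-m₁)/m₁) ≤ 2 y^(ω-m₁)` (`1/m₁ ≤ t/4 ≤ log y`),
so at most `2 C M exp (r (t/2) P - (1+t) rJ log (1+t/2))`, `log (1+t/2) ≥ t/2 - t²/8`,
`(1+t) (t/2-t²/8) ≥ t/2 + t²/4`: at most `2 C M exp (r² - rJt²/4)` (`P ≤ J + r`).
(3) `ω < m₂ = (1-t) rJ`, `y = 1 - t/2`: `|1 - ω/(rJ)| ≤ 1 ≤ y^(ω-m₂)`: at most
`C M exp (m₂ (-log (1-t/2)) - r (t/2) P)`, `-log (1-t/2) ≤ t/2 + t²/4`, `(1-t) (t/2+t²/4) - t/2 ≤ -t²/4`, `P ≥ J`: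
at most `C M exp (-rJt²/4)`.  Take `t = min (1/2) (κ/(4C))`, then `ε₀` so small that `J` is large enough. -/
def tsN16 : Prop := ∀ (r : ℕ) (θw κ : ℝ), 2 ≤ r → 0 < θw → θw ≤ 1 / 4 → 0 < κ → ∃ ε₀ : ℝ, 0 < ε₀ ∧
  ε₀ ≤ θw ∧ ∀ ε₂ : ℝ, 0 < ε₂ → ε₂ < ε₀ → ∃ X0 : ℝ, ∀ (X : ℝ) (h : ℕ), X0 ≤ X → 1 ≤ h → (h : ℝ) ≤ X →
  1 ≤ jw r X (X ^ ε₂) (X ^ θw) ∧
  |cor (dr r) (dr r) ⌊X⌋₊ h -
    cor (up r (X ^ ε₂) (X ^ θw)) (dr r) ⌊X⌋₊ h / jw r X (X ^ ε₂) (X ^ θw)| ≤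
    κ * Real.exp (((r : ℝ) - 1) ^ 2 * Sh h) * X * Real.log X ^ (2 * r - 2)

end Pool.Agent.Work.MP_122e00_nt.TS
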