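import Mathlib
import Pool.Agent.Work.MP_122e00_nt.TS.Stmts8

/-!
# All powers, part 9: the correlation with a window prime, and the assembly

Goal: for every `r ≥ 2` and every polynomial `F` there is one set `S` with
`#(S ∩ [1, K]) = O_B(K/(log K)^B)` for every `B` such that for all `0 < a < b < 1`
`D_r(X; F(k)) ~ lc r (F(k)) X (log X)^(2r-2)` as `k → ∞` outside `S`, uniformly for
`X^a ≤ F(k) ≤ X^b`.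

Every docstring is a complete proof.  Earlier items are hypotheses.
-/

namespace Pool.Agent.Work.MP_122e00_nt.TS

open Finset Filter Topology ArithmeticFunction MeasureTheory
open scoped ArithmeticFunction.zeta ArithmeticFunction.Moebius

/-- Y1 (EASY-MEDIUM; uses Q5, L0, K7, H2, T1; model: `TS/I_T2.lean`): the second moment of the error term.
PROOF.  The first part of T2, word for word, with `fu r E (X^ε₂) (X^θw) Q` in place of `fl r E Q` (`u = fu`,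
`v = dr r`) and K7 in place of F6. -/
def tsY1 : Prop := ∀ (r : ℕ) (E : ℕ → Polynomial ℝ) (ε₂ θw η₂ δ X0 θ₁ θ₂ θa θ : ℝ), 2 ≤ r → AP r E →
  CB E → 0 < ε₂ → ε₂ < θw → θw ≤ 1 / 4 → 0 < η₂ → η₂ ≤ 1 / 100 → 0 < δ → 0 < θ₁ → θ₁ < θa →
  θ ≤ θ₂ → θ₂ < 1 →
  (∀ (X γ : ℝ) (N L : ℕ), X0 ≤ X → (N : ℝ) ≤ 2 * X → X ^ θ₁ ≤ L → (L : ℝ) ≤ X ^ θ₂ →
    SI (fu r E (X ^ ε₂) (X ^ θw) ⌊X ^ η₂⌋₊) N L γ ≤ (L : ℝ) ^ 2 * X ^ (1 - δ)) →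
  ∀ (F : Polynomial ℤ) (A : ℕ), 1 ≤ F.natDegree → 0 < F.leadingCoeff →
  (∀ k : ℕ, A < k → 1 ≤ F.eval (k : ℤ)) → ∃ δ'' X1 : ℝ, 0 < δ'' ∧ ∀ (X : ℝ) (K : ℕ),
  X1 ≤ X → X ^ θa ≤ (K : ℝ) ^ F.natDegree → (K : ℝ) ^ F.natDegree ≤ X ^ θ →
  ∑ k ∈ Finset.Ioc A K, cor (fu r E (X ^ ε₂) (X ^ θw) ⌊X ^ η₂⌋₊) (dr r) ⌊X⌋₊ (fv F k) ^ 2 ≤
    K * X ^ (2 - δ'')

/-- Y2 (MEDIUM): a twisted sum of `d_r(n+h)` with a smooth weight.  PROOF.  `c₀ ≤ 1/4`, `C₀` of AP, `e = E q`,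
`g(t) = p(log t)`, `α = a/q`.  `S(t) = ∑_{n ≤ t} d_r(n+h) ee((n+h) α) = SS (dr r) (⌊t⌋+h) α - SS (dr r) h α`
`= (t+h) e(log(t+h)) - h e(log h) + R(t)`, `‖R(t)‖ ≤ 2 C₀ q^C₀ (2X)^(1-c₀)` for `1 ≤ t ≤ X` (AP at `x = t+h` and
`x = h`; `⌊t+h⌋ = ⌊t⌋+h`).  Abel summation: the sum is `g(X) S(X) - ∫_1^X g'(t) S(t) dt`.  With
`G(t) = (t+h) e(log(t+h))`, `G'(t) = (ed e)(log(t+h))`, the main part is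
`g(1) (G(1) - h e(log h)) + ∫_1^X g(t) G'(t) dt`.  The coefficients of `e` are `≤ C` (CB with `ε = 1`), so the first
term is `≤ C M (1+2h) (1+log 2X)^r`, and `|G'(t) - (ed e)(log t)| ≤ log(1+h/t) C (1+log 2X)^r ≤ (h/t) C (1+log 2X)^r`,
whose integral against `|g| ≤ r M (1+log X)^r` is `≤ C M h (1+log 2X)^(2r+1) ≤ C M X^θ (1+log 2X)^(2r+1)`.  The `R` part
is `≤ C M (1+log X)^(r+1) q^C₀ (2X)^(1-c₀)` (`∫ |g'| ≤ r² M (1+log X)^(r+1)`).  `c = min (c₀/2) ((1-θ)/2)`. -/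
def tsY2 : Prop := ∀ (r : ℕ) (E : ℕ → Polynomial ℝ) (θ : ℝ), 1 ≤ r → AP r E → CB E → 0 < θ → θ < 1 →
  ∃ c C X0 : ℝ, 0 < c ∧ 0 < C ∧ ∀ (p : Polynomial ℝ) (M X : ℝ) (q h : ℕ) (a : ℤ), X0 ≤ X → 0 ≤ M →
  p.natDegree ≤ r - 1 → (∀ j, |p.coeff j| ≤ M) → 1 ≤ q → IsCoprime a (q : ℤ) → 1 ≤ h →
  (h : ℝ) ≤ X ^ θ →
  ‖∑ n ∈ Finset.Icc 1 ⌊X⌋₊, ((p.eval (Real.log n) * dr r (n + h) : ℝ) : ℂ) *
      ee (((n : ℝ) + h) * (a / q)) -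
    ((∫ t in (1 : ℝ)..X, p.eval (Real.log t) * (ed (E q)).eval (Real.log t) : ℝ) : ℂ)‖ ≤
  C * M * (q : ℝ) ^ C * X ^ (1 - c)

/-- Y3 (MEDIUM; uses E1, Y2): the correlation of a model with `d_r`, for every shift.  PROOF.
`cor (fs E' Q) (dr r) N h = ∑_{q ≤ Q} ∑_n Gh n q p_q(log n) d_r(n+h)`, `p_q = ed (E' q)` (degree `≤ r-1`,
coefficients `≤ (r+1) M`).  E1: `Gh n q = ∑_a ee(n a/q) = ∑_a ee(-h a/q) ee((n+h) a/q)` over the reduced `a` mod `q`.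
Y2 for each `a`: `∑_n = ∑_a ee(-h a/q) (∫ + O(C (r+1) M q^C X^(1-c)))`, and `∑_a ee(-h a/q)` is the complex conjugate
of `Gh h q`, i.e. `Gh h q`.  Total error `≤ Q² C (r+1) M Q^C X^(1-c)`.  `η = c/(2(C+2))`, `δ = c/4`. -/
def tsY3 : Prop := ∀ (r : ℕ) (E : ℕ → Polynomial ℝ) (θ : ℝ), 1 ≤ r → AP r E → CB E → 0 < θ → θ < 1 →
  ∃ η δ X0 : ℝ, 0 < η ∧ 0 < δ ∧ ∀ (E' : ℕ → Polynomial ℝ) (M X : ℝ) (Q h : ℕ), X0 ≤ X → 0 ≤ M →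
  (∀ s, (E' s).natDegree ≤ r - 1) → (∀ s j, 1 ≤ s → |(E' s).coeff j| ≤ M) → (Q : ℝ) ≤ X ^ η →
  1 ≤ h → (h : ℝ) ≤ X ^ θ →
  |cor (fs E' Q) (dr r) ⌊X⌋₊ h - ∑ q ∈ Finset.Icc 1 Q, Gh h q *
    ∫ t in (1 : ℝ)..X, (ed (E' q)).eval (Real.log t) * (ed (E q)).eval (Real.log t)| ≤
  M * X ^ (1 - δ)

/-- `∑_{g ∣ h} g^(-1/2)` -/
noncomputable def ta (h : ℕ) : ℝ := ∑ g ∈ h.divisors, (g : ℝ) ^ (-(1 / 2) : ℝ)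

/-- the leading coefficient -/
noncomputable def lc (r h : ℕ) : ℝ := Csing (r - 1) h / ((r - 1).factorial : ℝ) ^ 2

/-- Y4 (EASY-MEDIUM; uses L0): partial sums of the singular series.  PROOF.  `|Gh h q| ≤ ∑_{g ∣ q, g ∣ h} g`
(`Gh = μ * Fh`), so for `τ > 1`: `∑_q |Gh h q| q^(-τ) ≤ ∑_{g ∣ h} g ∑_m (g m)^(-τ) ≤ C_τ ∑_{g ∣ h} g^(1-τ)`.  `τ = 3/2`: first
part.  `rho s q ≤ d_s(q)/q ≤ C q^(-7/8)` (`rho_le`, divisor bound; `Nat.finMulAntidiag`), and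
`|Csing s h - ∑_{q ≤ Q}| ≤ C ∑_{q > Q} |Gh h q| q^(-7/4) ≤ C (Q+1)^(-1/8) ∑_q |Gh h q| q^(-13/8)`, `∑_{g ∣ h} g^(-5/8) ≤ ta h`
(`Csing` is an absolutely convergent `tsum`, `Gh h 0 = 0`). -/
def tsY4 : Prop := ∀ s : ℕ, 1 ≤ s → ∃ C : ℝ, 0 < C ∧ ∀ h Q : ℕ, 1 ≤ h →
  ∑ q ∈ Finset.Icc 1 Q, |Gh h q| * (q : ℝ) ^ (-(3 / 2) : ℝ) ≤ C * ta h ∧
  |Csing s h - ∑ q ∈ Finset.Icc 1 Q, Gh h q * rho s q ^ 2| ≤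
    C * ta h * ((Q : ℝ) + 1) ^ (-(1 / 8) : ℝ)

/-- Y5 (MEDIUM): the integral for one `q`.  PROOF.  `e = (E q).coeff (r-1) = rho (r-1) q/(r-1)!` (AP); all
coefficients of `E q` are `≤ C q^(-3/4)` (CB, `ε = 1/4`).  For `|T| ≤ log X`:
`(E q)(T) = e T^(r-1) + O(q^(-3/4) (1+log X)^(r-2))`, `(E q)'(T) = O(q^(-3/4) (1+log X)^(r-2))`.  For `1 ≤ t ≤ X`,
`T = log t`, `p ∈ PW z w`: `0 ≤ T, log p ≤ log X`, so `|T - log p| ≤ log X` and, with `A = ∑_p (1/p) (T - log p)^(r-1)`,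
`(ed (Eu E z w q))(T) = e A + O(pw q^(-3/4) (1+log X)^(r-2))`, `(ed (E q))(T) = e T^(r-1) + O(q^(-3/4) (1+log X)^(r-2))`;
product `= e² A T^(r-1) + O(pw q^(-3/2) (1+log X)^(2r-3))`.  `H(T) = A T^(r-1)` is a polynomial, `H(0) = 0` (`r ≥ 2`),
`|H'| ≤ 2r pw (log X)^(2r-3)` on `[0, log X]`, and `∫_1^X H(log t) dt = X H(log X) - H(0) - ∫_1^X H'(log t) dt`;
`H(log X) = (log X)^(2r-2) jw r X z w`.  `1 + log X ≤ 2 log X`. -/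
def tsY5 : Prop := ∀ (r : ℕ) (E : ℕ → Polynomial ℝ), 2 ≤ r → AP r E → CB E → ∃ C : ℝ, 0 < C ∧
  ∀ (X z w : ℝ) (q : ℕ), 3 ≤ X → 1 ≤ w → w ≤ X → 1 ≤ q →
  |(∫ t in (1 : ℝ)..X, (ed (Eu E z w q)).eval (Real.log t) * (ed (E q)).eval (Real.log t)) -
    jw r X z w * (rho (r - 1) q / ((r - 1).factorial : ℝ)) ^ 2 * X * Real.log X ^ (2 * r - 2)| ≤
  C * pw z w * (q : ℝ) ^ (-(3 / 2) : ℝ) * X * Real.log X ^ (2 * r - 3)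

/-- Y6 (EASY; uses N14, Y4, Y5): the main term.  PROOF.  Multiply Y5 by `Gh h q` and sum; the errors by the first
part of Y4; `∑_{q ≤ Q} Gh h q (rho (r-1) q)² = Csing (r-1) h + O(ta h (Q+1)^(-1/8))` (Y4, `s = r-1`);
`0 ≤ jw ≤ pw`. -/
def tsY6 : Prop := ∀ (r : ℕ) (E : ℕ → Polynomial ℝ), 2 ≤ r → AP r E → CB E → ∃ C : ℝ, 0 < C ∧
  ∀ (X z w : ℝ) (Q h : ℕ), 3 ≤ X → 1 ≤ w → w ≤ X → 1 ≤ h →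
  |(∑ q ∈ Finset.Icc 1 Q, Gh h q *
    ∫ t in (1 : ℝ)..X, (ed (Eu E z w q)).eval (Real.log t) * (ed (E q)).eval (Real.log t)) -
    jw r X z w * lc r h * X * Real.log X ^ (2 * r - 2)| ≤
  C * ta h * pw z w * X * Real.log X ^ (2 * r - 2) *
    (1 / Real.log X + ((Q : ℝ) + 1) ^ (-(1 / 8) : ℝ))

/-- Y7 (EASY-MEDIUM): values divisible by `L`.  PROOF.  `R = ∏_{p ∣ L} p`.  If `L ∣ F(k)` then `R ∣ F(k)`.  `N(m)` =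
number of `x` mod `m` with `m ∣ F(x)`.  At most `K/R + 1` blocks of length `R`, so the number is
`≤ (K/R+1) N(R) ≤ (K+L) N(R)/R`, and `N(R)/R = ∏_{p ∣ L} N(p)/p` (Chinese remainders), `N(p)/p ≤ 1`, and
`N(p) ≤ deg F` if `p` does not divide the leading coefficient.  `C` = maximum of `deg F` and the leading
coefficient. -/
def tsY7 : Prop := ∀ F : Polynomial ℤ, 1 ≤ F.natDegree → 0 < F.leadingCoeff → ∃ C : ℝ, 1 ≤ C ∧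
  ∀ A K L : ℕ, 1 ≤ L → (∀ k : ℕ, A < k → 1 ≤ F.eval (k : ℤ)) →
  (((Finset.Ioc A K).filter (fun k => L ∣ fv F k)).card : ℝ) ≤
    ((K : ℝ) + L) * ∏ p ∈ L.primeFactors, min 1 (C / (p : ℝ))

/-- Y8 (MEDIUM; uses L0, H2, Y7): first moment of a divisor sum over the values.  PROOF.  `L ≤ √K`: by Y7
`∑_{L ≤ √K} L^(-1/4) 2K ∏_{p ∣ L} min 1 (C/p) ≤ 2K ∏_{p ≤ √K} (1 + min 1 (C/p) ∑_{j ≥ 1} p^(-j/4)) ≤ 2K exp (7C ∑ p^(-5/4))`.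
`L > √K`: `L^(-1/4) ≤ K^(-1/8)` and `F(k) ≤ C k^d` has at most `C' K^(1/16)` divisors. -/
def tsY8 : Prop := ∀ (F : Polynomial ℤ) (A : ℕ), 1 ≤ F.natDegree → 0 < F.leadingCoeff →
  (∀ k : ℕ, A < k → 1 ≤ F.eval (k : ℤ)) → ∃ C : ℝ, ∀ K : ℕ, 1 ≤ K →
  ∑ k ∈ Finset.Ioc A K, ∑ L ∈ (fv F k).divisors, (L : ℝ) ^ (-(1 / 4) : ℝ) ≤ C * K

/-- Y9 (EASY-MEDIUM): powers of `ta`.  PROOF.  Both sides are multiplicative in `h` (without `C`).  For `p^ν ∥ h`,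
`ν ≥ 1`: `(∑_{j ≤ ν} p^(-j/2))^m ≤ (1 - p^(-1/2))^(-m) ≤ 1 + p^(-1/4) ≤ ∑_{j ≤ ν} p^(-j/4)` if `p ≥ p₀(m)`; for `p < p₀`
the left side is `≤ C₀ = (1 - 2^(-1/2))^(-m)` and the right side is `≥ 1`.  `C = C₀^p₀`. -/
def tsY9 : Prop := ∀ m : ℕ, ∃ C : ℝ, 0 < C ∧ ∀ h : ℕ, 1 ≤ h →
  ta h ^ m ≤ C * ∑ L ∈ h.divisors, (L : ℝ) ^ (-(1 / 4) : ℝ)

/-- the asymptotic formula for `D_r(X; h)` up to a factor `1 ± η` -/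
def Gx (r : ℕ) (η X : ℝ) (h : ℕ) : Prop :=
  |cor (dr r) (dr r) ⌊X⌋₊ h - lc r h * (X * Real.log X ^ (2 * (r - 1)))| ≤
    η * (lc r h * (X * Real.log X ^ (2 * (r - 1))))

/-- Y10 (MEDIUM; uses K5, N13, N14, N16, Y3, Y6): the formula for one shift.  PROOF.  `f = (r-1)!`, `C₁` of N13 for
`s = r-1`, so `exp ((r-1)² Sh h) ≤ C₁ Csing (r-1) h = C₁ f² lc r h`, in particular `lc r h ≥ 1/(C₁ f²)`.  `κ = η/(4 C₁ f²)`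
in N16, `ε₂ = ε₀/2`; `M(X) = X (log X)^(2r-2)`, `J = jw ≥ 1`, `D = cor (dr) (dr)`, `U = cor (up) (dr)`:
`|D - U/J| ≤ (η/4) lc M`.  `η₁` = the `η` of Y3 for `θ'`.  `U = cor (fu) (dr) + cor (fs (Eu)) (dr)` (definition of `fu`); the
first is `≤ X^(1-δ₄)`; the second by Y3 (`E' = Eu E z w`, bound `C (1+log X)^(r+1)` from K5 with `ε = 1`) and Y6 is
`J lc M` up to `X^(1-δ/2) + C ta h pw M (1/log X + (Q+1)^(-1/8))`, `ta h ≤ (log X)^(1/2)`,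
`1/log X + (Q+1)^(-1/8) ≤ 2/log X`, `pw ≤ J + r` (N14), so `pw/J ≤ 1 + r`.  Hence
`|U/J - lc M| ≤ X^(1-δ₄) + X^(1-δ/2) + C' (log X)^(-1/2) M ≤ (η/4) lc M` for large `X`. -/
def tsY10 : Prop := ∀ (r : ℕ) (E : ℕ → Polynomial ℝ), 2 ≤ r → AP r E → CB E → ∀ θw θ' η : ℝ,
  0 < θw → θw ≤ 1 / 4 → 0 < θ' → θ' < 1 → 0 < η → ∃ ε₂ η₁ : ℝ, 0 < ε₂ ∧ ε₂ < θw ∧ 0 < η₁ ∧
  ∀ η₂ δ₄ : ℝ, 0 < η₂ → η₂ ≤ η₁ → 0 < δ₄ → ∃ X0 : ℝ, ∀ (X : ℝ) (h : ℕ), X0 ≤ X → 1 ≤ h →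
  (h : ℝ) ≤ X ^ θ' → ta h ≤ Real.log X ^ (1 / 2 : ℝ) →
  |cor (fu r E (X ^ ε₂) (X ^ θw) ⌊X ^ η₂⌋₊) (dr r) ⌊X⌋₊ h| ≤ X ^ (1 - δ₄) → Gx r η X h

open Classical in
/-- Y11 (MEDIUM; uses H2, K17, Y1, Y8, Y9, Y10): few exceptions for fixed `X`.  PROOF.  `θw = min (θa/3) (1/4)`,
`θ₁ = 2θa/3`, `θ₂ = θ' = (1+θ)/2`.  Y10 gives `ε₂`, `η₁`; K17 gives `η₀`; `η₂ = min (min η₁ η₀) (1/100)`; K17 and Y1 give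
`δ''`; `δ₄ = δ''/4`.  For `k ∈ Ioc A K`: `1 ≤ F(k) ≤ C K^d ≤ C X^θ ≤ X^θ'` (H2).  The `k` with
`|cor (fu) (dr)| > X^(1-δ₄)`: at most `K X^(2-δ'')/X^(2-2δ₄) = K X^(-δ''/2)` (Y1).  The `k` with `ta (fv F k) > (log X)^(1/2)`:
at most `(log X)^(-B) ∑_k ta(fv F k)^(2B) ≤ C K (log X)^(-B)` (Y9 with `m = 2B`, Y8).  All others satisfy `Gx` (Y10). -/
def tsY11 : Prop := ∀ (r : ℕ) (E : ℕ → Polynomial ℝ), 2 ≤ r → AP r E → CB E →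
  ∀ (F : Polynomial ℤ) (A : ℕ), 1 ≤ F.natDegree → 0 < F.leadingCoeff →
  (∀ k : ℕ, A < k → 1 ≤ F.eval (k : ℤ)) → ∀ (θa θ η : ℝ) (B : ℕ), 0 < θa → θa < θ → θ < 1 →
  0 < η → ∃ C X0 : ℝ, 0 < C ∧ ∀ (X : ℝ) (K : ℕ), X0 ≤ X → X ^ θa ≤ (K : ℝ) ^ F.natDegree →
  (K : ℝ) ^ F.natDegree ≤ X ^ θ →
  (((Finset.Ioc A K).filter (fun k => ¬ Gx r η X (fv F k))).card : ℝ) ≤
    C * K / Real.log X ^ B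

/-- `k` is bad: `F(k) ≤ 0`, or the formula fails for some `X` with `X^a ≤ F(k) ≤ X^b` -/
def Bad (r : ℕ) (F : Polynomial ℤ) (a b η : ℝ) (k : ℕ) : Prop := ¬ 1 ≤ F.eval (k : ℤ) ∨
  ∃ X : ℝ, 1 ≤ X ∧ X ^ a ≤ ((F.eval (k : ℤ) : ℤ) : ℝ) ∧ ((F.eval (k : ℤ) : ℤ) : ℝ) ≤ X ^ b ∧
    ¬ Gx r η X (fv F k)

/-- Y12 (MEDIUM; uses H2, Y11): all `X` at once.  PROOF.  `Gx` is monotone in `η` (`lc ≥ 0` by `Csing_pos`), so we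
may take `η ≤ 1`.  `d = deg F`; `A`, `c`, `C` of H2; `θa = a/2`, `θ = (1+b)/2`, `κ = η/(16 r)`, so
`(1+κ)^(2r) ≤ 1 + η/4`; `X_i = (1+κ)^i`; Y11 with `η/4`, `B+1`.  Let `K` be large, `K/2 < k ≤ K`, `h = F(k)`,
`c 2^(-d) K^d ≤ h ≤ C K^d`, `X^a ≤ h ≤ X^b`, so `h^(1/b) ≤ X ≤ h^(1/a)`; `X_i ≤ X ≤ X_(i+1)`.  For `Y ∈ {X_i, X_(i+1)}`
(`X/2 ≤ Y ≤ 2X`): `Y^θa ≤ 2 h^(1/2) ≤ K^d`, `Y^θ ≥ (1/2) (c 2^(-d) K^d)^(θ/b) ≥ K^d` for large `K`, and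
`i + 1 ≤ C₁ log K`.  Y11 for these `≤ C₁ log K + 1` values `X_i ≥ K`: outside a set of
`≤ (C₁ log K + 1) C' K/(log K)^(B+1)` integers `k`, `Gx r (η/4) Y h` holds for all of them.  For such `k`:
`D(X_i) ≤ D(X) ≤ D(X_(i+1))` (`D(X) = cor (dr) (dr) ⌊X⌋ h`), and with `M(X) = lc X (log X)^(2r-2)`:
`M(X_(i+1)) ≤ (1+κ)^(2r) M(X)`, `M(X) ≤ (1+κ)^(2r) M(X_i)` (`log X_(i+1) ≤ (1+κ) log X_i` as `log X_i ≥ 1`).  So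
`D(X) ≤ (1+η/4)² M(X) ≤ (1+η) M(X)` and `D(X) ≥ (1-η/4) M(X)/(1+η/4) ≥ (1-η) M(X)`. -/
def tsY12 : Prop := ∀ (r : ℕ) (E : ℕ → Polynomial ℝ), 2 ≤ r → AP r E → CB E → ∀ F : Polynomial ℤ,
  1 ≤ F.natDegree → 0 < F.leadingCoeff → ∀ (a b η : ℝ) (B : ℕ), 0 < a → a < b → b < 1 → 0 < η →
  ∃ C K0 : ℝ, ∀ K : ℕ, K0 ≤ (K : ℝ) → 2 ≤ K →
  (Set.ncard {k : ℕ | Bad r F a b η k ∧ K < 2 * k ∧ k ≤ K} : ℝ) ≤ C * K / Real.log K ^ B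

/-- Y13 (EASY-MEDIUM; model: `TS/I_H6.lean`): from dyadic blocks to `[1, K]`.  PROOF.  `f(K) = #(S ∩ [1, K])
≤ f(⌊K/2⌋) + #{k ∈ S : K < 2k, k ≤ K}`.  Iterate while `K/2^j ≥ √K` (and `≥ K0`): these blocks contribute
`≤ ∑_j |C| (K/2^j)/(log √K)^B ≤ 2^(B+1) |C| K/(log K)^B`; the rest is `≤ √K + 1 ≤ C'' K/(log K)^B`; small `K` trivially. -/
def tsY13 : Prop := ∀ (S : Set ℕ) (C K0 : ℝ) (B : ℕ), (∀ K : ℕ, K0 ≤ (K : ℝ) → 2 ≤ K →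
    (Set.ncard {k : ℕ | k ∈ S ∧ K < 2 * k ∧ k ≤ K} : ℝ) ≤ C * K / Real.log K ^ B) →
  ∃ C' : ℝ, ∀ K : ℕ, 2 ≤ K → (Set.ncard {k : ℕ | k ∈ S ∧ 1 ≤ k ∧ k ≤ K} : ℝ) ≤
    C' * K / Real.log K ^ B

/-- Y14 (EASY-MEDIUM): one set for all parameters.  PROOF.  For every `j` there is `K_j ≥ 3` with
`#(S_j ∩ [1, K]) ≤ K/(log K)^j` for all `K ≥ K_j` (hypothesis with `B = j+1`); we may take `K_j < K_(j+1)`.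
`T = {k : ∃ j, K_j ≤ k < K_(j+1), k ∈ S_j}`.  If `K_J ≤ K < K_(J+1)` then `T ∩ [1, K] ⊆ S_J ∩ [1, K]` (the `S_j` increase),
so `#(T ∩ [1,K]) ≤ K/(log K)^J`; for `K ≥ K_B` this is `≤ K/(log K)^B`, for `K < K_B` use a constant.  If `k ≥ K_j` and
`k ∈ S_j`, then `k ∈ S_i ⊆ T` for the `i ≥ j` with `K_i ≤ k < K_(i+1)`. -/
def tsY14 : Prop := ∀ S : ℕ → Set ℕ, (∀ j, S j ⊆ S (j + 1)) →
  (∀ j B : ℕ, ∃ C : ℝ, ∀ K : ℕ, 2 ≤ K → (Set.ncard {k : ℕ | k ∈ S j ∧ 1 ≤ k ∧ k ≤ K} : ℝ) ≤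
    C * K / Real.log K ^ B) →
  ∃ T : Set ℕ, (∀ B : ℕ, ∃ C : ℝ, ∀ K : ℕ, 2 ≤ K →
    (Set.ncard {k : ℕ | k ∈ T ∧ 1 ≤ k ∧ k ≤ K} : ℝ) ≤ C * K / Real.log K ^ B) ∧
  ∀ j, ∃ k₀ : ℕ, ∀ k : ℕ, k₀ ≤ k → k ∈ S j → k ∈ T

end Pool.Agent.Work.MP_122e00_nt.TS
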