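import Mathlib
import Pool.Agent.Work.MP_122e00_nt.TS.Stmts9

/-!
# All powers, part 10: exceptional sets with a power saving

The main term of part 9 is evaluated for EVERY shift, so that the only exceptions are those of the second
moment (Y1), which has a power saving.

Every docstring is a complete proof.  Earlier items are hypotheses.
-/

namespace Pool.Agent.Work.MP_122e00_nt.TS

open Finset Filter Topology ArithmeticFunction MeasureTheory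
open scoped ArithmeticFunction.zeta ArithmeticFunction.Moebius

/-- the bound for the coefficients of `E q` -/
noncomputable def be (r q : ℕ) : ℝ :=
  (q.divisors.card : ℝ) * dr r q * (1 + Real.log q) ^ r / (Nat.totient q : ℝ)

/-- `log log (h + 16)`, at least `1` -/
noncomputable def ll (h : ℕ) : ℝ := Real.log (Real.log ((h : ℝ) + 16))

/-- Z1 (EASY-MEDIUM; uses E1, E4; model: `TS/I_E5.lean`): sharper bound for the coefficients.  PROOF.  `q = 1`: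
finitely many coefficients, `be r 1 = 1`.  `q ≥ 2`: `c`, `C` of AP, `K = max 2 ((C+1)/c)`, `A = K log q ≥ 1`,
`t ∈ [A, 2A]`, `x = e^t`, so `q^C x^(-c) ≤ 1/q`.  Sum AP over the `φ(q)` reduced `a` mod `q`; by E1
`∑_a SS (dr r) ⌊x⌋ (a/q) = ∑_{n ≤ x} dr r n Gh n q`, `|Gh n q| ≤ ∑_{g ∣ q, g ∣ n} g` (`Gh = μ * Fh`),
`∑_{n ≤ x, g ∣ n} dr r n ≤ dr r g ∑_{m ≤ x/g} dr r m ≤ dr r g (x/g) (1+log x)^(r-1)`.  So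
`|(E q)(t)| ≤ (1/φ(q)) ∑_{g ∣ q} dr r g (1+log x)^(r-1) + C/q ≤ C' be r q` (`dr r g ≤ dr r q`, `log x ≤ 2K log q`).  E4. -/
def tsZ1 : Prop := ∀ (r : ℕ) (E : ℕ → Polynomial ℝ), 1 ≤ r → AP r E → ∃ C : ℝ, 0 < C ∧
  ∀ q j : ℕ, 1 ≤ q → |(E q).coeff j| ≤ C * be r q

/-- Z2 (MEDIUM; uses N1): a divisor sum which is small for EVERY `h`.  PROOF.  `L = log(h+16)`, `ll h = log L ≥ 1`,
`δ = 1/(2 ll h) ≤ 1/2`.  `(1+u)^(2r) ≤ (2r)! δ^(-2r) e^(δ(1+u))` with `u = log g` gives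
`(1+log g)^(2r) ≤ C (ll h)^(2r) g^δ`.  `∑_{g ∣ h} d(g)^A (g/φ(g))² g^(δ-1) ≤ ∏_{p ∣ h} (1 + ∑_{k ≥ 1} 4 (k+1)^A p^(-k(1-δ)))
≤ exp (C_A ∑_{p ∣ h} p^(δ-1))` (`p^(-(k-1)(1-δ)) ≤ 2^(-(k-1)/2)`; the function is multiplicative, its sum over the
divisors too).  The `p ≤ L`: `p^δ ≤ L^δ = e^(1/2) ≤ 2`, so `≤ 2 ∑_{p ≤ L} 1/p ≤ 2 (log (ll h) + C)` (N1).  The `p > L`: at
most `log h/log L ≤ L` of them, each `p^(δ-1) ≤ 2/L`, so `≤ 2`.  Total `≤ C (ll h)^(2r + 2C_A)`. -/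
def tsZ2 : Prop := ∀ A r : ℕ, ∃ C : ℝ, 0 < C ∧ ∀ h : ℕ, 1 ≤ h →
  ∑ g ∈ h.divisors, (g.divisors.card : ℝ) ^ A * ((g : ℝ) / (Nat.totient g : ℝ)) ^ 2 *
    (1 + Real.log g) ^ (2 * r) / (g : ℝ) ≤ C * ll h ^ C

/-- Z3 (EASY-MEDIUM; uses Z2): the sum of the error terms.  PROOF.  `|Gh h q| ≤ ∑_{g ∣ q, g ∣ h} g`;
`dr r q ≤ d(q)^(r-1)`, so `(be r q)² ≤ w(q)/q²`, `w(q) = d(q)^(2r) (q/φ(q))² (1+log q)^(2r)`, and `w(g m) ≤ w(g) w(m)`.  So the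
sum is `≤ ∑_{g ∣ h} g ∑_m w(g m)/(g m)² ≤ (∑_{g ∣ h} w(g)/g) (∑_m w(m)/m²)`, the last sum converges; Z2 with `A = 2r`. -/
def tsZ3 : Prop := ∀ r : ℕ, 1 ≤ r → ∃ C : ℝ, 0 < C ∧ ∀ h Q : ℕ, 1 ≤ h →
  ∑ q ∈ Finset.Icc 1 Q, |Gh h q| * be r q ^ 2 ≤ C * ll h ^ C

/-- Z4 (EASY-MEDIUM; model: `TS/I_Y5.lean`): the integral for one `q`, general bound.  PROOF.  Word for word
Y5, with `β` in place of `C q^(-3/4)` and `(E q).coeff (r-1)` in place of `rho (r-1) q/(r-1)!`. -/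
def tsZ4 : Prop := ∀ r : ℕ, 2 ≤ r → ∃ C : ℝ, 0 < C ∧ ∀ (E : ℕ → Polynomial ℝ) (β X z w : ℝ) (q : ℕ),
  (E q).natDegree ≤ r - 1 → (∀ j, |(E q).coeff j| ≤ β) → 3 ≤ X → 1 ≤ w → w ≤ X →
  |(∫ t in (1 : ℝ)..X, (ed (Eu E z w q)).eval (Real.log t) * (ed (E q)).eval (Real.log t)) -
    jw r X z w * (E q).coeff (r - 1) ^ 2 * X * Real.log X ^ (2 * r - 2)| ≤
  C * β ^ 2 * pw z w * X * Real.log X ^ (2 * r - 3)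

/-- Z5 (EASY; uses N14, Y4, Z1, Z3, Z4; model: `TS/I_Y6.lean`): the main term for every shift.  PROOF.  As Y6
with Z4 (`β = C be r q`, Z1) and Z3 in place of Y5 and the first part of Y4. -/
def tsZ5 : Prop := ∀ (r : ℕ) (E : ℕ → Polynomial ℝ), 2 ≤ r → AP r E → CB E → ∃ C : ℝ, 0 < C ∧
  ∀ (X z w : ℝ) (Q h : ℕ), 3 ≤ X → 1 ≤ w → w ≤ X → 1 ≤ h →
  |(∑ q ∈ Finset.Icc 1 Q, Gh h q *
    ∫ t in (1 : ℝ)..X, (ed (Eu E z w q)).eval (Real.log t) * (ed (E q)).eval (Real.log t)) -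
    jw r X z w * lc r h * X * Real.log X ^ (2 * r - 2)| ≤
  C * pw z w * X * Real.log X ^ (2 * r - 2) *
    (ll h ^ C / Real.log X + ta h * ((Q : ℝ) + 1) ^ (-(1 / 8) : ℝ))

/-- Z6 (EASY-MEDIUM; uses L0, K5, N13, N14, N16, Y3, Z5; model: `TS/I_Y10.lean`): the formula for one shift,
without condition on `ta h`.  PROOF.  As Y10 with Z5 in place of Y6: `ll h^C/log X → 0` uniformly for `h ≤ X`,
`ta h ≤ number of divisors ≤ C X^(η₂/16)` (L0 with `r = 2`, or the divisor bound), `(Q+1)^(-1/8) ≤ X^(-η₂/8)`. -/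
def tsZ6 : Prop := ∀ (r : ℕ) (E : ℕ → Polynomial ℝ), 2 ≤ r → AP r E → CB E → ∀ θw θ' η : ℝ,
  0 < θw → θw ≤ 1 / 4 → 0 < θ' → θ' < 1 → 0 < η → ∃ ε₂ η₁ : ℝ, 0 < ε₂ ∧ ε₂ < θw ∧ 0 < η₁ ∧
  ∀ η₂ δ₄ : ℝ, 0 < η₂ → η₂ ≤ η₁ → 0 < δ₄ → ∃ X0 : ℝ, ∀ (X : ℝ) (h : ℕ), X0 ≤ X → 1 ≤ h →
  (h : ℝ) ≤ X ^ θ' →
  |cor (fu r E (X ^ ε₂) (X ^ θw) ⌊X ^ η₂⌋₊) (dr r) ⌊X⌋₊ h| ≤ X ^ (1 - δ₄) → Gx r η X h

open Classical in
/-- Z7 (EASY-MEDIUM; uses H2, K17, Y1, Z6; model: `TS/I_Y11.lean`): few exceptions for fixed `X`.  PROOF.  As Y11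
with Z6 in place of Y10; the only exceptional `k` are those with `|cor (fu) (dr)| > X^(1-δ₄)`, `δ₄ = δ''/4`: at most
`K X^(-δ''/2)`. -/
def tsZ7 : Prop := ∀ (r : ℕ) (E : ℕ → Polynomial ℝ), 2 ≤ r → AP r E → CB E →
  ∀ (F : Polynomial ℤ) (A : ℕ), 1 ≤ F.natDegree → 0 < F.leadingCoeff →
  (∀ k : ℕ, A < k → 1 ≤ F.eval (k : ℤ)) → ∀ θa θ η : ℝ, 0 < θa → θa < θ → θ < 1 →
  0 < η → ∃ δ X0 : ℝ, 0 < δ ∧ ∀ (X : ℝ) (K : ℕ), X0 ≤ X → X ^ θa ≤ (K : ℝ) ^ F.natDegree →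
  (K : ℝ) ^ F.natDegree ≤ X ^ θ →
  (((Finset.Ioc A K).filter (fun k => ¬ Gx r η X (fv F k))).card : ℝ) ≤ K * X ^ (-δ)

/-- Z8 (EASY-MEDIUM; uses H2, Z7; model: `TS/I_Y12.lean`): all `X` at once.  PROOF.  As Y12 with Z7 in place of Y11:
`≤ (C₁ log K + 1) K (X_i)^(-δ) ≤ (C₁ log K + 1) K^(1-δ) ≤ K^(1-δ/2)` (`X_i ≥ K`); `δ' = min (δ/2) (1/2)`. -/
def tsZ8 : Prop := ∀ (r : ℕ) (E : ℕ → Polynomial ℝ), 2 ≤ r → AP r E → CB E → ∀ F : Polynomial ℤ,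
  1 ≤ F.natDegree → 0 < F.leadingCoeff → ∀ a b η : ℝ, 0 < a → a < b → b < 1 → 0 < η →
  ∃ δ' K0 : ℝ, 0 < δ' ∧ δ' < 1 ∧ ∀ K : ℕ, K0 ≤ (K : ℝ) →
  (Set.ncard {k : ℕ | Bad r F a b η k ∧ K < 2 * k ∧ k ≤ K} : ℝ) ≤ (K : ℝ) ^ (1 - δ')

end Pool.Agent.Work.MP_122e00_nt.TS
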