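import Mathlib
import Pool.Agent.Work.MP_122e00_nt.TS.Stmts10

/-!
# Very short scales, part 11: shifts down to a power of `log X`, first half

In parts 7-10 the scale of the shifts was a power of `X`; now it is `H` with `(log X)^A₀ ≤ H ≤ X^θ`, and all
savings are powers `H^(-δ)`.  `z = H^ε₂`, `w = H^(1/4)`, `Q = ⌊H^η₂⌋`, windows `L ∈ [H^(3/4), H]`.  Pointwise divisor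
bounds `X^ε` may be used only where a power of `X` is saved; everywhere else they are replaced by second
moments (items X1-X3), which lose powers of `log X ≤ H^(1/A₀)`.

Every docstring is a complete proof.  Earlier items are hypotheses.
-/

namespace Pool.Agent.Work.MP_122e00_nt.TS

open Finset Filter Topology ArithmeticFunction MeasureTheory
open scoped ArithmeticFunction.zeta ArithmeticFunction.Moebius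

/-- block of length about `X H^(-δ₁)` above `X H^(-δ₁/2)` -/
def Bh (X H δ₁ : ℝ) (a b : ℕ) : Prop := X * H ^ (-(δ₁ / 2)) ≤ (a : ℝ) ∧ (b : ℝ) ≤ 3 * X ∧
  (a : ℝ) + X * H ^ (-δ₁) / 2 ≤ b ∧ (b : ℝ) ≤ a + X * H ^ (-δ₁)

/-- X1 (MEDIUM): divisor functions in short intervals.  PROOF.  `R = 1`: the sum is `b - a`.  `R ≥ 2`, `n ≤ 3X`:
in every factorisation `n = d_1 ⋯ d_R` some `d_i ≥ n^(1/R)`, so `d_R(n) ≤ R ∑_{m ∣ n, m ≤ Y} d_(R-1)(m)`,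
`Y = (3X)^(1-1/R)`.  Sum over `n ∈ (a, b]`: `≤ R ∑_{m ≤ Y} d_(R-1)(m) ((b-a)/m + 1) ≤
R (b-a) (1+log Y)^(R-1) + R Y (1+log Y)^(R-1)`, and `Y ≤ 3 X^(1-δs) ≤ 3 (b-a)`, `δs = 1/(2R)`. -/
def tsX1 : Prop := ∀ R : ℕ, 1 ≤ R → ∃ δs C : ℝ, 0 < δs ∧ 0 < C ∧ ∀ (X : ℝ) (a b : ℕ), 3 ≤ X → a ≤ b →
  (b : ℝ) ≤ 3 * X → X ^ (1 - δs) ≤ (b : ℝ) - a →
  ∑ n ∈ Finset.Ioc a b, dr R n ≤ C * ((b : ℝ) - a) * Real.log X ^ C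

/-- X2 (EASY-MEDIUM): products of divisor functions.  PROOF.  All functions are multiplicative; for `n = p^k`:
`C(k+r-1, r-1) C(k+s-1, s-1) ≤ C(k+rs-1, rs-1)`.  (Or directly: to factorisations `n = a_1 ⋯ a_r = b_1 ⋯ b_s`
associate a factorisation in `r s` factors `c_(ij)` with `∏_j c_(ij) = a_i`, `∏_i c_(ij) = b_j`; it determines both.)
Third part: `up r z w n = ∑_{p ∣ n, p ∈ PW} d_r(n/p) ≤ ∑_{m ∣ n} d_r(m) = d_(r+1)(n)`. -/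
def tsX2 : Prop := (∀ r s n : ℕ, 1 ≤ r → 1 ≤ s → dr r n * dr s n ≤ dr (r * s) n) ∧
  (∀ r N : ℕ, 1 ≤ r → 1 ≤ N → ∑ n ∈ Finset.Icc 1 N, dr r n ≤ N * (1 + Real.log N) ^ (r - 1)) ∧
  ∀ (r n : ℕ) (z w : ℝ), 1 ≤ n → 0 ≤ up r z w n ∧ up r z w n ≤ dr (r + 1) n

/-- X3 (EASY-MEDIUM; uses K5, X1, X2): second moments in short intervals.  PROOF.  `R = (r+1)²` resp. `R = 4` in X1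
(`δs` the smaller one): `up² ≤ dr (r+1)² ≤ dr R` (X2).  `|fs (Eu E z w) Q n| ≤ ∑_{q ≤ Q} |Gh n q| |(ed (Eu E z w q))(log n)|
≤ C (log X)^C ∑_{q ≤ Q} |Gh n q| q^(ε/2-1)` (K5), `|Gh n q| ≤ ∑_{g ∣ q, g ∣ n} g`, so the last sum is
`≤ Q^(ε/2) ∑_{g ∣ n} g ∑_{m ≤ Q/g} 1/(g m) ≤ Q^(ε/2) (1+log Q) d(n)`; and `d(n)² = dr 2 n ^ 2 ≤ dr 4 n`. -/
def tsX3 : Prop := ∀ (r : ℕ) (E : ℕ → Polynomial ℝ), 1 ≤ r → (∀ q, (E q).natDegree ≤ r - 1) → CB E →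
  ∃ δs : ℝ, 0 < δs ∧ ∀ ε : ℝ, 0 < ε → ∃ C : ℝ, 0 < C ∧ ∀ (X z w : ℝ) (Q a b : ℕ), 3 ≤ X → 1 ≤ w →
  w ≤ X → (Q : ℝ) ≤ X → a ≤ b → (b : ℝ) ≤ 3 * X → X ^ (1 - δs) ≤ (b : ℝ) - a →
  ∑ n ∈ Finset.Ioc a b, up r z w n ^ 2 ≤ C * ((b : ℝ) - a) * Real.log X ^ C ∧
  ∑ n ∈ Finset.Ioc a b, dr r n ^ 2 ≤ C * ((b : ℝ) - a) * Real.log X ^ C ∧
  ∑ n ∈ Finset.Ioc a b, fs (Eu E z w) Q n ^ 2 ≤ C * ((b : ℝ) - a) * Real.log X ^ C * (Q : ℝ) ^ ε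

/-- X4 (HARD; uses P3, K1, K2, X2; model: `TS/I_K3.lean`): the key estimate at the scale `H`.  PROOF.  `P(t)`,
`R(t)`, `om` as in K3; `‖P‖ ≤ A`, `‖R‖ ≤ ∑_{m ≤ M} d_r(m) ≤ M (1+log X)^(r-1)`, `∑_{m ≤ M} d_r(m)² ≤ M (1+log X)^(r²-1)` (X2),
`A M ≤ 6X`, `6 ≤ A` so `M ≤ X`.  `δ₆ = δ₅/4`, `δ'` that of K2 for `δ₆`.
(1) `|t| ≤ X^δ₆`: `≤ 2 X^δ₆ · 4π² η⁴ X^(2δ₆) · 36 X² (1+log X)^(2r) ≤ η² X^(2-δ₅)`.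
(3) `|t| ≥ X^5`: `≤ η² X^(3/2)` as in K3.
(2) `X^δ₆ ≤ |t| ≤ X^5`: `‖R‖ ≤ M X^(-δ')` (K2, `q ≤ H^δw ≤ X^δ'`).  `k = ⌈log X/log A⌉`, so `A^k ≥ X`,
`k ≤ 2 log X/log A ≤ 2 log X/(ε₂ A₀ log log X)`; `λ = X^(-δ'/(2k))`, `λ² ≤ A^(-δ'/2) ≤ H^(-ε₂δ'/2)`.  As in K3
`‖P‖² ‖R‖² ≤ A² λ² ‖R‖² + A² M² X^(-2δ') (‖P‖/(A λ))^(2k)`.  First term, K1 with `g = d_r` on the class: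
`A² λ² · 8η(1+ηM) M (1+log X)^(r²) ≤ 400 λ² η² X² (1+log X)^(r²)` (`A ≤ η X`).  Second term: `P^k` has coefficients
`g_n ≤ k!`, `∑ g_n ≤ A^k`, length `(2A)^k`, and K1 gives `8η(1+η(2A)^k) k! A^k ≤ 16 η² 2^k A^(2k) k!` (`η (2A)^k ≥ η X ≥ 1`), so
it is `≤ 600 X² η² X^(-2δ'+δ') 2^k k! ≤ η² X^(2-δ'/2)`, because `k log(2k) ≤ 2 k log log X ≤ 4 log X/(ε₂ A₀) ≤ (δ'/4) log X` for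
`A₀ ≥ 16/(ε₂ δ')`.  `δw = min (min δ' δ₅) (ε₂ δ')/8` and `A₀` so large that the powers of `log X` are `≤ H^δw`. -/
def tsX4 : Prop := ∀ (r : ℕ) (ε₂ δ₅ : ℝ), 1 ≤ r → 0 < ε₂ → ε₂ ≤ 1 / 4 → 0 < δ₅ → δ₅ ≤ 1 / 20 →
  ∃ δw A₀ X0 : ℝ, 0 < δw ∧ ∀ (X H η : ℝ) (A A' q ρ σ M : ℕ), X0 ≤ X → Real.log X ^ A₀ ≤ H →
  H ≤ X → H ^ ε₂ ≤ A → A ≤ A' → A' ≤ 2 * A → 1 ≤ q → (q : ℝ) ≤ H ^ δw → X ^ (2 / 3 : ℝ) ≤ M →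
  (M : ℝ) ≤ 6 * X / A → (A : ℝ) ≤ η * X → η ≤ X ^ (-δ₅) →
  ∫ u : ℝ, ‖∑ p ∈ ((Finset.Ioc A A').filter (fun a => a.Prime ∧ a % q = ρ % q)) ×ˢ
      ((Finset.Icc 1 M).filter (fun m => m % q = σ % q)),
    (dr r p.2 : ℂ) * ((psi η (u - Real.log ((p.1 : ℝ) * p.2)) : ℝ) : ℂ)‖ ^ 2 ≤
  η ^ 2 * X ^ (2 : ℕ) * H ^ (-δw)

/-- X5 (MEDIUM; model: `TS/I_P5.lean`): P5 with the second moment of the coefficients.  PROOF.  As P5: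
`Δ(x) - V(log x')` is a sum of `± c n` over the integers `n` between `x' e^(-η)` and `x - ℓ` and between
`x' e^(-2η)` and `x - 2ℓ` (at most `g = 30 (1 + ℓ(b-a)/a + ℓ²/a)` integers, all within distance `g` of `x - ℓ` resp.
`x - 2ℓ`, all in `(a - 2ℓ, b]`: `x' e^(-2η) ≥ x (1-2ℓ/a) ≥ (a+2ℓ)(1-2ℓ/a) ≥ a - 2ℓ`).  Cauchy:
`‖Δ(x) - V(log x')‖² ≤ 2g ∑_n ‖c n‖²` over these `n`, and every `n` occurs for at most `2(2g+1)` values `x`. -/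
def tsX5 : Prop := ∃ C : ℝ, 0 < C ∧ ∀ (c : ℕ → ℂ) (a b ℓ N : ℕ), 1 ≤ ℓ → 2 * ℓ ≤ a → a ≤ b →
  b ≤ 2 * a → b ≤ N →
  ∑ x ∈ Finset.Icc (a + 2 * ℓ) b, ‖∑ n ∈ Finset.Ioc (x - ℓ) x, c n -
    ∑ n ∈ Finset.Ioc (x - 2 * ℓ) (x - ℓ), c n‖ ^ 2 ≤
  8 * b * (∫ u : ℝ, ‖∑ n ∈ Finset.Icc 1 N, c n * ((psi ((ℓ : ℝ) / a) (u - Real.log n) : ℝ) : ℂ)‖ ^ 2) +
    C * (1 + ℓ * ((b : ℝ) - a) / a + (ℓ : ℝ) ^ 2 / a) ^ 2 * ∑ n ∈ Finset.Ioc (a - 2 * ℓ) b, ‖c n‖ ^ 2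

/-- X6 (MEDIUM-HARD; uses X1, X2, X4, X5; model: `TS/I_K4.lean`): adjacent windows of `u`.  PROOF.  As K4.
`z = H^ε₂`, `w = H^(1/4)`; `δw` of X4 for `ε₂/2`, `δ₅/2`; `δm = min (min (δw/32) (δ₅/4)) (δs/2)`, `δs` of X1 for
`R = (r+1)²`.  `η = ℓ/a ≤ X^(-δ₅) H^(δ₁/2) ≤ X^(-δ₅/2)`.  Ranges `(A_i, A_(i+1)]`, `A_0 = ⌊z⌋ ≥ H^(ε₂/2)`, `I ≤ 2 log X`,
`M_i = ⌊6X/A_i⌋ ≥ X^(2/3)`; `A_i ≤ H^(1/4) ≤ ℓ/3 ≤ η X`.  `c_n`, `V` as in K4, `N = ⌊24X⌋`.  X5.  First term: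
`8b ∫ ‖V‖² ≤ 24 X (q² I)² η² X² H^(-δw) ≤ C X (log X)² H^(4δm) ℓ² H^δ₁ H^(-δw)` (`X²/a² ≤ H^δ₁`)
`≤ ℓ² X H^(-δ₁-δ₁/20)`.  Second term: `c n = u(n) ee(n b'/q)` for `n ≤ b ≤ 3X`, so
`∑_{(a-2ℓ, b]} ‖c n‖² ≤ C X H^(-δ₁) (log X)^C` (X1, X2; the length is between `X H^(-δ₁)/2 ≥ X^(1-δs)` and `2 X H^(-δ₁)`);
`ℓ(b-a)/a ≤ ℓ H^(-δ₁/2)`, `ℓ²/a ≤ ℓ X^(-δ₅) H^(δ₁/2) ≤ ℓ H^(-δ₁/2)`, `1 ≤ ℓ H^(-δ₁/2)`: `≤ C ℓ² H^(-δ₁) X H^(-δ₁) (log X)^C`. -/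
def tsX6 : Prop := ∀ (r : ℕ) (ε₂ δ₅ : ℝ), 1 ≤ r → 0 < ε₂ → ε₂ < 1 / 4 → 0 < δ₅ → δ₅ ≤ 1 / 20 →
  ∃ δm : ℝ, 0 < δm ∧ ∀ δ₁ : ℝ, 0 < δ₁ → δ₁ ≤ δm → ∃ A₀ X0 : ℝ, ∀ X H : ℝ, X0 ≤ X →
  Real.log X ^ A₀ ≤ H → H ≤ X → ∀ a b : ℕ, Bh X H δ₁ a b → ∀ (ℓ q : ℕ) (b' : ℤ),
  H ^ (1 / 2 : ℝ) ≤ ℓ → (ℓ : ℝ) ≤ X ^ (1 - δ₅) → 1 ≤ q → (q : ℝ) ≤ H ^ δm →
  ∑ x ∈ Finset.Icc (a + 2 * ℓ) b, ‖ws (up r (H ^ ε₂) (H ^ (1 / 4 : ℝ))) (b' / q) ℓ x -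
    ws (up r (H ^ ε₂) (H ^ (1 / 4 : ℝ))) (b' / q) ℓ (x - ℓ)‖ ^ 2 ≤
  (ℓ : ℝ) ^ 2 * X * H ^ (-δ₁ - δ₁ / 40)

/-- X7 (EASY-MEDIUM; uses K5; model: `TS/I_K6.lean`): the mean of `u(n) e(a n/q)`.  PROOF.  Word for word K6: only
`q ≤ z < p`, `w ≤ X^(1/4)` are used. -/
def tsX7 : Prop := ∀ (r : ℕ) (E : ℕ → Polynomial ℝ), 1 ≤ r → AP r E → CB E → ∃ c C X0 : ℝ, 0 < c ∧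
  c ≤ 1 / 4 ∧ 0 < C ∧ ∀ (X x z w : ℝ) (q : ℕ) (a : ℤ), X0 ≤ X → X ^ (1 / 2 : ℝ) ≤ x → x ≤ 3 * X →
  1 ≤ w → w ≤ X ^ (1 / 4 : ℝ) → 1 ≤ q → (q : ℝ) ≤ z → IsCoprime a (q : ℤ) →
  ‖SS (up r z w) ⌊x⌋₊ (a / q) - ((x * (Eu E z w q).eval (Real.log x) : ℝ) : ℂ)‖ ≤
    C * (q : ℝ) ^ C * X ^ (1 - c)

/-- X8 (MEDIUM-HARD; uses K5, K7, X6, X7; model: `TS/I_K8.lean`): windows of `u` at rational frequencies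
against the main term.  PROOF.  As K8: `c`, `C` of X7, `δ₅ = min (c/4) (min ((1-θ₂)/2) (1/20))`, `δm` = minimum of
that of X6, `c/(4C)`, `δ₅/4`, `ε₂/2`.  `L_j = 2^j L` up to `X^(1-δ₅)/2 < L_J ≤ X^(1-δ₅)`, `J ≤ 2 log X + 1`; X6 with
`ℓ = L_j ≥ H^(1/2)`: `∑_{x ∈ [a+L_J, b]} ‖W_0 - W_J‖² ≤ J² X H^(-δ₁-δ₁/40)`, `J² ≤ H^(δ₁/400)`.  X7 at `x`, `x - L_J`
(`q ≤ H^δm ≤ H^ε₂`): `‖W_J(x) - p(log x)‖ ≤ C' (X^(Cδm-c+δ₅) + (1+log 3X)^(2r+1) X^(-δ₅) H^(δ₁/2)) ≤ X^(-δ₅/4) ≤ H^(-δ₅/4)`,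
`p = ed (Eu E z w q)`, squared and summed over `≤ 2 X H^(-δ₁)` values; the `x ∈ [a+L, a+L_J)` trivially with K7
(`(L C X^ε)²` for `X^(1-δ₅)` values, `ε = δ₅/8`: `≤ C² L² X X^(-3δ₅/4) ≤ L² X H^(-δ₅/2)`, `δ₁ ≤ δ₅/4`). -/
def tsX8 : Prop := ∀ (r : ℕ) (E : ℕ → Polynomial ℝ), 1 ≤ r → AP r E → CB E → ∀ ε₂ θ₂ : ℝ,
  0 < ε₂ → ε₂ < 1 / 4 → 0 < θ₂ → θ₂ < 1 → ∃ δm : ℝ, 0 < δm ∧ ∀ δ₁ : ℝ, 0 < δ₁ → δ₁ ≤ δm →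
  ∃ A₀ X0 : ℝ, ∀ X H : ℝ, X0 ≤ X → Real.log X ^ A₀ ≤ H → H ≤ X ^ θ₂ → ∀ a b : ℕ, Bh X H δ₁ a b →
  ∀ (L q : ℕ) (b' : ℤ), H ^ (1 / 2 : ℝ) ≤ L → (L : ℝ) ≤ H → 1 ≤ q → (q : ℝ) ≤ H ^ δm →
  IsCoprime b' (q : ℤ) →
  ∑ x ∈ Finset.Icc (a + L) b, ‖ws (up r (H ^ ε₂) (H ^ (1 / 4 : ℝ))) (b' / q) L x -
    ((L * (ed (Eu E (H ^ ε₂) (H ^ (1 / 4 : ℝ)) q)).eval (Real.log x) : ℝ) : ℂ)‖ ^ 2 ≤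
  (L : ℝ) ^ 2 * X * H ^ (-δ₁ - δ₁ / 60)

/-- X9 (EASY-MEDIUM; uses E1, F1, F2; model: `TS/I_K9.lean`): windows of a model at rational frequencies.
PROOF.  As K9: for non-integral `φ` the total is `≤ 2 V q Q³ ≤ C M (1+log 3X)^(2r) H^(1/8) ≤ M L H^(-1/4)`; for
integral `φ` the error is `≤ L · C M (1+log 3X)^r L/(x-L)`, `L/(x-L) ≤ 2 X^(-3(1-θ₂)/4) ≤ 2 H^(-3(1-θ₂)/4)`.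
`δ = (1-θ₂)/4`. -/
def tsX9 : Prop := ∀ (r : ℕ) (θ₂ : ℝ), 1 ≤ r → 0 < θ₂ → θ₂ < 1 → ∃ δ A₀ X0 : ℝ, 0 < δ ∧
  ∀ (E' : ℕ → Polynomial ℝ) (M X H : ℝ) (Q x L q : ℕ) (b' : ℤ), X0 ≤ X → Real.log X ^ A₀ ≤ H →
  H ≤ X ^ θ₂ → 0 ≤ M → (∀ s, (E' s).natDegree ≤ r - 1) →
  (∀ s j, 1 ≤ s → |(E' s).coeff j| ≤ M) → (Q : ℝ) ≤ H ^ (1 / 32 : ℝ) →
  X ^ (1 - (1 - θ₂) / 4) ≤ x → (x : ℝ) ≤ 3 * X → H ^ (1 / 2 : ℝ) ≤ L → (L : ℝ) ≤ H → 1 ≤ q →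
  (q : ℝ) ≤ H ^ (1 / 32 : ℝ) → IsCoprime b' (q : ℤ) →
  ‖ws (fs E' Q) (b' / q) L x -
    ((if q ≤ Q then L * (ed (E' q)).eval (Real.log x) else 0 : ℝ) : ℂ)‖ ≤ M * L * H ^ (-δ)

/-- X10 (EASY-MEDIUM; uses K5, X8, X9; model: `TS/I_K10.lean`): windows of `fu` at rational frequencies.
PROOF.  As K10: X8, X9 with `E' = Eu E z w`, `M = C (1+log X)^(r+1)` (K5 with `ε = 1`), and for `q > H^(δ₁/20)`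
K5 with `ε = 1/2`: `|p_q(log x)| ≤ C (1+log 3X)^(2r+1) H^(-δ₁/40)`.  `δm` = minimum of that of X8, `1/32`,
`(1-θ₂)/2`, the `δ` of X9. -/
def tsX10 : Prop := ∀ (r : ℕ) (E : ℕ → Polynomial ℝ), 1 ≤ r → AP r E → CB E → ∀ ε₂ θ₂ : ℝ,
  0 < ε₂ → ε₂ < 1 / 4 → 0 < θ₂ → θ₂ < 1 → ∃ δm : ℝ, 0 < δm ∧ ∀ δ₁ : ℝ, 0 < δ₁ → δ₁ ≤ δm →
  ∃ A₀ X0 : ℝ, ∀ X H : ℝ, X0 ≤ X → Real.log X ^ A₀ ≤ H → H ≤ X ^ θ₂ → ∀ a b : ℕ, Bh X H δ₁ a b →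
  ∀ (L q : ℕ) (b' : ℤ), H ^ (1 / 2 : ℝ) ≤ L → (L : ℝ) ≤ H → 1 ≤ q → (q : ℝ) ≤ H ^ δm →
  IsCoprime b' (q : ℤ) →
  ∑ x ∈ Finset.Icc (a + L) b,
    ‖ws (fu r E (H ^ ε₂) (H ^ (1 / 4 : ℝ)) ⌊H ^ (δ₁ / 20)⌋₊) (b' / q) L x‖ ^ 2 ≤
  (L : ℝ) ^ 2 * X * H ^ (-δ₁ - δ₁ / 70)

/-- X11 (MEDIUM; uses X3, X10; model: `TS/I_K11.lean`): frequencies near a fraction with small denominator.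
PROOF.  `δm` = minimum of that of X10, of `1/24`, of `δs/2` (X3); `L' = ⌊L H^(-3δm)⌋ ≥ H^(1/2)`, `K = ⌊L/L'⌋`,
`τ = γ - b'/q`.  As in K11 the window is the union of `K` windows of length `L'` and a rest of at most `L'`
integers, `|ee((n-x_i)τ) - 1| ≤ 7 H^(-2δm)`.  So `‖ws fu γ L x‖ ≤ ∑_i ‖ws fu (b'/q) L' x_i‖ + 7 H^(-2δm) ∑_{n ∈ (x-L,x]} |fu n| +
∑_{n in the rest} |fu n|`.  Square and sum over `x`: the first part by X10 as in K11; the second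
`≤ 49 H^(-4δm) L² ∑_{n ∈ (a,b]} (fu n)²`, the third `≤ L'² ∑_{n ∈ (a,b]} (fu n)²` (Cauchy), and
`∑_{n ∈ (a,b]} (fu n)² ≤ C X H^(-δ₁) (log X)^C H^(δm/10)` (X3, `fu = up - fs`). -/
def tsX11 : Prop := ∀ (r : ℕ) (E : ℕ → Polynomial ℝ), 1 ≤ r → AP r E → CB E → ∀ ε₂ θ₂ : ℝ,
  0 < ε₂ → ε₂ < 1 / 4 → 0 < θ₂ → θ₂ < 1 → ∃ δm : ℝ, 0 < δm ∧ ∀ δ₁ : ℝ, 0 < δ₁ → δ₁ ≤ δm →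
  ∃ A₀ X0 : ℝ, ∀ X H : ℝ, X0 ≤ X → Real.log X ^ A₀ ≤ H → H ≤ X ^ θ₂ → ∀ a b : ℕ, Bh X H δ₁ a b →
  ∀ (L q : ℕ) (b' : ℤ) (γ : ℝ), H ^ (3 / 4 : ℝ) ≤ L → (L : ℝ) ≤ H → 1 ≤ q → (q : ℝ) ≤ H ^ δm →
  IsCoprime b' (q : ℤ) → |γ - b' / q| ≤ H ^ δm / L →
  ∑ x ∈ Finset.Icc (a + L) b,
    ‖ws (fu r E (H ^ ε₂) (H ^ (1 / 4 : ℝ)) ⌊H ^ (δ₁ / 20)⌋₊) γ L x‖ ^ 2 ≤
  (L : ℝ) ^ 2 * X * H ^ (-δ₁ - δ₁ / 80)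

/-- X12 (EASY-MEDIUM; uses GS, L2; model: `TS/I_K12.lean`): K12 with the second moment of the coefficients.
PROOF.  As V3/K12; in the expanded square use `|B m B m'| ≤ (B m² + B m'²)/2`: for every `j` the pairs
`(m, m+j)`, `m, m+j ≤ Z/A`, contribute at most `∑_m B m²` in place of `D² Z/A`. -/
def tsX12 : Prop := ∃ C : ℝ, 0 < C ∧ ∀ (A A' L q Z : ℕ) (b : ℤ) (γ : ℝ) (B c : ℕ → ℝ), 1 ≤ A →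
  A ≤ A' → A' ≤ 2 * A → A ≤ L → 1 ≤ q → IsCoprime b (q : ℤ) → |γ - b / q| ≤ 1 / (q : ℝ) ^ 2 →
  (∀ m, |c m| ≤ 1) →
  ∑ x ∈ Finset.Icc L Z, ‖ws (fun n => ∑ m ∈ n.divisors.filter
    (fun m => A * m < n ∧ n ≤ A' * m), c (n / m) * B m) γ L x‖ ^ 2 ≤
  C * A * (∑ m ∈ Finset.Icc 1 (Z / A), B m ^ 2) * (L : ℝ) ^ 2 * (1 + Real.log q) *
    (1 / (A : ℝ) + (A : ℝ) / L + 1 / (q : ℝ) + (q : ℝ) / L)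

/-- X13 (EASY-MEDIUM; uses X2, X12; model: `TS/I_K13.lean`): `u` on the minor arcs.  PROOF.  As K13: dyadic
ranges `(A_i, A_(i+1)]` from `⌊z⌋` to `⌊w⌋`, `I ≤ 2 log X`, `c` = indicator function of the primes, `B m = d_r(m)`; X12
with `Z = ⌊3X⌋`, `A_i ∑_{m ≤ 3X/A_i} d_r(m)² ≤ 3X (1+log 3X)^(r²)` (X2), `1/A_i ≤ 2 H^(-ε₂)`, `A_i/L ≤ H^(-1/4)`,
`1/q, q/L ≤ H^(-δ₂)`; the powers of `log X` are `≤ H^δ`, `δ = min (ε₂/4) (min (1/16) (δ₂/4))`. -/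
def tsX13 : Prop := ∀ (r : ℕ) (ε₂ δ₂ : ℝ), 1 ≤ r → 0 < ε₂ → ε₂ < 1 / 4 → 0 < δ₂ → δ₂ ≤ 1 →
  ∃ δ A₀ X0 : ℝ, 0 < δ ∧ ∀ X H : ℝ, X0 ≤ X → Real.log X ^ A₀ ≤ H → H ≤ X →
  ∀ (L q : ℕ) (b : ℤ) (γ : ℝ), H ^ (1 / 2 : ℝ) ≤ L → (L : ℝ) ≤ 3 * X → H ^ δ₂ ≤ q →
  (q : ℝ) ≤ L * H ^ (-δ₂) → IsCoprime b (q : ℤ) → |γ - b / q| ≤ 1 / (q : ℝ) ^ 2 →
  ∑ x ∈ Finset.Icc L ⌊3 * X⌋₊, ‖ws (up r (H ^ ε₂) (H ^ (1 / 4 : ℝ))) γ L x‖ ^ 2 ≤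
    (L : ℝ) ^ 2 * X * H ^ (-δ)

/-- X14 (EASY-MEDIUM; uses E1, F1, F2; model: `TS/I_K14.lean`): windows of a model on the minor arcs.
PROOF.  As K14: total `≤ 4 V q Q³`, `V = C M (1+log 3X)^(2r)`, `q Q³ ≤ L H^(-δ₂+3δ₂/8)`, powers of `log X` are `≤ H^(δ₂/8)`. -/
def tsX14 : Prop := ∀ (r : ℕ) (δ₂ : ℝ), 1 ≤ r → 0 < δ₂ → ∃ A₀ X0 : ℝ,
  ∀ (E' : ℕ → Polynomial ℝ) (M X H γ : ℝ) (Q x L q : ℕ) (b' : ℤ), X0 ≤ X → Real.log X ^ A₀ ≤ H →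
  H ≤ X → 0 ≤ M → (∀ s, (E' s).natDegree ≤ r - 1) → (∀ s j, 1 ≤ s → |(E' s).coeff j| ≤ M) →
  (Q : ℝ) ≤ H ^ (δ₂ / 8) → L ≤ x → (x : ℝ) ≤ 3 * X → H ^ δ₂ ≤ q → (q : ℝ) ≤ L * H ^ (-δ₂) →
  IsCoprime b' (q : ℤ) → |γ - b' / q| ≤ 1 / (q : ℝ) ^ 2 →
  ‖ws (fs E' Q) γ L x‖ ≤ M * L * H ^ (-(δ₂ / 4))

end Pool.Agent.Work.MP_122e00_nt.TS
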