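import Mathlib
import Pool.Agent.Work.MP_122e00_nt.TS.Stmts11

/-!
# Very short scales, part 12: shifts down to a power of `log X`, second half

Every docstring is a complete proof.  Earlier items are hypotheses.
-/

namespace Pool.Agent.Work.MP_122e00_nt.TS

open Finset Filter Topology ArithmeticFunction MeasureTheory
open scoped ArithmeticFunction.zeta ArithmeticFunction.Moebius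

/-- X15 (EASY-MEDIUM; uses K5, X11, X13, X14; model: `TS/I_K15.lean`): one block, all frequencies.  PROOF.
`δm` of X11, `δ₂ = min δm (1/10)`, `δ` of X13 for `δ₂`, `δ₀ = min (min δm (δ/4)) (min (δ₂/8) (min ((1-θ₂)/8) (1/10)))`.
Dirichlet with `Q₁ = ⌊L H^(-δ₂)⌋ ≥ 1`.  `q ≤ H^δ₂`: X11.  `q > H^δ₂`: `fu = up - fs (Eu E z w) Q`,
`‖ws fu‖² ≤ 2‖ws up‖² + 2‖ws (fs …)‖²`; X13 (`[a+L,b] ⊆ [L,⌊3X⌋]`): `L² X H^(-δ) ≤ L² X H^(-4δ₁)`; X14 with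
`M = C (1+log X)^(r+1)` (K5), `Q ≤ H^(δ₁/20) ≤ H^(δ₂/8)`: `2 X H^(-δ₁) M² L² H^(-δ₂/2)`, `δ₂ ≥ 8δ₁`. -/
def tsX15 : Prop := ∀ (r : ℕ) (E : ℕ → Polynomial ℝ), 1 ≤ r → AP r E → CB E → ∀ ε₂ θ₂ : ℝ,
  0 < ε₂ → ε₂ < 1 / 4 → 0 < θ₂ → θ₂ < 1 → ∃ δ₀ : ℝ, 0 < δ₀ ∧ δ₀ ≤ 1 / 10 ∧ δ₀ ≤ (1 - θ₂) / 8 ∧
  ∀ δ₁ : ℝ, 0 < δ₁ → δ₁ ≤ δ₀ → ∃ A₀ X0 : ℝ, ∀ (X H γ : ℝ) (a b L : ℕ), X0 ≤ X →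
  Real.log X ^ A₀ ≤ H → H ≤ X ^ θ₂ → Bh X H δ₁ a b → H ^ (3 / 4 : ℝ) ≤ L → (L : ℝ) ≤ H →
  ∑ x ∈ Finset.Icc (a + L) b,
    ‖ws (fu r E (H ^ ε₂) (H ^ (1 / 4 : ℝ)) ⌊H ^ (δ₁ / 20)⌋₊) γ L x‖ ^ 2 ≤
  (L : ℝ) ^ 2 * X * H ^ (-δ₁ - δ₁ / 80)

/-- X16 (MEDIUM; uses K7, X3, X15; model: `TS/I_K17.lean`): the mean square over short intervals.  PROOF.  As
K17/R10 with `δ₁ = 20 η₂`, `η₀ = (min δ₀ δs)/20` (`δs` of X3), `β = ⌊X H^(-δ₁)⌋`, blocks `(iβ, (i+1)β]`, `i₀` the least `i` with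
`iβ ≥ X H^(-δ₁/2)`.  The good `x` contribute `≤ (2X/β+1) L² X H^(-δ₁-δ₁/80) ≤ 5 L² X H^(-δ₁/80)`.  The `x ≤ i₀ β`:
`∑ ‖wn‖² ≤ L² ∑_{n ≤ i₀β} (fu n)² ≤ L² C X H^(-δ₁/2) (log X)^C H^(δ₁/10)` (Cauchy; X3 with `a = 0`, `b = i₀ β`).  The
`x ∈ (iβ, iβ+L)` and `x ∈ (N, N+L]`: at most `(5 H^δ₁ + 3) L` values, each `≤ (L C X^ε)²` (K7): `≤ C L² H^(1+δ₁) X^(2ε)` and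
`H^(1+2δ₁) ≤ X^(θ₂+2δ₁) ≤ X^(1-(1-θ₂)/2)`, `ε = (1-θ₂)/16`, so `≤ L² X H^(-δ₁)`. -/
def tsX16 : Prop := ∀ (r : ℕ) (E : ℕ → Polynomial ℝ), 1 ≤ r → AP r E → CB E → ∀ ε₂ θ₂ : ℝ,
  0 < ε₂ → ε₂ < 1 / 4 → 0 < θ₂ → θ₂ < 1 → ∃ η₀ : ℝ, 0 < η₀ ∧ ∀ η₂ : ℝ, 0 < η₂ → η₂ ≤ η₀ →
  ∃ δ A₀ X0 : ℝ, 0 < δ ∧ ∀ (X H γ : ℝ) (N L : ℕ), X0 ≤ X → Real.log X ^ A₀ ≤ H → H ≤ X ^ θ₂ →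
  (N : ℝ) ≤ 2 * X → H ^ (3 / 4 : ℝ) ≤ L → (L : ℝ) ≤ H →
  SI (fu r E (H ^ ε₂) (H ^ (1 / 4 : ℝ)) ⌊H ^ η₂⌋₊) N L γ ≤ (L : ℝ) ^ 2 * X * H ^ (-δ)

/-- X17 (MEDIUM; uses Q5, H2, T1, X3; model: `TS/I_Y1.lean`, `TS/I_T2.lean`): the second moment of the error
term.  PROOF.  As Y1/T2.  `d = deg F`, `H = K^d`, `N = ⌊X⌋`, `H' = ⌊X/2⌋`, `κ = Ioc A K`, `δ' = min (δ/8) (1/8)`, `δ₁`, `Γ`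
of T1, `w = K^(1-δ₁)`, `L = ⌊K^(d-δ')/8⌋`, `M = N + H' + L + 1`.  For large `X`: `K` is large (`K^d ≥ (log X)^A₁`, `A₁ ≥ 1`),
`F(k) ≤ C K^d ≤ C X^θ₂ ≤ H'`, `K^(δ'-d) ≤ 1/(8L)`, `H^(3/4) ≤ K^(d-1/8)/16 ≤ L ≤ H`.  The hypothesis gives
`SI (fu …) N L γ ≤ Y = L² X H^(-δ)`.  Q5, first part, `u = fu`, `v = dr`: the sum is at most
`K^(1-δ₁) (∑_{n ≤ N} fu²) (∑_{n ≤ 2X} dr²) + K · 4K^(2δ') · 4 X H^(-δ) ∑_{n ≤ 2X} dr²`.  By X3 (`a = 0`) `∑ fu² ≤ C X (log X)^C H^ε` (`Q ≤ H`), `∑ dr² ≤ C X (log X)^C`.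
`K^(2δ') ≤ H^(δ/4)`, `K^(-δ₁) = H^(-δ₁/d)`.  `δ'' = min (δ/2) (δ₁/(2d))`, `ε = δ''/4`, `A₁` large. -/
def tsX17 : Prop := ∀ (r : ℕ) (E : ℕ → Polynomial ℝ) (ε₂ η₂ δ A₀ X0 θ₂ : ℝ), 2 ≤ r → AP r E → CB E →
  0 < ε₂ → ε₂ < 1 / 4 → 0 < η₂ → η₂ ≤ 1 / 100 → 0 < δ → 0 < θ₂ → θ₂ < 1 →
  (∀ (X H γ : ℝ) (N L : ℕ), X0 ≤ X → Real.log X ^ A₀ ≤ H → H ≤ X ^ θ₂ → (N : ℝ) ≤ 2 * X →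
    H ^ (3 / 4 : ℝ) ≤ L → (L : ℝ) ≤ H →
    SI (fu r E (H ^ ε₂) (H ^ (1 / 4 : ℝ)) ⌊H ^ η₂⌋₊) N L γ ≤ (L : ℝ) ^ 2 * X * H ^ (-δ)) →
  ∀ (F : Polynomial ℤ) (A : ℕ), 1 ≤ F.natDegree → 0 < F.leadingCoeff →
  (∀ k : ℕ, A < k → 1 ≤ F.eval (k : ℤ)) → ∃ δ'' A₁ X1 : ℝ, 0 < δ'' ∧ ∀ (X H : ℝ) (K : ℕ),
  X1 ≤ X → H = (K : ℝ) ^ F.natDegree → Real.log X ^ A₁ ≤ H → H ≤ X ^ θ₂ →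
  ∑ k ∈ Finset.Ioc A K, cor (fu r E (H ^ ε₂) (H ^ (1 / 4 : ℝ)) ⌊H ^ η₂⌋₊) (dr r) ⌊X⌋₊ (fv F k) ^ 2 ≤
    K * X ^ (2 : ℕ) * H ^ (-δ'')

/-- X18 (MEDIUM; uses L0, N1, N9, N10, N11; model: `TS/I_N12.lean`): the uniform upper bound with the window
`(H^ε₂, H^(1/4)]`.  PROOF.  As N12 with `z = H^ε₂`, `w = H^(1/4)`; `A₀ ≥ 1/ε₂ + 2` large.  `ph z w h ≤ (log h/log 2)/z ≤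
2 log X/H^ε₂ ≤ 1`.  (c): `ow z w n ≤ log(3X)/log z ≤ log(3X)/(ε₂ A₀ log log X)`, so `2^ow ≤ X^(1/2000)` for large `X`.  The
right hand side is `≥ C exp (-r pw z w) X`, `pw z w ≤ log (1/(4ε₂)) + C` (N1). -/
def tsX18 : Prop := ∀ r : ℕ, 2 ≤ r → ∃ C : ℝ, 0 < C ∧ ∀ ε₂ : ℝ, 0 < ε₂ → ε₂ < 1 / 4 →
  ∃ A₀ X0 : ℝ, ∀ (X H y : ℝ) (h : ℕ), X0 ≤ X → Real.log X ^ A₀ ≤ H → H ≤ X → 1 ≤ h →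
  (h : ℝ) ≤ X → 1 / 2 ≤ y → y ≤ 2 →
  ∑ n ∈ Finset.Icc 1 ⌊X⌋₊, dr r n * y ^ ow (H ^ ε₂) (H ^ (1 / 4 : ℝ)) n * dr r (n + h) ≤
    C * Real.exp (r * (y - 1) * pw (H ^ ε₂) (H ^ (1 / 4 : ℝ)) + ((r : ℝ) - 1) ^ 2 * Sh h) * X *
      Real.log X ^ (2 * r - 2)

/-- X19 (EASY-MEDIUM; uses X2; model: `TS/I_N15.lean`): `r u(n)` is nearly `ω(n) d_r(n)`.  PROOF.  As in N15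
`|r up n - ow n dr n| ≤ ∑_{p ∈ PW, p² ∣ n} |r dr (n/p) - dr n| ≤ r ν(n) dr n`, `ν(n)` = number of `p ∈ PW` with `p² ∣ n`, `≤ 2 log X`
(`n ≤ X`).  Cauchy: the sum is `≤ r (∑ dr(n)² ν(n)²)^(1/2) (∑_{n ≤ 2X} dr(n)²)^(1/2)`, the second factor `≤ (C X (log X)^C)^(1/2)`
(X2), and `∑ dr(n)² ν(n)² ≤ 2 log X ∑_{p > z} ∑_{n ≤ X, p² ∣ n} dr(n)² ≤ 2 log X ∑_{p > z} dr(p²)² ∑_{m ≤ X/p²} dr(m)²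
≤ C X (log X)^C ∑_{p > z} 1/p² ≤ C X (log X)^C/z` (`dr (p² m) ≤ dr (p²) dr m`, `dr (p²) ≤ r²`).  `z = H^ε₂`. -/
def tsX19 : Prop := ∀ (r : ℕ) (ε₂ : ℝ), 1 ≤ r → 0 < ε₂ → ε₂ < 1 / 4 → ∃ A₀ X0 : ℝ,
  ∀ (X H : ℝ) (h : ℕ), X0 ≤ X → Real.log X ^ A₀ ≤ H → H ≤ X → 1 ≤ h → (h : ℝ) ≤ X →
  ∑ n ∈ Finset.Icc 1 ⌊X⌋₊, |r * up r (H ^ ε₂) (H ^ (1 / 4 : ℝ)) n -
    (ow (H ^ ε₂) (H ^ (1 / 4 : ℝ)) n : ℝ) * dr r n| * dr r (n + h) ≤ X * H ^ (-(ε₂ / 4))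

/-- X20 (EASY-MEDIUM; uses N1, N14, X18, X19; model: `TS/I_N16.lean`): the expected number of window primes.
PROOF.  Word for word N16 with X18, X19 in place of N12, N15 (`J ≥ log (1/(4ε₂)) - C' - r`; the error
`X H^(-ε₂/4)` is `≤ (κ/4) M` for large `X`); `A₀ ≥ 1` so that `H → ∞`. -/
def tsX20 : Prop := ∀ (r : ℕ) (κ : ℝ), 2 ≤ r → 0 < κ → ∃ ε₂ : ℝ, 0 < ε₂ ∧ ε₂ < 1 / 4 ∧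
  ∃ A₀ X0 : ℝ, ∀ (X H : ℝ) (h : ℕ), X0 ≤ X → Real.log X ^ A₀ ≤ H → H ≤ X → 1 ≤ h → (h : ℝ) ≤ X →
  1 ≤ jw r X (H ^ ε₂) (H ^ (1 / 4 : ℝ)) ∧
  |cor (dr r) (dr r) ⌊X⌋₊ h -
    cor (up r (H ^ ε₂) (H ^ (1 / 4 : ℝ))) (dr r) ⌊X⌋₊ h / jw r X (H ^ ε₂) (H ^ (1 / 4 : ℝ))| ≤
    κ * Real.exp (((r : ℝ) - 1) ^ 2 * Sh h) * X * Real.log X ^ (2 * r - 2)

/-- X21 (EASY-MEDIUM; uses L0, K5, N13, N14, X20, Y3, Z5; model: `TS/I_Z6.lean`): the formula for one shift.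
PROOF.  Word for word Z6 with X20 in place of N16: `η₁` = the `η` of Y3 (`Q = ⌊H^η₂⌋ ≤ X^η₁`); `|cor (fu) (dr)|/J ≤
X H^(-δ₄) ≤ (η/16) lc M` for large `X` (`lc` is bounded below, `H → ∞`); Z5: `ta h ≤ number of divisors ≤ C h^(η₂/32) ≤
C H^(η₂/16)` (`h ≤ H²`) and `(Q+1)^(-1/8) ≤ H^(-η₂/8)`. -/
def tsX21 : Prop := ∀ (r : ℕ) (E : ℕ → Polynomial ℝ), 2 ≤ r → AP r E → CB E → ∀ θ' η : ℝ,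
  0 < θ' → θ' < 1 → 0 < η → ∃ ε₂ η₁ : ℝ, 0 < ε₂ ∧ ε₂ < 1 / 4 ∧ 0 < η₁ ∧
  ∀ η₂ δ₄ : ℝ, 0 < η₂ → η₂ ≤ η₁ → 0 < δ₄ → ∃ A₀ X0 : ℝ, ∀ (X H : ℝ) (h : ℕ), X0 ≤ X →
  Real.log X ^ A₀ ≤ H → H ≤ X → 1 ≤ h → (h : ℝ) ≤ X ^ θ' → (h : ℝ) ≤ H ^ (2 : ℕ) →
  |cor (fu r E (H ^ ε₂) (H ^ (1 / 4 : ℝ)) ⌊H ^ η₂⌋₊) (dr r) ⌊X⌋₊ h| ≤ X * H ^ (-δ₄) → Gx r η X h

open Classical in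
/-- X22 (EASY-MEDIUM; uses H2, X16, X17, X21; model: `TS/I_Z7.lean`): few exceptions for fixed `X`.  PROOF.  As Z7.
`d = deg F`, `H = K^d`, `θ' = (1+θ)/2`.  X21 gives `ε₂`, `η₁`; X16 with `θ₂ = θ'` gives `η₀`; `η₂ = min (min η₁ η₀) (1/100)`; X16 and
X17 give `δ''`; `δ₄ = δ''/4`.  For `k ∈ Ioc A K`: `1 ≤ F(k) ≤ C K^d ≤ min (H²) (X^θ')` for large `X` (H2).  The `k` with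
`|cor (fu) (dr)| > X H^(-δ₄)`: at most `K X² H^(-δ'')/(X² H^(-2δ₄)) = K H^(-δ''/2) ≤ K^(1-δ''/2)` (`H ≥ K`); all others satisfy
`Gx`.  `δ = min (δ''/2) (1/2)`. -/
def tsX22 : Prop := ∀ (r : ℕ) (E : ℕ → Polynomial ℝ), 2 ≤ r → AP r E → CB E →
  ∀ (F : Polynomial ℤ) (A : ℕ), 1 ≤ F.natDegree → 0 < F.leadingCoeff →
  (∀ k : ℕ, A < k → 1 ≤ F.eval (k : ℤ)) → ∀ θ η : ℝ, 0 < θ → θ < 1 → 0 < η →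
  ∃ δ A₀ X0 : ℝ, 0 < δ ∧ δ < 1 ∧ ∀ (X : ℝ) (K : ℕ), X0 ≤ X →
  Real.log X ^ A₀ ≤ (K : ℝ) ^ F.natDegree → (K : ℝ) ^ F.natDegree ≤ X ^ θ →
  (((Finset.Ioc A K).filter (fun k => ¬ Gx r η X (fv F k))).card : ℝ) ≤ (K : ℝ) ^ (1 - δ)

/-- `k` is bad (logarithmic range): `F(k) ≤ 0`, or the formula fails for some `X` with
`(log X)^A ≤ F(k) ≤ X^b` -/
def BadL (r : ℕ) (F : Polynomial ℤ) (A b η : ℝ) (k : ℕ) : Prop := ¬ 1 ≤ F.eval (k : ℤ) ∨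
  ∃ X : ℝ, 1 ≤ X ∧ Real.log X ^ A ≤ ((F.eval (k : ℤ) : ℤ) : ℝ) ∧
    ((F.eval (k : ℤ) : ℤ) : ℝ) ≤ X ^ b ∧ ¬ Gx r η X (fv F k)

/-- X23 (MEDIUM; uses H2, X22; model: `TS/I_Z8.lean`, `TS/I_Y12.lean`): all `X` at once.  PROOF.  As Y12/Z8.
`η ≤ 1`, `d = deg F`, `θ = (1+b)/2`, `κ = η/(16r)`, `X_i = (1+κ)^i`; X22 with `θ`, `η/4` gives `δ`, `A₁` (we may take `A₁ ≥ 1`),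
`X0`.  `Aₒ = max (2A₁) (4d/δ)`.  `K` large, `K/2 < k ≤ K`, `h = F(k)`, `c 2^(-d) K^d ≤ h ≤ C K^d`, `(log X)^Aₒ ≤ h ≤ X^b`;
`X_i ≤ X ≤ X_(i+1)`, `Y ∈ {X_i, X_(i+1)}`, `X/2 ≤ Y ≤ 2X`.  `X ≥ h^(1/b)` is large;
`(log Y)^A₁ ≤ (2 log X)^A₁ ≤ 2^A₁ h^(A₁/Aₒ) ≤ 2^A₁ h^(1/2) ≤ K^d`; `Y^θ ≥ (1/2) (c 2^(-d) K^d)^(θ/b) ≥ K^d`;
`log X ≤ h^(1/Aₒ)`, so `i + 1 ≤ 2 + log X/log (1+κ) ≤ C₁ K^(d/Aₒ) ≤ C₁ K^(δ/4)`.  X22 for these values `X_i`: outside a set of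
`≤ C₁ K^(δ/4) K^(1-δ) ≤ K^(1-δ/2)` integers `k`, `Gx r (η/4) Y h` for all of them, and then `Gx r η X h` as in Y12. -/
def tsX23 : Prop := ∀ (r : ℕ) (E : ℕ → Polynomial ℝ), 2 ≤ r → AP r E → CB E → ∀ F : Polynomial ℤ,
  1 ≤ F.natDegree → 0 < F.leadingCoeff → ∀ b η : ℝ, 0 < b → b < 1 → 0 < η →
  ∃ A δ' K0 : ℝ, 0 < A ∧ 0 < δ' ∧ δ' < 1 ∧ ∀ K : ℕ, K0 ≤ (K : ℝ) →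
  (Set.ncard {k : ℕ | BadL r F A b η k ∧ K < 2 * k ∧ k ≤ K} : ℝ) ≤ (K : ℝ) ^ (1 - δ')

end Pool.Agent.Work.MP_122e00_nt.TS
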