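import Pool.Agent.Work.MP_122e00_nt.TS.Stmts8

/-!
Item N15 of block TS: `r u(n)` is nearly `ω(n) d_r(n)`.
-/

set_option autoImplicit false

namespace Pool.Agent.Work.MP_122e00_nt.TS

open Finset Filter Topology ArithmeticFunction MeasureTheory
open scoped ArithmeticFunction.zeta ArithmeticFunction.Moebius

namespace IN15

theorem dr_nonneg (r n : ℕ) : 0 ≤ dr r n := Nat.cast_nonneg _

theorem dr_mul (r a b : ℕ) (hab : Nat.Coprime a b) : dr r (a * b) = dr r a * dr r b := by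
  have hm : ((ζ : ArithmeticFunction ℕ) ^ r).IsMultiplicative := isMultiplicative_zeta.pow
  unfold dr
  rw [hm.map_mul_of_coprime hab, Nat.cast_mul]

theorem zeta_pow_prime (r p : ℕ) (hp : p.Prime) : ((ζ : ArithmeticFunction ℕ) ^ r) p = r := by
  induction r with
  | zero =>
    rw [pow_zero, ArithmeticFunction.one_apply_ne hp.one_lt.ne']
  | succ r ih =>
    have hm : ((ζ : ArithmeticFunction ℕ) ^ r).IsMultiplicative := isMultiplicative_zeta.pow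
    rw [pow_succ, ArithmeticFunction.mul_zeta_apply, hp.sum_divisors, ih, hm.map_one]

theorem dr_prime (r p : ℕ) (hp : p.Prime) : dr r p = r := by
  unfold dr
  rw [zeta_pow_prime r p hp]

theorem term (r n p : ℕ) (hp : p.Prime) (hpn : p ∣ n) (hp2 : ¬ p ^ 2 ∣ n) :
    (r : ℝ) * dr r (n / p) - dr r n = 0 := by
  obtain ⟨m, rfl⟩ := hpn
  rw [Nat.mul_div_cancel_left m hp.pos, dr_mul r p m ((Nat.Prime.coprime_iff_not_dvd hp).2 ?_),
    dr_prime r p hp, sub_self]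
  intro h
  apply hp2
  rw [pow_two]
  exact Nat.mul_dvd_mul_left p h

theorem pw_sq (z w : ℝ) (hz : 1 ≤ z) : ∑ p ∈ PW z w, 1 / (p : ℝ) ^ 2 ≤ 2 / z := by
  have hz0 : 0 < z := by linarith
  obtain ⟨k, hk⟩ : ∃ k : ℕ, k = ⌊z⌋₊ := ⟨_, rfl⟩
  have hk1 : 1 ≤ k := by
    rw [hk]
    exact Nat.le_floor (by rw [Nat.cast_one]; exact hz)
  have hkr : (1 : ℝ) ≤ k := by exact_mod_cast hk1
  have hkz : z < k + 1 := by
    rw [hk]
    exact Nat.lt_floor_add_one z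
  have hsub : PW z w ⊆ Finset.Ioc k (max k ⌊w⌋₊) := by
    intro p hp
    unfold PW at hp
    rw [Finset.mem_filter, Finset.mem_Icc] at hp
    rw [Finset.mem_Ioc]
    refine ⟨?_, hp.1.2.trans (le_max_right _ _)⟩
    rw [hk]
    exact (Nat.floor_lt hz0.le).2 hp.2.2
  refine (Finset.sum_le_sum_of_subset_of_nonneg hsub (fun _ _ _ => by positivity)).trans ?_
  have h1 := sum_Ioc_inv_sq_le_sub (α := ℝ) (k := k) (n := max k ⌊w⌋₊) (by omega) (le_max_left _ _)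
  have h2 : ∑ i ∈ Finset.Ioc k (max k ⌊w⌋₊), 1 / (i : ℝ) ^ 2 =
      ∑ i ∈ Finset.Ioc k (max k ⌊w⌋₊), ((i : ℝ) ^ 2)⁻¹ :=
    Finset.sum_congr rfl fun i _ => one_div _
  rw [h2]
  have h3 : (0 : ℝ) ≤ ((max k ⌊w⌋₊ : ℕ) : ℝ)⁻¹ := by positivity
  have h4 : (k : ℝ)⁻¹ ≤ 2 / z := by
    rw [inv_eq_one_div, div_le_div_iff₀ (by linarith) hz0]
    linarith
  linarith

theorem count (N p : ℕ) :
    (((Finset.Icc 1 N).filter (fun n => p ^ 2 ∣ n)).card : ℝ) ≤ N * (1 / (p : ℝ) ^ 2) := by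
  have h1 : Finset.Icc 1 N = Finset.Ioc 0 N := by
    ext m
    simp only [Finset.mem_Icc, Finset.mem_Ioc]
    omega
  rw [h1, Nat.Ioc_filter_dvd_card_eq_div]
  refine Nat.cast_div_le.trans (le_of_eq ?_)
  push_cast
  ring

/-- the core estimate with uniform bounds -/
theorem core (r : ℕ) (z w X K K' : ℝ) (h : ℕ) (hz : 1 ≤ z) (hX : 0 ≤ X) (hK : 0 ≤ K) (hK' : 0 ≤ K')
    (hb : ∀ n : ℕ, 1 ≤ n → (n : ℝ) ≤ X → dr r n ≤ K)
    (hb' : ∀ n : ℕ, 1 ≤ n → (n : ℝ) ≤ X → dr r (n + h) ≤ K') :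
    ∑ n ∈ Finset.Icc 1 ⌊X⌋₊, |r * up r z w n - (ow z w n : ℝ) * dr r n| * dr r (n + h) ≤
      (r + 1) * K * K' * X * (2 / z) := by
  have hN : (⌊X⌋₊ : ℝ) ≤ X := Nat.floor_le hX
  have h1 : ∀ n ∈ Finset.Icc 1 ⌊X⌋₊, |r * up r z w n - (ow z w n : ℝ) * dr r n| * dr r (n + h) ≤
      ∑ p ∈ PW z w, (if p ^ 2 ∣ n then ((r : ℝ) + 1) * K * K' else 0) := by
    intro n hn
    rw [Finset.mem_Icc] at hn
    have hnX : (n : ℝ) ≤ X := by
      have : (n : ℝ) ≤ (⌊X⌋₊ : ℝ) := by exact_mod_cast hn.2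
      linarith
    have e1 : r * up r z w n - (ow z w n : ℝ) * dr r n =
        ∑ p ∈ PW z w, (if p ∣ n then (r : ℝ) * dr r (n / p) - dr r n else 0) := by
      unfold up ow
      rw [← Finset.sum_filter, Finset.sum_sub_distrib, Finset.mul_sum, Finset.sum_const,
        nsmul_eq_mul]
    have e2 : |r * up r z w n - (ow z w n : ℝ) * dr r n| ≤
        ∑ p ∈ PW z w, (if p ^ 2 ∣ n then ((r : ℝ) + 1) * K else 0) := by
      rw [e1]
      refine (Finset.abs_sum_le_sum_abs _ _).trans (Finset.sum_le_sum fun p hp => ?_)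
      have hpp : p.Prime := (Finset.mem_filter.1 hp).2.1
      by_cases h2 : p ^ 2 ∣ n
      · have hpn : p ∣ n := (dvd_pow_self p two_ne_zero).trans h2
        rw [if_pos h2, if_pos hpn]
        have hq1 : 1 ≤ n / p := Nat.div_pos (Nat.le_of_dvd (by omega) hpn) hpp.pos
        have hq2 : ((n / p : ℕ) : ℝ) ≤ X := by
          have : ((n / p : ℕ) : ℝ) ≤ n := by exact_mod_cast Nat.div_le_self n p
          linarith
        have b1 := hb (n / p) hq1 hq2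
        have b2 := hb n hn.1 hnX
        have b3 := dr_nonneg r (n / p)
        have b4 := dr_nonneg r n
        have b5 : (0 : ℝ) ≤ r := Nat.cast_nonneg r
        have b6 : (r : ℝ) * dr r (n / p) ≤ r * K := mul_le_mul_of_nonneg_left b1 b5
        have b7 : 0 ≤ (r : ℝ) * dr r (n / p) := mul_nonneg b5 b3
        have b8 : 0 ≤ (r : ℝ) * K := mul_nonneg b5 hK
        rw [abs_le]
        constructor <;> linarith
      · rw [if_neg h2]
        by_cases hpn : p ∣ n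
        · rw [if_pos hpn, term r n p hpp hpn h2, abs_zero]
        · rw [if_neg hpn, abs_zero]
    have e3 := mul_le_mul e2 (hb' n hn.1 hnX) (dr_nonneg r (n + h))
      (Finset.sum_nonneg fun p _ => by
        by_cases h2 : p ^ 2 ∣ n
        · rw [if_pos h2]
          positivity
        · rw [if_neg h2])
    refine e3.trans (le_of_eq ?_)
    rw [Finset.sum_mul]
    refine Finset.sum_congr rfl fun p _ => ?_
    by_cases h2 : p ^ 2 ∣ n
    · rw [if_pos h2, if_pos h2]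
    · rw [if_neg h2, if_neg h2, zero_mul]
  refine (Finset.sum_le_sum h1).trans ?_
  rw [Finset.sum_comm]
  have h2 : ∀ p ∈ PW z w, ∑ n ∈ Finset.Icc 1 ⌊X⌋₊,
      (if p ^ 2 ∣ n then ((r : ℝ) + 1) * K * K' else 0) ≤
      ((r : ℝ) + 1) * K * K' * X * (1 / (p : ℝ) ^ 2) := by
    intro p _
    rw [← Finset.sum_filter, Finset.sum_const, nsmul_eq_mul]
    have h3 := count ⌊X⌋₊ p
    have h4 : (⌊X⌋₊ : ℝ) * (1 / (p : ℝ) ^ 2) ≤ X * (1 / (p : ℝ) ^ 2) :=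
      mul_le_mul_of_nonneg_right hN (by positivity)
    have h5 : 0 ≤ ((r : ℝ) + 1) * K * K' := by positivity
    have h6 := mul_le_mul_of_nonneg_right (h3.trans h4) h5
    linarith
  refine (Finset.sum_le_sum h2).trans ?_
  rw [← Finset.mul_sum]
  exact mul_le_mul_of_nonneg_left (pw_sq z w hz) (by positivity)

end IN15

/-- N15. `r u(n)` is nearly `ω(n) d_r(n)`. -/
theorem prN15 (hL0 : tsL0) : tsN15 := by
  intro r ε₂ θw _ hε hεθ hθ
  obtain ⟨C, hC, hb⟩ := hL0 r (ε₂ / 8) (by positivity)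
  have ev : ∀ᶠ X : ℝ in atTop, 1 ≤ X ∧ 4 * ((r : ℝ) + 1) * C ^ 2 ≤ X ^ (ε₂ / 4) := by
    filter_upwards [eventually_ge_atTop (1 : ℝ),
      (tendsto_rpow_atTop (by positivity : 0 < ε₂ / 4)).eventually_ge_atTop
        (4 * ((r : ℝ) + 1) * C ^ 2)] with X a1 a2
    exact ⟨a1, a2⟩
  obtain ⟨X0, hX0⟩ := eventually_atTop.mp ev
  refine ⟨X0, fun X h hX hh hhX => ?_⟩
  obtain ⟨hX1, hXb⟩ := hX0 X hX
  have hXpos : 0 < X := by linarith
  have hXe : 0 < X ^ (ε₂ / 8) := Real.rpow_pos_of_pos hXpos _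
  have hb1 : ∀ n : ℕ, 1 ≤ n → (n : ℝ) ≤ X → dr r n ≤ C * X ^ (ε₂ / 8) := by
    intro n hn hnX
    exact (hb n hn).trans (mul_le_mul_of_nonneg_left
      (Real.rpow_le_rpow (Nat.cast_nonneg n) hnX (by positivity)) hC.le)
  have hb2 : ∀ n : ℕ, 1 ≤ n → (n : ℝ) ≤ X → dr r (n + h) ≤ 2 * C * X ^ (ε₂ / 8) := by
    intro n hn hnX
    have h1 : ((n + h : ℕ) : ℝ) ≤ 2 * X := by
      push_cast
      linarith
    calc dr r (n + h) ≤ C * ((n + h : ℕ) : ℝ) ^ (ε₂ / 8) := hb (n + h) (by omega)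
      _ ≤ C * (2 * X) ^ (ε₂ / 8) := mul_le_mul_of_nonneg_left
          (Real.rpow_le_rpow (Nat.cast_nonneg _) h1 (by positivity)) hC.le
      _ = C * (2 ^ (ε₂ / 8) * X ^ (ε₂ / 8)) := by rw [Real.mul_rpow (by norm_num) hXpos.le]
      _ ≤ C * (2 * X ^ (ε₂ / 8)) := by
          refine mul_le_mul_of_nonneg_left (mul_le_mul_of_nonneg_right ?_ hXe.le) hC.le
          calc (2 : ℝ) ^ (ε₂ / 8) ≤ 2 ^ (1 : ℝ) :=
                Real.rpow_le_rpow_of_exponent_le (by norm_num) (by linarith)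
            _ = 2 := Real.rpow_one 2
      _ = 2 * C * X ^ (ε₂ / 8) := by ring
  have h1 := IN15.core r (X ^ ε₂) (X ^ θw) X (C * X ^ (ε₂ / 8)) (2 * C * X ^ (ε₂ / 8)) h
    (Real.one_le_rpow hX1 hε.le) hXpos.le (by positivity) (by positivity) hb1 hb2
  refine h1.trans ?_
  have e1 : X ^ (ε₂ / 8) * X ^ (ε₂ / 8) * X / X ^ ε₂ = X ^ (1 - 3 * ε₂ / 4) := by
    rw [← Real.rpow_add hXpos]
    nth_rewrite 2 [← Real.rpow_one X]
    rw [← Real.rpow_add hXpos, ← Real.rpow_sub hXpos]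
    congr 1
    ring
  calc ((r : ℝ) + 1) * (C * X ^ (ε₂ / 8)) * (2 * C * X ^ (ε₂ / 8)) * X * (2 / X ^ ε₂) =
      (4 * ((r : ℝ) + 1) * C ^ 2) * (X ^ (ε₂ / 8) * X ^ (ε₂ / 8) * X / X ^ ε₂) := by ring
    _ = (4 * ((r : ℝ) + 1) * C ^ 2) * X ^ (1 - 3 * ε₂ / 4) := by rw [e1]
    _ ≤ X ^ (ε₂ / 4) * X ^ (1 - 3 * ε₂ / 4) :=
        mul_le_mul_of_nonneg_right hXb (Real.rpow_nonneg hXpos.le _)
    _ = X ^ (1 - ε₂ / 2) := by
        rw [← Real.rpow_add hXpos]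
        congr 1
        ring

end Pool.Agent.Work.MP_122e00_nt.TS
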