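import Mathlib
import Pool.Agent.Work.MP_122e00_nt.TS.Stmts11

/-!
# Item X2: products of divisor functions
-/

set_option autoImplicit false

namespace Pool.Agent.Work.MP_122e00_nt.TS

open Finset Filter Topology ArithmeticFunction MeasureTheory
open scoped ArithmeticFunction.zeta ArithmeticFunction.Moebius

namespace IX2

theorem dr_nonneg (r n : ℕ) : 0 ≤ dr r n := Nat.cast_nonneg _

theorem z_succ (r n : ℕ) :
    ((ζ : ArithmeticFunction ℕ) ^ (r + 1)) n = ∑ d ∈ n.divisors, ((ζ : ArithmeticFunction ℕ) ^ r) d := by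
  rw [pow_succ, mul_zeta_apply]

theorem z_mono (r g q : ℕ) (h : g ∣ q) (hq : q ≠ 0) :
    ((ζ : ArithmeticFunction ℕ) ^ (r + 1)) g ≤ ((ζ : ArithmeticFunction ℕ) ^ (r + 1)) q := by
  rw [z_succ, z_succ]
  exact Finset.sum_le_sum_of_subset (Nat.divisors_subset_of_dvd hq h)

theorem z_one (r : ℕ) : ((ζ : ArithmeticFunction ℕ) ^ r) 1 = 1 := by
  induction r with
  | zero => simp
  | succ r ih => rw [z_succ, Nat.divisors_one, Finset.sum_singleton, ih]

theorem z_sub (r a b : ℕ) : ((ζ : ArithmeticFunction ℕ) ^ r) (a * b) ≤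
    ((ζ : ArithmeticFunction ℕ) ^ r) a * ((ζ : ArithmeticFunction ℕ) ^ r) b := by
  induction r generalizing a b with
  | zero =>
    rw [pow_zero]
    by_cases h : a * b = 1
    · have h1 : a = 1 := Nat.eq_one_of_mul_eq_one_right h
      have h2 : b = 1 := Nat.eq_one_of_mul_eq_one_left h
      rw [h1, h2]
      simp
    · rw [ArithmeticFunction.one_apply_ne h]
      exact Nat.zero_le _
  | succ r ih =>
    rcases Nat.eq_zero_or_pos (a * b) with h0 | h0
    · rw [h0]
      simp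
    · have ha : a ≠ 0 := by
        rintro rfl
        simp at h0
      have hb : b ≠ 0 := by
        rintro rfl
        simp at h0
      rw [z_succ, z_succ, z_succ, Finset.sum_mul_sum, ← Finset.sum_product']
      have h1 : (a * b).divisors ⊆
          (a.divisors ×ˢ b.divisors).image fun x => x.1 * x.2 := by
        intro d hd
        obtain ⟨d1, d2, h2, h3, h4⟩ := Nat.dvd_mul.1 (Nat.dvd_of_mem_divisors hd)
        exact Finset.mem_image.2 ⟨(d1, d2), Finset.mem_product.2
          ⟨Nat.mem_divisors.2 ⟨h2, ha⟩, Nat.mem_divisors.2 ⟨h3, hb⟩⟩, h4⟩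
      refine (Finset.sum_le_sum_of_subset h1).trans ?_
      refine (Finset.sum_image_le_of_nonneg ?_).trans ?_
      · intro _ _
        exact Nat.zero_le _
      · exact Finset.sum_le_sum fun x _ => ih x.1 x.2

theorem harm (Q : ℕ) : ∑ a ∈ Finset.Ioc 0 Q, 1 / (a : ℝ) ≤ 1 + Real.log Q := by
  have h := harmonic_le_one_add_log Q
  have h1 : Finset.Icc 1 Q = Finset.Ioc 0 Q := by
    ext n
    rw [Finset.mem_Icc, Finset.mem_Ioc]
    omega
  rw [harmonic_eq_sum_Icc, h1] at h
  push_cast at h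
  simpa only [one_div] using h

theorem log_le {M : ℕ} {x : ℝ} (hM : (M : ℝ) ≤ x) (hx : 1 ≤ x) : Real.log M ≤ Real.log x := by
  rcases Nat.eq_zero_or_pos M with h | h
  · rw [h, Nat.cast_zero, Real.log_zero]
    exact Real.log_nonneg hx
  · exact Real.log_le_log (Nat.cast_pos.2 h) hM

/-- the sum of the divisor function -/
theorem sum_z (r N : ℕ) : ((∑ n ∈ Finset.Ioc 0 N, ((ζ : ArithmeticFunction ℕ) ^ (r + 1)) n : ℕ) : ℝ) ≤
    N * (1 + Real.log N) ^ r := by
  induction r generalizing N with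
  | zero =>
    rw [pow_zero, mul_one, zero_add, pow_one, sum_Ioc_zeta]
  | succ r ih =>
    rw [pow_succ' (ζ : ArithmeticFunction ℕ) (r + 1), sum_Ioc_mul_eq_sum_sum]
    push_cast
    have hlogN : 0 ≤ Real.log N := Real.log_natCast_nonneg N
    have h1 : ∀ n ∈ Finset.Ioc 0 N, (((ζ : ArithmeticFunction ℕ) n : ℕ) : ℝ) *
        ∑ m ∈ Finset.Ioc 0 (N / n), ((((ζ : ArithmeticFunction ℕ) ^ (r + 1)) m : ℕ) : ℝ) ≤
        (N : ℝ) * (1 + Real.log N) ^ r * (1 / (n : ℝ)) := by
      intro n hn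
      obtain ⟨hn0, hnN⟩ := Finset.mem_Ioc.1 hn
      have hn0' : (0 : ℝ) < n := Nat.cast_pos.2 hn0
      have hN1 : (1 : ℝ) ≤ N := by exact_mod_cast hn0.trans_le hnN
      rw [zeta_apply_ne hn0.ne', Nat.cast_one, one_mul]
      have h2 := ih (N / n)
      push_cast at h2
      refine h2.trans ?_
      have h3 : (((N / n : ℕ)) : ℝ) ≤ (N : ℝ) / n := Nat.cast_div_le
      have h4 : (((N / n : ℕ)) : ℝ) ≤ (N : ℝ) := by
        exact_mod_cast Nat.div_le_self N n
      have h5 : (1 + Real.log ((N / n : ℕ) : ℝ)) ^ r ≤ (1 + Real.log N) ^ r := by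
        refine pow_le_pow_left₀ ?_ ?_ r
        · have := Real.log_natCast_nonneg (N / n)
          linarith
        · have := log_le h4 hN1
          linarith
      calc (((N / n : ℕ)) : ℝ) * (1 + Real.log ((N / n : ℕ) : ℝ)) ^ r
          ≤ (N : ℝ) / n * (1 + Real.log N) ^ r := by
            refine mul_le_mul h3 h5 ?_ (by positivity)
            have := Real.log_natCast_nonneg (N / n)
            positivity
        _ = (N : ℝ) * (1 + Real.log N) ^ r * (1 / (n : ℝ)) := by ring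
    refine (Finset.sum_le_sum h1).trans ?_
    rw [← Finset.mul_sum]
    calc (N : ℝ) * (1 + Real.log N) ^ r * ∑ a ∈ Finset.Ioc 0 N, 1 / (a : ℝ)
        ≤ (N : ℝ) * (1 + Real.log N) ^ r * (1 + Real.log N) :=
          mul_le_mul_of_nonneg_left (harm N) (by positivity)
      _ = (N : ℝ) * (1 + Real.log N) ^ (r + 1) := by ring

/-- products of divisor functions -/
theorem z_prod (r n s : ℕ) : ((ζ : ArithmeticFunction ℕ) ^ r) n *
    ((ζ : ArithmeticFunction ℕ) ^ (s + 1)) n ≤
    ((ζ : ArithmeticFunction ℕ) ^ (r * (s + 1))) n := by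
  induction s generalizing n with
  | zero =>
    rw [zero_add, mul_one, pow_one]
    rcases Nat.eq_zero_or_pos n with h | h
    · rw [h]
      simp
    · rw [zeta_apply_ne h.ne', mul_one]
  | succ s ih =>
    have e1 : ((ζ : ArithmeticFunction ℕ) ^ (r * (s + 1 + 1))) n =
        ∑ x ∈ n.divisorsAntidiagonal, ((ζ : ArithmeticFunction ℕ) ^ (r * (s + 1))) x.1 *
          ((ζ : ArithmeticFunction ℕ) ^ r) x.2 := by
      rw [mul_add, mul_one, pow_add, ArithmeticFunction.mul_apply]
    have e2 : ((ζ : ArithmeticFunction ℕ) ^ (s + 1 + 1)) n =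
        ∑ x ∈ n.divisorsAntidiagonal, ((ζ : ArithmeticFunction ℕ) ^ (s + 1)) x.1 *
          (ζ : ArithmeticFunction ℕ) x.2 := by
      rw [pow_succ, ArithmeticFunction.mul_apply]
    rw [e1, e2, Finset.mul_sum]
    refine Finset.sum_le_sum fun x hx => ?_
    have hx1 : x.1 * x.2 = n := (Nat.mem_divisorsAntidiagonal.1 hx).1
    have hx2 : (ζ : ArithmeticFunction ℕ) x.2 ≤ 1 := by
      rcases Nat.eq_zero_or_pos x.2 with h | h
      · rw [h]
        simp
      · rw [zeta_apply_ne h.ne']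
    have h1 := z_sub r x.1 x.2
    rw [hx1] at h1
    calc ((ζ : ArithmeticFunction ℕ) ^ r) n * (((ζ : ArithmeticFunction ℕ) ^ (s + 1)) x.1 *
          (ζ : ArithmeticFunction ℕ) x.2)
        ≤ (((ζ : ArithmeticFunction ℕ) ^ r) x.1 * ((ζ : ArithmeticFunction ℕ) ^ r) x.2) *
          (((ζ : ArithmeticFunction ℕ) ^ (s + 1)) x.1 * 1) :=
          Nat.mul_le_mul h1 (Nat.mul_le_mul le_rfl hx2)
      _ = (((ζ : ArithmeticFunction ℕ) ^ r) x.1 * ((ζ : ArithmeticFunction ℕ) ^ (s + 1)) x.1) *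
          ((ζ : ArithmeticFunction ℕ) ^ r) x.2 := by ring
      _ ≤ _ := Nat.mul_le_mul (ih x.1) le_rfl

end IX2

open IX2 in
theorem prX2 : tsX2 := by
  refine ⟨?_, ?_, ?_⟩
  · intro r s n _ hs
    obtain ⟨t, rfl⟩ : ∃ t, s = t + 1 := ⟨s - 1, by omega⟩
    unfold dr
    exact_mod_cast z_prod r n t
  · intro r N hr _
    obtain ⟨t, rfl⟩ : ∃ t, r = t + 1 := ⟨r - 1, by omega⟩
    have h := sum_z t N
    have h1 : Finset.Icc 1 N = Finset.Ioc 0 N := by
      ext n
      rw [Finset.mem_Icc, Finset.mem_Ioc]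
      omega
    rw [h1, Nat.add_sub_cancel]
    push_cast at h
    exact h
  · intro r n z w hn
    unfold up
    refine ⟨Finset.sum_nonneg fun p _ => dr_nonneg _ _, ?_⟩
    have h1 : (PW z w).filter (· ∣ n) ⊆ n.divisors := by
      intro p hp
      exact Nat.mem_divisors.2 ⟨(Finset.mem_filter.1 hp).2, by omega⟩
    have h2 : dr (r + 1) n = ∑ d ∈ n.divisors, dr r d := by
      unfold dr
      rw [z_succ]
      push_cast
      rfl
    rw [h2, ← Nat.sum_div_divisors n (fun d => dr r d)]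
    exact Finset.sum_le_sum_of_subset_of_nonneg h1 fun p _ _ => dr_nonneg _ _

end Pool.Agent.Work.MP_122e00_nt.TS
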