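import Pool.Agent.Work.MP_122e00_nt.TS.Stmts12
import Pool.Agent.Work.MP_122e00_nt.TS.I_N15
import Pool.Agent.Work.MP_122e00_nt.TS.I_X2

/-!
Item X19 of block TS: `r u(n)` is nearly `ω(n) d_r(n)`.
-/

set_option autoImplicit false

namespace Pool.Agent.Work.MP_122e00_nt.TS

open Finset Filter Topology ArithmeticFunction MeasureTheory
open scoped ArithmeticFunction.zeta ArithmeticFunction.Moebius

namespace IX19

/-- the number of window primes whose square divides `n` -/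
noncomputable def nu (z w : ℝ) (n : ℕ) : ℝ := (((PW z w).filter (fun p => p ^ 2 ∣ n)).card : ℝ)

theorem nu_nonneg (z w : ℝ) (n : ℕ) : 0 ≤ nu z w n := Nat.cast_nonneg _

theorem dr_mono (r m n : ℕ) (hr : 1 ≤ r) (h : m ∣ n) (hn : 1 ≤ n) : dr r m ≤ dr r n := by
  obtain ⟨t, rfl⟩ : ∃ t, r = t + 1 := ⟨r - 1, by omega⟩
  unfold dr
  exact_mod_cast IX2.z_mono t m n h (by omega)

theorem dev (r : ℕ) (hr : 1 ≤ r) (z w : ℝ) (n : ℕ) (hn : 1 ≤ n) :
    |r * up r z w n - (ow z w n : ℝ) * dr r n| ≤ r * dr r n * nu z w n := by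
  have e1 : r * up r z w n - (ow z w n : ℝ) * dr r n =
      ∑ p ∈ PW z w, (if p ∣ n then (r : ℝ) * dr r (n / p) - dr r n else 0) := by
    unfold up ow
    rw [← Finset.sum_filter, Finset.sum_sub_distrib, Finset.mul_sum, Finset.sum_const,
      nsmul_eq_mul]
  have e2 : r * dr r n * nu z w n = ∑ p ∈ PW z w, (if p ^ 2 ∣ n then (r : ℝ) * dr r n else 0) := by
    unfold nu
    rw [← Finset.sum_filter, Finset.sum_const, nsmul_eq_mul]
    ring
  rw [e1, e2]
  refine (Finset.abs_sum_le_sum_abs _ _).trans (Finset.sum_le_sum fun p hp => ?_)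
  have hpp : p.Prime := (Finset.mem_filter.1 hp).2.1
  by_cases h2 : p ^ 2 ∣ n
  · have hpn : p ∣ n := (dvd_pow_self p two_ne_zero).trans h2
    rw [if_pos h2, if_pos hpn]
    have b1 := dr_mono r (n / p) n hr (Nat.div_dvd_of_dvd hpn) hn
    have b3 := IN15.dr_nonneg r (n / p)
    have b4 := IN15.dr_nonneg r n
    have b5 : (1 : ℝ) ≤ r := by exact_mod_cast hr
    have b6 : (r : ℝ) * dr r (n / p) ≤ r * dr r n := mul_le_mul_of_nonneg_left b1 (by linarith)
    have b7 : 0 ≤ (r : ℝ) * dr r (n / p) := mul_nonneg (by linarith) b3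
    have b8 : dr r n ≤ (r : ℝ) * dr r n := by nlinarith
    rw [abs_le]
    constructor <;> linarith
  · rw [if_neg h2]
    by_cases hpn : p ∣ n
    · rw [if_pos hpn, IN15.term r n p hpp hpn h2, abs_zero]
    · rw [if_neg hpn, abs_zero]

theorem nu_le (z w : ℝ) (n : ℕ) (hn : 1 ≤ n) : nu z w n ≤ dr 2 n := by
  have h2 : dr 2 n = ((n.divisors.card : ℕ) : ℝ) := by
    unfold dr
    congr 1
    rw [show (2 : ℕ) = 1 + 1 from rfl, IX2.z_succ, pow_one, Finset.card_eq_sum_ones]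
    refine Finset.sum_congr rfl fun d hd => ?_
    have : d ≠ 0 := (Nat.pos_of_mem_divisors hd).ne'
    exact ArithmeticFunction.zeta_apply_ne this
  rw [h2]
  unfold nu
  have h1 : (PW z w).filter (fun p => p ^ 2 ∣ n) ⊆ n.divisors := by
    intro p hp
    exact Nat.mem_divisors.2 ⟨(dvd_pow_self p two_ne_zero).trans (Finset.mem_filter.1 hp).2,
      by omega⟩
  exact_mod_cast Finset.card_le_card h1

theorem dr_sq (R p m : ℕ) (hp : p.Prime) : dr R (p ^ 2 * m) ≤ (R : ℝ) ^ 2 * dr R m := by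
  have h1 : dr R (p ^ 2 * m) ≤ dr R (p ^ 2) * dr R m := by
    unfold dr
    exact_mod_cast IX2.z_sub R (p ^ 2) m
  have h2 : dr R (p ^ 2) ≤ dr R p * dr R p := by
    unfold dr
    rw [pow_two]
    exact_mod_cast IX2.z_sub R p p
  rw [IN15.dr_prime R p hp] at h2
  have h3 := IN15.dr_nonneg R m
  nlinarith

theorem sum_nu (hX2 : tsX2) (R : ℕ) (hR : 1 ≤ R) (z w X : ℝ) (hz : 1 ≤ z) (hX : 1 ≤ X) :
    ∑ n ∈ Finset.Icc 1 ⌊X⌋₊, dr R n * nu z w n ≤
      (R : ℝ) ^ 2 * (X * (1 + Real.log X) ^ (R - 1)) * (2 / z) := by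
  obtain ⟨-, hsum, -⟩ := hX2
  obtain ⟨N, hN⟩ : ∃ N, N = ⌊X⌋₊ := ⟨_, rfl⟩
  have hNX : (N : ℝ) ≤ X := by
    rw [hN]
    exact Nat.floor_le (by linarith)
  have hlog : 0 ≤ Real.log X := Real.log_nonneg hX
  rw [← hN]
  have h1 : ∑ n ∈ Finset.Icc 1 N, dr R n * nu z w n =
      ∑ p ∈ PW z w, ∑ n ∈ Finset.Icc 1 N, (if p ^ 2 ∣ n then dr R n else 0) := by
    rw [Finset.sum_comm]
    refine Finset.sum_congr rfl fun n _ => ?_
    unfold nu
    rw [← Finset.sum_filter, Finset.sum_const, nsmul_eq_mul]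
    ring
  rw [h1]
  have h2 : ∀ p ∈ PW z w, ∑ n ∈ Finset.Icc 1 N, (if p ^ 2 ∣ n then dr R n else 0) ≤
      (R : ℝ) ^ 2 * (X * (1 + Real.log X) ^ (R - 1)) * (1 / (p : ℝ) ^ 2) := by
    intro p hp
    have hpp : p.Prime := (Finset.mem_filter.1 hp).2.1
    have hp2 : 0 < p ^ 2 := pow_pos hpp.pos 2
    rw [← Finset.sum_filter]
    have h3 : (Finset.Icc 1 N).filter (fun n => p ^ 2 ∣ n) ⊆
        (Finset.Icc 1 (N / p ^ 2)).image (fun m => p ^ 2 * m) := by
      intro n hn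
      rw [Finset.mem_filter, Finset.mem_Icc] at hn
      obtain ⟨m, rfl⟩ := hn.2
      refine Finset.mem_image.2 ⟨m, Finset.mem_Icc.2 ⟨?_, ?_⟩, rfl⟩
      · rcases Nat.eq_zero_or_pos m with h | h
        · rw [h] at hn
          omega
        · exact h
      · rw [Nat.le_div_iff_mul_le hp2, mul_comm]
        exact hn.1.2
    refine (Finset.sum_le_sum_of_subset_of_nonneg h3 fun _ _ _ => IN15.dr_nonneg _ _).trans ?_
    rw [Finset.sum_image (fun a _ b _ h => Nat.eq_of_mul_eq_mul_left hp2 h)]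
    refine (Finset.sum_le_sum fun m _ => dr_sq R p m hpp).trans ?_
    rw [← Finset.mul_sum]
    rcases Nat.eq_zero_or_pos (N / p ^ 2) with h0 | h0
    · rw [h0]
      simp only [Finset.Icc_eq_empty (by norm_num : ¬ (1 : ℕ) ≤ 0), Finset.sum_empty, mul_zero]
      positivity
    · have h4 := hsum R (N / p ^ 2) hR h0
      have h5 : ((N / p ^ 2 : ℕ) : ℝ) ≤ X * (1 / (p : ℝ) ^ 2) := by
        refine Nat.cast_div_le.trans ?_
        push_cast
        rw [div_eq_mul_one_div]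
        exact mul_le_mul_of_nonneg_right hNX (by positivity)
      have h6 : ((N / p ^ 2 : ℕ) : ℝ) ≤ X := by
        have : ((N / p ^ 2 : ℕ) : ℝ) ≤ N := by exact_mod_cast Nat.div_le_self N (p ^ 2)
        linarith
      have h7 : (1 : ℝ) ≤ ((N / p ^ 2 : ℕ) : ℝ) := by exact_mod_cast h0
      have h8 : Real.log ((N / p ^ 2 : ℕ) : ℝ) ≤ Real.log X := Real.log_le_log (by linarith) h6
      have h9 : 0 ≤ Real.log ((N / p ^ 2 : ℕ) : ℝ) := Real.log_nonneg h7
      have h10 : (1 + Real.log ((N / p ^ 2 : ℕ) : ℝ)) ^ (R - 1) ≤ (1 + Real.log X) ^ (R - 1) :=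
        pow_le_pow_left₀ (by linarith) (by linarith) _
      have h11 : ∑ n ∈ Finset.Icc 1 (N / p ^ 2), dr R n ≤
          X * (1 / (p : ℝ) ^ 2) * (1 + Real.log X) ^ (R - 1) :=
        h4.trans (mul_le_mul h5 h10 (by positivity) (by positivity))
      calc (R : ℝ) ^ 2 * ∑ n ∈ Finset.Icc 1 (N / p ^ 2), dr R n ≤
          (R : ℝ) ^ 2 * (X * (1 / (p : ℝ) ^ 2) * (1 + Real.log X) ^ (R - 1)) :=
            mul_le_mul_of_nonneg_left h11 (by positivity)
        _ = (R : ℝ) ^ 2 * (X * (1 + Real.log X) ^ (R - 1)) * (1 / (p : ℝ) ^ 2) := by ring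
  refine (Finset.sum_le_sum h2).trans ?_
  rw [← Finset.mul_sum]
  exact mul_le_mul_of_nonneg_left (IN15.pw_sq z w hz) (by positivity)

theorem sum_shift (hX2 : tsX2) (R : ℕ) (hR : 1 ≤ R) (X : ℝ) (h : ℕ) (hX : 1 ≤ X)
    (hh : (h : ℝ) ≤ X) :
    ∑ n ∈ Finset.Icc 1 ⌊X⌋₊, dr R (n + h) ≤ 2 * X * (1 + Real.log (2 * X)) ^ (R - 1) := by
  obtain ⟨-, hsum, -⟩ := hX2
  obtain ⟨N, hN⟩ : ∃ N, N = ⌊X⌋₊ := ⟨_, rfl⟩
  have hNX : (N : ℝ) ≤ X := by
    rw [hN]
    exact Nat.floor_le (by linarith)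
  have hN1 : 1 ≤ N := by
    rw [hN]
    exact Nat.le_floor (by rw [Nat.cast_one]; exact hX)
  rw [← hN]
  have h1 : ∑ n ∈ Finset.Icc 1 N, dr R (n + h) ≤ ∑ n ∈ Finset.Icc 1 (N + h), dr R n := by
    rw [← Finset.sum_image (s := Finset.Icc 1 N) (g := fun n => n + h) (f := fun n => dr R n)
      (fun a _ b _ hab => Nat.add_right_cancel hab)]
    refine Finset.sum_le_sum_of_subset_of_nonneg ?_ fun _ _ _ => IN15.dr_nonneg _ _
    intro n hn
    obtain ⟨m, hm, rfl⟩ := Finset.mem_image.1 hn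
    rw [Finset.mem_Icc] at hm ⊢
    omega
  have h2 := hsum R (N + h) hR (by omega)
  have h3 : ((N + h : ℕ) : ℝ) ≤ 2 * X := by
    push_cast
    linarith
  have h4 : (1 : ℝ) ≤ ((N + h : ℕ) : ℝ) := by
    have : 1 ≤ N + h := by omega
    exact_mod_cast this
  have h5 : Real.log ((N + h : ℕ) : ℝ) ≤ Real.log (2 * X) := Real.log_le_log (by linarith) h3
  have h6 : 0 ≤ Real.log ((N + h : ℕ) : ℝ) := Real.log_nonneg h4
  refine h1.trans (h2.trans ?_)
  exact mul_le_mul h3 (pow_le_pow_left₀ (by linarith) (by linarith) _) (by positivity)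
    (by linarith)

/-- the estimate with explicit constants -/
theorem core (hX2 : tsX2) (r : ℕ) (hr : 1 ≤ r) (z w X : ℝ) (h : ℕ) (hz : 1 ≤ z) (hX : 1 ≤ X)
    (hh : (h : ℝ) ≤ X) :
    ∑ n ∈ Finset.Icc 1 ⌊X⌋₊, |r * up r z w n - (ow z w n : ℝ) * dr r n| * dr r (n + h) ≤
      r * (((r * r * 2 : ℕ) : ℝ) ^ 2 + 1) * X * (1 + Real.log (2 * X)) ^ (r * r * 2) *
        z ^ (-(1 / 2) : ℝ) := by
  obtain ⟨s, hs⟩ : ∃ s : ℝ, s = z ^ (1 / 2 : ℝ) := ⟨_, rfl⟩
  have hz0 : 0 < z := by linarith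
  have hs0 : 0 < s := by
    rw [hs]
    exact Real.rpow_pos_of_pos hz0 _
  have hss : s * s = z := by
    rw [hs, ← Real.rpow_add hz0]
    norm_num
  have hsi : z ^ (-(1 / 2) : ℝ) = 1 / s := by
    rw [hs, Real.rpow_neg hz0.le, ← one_div]
  have hR : 1 ≤ r * r * 2 := by
    have := Nat.mul_pos (show 0 < r by omega) (show 0 < r by omega)
    omega
  have hR' : 1 ≤ r * r := Nat.mul_pos (show 0 < r by omega) (show 0 < r by omega)
  have hr0 : (0 : ℝ) ≤ r := Nat.cast_nonneg r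
  have hlog : 0 ≤ Real.log X := Real.log_nonneg hX
  have hlog2 : Real.log X ≤ Real.log (2 * X) := Real.log_le_log (by linarith) (by linarith)
  obtain ⟨hmul, -, -⟩ := id hX2
  have h1 : ∀ n ∈ Finset.Icc 1 ⌊X⌋₊,
      |r * up r z w n - (ow z w n : ℝ) * dr r n| * dr r (n + h) ≤
        (r : ℝ) / 2 * (s * (dr (r * r * 2) n * nu z w n)) + (r : ℝ) / 2 * (1 / s * dr (r * r) (n + h)) := by
    intro n hn
    rw [Finset.mem_Icc] at hn
    have a1 := dev r hr z w n hn.1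
    have a2 := IN15.dr_nonneg r (n + h)
    have a3 := IN15.dr_nonneg r n
    have a4 := nu_nonneg z w n
    have a5 := nu_le z w n hn.1
    have a6 := hmul r r n hr hr
    have a7 := hmul (r * r) 2 n hR' (by norm_num)
    have a8 := hmul r r (n + h) hr hr
    have a9 := IN15.dr_nonneg (r * r) n
    have b1 : (dr r n * nu z w n) ^ 2 ≤ dr (r * r * 2) n * nu z w n := by
      have c1 : dr r n * dr r n * (nu z w n * nu z w n) ≤
          dr (r * r) n * (dr 2 n * nu z w n) :=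
        mul_le_mul a6 (mul_le_mul_of_nonneg_right a5 a4) (mul_nonneg a4 a4) a9
      have c2 : dr (r * r) n * dr 2 n * nu z w n ≤ dr (r * r * 2) n * nu z w n :=
        mul_le_mul_of_nonneg_right a7 a4
      calc (dr r n * nu z w n) ^ 2 = dr r n * dr r n * (nu z w n * nu z w n) := by ring
        _ ≤ _ := c1
        _ = dr (r * r) n * dr 2 n * nu z w n := by ring
        _ ≤ _ := c2
    have b2 : dr r n * nu z w n * dr r (n + h) ≤
        (s * (dr (r * r * 2) n * nu z w n) + 1 / s * dr (r * r) (n + h)) / 2 := by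
      have c3 : 2 * (dr r n * nu z w n * dr r (n + h)) ≤
          s * (dr r n * nu z w n) ^ 2 + 1 / s * (dr r (n + h) * dr r (n + h)) := by
        have c4 : 0 ≤ 1 / s * (s * (dr r n * nu z w n) - dr r (n + h)) ^ 2 := by positivity
        have c5 : 1 / s * (s * (dr r n * nu z w n) - dr r (n + h)) ^ 2 =
            s * (dr r n * nu z w n) ^ 2 + 1 / s * (dr r (n + h) * dr r (n + h)) -
              2 * (dr r n * nu z w n * dr r (n + h)) := by
          field_simp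
          ring
        linarith
      have c6 : s * (dr r n * nu z w n) ^ 2 ≤ s * (dr (r * r * 2) n * nu z w n) :=
        mul_le_mul_of_nonneg_left b1 hs0.le
      have c7 : 1 / s * (dr r (n + h) * dr r (n + h)) ≤ 1 / s * dr (r * r) (n + h) :=
        mul_le_mul_of_nonneg_left a8 (by positivity)
      linarith
    calc |r * up r z w n - (ow z w n : ℝ) * dr r n| * dr r (n + h) ≤
        r * dr r n * nu z w n * dr r (n + h) := mul_le_mul_of_nonneg_right a1 a2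
      _ = r * (dr r n * nu z w n * dr r (n + h)) := by ring
      _ ≤ r * ((s * (dr (r * r * 2) n * nu z w n) + 1 / s * dr (r * r) (n + h)) / 2) :=
        mul_le_mul_of_nonneg_left b2 hr0
      _ = _ := by ring
  refine (Finset.sum_le_sum h1).trans ?_
  rw [Finset.sum_add_distrib, ← Finset.mul_sum, ← Finset.mul_sum, ← Finset.mul_sum,
    ← Finset.mul_sum]
  have h2 := sum_nu hX2 (r * r * 2) hR z w X hz hX
  have h3 := sum_shift hX2 (r * r) hR' X h hX hh
  obtain ⟨L, hL⟩ : ∃ L, L = 1 + Real.log (2 * X) := ⟨_, rfl⟩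
  have hL1 : 1 ≤ L := by
    rw [hL]
    linarith
  have h4 : (1 + Real.log X) ^ (r * r * 2 - 1) ≤ L ^ (r * r * 2) :=
    (pow_le_pow_left₀ (by linarith) (by rw [hL]; linarith) _).trans
      (pow_le_pow_right₀ hL1 (Nat.sub_le _ _))
  have h5 : (1 + Real.log (2 * X)) ^ (r * r - 1) ≤ L ^ (r * r * 2) := by
    rw [← hL]
    exact pow_le_pow_right₀ hL1 (by omega)
  rw [hsi, ← hL]
  have h6 : ((r * r * 2 : ℕ) : ℝ) ^ 2 * (X * (1 + Real.log X) ^ (r * r * 2 - 1)) * (2 / z) ≤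
      ((r * r * 2 : ℕ) : ℝ) ^ 2 * (X * L ^ (r * r * 2)) * (2 / z) := by
    refine mul_le_mul_of_nonneg_right (mul_le_mul_of_nonneg_left
      (mul_le_mul_of_nonneg_left h4 (by linarith)) (by positivity)) (by positivity)
  have h7 : 2 * X * (1 + Real.log (2 * X)) ^ (r * r - 1) ≤ 2 * X * L ^ (r * r * 2) :=
    mul_le_mul_of_nonneg_left h5 (by linarith)
  have h8 : (r : ℝ) / 2 * (s * ∑ n ∈ Finset.Icc 1 ⌊X⌋₊, dr (r * r * 2) n * nu z w n) ≤
      (r : ℝ) / 2 * (s * (((r * r * 2 : ℕ) : ℝ) ^ 2 * (X * L ^ (r * r * 2)) * (2 / z))) :=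
    mul_le_mul_of_nonneg_left (mul_le_mul_of_nonneg_left (h2.trans h6) hs0.le) (by positivity)
  have h9 : (r : ℝ) / 2 * (1 / s * ∑ n ∈ Finset.Icc 1 ⌊X⌋₊, dr (r * r) (n + h)) ≤
      (r : ℝ) / 2 * (1 / s * (2 * X * L ^ (r * r * 2))) :=
    mul_le_mul_of_nonneg_left (mul_le_mul_of_nonneg_left (h3.trans h7) (by positivity))
      (by positivity)
  refine (add_le_add h8 h9).trans (le_of_eq ?_)
  rw [← hss]
  field_simp

end IX19

open IX19 in
/-- X19. `r u(n)` is nearly `ω(n) d_r(n)`. -/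
theorem prX19 (hX2 : tsX2) : tsX19 := by
  intro r ε₂ hr hε hε4
  obtain ⟨R, hR⟩ : ∃ R : ℕ, R = r * r * 2 := ⟨_, rfl⟩
  obtain ⟨K, hK⟩ : ∃ K : ℝ, K = r * ((R : ℝ) ^ 2 + 1) * 3 ^ R := ⟨_, rfl⟩
  refine ⟨4 / ε₂ * (R + 1), max 3 (Real.exp (K + 1)), fun X H h hX hHX _ h1 hhX => ?_⟩
  have hX3 : 3 ≤ X := (le_max_left _ _).trans hX
  have hXK : Real.exp (K + 1) ≤ X := (le_max_right _ _).trans hX
  have hX0 : 0 < X := by linarith
  have hK0 : 0 ≤ K := by
    rw [hK]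
    positivity
  have hl : K + 1 ≤ Real.log X := by
    rw [Real.le_log_iff_exp_le hX0]
    exact hXK
  have hl1 : 1 ≤ Real.log X := by linarith
  have hH1 : 1 ≤ H := (Real.one_le_rpow hl1 (by positivity)).trans hHX
  have hH0 : 0 < H := by linarith
  have hc := core hX2 r hr (H ^ ε₂) (H ^ (1 / 4 : ℝ)) X h (Real.one_le_rpow hH1 hε.le)
    (by linarith) hhX
  refine hc.trans ?_
  rw [← hR]
  have h2 : 1 + Real.log (2 * X) ≤ 3 * Real.log X := by
    rw [Real.log_mul (by norm_num) hX0.ne']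
    have : Real.log 2 ≤ 1 := by linarith [Real.log_two_lt_d9]
    linarith
  have h20 : 0 ≤ 1 + Real.log (2 * X) := by
    have := Real.log_nonneg (show (1 : ℝ) ≤ 2 * X by linarith)
    linarith
  have h3 : (1 + Real.log (2 * X)) ^ R ≤ 3 ^ R * Real.log X ^ R := by
    rw [← mul_pow]
    exact pow_le_pow_left₀ h20 h2 R
  have h4 : K * Real.log X ^ R ≤ H ^ (ε₂ / 4) := by
    have e1 : (Real.log X ^ (4 / ε₂ * (R + 1))) ^ (ε₂ / 4) ≤ H ^ (ε₂ / 4) :=
      Real.rpow_le_rpow (Real.rpow_nonneg (by linarith) _) hHX (by positivity)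
    have e2 : (Real.log X ^ (4 / ε₂ * (R + 1))) ^ (ε₂ / 4) = Real.log X ^ (R + 1) := by
      rw [← Real.rpow_mul (by linarith)]
      have : 4 / ε₂ * ((R : ℝ) + 1) * (ε₂ / 4) = ((R + 1 : ℕ) : ℝ) := by
        push_cast
        field_simp
      rw [this, Real.rpow_natCast]
    rw [e2] at e1
    refine le_trans ?_ e1
    rw [pow_succ, mul_comm K]
    exact mul_le_mul_of_nonneg_left (by linarith) (by positivity)
  have h5 : (H ^ ε₂) ^ (-(1 / 2) : ℝ) = H ^ (-(ε₂ / 2)) := by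
    rw [← Real.rpow_mul hH0.le]
    congr 1
    ring
  rw [h5]
  have h6 : (0 : ℝ) ≤ r * ((R : ℝ) ^ 2 + 1) * X := by positivity
  calc r * ((R : ℝ) ^ 2 + 1) * X * (1 + Real.log (2 * X)) ^ R * H ^ (-(ε₂ / 2)) ≤
      r * ((R : ℝ) ^ 2 + 1) * X * (3 ^ R * Real.log X ^ R) * H ^ (-(ε₂ / 2)) :=
        mul_le_mul_of_nonneg_right (mul_le_mul_of_nonneg_left h3 h6) (Real.rpow_nonneg hH0.le _)
    _ = X * (K * Real.log X ^ R) * H ^ (-(ε₂ / 2)) := by
        rw [hK]
        ring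
    _ ≤ X * H ^ (ε₂ / 4) * H ^ (-(ε₂ / 2)) :=
        mul_le_mul_of_nonneg_right (mul_le_mul_of_nonneg_left h4 hX0.le)
          (Real.rpow_nonneg hH0.le _)
    _ = X * H ^ (-(ε₂ / 4)) := by
        rw [mul_assoc, ← Real.rpow_add hH0]
        congr 2
        ring

end Pool.Agent.Work.MP_122e00_nt.TS
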