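import Pool.Agent.Work.MP_122e00_nt.TS.Stmts8

/-!
Item N7 of block TS: the sum of the weight over all admissible pairs.
-/

namespace Pool.Agent.Work.MP_122e00_nt.TS

open Finset Filter Topology ArithmeticFunction MeasureTheory
open scoped ArithmeticFunction.zeta ArithmeticFunction.Moebius

namespace IN7

theorem dr_nonneg (r n : ℕ) : 0 ≤ dr r n := Nat.cast_nonneg _

theorem dr_mul (r a b : ℕ) (hab : Nat.Coprime a b) : dr r (a * b) = dr r a * dr r b := by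
  have hm : ((ζ : ArithmeticFunction ℕ) ^ r).IsMultiplicative := isMultiplicative_zeta.pow
  unfold dr
  rw [hm.map_mul_of_coprime hab, Nat.cast_mul]

theorem dr_one (r : ℕ) : dr r 1 = 1 := by
  have hm : ((ζ : ArithmeticFunction ℕ) ^ r).IsMultiplicative := isMultiplicative_zeta.pow
  unfold dr
  rw [hm.map_one, Nat.cast_one]

theorem prime_of_mem_PW {z w : ℝ} {p : ℕ} (hp : p ∈ PW z w) : p.Prime :=
  (Finset.mem_filter.1 hp).2.1

theorem ow_mul (z w : ℝ) (p a i : ℕ) (hp : p.Prime) (ha : ¬ p ∣ a) :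
    ow z w (a * p ^ i) = ow z w a + ow z w (p ^ i) := by
  unfold ow
  rw [← Finset.card_union_of_disjoint]
  · congr 1
    ext q
    simp only [Finset.mem_filter, Finset.mem_union]
    constructor
    · rintro ⟨hq, hd⟩
      rcases (prime_of_mem_PW hq).dvd_mul.1 hd with h | h
      · exact Or.inl ⟨hq, h⟩
      · exact Or.inr ⟨hq, h⟩
    · rintro (⟨hq, hd⟩ | ⟨hq, hd⟩)
      · exact ⟨hq, Dvd.dvd.mul_right hd _⟩
      · exact ⟨hq, Dvd.dvd.mul_left hd _⟩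
  · rw [Finset.disjoint_left]
    intro q hq hq'
    rw [Finset.mem_filter] at hq hq'
    have hqp := prime_of_mem_PW hq.1
    have h1 : q ∣ p := hqp.dvd_of_dvd_pow hq'.2
    have h2 : q = p := (Nat.prime_dvd_prime_iff_eq hqp hp).1 h1
    exact ha (h2 ▸ hq.2)

theorem ow_one (z w : ℝ) : ow z w 1 = 0 := by
  unfold ow
  rw [Finset.card_eq_zero, Finset.filter_eq_empty_iff]
  intro q hq hd
  exact (prime_of_mem_PW hq).one_lt.ne' (Nat.dvd_one.1 hd)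

theorem Wp_nonneg (r : ℕ) (z w y σ : ℝ) (hy : 0 ≤ y) (a b : ℕ) : 0 ≤ Wp r z w y σ a b := by
  unfold Wp
  have h1 := dr_nonneg r a
  have h2 := dr_nonneg r b
  positivity

theorem Wp_one (r : ℕ) (z w y σ : ℝ) : Wp r z w y σ 1 1 = 1 := by
  unfold Wp
  rw [dr_one, ow_one]
  simp

theorem Wp_mul (r : ℕ) (z w y σ : ℝ) (hy : 0 ≤ y) (p i j a b : ℕ) (hp : p.Prime) (ha : ¬ p ∣ a)
    (hb : ¬ p ∣ b) : Wp r z w y σ (a * p ^ i) (b * p ^ j) ≤
      Wp r z w y σ a b * Wp r z w y σ (p ^ i) (p ^ j) := by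
  have ha0 : a ≠ 0 := fun h => ha (h ▸ dvd_zero p)
  have hb0 : b ≠ 0 := fun h => hb (h ▸ dvd_zero p)
  have hca : Nat.Coprime a p := ((Nat.Prime.coprime_iff_not_dvd hp).2 ha).symm
  have hcb : Nat.Coprime b p := ((Nat.Prime.coprime_iff_not_dvd hp).2 hb).symm
  have hcab : Nat.Coprime (a * b) (p ^ i * p ^ j) := by
    apply Nat.Coprime.mul_left
    · exact Nat.Coprime.mul_right (hca.pow_right i) (hca.pow_right j)
    · exact Nat.Coprime.mul_right (hcb.pow_right i) (hcb.pow_right j)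
  have hpi : 0 < p ^ i := pow_pos hp.pos i
  have hpj : 0 < p ^ j := pow_pos hp.pos j
  have hL : Nat.lcm a b * Nat.lcm (p ^ i) (p ^ j) ≤ Nat.lcm (a * p ^ i) (b * p ^ j) := by
    apply Nat.le_of_dvd
    · exact Nat.lcm_pos (Nat.mul_pos (Nat.pos_of_ne_zero ha0) hpi)
        (Nat.mul_pos (Nat.pos_of_ne_zero hb0) hpj)
    · apply Nat.Coprime.mul_dvd_of_dvd_of_dvd
      · exact Nat.Coprime.coprime_dvd_left (Nat.lcm_dvd_mul a b)
          (Nat.Coprime.coprime_dvd_right (Nat.lcm_dvd_mul _ _) hcab)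
      · exact Nat.lcm_dvd (Dvd.dvd.trans (Dvd.intro _ rfl) (Nat.dvd_lcm_left _ _))
          (Dvd.dvd.trans (Dvd.intro _ rfl) (Nat.dvd_lcm_right _ _))
      · exact Nat.lcm_dvd (Dvd.dvd.trans (Dvd.intro_left _ rfl) (Nat.dvd_lcm_left _ _))
          (Dvd.dvd.trans (Dvd.intro_left _ rfl) (Nat.dvd_lcm_right _ _))
  have hLp : (0 : ℝ) < ((Nat.lcm a b : ℕ) : ℝ) * ((Nat.lcm (p ^ i) (p ^ j) : ℕ) : ℝ) := by
    have h1 : 0 < Nat.lcm a b := Nat.lcm_pos (Nat.pos_of_ne_zero ha0) (Nat.pos_of_ne_zero hb0)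
    have h2 : 0 < Nat.lcm (p ^ i) (p ^ j) := Nat.lcm_pos hpi hpj
    exact_mod_cast Nat.mul_pos h1 h2
  have hLr : ((Nat.lcm a b : ℕ) : ℝ) * ((Nat.lcm (p ^ i) (p ^ j) : ℕ) : ℝ) ≤
      ((Nat.lcm (a * p ^ i) (b * p ^ j) : ℕ) : ℝ) := by exact_mod_cast hL
  have e1 : dr r (a * p ^ i) = dr r a * dr r (p ^ i) := dr_mul r _ _ (hca.pow_right i)
  have e2 : dr r (b * p ^ j) = dr r b * dr r (p ^ j) := dr_mul r _ _ (hcb.pow_right j)
  have e3 : ow z w (a * p ^ i) = ow z w a + ow z w (p ^ i) := ow_mul z w p a i hp ha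
  have e4 : (((a * p ^ i : ℕ) : ℝ) * ((b * p ^ j : ℕ) : ℝ)) ^ σ =
      ((a : ℝ) * b) ^ σ * (((p ^ i : ℕ) : ℝ) * ((p ^ j : ℕ) : ℝ)) ^ σ := by
    rw [← Real.mul_rpow (by positivity) (by positivity)]
    congr 1
    push_cast
    ring
  have e5 : (a * p ^ i) * (b * p ^ j) = (a * b) * (p ^ i * p ^ j) := by ring
  have e6 : ((((a * p ^ i) * (b * p ^ j) : ℕ) : ℝ) /
      (Nat.totient ((a * p ^ i) * (b * p ^ j)) : ℝ)) ^ 2 =
      (((a * b : ℕ) : ℝ) / (Nat.totient (a * b) : ℝ)) ^ 2 *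
      (((p ^ i * p ^ j : ℕ) : ℝ) / (Nat.totient (p ^ i * p ^ j) : ℝ)) ^ 2 := by
    rw [e5, Nat.totient_mul hcab, Nat.cast_mul (a * b) (p ^ i * p ^ j),
      Nat.cast_mul (Nat.totient (a * b)), mul_div_mul_comm, mul_pow]
  unfold Wp
  rw [e1, e2, e3, e4, e6, pow_add]
  have hn : 0 ≤ dr r a * dr r (p ^ i) * (y ^ ow z w a * y ^ ow z w (p ^ i)) *
      (dr r b * dr r (p ^ j)) *
      (((a : ℝ) * b) ^ σ * (((p ^ i : ℕ) : ℝ) * ((p ^ j : ℕ) : ℝ)) ^ σ) *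
      ((((a * b : ℕ) : ℝ) / (Nat.totient (a * b) : ℝ)) ^ 2 *
      (((p ^ i * p ^ j : ℕ) : ℝ) / (Nat.totient (p ^ i * p ^ j) : ℝ)) ^ 2) := by
    have h1 := dr_nonneg r a
    have h2 := dr_nonneg r b
    have h3 := dr_nonneg r (p ^ i)
    have h4 := dr_nonneg r (p ^ j)
    positivity
  refine le_trans (div_le_div_of_nonneg_left hn hLp hLr) (le_of_eq ?_)
  rw [div_mul_div_comm]
  congr 1
  ring

/-- the power of a prime -/
theorem rpow_bound (p Z : ℕ) (σ τ : ℝ) (hp : 1 ≤ p) (hpZ : p ≤ Z) (hτ : 0 ≤ τ) (hτσ : τ ≤ 2 * σ) :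
    (p : ℝ) ^ τ ≤ 1 + 2 * σ * Real.log p * (Z : ℝ) ^ (2 * σ) := by
  have hp' : (1 : ℝ) ≤ (p : ℝ) := by exact_mod_cast hp
  have hp0 : (0 : ℝ) < (p : ℝ) := by linarith
  have hpZ' : (p : ℝ) ≤ (Z : ℝ) := by exact_mod_cast hpZ
  have hlog : 0 ≤ Real.log p := Real.log_nonneg hp'
  have h1 : (p : ℝ) ^ τ ≤ 1 + τ * Real.log p * (p : ℝ) ^ τ := by
    have h2 : (p : ℝ) ^ τ = Real.exp (τ * Real.log p) := by
      rw [Real.rpow_def_of_pos hp0, mul_comm]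
    rw [h2]
    set x := τ * Real.log p
    have h3 : 1 - x ≤ Real.exp (-x) := by
      have := Real.add_one_le_exp (-x)
      linarith
    have h4 : Real.exp x * (1 - x) ≤ 1 := by
      calc Real.exp x * (1 - x) ≤ Real.exp x * Real.exp (-x) :=
            mul_le_mul_of_nonneg_left h3 (Real.exp_pos x).le
        _ = 1 := by rw [← Real.exp_add, add_neg_cancel, Real.exp_zero]
    linarith
  have h5 : (p : ℝ) ^ τ ≤ (Z : ℝ) ^ (2 * σ) := by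
    calc (p : ℝ) ^ τ ≤ (p : ℝ) ^ (2 * σ) := Real.rpow_le_rpow_of_exponent_le hp' hτσ
      _ ≤ (Z : ℝ) ^ (2 * σ) := Real.rpow_le_rpow hp0.le hpZ' (by linarith)
  have h6 : τ * Real.log p ≤ 2 * σ * Real.log p := mul_le_mul_of_nonneg_right hτσ hlog
  have h7 : τ * Real.log p * (p : ℝ) ^ τ ≤ 2 * σ * Real.log p * (Z : ℝ) ^ (2 * σ) :=
    mul_le_mul h6 h5 (Real.rpow_nonneg hp0.le _) (le_trans (mul_nonneg hτ hlog) h6)
  linarith

theorem rpow_bound' (p Z : ℕ) (σ τ : ℝ) (hp : 1 ≤ p) (hpZ : p ≤ Z) (hτ : 0 ≤ τ)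
    (hτσ : τ ≤ 2 * σ) :
    (p : ℝ) ^ (τ - 1) ≤ 1 / (p : ℝ) + 2 * σ * (Z : ℝ) ^ (2 * σ) * (Real.log p / p) := by
  have hp' : (1 : ℝ) ≤ (p : ℝ) := by exact_mod_cast hp
  have hp0 : (0 : ℝ) < (p : ℝ) := by linarith
  rw [Real.rpow_sub_one hp0.ne', div_le_iff₀ hp0]
  refine le_trans (rpow_bound p Z σ τ hp hpZ hτ hτσ) (le_of_eq ?_)
  field_simp

/-- the factor of the window -/
noncomputable def yp (z w y : ℝ) (p : ℕ) : ℝ := if p ∈ PW z w then y else 1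

theorem yp_nonneg (z w y : ℝ) (p : ℕ) (hy : 1 / 2 ≤ y) : 0 ≤ yp z w y p := by
  unfold yp
  split_ifs <;> linarith

theorem yp_le (z w y : ℝ) (p : ℕ) (hy : y ≤ 2) : yp z w y p ≤ 2 := by
  unfold yp
  split_ifs <;> linarith

theorem pw_min (z w : ℝ) (Z : ℕ) :
    ∑ p ∈ (pr1 Z).filter (fun p => p ∈ PW z w), 1 / (p : ℝ) = pw z (min w Z) := by
  unfold pw
  refine Finset.sum_congr ?_ fun _ _ => rfl
  ext p
  simp only [pr1, PW, Finset.mem_filter, Finset.mem_Icc]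
  constructor
  · rintro ⟨⟨⟨h1, h2⟩, h3⟩, ⟨h4, h5⟩, h6, h7⟩
    refine ⟨⟨h1, ?_⟩, h3, h7⟩
    have h8 : (p : ℝ) ≤ w := (Nat.le_floor_iff' (by omega)).1 h5
    exact Nat.le_floor (le_min h8 (by exact_mod_cast h2))
  · rintro ⟨⟨h1, h2⟩, h3, h4⟩
    have h8 : (p : ℝ) ≤ min w Z := (Nat.le_floor_iff' (by omega)).1 h2
    refine ⟨⟨⟨h1, ?_⟩, h3⟩, ⟨h1, ?_⟩, h3, h4⟩
    · exact_mod_cast le_trans h8 (min_le_right _ _)
    · exact Nat.le_floor (le_trans h8 (min_le_left _ _))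

/-- the sum of the main terms -/
theorem main_sum (r : ℕ) (z w y : ℝ) (h Z : ℕ) (hr : 2 ≤ r) (hh : 1 ≤ h) (hy1 : 1 / 2 ≤ y)
    (hy2 : y ≤ 2) (hph : ph z w h ≤ 1) :
    ∑ p ∈ pr1 Z, (if p ∣ h then (r : ℝ) ^ 2 * yp z w y p / (p : ℝ) else
      (r : ℝ) * (1 + yp z w y p) / (p : ℝ)) ≤
    2 * r * ∑ p ∈ pr1 Z, 1 / (p : ℝ) + ((r : ℝ) ^ 2 - 2 * r) * Sh h +
      r * (y - 1) * pw z (min w Z) + (r : ℝ) ^ 2 := by
  have hr' : (2 : ℝ) ≤ (r : ℝ) := by exact_mod_cast hr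
  have e : ∀ p ∈ pr1 Z, (if p ∣ h then (r : ℝ) ^ 2 * yp z w y p / (p : ℝ) else
      (r : ℝ) * (1 + yp z w y p) / (p : ℝ)) =
      2 * r * (1 / (p : ℝ)) + ((r : ℝ) ^ 2 - 2 * r) * (if p ∣ h then 1 / (p : ℝ) else 0) +
      r * (y - 1) * (if p ∈ PW z w then 1 / (p : ℝ) else 0) +
      ((r : ℝ) ^ 2 - r) * (y - 1) * (if p ∣ h then (if p ∈ PW z w then 1 / (p : ℝ) else 0) else 0) := by
    intro p _
    unfold yp
    split_ifs <;> ring
  rw [Finset.sum_congr rfl e, Finset.sum_add_distrib, Finset.sum_add_distrib,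
    Finset.sum_add_distrib, ← Finset.mul_sum, ← Finset.mul_sum, ← Finset.mul_sum,
    ← Finset.mul_sum, ← Finset.sum_filter, ← Finset.sum_filter, ← Finset.sum_filter,
    ← Finset.sum_filter, pw_min]
  have h1 : ∑ p ∈ (pr1 Z).filter (· ∣ h), 1 / (p : ℝ) ≤ Sh h := by
    unfold Sh
    refine Finset.sum_le_sum_of_subset_of_nonneg ?_ fun _ _ _ => by positivity
    intro p hp
    rw [Finset.mem_filter, pr1, Finset.mem_filter] at hp
    exact Nat.mem_primeFactors.2 ⟨hp.1.2, hp.2, by omega⟩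
  have h2 : ∑ p ∈ ((pr1 Z).filter (· ∣ h)).filter (fun p => p ∈ PW z w), 1 / (p : ℝ) ≤ 1 := by
    refine le_trans ?_ hph
    unfold ph
    refine Finset.sum_le_sum_of_subset_of_nonneg ?_ fun _ _ _ => by positivity
    intro p hp
    rw [Finset.mem_filter, Finset.mem_filter] at hp
    exact Finset.mem_filter.2 ⟨hp.2, hp.1.2⟩
  have h20 : 0 ≤ ∑ p ∈ ((pr1 Z).filter (· ∣ h)).filter (fun p => p ∈ PW z w), 1 / (p : ℝ) :=
    Finset.sum_nonneg fun _ _ => by positivity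
  have h3 : ((r : ℝ) ^ 2 - 2 * r) * ∑ p ∈ (pr1 Z).filter (· ∣ h), 1 / (p : ℝ) ≤
      ((r : ℝ) ^ 2 - 2 * r) * Sh h := by
    apply mul_le_mul_of_nonneg_left h1
    nlinarith
  have h4 : ((r : ℝ) ^ 2 - r) * (y - 1) *
      ∑ p ∈ ((pr1 Z).filter (· ∣ h)).filter (fun p => p ∈ PW z w), 1 / (p : ℝ) ≤ (r : ℝ) ^ 2 := by
    have h5 : 0 ≤ (r : ℝ) ^ 2 - r := by nlinarith
    have h6 : ((r : ℝ) ^ 2 - r) * (y - 1) ≤ (r : ℝ) ^ 2 - r := by nlinarith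
    calc _ ≤ ((r : ℝ) ^ 2 - r) *
          ∑ p ∈ ((pr1 Z).filter (· ∣ h)).filter (fun p => p ∈ PW z w), 1 / (p : ℝ) :=
          mul_le_mul_of_nonneg_right h6 h20
      _ ≤ ((r : ℝ) ^ 2 - r) * 1 := mul_le_mul_of_nonneg_left h2 h5
      _ ≤ (r : ℝ) ^ 2 := by linarith
  linarith

theorem term_bound (r : ℕ) (z w y σ : ℝ) (h Z p : ℕ) (hy1 : 1 / 2 ≤ y) (hy2 : y ≤ 2)
    (hσ : 0 ≤ σ) (hp : 1 ≤ p) (hpZ : p ≤ Z) :
    (if p ∣ h then (r : ℝ) ^ 2 * yp z w y p * (p : ℝ) ^ (2 * σ - 1) else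
      (r : ℝ) * (1 + yp z w y p) * (p : ℝ) ^ (σ - 1)) ≤
    (if p ∣ h then (r : ℝ) ^ 2 * yp z w y p / (p : ℝ) else
      (r : ℝ) * (1 + yp z w y p) / (p : ℝ)) +
      (3 * r + 2 * (r : ℝ) ^ 2) * (2 * σ * (Z : ℝ) ^ (2 * σ)) * (Real.log p / p) := by
  have hp' : (1 : ℝ) ≤ (p : ℝ) := by exact_mod_cast hp
  have hlog : 0 ≤ Real.log p / p := div_nonneg (Real.log_nonneg hp') (by linarith)
  have hy0 := yp_nonneg z w y p hy1
  have hy3 := yp_le z w y p hy2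
  have hr0 : (0 : ℝ) ≤ (r : ℝ) := Nat.cast_nonneg r
  have hZ : 0 ≤ 2 * σ * (Z : ℝ) ^ (2 * σ) := by positivity
  have hK : 0 ≤ 2 * σ * (Z : ℝ) ^ (2 * σ) * (Real.log p / p) := mul_nonneg hZ hlog
  split_ifs with hd
  · have h1 := rpow_bound' p Z σ (2 * σ) hp hpZ (by linarith) le_rfl
    calc (r : ℝ) ^ 2 * yp z w y p * (p : ℝ) ^ (2 * σ - 1)
        ≤ (r : ℝ) ^ 2 * yp z w y p *
          (1 / (p : ℝ) + 2 * σ * (Z : ℝ) ^ (2 * σ) * (Real.log p / p)) :=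
          mul_le_mul_of_nonneg_left h1 (by positivity)
      _ = (r : ℝ) ^ 2 * yp z w y p / (p : ℝ) + (r : ℝ) ^ 2 * yp z w y p *
          (2 * σ * (Z : ℝ) ^ (2 * σ) * (Real.log p / p)) := by ring
      _ ≤ (r : ℝ) ^ 2 * yp z w y p / (p : ℝ) + (3 * r + 2 * (r : ℝ) ^ 2) *
          (2 * σ * (Z : ℝ) ^ (2 * σ) * (Real.log p / p)) := by
          have : (r : ℝ) ^ 2 * yp z w y p ≤ 3 * r + 2 * (r : ℝ) ^ 2 := by
            have := mul_le_mul_of_nonneg_left hy3 (sq_nonneg (r : ℝ))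
            linarith
          have := mul_le_mul_of_nonneg_right this hK
          linarith
      _ = _ := by ring
  · have h1 := rpow_bound' p Z σ σ hp hpZ hσ (by linarith)
    calc (r : ℝ) * (1 + yp z w y p) * (p : ℝ) ^ (σ - 1)
        ≤ (r : ℝ) * (1 + yp z w y p) *
          (1 / (p : ℝ) + 2 * σ * (Z : ℝ) ^ (2 * σ) * (Real.log p / p)) :=
          mul_le_mul_of_nonneg_left h1 (by positivity)
      _ = (r : ℝ) * (1 + yp z w y p) / (p : ℝ) + (r : ℝ) * (1 + yp z w y p) *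
          (2 * σ * (Z : ℝ) ^ (2 * σ) * (Real.log p / p)) := by ring
      _ ≤ (r : ℝ) * (1 + yp z w y p) / (p : ℝ) + (3 * r + 2 * (r : ℝ) ^ 2) *
          (2 * σ * (Z : ℝ) ^ (2 * σ) * (Real.log p / p)) := by
          have : (r : ℝ) * (1 + yp z w y p) ≤ 3 * r + 2 * (r : ℝ) ^ 2 := by
            have h2 : 1 + yp z w y p ≤ 3 := by linarith
            have := mul_le_mul_of_nonneg_left h2 hr0
            nlinarith
          have := mul_le_mul_of_nonneg_right this hK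
          linarith
      _ = _ := by ring

/-- the constant for the sum of `p ^ (-3/2)` -/
noncomputable def S32 : ℝ := ∑' n : ℕ, (n : ℝ) ^ (-(3 / 2) : ℝ)

theorem sum_le_S32 (Z : ℕ) : ∑ p ∈ pr1 Z, (p : ℝ) ^ (-(3 / 2) : ℝ) ≤ S32 :=
  (Real.summable_nat_rpow.2 (by norm_num)).sum_le_tsum _
    fun _ _ => Real.rpow_nonneg (Nat.cast_nonneg _) _

theorem S32_nonneg : 0 ≤ S32 := tsum_nonneg fun _ => Real.rpow_nonneg (Nat.cast_nonneg _) _

end IN7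

theorem prN7 (hN1 : tsN1) (hN5 : tsN5) (hN6 : tsN6) : tsN7 := by
  intro r hr
  obtain ⟨C1, hC1, hM, -⟩ := hN1
  obtain ⟨C6, hC6, hL⟩ := hN6 r (by omega)
  have hr' : (2 : ℝ) ≤ (r : ℝ) := by exact_mod_cast hr
  have hr0 : (0 : ℝ) ≤ (r : ℝ) := by linarith
  have hS := IN7.S32_nonneg
  set K0 : ℝ := 2 * r * C1 + (r : ℝ) ^ 2 + C6 * IN7.S32 with hK0
  set K1 : ℝ := (3 * r + 2 * (r : ℝ) ^ 2) * 2 * (1 + C1) with hK1
  have hK0' : 0 < K0 := by positivity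
  have hK1' : 0 < K1 := by positivity
  refine ⟨K0 + K1, by positivity, ?_⟩
  intro z w y σ h Z M hh hZ hy1 hy2 hσ hσ2 hph
  have hy0 : 0 ≤ y := by linarith
  have hZ' : (2 : ℝ) ≤ (Z : ℝ) := by exact_mod_cast hZ
  have hlogZ : 0 < Real.log Z := Real.log_pos (by linarith)
  have hZσ : 0 ≤ σ * (Z : ℝ) ^ (2 * σ) := by positivity
  -- the product
  have h1 := hN5 (Wp r z w y σ) (IN7.Wp_nonneg r z w y σ hy0)
    (fun p i j a b hp ha hb => IN7.Wp_mul r z w y σ hy0 p i j a b hp ha hb) h Z M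
  rw [IN7.Wp_one, one_mul] at h1
  refine le_trans h1 ?_
  have hLF0 : ∀ p, 0 ≤ LF (Wp r z w y σ) h M p := by
    intro p
    unfold LF
    split_ifs
    · exact Finset.sum_nonneg fun _ _ => Finset.sum_nonneg fun _ _ =>
        IN7.Wp_nonneg r z w y σ hy0 _ _
    · exact Finset.sum_nonneg fun _ _ => add_nonneg (IN7.Wp_nonneg r z w y σ hy0 _ _)
        (IN7.Wp_nonneg r z w y σ hy0 _ _)
  have h2 : ∏ p ∈ pr1 Z, (1 + LF (Wp r z w y σ) h M p) ≤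
      Real.exp (∑ p ∈ pr1 Z, LF (Wp r z w y σ) h M p) := by
    rw [Real.exp_sum]
    refine Finset.prod_le_prod (fun p _ => add_nonneg zero_le_one (hLF0 p)) fun p _ => ?_
    rw [add_comm]
    exact Real.add_one_le_exp _
  refine le_trans h2 ?_
  -- the sum
  have h3 : ∑ p ∈ pr1 Z, LF (Wp r z w y σ) h M p ≤
      2 * r * Real.log (Real.log Z) + (K0 + K1 * σ * (Z : ℝ) ^ (2 * σ) * (1 + Real.log Z) +
        r * (y - 1) * pw z (min w Z) + ((r : ℝ) ^ 2 - 2 * r) * Sh h) := by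
    have h4 : ∀ p ∈ pr1 Z, LF (Wp r z w y σ) h M p ≤
        (if p ∣ h then (r : ℝ) ^ 2 * IN7.yp z w y p / (p : ℝ) else
          (r : ℝ) * (1 + IN7.yp z w y p) / (p : ℝ)) +
        (3 * r + 2 * (r : ℝ) ^ 2) * (2 * σ * (Z : ℝ) ^ (2 * σ)) * (Real.log p / p) +
        C6 * (p : ℝ) ^ (-(3 / 2) : ℝ) := by
      intro p hp
      rw [pr1, Finset.mem_filter, Finset.mem_Icc] at hp
      refine le_trans (hL z w y σ h M p hp.2 hy1 hy2 hσ hσ2) ?_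
      have := IN7.term_bound r z w y σ h Z p hy1 hy2 hσ hp.1.1 hp.1.2
      unfold IN7.yp at this ⊢
      linarith
    refine le_trans (Finset.sum_le_sum h4) ?_
    rw [Finset.sum_add_distrib, Finset.sum_add_distrib, ← Finset.mul_sum, ← Finset.mul_sum]
    have h5 := IN7.main_sum r z w y h Z hr hh hy1 hy2 hph
    have h6 := hM Z hZ
    have h7 : ∑ p ∈ pr1 Z, 1 / (p : ℝ) ≤ Real.log (Real.log Z) + C1 := by
      have := (abs_le.1 h6.2).2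
      linarith
    have h8 : (3 * r + 2 * (r : ℝ) ^ 2) * (2 * σ * (Z : ℝ) ^ (2 * σ)) *
        ∑ p ∈ pr1 Z, Real.log p / p ≤ K1 * σ * (Z : ℝ) ^ (2 * σ) * (1 + Real.log Z) := by
      have h9 : ∑ p ∈ pr1 Z, Real.log p / p ≤ (1 + C1) * (1 + Real.log Z) := by
        have := h6.1
        nlinarith [mul_pos hC1 hlogZ]
      calc _ ≤ (3 * r + 2 * (r : ℝ) ^ 2) * (2 * σ * (Z : ℝ) ^ (2 * σ)) *
            ((1 + C1) * (1 + Real.log Z)) := mul_le_mul_of_nonneg_left h9 (by positivity)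
        _ = K1 * σ * (Z : ℝ) ^ (2 * σ) * (1 + Real.log Z) := by rw [hK1]; ring
    have h10 : C6 * ∑ p ∈ pr1 Z, (p : ℝ) ^ (-(3 / 2) : ℝ) ≤ C6 * IN7.S32 :=
      mul_le_mul_of_nonneg_left (IN7.sum_le_S32 Z) hC6.le
    have h11 : 2 * (r : ℝ) * ∑ p ∈ pr1 Z, 1 / (p : ℝ) ≤
        2 * r * (Real.log (Real.log Z) + C1) := mul_le_mul_of_nonneg_left h7 (by positivity)
    rw [hK0]
    linarith
  refine le_trans (Real.exp_le_exp.2 h3) ?_
  rw [Real.exp_add, mul_comm]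
  have h12 : Real.exp (2 * r * Real.log (Real.log Z)) = Real.log Z ^ (2 * r) := by
    rw [← Real.exp_log hlogZ, ← Real.exp_nat_mul, Real.log_exp]
    push_cast
    ring_nf
  rw [h12]
  apply mul_le_mul_of_nonneg_right _ (by positivity)
  apply Real.exp_le_exp.2
  have h13 : 0 ≤ K0 * σ * (Z : ℝ) ^ (2 * σ) * (1 + Real.log Z) := by positivity
  nlinarith

end Pool.Agent.Work.MP_122e00_nt.TS
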