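import Mathlib
import Pool.Agent.Work.MP_122e00_nt.TS.Stmts8

/-!
# All powers, item N9: one bucket
-/

namespace Pool.Agent.Work.MP_122e00_nt.TS

open Finset Filter Topology ArithmeticFunction

namespace IN9

/-- admissibility of the pair of the smooth parts -/
theorem mem_AdP (h8 : ∀ Z n : ℕ, 1 ≤ n → sm Z n ∣ n ∧ 1 ≤ sm Z n ∧
    (∀ p : ℕ, p.Prime → (p ∣ sm Z n ↔ p ∣ n ∧ p ≤ Z))) (h n Z Zt M : ℕ) (hn : 1 ≤ n) (hZ : Z ≤ Zt)
    (ha : sm Z n ≤ M) (ha' : sm Z (n + h) ≤ M) : (sm Z n, sm Z (n + h)) ∈ AdP h Zt M := by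
  obtain ⟨-, a1, a2⟩ := h8 Z n hn
  obtain ⟨-, b1, b2⟩ := h8 Z (n + h) (by omega)
  unfold AdP
  simp only [Finset.mem_filter, Finset.mem_product, Finset.mem_Icc]
  refine ⟨⟨⟨a1, ha⟩, ⟨b1, ha'⟩⟩, ?_⟩
  intro p hp
  have hpp := Nat.prime_of_mem_primeFactors hp
  have hd := Nat.dvd_of_mem_primeFactors hp
  have hor := (Nat.Prime.dvd_mul hpp).mp hd
  have hpZ : p ≤ Z := by
    rcases hor with h1 | h1
    · exact ((a2 p hpp).mp h1).2
    · exact ((b2 p hpp).mp h1).2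
  refine ⟨hpZ.trans hZ, fun hph => ?_, fun hph hboth => hph ?_⟩
  · rcases hor with h1 | h1
    · have h2 := ((a2 p hpp).mp h1).1
      exact ⟨h1, (b2 p hpp).mpr ⟨(Nat.dvd_add_right h2).mpr hph, hpZ⟩⟩
    · have h2 := ((b2 p hpp).mp h1).1
      exact ⟨(a2 p hpp).mpr ⟨(Nat.dvd_add_left hph).mp h2, hpZ⟩, h1⟩
  · have h2 := ((a2 p hpp).mp hboth.1).1
    have h3 := ((b2 p hpp).mp hboth.2).1
    exact (Nat.dvd_add_right h2).mp h3

/-- membership in the sieved set -/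
theorem mem_Ns (h8 : ∀ Z n : ℕ, 1 ≤ n → sm Z n ∣ n ∧ 1 ≤ sm Z n ∧
    (∀ p : ℕ, p.Prime → (p ∣ sm Z n ↔ p ∣ n ∧ p ≤ Z))) (X : ℝ) (h n Z Z' : ℕ)
    (hn : n ∈ Finset.Icc 1 ⌊X⌋₊) (hZ : Z' ≤ Z) :
    n ∈ Ns X h (sm Z n) (sm Z (n + h)) Z' := by
  have hn1 : 1 ≤ n := (Finset.mem_Icc.mp hn).1
  obtain ⟨a0, a1, a2⟩ := h8 Z n hn1
  obtain ⟨b0, b1, b2⟩ := h8 Z (n + h) (by omega)
  unfold Ns
  refine Finset.mem_filter.mpr ⟨hn, a0, b0, ?_⟩
  intro p hp hd
  unfold pr1 at hp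
  obtain ⟨hp1, hpp⟩ := Finset.mem_filter.mp hp
  have hpZ : p ≤ Z := (Finset.mem_Icc.mp hp1).2.trans hZ
  rcases (Nat.Prime.dvd_mul hpp).mp hd with h1 | h1
  · exact Dvd.dvd.mul_right ((a2 p hpp).mpr ⟨h1, hpZ⟩) _
  · exact Dvd.dvd.mul_left ((b2 p hpp).mpr ⟨h1, hpZ⟩) _

theorem dr_nonneg (r n : ℕ) : 0 ≤ dr r n := by unfold dr; exact Nat.cast_nonneg _

/-- bound for one term -/
theorem term_le (h8 : ∀ (r Z n k : ℕ) (z w y : ℝ), 1 ≤ r → 1 ≤ n → 1 / 2 ≤ y → y ≤ 2 →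
    n ≤ Z ^ (k + 1) → dr r n * y ^ ow z w n ≤ dr r (sm Z n) * y ^ ow z w (sm Z n) * (2 * r) ^ k)
    (r Z n h s : ℕ) (z w y : ℝ) (hr : 1 ≤ r) (hn : 1 ≤ n) (hy1 : 1 / 2 ≤ y) (hy2 : y ≤ 2)
    (hZ : n + h ≤ Z ^ (s + 1 + 1)) :
    dr r n * y ^ ow z w n * dr r (n + h) ≤
      dr r (sm Z n) * y ^ ow z w (sm Z n) * dr r (sm Z (n + h)) * (2 * (r : ℝ)) ^ (2 * s + 2) := by
  have g1 := h8 r Z n (s + 1) z w y hr hn hy1 hy2 (by omega)
  have g2 := h8 r Z (n + h) (s + 1) z w 1 hr (by omega) (by norm_num) (by norm_num) hZ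
  rw [one_pow, one_pow, mul_one, mul_one] at g2
  have hy0 : 0 ≤ y := by linarith
  have d1 := dr_nonneg r (n + h)
  have d2 := dr_nonneg r (sm Z n)
  have e1 : 0 ≤ dr r (sm Z n) * y ^ ow z w (sm Z n) * (2 * (r : ℝ)) ^ (s + 1) := by positivity
  calc dr r n * y ^ ow z w n * dr r (n + h) ≤
      (dr r (sm Z n) * y ^ ow z w (sm Z n) * (2 * (r : ℝ)) ^ (s + 1)) *
        (dr r (sm Z (n + h)) * (2 * (r : ℝ)) ^ (s + 1)) := mul_le_mul g1 g2 d1 e1
    _ = _ := by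
      have : (2 * (r : ℝ)) ^ (2 * s + 2) = (2 * (r : ℝ)) ^ (s + 1) * (2 * (r : ℝ)) ^ (s + 1) := by
        rw [← pow_add]; congr 1; ring
      rw [this]; ring

theorem sum_sq (S : Finset ℕ) (hS : ∀ p ∈ S, 2 ≤ p) : ∑ p ∈ S, 1 / (p : ℝ) ^ 2 ≤ 1 := by
  have key : ∀ N : ℕ, ∑ p ∈ Finset.Icc 2 (N + 1), 1 / (p : ℝ) ^ 2 ≤ 1 - 1 / ((N : ℝ) + 1) := by
    intro N
    induction N with
    | zero => simp
    | succ N ih =>
      rw [Finset.sum_Icc_succ_top (by omega)]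
      have h1 : 1 / (((N + 1 + 1 : ℕ) : ℝ)) ^ 2 ≤ 1 / ((N : ℝ) + 1) - 1 / (((N + 1 : ℕ) : ℝ) + 1) := by
        push_cast
        have hN : (0 : ℝ) ≤ N := Nat.cast_nonneg N
        rw [div_sub_div _ _ (by positivity) (by positivity), div_le_div_iff₀ (by positivity)
          (by positivity)]
        nlinarith
      linarith
  obtain ⟨N, hN⟩ : ∃ N : ℕ, ∀ p ∈ S, p ≤ N + 1 :=
    ⟨S.sup id, fun p hp => (Finset.le_sup (f := id) hp).trans (Nat.le_succ _)⟩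
  have h1 : S ⊆ Finset.Icc 2 (N + 1) := fun p hp => Finset.mem_Icc.mpr ⟨hS p hp, hN p hp⟩
  refine (Finset.sum_le_sum_of_subset_of_nonneg h1 fun _ _ _ => by positivity).trans ?_
  have := key N
  have h2 : (0 : ℝ) ≤ 1 / ((N : ℝ) + 1) := by positivity
  linarith

/-- `h/φ(h) ≤ exp (Sh h + 4)` -/
theorem phi_le (h : ℕ) (hh : 1 ≤ h) : (h : ℝ) / (Nat.totient h : ℝ) ≤ Real.exp (Sh h + 4) := by
  have e0 : (Nat.totient h : ℝ) = h * ∏ p ∈ h.primeFactors, (1 - ((p : ℝ))⁻¹) := by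
    have := Nat.totient_eq_mul_prod_factors h
    have h2 : ((Nat.totient h : ℚ) : ℝ) = ((h * ∏ p ∈ h.primeFactors, (1 - ((p : ℚ))⁻¹) : ℚ) : ℝ) := by
      rw [this]
    push_cast at h2
    exact h2
  have hh0 : (0 : ℝ) < h := by exact_mod_cast hh
  have hp : ∀ p ∈ h.primeFactors, (2 : ℝ) ≤ p := fun p hp => by
    exact_mod_cast (Nat.prime_of_mem_primeFactors hp).two_le
  have hpos : ∀ p ∈ h.primeFactors, 0 < 1 - ((p : ℝ))⁻¹ := by
    intro p hpp
    have h2 := hp p hpp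
    have : ((p : ℝ))⁻¹ ≤ 2⁻¹ := inv_anti₀ (by norm_num) h2
    linarith [show (2 : ℝ)⁻¹ = 1 / 2 by norm_num]
  have hP : 0 < ∏ p ∈ h.primeFactors, (1 - ((p : ℝ))⁻¹) := Finset.prod_pos hpos
  rw [e0, div_mul_eq_div_div, div_self hh0.ne', one_div, ← Finset.prod_inv_distrib]
  have h1 : ∏ p ∈ h.primeFactors, (1 - ((p : ℝ))⁻¹)⁻¹ ≤
      ∏ p ∈ h.primeFactors, Real.exp (1 / (p : ℝ) + 2 * (1 / (p : ℝ) ^ 2)) := by
    refine Finset.prod_le_prod (fun p hpp => (inv_pos.mpr (hpos p hpp)).le) fun p hpp => ?_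
    have h2 := hp p hpp
    have hx0 : 0 < 1 / (p : ℝ) := by positivity
    have hx : 1 / (p : ℝ) ≤ 1 / 2 := one_div_le_one_div_of_le (by norm_num) h2
    have e1 : 1 / (p : ℝ) ^ 2 = (1 / (p : ℝ)) ^ 2 := by rw [div_pow, one_pow]
    rw [e1, ← one_div (p : ℝ)]
    generalize 1 / (p : ℝ) = x at hx0 hx
    have h3 := Real.add_one_le_exp (x + 2 * x ^ 2)
    refine le_trans ?_ h3
    rw [inv_le_iff_one_le_mul₀ (by linarith)]
    nlinarith [mul_pos hx0 hx0]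
  refine h1.trans ?_
  rw [← Real.exp_sum, Finset.sum_add_distrib, ← Finset.mul_sum]
  refine Real.exp_le_exp.mpr ?_
  have h4 := sum_sq h.primeFactors (fun p hp => (Nat.prime_of_mem_primeFactors hp).two_le)
  unfold Sh
  linarith

theorem pw_mono (z w1 w2 : ℝ) (hw : w1 ≤ w2) : pw z w1 ≤ pw z w2 := by
  unfold pw
  refine Finset.sum_le_sum_of_subset_of_nonneg ?_ fun _ _ _ => by positivity
  intro p hp
  unfold PW at hp ⊢
  simp only [Finset.mem_filter, Finset.mem_Icc] at hp ⊢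
  exact ⟨⟨hp.1.1, hp.1.2.trans (Nat.floor_mono hw)⟩, hp.2⟩

theorem pw_split (z w : ℝ) (Z : ℕ) : pw z w ≤ pw z Z + pw Z w := by
  unfold pw
  rw [← Finset.sum_filter_add_sum_filter_not (PW z w) (fun p => p ≤ Z)]
  refine add_le_add ?_ ?_
  · refine Finset.sum_le_sum_of_subset_of_nonneg ?_ fun _ _ _ => by positivity
    intro p hp
    unfold PW at hp ⊢
    simp only [Finset.mem_filter, Finset.mem_Icc, Nat.floor_natCast] at hp ⊢
    exact ⟨⟨hp.1.1.1, hp.2⟩, hp.1.2⟩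
  · refine Finset.sum_le_sum_of_subset_of_nonneg ?_ fun _ _ _ => by positivity
    intro p hp
    unfold PW at hp ⊢
    simp only [Finset.mem_filter, Finset.mem_Icc] at hp ⊢
    have h2 : Z < p := not_le.mp hp.2
    exact ⟨hp.1.1, hp.1.2.1, by exact_mod_cast h2⟩

theorem Wp_nonneg (r : ℕ) (z w y σ : ℝ) (a b : ℕ) (hy : 0 ≤ y) : 0 ≤ Wp r z w y σ a b := by
  unfold Wp
  have d1 := dr_nonneg r a
  have d2 := dr_nonneg r b
  positivity

/-- the fibre over one pair -/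
theorem alg_le (R C X G L T1 d1 yy d2 ab f lc c : ℝ) (hc : c ≤ C * X / lc * f ^ 2 * G / L)
    (hF : 0 ≤ d1 * yy * d2 * R) (hone : 1 ≤ T1 * ab) (hpos : 0 ≤ C * X / lc * f ^ 2 * G / L) :
    c * (d1 * yy * d2 * R) ≤ R * (C * X * G / L) * T1 * (d1 * yy * d2 * ab * f ^ 2 / lc) := by
  have h1 : c * (d1 * yy * d2 * R) ≤ (C * X / lc * f ^ 2 * G / L) * (d1 * yy * d2 * R) :=
    mul_le_mul_of_nonneg_right hc hF
  refine h1.trans ?_
  have h2 : R * (C * X * G / L) * T1 * (d1 * yy * d2 * ab * f ^ 2 / lc) =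
      ((C * X / lc * f ^ 2 * G / L) * (d1 * yy * d2 * R)) * (T1 * ab) := by ring
  rw [h2]
  exact le_mul_of_one_le_right (mul_nonneg hpos hF) hone

end IN9

open Classical in
open IN9 in
theorem prN9 (hN1 : tsN1) (hN4 : tsN4) (hN7 : tsN7) (hN8 : tsN8) : tsN9 := by
  intro r hr
  obtain ⟨C1, hC1, -, hM⟩ := hN1
  obtain ⟨C4, hC4, h4⟩ := hN4
  obtain ⟨C7, hC7, h7⟩ := hN7 r hr
  obtain ⟨h8a, -, -, -, h8e⟩ := hN8
  have hr0 : (2 : ℝ) ≤ r := by exact_mod_cast hr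
  refine ⟨8 * r + C4 + 6 + 2 * C7 + 2 * r + r * C1, by positivity, ?_⟩
  intro X z w y σ T h s hs hX4 hh hhX hwX hy1 hy2 hσ0 hσ1 hσX hT hph
  have hs0 : (32 : ℝ) ≤ s := by exact_mod_cast hs
  have hX1 : (1 : ℝ) ≤ X := by
    have : (1 : ℝ) ≤ h := by exact_mod_cast hh
    linarith
  have hXpos : 0 < X := by linarith
  have hy0 : 0 ≤ y := by linarith
  obtain ⟨u, hu⟩ : ∃ u : ℝ, u = 1 / ((s : ℝ) + 1) := ⟨_, rfl⟩
  rw [← hu] at hX4
  have hu0 : 0 < u := by rw [hu]; positivity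
  have hus : u ≤ 1 / (s : ℝ) := by
    rw [hu]; exact one_div_le_one_div_of_le (by linarith) (by linarith)
  have hu1 : 1 / (s : ℝ) ≤ 1 / 4 := one_div_le_one_div_of_le (by norm_num) (by linarith)
  have hXs4 : 4 ≤ X ^ (1 / (s : ℝ)) := hX4.trans (Real.rpow_le_rpow_of_exponent_le hX1 hus)
  have hX4' : 4 ≤ X := by
    calc (4 : ℝ) ≤ X ^ u := hX4
      _ ≤ X ^ (1 : ℝ) := Real.rpow_le_rpow_of_exponent_le hX1 (by linarith)
      _ = X := Real.rpow_one X
  have hL : 1 ≤ Real.log X := by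
    have h1 : Real.exp 1 ≤ X := by
      have := Real.exp_one_lt_d9
      linarith
    exact (Real.le_log_iff_exp_le hXpos).mpr h1
  obtain ⟨Zt, hZt⟩ : ∃ Zt : ℕ, Zt = ⌊X ^ (1 / (s : ℝ))⌋₊ := ⟨_, rfl⟩
  have hZt4 : 4 ≤ Zt := by rw [hZt]; exact Nat.le_floor (by exact_mod_cast hXs4)
  have hZt4r : (4 : ℝ) ≤ Zt := by exact_mod_cast hZt4
  have hZtX : (Zt : ℝ) ≤ X ^ (1 / (s : ℝ)) := by rw [hZt]; exact Nat.floor_le (by positivity)
  obtain ⟨ZP, hZP⟩ : ∃ ZP : ℕ, ZP = ⌈X ^ u⌉₊ := ⟨_, rfl⟩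
  have hZPX : X ^ u ≤ ZP := by rw [hZP]; exact Nat.le_ceil _
  have hlogZP : u * Real.log X ≤ Real.log ZP := by
    rw [← Real.log_rpow hXpos]
    exact Real.log_le_log (by positivity) hZPX
  have hlogZt : Real.log Zt ≤ 1 / (s : ℝ) * Real.log X := by
    rw [← Real.log_rpow hXpos]
    exact Real.log_le_log (by linarith) hZtX
  have hlogZt2 : Real.log X ≤ 2 * s * Real.log Zt := by
    obtain ⟨v, hv⟩ : ∃ v : ℝ, v = X ^ (1 / (2 * (s : ℝ))) := ⟨_, rfl⟩
    have hv0 : 0 < v := by rw [hv]; positivity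
    have hv2 : v ^ 2 = X ^ (1 / (s : ℝ)) := by
      rw [hv, ← Real.rpow_natCast, ← Real.rpow_mul hXpos.le]
      congr 1
      push_cast
      field_simp
    have hv3 : 2 ≤ v := by nlinarith
    have hv4 : v ≤ Zt := by
      have g1 : X ^ (1 / (s : ℝ)) < Zt + 1 := by rw [hZt]; exact Nat.lt_floor_add_one _
      nlinarith
    have hv5 : Real.log v ≤ Real.log Zt := Real.log_le_log hv0 hv4
    have hv6 : Real.log v = 1 / (2 * (s : ℝ)) * Real.log X := by rw [hv, Real.log_rpow hXpos]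
    rw [hv6] at hv5
    have g2 : 2 * (s : ℝ) * (1 / (2 * (s : ℝ)) * Real.log X) ≤ 2 * s * Real.log Zt :=
      mul_le_mul_of_nonneg_left hv5 (by positivity)
    have g3 : 2 * (s : ℝ) * (1 / (2 * (s : ℝ)) * Real.log X) = Real.log X := by field_simp
    linarith
  have hlogZt0 : 0 < Real.log Zt := Real.log_pos (by linarith)
  -- the choice of `Z`
  have hch : ∀ n, ∃ Z : ℕ, Bk X T h s n → (X ^ u ≤ (Z : ℝ) ∧ (Z : ℝ) ≤ X ^ (1 / (s : ℝ)) ∧
      T < (sm Z n : ℝ) * (sm Z (n + h) : ℝ) ∧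
      (sm Z n : ℝ) * (sm Z (n + h) : ℝ) ≤ X ^ (1 / 4 : ℝ)) := by
    intro n
    by_cases hb : Bk X T h s n
    · obtain ⟨Z, hZ⟩ := hb
      exact ⟨Z, fun _ => by rw [hu]; exact hZ⟩
    · exact ⟨0, fun h => absurd h hb⟩
  choose Zf hZf using hch
  obtain ⟨S, hS⟩ : ∃ S : Finset ℕ, S = (Finset.Icc 1 ⌊X⌋₊).filter (Bk X T h s) := ⟨_, rfl⟩
  obtain ⟨M, hMd⟩ : ∃ M : ℕ, M = ⌊X ^ (1 / 4 : ℝ)⌋₊ := ⟨_, rfl⟩
  rw [← hS]
  have hSm : ∀ n ∈ S, n ∈ Finset.Icc 1 ⌊X⌋₊ ∧ 1 ≤ n ∧ Bk X T h s n := by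
    intro n hn
    rw [hS] at hn
    obtain ⟨h1, h2⟩ := Finset.mem_filter.mp hn
    exact ⟨h1, (Finset.mem_Icc.mp h1).1, h2⟩
  have hmaps : ∀ n ∈ S, (sm (Zf n) n, sm (Zf n) (n + h)) ∈ AdP h Zt M := by
    intro n hn
    obtain ⟨hn1, hn2, hn3⟩ := hSm n hn
    obtain ⟨z1, z2, z3, z4⟩ := hZf n hn3
    have a1 : (1 : ℝ) ≤ (sm (Zf n) n : ℝ) := by exact_mod_cast (h8a (Zf n) n hn2).2.1
    have a2 : (1 : ℝ) ≤ (sm (Zf n) (n + h) : ℝ) := by
      exact_mod_cast (h8a (Zf n) (n + h) (by omega)).2.1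
    refine mem_AdP h8a h n (Zf n) Zt M hn2 ?_ ?_ ?_
    · rw [hZt]; exact Nat.le_floor z2
    · rw [hMd]; exact Nat.le_floor (by nlinarith)
    · rw [hMd]; exact Nat.le_floor (by nlinarith)
  rw [← Finset.sum_fiberwise_of_maps_to hmaps]
  obtain ⟨K, hK⟩ : ∃ K : ℝ, K = (2 * (r : ℝ)) ^ (2 * s + 2) *
      (C4 * X * ((h : ℝ) / (Nat.totient h : ℝ)) / Real.log ZP ^ 2) * T ^ (-σ) := ⟨_, rfl⟩
  have hK0 : 0 ≤ K := by rw [hK]; positivity
  have hfib : ∀ q ∈ AdP h Zt M, ∑ n ∈ S with (sm (Zf n) n, sm (Zf n) (n + h)) = q,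
      dr r n * y ^ ow z w n * dr r (n + h) ≤ K * Wp r z w y σ q.1 q.2 := by
    intro q _
    rcases (S.filter fun n => (sm (Zf n) n, sm (Zf n) (n + h)) = q).eq_empty_or_nonempty with
      he | hne
    · rw [he, Finset.sum_empty]
      exact mul_nonneg hK0 (Wp_nonneg r z w y σ q.1 q.2 hy0)
    · obtain ⟨n0, hn0⟩ := hne
      obtain ⟨hn0S, hn0q⟩ := Finset.mem_filter.mp hn0
      obtain ⟨-, hn01, hn0B⟩ := hSm n0 hn0S
      obtain ⟨z1, z2, z3, z4⟩ := hZf n0 hn0B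
      have hq1 : sm (Zf n0) n0 = q.1 := congrArg Prod.fst hn0q
      have hq2 : sm (Zf n0) (n0 + h) = q.2 := congrArg Prod.snd hn0q
      have ha1 : 1 ≤ q.1 := by rw [← hq1]; exact (h8a (Zf n0) n0 hn01).2.1
      have ha2 : 1 ≤ q.2 := by rw [← hq2]; exact (h8a (Zf n0) (n0 + h) (by omega)).2.1
      rw [hq1, hq2] at z3 z4
      have hlcm : ((Nat.lcm q.1 q.2 : ℕ) : ℝ) ≤ X ^ (1 / 4 : ℝ) := by
        have g1 : Nat.lcm q.1 q.2 ≤ q.1 * q.2 := Nat.le_of_dvd (by positivity) (Nat.lcm_dvd_mul _ _)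
        have g2 : ((Nat.lcm q.1 q.2 : ℕ) : ℝ) ≤ (q.1 : ℝ) * q.2 := by exact_mod_cast g1
        linarith
      have hZP2 : 2 ≤ ZP := by
        have : (2 : ℝ) ≤ ZP := by linarith
        exact_mod_cast this
      have hZPn : ∀ n ∈ S, ZP ≤ Zf n := by
        intro n hn
        rw [hZP]
        exact Nat.ceil_le.mpr (hZf n (hSm n hn).2.2).1
      have hZPX4 : (ZP : ℝ) ≤ X ^ (1 / 4 : ℝ) := by
        have g1 : (ZP : ℝ) ≤ Zf n0 := by exact_mod_cast hZPn n0 hn0S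
        exact (g1.trans z2).trans (Real.rpow_le_rpow_of_exponent_le hX1 hu1)
      have hcard := h4 X h q.1 q.2 ZP hX1 hh ha1 ha2 hlcm hZP2 hZPX4
      obtain ⟨F, hF⟩ : ∃ F : ℝ, F = dr r q.1 * y ^ ow z w q.1 * dr r q.2 *
          (2 * (r : ℝ)) ^ (2 * s + 2) := ⟨_, rfl⟩
      have hF0 : 0 ≤ F := by
        rw [hF]
        have d1 := dr_nonneg r q.1
        have d2 := dr_nonneg r q.2
        positivity
      have hterm : ∀ n ∈ S.filter (fun n => (sm (Zf n) n, sm (Zf n) (n + h)) = q),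
          dr r n * y ^ ow z w n * dr r (n + h) ≤ F := by
        intro n hn
        obtain ⟨hnS, hnq⟩ := Finset.mem_filter.mp hn
        obtain ⟨hnI, hn1, hnB⟩ := hSm n hnS
        obtain ⟨y1, y2, y3, y4⟩ := hZf n hnB
        have hp1 : sm (Zf n) n = q.1 := congrArg Prod.fst hnq
        have hp2 : sm (Zf n) (n + h) = q.2 := congrArg Prod.snd hnq
        rw [hF, ← hp1, ← hp2]
        refine term_le h8e r (Zf n) n h s z w y (by omega) hn1 hy1 hy2 ?_
        have g1 : ((n + h : ℕ) : ℝ) ≤ 2 * X := by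
          have g2 : (n : ℝ) ≤ X := (Nat.le_floor_iff hXpos.le).mp (Finset.mem_Icc.mp hnI).2
          push_cast
          linarith
        have g3 : 2 * X ≤ ((Zf n : ℕ) : ℝ) ^ (s + 1 + 1) := by
          have g4 : (X ^ u) ^ (s + 1) = X := by
            rw [← Real.rpow_natCast, ← Real.rpow_mul hXpos.le, hu]
            have : 1 / ((s : ℝ) + 1) * ((s + 1 : ℕ) : ℝ) = 1 := by push_cast; field_simp
            rw [this, Real.rpow_one]
          calc 2 * X ≤ X ^ u * (X ^ u) ^ (s + 1) := by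
                rw [g4]; exact mul_le_mul_of_nonneg_right (by linarith) hXpos.le
            _ = (X ^ u) ^ (s + 1 + 1) := by ring
            _ ≤ ((Zf n : ℕ) : ℝ) ^ (s + 1 + 1) := pow_le_pow_left₀ (by positivity) y1 _
        have g5 : ((n + h : ℕ) : ℝ) ≤ ((Zf n ^ (s + 1 + 1) : ℕ) : ℝ) := by
          rw [Nat.cast_pow]
          exact g1.trans g3
        exact_mod_cast g5
      have hsub : S.filter (fun n => (sm (Zf n) n, sm (Zf n) (n + h)) = q) ⊆
          Ns X h q.1 q.2 ZP := by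
        intro n hn
        obtain ⟨hnS, hnq⟩ := Finset.mem_filter.mp hn
        obtain ⟨hnI, hn1, hnB⟩ := hSm n hnS
        have hp1 : sm (Zf n) n = q.1 := congrArg Prod.fst hnq
        have hp2 : sm (Zf n) (n + h) = q.2 := congrArg Prod.snd hnq
        rw [← hp1, ← hp2]
        exact mem_Ns h8a X h n (Zf n) ZP hnI (hZPn n hnS)
      have hsum1 : ∑ n ∈ S with (sm (Zf n) n, sm (Zf n) (n + h)) = q,
          dr r n * y ^ ow z w n * dr r (n + h) ≤ ((Ns X h q.1 q.2 ZP).card : ℝ) * F := by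
        refine (Finset.sum_le_sum hterm).trans ?_
        rw [Finset.sum_const, nsmul_eq_mul]
        refine mul_le_mul_of_nonneg_right ?_ hF0
        exact_mod_cast Finset.card_le_card hsub
      refine hsum1.trans ?_
      rw [hF, hK]
      unfold Wp
      have hpos1 : (0 : ℝ) < (q.1 : ℝ) * q.2 := by
        have : (1 : ℝ) ≤ q.1 := by exact_mod_cast ha1
        have : (1 : ℝ) ≤ q.2 := by exact_mod_cast ha2
        positivity
      refine alg_le _ _ _ _ _ _ _ _ _ _ _ _ _ hcard (by rw [← hF]; exact hF0) ?_ (by positivity)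
      have g6 : T ^ σ ≤ ((q.1 : ℝ) * q.2) ^ σ := Real.rpow_le_rpow hT.le z3.le hσ0
      rw [Real.rpow_neg hT.le]
      have g7 : 0 < T ^ σ := by positivity
      calc (1 : ℝ) = (T ^ σ)⁻¹ * T ^ σ := (inv_mul_cancel₀ g7.ne').symm
        _ ≤ _ := mul_le_mul_of_nonneg_left g6 (by positivity)
  refine (Finset.sum_le_sum hfib).trans ?_
  rw [← Finset.mul_sum]
  have hN7 := h7 z w y σ h Zt M hh (by omega) hy1 hy2 hσ0 hσ1 hph
  refine (mul_le_mul_of_nonneg_left hN7 hK0).trans ?_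
  -- numbers
  have hSh0 : 0 ≤ Sh h := by unfold Sh; positivity
  have hA1 : (2 * (r : ℝ)) ^ (2 * s + 2) ≤ Real.exp (8 * r * s) := by
    have g1 : 2 * (r : ℝ) ≤ Real.exp (2 * r) := by
      have := Real.add_one_le_exp (2 * (r : ℝ))
      linarith
    calc (2 * (r : ℝ)) ^ (2 * s + 2) ≤ Real.exp (2 * r) ^ (2 * s + 2) :=
          pow_le_pow_left₀ (by positivity) g1 _
      _ = Real.exp (((2 * s + 2 : ℕ) : ℝ) * (2 * r)) := (Real.exp_nat_mul _ _).symm
      _ ≤ Real.exp (8 * r * s) := by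
          refine Real.exp_le_exp.mpr ?_
          push_cast
          nlinarith
  have hA2 : C4 ≤ Real.exp (C4 * s) := by
    have := Real.add_one_le_exp (C4 * s)
    nlinarith
  have hA3 := phi_le h hh
  have hA4 : 1 / Real.log ZP ^ 2 ≤ Real.exp (2 * s) / Real.log X ^ 2 := by
    have g1 : 0 < u * Real.log X := by positivity
    have g2 : (u * Real.log X) ^ 2 ≤ Real.log ZP ^ 2 := pow_le_pow_left₀ g1.le hlogZP 2
    have g3 : ((s : ℝ) + 1) ^ 2 ≤ Real.exp (2 * s) := by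
      have g4 := Real.add_one_le_exp (s : ℝ)
      calc ((s : ℝ) + 1) ^ 2 ≤ Real.exp s ^ 2 := pow_le_pow_left₀ (by positivity) g4 2
        _ = Real.exp (2 * s) := by rw [← Real.exp_nat_mul]; push_cast; rfl
    calc 1 / Real.log ZP ^ 2 ≤ 1 / (u * Real.log X) ^ 2 :=
          one_div_le_one_div_of_le (by positivity) g2
      _ = ((s : ℝ) + 1) ^ 2 / Real.log X ^ 2 := by
          rw [hu]
          field_simp
      _ ≤ _ := div_le_div_of_nonneg_right g3 (by positivity)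
  have hA5 : C7 * σ * (Zt : ℝ) ^ (2 * σ) * (1 + Real.log Zt) ≤ C7 * s := by
    have hls : 0 < Real.log s := Real.log_pos (by linarith)
    obtain ⟨q, hq⟩ : ∃ q : ℝ, q = Real.exp (Real.log s / 2) := ⟨_, rfl⟩
    have hq0 : 0 < q := by rw [hq]; exact Real.exp_pos _
    have hq2 : q * q = s := by
      rw [hq, ← Real.exp_add, add_halves, Real.exp_log (by linarith)]
    have hql : Real.log s ≤ 2 * q := by
      have g1 := Real.add_one_le_exp (Real.log s / 2)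
      rw [← hq] at g1
      linarith
    have hq1 : 1 ≤ q := by
      rw [hq]
      exact Real.one_le_exp (by positivity)
    have g2 : σ * Real.log Zt ≤ Real.log s / 4 := by
      have g3 : σ * Real.log Zt ≤ σ * (1 / (s : ℝ) * Real.log X) :=
        mul_le_mul_of_nonneg_left hlogZt hσ0
      have g4 : σ * (1 / (s : ℝ) * Real.log X) = (σ * Real.log X) / s := by ring
      have g5 : (σ * Real.log X) / s ≤ (s * Real.log s / 4) / s :=
        div_le_div_of_nonneg_right hσX (by positivity)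
      have g6 : (s * Real.log s / 4) / s = Real.log s / 4 := by field_simp
      linarith
    have g7 : (Zt : ℝ) ^ (2 * σ) ≤ q := by
      rw [Real.rpow_def_of_pos (by linarith), hq]
      exact Real.exp_le_exp.mpr (by linarith)
    have g8 : σ * (1 + Real.log Zt) ≤ q := by linarith
    have g9 : (Zt : ℝ) ^ (2 * σ) * (σ * (1 + Real.log Zt)) ≤ q * q :=
      mul_le_mul g7 g8 (by positivity) hq0.le
    calc C7 * σ * (Zt : ℝ) ^ (2 * σ) * (1 + Real.log Zt) =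
          C7 * ((Zt : ℝ) ^ (2 * σ) * (σ * (1 + Real.log Zt))) := by ring
      _ ≤ C7 * (q * q) := mul_le_mul_of_nonneg_left g9 hC7.le
      _ = C7 * s := by rw [hq2]
  have hA6 : r * (y - 1) * pw z (min w Zt) ≤ r * (y - 1) * pw z w + r * (2 * s + C1) := by
    have hr00 : (0 : ℝ) ≤ r := by linarith
    have key : (y - 1) * pw z (min w Zt) ≤ (y - 1) * pw z w + (2 * s + C1) := by
      rcases le_or_gt 1 y with hy | hy
      · have g1 := mul_le_mul_of_nonneg_left (pw_mono z (min w Zt) w (min_le_left _ _))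
          (show 0 ≤ y - 1 by linarith)
        linarith
      · rcases le_or_gt w Zt with hw | hw
        · rw [min_eq_left hw]
          linarith
        · rw [min_eq_right hw.le]
          have g1 := pw_split z w Zt
          have g2 := (abs_le.mp (hM Zt w (by linarith) hw.le)).2
          have hw0 : 0 < Real.log w := Real.log_pos (by linarith)
          have g3 : Real.log w ≤ Real.log X := Real.log_le_log (by linarith) hwX
          have g4 : Real.log w / Real.log Zt ≤ 2 * s := by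
            rw [div_le_iff₀ hlogZt0]
            linarith
          have g5 := Real.log_le_sub_one_of_pos (show 0 < Real.log w / Real.log Zt by positivity)
          have g6 : pw z w - pw z Zt ≤ 2 * s + C1 := by linarith
          have g7 : (1 - y) * (pw z w - pw z Zt) ≤ (1 - y) * (2 * s + C1) :=
            mul_le_mul_of_nonneg_left g6 (by linarith)
          have g8 : (1 - y) * (2 * s + C1) ≤ 1 * (2 * s + C1) :=
            mul_le_mul_of_nonneg_right (by linarith) (by linarith)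
          linarith
    have := mul_le_mul_of_nonneg_left key hr00
    nlinarith
  have hA7 : Real.log Zt ^ (2 * r) ≤ Real.log X ^ (2 * r - 2) * Real.log X ^ 2 := by
    have g1 : Real.log Zt ≤ Real.log X := by
      refine hlogZt.trans ?_
      have : 1 / (s : ℝ) * Real.log X ≤ 1 * Real.log X :=
        mul_le_mul_of_nonneg_right (by linarith) (by linarith)
      linarith
    calc Real.log Zt ^ (2 * r) ≤ Real.log X ^ (2 * r) := pow_le_pow_left₀ hlogZt0.le g1 _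
      _ = _ := by rw [← pow_add]; congr 1; omega
  obtain ⟨E7, hE7⟩ : ∃ E7 : ℝ, E7 = C7 + C7 * σ * (Zt : ℝ) ^ (2 * σ) * (1 + Real.log Zt) +
      r * (y - 1) * pw z (min w Zt) + ((r : ℝ) ^ 2 - 2 * r) * Sh h := ⟨_, rfl⟩
  rw [← hE7]
  have hE7' : E7 ≤ C7 + C7 * s + (r * (y - 1) * pw z w + r * (2 * s + C1)) +
      ((r : ℝ) ^ 2 - 2 * r) * Sh h := by rw [hE7]; linarith
  have hLX2 : 0 < Real.log X ^ 2 := by positivity
  have hG0 : 0 ≤ (h : ℝ) / (Nat.totient h : ℝ) := by positivity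
  have hT0 : 0 < T ^ (-σ) := by positivity
  have hlp : 0 < Real.log X ^ (2 * r - 2) := by positivity
  have step1 : K ≤ Real.exp (8 * r * s) * (Real.exp (C4 * s) * X * Real.exp (Sh h + 4) *
      (Real.exp (2 * s) / Real.log X ^ 2)) * T ^ (-σ) := by
    rw [hK]
    refine mul_le_mul_of_nonneg_right ?_ hT0.le
    refine mul_le_mul hA1 ?_ (by positivity) (Real.exp_pos _).le
    rw [div_eq_mul_one_div]
    refine mul_le_mul ?_ hA4 (by positivity) (by positivity)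
    refine mul_le_mul ?_ hA3 hG0 (by positivity)
    exact mul_le_mul_of_nonneg_right hA2 hXpos.le
  have step2 : Real.exp E7 * Real.log Zt ^ (2 * r) ≤ Real.exp (C7 + C7 * s +
      (r * (y - 1) * pw z w + r * (2 * s + C1)) + ((r : ℝ) ^ 2 - 2 * r) * Sh h) *
      (Real.log X ^ (2 * r - 2) * Real.log X ^ 2) :=
    mul_le_mul (Real.exp_le_exp.mpr hE7') hA7 (by positivity) (Real.exp_pos _).le
  refine (mul_le_mul step1 step2 (by positivity) (by positivity)).trans ?_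
  have step3 : Real.exp (8 * r * s) * (Real.exp (C4 * s) * X * Real.exp (Sh h + 4) *
      (Real.exp (2 * s) / Real.log X ^ 2)) * T ^ (-σ) * (Real.exp (C7 + C7 * s +
      (r * (y - 1) * pw z w + r * (2 * s + C1)) + ((r : ℝ) ^ 2 - 2 * r) * Sh h) *
      (Real.log X ^ (2 * r - 2) * Real.log X ^ 2)) =
      (Real.exp (8 * r * s) * Real.exp (C4 * s) * Real.exp (Sh h + 4) * Real.exp (2 * s) *
        Real.exp (C7 + C7 * s + (r * (y - 1) * pw z w + r * (2 * s + C1)) +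
          ((r : ℝ) ^ 2 - 2 * r) * Sh h)) * T ^ (-σ) * X * Real.log X ^ (2 * r - 2) := by
    field_simp
  rw [step3, ← Real.exp_add, ← Real.exp_add, ← Real.exp_add, ← Real.exp_add]
  refine mul_le_mul_of_nonneg_right ?_ hlp.le
  refine mul_le_mul_of_nonneg_right ?_ hXpos.le
  refine mul_le_mul_of_nonneg_right ?_ hT0.le
  refine Real.exp_le_exp.mpr ?_
  have f1 : C7 ≤ C7 * s := by nlinarith
  have f2 : r * C1 ≤ r * C1 * s := by
    have : 0 ≤ (r : ℝ) * C1 := by positivity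
    nlinarith
  have f3 : ((r : ℝ) - 1) ^ 2 * Sh h = ((r : ℝ) ^ 2 - 2 * r) * Sh h + Sh h := by ring
  rw [f3]
  nlinarith

end Pool.Agent.Work.MP_122e00_nt.TS
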