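import Pool.Agent.Work.MP_122e00_nt.TS.Stmts8

/-!
# 122e00 TS, item N12: the uniform upper bound
-/

set_option autoImplicit false

namespace Pool.Agent.Work.MP_122e00_nt.TS

open Finset Filter Topology ArithmeticFunction MeasureTheory
open scoped ArithmeticFunction.zeta ArithmeticFunction.Moebius

namespace IN12

/-- few large primes divide `n` -/
lemma card_win (X ε w : ℝ) (n : ℕ) (hX : 1 < X) (hε : 0 < ε) (hn : 1 ≤ n) (hnX : (n : ℝ) ≤ X) :
    (((PW (X ^ ε) w).filter (· ∣ n)).card : ℝ) ≤ 1 / ε := by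
  set S := (PW (X ^ ε) w).filter (· ∣ n) with hS
  have hpr : ∀ p ∈ S, p.Prime ∧ X ^ ε < (p : ℝ) ∧ p ∣ n := by
    intro p hp
    rw [hS, Finset.mem_filter] at hp
    unfold PW at hp
    rw [Finset.mem_filter] at hp
    exact ⟨hp.1.2.1, hp.1.2.2, hp.2⟩
  have h1 : ∏ p ∈ S, p ∣ n :=
    Finset.prod_primes_dvd n (fun p hp => (hpr p hp).1.prime) (fun p hp => (hpr p hp).2.2)
  have h2 : ∏ p ∈ S, p ≤ n := Nat.le_of_dvd hn h1
  have h3 : (X ^ ε) ^ S.card ≤ ∏ p ∈ S, (p : ℝ) := by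
    rw [← Finset.prod_const]
    exact Finset.prod_le_prod (fun p _ => by positivity) (fun p hp => (hpr p hp).2.1.le)
  have h4 : (X ^ ε) ^ S.card ≤ X := by
    refine h3.trans (le_trans ?_ hnX)
    have h2' : ((∏ p ∈ S, p : ℕ) : ℝ) ≤ (n : ℝ) := Nat.cast_le.mpr h2
    rwa [Nat.cast_prod] at h2'
  have hX0 : 0 < X := by linarith
  have hlog : 0 < Real.log X := Real.log_pos hX
  have h5 := Real.log_le_log (by positivity) h4
  rw [Real.log_pow, Real.log_rpow hX0] at h5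
  rw [le_div_iff₀ hε]
  have h6 : ((S.card : ℝ) * ε) * Real.log X ≤ 1 * Real.log X := by linarith
  exact le_of_mul_le_mul_right h6 hlog

lemma dr_nonneg (r n : ℕ) : 0 ≤ dr r n := by
  unfold dr
  exact Nat.cast_nonneg _

lemma geo (s₁ : ℕ) : ∑ s ∈ Finset.Icc 32 s₁, Real.exp (-(s : ℝ)) ≤ 2 := by
  have h1 : ∀ s : ℕ, Real.exp (-(s : ℝ)) ≤ (1 / 2 : ℝ) ^ s := by
    intro s
    have h2 : Real.exp (-(s : ℝ)) = (Real.exp (-1)) ^ s := by
      rw [← Real.exp_nat_mul]
      congr 1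
      ring
    rw [h2]
    refine pow_le_pow_left₀ (Real.exp_pos _).le ?_ s
    rw [Real.exp_neg, one_div]
    refine inv_anti₀ (by norm_num) ?_
    have := Real.add_one_le_exp (1 : ℝ)
    linarith
  calc ∑ s ∈ Finset.Icc 32 s₁, Real.exp (-(s : ℝ))
      ≤ ∑ s ∈ Finset.Icc 32 s₁, (1 / 2 : ℝ) ^ s := Finset.sum_le_sum fun s _ => h1 s
    _ ≤ ∑ s ∈ Finset.range (s₁ + 1), (1 / 2 : ℝ) ^ s := by
        refine Finset.sum_le_sum_of_subset_of_nonneg ?_ (fun s _ _ => by positivity)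
        intro s hs
        rw [Finset.mem_Icc] at hs
        rw [Finset.mem_range]
        omega
    _ ≤ 2 := sum_geometric_two_le _

lemma term (C : ℝ) (s : ℕ) (hs : 1 ≤ s) :
    Real.exp (C * s) * Real.exp (-((s : ℝ) * Real.log s / 32)) ≤
      Real.exp (Real.exp (32 * (C + 1) - 1) / 32) * Real.exp (-(s : ℝ)) := by
  rw [← Real.exp_add, ← Real.exp_add, Real.exp_le_exp]
  have hs0 : (0 : ℝ) < s := by exact_mod_cast hs
  have h1 := Real.add_one_le_exp (32 * (C + 1) - 1 - Real.log s)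
  have h2 : Real.exp (32 * (C + 1) - 1 - Real.log s) * s = Real.exp (32 * (C + 1) - 1) := by
    rw [Real.exp_sub, Real.exp_log hs0]
    field_simp
  have h3 := mul_le_mul_of_nonneg_right h1 hs0.le
  rw [h2] at h3
  nlinarith [h3]

lemma pow_le_two (y : ℝ) (hy : 1 / 2 ≤ y) (hy' : y ≤ 2) (k : ℕ) (Q : ℝ) (hk : (k : ℝ) ≤ Q) :
    y ^ k ≤ (2 : ℝ) ^ Q := by
  calc y ^ k ≤ 2 ^ k := pow_le_pow_left₀ (by linarith) hy' k
    _ = (2 : ℝ) ^ (k : ℝ) := (Real.rpow_natCast 2 k).symm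
    _ ≤ (2 : ℝ) ^ Q := Real.rpow_le_rpow_of_exponent_le (by norm_num) hk

end IN12

open Classical in
theorem prN12 (hL0 : tsL0) (hN1 : tsN1) (hN9 : tsN9) (hN10 : tsN10) (hN11 : tsN11) : tsN12 := by
  intro r hr
  obtain ⟨C₀, hC₀, hdr⟩ := hL0 r (1 / 1000) (by norm_num)
  obtain ⟨C₁, hC₁, -, hM⟩ := hN1
  obtain ⟨C₉, hC₉, h9⟩ := hN9 r hr
  obtain ⟨X₁₀, h10⟩ := hN10
  obtain ⟨X₁₁, h11⟩ := hN11
  set K₁ : ℝ := Real.exp (Real.exp (32 * (C₉ + 1) - 1) / 32) with hK₁
  refine ⟨Real.exp (C₉ * 32) + 2 * K₁ + 1, by positivity, ?_⟩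
  intro ε₂ θw hε hεθ hθ
  set Q : ℝ := (2 : ℝ) ^ (1 / ε₂) with hQ
  set b₀ : ℝ := Real.exp (-(r * (Real.log (θw / ε₂) + C₁))) with hb₀
  have hb₀pos : 0 < b₀ := Real.exp_pos _
  have hQpos : 0 < Q := by positivity
  have hev : ∀ᶠ X : ℝ in atTop, X₁₀ ≤ X ∧ X₁₁ ≤ X ∧ (4 : ℝ) ^ 33 ≤ X ∧ 4 ≤ Real.log X ∧
      1 ≤ Real.log (Real.log X) ∧ 2 ≤ X ^ ε₂ ∧ 1 / ε₂ ≤ X ^ ε₂ ∧
      4 * C₀ ^ 2 * Q / b₀ ≤ X ^ (3 / 1000 : ℝ) := by
    filter_upwards [eventually_ge_atTop X₁₀, eventually_ge_atTop X₁₁,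
      eventually_ge_atTop ((4 : ℝ) ^ 33), Real.tendsto_log_atTop.eventually_ge_atTop 4,
      (Real.tendsto_log_atTop.comp Real.tendsto_log_atTop).eventually_ge_atTop 1,
      (tendsto_rpow_atTop hε).eventually_ge_atTop 2,
      (tendsto_rpow_atTop hε).eventually_ge_atTop (1 / ε₂),
      (tendsto_rpow_atTop (show (0 : ℝ) < 3 / 1000 by norm_num)).eventually_ge_atTop
        (4 * C₀ ^ 2 * Q / b₀)] with X a1 a2 a3 a4 a5 a6 a7 a8
    exact ⟨a1, a2, a3, a4, a5, a6, a7, a8⟩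
  obtain ⟨X0, hX0⟩ := eventually_atTop.mp hev
  refine ⟨X0, fun X y h hX hh hhX hy hy' => ?_⟩
  obtain ⟨b1, b2, b3, b4, b5, b6, b7, b8⟩ := hX0 X hX
  have hX1 : 1 < X := lt_of_lt_of_le (by norm_num) b3
  have hXpos : 0 < X := by linarith
  have hlogX : 0 < Real.log X := by linarith
  set z : ℝ := X ^ ε₂ with hz
  set w : ℝ := X ^ θw with hw
  have hθ0 : 0 < θw := hε.trans hεθ
  have hwX : w ≤ X := by
    calc w ≤ X ^ (1 : ℝ) := Real.rpow_le_rpow_of_exponent_le hX1.le (by linarith)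
      _ = X := Real.rpow_one X
  have hzw : z ≤ w := Real.rpow_le_rpow_of_exponent_le hX1.le hεθ.le
  -- the sum over the window primes dividing h
  have hph : ph z w h ≤ 1 := by
    have e1 : ph z w h ≤ ∑ p ∈ (PW z w).filter (· ∣ h), 1 / z := by
      refine Finset.sum_le_sum fun p hp => ?_
      rw [Finset.mem_filter] at hp
      have hp1 := hp.1
      unfold PW at hp1
      rw [Finset.mem_filter] at hp1
      exact one_div_le_one_div_of_le (by linarith) hp1.2.2.le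
    rw [Finset.sum_const, nsmul_eq_mul] at e1
    have e2 := IN12.card_win X ε₂ w h hX1 hε hh hhX
    have e3 : (((PW z w).filter (· ∣ h)).card : ℝ) * (1 / z) ≤ z * (1 / z) :=
      mul_le_mul_of_nonneg_right (e2.trans b7) (by positivity)
    have hz0 : z ≠ 0 := by linarith
    rw [mul_one_div_cancel hz0] at e3
    exact e1.trans e3
  -- notation
  set f : ℕ → ℝ := fun n => dr r n * y ^ ow z w n * dr r (n + h) with hf
  have hf0 : ∀ n, 0 ≤ f n := fun n =>
    mul_nonneg (mul_nonneg (IN12.dr_nonneg r n) (by positivity)) (IN12.dr_nonneg r (n + h))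
  set B : ℝ := Real.exp (r * (y - 1) * pw z w + ((r : ℝ) - 1) ^ 2 * Sh h) with hB
  have hBpos : 0 < B := Real.exp_pos _
  set M : ℝ := B * X * Real.log X ^ (2 * r - 2) with hMdef
  have hMpos : 0 < M := by positivity
  set S₀ : ℕ := ⌊Real.log X / (4 * Real.log (Real.log X))⌋₊ with hS₀
  have hgoal : (Real.exp (C₉ * 32) + 2 * K₁ + 1) * B * X * Real.log X ^ (2 * r - 2) =
      Real.exp (C₉ * 32) * M + 2 * K₁ * M + M := by
    rw [hMdef]
    ring
  show ∑ n ∈ Finset.Icc 1 ⌊X⌋₊, f n ≤ _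
  rw [hgoal]
  -- (a)
  have ha : ∑ n ∈ (Finset.Icc 1 ⌊X⌋₊).filter (Bk X (1 / 2) h 32), f n ≤ Real.exp (C₉ * 32) * M := by
    have e1 := h9 X z w y 0 (1 / 2) h 32 (le_refl _) ?_ hh hhX hwX hy hy' (le_refl _) (by norm_num)
      ?_ (by norm_num) hph
    · refine e1.trans (le_of_eq ?_)
      rw [neg_zero, Real.rpow_zero, mul_one, hMdef, hB, add_assoc, Real.exp_add]
      push_cast
      ring
    · have e2 : ((4 : ℝ) ^ 33) ^ (1 / ((32 : ℕ) + 1 : ℝ)) ≤ X ^ (1 / ((32 : ℕ) + 1 : ℝ)) :=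
        Real.rpow_le_rpow (by positivity) b3 (by positivity)
      refine le_trans (le_of_eq ?_) e2
      rw [← Real.rpow_natCast, ← Real.rpow_mul (by norm_num)]
      norm_num
    · rw [zero_mul]
      have : 0 ≤ Real.log ((32 : ℕ) : ℝ) := Real.log_nonneg (by norm_num)
      positivity
  -- (b)
  have hb : ∀ s ∈ Finset.Icc 32 S₀,
      ∑ n ∈ (Finset.Icc 1 ⌊X⌋₊).filter (Bk X (X ^ (1 / 8 : ℝ)) h s), f n ≤
        K₁ * Real.exp (-(s : ℝ)) * M := by
    intro s hs
    rw [Finset.mem_Icc] at hs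
    have hs32 : (32 : ℝ) ≤ s := by exact_mod_cast hs.1
    have hs0 : (0 : ℝ) < s := by linarith
    have hsS : (s : ℝ) ≤ Real.log X / (4 * Real.log (Real.log X)) := by
      refine le_trans ?_ (Nat.floor_le (by positivity))
      exact_mod_cast hs.2
    have hll : 0 < Real.log (Real.log X) := by linarith
    have hs4 : (s : ℝ) ≤ Real.log X / 4 := by
      refine hsS.trans ?_
      refine div_le_div_of_nonneg_left hlogX.le (by norm_num) (by linarith)
    have hlogs : 0 ≤ Real.log s := Real.log_nonneg (by linarith)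
    have hlogs' : Real.log s ≤ Real.log (Real.log X) := Real.log_le_log hs0 (by linarith)
    have hslog : s * Real.log s ≤ Real.log X / 4 := by
      calc s * Real.log s ≤ (Real.log X / (4 * Real.log (Real.log X))) * Real.log (Real.log X) :=
            mul_le_mul hsS hlogs' hlogs (by positivity)
        _ = Real.log X / 4 := by
            field_simp
    set σ : ℝ := s * Real.log s / (4 * Real.log X) with hσ
    have hσ0 : 0 ≤ σ := by positivity
    have hσ16 : σ ≤ 1 / 16 := by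
      rw [hσ, div_le_iff₀ (by positivity)]
      linarith
    have hσX : σ * Real.log X = s * Real.log s / 4 := by
      rw [hσ]
      field_simp
    have hroot : 4 ≤ X ^ (1 / ((s : ℝ) + 1)) := by
      rw [Real.rpow_def_of_pos hXpos]
      have e1 : Real.log 4 ≤ Real.log X * (1 / ((s : ℝ) + 1)) := by
        have e2 : Real.log 4 ≤ 2 := by
          have e3 : Real.log 4 = 2 * Real.log 2 := by
            rw [show (4 : ℝ) = 2 ^ 2 by norm_num, Real.log_pow]
            norm_num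
          have := Real.log_two_lt_d9
          linarith
        refine e2.trans ?_
        rw [mul_one_div, le_div_iff₀ (by linarith)]
        linarith
      calc (4 : ℝ) = Real.exp (Real.log 4) := (Real.exp_log (by norm_num)).symm
        _ ≤ _ := Real.exp_le_exp.mpr e1
    have e1 := h9 X z w y σ (X ^ (1 / 8 : ℝ)) h s hs.1 hroot hh hhX hwX hy hy' hσ0 hσ16
      hσX.le (by positivity) hph
    refine e1.trans ?_
    have e2 : (X ^ (1 / 8 : ℝ)) ^ (-σ) = Real.exp (-((s : ℝ) * Real.log s / 32)) := by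
      rw [← Real.rpow_mul hXpos.le, Real.rpow_def_of_pos hXpos]
      congr 1
      have : Real.log X * (1 / 8 * -σ) = -(σ * Real.log X) / 8 := by ring
      rw [this, hσX]
      ring
    rw [e2, add_assoc, Real.exp_add]
    have e3 := IN12.term C₉ s (by omega)
    rw [← hK₁] at e3
    calc Real.exp (C₉ * s) * Real.exp (r * (y - 1) * pw z w + ((r : ℝ) - 1) ^ 2 * Sh h) *
          Real.exp (-((s : ℝ) * Real.log s / 32)) * X * Real.log X ^ (2 * r - 2)
        = (Real.exp (C₉ * s) * Real.exp (-((s : ℝ) * Real.log s / 32))) * M := by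
          rw [hMdef, hB]
          ring
      _ ≤ (K₁ * Real.exp (-(s : ℝ))) * M := mul_le_mul_of_nonneg_right e3 hMpos.le
  have hb' : ∑ s ∈ Finset.Icc 32 S₀,
      ∑ n ∈ (Finset.Icc 1 ⌊X⌋₊).filter (Bk X (X ^ (1 / 8 : ℝ)) h s), f n ≤ 2 * K₁ * M := by
    refine (Finset.sum_le_sum hb).trans ?_
    have e1 : ∑ s ∈ Finset.Icc 32 S₀, K₁ * Real.exp (-(s : ℝ)) * M =
        K₁ * M * ∑ s ∈ Finset.Icc 32 S₀, Real.exp (-(s : ℝ)) := by
      rw [Finset.mul_sum]
      refine Finset.sum_congr rfl fun s _ => ?_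
      ring
    rw [e1]
    have e2 := mul_le_mul_of_nonneg_left (IN12.geo S₀) (show 0 ≤ K₁ * M by positivity)
    linarith
  -- (c)
  have hterm : ∀ n ∈ Finset.Icc 1 ⌊X⌋₊, f n ≤ C₀ ^ 2 * Q * (2 * X) ^ (1 / 500 : ℝ) := by
    intro n hn
    rw [Finset.mem_Icc] at hn
    have hnX : (n : ℝ) ≤ X := (Nat.le_floor_iff hXpos.le).mp hn.2
    have e1 : dr r n ≤ C₀ * (2 * X) ^ (1 / 1000 : ℝ) := by
      refine (hdr n hn.1).trans (mul_le_mul_of_nonneg_left ?_ hC₀.le)
      exact Real.rpow_le_rpow (by positivity) (by linarith) (by norm_num)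
    have e2 : dr r (n + h) ≤ C₀ * (2 * X) ^ (1 / 1000 : ℝ) := by
      refine (hdr (n + h) (by omega)).trans (mul_le_mul_of_nonneg_left ?_ hC₀.le)
      refine Real.rpow_le_rpow (by positivity) ?_ (by norm_num)
      push_cast
      linarith
    have e3 : y ^ ow z w n ≤ Q :=
      IN12.pow_le_two y hy hy' _ _ (IN12.card_win X ε₂ w n hX1 hε hn.1 hnX)
    have e4 : ((2 * X) ^ (1 / 1000 : ℝ)) * ((2 * X) ^ (1 / 1000 : ℝ)) = (2 * X) ^ (1 / 500 : ℝ) := by
      rw [← Real.rpow_add (by positivity)]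
      norm_num
    calc f n = dr r n * y ^ ow z w n * dr r (n + h) := rfl
      _ ≤ (C₀ * (2 * X) ^ (1 / 1000 : ℝ)) * Q * (C₀ * (2 * X) ^ (1 / 1000 : ℝ)) := by
          have e5 := IN12.dr_nonneg r n
          have e6 := IN12.dr_nonneg r (n + h)
          have e7 : (0 : ℝ) ≤ y ^ ow z w n := by positivity
          refine mul_le_mul (mul_le_mul e1 e3 e7 (by positivity)) e2 e6 (by positivity)
      _ = C₀ ^ 2 * Q * (((2 * X) ^ (1 / 1000 : ℝ)) * ((2 * X) ^ (1 / 1000 : ℝ))) := by ring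
      _ = _ := by rw [e4]
  have hcard : ∀ (g : ℕ → ℕ), Function.Injective g → (∀ n ∈ Finset.Icc 1 ⌊X⌋₊,
      g n ∈ Finset.Icc 1 ⌊2 * X⌋₊) →
      (((Finset.Icc 1 ⌊X⌋₊).filter (fun n => Ex X (g n))).card : ℝ) ≤ X ^ (1 - 1 / 200 : ℝ) := by
    intro g hg hg'
    refine le_trans ?_ (h10 X b1)
    rw [← Finset.card_image_of_injective _ hg]
    have : ((Finset.Icc 1 ⌊X⌋₊).filter (fun n => Ex X (g n))).image g ⊆
        (Finset.Icc 1 ⌊2 * X⌋₊).filter (Ex X) := by
      intro m hm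
      rw [Finset.mem_image] at hm
      obtain ⟨n, hn, rfl⟩ := hm
      rw [Finset.mem_filter] at hn
      exact Finset.mem_filter.mpr ⟨hg' n hn.1, hn.2⟩
    exact_mod_cast Finset.card_le_card this
  have hc : ∀ (g : ℕ → ℕ), Function.Injective g → (∀ n ∈ Finset.Icc 1 ⌊X⌋₊,
      g n ∈ Finset.Icc 1 ⌊2 * X⌋₊) →
      ∑ n ∈ (Finset.Icc 1 ⌊X⌋₊).filter (fun n => Ex X (g n)), f n ≤ M / 2 := by
    intro g hg hg'
    have e1 : ∑ n ∈ (Finset.Icc 1 ⌊X⌋₊).filter (fun n => Ex X (g n)), f n ≤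
        (((Finset.Icc 1 ⌊X⌋₊).filter (fun n => Ex X (g n))).card : ℝ) *
          (C₀ ^ 2 * Q * (2 * X) ^ (1 / 500 : ℝ)) := by
      rw [← nsmul_eq_mul]
      refine Finset.sum_le_card_nsmul _ _ _ fun n hn => ?_
      exact hterm n (Finset.mem_filter.mp hn).1
    have e2 := mul_le_mul_of_nonneg_right (hcard g hg hg')
      (show 0 ≤ C₀ ^ 2 * Q * (2 * X) ^ (1 / 500 : ℝ) by positivity)
    refine (e1.trans e2).trans ?_
    -- lower bound of M
    have e3 : b₀ * X ≤ M := by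
      have e4 : b₀ ≤ B := by
        rw [hb₀, hB, Real.exp_le_exp]
        have e5 := hM z w b6 hzw
        have e6 : Real.log w / Real.log z = θw / ε₂ := by
          rw [hw, hz, Real.log_rpow hXpos, Real.log_rpow hXpos]
          field_simp
        rw [e6, abs_le] at e5
        have hpw0 : 0 ≤ pw z w := Finset.sum_nonneg fun p _ => by positivity
        have hSh0 : 0 ≤ Sh h := Finset.sum_nonneg fun p _ => by positivity
        have e7 : pw z w ≤ Real.log (θw / ε₂) + C₁ := by linarith [e5.2]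
        have hr0 : (0 : ℝ) ≤ r := Nat.cast_nonneg r
        have e8 : -(1 / 2) * (r * pw z w) ≤ r * (y - 1) * pw z w := by
          have : 0 ≤ r * pw z w * (y - 1 / 2) := mul_nonneg (mul_nonneg hr0 hpw0) (by linarith)
          linarith
        have e9 : r * pw z w ≤ r * (Real.log (θw / ε₂) + C₁) := mul_le_mul_of_nonneg_left e7 hr0
        have e10 : 0 ≤ r * pw z w := mul_nonneg hr0 hpw0
        have e11 : 0 ≤ ((r : ℝ) - 1) ^ 2 * Sh h := by positivity
        linarith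
      have e12 : 1 ≤ Real.log X ^ (2 * r - 2) := one_le_pow₀ (by linarith)
      calc b₀ * X ≤ B * X := mul_le_mul_of_nonneg_right e4 hXpos.le
        _ = B * X * 1 := (mul_one _).symm
        _ ≤ M := by
            rw [hMdef]
            exact mul_le_mul_of_nonneg_left e12 (by positivity)
    have e4 : (2 * X) ^ (1 / 500 : ℝ) ≤ 2 * X ^ (1 / 500 : ℝ) := by
      rw [Real.mul_rpow (by norm_num) hXpos.le]
      refine mul_le_mul_of_nonneg_right ?_ (by positivity)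
      calc (2 : ℝ) ^ (1 / 500 : ℝ) ≤ (2 : ℝ) ^ (1 : ℝ) :=
            Real.rpow_le_rpow_of_exponent_le (by norm_num) (by norm_num)
        _ = 2 := Real.rpow_one 2
    have e5 : X ^ (1 - 1 / 200 : ℝ) * X ^ (1 / 500 : ℝ) * X ^ (3 / 1000 : ℝ) = X := by
      rw [← Real.rpow_add hXpos, ← Real.rpow_add hXpos]
      norm_num
    have e6 : 4 * C₀ ^ 2 * Q ≤ b₀ * X ^ (3 / 1000 : ℝ) := by
      rw [div_le_iff₀ hb₀pos] at b8
      linarith
    have hA : 0 ≤ X ^ (1 - 1 / 200 : ℝ) * X ^ (1 / 500 : ℝ) := by positivity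
    calc X ^ (1 - 1 / 200 : ℝ) * (C₀ ^ 2 * Q * (2 * X) ^ (1 / 500 : ℝ))
        ≤ X ^ (1 - 1 / 200 : ℝ) * (C₀ ^ 2 * Q * (2 * X ^ (1 / 500 : ℝ))) := by
          refine mul_le_mul_of_nonneg_left ?_ (by positivity)
          exact mul_le_mul_of_nonneg_left e4 (by positivity)
      _ = (4 * C₀ ^ 2 * Q) * (X ^ (1 - 1 / 200 : ℝ) * X ^ (1 / 500 : ℝ)) / 2 := by ring
      _ ≤ (b₀ * X ^ (3 / 1000 : ℝ)) * (X ^ (1 - 1 / 200 : ℝ) * X ^ (1 / 500 : ℝ)) / 2 := by
          have := mul_le_mul_of_nonneg_right e6 hA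
          linarith
      _ = b₀ * (X ^ (1 - 1 / 200 : ℝ) * X ^ (1 / 500 : ℝ) * X ^ (3 / 1000 : ℝ)) / 2 := by ring
      _ = b₀ * X / 2 := by rw [e5]
      _ ≤ M / 2 := by linarith
  have hc1 := hc id Function.injective_id (fun n hn => by
    rw [Finset.mem_Icc] at hn ⊢
    exact ⟨hn.1, hn.2.trans (Nat.floor_le_floor (by linarith))⟩)
  have hc2 := hc (fun n => n + h) (fun a b hab => by simpa using hab) (fun n hn => by
    rw [Finset.mem_Icc] at hn ⊢
    refine ⟨by omega, Nat.le_floor ?_⟩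
    have hnX : (n : ℝ) ≤ X := (Nat.le_floor_iff hXpos.le).mp hn.2
    push_cast
    linarith)
  -- assembly
  have hcover : ∑ n ∈ Finset.Icc 1 ⌊X⌋₊, f n ≤
      ∑ n ∈ (Finset.Icc 1 ⌊X⌋₊).filter (fun n => Ex X (id n)), f n +
      ∑ n ∈ (Finset.Icc 1 ⌊X⌋₊).filter (fun n => Ex X (n + h)), f n +
      ∑ n ∈ (Finset.Icc 1 ⌊X⌋₊).filter (Bk X (1 / 2) h 32), f n +
      ∑ s ∈ Finset.Icc 32 S₀,
        ∑ n ∈ (Finset.Icc 1 ⌊X⌋₊).filter (Bk X (X ^ (1 / 8 : ℝ)) h s), f n := by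
    simp only [Finset.sum_filter]
    rw [Finset.sum_comm, ← Finset.sum_add_distrib, ← Finset.sum_add_distrib,
      ← Finset.sum_add_distrib]
    refine Finset.sum_le_sum fun n hn => ?_
    rw [Finset.mem_Icc] at hn
    have q1 : 0 ≤ (if Ex X (id n) then f n else 0) := by
      split_ifs
      · exact hf0 n
      · exact le_refl _
    have q2 : 0 ≤ (if Ex X (n + h) then f n else 0) := by
      split_ifs
      · exact hf0 n
      · exact le_refl _
    have q3 : 0 ≤ (if Bk X (1 / 2) h 32 n then f n else 0) := by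
      split_ifs
      · exact hf0 n
      · exact le_refl _
    have q4 : ∀ s ∈ Finset.Icc 32 S₀, 0 ≤ (if Bk X (X ^ (1 / 8 : ℝ)) h s n then f n else 0) := by
      intro s _
      split_ifs
      · exact hf0 n
      · exact le_refl _
    have q5 := Finset.sum_nonneg q4
    rcases h11 X h n b2 hh hn.1 with c | c | c | ⟨s, hs1, hs2, c⟩
    · have : (if Ex X (id n) then f n else 0) = f n := if_pos c
      linarith
    · have : (if Ex X (n + h) then f n else 0) = f n := if_pos c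
      linarith
    · have : (if Bk X (1 / 2) h 32 n then f n else 0) = f n := if_pos c
      linarith
    · have q6 := Finset.single_le_sum q4 (Finset.mem_Icc.mpr ⟨hs1, hs2⟩)
      have : (if Bk X (X ^ (1 / 8 : ℝ)) h s n then f n else 0) = f n := if_pos c
      linarith
  refine hcover.trans ?_
  linarith

end Pool.Agent.Work.MP_122e00_nt.TS
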