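import Pool.Agent.Work.MP_122e00_nt.TS.Stmts2

/-!
# Thin shifts, item E4 (helper5): coefficients of a polynomial which is bounded on `[A, 2A]`
-/

set_option autoImplicit false

namespace Pool.Agent.Work.MP_122e00_nt.TS

namespace IE4

/-- the nodes -/
noncomputable def nd (d i : ℕ) : ℝ := 1 + (i : ℝ) / ((d : ℝ) + 1)

theorem nd_inj (d : ℕ) : Function.Injective (nd d) := by
  intro i j h
  have hd : (0 : ℝ) < (d : ℝ) + 1 := by positivity
  unfold nd at h
  have h1 : (i : ℝ) / ((d : ℝ) + 1) = (j : ℝ) / ((d : ℝ) + 1) := by linarith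
  rw [div_left_inj' hd.ne'] at h1
  exact_mod_cast h1

theorem nd_mem (d i : ℕ) (hi : i < d + 1) : 1 ≤ nd d i ∧ nd d i ≤ 2 := by
  have hd : (0 : ℝ) < (d : ℝ) + 1 := by positivity
  unfold nd
  constructor
  · have : 0 ≤ (i : ℝ) / ((d : ℝ) + 1) := by positivity
    linarith
  · have h1 : (i : ℝ) ≤ (d : ℝ) + 1 := by exact_mod_cast hi.le
    have : (i : ℝ) / ((d : ℝ) + 1) ≤ 1 := (div_le_one hd).2 h1
    linarith

end IE4

open IE4 Polynomial in
theorem prE4 : tsE4 := by
  intro d
  let b : ℕ → Polynomial ℝ := fun i => Lagrange.basis (Finset.range (d + 1)) (nd d) i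
  let S : ℝ := ∑ j ∈ Finset.range (d + 1), ∑ i ∈ Finset.range (d + 1), |(b i).coeff j|
  have hS : 0 ≤ S := Finset.sum_nonneg fun j _ => Finset.sum_nonneg fun i _ => abs_nonneg _
  refine ⟨S + 1, by linarith, ?_⟩
  intro p hp A M hA hM hb j
  rcases lt_or_ge d j with hj | hj
  · rw [Polynomial.coeff_eq_zero_of_natDegree_lt (lt_of_le_of_lt hp hj), abs_zero]
    positivity
  · let q : Polynomial ℝ := p.comp (C A * X)
    have hqc : ∀ n, q.coeff n = p.coeff n * A ^ n := fun n => Polynomial.comp_C_mul_X_coeff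
    have hqd : q.degree < ((Finset.range (d + 1)).card : ℕ) := by
      rw [Finset.card_range]
      refine lt_of_le_of_lt (Polynomial.degree_le_of_natDegree_le (n := d) ?_) ?_
      · refine Polynomial.natDegree_le_iff_coeff_eq_zero.2 fun N hN => ?_
        rw [hqc, Polynomial.coeff_eq_zero_of_natDegree_lt (lt_of_le_of_lt hp hN), zero_mul]
      · exact_mod_cast Nat.lt_succ_self d
    have h1 := Lagrange.eq_interpolate (s := Finset.range (d + 1)) (v := nd d) (f := q)
      (fun a _ c _ h => nd_inj d h) hqd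
    have h2 : q.coeff j = ∑ i ∈ Finset.range (d + 1), q.eval (nd d i) * (b i).coeff j := by
      conv_lhs => rw [h1]
      rw [Lagrange.interpolate_apply, Polynomial.finsetSum_coeff]
      refine Finset.sum_congr rfl fun i _ => ?_
      rw [Polynomial.coeff_C_mul]
    have h3 : ∀ i ∈ Finset.range (d + 1), |q.eval (nd d i)| ≤ M := by
      intro i hi
      obtain ⟨h4, h5⟩ := nd_mem d i (Finset.mem_range.1 hi)
      have h6 : q.eval (nd d i) = p.eval (A * nd d i) := by
        show (p.comp (C A * X)).eval (nd d i) = _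
        rw [Polynomial.eval_comp, Polynomial.eval_mul, Polynomial.eval_C, Polynomial.eval_X]
      rw [h6]
      apply hb
      constructor
      · nlinarith
      · nlinarith
    have h4 : |q.coeff j| ≤ M * S := by
      rw [h2]
      refine (Finset.abs_sum_le_sum_abs _ _).trans ?_
      have h5 : ∑ i ∈ Finset.range (d + 1), |q.eval (nd d i) * (b i).coeff j| ≤
          ∑ i ∈ Finset.range (d + 1), M * |(b i).coeff j| := by
        refine Finset.sum_le_sum fun i hi => ?_
        rw [abs_mul]
        exact mul_le_mul_of_nonneg_right (h3 i hi) (abs_nonneg _)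
      refine h5.trans ?_
      rw [← Finset.mul_sum]
      refine mul_le_mul_of_nonneg_left ?_ hM
      exact Finset.single_le_sum (f := fun j => ∑ i ∈ Finset.range (d + 1), |(b i).coeff j|)
        (fun k _ => Finset.sum_nonneg fun i _ => abs_nonneg _)
        (Finset.mem_range.2 (Nat.lt_succ_of_le hj))
    have h5 : |p.coeff j| ≤ |q.coeff j| := by
      rw [hqc, abs_mul, abs_pow, abs_of_nonneg (zero_le_one.trans hA)]
      exact le_mul_of_one_le_right (abs_nonneg _) (one_le_pow₀ hA)
    nlinarith

end Pool.Agent.Work.MP_122e00_nt.TS
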