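import Mathlib
import Pool.Agent.Work.MP_122e00_nt.TS.Stmts3

set_option autoImplicit false

/-!
# Thin shifts, item G3: the correlations of the model
-/

namespace Pool.Agent.Work.MP_122e00_nt.TS

open Finset Filter Topology ArithmeticFunction
open scoped ArithmeticFunction.zeta ArithmeticFunction.Moebius

namespace IG3

theorem ed_deg {P : Polynomial ℝ} {D : ℕ} (h : P.natDegree ≤ D) : (ed P).natDegree ≤ D := by
  unfold ed
  refine (Polynomial.natDegree_add_le _ _).trans (max_le h ?_)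
  exact (Polynomial.natDegree_derivative_le P).trans (by omega)

theorem ed_coeff {P : Polynomial ℝ} {D : ℕ} {M : ℝ} (h : P.natDegree ≤ D)
    (hM : ∀ j, |P.coeff j| ≤ M) (j : ℕ) : |(ed P).coeff j| ≤ (D + 1) * M := by
  have hM0 : 0 ≤ M := (abs_nonneg _).trans (hM 0)
  have hD0 : (0 : ℝ) ≤ D := Nat.cast_nonneg _
  unfold ed
  rw [Polynomial.coeff_add, Polynomial.coeff_derivative]
  rcases Nat.lt_or_ge D (j + 1) with hj | hj
  · rw [Polynomial.coeff_eq_zero_of_natDegree_lt (lt_of_le_of_lt h hj), zero_mul, add_zero]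
    have h1 := hM j
    have h2 : 0 ≤ (D : ℝ) * M := mul_nonneg hD0 hM0
    linarith
  · refine (abs_add_le _ _).trans ?_
    rw [abs_mul]
    have h1 : |((j : ℝ) + 1)| ≤ D := by
      rw [abs_of_nonneg (by positivity)]
      exact_mod_cast hj
    have h2 := hM j
    have h3 : |P.coeff (j + 1)| * |((j : ℝ) + 1)| ≤ M * D :=
      mul_le_mul (hM (j + 1)) h1 (abs_nonneg _) hM0
    linarith

theorem log_pow_bound (k : ℕ) {ε : ℝ} (hε : 0 < ε) :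
    ∃ C : ℝ, 0 < C ∧ ∀ X : ℝ, 1 ≤ X → (1 + Real.log (2 * X)) ^ k ≤ C * X ^ ε := by
  have hk : (0 : ℝ) < (k : ℝ) + 1 := by positivity
  set s : ℝ := ε / (k + 1) with hs
  have hs0 : 0 < s := by positivity
  refine ⟨(1 + 2 ^ s / s) ^ (k + 1), by positivity, fun X hX => ?_⟩
  have hX0 : 0 < X := by linarith
  have h1 : Real.log (2 * X) ≤ (2 * X) ^ s / s := Real.log_le_rpow_div (by linarith) hs0
  rw [Real.mul_rpow (by norm_num) hX0.le] at h1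
  have h3 : 1 ≤ X ^ s := Real.one_le_rpow hX hs0.le
  have h4 : 1 + Real.log (2 * X) ≤ (1 + 2 ^ s / s) * X ^ s := by
    have e : (2 : ℝ) ^ s * X ^ s / s = 2 ^ s / s * X ^ s := by ring
    rw [e] at h1
    linarith
  have h0 : 1 ≤ 1 + Real.log (2 * X) := by
    have := Real.log_nonneg (x := 2 * X) (by linarith)
    linarith
  calc (1 + Real.log (2 * X)) ^ k ≤ (1 + Real.log (2 * X)) ^ (k + 1) :=
        pow_le_pow_right₀ h0 (by omega)
    _ ≤ ((1 + 2 ^ s / s) * X ^ s) ^ (k + 1) := pow_le_pow_left₀ (by linarith) h4 _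
    _ = (1 + 2 ^ s / s) ^ (k + 1) * X ^ ε := by
        rw [mul_pow]
        congr 1
        rw [← Real.rpow_natCast (X ^ s), ← Real.rpow_mul hX0.le]
        congr 1
        rw [hs]
        push_cast
        field_simp

theorem dv_bound (hL0 : tsL0) {ε : ℝ} (hε : 0 < ε) :
    ∃ C : ℝ, 0 < C ∧ ∀ h : ℕ, 1 ≤ h → (h.divisors.card : ℝ) ≤ C * (h : ℝ) ^ ε := by
  obtain ⟨C, hC, h1⟩ := hL0 2 ε hε
  refine ⟨C, hC, fun h hh => ?_⟩
  have h2 := h1 h hh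
  unfold dr at h2
  have e : (((ζ : ArithmeticFunction ℕ) ^ 2) h : ℕ) = h.divisors.card := by
    rw [pow_two]
    have h3 : (ζ : ArithmeticFunction ℕ) * ζ = ArithmeticFunction.sigma 0 := by
      rw [← ArithmeticFunction.zeta_mul_pow_eq_sigma, ArithmeticFunction.pow_zero_eq_zeta]
    rw [h3, ArithmeticFunction.sigma_zero_apply]
  rw [e] at h2
  exact h2

/-- expansion of the correlation -/
theorem partA (hF7 : tsF7) (p : ℕ → Polynomial ℝ) (N h Q : ℕ) (V : ℝ) (hV0 : 0 ≤ V)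
    (hV : ∀ q q' : ℕ, 1 ≤ q → 1 ≤ q' →
      |(p q).eval (Real.log N) * (p q').eval (Real.log ((N : ℝ) + h))| +
      ∑ n ∈ Finset.Ico 1 N, |(p q).eval (Real.log ((n + 1 : ℕ) : ℝ)) *
        (p q').eval (Real.log (((n + 1 : ℕ) : ℝ) + h)) -
      (p q).eval (Real.log n) * (p q').eval (Real.log ((n : ℝ) + h))| ≤ V) :
    |∑ n ∈ Finset.Icc 1 N, (∑ q ∈ Finset.Icc 1 Q, Gh n q * (p q).eval (Real.log n)) *
        (∑ q ∈ Finset.Icc 1 Q, Gh (n + h) q * (p q).eval (Real.log ((n + h : ℕ) : ℝ))) -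
      ∑ q ∈ Finset.Icc 1 Q, Gh h q * ∑ n ∈ Finset.Icc 1 N,
        (p q).eval (Real.log n) * (p q).eval (Real.log ((n : ℝ) + h))| ≤ V * (Q : ℝ) ^ 6 := by
  have e1 : ∑ n ∈ Finset.Icc 1 N, (∑ q ∈ Finset.Icc 1 Q, Gh n q * (p q).eval (Real.log n)) *
        (∑ q ∈ Finset.Icc 1 Q, Gh (n + h) q * (p q).eval (Real.log ((n + h : ℕ) : ℝ))) =
      ∑ q ∈ Finset.Icc 1 Q, ∑ q' ∈ Finset.Icc 1 Q, ∑ n ∈ Finset.Icc 1 N, Gh n q * Gh (n + h) q' *
        ((p q).eval (Real.log n) * (p q').eval (Real.log ((n : ℝ) + h))) := by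
    simp_rw [Finset.sum_mul_sum]
    rw [Finset.sum_comm]
    refine Finset.sum_congr rfl fun q _ => ?_
    rw [Finset.sum_comm]
    refine Finset.sum_congr rfl fun q' _ => Finset.sum_congr rfl fun n _ => ?_
    push_cast
    ring
  have e2 : ∑ q ∈ Finset.Icc 1 Q, Gh h q * ∑ n ∈ Finset.Icc 1 N,
        (p q).eval (Real.log n) * (p q).eval (Real.log ((n : ℝ) + h)) =
      ∑ q ∈ Finset.Icc 1 Q, ∑ q' ∈ Finset.Icc 1 Q, (if q = q' then Gh h q * ∑ n ∈ Finset.Icc 1 N,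
        (p q).eval (Real.log n) * (p q').eval (Real.log ((n : ℝ) + h)) else 0) := by
    refine Finset.sum_congr rfl fun q hq => ?_
    rw [Finset.sum_ite_eq, if_pos hq]
  rw [e1, e2, ← Finset.sum_sub_distrib]
  simp_rw [← Finset.sum_sub_distrib]
  have hterm : ∀ q ∈ Finset.Icc 1 Q, ∀ q' ∈ Finset.Icc 1 Q,
      |∑ n ∈ Finset.Icc 1 N, Gh n q * Gh (n + h) q' *
        ((p q).eval (Real.log n) * (p q').eval (Real.log ((n : ℝ) + h))) -
        (if q = q' then Gh h q * ∑ n ∈ Finset.Icc 1 N,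
        (p q).eval (Real.log n) * (p q').eval (Real.log ((n : ℝ) + h)) else 0)| ≤
      V * (Q : ℝ) ^ 4 := by
    intro q hq q' hq'
    rw [Finset.mem_Icc] at hq hq'
    have h1 := hF7 (fun n => (p q).eval (Real.log n) * (p q').eval (Real.log ((n : ℝ) + h)))
      V N h q q' hq.1 hq'.1 (hV q q' hq.1 hq'.1)
    refine h1.trans ?_
    have h2 : (q : ℝ) ^ 2 ≤ (Q : ℝ) ^ 2 :=
      pow_le_pow_left₀ (Nat.cast_nonneg _) (by exact_mod_cast hq.2) 2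
    have h3 : (q' : ℝ) ^ 2 ≤ (Q : ℝ) ^ 2 :=
      pow_le_pow_left₀ (Nat.cast_nonneg _) (by exact_mod_cast hq'.2) 2
    calc V * (q : ℝ) ^ 2 * (q' : ℝ) ^ 2 = V * ((q : ℝ) ^ 2 * (q' : ℝ) ^ 2) := by ring
      _ ≤ V * ((Q : ℝ) ^ 2 * (Q : ℝ) ^ 2) :=
        mul_le_mul_of_nonneg_left (mul_le_mul h2 h3 (by positivity) (by positivity)) hV0
      _ = V * (Q : ℝ) ^ 4 := by ring
  refine (Finset.abs_sum_le_sum_abs _ _).trans ?_
  refine (Finset.sum_le_sum fun q hq => Finset.abs_sum_le_sum_abs _ _).trans ?_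
  refine (Finset.sum_le_sum fun q hq => Finset.sum_le_sum fun q' hq' => hterm q hq q' hq').trans ?_
  rw [Finset.sum_const, Finset.sum_const, Nat.card_Icc, Nat.add_sub_cancel, nsmul_eq_mul,
    nsmul_eq_mul]
  refine le_of_eq ?_
  ring

/-- the diagonal terms -/
theorem partB (hG1 : ∀ h : ℕ, 1 ≤ h → Summable (fun q : ℕ => |Gh h q| * (q : ℝ) ^ (-(3 / 2) : ℝ)))
    (h Q : ℕ) (hh : 1 ≤ h) (W B : ℝ) (hW : 0 ≤ W)
    (hB : ∑' q : ℕ, |Gh h q| * (q : ℝ) ^ (-(3 / 2) : ℝ) ≤ B) (F G : ℕ → ℝ)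
    (hFG : ∀ q ∈ Finset.Icc 1 Q, |F q - G q| ≤ W * (q : ℝ) ^ (-(3 / 2) : ℝ)) :
    |∑ q ∈ Finset.Icc 1 Q, Gh h q * F q - ∑ q ∈ Finset.Icc 1 Q, Gh h q * G q| ≤ B * W := by
  rw [← Finset.sum_sub_distrib]
  refine (Finset.abs_sum_le_sum_abs _ _).trans ?_
  have h1 : ∑ q ∈ Finset.Icc 1 Q, |Gh h q * F q - Gh h q * G q| ≤
      ∑ q ∈ Finset.Icc 1 Q, |Gh h q| * (q : ℝ) ^ (-(3 / 2) : ℝ) * W := by
    refine Finset.sum_le_sum fun q hq => ?_
    rw [← mul_sub, abs_mul]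
    calc |Gh h q| * |F q - G q| ≤ |Gh h q| * (W * (q : ℝ) ^ (-(3 / 2) : ℝ)) :=
          mul_le_mul_of_nonneg_left (hFG q hq) (abs_nonneg _)
      _ = _ := by ring
  refine h1.trans ?_
  rw [← Finset.sum_mul]
  refine mul_le_mul_of_nonneg_right ?_ hW
  refine le_trans ?_ hB
  exact (hG1 h hh).sum_le_tsum _ fun q _ => mul_nonneg (abs_nonneg _)
    (Real.rpow_nonneg (Nat.cast_nonneg _) _)

theorem floor_rpow {X s : ℝ} (hX : 1 ≤ X) (hs : 0 < s) :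
    1 ≤ ⌊X ^ s⌋₊ ∧ (⌊X ^ s⌋₊ : ℝ) ≤ X ^ s ∧ X ^ s / 2 ≤ (⌊X ^ s⌋₊ : ℝ) := by
  have h1 : 1 ≤ X ^ s := Real.one_le_rpow hX hs.le
  have h2 : 1 ≤ ⌊X ^ s⌋₊ := (Nat.one_le_floor_iff _).mpr h1
  refine ⟨h2, Nat.floor_le (by linarith), ?_⟩
  have h3 := Nat.lt_floor_add_one (X ^ s)
  have h4 : (1 : ℝ) ≤ (⌊X ^ s⌋₊ : ℝ) := by exact_mod_cast h2
  linarith

theorem floor_pow6 {X s : ℝ} (hX : 1 ≤ X) (hs : 0 < s) :
    (⌊X ^ s⌋₊ : ℝ) ^ 6 ≤ X ^ (6 * s) := by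
  have hX0 : 0 < X := by linarith
  have h1 := (floor_rpow hX hs).2.1
  calc (⌊X ^ s⌋₊ : ℝ) ^ 6 ≤ (X ^ s) ^ 6 := pow_le_pow_left₀ (Nat.cast_nonneg _) h1 6
    _ = X ^ (6 * s) := by
      rw [← Real.rpow_natCast (X ^ s), ← Real.rpow_mul hX0.le]
      congr 1
      push_cast
      ring

theorem floor_neg {X s : ℝ} (hX : 1 ≤ X) (hs : 0 < s) :
    (⌊X ^ s⌋₊ : ℝ) ^ (-(1 / 4) : ℝ) ≤ 2 * X ^ (-(s / 4)) := by
  have hX0 : 0 < X := by linarith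
  obtain ⟨h1, h2, h3⟩ := floor_rpow hX hs
  have h4 : 0 < X ^ s / 2 := by
    have := Real.rpow_pos_of_pos hX0 s
    linarith
  calc (⌊X ^ s⌋₊ : ℝ) ^ (-(1 / 4) : ℝ) ≤ (X ^ s / 2) ^ (-(1 / 4) : ℝ) :=
        Real.rpow_le_rpow_of_nonpos h4 h3 (by norm_num)
    _ = (X ^ s) ^ (-(1 / 4) : ℝ) * (2 : ℝ) ^ (1 / 4 : ℝ) := by
        rw [div_eq_mul_inv, Real.mul_rpow (Real.rpow_nonneg hX0.le _) (by norm_num)]
        congr 1
        rw [Real.inv_rpow (by norm_num), ← Real.rpow_neg (by norm_num)]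
        norm_num
    _ ≤ (X ^ s) ^ (-(1 / 4) : ℝ) * 2 := by
        refine mul_le_mul_of_nonneg_left ?_ (Real.rpow_nonneg (Real.rpow_nonneg hX0.le _) _)
        calc (2 : ℝ) ^ (1 / 4 : ℝ) ≤ (2 : ℝ) ^ (1 : ℝ) :=
              Real.rpow_le_rpow_of_exponent_le (by norm_num) (by norm_num)
          _ = 2 := Real.rpow_one 2
    _ = 2 * X ^ (-(s / 4)) := by
        rw [← Real.rpow_mul hX0.le, mul_comm]
        congr 2
        ring

end IG3

open IG3 in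
theorem prG3 (hL0 : tsL0) (hF2 : tsF2) (hF3 : tsF3) (hF7 : tsF7) (hF8 : tsF8) (hF9 : tsF9)
    (hG1 : tsG1) (hG2 : tsG2) : tsG3 := by
  intro r E hr hdeg hCB θ η₂ hθ hθ1 hη hη1
  obtain ⟨ε, hε0, hε1, hε2⟩ : ∃ ε : ℝ, 0 < ε ∧ 4 * ε ≤ 1 - θ ∧ 4 * ε ≤ η₂ / 4 := by
    refine ⟨min ((1 - θ) / 4) (η₂ / 16), lt_min (by linarith) (by linarith), ?_, ?_⟩
    · have := min_le_left ((1 - θ) / 4) (η₂ / 16)
      linarith
    · have := min_le_right ((1 - θ) / 4) (η₂ / 16)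
      linarith
  obtain ⟨C0, hC0, hE⟩ := hCB (1 / 4) (by norm_num)
  obtain ⟨d, hd⟩ : ∃ d : ℕ, d = r - 1 := ⟨_, rfl⟩
  rw [← hd] at hdeg
  have hpdeg : ∀ q, (ed (E q)).natDegree ≤ d := fun q => ed_deg (hdeg q)
  obtain ⟨K1, hK1⟩ : ∃ K1 : ℝ, K1 = ((d : ℝ) + 1) * C0 := ⟨_, rfl⟩
  have hK1p : 0 < K1 := by
    rw [hK1]
    positivity
  have hpc : ∀ q j : ℕ, 1 ≤ q → |(ed (E q)).coeff j| ≤ K1 * (q : ℝ) ^ ((1 / 4 : ℝ) - 1) := by
    intro q j hq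
    have h1 := ed_coeff (hdeg q) (fun j => hE q j hq) j
    rw [hK1]
    refine h1.trans (le_of_eq ?_)
    ring
  have hpc1 : ∀ q j : ℕ, 1 ≤ q → |(ed (E q)).coeff j| ≤ K1 := by
    intro q j hq
    refine (hpc q j hq).trans ?_
    have h1 : (q : ℝ) ^ ((1 / 4 : ℝ) - 1) ≤ 1 :=
      Real.rpow_le_one_of_one_le_of_nonpos (by exact_mod_cast hq) (by norm_num)
    nlinarith
  obtain ⟨CF2, hCF2, hF2'⟩ := hF2 d
  obtain ⟨CF3, hCF3, hF3'⟩ := hF3 (2 * d)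
  obtain ⟨CF8, hCF8, hF8'⟩ := hF8 d
  obtain ⟨CG1, hCG1, hG1'⟩ := hG1
  obtain ⟨CG2, hCG2, hcoef, hPH⟩ := hG2 r E hr (by rw [← hd]; exact hdeg) hCB
  obtain ⟨CL, hCL, hlog⟩ := log_pow_bound (2 * d + 1) hε0
  obtain ⟨CD, hCD, hdv⟩ := dv_bound hL0 hε0
  obtain ⟨c, hc⟩ : ∃ c : ℝ, c = CF2 * K1 * K1 * CL + CG1 * CD * (CF8 * K1 ^ 2) * CL +
      CG1 * CD * (CF3 * CG2) * CL + 2 * CG2 * CD * CL := ⟨_, rfl⟩
  have hcp : 0 < c := by
    rw [hc]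
    positivity
  refine ⟨ε, max 1 (c ^ (1 / ε)), hε0, fun X h hX hh hhX => ?_⟩
  have hX1 : 1 ≤ X := (le_max_left _ _).trans hX
  have hX0 : 0 < X := by linarith
  have hcX : c ≤ X ^ ε := by
    have h1 : c ^ (1 / ε) ≤ X := (le_max_right _ _).trans hX
    have h2 : (c ^ (1 / ε)) ^ ε ≤ X ^ ε :=
      Real.rpow_le_rpow (Real.rpow_nonneg hcp.le _) h1 hε0.le
    rwa [← Real.rpow_mul hcp.le, one_div, inv_mul_cancel₀ hε0.ne', Real.rpow_one] at h2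
  have hmono : ∀ a b : ℝ, a ≤ b → X ^ a ≤ X ^ b := fun a b hab =>
    Real.rpow_le_rpow_of_exponent_le hX1 hab
  have hpos : ∀ a : ℝ, 0 < X ^ a := fun a => Real.rpow_pos_of_pos hX0 a
  obtain ⟨N, hN⟩ : ∃ N : ℕ, N = ⌊X⌋₊ := ⟨_, rfl⟩
  obtain ⟨Q, hQ⟩ : ∃ Q : ℕ, Q = ⌊X ^ η₂⌋₊ := ⟨_, rfl⟩
  have hN1 : 1 ≤ N := by
    rw [hN]
    exact (Nat.one_le_floor_iff _).mpr hX1
  have hNX : (N : ℝ) ≤ X := by
    rw [hN]
    exact Nat.floor_le hX0.le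
  have hQ1 : 1 ≤ Q := by
    rw [hQ]
    exact (floor_rpow hX1 hη).1
  have hQ6 : (Q : ℝ) ^ 6 ≤ X ^ (6 * η₂) := by
    rw [hQ]
    exact floor_pow6 hX1 hη
  have hQn : (Q : ℝ) ^ (-(1 / 4) : ℝ) ≤ 2 * X ^ (-(η₂ / 4)) := by
    rw [hQ]
    exact floor_neg hX1 hη
  have hN1r : (1 : ℝ) ≤ N := by exact_mod_cast hN1
  have hh1r : (1 : ℝ) ≤ h := by exact_mod_cast hh
  have hhX' : (h : ℝ) ≤ X := by
    refine hhX.trans ?_
    have := hmono θ 1 hθ1.le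
    rwa [Real.rpow_one] at this
  obtain ⟨Lh, hLh⟩ : ∃ Lh : ℝ, Lh = 1 + Real.log ((N : ℝ) + h) := ⟨_, rfl⟩
  obtain ⟨Lx, hLx⟩ : ∃ Lx : ℝ, Lx = 1 + Real.log X := ⟨_, rfl⟩
  have hLh1 : 1 ≤ Lh := by
    have := Real.log_nonneg (x := (N : ℝ) + h) (by linarith)
    linarith
  have hLx1 : 1 ≤ Lx := by
    have := Real.log_nonneg (x := X) hX1
    linarith
  have hLhL : Lh ≤ 1 + Real.log (2 * X) := by
    have := Real.log_le_log (x := (N : ℝ) + h) (y := 2 * X) (by linarith) (by linarith)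
    linarith
  have hLxL : Lx ≤ 1 + Real.log (2 * X) := by
    have := Real.log_le_log (x := X) (y := 2 * X) (by linarith) (by linarith)
    linarith
  have hLL := hlog X hX1
  have b1 : Lh ^ (2 * d + 1) ≤ CL * X ^ ε := (pow_le_pow_left₀ (by linarith) hLhL _).trans hLL
  have b2 : Lh ^ (2 * d) ≤ CL * X ^ ε := (pow_le_pow_right₀ hLh1 (by omega)).trans b1
  have b3 : Lx ^ (2 * d + 1) ≤ CL * X ^ ε := (pow_le_pow_left₀ (by linarith) hLxL _).trans hLL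
  have b4 : Lx ^ (2 * d) ≤ CL * X ^ ε := (pow_le_pow_right₀ hLx1 (by omega)).trans b3
  have b5 : (h.divisors.card : ℝ) ≤ CD * X ^ ε := by
    refine (hdv h hh).trans (mul_le_mul_of_nonneg_left ?_ hCD.le)
    exact Real.rpow_le_rpow (by linarith) hhX' hε0.le
  -- the four estimates
  have hA : |cor (fs E Q) (fs E Q) N h - ∑ q ∈ Finset.Icc 1 Q, Gh h q * ∑ n ∈ Finset.Icc 1 N,
      (ed (E q)).eval (Real.log n) * (ed (E q)).eval (Real.log ((n : ℝ) + h))| ≤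
      CF2 * K1 * K1 * Lh ^ (2 * d) * (Q : ℝ) ^ 6 := by
    refine partA hF7 (fun q => ed (E q)) N h Q _ (by positivity) ?_
    intro q q' hq hq'
    have h1 := hF2' (ed (E q)) (ed (E q')) K1 K1 N h (hpdeg q) (hpdeg q')
      (fun j => hpc1 q j hq) (fun j => hpc1 q' j hq') hN1
    rw [hLh]
    exact h1
  have hdv0 : (0 : ℝ) ≤ (h.divisors.card : ℝ) := Nat.cast_nonneg _
  have hB : |∑ q ∈ Finset.Icc 1 Q, Gh h q * (∑ n ∈ Finset.Icc 1 N,
      (ed (E q)).eval (Real.log n) * (ed (E q)).eval (Real.log ((n : ℝ) + h))) -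
      ∑ q ∈ Finset.Icc 1 Q, Gh h q * (X * (rr (ed (E q) ^ 2)).eval (Real.log X))| ≤
      CG1 * h.divisors.card * (CF8 * K1 ^ 2 * h * Lh ^ (2 * d + 1) +
        CF3 * CG2 * Lx ^ (2 * d + 1)) := by
    refine partB (fun h hh => (hG1' h hh).1) h Q hh _ _ (by positivity) (hG1' h hh).2.1
      (fun q => ∑ n ∈ Finset.Icc 1 N,
      (ed (E q)).eval (Real.log n) * (ed (E q)).eval (Real.log ((n : ℝ) + h)))
      (fun q => X * (rr (ed (E q) ^ 2)).eval (Real.log X)) ?_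
    intro q hq
    rw [Finset.mem_Icc] at hq
    have h1 := hF8' (ed (E q)) (K1 * (q : ℝ) ^ ((1 / 4 : ℝ) - 1)) N h (hpdeg q)
      (fun j => hpc q j hq.1) hN1
    obtain ⟨g1, g2, -, -⟩ := hF9 (ed (E q) ^ 2)
    have h2 := hF3' (rr (ed (E q) ^ 2)) (CG2 * (q : ℝ) ^ (-(3 / 2) : ℝ)) X
      (g2.trans ((Polynomial.natDegree_pow_le).trans (Nat.mul_le_mul_left 2 (hpdeg q))))
      (fun j => hcoef q j hq.1) hX1
    rw [g1] at h2
    simp only [Polynomial.eval_pow] at h2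
    rw [← hN, ← hLx] at h2
    rw [← hLh] at h1
    have e3 : (K1 * (q : ℝ) ^ ((1 / 4 : ℝ) - 1)) ^ 2 = K1 ^ 2 * (q : ℝ) ^ (-(3 / 2) : ℝ) := by
      rw [mul_pow]
      congr 1
      rw [← Real.rpow_natCast ((q : ℝ) ^ ((1 / 4 : ℝ) - 1)), ← Real.rpow_mul (Nat.cast_nonneg _)]
      congr 1
      norm_num
    rw [e3] at h1
    have h3 := (abs_sub_le _ (∑ n ∈ Finset.Icc 1 N, (ed (E q)).eval (Real.log n) ^ 2) _).trans
      (add_le_add h1 h2)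
    refine h3.trans (le_of_eq ?_)
    ring
  have hC := (hPH h hh).2.2 Q (Real.log X) hQ1 (Real.log_nonneg hX1)
  rw [← hd, ← hLx] at hC
  have hC' : |∑ q ∈ Finset.Icc 1 Q, Gh h q * (X * (rr (ed (E q) ^ 2)).eval (Real.log X)) -
      X * (PH r E h).eval (Real.log X)| ≤
      X * (CG2 * h.divisors.card * (Q : ℝ) ^ (-(1 / 4) : ℝ) * Lx ^ (2 * d)) := by
    have e4 : ∑ q ∈ Finset.Icc 1 Q, Gh h q * (X * (rr (ed (E q) ^ 2)).eval (Real.log X)) -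
        X * (PH r E h).eval (Real.log X) = -(X * ((PH r E h).eval (Real.log X) -
          ∑ q ∈ Finset.Icc 1 Q, Gh h q * (rr (ed (E q) ^ 2)).eval (Real.log X))) := by
      rw [mul_sub, Finset.mul_sum, neg_sub]
      congr 1
      refine Finset.sum_congr rfl fun q _ => ?_
      ring
    rw [e4, abs_neg, abs_mul, abs_of_pos hX0]
    exact mul_le_mul_of_nonneg_left hC hX0.le
  rw [← hN, ← hQ]
  have htot := (abs_sub_le (cor (fs E Q) (fs E Q) N h) _ _).trans (add_le_add hA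
    ((abs_sub_le _ _ _).trans (add_le_add hB hC')))
  refine htot.trans ?_
  -- the exponents
  have t1 : CF2 * K1 * K1 * Lh ^ (2 * d) * (Q : ℝ) ^ 6 ≤
      CF2 * K1 * K1 * CL * X ^ (1 - 2 * ε) := by
    calc CF2 * K1 * K1 * Lh ^ (2 * d) * (Q : ℝ) ^ 6
        ≤ CF2 * K1 * K1 * (CL * X ^ ε) * X ^ (6 * η₂) := by gcongr
      _ = CF2 * K1 * K1 * CL * X ^ (ε + 6 * η₂) := by
          rw [Real.rpow_add hX0]
          ring
      _ ≤ _ := by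
          refine mul_le_mul_of_nonneg_left (hmono _ _ ?_) (by positivity)
          linarith
  have t2 : CG1 * h.divisors.card * (CF8 * K1 ^ 2 * h * Lh ^ (2 * d + 1)) ≤
      CG1 * CD * (CF8 * K1 ^ 2) * CL * X ^ (1 - 2 * ε) := by
    calc CG1 * h.divisors.card * (CF8 * K1 ^ 2 * h * Lh ^ (2 * d + 1))
        ≤ CG1 * (CD * X ^ ε) * (CF8 * K1 ^ 2 * X ^ θ * (CL * X ^ ε)) := by gcongr
      _ = CG1 * CD * (CF8 * K1 ^ 2) * CL * X ^ (ε + θ + ε) := by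
          rw [Real.rpow_add hX0, Real.rpow_add hX0]
          ring
      _ ≤ _ := by
          refine mul_le_mul_of_nonneg_left (hmono _ _ ?_) (by positivity)
          linarith
  have t3 : CG1 * h.divisors.card * (CF3 * CG2 * Lx ^ (2 * d + 1)) ≤
      CG1 * CD * (CF3 * CG2) * CL * X ^ (1 - 2 * ε) := by
    calc CG1 * h.divisors.card * (CF3 * CG2 * Lx ^ (2 * d + 1))
        ≤ CG1 * (CD * X ^ ε) * (CF3 * CG2 * (CL * X ^ ε)) := by gcongr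
      _ = CG1 * CD * (CF3 * CG2) * CL * X ^ (ε + ε) := by
          rw [Real.rpow_add hX0]
          ring
      _ ≤ _ := by
          refine mul_le_mul_of_nonneg_left (hmono _ _ ?_) (by positivity)
          linarith
  have t4 : X * (CG2 * h.divisors.card * (Q : ℝ) ^ (-(1 / 4) : ℝ) * Lx ^ (2 * d)) ≤
      2 * CG2 * CD * CL * X ^ (1 - 2 * ε) := by
    calc X * (CG2 * h.divisors.card * (Q : ℝ) ^ (-(1 / 4) : ℝ) * Lx ^ (2 * d))
        ≤ X * (CG2 * (CD * X ^ ε) * (2 * X ^ (-(η₂ / 4))) * (CL * X ^ ε)) := by gcongr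
      _ = 2 * CG2 * CD * CL * X ^ (1 + ε + -(η₂ / 4) + ε) := by
          rw [Real.rpow_add hX0, Real.rpow_add hX0, Real.rpow_add hX0, Real.rpow_one]
          ring
      _ ≤ _ := by
          refine mul_le_mul_of_nonneg_left (hmono _ _ ?_) (by positivity)
          linarith
  have hfin : c * X ^ (1 - 2 * ε) ≤ X ^ (1 - ε) := by
    calc c * X ^ (1 - 2 * ε) ≤ X ^ ε * X ^ (1 - 2 * ε) :=
          mul_le_mul_of_nonneg_right hcX (hpos _).le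
      _ = X ^ (1 - ε) := by
          rw [← Real.rpow_add hX0]
          congr 1
          ring
  refine le_trans ?_ hfin
  rw [hc]
  linarith

end Pool.Agent.Work.MP_122e00_nt.TS
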