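import Pool.Agent.Work.MP_122e00_nt.TS.Stmts9
import Pool.Agent.Work.MP_122e00_nt.TS.I_G3

set_option autoImplicit false

/-!
# Thin shifts, item Y2 (helper70)
-/

namespace Pool.Agent.Work.MP_122e00_nt.TS

open Finset Filter Topology ArithmeticFunction MeasureTheory
open scoped ArithmeticFunction.zeta ArithmeticFunction.Moebius

namespace IY2

/-- values of a polynomial -/
theorem pe (n : ℕ) (P : Polynomial ℝ) (hP : P.natDegree ≤ n) (M L u : ℝ) (hM : 0 ≤ M)
    (hc : ∀ j, |P.coeff j| ≤ M) (hu : 0 ≤ u) (hL : 1 ≤ L) (huL : u ≤ L) :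
    |P.eval u| ≤ ((n : ℝ) + 1) * M * L ^ n := by
  rw [Polynomial.eval_eq_sum_range' (Nat.lt_succ_of_le hP)]
  refine (Finset.abs_sum_le_sum_abs _ _).trans ?_
  calc ∑ i ∈ Finset.range (n + 1), |P.coeff i * u ^ i| ≤
        ∑ i ∈ Finset.range (n + 1), M * L ^ n := by
        refine Finset.sum_le_sum fun i hi => ?_
        rw [abs_mul, abs_of_nonneg (pow_nonneg hu i)]
        refine mul_le_mul (hc i) ?_ (by positivity) hM
        rw [Finset.mem_range] at hi
        exact (pow_le_pow_left₀ hu huL i).trans (pow_le_pow_right₀ hL (by omega))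
    _ = ((n : ℝ) + 1) * M * L ^ n := by
        rw [Finset.sum_const, Finset.card_range, nsmul_eq_mul]
        push_cast
        ring

/-- coefficients of the derivative -/
theorem dc (n : ℕ) (P : Polynomial ℝ) (hP : P.natDegree ≤ n) (M : ℝ) (hM : 0 ≤ M)
    (hc : ∀ j, |P.coeff j| ≤ M) (j : ℕ) :
    |(Polynomial.derivative P).coeff j| ≤ ((n : ℝ) + 1) * M := by
  rw [Polynomial.coeff_derivative, abs_mul]
  by_cases h : j + 1 ≤ n
  · have h1 : |((j : ℝ) + 1)| ≤ (n : ℝ) + 1 := by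
      rw [abs_of_nonneg (by positivity)]
      have : (j : ℝ) + 1 ≤ n := by exact_mod_cast h
      linarith
    calc |P.coeff (j + 1)| * |(j : ℝ) + 1| ≤ M * ((n : ℝ) + 1) :=
          mul_le_mul (hc _) h1 (abs_nonneg _) hM
      _ = _ := mul_comm _ _
  · rw [Polynomial.coeff_eq_zero_of_natDegree_lt (by omega), abs_zero, zero_mul]
    positivity

theorem dd (n : ℕ) (P : Polynomial ℝ) (hP : P.natDegree ≤ n) :
    (Polynomial.derivative P).natDegree ≤ n :=
  (Polynomial.natDegree_derivative_le P).trans (by omega)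

/-- differences of the values of a polynomial -/
theorem pd (n : ℕ) (P : Polynomial ℝ) (hP : P.natDegree ≤ n) (M L u v : ℝ) (hM : 0 ≤ M)
    (hc : ∀ j, |P.coeff j| ≤ M) (hu : 0 ≤ u) (hL : 1 ≤ L) (huv : u ≤ v) (hvL : v ≤ L) :
    |P.eval v - P.eval u| ≤ ((n : ℝ) + 1) * (((n : ℝ) + 1) * M) * L ^ n * (v - u) := by
  have h := Convex.norm_image_sub_le_of_norm_hasDerivWithin_le (f := fun x => P.eval x)
    (f' := fun x => (Polynomial.derivative P).eval x) (s := Set.Icc 0 L) (x := u) (y := v)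
    (C := ((n : ℝ) + 1) * (((n : ℝ) + 1) * M) * L ^ n)
    (fun x _ => (P.hasDerivAt x).hasDerivWithinAt)
    (fun x hx => by
      rw [Real.norm_eq_abs]
      exact pe n _ (dd n P hP) _ L x (by positivity) (dc n P hP M hM hc) hx.1 hL hx.2)
    (convex_Icc 0 L) ⟨hu, huv.trans hvL⟩ ⟨hu.trans huv, hvL⟩
  rw [Real.norm_eq_abs, Real.norm_eq_abs, abs_of_nonneg (by linarith : 0 ≤ v - u)] at h
  exact h

theorem logpow3 (k : ℕ) (η : ℝ) (hη : 0 < η) :
    ∀ᶠ X : ℝ in atTop, (1 + Real.log (3 * X)) ^ k ≤ X ^ η := by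
  obtain ⟨C, hC, hb⟩ := IG3.log_pow_bound k (half_pos hη)
  have h1 : ∀ᶠ X : ℝ in atTop, C * (3 / 2) ^ (η / 2) ≤ X ^ (η / 2) :=
    (tendsto_rpow_atTop (half_pos hη)).eventually_ge_atTop _
  filter_upwards [h1, eventually_ge_atTop (1 : ℝ)] with X hX hX1
  have hX0 : 0 < X := by linarith
  have h2 := hb (3 / 2 * X) (by linarith)
  rw [show 2 * (3 / 2 * X) = 3 * X by ring, Real.mul_rpow (by norm_num) hX0.le] at h2
  calc (1 + Real.log (3 * X)) ^ k ≤ C * ((3 / 2) ^ (η / 2) * X ^ (η / 2)) := h2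
    _ = (C * (3 / 2) ^ (η / 2)) * X ^ (η / 2) := by ring
    _ ≤ X ^ (η / 2) * X ^ (η / 2) :=
        mul_le_mul_of_nonneg_right hX (Real.rpow_nonneg hX0.le _)
    _ = X ^ η := by
        rw [← Real.rpow_add hX0]
        congr 1
        ring

/-- integral of `D / t` -/
theorem int_inv (D X : ℝ) (hX : 1 ≤ X) : ∫ t in (1 : ℝ)..X, D * t⁻¹ = D * Real.log X := by
  rw [intervalIntegral.integral_const_mul, integral_inv_of_pos one_pos (by linarith), div_one]

theorem int_inv_int (D X : ℝ) (hX : 1 ≤ X) :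
    IntervalIntegrable (fun t : ℝ => D * t⁻¹) volume 1 X := by
  apply ContinuousOn.intervalIntegrable
  rw [Set.uIcc_of_le hX]
  exact continuousOn_const.mul (continuousOn_inv₀.mono fun t ht => by
    have := ht.1
    simp only [Set.mem_compl_iff, Set.mem_singleton_iff]
    intro h
    rw [h] at this
    linarith)

/-- Abel summation with a smooth main term -/
theorem core (g g' H H' w : ℝ → ℝ) (c : ℕ → ℂ) (X B G G' H1 D : ℝ) (hX : 1 ≤ X)
    (hc : c 0 = 0)
    (hg : ∀ t ∈ Set.Icc 1 X, HasDerivAt g (g' t) t) (hg' : ContinuousOn g' (Set.Icc 1 X))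
    (hH : ∀ t ∈ Set.Icc 1 X, HasDerivAt H (H' t) t) (hH' : ContinuousOn H' (Set.Icc 1 X))
    (hw : ContinuousOn w (Set.Icc 1 X))
    (hS : ∀ t ∈ Set.Icc 1 X, ‖∑ k ∈ Finset.Icc 0 ⌊t⌋₊, c k - (H t : ℂ)‖ ≤ B) (hG0 : 0 ≤ G)
    (hGb : ∀ t ∈ Set.Icc 1 X, |g t| ≤ G) (hG'b : ∀ t ∈ Set.Icc 1 X, |g' t| ≤ G' * t⁻¹)
    (hG'0 : 0 ≤ G') (hH1 : |H 1| ≤ H1)
    (hD : ∀ t ∈ Set.Icc 1 X, |H' t - w t| ≤ D * t⁻¹) :
    ‖∑ k ∈ Finset.Icc 0 ⌊X⌋₊, (g k : ℂ) * c k - ((∫ t in (1 : ℝ)..X, g t * w t : ℝ) : ℂ)‖ ≤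
      G * B + G' * B * Real.log X + G * H1 + G * D * Real.log X := by
  have h1X : (1 : ℝ) ∈ Set.Icc 1 X := ⟨le_rfl, hX⟩
  have hXX : X ∈ Set.Icc 1 X := ⟨hX, le_rfl⟩
  have hgc : ContinuousOn g (Set.Icc 1 X) := fun t ht => (hg t ht).continuousAt.continuousWithinAt
  have hHc : ContinuousOn H (Set.Icc 1 X) := fun t ht => (hH t ht).continuousAt.continuousWithinAt
  obtain ⟨f, hf⟩ : ∃ f : ℝ → ℂ, f = fun t => (g t : ℂ) := ⟨_, rfl⟩
  have hfd : ∀ t ∈ Set.Icc 1 X, HasDerivAt f (g' t : ℂ) t := by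
    intro t ht
    rw [hf]
    exact (hg t ht).ofReal_comp
  have hfderiv : ∀ t ∈ Set.Icc 1 X, deriv f t = (g' t : ℂ) := fun t ht => (hfd t ht).deriv
  have hg'i : IntegrableOn (fun t => (g' t : ℂ)) (Set.Icc 1 X) := by
    apply ContinuousOn.integrableOn_Icc
    exact Complex.continuous_ofReal.comp_continuousOn hg'
  have hfi : IntegrableOn (deriv f) (Set.Icc 1 X) := by
    refine hg'i.congr_fun (fun t ht => (hfderiv t ht).symm) measurableSet_Icc
  have habel := sum_mul_eq_sub_integral_mul₀ c hc X (fun t ht => (hfd t ht).differentiableAt) hfi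
  obtain ⟨S, hSd⟩ : ∃ S : ℝ → ℂ, S = fun t => ∑ k ∈ Finset.Icc 0 ⌊t⌋₊, c k := ⟨_, rfl⟩
  have hint1 : ∫ t in Set.Ioc 1 X, deriv f t * ∑ k ∈ Finset.Icc 0 ⌊t⌋₊, c k =
      ∫ t in (1 : ℝ)..X, (g' t : ℂ) * S t := by
    rw [intervalIntegral.integral_of_le hX]
    refine setIntegral_congr_fun measurableSet_Ioc fun t ht => ?_
    show deriv f t * ∑ k ∈ Finset.Icc 0 ⌊t⌋₊, c k = (g' t : ℂ) * S t
    rw [hfderiv t ⟨ht.1.le, ht.2⟩, hSd]
  rw [hint1] at habel
  have hi1 : IntervalIntegrable (fun t => (g' t : ℂ) * S t) volume 1 X := by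
    rw [intervalIntegrable_iff_integrableOn_Icc_of_le hX, hSd]
    exact integrableOn_mul_sum_Icc c zero_le_one hg'i
  have hi2 : IntervalIntegrable (fun t => (g' t : ℂ) * (H t : ℂ)) volume 1 X := by
    apply ContinuousOn.intervalIntegrable
    rw [Set.uIcc_of_le hX]
    exact (Complex.continuous_ofReal.comp_continuousOn hg').mul
      (Complex.continuous_ofReal.comp_continuousOn hHc)
  have hi3 : IntervalIntegrable (fun t => g' t * H t) volume 1 X := by
    apply ContinuousOn.intervalIntegrable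
    rw [Set.uIcc_of_le hX]
    exact hg'.mul hHc
  have hi4 : IntervalIntegrable (fun t => g t * H' t) volume 1 X := by
    apply ContinuousOn.intervalIntegrable
    rw [Set.uIcc_of_le hX]
    exact hgc.mul hH'
  have hi5 : IntervalIntegrable (fun t => g t * w t) volume 1 X := by
    apply ContinuousOn.intervalIntegrable
    rw [Set.uIcc_of_le hX]
    exact hgc.mul hw
  -- splitting
  have hsplit : ∫ t in (1 : ℝ)..X, (g' t : ℂ) * S t =
      (∫ t in (1 : ℝ)..X, (g' t : ℂ) * (S t - (H t : ℂ))) +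
        ((∫ t in (1 : ℝ)..X, g' t * H t : ℝ) : ℂ) := by
    rw [← intervalIntegral.integral_ofReal]
    have e : (fun t : ℝ => (g' t : ℂ) * (S t - (H t : ℂ))) =
        fun t => (g' t : ℂ) * S t - (g' t : ℂ) * (H t : ℂ) := by
      funext t
      ring
    rw [e, intervalIntegral.integral_sub hi1 hi2]
    have e2 : (fun t : ℝ => ((g' t * H t : ℝ) : ℂ)) = fun t => (g' t : ℂ) * (H t : ℂ) := by
      funext t
      push_cast
      rfl
    rw [e2]
    ring
  have hparts : ∫ t in (1 : ℝ)..X, (g' t * H t + g t * H' t) = g X * H X - g 1 * H 1 := by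
    refine intervalIntegral.integral_eq_sub_of_hasDerivAt (f := fun t => g t * H t) ?_
      (hi3.add hi4)
    intro t ht
    rw [Set.uIcc_of_le hX] at ht
    exact (hg t ht).mul (hH t ht)
  rw [intervalIntegral.integral_add hi3 hi4] at hparts
  have hdiff : ∫ t in (1 : ℝ)..X, g t * (H' t - w t) =
      (∫ t in (1 : ℝ)..X, g t * H' t) - ∫ t in (1 : ℝ)..X, g t * w t := by
    rw [← intervalIntegral.integral_sub hi4 hi5]
    refine intervalIntegral.integral_congr fun t _ => ?_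
    show g t * (H' t - w t) = g t * H' t - g t * w t
    ring
  -- the identity
  have hsum : ∑ k ∈ Finset.Icc 0 ⌊X⌋₊, (g k : ℂ) * c k = ∑ k ∈ Finset.Icc 0 ⌊X⌋₊, f k * c k := by
    rw [hf]
  have hSX : ∑ k ∈ Finset.Icc 0 ⌊X⌋₊, c k = S X := by rw [hSd]
  have hid : ∑ k ∈ Finset.Icc 0 ⌊X⌋₊, (g k : ℂ) * c k -
      ((∫ t in (1 : ℝ)..X, g t * w t : ℝ) : ℂ) =
      (g X : ℂ) * (S X - (H X : ℂ)) - (∫ t in (1 : ℝ)..X, (g' t : ℂ) * (S t - (H t : ℂ))) +
        ((g 1 * H 1 : ℝ) : ℂ) + ((∫ t in (1 : ℝ)..X, g t * (H' t - w t) : ℝ) : ℂ) := by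
    rw [hsum, habel, hSX, hsplit, hdiff]
    have h3 : ∫ t in (1 : ℝ)..X, g' t * H t =
        g X * H X - g 1 * H 1 - ∫ t in (1 : ℝ)..X, g t * H' t := by linarith
    rw [h3, hf]
    push_cast
    ring
  rw [hid]
  have b1 : ‖(g X : ℂ) * (S X - (H X : ℂ))‖ ≤ G * B := by
    rw [norm_mul, Complex.norm_real, Real.norm_eq_abs]
    refine mul_le_mul (hGb X hXX) ?_ (norm_nonneg _) hG0
    rw [hSd]
    exact hS X hXX
  have b2 : ‖∫ t in (1 : ℝ)..X, (g' t : ℂ) * (S t - (H t : ℂ))‖ ≤ G' * B * Real.log X := by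
    rw [← int_inv (G' * B) X hX]
    refine intervalIntegral.norm_integral_le_of_norm_le hX ?_ (int_inv_int (G' * B) X hX)
    refine Filter.Eventually.of_forall fun t ht => ?_
    have ht' : t ∈ Set.Icc 1 X := ⟨ht.1.le, ht.2⟩
    rw [norm_mul, Complex.norm_real, Real.norm_eq_abs]
    have hB1 : ‖S t - (H t : ℂ)‖ ≤ B := by
      rw [hSd]
      exact hS t ht'
    have ht0 : 0 < t := by linarith [ht.1]
    calc |g' t| * ‖S t - (H t : ℂ)‖ ≤ (G' * t⁻¹) * B :=
          mul_le_mul (hG'b t ht') hB1 (norm_nonneg _) (by positivity)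
      _ = G' * B * t⁻¹ := by ring
  have b3 : ‖((g 1 * H 1 : ℝ) : ℂ)‖ ≤ G * H1 := by
    rw [Complex.norm_real, Real.norm_eq_abs, abs_mul]
    exact mul_le_mul (hGb 1 h1X) hH1 (abs_nonneg _) hG0
  have b4 : ‖((∫ t in (1 : ℝ)..X, g t * (H' t - w t) : ℝ) : ℂ)‖ ≤ G * D * Real.log X := by
    rw [Complex.norm_real, ← int_inv (G * D) X hX]
    refine intervalIntegral.norm_integral_le_of_norm_le hX ?_ (int_inv_int (G * D) X hX)
    refine Filter.Eventually.of_forall fun t ht => ?_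
    have ht' : t ∈ Set.Icc 1 X := ⟨ht.1.le, ht.2⟩
    rw [Real.norm_eq_abs, abs_mul]
    calc |g t| * |H' t - w t| ≤ G * (D * t⁻¹) :=
          mul_le_mul (hGb t ht') (hD t ht') (abs_nonneg _) hG0
      _ = G * D * t⁻¹ := by ring
  calc _ ≤ ‖(g X : ℂ) * (S X - (H X : ℂ))‖ +
        ‖∫ t in (1 : ℝ)..X, (g' t : ℂ) * (S t - (H t : ℂ))‖ + ‖((g 1 * H 1 : ℝ) : ℂ)‖ +
        ‖((∫ t in (1 : ℝ)..X, g t * (H' t - w t) : ℝ) : ℂ)‖ := by
        refine (norm_add_le _ _).trans (add_le_add_left ?_ _)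
        refine (norm_add_le _ _).trans (add_le_add_left ?_ _)
        exact norm_sub_le _ _
    _ ≤ _ := by linarith

/-- partial sums of the shifted sequence -/
theorem shift (r h : ℕ) (α : ℝ) (c : ℕ → ℂ) (hc0 : c 0 = 0)
    (hc : ∀ k, k ≠ 0 → c k = (dr r (k + h) : ℂ) * ee (((k + h : ℕ) : ℝ) * α)) (N : ℕ) :
    ∑ k ∈ Finset.Icc 0 N, c k = SS (dr r) (N + h) α - SS (dr r) h α := by
  induction N with
  | zero =>
    rw [Finset.Icc_self, Finset.sum_singleton, hc0, zero_add, sub_self]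
  | succ N ih =>
    rw [Finset.sum_Icc_succ_top (by omega), ih, hc (N + 1) (by omega)]
    have e : SS (dr r) (N + 1 + h) α = SS (dr r) (N + h) α +
        (dr r (N + 1 + h) : ℂ) * ee (((N + 1 + h : ℕ) : ℝ) * α) := by
      unfold SS
      rw [show N + 1 + h = (N + h) + 1 by ring, Finset.sum_Icc_succ_top (by omega)]
    rw [e]
    ring

end IY2

open IY2

/-- item Y2 -/
theorem prY2 : tsY2 := by
  intro r E θ hr hAP hCB hθ0 hθ1
  obtain ⟨hdeg, -, c₀, C₀, hc₀, hc₀4, hC₀, hap⟩ := hAP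
  obtain ⟨C1, hC1, hco⟩ := hCB 1 one_pos
  obtain ⟨c, hcd⟩ : ∃ c : ℝ, c = min (c₀ / 2) ((1 - θ) / 2) := ⟨_, rfl⟩
  have hc0 : 0 < c := by rw [hcd]; exact lt_min (by linarith) (by linarith)
  have hcc : 2 * c ≤ c₀ := by
    have := min_le_left (c₀ / 2) ((1 - θ) / 2)
    rw [← hcd] at this
    linarith
  have hcθ : 2 * c ≤ 1 - θ := by
    have := min_le_right (c₀ / 2) ((1 - θ) / 2)
    rw [← hcd] at this
    linarith
  obtain ⟨R, hR⟩ : ∃ R : ℝ, R = (r : ℝ) + 1 := ⟨_, rfl⟩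
  have hR1 : 1 ≤ R := by rw [hR]; linarith [Nat.cast_nonneg (α := ℝ) r]
  obtain ⟨C2, hC2⟩ : ∃ C2 : ℝ, C2 = (R + 1) * C1 := ⟨_, rfl⟩
  have hC2p : 0 < C2 := by rw [hC2]; positivity
  obtain ⟨C, hC⟩ : ∃ C : ℝ, C = 8 * R ^ 2 * C₀ + 3 * R ^ 2 * C1 + R ^ 3 * C2 + C₀ := ⟨_, rfl⟩
  have hCp : 0 < C := by rw [hC]; positivity
  have hCC₀ : C₀ ≤ C := by
    rw [hC]
    have : 0 ≤ 8 * R ^ 2 * C₀ + 3 * R ^ 2 * C1 + R ^ 3 * C2 := by positivity
    linarith
  obtain ⟨X0, hX0⟩ := Filter.eventually_atTop.1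
    ((logpow3 (2 * r + 1) c hc0).and (eventually_ge_atTop (1 : ℝ)))
  refine ⟨c, C, X0, hc0, hCp, ?_⟩
  intro p M X q h a hX hM hpd hpc hq hcop hh hhX
  obtain ⟨hlog, hX1⟩ := hX0 X hX
  have hXp : 0 < X := by linarith
  have hqr : (1 : ℝ) ≤ q := by exact_mod_cast hq
  have hhr : (1 : ℝ) ≤ h := by exact_mod_cast hh
  have hXθ1 : 1 ≤ X ^ θ := Real.one_le_rpow hX1 hθ0.le
  have hhX' : (h : ℝ) ≤ X := by
    refine hhX.trans ?_
    have := Real.rpow_le_rpow_of_exponent_le hX1 hθ1.le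
    rwa [Real.rpow_one] at this
  obtain ⟨L, hL⟩ : ∃ L : ℝ, L = 1 + Real.log (3 * X) := ⟨_, rfl⟩
  rw [← hL] at hlog
  have hL1 : 1 ≤ L := by
    have := Real.log_nonneg (show (1 : ℝ) ≤ 3 * X by linarith)
    linarith
  have hlogL : ∀ t : ℝ, 1 ≤ t → t ≤ 2 * X → Real.log t ≤ L := by
    intro t ht1 ht2
    have := Real.log_le_log (by linarith) (show t ≤ 3 * X by linarith)
    linarith
  have hlXL : Real.log X ≤ L := hlogL X hX1 (by linarith)
  have hlX0 : 0 ≤ Real.log X := Real.log_nonneg hX1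
  -- the coefficients
  have hec : ∀ j, |(E q).coeff j| ≤ C1 := by
    intro j
    have := hco q j hq
    rwa [sub_self, Real.rpow_zero, mul_one] at this
  have hed : (E q).natDegree ≤ r := (hdeg q).trans (by omega)
  have hpd' : p.natDegree ≤ r := hpd.trans (by omega)
  have hedc : ∀ j, |(ed (E q)).coeff j| ≤ C2 := by
    intro j
    unfold ed
    rw [Polynomial.coeff_add, hC2]
    have h1 := hec j
    have h2 := dc r (E q) hed C1 hC1.le hec j
    rw [← hR] at h2
    have h3 := abs_add_le ((E q).coeff j) ((Polynomial.derivative (E q)).coeff j)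
    linarith
  have hedd : (ed (E q)).natDegree ≤ r := by
    unfold ed
    exact (Polynomial.natDegree_add_le _ _).trans (max_le hed (dd r _ hed))
  -- the functions
  obtain ⟨α, hα⟩ : ∃ α : ℝ, α = (a : ℝ) / q := ⟨_, rfl⟩
  obtain ⟨cc, hcc0, hcck⟩ : ∃ cc : ℕ → ℂ, cc 0 = 0 ∧ ∀ k, k ≠ 0 →
      cc k = (dr r (k + h) : ℂ) * ee (((k + h : ℕ) : ℝ) * α) :=
    ⟨fun k => if k = 0 then 0 else (dr r (k + h) : ℂ) * ee (((k + h : ℕ) : ℝ) * α),
      if_pos rfl, fun k hk => if_neg hk⟩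
  have hsum : ∑ n ∈ Finset.Icc 1 ⌊X⌋₊, ((p.eval (Real.log n) * dr r (n + h) : ℝ) : ℂ) *
      ee (((n : ℝ) + h) * (a / q)) =
      ∑ k ∈ Finset.Icc 0 ⌊X⌋₊, ((p.eval (Real.log k) : ℝ) : ℂ) * cc k := by
    rw [← Finset.sum_subset (s₁ := Finset.Icc 1 ⌊X⌋₊) (s₂ := Finset.Icc 0 ⌊X⌋₊)]
    · refine Finset.sum_congr rfl fun n hn => ?_
      have hn0 : n ≠ 0 := by
        rw [Finset.mem_Icc] at hn
        omega
      rw [hcck n hn0, ← hα]
      push_cast
      ring
    · intro n hn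
      rw [Finset.mem_Icc] at hn ⊢
      omega
    · intro n hn hn'
      have : n = 0 := by
        rw [Finset.mem_Icc] at hn hn'
        omega
      rw [this, hcc0, mul_zero]
  rw [hsum]
  obtain ⟨B, hB⟩ : ∃ B : ℝ, B = 2 * (C₀ * (q : ℝ) ^ C₀ * (2 * X) ^ (1 - c₀)) := ⟨_, rfl⟩
  have hB0 : 0 ≤ B := by rw [hB]; positivity
  have hmain := core (fun t => p.eval (Real.log t))
    (fun t => (Polynomial.derivative p).eval (Real.log t) * t⁻¹)
    (fun t => (t + h) * (E q).eval (Real.log (t + h)) - h * (E q).eval (Real.log h))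
    (fun t => (ed (E q)).eval (Real.log (t + h)))
    (fun t => (ed (E q)).eval (Real.log t)) cc X B (R * M * L ^ r) (R * (R * M) * L ^ r)
    ((1 + 2 * h) * (R * C1 * L ^ r)) (h * (R * (R * C2) * L ^ r)) hX1 hcc0
    (fun t ht => (p.hasDerivAt (Real.log t)).comp t (Real.hasDerivAt_log (by
      have := ht.1
      intro h0
      rw [h0] at this
      linarith)))
    (by
      have h1 : ContinuousOn Real.log (Set.Icc 1 X) := Real.continuousOn_log.mono fun t ht => by
        have := ht.1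
        simp only [Set.mem_compl_iff, Set.mem_singleton_iff]
        intro h0
        rw [h0] at this
        linarith
      refine ((Polynomial.continuous _).comp_continuousOn h1).mul
        (continuousOn_inv₀.mono fun t ht => by
          have := ht.1
          simp only [Set.mem_compl_iff, Set.mem_singleton_iff]
          intro h0
          rw [h0] at this
          linarith))
    (fun t ht => by
      have ht0 : t + h ≠ 0 := by
        have := ht.1
        intro h0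
        linarith
      have h1 : HasDerivAt (fun t : ℝ => t + (h : ℝ)) 1 t := (hasDerivAt_id t).add_const _
      have h2 : HasDerivAt (fun t : ℝ => Real.log (t + h)) (1 / (t + h)) t := h1.log ht0
      have h3 : HasDerivAt (fun t : ℝ => (E q).eval (Real.log (t + h)))
          ((Polynomial.derivative (E q)).eval (Real.log (t + h)) * (1 / (t + h))) t :=
        HasDerivAt.comp (h₂ := fun x => (E q).eval x) t ((E q).hasDerivAt (Real.log (t + h))) h2
      have h4 := (h1.mul h3).sub_const (h * (E q).eval (Real.log h))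
      refine h4.congr_deriv ?_
      unfold ed
      rw [Polynomial.eval_add]
      field_simp)
    (by
      refine (Polynomial.continuous _).comp_continuousOn ?_
      refine ContinuousOn.log (continuousOn_id.add continuousOn_const) fun t ht => ?_
      have h0 := ht.1
      show (t : ℝ) + (h : ℝ) ≠ 0
      intro h1
      linarith)
    (by
      refine (Polynomial.continuous _).comp_continuousOn ?_
      refine Real.continuousOn_log.mono fun t ht => ?_
      have := ht.1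
      simp only [Set.mem_compl_iff, Set.mem_singleton_iff]
      intro h0
      rw [h0] at this
      linarith)
    (fun t ht => by
      have ht1 := ht.1
      have ht2 := ht.2
      rw [shift r h α cc hcc0 hcck]
      have hfl : ⌊t + (h : ℝ)⌋₊ = ⌊t⌋₊ + h := Nat.floor_add_natCast (by linarith) h
      have e1 := hap q a (t + h) hq hcop (by linarith)
      have e2 := hap q a h hq hcop hhr
      rw [hfl, ← hα] at e1
      rw [Nat.floor_natCast, ← hα] at e2
      have k1 : (t + h) ^ (1 - c₀) ≤ (2 * X) ^ (1 - c₀) :=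
        Real.rpow_le_rpow (by linarith) (by linarith) (by linarith)
      have k2 : (h : ℝ) ^ (1 - c₀) ≤ (2 * X) ^ (1 - c₀) :=
        Real.rpow_le_rpow (by linarith) (by linarith) (by linarith)
      have hq0 : 0 ≤ C₀ * (q : ℝ) ^ C₀ := by positivity
      have m1 := mul_le_mul_of_nonneg_left k1 hq0
      have m2 := mul_le_mul_of_nonneg_left k2 hq0
      have hid : SS (dr r) (⌊t⌋₊ + h) α - SS (dr r) h α -
          (((t + h) * (E q).eval (Real.log (t + h)) - h * (E q).eval (Real.log h) : ℝ) : ℂ) =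
          (SS (dr r) (⌊t⌋₊ + h) α - (((t + h) * (E q).eval (Real.log (t + h)) : ℝ) : ℂ)) -
          (SS (dr r) h α - ((h * (E q).eval (Real.log h) : ℝ) : ℂ)) := by
        push_cast
        ring
      rw [hid]
      refine (norm_sub_le _ _).trans ?_
      rw [hB]
      linarith)
    (by positivity)
    (fun t ht => by
      rw [hR]
      exact pe r p hpd' M L _ hM hpc (Real.log_nonneg ht.1) hL1 (hlogL t ht.1 (by linarith [ht.2])))
    (fun t ht => by
      have ht0 : 0 < t := by linarith [ht.1]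
      rw [abs_mul, abs_of_pos (inv_pos.2 ht0)]
      refine mul_le_mul_of_nonneg_right ?_ (inv_pos.2 ht0).le
      rw [hR]
      exact pe r _ (dd r p hpd') _ L _ (by positivity) (dc r p hpd' M hM hpc)
        (Real.log_nonneg ht.1) hL1 (hlogL t ht.1 (by linarith [ht.2])))
    (by positivity)
    (by
      have e1 : |(E q).eval (Real.log (1 + h))| ≤ R * C1 * L ^ r := by
        rw [hR]
        exact pe r _ hed C1 L _ hC1.le hec (Real.log_nonneg (by linarith)) hL1
          (hlogL _ (by linarith) (by linarith))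
      have e2 : |(E q).eval (Real.log h)| ≤ R * C1 * L ^ r := by
        rw [hR]
        exact pe r _ hed C1 L _ hC1.le hec (Real.log_nonneg hhr) hL1
          (hlogL _ hhr (by linarith))
      refine (abs_sub _ _).trans ?_
      rw [abs_mul, abs_mul, abs_of_pos (by linarith : (0 : ℝ) < 1 + h),
        abs_of_pos (by linarith : (0 : ℝ) < h)]
      have m1 := mul_le_mul_of_nonneg_left e1 (by linarith : (0 : ℝ) ≤ 1 + h)
      have m2 := mul_le_mul_of_nonneg_left e2 (by linarith : (0 : ℝ) ≤ h)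
      linarith)
    (fun t ht => by
      have ht0 : 0 < t := by linarith [ht.1]
      have h1 := pd r (ed (E q)) hedd C2 L (Real.log t) (Real.log (t + h)) hC2p.le hedc
        (Real.log_nonneg ht.1) hL1 (Real.log_le_log ht0 (by linarith))
        (hlogL _ (by linarith [ht.1]) (by linarith [ht.2]))
      rw [← hR] at h1
      refine h1.trans ?_
      have h2 : Real.log (t + h) - Real.log t ≤ h * t⁻¹ := by
        rw [← Real.log_div (by linarith) ht0.ne']
        have h3 := Real.log_le_sub_one_of_pos (show 0 < (t + h) / t by positivity)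
        have h4 : (t + h) / t - 1 = h * t⁻¹ := by
          field_simp
          ring
        linarith
      calc R * (R * C2) * L ^ r * (Real.log (t + h) - Real.log t) ≤
            R * (R * C2) * L ^ r * (h * t⁻¹) :=
            mul_le_mul_of_nonneg_left h2 (by positivity)
        _ = h * (R * (R * C2) * L ^ r) * t⁻¹ := by ring)
  refine hmain.trans ?_
  -- the final estimate
  have hqC : (q : ℝ) ^ C₀ ≤ (q : ℝ) ^ C := Real.rpow_le_rpow_of_exponent_le hqr hCC₀
  have hqC1 : 1 ≤ (q : ℝ) ^ C := Real.one_le_rpow hqr hCp.le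
  have hLr : L ^ (r + 1) ≤ L ^ (2 * r + 1) := pow_le_pow_right₀ hL1 (by omega)
  have hLr2 : L ^ (2 * r) ≤ L ^ (2 * r + 1) := pow_le_pow_right₀ hL1 (by omega)
  have hLr3 : L ^ r ≤ L ^ (r + 1) := pow_le_pow_right₀ hL1 (by omega)
  have hXc1 : X ^ (1 - c₀) * X ^ c ≤ X ^ (1 - c) := by
    rw [← Real.rpow_add hXp]
    exact Real.rpow_le_rpow_of_exponent_le hX1 (by linarith)
  have hXc2 : X ^ θ * X ^ c ≤ X ^ (1 - c) := by
    rw [← Real.rpow_add hXp]
    exact Real.rpow_le_rpow_of_exponent_le hX1 (by linarith)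
  have h2X : (2 * X) ^ (1 - c₀) ≤ 2 * X ^ (1 - c₀) := by
    rw [Real.mul_rpow (by norm_num) hXp.le]
    refine mul_le_mul_of_nonneg_right ?_ (by positivity)
    have := Real.rpow_le_rpow_of_exponent_le (show (1 : ℝ) ≤ 2 by norm_num)
      (show 1 - c₀ ≤ 1 by linarith)
    rwa [Real.rpow_one] at this
  have hBle : B ≤ 4 * C₀ * (q : ℝ) ^ C * X ^ (1 - c₀) := by
    rw [hB]
    calc 2 * (C₀ * (q : ℝ) ^ C₀ * (2 * X) ^ (1 - c₀)) ≤
          2 * (C₀ * (q : ℝ) ^ C * (2 * X ^ (1 - c₀))) := by gcongr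
      _ = _ := by ring
  have hP1 : L ^ (r + 1) * B ≤ 4 * C₀ * (q : ℝ) ^ C * X ^ (1 - c) := by
    calc L ^ (r + 1) * B ≤ X ^ c * (4 * C₀ * (q : ℝ) ^ C * X ^ (1 - c₀)) :=
          mul_le_mul (hLr.trans hlog) hBle hB0 (by positivity)
      _ = 4 * C₀ * (q : ℝ) ^ C * (X ^ (1 - c₀) * X ^ c) := by ring
      _ ≤ 4 * C₀ * (q : ℝ) ^ C * X ^ (1 - c) := by gcongr
  have hP2 : (h : ℝ) * L ^ (2 * r + 1) ≤ X ^ (1 - c) := by
    calc (h : ℝ) * L ^ (2 * r + 1) ≤ X ^ θ * X ^ c :=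
          mul_le_mul hhX hlog (by positivity) (by positivity)
      _ ≤ X ^ (1 - c) := hXc2
  have t1 : R * M * L ^ r * B ≤ R ^ 2 * M * (L ^ (r + 1) * B) := by
    calc R * M * L ^ r * B ≤ (R ^ 2) * M * L ^ (r + 1) * B := by
          have : R ≤ R ^ 2 := by nlinarith
          gcongr
      _ = _ := by ring
  have t2 : R * (R * M) * L ^ r * B * Real.log X ≤ R ^ 2 * M * (L ^ (r + 1) * B) := by
    calc R * (R * M) * L ^ r * B * Real.log X ≤ R * (R * M) * L ^ r * B * L := by gcongr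
      _ = _ := by ring
  have t3 : R * M * L ^ r * ((1 + 2 * h) * (R * C1 * L ^ r)) ≤
      3 * R ^ 2 * C1 * M * (h * L ^ (2 * r + 1)) := by
    calc R * M * L ^ r * ((1 + 2 * h) * (R * C1 * L ^ r)) =
          R ^ 2 * C1 * M * ((1 + 2 * h) * L ^ (2 * r)) := by
          rw [two_mul r, pow_add]
          ring
      _ ≤ R ^ 2 * C1 * M * ((3 * h) * L ^ (2 * r + 1)) := by
          have : (1 : ℝ) + 2 * h ≤ 3 * h := by linarith
          gcongr
      _ = _ := by ring
  have t4 : R * M * L ^ r * (h * (R * (R * C2) * L ^ r)) * Real.log X ≤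
      R ^ 3 * C2 * M * (h * L ^ (2 * r + 1)) := by
    calc R * M * L ^ r * (h * (R * (R * C2) * L ^ r)) * Real.log X ≤
          R * M * L ^ r * (h * (R * (R * C2) * L ^ r)) * L := by gcongr
      _ = _ := by
          rw [pow_succ L (2 * r), two_mul r, pow_add]
          ring
  have hM1 : 0 ≤ R ^ 2 * M := by positivity
  have u1 := mul_le_mul_of_nonneg_left hP1 hM1
  have u2 := mul_le_mul_of_nonneg_left hP2 (show 0 ≤ 3 * R ^ 2 * C1 * M by positivity)
  have u3 := mul_le_mul_of_nonneg_left hP2 (show 0 ≤ R ^ 3 * C2 * M by positivity)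
  have hXc0 : 0 ≤ X ^ (1 - c) := by positivity
  have v2 : X ^ (1 - c) ≤ (q : ℝ) ^ C * X ^ (1 - c) := le_mul_of_one_le_left hXc0 hqC1
  have w2 := mul_le_mul_of_nonneg_left v2 (show 0 ≤ 3 * R ^ 2 * C1 * M by positivity)
  have w3 := mul_le_mul_of_nonneg_left v2 (show 0 ≤ R ^ 3 * C2 * M by positivity)
  calc _ ≤ 2 * (R ^ 2 * M * (4 * C₀ * (q : ℝ) ^ C * X ^ (1 - c))) +
        3 * R ^ 2 * C1 * M * ((q : ℝ) ^ C * X ^ (1 - c)) +
        R ^ 3 * C2 * M * ((q : ℝ) ^ C * X ^ (1 - c)) := by linarith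
    _ = (8 * R ^ 2 * C₀ + 3 * R ^ 2 * C1 + R ^ 3 * C2) * (M * ((q : ℝ) ^ C * X ^ (1 - c))) := by
        ring
    _ ≤ C * (M * ((q : ℝ) ^ C * X ^ (1 - c))) := by
        refine mul_le_mul_of_nonneg_right ?_ (by positivity)
        rw [hC]
        linarith
    _ = C * M * (q : ℝ) ^ C * X ^ (1 - c) := by ring

end Pool.Agent.Work.MP_122e00_nt.TS
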