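import Pool.Agent.Work.MP_122e00_nt.TS.Stmts3

set_option autoImplicit false

namespace Pool.Agent.Work.MP_122e00_nt.TS

open Finset Filter Topology ArithmeticFunction
open scoped ArithmeticFunction.zeta ArithmeticFunction.Moebius

namespace IF6

theorem Fh_nonneg (h g : ℕ) : 0 ≤ Fh h g := by
  rw [Fh_apply]
  split_ifs
  · positivity
  · exact le_refl _

theorem abs_Gh (n q : ℕ) : |Gh n q| ≤ ∑ x ∈ q.divisorsAntidiagonal, Fh n x.2 := by
  unfold Gh
  rw [ArithmeticFunction.mul_apply]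
  refine (Finset.abs_sum_le_sum_abs _ _).trans (Finset.sum_le_sum fun x _ => ?_)
  rw [abs_mul, abs_of_nonneg (Fh_nonneg n x.2)]
  have h1 : |((μ : ArithmeticFunction ℝ) x.1)| ≤ 1 := by
    rw [ArithmeticFunction.intCoe_apply]
    have := ArithmeticFunction.abs_moebius_le_one (n := x.1)
    exact_mod_cast this
  calc _ ≤ 1 * Fh n x.2 := mul_le_mul_of_nonneg_right h1 (Fh_nonneg _ _)
    _ = _ := one_mul _

theorem harm (Q : ℕ) : ∑ a ∈ Finset.Icc 1 Q, 1 / (a : ℝ) ≤ 1 + Real.log Q := by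
  have h := harmonic_le_one_add_log Q
  rw [harmonic_eq_sum_Icc] at h
  push_cast at h
  simpa only [one_div] using h

theorem div_card (n Q : ℕ) (hn : 1 ≤ n) :
    ∑ g ∈ Finset.Icc 1 Q, Fh n g / (g : ℝ) ≤ dr 2 n := by
  have h1 : dr 2 n = (n.divisors.card : ℝ) := by
    unfold dr
    rw [pow_two]
    have h2 : (ζ : ArithmeticFunction ℕ) * ζ = ArithmeticFunction.sigma 0 := by
      rw [← ArithmeticFunction.zeta_mul_pow_eq_sigma, ArithmeticFunction.pow_zero_eq_zeta]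
    rw [h2, ArithmeticFunction.sigma_zero_apply]
  rw [h1]
  calc ∑ g ∈ Finset.Icc 1 Q, Fh n g / (g : ℝ)
      = ∑ g ∈ Finset.Icc 1 Q, if g ∣ n then (1 : ℝ) else 0 := by
        refine Finset.sum_congr rfl fun g hg => ?_
        have hg1 : 1 ≤ g := (Finset.mem_Icc.mp hg).1
        have hg0 : (g : ℝ) ≠ 0 := by positivity
        rw [Fh_apply]
        split_ifs
        · exact div_self hg0
        · simp
    _ = (((Finset.Icc 1 Q).filter (· ∣ n)).card : ℝ) := by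
        rw [Finset.card_filter]; push_cast; rfl
    _ ≤ (n.divisors.card : ℝ) := by
        refine Nat.cast_le.mpr (Finset.card_le_card ?_)
        intro g hg
        rw [Finset.mem_filter] at hg
        exact Nat.mem_divisors.mpr ⟨hg.2, by omega⟩

/-- The double sum. -/
theorem dbl (n Q : ℕ) (hn : 1 ≤ n) :
    ∑ q ∈ Finset.Icc 1 Q, (∑ x ∈ q.divisorsAntidiagonal, Fh n x.2) * (1 / (q : ℝ)) ≤
      (1 + Real.log Q) * dr 2 n := by
  have hnn : ∀ x : ℕ × ℕ, 0 ≤ (1 / (x.1 : ℝ)) * (Fh n x.2 / (x.2 : ℝ)) := fun x =>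
    mul_nonneg (by positivity) (div_nonneg (Fh_nonneg _ _) (by positivity))
  have h1 : ∀ q ∈ Finset.Icc 1 Q,
      (∑ x ∈ q.divisorsAntidiagonal, Fh n x.2) * (1 / (q : ℝ)) ≤
      ∑ x ∈ (Finset.Icc 1 Q) ×ˢ (Finset.Icc 1 Q),
        if q = x.1 * x.2 then (1 / (x.1 : ℝ)) * (Fh n x.2 / (x.2 : ℝ)) else 0 := by
    intro q hq
    rw [Finset.mem_Icc] at hq
    rw [Finset.sum_mul, ← Finset.sum_filter]
    have hsub : q.divisorsAntidiagonal ⊆
        ((Finset.Icc 1 Q) ×ˢ (Finset.Icc 1 Q)).filter (fun x => q = x.1 * x.2) := by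
      intro x hx
      rw [Nat.mem_divisorsAntidiagonal] at hx
      rw [Finset.mem_filter, Finset.mem_product, Finset.mem_Icc, Finset.mem_Icc]
      have hx1 : 0 < x.1 := Nat.pos_of_ne_zero (by rintro h; rw [h] at hx; simp at hx; omega)
      have hx2 : 0 < x.2 := Nat.pos_of_ne_zero (by rintro h; rw [h] at hx; simp at hx; omega)
      have h3 : x.1 ≤ q := by rw [← hx.1]; exact Nat.le_mul_of_pos_right _ hx2
      have h4 : x.2 ≤ q := by rw [← hx.1]; exact Nat.le_mul_of_pos_left _ hx1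
      exact ⟨⟨⟨hx1, by omega⟩, ⟨hx2, by omega⟩⟩, hx.1.symm⟩
    calc ∑ x ∈ q.divisorsAntidiagonal, Fh n x.2 * (1 / (q : ℝ))
        = ∑ x ∈ q.divisorsAntidiagonal, (1 / (x.1 : ℝ)) * (Fh n x.2 / (x.2 : ℝ)) := by
          refine Finset.sum_congr rfl fun x hx => ?_
          rw [Nat.mem_divisorsAntidiagonal] at hx
          rw [← hx.1]
          push_cast
          rw [div_mul_div_comm, one_mul, mul_one_div]
      _ ≤ _ := Finset.sum_le_sum_of_subset_of_nonneg hsub (fun x _ _ => hnn x)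
  calc ∑ q ∈ Finset.Icc 1 Q, (∑ x ∈ q.divisorsAntidiagonal, Fh n x.2) * (1 / (q : ℝ))
      ≤ ∑ q ∈ Finset.Icc 1 Q, ∑ x ∈ (Finset.Icc 1 Q) ×ˢ (Finset.Icc 1 Q),
        (if q = x.1 * x.2 then (1 / (x.1 : ℝ)) * (Fh n x.2 / (x.2 : ℝ)) else 0) :=
        Finset.sum_le_sum h1
    _ = ∑ x ∈ (Finset.Icc 1 Q) ×ˢ (Finset.Icc 1 Q), ∑ q ∈ Finset.Icc 1 Q,
        (if q = x.1 * x.2 then (1 / (x.1 : ℝ)) * (Fh n x.2 / (x.2 : ℝ)) else 0) :=
        Finset.sum_comm
    _ ≤ ∑ x ∈ (Finset.Icc 1 Q) ×ˢ (Finset.Icc 1 Q), (1 / (x.1 : ℝ)) * (Fh n x.2 / (x.2 : ℝ)) := by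
        refine Finset.sum_le_sum fun x _ => ?_
        rw [Finset.sum_ite_eq']
        split_ifs
        · exact le_refl _
        · exact hnn x
    _ = (∑ a ∈ Finset.Icc 1 Q, 1 / (a : ℝ)) * ∑ g ∈ Finset.Icc 1 Q, Fh n g / (g : ℝ) := by
        rw [Finset.sum_mul_sum, Finset.sum_product]
    _ ≤ (1 + Real.log Q) * dr 2 n :=
        mul_le_mul (harm Q) (div_card n Q hn)
          (Finset.sum_nonneg fun g _ => div_nonneg (Fh_nonneg _ _) (by positivity))
          (le_trans (Finset.sum_nonneg fun a _ => by positivity) (harm Q))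

/-- The density polynomial at `u`, `0 ≤ u`, `1 + u ≤ L`. -/
theorem ed_bd (r : ℕ) (P : Polynomial ℝ) (hP : P.natDegree ≤ r - 1) (M : ℝ) (hM : 0 ≤ M)
    (hc : ∀ j, |P.coeff j| ≤ M) (u L : ℝ) (hu : 0 ≤ u) (hL : 1 ≤ L) (huL : u ≤ L) :
    |(ed P).eval u| ≤ ((r : ℝ) + 1) * ((r : ℝ) + 2) * M * L ^ r := by
  have hdeg : (ed P).natDegree < r + 1 := by
    unfold ed
    have h1 := Polynomial.natDegree_add_le P (Polynomial.derivative P)
    have h2 := Polynomial.natDegree_derivative_le P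
    omega
  rw [Polynomial.eval_eq_sum_range' hdeg]
  refine (Finset.abs_sum_le_sum_abs _ _).trans ?_
  have h3 : ∀ j ∈ Finset.range (r + 1), |(ed P).coeff j * u ^ j| ≤ ((r : ℝ) + 2) * M * L ^ r := by
    intro j hj
    have hj1 : j ≤ r := by rw [Finset.mem_range] at hj; omega
    rw [abs_mul, abs_of_nonneg (pow_nonneg hu j)]
    have h4 : |(ed P).coeff j| ≤ ((r : ℝ) + 2) * M := by
      unfold ed
      rw [Polynomial.coeff_add, Polynomial.coeff_derivative]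
      have hj2 : (j : ℝ) ≤ r := by exact_mod_cast hj1
      calc |P.coeff j + P.coeff (j + 1) * ((j : ℝ) + 1)|
          ≤ |P.coeff j| + |P.coeff (j + 1) * ((j : ℝ) + 1)| := abs_add_le _ _
        _ = |P.coeff j| + |P.coeff (j + 1)| * ((j : ℝ) + 1) := by
            rw [abs_mul, abs_of_nonneg (by positivity : (0 : ℝ) ≤ (j : ℝ) + 1)]
        _ ≤ M + M * ((r : ℝ) + 1) := by
            have h5 := hc j
            have h6 := hc (j + 1)
            have h7 : |P.coeff (j + 1)| * ((j : ℝ) + 1) ≤ M * ((r : ℝ) + 1) :=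
              mul_le_mul h6 (by linarith) (by positivity) hM
            linarith
        _ = ((r : ℝ) + 2) * M := by ring
    have h8 : u ^ j ≤ L ^ r :=
      (pow_le_pow_left₀ hu huL j).trans (pow_le_pow_right₀ hL hj1)
    exact mul_le_mul h4 h8 (pow_nonneg hu j) (by positivity)
  refine (Finset.sum_le_sum h3).trans (le_of_eq ?_)
  rw [Finset.sum_const, Finset.card_range, nsmul_eq_mul]
  push_cast
  ring

end IF6

theorem prF6 (hL0 : tsL0) : tsF6 := by
  intro r E hE hCB ε hε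
  set e : ℝ := ε / 8 with he
  have he0 : 0 < e := by positivity
  obtain ⟨C0, hC0, hCB'⟩ := hCB e he0
  obtain ⟨C1, hC1, hdr⟩ := hL0 2 e he0
  set s : ℝ := e / ((r : ℝ) + 1) with hs
  have hs0 : 0 < s := by positivity
  set K1 : ℝ := 1 + 2 ^ s / s with hK1
  have hK1p : 0 < K1 := by positivity
  refine ⟨((r : ℝ) + 1) * ((r : ℝ) + 2) * C0 * K1 ^ (r + 1) * (C1 * 2 ^ e), by positivity, ?_⟩
  intro X Q n hX hQX hn hnX
  have hX0 : (0 : ℝ) < X := by linarith
  have hn1 : (1 : ℝ) ≤ n := by exact_mod_cast hn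
  set L : ℝ := 1 + Real.log (2 * X) with hL
  have hlog0 : 0 ≤ Real.log (2 * X) := Real.log_nonneg (by linarith)
  have hL1 : 1 ≤ L := by linarith
  have hu0 : 0 ≤ Real.log n := Real.log_nonneg hn1
  have huL : Real.log n ≤ L := by
    have := Real.log_le_log (by linarith) hnX
    linarith
  -- L ^ (r + 1) ≤ K1 ^ (r + 1) X ^ e
  have hLX : L ^ (r + 1) ≤ K1 ^ (r + 1) * X ^ e := by
    have h1 : L ≤ K1 * X ^ s := by
      have h2 := Real.log_le_rpow_div (show (0 : ℝ) ≤ 2 * X by linarith) hs0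
      rw [Real.mul_rpow (by norm_num) hX0.le] at h2
      have h3 : (1 : ℝ) ≤ X ^ s := Real.one_le_rpow hX hs0.le
      have h4 : K1 * X ^ s = X ^ s + 2 ^ s * X ^ s / s := by rw [hK1]; ring
      rw [h4, hL]
      linarith
    have h5 : (K1 * X ^ s) ^ (r + 1) = K1 ^ (r + 1) * X ^ e := by
      rw [mul_pow]
      congr 1
      rw [← Real.rpow_natCast, ← Real.rpow_mul hX0.le]
      congr 1
      rw [hs]
      push_cast
      field_simp
    rw [← h5]
    exact pow_le_pow_left₀ (by linarith) h1 _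
  rcases Nat.eq_zero_or_pos Q with hQ | hQ
  · subst hQ
    have h0 : fs E 0 n = 0 := by
      unfold fs
      simp
    rw [h0, abs_zero]
    positivity
  have hQ1 : (1 : ℝ) ≤ Q := by exact_mod_cast hQ
  have hlogQ : 1 + Real.log Q ≤ L := by
    have := Real.log_le_log (by linarith) (show (Q : ℝ) ≤ 2 * X by linarith)
    linarith
  have hterm : ∀ q ∈ Finset.Icc 1 Q, |Gh n q * (ed (E q)).eval (Real.log n)| ≤
      (((r : ℝ) + 1) * ((r : ℝ) + 2) * C0 * L ^ r * X ^ e) *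
        ((∑ x ∈ q.divisorsAntidiagonal, Fh n x.2) * (1 / (q : ℝ))) := by
    intro q hq
    rw [Finset.mem_Icc] at hq
    have hq1 : (1 : ℝ) ≤ q := by exact_mod_cast hq.1
    have hqX : (q : ℝ) ≤ X := le_trans (by exact_mod_cast hq.2) hQX
    have hpow : (q : ℝ) ^ (e - 1) ≤ X ^ e * (1 / (q : ℝ)) := by
      rw [Real.rpow_sub_one (by linarith)]
      rw [div_eq_mul_one_div]
      exact mul_le_mul_of_nonneg_right (Real.rpow_le_rpow (by linarith) hqX he0.le) (by positivity)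
    have h1 := IF6.ed_bd r (E q) (hE q) (C0 * (q : ℝ) ^ (e - 1)) (by positivity)
      (fun j => hCB' q j hq.1) (Real.log n) L hu0 hL1 huL
    rw [abs_mul]
    have h2 := IF6.abs_Gh n q
    have h3 : 0 ≤ ∑ x ∈ q.divisorsAntidiagonal, Fh n x.2 :=
      Finset.sum_nonneg fun x _ => IF6.Fh_nonneg _ _
    calc |Gh n q| * |(ed (E q)).eval (Real.log n)|
        ≤ (∑ x ∈ q.divisorsAntidiagonal, Fh n x.2) *
          (((r : ℝ) + 1) * ((r : ℝ) + 2) * (C0 * (q : ℝ) ^ (e - 1)) * L ^ r) :=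
          mul_le_mul h2 h1 (abs_nonneg _) h3
      _ ≤ (∑ x ∈ q.divisorsAntidiagonal, Fh n x.2) *
          (((r : ℝ) + 1) * ((r : ℝ) + 2) * (C0 * (X ^ e * (1 / (q : ℝ)))) * L ^ r) := by
          refine mul_le_mul_of_nonneg_left ?_ h3
          refine mul_le_mul_of_nonneg_right ?_ (by positivity)
          refine mul_le_mul_of_nonneg_left ?_ (by positivity)
          exact mul_le_mul_of_nonneg_left hpow hC0.le
      _ = _ := by ring
  have hA : 0 ≤ ((r : ℝ) + 1) * ((r : ℝ) + 2) * C0 * L ^ r * X ^ e := by positivity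
  have hd2 : dr 2 n ≤ C1 * (2 ^ e * X ^ e) := by
    refine (hdr n hn).trans ?_
    refine mul_le_mul_of_nonneg_left ?_ hC1.le
    rw [← Real.mul_rpow (by norm_num) hX0.le]
    exact Real.rpow_le_rpow (by linarith) hnX he0.le
  have hd0 : 0 ≤ dr 2 n := by unfold dr; positivity
  have h3e : X ^ e * X ^ e * X ^ e ≤ X ^ ε := by
    rw [← Real.rpow_add hX0, ← Real.rpow_add hX0]
    refine Real.rpow_le_rpow_of_exponent_le hX ?_
    rw [he]; linarith
  calc |fs E Q n| ≤ ∑ q ∈ Finset.Icc 1 Q, |Gh n q * (ed (E q)).eval (Real.log n)| := by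
        unfold fs
        exact Finset.abs_sum_le_sum_abs _ _
    _ ≤ ∑ q ∈ Finset.Icc 1 Q, (((r : ℝ) + 1) * ((r : ℝ) + 2) * C0 * L ^ r * X ^ e) *
        ((∑ x ∈ q.divisorsAntidiagonal, Fh n x.2) * (1 / (q : ℝ))) := Finset.sum_le_sum hterm
    _ = (((r : ℝ) + 1) * ((r : ℝ) + 2) * C0 * L ^ r * X ^ e) *
        ∑ q ∈ Finset.Icc 1 Q, ((∑ x ∈ q.divisorsAntidiagonal, Fh n x.2) * (1 / (q : ℝ))) := by
        rw [Finset.mul_sum]
    _ ≤ (((r : ℝ) + 1) * ((r : ℝ) + 2) * C0 * L ^ r * X ^ e) * ((1 + Real.log Q) * dr 2 n) :=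
        mul_le_mul_of_nonneg_left (IF6.dbl n Q hn) hA
    _ ≤ (((r : ℝ) + 1) * ((r : ℝ) + 2) * C0 * L ^ r * X ^ e) * (L * (C1 * (2 ^ e * X ^ e))) := by
        refine mul_le_mul_of_nonneg_left ?_ hA
        exact mul_le_mul hlogQ hd2 hd0 (by linarith)
    _ = ((r : ℝ) + 1) * ((r : ℝ) + 2) * C0 * (C1 * 2 ^ e) * (X ^ e * X ^ e) * L ^ (r + 1) := by ring
    _ ≤ ((r : ℝ) + 1) * ((r : ℝ) + 2) * C0 * (C1 * 2 ^ e) * (X ^ e * X ^ e) *
        (K1 ^ (r + 1) * X ^ e) := mul_le_mul_of_nonneg_left hLX (by positivity)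
    _ = (((r : ℝ) + 1) * ((r : ℝ) + 2) * C0 * K1 ^ (r + 1) * (C1 * 2 ^ e)) *
        (X ^ e * X ^ e * X ^ e) := by ring
    _ ≤ (((r : ℝ) + 1) * ((r : ℝ) + 2) * C0 * K1 ^ (r + 1) * (C1 * 2 ^ e)) * X ^ ε :=
        mul_le_mul_of_nonneg_left h3e (by positivity)

end Pool.Agent.Work.MP_122e00_nt.TS
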