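import Pool.Agent.Work.MP_122e00_nt.TS.Stmts7

set_option autoImplicit false

namespace Pool.Agent.Work.MP_122e00_nt.TS

open Finset Filter Topology ArithmeticFunction
open scoped ArithmeticFunction.zeta ArithmeticFunction.Moebius

namespace IK5

theorem mem_PW {z w : ℝ} {p : ℕ} (hw : 1 ≤ w) (hp : p ∈ PW z w) :
    1 ≤ p ∧ (p : ℝ) ≤ w := by
  unfold PW at hp
  rw [Finset.mem_filter, Finset.mem_Icc] at hp
  exact ⟨hp.1.1, (Nat.le_floor_iff (by linarith)).mp hp.1.2⟩

theorem natDegree_comp_lin (P : Polynomial ℝ) (l : ℝ) (d : ℕ) (hP : P.natDegree ≤ d) :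
    (P.comp (Polynomial.X - Polynomial.C l)).natDegree ≤ d := by
  refine le_trans Polynomial.natDegree_comp_le ?_
  rw [Polynomial.natDegree_X_sub_C, mul_one]
  exact hP

theorem coeff_comp_lin (P : Polynomial ℝ) (l : ℝ) (j r : ℕ) (hP : P.natDegree < r) :
    (P.comp (Polynomial.X - Polynomial.C l)).coeff j =
      ∑ i ∈ Finset.range r, P.coeff i * ((-l) ^ (i - j) * (i.choose j : ℝ)) := by
  have h1 : P.comp (Polynomial.X - Polynomial.C l) =
      ∑ i ∈ Finset.range r, Polynomial.C (P.coeff i) * (Polynomial.X - Polynomial.C l) ^ i := by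
    unfold Polynomial.comp
    rw [Polynomial.eval₂_eq_sum_range' _ hP]
  rw [h1, Polynomial.finsetSum_coeff]
  refine Finset.sum_congr rfl fun i _ => ?_
  rw [Polynomial.coeff_C_mul, sub_eq_add_neg, ← Polynomial.C_neg, Polynomial.coeff_X_add_C_pow]

theorem coeff_bd (P : Polynomial ℝ) (l L M : ℝ) (j r : ℕ) (hP : P.natDegree < r) (hl : 0 ≤ l)
    (hL : l ≤ L) (hM : 0 ≤ M) (hc : ∀ i, |P.coeff i| ≤ M) :
    |(P.comp (Polynomial.X - Polynomial.C l)).coeff j| ≤ M * (r * 2 ^ r) * (1 + L) ^ r := by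
  rw [coeff_comp_lin P l j r hP]
  have hL0 : 0 ≤ L := le_trans hl hL
  calc |∑ i ∈ Finset.range r, P.coeff i * ((-l) ^ (i - j) * (i.choose j : ℝ))|
      ≤ ∑ i ∈ Finset.range r, |P.coeff i * ((-l) ^ (i - j) * (i.choose j : ℝ))| :=
        Finset.abs_sum_le_sum_abs _ _
    _ ≤ ∑ _i ∈ Finset.range r, M * ((1 + L) ^ r * 2 ^ r) := by
        refine Finset.sum_le_sum fun i hi => ?_
        rw [Finset.mem_range] at hi
        rw [abs_mul, abs_mul, abs_pow, abs_neg, abs_of_nonneg hl,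
          abs_of_nonneg (Nat.cast_nonneg (i.choose j) : (0 : ℝ) ≤ (i.choose j : ℝ))]
        have h1 : l ^ (i - j) ≤ (1 + L) ^ r := by
          calc l ^ (i - j) ≤ (1 + L) ^ (i - j) := pow_le_pow_left₀ hl (by linarith) _
            _ ≤ (1 + L) ^ r := pow_le_pow_right₀ (by linarith) (by omega)
        have h2 : (i.choose j : ℝ) ≤ 2 ^ r := by
          have h3 : i.choose j ≤ 2 ^ i := Nat.choose_le_two_pow i j
          have h4 : 2 ^ i ≤ 2 ^ r := Nat.pow_le_pow_right (by norm_num) (by omega)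
          exact_mod_cast h3.trans h4
        exact mul_le_mul (hc i)
          (mul_le_mul h1 h2 (Nat.cast_nonneg _) (by positivity)) (by positivity) hM
    _ = M * (r * 2 ^ r) * (1 + L) ^ r := by
        rw [Finset.sum_const, Finset.card_range, nsmul_eq_mul]; ring

theorem sum_inv (z w : ℝ) (hw : 1 ≤ w) : ∑ p ∈ PW z w, 1 / (p : ℝ) ≤ 1 + Real.log w := by
  have h := harmonic_le_one_add_log ⌊w⌋₊
  rw [harmonic_eq_sum_Icc] at h
  push_cast at h
  have h1 : ∑ p ∈ PW z w, 1 / (p : ℝ) ≤ ∑ p ∈ Finset.Icc 1 ⌊w⌋₊, 1 / (p : ℝ) := by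
    refine Finset.sum_le_sum_of_subset_of_nonneg (Finset.filter_subset _ _) fun i _ _ => ?_
    positivity
  have h2 : Real.log (⌊w⌋₊ : ℝ) ≤ Real.log w := by
    have h3 : 1 ≤ ⌊w⌋₊ := Nat.le_floor (by exact_mod_cast hw)
    refine Real.log_le_log (by exact_mod_cast h3) (Nat.floor_le (by linarith))
  have h4 : ∑ p ∈ Finset.Icc 1 ⌊w⌋₊, 1 / (p : ℝ) ≤ 1 + Real.log (⌊w⌋₊ : ℝ) := by
    simpa only [one_div] using h
  linarith

end IK5

theorem prK5 : tsK5 := by
  intro r E hr hdeg hCB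
  refine ⟨fun z w q => ?_, fun ε hε => ?_⟩
  · unfold Eu
    refine Polynomial.natDegree_sum_le_of_forall_le _ _ fun p _ => ?_
    refine (Polynomial.natDegree_C_mul_le _ _).trans ?_
    exact IK5.natDegree_comp_lin _ _ _ (hdeg q)
  · obtain ⟨C0, hC0, hC⟩ := hCB ε hε
    have hr0 : (0 : ℝ) < r := by exact_mod_cast hr
    refine ⟨C0 * (r * 2 ^ r), by positivity, fun z w q j hw hq => ?_⟩
    have hL0 : 0 ≤ Real.log w := Real.log_nonneg hw
    have hq0 : (0 : ℝ) ≤ (q : ℝ) ^ (ε - 1) := Real.rpow_nonneg (Nat.cast_nonneg _) _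
    unfold Eu
    rw [Polynomial.finsetSum_coeff]
    calc |∑ p ∈ PW z w, (Polynomial.C (1 / (p : ℝ)) *
          (E q).comp (Polynomial.X - Polynomial.C (Real.log p))).coeff j|
        ≤ ∑ p ∈ PW z w, |(Polynomial.C (1 / (p : ℝ)) *
          (E q).comp (Polynomial.X - Polynomial.C (Real.log p))).coeff j| :=
          Finset.abs_sum_le_sum_abs _ _
      _ ≤ ∑ p ∈ PW z w, (1 / (p : ℝ)) *
          ((C0 * (q : ℝ) ^ (ε - 1)) * (r * 2 ^ r) * (1 + Real.log w) ^ r) := by
          refine Finset.sum_le_sum fun p hp => ?_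
          obtain ⟨hp1, hp2⟩ := IK5.mem_PW hw hp
          have hp0 : (0 : ℝ) < p := by exact_mod_cast hp1
          rw [Polynomial.coeff_C_mul, abs_mul, abs_of_nonneg (by positivity : (0 : ℝ) ≤ 1 / (p : ℝ))]
          refine mul_le_mul_of_nonneg_left ?_ (by positivity)
          refine IK5.coeff_bd (E q) (Real.log p) (Real.log w) _ j r ?_ ?_ ?_ ?_ ?_
          · have := hdeg q
            omega
          · exact Real.log_nonneg (by exact_mod_cast hp1)
          · exact Real.log_le_log hp0 hp2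
          · positivity
          · exact fun i => hC q i hq
      _ = (∑ p ∈ PW z w, 1 / (p : ℝ)) *
          ((C0 * (q : ℝ) ^ (ε - 1)) * (r * 2 ^ r) * (1 + Real.log w) ^ r) := by
          rw [Finset.sum_mul]
      _ ≤ (1 + Real.log w) *
          ((C0 * (q : ℝ) ^ (ε - 1)) * (r * 2 ^ r) * (1 + Real.log w) ^ r) := by
          refine mul_le_mul_of_nonneg_right (IK5.sum_inv z w hw) (by positivity)
      _ = C0 * (r * 2 ^ r) * (1 + Real.log w) ^ (r + 1) * (q : ℝ) ^ (ε - 1) := by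
          rw [pow_succ]; ring

end Pool.Agent.Work.MP_122e00_nt.TS
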