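import Pool.Agent.Work.MP_122e00_nt.TS.Stmts1

/-!
# Thin shifts, item L1: splitting off a long variable
-/

set_option autoImplicit false

namespace Pool.Agent.Work.MP_122e00_nt.TS

open Finset Filter Topology ArithmeticFunction
open scoped ArithmeticFunction.zeta ArithmeticFunction.Moebius

namespace IL1

/-- indicator function of `1 ≤ n ≤ Y` -/
def uu (Y : ℕ) : ArithmeticFunction ℕ := ⟨fun n => if 1 ≤ n ∧ n ≤ Y then 1 else 0, by simp⟩

/-- indicator function of `Y < n` -/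
def vv (Y : ℕ) : ArithmeticFunction ℕ := ⟨fun n => if Y < n then 1 else 0, by simp⟩

theorem uu_apply (Y n : ℕ) : uu Y n = if 1 ≤ n ∧ n ≤ Y then 1 else 0 := rfl

theorem vv_apply (Y n : ℕ) : vv Y n = if Y < n then 1 else 0 := rfl

theorem zeta_eq (Y : ℕ) : (ζ : ArithmeticFunction ℕ) = uu Y + vv Y := by
  ext n
  rw [ArithmeticFunction.add_apply, uu_apply, vv_apply, ArithmeticFunction.zeta_apply]
  split_ifs <;> omega

theorem mul_le (f g f' g' : ArithmeticFunction ℕ) (h1 : ∀ n, f n ≤ f' n) (h2 : ∀ n, g n ≤ g' n)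
    (n : ℕ) : (f * g) n ≤ (f' * g') n := by
  rw [ArithmeticFunction.mul_apply, ArithmeticFunction.mul_apply]
  exact Finset.sum_le_sum fun x _ => Nat.mul_le_mul (h1 _) (h2 _)

theorem zeta_pow_mono (r n : ℕ) :
    ((ζ : ArithmeticFunction ℕ) ^ r) n ≤ ((ζ : ArithmeticFunction ℕ) ^ (r + 1)) n := by
  have h1 := mul_le 1 ((ζ : ArithmeticFunction ℕ) ^ r) ζ ((ζ : ArithmeticFunction ℕ) ^ r)
    (fun n => by
      rw [ArithmeticFunction.one_apply, ArithmeticFunction.zeta_apply]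
      split_ifs <;> omega) (fun _ => le_rfl) n
  rw [one_mul] at h1
  rw [pow_succ']
  exact h1

theorem exW (Y r : ℕ) : ∃ W : ArithmeticFunction ℕ,
    (ζ : ArithmeticFunction ℕ) ^ r = uu Y ^ r + vv Y * W ∧
    ∀ m, W m ≤ r * ((ζ : ArithmeticFunction ℕ) ^ r) m := by
  induction r with
  | zero =>
    refine ⟨0, ?_, fun m => ?_⟩
    · rw [pow_zero, pow_zero, mul_zero, add_zero]
    · simp
  | succ r ih =>
    obtain ⟨W, h1, h2⟩ := ih
    refine ⟨(ζ : ArithmeticFunction ℕ) ^ r + uu Y * W, ?_, fun m => ?_⟩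
    · calc (ζ : ArithmeticFunction ℕ) ^ (r + 1) = (uu Y + vv Y) * (ζ : ArithmeticFunction ℕ) ^ r := by
            rw [pow_succ', ← zeta_eq]
        _ = uu Y * (uu Y ^ r + vv Y * W) + vv Y * (ζ : ArithmeticFunction ℕ) ^ r := by
            rw [add_mul, ← h1]
        _ = uu Y ^ (r + 1) + vv Y * ((ζ : ArithmeticFunction ℕ) ^ r + uu Y * W) := by
            ring
    · rw [ArithmeticFunction.add_apply]
      have h3 : (uu Y * W) m ≤ r * ((ζ : ArithmeticFunction ℕ) ^ (r + 1)) m := by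
        rw [pow_succ', ArithmeticFunction.mul_apply, ArithmeticFunction.mul_apply, Finset.mul_sum]
        refine Finset.sum_le_sum fun x _ => ?_
        have h4 : uu Y x.1 ≤ ζ x.1 := by
          rw [uu_apply, ArithmeticFunction.zeta_apply]
          split_ifs <;> omega
        calc uu Y x.1 * W x.2 ≤ ζ x.1 * (r * ((ζ : ArithmeticFunction ℕ) ^ r) x.2) :=
              Nat.mul_le_mul h4 (h2 _)
          _ = r * (ζ x.1 * ((ζ : ArithmeticFunction ℕ) ^ r) x.2) := by ring
      calc ((ζ : ArithmeticFunction ℕ) ^ r) m + (uu Y * W) m ≤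
          ((ζ : ArithmeticFunction ℕ) ^ (r + 1)) m +
            r * ((ζ : ArithmeticFunction ℕ) ^ (r + 1)) m := Nat.add_le_add (zeta_pow_mono r m) h3
        _ = (r + 1) * ((ζ : ArithmeticFunction ℕ) ^ (r + 1)) m := by ring

theorem sum_uu (Y N : ℕ) : ∑ n ∈ Finset.Ioc 0 N, uu Y n ≤ Y := by
  have h1 : ∑ n ∈ Finset.Ioc 0 N, uu Y n = ((Finset.Ioc 0 N).filter fun n => 1 ≤ n ∧ n ≤ Y).card := by
    rw [Finset.card_filter]
    exact Finset.sum_congr rfl fun n _ => rfl
  rw [h1]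
  calc ((Finset.Ioc 0 N).filter fun n => 1 ≤ n ∧ n ≤ Y).card ≤ (Finset.Icc 1 Y).card :=
        Finset.card_le_card fun n hn => by
          rw [Finset.mem_filter] at hn
          exact Finset.mem_Icc.2 hn.2
    _ = Y := by simp

theorem sum_uu_pow (Y r : ℕ) : ∀ N : ℕ, ∑ n ∈ Finset.Ioc 0 N, (uu Y ^ r) n ≤ Y ^ r := by
  induction r with
  | zero =>
    intro N
    rw [pow_zero, pow_zero]
    have h1 : ∑ n ∈ Finset.Ioc 0 N, (1 : ArithmeticFunction ℕ) n =
        ((Finset.Ioc 0 N).filter fun n => n = 1).card := by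
      rw [Finset.card_filter]
      exact Finset.sum_congr rfl fun n _ => ArithmeticFunction.one_apply
    rw [h1]
    calc ((Finset.Ioc 0 N).filter fun n => n = 1).card ≤ ({1} : Finset ℕ).card :=
          Finset.card_le_card fun n hn => by
            rw [Finset.mem_filter] at hn
            exact Finset.mem_singleton.2 hn.2
      _ = 1 := by simp
  | succ r ih =>
    intro N
    rw [pow_succ', ArithmeticFunction.sum_Ioc_mul_eq_sum_sum]
    calc ∑ n ∈ Finset.Ioc 0 N, uu Y n * ∑ m ∈ Finset.Ioc 0 (N / n), (uu Y ^ r) m ≤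
        ∑ n ∈ Finset.Ioc 0 N, uu Y n * Y ^ r :=
          Finset.sum_le_sum fun n _ => Nat.mul_le_mul le_rfl (ih _)
      _ = (∑ n ∈ Finset.Ioc 0 N, uu Y n) * Y ^ r := by rw [Finset.sum_mul]
      _ ≤ Y * Y ^ r := Nat.mul_le_mul (sum_uu Y N) le_rfl
      _ = Y ^ (r + 1) := by rw [pow_succ']

theorem sum_conv (f g : ArithmeticFunction ℕ) (G : ℕ → ℂ) (N : ℕ) :
    ∑ n ∈ Finset.Ioc 0 N, (((f * g) n : ℕ) : ℂ) * G n =
      ∑ m ∈ Finset.Ioc 0 N, (g m : ℂ) * ∑ l ∈ Finset.Ioc 0 (N / m), (f l : ℂ) * G (m * l) := by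
  have h1 : ∑ n ∈ Finset.Ioc 0 N, (((f * g) n : ℕ) : ℂ) * G n =
      ∑ n ∈ Finset.Ioc 0 N, ∑ x ∈ (Finset.Ioc 0 N ×ˢ Finset.Ioc 0 N).filter
        (fun x : ℕ × ℕ => x.1 * x.2 = n), (f x.1 : ℂ) * g x.2 * G (x.1 * x.2) := by
    refine Finset.sum_congr rfl fun n hn => ?_
    rw [Finset.mem_Ioc] at hn
    rw [ArithmeticFunction.mul_apply, Nat.divisorsAntidiagonal_eq_prod_filter_of_le hn.1.ne' hn.2,
      Nat.cast_sum, Finset.sum_mul]
    refine Finset.sum_congr rfl fun x hx => ?_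
    rw [Finset.mem_filter] at hx
    rw [hx.2]
    push_cast
    ring
  rw [h1]
  simp_rw [Finset.sum_filter]
  rw [Finset.sum_comm, Finset.sum_product_right]
  refine Finset.sum_congr rfl fun m hm => ?_
  rw [Finset.mem_Ioc] at hm
  rw [Finset.mul_sum]
  have h2 : ∀ l ∈ Finset.Ioc 0 N, (∑ n ∈ Finset.Ioc 0 N,
      if l * m = n then (f l : ℂ) * g m * G (l * m) else 0) =
      if l * m ≤ N then (g m : ℂ) * ((f l : ℂ) * G (m * l)) else 0 := by
    intro l hl
    rw [Finset.mem_Ioc] at hl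
    rw [Finset.sum_ite_eq]
    have h3 : 0 < l * m := Nat.mul_pos hl.1 hm.1
    by_cases h4 : l * m ≤ N
    · rw [if_pos (Finset.mem_Ioc.2 ⟨h3, h4⟩), if_pos h4, Nat.mul_comm l m]
      ring
    · rw [if_neg (fun h => h4 (Finset.mem_Ioc.1 h).2), if_neg h4]
  rw [Finset.sum_congr rfl h2, ← Finset.sum_filter]
  refine Finset.sum_congr ?_ fun l _ => rfl
  ext l
  rw [Finset.mem_filter, Finset.mem_Ioc, Finset.mem_Ioc]
  rw [Nat.le_div_iff_mul_le hm.1]
  constructor
  · rintro ⟨⟨a, _⟩, b⟩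
    exact ⟨a, b⟩
  · rintro ⟨a, b⟩
    exact ⟨⟨a, le_trans (Nat.le_mul_of_pos_right l hm.1) b⟩, b⟩

end IL1

open IL1

theorem prL1 : tsL1 := by
  intro r X hr hX
  set y : ℝ := X ^ (1 / (2 * (r : ℝ))) with hy
  set Y : ℕ := ⌊y⌋₊ with hY
  have hX0 : 0 < X := by linarith
  have hy0 : 0 < y := Real.rpow_pos_of_pos hX0 _
  obtain ⟨W, hW1, hW2⟩ := exW Y r
  refine ⟨fun m => (W m : ℝ), fun m => ⟨Nat.cast_nonneg _, ?_⟩, ?_⟩
  · have h1 := hW2 m
    have h2 : (W m : ℝ) ≤ ((r * ((ζ : ArithmeticFunction ℕ) ^ r) m : ℕ) : ℝ) := by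
      exact_mod_cast h1
    rw [Nat.cast_mul] at h2
    exact h2
  · intro g N hg hN
    set M : ℕ := ⌊X ^ (1 - 1 / (2 * (r : ℝ)))⌋₊ with hM
    have hIcc : ∀ n : ℕ, Finset.Icc 1 n = Finset.Ioc 0 n := fun n => by
      ext a
      simp only [Finset.mem_Icc, Finset.mem_Ioc]
      omega
    have hsplit : ∑ n ∈ Finset.Icc 1 N, (dr r n : ℂ) * g n =
        ∑ n ∈ Finset.Ioc 0 N, (((uu Y ^ r) n : ℕ) : ℂ) * g n +
        ∑ n ∈ Finset.Ioc 0 N, (((vv Y * W) n : ℕ) : ℂ) * g n := by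
      rw [hIcc, ← Finset.sum_add_distrib]
      refine Finset.sum_congr rfl fun n _ => ?_
      unfold dr
      rw [hW1, ArithmeticFunction.add_apply]
      push_cast
      ring
    have hsec : ∑ n ∈ Finset.Ioc 0 N, (((vv Y * W) n : ℕ) : ℂ) * g n =
        ∑ m ∈ Finset.Icc 1 M, ((W m : ℝ) : ℂ) * ∑ l ∈ Finset.Ioc Y (N / m), g (m * l) := by
      rw [sum_conv]
      have h1 : ∀ m, (W m : ℂ) * ∑ l ∈ Finset.Ioc 0 (N / m), (vv Y l : ℂ) * g (m * l) =
          ((W m : ℝ) : ℂ) * ∑ l ∈ Finset.Ioc Y (N / m), g (m * l) := by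
        intro m
        rw [Complex.ofReal_natCast]
        congr 1
        have h2 : ∀ l ∈ Finset.Ioc 0 (N / m), (vv Y l : ℂ) * g (m * l) =
            if Y < l then g (m * l) else 0 := by
          intro l _
          rw [vv_apply]
          split_ifs <;> simp
        rw [Finset.sum_congr rfl h2, ← Finset.sum_filter]
        refine Finset.sum_congr ?_ fun l _ => rfl
        ext l
        simp only [Finset.mem_filter, Finset.mem_Ioc]
        omega
      rw [Finset.sum_congr rfl (fun m _ => h1 m)]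
      have h3 : ∀ m : ℕ, m ∉ Finset.Icc 1 M ∨ m ∉ Finset.Ioc 0 N → 1 ≤ m →
          ((W m : ℝ) : ℂ) * ∑ l ∈ Finset.Ioc Y (N / m), g (m * l) = 0 := by
        intro m hm hm1
        have h4 : N / m ≤ Y := by
          rcases hm with hm | hm
          · have h5 : M < m := by
              by_contra h
              exact hm (Finset.mem_Icc.2 ⟨hm1, not_lt.1 h⟩)
            have h6 : X ^ (1 - 1 / (2 * (r : ℝ))) < m := by
              rw [hM] at h5
              exact (Nat.floor_lt (Real.rpow_nonneg hX0.le _)).1 h5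
            have h7 : X = X ^ (1 - 1 / (2 * (r : ℝ))) * y := by
              rw [hy, ← Real.rpow_add hX0]
              rw [sub_add_cancel, Real.rpow_one]
            have hm0 : (0 : ℝ) < m := by exact_mod_cast hm1
            rw [hY]
            refine Nat.le_floor ?_
            calc ((N / m : ℕ) : ℝ) ≤ (N : ℝ) / m := Nat.cast_div_le
              _ ≤ y := by
                rw [div_le_iff₀ hm0]
                calc (N : ℝ) ≤ X := hN
                  _ = X ^ (1 - 1 / (2 * (r : ℝ))) * y := h7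
                  _ ≤ m * y := mul_le_mul_of_nonneg_right h6.le hy0.le
                  _ = y * m := mul_comm _ _
          · have h5 : N < m := by
              by_contra h
              exact hm (Finset.mem_Ioc.2 ⟨by omega, not_lt.1 h⟩)
            rw [Nat.div_eq_of_lt h5]
            exact Nat.zero_le _
        rw [Finset.Ioc_eq_empty_of_le h4, Finset.sum_empty, mul_zero]
      have h8 : ∑ m ∈ Finset.Ioc 0 N, ((W m : ℝ) : ℂ) * ∑ l ∈ Finset.Ioc Y (N / m), g (m * l) =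
          ∑ m ∈ Finset.Ioc 0 (max M N), ((W m : ℝ) : ℂ) * ∑ l ∈ Finset.Ioc Y (N / m), g (m * l) := by
        refine Finset.sum_subset ?_ ?_
        · intro m hm
          rw [Finset.mem_Ioc] at hm ⊢
          exact ⟨hm.1, le_max_of_le_right hm.2⟩
        · intro m hm hm'
          rw [Finset.mem_Ioc] at hm
          exact h3 m (Or.inr hm') hm.1
      have h9 : ∑ m ∈ Finset.Icc 1 M, ((W m : ℝ) : ℂ) * ∑ l ∈ Finset.Ioc Y (N / m), g (m * l) =
          ∑ m ∈ Finset.Ioc 0 (max M N), ((W m : ℝ) : ℂ) * ∑ l ∈ Finset.Ioc Y (N / m), g (m * l) := by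
        refine Finset.sum_subset ?_ ?_
        · intro m hm
          rw [Finset.mem_Icc] at hm
          rw [Finset.mem_Ioc]
          exact ⟨by omega, le_max_of_le_left hm.2⟩
        · intro m hm hm'
          rw [Finset.mem_Ioc] at hm
          exact h3 m (Or.inl hm') hm.1
      rw [h8, h9]
    rw [hsplit, hsec, add_sub_cancel_right]
    calc ‖∑ n ∈ Finset.Ioc 0 N, (((uu Y ^ r) n : ℕ) : ℂ) * g n‖ ≤
        ∑ n ∈ Finset.Ioc 0 N, (((uu Y ^ r) n : ℕ) : ℝ) := by
          refine (norm_sum_le _ _).trans (Finset.sum_le_sum fun n _ => ?_)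
          rw [norm_mul, Complex.norm_natCast]
          exact mul_le_of_le_one_right (Nat.cast_nonneg _) (hg n)
      _ = ((∑ n ∈ Finset.Ioc 0 N, (uu Y ^ r) n : ℕ) : ℝ) := by push_cast; rfl
      _ ≤ ((Y ^ r : ℕ) : ℝ) := by exact_mod_cast sum_uu_pow Y r N
      _ = (Y : ℝ) ^ r := by push_cast; rfl
      _ ≤ y ^ r := pow_le_pow_left₀ (Nat.cast_nonneg _) (Nat.floor_le hy0.le) r
      _ = X ^ (1 / 2 : ℝ) := by
          rw [hy, ← Real.rpow_natCast, ← Real.rpow_mul hX0.le]
          congr 1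
          have : (r : ℝ) ≠ 0 := by
            have : 0 < r := hr
            exact_mod_cast this.ne'
          field_simp

end Pool.Agent.Work.MP_122e00_nt.TS
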