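import Mathlib
import Pool.Agent.Work.MP_122e00_nt.TS.Stmts11
import Pool.Agent.Work.MP_122e00_nt.TS.I_L1

/-!
# Thin shifts, item X1: divisor functions in short intervals
-/

namespace Pool.Agent.Work.MP_122e00_nt.TS

open Finset Filter Topology ArithmeticFunction MeasureTheory
open scoped ArithmeticFunction.zeta ArithmeticFunction.Moebius

namespace IX1

lemma harm (N : ℕ) : ∑ n ∈ Finset.Icc 1 N, (1 : ℝ) / n ≤ 1 + Real.log N := by
  have h := harmonic_le_one_add_log N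
  rw [harmonic_eq_sum_Icc] at h
  push_cast at h
  simpa only [one_div] using h

lemma dr_nonneg (r n : ℕ) : 0 ≤ dr r n := Nat.cast_nonneg _

lemma dr_succ (r n : ℕ) : dr (r + 1) n = ∑ x ∈ n.divisorsAntidiagonal, dr r x.1 := by
  unfold dr
  rw [pow_succ, ArithmeticFunction.mul_apply, Nat.cast_sum]
  refine Finset.sum_congr rfl fun x hx => ?_
  have h2 : x.2 ≠ 0 := by
    have := Nat.mem_divisorsAntidiagonal.1 hx
    rintro h
    exact this.2 (by rw [← this.1, h, mul_zero])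
  rw [ArithmeticFunction.zeta_apply, if_neg h2, mul_one]

lemma dA_eq (N n : ℕ) (hn : n ∈ Finset.Icc 1 N) : n.divisorsAntidiagonal =
    (Finset.Icc 1 N ×ˢ Finset.Icc 1 N).filter (fun x => x.1 * x.2 = n) := by
  rw [Finset.mem_Icc] at hn
  ext ⟨x, y⟩
  simp only [Nat.mem_divisorsAntidiagonal, Finset.mem_filter, Finset.mem_product, Finset.mem_Icc]
  constructor
  · rintro ⟨h1, h2⟩
    have hx : x ≠ 0 := by rintro rfl; rw [zero_mul] at h1; omega
    have hy : y ≠ 0 := by rintro rfl; rw [mul_zero] at h1; omega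
    have h3 : x ≤ x * y := Nat.le_mul_of_pos_right x (by omega)
    have h4 : y ≤ x * y := Nat.le_mul_of_pos_left y (by omega)
    exact ⟨⟨⟨by omega, by omega⟩, ⟨by omega, by omega⟩⟩, h1⟩
  · rintro ⟨-, h1⟩
    exact ⟨h1, by omega⟩

/-- the logarithmic sum of the divisor function -/
lemma logsum (r N : ℕ) : ∑ n ∈ Finset.Icc 1 N, dr r n / n ≤ (1 + Real.log N) ^ r := by
  have hlog : 0 ≤ Real.log N := Real.log_natCast_nonneg N
  induction r with
  | zero =>
    rw [pow_zero]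
    have h1 : ∀ n ∈ Finset.Icc 1 N, dr 0 n / n ≤ if n = 1 then 1 else 0 := by
      intro n hn
      unfold dr
      rw [pow_zero, ArithmeticFunction.one_apply]
      split_ifs with h
      · rw [h]; norm_num
      · simp
    refine (Finset.sum_le_sum h1).trans ?_
    rw [Finset.sum_ite_eq']
    split_ifs <;> norm_num
  | succ r ih =>
    have h1 : ∀ n ∈ Finset.Icc 1 N, dr (r + 1) n / n =
        ∑ x ∈ (Finset.Icc 1 N ×ˢ Finset.Icc 1 N) with x.1 * x.2 = n,
          (dr r x.1 / x.1) * (1 / (x.2 : ℝ)) := by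
      intro n hn
      rw [dr_succ, Finset.sum_div, dA_eq N n hn]
      refine Finset.sum_congr rfl fun x hx => ?_
      rw [Finset.mem_filter] at hx
      rw [← hx.2]
      push_cast
      rw [div_mul_div_comm, mul_one]
    rw [Finset.sum_congr rfl h1]
    calc ∑ n ∈ Finset.Icc 1 N, ∑ x ∈ (Finset.Icc 1 N ×ˢ Finset.Icc 1 N) with x.1 * x.2 = n,
          (dr r x.1 / x.1) * (1 / (x.2 : ℝ))
        ≤ ∑ x ∈ Finset.Icc 1 N ×ˢ Finset.Icc 1 N, (dr r x.1 / x.1) * (1 / (x.2 : ℝ)) := by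
          refine Finset.sum_fiberwise_le_sum_of_sum_fiber_nonneg fun y _ => ?_
          exact Finset.sum_nonneg fun x _ => by
            have := dr_nonneg r x.1
            positivity
      _ = (∑ n ∈ Finset.Icc 1 N, dr r n / n) * ∑ n ∈ Finset.Icc 1 N, 1 / (n : ℝ) := by
          rw [Finset.sum_mul_sum, Finset.sum_product]
      _ ≤ (1 + Real.log N) ^ r * (1 + Real.log N) :=
          mul_le_mul ih (harm N) (Finset.sum_nonneg fun _ _ => by positivity) (by positivity)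
      _ = (1 + Real.log N) ^ (r + 1) := by rw [pow_succ]

/-- the number of multiples of `m` in `(a, b]` -/
lemma count_le (a b m y : ℕ) (hm : 1 ≤ m) (hab : a ≤ b) :
    ∑ l ∈ Finset.Ioc y (b / m), (if a < m * l then (1 : ℝ) else 0) ≤ ((b : ℝ) - a) / m + 1 := by
  have h1 : ∑ l ∈ Finset.Ioc y (b / m), (if a < m * l then (1 : ℝ) else 0) ≤
      ((Finset.Ioc (a / m) (b / m)).card : ℝ) := by
    rw [← Finset.sum_filter, Finset.sum_const, nsmul_eq_mul, mul_one]
    have : (Finset.Ioc y (b / m)).filter (fun l => a < m * l) ⊆ Finset.Ioc (a / m) (b / m) := by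
      intro l hl
      rw [Finset.mem_filter, Finset.mem_Ioc] at hl
      rw [Finset.mem_Ioc]
      refine ⟨?_, hl.1.2⟩
      rw [Nat.div_lt_iff_lt_mul (by omega), mul_comm]
      exact hl.2
    exact_mod_cast Finset.card_le_card this
  refine h1.trans ?_
  have hm0 : (0 : ℝ) < m := by exact_mod_cast hm
  rw [Nat.card_Ioc, Nat.cast_sub (Nat.div_le_div_right hab)]
  have h2 : ((b / m : ℕ) : ℝ) ≤ (b : ℝ) / m := Nat.cast_div_le
  have h3 : (a : ℝ) / m < ((a / m : ℕ) : ℝ) + 1 := by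
    rw [div_lt_iff₀ hm0]
    have h4 : a < (a / m + 1) * m := by
      have h5 := Nat.div_add_mod a m
      have h6 := Nat.mod_lt a hm
      rw [add_mul, one_mul, mul_comm (a / m) m]
      omega
    exact_mod_cast h4
  rw [sub_div]
  linarith

end IX1

open IX1 in
/-- item X1 -/
theorem prX1 : tsX1 := by
  intro R hR
  have hR0 : (0 : ℝ) < R := by exact_mod_cast hR
  have hR1 : (1 : ℝ) ≤ R := by exact_mod_cast hR
  have hδ : (0 : ℝ) < 1 / (2 * (R : ℝ)) := by positivity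
  have hδ2 : 1 / (2 * (R : ℝ)) ≤ 1 / 2 := by
    apply one_div_le_one_div_of_le (by norm_num)
    linarith
  refine ⟨1 / (2 * (R : ℝ)), 4 * R * 3 ^ R + 3, hδ, by positivity, ?_⟩
  intro X a b hX hab hb hlen
  have hX0 : (0 : ℝ) < X := by linarith
  have hX1 : (1 : ℝ) ≤ X := by linarith
  obtain ⟨W, hW, hg⟩ := prL1 R (3 * X) hR (by linarith)
  have h := hg (fun n => if a < n then 1 else 0) b (fun n => by split_ifs <;> simp) hb
  set Y : ℝ := (3 * X) ^ (1 - 1 / (2 * (R : ℝ))) with hY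
  set y : ℕ := ⌊(3 * X) ^ (1 / (2 * (R : ℝ)))⌋₊ with hy
  have hY0 : 0 ≤ Y := by positivity
  have e1 : ∑ n ∈ Finset.Icc 1 b, (dr R n : ℂ) * (if a < n then 1 else 0) =
      ((∑ n ∈ Finset.Ioc a b, dr R n : ℝ) : ℂ) := by
    have e3 : (Finset.Icc 1 b).filter (fun n => a < n) = Finset.Ioc a b := by
      ext n
      simp only [Finset.mem_filter, Finset.mem_Icc, Finset.mem_Ioc]
      omega
    rw [← e3, Finset.sum_filter, Complex.ofReal_sum]
    refine Finset.sum_congr rfl fun n _ => ?_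
    split_ifs <;> simp
  have e2 : ∑ m ∈ Finset.Icc 1 ⌊Y⌋₊, (W m : ℂ) *
      ∑ l ∈ Finset.Ioc y (b / m), (if a < m * l then (1 : ℂ) else 0) =
      ((∑ m ∈ Finset.Icc 1 ⌊Y⌋₊, W m *
        ∑ l ∈ Finset.Ioc y (b / m), (if a < m * l then (1 : ℝ) else 0) : ℝ) : ℂ) := by
    rw [Complex.ofReal_sum]
    refine Finset.sum_congr rfl fun m _ => ?_
    rw [Complex.ofReal_mul, Complex.ofReal_sum]
    congr 1
    refine Finset.sum_congr rfl fun l _ => ?_
    split_ifs <;> simp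
  rw [e1, e2, ← Complex.ofReal_sub, Complex.norm_real, Real.norm_eq_abs] at h
  have h1 := (abs_le.1 h).2
  -- the length
  obtain ⟨D, hD⟩ : ∃ D : ℝ, D = (b : ℝ) - a := ⟨_, rfl⟩
  have hab' : (a : ℝ) ≤ b := by exact_mod_cast hab
  have hD0 : 0 ≤ D := by rw [hD]; linarith
  rw [← hD] at hlen ⊢
  have t1 : ∀ p : ℝ, 0 ≤ p → p ≤ 1 - 1 / (2 * (R : ℝ)) → (3 * X) ^ p ≤ 3 * D := by
    intro p hp0 hp
    rw [Real.mul_rpow (by norm_num) hX0.le]
    have e3 : (3 : ℝ) ^ p ≤ 3 := by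
      calc (3 : ℝ) ^ p ≤ 3 ^ (1 : ℝ) := Real.rpow_le_rpow_of_exponent_le (by norm_num) (by linarith)
        _ = 3 := Real.rpow_one 3
    have e4 : X ^ p ≤ D := (Real.rpow_le_rpow_of_exponent_le hX1 hp).trans hlen
    exact mul_le_mul e3 e4 (by positivity) (by norm_num)
  have hYD : Y ≤ 3 * D := t1 _ (by linarith) le_rfl
  have hE : (3 * X) ^ (1 / 2 : ℝ) ≤ 3 * D := t1 _ (by norm_num) (by linarith)
  -- the logarithmic sum
  have hlog3 : 1 ≤ Real.log X := by
    rw [Real.le_log_iff_exp_le hX0]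
    have := Real.exp_one_lt_d9
    linarith
  have hYX : Y ≤ 3 * X := by
    calc Y ≤ (3 * X) ^ (1 : ℝ) := Real.rpow_le_rpow_of_exponent_le (by linarith) (by linarith)
      _ = 3 * X := Real.rpow_one _
  have hH : ∑ m ∈ Finset.Icc 1 ⌊Y⌋₊, dr R m / m ≤ 3 ^ R * Real.log X ^ R := by
    refine (logsum R ⌊Y⌋₊).trans ?_
    rw [← mul_pow]
    have e3 : Real.log (⌊Y⌋₊ : ℝ) ≤ 2 * Real.log X := by
      have e4 : (2 : ℝ) * Real.log X = Real.log (X ^ 2) := by
        rw [Real.log_pow]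
        norm_num
      rcases Nat.eq_zero_or_pos ⌊Y⌋₊ with h0 | h0
      · rw [h0, Nat.cast_zero, Real.log_zero]
        linarith
      · rw [e4]
        apply Real.log_le_log (by exact_mod_cast h0)
        refine (Nat.floor_le hY0).trans (hYX.trans ?_)
        nlinarith
    have e5 : 0 ≤ Real.log (⌊Y⌋₊ : ℝ) := Real.log_natCast_nonneg _
    exact pow_le_pow_left₀ (by linarith) (by linarith) R
  have hH0 : 0 ≤ ∑ m ∈ Finset.Icc 1 ⌊Y⌋₊, dr R m / m :=
    Finset.sum_nonneg fun m _ => by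
      have := dr_nonneg R m
      positivity
  have h2 : ∑ m ∈ Finset.Icc 1 ⌊Y⌋₊, W m *
        ∑ l ∈ Finset.Ioc y (b / m), (if a < m * l then (1 : ℝ) else 0) ≤
      R * (D + Y) * ∑ m ∈ Finset.Icc 1 ⌊Y⌋₊, dr R m / m := by
    rw [Finset.mul_sum]
    refine Finset.sum_le_sum fun m hm => ?_
    rw [Finset.mem_Icc] at hm
    have hm0 : (0 : ℝ) < m := by exact_mod_cast hm.1
    have hmY : (m : ℝ) ≤ Y := (Nat.cast_le.2 hm.2).trans (Nat.floor_le hY0)
    have hc := count_le a b m y hm.1 hab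
    rw [← hD] at hc
    have hdr := dr_nonneg R m
    calc W m * ∑ l ∈ Finset.Ioc y (b / m), (if a < m * l then (1 : ℝ) else 0)
        ≤ (R * dr R m) * (D / m + 1) := by
          refine mul_le_mul (hW m).2 hc (Finset.sum_nonneg fun l _ => ?_) (by positivity)
          split_ifs <;> norm_num
      _ = R * (D + m) * (dr R m / m) := by field_simp
      _ ≤ R * (D + Y) * (dr R m / m) := by gcongr
  have h3 : R * (D + Y) * ∑ m ∈ Finset.Icc 1 ⌊Y⌋₊, dr R m / m ≤
      4 * R * 3 ^ R * D * Real.log X ^ R := by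
    calc R * (D + Y) * ∑ m ∈ Finset.Icc 1 ⌊Y⌋₊, dr R m / m
        ≤ R * (D + 3 * D) * (3 ^ R * Real.log X ^ R) := by gcongr
      _ = 4 * R * 3 ^ R * D * Real.log X ^ R := by ring
  have h4 : (1 : ℝ) ≤ Real.log X ^ R := one_le_pow₀ hlog3
  have h5 : Real.log X ^ R ≤ Real.log X ^ (4 * R * 3 ^ R + 3 : ℝ) := by
    rw [← Real.rpow_natCast]
    apply Real.rpow_le_rpow_of_exponent_le hlog3
    have h6 : (1 : ℝ) ≤ 3 ^ R := one_le_pow₀ (by norm_num)
    nlinarith
  calc ∑ n ∈ Finset.Ioc a b, dr R n ≤ 4 * R * 3 ^ R * D * Real.log X ^ R + 3 * D * 1 := by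
        linarith
    _ ≤ 4 * R * 3 ^ R * D * Real.log X ^ R + 3 * D * Real.log X ^ R := by gcongr
    _ = (4 * R * 3 ^ R + 3) * D * Real.log X ^ R := by ring
    _ ≤ (4 * R * 3 ^ R + 3) * D * Real.log X ^ (4 * R * 3 ^ R + 3 : ℝ) := by gcongr

end Pool.Agent.Work.MP_122e00_nt.TS
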