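import Pool.Agent.Work.MP_122e00_nt.TS.Stmts10

/-!
# Thin shifts, item Z2: a divisor sum which is small for every `h`
-/

namespace Pool.Agent.Work.MP_122e00_nt.TS

namespace IZ2

open Finset Filter Topology ArithmeticFunction
open scoped ArithmeticFunction.zeta

/-- the summand -/
noncomputable def f0 (A : ℕ) (δ : ℝ) (g : ℕ) : ℝ :=
  (g.divisors.card : ℝ) ^ A * ((g : ℝ) / (Nat.totient g : ℝ)) ^ 2 * (g : ℝ) ^ (δ - 1)

/-- the summand as an arithmetic function -/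
noncomputable def FF (A : ℕ) (δ : ℝ) : ArithmeticFunction ℝ := ⟨f0 A δ, by simp [f0]⟩

theorem FF_apply (A : ℕ) (δ : ℝ) (g : ℕ) : FF A δ g = f0 A δ g := rfl

theorem FF_mult (A : ℕ) (δ : ℝ) : (FF A δ).IsMultiplicative := by
  refine ⟨?_, ?_⟩
  · show f0 A δ 1 = 1
    simp [f0]
  · intro m n hmn
    show f0 A δ (m * n) = f0 A δ m * f0 A δ n
    unfold f0
    rw [Nat.Coprime.card_divisors_mul hmn, Nat.totient_mul hmn]
    push_cast
    rw [Real.mul_rpow (Nat.cast_nonneg _) (Nat.cast_nonneg _), mul_div_mul_comm, mul_pow, mul_pow]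
    ring

theorem f0_nonneg (A : ℕ) (δ : ℝ) (g : ℕ) : 0 ≤ f0 A δ g := by
  unfold f0
  positivity

/-- the constant -/
noncomputable def CA (A : ℕ) : ℝ := ∑' i : ℕ, 4 * ((i : ℝ) + 2) ^ A * (3 / 4 : ℝ) ^ i

theorem CA_summable (A : ℕ) : Summable fun i : ℕ => 4 * ((i : ℝ) + 2) ^ A * (3 / 4 : ℝ) ^ i := by
  have h1 : Summable fun n : ℕ => (n : ℝ) ^ A * (3 / 4 : ℝ) ^ n :=
    summable_pow_mul_geometric_of_norm_lt_one A (by rw [Real.norm_eq_abs]; norm_num [abs_of_pos])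
  have h2 := ((summable_nat_add_iff 2).2 h1).mul_left (4 * (16 / 9 : ℝ))
  refine h2.congr fun i => ?_
  push_cast
  rw [pow_add]
  ring

theorem CA_nonneg (A : ℕ) : 0 ≤ CA A := tsum_nonneg fun i => by positivity

theorem f0_pow (A : ℕ) (δ : ℝ) (p : ℕ) (hp : p.Prime) (i : ℕ) :
    f0 A δ (p ^ (i + 1)) ≤ 4 * ((i : ℝ) + 2) ^ A * ((p : ℝ) ^ (δ - 1)) ^ (i + 1) := by
  have hp2 : (2 : ℝ) ≤ p := by exact_mod_cast hp.two_le
  have h1 : ((p ^ (i + 1)).divisors.card : ℝ) = (i : ℝ) + 2 := by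
    rw [Nat.divisors_prime_pow hp, Finset.card_map, Finset.card_range]
    push_cast
    ring
  have h2 : (((p ^ (i + 1) : ℕ) : ℝ) / (Nat.totient (p ^ (i + 1)) : ℝ)) ^ 2 ≤ 4 := by
    rw [Nat.totient_prime_pow hp (Nat.succ_pos i)]
    have e1 : (((p ^ (i + 1 - 1) * (p - 1) : ℕ)) : ℝ) = (p : ℝ) ^ i * ((p : ℝ) - 1) := by
      rw [Nat.add_sub_cancel]
      push_cast [Nat.cast_sub hp.one_le]
      ring
    have e2 : (((p ^ (i + 1) : ℕ)) : ℝ) / ((p : ℝ) ^ i * ((p : ℝ) - 1)) = (p : ℝ) / (p - 1) := by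
      have : (p : ℝ) ^ i ≠ 0 := by positivity
      push_cast
      rw [pow_succ, mul_div_mul_left _ _ this]
    rw [e1, e2]
    have e3 : (p : ℝ) / (p - 1) ≤ 2 := by
      rw [div_le_iff₀ (by linarith)]
      linarith
    have e4 : 0 ≤ (p : ℝ) / (p - 1) := div_nonneg (by linarith) (by linarith)
    nlinarith
  have h3 : (((p ^ (i + 1) : ℕ)) : ℝ) ^ (δ - 1) = ((p : ℝ) ^ (δ - 1)) ^ (i + 1) := by
    push_cast
    rw [← Real.rpow_natCast, ← Real.rpow_natCast, ← Real.rpow_mul (by linarith),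
      ← Real.rpow_mul (by linarith), mul_comm]
  unfold f0
  rw [h1, h3]
  have h4 : 0 ≤ ((i : ℝ) + 2) ^ A := by positivity
  have h5 : 0 ≤ ((p : ℝ) ^ (δ - 1)) ^ (i + 1) := by positivity
  refine mul_le_mul_of_nonneg_right ?_ h5
  rw [mul_comm (4 : ℝ)]
  exact mul_le_mul_of_nonneg_left h2 h4

theorem rho_le (δ : ℝ) (hδ : δ ≤ 1 / 2) (p : ℕ) (hp : p.Prime) : (p : ℝ) ^ (δ - 1) ≤ 3 / 4 := by
  have hp2 : (2 : ℝ) ≤ p := by exact_mod_cast hp.two_le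
  have h1 : (p : ℝ) ^ (δ - 1) ≤ (p : ℝ) ^ (-(1 / 2) : ℝ) :=
    Real.rpow_le_rpow_of_exponent_le (by linarith) (by linarith)
  refine h1.trans ?_
  rw [Real.rpow_neg (by linarith), ← Real.sqrt_eq_rpow, inv_le_comm₀ (by positivity) (by norm_num)]
  apply Real.le_sqrt_of_sq_le
  norm_num
  linarith

theorem factor_le (A : ℕ) (δ : ℝ) (hδ : δ ≤ 1 / 2) (p : ℕ) (hp : p.Prime) (k : ℕ) :
    (FF A δ * (ζ : ArithmeticFunction ℝ)) (p ^ k) ≤ 1 + CA A * (p : ℝ) ^ (δ - 1) := by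
  rw [coe_mul_zeta_apply, Nat.sum_divisors_prime_pow hp, Finset.sum_range_succ']
  have h0 : FF A δ (p ^ 0) = 1 := by
    rw [pow_zero]
    exact (FF_mult A δ).1
  rw [h0, add_comm]
  refine add_le_add_right ?_ 1
  have hρ := rho_le δ hδ p hp
  have hρ0 : 0 ≤ (p : ℝ) ^ (δ - 1) := by positivity
  generalize hr : (p : ℝ) ^ (δ - 1) = ρ at hρ hρ0 ⊢
  have h1 : ∀ i ∈ range k, FF A δ (p ^ (i + 1)) ≤ 4 * ((i : ℝ) + 2) ^ A * (3 / 4 : ℝ) ^ i * ρ := by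
    intro i _
    have g1 : f0 A δ (p ^ (i + 1)) ≤ 4 * ((i : ℝ) + 2) ^ A * ρ ^ (i + 1) := by
      rw [← hr]
      exact f0_pow A δ p hp i
    have g2 : ρ ^ i ≤ (3 / 4 : ℝ) ^ i := pow_le_pow_left₀ hρ0 hρ i
    have g3 : 0 ≤ 4 * ((i : ℝ) + 2) ^ A := by positivity
    have g4 : 4 * ((i : ℝ) + 2) ^ A * ρ ^ (i + 1) = 4 * ((i : ℝ) + 2) ^ A * ρ ^ i * ρ := by
      rw [pow_succ, mul_assoc, mul_assoc, mul_assoc]
    have g5 : 4 * ((i : ℝ) + 2) ^ A * ρ ^ i * ρ ≤ 4 * ((i : ℝ) + 2) ^ A * (3 / 4 : ℝ) ^ i * ρ :=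
      mul_le_mul_of_nonneg_right (mul_le_mul_of_nonneg_left g2 g3) hρ0
    exact (g1.trans_eq g4).trans g5
  refine (Finset.sum_le_sum h1).trans ?_
  rw [← Finset.sum_mul]
  refine mul_le_mul_of_nonneg_right ?_ hρ0
  exact (CA_summable A).sum_le_tsum _ fun i _ => by positivity

theorem sum_le_exp (A : ℕ) (δ : ℝ) (hδ : δ ≤ 1 / 2) (h : ℕ) (hh : h ≠ 0) :
    ∑ g ∈ h.divisors, f0 A δ g ≤
      Real.exp (CA A * ∑ p ∈ h.primeFactors, (p : ℝ) ^ (δ - 1)) := by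
  have h1 : ∑ g ∈ h.divisors, f0 A δ g = (FF A δ * (ζ : ArithmeticFunction ℝ)) h := by
    rw [coe_mul_zeta_apply]
    rfl
  have hm : (FF A δ * (ζ : ArithmeticFunction ℝ)).IsMultiplicative :=
    (FF_mult A δ).mul isMultiplicative_zeta.natCast
  rw [h1, hm.multiplicative_factorization _ hh, Finset.mul_sum, Real.exp_sum]
  rw [Finsupp.prod, Nat.support_factorization]
  refine Finset.prod_le_prod ?_ ?_
  · intro p hp
    rw [coe_mul_zeta_apply]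
    exact Finset.sum_nonneg fun i _ => f0_nonneg A δ i
  · intro p hp
    refine (factor_le A δ hδ p (Nat.prime_of_mem_primeFactors hp) _).trans ?_
    rw [add_comm]
    exact Real.add_one_le_exp _

/-- few prime divisors are larger than `L` -/
theorem card_large (h : ℕ) (hh : h ≠ 0) (L : ℝ) (hL : Real.exp 1 ≤ L)
    (hhL : Real.log h ≤ L) :
    ((h.primeFactors.filter fun p : ℕ => L < (p : ℝ)).card : ℝ) ≤ L := by
  have hL1 : 1 ≤ Real.log L := by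
    rw [Real.le_log_iff_exp_le (lt_of_lt_of_le (Real.exp_pos 1) hL)]
    exact hL
  have hL0 : 0 < L := lt_of_lt_of_le (Real.exp_pos 1) hL
  set T := h.primeFactors.filter fun p : ℕ => L < (p : ℝ) with hT
  have h1 : L ^ T.card ≤ ((∏ p ∈ T, p : ℕ) : ℝ) := by
    push_cast
    rw [← Finset.prod_const]
    refine Finset.prod_le_prod (fun _ _ => hL0.le) fun p hp => ?_
    exact (Finset.mem_filter.1 hp).2.le
  have h2 : ∏ p ∈ T, p ∣ h :=
    (Finset.prod_dvd_prod_of_subset _ _ _ (Finset.filter_subset _ _)).trans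
      (Nat.prod_primeFactors_dvd h)
  have h3 : ((∏ p ∈ T, p : ℕ) : ℝ) ≤ h := by
    exact_mod_cast Nat.le_of_dvd (Nat.pos_of_ne_zero hh) h2
  have h4 : (T.card : ℝ) * Real.log L ≤ Real.log h := by
    rw [← Real.log_pow]
    exact Real.log_le_log (by positivity) (h1.trans h3)
  have h5 : (T.card : ℝ) ≤ T.card * Real.log L := by
    nlinarith [Nat.cast_nonneg (α := ℝ) T.card]
  linarith

theorem exp_half : Real.exp (1 / 2) ≤ 2 := by
  have h1 : Real.exp (1 / 2) ^ 2 ≤ 2 ^ 2 := by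
    rw [← Real.exp_nat_mul]
    norm_num
    linarith [Real.exp_one_lt_d9]
  exact le_of_sq_le_sq h1 (by norm_num)
where
  le_of_sq_le_sq {a b : ℝ} (h : a ^ 2 ≤ b ^ 2) (hb : 0 ≤ b) : a ≤ b := by
    nlinarith [sq_nonneg (a + b), sq_nonneg (a - b)]

/-- the logarithms are dominated by a small power -/
theorem log_pow_le (r : ℕ) (ℓ : ℝ) (hℓ : 1 ≤ ℓ) (g : ℕ) (hg : 1 ≤ g) :
    (1 + Real.log g) ^ (2 * r) ≤
      2 * ((2 * r).factorial : ℝ) * (2 * ℓ) ^ (2 * r) * (g : ℝ) ^ (1 / (2 * ℓ)) := by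
  have hg0 : (0 : ℝ) < g := by exact_mod_cast hg
  have hu : 0 ≤ Real.log g := Real.log_natCast_nonneg g
  obtain ⟨δ, hδ⟩ : ∃ δ, δ = 1 / (2 * ℓ) := ⟨_, rfl⟩
  have hδ0 : 0 < δ := by rw [hδ]; positivity
  have hδ1 : δ ≤ 1 / 2 := by
    rw [hδ, div_le_div_iff₀ (by positivity) (by norm_num)]
    linarith
  have h1 := Real.pow_div_factorial_le_exp (x := δ * (1 + Real.log g)) (by positivity) (2 * r)
  have hf : (0 : ℝ) < ((2 * r).factorial : ℝ) := by exact_mod_cast Nat.factorial_pos _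
  rw [div_le_iff₀ hf] at h1
  have h2 : Real.exp (δ * (1 + Real.log g)) ≤ 2 * (g : ℝ) ^ δ := by
    rw [mul_add, mul_one, Real.exp_add, Real.rpow_def_of_pos hg0, mul_comm (Real.log (g : ℝ))]
    refine mul_le_mul_of_nonneg_right ?_ (Real.exp_pos _).le
    exact (Real.exp_le_exp.2 hδ1).trans exp_half
  have h3 : 2 * ℓ * δ = 1 := by
    rw [hδ]
    field_simp
  have h4 : (1 + Real.log g) ^ (2 * r) =
      (2 * ℓ) ^ (2 * r) * (δ * (1 + Real.log g)) ^ (2 * r) := by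
    rw [← mul_pow, ← mul_assoc, h3, one_mul]
  rw [← hδ, h4]
  have h5 : 0 ≤ (2 * ℓ) ^ (2 * r) := by positivity
  calc (2 * ℓ) ^ (2 * r) * (δ * (1 + Real.log g)) ^ (2 * r)
      ≤ (2 * ℓ) ^ (2 * r) * (Real.exp (δ * (1 + Real.log g)) * ((2 * r).factorial : ℝ)) :=
        mul_le_mul_of_nonneg_left h1 h5
    _ ≤ (2 * ℓ) ^ (2 * r) * (2 * (g : ℝ) ^ δ * ((2 * r).factorial : ℝ)) :=
        mul_le_mul_of_nonneg_left (mul_le_mul_of_nonneg_right h2 hf.le) h5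
    _ = _ := by ring

/-- the sum over the prime divisors -/
theorem prime_sum (C : ℝ) (hC : ∀ Z : ℕ, 2 ≤ Z →
    |∑ p ∈ (Finset.Icc 1 Z).filter Nat.Prime, 1 / (p : ℝ) - Real.log (Real.log Z)| ≤ C)
    (h : ℕ) (hh : h ≠ 0) (L : ℝ) (hL : Real.exp 1 ≤ L) (hhL : Real.log h ≤ L) :
    ∑ p ∈ h.primeFactors, (p : ℝ) ^ (1 / (2 * Real.log L) - 1) ≤
      2 * Real.log (Real.log L) + 2 * C + 2 := by
  have hL0 : 0 < L := lt_of_lt_of_le (Real.exp_pos 1) hL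
  have he : (2 : ℝ) ≤ Real.exp 1 := by linarith [Real.exp_one_gt_d9]
  have hℓ : 1 ≤ Real.log L := by
    rw [Real.le_log_iff_exp_le hL0]
    exact hL
  obtain ⟨δ, hδ⟩ : ∃ δ, δ = 1 / (2 * Real.log L) := ⟨_, rfl⟩
  rw [← hδ]
  have hδ0 : 0 < δ := by rw [hδ]; positivity
  have hδ1 : δ ≤ 1 / 2 := by
    rw [hδ, div_le_div_iff₀ (by positivity) (by norm_num)]
    linarith
  have hLδ : L ^ δ ≤ 2 := by
    rw [Real.rpow_def_of_pos hL0]
    have : Real.log L * δ = 1 / 2 := by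
      rw [hδ]
      field_simp
    rw [this]
    exact exp_half
  have hp0 : ∀ p ∈ h.primeFactors, (0 : ℝ) < p := fun p hp => by
    exact_mod_cast (Nat.prime_of_mem_primeFactors hp).pos
  rw [← Finset.sum_filter_add_sum_filter_not h.primeFactors (fun p : ℕ => L < (p : ℝ))]
  have h1 : ∑ p ∈ h.primeFactors.filter (fun p : ℕ => L < (p : ℝ)), (p : ℝ) ^ (δ - 1) ≤ 2 := by
    have e1 : ∀ p ∈ h.primeFactors.filter (fun p : ℕ => L < (p : ℝ)),
        (p : ℝ) ^ (δ - 1) ≤ 2 / L := by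
      intro p hp
      have e2 : (p : ℝ) ^ (δ - 1) ≤ L ^ (δ - 1) :=
        Real.rpow_le_rpow_of_nonpos hL0 (Finset.mem_filter.1 hp).2.le (by linarith)
      refine e2.trans ?_
      rw [Real.rpow_sub hL0, Real.rpow_one]
      exact div_le_div_of_nonneg_right hLδ hL0.le
    refine (Finset.sum_le_card_nsmul _ _ _ e1).trans ?_
    rw [nsmul_eq_mul]
    have e3 := card_large h hh L hL hhL
    calc _ ≤ L * (2 / L) := mul_le_mul_of_nonneg_right e3 (by positivity)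
      _ = 2 := by field_simp
  have hZ : 2 ≤ ⌊L⌋₊ := Nat.le_floor (by push_cast; linarith)
  have hZL : ((⌊L⌋₊ : ℕ) : ℝ) ≤ L := Nat.floor_le hL0.le
  have h2 : ∑ p ∈ h.primeFactors.filter (fun p : ℕ => ¬ L < (p : ℝ)), (p : ℝ) ^ (δ - 1) ≤
      2 * (Real.log (Real.log L) + C) := by
    have e1 : ∀ p ∈ h.primeFactors.filter (fun p : ℕ => ¬ L < (p : ℝ)),
        (p : ℝ) ^ (δ - 1) ≤ 2 * (1 / (p : ℝ)) := by
      intro p hp
      obtain ⟨e2, e3⟩ := Finset.mem_filter.1 hp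
      have e4 := hp0 p e2
      rw [Real.rpow_sub e4, Real.rpow_one, mul_one_div]
      refine div_le_div_of_nonneg_right ?_ e4.le
      exact (Real.rpow_le_rpow e4.le (not_lt.1 e3) hδ0.le).trans hLδ
    refine (Finset.sum_le_sum e1).trans ?_
    rw [← Finset.mul_sum]
    refine mul_le_mul_of_nonneg_left ?_ (by norm_num)
    have e5 : h.primeFactors.filter (fun p : ℕ => ¬ L < (p : ℝ)) ⊆
        (Finset.Icc 1 ⌊L⌋₊).filter Nat.Prime := by
      intro p hp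
      obtain ⟨e2, e3⟩ := Finset.mem_filter.1 hp
      have e6 := Nat.prime_of_mem_primeFactors e2
      exact Finset.mem_filter.2 ⟨Finset.mem_Icc.2 ⟨e6.one_le, Nat.le_floor (not_lt.1 e3)⟩, e6⟩
    refine (Finset.sum_le_sum_of_subset_of_nonneg e5 fun _ _ _ => by positivity).trans ?_
    have e7 := (abs_le.1 (hC _ hZ)).2
    have e8 : 0 < Real.log ((⌊L⌋₊ : ℕ) : ℝ) := by
      refine Real.log_pos ?_
      have : (2 : ℝ) ≤ ((⌊L⌋₊ : ℕ) : ℝ) := by exact_mod_cast hZ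
      linarith
    have e9 : Real.log ((⌊L⌋₊ : ℕ) : ℝ) ≤ Real.log L := by
      refine Real.log_le_log ?_ hZL
      have : (2 : ℝ) ≤ ((⌊L⌋₊ : ℕ) : ℝ) := by exact_mod_cast hZ
      linarith
    have e10 := Real.log_le_log e8 e9
    linarith
  linarith

theorem sixteen : Real.exp 1 ≤ Real.log 16 := by
  have h1 : Real.log 16 = 4 * Real.log 2 := by
    rw [show (16 : ℝ) = 2 ^ 4 by norm_num, Real.log_pow]
    norm_num
  rw [h1]
  linarith [Real.log_two_gt_d9, Real.exp_one_lt_d9]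

end IZ2

open IZ2 in
/-- item Z2 -/
theorem prZ2 (hN1 : tsN1) : tsZ2 := by
  intro A r
  obtain ⟨C, hC0, hC, -⟩ := hN1
  obtain ⟨K, hK⟩ : ∃ K : ℝ, K = 2 * ((2 * r).factorial : ℝ) * 2 ^ (2 * r) *
    Real.exp (CA A * (2 * C + 2)) := ⟨_, rfl⟩
  have hK0 : 0 < K := by rw [hK]; positivity
  have hCA := CA_nonneg A
  refine ⟨K + (2 * r + 2 * CA A), by positivity, fun h hh => ?_⟩
  have hh0 : h ≠ 0 := by omega
  have hhr : (1 : ℝ) ≤ h := by exact_mod_cast hh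
  obtain ⟨L, hLd⟩ : ∃ L, L = Real.log ((h : ℝ) + 16) := ⟨_, rfl⟩
  have hL : Real.exp 1 ≤ L := by
    rw [hLd]
    exact sixteen.trans (Real.log_le_log (by norm_num) (by linarith))
  have hL0 : 0 < L := lt_of_lt_of_le (Real.exp_pos 1) hL
  have hhL : Real.log h ≤ L := by
    rw [hLd]
    exact Real.log_le_log (by linarith) (by linarith)
  obtain ⟨ℓ, hℓd⟩ : ∃ ℓ, ℓ = Real.log L := ⟨_, rfl⟩
  have hll : ll h = ℓ := by
    unfold ll
    rw [← hLd, hℓd]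
  have hℓ : 1 ≤ ℓ := by
    rw [hℓd, Real.le_log_iff_exp_le hL0]
    exact hL
  have hℓ0 : 0 < ℓ := by linarith
  obtain ⟨δ, hδ⟩ : ∃ δ, δ = 1 / (2 * ℓ) := ⟨_, rfl⟩
  have hδ1 : δ ≤ 1 / 2 := by
    rw [hδ, div_le_div_iff₀ (by positivity) (by norm_num)]
    linarith
  have h1 : ∑ g ∈ h.divisors, (g.divisors.card : ℝ) ^ A * ((g : ℝ) / (Nat.totient g : ℝ)) ^ 2 *
      (1 + Real.log g) ^ (2 * r) / (g : ℝ) ≤
      ∑ g ∈ h.divisors, 2 * ((2 * r).factorial : ℝ) * (2 * ℓ) ^ (2 * r) * f0 A δ g := by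
    refine Finset.sum_le_sum fun g hg => ?_
    have hg1 : 1 ≤ g := Nat.pos_of_mem_divisors hg
    have hg0 : (0 : ℝ) < g := by exact_mod_cast hg1
    have e1 := log_pow_le r ℓ hℓ g hg1
    rw [← hδ] at e1
    unfold f0
    rw [Real.rpow_sub hg0, Real.rpow_one]
    have e2 : 0 ≤ (g.divisors.card : ℝ) ^ A * ((g : ℝ) / (Nat.totient g : ℝ)) ^ 2 := by positivity
    calc _ ≤ (g.divisors.card : ℝ) ^ A * ((g : ℝ) / (Nat.totient g : ℝ)) ^ 2 *
          (2 * ((2 * r).factorial : ℝ) * (2 * ℓ) ^ (2 * r) * (g : ℝ) ^ δ) / (g : ℝ) :=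
          div_le_div_of_nonneg_right (mul_le_mul_of_nonneg_left e1 e2) hg0.le
      _ = _ := by ring
  have h2 := sum_le_exp A δ hδ1 h hh0
  have h3 := prime_sum C (fun Z hZ => (hC Z hZ).2) h hh0 L hL hhL
  rw [← hℓd, ← hδ] at h3
  have h4 : Real.exp (CA A * ∑ p ∈ h.primeFactors, (p : ℝ) ^ (δ - 1)) ≤
      Real.exp (CA A * (2 * C + 2)) * ℓ ^ (2 * CA A) := by
    rw [Real.rpow_def_of_pos hℓ0, ← Real.exp_add]
    refine Real.exp_le_exp.2 ?_
    have := mul_le_mul_of_nonneg_left h3 hCA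
    linarith
  rw [hll]
  refine h1.trans ?_
  rw [← Finset.mul_sum]
  have h5 : (0 : ℝ) ≤ 2 * ((2 * r).factorial : ℝ) * (2 * ℓ) ^ (2 * r) := by positivity
  have h6 : ℓ ^ ((2 : ℝ) * r + 2 * CA A) ≤ ℓ ^ (K + (2 * r + 2 * CA A)) :=
    Real.rpow_le_rpow_of_exponent_le hℓ (by linarith)
  have h7 : (2 * ℓ) ^ (2 * r) = 2 ^ (2 * r) * ℓ ^ ((2 : ℝ) * r) := by
    rw [mul_pow, ← Real.rpow_natCast ℓ]
    push_cast
    rfl
  calc _ ≤ 2 * ((2 * r).factorial : ℝ) * (2 * ℓ) ^ (2 * r) *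
        (Real.exp (CA A * (2 * C + 2)) * ℓ ^ (2 * CA A)) :=
        mul_le_mul_of_nonneg_left (h2.trans h4) h5
    _ = K * ℓ ^ ((2 : ℝ) * r + 2 * CA A) := by
        rw [h7, Real.rpow_add hℓ0, hK]
        ring
    _ ≤ (K + (2 * r + 2 * CA A)) * ℓ ^ (K + (2 * r + 2 * CA A)) :=
        mul_le_mul (by nlinarith [Nat.cast_nonneg (α := ℝ) r]) h6 (by positivity) (by positivity)

end Pool.Agent.Work.MP_122e00_nt.TS
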