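import Mathlib
import Pool.Agent.Work.MP_122e00_nt.TS.Stmts3

/-!
# Thin shifts: assembly from the statements
-/

namespace Pool.Agent.Work.MP_122e00_nt.TS

open Finset Filter Topology ArithmeticFunction
open scoped ArithmeticFunction.zeta ArithmeticFunction.Moebius

/-- the final theorem in the terms of this folder -/
def StFin : Prop := ∀ r : ℕ, 2 ≤ r → ∃ P : ℕ → Polynomial ℝ,
  (∀ h : ℕ, 1 ≤ h → (P h).natDegree = 2 * (r - 1) ∧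
    (P h).leadingCoeff = Csing (r - 1) h / ((r - 1).factorial : ℝ) ^ 2) ∧
  ∃ θ₀ : ℝ, 0 < θ₀ ∧ θ₀ < 1 ∧ ∀ F : Polynomial ℤ, 1 ≤ F.natDegree → 0 < F.leadingCoeff →
  ∀ θ : ℝ, θ₀ < θ → θ < 1 → ∃ (δ C : ℝ) (S : Set ℕ), 0 < δ ∧
  (∀ K : ℕ, 1 ≤ K → (Set.ncard {k : ℕ | k ∈ S ∧ 1 ≤ k ∧ k ≤ K} : ℝ) ≤ C * (K : ℝ) ^ (1 - δ)) ∧
  ∀ k : ℕ, k ∉ S → 1 ≤ F.eval (k : ℤ) ∧ ∀ X : ℝ, 1 ≤ X →
    X ^ θ₀ ≤ ((F.eval (k : ℤ) : ℤ) : ℝ) → ((F.eval (k : ℤ) : ℤ) : ℝ) ≤ X ^ θ →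
    |cor (dr r) (dr r) ⌊X⌋₊ (F.eval (k : ℤ)).toNat -
      X * (P (F.eval (k : ℤ)).toNat).eval (Real.log X)| ≤ X ^ (1 - δ)

theorem cor_mono (r h : ℕ) (x y : ℝ) (hxy : x ≤ y) :
    cor (dr r) (dr r) ⌊x⌋₊ h ≤ cor (dr r) (dr r) ⌊y⌋₊ h := by
  unfold cor
  apply Finset.sum_le_sum_of_subset_of_nonneg
  · apply Finset.Icc_subset_Icc le_rfl (Nat.floor_mono hxy)
  · intro n _ _
    unfold dr
    positivity

theorem dr_two (h : ℕ) : dr 2 h = (h.divisors.card : ℝ) := by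
  unfold dr
  rw [pow_two]
  norm_cast
  rw [ArithmeticFunction.zeta_mul_apply]
  rw [← ArithmeticFunction.sigma_zero_apply]
  have := ArithmeticFunction.zeta_mul_apply (f := ζ) (x := h)
  rw [ArithmeticFunction.sigma_zero_apply]
  rw [Finset.sum_congr rfl (fun d hd => by
    rw [ArithmeticFunction.zeta_apply_ne (Nat.pos_of_mem_divisors hd).ne'])]
  simp

theorem fin (hL0 : tsL0) (hF5 : tsF5) (hM4 : tsM4) (hE3 : tsE3) (hE5 : tsE5) (hG2 : tsG2)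
    (hG4 : tsG4) (hH2 : tsH2) (hH4 : tsH4) (hH5 : tsH5) (hH6 : tsH6) : StFin := by
  intro r hr
  have hr1 : 1 ≤ r := by omega
  obtain ⟨B, hB⟩ := hM4 r hr1
  obtain ⟨E, hE⟩ := hE3 r B hr1 hB
  have hCB := hE5 r E hr1 hE
  obtain ⟨η₂, η, X0, hη₂, hη₂', hη, hη1, hflat⟩ := hF5 r E hr1 hE hCB
  refine ⟨PH r E, fun h hh => hG4 r E hr hE hCB h hh, 1 - η / 4, by linarith, by linarith, ?_⟩
  intro F hF hFl θ' hθ0 hθ1
  obtain ⟨A, c, C, hc, hC, hA, -⟩ := hH2 F hF hFl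
  have hA' : ∀ k : ℕ, A < k → 1 ≤ F.eval (k : ℤ) := fun k hk => (hA k hk).1
  obtain ⟨δ, X1, hδ, hSM⟩ := hH4 r E η₂ η X0 hr1 hE hCB hη₂ hη₂' hη hη1 hflat F A ((1 + θ') / 2)
    hF hFl hA' (by linarith)
  obtain ⟨C2, hC2, -, hPH⟩ := hG2 r E hr1 hE.1 hCB
  have hcoef : ∀ ε : ℝ, 0 < ε → ∃ C : ℝ, ∀ h j : ℕ, 1 ≤ h →
      |(PH r E h).coeff j| ≤ C * (h : ℝ) ^ ε := by
    intro ε hε
    obtain ⟨C0, hC0, h0⟩ := hL0 2 ε hε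
    refine ⟨C2 * C0, fun h j hh => ?_⟩
    have h1 := (hPH h hh).2.1 j
    have h2 := h0 h hh
    rw [dr_two] at h2
    calc |(PH r E h).coeff j| ≤ C2 * (h.divisors.card : ℝ) := h1
      _ ≤ C2 * (C0 * (h : ℝ) ^ ε) := by gcongr
      _ = C2 * C0 * (h : ℝ) ^ ε := by ring
  have hdeg : ∀ h, (PH r E h).natDegree ≤ 2 * (r - 1) := by
    intro h
    unfold PH
    apply Polynomial.natDegree_sum_le_of_forall_le
    intro j hj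
    refine (Polynomial.natDegree_C_mul_X_pow_le _ _).trans ?_
    rw [Finset.mem_range] at hj
    omega
  obtain ⟨δ', K2, hδ', hδ1', hbad⟩ := hH5 F A (2 * (r - 1))
    (fun X h => cor (dr r) (dr r) ⌊X⌋₊ h) (PH r E) (1 - η / 2) (1 - η / 4) θ' ((1 + θ') / 2)
    hF hFl hA' (fun h x y _ hxy => cor_mono r h x y hxy) hdeg hcoef (by linarith) (by linarith)
    hθ0 (by linarith) (by linarith) ⟨δ, X1, hδ, hSM⟩
  obtain ⟨C3, hC3⟩ := hH6 {k : ℕ | A < k ∧ ¬ Gd (fun X h => cor (dr r) (dr r) ⌊X⌋₊ h) (PH r E) F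
    (1 - η / 4) θ' δ' k} δ' K2 hδ' hδ1' (fun K hK => by
      refine le_trans (le_of_eq ?_) (hbad K hK)
      congr 2
      ext k
      simp only [Set.mem_setOf_eq]
      tauto)
  refine ⟨δ', C3 + A, {k : ℕ | k ≤ A ∨ (A < k ∧ ¬ Gd (fun X h => cor (dr r) (dr r) ⌊X⌋₊ h)
    (PH r E) F (1 - η / 4) θ' δ' k)}, hδ', ?_, ?_⟩
  · intro K hK
    have h1 := hC3 K hK
    have h2 : {k : ℕ | k ∈ {k : ℕ | k ≤ A ∨ (A < k ∧ ¬ Gd (fun X h => cor (dr r) (dr r) ⌊X⌋₊ h)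
        (PH r E) F (1 - η / 4) θ' δ' k)} ∧ 1 ≤ k ∧ k ≤ K} ⊆
        {k : ℕ | k ∈ {k : ℕ | A < k ∧ ¬ Gd (fun X h => cor (dr r) (dr r) ⌊X⌋₊ h) (PH r E) F
          (1 - η / 4) θ' δ' k} ∧ 1 ≤ k ∧ k ≤ K} ∪ (Set.Icc 1 A) := by
      intro k hk
      simp only [Set.mem_setOf_eq, Set.mem_union, Set.mem_Icc] at hk ⊢
      tauto
    have hfin : ({k : ℕ | k ∈ {k : ℕ | A < k ∧ ¬ Gd (fun X h => cor (dr r) (dr r) ⌊X⌋₊ h)
        (PH r E) F (1 - η / 4) θ' δ' k} ∧ 1 ≤ k ∧ k ≤ K} ∪ (Set.Icc 1 A)).Finite := by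
      apply Set.Finite.union
      · exact (Set.finite_Icc 1 K).subset (fun k hk => ⟨hk.2.1, hk.2.2⟩)
      · exact Set.finite_Icc 1 A
    have h3 := (Set.ncard_le_ncard h2 hfin).trans (Set.ncard_union_le _ _)
    have h4 : (Set.Icc 1 A).ncard = A := by
      rw [Set.ncard_eq_toFinset_card']
      simp
    rw [h4] at h3
    have h5 : (1 : ℝ) ≤ (K : ℝ) ^ (1 - δ') := by
      apply Real.one_le_rpow
      · exact_mod_cast hK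
      · linarith
    have h6 : (A : ℝ) ≤ A * (K : ℝ) ^ (1 - δ') := le_mul_of_one_le_right (by positivity) h5
    have h7 : ((Set.ncard {k : ℕ | k ∈ {k : ℕ | k ≤ A ∨ (A < k ∧ ¬ Gd
        (fun X h => cor (dr r) (dr r) ⌊X⌋₊ h) (PH r E) F (1 - η / 4) θ' δ' k)} ∧ 1 ≤ k ∧
        k ≤ K} : ℕ) : ℝ) ≤ (Set.ncard {k : ℕ | k ∈ {k : ℕ | A < k ∧ ¬ Gd
        (fun X h => cor (dr r) (dr r) ⌊X⌋₊ h) (PH r E) F (1 - η / 4) θ' δ' k} ∧ 1 ≤ k ∧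
        k ≤ K} : ℝ) + A := by exact_mod_cast h3
    calc _ ≤ _ := h7
      _ ≤ C3 * (K : ℝ) ^ (1 - δ') + A * (K : ℝ) ^ (1 - δ') := add_le_add h1 h6
      _ = (C3 + A) * (K : ℝ) ^ (1 - δ') := by ring
  · intro k hk
    simp only [Set.mem_setOf_eq, not_or, not_and, not_not, not_le] at hk
    refine ⟨hA' k hk.1, ?_⟩
    have := hk.2 hk.1
    intro X hX h1 h2
    exact this X hX h1 h2

end Pool.Agent.Work.MP_122e00_nt.TS
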