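import Mathlib
import Pool.Agent.Work.MP_122e00_nt.TS.Stmts2

/-!
# Item D1: logarithmic sums
-/

namespace Pool.Agent.Work.MP_122e00_nt.TS

open Finset Filter Topology

namespace ID1

lemma logpow (k : ℕ) : ∃ C : ℝ, 0 < C ∧ ∀ t : ℝ, 1 ≤ t → |(Real.log t) ^ k| ≤ C * √t := by
  have hk : (0 : ℝ) < 1 / (2 * ((k : ℝ) + 1)) := by positivity
  refine ⟨(1 / (1 / (2 * ((k : ℝ) + 1)))) ^ k, by positivity, fun t ht => ?_⟩
  have ht0 : 0 ≤ t := by linarith
  have hl : 0 ≤ Real.log t := Real.log_nonneg ht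
  have h1 := Real.log_le_rpow_div ht0 hk
  rw [abs_of_nonneg (by positivity)]
  calc (Real.log t) ^ k ≤ (t ^ (1 / (2 * ((k : ℝ) + 1))) / (1 / (2 * ((k : ℝ) + 1)))) ^ k :=
        pow_le_pow_left₀ hl h1 k
    _ = (1 / (1 / (2 * ((k : ℝ) + 1)))) ^ k * (t ^ (1 / (2 * ((k : ℝ) + 1)))) ^ k := by
        rw [← mul_pow]; congr 1; ring
    _ ≤ (1 / (1 / (2 * ((k : ℝ) + 1)))) ^ k * √t := by
        apply mul_le_mul_of_nonneg_left _ (by positivity)
        rw [← Real.rpow_natCast, ← Real.rpow_mul ht0, Real.sqrt_eq_rpow]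
        apply Real.rpow_le_rpow_of_exponent_le ht
        rw [div_mul_eq_mul_div, one_mul, div_le_div_iff₀ (by positivity) (by norm_num)]
        nlinarith

/-- the function -/
noncomputable def f (j : ℕ) (t : ℝ) : ℝ := Real.log t ^ j / t

/-- its primitive -/
noncomputable def F (j : ℕ) (t : ℝ) : ℝ := Real.log t ^ (j + 1) / ((j : ℝ) + 1)

lemma f_bound (j : ℕ) : ∃ C : ℝ, 0 < C ∧ ∀ t : ℝ, 1 ≤ t → |f j t| ≤ C / √t := by
  obtain ⟨C, hC, h⟩ := logpow j
  refine ⟨C, hC, fun t ht => ?_⟩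
  have ht0 : 0 < t := by linarith
  have hs : 0 < √t := Real.sqrt_pos.mpr ht0
  have hss : √t * √t = t := Real.mul_self_sqrt ht0.le
  unfold f
  rw [abs_div, abs_of_pos ht0, div_le_div_iff₀ ht0 hs]
  have := h t ht
  calc |Real.log t ^ j| * √t ≤ (C * √t) * √t := mul_le_mul_of_nonneg_right this hs.le
    _ = C * t := by rw [mul_assoc, hss]

lemma hasDeriv (j : ℕ) (t : ℝ) (ht : 0 < t) :
    HasDerivAt (f j) ((((j : ℝ) * Real.log t ^ (j - 1) * t⁻¹) * t - Real.log t ^ j * 1) / t ^ 2) t := by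
  unfold f
  exact ((Real.hasDerivAt_log ht.ne').pow j).div (hasDerivAt_id t) ht.ne'

lemma hasDerivF (j : ℕ) (t : ℝ) (ht : 0 < t) : HasDerivAt (F j) (f j t) t := by
  unfold F f
  have h := ((Real.hasDerivAt_log ht.ne').pow (j + 1)).div_const ((j : ℝ) + 1)
  have h0 : ((j : ℝ) + 1) ≠ 0 := by positivity
  have e : ((j + 1 : ℕ) : ℝ) * Real.log t ^ (j + 1 - 1) * t⁻¹ / ((j : ℝ) + 1) = Real.log t ^ j / t := by
    rw [Nat.add_sub_cancel]
    push_cast
    field_simp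
  rw [← e]
  exact h

lemma deriv_bound (j : ℕ) : ∃ C : ℝ, 0 < C ∧ ∀ t : ℝ, 1 ≤ t →
    |(((j : ℝ) * Real.log t ^ (j - 1) * t⁻¹) * t - Real.log t ^ j * 1) / t ^ 2| ≤ C / (√t) ^ 3 := by
  obtain ⟨C₁, hC₁, h₁⟩ := logpow (j - 1)
  obtain ⟨C₂, hC₂, h₂⟩ := logpow j
  refine ⟨(j : ℝ) * C₁ + C₂, by positivity, fun t ht => ?_⟩
  have ht0 : 0 < t := by linarith
  have hs : 0 < √t := Real.sqrt_pos.mpr ht0
  have hss : √t * √t = t := Real.mul_self_sqrt ht0.le
  have e : ((j : ℝ) * Real.log t ^ (j - 1) * t⁻¹) * t - Real.log t ^ j * 1 =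
      (j : ℝ) * Real.log t ^ (j - 1) - Real.log t ^ j := by
    field_simp
  rw [e, abs_div, abs_of_pos (pow_pos ht0 2), div_le_div_iff₀ (by positivity) (by positivity)]
  have h3 : |(j : ℝ) * Real.log t ^ (j - 1) - Real.log t ^ j| ≤ ((j : ℝ) * C₁ + C₂) * √t := by
    calc |(j : ℝ) * Real.log t ^ (j - 1) - Real.log t ^ j|
        ≤ |(j : ℝ) * Real.log t ^ (j - 1)| + |Real.log t ^ j| := abs_sub _ _
      _ ≤ (j : ℝ) * (C₁ * √t) + C₂ * √t := by
          rw [abs_mul, Nat.abs_cast]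
          exact add_le_add (mul_le_mul_of_nonneg_left (h₁ t ht) (Nat.cast_nonneg j)) (h₂ t ht)
      _ = ((j : ℝ) * C₁ + C₂) * √t := by ring
  calc |(j : ℝ) * Real.log t ^ (j - 1) - Real.log t ^ j| * √t ^ 3
      ≤ (((j : ℝ) * C₁ + C₂) * √t) * √t ^ 3 := mul_le_mul_of_nonneg_right h3 (by positivity)
    _ = ((j : ℝ) * C₁ + C₂) * ((√t * √t) * (√t * √t)) := by ring
    _ = ((j : ℝ) * C₁ + C₂) * t ^ 2 := by rw [hss]; ring

lemma tele (n : ℕ) (hn : 1 ≤ n) :
    1 / (√(n : ℝ)) ^ 3 ≤ 4 * (1 / √(n : ℝ) - 1 / √((n + 1 : ℕ) : ℝ)) := by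
  have hn' : (1 : ℝ) ≤ n := by exact_mod_cast hn
  set a := √(n : ℝ) with ha
  set b := √((n + 1 : ℕ) : ℝ) with hb
  have ha2 : a * a = n := Real.mul_self_sqrt (by positivity)
  have hb2 : b * b = n + 1 := by
    rw [hb, Real.mul_self_sqrt (by positivity)]; push_cast; ring
  have ha0 : 0 < a := Real.sqrt_pos.mpr (by linarith)
  have hb0 : 0 < b := Real.sqrt_pos.mpr (by positivity)
  have hab : b ≤ 3 / 2 * a := by
    by_contra hcon
    push Not at hcon
    nlinarith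
  have e : 1 / a - 1 / b = 1 / (a * b * (a + b)) := by
    have h1 : (b - a) * (b + a) = 1 := by nlinarith
    have h2 : a + b ≠ 0 := by positivity
    field_simp
    linarith
  rw [e, mul_one_div, div_le_div_iff₀ (by positivity) (by positivity)]
  have h4 : b * (a + b) ≤ 4 * (a * a) := by nlinarith
  nlinarith [mul_le_mul_of_nonneg_left h4 ha0.le]

end ID1

open ID1 in
theorem prD1 : tsD1 := by
  intro j
  obtain ⟨C₁, hC₁, h₁⟩ := f_bound j
  obtain ⟨C₂, hC₂, h₂⟩ := deriv_bound j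
  -- the sequence
  set a : ℕ → ℝ := fun n => ∑ m ∈ Finset.Icc 1 n, f j m - F j n with ha
  have mvF : ∀ x y : ℝ, 1 ≤ x → x < y → ∃ c ∈ Set.Ioo x y, F j y - F j x = f j c * (y - x) := by
    intro x y hx hxy
    obtain ⟨c, hc, h⟩ := exists_hasDerivAt_eq_slope (F j) (f j) hxy
      (fun t ht => (hasDerivF j t (by linarith [ht.1])).continuousAt.continuousWithinAt)
      (fun t ht => hasDerivF j t (by linarith [ht.1]))
    refine ⟨c, hc, ?_⟩
    rw [h, div_mul_cancel₀]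
    linarith
  have step : ∀ n : ℕ, 1 ≤ n → |a (n + 1) - a n| ≤ 4 * C₂ * (1 / √(n : ℝ) - 1 / √((n + 1 : ℕ) : ℝ)) := by
    intro n hn
    have hn' : (1 : ℝ) ≤ n := by exact_mod_cast hn
    obtain ⟨c, hc, h⟩ := mvF n ((n + 1 : ℕ) : ℝ) hn' (by push_cast; linarith)
    have e : a (n + 1) - a n = f j ((n + 1 : ℕ) : ℝ) - f j c := by
      simp only [ha]
      rw [Finset.sum_Icc_succ_top (by omega)]
      have e2 : (((n + 1 : ℕ) : ℝ) - (n : ℝ)) = 1 := by push_cast; ring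
      rw [e2, mul_one] at h
      linarith
    rw [e]
    obtain ⟨d, hd, hd2⟩ := exists_hasDerivAt_eq_slope (f j) _ hc.2
      (fun t ht => (hasDeriv j t (by linarith [ht.1, hc.1])).continuousAt.continuousWithinAt)
      (fun t ht => hasDeriv j t (by linarith [ht.1, hc.1]))
    have hcn : (0 : ℝ) < ((n + 1 : ℕ) : ℝ) - c := by linarith [hc.2]
    have hcn1 : ((n + 1 : ℕ) : ℝ) - c ≤ 1 := by
      have := hc.1; push_cast; linarith
    have hd3 : f j ((n + 1 : ℕ) : ℝ) - f j c = (((j : ℝ) * Real.log d ^ (j - 1) * d⁻¹) * d -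
        Real.log d ^ j * 1) / d ^ 2 * (((n + 1 : ℕ) : ℝ) - c) := by
      rw [hd2, div_mul_cancel₀ _ hcn.ne']
    rw [hd3, abs_mul, abs_of_pos hcn]
    have hdn : (n : ℝ) ≤ d := by linarith [hd.1, hc.1]
    have h5 := h₂ d (by linarith)
    have h6 : C₂ / √d ^ 3 ≤ C₂ / √(n : ℝ) ^ 3 := by
      apply div_le_div_of_nonneg_left hC₂.le
      · exact pow_pos (Real.sqrt_pos.mpr (by linarith)) 3
      · exact pow_le_pow_left₀ (Real.sqrt_nonneg _) (Real.sqrt_le_sqrt hdn) 3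
    have h7 := tele n hn
    calc _ ≤ (C₂ / √d ^ 3) * 1 := mul_le_mul h5 hcn1 hcn.le (by positivity)
      _ ≤ C₂ * (1 / √(n : ℝ) ^ 3) := by rw [mul_one, mul_one_div]; exact h6
      _ ≤ C₂ * (4 * (1 / √(n : ℝ) - 1 / √((n + 1 : ℕ) : ℝ))) := mul_le_mul_of_nonneg_left h7 hC₂.le
      _ = _ := by ring
  have tel : ∀ n : ℕ, 1 ≤ n → ∀ k : ℕ, |a (n + k) - a n| ≤
      4 * C₂ * (1 / √(n : ℝ) - 1 / √((n + k : ℕ) : ℝ)) := by
    intro n hn k
    induction k with
    | zero => simp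
    | succ k ih =>
      have h1 := step (n + k) (by omega)
      have h2 : |a (n + (k + 1)) - a n| ≤ |a (n + k + 1) - a (n + k)| + |a (n + k) - a n| := by
        have := abs_add_le (a (n + k + 1) - a (n + k)) (a (n + k) - a n)
        rw [sub_add_sub_cancel] at this
        exact this
      rw [show ((n + (k + 1) : ℕ) : ℝ) = ((n + k + 1 : ℕ) : ℝ) by push_cast; ring]
      linarith
  have tel' : ∀ n m : ℕ, 1 ≤ n → n ≤ m → |a m - a n| ≤ 4 * C₂ * (1 / √(n : ℝ)) := by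
    intro n m hn hnm
    obtain ⟨k, rfl⟩ := Nat.exists_eq_add_of_le hnm
    refine (tel n hn k).trans ?_
    apply mul_le_mul_of_nonneg_left _ (by positivity)
    have : 0 ≤ 1 / √((n + k : ℕ) : ℝ) := by positivity
    linarith
  have hto : Tendsto (fun n : ℕ => 1 / √((n + 1 : ℕ) : ℝ)) atTop (𝓝 0) := by
    have h1 : Tendsto (fun n : ℕ => √((n + 1 : ℕ) : ℝ)) atTop atTop :=
      Real.tendsto_sqrt_atTop.comp (tendsto_natCast_atTop_atTop.comp (tendsto_add_atTop_nat 1))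
    simp only [one_div]
    exact tendsto_inv_atTop_zero.comp h1
  have hcau : CauchySeq (fun n : ℕ => a (n + 1)) := by
    apply cauchySeq_of_le_tendsto_0 (fun N : ℕ => 8 * C₂ * (1 / √((N + 1 : ℕ) : ℝ)))
    · intro n m N hn hm
      rw [Real.dist_eq]
      have h1 := tel' (N + 1) (n + 1) (by omega) (by omega)
      have h2 := tel' (N + 1) (m + 1) (by omega) (by omega)
      have h3 : |a (n + 1) - a (m + 1)| ≤ |a (n + 1) - a (N + 1)| + |a (m + 1) - a (N + 1)| := by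
        have := abs_sub (a (n + 1) - a (N + 1)) (a (m + 1) - a (N + 1))
        rw [sub_sub_sub_cancel_right] at this
        exact this
      linarith
    · simpa using hto.const_mul (8 * C₂)
  obtain ⟨γ, hγ⟩ := cauchySeq_tendsto_of_complete hcau
  have hlim : ∀ n : ℕ, 1 ≤ n → |a n - γ| ≤ 4 * C₂ * (1 / √(n : ℝ)) := by
    intro n hn
    have h1 : Tendsto (fun m : ℕ => |a n - a (m + 1)|) atTop (𝓝 |a n - γ|) :=
      ((tendsto_const_nhds).sub hγ).abs
    refine le_of_tendsto h1 ?_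
    filter_upwards [eventually_ge_atTop n] with m hm
    rw [abs_sub_comm]
    exact tel' n (m + 1) hn (by omega)
  refine ⟨γ, 2 * (4 * C₂ + C₁), by positivity, fun z hz => ?_⟩
  have hz0 : 0 < z := by linarith
  have hn : 1 ≤ ⌊z⌋₊ := Nat.le_floor (by exact_mod_cast hz)
  set n := ⌊z⌋₊ with hnn
  have hn' : (1 : ℝ) ≤ n := by exact_mod_cast hn
  have hnz : (n : ℝ) ≤ z := Nat.floor_le hz0.le
  have hzn : z < n + 1 := Nat.lt_floor_add_one z
  have hFz : |F j z - F j n| ≤ C₁ / √(n : ℝ) := by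
    rcases eq_or_lt_of_le hnz with h | h
    · rw [← h, sub_self, abs_zero]; positivity
    · obtain ⟨c, hc, hc2⟩ := mvF n z hn' h
      rw [hc2, abs_mul, abs_of_pos (sub_pos.mpr h)]
      have h1 := h₁ c (by linarith [hc.1])
      have h2 : C₁ / √c ≤ C₁ / √(n : ℝ) := by
        apply div_le_div_of_nonneg_left hC₁.le
        · exact Real.sqrt_pos.mpr (by linarith)
        · exact Real.sqrt_le_sqrt hc.1.le
      calc |f j c| * (z - n) ≤ (C₁ / √c) * 1 :=
            mul_le_mul h1 (by linarith) (by linarith) (by positivity)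
        _ ≤ C₁ / √(n : ℝ) := by rw [mul_one]; exact h2
  have hsn : 1 / √(n : ℝ) ≤ 2 * z ^ (-(1 / 2) : ℝ) := by
    rw [Real.rpow_neg hz0.le, ← Real.sqrt_eq_rpow, ← div_eq_mul_inv,
      div_le_div_iff₀ (Real.sqrt_pos.mpr (by linarith)) (Real.sqrt_pos.mpr hz0), one_mul]
    have h4 : √z ≤ √(4 * (n : ℝ)) := Real.sqrt_le_sqrt (by linarith)
    have h5 : √(4 * (n : ℝ)) = 2 * √(n : ℝ) := by
      rw [Real.sqrt_mul (by norm_num), show (4 : ℝ) = 2 ^ 2 by norm_num, Real.sqrt_sq (by norm_num)]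
    linarith
  have hmain := hlim n hn
  have e : ∑ m ∈ Finset.Icc 1 n, (Real.log m) ^ j / m - (Real.log z) ^ (j + 1) / (j + 1) - γ =
      (a n - γ) - (F j z - F j n) := by
    simp only [ha, f, F]
    ring
  rw [e]
  calc |(a n - γ) - (F j z - F j n)| ≤ |a n - γ| + |F j z - F j n| := abs_sub _ _
    _ ≤ 4 * C₂ * (1 / √(n : ℝ)) + C₁ * (1 / √(n : ℝ)) := by
        rw [mul_one_div C₁]
        exact add_le_add hmain hFz
    _ = (4 * C₂ + C₁) * (1 / √(n : ℝ)) := by ring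
    _ ≤ (4 * C₂ + C₁) * (2 * z ^ (-(1 / 2) : ℝ)) := mul_le_mul_of_nonneg_left hsn (by positivity)
    _ = _ := by ring

end Pool.Agent.Work.MP_122e00_nt.TS
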