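import Pool.Agent.Work.MP_122e00_nt.TS.Stmts2

/-!
# Item D3 of the block TS: the hyperbola method
-/

namespace Pool.Agent.Work.MP_122e00_nt.TS

open Finset Filter Topology ArithmeticFunction
open scoped ArithmeticFunction.zeta ArithmeticFunction.Moebius

namespace ID3

/-- The hyperbola method for natural numbers. -/
lemma hyp_nat (f : ℕ → ℝ) (N s : ℕ) (hs : s * s ≤ N) (hs' : N < (s + 1) * (s + 1)) :
    ∑ m ∈ Finset.Icc 1 N, ∑ l ∈ Finset.Icc 1 (N / m), f l =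
      ∑ m ∈ Finset.Icc 1 s, ∑ l ∈ Finset.Icc 1 (N / m), f l +
        ∑ l ∈ Finset.Icc 1 s, f l * (((N / l : ℕ) : ℝ) - (s : ℝ)) := by
  have hsN : s ≤ N := le_trans (Nat.le_mul_self s) hs
  have hsplit : Finset.Icc 1 N = Finset.Icc 1 s ∪ Finset.Ioc s N := by
    ext m
    simp only [Finset.mem_union, Finset.mem_Icc, Finset.mem_Ioc]
    omega
  have hdisj : Disjoint (Finset.Icc 1 s) (Finset.Ioc s N) := by
    rw [Finset.disjoint_left]
    intro m hm hm'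
    simp only [Finset.mem_Icc, Finset.mem_Ioc] at hm hm'
    omega
  rw [hsplit, Finset.sum_union hdisj]
  congr 1
  have hcomm : ∑ m ∈ Finset.Ioc s N, ∑ l ∈ Finset.Icc 1 (N / m), f l =
      ∑ l ∈ Finset.Icc 1 s, ∑ _m ∈ Finset.Ioc s (N / l), f l := by
    apply Finset.sum_comm'
    intro m l
    simp only [Finset.mem_Icc, Finset.mem_Ioc]
    constructor
    · rintro ⟨⟨h1, h2⟩, h3, h4⟩
      have hm : 0 < m := by omega
      have h5 : l * m ≤ N := (Nat.le_div_iff_mul_le hm).mp h4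
      refine ⟨⟨h1, (Nat.le_div_iff_mul_le (by omega)).mpr (by rw [mul_comm]; exact h5)⟩, h3, ?_⟩
      by_contra hc
      have : (s + 1) * (s + 1) ≤ l * m := Nat.mul_le_mul (by omega) (by omega)
      omega
    · rintro ⟨⟨h1, h2⟩, h3, h4⟩
      have h5 : m * l ≤ N := (Nat.le_div_iff_mul_le (by omega)).mp h2
      refine ⟨⟨h1, le_trans (Nat.le_mul_of_pos_right m (by omega)) h5⟩, h3,
        (Nat.le_div_iff_mul_le (by omega)).mpr (by rw [mul_comm]; exact h5)⟩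
  rw [hcomm]
  apply Finset.sum_congr rfl
  intro l hl
  simp only [Finset.mem_Icc] at hl
  have hle : s ≤ N / l :=
    (Nat.le_div_iff_mul_le (by omega)).mpr (le_trans (Nat.mul_le_mul_left s hl.2) hs)
  rw [Finset.sum_const, Nat.card_Ioc, nsmul_eq_mul, Nat.cast_sub hle, mul_comm]

/-- The integer part of the square root. -/
lemma floor_sqrt (x : ℝ) (hx : 1 ≤ x) :
    ⌊Real.sqrt x⌋₊ * ⌊Real.sqrt x⌋₊ ≤ ⌊x⌋₊ ∧
      ⌊x⌋₊ < (⌊Real.sqrt x⌋₊ + 1) * (⌊Real.sqrt x⌋₊ + 1) := by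
  have hx0 : 0 ≤ x := by linarith
  have hs0 : 0 ≤ Real.sqrt x := Real.sqrt_nonneg x
  have hss : Real.sqrt x * Real.sqrt x = x := Real.mul_self_sqrt hx0
  have h1 : (⌊Real.sqrt x⌋₊ : ℝ) ≤ Real.sqrt x := Nat.floor_le hs0
  have h2 : Real.sqrt x < (⌊Real.sqrt x⌋₊ : ℝ) + 1 := Nat.lt_floor_add_one _
  constructor
  · apply Nat.le_floor
    push_cast
    calc (⌊Real.sqrt x⌋₊ : ℝ) * (⌊Real.sqrt x⌋₊ : ℝ) ≤ Real.sqrt x * Real.sqrt x :=
          mul_le_mul h1 h1 (Nat.cast_nonneg _) hs0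
      _ = x := hss
  · rw [Nat.floor_lt hx0]
    push_cast
    calc x = Real.sqrt x * Real.sqrt x := hss.symm
      _ < ((⌊Real.sqrt x⌋₊ : ℝ) + 1) * ((⌊Real.sqrt x⌋₊ : ℝ) + 1) :=
          mul_self_lt_mul_self hs0 h2

end ID3

/-- D3: the hyperbola method. -/
theorem prD3 : tsD3 := by
  intro f x hx
  obtain ⟨h1, h2⟩ := ID3.floor_sqrt x hx
  have key := ID3.hyp_nat (fun l => f l) ⌊x⌋₊ ⌊Real.sqrt x⌋₊ h1 h2
  simp only [Nat.floor_div_natCast]
  rw [← key]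
  have hI : Finset.Icc 1 ⌊x⌋₊ = Finset.Ioc 0 ⌊x⌋₊ := by
    ext m
    simp only [Finset.mem_Icc, Finset.mem_Ioc]
    omega
  have h3 := ArithmeticFunction.sum_Ioc_mul_eq_sum_sum (ζ : ArithmeticFunction ℝ) f ⌊x⌋₊
  rw [hI, h3]
  apply Finset.sum_congr rfl
  intro n hn
  have hn0 : n ≠ 0 := by
    have := (Finset.mem_Ioc.mp hn).1
    omega
  have hJ : Finset.Icc 1 (⌊x⌋₊ / n) = Finset.Ioc 0 (⌊x⌋₊ / n) := by
    ext m
    simp only [Finset.mem_Icc, Finset.mem_Ioc]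
    omega
  rw [hJ, ArithmeticFunction.natCoe_apply, ArithmeticFunction.zeta_apply_ne hn0]
  simp

end Pool.Agent.Work.MP_122e00_nt.TS
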