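import Mathlib
import Pool.Agent.Work.MP_122e00_nt.TS.Stmts2

/-!
# Thin shifts, item D4 (helper15): partial summation
-/

namespace Pool.Agent.Work.MP_122e00_nt.TS

open Finset Filter Topology ArithmeticFunction
open scoped ArithmeticFunction.zeta ArithmeticFunction.Moebius

namespace ID4

/-- `f` with the value `0` at `0` -/
noncomputable def cc (f : ℕ → ℝ) (k : ℕ) : ℝ := if k = 0 then 0 else f k

theorem sum_cc (f : ℕ → ℝ) (n : ℕ) : ∑ k ∈ Finset.Icc 0 n, cc f k = ∑ k ∈ Finset.Icc 1 n, f k := by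
  have h1 : ∑ k ∈ Finset.Icc 1 n, f k = ∑ k ∈ Finset.Icc 1 n, cc f k := by
    refine Finset.sum_congr rfl fun k hk => ?_
    rw [cc, if_neg (by have := (Finset.mem_Icc.1 hk).1; omega)]
  rw [h1]
  symm
  refine Finset.sum_subset (Finset.Icc_subset_Icc_left (by omega)) fun k hk hk' => ?_
  have : k = 0 := by
    by_contra h
    exact hk' (Finset.mem_Icc.2 ⟨by omega, (Finset.mem_Icc.1 hk).2⟩)
  rw [cc, if_pos this]

/-- the difference of the two sides without the constant -/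
noncomputable def H (f : ℕ → ℝ) (P : Polynomial ℝ) (z : ℝ) : ℝ :=
  ∑ l ∈ Finset.Icc 1 ⌊z⌋₊, f l / l -
    (P.eval (Real.log z) + ∫ u in (0 : ℝ)..Real.log z, P.eval u)

theorem sub_integral (P : Polynomial ℝ) {z w : ℝ} (hz : 1 ≤ z) (hzw : z ≤ w) :
    (∫ u in (0 : ℝ)..Real.log w, P.eval u) - (∫ u in (0 : ℝ)..Real.log z, P.eval u) =
      ∫ t in z..w, P.eval (Real.log t) * t⁻¹ := by
  have hc : Continuous fun u : ℝ => P.eval u := P.continuous
  rw [intervalIntegral.integral_interval_sub_left (hc.intervalIntegrable _ _)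
    (hc.intervalIntegrable _ _)]
  have hpos : ∀ x ∈ Set.uIcc z w, 0 < x := by
    intro x hx
    rw [Set.uIcc_of_le hzw] at hx
    linarith [hx.1]
  have h := intervalIntegral.integral_comp_mul_deriv (a := z) (b := w) (f := Real.log)
    (f' := fun x => x⁻¹) (g := fun u : ℝ => P.eval u)
    (fun x hx => Real.hasDerivAt_log (hpos x hx).ne')
    (continuousOn_id.inv₀ fun x hx => (hpos x hx).ne') hc
  rw [← h]
  rfl

theorem key (f : ℕ → ℝ) (P : Polynomial ℝ) (c C : ℝ) (hc : 0 < c) (h : PS f P c C) {z w : ℝ}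
    (hz : 1 ≤ z) (hzw : z ≤ w) : |H f P w - H f P z| ≤ C * (2 + 1 / c) * z ^ (-c) := by
  have hw : 1 ≤ w := hz.trans hzw
  have hz0 : 0 < z := by linarith
  have hw0 : 0 < w := by linarith
  have hC : 0 ≤ C := by
    have h1 := h 1 le_rfl
    rw [Real.one_rpow, mul_one] at h1
    exact (abs_nonneg _).trans h1
  set E : ℝ → ℝ := fun t => ∑ n ∈ Finset.Icc 1 ⌊t⌋₊, f n - t * P.eval (Real.log t) with hE
  have hEb : ∀ t : ℝ, 1 ≤ t → |E t| ≤ C * t ^ (1 - c) := fun t ht => h t ht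
  have hEz : |z⁻¹ * E z| ≤ C * z ^ (-c) := by
    rw [abs_mul, abs_of_pos (inv_pos.2 hz0)]
    have h1 := mul_le_mul_of_nonneg_left (hEb z hz) (inv_pos.2 hz0).le
    have h2 : z⁻¹ * (C * z ^ (1 - c)) = C * z ^ (-c) := by
      rw [← Real.rpow_neg_one, mul_left_comm, ← Real.rpow_add hz0]
      congr 2
      ring
    rwa [h2] at h1
  have hEw : |w⁻¹ * E w| ≤ C * z ^ (-c) := by
    rw [abs_mul, abs_of_pos (inv_pos.2 hw0)]
    have h1 := mul_le_mul_of_nonneg_left (hEb w hw) (inv_pos.2 hw0).le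
    have h2 : w⁻¹ * (C * w ^ (1 - c)) = C * w ^ (-c) := by
      rw [← Real.rpow_neg_one, mul_left_comm, ← Real.rpow_add hw0]
      congr 2
      ring
    rw [h2] at h1
    refine h1.trans (mul_le_mul_of_nonneg_left ?_ hC)
    exact Real.rpow_le_rpow_of_nonpos hz0 hzw (by linarith)
  -- the difference of the sums
  have hsum : ∑ l ∈ Finset.Icc 1 ⌊w⌋₊, f l / l - ∑ l ∈ Finset.Icc 1 ⌊z⌋₊, f l / l =
      ∑ l ∈ Finset.Ioc ⌊z⌋₊ ⌊w⌋₊, (l : ℝ)⁻¹ * cc f l := by
    have h1 : Finset.Icc 1 ⌊w⌋₊ = Finset.Icc 1 ⌊z⌋₊ ∪ Finset.Ioc ⌊z⌋₊ ⌊w⌋₊ := by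
      ext l
      have h2 : 1 ≤ ⌊z⌋₊ := (Nat.one_le_floor_iff _).2 hz
      have h3 : ⌊z⌋₊ ≤ ⌊w⌋₊ := Nat.floor_le_floor hzw
      simp only [Finset.mem_Icc, Finset.mem_union, Finset.mem_Ioc]
      omega
    have h4 : Disjoint (Finset.Icc 1 ⌊z⌋₊) (Finset.Ioc ⌊z⌋₊ ⌊w⌋₊) := by
      rw [Finset.disjoint_left]
      intro l hl hl'
      simp only [Finset.mem_Icc, Finset.mem_Ioc] at hl hl'
      omega
    rw [h1, Finset.sum_union h4, add_sub_cancel_left]
    refine Finset.sum_congr rfl fun l hl => ?_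
    rw [cc, if_neg (by have := (Finset.mem_Ioc.1 hl).1; omega), div_eq_mul_inv, mul_comm]
  have hne : ∀ t ∈ Set.Icc z w, t ≠ 0 := fun t ht => by linarith [ht.1]
  have hderiv : deriv (fun t : ℝ => t⁻¹) = fun t : ℝ => -(t ^ 2)⁻¹ := by
    funext t
    exact deriv_inv
  have hint : MeasureTheory.IntegrableOn (deriv fun t : ℝ => t⁻¹) (Set.Icc z w) := by
    rw [hderiv]
    refine ContinuousOn.integrableOn_Icc ?_
    exact ((continuousOn_id.pow 2).inv₀ fun t ht => pow_ne_zero 2 (hne t ht)).neg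
  have habel := sum_mul_eq_sub_sub_integral_mul (cc f) (f := fun t : ℝ => t⁻¹) hz0.le hzw
    (fun t ht => differentiableAt_inv (hne t ht)) hint
  have hint2 := integrableOn_mul_sum_Icc (cc f) (m := 0) hz0.le hint
  rw [hderiv] at habel hint2
  simp only [sum_cc] at habel hint2
  rw [← intervalIntegral.integral_of_le hzw] at habel
  have hI1 : IntervalIntegrable (fun t => -(t ^ 2)⁻¹ * ∑ k ∈ Finset.Icc 1 ⌊t⌋₊, f k)
      MeasureTheory.volume z w := by
    rw [intervalIntegrable_iff_integrableOn_Icc_of_le hzw]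
    exact hint2
  have hI2 : IntervalIntegrable (fun t => P.eval (Real.log t) * t⁻¹)
      MeasureTheory.volume z w := by
    refine ContinuousOn.intervalIntegrable ?_
    rw [Set.uIcc_of_le hzw]
    exact (P.continuous.comp_continuousOn (Real.continuousOn_log.mono fun t ht => hne t ht)).mul
      (continuousOn_id.inv₀ hne)
  have hcomb : H f P w - H f P z = w⁻¹ * E w - z⁻¹ * E z - ∫ t in z..w,
      (-(t ^ 2)⁻¹ * ∑ k ∈ Finset.Icc 1 ⌊t⌋₊, f k + P.eval (Real.log t) * t⁻¹) := by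
    rw [intervalIntegral.integral_add hI1 hI2, ← sub_integral P hz hzw]
    have h1 : w⁻¹ * E w = w⁻¹ * ∑ n ∈ Finset.Icc 1 ⌊w⌋₊, f n - P.eval (Real.log w) := by
      rw [hE]
      simp only
      rw [mul_sub, ← mul_assoc, inv_mul_cancel₀ hw0.ne', one_mul]
    have h2 : z⁻¹ * E z = z⁻¹ * ∑ n ∈ Finset.Icc 1 ⌊z⌋₊, f n - P.eval (Real.log z) := by
      rw [hE]
      simp only
      rw [mul_sub, ← mul_assoc, inv_mul_cancel₀ hz0.ne', one_mul]
    rw [h1, h2, H, H]
    have h3 := hsum.trans habel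
    linarith
  have hbd : |∫ t in z..w, (-(t ^ 2)⁻¹ * ∑ k ∈ Finset.Icc 1 ⌊t⌋₊, f k +
      P.eval (Real.log t) * t⁻¹)| ≤ C * (1 / c) * z ^ (-c) := by
    have h0 : (0 : ℝ) ∉ Set.uIcc z w := by
      rw [Set.uIcc_of_le hzw]
      exact fun h => by linarith [h.1]
    have h1 : IntervalIntegrable (fun t : ℝ => C * t ^ (-1 - c)) MeasureTheory.volume z w := by
      refine ContinuousOn.intervalIntegrable ?_
      rw [Set.uIcc_of_le hzw]
      exact continuousOn_const.mul (continuousOn_id.rpow_const fun t ht => Or.inl (hne t ht))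
    have h2 := intervalIntegral.norm_integral_le_of_norm_le hzw
      (f := fun t => -(t ^ 2)⁻¹ * ∑ k ∈ Finset.Icc 1 ⌊t⌋₊, f k + P.eval (Real.log t) * t⁻¹)
      (g := fun t : ℝ => C * t ^ (-1 - c)) ?_ h1
    · rw [Real.norm_eq_abs] at h2
      refine h2.trans ?_
      rw [intervalIntegral.integral_const_mul, integral_rpow (Or.inr ⟨by linarith, h0⟩)]
      have e1 : -1 - c + 1 = -c := by ring
      rw [e1, mul_assoc]
      refine mul_le_mul_of_nonneg_left ?_ hC
      rw [div_neg, ← neg_div, neg_sub, one_div, inv_mul_eq_div]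
      refine div_le_div_of_nonneg_right ?_ hc.le
      have : 0 ≤ w ^ (-c) := by positivity
      linarith
    · refine Filter.Eventually.of_forall fun t ht => ?_
      have ht1 : 1 ≤ t := hz.trans ht.1.le
      have ht0 : 0 < t := by linarith
      have e1 : -(t ^ 2)⁻¹ * ∑ k ∈ Finset.Icc 1 ⌊t⌋₊, f k + P.eval (Real.log t) * t⁻¹ =
          -((t ^ 2)⁻¹ * E t) := by
        rw [hE]
        simp only
        field_simp
        ring
      rw [e1, norm_neg, norm_mul, Real.norm_of_nonneg (by positivity), Real.norm_eq_abs]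
      have h3 := mul_le_mul_of_nonneg_left (hEb t ht1) (show 0 ≤ (t ^ 2)⁻¹ by positivity)
      refine h3.trans (le_of_eq ?_)
      have e2 : (t ^ 2)⁻¹ = t ^ (-2 : ℝ) := by
        rw [Real.rpow_neg ht0.le]
        norm_num
      rw [e2, mul_left_comm, ← Real.rpow_add ht0]
      congr 2
      ring
  rw [hcomb]
  have h4 := abs_sub (w⁻¹ * E w - z⁻¹ * E z) (∫ t in z..w,
      (-(t ^ 2)⁻¹ * ∑ k ∈ Finset.Icc 1 ⌊t⌋₊, f k + P.eval (Real.log t) * t⁻¹))
  have h5 := abs_sub (w⁻¹ * E w) (z⁻¹ * E z)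
  have h6 : C * (2 + 1 / c) * z ^ (-c) = C * z ^ (-c) + C * z ^ (-c) + C * (1 / c) * z ^ (-c) := by
    ring
  rw [h6]
  linarith

end ID4

theorem prD4 : tsD4 := by
  intro f P c C hc h
  set K : ℝ := C * (2 + 1 / c) with hK
  have hkey : ∀ z w : ℝ, 1 ≤ z → z ≤ w → |ID4.H f P w - ID4.H f P z| ≤ K * z ^ (-c) :=
    fun z w hz hzw => ID4.key f P c C hc h hz hzw
  have hC : 0 ≤ C := by
    have h1 := h 1 le_rfl
    rw [Real.one_rpow, mul_one] at h1
    exact (abs_nonneg _).trans h1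
  have hK0 : 0 ≤ K := by positivity
  set u : ℕ → ℝ := fun n => ID4.H f P ((n : ℝ) + 1) with hu
  have hcau : CauchySeq u := by
    refine cauchySeq_of_le_tendsto_0 (fun n : ℕ => K * ((n : ℝ) + 1) ^ (-c)) ?_ ?_
    · have hstep : ∀ n m N : ℕ, N ≤ n → n ≤ m → dist (u n) (u m) ≤ K * ((N : ℝ) + 1) ^ (-c) := by
        intro n m N hN hnm
        have hN' : (N : ℝ) ≤ n := by exact_mod_cast hN
        have hnm' : (n : ℝ) ≤ m := by exact_mod_cast hnm
        have h1 := hkey ((n : ℝ) + 1) ((m : ℝ) + 1) (by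
          have : (0 : ℝ) ≤ n := Nat.cast_nonneg n
          linarith) (by linarith)
        rw [dist_comm, Real.dist_eq]
        refine h1.trans (mul_le_mul_of_nonneg_left ?_ hK0)
        exact Real.rpow_le_rpow_of_nonpos (by positivity) (by linarith) (by linarith)
      intro n m N hn hm
      rcases le_total n m with hnm | hnm
      · exact hstep n m N hn hnm
      · rw [dist_comm]
        exact hstep m n N hm hnm
    · have h1 : Tendsto (fun x : ℝ => x ^ (-c)) atTop (𝓝 0) := tendsto_rpow_neg_atTop hc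
      have h2 : Tendsto (fun n : ℕ => (n : ℝ) + 1) atTop atTop :=
        tendsto_atTop_add_const_right _ _ tendsto_natCast_atTop_atTop
      simpa using (h1.comp h2).const_mul K
  obtain ⟨κ, hκ⟩ := cauchySeq_tendsto_of_complete hcau
  refine ⟨κ, K + 1, by linarith, ?_⟩
  intro z hz
  have hz0 : 0 < z := by linarith
  have h1 : |κ - ID4.H f P z| ≤ K * z ^ (-c) := by
    refine le_of_tendsto (hκ.sub_const _).abs ?_
    obtain ⟨n₀, hn₀⟩ := exists_nat_ge z
    filter_upwards [eventually_ge_atTop n₀] with n hn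
    have h2 : (n₀ : ℝ) ≤ n := by exact_mod_cast hn
    exact hkey z ((n : ℝ) + 1) hz (by linarith)
  have h2 : ∑ l ∈ Finset.Icc 1 ⌊z⌋₊, f l / l -
      (P.eval (Real.log z) + (∫ u in (0 : ℝ)..Real.log z, P.eval u) + κ) =
      -(κ - ID4.H f P z) := by
    rw [ID4.H]
    ring
  rw [h2, abs_neg]
  refine h1.trans (mul_le_mul_of_nonneg_right (by linarith) (by positivity))

end Pool.Agent.Work.MP_122e00_nt.TS
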