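import Pool.Agent.Work.MP_122e00_nt.TS.Stmts2

namespace Pool.Agent.Work.MP_122e00_nt.TS

open Finset Filter Topology ArithmeticFunction
open scoped ArithmeticFunction.zeta ArithmeticFunction.Moebius

namespace ID5

/-- antiderivative of a polynomial -/
noncomputable def anti (P : Polynomial ℝ) : Polynomial ℝ :=
  ∑ i ∈ Finset.range (P.natDegree + 1),
    Polynomial.C (P.coeff i / ((i : ℝ) + 1)) * Polynomial.X ^ (i + 1)

lemma anti_deriv (P : Polynomial ℝ) : Polynomial.derivative (anti P) = P := by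
  unfold anti
  rw [Polynomial.derivative_sum]
  conv_rhs => rw [P.as_sum_range_C_mul_X_pow]
  refine Finset.sum_congr rfl fun i _ => ?_
  rw [Polynomial.derivative_C_mul_X_pow]
  have h : P.coeff i / ((i : ℝ) + 1) * ((i + 1 : ℕ) : ℝ) = P.coeff i := by
    push_cast
    have : (i : ℝ) + 1 ≠ 0 := by positivity
    field_simp
  rw [h]; simp

lemma anti_zero (P : Polynomial ℝ) : (anti P).eval 0 = 0 := by
  simp [anti, Polynomial.eval_finsetSum]

lemma anti_deg (P : Polynomial ℝ) : (anti P).natDegree ≤ P.natDegree + 1 := by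
  unfold anti
  refine Polynomial.natDegree_sum_le_of_forall_le _ _ fun i hi => ?_
  have := Finset.mem_range.1 hi
  exact (Polynomial.natDegree_C_mul_X_pow_le _ _).trans (by omega)

lemma anti_coeff (P : Polynomial ℝ) (j : ℕ) :
    (anti P).coeff (j + 1) = P.coeff j / ((j : ℝ) + 1) := by
  have h := congrArg (fun p => Polynomial.coeff p j) (anti_deriv P)
  simp only [Polynomial.coeff_derivative] at h
  have : (j : ℝ) + 1 ≠ 0 := by positivity
  exact eq_div_of_mul_eq this h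

lemma int_anti (P : Polynomial ℝ) (a b : ℝ) :
    (∫ u in a..b, P.eval u) = (anti P).eval b - (anti P).eval a := by
  refine intervalIntegral.integral_eq_sub_of_hasDerivAt (f := fun u => (anti P).eval u)
    (fun u _ => ?_) ?_
  · have := (anti P).hasDerivAt u
    rwa [anti_deriv] at this
  · exact (P.continuous).intervalIntegrable _ _

lemma int_anti' (P : Polynomial ℝ) (L y : ℝ) :
    (∫ u in (0 : ℝ)..y, P.eval (L - u)) = (anti P).eval L - (anti P).eval (L - y) := by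
  rw [intervalIntegral.integral_comp_sub_left (fun u => P.eval u) L, int_anti]
  simp

lemma poly_bd (P : Polynomial ℝ) : ∃ A : ℝ, 0 ≤ A ∧ ∀ y : ℝ, 0 ≤ y →
    |P.eval y| ≤ A * (1 + y) ^ P.natDegree := by
  refine ⟨∑ i ∈ Finset.range (P.natDegree + 1), |P.coeff i|,
    Finset.sum_nonneg fun _ _ => abs_nonneg _, fun y hy => ?_⟩
  rw [Polynomial.eval_eq_sum_range, Finset.sum_mul]
  refine (Finset.abs_sum_le_sum_abs _ _).trans (Finset.sum_le_sum fun i hi => ?_)
  rw [abs_mul]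
  refine mul_le_mul_of_nonneg_left ?_ (abs_nonneg _)
  rw [abs_of_nonneg (by positivity)]
  have := Finset.mem_range.1 hi
  exact (pow_le_pow_left₀ hy (by linarith) i).trans (pow_le_pow_right₀ (by linarith) (by omega))

lemma log_bd (d : ℕ) : ∃ K : ℝ, 0 ≤ K ∧ ∀ x : ℝ, 1 ≤ x →
    (1 + Real.log x) ^ d ≤ K * x ^ (1 / 8 : ℝ) := by
  set e : ℝ := 1 / (8 * ((d : ℝ) + 1)) with he
  have he0 : 0 < e := by positivity
  refine ⟨(1 + 1 / e) ^ d, by positivity, fun x hx => ?_⟩
  have hx0 : 0 < x := by linarith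
  have h1 : Real.log x ≤ x ^ e / e := Real.log_le_rpow_div hx0.le he0
  have h2 : (1 : ℝ) ≤ x ^ e := Real.one_le_rpow hx he0.le
  have h3 : 1 + Real.log x ≤ (1 + 1 / e) * x ^ e := by
    have : (1 + 1 / e) * x ^ e = x ^ e + x ^ e / e := by ring
    rw [this]; linarith
  have h4 : 0 ≤ 1 + Real.log x := by have := Real.log_nonneg hx; linarith
  refine (pow_le_pow_left₀ h4 h3 d).trans ?_
  rw [mul_pow]
  refine mul_le_mul_of_nonneg_left ?_ (by positivity)
  rw [← Real.rpow_natCast, ← Real.rpow_mul hx0.le]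
  refine Real.rpow_le_rpow_of_exponent_le hx ?_
  rw [he]
  have hd : (0 : ℝ) ≤ d := Nat.cast_nonneg d
  rw [div_mul_eq_mul_div, one_mul, div_le_div_iff₀ (by positivity) (by norm_num)]
  nlinarith

lemma sum_pow (c : ℝ) (hc : 0 < c) (hc1 : c ≤ 1) (N : ℕ) :
    ∑ m ∈ Finset.Icc 1 N, (m : ℝ) ^ (c - 1) ≤ (N : ℝ) ^ c / c := by
  induction N with
  | zero => simp [Real.zero_rpow hc.ne']
  | succ N ih =>
    rw [Finset.sum_Icc_succ_top (by omega)]
    have hN : (0 : ℝ) < (N : ℝ) + 1 := by positivity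
    have h1 : ((N : ℝ) / ((N : ℝ) + 1)) ^ c ≤ 1 + c * (-(1 / ((N : ℝ) + 1))) := by
      have h := rpow_one_add_le_one_add_mul_self (s := -(1 / ((N : ℝ) + 1))) ?_ hc.le hc1
      · have e : 1 + -(1 / ((N : ℝ) + 1)) = (N : ℝ) / ((N : ℝ) + 1) := by field_simp; ring
        rwa [e] at h
      · rw [neg_le_neg_iff, div_le_one hN]; have : (0 : ℝ) ≤ N := Nat.cast_nonneg N; linarith
    rw [Real.div_rpow (Nat.cast_nonneg N) hN.le] at h1
    have hp : 0 < ((N : ℝ) + 1) ^ c := Real.rpow_pos_of_pos hN c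
    rw [div_le_iff₀ hp] at h1
    have h2 : (1 + c * (-(1 / ((N : ℝ) + 1)))) * ((N : ℝ) + 1) ^ c =
        ((N : ℝ) + 1) ^ c - c * ((N : ℝ) + 1) ^ (c - 1) := by
      rw [Real.rpow_sub hN, Real.rpow_one]; ring
    rw [h2] at h1
    push_cast
    have h3 : (N : ℝ) ^ c / c + ((N : ℝ) + 1) ^ (c - 1) ≤ ((N : ℝ) + 1) ^ c / c := by
      rw [div_add' _ _ _ hc.ne', div_le_div_iff_of_pos_right hc]
      linarith
    linarith

end ID5

open ID5 in
theorem prD5 (h2 : tsD2) (h3 : tsD3) (h4 : tsD4) : tsD5 := by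
  intro f P c C hf hc hc4 hPS
  obtain ⟨G, hGd, C2, hC2, hG⟩ := h2 P
  obtain ⟨κ, C4, hC4, hκ⟩ := h4 f P c C hc hPS
  obtain ⟨A, hA, hAb⟩ := poly_bd P
  obtain ⟨K, hK, hKb⟩ := log_bd P.natDegree
  have hC : 0 ≤ C := by
    have := hPS 1 le_rfl
    rw [Real.one_rpow, mul_one] at this
    exact (abs_nonneg _).trans this
  refine ⟨anti P + G + Polynomial.C κ,
    (C / c + C2 * K) + (C4 + (C + 2 * (A * K + C))), ?_, ?_, ?_⟩
  · refine (Polynomial.natDegree_add_le _ _).trans (max_le ?_ (by simp))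
    exact (Polynomial.natDegree_add_le _ _).trans (max_le (anti_deg P) (by omega))
  · intro j hj
    rw [Polynomial.coeff_add, Polynomial.coeff_add, anti_coeff,
      Polynomial.coeff_eq_zero_of_natDegree_lt (show G.natDegree < j + 1 by omega),
      Polynomial.coeff_C_succ]
    ring
  intro x hx
  have hx0 : 0 < x := by linarith
  set s : ℝ := Real.sqrt x with hs
  have hs1 : 1 ≤ s := by rw [hs]; exact Real.one_le_sqrt.2 hx
  have hs0 : 0 < s := by linarith
  have hss : s * s = x := Real.mul_self_sqrt hx0.le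
  have hsr : s = x ^ (1 / 2 : ℝ) := Real.sqrt_eq_rpow x
  set L : ℝ := Real.log x with hL
  have hL0 : 0 ≤ L := Real.log_nonneg hx
  have hLs : Real.log s = L / 2 := by rw [hs, Real.log_sqrt hx0.le]
  set N : ℕ := ⌊s⌋₊ with hN
  have hNs : (N : ℝ) ≤ s := Nat.floor_le hs0.le
  have hNs' : s < (N : ℝ) + 1 := Nat.lt_floor_add_one s
  set T : ℝ := x ^ (1 - c / 2) with hT
  have hT0 : 0 < T := Real.rpow_pos_of_pos hx0 _
  -- first sum
  have e1 : |∑ m ∈ Finset.Icc 1 N, ∑ l ∈ Finset.Icc 1 ⌊x / m⌋₊, f l -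
      x * ∑ m ∈ Finset.Icc 1 N, P.eval (L - Real.log m) / m| ≤ C / c * T := by
    rw [Finset.mul_sum, ← Finset.sum_sub_distrib]
    refine (Finset.abs_sum_le_sum_abs _ _).trans ?_
    have h5 : ∀ m ∈ Finset.Icc 1 N, |∑ l ∈ Finset.Icc 1 ⌊x / m⌋₊, f l -
        x * (P.eval (L - Real.log m) / m)| ≤ C * x ^ (1 - c) * (m : ℝ) ^ (c - 1) := by
      intro m hm
      obtain ⟨hm1, hm2⟩ := Finset.mem_Icc.1 hm
      have hm0 : (0 : ℝ) < m := by exact_mod_cast hm1
      have hms : (m : ℝ) ≤ s := le_trans (by exact_mod_cast hm2) hNs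
      have hmx : (m : ℝ) ≤ x := by nlinarith
      have h6 := hPS (x / m) ((one_le_div hm0).2 hmx)
      rw [Real.log_div hx0.ne' hm0.ne'] at h6
      have e : x * (P.eval (L - Real.log m) / m) = x / m * P.eval (L - Real.log m) := by ring
      rw [e]
      refine h6.trans (le_of_eq ?_)
      rw [Real.div_rpow hx0.le hm0.le, show c - 1 = -(1 - c) by ring, Real.rpow_neg hm0.le]
      ring
    refine (Finset.sum_le_sum h5).trans ?_
    rw [← Finset.mul_sum]
    have h6 := sum_pow c hc (by linarith) N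
    have h7 : (N : ℝ) ^ c ≤ x ^ (c / 2) := by
      refine (Real.rpow_le_rpow (Nat.cast_nonneg N) hNs hc.le).trans (le_of_eq ?_)
      rw [hsr, ← Real.rpow_mul hx0.le]; congr 1; ring
    calc C * x ^ (1 - c) * ∑ m ∈ Finset.Icc 1 N, (m : ℝ) ^ (c - 1)
        ≤ C * x ^ (1 - c) * (x ^ (c / 2) / c) := by
          refine mul_le_mul_of_nonneg_left (h6.trans ?_) (by positivity)
          exact div_le_div_of_nonneg_right h7 hc.le
      _ = C / c * (x ^ (1 - c) * x ^ (c / 2)) := by ring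
      _ = C / c * T := by rw [← Real.rpow_add hx0, hT]; congr 2; ring
  have e2 : |x * ∑ m ∈ Finset.Icc 1 N, P.eval (L - Real.log m) / m -
      x * ((anti P).eval L - (anti P).eval (L / 2) + G.eval L)| ≤ C2 * K * T := by
    have h5 := hG s L hs1 hL0
    rw [int_anti', hLs, show L - L / 2 = L / 2 by ring] at h5
    rw [← mul_sub, abs_mul, abs_of_pos hx0]
    have h6 : |∑ m ∈ Finset.Icc 1 N, P.eval (L - Real.log m) / m -
      ((anti P).eval L - (anti P).eval (L / 2) + G.eval L)| ≤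
      C2 * (1 + L) ^ P.natDegree * s ^ (-(1 / 2) : ℝ) := by
      rw [← sub_sub]; exact h5
    have h7 : s ^ (-(1 / 2) : ℝ) = x ^ (-(1 / 4) : ℝ) := by
      rw [hsr, ← Real.rpow_mul hx0.le]; congr 1; ring
    rw [h7] at h6
    calc x * _ ≤ x * (C2 * (1 + L) ^ P.natDegree * x ^ (-(1 / 4) : ℝ)) :=
          mul_le_mul_of_nonneg_left h6 hx0.le
      _ ≤ x * (C2 * (K * x ^ (1 / 8 : ℝ)) * x ^ (-(1 / 4) : ℝ)) := by
          have := hKb x hx
          have h8 : 0 ≤ x ^ (-(1 / 4) : ℝ) := by positivity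
          gcongr
      _ = C2 * K * (x ^ (1 : ℝ) * x ^ (1 / 8 : ℝ) * x ^ (-(1 / 4) : ℝ)) := by
          rw [Real.rpow_one]; ring
      _ = C2 * K * x ^ (7 / 8 : ℝ) := by
          rw [← Real.rpow_add hx0, ← Real.rpow_add hx0]; norm_num
      _ ≤ C2 * K * T := by
          refine mul_le_mul_of_nonneg_left ?_ (by positivity)
          exact Real.rpow_le_rpow_of_exponent_le hx (by linarith)
  -- the summatory function at `s`
  set F : ℝ := ∑ l ∈ Finset.Icc 1 N, f l with hF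
  have hF0 : 0 ≤ F := Finset.sum_nonneg fun l _ => hf l
  have e3 : |F - s * P.eval (L / 2)| ≤ C * s ^ (1 - c) := by
    have := hPS s hs1
    rwa [hLs] at this
  have e4 : |s * F - x * P.eval (L / 2)| ≤ C * T := by
    have h5 : s * F - x * P.eval (L / 2) = s * (F - s * P.eval (L / 2)) := by
      rw [← hss]; ring
    rw [h5, abs_mul, abs_of_pos hs0]
    refine (mul_le_mul_of_nonneg_left e3 hs0.le).trans (le_of_eq ?_)
    have h6 : s * s ^ (1 - c) = T := by
      have h7 : s * s ^ (1 - c) = s ^ (1 + (1 - c)) := by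
        rw [Real.rpow_add hs0, Real.rpow_one]
      rw [h7, hsr, ← Real.rpow_mul hx0.le, hT]; congr 1; ring
    rw [← h6]; ring
  have e5 : F ≤ (A * K + C) * T := by
    have h5 : F ≤ s * |P.eval (L / 2)| + C * s ^ (1 - c) := by
      have h6 := (abs_le.1 e3).2
      have h7 := mul_le_mul_of_nonneg_left (le_abs_self (P.eval (L / 2))) hs0.le
      linarith
    have h6 : |P.eval (L / 2)| ≤ A * (K * x ^ (1 / 8 : ℝ)) := by
      refine (hAb (L / 2) (by linarith)).trans (mul_le_mul_of_nonneg_left ?_ hA)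
      refine le_trans ?_ (hKb x hx)
      exact pow_le_pow_left₀ (by linarith) (by linarith) _
    have h7 : s * x ^ (1 / 8 : ℝ) ≤ T := by
      rw [hsr, ← Real.rpow_add hx0]
      exact Real.rpow_le_rpow_of_exponent_le hx (by linarith)
    have h8 : s ^ (1 - c) ≤ T := by
      rw [hsr, ← Real.rpow_mul hx0.le]
      exact Real.rpow_le_rpow_of_exponent_le hx (by linarith)
    calc F ≤ s * |P.eval (L / 2)| + C * s ^ (1 - c) := h5
      _ ≤ s * (A * (K * x ^ (1 / 8 : ℝ))) + C * T := by gcongr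
      _ = A * K * (s * x ^ (1 / 8 : ℝ)) + C * T := by ring
      _ ≤ A * K * T + C * T := by gcongr
      _ = (A * K + C) * T := by ring
  -- second sum
  have e6 : |∑ l ∈ Finset.Icc 1 N, f l * ((⌊x / l⌋₊ : ℝ) - (N : ℝ)) -
      (x * ∑ l ∈ Finset.Icc 1 N, f l / l - s * F)| ≤ 2 * F := by
    have h5 : ∑ l ∈ Finset.Icc 1 N, f l * ((⌊x / l⌋₊ : ℝ) - (N : ℝ)) -
      (x * ∑ l ∈ Finset.Icc 1 N, f l / l - s * F) =
      ∑ l ∈ Finset.Icc 1 N, f l * (((⌊x / l⌋₊ : ℝ) - x / l) + (s - (N : ℝ))) := by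
      rw [hF, Finset.mul_sum, Finset.mul_sum, ← Finset.sum_sub_distrib, ← Finset.sum_sub_distrib]
      refine Finset.sum_congr rfl fun l _ => ?_
      ring
    rw [h5]
    refine (Finset.abs_sum_le_sum_abs _ _).trans ?_
    rw [hF, Finset.mul_sum]
    refine Finset.sum_le_sum fun l _ => ?_
    rw [abs_mul, abs_of_nonneg (hf l), mul_comm]
    refine mul_le_mul_of_nonneg_right ?_ (hf l)
    have h6 : 0 ≤ x / (l : ℝ) := by positivity
    have h7 := Nat.floor_le h6
    have h8 := Nat.lt_floor_add_one (x / (l : ℝ))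
    rw [abs_le]; constructor <;> linarith
  have e7 : |x * ∑ l ∈ Finset.Icc 1 N, f l / l -
      x * (P.eval (L / 2) + (anti P).eval (L / 2) + κ)| ≤ C4 * T := by
    have h5 := hκ s hs1
    rw [hLs, int_anti, anti_zero, sub_zero] at h5
    rw [← mul_sub, abs_mul, abs_of_pos hx0]
    refine (mul_le_mul_of_nonneg_left h5 hx0.le).trans (le_of_eq ?_)
    have h6 : x * s ^ (-c) = T := by
      rw [hsr, ← Real.rpow_mul hx0.le]
      conv_lhs => rw [← Real.rpow_one x]
      rw [Real.rpow_one, ← Real.rpow_one_add' hx0.le (by nlinarith)]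
      rw [hT]; congr 1; ring
    rw [← h6]; ring
  have e8 := h3 f x hx
  rw [← hs, ← hN] at e8
  have e9 : (∑ n ∈ Finset.Icc 1 ⌊x⌋₊, ((ζ : ArithmeticFunction ℝ) * f) n) -
      x * (anti P + G + Polynomial.C κ).eval L =
      (∑ m ∈ Finset.Icc 1 N, ∑ l ∈ Finset.Icc 1 ⌊x / m⌋₊, f l -
        x * ∑ m ∈ Finset.Icc 1 N, P.eval (L - Real.log m) / m) +
      (x * ∑ m ∈ Finset.Icc 1 N, P.eval (L - Real.log m) / m -
        x * ((anti P).eval L - (anti P).eval (L / 2) + G.eval L)) +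
      (∑ l ∈ Finset.Icc 1 N, f l * ((⌊x / l⌋₊ : ℝ) - (N : ℝ)) -
        (x * ∑ l ∈ Finset.Icc 1 N, f l / l - s * F)) +
      (x * ∑ l ∈ Finset.Icc 1 N, f l / l -
        x * (P.eval (L / 2) + (anti P).eval (L / 2) + κ)) -
      (s * F - x * P.eval (L / 2)) := by
    rw [e8]
    simp only [Polynomial.eval_add, Polynomial.eval_C]
    ring
  have e10 := (abs_le.1 e1)
  have e11 := (abs_le.1 e2)
  have e12 := (abs_le.1 e4)
  have e13 := (abs_le.1 e6)
  have e14 := (abs_le.1 e7)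
  change |(∑ n ∈ Finset.Icc 1 ⌊x⌋₊, ((ζ : ArithmeticFunction ℝ) * f) n) -
      x * (anti P + G + Polynomial.C κ).eval L| ≤ _ * T
  rw [e9]
  have e15 : ((C / c + C2 * K) + (C4 + (C + 2 * (A * K + C)))) * T =
    C / c * T + C2 * K * T + C4 * T + C * T + 2 * ((A * K + C) * T) := by ring
  rw [e15, abs_le]
  constructor <;> linarith [e10.1, e10.2, e11.1, e11.2, e12.1, e12.2, e13.1, e13.2, e14.1, e14.2]

end Pool.Agent.Work.MP_122e00_nt.TS
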