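import Pool.Agent.Work.MP_122e00_nt.TS.Stmts2

set_option autoImplicit false

/-!
# Item D6: the Piltz divisor problem with some power saving
-/

namespace Pool.Agent.Work.MP_122e00_nt.TS

open Finset Filter Topology ArithmeticFunction
open scoped ArithmeticFunction.zeta ArithmeticFunction.Moebius

namespace ID6

/-- `x |log x|^j ≤ j!` for `0 < x < 1` -/
theorem xlog (j : ℕ) (x : ℝ) (h0 : 0 < x) (h1 : x < 1) : x * |Real.log x| ^ j ≤ j.factorial := by
  set u := |Real.log x| with hu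
  have hlog : Real.log x < 0 := Real.log_neg h0 h1
  have hu' : Real.log x = -u := by rw [hu, abs_of_neg hlog, neg_neg]
  have hx : x = Real.exp (-u) := by rw [← hu', Real.exp_log h0]
  have h2 : u ^ j / j.factorial ≤ Real.exp u := Real.pow_div_factorial_le_exp u (abs_nonneg _) j
  have hf : (0 : ℝ) < j.factorial := by exact_mod_cast Nat.factorial_pos j
  rw [div_le_iff₀ hf] at h2
  have h3 : Real.exp (-u) * u ^ j ≤ Real.exp (-u) * (Real.exp u * j.factorial) := by
    gcongr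
  rw [← mul_assoc, ← Real.exp_add, neg_add_cancel, Real.exp_zero, one_mul] at h3
  rw [hx]
  exact h3

theorem small (P : Polynomial ℝ) : ∃ C : ℝ, 0 ≤ C ∧ ∀ x : ℝ, 0 < x → x < 1 →
    |x * P.eval (Real.log x)| ≤ C := by
  refine ⟨∑ j ∈ Finset.range (P.natDegree + 1), |P.coeff j| * j.factorial,
    Finset.sum_nonneg fun j _ => by positivity, fun x h0 h1 => ?_⟩
  rw [Polynomial.eval_eq_sum_range, Finset.mul_sum]
  refine (Finset.abs_sum_le_sum_abs _ _).trans (Finset.sum_le_sum fun j _ => ?_)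
  rw [abs_mul, abs_mul, abs_pow, abs_of_pos h0]
  have h := xlog j x h0 h1
  calc x * (|P.coeff j| * |Real.log x| ^ j) = |P.coeff j| * (x * |Real.log x| ^ j) := by ring
    _ ≤ |P.coeff j| * j.factorial := by gcongr

theorem base : PS (dr 1) 1 (1 / 4) 1 := by
  intro x hx
  have h1 : ∑ n ∈ Finset.Icc 1 ⌊x⌋₊, dr 1 n = (⌊x⌋₊ : ℝ) := by
    have : ∀ n ∈ Finset.Icc 1 ⌊x⌋₊, dr 1 n = 1 := by
      intro n hn
      unfold dr
      rw [pow_one, ArithmeticFunction.zeta_apply_ne (by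
        have := (Finset.mem_Icc.1 hn).1
        omega)]
      norm_num
    rw [Finset.sum_congr rfl this]
    simp
  rw [h1, Polynomial.eval_one, mul_one]
  have h2 : (⌊x⌋₊ : ℝ) ≤ x := Nat.floor_le (by linarith)
  have h3 : x < ⌊x⌋₊ + 1 := Nat.lt_floor_add_one x
  have h4 : (1 : ℝ) ≤ x ^ (1 - 1 / 4 : ℝ) := Real.one_le_rpow hx (by norm_num)
  rw [abs_le]
  constructor <;> linarith

theorem ind (hD5 : tsD5) : ∀ r : ℕ, ∃ (P : Polynomial ℝ) (c C : ℝ), P.natDegree ≤ r ∧
    P.coeff r = 1 / (r.factorial : ℝ) ∧ 0 < c ∧ c ≤ 1 / 4 ∧ PS (dr (r + 1)) P c C := by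
  intro r
  induction r with
  | zero =>
    refine ⟨1, 1 / 4, 1, ?_, ?_, by norm_num, le_rfl, base⟩
    · simp
    · simp
  | succ r ih =>
    obtain ⟨P, c, C, h1, h2, h3, h4, h5⟩ := ih
    have hf : ∀ n, (((ζ ^ (r + 1) : ArithmeticFunction ℕ)) : ArithmeticFunction ℝ) n =
        dr (r + 1) n := fun n => rfl
    obtain ⟨P', C', g1, g2, g3⟩ := hD5
      (((ζ ^ (r + 1) : ArithmeticFunction ℕ)) : ArithmeticFunction ℝ) P c C
      (fun n => by rw [hf]; exact Nat.cast_nonneg _) h3 h4 h5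
    refine ⟨P', c / 2, C', g1.trans (by omega), ?_, by linarith, by linarith, ?_⟩
    · rw [g2 r h1, h2, Nat.factorial_succ]
      push_cast
      rw [div_div]
      ring
    · have hfun : (fun n => ((ζ : ArithmeticFunction ℝ) *
          (((ζ ^ (r + 1) : ArithmeticFunction ℕ)) : ArithmeticFunction ℝ)) n) =
          dr (r + 1 + 1) := by
        funext n
        rw [← ArithmeticFunction.natCoe_mul, ← pow_succ']
        rfl
      rw [hfun] at g3
      exact g3

end ID6

open ID6 in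
theorem prD6 (hD5 : tsD5) : tsD6 := by
  intro r hr
  obtain ⟨r, rfl⟩ : ∃ s, r = s + 1 := ⟨r - 1, by omega⟩
  obtain ⟨P, c, C, h1, h2, h3, h4, h5⟩ := ind hD5 r
  obtain ⟨C1, hC1, h6⟩ := small P
  refine ⟨P, c, |C| + C1 + 1, h1, h2, h3, h4, by positivity, fun x hx => ?_⟩
  rcases lt_or_ge x 1 with hx1 | hx1
  · have hfl : ⌊x⌋₊ = 0 := Nat.floor_eq_zero.2 hx1
    rw [hfl]
    simp only [Finset.Icc_eq_empty_of_lt (by norm_num : (0 : ℕ) < 1), Finset.sum_empty, zero_sub,
      abs_neg]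
    have h7 := h6 x hx hx1
    have h8 : (1 : ℝ) ≤ (1 + x) ^ (1 - c) := Real.one_le_rpow (by linarith) (by linarith)
    have h9 : 0 ≤ |C| + C1 + 1 := by positivity
    calc |x * P.eval (Real.log x)| ≤ C1 := h7
      _ ≤ (|C| + C1 + 1) * 1 := by linarith [abs_nonneg C]
      _ ≤ (|C| + C1 + 1) * (1 + x) ^ (1 - c) := by gcongr
  · have h7 := h5 x hx1
    have h8 : x ^ (1 - c) ≤ (1 + x) ^ (1 - c) :=
      Real.rpow_le_rpow (by linarith) (by linarith) (by linarith)
    have h9 : 0 ≤ x ^ (1 - c) := Real.rpow_nonneg (by linarith) _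
    refine h7.trans ?_
    calc C * x ^ (1 - c) ≤ (|C| + C1 + 1) * x ^ (1 - c) := by
          gcongr
          linarith [le_abs_self C]
      _ ≤ (|C| + C1 + 1) * (1 + x) ^ (1 - c) := by gcongr

end Pool.Agent.Work.MP_122e00_nt.TS
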