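import Pool.Agent.Work.MP_122e00_nt.TS.Stmts1

/-!
# Thin shifts, item Q1: orthogonality modulo `M`
-/

namespace Pool.Agent.Work.MP_122e00_nt.TS

open Finset

namespace IQ1

theorem ee_nat_mul (j : ℕ) (x : ℝ) : ee (j * x) = ee x ^ j := by
  unfold ee
  rw [← Complex.exp_nat_mul]
  congr 1
  push_cast
  ring

theorem ee_int (s : ℤ) : ee s = 1 := by
  unfold ee
  rw [Complex.exp_eq_one_iff]
  exact ⟨s, by push_cast; ring⟩

theorem ee_eq_one {x : ℝ} (h : ee x = 1) : ∃ s : ℤ, x = s := by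
  unfold ee at h
  rw [Complex.exp_eq_one_iff] at h
  obtain ⟨s, hs⟩ := h
  refine ⟨s, ?_⟩
  have h1 := congrArg Complex.im hs
  simp only [Complex.mul_im, Complex.ofReal_re, Complex.ofReal_im, Complex.I_re, Complex.I_im,
    mul_zero, mul_one, add_zero, Complex.mul_re, sub_zero, Complex.intCast_re,
    Complex.intCast_im, zero_mul, Complex.re_ofNat, Complex.im_ofNat, zero_add] at h1
  have hpi : (2 * Real.pi) ≠ 0 := by positivity
  have h2 : (2 * Real.pi) * x = (2 * Real.pi) * s := by linarith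
  exact mul_left_cancel₀ hpi h2

end IQ1

open IQ1 in
theorem prQ1 : tsQ1 := by
  intro M t hM
  have hM0 : (M : ℝ) ≠ 0 := by positivity
  have h1 : ∀ j ∈ Finset.range M, ee ((j : ℝ) * t / M) = ee ((t : ℝ) / M) ^ j := fun j _ => by
    rw [mul_div_assoc, ee_nat_mul]
  rw [Finset.sum_congr rfl h1]
  split_ifs with h
  · obtain ⟨s, rfl⟩ := h
    have h2 : (((M : ℤ) * s : ℤ) : ℝ) / M = (s : ℝ) := by
      push_cast
      field_simp
    rw [h2, ee_int]
    simp
  · have hw : ee ((t : ℝ) / M) ≠ 1 := by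
      intro h2
      obtain ⟨s, hs⟩ := ee_eq_one h2
      apply h
      refine ⟨s, ?_⟩
      rw [div_eq_iff hM0] at hs
      have h3 : (t : ℝ) = (((M : ℤ) * s : ℤ) : ℝ) := by
        rw [hs]
        push_cast
        ring
      exact_mod_cast h3
    have h2 : ee ((t : ℝ) / M) ^ M = 1 := by
      rw [← ee_nat_mul, mul_div_cancel₀ _ hM0]
      exact ee_int t
    have h3 := geom_sum_eq hw M
    rw [h3, h2, sub_self, zero_div]

end Pool.Agent.Work.MP_122e00_nt.TS
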