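import Pool.Agent.Work.MP_122e00_nt.TS.Stmts2
import Pool.Agent.Work.MP_122e00_nt.TS.I_Q1

/-!
# Thin shifts, item E1 (helper42): Ramanujan sums
-/

namespace Pool.Agent.Work.MP_122e00_nt.TS

open Finset Filter Topology ArithmeticFunction
open scoped ArithmeticFunction.zeta ArithmeticFunction.Moebius

namespace IE1

/-- Sorting the residues by their greatest common divisor with `q`. -/
theorem sort {q : ℕ} (hq : 0 < q) (n : ℕ) :
    ∑ a ∈ Finset.range q, ee ((n : ℝ) * a / q) = ∑ d ∈ q.divisors,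
      ∑ a ∈ (Finset.range d).filter (fun a => Nat.Coprime a d), ee ((n : ℝ) * a / d) := by
  rw [← Nat.sum_div_divisors q (fun d =>
      ∑ a ∈ (Finset.range d).filter (fun a => Nat.Coprime a d), ee ((n : ℝ) * a / d)),
    ← Finset.sum_fiberwise_of_maps_to (s := Finset.range q) (t := q.divisors)
      (g := fun a => q.gcd a)
      (fun a _ => Nat.mem_divisors.2 ⟨Nat.gcd_dvd_left _ _, hq.ne'⟩)]
  refine Finset.sum_congr rfl fun d hd => ?_
  obtain ⟨m, rfl⟩ := (Nat.mem_divisors.1 hd).1
  have hd0 : 0 < d := by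
    rcases Nat.eq_zero_or_pos d with h | h
    · subst h
      simp at hq
    · exact h
  rw [Nat.mul_div_cancel_left m hd0]
  symm
  refine Finset.sum_bij (fun k _ => d * k) ?_ ?_ ?_ ?_
  · intro k hk
    rw [Finset.mem_filter, Finset.mem_range] at hk ⊢
    refine ⟨Nat.mul_lt_mul_of_pos_left hk.1 hd0, ?_⟩
    rw [Nat.gcd_mul_left, Nat.gcd_comm, hk.2, mul_one]
  · intro a _ b _ hab
    exact Nat.eq_of_mul_eq_mul_left hd0 hab
  · intro b hb
    rw [Finset.mem_filter, Finset.mem_range] at hb
    obtain ⟨k, rfl⟩ : d ∣ b := by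
      rw [← hb.2]
      exact Nat.gcd_dvd_right _ _
    refine ⟨k, ?_, rfl⟩
    rw [Finset.mem_filter, Finset.mem_range]
    refine ⟨Nat.lt_of_mul_lt_mul_left hb.1, ?_⟩
    have h1 := hb.2
    rw [Nat.gcd_mul_left] at h1
    have h2 : d * m.gcd k = d * 1 := by rw [h1, mul_one]
    have h3 := Nat.eq_of_mul_eq_mul_left hd0 h2
    rw [Nat.gcd_comm] at h3
    exact h3
  · intro k _
    congr 1
    have : (d : ℝ) ≠ 0 := by positivity
    push_cast
    rw [mul_left_comm, mul_div_mul_left _ _ this]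

end IE1

theorem prE1 : tsE1 := by
  intro q
  induction q using Nat.strong_induction_on with
  | _ q ih =>
    intro n hq
    have h1 := IE1.sort hq n
    have h2 := prQ1 q (n : ℤ) hq
    have h3 := sum_Gh n q
    rw [Fh_apply] at h3
    have h4 : ∑ a ∈ Finset.range q, ee ((n : ℝ) * a / q) =
        ((∑ k ∈ q.divisors, Gh n k : ℝ) : ℂ) := by
      rw [h3]
      have h5 : ∑ a ∈ Finset.range q, ee ((n : ℝ) * a / q) =
          ∑ j ∈ Finset.range q, ee ((j : ℝ) * ((n : ℤ) : ℝ) / q) := by
        refine Finset.sum_congr rfl fun a _ => ?_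
        rw [mul_comm, Int.cast_natCast]
      rw [h5, h2]
      by_cases h : q ∣ n
      · rw [if_pos h, if_pos (by exact_mod_cast h)]
        push_cast
        rfl
      · rw [if_neg h, if_neg (by exact_mod_cast h)]
        simp
    have hq0 : q ≠ 0 := by omega
    rw [h4, ← Nat.cons_self_properDivisors hq0, Finset.sum_cons, Finset.sum_cons] at h1
    have h6 : ∀ d ∈ q.properDivisors,
        ∑ a ∈ (Finset.range d).filter (fun a => Nat.Coprime a d), ee ((n : ℝ) * a / d) =
          ((Gh n d : ℝ) : ℂ) := fun d hd => by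
      obtain ⟨h7, h8⟩ := Nat.mem_properDivisors.1 hd
      exact ih d h8 n (Nat.pos_of_dvd_of_pos h7 hq)
    rw [Finset.sum_congr rfl h6] at h1
    push_cast at h1
    exact (add_right_cancel h1).symm

end Pool.Agent.Work.MP_122e00_nt.TS
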