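import Mathlib
import Pool.Agent.Work.MP_122e00_nt.TS.Stmts2

/-!
# Thin shifts, item E3: additive twists
-/

namespace Pool.Agent.Work.MP_122e00_nt.TS

open Finset Filter Topology ArithmeticFunction
open scoped ArithmeticFunction.zeta ArithmeticFunction.Moebius

namespace IE3

/-- the residues coprime to `q` -/
def R (q : ℕ) : Finset ℕ := (Finset.range q).filter (fun a => Nat.Coprime a q)

theorem card_R (q : ℕ) : (R q).card = Nat.totient q := by
  rw [Nat.totient_eq_card_coprime]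
  unfold R
  congr 1
  exact Finset.filter_congr fun a _ => Nat.coprime_comm

/-- the coefficients of `E q` without the factor `1/φ(q)` -/
noncomputable def w (y : ℕ × ℕ) : ℝ := ((μ y.1 : ℤ) : ℝ) * (y.2 : ℝ)

/-- the polynomials -/
noncomputable def EE (B : ℕ → Polynomial ℝ) (q : ℕ) : Polynomial ℝ :=
  Polynomial.C ((Nat.totient q : ℝ)⁻¹) *
    ∑ y ∈ q.divisorsAntidiagonal, Polynomial.C (w y) * B y.2

theorem w_le {q : ℕ} {y : ℕ × ℕ} (hy : y ∈ q.divisorsAntidiagonal) : |w y| ≤ (q : ℝ) := by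
  have h1 : |((μ y.1 : ℤ) : ℝ)| ≤ 1 := by
    rw [← Int.cast_abs]
    exact_mod_cast abs_moebius_le_one
  have hq := Nat.mem_divisorsAntidiagonal.1 hy
  have h2 : y.2 ≤ q := Nat.le_of_dvd (Nat.pos_of_ne_zero hq.2) ⟨y.1, by rw [mul_comm]; exact hq.1.symm⟩
  have h3 : |(y.2 : ℝ)| ≤ (q : ℝ) := by
    rw [Nat.abs_cast]
    exact_mod_cast h2
  unfold w
  rw [abs_mul]
  calc |((μ y.1 : ℤ) : ℝ)| * |(y.2 : ℝ)| ≤ 1 * (q : ℝ) :=
        mul_le_mul h1 h3 (abs_nonneg _) zero_le_one
    _ = q := one_mul _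

/-- the mean over the residues -/
theorem mean (h1 : tsE1) (r N q : ℕ) (hq : 1 ≤ q) :
    ∑ a ∈ R q, SS (dr r) N (((a : ℕ) : ℤ) / q) =
      ((∑ n ∈ Finset.Icc 1 N, dr r n * Gh n q : ℝ) : ℂ) := by
  unfold SS
  rw [Finset.sum_comm]
  push_cast
  refine Finset.sum_congr rfl fun n _ => ?_
  rw [← h1 q n hq, Finset.mul_sum]
  refine Finset.sum_congr rfl fun a _ => ?_
  congr 2
  ring

/-- the expansion of the mean -/
theorem expand (r N q : ℕ) :
    ∑ n ∈ Finset.Icc 1 N, dr r n * Gh n q =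
      ∑ y ∈ q.divisorsAntidiagonal, w y *
        ∑ n ∈ (Finset.Icc 1 N).filter (y.2 ∣ ·), dr r n := by
  have e1 : ∀ n : ℕ, Gh n q = ∑ y ∈ q.divisorsAntidiagonal, if y.2 ∣ n then w y else 0 := by
    intro n
    unfold Gh
    rw [ArithmeticFunction.mul_apply]
    refine Finset.sum_congr rfl fun y _ => ?_
    rw [Fh_apply, intCoe_apply]
    unfold w
    split_ifs <;> simp
  simp only [e1, Finset.mul_sum]
  rw [Finset.sum_comm]
  refine Finset.sum_congr rfl fun y _ => ?_
  rw [Finset.sum_filter]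
  refine Finset.sum_congr rfl fun n _ => ?_
  split_ifs with h
  · rw [mul_comm]
  · simp

/-- the coefficient of degree `r - 1` -/
theorem moeb (h2 : tsE2) (s q : ℕ) (hq : 1 ≤ q) :
    ∑ y ∈ q.divisorsAntidiagonal, w y * rho (s + 1) y.2 = (Nat.totient q : ℝ) * rho s q := by
  have h := (sum_eq_iff_sum_mul_moebius_eq (R := ℝ) (f := fun d => (Nat.totient d : ℝ) * rho s d)
    (g := fun q => (q : ℝ) * rho (s + 1) q)).1 (fun n hn => (h2 s n hn).symm) q hq
  rw [← h]
  refine Finset.sum_congr rfl fun y _ => ?_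
  unfold w
  ring

end IE3

open IE3 in
/-- Additive twists. -/
theorem prE3 (h5 : tsL5) (h1 : tsE1) (h2 : tsE2) : tsE3 := by
  intro r B hr hB
  obtain ⟨hdeg, hco, c, C, hc0, hc1, hC, hM⟩ := hB
  have hr0 : (0 : ℝ) < r := by exact_mod_cast hr
  have hr1 : (1 : ℝ) ≤ r := by exact_mod_cast hr
  obtain ⟨C5, hC5, hL⟩ := h5 r (1 / (4 * (r : ℝ))) hr (by positivity)
  refine ⟨EE B, ?_, ?_, min c (1 / (4 * (r : ℝ))), C5 + C + 2, ?_, ?_, by positivity, ?_⟩
  · intro q
    unfold EE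
    refine (Polynomial.natDegree_C_mul_le _ _).trans ?_
    refine Polynomial.natDegree_sum_le_of_forall_le _ _ fun y _ => ?_
    exact (Polynomial.natDegree_C_mul_le _ _).trans (hdeg _)
  · intro q hq
    have hφ : (Nat.totient q : ℝ) ≠ 0 := by
      have := Nat.totient_pos.2 hq
      positivity
    unfold EE
    rw [Polynomial.coeff_C_mul, Polynomial.finsetSum_coeff]
    have e1 : ∀ y ∈ q.divisorsAntidiagonal, (Polynomial.C (w y) * B y.2).coeff (r - 1) =
        w y * rho r y.2 / ((r - 1).factorial : ℝ) := by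
      intro y hy
      have hy2 : 1 ≤ y.2 := by
        have := Nat.mem_divisorsAntidiagonal.1 hy
        rcases Nat.eq_zero_or_pos y.2 with h0 | h0
        · rw [h0, mul_zero] at this
          omega
        · exact h0
      rw [Polynomial.coeff_C_mul, hco y.2 hy2, mul_div_assoc]
    rw [Finset.sum_congr rfl e1, ← Finset.sum_div]
    obtain ⟨s, rfl⟩ : ∃ s, r = s + 1 := ⟨r - 1, by omega⟩
    rw [moeb h2 s q hq, Nat.add_sub_cancel]
    field_simp
  · exact lt_min hc0 (by positivity)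
  · exact (min_le_left _ _).trans hc1
  · intro q a x hq ha hx
    set N : ℕ := ⌊x⌋₊ with hN
    set c' : ℝ := min c (1 / (4 * (r : ℝ))) with hc'
    have hq1 : (1 : ℝ) ≤ q := by exact_mod_cast hq
    have hq0 : (0 : ℝ) < q := by linarith
    have hφn : 0 < Nat.totient q := Nat.totient_pos.2 hq
    have hφ0 : (0 : ℝ) < (Nat.totient q : ℝ) := by exact_mod_cast hφn
    have hφ1 : (1 : ℝ) ≤ (Nat.totient q : ℝ) := by exact_mod_cast hφn
    set F : ℝ := (Nat.totient q : ℝ) with hF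
    set T : ℤ → ℂ := fun a => SS (dr r) N (a / q) with hT
    -- first difference
    have b1 : ∀ a' ∈ R q, ‖T a - T ((a' : ℕ) : ℤ)‖ ≤ C5 * q * x ^ (1 - c') := by
      intro a' ha'
      have hco' : IsCoprime (((a' : ℕ) : ℤ)) (q : ℤ) :=
        Nat.isCoprime_iff_coprime.2 (Finset.mem_filter.1 ha').2
      refine (hL x q a a' hx hq ha hco').trans ?_
      refine mul_le_mul_of_nonneg_left ?_ (by positivity)
      refine Real.rpow_le_rpow_of_exponent_le hx ?_
      have e1 : c' ≤ 1 / (4 * (r : ℝ)) := min_le_right _ _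
      have e2 : 1 / (2 * (r : ℝ)) = 2 * (1 / (4 * (r : ℝ))) := by
        field_simp
        norm_num
      rw [e2]
      linarith
    have b1' : ‖(F : ℂ) * T a - ∑ a' ∈ R q, T ((a' : ℕ) : ℤ)‖ ≤ F * (C5 * q * x ^ (1 - c')) := by
      have e1 : (F : ℂ) * T a = ∑ _a' ∈ R q, T a := by
        rw [Finset.sum_const, card_R, nsmul_eq_mul, hF]
        push_cast
        rfl
      rw [e1, ← Finset.sum_sub_distrib]
      refine (norm_sum_le _ _).trans ?_
      refine (Finset.sum_le_sum b1).trans ?_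
      rw [Finset.sum_const, card_R, nsmul_eq_mul]
    -- second difference
    set P : ℝ := x * (EE B q).eval (Real.log x) with hP
    have hFP : F * P = ∑ y ∈ q.divisorsAntidiagonal, w y * (x * (B y.2).eval (Real.log x)) := by
      rw [hP]
      unfold EE
      rw [Polynomial.eval_mul, Polynomial.eval_C, Polynomial.eval_finsetSum]
      have e1 : F * (x * ((Nat.totient q : ℝ)⁻¹ *
          ∑ y ∈ q.divisorsAntidiagonal, (Polynomial.C (w y) * B y.2).eval (Real.log x))) =
          x * ∑ y ∈ q.divisorsAntidiagonal, (Polynomial.C (w y) * B y.2).eval (Real.log x) := by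
        rw [← hF]
        field_simp
      rw [e1, Finset.mul_sum]
      refine Finset.sum_congr rfl fun y _ => ?_
      rw [Polynomial.eval_mul, Polynomial.eval_C]
      ring
    have b2 : ‖(∑ a' ∈ R q, T ((a' : ℕ) : ℤ)) - ((F * P : ℝ) : ℂ)‖ ≤
        q * (q * (C * (q : ℝ) ^ C * x ^ (1 - c'))) := by
      have e0 : ∑ a' ∈ R q, T ((a' : ℕ) : ℤ) =
          ((∑ n ∈ Finset.Icc 1 N, dr r n * Gh n q : ℝ) : ℂ) := mean h1 r N q hq
      rw [e0, ← Complex.ofReal_sub, Complex.norm_real, Real.norm_eq_abs, expand, hFP,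
        ← Finset.sum_sub_distrib]
      refine (Finset.abs_sum_le_sum_abs _ _).trans ?_
      have e1 : ∀ y ∈ q.divisorsAntidiagonal,
          |w y * (∑ n ∈ (Finset.Icc 1 N).filter (y.2 ∣ ·), dr r n) -
            w y * (x * (B y.2).eval (Real.log x))| ≤ q * (C * (q : ℝ) ^ C * x ^ (1 - c')) := by
        intro y hy
        have hyy := Nat.mem_divisorsAntidiagonal.1 hy
        have hy2 : 1 ≤ y.2 := by
          rcases Nat.eq_zero_or_pos y.2 with h0 | h0
          · rw [h0, mul_zero] at hyy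
            omega
          · exact h0
        have hyq : y.2 ≤ q := Nat.le_of_dvd hq ⟨y.1, by rw [mul_comm]; exact hyy.1.symm⟩
        rw [← mul_sub, abs_mul]
        refine mul_le_mul (w_le hy) ?_ (abs_nonneg _) hq0.le
        refine (hM y.2 x hy2 hx).trans ?_
        have e2 : ((y.2 : ℕ) : ℝ) ^ C ≤ (q : ℝ) ^ C :=
          Real.rpow_le_rpow (Nat.cast_nonneg _) (by exact_mod_cast hyq) hC.le
        have e3 : x ^ (1 - c) ≤ x ^ (1 - c') :=
          Real.rpow_le_rpow_of_exponent_le hx (by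
            have : c' ≤ c := min_le_left _ _
            linarith)
        exact mul_le_mul (mul_le_mul_of_nonneg_left e2 hC.le) e3 (by positivity) (by positivity)
      refine (Finset.sum_le_sum e1).trans ?_
      rw [Nat.sum_divisorsAntidiagonal (fun _ _ => (q : ℝ) * (C * (q : ℝ) ^ C * x ^ (1 - c'))),
        Finset.sum_const, nsmul_eq_mul]
      refine mul_le_mul_of_nonneg_right ?_ (by positivity)
      exact_mod_cast Nat.card_divisors_le_self q
    -- the sum
    have hFc : (F : ℂ) ≠ 0 := by exact_mod_cast hφ0.ne'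
    have key : T a - ((P : ℝ) : ℂ) = (F : ℂ)⁻¹ * (((F : ℂ) * T a - ∑ a' ∈ R q, T ((a' : ℕ) : ℤ)) +
        ((∑ a' ∈ R q, T ((a' : ℕ) : ℤ)) - ((F * P : ℝ) : ℂ))) := by
      push_cast
      field_simp
      ring
    show ‖T a - ((P : ℝ) : ℂ)‖ ≤ _
    rw [key, norm_mul, norm_inv, Complex.norm_real, Real.norm_of_nonneg hφ0.le]
    have hxp : 0 < x ^ (1 - c') := Real.rpow_pos_of_pos (by linarith) _
    have e1 : F⁻¹ * ‖((F : ℂ) * T a - ∑ a' ∈ R q, T ((a' : ℕ) : ℤ)) +
        ((∑ a' ∈ R q, T ((a' : ℕ) : ℤ)) - ((F * P : ℝ) : ℂ))‖ ≤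
        C5 * q * x ^ (1 - c') + q * (q * (C * (q : ℝ) ^ C * x ^ (1 - c'))) := by
      have e2 := (norm_add_le _ _).trans (add_le_add b1' b2)
      have e3 := mul_le_mul_of_nonneg_left e2 (inv_nonneg.2 hφ0.le)
      refine e3.trans ?_
      rw [mul_add, ← mul_assoc, inv_mul_cancel₀ hφ0.ne', one_mul]
      have e4 : F⁻¹ ≤ 1 := inv_le_one_of_one_le₀ hφ1
      have e5 : 0 ≤ (q : ℝ) * (q * (C * (q : ℝ) ^ C * x ^ (1 - c'))) := by positivity
      have e6 := mul_le_mul_of_nonneg_right e4 e5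
      linarith
    refine e1.trans ?_
    have e7 : (q : ℝ) ≤ (q : ℝ) ^ (C5 + C + 2) := by
      calc (q : ℝ) = (q : ℝ) ^ (1 : ℝ) := (Real.rpow_one _).symm
        _ ≤ (q : ℝ) ^ (C5 + C + 2) := Real.rpow_le_rpow_of_exponent_le hq1 (by linarith)
    have e8 : (q : ℝ) * (q * (q : ℝ) ^ C) ≤ (q : ℝ) ^ (C5 + C + 2) := by
      have e9 : (q : ℝ) * (q * (q : ℝ) ^ C) = (q : ℝ) ^ (C + 2) := by
        rw [Real.rpow_add hq0, ← mul_assoc]
        have : (q : ℝ) ^ (2 : ℝ) = q * q := by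
          rw [Real.rpow_two]
          ring
        rw [this]
        ring
      rw [e9]
      exact Real.rpow_le_rpow_of_exponent_le hq1 (by linarith)
    have e10 : 0 < (q : ℝ) ^ (C5 + C + 2) := by positivity
    calc C5 * q * x ^ (1 - c') + q * (q * (C * (q : ℝ) ^ C * x ^ (1 - c')))
        = (C5 * q + C * (q * (q * (q : ℝ) ^ C))) * x ^ (1 - c') := by ring
      _ ≤ (C5 * (q : ℝ) ^ (C5 + C + 2) + C * (q : ℝ) ^ (C5 + C + 2)) * x ^ (1 - c') := by
          refine mul_le_mul_of_nonneg_right (add_le_add ?_ ?_) hxp.le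
          · exact mul_le_mul_of_nonneg_left e7 hC5.le
          · exact mul_le_mul_of_nonneg_left e8 hC.le
      _ ≤ (C5 + C + 2) * (q : ℝ) ^ (C5 + C + 2) * x ^ (1 - c') := by
          refine mul_le_mul_of_nonneg_right ?_ hxp.le
          nlinarith

end Pool.Agent.Work.MP_122e00_nt.TS
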