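import Mathlib
import Pool.Agent.Work.MP_122e00_nt.TS.Stmts2

/-!
# Thin shifts, item E5 (helper53): the coefficients of `E q` are small
-/

namespace Pool.Agent.Work.MP_122e00_nt.TS

open Finset Filter Topology ArithmeticFunction
open scoped ArithmeticFunction.zeta ArithmeticFunction.Moebius

namespace IE5

/-- a coefficient is at most the sum of all coefficients -/
theorem coeff_le (p : Polynomial ℝ) (j : ℕ) :
    |p.coeff j| ≤ ∑ i ∈ Finset.range (p.natDegree + 1), |p.coeff i| := by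
  by_cases hj : j ≤ p.natDegree
  · exact Finset.single_le_sum (f := fun i => |p.coeff i|) (fun i _ => abs_nonneg _)
      (Finset.mem_range.2 (by omega))
  · rw [Polynomial.coeff_eq_zero_of_natDegree_lt (by omega), abs_zero]
    exact Finset.sum_nonneg fun i _ => abs_nonneg _

/-- the numerical estimate for `q ^ K ≤ x ≤ q ^ (2 * K)` -/
theorem key {q r c C C₄ ε K x : ℝ} (hq : 1 ≤ q) (hr : 1 ≤ r) (hC : 0 < C) (hc : 0 < c)
    (hC₄ : 0 < C₄) (hε : 0 < ε) (hK1 : 2 * r ≤ K) (hK2 : 2 ≤ K) (hK3 : C + 1 ≤ K * c)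
    (hx1 : q ^ K ≤ x) (hx2 : x ≤ q ^ (2 * K)) :
    C₄ * x ^ (ε / (2 * K)) * (x / q + x ^ (1 - 1 / (2 * r)) + q) + C * q ^ C * x ^ (1 - c) ≤
      (3 * C₄ + C) * q ^ (ε - 1) * x := by
  have hq0 : 0 < q := by linarith
  have hK0 : 0 < K := by linarith
  have hx0 : 0 < x := lt_of_lt_of_le (Real.rpow_pos_of_pos hq0 K) hx1
  have h1 : x ^ (ε / (2 * K)) ≤ q ^ ε := by
    calc x ^ (ε / (2 * K)) ≤ (q ^ (2 * K)) ^ (ε / (2 * K)) :=
          Real.rpow_le_rpow hx0.le hx2 (by positivity)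
      _ = q ^ (2 * K * (ε / (2 * K))) := (Real.rpow_mul hq0.le _ _).symm
      _ = q ^ ε := by
          congr 1
          field_simp
  have h2 : x ^ (1 - 1 / (2 * r)) ≤ x / q := by
    rw [Real.rpow_sub hx0, Real.rpow_one]
    apply div_le_div_of_nonneg_left hx0.le hq0
    calc q = q ^ (1 : ℝ) := (Real.rpow_one q).symm
      _ ≤ q ^ (K * (1 / (2 * r))) := by
          apply Real.rpow_le_rpow_of_exponent_le hq
          rw [mul_one_div, le_div_iff₀ (by linarith)]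
          linarith
      _ = (q ^ K) ^ (1 / (2 * r)) := Real.rpow_mul hq0.le _ _
      _ ≤ x ^ (1 / (2 * r)) :=
          Real.rpow_le_rpow (Real.rpow_nonneg hq0.le _) hx1 (by positivity)
  have h3 : q ≤ x / q := by
    rw [le_div_iff₀ hq0]
    calc q * q = q ^ (2 : ℝ) := by
          rw [Real.rpow_two]
          ring
      _ ≤ q ^ K := Real.rpow_le_rpow_of_exponent_le hq hK2
      _ ≤ x := hx1
  have h4 : q ^ C * x ^ (1 - c) ≤ x / q := by
    have h5 : q ^ C * q ≤ x ^ c := by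
      calc q ^ C * q = q ^ (C + 1) := by rw [Real.rpow_add hq0, Real.rpow_one]
        _ ≤ q ^ (K * c) := Real.rpow_le_rpow_of_exponent_le hq hK3
        _ = (q ^ K) ^ c := Real.rpow_mul hq0.le _ _
        _ ≤ x ^ c := Real.rpow_le_rpow (Real.rpow_nonneg hq0.le _) hx1 hc.le
    rw [Real.rpow_sub hx0, Real.rpow_one, le_div_iff₀ hq0]
    have hxc : 0 < x ^ c := Real.rpow_pos_of_pos hx0 c
    rw [show q ^ C * (x / x ^ c) * q = (q ^ C * q) * x / x ^ c by ring, div_le_iff₀ hxc]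
    rw [mul_comm x]
    exact mul_le_mul_of_nonneg_right h5 hx0.le
  have hqe : 1 ≤ q ^ ε := Real.one_le_rpow hq hε.le
  have hxq : 0 ≤ x / q := by positivity
  have h6 : C₄ * x ^ (ε / (2 * K)) * (x / q + x ^ (1 - 1 / (2 * r)) + q) ≤
      C₄ * q ^ ε * (3 * (x / q)) := by
    apply mul_le_mul (mul_le_mul_of_nonneg_left h1 hC₄.le) (by linarith) (by positivity)
      (by positivity)
  have h7 : C * q ^ C * x ^ (1 - c) ≤ C * q ^ ε * (x / q) := by
    calc C * q ^ C * x ^ (1 - c) = C * (q ^ C * x ^ (1 - c)) := by ring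
      _ ≤ C * (x / q) := mul_le_mul_of_nonneg_left h4 hC.le
      _ ≤ C * (q ^ ε * (x / q)) :=
          mul_le_mul_of_nonneg_left (le_mul_of_one_le_left hxq hqe) hC.le
      _ = C * q ^ ε * (x / q) := by ring
  calc _ ≤ C₄ * q ^ ε * (3 * (x / q)) + C * q ^ ε * (x / q) := add_le_add h6 h7
    _ = (3 * C₄ + C) * q ^ (ε - 1) * x := by
        rw [Real.rpow_sub_one hq0.ne']
        ring

end IE5

theorem prE5 (hL4 : tsL4) (hE4 : tsE4) : tsE5 := by
  intro r E hr hAP ε hε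
  obtain ⟨hdeg, -, c, C, hc, hc4, hC, hap⟩ := hAP
  have hr1 : (1 : ℝ) ≤ r := by exact_mod_cast hr
  set K : ℝ := max (2 * (r : ℝ)) (max 2 ((C + 1) / c)) with hK
  have hK1 : 2 * (r : ℝ) ≤ K := le_max_left _ _
  have hK2 : 2 ≤ K := (le_max_left _ _).trans (le_max_right _ _)
  have hK3 : C + 1 ≤ K * c := by
    have h : (C + 1) / c ≤ K := (le_max_right _ _).trans (le_max_right _ _)
    rwa [div_le_iff₀ hc] at h
  have hK0 : 0 < K := by linarith
  obtain ⟨C₄, hC₄, h4⟩ := hL4 r (ε / (2 * K)) hr (by positivity)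
  obtain ⟨C₅, hC₅, h5⟩ := hE4 (r - 1)
  set S : ℝ := ∑ i ∈ Finset.range ((E 1).natDegree + 1), |(E 1).coeff i| with hS
  have hS0 : 0 ≤ S := Finset.sum_nonneg fun i _ => abs_nonneg _
  refine ⟨C₅ * (3 * C₄ + C) + S, by positivity, ?_⟩
  intro q j hq
  rcases Nat.lt_or_ge q 2 with hq2 | hq2
  · have : q = 1 := by omega
    subst this
    rw [Nat.cast_one, Real.one_rpow, mul_one]
    have h : |(E 1).coeff j| ≤ S := IE5.coeff_le (E 1) j
    have h' : 0 ≤ C₅ * (3 * C₄ + C) := by positivity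
    linarith
  have hqR : (2 : ℝ) ≤ q := by exact_mod_cast hq2
  have hq1 : (1 : ℝ) ≤ q := by linarith
  have hq0 : (0 : ℝ) < q := by linarith
  have hlog : Real.log 2 ≤ Real.log q := Real.log_le_log (by norm_num) hqR
  have hlog2 : (0.6931471803 : ℝ) < Real.log 2 := Real.log_two_gt_d9
  have hA : 1 ≤ K * Real.log q := by nlinarith
  have hcop : IsCoprime (1 : ℤ) (q : ℤ) := isCoprime_one_left
  have hb := h5 (E q) (hdeg q) (K * Real.log q) ((3 * C₄ + C) * (q : ℝ) ^ (ε - 1)) hA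
    (by positivity) (by
      intro t ht
      obtain ⟨ht1, ht2⟩ := ht
      have hx1 : (q : ℝ) ^ K ≤ Real.exp t := by
        rw [Real.rpow_def_of_pos hq0]
        apply Real.exp_le_exp.2
        linarith [mul_comm K (Real.log q)]
      have hx2 : Real.exp t ≤ (q : ℝ) ^ (2 * K) := by
        rw [Real.rpow_def_of_pos hq0]
        apply Real.exp_le_exp.2
        calc t ≤ 2 * (K * Real.log q) := ht2
          _ = Real.log q * (2 * K) := by ring
      set x : ℝ := Real.exp t with hx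
      have hx0 : 0 < x := Real.exp_pos t
      have hqK : (q : ℝ) ≤ (q : ℝ) ^ K := by
        calc (q : ℝ) = (q : ℝ) ^ (1 : ℝ) := (Real.rpow_one _).symm
          _ ≤ (q : ℝ) ^ K := Real.rpow_le_rpow_of_exponent_le hq1 (by linarith)
      have hqx : (q : ℝ) ≤ x := hqK.trans hx1
      have hx1' : 1 ≤ x := hq1.trans hqx
      have hap' := hap q 1 x hq hcop hx1'
      have h4' := h4 x (((1 : ℤ) : ℝ) / q) ⌊x⌋₊ q 1 hx1' (Nat.floor_le hx0.le) hq hqx hcop (by
        rw [sub_self, abs_zero]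
        positivity)
      have hlogx : Real.log x = t := Real.log_exp t
      rw [hlogx] at hap'
      have hk := IE5.key (q := (q : ℝ)) (r := (r : ℝ)) (c := c) (C := C) (C₄ := C₄) (ε := ε) (K := K)
        (x := x) hq1 hr1 hC hc hC₄ hε hK1 hK2 hK3 hx1 hx2
      have hn : |x * (E q).eval t| ≤ (3 * C₄ + C) * (q : ℝ) ^ (ε - 1) * x := by
        have h8 : |x * (E q).eval t| = ‖((x * (E q).eval t : ℝ) : ℂ)‖ := by
          rw [Complex.norm_real, Real.norm_eq_abs]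
        rw [h8]
        have h9 : ‖((x * (E q).eval t : ℝ) : ℂ)‖ ≤ ‖SS (dr r) ⌊x⌋₊ (((1 : ℤ) : ℝ) / q)‖ +
            ‖SS (dr r) ⌊x⌋₊ (((1 : ℤ) : ℝ) / q) - ((x * (E q).eval t : ℝ) : ℂ)‖ := by
          have h10 : ((x * (E q).eval t : ℝ) : ℂ) = SS (dr r) ⌊x⌋₊ (((1 : ℤ) : ℝ) / q) -
              (SS (dr r) ⌊x⌋₊ (((1 : ℤ) : ℝ) / q) - ((x * (E q).eval t : ℝ) : ℂ)) := by ring
          calc ‖((x * (E q).eval t : ℝ) : ℂ)‖ = ‖SS (dr r) ⌊x⌋₊ (((1 : ℤ) : ℝ) / q) -
              (SS (dr r) ⌊x⌋₊ (((1 : ℤ) : ℝ) / q) - ((x * (E q).eval t : ℝ) : ℂ))‖ := by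
                rw [← h10]
            _ ≤ _ := norm_sub_le _ _
        exact (h9.trans (add_le_add h4' hap')).trans hk
      rw [abs_mul, abs_of_pos hx0, mul_comm] at hn
      exact le_of_mul_le_mul_right hn hx0) j
  have hqe : 0 ≤ (q : ℝ) ^ (ε - 1) := by positivity
  calc |(E q).coeff j| ≤ C₅ * ((3 * C₄ + C) * (q : ℝ) ^ (ε - 1)) := hb
    _ = C₅ * (3 * C₄ + C) * (q : ℝ) ^ (ε - 1) := by ring
    _ ≤ (C₅ * (3 * C₄ + C) + S) * (q : ℝ) ^ (ε - 1) :=
        mul_le_mul_of_nonneg_right (by linarith) hqe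

end Pool.Agent.Work.MP_122e00_nt.TS
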