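import Pool.Agent.Work.MP_122e00_nt.TS.Stmts3

/-!
# Item F1 of the block TS: Abel summation
-/

namespace Pool.Agent.Work.MP_122e00_nt.TS

open Finset Filter Topology ArithmeticFunction
open scoped ArithmeticFunction.zeta ArithmeticFunction.Moebius

namespace IF1

/-- Abel summation, for any sequence `e`. -/
lemma abel (b : ℕ → ℝ) (e : ℕ → ℂ) (N : ℕ) (hN : 1 ≤ N) :
    ∑ n ∈ Finset.Icc 1 N, (b n : ℂ) * e n =
      (b N : ℂ) * (∑ m ∈ Finset.Ioc 0 N, e m) -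
        ∑ n ∈ Finset.Ico 1 N, ((b (n + 1) - b n : ℝ) : ℂ) * (∑ m ∈ Finset.Ioc 0 n, e m) := by
  induction N, hN using Nat.le_induction with
  | base => simp
  | succ N hN ih =>
    rw [Finset.sum_Icc_succ_top (by omega), ih, Finset.sum_Ico_succ_top hN,
      Finset.sum_Ioc_succ_top (Nat.zero_le N)]
    push_cast
    ring

end IF1

/-- F1: Abel summation. -/
theorem prF1 (hGS : tsGS) : tsF1 := by
  intro b V γ N hV
  have hnn : 0 ≤ nn γ := abs_nonneg _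
  have hsum0 : 0 ≤ ∑ n ∈ Finset.Ico 1 N, |b (n + 1) - b n| :=
    Finset.sum_nonneg fun _ _ => abs_nonneg _
  have hV0 : 0 ≤ V := le_trans (add_nonneg (abs_nonneg _) hsum0) hV
  rcases Nat.eq_zero_or_pos N with rfl | hN
  · simpa using hV0
  · have hS : ∀ n : ℕ, ‖∑ m ∈ Finset.Ioc 0 n, ee (m * γ)‖ * nn γ ≤ 1 / 2 :=
      fun n => (hGS 0 n γ).1
    rw [IF1.abel b (fun n => ee (n * γ)) N hN]
    have h1 : ‖(b N : ℂ) * (∑ m ∈ Finset.Ioc 0 N, ee (m * γ)) -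
        ∑ n ∈ Finset.Ico 1 N, ((b (n + 1) - b n : ℝ) : ℂ) * (∑ m ∈ Finset.Ioc 0 n, ee (m * γ))‖ ≤
        |b N| * ‖∑ m ∈ Finset.Ioc 0 N, ee (m * γ)‖ +
          ∑ n ∈ Finset.Ico 1 N, |b (n + 1) - b n| * ‖∑ m ∈ Finset.Ioc 0 n, ee (m * γ)‖ := by
      refine (norm_sub_le _ _).trans (add_le_add ?_ ?_)
      · rw [norm_mul, Complex.norm_real, Real.norm_eq_abs]
      · refine (norm_sum_le _ _).trans (Finset.sum_le_sum fun n _ => ?_)
        rw [norm_mul, Complex.norm_real, Real.norm_eq_abs]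
    have h2 : (|b N| * ‖∑ m ∈ Finset.Ioc 0 N, ee (m * γ)‖ +
          ∑ n ∈ Finset.Ico 1 N, |b (n + 1) - b n| * ‖∑ m ∈ Finset.Ioc 0 n, ee (m * γ)‖) * nn γ ≤
        |b N| * (1 / 2) + ∑ n ∈ Finset.Ico 1 N, |b (n + 1) - b n| * (1 / 2) := by
      rw [add_mul, Finset.sum_mul]
      refine add_le_add ?_ (Finset.sum_le_sum fun n _ => ?_)
      · rw [mul_assoc]
        exact mul_le_mul_of_nonneg_left (hS N) (abs_nonneg _)
      · rw [mul_assoc]
        exact mul_le_mul_of_nonneg_left (hS n) (abs_nonneg _)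
    rw [← Finset.sum_mul] at h2
    have h3 := mul_le_mul_of_nonneg_right h1 hnn
    have h4 := abs_nonneg (b N)
    linarith

end Pool.Agent.Work.MP_122e00_nt.TS
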