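import Mathlib
import Pool.Agent.Work.MP_122e00_nt.TS.Stmts3

set_option autoImplicit false

/-! # Item F2 of the block TS: variation of `p(log n) p'(log(n + h))` -/

namespace Pool.Agent.Work.MP_122e00_nt.TS

open Finset Filter Topology ArithmeticFunction
open scoped ArithmeticFunction.zeta ArithmeticFunction.Moebius

namespace IF2

/-- the sum of all monomials -/
noncomputable def U (d : ℕ) (x y : ℝ) : ℝ :=
  ∑ i ∈ Finset.range (d + 1), ∑ j ∈ Finset.range (d + 1), x ^ i * y ^ j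

theorem expand (d : ℕ) (p p' : Polynomial ℝ) (hp : p.natDegree ≤ d) (hp' : p'.natDegree ≤ d)
    (x y : ℝ) : p.eval x * p'.eval y = ∑ i ∈ Finset.range (d + 1), ∑ j ∈ Finset.range (d + 1),
      p.coeff i * p'.coeff j * (x ^ i * y ^ j) := by
  rw [Polynomial.eval_eq_sum_range' (Nat.lt_succ_of_le hp) x,
    Polynomial.eval_eq_sum_range' (Nat.lt_succ_of_le hp') y, Finset.sum_mul_sum]
  refine Finset.sum_congr rfl fun i _ => Finset.sum_congr rfl fun j _ => ?_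
  ring

theorem val (d : ℕ) (p p' : Polynomial ℝ) (M M' : ℝ) (hp : p.natDegree ≤ d)
    (hp' : p'.natDegree ≤ d) (hM : ∀ j, |p.coeff j| ≤ M) (hM' : ∀ j, |p'.coeff j| ≤ M')
    (x y : ℝ) (hx : 0 ≤ x) (hy : 0 ≤ y) : |p.eval x * p'.eval y| ≤ M * M' * U d x y := by
  have hM0 : 0 ≤ M := le_trans (abs_nonneg _) (hM 0)
  rw [expand d p p' hp hp', U, Finset.mul_sum]
  refine le_trans (Finset.abs_sum_le_sum_abs _ _) (Finset.sum_le_sum fun i _ => ?_)
  rw [Finset.mul_sum]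
  refine le_trans (Finset.abs_sum_le_sum_abs _ _) (Finset.sum_le_sum fun j _ => ?_)
  rw [abs_mul, abs_mul, abs_of_nonneg (by positivity : 0 ≤ x ^ i * y ^ j)]
  exact mul_le_mul_of_nonneg_right (mul_le_mul (hM i) (hM' j) (abs_nonneg _) hM0) (by positivity)

theorem diff (d : ℕ) (p p' : Polynomial ℝ) (M M' : ℝ) (hp : p.natDegree ≤ d)
    (hp' : p'.natDegree ≤ d) (hM : ∀ j, |p.coeff j| ≤ M) (hM' : ∀ j, |p'.coeff j| ≤ M')
    (x y x1 y1 : ℝ) (hx : 0 ≤ x) (hy : 0 ≤ y) (hx1 : x ≤ x1) (hy1 : y ≤ y1) :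
    |p.eval x1 * p'.eval y1 - p.eval x * p'.eval y| ≤ M * M' * (U d x1 y1 - U d x y) := by
  have hM0 : 0 ≤ M := le_trans (abs_nonneg _) (hM 0)
  rw [expand d p p' hp hp', expand d p p' hp hp', U, U, ← Finset.sum_sub_distrib,
    ← Finset.sum_sub_distrib, Finset.mul_sum]
  refine le_trans (Finset.abs_sum_le_sum_abs _ _) (Finset.sum_le_sum fun i _ => ?_)
  rw [← Finset.sum_sub_distrib, ← Finset.sum_sub_distrib, Finset.mul_sum]
  refine le_trans (Finset.abs_sum_le_sum_abs _ _) (Finset.sum_le_sum fun j _ => ?_)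
  have h1 : x ^ i * y ^ j ≤ x1 ^ i * y1 ^ j :=
    mul_le_mul (pow_le_pow_left₀ hx hx1 i) (pow_le_pow_left₀ hy hy1 j) (by positivity)
      (pow_nonneg (le_trans hx hx1) i)
  rw [← mul_sub, abs_mul, abs_mul, abs_of_nonneg (sub_nonneg.2 h1)]
  exact mul_le_mul_of_nonneg_right (mul_le_mul (hM i) (hM' j) (abs_nonneg _) hM0)
    (sub_nonneg.2 h1)

theorem U_nonneg (d : ℕ) (x y : ℝ) (hx : 0 ≤ x) (hy : 0 ≤ y) : 0 ≤ U d x y :=
  Finset.sum_nonneg fun i _ => Finset.sum_nonneg fun j _ => by positivity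

theorem U_le (d : ℕ) (x y L : ℝ) (hx : 0 ≤ x) (hy : 0 ≤ y) (hxL : x ≤ L) (hyL : y ≤ L) :
    U d x y ≤ ((d : ℝ) + 1) ^ 2 * (1 + L) ^ (2 * d) := by
  have hL : 0 ≤ L := le_trans hx hxL
  have h1 : U d x y ≤ ∑ i ∈ Finset.range (d + 1), ∑ j ∈ Finset.range (d + 1),
      (1 + L) ^ (2 * d) := by
    refine Finset.sum_le_sum fun i hi => Finset.sum_le_sum fun j hj => ?_
    rw [Finset.mem_range] at hi hj
    calc x ^ i * y ^ j ≤ (1 + L) ^ i * (1 + L) ^ j :=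
          mul_le_mul (pow_le_pow_left₀ hx (by linarith) i) (pow_le_pow_left₀ hy (by linarith) j)
            (by positivity) (by positivity)
      _ = (1 + L) ^ (i + j) := by rw [pow_add]
      _ ≤ (1 + L) ^ (2 * d) := pow_le_pow_right₀ (by linarith) (by omega)
  refine le_trans h1 (le_of_eq ?_)
  rw [Finset.sum_const, Finset.sum_const, Finset.card_range, nsmul_eq_mul, nsmul_eq_mul]
  push_cast
  ring

theorem tele (f : ℕ → ℝ) (N : ℕ) (hN : 1 ≤ N) :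
    ∑ n ∈ Finset.Ico 1 N, (f (n + 1) - f n) = f N - f 1 := by
  induction N, hN using Nat.le_induction with
  | base => simp
  | succ n hn ih => rw [Finset.sum_Ico_succ_top hn, ih]; ring

end IF2

theorem prF2 : tsF2 := by
  intro d
  refine ⟨2 * ((d : ℝ) + 1) ^ 2, by positivity, ?_⟩
  intro p p' M M' N h hp hp' hM hM' hN
  have hM0 : 0 ≤ M := le_trans (abs_nonneg _) (hM 0)
  have hM0' : 0 ≤ M' := le_trans (abs_nonneg _) (hM' 0)
  obtain ⟨V, hV⟩ : ∃ V : ℕ → ℝ, V = fun n : ℕ => IF2.U d (Real.log (n : ℝ)) (Real.log ((n : ℝ) + h)) :=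
    ⟨_, rfl⟩
  have hpos : ∀ n : ℕ, 1 ≤ n → (1 : ℝ) ≤ n := fun n hn => by exact_mod_cast hn
  have hh : (0 : ℝ) ≤ h := Nat.cast_nonneg h
  have ha : ∀ n : ℕ, 1 ≤ n → 0 ≤ Real.log n := fun n hn => Real.log_nonneg (hpos n hn)
  have hb : ∀ n : ℕ, 1 ≤ n → 0 ≤ Real.log ((n : ℝ) + h) := fun n hn =>
    Real.log_nonneg (by linarith [hpos n hn])
  have h1 : |p.eval (Real.log N) * p'.eval (Real.log ((N : ℝ) + h))| ≤ M * M' * V N := by
    rw [hV]
    exact IF2.val d p p' M M' hp hp' hM hM' _ _ (ha N hN) (hb N hN)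
  have h2 : ∑ n ∈ Finset.Ico 1 N, |p.eval (Real.log ((n + 1 : ℕ) : ℝ)) *
        p'.eval (Real.log (((n + 1 : ℕ) : ℝ) + h)) -
      p.eval (Real.log n) * p'.eval (Real.log ((n : ℝ) + h))| ≤
      M * M' * (V N - V 1) := by
    rw [← IF2.tele V N hN, Finset.mul_sum]
    refine Finset.sum_le_sum fun n hn => ?_
    rw [Finset.mem_Ico] at hn
    have h3 := hpos n hn.1
    have h4 : (n : ℝ) ≤ ((n + 1 : ℕ) : ℝ) := by push_cast; linarith
    rw [hV]
    exact IF2.diff d p p' M M' hp hp' hM hM' _ _ _ _ (ha n hn.1) (hb n hn.1)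
      (Real.log_le_log (by linarith) h4) (Real.log_le_log (by linarith) (by linarith))
  have h5 : 0 ≤ V 1 := by
    rw [hV]
    exact IF2.U_nonneg d _ _ (ha 1 le_rfl) (hb 1 le_rfl)
  have h6 : V N ≤ ((d : ℝ) + 1) ^ 2 * (1 + Real.log ((N : ℝ) + h)) ^ (2 * d) := by
    rw [hV]
    exact IF2.U_le d _ _ _ (ha N hN) (hb N hN)
      (Real.log_le_log (by linarith [hpos N hN]) (by linarith)) le_rfl
  have hMM : 0 ≤ M * M' := mul_nonneg hM0 hM0'
  have h7 : M * M' * V N ≤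
      M * M' * (((d : ℝ) + 1) ^ 2 * (1 + Real.log ((N : ℝ) + h)) ^ (2 * d)) :=
    mul_le_mul_of_nonneg_left h6 hMM
  have h8 : 0 ≤ M * M' * V 1 := mul_nonneg hMM h5
  have h9 : 2 * ((d : ℝ) + 1) ^ 2 * M * M' * (1 + Real.log ((N : ℝ) + h)) ^ (2 * d) =
      2 * (M * M' * (((d : ℝ) + 1) ^ 2 * (1 + Real.log ((N : ℝ) + h)) ^ (2 * d))) := by ring
  have h10 : M * M' * (V N - V 1) = M * M' * V N - M * M' * V 1 := by ring
  rw [h9]
  linarith

end Pool.Agent.Work.MP_122e00_nt.TS
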