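import Pool.Agent.Work.MP_122e00_nt.TS.Stmts3

/-!
# Thin shifts, item F3 (helper61): the sum of the density
-/

namespace Pool.Agent.Work.MP_122e00_nt.TS

open Finset Filter Topology

namespace IF3

lemma eval_bd (d : ℕ) (P : Polynomial ℝ) (M y : ℝ) (hP : P.natDegree ≤ d)
    (hM : ∀ j, |P.coeff j| ≤ M) (hy : 0 ≤ y) : |P.eval y| ≤ (d + 1) * M * (1 + y) ^ d := by
  have hM0 : 0 ≤ M := le_trans (abs_nonneg _) (hM 0)
  rw [Polynomial.eval_eq_sum_range' (Nat.lt_succ_of_le hP)]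
  refine (Finset.abs_sum_le_sum_abs _ _).trans ?_
  have : ∀ i ∈ Finset.range (d + 1), |P.coeff i * y ^ i| ≤ M * (1 + y) ^ d := by
    intro i hi
    have hi' : i ≤ d := Nat.lt_succ_iff.1 (Finset.mem_range.1 hi)
    rw [abs_mul, abs_of_nonneg (pow_nonneg hy i)]
    refine mul_le_mul (hM i) ?_ (pow_nonneg hy i) hM0
    calc y ^ i ≤ (1 + y) ^ i := pow_le_pow_left₀ hy (by linarith) i
      _ ≤ (1 + y) ^ d := pow_le_pow_right₀ (by linarith) hi'
  refine (Finset.sum_le_sum this).trans (le_of_eq ?_)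
  rw [Finset.sum_const, Finset.card_range, nsmul_eq_mul]
  push_cast
  ring

lemma der_bd (d : ℕ) (P : Polynomial ℝ) (M : ℝ) (hP : P.natDegree ≤ d)
    (hM : ∀ j, |P.coeff j| ≤ M) (j : ℕ) : |(Polynomial.derivative P).coeff j| ≤ d * M := by
  have hM0 : 0 ≤ M := le_trans (abs_nonneg _) (hM 0)
  rw [Polynomial.coeff_derivative]
  by_cases hj : j + 1 ≤ d
  · rw [abs_mul]
    have h1 : |((j : ℝ) + 1)| ≤ d := by
      rw [abs_of_nonneg (by positivity)]
      exact_mod_cast hj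
    calc |P.coeff (j + 1)| * |((j : ℝ) + 1)| ≤ M * d :=
          mul_le_mul (hM _) h1 (abs_nonneg _) hM0
      _ = d * M := mul_comm _ _
  · rw [Polynomial.coeff_eq_zero_of_natDegree_lt (by omega), zero_mul, abs_zero]
    positivity

lemma deg_der (d : ℕ) (P : Polynomial ℝ) (hP : P.natDegree ≤ d) :
    (Polynomial.derivative P).natDegree ≤ d :=
  (Polynomial.natDegree_derivative_le P).trans (by omega)

lemma deg_ed (d : ℕ) (P : Polynomial ℝ) (hP : P.natDegree ≤ d) : (ed P).natDegree ≤ d :=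
  (Polynomial.natDegree_add_le _ _).trans (max_le hP (deg_der d P hP))

lemma ed_bd (d : ℕ) (P : Polynomial ℝ) (M : ℝ) (hP : P.natDegree ≤ d)
    (hM : ∀ j, |P.coeff j| ≤ M) (j : ℕ) : |(ed P).coeff j| ≤ (d + 1) * M := by
  unfold ed
  rw [Polynomial.coeff_add]
  refine (abs_add_le _ _).trans ?_
  have h1 := hM j
  have h2 := der_bd d P M hP hM j
  linarith

lemma hasDeriv_log (P : Polynomial ℝ) (t : ℝ) (ht : 0 < t) :
    HasDerivAt (fun t => P.eval (Real.log t)) ((Polynomial.derivative P).eval (Real.log t) * t⁻¹)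
      t :=
  (P.hasDerivAt (Real.log t)).comp t (Real.hasDerivAt_log ht.ne')

lemma hasDeriv_F (P : Polynomial ℝ) (t : ℝ) (ht : 0 < t) :
    HasDerivAt (fun t => t * P.eval (Real.log t)) ((ed P).eval (Real.log t)) t := by
  have h := (hasDerivAt_id t).mul (hasDeriv_log P t ht)
  have e : (1 : ℝ) * P.eval (Real.log t) +
      id t * ((Polynomial.derivative P).eval (Real.log t) * t⁻¹) = (ed P).eval (Real.log t) := by
    unfold ed
    rw [Polynomial.eval_add]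
    simp only [id]
    field_simp
  rw [← e]
  exact h

/-- One step. -/
lemma step (d : ℕ) (p : Polynomial ℝ) (M : ℝ) (hp : p.natDegree ≤ d)
    (hM : ∀ j, |p.coeff j| ≤ M) (n : ℕ) (hn : 1 ≤ n) :
    |(ed p).eval (Real.log ((n + 1 : ℕ) : ℝ)) - ((((n + 1 : ℕ) : ℝ)) *
      p.eval (Real.log ((n + 1 : ℕ) : ℝ)) - n * p.eval (Real.log n))| ≤
      2 * (d + 1) ^ 3 * M * ((1 + Real.log ((n + 1 : ℕ) : ℝ)) ^ (d + 1) -
        (1 + Real.log n) ^ (d + 1)) := by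
  have hM0 : 0 ≤ M := le_trans (abs_nonneg _) (hM 0)
  have hn0 : (0 : ℝ) < n := by exact_mod_cast hn
  have hn1 : (1 : ℝ) ≤ n := by exact_mod_cast hn
  have hlt : (n : ℝ) < ((n + 1 : ℕ) : ℝ) := by push_cast; linarith
  set F : ℝ → ℝ := fun t => t * p.eval (Real.log t) with hF
  set φ : ℝ → ℝ := fun t => (ed p).eval (Real.log t) with hφ
  obtain ⟨ξ, hξ, hξe⟩ := exists_hasDerivAt_eq_slope F φ hlt
    (fun t ht => (hasDeriv_F p t (lt_of_lt_of_le hn0 ht.1)).continuousAt.continuousWithinAt)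
    (fun t ht => hasDeriv_F p t (hn0.trans ht.1))
  have hden : (((n + 1 : ℕ) : ℝ) - n) = 1 := by push_cast; ring
  rw [hden, div_one] at hξe
  have hlog0 : 0 ≤ Real.log ((n + 1 : ℕ) : ℝ) := Real.log_nonneg (by push_cast; linarith)
  -- the derivative of φ
  have hder : ∀ t ∈ Set.Icc (n : ℝ) ((n + 1 : ℕ) : ℝ),
      ‖(Polynomial.derivative (ed p)).eval (Real.log t) * t⁻¹‖ ≤
        (d + 1) * (d * ((d + 1) * M)) * (1 + Real.log ((n + 1 : ℕ) : ℝ)) ^ d * (n : ℝ)⁻¹ := by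
    intro t ht
    have ht0 : 0 < t := lt_of_lt_of_le hn0 ht.1
    have hlt0 : 0 ≤ Real.log t := Real.log_nonneg (hn1.trans ht.1)
    rw [norm_mul, Real.norm_eq_abs, Real.norm_eq_abs, abs_of_pos (inv_pos.2 ht0)]
    have h1 := eval_bd d (Polynomial.derivative (ed p)) (d * ((d + 1) * M)) (Real.log t)
      (deg_der d _ (deg_ed d p hp)) (der_bd d (ed p) _ (deg_ed d p hp) (ed_bd d p M hp hM)) hlt0
    have h2 : (1 + Real.log t) ^ d ≤ (1 + Real.log ((n + 1 : ℕ) : ℝ)) ^ d :=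
      pow_le_pow_left₀ (by linarith) (by linarith [Real.log_le_log ht0 ht.2]) d
    have h3 : t⁻¹ ≤ (n : ℝ)⁻¹ := inv_anti₀ hn0 ht.1
    refine mul_le_mul (h1.trans ?_) h3 (inv_pos.2 ht0).le (by positivity)
    exact mul_le_mul_of_nonneg_left h2 (by positivity)
  have hmv := Convex.norm_image_sub_le_of_norm_hasDerivWithin_le
    (f := φ) (s := Set.Icc (n : ℝ) ((n + 1 : ℕ) : ℝ))
    (fun t ht => (hasDeriv_log (ed p) t (lt_of_lt_of_le hn0 ht.1)).hasDerivWithinAt)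
    hder (convex_Icc _ _) (Set.mem_Icc_of_Ioo hξ) (Set.right_mem_Icc.2 hlt.le)
  have hξ1 : ‖((n + 1 : ℕ) : ℝ) - ξ‖ ≤ 1 := by
    rw [Real.norm_eq_abs, abs_of_nonneg (by linarith [hξ.2])]
    have := hξ.1
    push_cast
    linarith
  have e1 : (ed p).eval (Real.log ((n + 1 : ℕ) : ℝ)) - ((((n + 1 : ℕ) : ℝ)) *
      p.eval (Real.log ((n + 1 : ℕ) : ℝ)) - n * p.eval (Real.log n)) =
      φ ((n + 1 : ℕ) : ℝ) - φ ξ := by
    rw [hξe]
  rw [e1, ← Real.norm_eq_abs]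
  -- the potential
  set a : ℝ := 1 + Real.log ((n + 1 : ℕ) : ℝ) with ha
  set b : ℝ := 1 + Real.log n with hb
  have hb1 : 1 ≤ b := by
    have : 0 ≤ Real.log (n : ℝ) := Real.log_nonneg hn1
    linarith
  have hab : (((n + 1 : ℕ) : ℝ))⁻¹ ≤ a - b := by
    have h := Real.one_sub_inv_le_log_of_pos (x := ((n + 1 : ℕ) : ℝ) / n) (by positivity)
    rw [Real.log_div (by positivity) hn0.ne'] at h
    have h' : (((n + 1 : ℕ) : ℝ))⁻¹ = 1 - (((n + 1 : ℕ) : ℝ) / n)⁻¹ := by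
      rw [inv_div]
      push_cast
      field_simp
      ring
    rw [h']
    have : a - b = Real.log ((n + 1 : ℕ) : ℝ) - Real.log n := by rw [ha, hb]; ring
    rw [this]
    exact h
  have hab0 : b ≤ a := by
    have : (0 : ℝ) < (((n + 1 : ℕ) : ℝ))⁻¹ := by positivity
    linarith
  have hpot : a ^ d * (((n + 1 : ℕ) : ℝ))⁻¹ ≤ a ^ (d + 1) - b ^ (d + 1) := by
    have h1 : b ^ d ≤ a ^ d := pow_le_pow_left₀ (by linarith) hab0 d
    have h2 : a ^ d * (((n + 1 : ℕ) : ℝ))⁻¹ ≤ a ^ d * (a - b) :=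
      mul_le_mul_of_nonneg_left hab (by positivity)
    have h3 : b ^ d * b ≤ a ^ d * b := mul_le_mul_of_nonneg_right h1 (by linarith)
    calc a ^ d * (((n + 1 : ℕ) : ℝ))⁻¹ ≤ a ^ d * (a - b) := h2
      _ = a ^ d * a - a ^ d * b := by ring
      _ ≤ a ^ d * a - b ^ d * b := by linarith
      _ = a ^ (d + 1) - b ^ (d + 1) := by rw [pow_succ, pow_succ]
  have hinv : (n : ℝ)⁻¹ ≤ 2 * (((n + 1 : ℕ) : ℝ))⁻¹ := by
    rw [← div_eq_mul_inv, inv_eq_one_div, div_le_div_iff₀ hn0 (by positivity)]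
    push_cast
    linarith
  have ha0 : 0 ≤ a ^ d := by positivity
  calc ‖φ ((n + 1 : ℕ) : ℝ) - φ ξ‖
      ≤ (d + 1) * (d * ((d + 1) * M)) * a ^ d * (n : ℝ)⁻¹ * ‖((n + 1 : ℕ) : ℝ) - ξ‖ := hmv
    _ ≤ (d + 1) * (d * ((d + 1) * M)) * a ^ d * (n : ℝ)⁻¹ * 1 :=
        mul_le_mul_of_nonneg_left hξ1 (by positivity)
    _ = (d + 1) * (d * ((d + 1) * M)) * (a ^ d * (n : ℝ)⁻¹) := by ring
    _ ≤ (d + 1) * (d * ((d + 1) * M)) * (a ^ d * (2 * (((n + 1 : ℕ) : ℝ))⁻¹)) :=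
        mul_le_mul_of_nonneg_left (mul_le_mul_of_nonneg_left hinv ha0) (by positivity)
    _ ≤ (d + 1) * ((d + 1) * ((d + 1) * M)) * (a ^ d * (2 * (((n + 1 : ℕ) : ℝ))⁻¹)) := by
        refine mul_le_mul_of_nonneg_right ?_ (by positivity)
        refine mul_le_mul_of_nonneg_left ?_ (by positivity)
        exact mul_le_mul_of_nonneg_right (by linarith) (by positivity)
    _ = 2 * (d + 1) ^ 3 * M * (a ^ d * (((n + 1 : ℕ) : ℝ))⁻¹) := by ring
    _ ≤ 2 * (d + 1) ^ 3 * M * (a ^ (d + 1) - b ^ (d + 1)) :=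
        mul_le_mul_of_nonneg_left hpot (by positivity)

lemma sum_bd (d : ℕ) (p : Polynomial ℝ) (M : ℝ) (hp : p.natDegree ≤ d)
    (hM : ∀ j, |p.coeff j| ≤ M) (n : ℕ) (hn : 1 ≤ n) :
    |∑ m ∈ Finset.Icc 1 n, (ed p).eval (Real.log m) - n * p.eval (Real.log n)| ≤
      2 * (d + 1) ^ 3 * M * (1 + Real.log n) ^ (d + 1) := by
  have hM0 : 0 ≤ M := le_trans (abs_nonneg _) (hM 0)
  induction n, hn using Nat.le_induction with
  | base =>
    simp only [Finset.Icc_self, Finset.sum_singleton, Nat.cast_one, Real.log_one, add_zero,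
      one_pow, mul_one, one_mul]
    unfold ed
    rw [Polynomial.eval_add, add_sub_cancel_left]
    have h := der_bd d p M hp hM 0
    rw [Polynomial.coeff_zero_eq_eval_zero] at h
    have hd : (0 : ℝ) ≤ d := Nat.cast_nonneg d
    have h2 : (d : ℝ) * M ≤ 2 * (d + 1) ^ 3 * M := by
      refine mul_le_mul_of_nonneg_right ?_ hM0
      nlinarith [pow_nonneg hd 2, pow_nonneg hd 3]
    exact h.trans h2
  | succ n hn ih =>
    have hs := step d p M hp hM n hn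
    rw [Finset.sum_Icc_succ_top (by omega)]
    have e : ∑ m ∈ Finset.Icc 1 n, (ed p).eval (Real.log m) +
        (ed p).eval (Real.log ((n + 1 : ℕ) : ℝ)) -
        ((n + 1 : ℕ) : ℝ) * p.eval (Real.log ((n + 1 : ℕ) : ℝ)) =
        (∑ m ∈ Finset.Icc 1 n, (ed p).eval (Real.log m) - n * p.eval (Real.log n)) +
        ((ed p).eval (Real.log ((n + 1 : ℕ) : ℝ)) - ((((n + 1 : ℕ) : ℝ)) *
      p.eval (Real.log ((n + 1 : ℕ) : ℝ)) - n * p.eval (Real.log n))) := by ring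
    rw [e]
    refine (abs_add_le _ _).trans ?_
    refine (add_le_add ih hs).trans (le_of_eq ?_)
    ring

end IF3

theorem prF3 : tsF3 := by
  intro d
  refine ⟨3 * (d + 1) ^ 3, by positivity, ?_⟩
  intro p M x hp hM hx
  have hM0 : 0 ≤ M := le_trans (abs_nonneg _) (hM 0)
  have hN : 1 ≤ ⌊x⌋₊ := (Nat.one_le_floor_iff x).2 hx
  have hNR : (1 : ℝ) ≤ (⌊x⌋₊ : ℝ) := by exact_mod_cast hN
  have hNx : (⌊x⌋₊ : ℝ) ≤ x := Nat.floor_le (by linarith)
  have hxN : x - ⌊x⌋₊ ≤ 1 := by linarith [Nat.lt_floor_add_one x]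
  have hlx : 0 ≤ Real.log x := Real.log_nonneg hx
  have h1 := IF3.sum_bd d p M hp hM ⌊x⌋₊ hN
  have hder : ∀ t ∈ Set.Icc (⌊x⌋₊ : ℝ) x, ‖(ed p).eval (Real.log t)‖ ≤
      (d + 1) * ((d + 1) * M) * (1 + Real.log x) ^ d := by
    intro t ht
    have ht0 : 0 < t := by linarith [ht.1]
    have hlt0 : 0 ≤ Real.log t := Real.log_nonneg (hNR.trans ht.1)
    rw [Real.norm_eq_abs]
    refine (IF3.eval_bd d (ed p) _ (Real.log t) (IF3.deg_ed d p hp)
      (IF3.ed_bd d p M hp hM) hlt0).trans ?_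
    refine mul_le_mul_of_nonneg_left ?_ (by positivity)
    exact pow_le_pow_left₀ (by linarith) (by linarith [Real.log_le_log ht0 ht.2]) d
  have hmv := Convex.norm_image_sub_le_of_norm_hasDerivWithin_le
    (f := fun t => t * p.eval (Real.log t)) (s := Set.Icc (⌊x⌋₊ : ℝ) x)
    (fun t ht => (IF3.hasDeriv_F p t (by linarith [ht.1])).hasDerivWithinAt)
    hder (convex_Icc _ _) (Set.left_mem_Icc.2 hNx) (Set.right_mem_Icc.2 hNx)
  simp only [Real.norm_eq_abs] at hmv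
  have h2 : |x * p.eval (Real.log x) - ⌊x⌋₊ * p.eval (Real.log ⌊x⌋₊)| ≤
      (d + 1) ^ 3 * M * (1 + Real.log x) ^ (d + 1) := by
    refine hmv.trans ?_
    have h3 : |x - ⌊x⌋₊| ≤ 1 := by
      rw [abs_of_nonneg (by linarith)]
      exact hxN
    have h4 : (1 + Real.log x) ^ d ≤ (1 + Real.log x) ^ (d + 1) :=
      pow_le_pow_right₀ (by linarith) (Nat.le_succ d)
    have hd : (0 : ℝ) ≤ d := Nat.cast_nonneg d
    calc (d + 1) * ((d + 1) * M) * (1 + Real.log x) ^ d * |x - ⌊x⌋₊|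
        ≤ (d + 1) * ((d + 1) * M) * (1 + Real.log x) ^ d * 1 :=
          mul_le_mul_of_nonneg_left h3 (by positivity)
      _ = (d + 1) ^ 2 * M * (1 + Real.log x) ^ d := by ring
      _ ≤ (d + 1) ^ 2 * M * (1 + Real.log x) ^ (d + 1) :=
          mul_le_mul_of_nonneg_left h4 (by positivity)
      _ ≤ (d + 1) ^ 3 * M * (1 + Real.log x) ^ (d + 1) := by
          refine mul_le_mul_of_nonneg_right ?_ (by positivity)
          refine mul_le_mul_of_nonneg_right ?_ hM0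
          exact pow_le_pow_right₀ (by linarith) (by norm_num)
  have h5 : (1 + Real.log (⌊x⌋₊ : ℝ)) ^ (d + 1) ≤ (1 + Real.log x) ^ (d + 1) := by
    have : 0 ≤ Real.log (⌊x⌋₊ : ℝ) := Real.log_nonneg hNR
    exact pow_le_pow_left₀ (by linarith)
      (by linarith [Real.log_le_log (by linarith) hNx]) _
  have h6 : 2 * (d + 1) ^ 3 * M * (1 + Real.log (⌊x⌋₊ : ℝ)) ^ (d + 1) ≤
      2 * (d + 1) ^ 3 * M * (1 + Real.log x) ^ (d + 1) :=
    mul_le_mul_of_nonneg_left h5 (by positivity)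
  have e : ∑ n ∈ Finset.Icc 1 ⌊x⌋₊, (ed p).eval (Real.log n) - x * p.eval (Real.log x) =
      (∑ n ∈ Finset.Icc 1 ⌊x⌋₊, (ed p).eval (Real.log n) - ⌊x⌋₊ * p.eval (Real.log ⌊x⌋₊)) -
      (x * p.eval (Real.log x) - ⌊x⌋₊ * p.eval (Real.log ⌊x⌋₊)) := by ring
  rw [e]
  refine (abs_sub _ _).trans ?_
  refine (add_le_add (h1.trans h6) h2).trans (le_of_eq ?_)
  ring

end Pool.Agent.Work.MP_122e00_nt.TS
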