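import Pool.Agent.Work.MP_122e00_nt.TS.Stmts3

/-!
# Thin shifts, item F4: the major arcs
-/

set_option autoImplicit false

namespace Pool.Agent.Work.MP_122e00_nt.TS

open Finset Filter Topology ArithmeticFunction
open scoped ArithmeticFunction.zeta ArithmeticFunction.Moebius

namespace IF4

theorem ee_add (x y : ℝ) : ee (x + y) = ee x * ee y := by
  unfold ee
  rw [← Complex.exp_add]
  congr 1
  push_cast
  ring

theorem ee_norm (x : ℝ) : ‖ee x‖ = 1 := by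
  unfold ee
  exact Complex.norm_exp_ofReal_mul_I _

theorem ee_sub_one (β : ℝ) : ‖ee β - 1‖ ≤ 2 * Real.pi * |β| := by
  have h := Real.norm_exp_I_mul_ofReal_sub_one_le (x := 2 * Real.pi * β)
  have h2 : ‖(2 * Real.pi * β : ℝ)‖ = 2 * Real.pi * |β| := by
    rw [Real.norm_eq_abs, abs_mul, abs_of_pos Real.two_pi_pos]
  rw [h2] at h
  refine le_trans (le_of_eq ?_) h
  unfold ee
  rw [mul_comm]

theorem ee_step (β : ℝ) (n : ℕ) :
    ‖ee (((n + 1 : ℕ) : ℝ) * β) - ee ((n : ℝ) * β)‖ ≤ 2 * Real.pi * |β| := by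
  have h : ee (((n + 1 : ℕ) : ℝ) * β) - ee ((n : ℝ) * β) = ee ((n : ℝ) * β) * (ee β - 1) := by
    have : (((n + 1 : ℕ) : ℝ) * β) = (n : ℝ) * β + β := by
      push_cast
      ring
    rw [this, ee_add]
    ring
  rw [h, norm_mul, ee_norm, one_mul]
  exact ee_sub_one β

theorem abel (r g : ℕ → ℂ) (N : ℕ) : ∑ n ∈ Finset.Icc 1 N, r n * g n =
    (∑ m ∈ Finset.Icc 1 N, r m) * g N -
      ∑ n ∈ Finset.range N, (∑ m ∈ Finset.Icc 1 n, r m) * (g (n + 1) - g n) := by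
  induction N with
  | zero => simp
  | succ N ih =>
    rw [Finset.sum_Icc_succ_top (Nat.le_add_left 1 N), Finset.sum_Icc_succ_top (Nat.le_add_left 1 N),
      Finset.sum_range_succ, ih]
    ring

theorem abel_bd (r g : ℕ → ℂ) (N : ℕ) (B V : ℝ) (hB : 0 ≤ B) (hg : ‖g N‖ ≤ 1)
    (hR : ∀ n, n ≤ N → ‖∑ m ∈ Finset.Icc 1 n, r m‖ ≤ B)
    (hV : ∀ n, ‖g (n + 1) - g n‖ ≤ V) :
    ‖∑ n ∈ Finset.Icc 1 N, r n * g n‖ ≤ B + N * (B * V) := by
  rw [abel]
  refine (norm_sub_le _ _).trans (add_le_add ?_ ?_)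
  · rw [norm_mul]
    calc _ ≤ B * 1 := mul_le_mul (hR N le_rfl) hg (norm_nonneg _) hB
      _ = B := mul_one B
  · refine (norm_sum_le _ _).trans ?_
    have h1 : ∀ n ∈ Finset.range N,
        ‖(∑ m ∈ Finset.Icc 1 n, r m) * (g (n + 1) - g n)‖ ≤ B * V := by
      intro n hn
      rw [norm_mul]
      exact mul_le_mul (hR n (Finset.mem_range.1 hn).le) (hV n) (norm_nonneg _) hB
    have h2 := Finset.sum_le_sum h1
    rwa [Finset.sum_const, Finset.card_range, nsmul_eq_mul] at h2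

/-- powers of the logarithm -/
theorem log_pow_le (r : ℕ) (hr : 1 ≤ r) (s : ℝ) (hs : 0 < s) (x : ℝ) (hx : 1 ≤ x) :
    (1 + Real.log x) ^ r ≤ (1 + r / s) ^ r * x ^ s := by
  have hr0 : (0 : ℝ) < r := by exact_mod_cast hr
  have hx0 : 0 < x := by linarith
  have h1 : Real.log x ≤ x ^ (s / r) / (s / r) := Real.log_le_rpow_div hx0.le (by positivity)
  have h2 : 1 ≤ x ^ (s / r) := Real.one_le_rpow hx (by positivity)
  have h3 : 1 + Real.log x ≤ (1 + r / s) * x ^ (s / r) := by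
    have h4 : x ^ (s / r) / (s / r) = r / s * x ^ (s / r) := by
      field_simp
    rw [h4] at h1
    nlinarith
  have h5 : 0 ≤ 1 + Real.log x := by
    have := Real.log_nonneg hx
    linarith
  calc (1 + Real.log x) ^ r ≤ ((1 + r / s) * x ^ (s / r)) ^ r := pow_le_pow_left₀ h5 h3 r
    _ = (1 + r / s) ^ r * x ^ s := by
        rw [mul_pow, ← Real.rpow_natCast (x ^ (s / r)) r, ← Real.rpow_mul hx0.le,
          div_mul_cancel₀ _ hr0.ne']

end IF4

theorem prF4 (hF3 : tsF3) : tsF4 := by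
  intro r E hr hAP hCB
  obtain ⟨hdeg, -, c, C₁, hc, hc4, hC₁, h1⟩ := hAP
  obtain ⟨C₂, hC₂, h2⟩ := hCB 1 one_pos
  obtain ⟨C₃, hC₃, h3⟩ := hF3 (r - 1)
  have hs : 0 < 1 - c := by linarith
  set L : ℝ := (1 + r / (1 - c)) ^ r with hL
  have hL0 : 0 ≤ L := by positivity
  set C' : ℝ := C₁ + C₃ * C₂ * L with hC'
  have hC'0 : 0 < C' := by positivity
  refine ⟨c, 7 * C' + C₁, hc, hc4, by positivity, ?_⟩
  intro q N a β hq hN hcop
  have hq1 : (1 : ℝ) ≤ q := by exact_mod_cast hq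
  have hN1 : (1 : ℝ) ≤ N := by exact_mod_cast hN
  have hqC : 1 ≤ (q : ℝ) ^ C₁ := Real.one_le_rpow hq1 hC₁.le
  -- the sums `R n`
  set u : ℕ → ℂ := fun n => (dr r n : ℂ) * ee ((n : ℝ) * (a / q)) -
    (((ed (E q)).eval (Real.log n) : ℝ) : ℂ) with hu
  have hR : ∀ n : ℕ, 1 ≤ n →
      ‖∑ m ∈ Finset.Icc 1 n, u m‖ ≤ C' * (q : ℝ) ^ C₁ * (n : ℝ) ^ (1 - c) := by
    intro n hn
    have hn1 : (1 : ℝ) ≤ n := by exact_mod_cast hn
    have e1 := h1 q a n hq hcop hn1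
    have e2 := h3 (E q) C₂ n (hdeg q) (fun j => by
      have := h2 q j hq
      simpa using this) hn1
    rw [Nat.floor_natCast] at e1 e2
    have e3 : ∑ m ∈ Finset.Icc 1 n, u m =
        (SS (dr r) n (a / q) - (((n : ℝ) * (E q).eval (Real.log n) : ℝ) : ℂ)) -
        ((∑ m ∈ Finset.Icc 1 n, (ed (E q)).eval (Real.log m) -
          (n : ℝ) * (E q).eval (Real.log n) : ℝ) : ℂ) := by
      rw [hu]
      simp only [Finset.sum_sub_distrib]
      unfold SS
      push_cast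
      ring
    rw [e3]
    refine (norm_sub_le _ _).trans ?_
    have e4 : ‖((∑ m ∈ Finset.Icc 1 n, (ed (E q)).eval (Real.log m) -
          (n : ℝ) * (E q).eval (Real.log n) : ℝ) : ℂ)‖ ≤
          C₃ * C₂ * L * (n : ℝ) ^ (1 - c) := by
      rw [Complex.norm_real, Real.norm_eq_abs]
      refine e2.trans ?_
      rw [Nat.sub_add_cancel hr, mul_assoc (C₃ * C₂) L]
      exact mul_le_mul_of_nonneg_left (IF4.log_pow_le r hr (1 - c) hs n hn1) (by positivity)
    have hn0 : 0 ≤ (n : ℝ) ^ (1 - c) := by positivity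
    calc _ ≤ C₁ * (q : ℝ) ^ C₁ * (n : ℝ) ^ (1 - c) + C₃ * C₂ * L * (n : ℝ) ^ (1 - c) :=
          add_le_add e1 e4
      _ ≤ C₁ * (q : ℝ) ^ C₁ * (n : ℝ) ^ (1 - c) +
          C₃ * C₂ * L * (q : ℝ) ^ C₁ * (n : ℝ) ^ (1 - c) := by
          have e5 : C₃ * C₂ * L ≤ C₃ * C₂ * L * (q : ℝ) ^ C₁ :=
            le_mul_of_one_le_right (by positivity) hqC
          have := mul_le_mul_of_nonneg_right e5 hn0
          linarith
      _ = C' * (q : ℝ) ^ C₁ * (n : ℝ) ^ (1 - c) := by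
          rw [hC']
          ring
  set B : ℝ := C' * (q : ℝ) ^ C₁ * (N : ℝ) ^ (1 - c) with hB
  have hB0 : 0 ≤ B := by positivity
  have hRB : ∀ n, n ≤ N → ‖∑ m ∈ Finset.Icc 1 n, u m‖ ≤ B := by
    intro n hn
    rcases Nat.eq_zero_or_pos n with h | h
    · subst h
      simpa using hB0
    · refine (hR n h).trans ?_
      have : (n : ℝ) ^ (1 - c) ≤ (N : ℝ) ^ (1 - c) :=
        Real.rpow_le_rpow (Nat.cast_nonneg n) (by exact_mod_cast hn) hs.le
      exact mul_le_mul_of_nonneg_left this (by positivity)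
  have hfin := IF4.abel_bd u (fun n => ee ((n : ℝ) * β)) N B (2 * Real.pi * |β|) hB0
    (IF4.ee_norm _).le hRB (fun n => IF4.ee_step β n)
  have hsum : SS (dr r) N (a / q + β) -
      ∑ n ∈ Finset.Icc 1 N, (((ed (E q)).eval (Real.log n) : ℝ) : ℂ) * ee (n * β) =
      ∑ n ∈ Finset.Icc 1 N, u n * ee ((n : ℝ) * β) := by
    unfold SS
    rw [← Finset.sum_sub_distrib]
    refine Finset.sum_congr rfl fun n _ => ?_
    rw [hu]
    simp only
    rw [mul_add, IF4.ee_add]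
    ring
  rw [hsum]
  refine hfin.trans ?_
  have hpi : 2 * Real.pi ≤ 7 := by
    have := Real.pi_lt_d2
    linarith
  have hβ : 0 ≤ |β| * N := by positivity
  have k1 : B + N * (B * (2 * Real.pi * |β|)) ≤ 7 * B * (1 + |β| * N) := by
    have k2 : B * (|β| * N) * (2 * Real.pi) ≤ B * (|β| * N) * 7 :=
      mul_le_mul_of_nonneg_left hpi (by positivity)
    nlinarith
  refine k1.trans ?_
  refine mul_le_mul_of_nonneg_right ?_ (by linarith)
  have k3 : (q : ℝ) ^ C₁ ≤ (q : ℝ) ^ (7 * C' + C₁) :=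
    Real.rpow_le_rpow_of_exponent_le hq1 (by linarith)
  calc 7 * B = 7 * C' * (q : ℝ) ^ C₁ * (N : ℝ) ^ (1 - c) := by rw [hB]; ring
    _ ≤ (7 * C' + C₁) * (q : ℝ) ^ (7 * C' + C₁) * (N : ℝ) ^ (1 - c) := by
        refine mul_le_mul_of_nonneg_right ?_ (by positivity)
        exact mul_le_mul (by linarith) k3 (by positivity) (by positivity)

end Pool.Agent.Work.MP_122e00_nt.TS
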