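import Pool.Agent.Work.MP_122e00_nt.TS.Stmts3

/-!
# Thin shifts, item F5: the difference of `d_r` and its model has small exponential sums
-/

set_option autoImplicit false

namespace Pool.Agent.Work.MP_122e00_nt.TS

open Finset Filter Topology ArithmeticFunction
open scoped ArithmeticFunction.zeta ArithmeticFunction.Moebius

namespace IF5

theorem ee_add (x y : ℝ) : ee (x + y) = ee x * ee y := by
  unfold ee
  rw [← Complex.exp_add]
  congr 1
  push_cast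
  ring

theorem ee_int (k : ℤ) : ee (k : ℝ) = 1 := by
  unfold ee
  rw [Complex.exp_eq_one_iff]
  refine ⟨k, ?_⟩
  push_cast
  ring

/-- inner sums -/
noncomputable def TT (b : ℕ → ℝ) (N : ℕ) (γ : ℝ) : ℂ :=
  ∑ n ∈ Finset.Icc 1 N, (b n : ℂ) * ee (n * γ)

theorem TT_int (b : ℕ → ℝ) (N : ℕ) (γ : ℝ) (k : ℤ) : TT b N (γ + k) = TT b N γ := by
  unfold TT
  refine Finset.sum_congr rfl fun n _ => ?_
  have h1 : (n : ℝ) * (γ + k) = n * γ + (((n : ℤ) * k : ℤ) : ℝ) := by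
    push_cast
    ring
  rw [h1, ee_add, ee_int, mul_one]

/-- two fractions whose sum is not an integer -/
theorem frac (q q' : ℕ) (a : ℤ) (a' : ℕ) (hq : 1 ≤ q) (hq' : 1 ≤ q') (hc : IsCoprime a (q : ℤ))
    (hc' : Nat.Coprime a' q') (hP : ¬ (q' = q ∧ (q : ℤ) ∣ a + a')) (k : ℤ) :
    1 / ((q : ℝ) * q') ≤ |(a : ℝ) / q + a' / q' - k| := by
  have h0 : (0 : ℝ) < q := by exact_mod_cast hq
  have h0' : (0 : ℝ) < q' := by exact_mod_cast hq'
  have e1 : (a : ℝ) / q + a' / q' - k =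
      ((a * q' + a' * q - k * q * q' : ℤ) : ℝ) / ((q : ℝ) * q') := by
    push_cast
    field_simp
  have hz : a * q' + a' * q - k * q * q' ≠ 0 := by
    intro h
    apply hP
    have d1 : (q : ℤ) ∣ a * q' := ⟨k * q' - a', by linear_combination h⟩
    have d2 : (q : ℤ) ∣ (q' : ℤ) := hc.symm.dvd_of_dvd_mul_left d1
    have d3 : (q' : ℤ) ∣ (a' : ℤ) * q := ⟨k * q - a, by linear_combination h⟩
    have hc2 : IsCoprime (q' : ℤ) (a' : ℤ) := (Nat.isCoprime_iff_coprime.2 hc').symm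
    have d4 : (q' : ℤ) ∣ (q : ℤ) := hc2.dvd_of_dvd_mul_left d3
    have e2 : q' = q := Nat.dvd_antisymm (Int.natCast_dvd_natCast.1 d4)
      (Int.natCast_dvd_natCast.1 d2)
    refine ⟨e2, k, ?_⟩
    rw [e2] at h
    have hq0 : (q : ℤ) ≠ 0 := by exact_mod_cast (by omega : q ≠ 0)
    have h5 : (q : ℤ) * (a + a') = q * (q * k) := by linear_combination h
    exact mul_left_cancel₀ hq0 h5
  rw [e1, abs_div, abs_of_pos (mul_pos h0 h0')]
  refine div_le_div_of_nonneg_right ?_ (mul_pos h0 h0').le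
  have h6 : (1 : ℤ) ≤ |a * q' + a' * q - k * q * q'| := Int.one_le_abs hz
  exact_mod_cast h6

theorem nn_pair (q q' : ℕ) (a : ℤ) (a' : ℕ) (α β : ℝ) (hq : 1 ≤ q) (hq' : 1 ≤ q')
    (hc : IsCoprime a (q : ℤ)) (hc' : Nat.Coprime a' q') (hP : ¬ (q' = q ∧ (q : ℤ) ∣ a + a'))
    (hα : α = a / q + β) (hβ : |β| ≤ 1 / (2 * ((q : ℝ) * q'))) :
    1 / (2 * ((q : ℝ) * q')) ≤ nn (α + a' / q') := by
  unfold nn
  obtain ⟨k, hk⟩ : ∃ k : ℤ, k = round (α + (a' : ℝ) / q') := ⟨_, rfl⟩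
  rw [← hk]
  have h1 := frac q q' a a' hq hq' hc hc' hP k
  have h2 : (a : ℝ) / q + a' / q' - k = (α + a' / q' - k) - β := by
    rw [hα]
    ring
  rw [h2] at h1
  have h3 := abs_sub (α + (a' : ℝ) / q' - k) β
  have h0 : (0 : ℝ) < (q : ℝ) * q' := by
    have a1 : (0 : ℝ) < q := by exact_mod_cast hq
    have a2 : (0 : ℝ) < q' := by exact_mod_cast hq'
    exact mul_pos a1 a2
  have h4 : 1 / ((q : ℝ) * q') = 2 * (1 / (2 * ((q : ℝ) * q'))) := by
    field_simp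
  linarith

/-- the partner of `a` -/
theorem partner (q : ℕ) (a : ℤ) (hq : 1 ≤ q) (hc : IsCoprime a (q : ℤ)) :
    ∃ a₀ : ℕ, a₀ < q ∧ Nat.Coprime a₀ q ∧ (q : ℤ) ∣ a + a₀ := by
  have hq0 : (0 : ℤ) < q := by exact_mod_cast hq
  have h1 := Int.emod_nonneg (-a) hq0.ne'
  have h2 := Int.emod_lt_of_pos (-a) hq0
  obtain ⟨a₀, ha₀⟩ := Int.eq_ofNat_of_zero_le h1
  rw [ha₀] at h2
  have h3 : (q : ℤ) ∣ a + a₀ := by
    refine ⟨-((-a) / q), ?_⟩
    have h4 := Int.emod_add_mul_ediv (-a) q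
    rw [ha₀] at h4
    linear_combination h4
  refine ⟨a₀, by exact_mod_cast h2, ?_, h3⟩
  have hd1 : ((Nat.gcd a₀ q : ℕ) : ℤ) ∣ (a₀ : ℤ) :=
    Int.natCast_dvd_natCast.2 (Nat.gcd_dvd_left a₀ q)
  have hd2 : ((Nat.gcd a₀ q : ℕ) : ℤ) ∣ (q : ℤ) :=
    Int.natCast_dvd_natCast.2 (Nat.gcd_dvd_right a₀ q)
  have hd3 : ((Nat.gcd a₀ q : ℕ) : ℤ) ∣ a := (Int.dvd_add_left hd1).1 (hd2.trans h3)
  obtain ⟨u, v, huv⟩ := hc
  have hd4 : ((Nat.gcd a₀ q : ℕ) : ℤ) ∣ 1 := by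
    rw [← huv]
    exact dvd_add (hd3.mul_left u) (hd2.mul_left v)
  have hd5 : Nat.gcd a₀ q ∣ 1 := by exact_mod_cast hd4
  exact Nat.dvd_one.1 hd5

theorem row (N q q' : ℕ) (a : ℤ) (b : ℕ → ℕ → ℝ) (α β B : ℝ) (hB : 0 ≤ B) (hq : 1 ≤ q)
    (hc : IsCoprime a (q : ℤ)) (hα : α = a / q + β)
    (hT : ∀ a' : ℕ, Nat.Coprime a' q' → ¬ (q' = q ∧ (q : ℤ) ∣ a + a') →
      ‖TT (b q') N (α + a' / q')‖ ≤ B) :
    ‖(∑ a' ∈ (Finset.range q').filter (fun a' => Nat.Coprime a' q'), TT (b q') N (α + a' / q')) -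
      (if q' = q then TT (b q) N β else 0)‖ ≤ q' * B := by
  have hcard : ∀ s : Finset ℕ, s ⊆ Finset.range q' → (s.card : ℝ) * B ≤ q' * B := by
    intro s hs
    have h1 := Finset.card_le_card hs
    rw [Finset.card_range] at h1
    exact mul_le_mul_of_nonneg_right (by exact_mod_cast h1) hB
  by_cases h : q' = q
  · subst h
    rw [if_pos rfl]
    obtain ⟨a₀, h1, h2, h3⟩ := partner q' a hq hc
    have hmem : a₀ ∈ (Finset.range q').filter (fun a' => Nat.Coprime a' q') :=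
      Finset.mem_filter.2 ⟨Finset.mem_range.2 h1, h2⟩
    have hq0 : (0 : ℝ) < q' := by exact_mod_cast hq
    have e1 : TT (b q') N (α + a₀ / q') = TT (b q') N β := by
      obtain ⟨k, hk⟩ := h3
      have e2 : α + (a₀ : ℝ) / q' = β + (k : ℝ) := by
        have e3 : (a : ℝ) + a₀ = q' * k := by exact_mod_cast hk
        rw [hα]
        field_simp
        linear_combination e3
      rw [e2, TT_int]
    rw [← Finset.add_sum_erase _ _ hmem, e1, add_sub_cancel_left]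
    refine (norm_sum_le_of_le _ (f := fun a' : ℕ => TT (b q') N (α + a' / q')) (n := fun _ => B)
      fun a' ha' => ?_).trans ?_
    · rw [Finset.mem_erase, Finset.mem_filter, Finset.mem_range] at ha'
      refine hT a' ha'.2.2 fun hh => ha'.1 ?_
      have h4 : (q' : ℤ) ∣ (a' : ℤ) - a₀ := by
        have h5 := dvd_sub hh.2 h3
        have h6 : a + (a' : ℤ) - (a + a₀) = a' - a₀ := by ring
        rwa [h6] at h5
      have h7 : |(a' : ℤ) - a₀| < q' := by
        rw [abs_lt]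
        have := ha'.2.1
        constructor <;> omega
      have h8 := Int.eq_zero_of_abs_lt_dvd h4 h7
      omega
    · rw [Finset.sum_const, nsmul_eq_mul]
      exact hcard _ ((Finset.erase_subset _ _).trans (Finset.filter_subset _ _))
  · rw [if_neg h, sub_zero]
    refine (norm_sum_le_of_le _ (f := fun a' : ℕ => TT (b q') N (α + a' / q')) (n := fun _ => B)
      fun a' ha' => ?_).trans ?_
    · rw [Finset.mem_filter] at ha'
      exact hT a' ha'.2 fun hh => h hh.1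
    · rw [Finset.sum_const, nsmul_eq_mul]
      exact hcard _ (Finset.filter_subset _ _)

theorem pairs (Q N q : ℕ) (a : ℤ) (b : ℕ → ℕ → ℝ) (α β B : ℝ) (hB : 0 ≤ B) (hq : 1 ≤ q)
    (hc : IsCoprime a (q : ℤ)) (hα : α = a / q + β)
    (hT : ∀ q' a' : ℕ, 1 ≤ q' → q' ≤ Q → Nat.Coprime a' q' → ¬ (q' = q ∧ (q : ℤ) ∣ a + a') →
      ‖TT (b q') N (α + a' / q')‖ ≤ B) :
    ‖(∑ q' ∈ Finset.Icc 1 Q, ∑ a' ∈ (Finset.range q').filter (fun a' => Nat.Coprime a' q'),
      TT (b q') N (α + a' / q')) - (if q ≤ Q then TT (b q) N β else 0)‖ ≤ Q * (Q * B) := by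
  have h1 : (if q ≤ Q then TT (b q) N β else 0) =
      ∑ q' ∈ Finset.Icc 1 Q, (if q' = q then TT (b q) N β else 0) := by
    rw [Finset.sum_ite_eq']
    by_cases h : q ≤ Q
    · rw [if_pos h, if_pos (Finset.mem_Icc.2 ⟨hq, h⟩)]
    · rw [if_neg h, if_neg (fun h' => h (Finset.mem_Icc.1 h').2)]
  rw [h1, ← Finset.sum_sub_distrib]
  refine (norm_sum_le_of_le _ (n := fun _ => (Q : ℝ) * B) fun q' hq' => ?_).trans ?_
  · rw [Finset.mem_Icc] at hq'
    refine (row N q q' a b α β B hB hq hc hα fun a' h2 h3 =>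
      hT q' a' hq'.1 hq'.2 h2 h3).trans ?_
    exact mul_le_mul_of_nonneg_right (by exact_mod_cast hq'.2) hB
  · rw [Finset.sum_const, nsmul_eq_mul, Nat.card_Icc, Nat.add_sub_cancel]

theorem model (hE1 : tsE1) (E : ℕ → Polynomial ℝ) (Q N : ℕ) (α : ℝ) :
    SS (fs E Q) N α = ∑ q' ∈ Finset.Icc 1 Q,
      ∑ a' ∈ (Finset.range q').filter (fun a' => Nat.Coprime a' q'),
        TT (fun n => (ed (E q')).eval (Real.log n)) N (α + a' / q') := by
  unfold SS fs TT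
  have h1 : ∀ n ∈ Finset.Icc 1 N,
      ((∑ q ∈ Finset.Icc 1 Q, Gh n q * (ed (E q)).eval (Real.log n) : ℝ) : ℂ) * ee (n * α) =
      ∑ q' ∈ Finset.Icc 1 Q, ∑ a' ∈ (Finset.range q').filter (fun a' => Nat.Coprime a' q'),
        (((ed (E q')).eval (Real.log n) : ℝ) : ℂ) * ee (n * (α + a' / q')) := by
    intro n _
    rw [Complex.ofReal_sum, Finset.sum_mul]
    refine Finset.sum_congr rfl fun q' hq' => ?_
    rw [Complex.ofReal_mul, ← hE1 q' n (Finset.mem_Icc.1 hq').1, Finset.sum_mul, Finset.sum_mul]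
    refine Finset.sum_congr rfl fun a' _ => ?_
    have e1 : (n : ℝ) * (α + a' / q') = n * a' / q' + n * α := by ring
    rw [e1, ee_add]
    ring
  rw [Finset.sum_congr rfl h1, Finset.sum_comm]
  refine Finset.sum_congr rfl fun q' _ => ?_
  rw [Finset.sum_comm]

theorem SS_fl (r : ℕ) (E : ℕ → Polynomial ℝ) (Q N : ℕ) (α : ℝ) :
    SS (fl r E Q) N α = SS (dr r) N α - SS (fs E Q) N α := by
  unfold SS fl
  rw [← Finset.sum_sub_distrib]
  refine Finset.sum_congr rfl fun n _ => ?_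
  push_cast
  ring

/-- logarithms against powers -/
theorem log_pow (k : ℕ) (ε : ℝ) (hε : 0 < ε) : ∃ K : ℝ, 0 < K ∧ ∀ X : ℝ, 1 ≤ X →
    (1 + Real.log (2 * X)) ^ k ≤ K * X ^ ε := by
  obtain ⟨δ, hδ⟩ : ∃ δ : ℝ, δ = ε / (k + 1) := ⟨_, rfl⟩
  have hk : (0 : ℝ) < (k : ℝ) + 1 := by positivity
  have hδ0 : 0 < δ := by rw [hδ]; positivity
  refine ⟨(1 + 1 / δ) ^ k * 2 ^ ε, by positivity, fun X hX => ?_⟩
  have hX0 : 0 < X := by linarith
  have h1 : Real.log (2 * X) ≤ (2 * X) ^ δ / δ := Real.log_le_rpow_div (by positivity) hδ0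
  have h2 : 1 ≤ (2 * X) ^ δ := Real.one_le_rpow (by linarith) hδ0.le
  have h3 : 0 ≤ Real.log (2 * X) := Real.log_nonneg (by linarith)
  have h4 : 1 + Real.log (2 * X) ≤ (1 + 1 / δ) * (2 * X) ^ δ := by
    calc 1 + Real.log (2 * X) ≤ (2 * X) ^ δ + (2 * X) ^ δ / δ := add_le_add h2 h1
      _ = (1 + 1 / δ) * (2 * X) ^ δ := by ring
  calc (1 + Real.log (2 * X)) ^ k ≤ ((1 + 1 / δ) * (2 * X) ^ δ) ^ k :=
        pow_le_pow_left₀ (by linarith) h4 k
    _ = (1 + 1 / δ) ^ k * (2 * X) ^ (δ * k) := by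
        rw [mul_pow, ← Real.rpow_natCast ((2 * X) ^ δ) k, ← Real.rpow_mul (by positivity)]
    _ ≤ (1 + 1 / δ) ^ k * (2 * X) ^ ε := by
        refine mul_le_mul_of_nonneg_left ?_ (by positivity)
        refine Real.rpow_le_rpow_of_exponent_le (by linarith) ?_
        rw [hδ, div_mul_eq_mul_div, div_le_iff₀ hk]
        nlinarith
    _ = (1 + 1 / δ) ^ k * 2 ^ ε * X ^ ε := by
        rw [Real.mul_rpow (by norm_num) hX0.le]
        ring

theorem ed_coeff (r : ℕ) (p : Polynomial ℝ) (M : ℝ) (hM : 0 ≤ M) (hp : p.natDegree ≤ r - 1)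
    (h : ∀ j, |p.coeff j| ≤ M) (j : ℕ) : |(ed p).coeff j| ≤ (r + 1) * M := by
  unfold ed
  rw [Polynomial.coeff_add, Polynomial.coeff_derivative]
  have h1 : |p.coeff (j + 1) * ((j : ℝ) + 1)| ≤ r * M := by
    by_cases hj : p.natDegree < j + 1
    · rw [Polynomial.coeff_eq_zero_of_natDegree_lt hj, zero_mul, abs_zero]
      positivity
    · have h2 : (j : ℝ) + 1 ≤ r := by
        have : j + 1 ≤ r := by omega
        exact_mod_cast this
      rw [abs_mul, abs_of_nonneg (by positivity : (0 : ℝ) ≤ (j : ℝ) + 1)]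
      calc |p.coeff (j + 1)| * ((j : ℝ) + 1) ≤ M * r :=
            mul_le_mul (h _) h2 (by positivity) hM
        _ = r * M := mul_comm _ _
  calc |p.coeff j + p.coeff (j + 1) * ((j : ℝ) + 1)| ≤
      |p.coeff j| + |p.coeff (j + 1) * ((j : ℝ) + 1)| := abs_add_le _ _
    _ ≤ M + r * M := add_le_add (h j) h1
    _ = (r + 1) * M := by ring

theorem ed_deg (r : ℕ) (p : Polynomial ℝ) (hp : p.natDegree ≤ r - 1) : (ed p).natDegree ≤ r := by
  unfold ed
  refine (Polynomial.natDegree_add_le _ _).trans (max_le (by omega) ?_)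
  exact (Polynomial.natDegree_derivative_le p).trans (by omega)

theorem Tbound (hF1 : tsF1) (d : ℕ) (C : ℝ) (hC : 0 < C)
    (hF2 : ∀ (p p' : Polynomial ℝ) (M M' : ℝ) (N h : ℕ),
      p.natDegree ≤ d → p'.natDegree ≤ d → (∀ j, |p.coeff j| ≤ M) → (∀ j, |p'.coeff j| ≤ M') →
      1 ≤ N →
      |p.eval (Real.log N) * p'.eval (Real.log ((N : ℝ) + h))| +
        ∑ n ∈ Finset.Ico 1 N, |p.eval (Real.log ((n + 1 : ℕ) : ℝ)) *
            p'.eval (Real.log (((n + 1 : ℕ) : ℝ) + h)) -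
          p.eval (Real.log n) * p'.eval (Real.log ((n : ℝ) + h))| ≤
      C * M * M' * (1 + Real.log ((N : ℝ) + h)) ^ (2 * d))
    (p : Polynomial ℝ) (M X γ : ℝ) (N : ℕ) (hM : 0 ≤ M) (hp : p.natDegree ≤ d)
    (hpM : ∀ j, |p.coeff j| ≤ M) (hN : 1 ≤ N) (hNX : (N : ℝ) ≤ 2 * X) :
    ‖TT (fun n => p.eval (Real.log n)) N γ‖ * nn γ ≤
      C * M * (1 + Real.log (2 * X)) ^ (2 * d) := by
  have h1 := hF2 p 1 M 1 N 0 hp (by simp) hpM (fun j => by
    rw [Polynomial.coeff_one]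
    split_ifs <;> simp) hN
  have hN1 : (1 : ℝ) ≤ N := by exact_mod_cast hN
  have h2 : C * M * 1 * (1 + Real.log ((N : ℝ) + (0 : ℕ))) ^ (2 * d) ≤
      C * M * (1 + Real.log (2 * X)) ^ (2 * d) := by
    rw [Nat.cast_zero, add_zero, mul_one]
    refine mul_le_mul_of_nonneg_left ?_ (by positivity)
    have h3 : 0 ≤ Real.log (N : ℝ) := Real.log_nonneg hN1
    have h4 : Real.log (N : ℝ) ≤ Real.log (2 * X) := Real.log_le_log (by linarith) hNX
    exact pow_le_pow_left₀ (by linarith) (by linarith) _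
  refine hF1 (fun n => p.eval (Real.log n)) _ γ N ?_
  refine le_trans (le_of_eq ?_) (h1.trans h2)
  simp only [Polynomial.eval_one, mul_one]

end IF5

open IF5

theorem prF5 (hL4 : tsL4) (hE1 : tsE1) (hF1 : tsF1) (hF2 : tsF2) (hF4 : tsF4) : tsF5 := by
  intro r E hr hAP hCB
  obtain ⟨c, C₄, hc0, hc4, hC₄, hF⟩ := hF4 r E hr hAP hCB
  obtain ⟨CE, hCE, hE⟩ := hCB 1 one_pos
  obtain ⟨CF, hCF, hF2'⟩ := hF2 r
  have hr1 : (1 : ℝ) ≤ r := by exact_mod_cast hr
  obtain ⟨C, hCd⟩ : ∃ C : ℝ, C = max C₄ 1 := ⟨_, rfl⟩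
  have hC1 : 1 ≤ C := by rw [hCd]; exact le_max_right _ _
  have hC4C : C₄ ≤ C := by rw [hCd]; exact le_max_left _ _
  obtain ⟨η₁, hη₁⟩ : ∃ η₁ : ℝ, η₁ = c / 4 := ⟨_, rfl⟩
  obtain ⟨η₂, hη₂⟩ : ∃ η₂ : ℝ, η₂ = min (c / 64) (min (c / (8 * C)) (1 / 100)) := ⟨_, rfl⟩
  have hη₂0 : 0 < η₂ := by
    rw [hη₂]
    exact lt_min (by positivity) (lt_min (by positivity) (by norm_num))
  have hη₂a : η₂ ≤ c / 64 := by rw [hη₂]; exact min_le_left _ _
  have hη₂b : η₂ ≤ c / (8 * C) := by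
    rw [hη₂]; exact (min_le_right _ _).trans (min_le_left _ _)
  have hη₂c : η₂ ≤ 1 / 100 := by
    rw [hη₂]; exact (min_le_right _ _).trans (min_le_right _ _)
  have hη₂C : η₂ * C ≤ c / 8 := by
    rw [le_div_iff₀ (by positivity)] at hη₂b
    linarith
  obtain ⟨m, hm⟩ : ∃ m : ℝ, m = min (c / 8) (min η₂ (1 / (2 * (r : ℝ)))) := ⟨_, rfl⟩
  have hm0 : 0 < m := by
    rw [hm]
    exact lt_min (by positivity) (lt_min hη₂0 (by positivity))
  have hma : m ≤ c / 8 := by rw [hm]; exact min_le_left _ _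
  have hmb : m ≤ η₂ := by rw [hm]; exact (min_le_right _ _).trans (min_le_left _ _)
  have hmc : m ≤ 1 / (2 * (r : ℝ)) := by
    rw [hm]; exact (min_le_right _ _).trans (min_le_right _ _)
  obtain ⟨KL, hKL, hlog⟩ := log_pow (2 * r) (m / 2) (by positivity)
  obtain ⟨CL, hCL, hL⟩ := hL4 r (m / 2) hr (by positivity)
  obtain ⟨ME, hME⟩ : ∃ ME : ℝ, ME = ((r : ℝ) + 1) * CE := ⟨_, rfl⟩
  have hME0 : 0 < ME := by rw [hME]; positivity
  obtain ⟨K, hK⟩ : ∃ K : ℝ, K = 2 * (CF * ME * KL) + 6 * C + 10 * CL := ⟨_, rfl⟩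
  have hK0 : 0 < K := by rw [hK]; positivity
  refine ⟨η₂, m / 4, max 4 (K ^ (4 / m)), hη₂0, hη₂c, by positivity, by linarith, ?_⟩
  intro X α N hX hNX
  have hX4 : 4 ≤ X := (le_max_left _ _).trans hX
  have hXK : K ^ (4 / m) ≤ X := (le_max_right _ _).trans hX
  have hX1 : 1 ≤ X := by linarith
  have hX0 : 0 < X := by linarith
  rcases Nat.eq_zero_or_pos N with hN0 | hN
  · subst hN0
    unfold SS
    simp only [Finset.Icc_eq_empty_of_lt (Nat.zero_lt_one), Finset.sum_empty, norm_zero]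
    positivity
  obtain ⟨Q, hQ⟩ : ∃ Q : ℕ, Q = ⌊X ^ η₂⌋₊ := ⟨_, rfl⟩
  rw [← hQ]
  have hQ1 : (Q : ℝ) ≤ X ^ η₂ := by
    rw [hQ]; exact Nat.floor_le (by positivity)
  have hQ2 : X ^ η₂ < (Q : ℝ) + 1 := by
    rw [hQ]; exact Nat.lt_floor_add_one _
  obtain ⟨n₀, hn₀⟩ : ∃ n₀ : ℕ, n₀ = ⌊X ^ (1 - η₁)⌋₊ := ⟨_, rfl⟩
  have hx1 : 1 ≤ X ^ (1 - η₁) := Real.one_le_rpow hX1 (by linarith)
  have hn1 : (n₀ : ℝ) ≤ X ^ (1 - η₁) := by
    rw [hn₀]; exact Nat.floor_le (by positivity)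
  have hn2 : X ^ (1 - η₁) < (n₀ : ℝ) + 1 := by
    rw [hn₀]; exact Nat.lt_floor_add_one _
  have hn3 : 0 < n₀ := by
    rw [hn₀]
    exact Nat.floor_pos.2 hx1
  have h2X : 2 * X ^ η₂ ≤ X ^ (1 - η₁) := by
    have e1 : (2 : ℝ) ≤ X ^ (1 - η₁ - η₂) := by
      have e2 : (4 : ℝ) ^ ((1 : ℝ) / 2) = 2 := by
        rw [show (4 : ℝ) = 2 ^ (2 : ℝ) by norm_num, ← Real.rpow_mul (by norm_num)]
        norm_num
      calc (2 : ℝ) = 4 ^ ((1 : ℝ) / 2) := e2.symm
        _ ≤ X ^ ((1 : ℝ) / 2) := Real.rpow_le_rpow (by norm_num) hX4 (by norm_num)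
        _ ≤ X ^ (1 - η₁ - η₂) := Real.rpow_le_rpow_of_exponent_le hX1 (by linarith)
    calc 2 * X ^ η₂ ≤ X ^ (1 - η₁ - η₂) * X ^ η₂ := mul_le_mul_of_nonneg_right e1 (by positivity)
      _ = X ^ (1 - η₁) := by rw [← Real.rpow_add hX0]; congr 1; ring
  obtain ⟨ρ, hρ1, hρ2⟩ := Real.exists_rat_abs_sub_le_and_den_le α hn3
  obtain ⟨q, hq⟩ : ∃ q : ℕ, q = ρ.den := ⟨_, rfl⟩
  obtain ⟨a, ha⟩ : ∃ a : ℤ, a = ρ.num := ⟨_, rfl⟩
  have hq1 : 1 ≤ q := by rw [hq]; exact ρ.pos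
  have hcop : IsCoprime a (q : ℤ) := by
    rw [Int.isCoprime_iff_gcd_eq_one, ha, hq]
    exact ρ.reduced
  have hρ : (ρ : ℝ) = (a : ℝ) / q := by rw [ha, hq]; exact Rat.cast_def ρ
  rw [hρ, ← hq] at hρ1
  rw [← hq] at hρ2
  obtain ⟨β, hβ⟩ : ∃ β : ℝ, β = α - a / q := ⟨_, rfl⟩
  rw [← hβ] at hρ1
  have hα : α = a / q + β := by rw [hβ]; ring
  have hq0 : (0 : ℝ) < q := by exact_mod_cast hq1
  have hq1' : (1 : ℝ) ≤ q := by exact_mod_cast hq1
  have hqn : (q : ℝ) ≤ n₀ := by exact_mod_cast hρ2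
  have hn0 : (0 : ℝ) < (n₀ : ℝ) + 1 := by positivity
  -- the pairs
  obtain ⟨V, hV⟩ : ∃ V : ℝ, V = CF * ME * (1 + Real.log (2 * X)) ^ (2 * r) := ⟨_, rfl⟩
  have hl0 : 0 ≤ Real.log (2 * X) := Real.log_nonneg (by linarith)
  have hV0 : 0 ≤ V := by rw [hV]; positivity
  have hT := pairs Q N q a (fun q' n => (ed (E q')).eval (Real.log n)) α β
    (V * (2 * (X ^ (1 - η₁) * X ^ η₂))) (by positivity) hq1 hcop hα (by
      intro q' a' h1 h2 h3 h4
      have h0' : (0 : ℝ) < q' := by exact_mod_cast h1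
      have hq'X : (q' : ℝ) ≤ X ^ η₂ := le_trans (by exact_mod_cast h2) hQ1
      have hβ' : |β| ≤ 1 / (2 * ((q : ℝ) * q')) := by
        refine hρ1.trans ?_
        refine one_div_le_one_div_of_le (by positivity) ?_
        have : 2 * (q' : ℝ) ≤ (n₀ : ℝ) + 1 := by linarith
        calc 2 * ((q : ℝ) * q') = (2 * q') * q := by ring
          _ ≤ ((n₀ : ℝ) + 1) * q := mul_le_mul_of_nonneg_right this hq0.le
      have h5 := nn_pair q q' a a' α β hq1 h1 hcop h3 h4 hα hβ'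
      have h6 := Tbound hF1 r CF hCF hF2' (ed (E q')) ME X (α + a' / q') N hME0.le
        (ed_deg r _ (hAP.1 q')) (by
          intro j
          rw [hME]
          refine ed_coeff r _ CE hCE.le (hAP.1 q') (fun j => ?_) j
          have := hE q' j h1
          rw [sub_self, Real.rpow_zero, mul_one] at this
          exact this) hN hNX
      rw [← hV] at h6
      set t : ℝ := ‖TT (fun n => (ed (E q')).eval (Real.log n)) N (α + a' / q')‖ with ht
      have ht0 : 0 ≤ t := norm_nonneg _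
      have h7 : t * (1 / (2 * ((q : ℝ) * q'))) ≤ V :=
        (mul_le_mul_of_nonneg_left h5 ht0).trans h6
      rw [mul_one_div, div_le_iff₀ (by positivity)] at h7
      refine h7.trans (mul_le_mul_of_nonneg_left ?_ hV0)
      have h8 : (q : ℝ) * q' ≤ X ^ (1 - η₁) * X ^ η₂ :=
        mul_le_mul (hqn.trans hn1) hq'X h0'.le (by positivity)
      linarith)
  rw [← model hE1] at hT
  -- the total exponent
  obtain ⟨R, hR⟩ : ∃ R : ℝ, R = X ^ (1 - m) * X ^ (m / 2) := ⟨_, rfl⟩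
  have hXm : (1 : ℝ) ≤ X ^ (m / 2) := Real.one_le_rpow hX1 (by positivity)
  have hmR : X ^ (1 - m) ≤ R := by
    rw [hR]
    exact le_mul_of_one_le_right (by positivity) hXm
  have hi : (Q : ℝ) * (Q * (V * (2 * (X ^ (1 - η₁) * X ^ η₂)))) ≤ 2 * (CF * ME * KL) * R := by
    have e1 : (Q : ℝ) * (Q * (V * (2 * (X ^ (1 - η₁) * X ^ η₂)))) ≤
        X ^ η₂ * (X ^ η₂ * (V * (2 * (X ^ (1 - η₁) * X ^ η₂)))) := by
      refine mul_le_mul hQ1 (mul_le_mul_of_nonneg_right hQ1 (by positivity)) (by positivity)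
        (by positivity)
    have e2 : X ^ η₂ * (X ^ η₂ * (V * (2 * (X ^ (1 - η₁) * X ^ η₂)))) =
        2 * V * X ^ (1 - η₁ + 3 * η₂) := by
      have e3 : X ^ (1 - η₁ + 3 * η₂) = X ^ (1 - η₁) * X ^ η₂ * X ^ η₂ * X ^ η₂ := by
        rw [← Real.rpow_add hX0, ← Real.rpow_add hX0, ← Real.rpow_add hX0]
        congr 1
        ring
      rw [e3]
      ring
    have e4 : X ^ (1 - η₁ + 3 * η₂) ≤ X ^ (1 - m) :=
      Real.rpow_le_rpow_of_exponent_le hX1 (by linarith)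
    have e5 : V ≤ CF * ME * (KL * X ^ (m / 2)) := by
      rw [hV]
      exact mul_le_mul_of_nonneg_left (hlog X hX1) (by positivity)
    calc (Q : ℝ) * (Q * (V * (2 * (X ^ (1 - η₁) * X ^ η₂)))) ≤
        2 * V * X ^ (1 - η₁ + 3 * η₂) := e1.trans e2.le
      _ ≤ 2 * (CF * ME * (KL * X ^ (m / 2))) * X ^ (1 - m) :=
          mul_le_mul (by linarith) e4 (by positivity) (by positivity)
      _ = 2 * (CF * ME * KL) * R := by rw [hR]; ring
  have hN0 : (0 : ℝ) < N := by exact_mod_cast hN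
  -- the main part
  have hmain : ‖SS (dr r) N α -
      (if q ≤ Q then TT (fun n => (ed (E q)).eval (Real.log n)) N β else 0)‖ ≤
      (6 * C + 10 * CL) * R := by
    have hR0 : 0 < R := by rw [hR]; positivity
    by_cases hqQ : q ≤ Q
    · rw [if_pos hqQ]
      have h1 := hF q N a β hq1 hN hcop
      rw [← hα] at h1
      have h2 : ‖SS (dr r) N α - TT (fun n => (ed (E q)).eval (Real.log n)) N β‖ ≤
          C₄ * (q : ℝ) ^ C₄ * (N : ℝ) ^ (1 - c) * (1 + |β| * N) := h1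
      refine h2.trans ?_
      have hqX : (q : ℝ) ≤ X ^ η₂ := le_trans (by exact_mod_cast hqQ) hQ1
      have g1 : (q : ℝ) ^ C₄ ≤ X ^ (c / 8) := by
        calc (q : ℝ) ^ C₄ ≤ (X ^ η₂) ^ C₄ := Real.rpow_le_rpow hq0.le hqX hC₄.le
          _ = X ^ (η₂ * C₄) := by rw [← Real.rpow_mul hX0.le]
          _ ≤ X ^ (c / 8) := Real.rpow_le_rpow_of_exponent_le hX1
              ((mul_le_mul_of_nonneg_left hC4C hη₂0.le).trans hη₂C)
      have g2 : (N : ℝ) ^ (1 - c) ≤ 2 * X ^ (1 - c) := by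
        calc (N : ℝ) ^ (1 - c) ≤ (2 * X) ^ (1 - c) :=
              Real.rpow_le_rpow hN0.le hNX (by linarith)
          _ = 2 ^ (1 - c) * X ^ (1 - c) := Real.mul_rpow (by norm_num) hX0.le
          _ ≤ 2 * X ^ (1 - c) := by
              refine mul_le_mul_of_nonneg_right ?_ (by positivity)
              calc (2 : ℝ) ^ (1 - c) ≤ 2 ^ (1 : ℝ) :=
                    Real.rpow_le_rpow_of_exponent_le (by norm_num) (by linarith)
                _ = 2 := Real.rpow_one 2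
      have g3 : 1 + |β| * N ≤ 3 * X ^ (c / 4) := by
        have k1 : |β| ≤ 1 / X ^ (1 - η₁) := by
          refine hρ1.trans (one_div_le_one_div_of_le (by positivity) ?_)
          calc X ^ (1 - η₁) ≤ ((n₀ : ℝ) + 1) * 1 := by linarith
            _ ≤ ((n₀ : ℝ) + 1) * q := mul_le_mul_of_nonneg_left hq1' hn0.le
        have k2 : |β| * N ≤ 1 / X ^ (1 - η₁) * (2 * X) :=
          mul_le_mul k1 hNX hN0.le (by positivity)
        have k3 : 1 / X ^ (1 - η₁) * (2 * X) = 2 * X ^ (c / 4) := by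
          have k4 : X = X ^ (1 - η₁) * X ^ (c / 4) := by
            rw [← Real.rpow_add hX0, ← hη₁, sub_add_cancel, Real.rpow_one]
          have k5 : 0 < X ^ (1 - η₁) := by positivity
          rw [div_mul_eq_mul_div, div_eq_iff k5.ne']
          linear_combination 2 * k4
        have k6 : 1 ≤ X ^ (c / 4) := Real.one_le_rpow hX1 (by positivity)
        linarith
      have g4 : C₄ * (q : ℝ) ^ C₄ * (N : ℝ) ^ (1 - c) * (1 + |β| * N) ≤
          C₄ * X ^ (c / 8) * (2 * X ^ (1 - c)) * (3 * X ^ (c / 4)) := by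
        refine mul_le_mul (mul_le_mul (mul_le_mul_of_nonneg_left g1 hC₄.le) g2 (by positivity)
          (by positivity)) g3 (by positivity) (by positivity)
      have g5 : C₄ * X ^ (c / 8) * (2 * X ^ (1 - c)) * (3 * X ^ (c / 4)) =
          6 * C₄ * X ^ (1 - 5 * c / 8) := by
        have k1 : X ^ (1 - 5 * c / 8) = X ^ (c / 8) * X ^ (1 - c) * X ^ (c / 4) := by
          rw [← Real.rpow_add hX0, ← Real.rpow_add hX0]
          congr 1
          ring
        rw [k1]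
        ring
      have g6 : X ^ (1 - 5 * c / 8) ≤ R :=
        (Real.rpow_le_rpow_of_exponent_le hX1 (by linarith)).trans hmR
      calc C₄ * (q : ℝ) ^ C₄ * (N : ℝ) ^ (1 - c) * (1 + |β| * N) ≤
          6 * C₄ * X ^ (1 - 5 * c / 8) := g4.trans g5.le
        _ ≤ 6 * C * R := mul_le_mul (by linarith) g6 (by positivity) (by positivity)
        _ ≤ (6 * C + 10 * CL) * R := mul_le_mul_of_nonneg_right (by linarith) hR0.le
    · rw [if_neg hqQ, sub_zero]
      have hqX : X ^ η₂ ≤ q := by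
        have : (Q : ℝ) + 1 ≤ q := by exact_mod_cast not_le.1 hqQ
        linarith
      have hqX2 : (q : ℝ) ≤ X ^ (1 - η₁) := hqn.trans hn1
      have hqX3 : (q : ℝ) ≤ X := by
        refine hqX2.trans ?_
        calc X ^ (1 - η₁) ≤ X ^ (1 : ℝ) :=
              Real.rpow_le_rpow_of_exponent_le hX1 (by rw [hη₁]; linarith)
          _ = X := Real.rpow_one X
      have hβ2 : |α - a / q| ≤ 1 / (q : ℝ) ^ 2 := by
        rw [← hβ]
        refine hρ1.trans (one_div_le_one_div_of_le (by positivity) ?_)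
        calc (q : ℝ) ^ 2 = q * q := sq _
          _ ≤ ((n₀ : ℝ) + 1) * q := mul_le_mul_of_nonneg_right (by linarith) hq0.le
      have h1 := hL (2 * X) α N q a (by linarith) hNX hq1 (by linarith) hcop hβ2
      refine h1.trans ?_
      have two : ∀ s : ℝ, 0 ≤ s → s ≤ 1 → (2 * X) ^ s ≤ 2 * X ^ s := by
        intro s hs0 hs1
        rw [Real.mul_rpow (by norm_num) hX0.le]
        refine mul_le_mul_of_nonneg_right ?_ (by positivity)
        calc (2 : ℝ) ^ s ≤ 2 ^ (1 : ℝ) := Real.rpow_le_rpow_of_exponent_le (by norm_num) hs1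
          _ = 2 := Real.rpow_one 2
      have hr2 : 1 / (2 * (r : ℝ)) ≤ 1 := by
        rw [div_le_one (by positivity)]
        linarith
      have hr3 : 0 < 1 / (2 * (r : ℝ)) := by positivity
      have g1 : (2 * X) ^ (m / 2) ≤ 2 * X ^ (m / 2) := two _ (by positivity) (by linarith)
      have g2 : (2 * X) ^ (1 - 1 / (2 * (r : ℝ))) ≤ 2 * X ^ (1 - m) := by
        refine (two _ (by linarith) (by linarith)).trans ?_
        exact mul_le_mul_of_nonneg_left
          (Real.rpow_le_rpow_of_exponent_le hX1 (by linarith)) (by norm_num)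
      have g3 : 2 * X / q ≤ 2 * X ^ (1 - m) := by
        have k1 : 2 * X / q ≤ 2 * X / X ^ η₂ :=
          div_le_div_of_nonneg_left (by positivity) (by positivity) hqX
        have k2 : 2 * X / X ^ η₂ = 2 * X ^ (1 - η₂) := by
          rw [Real.rpow_sub hX0, Real.rpow_one]
          ring
        rw [k2] at k1
        refine k1.trans (mul_le_mul_of_nonneg_left
          (Real.rpow_le_rpow_of_exponent_le hX1 (by linarith)) (by norm_num))
      have g4 : (q : ℝ) ≤ X ^ (1 - m) :=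
        hqX2.trans (Real.rpow_le_rpow_of_exponent_le hX1 (by linarith))
      have g5 : 2 * X / q + (2 * X) ^ (1 - 1 / (2 * (r : ℝ))) + q ≤ 5 * X ^ (1 - m) := by
        linarith
      calc CL * (2 * X) ^ (m / 2) * (2 * X / q + (2 * X) ^ (1 - 1 / (2 * (r : ℝ))) + q) ≤
          CL * (2 * X ^ (m / 2)) * (5 * X ^ (1 - m)) := by
            refine mul_le_mul (mul_le_mul_of_nonneg_left g1 hCL.le) g5 (by positivity)
              (by positivity)
        _ = 10 * CL * R := by rw [hR]; ring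
        _ ≤ (6 * C + 10 * CL) * R := mul_le_mul_of_nonneg_right (by linarith) hR0.le
  rw [SS_fl]
  set Z : ℂ := if q ≤ Q then TT (fun n => (ed (E q)).eval (Real.log n)) N β else 0 with hZ
  have hT' : ‖SS (fs E Q) N α - Z‖ ≤ 2 * (CF * ME * KL) * R := hT.trans hi
  have hfin : ‖SS (dr r) N α - SS (fs E Q) N α‖ ≤ K * R := by
    have e1 : SS (dr r) N α - SS (fs E Q) N α =
        (SS (dr r) N α - Z) - (SS (fs E Q) N α - Z) := by ring
    rw [e1]
    refine (norm_sub_le _ _).trans ((add_le_add hmain hT').trans (le_of_eq ?_))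
    rw [hK]
    ring
  have hKX : K ≤ X ^ (m / 4) := by
    calc K = (K ^ (4 / m)) ^ (m / 4) := by
          rw [← Real.rpow_mul hK0.le]
          have : 4 / m * (m / 4) = 1 := by field_simp
          rw [this, Real.rpow_one]
      _ ≤ X ^ (m / 4) := Real.rpow_le_rpow (by positivity) hXK (by positivity)
  calc ‖SS (dr r) N α - SS (fs E Q) N α‖ ≤ K * R := hfin
    _ ≤ X ^ (m / 4) * R := mul_le_mul_of_nonneg_right hKX (by rw [hR]; positivity)
    _ = X ^ (1 - m / 4) := by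
        rw [hR, ← Real.rpow_add hX0, ← Real.rpow_add hX0]
        congr 1
        ring

end Pool.Agent.Work.MP_122e00_nt.TS
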