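import Pool.Agent.Work.MP_122e00_nt.TS.Stmts3

/-!
# Thin shifts, item F8: the shift inside the logarithm
-/

namespace Pool.Agent.Work.MP_122e00_nt.TS

open Finset

namespace IF8

lemma pow_sub {u v L : ℝ} (hu : 0 ≤ u) (huv : u ≤ v) (hv : v ≤ L) (hL : 1 ≤ L) (j : ℕ) :
    |v ^ j - u ^ j| ≤ j * L ^ j * (v - u) := by
  induction j with
  | zero => simp
  | succ j ih =>
    have h1 : v ^ (j + 1) - u ^ (j + 1) = v * (v ^ j - u ^ j) + (v - u) * u ^ j := by ring
    have hL0 : 0 ≤ L := by linarith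
    have hv0 : 0 ≤ v := hu.trans huv
    have hd : 0 ≤ v - u := by linarith
    have huj : u ^ j ≤ L ^ j := pow_le_pow_left₀ hu (huv.trans hv) j
    have huj0 : 0 ≤ u ^ j := pow_nonneg hu j
    have hLj : L ^ j ≤ L ^ (j + 1) := pow_le_pow_right₀ hL (Nat.le_succ j)
    have hLj0 : 0 ≤ L ^ j := pow_nonneg hL0 j
    rw [h1]
    refine (abs_add_le _ _).trans ?_
    rw [abs_mul, abs_mul, abs_of_nonneg hv0, abs_of_nonneg hd, abs_of_nonneg huj0]
    have h2 : v * |v ^ j - u ^ j| ≤ L * (j * L ^ j * (v - u)) :=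
      mul_le_mul hv ih (abs_nonneg _) hL0
    have h3 : (v - u) * u ^ j ≤ (v - u) * L ^ (j + 1) :=
      mul_le_mul_of_nonneg_left (huj.trans hLj) hd
    have h4 : ((j + 1 : ℕ) : ℝ) * L ^ (j + 1) * (v - u) =
        L * (j * L ^ j * (v - u)) + (v - u) * L ^ (j + 1) := by
      push_cast
      ring
    linarith

lemma eval_le {d : ℕ} {p : Polynomial ℝ} {M u L : ℝ} (hp : p.natDegree ≤ d)
    (hM : ∀ j, |p.coeff j| ≤ M) (hu : 0 ≤ u) (hv : u ≤ L) (hL : 1 ≤ L) :
    |p.eval u| ≤ (d + 1) * M * L ^ d := by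
  rw [Polynomial.eval_eq_sum_range' (Nat.lt_succ_of_le hp)]
  refine (Finset.abs_sum_le_sum_abs _ _).trans ?_
  have h1 : ∀ j ∈ Finset.range (d + 1), |p.coeff j * u ^ j| ≤ M * L ^ d := by
    intro j hj
    rw [Finset.mem_range] at hj
    rw [abs_mul, abs_of_nonneg (pow_nonneg hu j)]
    have hL0 : 0 ≤ L := by linarith
    refine mul_le_mul (hM j) ?_ (pow_nonneg hu j) ((abs_nonneg _).trans (hM 0))
    exact (pow_le_pow_left₀ hu hv j).trans (pow_le_pow_right₀ hL (by omega))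
  refine (Finset.sum_le_card_nsmul _ _ _ h1).trans (le_of_eq ?_)
  rw [Finset.card_range, nsmul_eq_mul]
  push_cast
  ring

lemma eval_sub {d : ℕ} {p : Polynomial ℝ} {M u v L : ℝ} (hp : p.natDegree ≤ d)
    (hM : ∀ j, |p.coeff j| ≤ M) (hu : 0 ≤ u) (huv : u ≤ v) (hv : v ≤ L) (hL : 1 ≤ L) :
    |p.eval v - p.eval u| ≤ (d + 1) * (M * (d * L ^ d)) * (v - u) := by
  rw [Polynomial.eval_eq_sum_range' (Nat.lt_succ_of_le hp),
    Polynomial.eval_eq_sum_range' (Nat.lt_succ_of_le hp), ← Finset.sum_sub_distrib]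
  refine (Finset.abs_sum_le_sum_abs _ _).trans ?_
  have hd : 0 ≤ v - u := by linarith
  have h1 : ∀ j ∈ Finset.range (d + 1), |p.coeff j * v ^ j - p.coeff j * u ^ j| ≤
      M * (d * L ^ d) * (v - u) := by
    intro j hj
    rw [Finset.mem_range] at hj
    rw [← mul_sub, abs_mul, mul_assoc]
    refine mul_le_mul (hM j) ?_ (abs_nonneg _) ((abs_nonneg _).trans (hM 0))
    refine (pow_sub hu huv hv hL j).trans (mul_le_mul_of_nonneg_right ?_ hd)
    have h2 : (j : ℝ) ≤ d := by exact_mod_cast (by omega : j ≤ d)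
    exact mul_le_mul h2 (pow_le_pow_right₀ hL (by omega)) (by positivity) (Nat.cast_nonneg _)
  refine (Finset.sum_le_card_nsmul _ _ _ h1).trans (le_of_eq ?_)
  rw [Finset.card_range, nsmul_eq_mul]
  push_cast
  ring

lemma harm (N : ℕ) : ∑ n ∈ Finset.Icc 1 N, (1 : ℝ) / n ≤ 1 + Real.log N := by
  have h := harmonic_le_one_add_log N
  rw [harmonic_eq_sum_Icc] at h
  push_cast at h
  simpa only [one_div] using h

lemma log_shift {n h : ℕ} (hn : 1 ≤ n) :
    Real.log ((n : ℝ) + h) - Real.log n ≤ h * (1 / (n : ℝ)) := by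
  have hn0 : (0 : ℝ) < n := by exact_mod_cast hn
  have hh : (0 : ℝ) ≤ h := Nat.cast_nonneg h
  rw [← Real.log_div (by linarith) hn0.ne']
  have h1 : ((n : ℝ) + h) / n = 1 + h * (1 / (n : ℝ)) := by field_simp
  rw [h1]
  have h2 : 0 < 1 + h * (1 / (n : ℝ)) := by positivity
  have h3 := Real.log_le_sub_one_of_pos h2
  linarith

end IF8

open IF8 in
theorem prF8 : tsF8 := by
  intro d
  refine ⟨((d : ℝ) + 1) ^ 2 * d + 1, by positivity, ?_⟩
  intro p M N h hp hM hN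
  have hM0 : 0 ≤ M := (abs_nonneg _).trans (hM 0)
  have hN1 : (1 : ℝ) ≤ N := by exact_mod_cast hN
  have hh : (0 : ℝ) ≤ h := Nat.cast_nonneg h
  set L : ℝ := 1 + Real.log ((N : ℝ) + h) with hL
  have hlog : 0 ≤ Real.log ((N : ℝ) + h) := Real.log_nonneg (by linarith)
  have hL1 : 1 ≤ L := by linarith
  have hL0 : 0 ≤ L := by linarith
  set K : ℝ := ((d : ℝ) + 1) * M * L ^ d * ((d + 1) * (M * (d * L ^ d)) * h) with hK
  have hK0 : 0 ≤ K := by positivity
  have hterm : ∀ n ∈ Finset.Icc 1 N, |p.eval (Real.log n) * p.eval (Real.log ((n : ℝ) + h)) -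
      p.eval (Real.log n) ^ 2| ≤ K * (1 / (n : ℝ)) := by
    intro n hn
    rw [Finset.mem_Icc] at hn
    have hn1 : (1 : ℝ) ≤ n := by exact_mod_cast hn.1
    have hnN : (n : ℝ) ≤ N := by exact_mod_cast hn.2
    have hu : 0 ≤ Real.log n := Real.log_nonneg hn1
    have huv : Real.log n ≤ Real.log ((n : ℝ) + h) := Real.log_le_log (by linarith) (by linarith)
    have hv : Real.log ((n : ℝ) + h) ≤ L := by
      have := Real.log_le_log (by linarith : (0 : ℝ) < (n : ℝ) + h)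
        (by linarith : (n : ℝ) + h ≤ (N : ℝ) + h)
      linarith
    have h1 : p.eval (Real.log n) * p.eval (Real.log ((n : ℝ) + h)) - p.eval (Real.log n) ^ 2 =
        p.eval (Real.log n) * (p.eval (Real.log ((n : ℝ) + h)) - p.eval (Real.log n)) := by ring
    rw [h1, abs_mul]
    have h2 := eval_le hp hM hu (huv.trans hv) hL1
    have h3 := eval_sub hp hM hu huv hv hL1
    have h4 : ((d : ℝ) + 1) * (M * (d * L ^ d)) * (Real.log ((n : ℝ) + h) - Real.log n) ≤
        (d + 1) * (M * (d * L ^ d)) * (h * (1 / (n : ℝ))) :=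
      mul_le_mul_of_nonneg_left (log_shift hn.1) (by positivity)
    calc |p.eval (Real.log n)| * |p.eval (Real.log ((n : ℝ) + h)) - p.eval (Real.log n)| ≤
          (d + 1) * M * L ^ d * ((d + 1) * (M * (d * L ^ d)) * (h * (1 / (n : ℝ)))) :=
          mul_le_mul h2 (h3.trans h4) (abs_nonneg _) (by positivity)
      _ = K * (1 / (n : ℝ)) := by rw [hK]; ring
  rw [← Finset.sum_sub_distrib]
  refine (Finset.abs_sum_le_sum_abs _ _).trans ((Finset.sum_le_sum hterm).trans ?_)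
  rw [← Finset.mul_sum]
  have h5 : ∑ n ∈ Finset.Icc 1 N, (1 : ℝ) / n ≤ L := by
    refine (harm N).trans ?_
    rw [hL]
    have := Real.log_le_log (by linarith : (0 : ℝ) < (N : ℝ)) (by linarith : (N : ℝ) ≤ (N : ℝ) + h)
    linarith
  refine (mul_le_mul_of_nonneg_left h5 hK0).trans ?_
  have h6 : K * L = (((d : ℝ) + 1) ^ 2 * d) * (M ^ 2 * h * L ^ (2 * d + 1)) := by
    rw [hK]
    ring
  have h7 : 0 ≤ M ^ 2 * h * L ^ (2 * d + 1) := by positivity
  rw [h6]
  calc (((d : ℝ) + 1) ^ 2 * d) * (M ^ 2 * h * L ^ (2 * d + 1)) ≤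
        (((d : ℝ) + 1) ^ 2 * d + 1) * (M ^ 2 * h * L ^ (2 * d + 1)) :=
        mul_le_mul_of_nonneg_right (by linarith) h7
    _ = (((d : ℝ) + 1) ^ 2 * d + 1) * M ^ 2 * h * L ^ (2 * d + 1) := by ring

end Pool.Agent.Work.MP_122e00_nt.TS
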