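import Mathlib
import Pool.Agent.Work.MP_122e00_nt.TS.Stmts3

/-!
# Thin shifts, item F9 (helper53): the equation `R + R' = P`
-/

namespace Pool.Agent.Work.MP_122e00_nt.TS

open Finset Filter Topology ArithmeticFunction
open scoped ArithmeticFunction.zeta ArithmeticFunction.Moebius

namespace IF9

/-- the telescoping sum -/
theorem tele (P : Polynomial ℝ) (n : ℕ) :
    (∑ i ∈ Finset.range n, (-1 : ℝ) ^ i • (Polynomial.derivative^[i] P)) +
      Polynomial.derivative (∑ i ∈ Finset.range n, (-1 : ℝ) ^ i • (Polynomial.derivative^[i] P)) =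
    P - (-1 : ℝ) ^ n • (Polynomial.derivative^[n] P) := by
  induction n with
  | zero => simp
  | succ n ih =>
    have hit : Polynomial.derivative (Polynomial.derivative^[n] P) =
        Polynomial.derivative^[n + 1] P := (Function.iterate_succ_apply' _ _ _).symm
    rw [Finset.sum_range_succ, Polynomial.derivative_add, Polynomial.derivative_smul, hit,
      pow_succ]
    have h : (((∑ i ∈ Finset.range n, (-1 : ℝ) ^ i • (Polynomial.derivative^[i] P)) +
        (-1 : ℝ) ^ n • (Polynomial.derivative^[n] P)) +
        (Polynomial.derivative (∑ i ∈ Finset.range n, (-1 : ℝ) ^ i • (Polynomial.derivative^[i] P)) +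
        (-1 : ℝ) ^ n • (Polynomial.derivative^[n + 1] P))) =
        ((∑ i ∈ Finset.range n, (-1 : ℝ) ^ i • (Polynomial.derivative^[i] P)) +
        Polynomial.derivative (∑ i ∈ Finset.range n, (-1 : ℝ) ^ i • (Polynomial.derivative^[i] P))) +
        ((-1 : ℝ) ^ n • (Polynomial.derivative^[n] P) +
        (-1 : ℝ) ^ n • (Polynomial.derivative^[n + 1] P)) := by abel
    rw [h, ih, mul_neg_one, neg_smul]
    abel

/-- the coefficients of `rr P` -/
theorem coeff_rr (P : Polynomial ℝ) (j : ℕ) : (rr P).coeff j =
    ∑ i ∈ Finset.range (P.natDegree + 1),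
      (-1 : ℝ) ^ i * (((j + i).descFactorial i : ℝ) * P.coeff (j + i)) := by
  unfold rr
  rw [Polynomial.finsetSum_coeff]
  refine Finset.sum_congr rfl fun i _ => ?_
  rw [Polynomial.coeff_smul, Polynomial.coeff_iterate_derivative, smul_eq_mul, nsmul_eq_mul]

theorem coeff_top (P : Polynomial ℝ) (D : ℕ) (hD : P.natDegree ≤ D) :
    (rr P).coeff D = P.coeff D := by
  rw [coeff_rr, Finset.sum_range_succ', Finset.sum_eq_zero]
  · simp
  · intro i _
    rw [Polynomial.coeff_eq_zero_of_natDegree_lt (by omega)]
    ring

end IF9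

theorem prF9 : tsF9 := by
  intro P
  refine ⟨?_, ?_, IF9.coeff_top P, ?_⟩
  · unfold ed rr
    rw [IF9.tele, Polynomial.iterate_derivative_eq_zero (Nat.lt_succ_self _), smul_zero, sub_zero]
  · rw [Polynomial.natDegree_le_iff_coeff_eq_zero]
    intro N hN
    rw [IF9.coeff_top P N hN.le]
    exact Polynomial.coeff_eq_zero_of_natDegree_lt hN
  · intro M hM j
    have hM0 : 0 ≤ M := (abs_nonneg _).trans (hM 0)
    rw [IF9.coeff_rr]
    refine (Finset.abs_sum_le_sum_abs _ _).trans ?_
    have hterm : ∀ i ∈ Finset.range (P.natDegree + 1),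
        |(-1 : ℝ) ^ i * (((j + i).descFactorial i : ℝ) * P.coeff (j + i))| ≤
          (P.natDegree.factorial : ℝ) * M := by
      intro i _
      rw [abs_mul, abs_pow, abs_neg, abs_one, one_pow, one_mul, abs_mul]
      by_cases h : j + i ≤ P.natDegree
      · have h1 : (j + i).descFactorial i ≤ P.natDegree.factorial := by
          have h2 : (j + i).descFactorial i ≤ (j + i).factorial := by
            have h3 := Nat.factorial_mul_descFactorial (Nat.le_add_left i j)
            rw [← h3]
            exact Nat.le_mul_of_pos_left _ (Nat.factorial_pos _)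
          exact h2.trans (Nat.factorial_le h)
        have h4 : |((j + i).descFactorial i : ℝ)| ≤ (P.natDegree.factorial : ℝ) := by
          rw [abs_of_nonneg (Nat.cast_nonneg _)]
          exact_mod_cast h1
        exact mul_le_mul h4 (hM _) (abs_nonneg _) (Nat.cast_nonneg _)
      · rw [Polynomial.coeff_eq_zero_of_natDegree_lt (by omega), abs_zero, mul_zero]
        positivity
    refine (Finset.sum_le_sum hterm).trans ?_
    rw [Finset.sum_const, Finset.card_range, nsmul_eq_mul, Nat.factorial_succ]
    push_cast
    apply le_of_eq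
    ring

end Pool.Agent.Work.MP_122e00_nt.TS
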