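import Mathlib
import Pool.Agent.Work.MP_122e00_nt.TS.Stmts3

/-!
# Item G1: the series of Ramanujan sums
-/

namespace Pool.Agent.Work.MP_122e00_nt.TS

open Finset Filter Topology ArithmeticFunction
open scoped ArithmeticFunction.zeta ArithmeticFunction.Moebius

namespace IG1

/-- `g q^(-s)` on the multiples of `g` -/
noncomputable def w (s : ℝ) (g q : ℕ) : ℝ := if g ∣ q then (g : ℝ) * (q : ℝ) ^ (-s) else 0

theorem w_nonneg (s : ℝ) (g q : ℕ) : 0 ≤ w s g q := by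
  unfold w
  split_ifs <;> positivity

theorem w_mul (s : ℝ) (g : ℕ) (hg : 1 ≤ g) (m : ℕ) :
    w s g (g * m) = (g : ℝ) ^ (1 - s) * (m : ℝ) ^ (-s) := by
  unfold w
  rw [if_pos (Dvd.intro m rfl), Nat.cast_mul, Real.mul_rpow (by positivity) (by positivity)]
  have hg0 : (0 : ℝ) < g := by exact_mod_cast hg
  rw [sub_eq_add_neg, Real.rpow_add hg0, Real.rpow_one]
  ring

theorem w_hasSum (s : ℝ) (hs : 1 < s) (g : ℕ) (hg : 1 ≤ g) :
    HasSum (w s g) ((g : ℝ) ^ (1 - s) * ∑' n : ℕ, (n : ℝ) ^ (-s)) := by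
  have hinj : Function.Injective (fun m : ℕ => g * m) := by
    intro a b hab
    exact Nat.eq_of_mul_eq_mul_left (by omega) hab
  have hout : ∀ x, x ∉ Set.range (fun m : ℕ => g * m) → w s g x = 0 := by
    intro x hx
    unfold w
    rw [if_neg]
    rintro ⟨m, hm⟩
    exact hx ⟨m, hm.symm⟩
  rw [← Function.Injective.hasSum_iff hinj hout]
  have h1 : (w s g ∘ fun m : ℕ => g * m) = fun m : ℕ => (g : ℝ) ^ (1 - s) * (m : ℝ) ^ (-s) := by
    funext m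
    exact w_mul s g hg m
  rw [h1]
  have h2 : Summable (fun n : ℕ => (n : ℝ) ^ (-s)) := Real.summable_nat_rpow.mpr (by linarith)
  exact h2.hasSum.mul_left _

theorem abs_Gh_le' (h q : ℕ) (hh : 1 ≤ h) (hq : 1 ≤ q) :
    |Gh h q| ≤ ∑ g ∈ h.divisors, (if g ∣ q then (g : ℝ) else 0) := by
  have h0 : |Gh h q| ≤ ∑ g ∈ q.divisors, Fh h g := by
    unfold Gh
    rw [ArithmeticFunction.mul_apply]
    calc |∑ x ∈ q.divisorsAntidiagonal, (μ : ArithmeticFunction ℝ) x.1 * Fh h x.2|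
        ≤ ∑ x ∈ q.divisorsAntidiagonal, |(μ : ArithmeticFunction ℝ) x.1 * Fh h x.2| :=
          Finset.abs_sum_le_sum_abs _ _
      _ ≤ ∑ x ∈ q.divisorsAntidiagonal, Fh h x.2 := by
          apply Finset.sum_le_sum
          intro x _
          rw [abs_mul]
          have h1 : |(μ : ArithmeticFunction ℝ) x.1| ≤ 1 := by
            rw [intCoe_apply, ← Int.cast_abs]
            exact_mod_cast abs_moebius_le_one
          have h2 : 0 ≤ Fh h x.2 := by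
            rw [Fh_apply]; split_ifs <;> positivity
          rw [abs_of_nonneg h2]
          exact mul_le_of_le_one_left h2 h1
      _ = ∑ g ∈ q.divisors, Fh h g := by
          rw [← Nat.map_div_left_divisors, Finset.sum_map]
          rfl
  refine h0.trans (le_of_eq ?_)
  have h1 : ∑ g ∈ q.divisors, Fh h g = ∑ g ∈ q.divisors.filter (· ∣ h), (g : ℝ) := by
    rw [Finset.sum_filter]
    rfl
  rw [h1, ← Finset.sum_filter]
  refine Finset.sum_congr ?_ (fun _ _ => rfl)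
  ext g
  rw [Finset.mem_filter, Finset.mem_filter, Nat.mem_divisors, Nat.mem_divisors]
  constructor
  · rintro ⟨⟨a, _⟩, b⟩
    exact ⟨⟨b, by omega⟩, a⟩
  · rintro ⟨⟨a, _⟩, b⟩
    exact ⟨⟨b, by omega⟩, a⟩

theorem key (h : ℕ) (hh : 1 ≤ h) (s : ℝ) (q : ℕ) :
    |Gh h q| * (q : ℝ) ^ (-s) ≤ ∑ g ∈ h.divisors, w s g q := by
  rcases Nat.eq_zero_or_pos q with rfl | hq
  · have h1 : Gh h 0 = 0 := ArithmeticFunction.map_zero
    rw [h1, abs_zero, zero_mul]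
    exact Finset.sum_nonneg fun g _ => w_nonneg s g 0
  · have h1 : (0 : ℝ) ≤ (q : ℝ) ^ (-s) := by positivity
    calc |Gh h q| * (q : ℝ) ^ (-s)
        ≤ (∑ g ∈ h.divisors, (if g ∣ q then (g : ℝ) else 0)) * (q : ℝ) ^ (-s) :=
          mul_le_mul_of_nonneg_right (abs_Gh_le' h q hh hq) h1
      _ = ∑ g ∈ h.divisors, w s g q := by
          rw [Finset.sum_mul]
          refine Finset.sum_congr rfl fun g _ => ?_
          unfold w
          split_ifs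
          · rfl
          · rw [zero_mul]

theorem bound (h : ℕ) (hh : 1 ≤ h) (s : ℝ) (hs : 1 < s) :
    Summable (fun q : ℕ => |Gh h q| * (q : ℝ) ^ (-s)) ∧
    ∑' q : ℕ, |Gh h q| * (q : ℝ) ^ (-s) ≤ (∑' n : ℕ, (n : ℝ) ^ (-s)) * h.divisors.card := by
  have h1 : HasSum (fun q => ∑ g ∈ h.divisors, w s g q)
      (∑ g ∈ h.divisors, (g : ℝ) ^ (1 - s) * ∑' n : ℕ, (n : ℝ) ^ (-s)) := by
    refine hasSum_sum fun g hg => ?_
    exact w_hasSum s hs g (Nat.pos_of_mem_divisors hg)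
  have h2 : Summable (fun q : ℕ => |Gh h q| * (q : ℝ) ^ (-s)) :=
    Summable.of_nonneg_of_le (fun q => by positivity) (fun q => key h hh s q) h1.summable
  refine ⟨h2, ?_⟩
  have h3 : ∑' q : ℕ, |Gh h q| * (q : ℝ) ^ (-s) ≤
      ∑ g ∈ h.divisors, (g : ℝ) ^ (1 - s) * ∑' n : ℕ, (n : ℝ) ^ (-s) := by
    rw [← h1.tsum_eq]
    exact h2.tsum_le_tsum (fun q => key h hh s q) h1.summable
  refine h3.trans ?_
  have hZ : (0 : ℝ) ≤ ∑' n : ℕ, (n : ℝ) ^ (-s) := tsum_nonneg fun n => by positivity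
  calc ∑ g ∈ h.divisors, (g : ℝ) ^ (1 - s) * ∑' n : ℕ, (n : ℝ) ^ (-s)
      ≤ ∑ g ∈ h.divisors, ∑' n : ℕ, (n : ℝ) ^ (-s) := by
        refine Finset.sum_le_sum fun g hg => ?_
        have hg1 : (1 : ℝ) ≤ g := by exact_mod_cast Nat.pos_of_mem_divisors hg
        exact mul_le_of_le_one_left hZ (Real.rpow_le_one_of_one_le_of_nonpos hg1 (by linarith))
    _ = (∑' n : ℕ, (n : ℝ) ^ (-s)) * h.divisors.card := by
        rw [Finset.sum_const, nsmul_eq_mul, mul_comm]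

end IG1

theorem prG1 : tsG1 := by
  set Z : ℝ → ℝ := fun s => ∑' n : ℕ, (n : ℝ) ^ (-s) with hZ
  have hZ0 : ∀ s, 0 ≤ Z s := fun s => tsum_nonneg fun n => by positivity
  refine ⟨Z (3 / 2) + Z (5 / 4) + 1, by linarith [hZ0 (3 / 2), hZ0 (5 / 4)], fun h hh => ?_⟩
  obtain ⟨hA1, hA2⟩ := IG1.bound h hh (3 / 2) (by norm_num)
  obtain ⟨hB1, hB2⟩ := IG1.bound h hh (5 / 4) (by norm_num)
  have hd : (0 : ℝ) ≤ h.divisors.card := by positivity
  refine ⟨hA1, ?_, fun Q hQ => ?_⟩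
  · refine hA2.trans (mul_le_mul_of_nonneg_right ?_ hd)
    have := hZ0 (5 / 4)
    show Z (3 / 2) ≤ _
    linarith
  · have hQ0 : (0 : ℝ) < Q := by exact_mod_cast hQ
    have hpt : ∀ q : ℕ, (if Q < q then |Gh h q| * (q : ℝ) ^ (-(3 / 2) : ℝ) else 0) ≤
        (Q : ℝ) ^ (-(1 / 4) : ℝ) * (|Gh h q| * (q : ℝ) ^ (-(5 / 4) : ℝ)) := by
      intro q
      split_ifs with hq
      · have hq0 : (0 : ℝ) < q := by
          have : 0 < q := by omega
          exact_mod_cast this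
        have h1 : (q : ℝ) ^ (-(3 / 2) : ℝ) = (q : ℝ) ^ (-(1 / 4) : ℝ) * (q : ℝ) ^ (-(5 / 4) : ℝ) := by
          rw [← Real.rpow_add hq0]
          norm_num
        have h2 : (q : ℝ) ^ (-(1 / 4) : ℝ) ≤ (Q : ℝ) ^ (-(1 / 4) : ℝ) :=
          Real.rpow_le_rpow_of_nonpos hQ0 (by exact_mod_cast hq.le) (by norm_num)
        have h3 : 0 ≤ |Gh h q| * (q : ℝ) ^ (-(5 / 4) : ℝ) := by positivity
        calc |Gh h q| * (q : ℝ) ^ (-(3 / 2) : ℝ)
            = (q : ℝ) ^ (-(1 / 4) : ℝ) * (|Gh h q| * (q : ℝ) ^ (-(5 / 4) : ℝ)) := by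
              rw [h1]; ring
          _ ≤ (Q : ℝ) ^ (-(1 / 4) : ℝ) * (|Gh h q| * (q : ℝ) ^ (-(5 / 4) : ℝ)) :=
              mul_le_mul_of_nonneg_right h2 h3
      · positivity
    have hs2 : Summable (fun q : ℕ =>
        (Q : ℝ) ^ (-(1 / 4) : ℝ) * (|Gh h q| * (q : ℝ) ^ (-(5 / 4) : ℝ))) := hB1.mul_left _
    have hs1 : Summable (fun q : ℕ =>
        (if Q < q then |Gh h q| * (q : ℝ) ^ (-(3 / 2) : ℝ) else 0)) := by
      refine Summable.of_nonneg_of_le (fun q => ?_) hpt hs2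
      split_ifs <;> positivity
    have hQ1 : (0 : ℝ) ≤ (Q : ℝ) ^ (-(1 / 4) : ℝ) := by positivity
    calc ∑' q : ℕ, (if Q < q then |Gh h q| * (q : ℝ) ^ (-(3 / 2) : ℝ) else 0)
        ≤ ∑' q : ℕ, (Q : ℝ) ^ (-(1 / 4) : ℝ) * (|Gh h q| * (q : ℝ) ^ (-(5 / 4) : ℝ)) :=
          hs1.tsum_le_tsum hpt hs2
      _ = (Q : ℝ) ^ (-(1 / 4) : ℝ) * ∑' q : ℕ, (|Gh h q| * (q : ℝ) ^ (-(5 / 4) : ℝ)) := tsum_mul_left
      _ ≤ (Q : ℝ) ^ (-(1 / 4) : ℝ) * (Z (5 / 4) * h.divisors.card) :=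
          mul_le_mul_of_nonneg_left hB2 hQ1
      _ ≤ (Q : ℝ) ^ (-(1 / 4) : ℝ) * ((Z (3 / 2) + Z (5 / 4) + 1) * h.divisors.card) := by
          refine mul_le_mul_of_nonneg_left (mul_le_mul_of_nonneg_right ?_ hd) hQ1
          have := hZ0 (3 / 2)
          linarith
      _ = (Z (3 / 2) + Z (5 / 4) + 1) * h.divisors.card * (Q : ℝ) ^ (-(1 / 4) : ℝ) := by ring

end Pool.Agent.Work.MP_122e00_nt.TS
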