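import Pool.Agent.Work.MP_122e00_nt.TS.Stmts3

/-!
# MP_122e00_nt, block TS, item G2 (helper92): the polynomial `P_h` and its partial sums
-/

set_option autoImplicit false

namespace Pool.Agent.Work.MP_122e00_nt.TS

open Finset Filter Topology ArithmeticFunction
open scoped ArithmeticFunction.zeta ArithmeticFunction.Moebius

namespace IG2

theorem ed_natDegree (P : Polynomial ℝ) (d : ℕ) (h : P.natDegree ≤ d) :
    (ed P).natDegree ≤ d := by
  unfold ed
  refine (Polynomial.natDegree_add_le _ _).trans (max_le h ?_)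
  exact (Polynomial.natDegree_derivative_le P).trans ((Nat.sub_le _ _).trans h)

theorem ed_coeff (P : Polynomial ℝ) (r : ℕ) (B : ℝ) (hr : 1 ≤ r) (hP : P.natDegree ≤ r - 1)
    (hB : 0 ≤ B) (h : ∀ j, |P.coeff j| ≤ B) (j : ℕ) : |(ed P).coeff j| ≤ r * B := by
  unfold ed
  rw [Polynomial.coeff_add, Polynomial.coeff_derivative]
  rcases Nat.lt_or_ge (r - 1) (j + 1) with h1 | h1
  · rw [Polynomial.coeff_eq_zero_of_natDegree_lt (lt_of_le_of_lt hP h1), zero_mul, add_zero]
    have h2 : (1 : ℝ) ≤ r := by exact_mod_cast hr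
    calc |P.coeff j| ≤ 1 * B := by rw [one_mul]; exact h j
      _ ≤ r * B := mul_le_mul_of_nonneg_right h2 hB
  · have h2 : ((j : ℝ) + 1) + 1 ≤ r := by
      have : j + 1 + 1 ≤ r := by omega
      exact_mod_cast this
    calc |P.coeff j + P.coeff (j + 1) * ((j : ℝ) + 1)|
        ≤ |P.coeff j| + |P.coeff (j + 1) * ((j : ℝ) + 1)| := abs_add_le _ _
      _ = |P.coeff j| + |P.coeff (j + 1)| * ((j : ℝ) + 1) := by
          rw [abs_mul, abs_of_nonneg (by positivity : (0 : ℝ) ≤ (j : ℝ) + 1)]
      _ ≤ B + B * ((j : ℝ) + 1) := by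
          gcongr
          · exact h j
          · exact h (j + 1)
      _ = (((j : ℝ) + 1) + 1) * B := by ring
      _ ≤ r * B := mul_le_mul_of_nonneg_right h2 hB

theorem sq_coeff (P : Polynomial ℝ) (r : ℕ) (B : ℝ) (hr : 1 ≤ r) (hP : P.natDegree ≤ r - 1)
    (hB : 0 ≤ B) (h : ∀ j, |P.coeff j| ≤ B) (j : ℕ) : |(P ^ 2).coeff j| ≤ r * B ^ 2 := by
  rw [pow_two, Polynomial.coeff_mul,
    Finset.Nat.sum_antidiagonal_eq_sum_range_succ (fun a b => P.coeff a * P.coeff b)]
  calc |∑ a ∈ Finset.range (j + 1), P.coeff a * P.coeff (j - a)|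
      ≤ ∑ a ∈ Finset.range (j + 1), |P.coeff a * P.coeff (j - a)| :=
        Finset.abs_sum_le_sum_abs _ _
    _ ≤ ∑ a ∈ Finset.range (j + 1), (if a < r then B ^ 2 else 0) := by
        refine Finset.sum_le_sum fun a _ => ?_
        split_ifs with h1
        · rw [abs_mul, pow_two]
          exact mul_le_mul (h a) (h _) (abs_nonneg _) hB
        · rw [Polynomial.coeff_eq_zero_of_natDegree_lt (by omega : P.natDegree < a), zero_mul,
            abs_zero]
    _ = (((Finset.range (j + 1)).filter (fun a => a < r)).card : ℝ) * B ^ 2 := by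
        rw [← Finset.sum_filter, Finset.sum_const, nsmul_eq_mul]
    _ ≤ r * B ^ 2 := by
        have h1 : ((Finset.range (j + 1)).filter (fun a => a < r)).card ≤ r := by
          calc ((Finset.range (j + 1)).filter (fun a => a < r)).card
              ≤ (Finset.range r).card := by
                apply Finset.card_le_card
                intro a ha
                rw [Finset.mem_filter] at ha
                exact Finset.mem_range.2 ha.2
            _ = r := Finset.card_range r
        have h2 : (((Finset.range (j + 1)).filter (fun a => a < r)).card : ℝ) ≤ r := by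
          exact_mod_cast h1
        exact mul_le_mul_of_nonneg_right h2 (by positivity)

end IG2

open IG2 in
theorem prG2 (hF9 : tsF9) (hG1 : tsG1) : tsG2 := by
  intro r E hr hdeg hCB
  obtain ⟨C0, hC0, hE⟩ := hCB (1 / 4) (by norm_num)
  obtain ⟨CG, hCG, hG⟩ := hG1
  set s : ℕ := 2 * (r - 1) with hs
  have hr1 : (1 : ℝ) ≤ r := by exact_mod_cast hr
  -- the first constant
  set C1 : ℝ := ((s + 1).factorial : ℝ) * (r * (r * C0) ^ 2) with hC1
  have hC1pos : 0 < C1 := by
    have : (0 : ℝ) < ((s + 1).factorial : ℝ) := by exact_mod_cast Nat.factorial_pos _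
    positivity
  have hPdeg : ∀ q, (ed (E q) ^ 2).natDegree ≤ s := by
    intro q
    have h1 := ed_natDegree (E q) (r - 1) (hdeg q)
    exact Polynomial.natDegree_pow_le.trans (Nat.mul_le_mul_left 2 h1)
  have hRdeg : ∀ q, (rr (ed (E q) ^ 2)).natDegree ≤ s := fun q => (hF9 _).2.1.trans (hPdeg q)
  have hcoef : ∀ q j : ℕ, 1 ≤ q →
      |(rr (ed (E q) ^ 2)).coeff j| ≤ C1 * (q : ℝ) ^ (-(3 / 2) : ℝ) := by
    intro q j hq
    have hq0 : (0 : ℝ) < q := by exact_mod_cast hq
    set B : ℝ := C0 * (q : ℝ) ^ ((1 / 4 : ℝ) - 1) with hB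
    have hBnn : 0 ≤ B := by positivity
    have h1 : ∀ j, |(ed (E q)).coeff j| ≤ r * B :=
      ed_coeff (E q) r B hr (hdeg q) hBnn (fun j => hE q j hq)
    have h2 : ∀ j, |(ed (E q) ^ 2).coeff j| ≤ r * (r * B) ^ 2 :=
      sq_coeff (ed (E q)) r (r * B) hr (ed_natDegree (E q) (r - 1) (hdeg q)) (by positivity) h1
    have h3 := (hF9 (ed (E q) ^ 2)).2.2.2 _ h2 j
    have h4 : (r : ℝ) * (r * B) ^ 2 = r * (r * C0) ^ 2 * (q : ℝ) ^ (-(3 / 2) : ℝ) := by
      rw [hB]
      have h5 : ((q : ℝ) ^ ((1 / 4 : ℝ) - 1)) ^ 2 = (q : ℝ) ^ (-(3 / 2) : ℝ) := by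
        rw [← Real.rpow_natCast, ← Real.rpow_mul hq0.le]
        norm_num
      rw [← h5]
      ring
    have h6 : (((ed (E q) ^ 2).natDegree + 1).factorial : ℝ) ≤ ((s + 1).factorial : ℝ) := by
      exact_mod_cast Nat.factorial_le (Nat.succ_le_succ (hPdeg q))
    calc |(rr (ed (E q) ^ 2)).coeff j|
        ≤ (((ed (E q) ^ 2).natDegree + 1).factorial : ℝ) * (r * (r * B) ^ 2) := h3
      _ ≤ ((s + 1).factorial : ℝ) * (r * (r * B) ^ 2) :=
          mul_le_mul_of_nonneg_right h6 (by positivity)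
      _ = C1 * (q : ℝ) ^ (-(3 / 2) : ℝ) := by rw [h4, hC1]; ring
  -- the terms of the series
  have hterm : ∀ h q j : ℕ, ‖Gh h q * (rr (ed (E q) ^ 2)).coeff j‖ ≤
      C1 * (|Gh h q| * (q : ℝ) ^ (-(3 / 2) : ℝ)) := by
    intro h q j
    rcases Nat.eq_zero_or_pos q with hq | hq
    · rw [hq, ArithmeticFunction.map_zero, zero_mul, norm_zero, abs_zero, zero_mul, mul_zero]
    · rw [norm_mul, Real.norm_eq_abs, Real.norm_eq_abs]
      calc |Gh h q| * |(rr (ed (E q) ^ 2)).coeff j|
          ≤ |Gh h q| * (C1 * (q : ℝ) ^ (-(3 / 2) : ℝ)) :=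
            mul_le_mul_of_nonneg_left (hcoef q j hq) (abs_nonneg _)
        _ = C1 * (|Gh h q| * (q : ℝ) ^ (-(3 / 2) : ℝ)) := by ring
  set C2 : ℝ := ((s : ℝ) + 1) * (C1 * CG) with hC2
  have hC12 : C1 * CG ≤ C2 := by
    have h1 : (1 : ℝ) ≤ (s : ℝ) + 1 := by
      have : (0 : ℝ) ≤ s := by positivity
      linarith
    calc C1 * CG = 1 * (C1 * CG) := (one_mul _).symm
      _ ≤ C2 := mul_le_mul_of_nonneg_right h1 (by positivity)
  have hC2pos : 0 < C2 := by positivity
  refine ⟨C1 + C2, by positivity, ?_, ?_⟩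
  · intro q j hq
    refine (hcoef q j hq).trans ?_
    have : (0 : ℝ) ≤ (q : ℝ) ^ (-(3 / 2) : ℝ) := by positivity
    nlinarith
  intro h hh
  obtain ⟨hsum, htot, htail⟩ := hG h hh
  have hsum1 : ∀ j, Summable (fun q : ℕ => Gh h q * (rr (ed (E q) ^ 2)).coeff j) := fun j =>
    Summable.of_norm_bounded (hsum.mul_left C1) (fun q => hterm h q j)
  have hcard : (0 : ℝ) ≤ (h.divisors.card : ℝ) := by positivity
  refine ⟨hsum1, ?_, ?_⟩
  · intro j
    have hcj : |∑' q : ℕ, Gh h q * (rr (ed (E q) ^ 2)).coeff j| ≤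
        C1 * (CG * h.divisors.card) := by
      have h1 := tsum_of_norm_bounded ((hsum.mul_left C1).hasSum) (fun q => hterm h q j)
      rw [Real.norm_eq_abs, tsum_mul_left] at h1
      exact h1.trans (mul_le_mul_of_nonneg_left htot hC1pos.le)
    have hcoefPH : (PH r E h).coeff j = if j ∈ Finset.range (2 * (r - 1) + 1) then
        ∑' q : ℕ, Gh h q * (rr (ed (E q) ^ 2)).coeff j else 0 := by
      unfold PH
      rw [Polynomial.finsetSum_coeff]
      simp only [Polynomial.coeff_C_mul_X_pow]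
      rw [Finset.sum_ite_eq]
    rw [hcoefPH]
    split_ifs
    · calc |∑' q : ℕ, Gh h q * (rr (ed (E q) ^ 2)).coeff j| ≤ C1 * (CG * h.divisors.card) := hcj
        _ = (C1 * CG) * h.divisors.card := by ring
        _ ≤ (C1 + C2) * h.divisors.card :=
            mul_le_mul_of_nonneg_right (by linarith) hcard
    · rw [abs_zero]
      positivity
  · intro Q t hQ ht
    have hQ0 : (0 : ℝ) ≤ (Q : ℝ) ^ (-(1 / 4) : ℝ) := by positivity
    -- the tails
    have htl : ∀ j, |∑' q : ℕ, Gh h q * (rr (ed (E q) ^ 2)).coeff j -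
        ∑ q ∈ Finset.Icc 1 Q, Gh h q * (rr (ed (E q) ^ 2)).coeff j| ≤
        (C1 * CG) * h.divisors.card * (Q : ℝ) ^ (-(1 / 4) : ℝ) := by
      intro j
      have h1 : ∑ q ∈ Finset.Icc 1 Q, Gh h q * (rr (ed (E q) ^ 2)).coeff j =
          ∑ q ∈ Finset.range (Q + 1), Gh h q * (rr (ed (E q) ^ 2)).coeff j := by
        have e : Finset.range (Q + 1) = insert 0 (Finset.Icc 1 Q) := by
          ext x
          rw [Finset.mem_range, Finset.mem_insert, Finset.mem_Icc]
          omega
        rw [e, Finset.sum_insert (by rw [Finset.mem_Icc]; omega), ArithmeticFunction.map_zero,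
          zero_mul, zero_add]
      have hind : Summable (fun q : ℕ => if Q < q then Gh h q * (rr (ed (E q) ^ 2)).coeff j
          else 0) := by
        refine Summable.of_norm_bounded (hsum1 j).norm (fun q => ?_)
        split_ifs
        · exact le_rfl
        · rw [norm_zero]; exact norm_nonneg _
      have h2 : ∑' q : ℕ, Gh h q * (rr (ed (E q) ^ 2)).coeff j =
          ∑ q ∈ Finset.range (Q + 1), Gh h q * (rr (ed (E q) ^ 2)).coeff j +
          ∑' q : ℕ, (if Q < q then Gh h q * (rr (ed (E q) ^ 2)).coeff j else 0) := by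
        rw [← (hsum1 j).sum_add_tsum_nat_add (Q + 1), ← hind.sum_add_tsum_nat_add (Q + 1)]
        have h3 : ∑ q ∈ Finset.range (Q + 1),
            (if Q < q then Gh h q * (rr (ed (E q) ^ 2)).coeff j else 0) = 0 := by
          refine Finset.sum_eq_zero fun q hq => ?_
          rw [Finset.mem_range] at hq
          rw [if_neg (by omega)]
        rw [h3, zero_add]
        congr 1
        refine tsum_congr fun i => ?_
        rw [if_pos (by omega)]
      have h4 : |∑' q : ℕ, (if Q < q then Gh h q * (rr (ed (E q) ^ 2)).coeff j else 0)| ≤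
          C1 * ∑' q : ℕ, (if Q < q then |Gh h q| * (q : ℝ) ^ (-(3 / 2) : ℝ) else 0) := by
        have hs2 : Summable (fun q : ℕ => if Q < q then |Gh h q| * (q : ℝ) ^ (-(3 / 2) : ℝ)
            else 0) := by
          refine Summable.of_norm_bounded hsum (fun q => ?_)
          have h5 : (0 : ℝ) ≤ |Gh h q| * (q : ℝ) ^ (-(3 / 2) : ℝ) := by positivity
          split_ifs
          · rw [Real.norm_eq_abs, abs_of_nonneg h5]
          · rw [norm_zero]; exact h5
        have h6 := tsum_of_norm_bounded ((hs2.mul_left C1).hasSum)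
          (f := fun q : ℕ => if Q < q then Gh h q * (rr (ed (E q) ^ 2)).coeff j else 0)
          (fun q => by
            split_ifs
            · exact hterm h q j
            · rw [norm_zero, mul_zero])
        rw [Real.norm_eq_abs, tsum_mul_left] at h6
        exact h6
      rw [h1, h2, add_sub_cancel_left]
      refine h4.trans ((mul_le_mul_of_nonneg_left (htail Q hQ) hC1pos.le).trans (le_of_eq ?_))
      ring
    have hPHe : (PH r E h).eval t = ∑ j ∈ Finset.range (s + 1),
        (∑' q : ℕ, Gh h q * (rr (ed (E q) ^ 2)).coeff j) * t ^ j := by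
      unfold PH
      rw [Polynomial.eval_finsetSum]
      refine Finset.sum_congr rfl fun j _ => ?_
      rw [Polynomial.eval_mul, Polynomial.eval_C, Polynomial.eval_pow, Polynomial.eval_X]
    have hse : ∑ q ∈ Finset.Icc 1 Q, Gh h q * (rr (ed (E q) ^ 2)).eval t =
        ∑ j ∈ Finset.range (s + 1),
          (∑ q ∈ Finset.Icc 1 Q, Gh h q * (rr (ed (E q) ^ 2)).coeff j) * t ^ j := by
      have h1 : ∀ q ∈ Finset.Icc 1 Q, Gh h q * (rr (ed (E q) ^ 2)).eval t =
          ∑ j ∈ Finset.range (s + 1), Gh h q * (rr (ed (E q) ^ 2)).coeff j * t ^ j := by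
        intro q _
        rw [Polynomial.eval_eq_sum_range' (Nat.lt_succ_of_le (hRdeg q)), Finset.mul_sum]
        refine Finset.sum_congr rfl fun j _ => ?_
        ring
      rw [Finset.sum_congr rfl h1, Finset.sum_comm]
      refine Finset.sum_congr rfl fun j _ => ?_
      rw [Finset.sum_mul]
    rw [hPHe, hse, ← Finset.sum_sub_distrib]
    calc |∑ j ∈ Finset.range (s + 1),
          ((∑' q : ℕ, Gh h q * (rr (ed (E q) ^ 2)).coeff j) * t ^ j -
            (∑ q ∈ Finset.Icc 1 Q, Gh h q * (rr (ed (E q) ^ 2)).coeff j) * t ^ j)|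
        ≤ ∑ j ∈ Finset.range (s + 1),
          |(∑' q : ℕ, Gh h q * (rr (ed (E q) ^ 2)).coeff j) * t ^ j -
            (∑ q ∈ Finset.Icc 1 Q, Gh h q * (rr (ed (E q) ^ 2)).coeff j) * t ^ j| :=
          Finset.abs_sum_le_sum_abs _ _
      _ ≤ ∑ _j ∈ Finset.range (s + 1),
          ((C1 * CG) * h.divisors.card * (Q : ℝ) ^ (-(1 / 4) : ℝ)) * (1 + t) ^ s := by
          refine Finset.sum_le_sum fun j hj => ?_
          rw [Finset.mem_range] at hj
          rw [← sub_mul, abs_mul, abs_of_nonneg (by positivity : (0 : ℝ) ≤ t ^ j)]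
          have h1 : t ^ j ≤ (1 + t) ^ s := by
            calc t ^ j ≤ (1 + t) ^ j := pow_le_pow_left₀ ht (by linarith) j
              _ ≤ (1 + t) ^ s := pow_le_pow_right₀ (by linarith) (by omega)
          exact mul_le_mul (htl j) h1 (by positivity) (by positivity)
      _ = C2 * h.divisors.card * (Q : ℝ) ^ (-(1 / 4) : ℝ) * (1 + t) ^ s := by
          rw [Finset.sum_const, Finset.card_range, nsmul_eq_mul, hC2]
          push_cast
          ring
      _ ≤ (C1 + C2) * h.divisors.card * (Q : ℝ) ^ (-(1 / 4) : ℝ) * (1 + t) ^ s := by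
          have h1 : (0 : ℝ) ≤ (1 + t) ^ s := by positivity
          gcongr
          linarith

end Pool.Agent.Work.MP_122e00_nt.TS
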