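import Pool.Agent.Work.MP_122e00_nt.TS.Stmts3

/-!
# Thin shifts, item G4: degree and leading coefficient
-/

set_option autoImplicit false

namespace Pool.Agent.Work.MP_122e00_nt.TS

open Finset Filter Topology ArithmeticFunction
open scoped ArithmeticFunction.zeta ArithmeticFunction.Moebius

namespace IG4

theorem ed_deg (P : Polynomial ℝ) (s : ℕ) (h : P.natDegree ≤ s) : (ed P).natDegree ≤ s := by
  unfold ed
  refine (Polynomial.natDegree_add_le _ _).trans (max_le h ?_)
  exact ((Polynomial.natDegree_derivative_le P).trans (Nat.sub_le _ _)).trans h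

theorem ed_coeff (P : Polynomial ℝ) (s : ℕ) (h : P.natDegree ≤ s) :
    (ed P).coeff s = P.coeff s := by
  unfold ed
  rw [Polynomial.coeff_add, Polynomial.coeff_derivative,
    Polynomial.coeff_eq_zero_of_natDegree_lt (lt_of_le_of_lt h (Nat.lt_succ_self s)), zero_mul,
    add_zero]

theorem PH_coeff (r : ℕ) (E : ℕ → Polynomial ℝ) (h : ℕ) :
    (PH r E h).coeff (2 * (r - 1)) =
      ∑' q : ℕ, Gh h q * (rr (ed (E q) ^ 2)).coeff (2 * (r - 1)) := by
  unfold PH
  rw [Polynomial.finsetSum_coeff, Finset.sum_eq_single (2 * (r - 1))]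
  · rw [Polynomial.coeff_C_mul, Polynomial.coeff_X_pow, if_pos rfl, mul_one]
  · intro j _ hj
    rw [Polynomial.coeff_C_mul, Polynomial.coeff_X_pow, if_neg hj.symm, mul_zero]
  · intro h'
    exact absurd (Finset.mem_range.2 (Nat.lt_succ_self _)) h'

theorem PH_deg (r : ℕ) (E : ℕ → Polynomial ℝ) (h : ℕ) :
    (PH r E h).natDegree ≤ 2 * (r - 1) := by
  unfold PH
  refine Polynomial.natDegree_sum_le_of_forall_le _ _ fun j hj => ?_
  refine (Polynomial.natDegree_C_mul_X_pow_le _ _).trans ?_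
  rw [Finset.mem_range] at hj
  omega

end IG4

open IG4 in
theorem prG4 (hF9 : tsF9) : tsG4 := by
  intro r E hr hAP _ h hh
  obtain ⟨hdeg, hcf, -⟩ := hAP
  have hs : 1 ≤ r - 1 := by omega
  have hpos := Csing_pos hs h (by omega)
  have hfac : (((r - 1).factorial : ℕ) : ℝ) ≠ 0 := Nat.cast_ne_zero.2 (Nat.factorial_ne_zero _)
  have hterm : ∀ q : ℕ, Gh h q * (rr (ed (E q) ^ 2)).coeff (2 * (r - 1)) =
      Gh h q * (rho (r - 1) q) ^ 2 / ((r - 1).factorial : ℝ) ^ 2 := by
    intro q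
    rcases Nat.eq_zero_or_pos q with hq | hq
    · rw [hq, ArithmeticFunction.map_zero, zero_mul, zero_mul, zero_div]
    · have h1 : (ed (E q) ^ 2).natDegree ≤ 2 * (r - 1) :=
        Polynomial.natDegree_pow_le_of_le 2 (ed_deg _ _ (hdeg q))
      rw [(hF9 _).2.2.1 _ h1, Polynomial.coeff_pow_of_natDegree_le (ed_deg _ _ (hdeg q)),
        ed_coeff _ _ (hdeg q), hcf q hq, div_pow, mul_div_assoc]
  have hco : (PH r E h).coeff (2 * (r - 1)) =
      Csing (r - 1) h / ((r - 1).factorial : ℝ) ^ 2 := by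
    rw [PH_coeff, tsum_congr hterm, tsum_div_const]
    rfl
  have hne : (PH r E h).coeff (2 * (r - 1)) ≠ 0 := by
    rw [hco]
    exact div_ne_zero hpos.ne' (pow_ne_zero _ hfac)
  have hnd : (PH r E h).natDegree = 2 * (r - 1) :=
    Polynomial.natDegree_eq_of_le_of_coeff_ne_zero (PH_deg r E h) hne
  refine ⟨hnd, ?_⟩
  unfold Polynomial.leadingCoeff
  rw [hnd, hco]

end Pool.Agent.Work.MP_122e00_nt.TS
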