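import Mathlib
import Pool.Agent.Work.MP_122e00_nt.TS.Stmts1

/-!
# Thin shifts, item GS: geometric sums
-/

set_option autoImplicit false

namespace Pool.Agent.Work.MP_122e00_nt.TS

namespace IGS

theorem ee_nat (l : ℕ) (γ : ℝ) : ee (l * γ) = ee γ ^ l := by
  unfold ee
  rw [← Complex.exp_nat_mul]
  congr 1
  push_cast
  ring

theorem norm_ee (x : ℝ) : ‖ee x‖ = 1 := by
  unfold ee
  exact Complex.norm_exp_ofReal_mul_I _

theorem geo (A B : ℕ) (h : A ≤ B) (w : ℂ) :
    (∑ l ∈ Finset.Ioc A B, w ^ l) * (1 - w) = w ^ (A + 1) - w ^ (B + 1) := by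
  induction B, h using Nat.le_induction with
  | base => simp
  | succ B h ih =>
    rw [← Finset.insert_Ioc_right_eq_Ioc_add_one h, Finset.sum_insert (by simp), add_mul, ih]
    ring

theorem low (γ : ℝ) : 4 * nn γ ≤ ‖1 - ee γ‖ := by
  have h1 : ‖1 - ee γ‖ = 2 * |Real.sin (Real.pi * γ)| := by
    have h2 := Complex.norm_exp_I_mul_ofReal_sub_one (2 * Real.pi * γ)
    rw [← norm_neg]
    have h3 : -(1 - ee γ) = Complex.exp (Complex.I * ((2 * Real.pi * γ : ℝ) : ℂ)) - 1 := by
      unfold ee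
      rw [mul_comm Complex.I]
      ring
    rw [h3, h2, Real.norm_eq_abs, abs_mul, abs_two]
    congr 3
    ring
  have h4 : |Real.sin (Real.pi * γ)| = |Real.sin (Real.pi * (γ - round γ))| := by
    have h5 : Real.pi * γ = Real.pi * (γ - round γ) + (round γ : ℤ) * Real.pi := by ring
    rw [h5, Real.sin_add_int_mul_pi, abs_mul, abs_zpow, abs_neg, abs_one, one_zpow, one_mul]
  have h6 : |γ - round γ| ≤ 1 / 2 := abs_sub_round γ
  have hpi := Real.pi_pos
  have h7 : |Real.pi * (γ - round γ)| = Real.pi * nn γ := by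
    rw [abs_mul, abs_of_pos hpi]
    rfl
  have h8 := Real.mul_abs_le_abs_sin (x := Real.pi * (γ - round γ)) (by
    rw [h7]
    have : nn γ ≤ 1 / 2 := h6
    nlinarith)
  rw [h7] at h8
  have h9 : 2 / Real.pi * (Real.pi * nn γ) = 2 * nn γ := by
    field_simp
  rw [h1, h4]
  linarith

end IGS

theorem prGS : tsGS := by
  intro A B γ
  constructor
  · rcases le_total A B with h | h
    · have h1 := IGS.geo A B h (ee γ)
      have h2 : ‖ee γ ^ (A + 1) - ee γ ^ (B + 1)‖ ≤ 2 := by
        refine (norm_sub_le _ _).trans ?_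
        rw [norm_pow, norm_pow, IGS.norm_ee, one_pow, one_pow]
        norm_num
      rw [← h1, norm_mul] at h2
      have h3 : ∑ l ∈ Finset.Ioc A B, ee (l * γ) = ∑ l ∈ Finset.Ioc A B, ee γ ^ l :=
        Finset.sum_congr rfl fun l _ => IGS.ee_nat l γ
      rw [h3]
      have h4 := IGS.low γ
      have h5 := norm_nonneg (∑ l ∈ Finset.Ioc A B, ee γ ^ l)
      nlinarith
    · rw [Finset.Ioc_eq_empty_of_le h, Finset.sum_empty, norm_zero, zero_mul]
      norm_num
  · refine (norm_sum_le _ _).trans ?_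
    rw [Finset.sum_congr rfl fun (l : ℕ) _ => IGS.norm_ee ((l : ℝ) * γ)]
    simp

end Pool.Agent.Work.MP_122e00_nt.TS
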