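import Pool.Agent.Work.MP_122e00_nt.TS.Stmts3

set_option autoImplicit false

/-!
# Thin shifts, item H1: the frequencies where the Weyl sum of `F` is large
-/

namespace Pool.Agent.Work.MP_122e00_nt.TS

open Finset Filter Topology ArithmeticFunction
open scoped ArithmeticFunction.zeta ArithmeticFunction.Moebius

namespace IH1

/-- the sum over the values is a sum over the multiples of an integer polynomial -/
theorem conv (F : Polynomial ℤ) (A K t M : ℕ) (hF : ∀ k : ℕ, A < k → 1 ≤ F.eval (k : ℤ)) :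
    ∑ k ∈ Finset.Ioc A K, ee ((fv F k : ℝ) * t / M) =
      ∑ k ∈ Finset.Ioc A K, ee ((t : ℝ) / M * ((F.eval (k : ℤ) : ℤ) : ℝ)) := by
  refine Finset.sum_congr rfl fun k hk => ?_
  rw [Finset.mem_Ioc] at hk
  have h1 := hF k hk.1
  have h2 : ((fv F k : ℕ) : ℝ) = ((F.eval (k : ℤ) : ℤ) : ℝ) := by
    unfold fv
    have h3 : (((F.eval (k : ℤ)).toNat : ℕ) : ℤ) = F.eval (k : ℤ) := Int.toNat_of_nonneg (by omega)
    exact_mod_cast h3
  rw [h2]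
  congr 1
  ring

/-- the numbers -/
theorem num (K M d : ℕ) (δ' : ℝ) (h0 : 0 < δ') (hK : 1 ≤ K) (hM : (K : ℝ) ^ d ≤ M) :
    4 * ((K : ℝ) ^ δ') ^ 2 * (2 * (K : ℝ) ^ (δ' - (d : ℝ)) * M + 1) ≤
      12 * (K : ℝ) ^ (3 * δ' - (d : ℝ)) * M := by
  have hK0 : (0 : ℝ) < K := by exact_mod_cast hK
  have hK1 : (1 : ℝ) ≤ K := by exact_mod_cast hK
  have h1 : (1 : ℝ) ≤ (K : ℝ) ^ (δ' - (d : ℝ)) * M := by
    calc (1 : ℝ) ≤ (K : ℝ) ^ δ' := Real.one_le_rpow hK1 h0.le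
      _ = (K : ℝ) ^ (δ' - (d : ℝ)) * (K : ℝ) ^ (d : ℝ) := by
          rw [← Real.rpow_add hK0]
          congr 1
          ring
      _ ≤ (K : ℝ) ^ (δ' - (d : ℝ)) * M := by
          rw [Real.rpow_natCast]
          exact mul_le_mul_of_nonneg_left hM (Real.rpow_nonneg hK0.le _)
  have h2 : ((K : ℝ) ^ δ') ^ 2 * (K : ℝ) ^ (δ' - (d : ℝ)) = (K : ℝ) ^ (3 * δ' - (d : ℝ)) := by
    rw [← Real.rpow_natCast, ← Real.rpow_mul hK0.le, ← Real.rpow_add hK0]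
    congr 1
    push_cast
    ring
  calc 4 * ((K : ℝ) ^ δ') ^ 2 * (2 * (K : ℝ) ^ (δ' - (d : ℝ)) * M + 1) ≤
      4 * ((K : ℝ) ^ δ') ^ 2 * (3 * ((K : ℝ) ^ (δ' - (d : ℝ)) * M)) := by
        refine mul_le_mul_of_nonneg_left ?_ (by positivity)
        linarith
    _ = 12 * (((K : ℝ) ^ δ') ^ 2 * (K : ℝ) ^ (δ' - (d : ℝ))) * M := by ring
    _ = _ := by rw [h2]

end IH1

open IH1 in
theorem prH1 (h5 : tsW5) (h6 : tsW6) : tsH1 := by
  intro F A hd hl hF δ' hδ0 hδ1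
  obtain ⟨δ, hδ, K0, h⟩ := h5 F hd hl δ' hδ0
  refine ⟨δ, K0, hδ, ?_⟩
  intro K M hK0 hK hM
  have hKp : (0 : ℝ) < K := by exact_mod_cast hK
  have hK1 : (1 : ℝ) ≤ K := by exact_mod_cast hK
  have hM1 : 1 ≤ M := by
    have h1 : (1 : ℝ) ≤ M := (one_le_pow₀ hK1).trans hM
    exact_mod_cast h1
  have hd1 : (1 : ℝ) ≤ (F.natDegree : ℝ) := by exact_mod_cast hd
  have hρ1 : (K : ℝ) ^ (δ' - (F.natDegree : ℝ)) ≤ 1 :=
    Real.rpow_le_one_of_one_le_of_nonpos hK1 (by linarith)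
  obtain ⟨hfin, hcard⟩ := h6 M ((K : ℝ) ^ δ') ((K : ℝ) ^ (δ' - (F.natDegree : ℝ))) hM1
    (Real.one_le_rpow hK1 hδ0.le) (Real.rpow_nonneg hKp.le _) hρ1
  refine le_trans ?_ (hcard.trans (num K M F.natDegree δ' hδ0 hK hM))
  rw [← Set.ncard_coe_finset]
  refine Nat.cast_le.2 (Set.ncard_le_ncard ?_ hfin)
  intro t ht
  rw [Finset.mem_coe, Finset.mem_filter, Finset.mem_range] at ht
  refine ⟨ht.1, ?_⟩
  have h2 := ht.2
  rw [conv F A K t M hF] at h2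
  exact h K hK0 ((t : ℝ) / M) A h2.le

end Pool.Agent.Work.MP_122e00_nt.TS
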