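import Mathlib
import Pool.Agent.Work.MP_122e00_nt.TS.Stmts3

/-!
# Item H2: size of the values of a polynomial
-/

namespace Pool.Agent.Work.MP_122e00_nt.TS

open Finset Filter Topology

theorem prH2 : tsH2 := by
  intro F hd hl
  have hinj : Function.Injective (Int.castRingHom ℝ) := Int.cast_injective
  set P : Polynomial ℝ := F.map (Int.castRingHom ℝ) with hP
  have hPd : P.natDegree = F.natDegree := Polynomial.natDegree_map_eq_of_injective hinj F
  have hPl : P.leadingCoeff = (F.leadingCoeff : ℝ) := by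
    rw [hP, Polynomial.leadingCoeff_map_of_injective hinj]
    simp
  have hev : ∀ k : ℕ, ((F.eval (k : ℤ) : ℤ) : ℝ) = P.eval (k : ℝ) := by
    intro k
    rw [hP, Polynomial.eval_map, Polynomial.eval₂_at_natCast]
    simp
  have hlR : (0 : ℝ) < F.leadingCoeff := by exact_mod_cast hl
  have hF0 : F ≠ 0 := by
    rintro rfl
    simp at hl
  have hP0 : P ≠ 0 := by
    intro h
    rw [h] at hPl
    simp at hPl
    exact hlR.ne hPl
  have hlim : Tendsto (fun x : ℝ => P.eval x / (Polynomial.X ^ F.natDegree : Polynomial ℝ).eval x)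
      atTop (𝓝 (F.leadingCoeff : ℝ)) := by
    have h := Polynomial.div_tendsto_leadingCoeff_div_of_degree_eq P
      (Polynomial.X ^ F.natDegree : Polynomial ℝ) (by
        rw [Polynomial.degree_X_pow, Polynomial.degree_eq_natDegree hP0, hPd])
    rw [Polynomial.leadingCoeff_X_pow, div_one, hPl] at h
    exact h
  have hev2 := (hlim.comp tendsto_natCast_atTop_atTop).eventually
    (lt_mem_nhds (show (F.leadingCoeff : ℝ) / 2 < F.leadingCoeff by linarith))
  obtain ⟨A, hA⟩ := eventually_atTop.mp hev2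
  refine ⟨A, (F.leadingCoeff : ℝ) / 2, (∑ i ∈ Finset.range (F.natDegree + 1), |(F.coeff i : ℝ)|) + 1,
    by linarith, by positivity, ?_, ?_⟩
  · intro k hk
    have h1 := hA k hk.le
    have hk0 : (0 : ℝ) < k := by exact_mod_cast (by omega : 0 < k)
    simp only [Function.comp_apply, Polynomial.eval_pow, Polynomial.eval_X] at h1
    rw [lt_div_iff₀ (pow_pos hk0 _), ← hev] at h1
    refine ⟨?_, h1.le⟩
    have h2 : (0 : ℝ) < ((F.eval (k : ℤ) : ℤ) : ℝ) := by
      refine lt_trans ?_ h1
      positivity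
    have h3 : 0 < F.eval (k : ℤ) := by exact_mod_cast h2
    omega
  · intro k hk
    have hk1 : (1 : ℝ) ≤ k := by exact_mod_cast hk
    have h1 : ((F.eval (k : ℤ) : ℤ) : ℝ) =
        ∑ i ∈ Finset.range (F.natDegree + 1), (F.coeff i : ℝ) * (k : ℝ) ^ i := by
      rw [Polynomial.eval_eq_sum_range]
      push_cast
      rfl
    rw [h1]
    calc |∑ i ∈ Finset.range (F.natDegree + 1), (F.coeff i : ℝ) * (k : ℝ) ^ i|
        ≤ ∑ i ∈ Finset.range (F.natDegree + 1), |(F.coeff i : ℝ) * (k : ℝ) ^ i| :=
          Finset.abs_sum_le_sum_abs _ _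
      _ ≤ ∑ i ∈ Finset.range (F.natDegree + 1), |(F.coeff i : ℝ)| * (k : ℝ) ^ F.natDegree := by
          apply Finset.sum_le_sum
          intro i hi
          rw [abs_mul, abs_of_nonneg (pow_nonneg (by linarith : (0 : ℝ) ≤ k) i)]
          apply mul_le_mul_of_nonneg_left _ (abs_nonneg _)
          exact pow_le_pow_right₀ hk1 (by have := Finset.mem_range.mp hi; omega)
      _ = (∑ i ∈ Finset.range (F.natDegree + 1), |(F.coeff i : ℝ)|) * (k : ℝ) ^ F.natDegree := by
          rw [Finset.sum_mul]
      _ ≤ _ := by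
          apply mul_le_mul_of_nonneg_right _ (by positivity)
          linarith

end Pool.Agent.Work.MP_122e00_nt.TS
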