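import Pool.Agent.Work.MP_122e00_nt.TS.Stmts3

/-!
# Thin shifts, item H3 (helper50)
-/

namespace Pool.Agent.Work.MP_122e00_nt.TS

open Finset Filter Topology ArithmeticFunction
open scoped ArithmeticFunction.zeta ArithmeticFunction.Moebius

namespace IH3

lemma numer (K X C1 δ₁ η ε δ : ℝ) (d : ℕ) (hd : 1 ≤ d) (hK : 1 ≤ K) (hX : 1 ≤ X) (hC1 : 0 < C1)
    (hδ₁ : 0 < δ₁) (hη : 0 < η) (hη1 : η ≤ 1) (hKX : K ≤ X)
    (hKd : X ^ (1 - η / 2) ≤ K ^ d) (hε1 : ε ≤ η / 16) (hε2 : ε ≤ δ₁ / (32 * d))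
    (hδ1 : δ ≤ η) (hδ2 : δ ≤ δ₁ / (8 * d))
    (hb1 : 8 * C1 ^ 4 ≤ X ^ (δ₁ / (4 * d))) (hb2 : 48 * C1 ^ 2 ≤ X ^ (η / 8)) :
    K ^ (1 - δ₁) * (2 * C1 ^ 2 * X ^ (1 + 2 * ε)) * (2 * C1 ^ 2 * X ^ (1 + 2 * ε)) +
      K * (X ^ (1 - η)) ^ 2 * (12 * K ^ (3 * (η / 12) - (d : ℝ))) *
        (2 * C1 ^ 2 * X ^ (1 + 2 * ε)) ≤ K * X ^ (2 - δ) := by
  have hX0 : 0 < X := by linarith
  have hK0 : 0 < K := by linarith
  have hd0 : (0 : ℝ) < d := by exact_mod_cast hd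
  -- K ^ (-δ₁) ≤ X ^ (-(δ₁ / (2 d)))
  have h1 : X ^ ((1 : ℝ) / 2) ≤ K ^ d :=
    (Real.rpow_le_rpow_of_exponent_le hX (by linarith)).trans hKd
  have h2 : X ^ (1 / (2 * (d : ℝ))) ≤ K := by
    have e1 : (X ^ ((1 : ℝ) / 2)) ^ (1 / (d : ℝ)) ≤ (K ^ d) ^ (1 / (d : ℝ)) :=
      Real.rpow_le_rpow (by positivity) h1 (by positivity)
    rw [← Real.rpow_mul hX0.le, ← Real.rpow_natCast K d, ← Real.rpow_mul hK0.le] at e1
    have e2 : (d : ℝ) * (1 / (d : ℝ)) = 1 := by field_simp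
    have e3 : (1 : ℝ) / 2 * (1 / (d : ℝ)) = 1 / (2 * (d : ℝ)) := by field_simp
    rwa [e2, e3, Real.rpow_one] at e1
  have h3 : K ^ (-δ₁) ≤ X ^ (-(δ₁ / (2 * d))) := by
    have e1 : (X ^ (1 / (2 * (d : ℝ)))) ^ δ₁ ≤ K ^ δ₁ := Real.rpow_le_rpow (by positivity) h2 hδ₁.le
    rw [← Real.rpow_mul hX0.le] at e1
    have e2 : 1 / (2 * (d : ℝ)) * δ₁ = δ₁ / (2 * d) := by field_simp
    rw [e2] at e1
    rw [Real.rpow_neg hK0.le, Real.rpow_neg hX0.le]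
    exact inv_anti₀ (by positivity) e1
  have hK1 : K ^ (1 - δ₁) = K * K ^ (-δ₁) := by
    rw [sub_eq_add_neg, Real.rpow_add hK0, Real.rpow_one]
  have hX2 : X ^ (1 + 2 * ε) * X ^ (1 + 2 * ε) = X ^ (2 + 4 * ε) := by
    rw [← Real.rpow_add hX0]; congr 1; ring
  have t1 : K ^ (1 - δ₁) * (2 * C1 ^ 2 * X ^ (1 + 2 * ε)) * (2 * C1 ^ 2 * X ^ (1 + 2 * ε)) ≤
      K * X ^ (2 - δ) / 2 := by
    have e1 : K ^ (1 - δ₁) * (2 * C1 ^ 2 * X ^ (1 + 2 * ε)) * (2 * C1 ^ 2 * X ^ (1 + 2 * ε)) =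
        K * (8 * C1 ^ 4) * (K ^ (-δ₁) * X ^ (2 + 4 * ε)) / 2 := by
      rw [hK1, ← hX2]; ring
    have e2 : K ^ (-δ₁) * X ^ (2 + 4 * ε) ≤ X ^ (-(δ₁ / (2 * d))) * X ^ (2 + 4 * ε) := by gcongr
    have e3 : (8 * C1 ^ 4) * (K ^ (-δ₁) * X ^ (2 + 4 * ε)) ≤
        X ^ (δ₁ / (4 * d)) * (X ^ (-(δ₁ / (2 * d))) * X ^ (2 + 4 * ε)) := by gcongr
    have e4 : X ^ (δ₁ / (4 * d)) * (X ^ (-(δ₁ / (2 * d))) * X ^ (2 + 4 * ε)) =
        X ^ (δ₁ / (4 * d) + (-(δ₁ / (2 * d)) + (2 + 4 * ε))) := by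
      rw [← Real.rpow_add hX0, ← Real.rpow_add hX0]
    have e5 : δ₁ / (4 * d) + (-(δ₁ / (2 * d)) + (2 + 4 * ε)) ≤ 2 - δ := by
      have f1 : δ₁ / (4 * d) = (δ₁ / d) / 4 := by field_simp
      have f2 : δ₁ / (2 * d) = (δ₁ / d) / 2 := by field_simp
      have f3 : δ₁ / (32 * d) = (δ₁ / d) / 32 := by field_simp
      have f4 : δ₁ / (8 * d) = (δ₁ / d) / 8 := by field_simp
      have f5 : 0 < δ₁ / d := by positivity
      rw [f3] at hε2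
      rw [f4] at hδ2
      rw [f1, f2]
      linarith
    have e6 : X ^ (δ₁ / (4 * d) + (-(δ₁ / (2 * d)) + (2 + 4 * ε))) ≤ X ^ (2 - δ) :=
      Real.rpow_le_rpow_of_exponent_le hX e5
    rw [e1, mul_assoc K]
    have e7 := e3.trans (e4.le.trans e6)
    gcongr
  have t2 : K * (X ^ (1 - η)) ^ 2 * (12 * K ^ (3 * (η / 12) - (d : ℝ))) *
        (2 * C1 ^ 2 * X ^ (1 + 2 * ε)) ≤ K * X ^ (2 - δ) / 2 := by
    have e0 : (X ^ (1 - η)) ^ 2 = X ^ (2 - 2 * η) := by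
      rw [← Real.rpow_natCast, ← Real.rpow_mul hX0.le]; congr 1; push_cast; ring
    have e1 : K ^ (3 * (η / 12) - (d : ℝ)) ≤ X ^ (η / 4) * X ^ (η / 2 - 1) := by
      have g1 : K ^ (3 * (η / 12) - (d : ℝ)) = K ^ (η / 4) * K ^ (-(d : ℝ)) := by
        rw [← Real.rpow_add hK0]; congr 1; ring
      have g2 : K ^ (η / 4) ≤ X ^ (η / 4) := Real.rpow_le_rpow hK0.le hKX (by positivity)
      have g3 : K ^ (-(d : ℝ)) ≤ X ^ (η / 2 - 1) := by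
        rw [Real.rpow_neg hK0.le, Real.rpow_natCast]
        have : X ^ (η / 2 - 1) = (X ^ (1 - η / 2))⁻¹ := by
          rw [← Real.rpow_neg hX0.le]; congr 1; ring
        rw [this]
        exact inv_anti₀ (by positivity) hKd
      rw [g1]
      gcongr
    have e2 : K * (X ^ (1 - η)) ^ 2 * (12 * K ^ (3 * (η / 12) - (d : ℝ))) *
        (2 * C1 ^ 2 * X ^ (1 + 2 * ε)) =
        K * ((48 * C1 ^ 2) * (X ^ (2 - 2 * η) * (K ^ (3 * (η / 12) - (d : ℝ)) *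
          X ^ (1 + 2 * ε)))) / 2 := by
      rw [e0]; ring
    have e3 : (48 * C1 ^ 2) * (X ^ (2 - 2 * η) * (K ^ (3 * (η / 12) - (d : ℝ)) *
          X ^ (1 + 2 * ε))) ≤ X ^ (η / 8) * (X ^ (2 - 2 * η) * ((X ^ (η / 4) * X ^ (η / 2 - 1)) *
          X ^ (1 + 2 * ε))) := by gcongr
    have e4 : X ^ (η / 8) * (X ^ (2 - 2 * η) * ((X ^ (η / 4) * X ^ (η / 2 - 1)) *
          X ^ (1 + 2 * ε))) = X ^ (η / 8 + (2 - 2 * η + (η / 4 + (η / 2 - 1) + (1 + 2 * ε)))) := by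
      rw [← Real.rpow_add hX0, ← Real.rpow_add hX0, ← Real.rpow_add hX0, ← Real.rpow_add hX0]
    have e5 : X ^ (η / 8 + (2 - 2 * η + (η / 4 + (η / 2 - 1) + (1 + 2 * ε)))) ≤ X ^ (2 - δ) :=
      Real.rpow_le_rpow_of_exponent_le hX (by linarith)
    rw [e2]
    have e6 := e3.trans (e4.le.trans e5)
    gcongr
  linarith

lemma sumsq (f : ℕ → ℝ) (n : ℕ) (X D : ℝ) (hn : (n : ℝ) ≤ 2 * X) (hD : 0 ≤ D)
    (h : ∀ m, 1 ≤ m → m ≤ n → |f m| ≤ D) : ∑ m ∈ Finset.Icc 1 n, f m ^ 2 ≤ 2 * X * D ^ 2 := by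
  calc ∑ m ∈ Finset.Icc 1 n, f m ^ 2 ≤ ∑ _m ∈ Finset.Icc 1 n, D ^ 2 := by
        refine Finset.sum_le_sum fun m hm => ?_
        rw [Finset.mem_Icc] at hm
        exact sq_le_sq' (by have := (abs_le.1 (h m hm.1 hm.2)).1; linarith)
          ((abs_le.1 (h m hm.1 hm.2)).2)
    _ = (n : ℝ) * D ^ 2 := by simp
    _ ≤ 2 * X * D ^ 2 := by gcongr

end IH3

open IH3

theorem prH3 (hQ4 : tsQ4) (hL0 : tsL0) (hF6 : tsF6) (hH1 : tsH1) (hH2 : tsH2) : tsH3 := by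
  intro r E η₂ η X0 hr hAP hCB hη₂ hη₂' hη hη1 hhyp F A θ hd hlc hpos hθ
  obtain ⟨A', c, CF, hc, hCF, -, hCFb⟩ := hH2 F hd hlc
  obtain ⟨δ₁, K0, hδ₁, hH1'⟩ := hH1 F A hd hlc hpos (η / 12) (by positivity) (by linarith)
  have hd0 : (0 : ℝ) < (F.natDegree : ℝ) := by exact_mod_cast hd
  obtain ⟨ε, hε, hε1, hε2⟩ : ∃ ε : ℝ, 0 < ε ∧ ε ≤ η / 16 ∧ ε ≤ δ₁ / (32 * (F.natDegree : ℝ)) :=
    ⟨min (η / 16) (δ₁ / (32 * (F.natDegree : ℝ))), lt_min (by positivity) (by positivity),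
      min_le_left _ _, min_le_right _ _⟩
  obtain ⟨δ, hδ, hδ1, hδ2⟩ : ∃ δ : ℝ, 0 < δ ∧ δ ≤ η ∧ δ ≤ δ₁ / (8 * (F.natDegree : ℝ)) :=
    ⟨min η (δ₁ / (8 * (F.natDegree : ℝ))), lt_min hη (by positivity),
      min_le_left _ _, min_le_right _ _⟩
  obtain ⟨CL, hCL, hL⟩ := hL0 r ε hε
  obtain ⟨CM, hCM, hM⟩ := hF6 r E hAP.1 hCB ε hε
  obtain ⟨C1, hC1def⟩ : ∃ C1 : ℝ, C1 = 2 * CL + CM := ⟨_, rfl⟩
  have hC1 : 0 < C1 := by rw [hC1def]; positivity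
  -- the conditions on `X`
  have ev1 : ∀ᶠ X : ℝ in atTop, CF * X ^ θ ≤ X / 2 - 1 := by
    have h1 : ∀ᶠ X : ℝ in atTop, 4 * CF ≤ X ^ (1 - θ) :=
      (tendsto_rpow_atTop (by linarith : 0 < 1 - θ)).eventually_ge_atTop _
    filter_upwards [h1, eventually_ge_atTop (4 : ℝ)] with X hX1 hX4
    have hX0 : 0 < X := by linarith
    have e1 : X ^ (1 - θ) * X ^ θ = X := by
      rw [← Real.rpow_add hX0]; simp
    have e2 : 0 < X ^ θ := by positivity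
    nlinarith
  have ev2 : ∀ᶠ X : ℝ in atTop, (max K0 1) ^ F.natDegree ≤ X ^ ((1 : ℝ) / 2) :=
    (tendsto_rpow_atTop (by norm_num : (0 : ℝ) < 1 / 2)).eventually_ge_atTop _
  have ev3 : ∀ᶠ X : ℝ in atTop, 8 * C1 ^ 4 ≤ X ^ (δ₁ / (4 * (F.natDegree : ℝ))) :=
    (tendsto_rpow_atTop (by positivity)).eventually_ge_atTop _
  have ev4 : ∀ᶠ X : ℝ in atTop, 48 * C1 ^ 2 ≤ X ^ (η / 8) :=
    (tendsto_rpow_atTop (by positivity)).eventually_ge_atTop _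
  obtain ⟨X1, hX1⟩ := (((ev1.and ev2).and (ev3.and ev4)).and
    ((eventually_ge_atTop X0).and (eventually_ge_atTop (2 : ℝ)))).exists_forall_of_atTop
  refine ⟨δ, X1, hδ, ?_⟩
  intro X K hXX hK1 hK2
  obtain ⟨⟨⟨c1, c2⟩, c3, c4⟩, c5, c6⟩ := hX1 X hXX
  have hX1' : 1 ≤ X := by linarith
  have hX0' : 0 < X := by linarith
  -- `K`
  have hKmax : max K0 1 ≤ (K : ℝ) := by
    have h1 : (max K0 1) ^ F.natDegree ≤ (K : ℝ) ^ F.natDegree :=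
      c2.trans ((Real.rpow_le_rpow_of_exponent_le hX1' (by linarith)).trans hK1)
    exact (pow_le_pow_iff_left₀ (by positivity) (by positivity) (by omega)).1 h1
  have hK0 : K0 ≤ (K : ℝ) := (le_max_left _ _).trans hKmax
  have hK1r : (1 : ℝ) ≤ K := (le_max_right _ _).trans hKmax
  have hK1n : 1 ≤ K := by exact_mod_cast hK1r
  have hXθ : X ^ θ ≤ X := by
    have := Real.rpow_le_rpow_of_exponent_le hX1' hθ.le
    rwa [Real.rpow_one] at this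
  have hKX : (K : ℝ) ≤ X :=
    (le_self_pow₀ hK1r (by omega)).trans (hK2.trans hXθ)
  -- the numbers `N`, `H`, `M`
  obtain ⟨N, hN⟩ : ∃ N : ℕ, N = ⌊X⌋₊ := ⟨_, rfl⟩
  obtain ⟨H, hH⟩ : ∃ H : ℕ, H = ⌊X / 2⌋₊ := ⟨_, rfl⟩
  have hNX : (N : ℝ) ≤ X := by rw [hN]; exact Nat.floor_le hX0'.le
  have hNX' : X < N + 1 := by rw [hN]; exact Nat.lt_floor_add_one X
  have hHX : (H : ℝ) ≤ X / 2 := by rw [hH]; exact Nat.floor_le (by positivity)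
  have hHX' : X / 2 < H + 1 := by rw [hH]; exact Nat.lt_floor_add_one _
  have hNH : ((N + H : ℕ) : ℝ) ≤ 2 * X := by push_cast; linarith
  have hN2 : (N : ℝ) ≤ 2 * X := by linarith
  have hsh : ∀ k ∈ Finset.Ioc A K, fv F k ≤ H := by
    intro k hk
    rw [Finset.mem_Ioc] at hk
    have hk1 : 1 ≤ k := by omega
    have h1 := hpos k hk.1
    have h2 : ((fv F k : ℕ) : ℝ) = ((F.eval (k : ℤ) : ℤ) : ℝ) := by
      unfold fv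
      have : (((F.eval (k : ℤ)).toNat : ℕ) : ℤ) = F.eval (k : ℤ) := Int.toNat_of_nonneg (by omega)
      exact_mod_cast this
    have h3 : ((F.eval (k : ℤ) : ℤ) : ℝ) ≤ CF * (k : ℝ) ^ F.natDegree :=
      (le_abs_self _).trans (hCFb k hk1)
    have h4 : CF * (k : ℝ) ^ F.natDegree ≤ CF * (K : ℝ) ^ F.natDegree := by
      have : (k : ℝ) ≤ K := by exact_mod_cast hk.2
      gcongr
    have h5 : CF * (K : ℝ) ^ F.natDegree ≤ CF * X ^ θ := by gcongr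
    have h6 : ((fv F k : ℕ) : ℝ) < H + 1 := by rw [h2]; linarith
    have h7 : fv F k < H + 1 := by exact_mod_cast h6
    omega
  have hKM : (K : ℝ) ^ F.natDegree ≤ ((N + H + 1 : ℕ) : ℝ) := by
    push_cast
    have : (0 : ℝ) ≤ H := by positivity
    linarith
  have hG := hH1' K (N + H + 1) hK0 hK1n hKM
  obtain ⟨w, hw⟩ : ∃ w : ℝ, w = (K : ℝ) ^ (1 - δ₁) := ⟨_, rfl⟩
  have hw0 : 0 ≤ w := by rw [hw]; positivity
  obtain ⟨B, hB⟩ : ∃ B : ℝ, B = X ^ (1 - η) := ⟨_, rfl⟩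
  have hB0 : 0 ≤ B := by rw [hB]; positivity
  -- pointwise bounds
  have hQ : ((⌊X ^ η₂⌋₊ : ℕ) : ℝ) ≤ X := by
    refine (Nat.floor_le (by positivity)).trans ?_
    have := Real.rpow_le_rpow_of_exponent_le hX1' (by linarith : η₂ ≤ 1)
    rwa [Real.rpow_one] at this
  have hD0 : 0 ≤ C1 * X ^ ε := by positivity
  have hdr0 : ∀ n, 0 ≤ dr r n := fun n => by unfold dr; positivity
  have hdr : ∀ n : ℕ, 1 ≤ n → (n : ℝ) ≤ 2 * X → |dr r n| ≤ 2 * CL * X ^ ε := by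
    intro n hn1 hn2
    rw [abs_of_nonneg (hdr0 n)]
    refine (hL n hn1).trans ?_
    have e1 : (n : ℝ) ^ ε ≤ (2 * X) ^ ε := Real.rpow_le_rpow (by positivity) hn2 hε.le
    rw [Real.mul_rpow (by norm_num) hX0'.le] at e1
    have e2 : (2 : ℝ) ^ ε ≤ 2 := by
      have := Real.rpow_le_rpow_of_exponent_le (by norm_num : (1 : ℝ) ≤ 2) (by linarith : ε ≤ 1)
      rwa [Real.rpow_one] at this
    calc CL * (n : ℝ) ^ ε ≤ CL * (2 ^ ε * X ^ ε) := by gcongr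
      _ ≤ CL * (2 * X ^ ε) := by gcongr
      _ = 2 * CL * X ^ ε := by ring
  have hfs : ∀ n : ℕ, 1 ≤ n → (n : ℝ) ≤ 2 * X → |fs E ⌊X ^ η₂⌋₊ n| ≤ CM * X ^ ε :=
    fun n hn1 hn2 => hM X _ n hX1' hQ hn1 hn2
  have hXε : 0 < X ^ ε := by positivity
  have b1 : ∀ n : ℕ, 1 ≤ n → (n : ℝ) ≤ 2 * X → |dr r n| ≤ C1 * X ^ ε := by
    intro n hn1 hn2
    refine (hdr n hn1 hn2).trans ?_
    rw [hC1def]
    nlinarith
  have b2 : ∀ n : ℕ, 1 ≤ n → (n : ℝ) ≤ 2 * X → |fs E ⌊X ^ η₂⌋₊ n| ≤ C1 * X ^ ε := by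
    intro n hn1 hn2
    refine (hfs n hn1 hn2).trans ?_
    rw [hC1def]
    nlinarith
  have b3 : ∀ n : ℕ, 1 ≤ n → (n : ℝ) ≤ 2 * X → |fl r E ⌊X ^ η₂⌋₊ n| ≤ C1 * X ^ ε := by
    intro n hn1 hn2
    unfold fl
    refine (abs_sub _ _).trans ?_
    rw [hC1def]
    have := hdr n hn1 hn2
    have := hfs n hn1 hn2
    nlinarith
  obtain ⟨S, hS⟩ : ∃ S : ℝ, S = 2 * C1 ^ 2 * X ^ (1 + 2 * ε) := ⟨_, rfl⟩
  have hS0 : 0 ≤ S := by rw [hS]; positivity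
  have hSeq : 2 * X * (C1 * X ^ ε) ^ 2 = S := by
    rw [hS, mul_pow, ← Real.rpow_natCast (X ^ ε) 2, ← Real.rpow_mul hX0'.le,
      Real.rpow_add hX0', Real.rpow_one]
    push_cast
    rw [mul_comm ε 2]
    ring
  have s : ∀ (f : ℕ → ℝ) (n : ℕ), (n : ℝ) ≤ 2 * X →
      (∀ m : ℕ, 1 ≤ m → (m : ℝ) ≤ 2 * X → |f m| ≤ C1 * X ^ ε) →
      ∑ m ∈ Finset.Icc 1 n, f m ^ 2 ≤ S := by
    intro f n hn hf
    rw [← hSeq]
    refine sumsq f n X _ hn hD0 fun m hm1 hm2 => hf m hm1 ?_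
    have : (m : ℝ) ≤ n := by exact_mod_cast hm2
    linarith
  have hnn : ∀ (f : ℕ → ℝ) (n : ℕ), 0 ≤ ∑ m ∈ Finset.Icc 1 n, f m ^ 2 :=
    fun f n => Finset.sum_nonneg fun m _ => sq_nonneg _
  -- the number of exceptional `t`
  obtain ⟨G, hGdef⟩ : ∃ G : ℕ, G = ((Finset.range (N + H + 1)).filter
    (fun t : ℕ => (K : ℝ) ^ (1 - δ₁) < ‖∑ k ∈ Finset.Ioc A K,
      ee ((fv F k : ℝ) * t / ((N + H + 1 : ℕ) : ℝ))‖)).card := ⟨_, rfl⟩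
  have hGM : (G : ℝ) / ((N + H + 1 : ℕ) : ℝ) ≤
      12 * (K : ℝ) ^ (3 * (η / 12) - (F.natDegree : ℝ)) := by
    rw [div_le_iff₀ (by positivity), hGdef]
    exact hG
  have hcard : ((Finset.Ioc A K).card : ℝ) ≤ K := by
    rw [Nat.card_Ioc]
    exact_mod_cast Nat.sub_le K A
  have hfin := numer (K : ℝ) X C1 δ₁ η ε δ F.natDegree hd hK1r hX1' hC1 hδ₁ hη hη1 hKX hK1
    hε1 hε2 hδ1 hδ2 c3 c4
  have key : ∀ s1 s2 s3 : ℝ, 0 ≤ s1 → 0 ≤ s2 → 0 ≤ s3 → s1 ≤ S → s2 ≤ S → s3 ≤ S →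
      w * s1 * s2 + ((Finset.Ioc A K).card : ℝ) * B ^ 2 * ((G : ℝ) / ((N + H + 1 : ℕ) : ℝ)) * s3 ≤
        K * X ^ (2 - δ) := by
    intro s1 s2 s3 h1 h2 h3 h4 h5 h6
    refine le_trans ?_ hfin
    rw [← hS, ← hw, ← hB]
    gcongr
  constructor
  · have h1 := (hQ4 (Finset.Ioc A K) (fv F) (fl r E ⌊X ^ η₂⌋₊) (dr r) N H (N + H + 1) G w B
      (Nat.lt_succ_self _) hsh hw0 hB0 (by rw [hGdef, hw])).1
      (fun j _ => by rw [hB]; exact hhyp X _ N c5 hN2)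
    rw [← hN]
    exact h1.trans (key _ _ _ (hnn _ _) (hnn _ _) (hnn _ _) (s _ _ hN2 b3) (s _ _ hNH b1)
      (s _ _ hNH b1))
  · have h1 := (hQ4 (Finset.Ioc A K) (fv F) (fs E ⌊X ^ η₂⌋₊) (fl r E ⌊X ^ η₂⌋₊) N H (N + H + 1) G
      w B (Nat.lt_succ_self _) hsh hw0 hB0 (by rw [hGdef, hw])).2
      (fun j _ => by rw [hB]; exact hhyp X _ (N + H) c5 hNH)
    rw [← hN]
    exact h1.trans (key _ _ _ (hnn _ _) (hnn _ _) (hnn _ _) (s _ _ hN2 b2) (s _ _ hNH b3)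
      (s _ _ hN2 b2))

end Pool.Agent.Work.MP_122e00_nt.TS
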