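import Pool.Agent.Work.MP_122e00_nt.TS.Stmts3

/-!
# Thin shifts, item H5 (helper6): from the second moment for every `X` to all `X` at once
-/

set_option autoImplicit false

namespace Pool.Agent.Work.MP_122e00_nt.TS

open Finset Filter Topology ArithmeticFunction
open scoped ArithmeticFunction.zeta ArithmeticFunction.Moebius

namespace IH5

theorem big (s M : ℝ) (hs : 0 < s) : ∃ X0 : ℝ, 1 ≤ X0 ∧ ∀ X : ℝ, X0 ≤ X → M ≤ X ^ s := by
  obtain ⟨X0, h⟩ := Filter.eventually_atTop.1 ((tendsto_rpow_atTop hs).eventually_ge_atTop M)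
  exact ⟨max 1 X0, le_max_left _ _, fun X hX => h X ((le_max_right _ _).trans hX)⟩

theorem pow_diff (a b : ℝ) (hb : 0 ≤ b) (hab : b ≤ a) (j : ℕ) :
    a ^ j - b ^ j ≤ j * (1 + a) ^ j * (a - b) := by
  have ha : 0 ≤ a := hb.trans hab
  induction j with
  | zero => simp
  | succ j ih =>
    have h1 : a ^ (j + 1) - b ^ (j + 1) = a * (a ^ j - b ^ j) + (a - b) * b ^ j := by ring
    have h2 : a * (a ^ j - b ^ j) ≤ (1 + a) * (j * (1 + a) ^ j * (a - b)) :=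
      (mul_le_mul_of_nonneg_left ih ha).trans (mul_le_mul_of_nonneg_right (by linarith)
        (mul_nonneg (mul_nonneg (Nat.cast_nonneg _) (pow_nonneg (by linarith) _)) (by linarith)))
    have h3 : b ^ j ≤ (1 + a) ^ (j + 1) := by
      calc b ^ j ≤ (1 + a) ^ j := pow_le_pow_left₀ hb (by linarith) j
        _ ≤ (1 + a) ^ (j + 1) := pow_le_pow_right₀ (by linarith) (Nat.le_succ j)
    have h4 : (a - b) * b ^ j ≤ (a - b) * (1 + a) ^ (j + 1) :=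
      mul_le_mul_of_nonneg_left h3 (by linarith)
    rw [h1]
    push_cast
    calc a * (a ^ j - b ^ j) + (a - b) * b ^ j
        ≤ (1 + a) * (j * (1 + a) ^ j * (a - b)) + (a - b) * (1 + a) ^ (j + 1) := add_le_add h2 h4
      _ = ((j : ℝ) + 1) * (1 + a) ^ (j + 1) * (a - b) := by ring

theorem mono_diff (X Y : ℝ) (hX : 1 ≤ X) (hXY : X ≤ Y) (j : ℕ) :
    |Y * Real.log Y ^ j - X * Real.log X ^ j| ≤ ((j : ℝ) + 1) * (1 + Real.log Y) ^ j * (Y - X) := by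
  have hX0 : 0 < X := by linarith
  have hY0 : 0 < Y := by linarith
  have hlX : 0 ≤ Real.log X := Real.log_nonneg hX
  have hl : Real.log X ≤ Real.log Y := Real.log_le_log hX0 hXY
  have hlY : 0 ≤ Real.log Y := hlX.trans hl
  have h1 : Real.log X ^ j ≤ Real.log Y ^ j := pow_le_pow_left₀ hlX hl j
  have h2 : 0 ≤ Real.log X ^ j := pow_nonneg hlX j
  have h3 : 0 ≤ Y * Real.log Y ^ j - X * Real.log X ^ j := by
    have := mul_le_mul hXY h1 h2 hY0.le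
    linarith
  rw [abs_of_nonneg h3]
  have h4 : Real.log Y - Real.log X ≤ (Y - X) / X := by
    rw [← Real.log_div hY0.ne' hX0.ne']
    have := Real.log_le_sub_one_of_pos (div_pos hY0 hX0)
    calc Real.log (Y / X) ≤ Y / X - 1 := this
      _ = (Y - X) / X := by field_simp
  have h5 := pow_diff (Real.log Y) (Real.log X) hlX hl j
  have h6 : X * (Real.log Y ^ j - Real.log X ^ j) ≤ j * (1 + Real.log Y) ^ j * (Y - X) := by
    calc X * (Real.log Y ^ j - Real.log X ^ j)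
        ≤ X * (j * (1 + Real.log Y) ^ j * (Real.log Y - Real.log X)) :=
          mul_le_mul_of_nonneg_left h5 hX0.le
      _ ≤ X * (j * (1 + Real.log Y) ^ j * ((Y - X) / X)) := by
          apply mul_le_mul_of_nonneg_left _ hX0.le
          apply mul_le_mul_of_nonneg_left h4
          exact mul_nonneg (Nat.cast_nonneg _) (pow_nonneg (by linarith) _)
      _ = j * (1 + Real.log Y) ^ j * (Y - X) := by field_simp
  have h7 : Real.log Y ^ j ≤ (1 + Real.log Y) ^ j := pow_le_pow_left₀ hlY (by linarith) j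
  have h8 : (Y - X) * Real.log Y ^ j ≤ (Y - X) * (1 + Real.log Y) ^ j :=
    mul_le_mul_of_nonneg_left h7 (by linarith)
  calc Y * Real.log Y ^ j - X * Real.log X ^ j
      = (Y - X) * Real.log Y ^ j + X * (Real.log Y ^ j - Real.log X ^ j) := by ring
    _ ≤ (Y - X) * (1 + Real.log Y) ^ j + j * (1 + Real.log Y) ^ j * (Y - X) := add_le_add h8 h6
    _ = ((j : ℝ) + 1) * (1 + Real.log Y) ^ j * (Y - X) := by ring

theorem poly_diff (P : Polynomial ℝ) (m : ℕ) (M X Y : ℝ) (hP : P.natDegree ≤ m)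
    (hM : ∀ j, |P.coeff j| ≤ M) (hX : 1 ≤ X) (hXY : X ≤ Y) :
    |Y * P.eval (Real.log Y) - X * P.eval (Real.log X)| ≤
      ((m : ℝ) + 1) ^ 2 * M * (1 + Real.log Y) ^ m * (Y - X) := by
  have hM0 : 0 ≤ M := (abs_nonneg _).trans (hM 0)
  have hlY : 0 ≤ Real.log Y := Real.log_nonneg (hX.trans hXY)
  rw [Polynomial.eval_eq_sum_range' (Nat.lt_succ_of_le hP),
    Polynomial.eval_eq_sum_range' (Nat.lt_succ_of_le hP), Finset.mul_sum, Finset.mul_sum,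
    ← Finset.sum_sub_distrib]
  have h1 : ∀ i ∈ Finset.range (m.succ), |Y * (P.coeff i * Real.log Y ^ i) -
      X * (P.coeff i * Real.log X ^ i)| ≤ M * (((m : ℝ) + 1) * (1 + Real.log Y) ^ m * (Y - X)) := by
    intro i hi
    have hi' : i ≤ m := Nat.lt_succ_iff.1 (Finset.mem_range.1 hi)
    have h2 : Y * (P.coeff i * Real.log Y ^ i) - X * (P.coeff i * Real.log X ^ i) =
        P.coeff i * (Y * Real.log Y ^ i - X * Real.log X ^ i) := by ring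
    rw [h2, abs_mul]
    refine mul_le_mul (hM i) ((mono_diff X Y hX hXY i).trans ?_) (abs_nonneg _) hM0
    apply mul_le_mul_of_nonneg_right _ (by linarith)
    apply mul_le_mul
    · have : (i : ℝ) ≤ m := Nat.cast_le.2 hi'
      linarith
    · exact pow_le_pow_right₀ (by linarith) hi'
    · exact pow_nonneg (by linarith) _
    · positivity
  calc |∑ i ∈ Finset.range (m.succ), (Y * (P.coeff i * Real.log Y ^ i) -
        X * (P.coeff i * Real.log X ^ i))|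
      ≤ ∑ i ∈ Finset.range (m.succ), |Y * (P.coeff i * Real.log Y ^ i) -
        X * (P.coeff i * Real.log X ^ i)| := Finset.abs_sum_le_sum_abs _ _
    _ ≤ ∑ _i ∈ Finset.range (m.succ), M * (((m : ℝ) + 1) * (1 + Real.log Y) ^ m * (Y - X)) :=
        Finset.sum_le_sum h1
    _ = ((m : ℝ) + 1) ^ 2 * M * (1 + Real.log Y) ^ m * (Y - X) := by
        rw [Finset.sum_const, Finset.card_range, nsmul_eq_mul]
        push_cast
        ring

theorem count (S : Finset ℕ) (f : ℕ → ℝ) (K X δ : ℝ) (hK : 1 ≤ K) (hKX : K ≤ X) (hδ : 0 < δ)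
    (hsum : ∑ k ∈ S, f k ^ 2 ≤ K * X ^ (2 - δ)) :
    ((S.filter (fun k => X ^ (1 - δ / 4) < |f k|)).card : ℝ) ≤ K ^ (1 - δ / 2) := by
  have hX0 : 0 < X := by linarith
  have hK0 : 0 < K := by linarith
  have hp : 0 < X ^ (2 - δ / 2) := Real.rpow_pos_of_pos hX0 _
  have h1 : ((S.filter (fun k => X ^ (1 - δ / 4) < |f k|)).card : ℝ) * X ^ (2 - δ / 2) ≤
      K * X ^ (2 - δ) := by
    calc ((S.filter (fun k => X ^ (1 - δ / 4) < |f k|)).card : ℝ) * X ^ (2 - δ / 2)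
        = ∑ _k ∈ S.filter (fun k => X ^ (1 - δ / 4) < |f k|), X ^ (2 - δ / 2) := by
          rw [Finset.sum_const, nsmul_eq_mul]
      _ ≤ ∑ k ∈ S.filter (fun k => X ^ (1 - δ / 4) < |f k|), f k ^ 2 := by
          apply Finset.sum_le_sum
          intro k hk
          have h2 := (Finset.mem_filter.1 hk).2
          have h3 : X ^ (2 - δ / 2) = (X ^ (1 - δ / 4)) ^ 2 := by
            rw [← Real.rpow_natCast, ← Real.rpow_mul hX0.le]
            congr 1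
            push_cast
            ring
          rw [h3, ← sq_abs (f k)]
          exact pow_le_pow_left₀ (Real.rpow_nonneg hX0.le _) h2.le 2
      _ ≤ ∑ k ∈ S, f k ^ 2 := Finset.sum_le_sum_of_subset_of_nonneg (Finset.filter_subset _ _)
          fun _ _ _ => sq_nonneg _
      _ ≤ K * X ^ (2 - δ) := hsum
  have h4 : K * X ^ (2 - δ) = (K * X ^ (-(δ / 2))) * X ^ (2 - δ / 2) := by
    rw [mul_assoc, ← Real.rpow_add hX0]
    congr 2
    ring
  rw [h4] at h1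
  have h5 := le_of_mul_le_mul_right h1 hp
  refine h5.trans ?_
  have h6 : X ^ (-(δ / 2)) ≤ K ^ (-(δ / 2)) :=
    Real.rpow_le_rpow_of_nonpos hK0 hKX (by linarith)
  calc K * X ^ (-(δ / 2)) ≤ K * K ^ (-(δ / 2)) := mul_le_mul_of_nonneg_left h6 hK0.le
    _ = K ^ (1 : ℝ) * K ^ (-(δ / 2)) := by rw [Real.rpow_one]
    _ = K ^ (1 + -(δ / 2)) := (Real.rpow_add hK0 _ _).symm
    _ = K ^ (1 - δ / 2) := by rw [← sub_eq_add_neg]

theorem sandwich (D0 DX D1 a x b Z W : ℝ) (h0 : D0 ≤ DX) (h1 : DX ≤ D1) (hZ0 : |D0 - a| ≤ Z)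
    (hZ1 : |D1 - b| ≤ Z) (hW1 : |b - x| ≤ W) (hW0 : |x - a| ≤ W) : |DX - x| ≤ Z + W := by
  rw [abs_le] at *
  constructor <;> linarith [hZ0.1, hZ0.2, hZ1.1, hZ1.2, hW1.1, hW1.2, hW0.1, hW0.2]

theorem grid (K α β s X : ℝ) (hK : 1 ≤ K) (hα : 0 ≤ α) (hs : 0 < s) (h1 : K ^ α ≤ X)
    (h2 : X ≤ K ^ β) : ∃ n : ℕ, (n : ℝ) ≤ 2 * β * K ^ s * Real.log K ∧
      K ^ α * (1 + K ^ (-s)) ^ n ≤ X ∧ X ≤ K ^ α * (1 + K ^ (-s)) ^ (n + 1) := by
  have hK0 : 0 < K := by linarith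
  have hα1 : 1 ≤ K ^ α := Real.one_le_rpow hK hα
  have hα0 : 0 < K ^ α := by linarith
  have hu0 : 0 < K ^ (-s) := Real.rpow_pos_of_pos hK0 _
  have hu1 : K ^ (-s) ≤ 1 := Real.rpow_le_one_of_one_le_of_nonpos hK (by linarith)
  have hx : 1 ≤ X / K ^ α := (one_le_div hα0).2 h1
  obtain ⟨n, hn1, hn2⟩ := exists_nat_pow_near hx (show (1 : ℝ) < 1 + K ^ (-s) by linarith)
  refine ⟨n, ?_, ?_, ?_⟩
  · have h3 : (1 + K ^ (-s)) ^ n ≤ K ^ β := by
      refine hn1.trans ?_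
      rw [div_le_iff₀ hα0]
      have : K ^ β * 1 ≤ K ^ β * K ^ α :=
        mul_le_mul_of_nonneg_left hα1 (Real.rpow_nonneg hK0.le _)
      linarith
    have h4 : (n : ℝ) * Real.log (1 + K ^ (-s)) ≤ β * Real.log K := by
      rw [← Real.log_pow, ← Real.log_rpow hK0]
      exact Real.log_le_log (by positivity) h3
    have h5 : K ^ (-s) / 2 ≤ Real.log (1 + K ^ (-s)) := by
      refine le_trans ?_ (Real.le_log_one_add_of_nonneg hu0.le)
      rw [div_le_div_iff₀ (by norm_num) (by linarith)]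
      nlinarith
    have h6 : (n : ℝ) * (K ^ (-s) / 2) ≤ β * Real.log K :=
      (mul_le_mul_of_nonneg_left h5 (Nat.cast_nonneg _)).trans h4
    have h7 : K ^ s * K ^ (-s) = 1 := by
      rw [← Real.rpow_add hK0]
      simp
    have h8 : (n : ℝ) = 2 * K ^ s * (n * (K ^ (-s) / 2)) := by
      calc (n : ℝ) = n * (K ^ s * K ^ (-s)) := by rw [h7, mul_one]
        _ = 2 * K ^ s * (n * (K ^ (-s) / 2)) := by ring
    rw [h8]
    calc 2 * K ^ s * (n * (K ^ (-s) / 2)) ≤ 2 * K ^ s * (β * Real.log K) :=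
          mul_le_mul_of_nonneg_left h6 (by positivity)
      _ = 2 * β * K ^ s * Real.log K := by ring
  · rw [mul_comm]
    exact (le_div_iff₀ hα0).1 hn1
  · rw [mul_comm]
    exact (div_le_iff₀ hα0).1 hn2.le

/-- powers of the logarithm -/
theorem logpow (m : ℕ) (e : ℝ) (he : 0 < e) (he1 : e ≤ 1) : ∃ C : ℝ, 0 < C ∧ ∀ X : ℝ, 1 ≤ X →
    (1 + Real.log (2 * X)) ^ m ≤ C * X ^ e := by
  have hm : (0 : ℝ) < (m : ℝ) + 1 := by positivity
  obtain ⟨t, ht⟩ : ∃ t : ℝ, t = e / (m + 1) := ⟨_, rfl⟩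
  have ht0 : 0 < t := by rw [ht]; positivity
  have ht1 : t ≤ 1 := by
    rw [ht, div_le_one hm]
    have : (0 : ℝ) ≤ m := Nat.cast_nonneg _
    linarith
  have htm : t * m ≤ e := by
    rw [ht, div_mul_eq_mul_div, div_le_iff₀ hm]
    nlinarith
  refine ⟨(1 + 2 / t) ^ m, by positivity, fun X hX => ?_⟩
  have hX0 : 0 < X := by linarith
  have h1 : Real.log (2 * X) ≤ (2 * X) ^ t / t := Real.log_le_rpow_div (by linarith) ht0
  have h2 : (2 * X) ^ t ≤ 2 * X ^ t := by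
    rw [Real.mul_rpow (by norm_num) hX0.le]
    apply mul_le_mul_of_nonneg_right _ (Real.rpow_nonneg hX0.le _)
    calc (2 : ℝ) ^ t ≤ 2 ^ (1 : ℝ) := Real.rpow_le_rpow_of_exponent_le (by norm_num) ht1
      _ = 2 := Real.rpow_one 2
  have h3 : 1 ≤ X ^ t := Real.one_le_rpow hX ht0.le
  have h4 : 1 + Real.log (2 * X) ≤ (1 + 2 / t) * X ^ t := by
    have h5 : (2 * X) ^ t / t ≤ 2 * X ^ t / t := div_le_div_of_nonneg_right h2 ht0.le
    calc 1 + Real.log (2 * X) ≤ X ^ t + 2 * X ^ t / t := by linarith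
      _ = (1 + 2 / t) * X ^ t := by ring
  have h6 : 0 ≤ 1 + Real.log (2 * X) := by
    have := Real.log_nonneg (show (1 : ℝ) ≤ 2 * X by linarith)
    linarith
  calc (1 + Real.log (2 * X)) ^ m ≤ ((1 + 2 / t) * X ^ t) ^ m := pow_le_pow_left₀ h6 h4 m
    _ = (1 + 2 / t) ^ m * X ^ (t * m) := by
        rw [mul_pow, Real.rpow_mul hX0.le, Real.rpow_natCast]
    _ ≤ (1 + 2 / t) ^ m * X ^ e := by
        apply mul_le_mul_of_nonneg_left _ (by positivity)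
        exact Real.rpow_le_rpow_of_exponent_le hX htm

theorem wb (P : Polynomial ℝ) (m : ℕ) (C1 C2 e X a b : ℝ) (hX : 1 ≤ X) (ha : 1 ≤ a) (hab : a ≤ b)
    (hb : b ≤ 2 * X) (hd : b - a ≤ X ^ (1 - 4 * e)) (hP : P.natDegree ≤ m) (hC1 : 0 ≤ C1)
    (hM : ∀ j, |P.coeff j| ≤ C1 * X ^ e) (h2 : (1 + Real.log (2 * X)) ^ m ≤ C2 * X ^ e) :
    |b * P.eval (Real.log b) - a * P.eval (Real.log a)| ≤
      (((m : ℝ) + 1) ^ 2 * C1 * C2) * X ^ (1 - 2 * e) := by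
  have hX0 : 0 < X := by linarith
  have hlb : 0 ≤ Real.log b := Real.log_nonneg (ha.trans hab)
  have h3 : (1 + Real.log b) ^ m ≤ C2 * X ^ e := by
    refine le_trans (pow_le_pow_left₀ (by linarith) ?_ m) h2
    have := Real.log_le_log (by linarith) hb
    linarith
  have h4 := poly_diff P m (C1 * X ^ e) a b hP hM ha hab
  refine h4.trans ?_
  have he : 0 ≤ X ^ e := Real.rpow_nonneg hX0.le _
  have h5 : 0 ≤ ((m : ℝ) + 1) ^ 2 * (C1 * X ^ e) := by positivity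
  have h6 : 0 ≤ (1 + Real.log b) ^ m := pow_nonneg (by linarith) _
  calc ((m : ℝ) + 1) ^ 2 * (C1 * X ^ e) * (1 + Real.log b) ^ m * (b - a)
      ≤ ((m : ℝ) + 1) ^ 2 * (C1 * X ^ e) * (C2 * X ^ e) * X ^ (1 - 4 * e) := by
        apply mul_le_mul (mul_le_mul_of_nonneg_left h3 h5) hd (by linarith)
        exact mul_nonneg h5 (h6.trans h3)
    _ = (((m : ℝ) + 1) ^ 2 * C1 * C2) * (X ^ e * X ^ e * X ^ (1 - 4 * e)) := by ring
    _ = (((m : ℝ) + 1) ^ 2 * C1 * C2) * X ^ (1 - 2 * e) := by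
        rw [← Real.rpow_add hX0, ← Real.rpow_add hX0]
        congr 2
        ring

theorem tot (δ e δ' C3 X : ℝ) (hX : 1 ≤ X) (hδ' : δ' ≤ δ / 8) (he : δ' ≤ e)
    (h1 : 4 ≤ X ^ (δ / 8)) (h2 : 2 * C3 ≤ X ^ e) :
    2 * X ^ (1 - δ / 4) + C3 * X ^ (1 - 2 * e) ≤ X ^ (1 - δ') := by
  have hX0 : 0 < X := by linarith
  have h3 : X ^ (1 - δ / 8) ≤ X ^ (1 - δ') := Real.rpow_le_rpow_of_exponent_le hX (by linarith)
  have h4 : X ^ (1 - e) ≤ X ^ (1 - δ') := Real.rpow_le_rpow_of_exponent_le hX (by linarith)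
  have h5 : X ^ (1 - δ / 4) * X ^ (δ / 8) = X ^ (1 - δ / 8) := by
    rw [← Real.rpow_add hX0]
    congr 1
    ring
  have h6 : X ^ (1 - 2 * e) * X ^ e = X ^ (1 - e) := by
    rw [← Real.rpow_add hX0]
    congr 1
    ring
  have h7 : X ^ (1 - δ / 4) * 4 ≤ X ^ (1 - δ / 8) := by
    rw [← h5]
    exact mul_le_mul_of_nonneg_left h1 (Real.rpow_nonneg hX0.le _)
  have h8 : X ^ (1 - 2 * e) * (2 * C3) ≤ X ^ (1 - e) := by
    rw [← h6]
    exact mul_le_mul_of_nonneg_left h2 (Real.rpow_nonneg hX0.le _)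
  linarith

/-- the number of grid points -/
theorem jbound (K δ β : ℝ) (hK : 1 ≤ K) (hδ : 0 < δ) (hβ : 0 ≤ β)
    (h : 32 * β / δ + 2 ≤ K ^ (δ / 16)) :
    2 * β * K ^ (δ / 8) * Real.log K + 2 ≤ K ^ (δ / 4) := by
  have hK0 : 0 < K := by linarith
  have h1 : Real.log K ≤ K ^ (δ / 16) / (δ / 16) := Real.log_le_rpow_div hK0.le (by positivity)
  have h2 : 2 * β * K ^ (δ / 8) * Real.log K ≤ (32 * β / δ) * (K ^ (δ / 8) * K ^ (δ / 16)) := by
    calc 2 * β * K ^ (δ / 8) * Real.log K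
        ≤ 2 * β * K ^ (δ / 8) * (K ^ (δ / 16) / (δ / 16)) :=
          mul_le_mul_of_nonneg_left h1 (by positivity)
      _ = (32 * β / δ) * (K ^ (δ / 8) * K ^ (δ / 16)) := by
          field_simp
          ring
  have h3 : 1 ≤ K ^ (δ / 8) * K ^ (δ / 16) :=
    one_le_mul_of_one_le_of_one_le (Real.one_le_rpow hK (by positivity))
      (Real.one_le_rpow hK (by positivity))
  calc 2 * β * K ^ (δ / 8) * Real.log K + 2
      ≤ (32 * β / δ) * (K ^ (δ / 8) * K ^ (δ / 16)) + 2 * (K ^ (δ / 8) * K ^ (δ / 16)) := by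
        linarith
    _ = (32 * β / δ + 2) * (K ^ (δ / 8) * K ^ (δ / 16)) := by ring
    _ ≤ K ^ (δ / 16) * (K ^ (δ / 8) * K ^ (δ / 16)) :=
        mul_le_mul_of_nonneg_right h (by positivity)
    _ = K ^ (δ / 4) := by
        rw [← Real.rpow_add hK0, ← Real.rpow_add hK0]
        congr 1
        ring

/-- lower bound for `X` -/
theorem lowX (d : ℕ) (K c θ' θ X V : ℝ) (hK : 1 ≤ K) (hc : 0 < c) (h0 : 0 < θ') (hθ : θ' < θ)
    (hE : 2 ^ d / c ≤ K ^ ((d : ℝ) * (1 - θ' / θ))) (hX : 1 ≤ X)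
    (hV : c * (K / 2) ^ d ≤ V) (hVX : V ≤ X ^ θ') : K ^ ((d : ℝ) / θ) ≤ X := by
  have hK0 : 0 < K := by linarith
  have hθ0 : 0 < θ := h0.trans hθ
  by_contra hlt
  have hlt := not_le.1 hlt
  have h1 : X ^ θ' < (K ^ ((d : ℝ) / θ)) ^ θ' := Real.rpow_lt_rpow (by linarith) hlt h0
  rw [← Real.rpow_mul hK0.le] at h1
  have h2 : K ^ ((d : ℝ) * (1 - θ' / θ)) * K ^ ((d : ℝ) / θ * θ') = K ^ d := by
    rw [← Real.rpow_add hK0, ← Real.rpow_natCast]
    congr 1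
    field_simp
    ring
  have h3 : 2 ^ d / c * K ^ ((d : ℝ) / θ * θ') ≤ K ^ d := by
    rw [← h2]
    exact mul_le_mul_of_nonneg_right hE (Real.rpow_nonneg hK0.le _)
  have h4 : K ^ ((d : ℝ) / θ * θ') ≤ c * (K / 2) ^ d := by
    have h5 : c * (K / 2) ^ d = c / 2 ^ d * K ^ d := by
      rw [div_pow]
      ring
    rw [h5]
    calc K ^ ((d : ℝ) / θ * θ') = c / 2 ^ d * (2 ^ d / c * K ^ ((d : ℝ) / θ * θ')) := by
          field_simp
      _ ≤ c / 2 ^ d * K ^ d := mul_le_mul_of_nonneg_left h3 (by positivity)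
  linarith

/-- upper bound for `X` -/
theorem uppX (d : ℕ) (K C θa θ₀ X V : ℝ) (hK : 1 ≤ K) (h0 : 0 < θa) (hθ : θa < θ₀)
    (hE : C * 2 ^ θ₀ ≤ K ^ ((d : ℝ) * (θ₀ / θa - 1)))
    (hV : V ≤ C * K ^ d) (hVX : X ^ θ₀ ≤ V) : X ≤ K ^ ((d : ℝ) / θa) / 2 := by
  have hK0 : 0 < K := by linarith
  have hθ0 : 0 < θ₀ := h0.trans hθ
  by_contra hlt
  have hlt := not_le.1 hlt
  have h1 : (K ^ ((d : ℝ) / θa) / 2) ^ θ₀ < X ^ θ₀ :=
    Real.rpow_lt_rpow (by positivity) hlt hθ0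
  rw [Real.div_rpow (by positivity) (by norm_num), ← Real.rpow_mul hK0.le] at h1
  have h2 : K ^ ((d : ℝ) * (θ₀ / θa - 1)) * K ^ d = K ^ ((d : ℝ) / θa * θ₀) := by
    rw [← Real.rpow_natCast, ← Real.rpow_add hK0]
    congr 1
    field_simp
    ring
  have h3 : C * 2 ^ θ₀ * K ^ d ≤ K ^ ((d : ℝ) / θa * θ₀) := by
    rw [← h2]
    exact mul_le_mul_of_nonneg_right hE (by positivity)
  have h5 : (0 : ℝ) < 2 ^ θ₀ := Real.rpow_pos_of_pos (by norm_num) _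
  have h4 : C * K ^ d ≤ K ^ ((d : ℝ) / θa * θ₀) / 2 ^ θ₀ := by
    rw [le_div_iff₀ h5]
    linarith
  linarith

/-- the bad set is small -/
theorem badset (D : ℝ → ℕ → ℝ) (P : ℕ → Polynomial ℝ) (v : ℕ → ℕ) (A K d J : ℕ)
    (θa θ δ u α β Xm : ℝ) (hK : (1 : ℝ) ≤ K) (hθa : 0 < θa) (hθ : 0 < θ) (hδ : 0 < δ) (hu : 0 < u)
    (hα : α = (d : ℝ) / θ) (hβ : β = (d : ℝ) / θa) (hα1 : 1 ≤ α) (hXm : Xm ≤ K)
    (hmain : ∀ (X : ℝ) (K : ℕ), Xm ≤ X → X ^ θa ≤ (K : ℝ) ^ d → (K : ℝ) ^ d ≤ X ^ θ →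
      ∑ k ∈ Finset.Ioc A K, (D X (v k) - X * (P (v k)).eval (Real.log X)) ^ 2 ≤
        K * X ^ (2 - δ)) :
    ((((Finset.range (J + 2)).filter
      (fun n => (K : ℝ) ^ α * (1 + u) ^ n ≤ (K : ℝ) ^ β)).biUnion (fun n =>
      (Finset.Ioc A K).filter (fun k => ((K : ℝ) ^ α * (1 + u) ^ n) ^ (1 - δ / 4) <
        |D ((K : ℝ) ^ α * (1 + u) ^ n) (v k) - ((K : ℝ) ^ α * (1 + u) ^ n) *
          (P (v k)).eval (Real.log ((K : ℝ) ^ α * (1 + u) ^ n))|))).card : ℝ) ≤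
      ((J : ℝ) + 2) * (K : ℝ) ^ (1 - δ / 2) := by
  have hK0 : (0 : ℝ) < K := by linarith
  have hKα : (K : ℝ) ≤ (K : ℝ) ^ α := by
    calc (K : ℝ) = (K : ℝ) ^ (1 : ℝ) := (Real.rpow_one _).symm
      _ ≤ (K : ℝ) ^ α := Real.rpow_le_rpow_of_exponent_le hK hα1
  calc ((((Finset.range (J + 2)).filter
        (fun n => (K : ℝ) ^ α * (1 + u) ^ n ≤ (K : ℝ) ^ β)).biUnion (fun n =>
        (Finset.Ioc A K).filter (fun k => ((K : ℝ) ^ α * (1 + u) ^ n) ^ (1 - δ / 4) <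
          |D ((K : ℝ) ^ α * (1 + u) ^ n) (v k) - ((K : ℝ) ^ α * (1 + u) ^ n) *
            (P (v k)).eval (Real.log ((K : ℝ) ^ α * (1 + u) ^ n))|))).card : ℝ)
      ≤ ((∑ n ∈ (Finset.range (J + 2)).filter
        (fun n => (K : ℝ) ^ α * (1 + u) ^ n ≤ (K : ℝ) ^ β),
        ((Finset.Ioc A K).filter (fun k => ((K : ℝ) ^ α * (1 + u) ^ n) ^ (1 - δ / 4) <
          |D ((K : ℝ) ^ α * (1 + u) ^ n) (v k) - ((K : ℝ) ^ α * (1 + u) ^ n) *
            (P (v k)).eval (Real.log ((K : ℝ) ^ α * (1 + u) ^ n))|)).card : ℕ) : ℝ) :=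
        Nat.cast_le.2 Finset.card_biUnion_le
    _ = ∑ n ∈ (Finset.range (J + 2)).filter
        (fun n => (K : ℝ) ^ α * (1 + u) ^ n ≤ (K : ℝ) ^ β),
        (((Finset.Ioc A K).filter (fun k => ((K : ℝ) ^ α * (1 + u) ^ n) ^ (1 - δ / 4) <
          |D ((K : ℝ) ^ α * (1 + u) ^ n) (v k) - ((K : ℝ) ^ α * (1 + u) ^ n) *
            (P (v k)).eval (Real.log ((K : ℝ) ^ α * (1 + u) ^ n))|)).card : ℝ) := by
        rw [Nat.cast_sum]
    _ ≤ ∑ _n ∈ (Finset.range (J + 2)).filter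
        (fun n => (K : ℝ) ^ α * (1 + u) ^ n ≤ (K : ℝ) ^ β), (K : ℝ) ^ (1 - δ / 2) := by
        apply Finset.sum_le_sum
        intro n hn
        have hn2 := (Finset.mem_filter.1 hn).2
        have hY : (K : ℝ) ≤ (K : ℝ) ^ α * (1 + u) ^ n := by
          have h1 : (1 : ℝ) ≤ (1 + u) ^ n := one_le_pow₀ (by linarith)
          calc (K : ℝ) ≤ (K : ℝ) ^ α * 1 := by rw [mul_one]; exact hKα
            _ ≤ (K : ℝ) ^ α * (1 + u) ^ n :=
              mul_le_mul_of_nonneg_left h1 (Real.rpow_nonneg hK0.le _)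
        have hY1 : (K : ℝ) ^ α ≤ (K : ℝ) ^ α * (1 + u) ^ n := by
          have h1 : (1 : ℝ) ≤ (1 + u) ^ n := one_le_pow₀ (by linarith)
          calc (K : ℝ) ^ α = (K : ℝ) ^ α * 1 := (mul_one _).symm
            _ ≤ (K : ℝ) ^ α * (1 + u) ^ n :=
              mul_le_mul_of_nonneg_left h1 (Real.rpow_nonneg hK0.le _)
        refine count (Finset.Ioc A K) (fun k => D ((K : ℝ) ^ α * (1 + u) ^ n) (v k) -
          ((K : ℝ) ^ α * (1 + u) ^ n) *
            (P (v k)).eval (Real.log ((K : ℝ) ^ α * (1 + u) ^ n))) K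
          ((K : ℝ) ^ α * (1 + u) ^ n) δ hK hY hδ
          (hmain ((K : ℝ) ^ α * (1 + u) ^ n) K (hXm.trans hY) ?_ ?_)
        · calc ((K : ℝ) ^ α * (1 + u) ^ n) ^ θa ≤ ((K : ℝ) ^ β) ^ θa :=
                Real.rpow_le_rpow (by linarith) hn2 hθa.le
            _ = (K : ℝ) ^ d := by
                rw [← Real.rpow_mul hK0.le, ← Real.rpow_natCast, hβ,
                  div_mul_cancel₀ _ hθa.ne']
        · calc (K : ℝ) ^ d = ((K : ℝ) ^ α) ^ θ := by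
                rw [← Real.rpow_mul hK0.le, ← Real.rpow_natCast, hα,
                  div_mul_cancel₀ _ hθ.ne']
            _ ≤ ((K : ℝ) ^ α * (1 + u) ^ n) ^ θ :=
                Real.rpow_le_rpow (Real.rpow_nonneg hK0.le _) hY1 hθ.le
    _ ≤ ((J : ℝ) + 2) * (K : ℝ) ^ (1 - δ / 2) := by
        rw [Finset.sum_const, nsmul_eq_mul]
        apply mul_le_mul_of_nonneg_right _ (Real.rpow_nonneg hK0.le _)
        have h1 := Finset.card_filter_le (Finset.range (J + 2))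
          (fun n => (K : ℝ) ^ α * (1 + u) ^ n ≤ (K : ℝ) ^ β)
        rw [Finset.card_range] at h1
        calc (((Finset.range (J + 2)).filter
              (fun n => (K : ℝ) ^ α * (1 + u) ^ n ≤ (K : ℝ) ^ β)).card : ℝ) ≤ ((J + 2 : ℕ) : ℝ) :=
              Nat.cast_le.2 h1
          _ = (J : ℝ) + 2 := by push_cast; ring

end IH5

theorem prH5 (h2 : tsH2) : tsH5 := by
  intro F A m D P θa θ₀ θ' θ hd hlc hA hmono hdeg hcoef h0 h01 h12 h23 h34 hex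
  obtain ⟨δ₀, X1, hδ₀, hmain₀⟩ := hex
  obtain ⟨A', c, C, hc, hC, hlow, hup⟩ := h2 F hd hlc
  obtain ⟨d, hdd⟩ : ∃ d : ℕ, d = F.natDegree := ⟨_, rfl⟩
  rw [← hdd] at hd hmain₀ hlow hup
  have hd1 : (1 : ℝ) ≤ d := by exact_mod_cast hd
  obtain ⟨δ, hδ⟩ : ∃ δ : ℝ, δ = min δ₀ 1 := ⟨_, rfl⟩
  have hδ0 : 0 < δ := by rw [hδ]; exact lt_min hδ₀ one_pos
  have hδ1 : δ ≤ 1 := by rw [hδ]; exact min_le_right _ _
  have hδ2 : δ ≤ δ₀ := by rw [hδ]; exact min_le_left _ _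
  have hθ₀0 : 0 < θ₀ := h0.trans h01
  have hθ'0 : 0 < θ' := hθ₀0.trans h12
  have hθ0 : 0 < θ := hθ'0.trans h23
  obtain ⟨Xm, hXm⟩ : ∃ Xm : ℝ, Xm = max X1 1 := ⟨_, rfl⟩
  have hmain : ∀ (X : ℝ) (K : ℕ), Xm ≤ X → X ^ θa ≤ (K : ℝ) ^ d → (K : ℝ) ^ d ≤ X ^ θ →
      ∑ k ∈ Finset.Ioc A K, (D X (fv F k) - X * (P (fv F k)).eval (Real.log X)) ^ 2 ≤
        K * X ^ (2 - δ) := by
    intro X K hX h5 h6
    have hX1 : X1 ≤ X := (le_max_left _ _).trans (hXm ▸ hX)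
    have hX2 : 1 ≤ X := (le_max_right _ _).trans (hXm ▸ hX)
    refine (hmain₀ X K hX1 h5 h6).trans ?_
    apply mul_le_mul_of_nonneg_left _ (Nat.cast_nonneg _)
    exact Real.rpow_le_rpow_of_exponent_le hX2 (by linarith)
  obtain ⟨α, hα⟩ : ∃ α : ℝ, α = (d : ℝ) / θ := ⟨_, rfl⟩
  obtain ⟨β, hβ⟩ : ∃ β : ℝ, β = (d : ℝ) / θa := ⟨_, rfl⟩
  have hα1 : 1 ≤ α := by
    rw [hα, le_div_iff₀ hθ0]
    linarith
  have hβ1 : 1 ≤ β := by
    rw [hβ, le_div_iff₀ h0]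
    linarith
  have hβ0 : 0 < β := by linarith
  obtain ⟨s, hs⟩ : ∃ s : ℝ, s = δ / 8 := ⟨_, rfl⟩
  have hs0 : 0 < s := by rw [hs]; positivity
  obtain ⟨e, he⟩ : ∃ e : ℝ, e = s / (4 * β) := ⟨_, rfl⟩
  have he0 : 0 < e := by rw [he]; positivity
  have he1 : e ≤ 1 := by
    rw [he, div_le_one (by positivity)]
    linarith
  have heβ : 4 * e * β = s := by
    rw [he]
    field_simp
  obtain ⟨δ', hδ'⟩ : ∃ δ' : ℝ, δ' = min (δ / 8) e := ⟨_, rfl⟩
  have hδ'0 : 0 < δ' := by rw [hδ']; exact lt_min (by positivity) he0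
  have hδ'1 : δ' ≤ δ / 8 := by rw [hδ']; exact min_le_left _ _
  have hδ'2 : δ' ≤ e := by rw [hδ']; exact min_le_right _ _
  obtain ⟨C1, hC1⟩ := hcoef e he0
  obtain ⟨C2, hC20, hC2⟩ := IH5.logpow m e he0 he1
  obtain ⟨C3, hC3⟩ : ∃ C3 : ℝ, C3 = ((m : ℝ) + 1) ^ 2 * |C1| * C2 := ⟨_, rfl⟩
  have hs2 : 0 < (d : ℝ) * (1 - θ' / θ) := by
    have : θ' / θ < 1 := (div_lt_one hθ0).2 h23
    apply mul_pos (by linarith)
    linarith
  have hs3 : 0 < (d : ℝ) * (θ₀ / θa - 1) := by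
    have : 1 < θ₀ / θa := (one_lt_div h0).2 h01
    apply mul_pos (by linarith)
    linarith
  obtain ⟨K1, hK1, hE2⟩ := IH5.big ((d : ℝ) * (1 - θ' / θ)) (2 ^ d / c) hs2
  obtain ⟨K3, hK3, hE3⟩ := IH5.big ((d : ℝ) * (θ₀ / θa - 1)) (C * 2 ^ θ₀) hs3
  obtain ⟨K5, hK5, hE5⟩ := IH5.big (δ / 16) (32 * β / δ + 2) (by positivity)
  obtain ⟨K6, hK6, hE6⟩ := IH5.big (δ / 8) 4 (by positivity)
  obtain ⟨K7, hK7, hE7⟩ := IH5.big e (2 * C3) he0
  refine ⟨δ', max (max (max K1 K3) (max K5 K6)) (max (max K7 Xm) (2 * ((A' : ℝ) + 1))), hδ'0,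
    by linarith, ?_⟩
  intro K hK
  have hKA : max (max K1 K3) (max K5 K6) ≤ (K : ℝ) := (le_max_left _ _).trans hK
  have hKB : max (max K7 Xm) (2 * ((A' : ℝ) + 1)) ≤ (K : ℝ) := (le_max_right _ _).trans hK
  have hKK1 : K1 ≤ (K : ℝ) := (le_max_left _ _).trans ((le_max_left _ _).trans hKA)
  have hKK3 : K3 ≤ (K : ℝ) := (le_max_right _ _).trans ((le_max_left _ _).trans hKA)
  have hKK5 : K5 ≤ (K : ℝ) := (le_max_left _ _).trans ((le_max_right _ _).trans hKA)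
  have hKK6 : K6 ≤ (K : ℝ) := (le_max_right _ _).trans ((le_max_right _ _).trans hKA)
  have hKK7 : K7 ≤ (K : ℝ) := (le_max_left _ _).trans ((le_max_left _ _).trans hKB)
  have hKXm : Xm ≤ (K : ℝ) := (le_max_right _ _).trans ((le_max_left _ _).trans hKB)
  have hKA' : 2 * ((A' : ℝ) + 1) ≤ (K : ℝ) := (le_max_right _ _).trans hKB
  have hKone : (1 : ℝ) ≤ K := hK1.trans hKK1
  have hK0 : (0 : ℝ) < K := by linarith
  obtain ⟨u, hu⟩ : ∃ u : ℝ, u = (K : ℝ) ^ (-s) := ⟨_, rfl⟩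
  have hu0 : 0 < u := by rw [hu]; exact Real.rpow_pos_of_pos hK0 _
  have hu1 : u ≤ 1 := by
    rw [hu]
    exact Real.rpow_le_one_of_one_le_of_nonpos hKone (by linarith)
  obtain ⟨J, hJ⟩ : ∃ J : ℕ, J = ⌊2 * β * (K : ℝ) ^ s * Real.log K⌋₊ := ⟨_, rfl⟩
  have hlogK : 0 ≤ Real.log K := Real.log_nonneg hKone
  have hJ0 : 0 ≤ 2 * β * (K : ℝ) ^ s * Real.log K := by positivity
  have hJle : (J : ℝ) ≤ 2 * β * (K : ℝ) ^ s * Real.log K := by
    rw [hJ]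
    exact Nat.floor_le hJ0
  have hbad := IH5.badset D P (fv F) A K d J θa θ δ u α β Xm hKone h0 hθ0 hδ0 hu0 hα hβ hα1
    hKXm hmain
  obtain ⟨B, hB⟩ : ∃ B : Finset ℕ, B = ((Finset.range (J + 2)).filter
      (fun n => (K : ℝ) ^ α * (1 + u) ^ n ≤ (K : ℝ) ^ β)).biUnion (fun n =>
      (Finset.Ioc A K).filter (fun k => ((K : ℝ) ^ α * (1 + u) ^ n) ^ (1 - δ / 4) <
        |D ((K : ℝ) ^ α * (1 + u) ^ n) (fv F k) - ((K : ℝ) ^ α * (1 + u) ^ n) *
          (P (fv F k)).eval (Real.log ((K : ℝ) ^ α * (1 + u) ^ n))|)) := ⟨_, rfl⟩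
  rw [← hB] at hbad
  have hKα : (K : ℝ) ≤ (K : ℝ) ^ α := by
    calc (K : ℝ) = (K : ℝ) ^ (1 : ℝ) := (Real.rpow_one _).symm
      _ ≤ (K : ℝ) ^ α := Real.rpow_le_rpow_of_exponent_le hKone hα1
  have hsub : {k : ℕ | A < k ∧ K < 2 * k ∧ k ≤ K ∧ ¬ Gd D P F θ₀ θ' δ' k} ⊆ (B : Set ℕ) := by
    rintro k ⟨hk1, hk2, hk3, hk4⟩
    by_contra hkB
    apply hk4
    intro X hX hX1 hX2
    have hk2' : (K : ℝ) < 2 * k := by exact_mod_cast hk2
    have hk3' : (k : ℝ) ≤ K := by exact_mod_cast hk3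
    have hkA' : A' < k := by
      have h5 : (A' : ℝ) < k := by linarith
      exact_mod_cast h5
    have hFk1 := hA k hk1
    have hfv : ((fv F k : ℕ) : ℝ) = ((F.eval (k : ℤ) : ℤ) : ℝ) := by
      have h5 : ((fv F k : ℕ) : ℤ) = F.eval (k : ℤ) := Int.toNat_of_nonneg (by omega)
      exact_mod_cast congrArg (fun z : ℤ => (z : ℝ)) h5
    have hfv1 : 1 ≤ fv F k := by
      have h5 : ((fv F k : ℕ) : ℤ) = F.eval (k : ℤ) := Int.toNat_of_nonneg (by omega)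
      omega
    have hVlow : c * ((K : ℝ) / 2) ^ d ≤ ((F.eval (k : ℤ) : ℤ) : ℝ) := by
      refine le_trans ?_ (hlow k hkA').2
      apply mul_le_mul_of_nonneg_left _ hc.le
      exact pow_le_pow_left₀ (by positivity) (by linarith) d
    have hVup : ((F.eval (k : ℤ) : ℤ) : ℝ) ≤ C * (K : ℝ) ^ d := by
      refine (le_abs_self _).trans ((hup k (by omega)).trans ?_)
      apply mul_le_mul_of_nonneg_left _ hC.le
      exact pow_le_pow_left₀ (Nat.cast_nonneg _) hk3' d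
    have hXlow : (K : ℝ) ^ α ≤ X := by
      rw [hα]
      exact IH5.lowX d K c θ' θ X _ hKone hc hθ'0 h23 (hE2 K hKK1) hX hVlow hX2
    have hXup : X ≤ (K : ℝ) ^ β / 2 := by
      rw [hβ]
      exact IH5.uppX d K C θa θ₀ X _ hKone h0 h01 (hE3 K hKK3) hVup hX1
    have hβpos : 0 < (K : ℝ) ^ β := Real.rpow_pos_of_pos hK0 _
    obtain ⟨n, hn1, hn2, hn3⟩ := IH5.grid K α β s X hKone (by linarith) hs0 hXlow (by linarith)
    rw [← hu] at hn2 hn3
    have hnJ : n ≤ J := by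
      rw [hJ]
      exact Nat.le_floor hn1
    have hstep : (K : ℝ) ^ α * (1 + u) ^ (n + 1) = (K : ℝ) ^ α * (1 + u) ^ n +
        u * ((K : ℝ) ^ α * (1 + u) ^ n) := by ring
    obtain ⟨Y0, hY0⟩ : ∃ Y0 : ℝ, Y0 = (K : ℝ) ^ α * (1 + u) ^ n := ⟨_, rfl⟩
    obtain ⟨Y1, hY1⟩ : ∃ Y1 : ℝ, Y1 = (K : ℝ) ^ α * (1 + u) ^ (n + 1) := ⟨_, rfl⟩
    rw [← hY0, ← hY1] at hstep
    have hY0X : Y0 ≤ X := by rw [hY0]; exact hn2
    have hXY1 : X ≤ Y1 := by rw [hY1]; exact hn3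
    have hY0K : (K : ℝ) ≤ Y0 := by
      rw [hY0]
      have h5 : (1 : ℝ) ≤ (1 + u) ^ n := one_le_pow₀ (by linarith)
      calc (K : ℝ) ≤ (K : ℝ) ^ α * 1 := by rw [mul_one]; exact hKα
        _ ≤ (K : ℝ) ^ α * (1 + u) ^ n :=
          mul_le_mul_of_nonneg_left h5 (Real.rpow_nonneg hK0.le _)
    have hY01 : 1 ≤ Y0 := hKone.trans hY0K
    have hY1X : Y1 ≤ 2 * X := by
      have h5 : u * Y0 ≤ 1 * Y0 := mul_le_mul_of_nonneg_right hu1 (by linarith)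
      linarith
    have hgood : ∀ n' : ℕ, n' < J + 2 → (K : ℝ) ^ α * (1 + u) ^ n' ≤ (K : ℝ) ^ β →
        |D ((K : ℝ) ^ α * (1 + u) ^ n') (fv F k) - ((K : ℝ) ^ α * (1 + u) ^ n') *
          (P (fv F k)).eval (Real.log ((K : ℝ) ^ α * (1 + u) ^ n'))| ≤
        ((K : ℝ) ^ α * (1 + u) ^ n') ^ (1 - δ / 4) := by
      intro n' hn' hn''
      by_contra hcon
      apply hkB
      rw [hB]
      exact Finset.mem_coe.2 (Finset.mem_biUnion.2 ⟨n', Finset.mem_filter.2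
        ⟨Finset.mem_range.2 hn', hn''⟩, Finset.mem_filter.2
        ⟨Finset.mem_Ioc.2 ⟨hk1, hk3⟩, not_le.1 hcon⟩⟩)
    have hg0 := hgood n (by omega) (by rw [← hY0]; linarith)
    have hg1 := hgood (n + 1) (by omega) (by rw [← hY1]; linarith)
    rw [← hY0] at hg0
    rw [← hY1] at hg1
    have hZ : ∀ Y : ℝ, 1 ≤ Y → Y ≤ 2 * X → Y ^ (1 - δ / 4) ≤ 2 * X ^ (1 - δ / 4) := by
      intro Y hYa hYb
      calc Y ^ (1 - δ / 4) ≤ (2 * X) ^ (1 - δ / 4) :=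
            Real.rpow_le_rpow (by linarith) hYb (by linarith)
        _ = 2 ^ (1 - δ / 4) * X ^ (1 - δ / 4) := Real.mul_rpow (by norm_num) (by linarith)
        _ ≤ 2 * X ^ (1 - δ / 4) := by
            apply mul_le_mul_of_nonneg_right _ (Real.rpow_nonneg (by linarith) _)
            calc (2 : ℝ) ^ (1 - δ / 4) ≤ 2 ^ (1 : ℝ) :=
                  Real.rpow_le_rpow_of_exponent_le (by norm_num) (by linarith)
              _ = 2 := Real.rpow_one 2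
    have hX0 : 0 < X := by linarith
    have huX : u * X ≤ X ^ (1 - 4 * e) := by
      have h5 : (K : ℝ) ^ (-s) ≤ X ^ (-(4 * e)) := by
        have h6 : ((K : ℝ) ^ β) ^ (-(4 * e)) ≤ X ^ (-(4 * e)) :=
          Real.rpow_le_rpow_of_nonpos hX0 (by linarith) (by linarith)
        rw [← Real.rpow_mul hK0.le] at h6
        have h7 : β * (-(4 * e)) = -s := by linarith
        rw [h7] at h6
        exact h6
      calc u * X ≤ X ^ (-(4 * e)) * X := by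
            rw [hu]
            exact mul_le_mul_of_nonneg_right h5 hX0.le
        _ = X ^ (1 - 4 * e) := by
            nth_rewrite 2 [← Real.rpow_one X]
            rw [← Real.rpow_add hX0]
            congr 1
            ring
    have hMh : ∀ j, |(P (fv F k)).coeff j| ≤ |C1| * X ^ e := by
      intro j
      refine (hC1 (fv F k) j hfv1).trans ?_
      have h5 : (((fv F k : ℕ) : ℝ)) ^ e ≤ X ^ e := by
        apply Real.rpow_le_rpow (Nat.cast_nonneg _) _ he0.le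
        rw [hfv]
        refine hX2.trans ?_
        calc X ^ θ' ≤ X ^ (1 : ℝ) := Real.rpow_le_rpow_of_exponent_le hX (by linarith)
          _ = X := Real.rpow_one X
      calc C1 * ((fv F k : ℕ) : ℝ) ^ e ≤ |C1| * ((fv F k : ℕ) : ℝ) ^ e :=
            mul_le_mul_of_nonneg_right (le_abs_self _) (Real.rpow_nonneg (Nat.cast_nonneg _) _)
        _ ≤ |C1| * X ^ e := mul_le_mul_of_nonneg_left h5 (abs_nonneg _)
    have huY : u * Y0 ≤ u * X := mul_le_mul_of_nonneg_left hY0X hu0.le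
    have hW1 := IH5.wb (P (fv F k)) m |C1| C2 e X X Y1 hX hX hXY1 hY1X (by linarith)
      (hdeg _) (abs_nonneg _) hMh (hC2 X hX)
    have hW0 := IH5.wb (P (fv F k)) m |C1| C2 e X Y0 X hX hY01 hY0X (by linarith) (by linarith)
      (hdeg _) (abs_nonneg _) hMh (hC2 X hX)
    rw [← hC3] at hW1 hW0
    have hD0 := hmono (fv F k) Y0 X hY01 hY0X
    have hD1 := hmono (fv F k) X Y1 hX hXY1
    refine (IH5.sandwich _ _ _ _ _ _ (2 * X ^ (1 - δ / 4)) (C3 * X ^ (1 - 2 * e)) hD0 hD1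
      (hg0.trans (hZ Y0 hY01 (by linarith))) (hg1.trans (hZ Y1 (by linarith) hY1X))
      hW1 hW0).trans ?_
    have hKX : (K : ℝ) ≤ X := hY0K.trans hY0X
    exact IH5.tot δ e δ' C3 X hX hδ'1 hδ'2 (hE6 X (hKK6.trans hKX)) (hE7 X (hKK7.trans hKX))
  have hcard : (Set.ncard {k : ℕ | A < k ∧ K < 2 * k ∧ k ≤ K ∧ ¬ Gd D P F θ₀ θ' δ' k} : ℝ) ≤
      (B.card : ℝ) := by
    have h5 := Set.ncard_le_ncard hsub (Finset.finite_toSet B)
    rw [Set.ncard_coe_finset] at h5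
    exact_mod_cast h5
  refine hcard.trans (hbad.trans ?_)
  have hj := IH5.jbound K δ β hKone hδ0 hβ0.le (hE5 K hKK5)
  rw [← hs] at hj
  calc ((J : ℝ) + 2) * (K : ℝ) ^ (1 - δ / 2) ≤ (K : ℝ) ^ (δ / 4) * (K : ℝ) ^ (1 - δ / 2) := by
        apply mul_le_mul_of_nonneg_right _ (Real.rpow_nonneg hK0.le _)
        linarith
    _ = (K : ℝ) ^ (1 - δ / 4) := by
        rw [← Real.rpow_add hK0]
        congr 1
        ring
    _ ≤ (K : ℝ) ^ (1 - δ') := Real.rpow_le_rpow_of_exponent_le hKone (by linarith)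

end Pool.Agent.Work.MP_122e00_nt.TS
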