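import Mathlib
import Pool.Agent.Work.MP_122e00_nt.TS.Stmts3

/-!
# H6: dyadic blocks add up
-/

namespace Pool.Agent.Work.MP_122e00_nt.TS

namespace IH6

/-- The set up to `K` is finite. -/
theorem fin1 (S : Set ℕ) (K : ℕ) : {k : ℕ | k ∈ S ∧ 1 ≤ k ∧ k ≤ K}.Finite :=
  (Set.finite_Iic K).subset (fun _ hk => hk.2.2)

/-- The block is finite. -/
theorem fin2 (S : Set ℕ) (K : ℕ) : {k : ℕ | k ∈ S ∧ K < 2 * k ∧ k ≤ K}.Finite :=
  (Set.finite_Iic K).subset (fun _ hk => hk.2.2)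

/-- The block has at most `K` elements. -/
theorem block_le (S : Set ℕ) (K : ℕ) :
    Set.ncard {k : ℕ | k ∈ S ∧ K < 2 * k ∧ k ≤ K} ≤ K := by
  have h : {k : ℕ | k ∈ S ∧ K < 2 * k ∧ k ≤ K} ⊆ ((Finset.Icc 1 K : Finset ℕ) : Set ℕ) := by
    intro k hk
    simp only [Finset.coe_Icc, Set.mem_Icc]
    obtain ⟨_, h1, h2⟩ := hk
    exact ⟨by omega, h2⟩
  calc Set.ncard {k : ℕ | k ∈ S ∧ K < 2 * k ∧ k ≤ K}
      ≤ Set.ncard ((Finset.Icc 1 K : Finset ℕ) : Set ℕ) :=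
        Set.ncard_le_ncard h (Finset.finite_toSet _)
    _ = K := by rw [Set.ncard_coe_finset]; simp

/-- The count up to `K` splits at `K / 2`. -/
theorem split (S : Set ℕ) (K : ℕ) :
    Set.ncard {k : ℕ | k ∈ S ∧ 1 ≤ k ∧ k ≤ K} ≤
      Set.ncard {k : ℕ | k ∈ S ∧ 1 ≤ k ∧ k ≤ K / 2} +
        Set.ncard {k : ℕ | k ∈ S ∧ K < 2 * k ∧ k ≤ K} := by
  have h : {k : ℕ | k ∈ S ∧ 1 ≤ k ∧ k ≤ K} ⊆
      {k : ℕ | k ∈ S ∧ 1 ≤ k ∧ k ≤ K / 2} ∪ {k : ℕ | k ∈ S ∧ K < 2 * k ∧ k ≤ K} := by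
    rintro k ⟨h1, h2, h3⟩
    rcases Nat.lt_or_ge K (2 * k) with h4 | h4
    · exact Or.inr ⟨h1, h4, h3⟩
    · exact Or.inl ⟨h1, h2, by omega⟩
  exact (Set.ncard_le_ncard h ((fin1 S _).union (fin2 S _))).trans (Set.ncard_union_le _ _)

end IH6

/-- H6. -/
theorem prH6 : tsH6 := by
  intro S δ' K2 h0 h1 hblock
  have he : 0 < 1 - δ' := by linarith
  have hq1 : (2 : ℝ) ^ (δ' - 1) < 1 :=
    Real.rpow_lt_one_of_one_lt_of_neg (by norm_num) (by linarith)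
  have hq0 : 0 < (2 : ℝ) ^ (δ' - 1) := Real.rpow_pos_of_pos (by norm_num) _
  set q : ℝ := (2 : ℝ) ^ (δ' - 1) with hq
  have hd : 0 < 1 - q := by linarith
  set C0 : ℝ := 1 + |K2| with hC0
  have hC0p : 1 ≤ C0 := by rw [hC0]; have := abs_nonneg K2; linarith
  refine ⟨C0 / (1 - q), ?_⟩
  have hC : C0 / (1 - q) * q + C0 = C0 / (1 - q) := by
    field_simp
    ring
  have hCp : 0 ≤ C0 / (1 - q) := by positivity
  -- the block bound for all `K ≥ 1`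
  have hb : ∀ K : ℕ, 1 ≤ K → (Set.ncard {k : ℕ | k ∈ S ∧ K < 2 * k ∧ k ≤ K} : ℝ) ≤
      C0 * (K : ℝ) ^ (1 - δ') := by
    intro K hK
    have hK1 : (1 : ℝ) ≤ (K : ℝ) := by exact_mod_cast hK
    have hp1 : (1 : ℝ) ≤ (K : ℝ) ^ (1 - δ') := Real.one_le_rpow hK1 he.le
    rcases le_or_gt K2 (K : ℝ) with h2 | h2
    · refine (hblock K h2).trans ?_
      nlinarith
    · have h3 : (Set.ncard {k : ℕ | k ∈ S ∧ K < 2 * k ∧ k ≤ K} : ℝ) ≤ (K : ℝ) := by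
        exact_mod_cast IH6.block_le S K
      have h4 : (K : ℝ) ≤ C0 := by
        rw [hC0]
        have := le_abs_self K2
        linarith
      calc (Set.ncard {k : ℕ | k ∈ S ∧ K < 2 * k ∧ k ≤ K} : ℝ) ≤ C0 := h3.trans h4
        _ = C0 * 1 := (mul_one _).symm
        _ ≤ C0 * (K : ℝ) ^ (1 - δ') := by
          exact mul_le_mul_of_nonneg_left hp1 (by linarith)
  intro K
  induction K using Nat.strong_induction_on with
  | _ K ih =>
    intro hK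
    have hK1 : (1 : ℝ) ≤ (K : ℝ) := by exact_mod_cast hK
    have hsplit : (Set.ncard {k : ℕ | k ∈ S ∧ 1 ≤ k ∧ k ≤ K} : ℝ) ≤
        (Set.ncard {k : ℕ | k ∈ S ∧ 1 ≤ k ∧ k ≤ K / 2} : ℝ) +
          (Set.ncard {k : ℕ | k ∈ S ∧ K < 2 * k ∧ k ≤ K} : ℝ) := by
      exact_mod_cast IH6.split S K
    have hhalf : (Set.ncard {k : ℕ | k ∈ S ∧ 1 ≤ k ∧ k ≤ K / 2} : ℝ) ≤
        C0 / (1 - q) * (q * (K : ℝ) ^ (1 - δ')) := by
      rcases Nat.eq_zero_or_pos (K / 2) with h5 | h5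
      · have h6 : {k : ℕ | k ∈ S ∧ 1 ≤ k ∧ k ≤ K / 2} = ∅ := by
          ext k
          simp only [Set.mem_setOf_eq, Set.mem_empty_iff_false, iff_false]
          rintro ⟨_, h7, h8⟩
          omega
        rw [h6, Set.ncard_empty]
        simp only [Nat.cast_zero]
        positivity
      · have h7 := ih (K / 2) (by omega) h5
        refine h7.trans ?_
        refine mul_le_mul_of_nonneg_left ?_ hCp
        have h8 : ((K / 2 : ℕ) : ℝ) ≤ (K : ℝ) / 2 := Nat.cast_div_le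
        have h9 : ((K / 2 : ℕ) : ℝ) ^ (1 - δ') ≤ ((K : ℝ) / 2) ^ (1 - δ') :=
          Real.rpow_le_rpow (by positivity) h8 he.le
        have h10 : ((K : ℝ) / 2) ^ (1 - δ') = q * (K : ℝ) ^ (1 - δ') := by
          rw [Real.div_rpow (by positivity) (by norm_num), hq,
            show δ' - 1 = -(1 - δ') by ring, Real.rpow_neg (by norm_num)]
          field_simp
        rw [← h10]
        exact h9
    have hbK := hb K hK
    have hP : 0 ≤ (K : ℝ) ^ (1 - δ') := by positivity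
    calc (Set.ncard {k : ℕ | k ∈ S ∧ 1 ≤ k ∧ k ≤ K} : ℝ)
        ≤ C0 / (1 - q) * (q * (K : ℝ) ^ (1 - δ')) + C0 * (K : ℝ) ^ (1 - δ') := by linarith
      _ = (C0 / (1 - q) * q + C0) * (K : ℝ) ^ (1 - δ') := by ring
      _ = C0 / (1 - q) * (K : ℝ) ^ (1 - δ') := by rw [hC]

end Pool.Agent.Work.MP_122e00_nt.TS
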