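import Pool.Agent.Work.MP_122e00_nt.TS.Stmts1
import Pool.Agent.Work.MP_122e00_nt.Bd.B42

set_option autoImplicit false

namespace Pool.Agent.Work.MP_122e00_nt.TS

open Finset Filter Topology ArithmeticFunction
open scoped ArithmeticFunction.zeta ArithmeticFunction.Moebius

theorem prL0 : tsL0 := by
  intro r ε hε
  rcases Nat.eq_zero_or_pos r with hr | hr
  · subst hr
    refine ⟨1, one_pos, fun n hn => ?_⟩
    have h1 : (1 : ℝ) ≤ (n : ℝ) ^ ε := Real.one_le_rpow (by exact_mod_cast hn) hε.le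
    have h2 : dr 0 n ≤ 1 := by
      unfold dr
      rw [pow_zero, ArithmeticFunction.one_apply]
      split_ifs <;> simp
    linarith
  · obtain ⟨s, rfl⟩ : ∃ s, r = s + 1 := ⟨r - 1, by omega⟩
    obtain ⟨X0, hX0⟩ := Filter.eventually_atTop.mp
      (Pool.Agent.Work.MP_122e00_nt.Two.IU9.zeta_pow_le s (show 0 < 2 * ε by linarith))
    set Y : ℝ := max X0 1 with hY
    have hY1 : 1 ≤ Y := le_max_right _ _
    refine ⟨Y ^ ε, Real.rpow_pos_of_pos (by linarith) _, fun n hn => ?_⟩
    have hn1 : (1 : ℝ) ≤ n := by exact_mod_cast hn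
    have h1 := hX0 (Y * n) (le_trans (le_max_left _ _) (by nlinarith)) n (by nlinarith)
    rw [show 2 * ε / 2 = ε by ring, Real.mul_rpow (by linarith) (by linarith)] at h1
    exact h1

end Pool.Agent.Work.MP_122e00_nt.TS
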