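import Mathlib
import Pool.Agent.Work.MP_122e00_nt.TS.Stmts1

set_option autoImplicit false

/-!
# Thin shifts, item L2: a block of `q` consecutive multiples
-/

namespace Pool.Agent.Work.MP_122e00_nt.TS

open Finset Filter Topology ArithmeticFunction
open scoped ArithmeticFunction.zeta ArithmeticFunction.Moebius

namespace IL2

/-- the index -/
noncomputable def jj (α : ℝ) (q m : ℕ) : ℕ := ⌊(q : ℝ) * Int.fract (α * (m : ℕ))⌋₊

theorem jj_le (α : ℝ) (q m : ℕ) : (jj α q m : ℝ) ≤ q * Int.fract (α * (m : ℕ)) :=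
  Nat.floor_le (mul_nonneg (Nat.cast_nonneg _) (Int.fract_nonneg _))

theorem lt_jj (α : ℝ) (q m : ℕ) : (q : ℝ) * Int.fract (α * (m : ℕ)) < jj α q m + 1 :=
  Nat.lt_floor_add_one _

theorem jj_lt {α : ℝ} {q : ℕ} (hq : 1 ≤ q) (m : ℕ) : jj α q m < q := by
  have hq' : (0 : ℝ) < q := by exact_mod_cast hq
  have h1 := jj_le α q m
  have h2 := Int.fract_lt_one (α * (m : ℕ))
  have h3 : (jj α q m : ℝ) < q := by nlinarith
  exact_mod_cast h3

theorem mem_three {z : ℤ} (h : |(z : ℝ)| < 2) : z ∈ ({-1, 0, 1} : Finset ℤ) := by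
  have h1 : |z| < 2 := by exact_mod_cast h
  rw [abs_lt] at h1
  have h2 : z = -1 ∨ z = 0 ∨ z = 1 := by omega
  simpa using h2

theorem fib {α : ℝ} {a : ℤ} {q : ℕ} (m₀ : ℕ) (hq : 1 ≤ q) (hc : IsCoprime a (q : ℤ))
    (hα : |α - a / q| ≤ 1 / (q : ℝ) ^ 2) (j : ℕ) :
    ((Finset.Ioc m₀ (m₀ + q)).filter (fun m => jj α q m = j)).card ≤ 3 := by
  have hq' : (0 : ℝ) < q := by exact_mod_cast hq
  rcases Finset.eq_empty_or_nonempty ((Finset.Ioc m₀ (m₀ + q)).filter (fun m => jj α q m = j))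
    with h | ⟨m', hm'⟩
  · rw [h]
    simp
  · rw [Finset.mem_filter, Finset.mem_Ioc] at hm'
    have hcard : ({-1, 0, 1} : Finset ℤ).card = 3 := by decide
    rw [← hcard]
    refine Finset.card_le_card_of_injOn
      (fun m : ℕ => a * ((m : ℤ) - (m' : ℤ)) - (⌊α * (m : ℕ)⌋ - ⌊α * (m' : ℕ)⌋) * (q : ℤ)) ?_ ?_
    · intro m hm
      rw [Finset.mem_coe, Finset.mem_filter, Finset.mem_Ioc] at hm
      apply mem_three
      push_cast
      have e1 := Int.floor_add_fract (α * (m : ℕ))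
      have e2 := Int.floor_add_fract (α * (m' : ℕ))
      have b1 := jj_le α q m
      have b2 := lt_jj α q m
      have b3 := jj_le α q m'
      have b4 := lt_jj α q m'
      rw [hm.2] at b1 b2
      rw [hm'.2] at b3 b4
      have hd : |(m : ℝ) - (m' : ℝ)| < q := by
        have h1 : ((m : ℤ) - (m' : ℤ)) < q ∧ -(q : ℤ) < ((m : ℤ) - (m' : ℤ)) := by
          constructor <;> omega
        rw [abs_lt]
        constructor
        · have := h1.2
          exact_mod_cast this
        · have := h1.1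
          exact_mod_cast this
      have h1 : |(q : ℝ) * (α - a / q) * ((m : ℝ) - m')| < 1 := by
        rw [abs_mul, abs_mul, abs_of_pos hq']
        calc (q : ℝ) * |α - a / q| * |(m : ℝ) - m'|
            ≤ (q : ℝ) * (1 / (q : ℝ) ^ 2) * |(m : ℝ) - m'| := by gcongr
          _ = |(m : ℝ) - m'| / q := by field_simp
          _ < 1 := by rwa [div_lt_one hq']
      have h2 : (q : ℝ) * (α - a / q) * ((m : ℝ) - m') =
          q * (α * m) - q * (α * m') - a * ((m : ℝ) - m') := by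
        field_simp
      rw [h2] at h1
      have f1 : (q : ℝ) * (α * m) = q * ⌊α * (m : ℕ)⌋ + q * Int.fract (α * (m : ℕ)) := by
        rw [← mul_add, e1]
      have f2 : (q : ℝ) * (α * m') = q * ⌊α * (m' : ℕ)⌋ + q * Int.fract (α * (m' : ℕ)) := by
        rw [← mul_add, e2]
      rw [f1, f2] at h1
      rw [abs_lt] at h1 ⊢
      constructor <;> linarith [h1.1, h1.2]
    · intro m1 hm1 m2 hm2 h12
      rw [Finset.mem_coe, Finset.mem_filter, Finset.mem_Ioc] at hm1 hm2
      have h12' : a * ((m1 : ℤ) - (m' : ℤ)) - (⌊α * (m1 : ℕ)⌋ - ⌊α * (m' : ℕ)⌋) * (q : ℤ) =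
        a * ((m2 : ℤ) - (m' : ℤ)) - (⌊α * (m2 : ℕ)⌋ - ⌊α * (m' : ℕ)⌋) * (q : ℤ) := h12
      have h1 : (q : ℤ) ∣ a * ((m1 : ℤ) - (m2 : ℤ)) :=
        ⟨⌊α * (m1 : ℕ)⌋ - ⌊α * (m2 : ℕ)⌋, by linarith⟩
      have h2 : (q : ℤ) ∣ (m1 : ℤ) - (m2 : ℤ) := hc.symm.dvd_of_dvd_mul_left h1
      have h3 : (m1 : ℤ) - (m2 : ℤ) = 0 := by
        apply Int.eq_zero_of_abs_lt_dvd h2
        rw [abs_lt]
        constructor <;> omega
      omega

/-- the majorant -/
noncomputable def uu (Z : ℝ) (q k : ℕ) : ℝ := (if k = 0 then Z else 0) + (q : ℝ) * ((k : ℝ))⁻¹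

theorem uu_nonneg {Z : ℝ} (hZ : 0 ≤ Z) (q k : ℕ) : 0 ≤ uu Z q k := by
  unfold uu
  have h1 : (0 : ℝ) ≤ (q : ℝ) * ((k : ℝ))⁻¹ := by positivity
  split_ifs
  · linarith
  · linarith

theorem uu_sum (Z : ℝ) {q : ℕ} (hq : 1 ≤ q) :
    ∑ k ∈ Finset.range q, uu Z q k ≤ Z + q * (1 + Real.log q) := by
  have hq' : (0 : ℝ) < q := by exact_mod_cast hq
  unfold uu
  rw [Finset.sum_add_distrib, ← Finset.mul_sum]
  have h1 : ∑ k ∈ Finset.range q, (if k = 0 then Z else 0) = Z := by
    rw [Finset.sum_ite_eq']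
    simp
    omega
  have h2 : ∑ k ∈ Finset.range q, ((k : ℝ))⁻¹ ≤ 1 + Real.log q := by
    have h3 : ∑ k ∈ Finset.range q, ((k : ℝ))⁻¹ ≤ ∑ k ∈ Finset.range (q + 1), ((k : ℝ))⁻¹ := by
      rw [Finset.sum_range_succ]
      have : (0 : ℝ) ≤ ((q : ℝ))⁻¹ := by positivity
      linarith
    have h4 : ∑ k ∈ Finset.range (q + 1), ((k : ℝ))⁻¹ = (harmonic q : ℝ) := by
      rw [Finset.sum_range_succ', harmonic]
      simp
    rw [h4] at h3
    exact h3.trans (harmonic_le_one_add_log q)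
  rw [h1]
  have h5 := mul_le_mul_of_nonneg_left h2 hq'.le
  linarith

theorem bnd {α Z b : ℝ} {q m : ℕ} (hq : 1 ≤ q) (hZ : 0 ≤ Z) (hb0 : 0 ≤ b) (hbZ : b ≤ Z)
    (hb1 : b * nn (α * (m : ℕ)) ≤ 1) :
    b ≤ uu Z q (jj α q m) + uu Z q (q - 1 - jj α q m) := by
  have hq' : (0 : ℝ) < q := by exact_mod_cast hq
  have hn1 := uu_nonneg hZ q (jj α q m)
  have hn2 := uu_nonneg hZ q (q - 1 - jj α q m)
  have hlt := jj_lt (α := α) hq m
  by_cases h0 : jj α q m = 0
  · have h1 : uu Z q (jj α q m) = Z := by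
      rw [h0]
      unfold uu
      simp
    linarith
  · by_cases h0' : q - 1 - jj α q m = 0
    · have h1 : uu Z q (q - 1 - jj α q m) = Z := by
        rw [h0']
        unfold uu
        simp
      linarith
    · have hj : (0 : ℝ) < jj α q m := by
        exact_mod_cast Nat.pos_of_ne_zero h0
      have hj' : (0 : ℝ) < ((q - 1 - jj α q m : ℕ) : ℝ) := by
        exact_mod_cast Nat.pos_of_ne_zero h0'
      have e1 : uu Z q (jj α q m) = (q : ℝ) / jj α q m := by
        unfold uu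
        rw [if_neg h0, zero_add, div_eq_mul_inv]
      have e2 : uu Z q (q - 1 - jj α q m) = (q : ℝ) / ((q - 1 - jj α q m : ℕ) : ℝ) := by
        unfold uu
        rw [if_neg h0', zero_add, div_eq_mul_inv]
      unfold nn at hb1
      rw [abs_sub_round_eq_min] at hb1
      rcases min_choice (Int.fract (α * (m : ℕ))) (1 - Int.fract (α * (m : ℕ))) with h | h
      · rw [h] at hb1
        have h2 : b ≤ uu Z q (jj α q m) := by
          rw [e1, le_div_iff₀ hj]
          have h3 := jj_le α q m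
          calc b * jj α q m ≤ b * (q * Int.fract (α * (m : ℕ))) :=
                mul_le_mul_of_nonneg_left h3 hb0
            _ = q * (b * Int.fract (α * (m : ℕ))) := by ring
            _ ≤ q * 1 := mul_le_mul_of_nonneg_left hb1 hq'.le
            _ = q := mul_one _
        linarith
      · rw [h] at hb1
        have h2 : b ≤ uu Z q (q - 1 - jj α q m) := by
          rw [e2, le_div_iff₀ hj']
          have h3 := lt_jj α q m
          have h4 : ((q - 1 - jj α q m : ℕ) : ℝ) = (q : ℝ) - 1 - jj α q m := by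
            rw [Nat.cast_sub (by omega), Nat.cast_sub hq]
            simp
          have h5 : ((q - 1 - jj α q m : ℕ) : ℝ) ≤ q * (1 - Int.fract (α * (m : ℕ))) := by
            rw [h4]
            linarith
          calc b * ((q - 1 - jj α q m : ℕ) : ℝ) ≤ b * (q * (1 - Int.fract (α * (m : ℕ)))) :=
                mul_le_mul_of_nonneg_left h5 hb0
            _ = q * (b * (1 - Int.fract (α * (m : ℕ)))) := by ring
            _ ≤ q * 1 := mul_le_mul_of_nonneg_left hb1 hq'.le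
            _ = q := mul_one _
        linarith

end IL2

open IL2 in
theorem prL2 : tsL2 := by
  intro α a q m₀ Z b hq hc hα hZ hb
  have hmap : ∀ m ∈ Finset.Ioc m₀ (m₀ + q), jj α q m ∈ Finset.range q :=
    fun m _ => Finset.mem_range.mpr (jj_lt hq m)
  rw [← Finset.sum_fiberwise_of_maps_to hmap]
  have h1 : ∀ j ∈ Finset.range q,
      ∑ m ∈ (Finset.Ioc m₀ (m₀ + q)).filter (fun m => jj α q m = j), b m ≤
        3 * (uu Z q j + uu Z q (q - 1 - j)) := by
    intro j _
    have hnn : 0 ≤ uu Z q j + uu Z q (q - 1 - j) :=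
      add_nonneg (uu_nonneg hZ q j) (uu_nonneg hZ q _)
    have h2 := Finset.sum_le_card_nsmul
      ((Finset.Ioc m₀ (m₀ + q)).filter (fun m => jj α q m = j)) b
      (uu Z q j + uu Z q (q - 1 - j)) (by
        intro m hm
        rw [Finset.mem_filter] at hm
        obtain ⟨hb0, hbZ, hb1⟩ := hb m hm.1
        have h3 := bnd (α := α) (m := m) hq hZ hb0 hbZ hb1
        rw [hm.2] at h3
        exact h3)
    rw [nsmul_eq_mul] at h2
    have h4 : ((((Finset.Ioc m₀ (m₀ + q)).filter (fun m => jj α q m = j)).card : ℕ) : ℝ) ≤ 3 := by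
      exact_mod_cast fib m₀ hq hc hα j
    exact h2.trans (mul_le_mul_of_nonneg_right h4 hnn)
  refine (Finset.sum_le_sum h1).trans ?_
  rw [← Finset.mul_sum, Finset.sum_add_distrib, Finset.sum_range_reflect (fun k => uu Z q k) q]
  have h5 := uu_sum Z hq
  linarith

end Pool.Agent.Work.MP_122e00_nt.TS
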