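import Mathlib
import Pool.Agent.Work.MP_122e00_nt.TS.Stmts1

/-!
# Thin shifts, item L3: sums of type I
-/

namespace Pool.Agent.Work.MP_122e00_nt.TS

open Finset Filter Topology ArithmeticFunction
open scoped ArithmeticFunction.zeta ArithmeticFunction.Moebius

namespace IL3

/-- the small `m` -/
theorem nn_small (α : ℝ) (a : ℤ) (q m : ℕ) (hq : 1 ≤ q) (hc : IsCoprime a (q : ℤ))
    (hα : |α - a / q| ≤ 1 / (q : ℝ) ^ 2) (hm : 1 ≤ m) (hmq : m ≤ q / 2) :
    1 / (2 * (q : ℝ)) ≤ nn (α * m) := by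
  have hq0 : (0 : ℝ) < q := by
    have : (1 : ℝ) ≤ q := by exact_mod_cast hq
    linarith
  have hm0 : (0 : ℝ) < m := by
    have : (1 : ℝ) ≤ m := by exact_mod_cast hm
    linarith
  have hm2 : 2 * m ≤ q := by omega
  have hm2' : 2 * (m : ℝ) ≤ q := by exact_mod_cast hm2
  unfold nn
  set n : ℤ := round (α * m) with hn
  have h1 : a * m - n * q ≠ 0 := by
    intro h
    have h2 : (q : ℤ) ∣ a * m := ⟨n, by linarith⟩
    have h3 : (q : ℤ) ∣ (m : ℤ) := hc.symm.dvd_of_dvd_mul_left h2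
    have h4 : q ∣ m := by exact_mod_cast h3
    have h5 := Nat.le_of_dvd (by omega) h4
    omega
  have h2 : (1 : ℝ) ≤ |(a : ℝ) * m - n * q| := by
    have h3 : (1 : ℤ) ≤ |a * m - n * q| := Int.one_le_abs h1
    have h4 : ((1 : ℤ) : ℝ) ≤ ((|a * m - n * q| : ℤ) : ℝ) := by exact_mod_cast h3
    push_cast at h4
    exact h4
  have h3 : |(a : ℝ) * m - n * q| = |(a : ℝ) / q * m - n| * q := by
    have h5 : (a : ℝ) * m - n * q = ((a : ℝ) / q * m - n) * q := by
      field_simp
    rw [h5, abs_mul, abs_of_pos hq0]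
  have h4 : 1 / (q : ℝ) ≤ |(a : ℝ) / q * m - n| := by
    rw [div_le_iff₀ hq0, ← h3]
    exact h2
  have h5 : |(α - a / q) * m| ≤ 1 / (2 * (q : ℝ)) := by
    rw [abs_mul, abs_of_pos hm0]
    calc |α - a / q| * m ≤ 1 / (q : ℝ) ^ 2 * m := mul_le_mul_of_nonneg_right hα hm0.le
      _ ≤ 1 / (q : ℝ) ^ 2 * (q / 2) := mul_le_mul_of_nonneg_left (by linarith) (by positivity)
      _ = 1 / (2 * (q : ℝ)) := by field_simp
  have h6 : (a : ℝ) / q * m - n = (α * m - n) - (α - a / q) * m := by ring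
  have h7 : |(a : ℝ) / q * m - n| ≤ |α * m - n| + |(α - a / q) * m| := by
    rw [h6]
    exact abs_sub _ _
  have h8 : 1 / (q : ℝ) = 1 / (2 * (q : ℝ)) + 1 / (2 * (q : ℝ)) := by
    field_simp
    norm_num
  linarith

theorem harm (N : ℕ) : ∑ h ∈ Finset.range N, 1 / ((h : ℝ) + 1) ≤ 1 + Real.log N := by
  have h1 := harmonic_le_one_add_log N
  refine le_trans (le_of_eq ?_) h1
  unfold harmonic
  push_cast
  refine Finset.sum_congr rfl fun i _ => ?_
  rw [one_div]

end IL3

/-- **Item L3**: sums of type I. -/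
theorem prL3 (hL2 : tsL2) : tsL3 := by
  intro α a q M X b hq hc hα hqX hMX hb
  have hq1 : (1 : ℝ) ≤ q := by exact_mod_cast hq
  have hq0 : (0 : ℝ) < q := by linarith
  have hX1 : (1 : ℝ) ≤ X := hq1.trans hqX
  have hX0 : 0 < X := by linarith
  have hlX : 0 ≤ Real.log X := Real.log_nonneg hX1
  have hlq : Real.log q ≤ Real.log X := Real.log_le_log hq0 hqX
  have hlq0 : 0 ≤ Real.log q := Real.log_nonneg hq1
  obtain ⟨b1, hb1⟩ : ∃ b1 : ℕ → ℝ, b1 = fun m => if m ≤ q / 2 ∧ m ≤ M then b m else 0 := ⟨_, rfl⟩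
  obtain ⟨b2, hb2⟩ : ∃ b2 : ℕ → ℝ, b2 = fun m => if m ≤ M then b m else 0 := ⟨_, rfl⟩
  -- part A
  have hA : ∑ m ∈ Finset.Ioc 0 (0 + q), b1 m ≤ 6 * (2 * q + q * (1 + Real.log q)) := by
    refine hL2 α a q 0 (2 * q) b1 hq hc hα (by positivity) ?_
    intro m hm
    rw [Finset.mem_Ioc] at hm
    rw [hb1]
    by_cases h : m ≤ q / 2 ∧ m ≤ M
    · obtain ⟨h1, h2, h3⟩ := hb m (Finset.mem_Icc.2 ⟨hm.1, h.2⟩)
      have e1 : (fun m => if m ≤ q / 2 ∧ m ≤ M then b m else 0) m = b m := if_pos h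
      rw [e1]
      refine ⟨h1, ?_, h3⟩
      have h4 := IL3.nn_small α a q m hq hc hα hm.1 h.1
      have h5 : b m * (1 / (2 * (q : ℝ))) ≤ 1 :=
        (mul_le_mul_of_nonneg_left h4 h1).trans h3
      rw [mul_one_div, div_le_one (by positivity)] at h5
      exact h5
    · have e1 : (fun m => if m ≤ q / 2 ∧ m ≤ M then b m else 0) m = 0 := if_neg h
      rw [e1, zero_mul]
      exact ⟨le_refl 0, by positivity, zero_le_one⟩
  -- part B
  have hB : ∀ N : ℕ, ∑ m ∈ Finset.Ioc (q / 2) (q / 2 + N * q), b2 m ≤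
      ∑ h ∈ Finset.range N, 6 * (2 * X / (((h : ℝ) + 1) * q) + q * (1 + Real.log q)) := by
    intro N
    induction N with
    | zero => simp
    | succ N ih =>
      rw [Finset.sum_range_succ, ← Finset.sum_Ioc_consecutive b2
        (show q / 2 ≤ q / 2 + N * q by omega)
        (show q / 2 + N * q ≤ q / 2 + (N + 1) * q by
          have : (N + 1) * q = N * q + q := by ring
          omega)]
      refine add_le_add ih ?_
      have e1 : q / 2 + (N + 1) * q = (q / 2 + N * q) + q := by ring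
      rw [e1]
      refine hL2 α a q (q / 2 + N * q) _ b2 hq hc hα (by positivity) ?_
      intro m hm
      rw [Finset.mem_Ioc] at hm
      rw [hb2]
      by_cases h : m ≤ M
      · obtain ⟨h1, h2, h3⟩ := hb m (Finset.mem_Icc.2 ⟨by omega, h⟩)
        have e1 : (fun m => if m ≤ M then b m else 0) m = b m := if_pos h
        rw [e1]
        refine ⟨h1, h2.trans ?_, h3⟩
        have h4 : (2 * N + 1) * q ≤ 2 * m := by
          have h5 : (2 * N + 1) * q = 2 * (N * q) + q := by ring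
          omega
        have h5 : (2 * (N : ℝ) + 1) * q ≤ 2 * m := by exact_mod_cast h4
        have hN0 : (0 : ℝ) ≤ N := Nat.cast_nonneg N
        have hm0 : (0 : ℝ) < m := by
          have : 0 < m := by omega
          exact_mod_cast this
        rw [div_le_div_iff₀ hm0 (by positivity)]
        have h6 : ((N : ℝ) + 1) * q ≤ 2 * m := by nlinarith
        nlinarith
      · have e1 : (fun m => if m ≤ M then b m else 0) m = 0 := if_neg h
        rw [e1, zero_mul]
        exact ⟨le_refl 0, by positivity, zero_le_one⟩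
  -- the splitting
  obtain ⟨N, hN⟩ : ∃ N, N = M / q + 1 := ⟨_, rfl⟩
  have hNq : M < N * q := by
    rw [hN]
    have := Nat.lt_mul_div_succ M (show 0 < q by omega)
    rw [mul_comm]
    exact this
  have hNq' : N * q ≤ M + q := by
    rw [hN, add_mul, one_mul]
    have := Nat.div_mul_le_self M q
    omega
  have hb1n : ∀ m ∈ Finset.Ioc 0 (0 + q), 0 ≤ b1 m := by
    intro m hm
    rw [Finset.mem_Ioc] at hm
    rw [hb1]
    show 0 ≤ if m ≤ q / 2 ∧ m ≤ M then b m else 0
    split_ifs with h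
    · exact (hb m (Finset.mem_Icc.2 ⟨hm.1, h.2⟩)).1
    · exact le_refl 0
  have hb2n : ∀ m ∈ Finset.Ioc (q / 2) (q / 2 + N * q), 0 ≤ b2 m := by
    intro m hm
    rw [Finset.mem_Ioc] at hm
    rw [hb2]
    show 0 ≤ if m ≤ M then b m else 0
    split_ifs with h
    · exact (hb m (Finset.mem_Icc.2 ⟨by omega, h⟩)).1
    · exact le_refl 0
  have hS : ∑ m ∈ Finset.Icc 1 M, b m ≤ ∑ m ∈ Finset.Ioc 0 (0 + q), b1 m +
      ∑ m ∈ Finset.Ioc (q / 2) (q / 2 + N * q), b2 m := by
    rw [← Finset.sum_filter_add_sum_filter_not (Finset.Icc 1 M) (fun m => m ≤ q / 2) b]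
    refine add_le_add ?_ ?_
    · have e1 : ∑ m ∈ (Finset.Icc 1 M).filter (fun m => m ≤ q / 2), b m =
          ∑ m ∈ (Finset.Icc 1 M).filter (fun m => m ≤ q / 2), b1 m := by
        refine Finset.sum_congr rfl fun m hm => ?_
        rw [Finset.mem_filter, Finset.mem_Icc] at hm
        rw [hb1]
        exact (if_pos ⟨hm.2, hm.1.2⟩).symm
      rw [e1]
      refine Finset.sum_le_sum_of_subset_of_nonneg ?_ fun m hm _ => hb1n m hm
      intro m hm
      rw [Finset.mem_filter, Finset.mem_Icc] at hm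
      rw [Finset.mem_Ioc]
      omega
    · have e1 : ∑ m ∈ (Finset.Icc 1 M).filter (fun m => ¬ m ≤ q / 2), b m =
          ∑ m ∈ (Finset.Icc 1 M).filter (fun m => ¬ m ≤ q / 2), b2 m := by
        refine Finset.sum_congr rfl fun m hm => ?_
        rw [Finset.mem_filter, Finset.mem_Icc] at hm
        rw [hb2]
        exact (if_pos hm.1.2).symm
      rw [e1]
      refine Finset.sum_le_sum_of_subset_of_nonneg ?_ fun m hm _ => hb2n m hm
      intro m hm
      rw [Finset.mem_filter, Finset.mem_Icc] at hm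
      rw [Finset.mem_Ioc]
      omega
  -- numbers
  have hBN := hB N
  have e1 : ∑ h ∈ Finset.range N, 6 * (2 * X / (((h : ℝ) + 1) * q) + q * (1 + Real.log q)) =
      12 * (X / q) * ∑ h ∈ Finset.range N, 1 / ((h : ℝ) + 1) +
        6 * ((N : ℝ) * q) * (1 + Real.log q) := by
    rw [← Finset.mul_sum, Finset.sum_add_distrib, Finset.sum_const, Finset.card_range,
      nsmul_eq_mul, mul_add]
    congr 1
    · rw [Finset.mul_sum, Finset.mul_sum]
      refine Finset.sum_congr rfl fun h _ => ?_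
      have : (h : ℝ) + 1 ≠ 0 := by positivity
      field_simp
      norm_num
    · ring
  rw [e1] at hBN
  have hN1 : (N : ℝ) ≤ 2 * X := by
    have h1 : N ≤ M + 1 := by
      rw [hN]
      have := Nat.div_le_self M q
      omega
    have h2 : (N : ℝ) ≤ M + 1 := by exact_mod_cast h1
    linarith
  have hN0 : (0 : ℝ) < N := by
    have : 0 < N := by
      rw [hN]
      exact Nat.succ_pos _
    exact_mod_cast this
  have hlN : Real.log N ≤ 1 + Real.log X := by
    have h1 : Real.log N ≤ Real.log (2 * X) := Real.log_le_log hN0 hN1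
    rw [Real.log_mul (by norm_num) hX0.ne'] at h1
    have h2 : Real.log 2 ≤ 1 := by
      have := Real.log_two_lt_d9
      linarith
    linarith
  have hh := IL3.harm N
  have hNq2 : (N : ℝ) * q ≤ M + q := by exact_mod_cast hNq'
  have hM0 : (0 : ℝ) ≤ M := Nat.cast_nonneg M
  have hXq : 0 ≤ X / q := by positivity
  have t1 : 12 * (X / q) * ∑ h ∈ Finset.range N, 1 / ((h : ℝ) + 1) ≤
      24 * (X / q) * (1 + Real.log X) := by
    calc 12 * (X / q) * ∑ h ∈ Finset.range N, 1 / ((h : ℝ) + 1)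
        ≤ 12 * (X / q) * (2 * (1 + Real.log X)) :=
          mul_le_mul_of_nonneg_left (by linarith) (by positivity)
      _ = _ := by ring
  have t2 : 6 * ((N : ℝ) * q) * (1 + Real.log q) ≤ 6 * (M + q) * (1 + Real.log X) :=
    mul_le_mul (by linarith) (by linarith) (by linarith) (by positivity)
  have t3 : 6 * (2 * (q : ℝ) + q * (1 + Real.log q)) ≤ 18 * q * (1 + Real.log X) := by
    nlinarith
  have t4 : 0 ≤ (X / q + M + q) * (1 + Real.log X) := by positivity
  have t5 : 0 ≤ (X / q) * (1 + Real.log X) := by positivity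
  have t6 : 0 ≤ (M : ℝ) * (1 + Real.log X) := by positivity
  have t7 : 0 ≤ (q : ℝ) * (1 + Real.log X) := by positivity
  nlinarith

end Pool.Agent.Work.MP_122e00_nt.TS
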