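import Mathlib
import Pool.Agent.Work.MP_122e00_nt.TS.Stmts1

/-!
# Thin shifts, item L4 (helper15): the minor arcs
-/

namespace Pool.Agent.Work.MP_122e00_nt.TS

open Finset Filter Topology ArithmeticFunction
open scoped ArithmeticFunction.zeta ArithmeticFunction.Moebius

namespace IL4

theorem norm_ee (x : ℝ) : ‖ee x‖ = 1 := by
  unfold ee
  exact Complex.norm_exp_ofReal_mul_I _

theorem inner_eq (α : ℝ) (m A B : ℕ) :
    ∑ l ∈ Finset.Ioc A B, ee (((m * l : ℕ) : ℝ) * α) =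
      ∑ l ∈ Finset.Ioc A B, ee ((l : ℝ) * (α * (m : ℝ))) := by
  refine Finset.sum_congr rfl fun l _ => ?_
  congr 1
  push_cast
  ring

end IL4

theorem prL4 (hGS : tsGS) (hL0 : tsL0) (hL1 : tsL1) (hL3 : tsL3) : tsL4 := by
  intro r ε hr hε
  obtain ⟨C₀, hC₀, hd⟩ := hL0 r (ε / 2) (by positivity)
  have hr1 : (1 : ℝ) ≤ r := by exact_mod_cast hr
  refine ⟨1 + 100 * r * C₀ * (1 + 2 / ε), by positivity, ?_⟩
  intro X α N q a hX hN hq hqX ha hα
  have hX0 : 0 < X := by linarith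
  set κ : ℝ := 1 - 1 / (2 * (r : ℝ)) with hκ
  have hinv : 1 / (2 * (r : ℝ)) ≤ 1 / 2 := by
    apply one_div_le_one_div_of_le (by norm_num)
    linarith
  have hinv0 : 0 < 1 / (2 * (r : ℝ)) := by positivity
  have hκ1 : κ ≤ 1 := by rw [hκ]; linarith
  have hκ2 : 1 / 2 ≤ κ := by rw [hκ]; linarith
  obtain ⟨W, hW, hmain⟩ := hL1 r X hr hX
  have h1 := hmain (fun n => ee ((n : ℝ) * α)) N (fun n => (IL4.norm_ee _).le) hN
  set M : ℕ := ⌊X ^ κ⌋₊ with hM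
  set A : ℕ := ⌊X ^ (1 / (2 * (r : ℝ)))⌋₊ with hA
  have hMle : (M : ℝ) ≤ X ^ κ := Nat.floor_le (by positivity)
  have hMX : (M : ℝ) ≤ X := by
    refine hMle.trans ?_
    calc X ^ κ ≤ X ^ (1 : ℝ) := Real.rpow_le_rpow_of_exponent_le hX hκ1
      _ = X := Real.rpow_one X
  set b : ℕ → ℝ := fun m => ‖∑ l ∈ Finset.Ioc A (N / m), ee (((m * l : ℕ) : ℝ) * α)‖ with hb
  have hb' : ∀ m ∈ Finset.Icc 1 M, 0 ≤ b m ∧ b m ≤ X / m ∧ b m * nn (α * (m : ℕ)) ≤ 1 := by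
    intro m hm
    have hm1 : 1 ≤ m := (Finset.mem_Icc.1 hm).1
    have hm0 : (0 : ℝ) < m := by exact_mod_cast hm1
    have h2 := hGS A (N / m) (α * (m : ℝ))
    refine ⟨norm_nonneg _, ?_, ?_⟩
    · rw [hb]
      simp only
      rw [IL4.inner_eq]
      refine h2.2.trans ?_
      have h3 : ((N / m - A : ℕ) : ℝ) ≤ ((N / m : ℕ) : ℝ) := by exact_mod_cast Nat.sub_le _ _
      refine h3.trans (Nat.cast_div_le.trans ?_)
      exact div_le_div_of_nonneg_right hN hm0.le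
    · rw [hb]
      simp only
      rw [IL4.inner_eq]
      linarith [h2.1]
  have h3 := hL3 α a q M X b hq ha hα hqX hMX hb'
  have hXe : (1 : ℝ) ≤ X ^ (ε / 2) := Real.one_le_rpow hX (by positivity)
  have hWb : ∀ m ∈ Finset.Icc 1 M, W m ≤ r * C₀ * X ^ (ε / 2) := by
    intro m hm
    have hm' := Finset.mem_Icc.1 hm
    have hm0 : (0 : ℝ) ≤ m := Nat.cast_nonneg m
    have h4 : (m : ℝ) ≤ X := le_trans (by exact_mod_cast hm'.2) hMX
    have h5 : (m : ℝ) ^ (ε / 2) ≤ X ^ (ε / 2) := Real.rpow_le_rpow hm0 h4 (by positivity)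
    calc W m ≤ r * dr r m := (hW m).2
      _ ≤ r * (C₀ * (m : ℝ) ^ (ε / 2)) := mul_le_mul_of_nonneg_left (hd m hm'.1) (by positivity)
      _ ≤ r * (C₀ * X ^ (ε / 2)) := by gcongr
      _ = r * C₀ * X ^ (ε / 2) := by ring
  have hsum : ‖∑ m ∈ Finset.Icc 1 M, (W m : ℂ) *
      ∑ l ∈ Finset.Ioc A (N / m), ee (((m * l : ℕ) : ℝ) * α)‖ ≤
      r * C₀ * X ^ (ε / 2) * ∑ m ∈ Finset.Icc 1 M, b m := by
    refine (norm_sum_le _ _).trans ?_
    rw [Finset.mul_sum]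
    refine Finset.sum_le_sum fun m hm => ?_
    rw [norm_mul, Complex.norm_real, Real.norm_of_nonneg (hW m).1]
    exact mul_le_mul_of_nonneg_right (hWb m hm) (norm_nonneg _)
  have hlog : 1 + Real.log X ≤ (1 + 2 / ε) * X ^ (ε / 2) := by
    have h6 := Real.log_le_rpow_div hX0.le (show 0 < ε / 2 by positivity)
    have h7 : X ^ (ε / 2) / (ε / 2) = 2 / ε * X ^ (ε / 2) := by field_simp
    rw [h7] at h6
    nlinarith
  have hlog0 : 0 ≤ 1 + Real.log X := by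
    have := Real.log_nonneg hX
    linarith
  have hq0 : (0 : ℝ) < q := by exact_mod_cast hq
  have hSS : SS (dr r) N α = ∑ n ∈ Finset.Icc 1 N, (dr r n : ℂ) * ee ((n : ℝ) * α) := rfl
  have hE : X ^ ε = X ^ (ε / 2) * X ^ (ε / 2) := by
    rw [← Real.rpow_add hX0]
    congr 1
    ring
  set T : ℝ := X / q + X ^ κ + q with hT
  have hT0 : 0 ≤ T := by positivity
  have h8 : 100 * (X / q + M + q) * (1 + Real.log X) ≤
      100 * T * ((1 + 2 / ε) * X ^ (ε / 2)) := by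
    refine mul_le_mul ?_ hlog hlog0 (by positivity)
    refine mul_le_mul_of_nonneg_left ?_ (by norm_num)
    rw [hT]
    linarith
  have h9 : ‖SS (dr r) N α‖ ≤ X ^ (1 / 2 : ℝ) + r * C₀ * X ^ (ε / 2) *
      (100 * T * ((1 + 2 / ε) * X ^ (ε / 2))) := by
    rw [hSS]
    have h10 := norm_le_norm_add_norm_sub' (∑ n ∈ Finset.Icc 1 N, (dr r n : ℂ) * ee ((n : ℝ) * α))
      (∑ m ∈ Finset.Icc 1 M, (W m : ℂ) * ∑ l ∈ Finset.Ioc A (N / m), ee (((m * l : ℕ) : ℝ) * α))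
    have h11 : r * C₀ * X ^ (ε / 2) * ∑ m ∈ Finset.Icc 1 M, b m ≤ r * C₀ * X ^ (ε / 2) *
      (100 * T * ((1 + 2 / ε) * X ^ (ε / 2))) :=
      mul_le_mul_of_nonneg_left (h3.trans h8) (by positivity)
    have h12 := hsum.trans h11
    linarith
  have h13 : X ^ (1 / 2 : ℝ) ≤ X ^ ε * T := by
    have h14 : X ^ (1 / 2 : ℝ) ≤ X ^ κ := Real.rpow_le_rpow_of_exponent_le hX hκ2
    have h15 : X ^ κ ≤ T := by
      rw [hT]
      have : 0 ≤ X / q := by positivity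
      linarith
    have h16 : 1 ≤ X ^ ε := Real.one_le_rpow hX hε.le
    nlinarith
  refine h9.trans ?_
  have h17 : r * C₀ * X ^ (ε / 2) * (100 * T * ((1 + 2 / ε) * X ^ (ε / 2))) =
      100 * r * C₀ * (1 + 2 / ε) * X ^ ε * T := by
    rw [hE]
    ring
  rw [h17]
  have h18 : (1 + 100 * r * C₀ * (1 + 2 / ε)) * X ^ ε * T = X ^ ε * T +
      100 * r * C₀ * (1 + 2 / ε) * X ^ ε * T := by ring
  rw [h18]
  linarith

end Pool.Agent.Work.MP_122e00_nt.TS
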