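import Mathlib
import Pool.Agent.Work.MP_122e00_nt.TS.Stmts1

set_option autoImplicit false

/-! # Item L5 of the block TS: the twists by `a/q` hardly depend on `a` -/

namespace Pool.Agent.Work.MP_122e00_nt.TS

open Finset Filter Topology ArithmeticFunction
open scoped ArithmeticFunction.zeta ArithmeticFunction.Moebius

namespace IL5

theorem norm_ee (x : ℝ) : ‖ee x‖ = 1 := by
  unfold ee
  exact Complex.norm_exp_ofReal_mul_I _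

theorem ee_int (k : ℤ) : ee (k : ℝ) = 1 := by
  unfold ee
  rw [Complex.exp_eq_one_iff]
  refine ⟨k, ?_⟩
  push_cast
  ring

/-- `nn(m a/q) ≥ 1/q` if `q` does not divide `m` -/
theorem nn_ge (a : ℤ) (q m : ℕ) (hq : 1 ≤ q) (hc : IsCoprime a (q : ℤ)) (hm : ¬ q ∣ m) :
    1 / (q : ℝ) ≤ nn ((m : ℝ) * (a / q)) := by
  have hq0 : (0 : ℝ) < q := by exact_mod_cast hq
  unfold nn
  obtain ⟨k, hk⟩ : ∃ k : ℤ, k = round ((m : ℝ) * (a / q)) := ⟨_, rfl⟩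
  rw [← hk]
  have h1 : (m : ℝ) * (a / q) - k = (((m : ℤ) * a - q * k : ℤ) : ℝ) / q := by
    push_cast
    field_simp
  rw [h1, abs_div, abs_of_pos hq0]
  refine div_le_div_of_nonneg_right ?_ hq0.le
  have h2 : ((m : ℤ) * a - q * k) ≠ 0 := by
    intro h0
    have h3 : (q : ℤ) ∣ (m : ℤ) * a := ⟨k, by linarith⟩
    have h4 : (q : ℤ) ∣ (m : ℤ) := hc.symm.dvd_of_dvd_mul_right h3
    exact hm (by exact_mod_cast h4)
  have h5 : (1 : ℤ) ≤ |(m : ℤ) * a - q * k| := Int.one_le_abs h2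
  exact_mod_cast h5

/-- the long sums are small if `q` does not divide `m` -/
theorem long (hGS : tsGS) (a : ℤ) (q m : ℕ) (hq : 1 ≤ q) (hc : IsCoprime a (q : ℤ))
    (hm : ¬ q ∣ m) (A B : ℕ) :
    ‖∑ l ∈ Finset.Ioc A B, ee (((m * l : ℕ) : ℝ) * (a / q))‖ ≤ (q : ℝ) / 2 := by
  have hq0 : (0 : ℝ) < q := by exact_mod_cast hq
  have h1 := (hGS A B ((m : ℝ) * (a / q))).1
  have h2 := nn_ge a q m hq hc hm
  have h3 : ∑ l ∈ Finset.Ioc A B, ee (((m * l : ℕ) : ℝ) * (a / q)) =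
      ∑ l ∈ Finset.Ioc A B, ee ((l : ℝ) * ((m : ℝ) * (a / q))) := by
    refine Finset.sum_congr rfl fun l _ => ?_
    congr 1
    push_cast
    ring
  rw [h3]
  obtain ⟨S, hS⟩ : ∃ S : ℝ, S = ‖∑ l ∈ Finset.Ioc A B, ee ((l : ℝ) * ((m : ℝ) * (a / q)))‖ :=
    ⟨_, rfl⟩
  rw [← hS] at h1 ⊢
  have hS0 : 0 ≤ S := by rw [hS]; exact norm_nonneg _
  have h4 : S * (1 / (q : ℝ)) ≤ 1 / 2 := le_trans (mul_le_mul_of_nonneg_left h2 hS0) h1
  have h5 : S = S * (1 / (q : ℝ)) * q := by field_simp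
  rw [h5]
  calc S * (1 / (q : ℝ)) * q ≤ 1 / 2 * q := mul_le_mul_of_nonneg_right h4 hq0.le
    _ = (q : ℝ) / 2 := by ring

/-- the terms vanish if `q` divides `m` -/
theorem ee_dvd (a : ℤ) (q m l : ℕ) (hq : 1 ≤ q) (hm : q ∣ m) :
    ee (((m * l : ℕ) : ℝ) * (a / q)) = 1 := by
  obtain ⟨k, rfl⟩ := hm
  have hq0 : (0 : ℝ) < q := by exact_mod_cast hq
  have h1 : ((q * k * l : ℕ) : ℝ) * (a / q) = (((k : ℤ) * l * a : ℤ) : ℝ) := by
    push_cast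
    field_simp
  rw [h1, ee_int]

/-- the inner sums -/
theorem inner (hGS : tsGS) (a a' : ℤ) (q m : ℕ) (hq : 1 ≤ q) (hc : IsCoprime a (q : ℤ))
    (hc' : IsCoprime a' (q : ℤ)) (A B : ℕ) :
    ‖∑ l ∈ Finset.Ioc A B, (ee (((m * l : ℕ) : ℝ) * (a / q)) -
      ee (((m * l : ℕ) : ℝ) * (a' / q))) / 2‖ ≤ (q : ℝ) / 2 := by
  have hq0 : (0 : ℝ) < q := by exact_mod_cast hq
  by_cases hm : q ∣ m
  · rw [Finset.sum_eq_zero, norm_zero]
    · positivity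
    · intro l _
      rw [ee_dvd a q m l hq hm, ee_dvd a' q m l hq hm, sub_self, zero_div]
  · rw [← Finset.sum_div, Finset.sum_sub_distrib, norm_div]
    have h1 := long hGS a q m hq hc hm A B
    have h2 := long hGS a' q m hq hc' hm A B
    have h3 := norm_sub_le (∑ l ∈ Finset.Ioc A B, ee (((m * l : ℕ) : ℝ) * (a / q)))
      (∑ l ∈ Finset.Ioc A B, ee (((m * l : ℕ) : ℝ) * (a' / q)))
    have h4 : ‖(2 : ℂ)‖ = 2 := by simp
    rw [h4]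
    linarith

end IL5

theorem prL5 (hGS : tsGS) (hL0 : tsL0) (hL1 : tsL1) : tsL5 := by
  intro r ε hr hε
  obtain ⟨C0, hC0, hC⟩ := hL0 r ε hε
  have hr1 : (1 : ℝ) ≤ r := by exact_mod_cast hr
  have hr0 : (0 : ℝ) < r := lt_of_lt_of_le one_pos hr1
  refine ⟨2 + r * C0, by positivity, ?_⟩
  intro x q a a' hx hq hc hc'
  have hq1 : (1 : ℝ) ≤ q := by exact_mod_cast hq
  have hx0 : (0 : ℝ) < x := lt_of_lt_of_le one_pos hx
  obtain ⟨W, hW, hL⟩ := hL1 r x hr hx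
  have h1 := hL (fun n => (ee ((n : ℝ) * (a / q)) - ee ((n : ℝ) * (a' / q))) / 2) ⌊x⌋₊
    (fun n => by
      rw [norm_div]
      have h3 := norm_sub_le (ee ((n : ℝ) * (a / q))) (ee ((n : ℝ) * (a' / q)))
      rw [IL5.norm_ee, IL5.norm_ee] at h3
      have h4 : ‖(2 : ℂ)‖ = 2 := by simp
      rw [h4]
      linarith) (Nat.floor_le hx0.le)
  obtain ⟨M, hM⟩ : ∃ M : ℕ, M = ⌊x ^ (1 - 1 / (2 * (r : ℝ)))⌋₊ := ⟨_, rfl⟩
  obtain ⟨Y, hY⟩ : ∃ Y : ℕ, Y = ⌊x ^ (1 / (2 * (r : ℝ)))⌋₊ := ⟨_, rfl⟩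
  rw [← hM, ← hY] at h1
  have h2 : ∑ n ∈ Finset.Icc 1 ⌊x⌋₊, (dr r n : ℂ) *
      ((ee ((n : ℝ) * (a / q)) - ee ((n : ℝ) * (a' / q))) / 2) =
      (SS (dr r) ⌊x⌋₊ (a / q) - SS (dr r) ⌊x⌋₊ (a' / q)) / 2 := by
    unfold SS
    rw [← Finset.sum_sub_distrib, Finset.sum_div]
    refine Finset.sum_congr rfl fun n _ => ?_
    ring
  have h3 : ‖∑ m ∈ Finset.Icc 1 M, (W m : ℂ) * ∑ l ∈ Finset.Ioc Y (⌊x⌋₊ / m),
      (ee (((m * l : ℕ) : ℝ) * (a / q)) - ee (((m * l : ℕ) : ℝ) * (a' / q))) / 2‖ ≤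
      (M : ℝ) * (r * (C0 * x ^ ε) * (q / 2)) := by
    refine le_trans (norm_sum_le _ _) ?_
    have h4 : ∀ m ∈ Finset.Icc 1 M, ‖(W m : ℂ) * ∑ l ∈ Finset.Ioc Y (⌊x⌋₊ / m),
      (ee (((m * l : ℕ) : ℝ) * (a / q)) - ee (((m * l : ℕ) : ℝ) * (a' / q))) / 2‖ ≤
      r * (C0 * x ^ ε) * (q / 2) := by
      intro m hm
      rw [Finset.mem_Icc] at hm
      rw [norm_mul, Complex.norm_real, Real.norm_eq_abs, abs_of_nonneg (hW m).1]
      have h5 : W m ≤ r * (C0 * x ^ ε) := by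
        refine le_trans (hW m).2 (mul_le_mul_of_nonneg_left ?_ hr0.le)
        refine le_trans (hC m hm.1) (mul_le_mul_of_nonneg_left ?_ hC0.le)
        refine Real.rpow_le_rpow (Nat.cast_nonneg m) ?_ hε.le
        have h6 : (m : ℝ) ≤ M := by exact_mod_cast hm.2
        have h7 : (M : ℝ) ≤ x ^ (1 - 1 / (2 * (r : ℝ))) := by
          rw [hM]
          exact Nat.floor_le (Real.rpow_nonneg hx0.le _)
        have h8 : x ^ (1 - 1 / (2 * (r : ℝ))) ≤ x ^ (1 : ℝ) := by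
          refine Real.rpow_le_rpow_of_exponent_le hx ?_
          have : 0 ≤ 1 / (2 * (r : ℝ)) := by positivity
          linarith
        rw [Real.rpow_one] at h8
        linarith
      exact mul_le_mul h5 (IL5.inner hGS a a' q m hq hc hc' _ _) (norm_nonneg _)
        (by positivity)
    refine le_trans (Finset.sum_le_sum h4) ?_
    rw [Finset.sum_const, Nat.card_Icc, Nat.add_sub_cancel, nsmul_eq_mul]
  have h4 : ‖(SS (dr r) ⌊x⌋₊ (a / q) - SS (dr r) ⌊x⌋₊ (a' / q)) / 2‖ ≤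
      x ^ (1 / 2 : ℝ) + (M : ℝ) * (r * (C0 * x ^ ε) * (q / 2)) := by
    rw [← h2]
    have h5 := norm_le_norm_add_norm_sub'
      (∑ n ∈ Finset.Icc 1 ⌊x⌋₊, (dr r n : ℂ) *
        ((ee ((n : ℝ) * (a / q)) - ee ((n : ℝ) * (a' / q))) / 2))
      (∑ m ∈ Finset.Icc 1 M, (W m : ℂ) * ∑ l ∈ Finset.Ioc Y (⌊x⌋₊ / m),
        (ee (((m * l : ℕ) : ℝ) * (a / q)) - ee (((m * l : ℕ) : ℝ) * (a' / q))) / 2)
    have h6 := h1
    linarith
  have h5 : (M : ℝ) ≤ x ^ (1 - 1 / (2 * (r : ℝ))) := by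
    rw [hM]
    exact Nat.floor_le (Real.rpow_nonneg hx0.le _)
  have h6 : x ^ (1 - 1 / (2 * (r : ℝ)) + ε) = x ^ (1 - 1 / (2 * (r : ℝ))) * x ^ ε :=
    Real.rpow_add hx0 _ _
  have h7 : x ^ (1 / 2 : ℝ) ≤ x ^ (1 - 1 / (2 * (r : ℝ)) + ε) := by
    refine Real.rpow_le_rpow_of_exponent_le hx ?_
    have : 1 / (2 * (r : ℝ)) ≤ 1 / 2 := by
      refine div_le_div_of_nonneg_left one_pos.le two_pos ?_
      linarith
    linarith
  have h8 : (M : ℝ) * (r * (C0 * x ^ ε) * (q / 2)) ≤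
      x ^ (1 - 1 / (2 * (r : ℝ)) + ε) * (r * C0 * (q / 2)) := by
    rw [h6]
    have hxe : 0 ≤ x ^ ε := Real.rpow_nonneg hx0.le _
    have h9 : (M : ℝ) * (r * (C0 * x ^ ε) * (q / 2)) ≤
        x ^ (1 - 1 / (2 * (r : ℝ))) * (r * (C0 * x ^ ε) * (q / 2)) :=
      mul_le_mul_of_nonneg_right h5 (by positivity)
    refine le_trans h9 (le_of_eq ?_)
    ring
  rw [norm_div] at h4
  have h9 : ‖(2 : ℂ)‖ = 2 := by simp
  rw [h9] at h4
  obtain ⟨T, hT⟩ : ∃ T : ℝ, T = x ^ (1 - 1 / (2 * (r : ℝ)) + ε) := ⟨_, rfl⟩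
  rw [← hT] at h7 h8 ⊢
  have hT0 : 0 ≤ T := by rw [hT]; exact Real.rpow_nonneg hx0.le _
  have h10 : T ≤ T * q := le_mul_of_one_le_right hT0 hq1
  have h11 : (2 + (r : ℝ) * C0) * q * T = 2 * (T * q) + 2 * (T * (r * C0 * (q / 2))) := by ring
  rw [h11]
  linarith

end Pool.Agent.Work.MP_122e00_nt.TS
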