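import Pool.Agent.Work.MP_122e00_nt.TS.Stmts2

/-!
# Thin shifts, item M1: expansion of the indicator function of `g ∣ ∏ a_i`
-/

namespace Pool.Agent.Work.MP_122e00_nt.TS

open Finset Filter Topology ArithmeticFunction
open scoped ArithmeticFunction.zeta ArithmeticFunction.Moebius

namespace IM1

theorem dvd_gcd_prod {ι : Type*} [DecidableEq ι] (g : ℕ) (a : ι → ℕ) (s : Finset ι) :
    ∀ b : ℕ, g ∣ (∏ i ∈ s, a i) * b → g ∣ (∏ i ∈ s, Nat.gcd (a i) g) * b := by
  induction s using Finset.induction_on with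
  | empty => intro b h; simpa using h
  | insert j s hj ih =>
    intro b h
    rw [Finset.prod_insert hj] at h ⊢
    have h1 : g ∣ (∏ i ∈ s, a i) * (a j * b) := by
      have : a j * (∏ i ∈ s, a i) * b = (∏ i ∈ s, a i) * (a j * b) := by ring
      rwa [this] at h
    have h2 := ih (a j * b) h1
    have h3 : g ∣ a j * ((∏ i ∈ s, Nat.gcd (a i) g) * b) := by
      have : (∏ i ∈ s, Nat.gcd (a i) g) * (a j * b) = a j * ((∏ i ∈ s, Nat.gcd (a i) g) * b) := by
        ring
      rwa [this] at h2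
    have h4 : g ∣ g * ((∏ i ∈ s, Nat.gcd (a i) g) * b) := Dvd.intro _ rfl
    have h5 := Nat.dvd_gcd h3 h4
    rw [Nat.gcd_mul_right] at h5
    rwa [mul_assoc]

theorem dvd_iff {ι : Type*} [Fintype ι] [DecidableEq ι] (g : ℕ) (a : ι → ℕ) :
    g ∣ (∏ i, Nat.gcd (a i) g) ↔ g ∣ ∏ i, a i := by
  constructor
  · intro h
    exact h.trans (Finset.prod_dvd_prod_of_dvd _ _ fun i _ => Nat.gcd_dvd_left _ _)
  · intro h
    have := dvd_gcd_prod g a Finset.univ 1 (by simpa using h)
    simpa using this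

/-- `∑_{d ∣ H} μ(d) = [H = 1]` over the reals -/
theorem sum_mu (H : ℕ) (hH : H ≠ 0) :
    ∑ d ∈ H.divisors, ((μ d : ℤ) : ℝ) = if H = 1 then 1 else 0 := by
  have h1 : ∑ d ∈ H.divisors, (μ d : ℤ) = if H = 1 then 1 else 0 := by
    have h2 := congrArg (fun f : ArithmeticFunction ℤ => f H) moebius_mul_coe_zeta
    simp only [coe_mul_zeta_apply] at h2
    rw [h2, one_apply]
  have h3 := congrArg (fun z : ℤ => (z : ℝ)) h1
  push_cast at h3
  rw [h3]

theorem inner (g : ℕ) (hg : 1 ≤ g) (a : ℕ) (e : ℕ) (he : e ∈ g.divisors) :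
    ∑ f ∈ g.divisors, (if e ∣ f then ((μ (f / e) : ℤ) : ℝ) else 0) *
      (if f ∣ a then (1 : ℝ) else 0) = if e = Nat.gcd a g then 1 else 0 := by
  have hg0 : g ≠ 0 := by omega
  have he0 : 0 < e := Nat.pos_of_mem_divisors he
  set G := Nat.gcd a g with hG
  have hG0 : G ≠ 0 := by
    rw [hG]; intro h; exact hg0 (Nat.eq_zero_of_gcd_eq_zero_right h)
  have h1 : ∑ f ∈ g.divisors, (if e ∣ f then ((μ (f / e) : ℤ) : ℝ) else 0) *
      (if f ∣ a then (1 : ℝ) else 0) =
      ∑ f ∈ G.divisors.filter (fun f => e ∣ f), ((μ (f / e) : ℤ) : ℝ) := by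
    rw [Finset.sum_filter]
    have h2 : G.divisors = g.divisors.filter (fun f => f ∣ a) := by
      ext f
      simp only [Nat.mem_divisors, Finset.mem_filter, ne_eq]
      rw [hG, Nat.dvd_gcd_iff]
      constructor
      · rintro ⟨⟨h3, h4⟩, _⟩; exact ⟨⟨h4, hg0⟩, h3⟩
      · rintro ⟨⟨h3, _⟩, h4⟩; exact ⟨⟨h4, h3⟩, by rw [← hG]; exact hG0⟩
    rw [h2, Finset.sum_filter]
    refine Finset.sum_congr rfl fun f _ => ?_
    by_cases hf : f ∣ a
    · simp [hf]
    · simp [hf]
  rw [h1]
  by_cases hd : e ∣ G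
  · obtain ⟨H, hH⟩ := hd
    have hH0 : H ≠ 0 := by rintro rfl; exact hG0 (by rw [hH, mul_zero])
    have h3 : G.divisors.filter (fun f => e ∣ f) = H.divisors.image (fun d => e * d) := by
      ext f
      simp only [Finset.mem_filter, Nat.mem_divisors, Finset.mem_image, ne_eq]
      constructor
      · rintro ⟨⟨h4, _⟩, ⟨d, rfl⟩⟩
        refine ⟨d, ⟨?_, hH0⟩, rfl⟩
        rw [hH] at h4
        exact Nat.dvd_of_mul_dvd_mul_left he0 h4
      · rintro ⟨d, ⟨h4, _⟩, rfl⟩
        refine ⟨⟨?_, hG0⟩, Dvd.intro _ rfl⟩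
        rw [hH]
        exact Nat.mul_dvd_mul_left e h4
    rw [h3, Finset.sum_image (fun x _ y _ h => Nat.eq_of_mul_eq_mul_left he0 h)]
    have h5 : ∀ d ∈ H.divisors, ((μ (e * d / e) : ℤ) : ℝ) = ((μ d : ℤ) : ℝ) := by
      intro d _
      rw [Nat.mul_div_cancel_left d he0]
    rw [Finset.sum_congr rfl h5, sum_mu H hH0]
    by_cases hH1 : H = 1
    · rw [if_pos hH1, if_pos (by rw [hH, hH1, mul_one])]
    · rw [if_neg hH1, if_neg]
      intro h6
      apply hH1
      have h7 : e * H = e * 1 := by rw [mul_one, ← hH, ← h6]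
      exact Nat.eq_of_mul_eq_mul_left he0 h7
  · rw [if_neg (fun h => hd (by rw [h]))]
    refine Finset.sum_eq_zero fun f hf => ?_
    exfalso
    rw [Finset.mem_filter, Nat.mem_divisors] at hf
    exact hd (hf.2.trans hf.1.1)

end IM1

theorem prM1 : tsM1 := by
  intro r g hg
  have hg0 : g ≠ 0 := by omega
  refine ⟨fun f => ∑ e ∈ Fintype.piFinset (fun _ : Fin r => g.divisors),
    (if g ∣ ∏ i, e i then (1 : ℝ) else 0) *
      ∏ i, (if e i ∣ f i then ((μ (f i / e i) : ℤ) : ℝ) else 0), ?_, ?_⟩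
  · intro f
    refine (Finset.abs_sum_le_sum_abs _ _).trans ?_
    have h1 : ∀ e ∈ Fintype.piFinset (fun _ : Fin r => g.divisors),
        |(if g ∣ ∏ i, e i then (1 : ℝ) else 0) *
          ∏ i, (if e i ∣ f i then ((μ (f i / e i) : ℤ) : ℝ) else 0)| ≤ 1 := by
      intro e _
      rw [abs_mul, Finset.abs_prod]
      have h2 : |(if g ∣ ∏ i, e i then (1 : ℝ) else 0)| ≤ 1 := by split_ifs <;> simp
      have h3 : ∏ i, |(if e i ∣ f i then ((μ (f i / e i) : ℤ) : ℝ) else 0)| ≤ 1 := by
        refine Finset.prod_le_one (fun i _ => abs_nonneg _) fun i _ => ?_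
        split_ifs
        · have := abs_moebius_le_one (n := f i / e i)
          rw [← Int.cast_abs]
          exact_mod_cast this
        · simp
      calc _ ≤ (1 : ℝ) * 1 := mul_le_mul h2 h3 (Finset.prod_nonneg fun i _ => abs_nonneg _)
            zero_le_one
        _ = 1 := one_mul 1
    refine (Finset.sum_le_card_nsmul _ _ 1 h1).trans ?_
    rw [Fintype.card_piFinset_const, nsmul_eq_mul, mul_one]
    push_cast
    exact pow_le_pow_left₀ (Nat.cast_nonneg _) (by exact_mod_cast Nat.card_divisors_le_self g) r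
  · intro a ha
    have h1 : ∀ f : Fin r → ℕ, (∑ e ∈ Fintype.piFinset (fun _ : Fin r => g.divisors),
        (if g ∣ ∏ i, e i then (1 : ℝ) else 0) *
          ∏ i, (if e i ∣ f i then ((μ (f i / e i) : ℤ) : ℝ) else 0)) *
        ∏ i, (if f i ∣ a i then (1 : ℝ) else 0) =
        ∑ e ∈ Fintype.piFinset (fun _ : Fin r => g.divisors),
          (if g ∣ ∏ i, e i then (1 : ℝ) else 0) *
          ∏ i, ((if e i ∣ f i then ((μ (f i / e i) : ℤ) : ℝ) else 0) *
            (if f i ∣ a i then (1 : ℝ) else 0)) := by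
      intro f
      rw [Finset.sum_mul]
      refine Finset.sum_congr rfl fun e _ => ?_
      rw [mul_assoc, ← Finset.prod_mul_distrib]
    simp only [h1]
    rw [Finset.sum_comm]
    have h2 : ∀ e ∈ Fintype.piFinset (fun _ : Fin r => g.divisors),
        ∑ f ∈ Fintype.piFinset (fun _ : Fin r => g.divisors),
          (if g ∣ ∏ i, e i then (1 : ℝ) else 0) *
          ∏ i, ((if e i ∣ f i then ((μ (f i / e i) : ℤ) : ℝ) else 0) *
            (if f i ∣ a i then (1 : ℝ) else 0)) =
        (if g ∣ ∏ i, e i then (1 : ℝ) else 0) *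
          (if e = fun i => Nat.gcd (a i) g then 1 else 0) := by
      intro e he
      rw [← Finset.mul_sum]
      congr 1
      rw [← Finset.prod_univ_sum (fun _ : Fin r => g.divisors)
        (fun i f => (if e i ∣ f then ((μ (f / e i) : ℤ) : ℝ) else 0) *
            (if f ∣ a i then (1 : ℝ) else 0))]
      have h3 : ∀ i : Fin r, ∑ f ∈ g.divisors, (if e i ∣ f then ((μ (f / e i) : ℤ) : ℝ) else 0) *
            (if f ∣ a i then (1 : ℝ) else 0) = if e i = Nat.gcd (a i) g then 1 else 0 :=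
        fun i => IM1.inner g hg (a i) (e i) (Fintype.mem_piFinset.mp he i)
      rw [Finset.prod_congr rfl fun i _ => h3 i]
      by_cases hE : e = fun i => Nat.gcd (a i) g
      · rw [if_pos hE]
        refine Finset.prod_eq_one fun i _ => ?_
        rw [if_pos (congrFun hE i)]
      · rw [if_neg hE]
        have : ∃ i, e i ≠ Nat.gcd (a i) g := by
          by_contra hcon
          push Not at hcon
          exact hE (funext hcon)
        obtain ⟨i, hi⟩ := this
        exact Finset.prod_eq_zero (Finset.mem_univ i) (if_neg hi)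
    rw [Finset.sum_congr rfl h2]
    have hmem : (fun i => Nat.gcd (a i) g) ∈ Fintype.piFinset (fun _ : Fin r => g.divisors) := by
      rw [Fintype.mem_piFinset]
      intro i
      exact Nat.mem_divisors.mpr ⟨Nat.gcd_dvd_right _ _, hg0⟩
    simp only [mul_ite, mul_one, mul_zero]
    rw [Finset.sum_ite_eq' , if_pos hmem]
    simp only [IM1.dvd_iff]

end Pool.Agent.Work.MP_122e00_nt.TS
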