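import Pool.Agent.Work.MP_122e00_nt.TS.Stmts2

/-!
# MP_122e00_nt, block TS, item M2 (helper92): `d_r` over the multiples of `g`
-/

set_option autoImplicit false

namespace Pool.Agent.Work.MP_122e00_nt.TS

open Finset ArithmeticFunction
open scoped ArithmeticFunction.zeta

namespace IM2

/-- the `r`-tuples of positive integers with product at most `M` -/
def Q (r M : ℕ) : Finset (Fin r → ℕ) :=
  (Fintype.piFinset (fun _ : Fin r => Finset.Icc 1 M)).filter (fun a => ∏ i, a i ≤ M)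

theorem mem_Q (r M : ℕ) (a : Fin r → ℕ) : a ∈ Q r M ↔ (∀ i, 1 ≤ a i) ∧ ∏ i, a i ≤ M := by
  unfold Q
  rw [Finset.mem_filter, Fintype.mem_piFinset]
  constructor
  · rintro ⟨h1, h2⟩
    exact ⟨fun i => (Finset.mem_Icc.1 (h1 i)).1, h2⟩
  · rintro ⟨h1, h2⟩
    refine ⟨fun i => Finset.mem_Icc.2 ⟨h1 i, le_trans ?_ h2⟩, h2⟩
    exact Nat.le_of_dvd (Finset.prod_pos fun j _ => h1 j)
      (Finset.dvd_prod_of_mem a (Finset.mem_univ i))

theorem sum_dr (r M : ℕ) (φ : ℕ → ℝ) :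
    ∑ n ∈ Finset.Icc 1 M, dr r n * φ n = ∑ a ∈ Q r M, φ (∏ i, a i) := by
  have hmap : ∀ a ∈ Q r M, (∏ i, a i) ∈ Finset.Icc 1 M := by
    intro a ha
    rw [mem_Q] at ha
    have h0 : 0 < ∏ i, a i := Finset.prod_pos fun i _ => ha.1 i
    exact Finset.mem_Icc.2 ⟨h0, ha.2⟩
  rw [← Finset.sum_fiberwise_of_maps_to hmap]
  refine Finset.sum_congr rfl fun n hn => ?_
  rw [Finset.mem_Icc] at hn
  have e : (Q r M).filter (fun a => ∏ i, a i = n) = Nat.finMulAntidiag r n := by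
    ext a
    rw [Finset.mem_filter, mem_Q, Nat.mem_finMulAntidiag]
    constructor
    · rintro ⟨_, h⟩
      exact ⟨h, by omega⟩
    · rintro ⟨h, _⟩
      refine ⟨⟨fun i => ?_, by omega⟩, h⟩
      rcases Nat.eq_zero_or_pos (a i) with h0 | h0
      · exfalso
        rw [Finset.prod_eq_zero (Finset.mem_univ i) h0] at h
        omega
      · exact h0
  rw [e]
  have e2 : ∀ a ∈ Nat.finMulAntidiag r n, φ (∏ i, a i) = φ n := by
    intro a ha
    rw [(Nat.mem_finMulAntidiag.1 ha).1]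
  rw [Finset.sum_congr rfl e2, Finset.sum_const, nsmul_eq_mul]
  unfold dr
  rw [zeta_pow_apply]

theorem count (r M : ℕ) (f : Fin r → ℕ) (hf : ∀ i, 1 ≤ f i) :
    (((Q r M).filter (fun a => ∀ i, f i ∣ a i)).card : ℝ) =
      ∑ n ∈ Finset.Icc 1 (M / ∏ i, f i), dr r n := by
  have h1 := sum_dr r (M / ∏ i, f i) (fun _ => 1)
  simp only [mul_one] at h1
  rw [h1, Finset.sum_const, nsmul_eq_mul, mul_one]
  have hP : 0 < ∏ i, f i := Finset.prod_pos fun i _ => hf i
  congr 1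
  symm
  refine Finset.card_bij (fun b _ => fun i => f i * b i) ?_ ?_ ?_
  · intro b hb
    rw [mem_Q] at hb
    rw [Finset.mem_filter, mem_Q]
    refine ⟨⟨fun i => Nat.mul_pos (hf i) (hb.1 i), ?_⟩, fun i => dvd_mul_right _ _⟩
    rw [Finset.prod_mul_distrib]
    calc (∏ i, f i) * ∏ i, b i ≤ (∏ i, f i) * (M / ∏ i, f i) := Nat.mul_le_mul_left _ hb.2
      _ ≤ M := Nat.mul_div_le _ _
  · intro b _ b' _ h
    funext i
    exact Nat.eq_of_mul_eq_mul_left (hf i) (congrFun h i)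
  · intro a ha
    rw [Finset.mem_filter, mem_Q] at ha
    obtain ⟨⟨ha1, ha2⟩, ha3⟩ := ha
    have e : ∀ i, f i * (a i / f i) = a i := fun i => Nat.mul_div_cancel' (ha3 i)
    refine ⟨fun i => a i / f i, ?_, funext e⟩
    rw [mem_Q]
    refine ⟨fun i => Nat.div_pos (Nat.le_of_dvd (ha1 i) (ha3 i)) (hf i), ?_⟩
    rw [Nat.le_div_iff_mul_le hP, mul_comm, ← Finset.prod_mul_distrib,
      Finset.prod_congr rfl fun i _ => e i]
    exact ha2

end IM2

open IM2 in
theorem prM2 : tsM2 := by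
  intro r g lam x hg hx hlam
  set M := ⌊x⌋₊ with hM
  have h1 : ∑ n ∈ (Finset.Icc 1 M).filter (g ∣ ·), dr r n =
      ∑ n ∈ Finset.Icc 1 M, dr r n * (if g ∣ n then (1 : ℝ) else 0) := by
    rw [Finset.sum_filter]
    refine Finset.sum_congr rfl fun n _ => ?_
    split_ifs
    · rw [mul_one]
    · rw [mul_zero]
  rw [h1, sum_dr r M (fun n => if g ∣ n then (1 : ℝ) else 0)]
  have h2 : ∀ a ∈ Q r M, (if g ∣ ∏ i, a i then (1 : ℝ) else 0) =
      ∑ f ∈ Fintype.piFinset (fun _ : Fin r => g.divisors), lam f *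
        (if ∀ i, f i ∣ a i then (1 : ℝ) else 0) := by
    intro a ha
    rw [mem_Q] at ha
    rw [hlam.2 a ha.1]
    refine Finset.sum_congr rfl fun f _ => ?_
    congr 1
    rw [Finset.prod_ite_zero]
    simp only [Finset.mem_univ, forall_true_left, Finset.prod_const_one]
  rw [Finset.sum_congr rfl h2, Finset.sum_comm]
  refine Finset.sum_congr rfl fun f hf => ?_
  rw [← Finset.mul_sum]
  congr 1
  rw [Fintype.mem_piFinset] at hf
  have hf1 : ∀ i, 1 ≤ f i := fun i => Nat.pos_of_mem_divisors (hf i)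
  rw [← Finset.sum_filter, Finset.sum_const, nsmul_eq_mul, mul_one, count r M f hf1,
    Nat.floor_div_natCast]

end Pool.Agent.Work.MP_122e00_nt.TS
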