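import Mathlib
import Pool.Agent.Work.MP_122e00_nt.TS.Stmts2

set_option autoImplicit false

/-!
# Thin shifts, item M3: the mean of the expansion of the indicator function
-/

namespace Pool.Agent.Work.MP_122e00_nt.TS

open Finset

namespace IM3

/-- the numbers `1, …, g` are incongruent modulo `g` -/
theorem inj (g a b : ℕ) (ha : a ∈ Finset.Icc 1 g) (hb : b ∈ Finset.Icc 1 g)
    (h : ((a : ℕ) : ZMod g) = (b : ℕ)) : a = b := by
  rw [ZMod.natCast_eq_natCast_iff] at h
  rw [Finset.mem_Icc] at ha hb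
  obtain ⟨k, hk⟩ := Nat.modEq_iff_dvd.1 h
  have h2 : k = 0 := by
    by_contra hne
    rcases lt_or_gt_of_ne hne with h3 | h3
    · have h4 : (g : ℤ) * k ≤ g * (-1) := mul_le_mul_of_nonneg_left (by omega) (by omega)
      omega
    · have h4 : (g : ℤ) * 1 ≤ g * k := mul_le_mul_of_nonneg_left (by omega) (by omega)
      omega
  subst h2
  omega

/-- the numbers `1, …, g` represent all residue classes -/
theorem surj (g : ℕ) (hg : 1 ≤ g) (c : ZMod g) :
    ∃ a : ℕ, a ∈ Finset.Icc 1 g ∧ ((a : ℕ) : ZMod g) = c := by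
  have : NeZero g := ⟨by omega⟩
  rcases Nat.eq_zero_or_pos c.val with h | h
  · refine ⟨g, Finset.mem_Icc.2 ⟨hg, le_rfl⟩, ?_⟩
    rw [ZMod.natCast_self]
    exact ((ZMod.val_eq_zero c).1 h).symm
  · exact ⟨c.val, Finset.mem_Icc.2 ⟨h, (ZMod.val_lt c).le⟩, ZMod.natCast_zmod_val c⟩

theorem card_eq (r g : ℕ) (hg : 1 ≤ g) :
    Nat.card {c : Fin r → ZMod g // ∏ i, c i = 0} =
      ((Fintype.piFinset (fun _ : Fin r => Finset.Icc 1 g)).filter
        (fun a => g ∣ ∏ i, a i)).card := by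
  have : NeZero g := ⟨by omega⟩
  classical
  rw [Nat.card_eq_fintype_card, Fintype.card_subtype]
  symm
  refine Finset.card_bij (fun (a : Fin r → ℕ) _ => fun i => ((a i : ℕ) : ZMod g)) ?_ ?_ ?_
  · intro a ha
    rw [Finset.mem_filter] at ha
    rw [Finset.mem_filter]
    refine ⟨Finset.mem_univ _, ?_⟩
    rw [← Nat.cast_prod, ZMod.natCast_eq_zero_iff]
    exact ha.2
  · intro a ha b hb h
    funext i
    have h1 := congrFun h i
    rw [Finset.mem_filter, Fintype.mem_piFinset] at ha hb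
    exact inj g _ _ (ha.1 i) (hb.1 i) h1
  · intro c hc
    rw [Finset.mem_filter] at hc
    choose a ha1 ha2 using fun i => surj g hg (c i)
    refine ⟨a, ?_, funext ha2⟩
    rw [Finset.mem_filter, Fintype.mem_piFinset]
    refine ⟨ha1, ?_⟩
    rw [← ZMod.natCast_eq_zero_iff, Nat.cast_prod, Finset.prod_congr rfl (fun i _ => ha2 i)]
    exact hc.2

/-- the number of multiples of a divisor -/
theorem sum_dvd (g d : ℕ) (hd : d ∣ g) (hg : 1 ≤ g) :
    ∑ a ∈ Finset.Icc 1 g, (if d ∣ a then (1 : ℝ) else 0) = (g : ℝ) / d := by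
  have hd0 : (d : ℝ) ≠ 0 := by
    have : d ≠ 0 := fun h => by
      subst h
      have := Nat.eq_zero_of_zero_dvd hd
      omega
    exact_mod_cast this
  rw [Finset.sum_boole, ← Nat.cast_div hd hd0]
  congr 1
  exact Nat.Ioc_filter_dvd_card_eq_div g d

end IM3

open IM3

theorem prM3 : tsM3 := by
  intro r g lam hg hlam
  classical
  have hg0 : (g : ℝ) ≠ 0 := by
    have : g ≠ 0 := by omega
    exact_mod_cast this
  have key : ∑ a ∈ Fintype.piFinset (fun _ : Fin r => Finset.Icc 1 g),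
      (if g ∣ ∏ i, a i then (1 : ℝ) else 0) =
      ∑ a ∈ Fintype.piFinset (fun _ : Fin r => Finset.Icc 1 g),
        ∑ f ∈ Fintype.piFinset (fun _ : Fin r => g.divisors), lam f *
          ∏ i, (if f i ∣ a i then (1 : ℝ) else 0) :=
    Finset.sum_congr rfl fun a ha => hlam.2 a fun i =>
      (Finset.mem_Icc.1 (Fintype.mem_piFinset.1 ha i)).1
  rw [Finset.sum_comm] at key
  have h1 : ∀ f ∈ Fintype.piFinset (fun _ : Fin r => g.divisors),
      ∑ a ∈ Fintype.piFinset (fun _ : Fin r => Finset.Icc 1 g),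
        lam f * ∏ i, (if f i ∣ a i then (1 : ℝ) else 0) =
      (g : ℝ) ^ r * (lam f * ∏ i, (1 / (f i : ℝ))) := by
    intro f hf
    have h2 : ∑ a ∈ Fintype.piFinset (fun _ : Fin r => Finset.Icc 1 g),
        ∏ i, (if f i ∣ a i then (1 : ℝ) else 0) =
        ∏ i, ∑ b ∈ Finset.Icc 1 g, (if f i ∣ b then (1 : ℝ) else 0) :=
      (Finset.prod_univ_sum (fun _ : Fin r => Finset.Icc 1 g)
        (fun i b => if f i ∣ b then (1 : ℝ) else 0)).symm
    have h3 : ∀ i, ∑ b ∈ Finset.Icc 1 g, (if f i ∣ b then (1 : ℝ) else 0) =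
        (g : ℝ) * (1 / (f i : ℝ)) := by
      intro i
      rw [sum_dvd g (f i) (Nat.dvd_of_mem_divisors (Fintype.mem_piFinset.1 hf i)) hg]
      ring
    rw [← Finset.mul_sum, h2, Finset.prod_congr rfl (fun i _ => h3 i), Finset.prod_mul_distrib,
      Finset.prod_const, Finset.card_univ, Fintype.card_fin]
    ring
  rw [Finset.sum_congr rfl h1, ← Finset.mul_sum, Finset.sum_boole] at key
  unfold rho
  rw [card_eq r g hg, key]
  field_simp

end Pool.Agent.Work.MP_122e00_nt.TS
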