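import Mathlib
import Pool.Agent.Work.MP_122e00_nt.TS.Stmts2

/-!
# Item M4 of block TS: `d_r` over the multiples of `g`
-/

namespace Pool.Agent.Work.MP_122e00_nt.TS

open Finset Filter Topology ArithmeticFunction
open scoped ArithmeticFunction.zeta ArithmeticFunction.Moebius

namespace IM4

lemma natDegree_shift (P : Polynomial ℝ) (a : ℝ) :
    (P.comp (Polynomial.X - Polynomial.C a)).natDegree = P.natDegree := by
  rw [Polynomial.natDegree_comp, Polynomial.natDegree_X_sub_C, mul_one]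

lemma coeff_shift (P : Polynomial ℝ) (a : ℝ) (d : ℕ) (h : P.natDegree = d) :
    (P.comp (Polynomial.X - Polynomial.C a)).coeff d = P.coeff d := by
  have h1 := Polynomial.coeff_comp_degree_mul_degree (p := P)
    (q := Polynomial.X - Polynomial.C a) (by rw [Polynomial.natDegree_X_sub_C]; norm_num)
  rw [Polynomial.natDegree_X_sub_C, mul_one, h, Polynomial.leadingCoeff_X_sub_C, one_pow,
    mul_one, Polynomial.leadingCoeff, h] at h1
  exact h1

/-- the polynomial attached to `lam` -/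
noncomputable def BB (r : ℕ) (P : Polynomial ℝ) (g : ℕ) (lam : (Fin r → ℕ) → ℝ) : Polynomial ℝ :=
  ∑ f ∈ Fintype.piFinset (fun _ : Fin r => g.divisors),
    Polynomial.C (lam f * ∏ i, (1 / (f i : ℝ))) *
      P.comp (Polynomial.X - Polynomial.C (Real.log ((∏ i, f i : ℕ) : ℝ)))

lemma BB_deg (r : ℕ) (P : Polynomial ℝ) (g : ℕ) (lam : (Fin r → ℕ) → ℝ) (d : ℕ)
    (h : P.natDegree ≤ d) : (BB r P g lam).natDegree ≤ d := by
  unfold BB
  refine Polynomial.natDegree_sum_le_of_forall_le _ _ ?_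
  intro f _
  refine (Polynomial.natDegree_C_mul_le _ _).trans ?_
  rw [natDegree_shift]
  exact h

lemma BB_coeff (r : ℕ) (P : Polynomial ℝ) (g : ℕ) (lam : (Fin r → ℕ) → ℝ) (d : ℕ)
    (h : P.natDegree = d) : (BB r P g lam).coeff d =
      (∑ f ∈ Fintype.piFinset (fun _ : Fin r => g.divisors), lam f * ∏ i, (1 / (f i : ℝ))) *
        P.coeff d := by
  unfold BB
  rw [Polynomial.finsetSum_coeff, Finset.sum_mul]
  refine Finset.sum_congr rfl ?_
  intro f _
  rw [Polynomial.coeff_C_mul, coeff_shift _ _ _ h]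

lemma prod_pos_of_mem {r g : ℕ} {f : Fin r → ℕ}
    (hf : f ∈ Fintype.piFinset (fun _ : Fin r => g.divisors)) : 0 < ∏ i, f i := by
  rw [Fintype.mem_piFinset] at hf
  exact Finset.prod_pos fun i _ => Nat.pos_of_mem_divisors (hf i)

lemma card_le (r g : ℕ) :
    ((Fintype.piFinset (fun _ : Fin r => g.divisors)).card : ℝ) ≤ (g : ℝ) ^ r := by
  rw [Fintype.card_piFinset]
  push_cast
  rw [Finset.prod_const, Finset.card_univ, Fintype.card_fin]
  have : (g.divisors.card : ℝ) ≤ (g : ℝ) := by exact_mod_cast Nat.card_divisors_le_self g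
  exact pow_le_pow_left₀ (Nat.cast_nonneg _) this r

lemma err (r : ℕ) (P : Polynomial ℝ) (c C : ℝ) (hc0 : 0 < c) (hc : c ≤ 1 / 4) (hC : 0 < C)
    (hP : ∀ x : ℝ, 0 < x → |∑ n ∈ Finset.Icc 1 ⌊x⌋₊, dr r n - x * P.eval (Real.log x)| ≤
      C * (1 + x) ^ (1 - c)) (h2 : tsM2) (g : ℕ) (lam : (Fin r → ℕ) → ℝ) (hg : 1 ≤ g)
    (hl : Lam r g lam) (x : ℝ) (hx : 1 ≤ x) :
    |∑ n ∈ (Finset.Icc 1 ⌊x⌋₊).filter (g ∣ ·), dr r n - x * (BB r P g lam).eval (Real.log x)| ≤
      (g : ℝ) ^ r * ((g : ℝ) ^ r * (C * (2 * x ^ (1 - c)))) := by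
  have hx0 : 0 < x := lt_of_lt_of_le one_pos hx
  rw [h2 r g lam x hg hx0.le hl]
  have e : x * (BB r P g lam).eval (Real.log x) =
      ∑ f ∈ Fintype.piFinset (fun _ : Fin r => g.divisors), lam f *
        (x / ((∏ i, f i : ℕ) : ℝ) * P.eval (Real.log (x / ((∏ i, f i : ℕ) : ℝ)))) := by
    unfold BB
    rw [Polynomial.eval_finsetSum, Finset.mul_sum]
    refine Finset.sum_congr rfl ?_
    intro f hf
    have hp := prod_pos_of_mem hf
    have hp' : (0 : ℝ) < ((∏ i, f i : ℕ) : ℝ) := by exact_mod_cast hp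
    rw [Polynomial.eval_mul, Polynomial.eval_C, Polynomial.eval_comp, Polynomial.eval_sub,
      Polynomial.eval_X, Polynomial.eval_C, Real.log_div hx0.ne' hp'.ne']
    have e2 : ∏ i, (1 / (f i : ℝ)) = 1 / ((∏ i, f i : ℕ) : ℝ) := by
      rw [Finset.prod_div_distrib, Finset.prod_const_one]
      push_cast
      rfl
    rw [e2]
    ring
  rw [e, ← Finset.sum_sub_distrib]
  refine (Finset.abs_sum_le_sum_abs _ _).trans ?_
  have hb : ∀ f ∈ Fintype.piFinset (fun _ : Fin r => g.divisors),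
      |lam f * ∑ n ∈ Finset.Icc 1 ⌊x / ((∏ i, f i : ℕ) : ℝ)⌋₊, dr r n - lam f *
        (x / ((∏ i, f i : ℕ) : ℝ) * P.eval (Real.log (x / ((∏ i, f i : ℕ) : ℝ))))| ≤
      (g : ℝ) ^ r * (C * (2 * x ^ (1 - c))) := by
    intro f hf
    have hp := prod_pos_of_mem hf
    have hp' : (1 : ℝ) ≤ ((∏ i, f i : ℕ) : ℝ) := by exact_mod_cast hp
    have hp0 : (0 : ℝ) < ((∏ i, f i : ℕ) : ℝ) := lt_of_lt_of_le one_pos hp'
    have hy : 0 < x / ((∏ i, f i : ℕ) : ℝ) := div_pos hx0 hp0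
    have hyx : x / ((∏ i, f i : ℕ) : ℝ) ≤ x := div_le_self hx0.le hp'
    rw [← mul_sub, abs_mul]
    refine mul_le_mul (hl.1 f) ?_ (abs_nonneg _) (by positivity)
    refine (hP _ hy).trans ?_
    refine mul_le_mul_of_nonneg_left ?_ hC.le
    have h3 : (1 + x / ((∏ i, f i : ℕ) : ℝ)) ^ (1 - c) ≤ (2 * x) ^ (1 - c) := by
      refine Real.rpow_le_rpow (by positivity) ?_ (by linarith)
      linarith
    refine h3.trans ?_
    rw [Real.mul_rpow (by norm_num) hx0.le]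
    refine mul_le_mul_of_nonneg_right ?_ (by positivity)
    calc (2 : ℝ) ^ (1 - c) ≤ (2 : ℝ) ^ (1 : ℝ) :=
          Real.rpow_le_rpow_of_exponent_le (by norm_num) (by linarith)
      _ = 2 := Real.rpow_one 2
  refine (Finset.sum_le_sum hb).trans ?_
  rw [Finset.sum_const, nsmul_eq_mul]
  refine mul_le_mul_of_nonneg_right (card_le r g) ?_
  have : (0 : ℝ) ≤ x ^ (1 - c) := by positivity
  positivity

end IM4

theorem prM4 (hD6 : tsD6) (h1 : tsM1) (h2 : tsM2) (h3 : tsM3) : tsM4 := by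
  intro r hr
  obtain ⟨P, c, C, hdeg, hco, hc0, hc, hC, hP⟩ := hD6 r hr
  have hne : P.coeff (r - 1) ≠ 0 := by
    rw [hco]
    positivity
  have hd : P.natDegree = r - 1 := le_antisymm hdeg (Polynomial.le_natDegree_of_ne_zero hne)
  have hch : ∀ g : ℕ, ∃ lam : (Fin r → ℕ) → ℝ, 1 ≤ g → Lam r g lam := by
    intro g
    by_cases hg : 1 ≤ g
    · obtain ⟨lam, hl⟩ := h1 r g hg
      exact ⟨lam, fun _ => hl⟩
    · exact ⟨fun _ => 0, fun h => absurd h hg⟩
  choose lam hlam using hch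
  refine ⟨fun g => IM4.BB r P g (lam g), fun g => IM4.BB_deg r P g (lam g) _ hdeg, ?_, c,
    max (2 * C) (2 * r), hc0, hc, lt_max_of_lt_left (by positivity), ?_⟩
  · intro g hg
    rw [IM4.BB_coeff r P g (lam g) (r - 1) hd, h3 r g (lam g) hg (hlam g hg), hco]
    ring
  · intro g x hg hx
    refine (IM4.err r P c C hc0 hc hC hP h2 g (lam g) hg (hlam g hg) x hx).trans ?_
    have hg1 : (1 : ℝ) ≤ (g : ℝ) := by exact_mod_cast hg
    have hx0 : (0 : ℝ) ≤ x ^ (1 - c) := by positivity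
    have e1 : (g : ℝ) ^ r * (g : ℝ) ^ r ≤ (g : ℝ) ^ (max (2 * C) (2 * (r : ℝ))) := by
      rw [← pow_add, ← Real.rpow_natCast]
      refine Real.rpow_le_rpow_of_exponent_le hg1 ?_
      push_cast
      have := le_max_right (2 * C) (2 * (r : ℝ))
      linarith
    have e2 : 2 * C ≤ max (2 * C) (2 * (r : ℝ)) := le_max_left _ _
    calc (g : ℝ) ^ r * ((g : ℝ) ^ r * (C * (2 * x ^ (1 - c))))
        = (2 * C) * ((g : ℝ) ^ r * (g : ℝ) ^ r) * x ^ (1 - c) := by ring
      _ ≤ max (2 * C) (2 * (r : ℝ)) * (g : ℝ) ^ (max (2 * C) (2 * (r : ℝ))) * x ^ (1 - c) := by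
          refine mul_le_mul_of_nonneg_right ?_ hx0
          exact mul_le_mul e2 e1 (by positivity) (le_trans (by positivity) e2)

end Pool.Agent.Work.MP_122e00_nt.TS
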