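import Pool.Agent.Work.MP_122e00_nt.TS.Stmts1

set_option autoImplicit false

/-!
# Thin shifts, item Q2: Parseval modulo `M`
-/

namespace Pool.Agent.Work.MP_122e00_nt.TS

open Finset Filter Topology ArithmeticFunction
open scoped ArithmeticFunction.zeta ArithmeticFunction.Moebius

namespace IQ2

theorem ee_add (x y : ℝ) : ee (x + y) = ee x * ee y := by
  unfold ee
  rw [← Complex.exp_add]
  congr 1
  push_cast
  ring

theorem ee_conj (x : ℝ) : (starRingEnd ℂ) (ee x) = ee (-x) := by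
  unfold ee
  rw [← Complex.exp_conj]
  congr 1
  rw [map_mul, Complex.conj_I, Complex.conj_ofReal]
  push_cast
  ring

/-- the square of the norm as a double sum -/
theorem sq (u : ℕ → ℝ) (N M j : ℕ) : ((‖SS u N ((j : ℝ) / M)‖ ^ 2 : ℝ) : ℂ) =
    ∑ n ∈ Finset.Icc 1 N, ∑ m ∈ Finset.Icc 1 N,
      ((u n : ℂ) * (u m : ℂ)) * ee ((j : ℝ) * (((n : ℤ) - (m : ℤ) : ℤ) : ℝ) / M) := by
  rw [Complex.ofReal_pow, ← Complex.mul_conj']
  unfold SS
  rw [map_sum, Finset.sum_mul_sum]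
  refine Finset.sum_congr rfl fun n _ => Finset.sum_congr rfl fun m _ => ?_
  rw [map_mul, Complex.conj_ofReal, ee_conj]
  have e : ee ((j : ℝ) * (((n : ℤ) - (m : ℤ) : ℤ) : ℝ) / M) =
      ee ((n : ℝ) * ((j : ℝ) / M)) * ee (-((m : ℝ) * ((j : ℝ) / M))) := by
    rw [← ee_add]
    congr 1
    push_cast
    ring
  rw [e]
  ring

end IQ2

open IQ2 in
theorem prQ2 (h : tsQ1) : tsQ2 := by
  intro u N M hNM
  have hM : 1 ≤ M := by omega
  apply Complex.ofReal_injective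
  rw [Complex.ofReal_sum, Finset.sum_congr rfl fun j _ => sq u N M j, Finset.sum_comm]
  have h1 : ∀ n ∈ Finset.Icc 1 N, ∑ j ∈ Finset.range M, ∑ m ∈ Finset.Icc 1 N,
      ((u n : ℂ) * (u m : ℂ)) * ee ((j : ℝ) * (((n : ℤ) - (m : ℤ) : ℤ) : ℝ) / M) =
      (M : ℂ) * ((u n : ℂ) ^ 2) := by
    intro n hn
    rw [Finset.sum_comm]
    have h2 : ∀ m ∈ Finset.Icc 1 N, ∑ j ∈ Finset.range M,
        ((u n : ℂ) * (u m : ℂ)) * ee ((j : ℝ) * (((n : ℤ) - (m : ℤ) : ℤ) : ℝ) / M) =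
        if n = m then (M : ℂ) * ((u n : ℂ) ^ 2) else 0 := by
      intro m hm
      rw [← Finset.mul_sum, h M ((n : ℤ) - (m : ℤ)) hM]
      rw [Finset.mem_Icc] at hn hm
      by_cases hnm : n = m
      · subst hnm
        rw [if_pos rfl, if_pos (by simp)]
        ring
      · rw [if_neg hnm, if_neg, mul_zero]
        intro hd
        have h3 : (n : ℤ) - (m : ℤ) = 0 := Int.eq_zero_of_abs_lt_dvd hd (by rw [abs_lt]; omega)
        omega
    rw [Finset.sum_congr rfl h2, Finset.sum_ite_eq, if_pos hn]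
  rw [Finset.sum_congr rfl h1, ← Finset.mul_sum]
  push_cast
  rfl

end Pool.Agent.Work.MP_122e00_nt.TS
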