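import Mathlib
import Pool.Agent.Work.MP_122e00_nt.TS.Stmts1

/-!
# Thin shifts, item Q3 (helper86): correlations by the finite Fourier transform
-/

set_option autoImplicit false

namespace Pool.Agent.Work.MP_122e00_nt.TS

open Finset Filter Topology ArithmeticFunction
open scoped ArithmeticFunction.zeta ArithmeticFunction.Moebius

namespace IQ3

theorem ee_add (x y : ℝ) : ee (x + y) = ee x * ee y := by
  unfold ee
  rw [← Complex.exp_add]
  congr 1
  push_cast
  ring

theorem conj_ee (x : ℝ) : (starRingEnd ℂ) (ee x) = ee (-x) := by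
  unfold ee
  rw [← Complex.exp_conj, map_mul, Complex.conj_ofReal, Complex.conj_I]
  congr 1
  push_cast
  ring

theorem expand (u v : ℕ → ℝ) (N L M h j : ℕ) :
    SS u N ((j : ℝ) / M) * (starRingEnd ℂ) (SS v L ((j : ℝ) / M)) * ee ((h : ℝ) * j / M) =
      ∑ n ∈ Finset.Icc 1 N, ∑ m ∈ Finset.Icc 1 L,
        (u n : ℂ) * (v m : ℂ) * ee ((j : ℝ) * (((n : ℤ) - m + h : ℤ) : ℝ) / M) := by
  unfold SS
  rw [map_sum, Finset.sum_mul_sum, Finset.sum_mul]
  refine Finset.sum_congr rfl fun n _ => ?_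
  rw [Finset.sum_mul]
  refine Finset.sum_congr rfl fun m _ => ?_
  rw [map_mul, Complex.conj_ofReal, conj_ee]
  have h1 : (j : ℝ) * (((n : ℤ) - m + h : ℤ) : ℝ) / M =
      n * ((j : ℝ) / M) + (-(m * ((j : ℝ) / M)) + (h : ℝ) * j / M) := by
    push_cast
    ring
  rw [h1, ee_add, ee_add]
  ring

end IQ3

theorem prQ3 (hQ1 : tsQ1) : tsQ3 := by
  intro u v N H M h hM hh
  have hM1 : 1 ≤ M := by omega
  have hM0 : (M : ℂ) ≠ 0 := by
    have : M ≠ 0 := by omega
    exact_mod_cast this
  have h1 : ∑ j ∈ Finset.range M, SS u N ((j : ℝ) / M) *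
      (starRingEnd ℂ) (SS v (N + H) ((j : ℝ) / M)) * ee ((h : ℝ) * j / M) =
      ∑ n ∈ Finset.Icc 1 N, (M : ℂ) * ((u n * v (n + h) : ℝ) : ℂ) := by
    rw [Finset.sum_congr rfl fun j _ => IQ3.expand u v N (N + H) M h j, Finset.sum_comm]
    refine Finset.sum_congr rfl fun n hn => ?_
    rw [Finset.mem_Icc] at hn
    rw [Finset.sum_comm, Finset.sum_eq_single (n + h)]
    · rw [← Finset.mul_sum, hQ1 M _ hM1, if_pos]
      · push_cast
        ring
      · have : (n : ℤ) - ((n + h : ℕ) : ℤ) + h = 0 := by push_cast; ring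
        rw [this]
        exact dvd_zero _
    · intro m hm hne
      rw [Finset.mem_Icc] at hm
      rw [← Finset.mul_sum, hQ1 M _ hM1, if_neg, mul_zero]
      intro hd
      have h2 : (n : ℤ) - m + h = 0 := by
        apply Int.eq_zero_of_abs_lt_dvd hd
        rw [abs_lt]
        constructor <;> omega
      apply hne
      omega
    · intro hnot
      exact absurd (Finset.mem_Icc.2 ⟨by omega, by omega⟩) hnot
  rw [h1, ← Finset.mul_sum, ← mul_assoc, one_div, inv_mul_cancel₀ hM0, one_mul]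
  unfold cor
  push_cast
  rfl

end Pool.Agent.Work.MP_122e00_nt.TS
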