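import Mathlib
import Pool.Agent.Work.MP_122e00_nt.TS.Stmts1

/-!
# Thin shifts, item Q4: the second moment over a set of shifts
-/

namespace Pool.Agent.Work.MP_122e00_nt.TS

open Finset Filter Topology ArithmeticFunction
open scoped ArithmeticFunction.zeta ArithmeticFunction.Moebius

namespace IQ4

lemma ee_add (x y : ℝ) : ee (x + y) = ee x * ee y := by
  unfold ee
  rw [← Complex.exp_add]
  congr 1
  push_cast
  ring

lemma conj_ee (x : ℝ) : (starRingEnd ℂ) (ee x) = ee (-x) := by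
  unfold ee
  rw [← Complex.exp_conj, map_mul, Complex.conj_ofReal, Complex.conj_I]
  congr 1
  push_cast
  ring

lemma ee_nat (n : ℕ) : ee (n : ℝ) = 1 := by
  unfold ee
  rw [Complex.exp_eq_one_iff]
  refine ⟨n, ?_⟩
  push_cast
  ring

lemma norm_ee (x : ℝ) : ‖ee x‖ = 1 := by
  unfold ee
  exact Complex.norm_exp_ofReal_mul_I _

/-- the difference modulo `M` -/
def tt (M i j : ℕ) : ℕ := if j ≤ i then i - j else i + M - j

lemma tt_lt {M i j : ℕ} (hi : i < M) (hj : j < M) : tt M i j < M := by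
  unfold tt
  split_ifs with h <;> omega

lemma tt_inj_right {M i j j' : ℕ} (_hi : i < M) (hj : j < M) (hj' : j' < M)
    (h : tt M i j = tt M i j') : j = j' := by
  unfold tt at h
  split_ifs at h with h1 h2 h2 <;> omega

lemma tt_inj_left {M i i' j : ℕ} (hi : i < M) (hi' : i' < M) (hj : j < M)
    (h : tt M i j = tt M i' j) : i = i' := by
  unfold tt at h
  split_ifs at h with h1 h2 h2 <;> omega

lemma ee_tt {M i j : ℕ} (hj : j < M) (s : ℕ) :
    ee ((s : ℝ) * i / M) * (starRingEnd ℂ) (ee ((s : ℝ) * j / M)) =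
      ee ((s : ℝ) * (tt M i j : ℕ) / M) := by
  have hM : (M : ℝ) ≠ 0 := by
    have : 0 < M := by omega
    positivity
  rw [conj_ee, ← ee_add]
  unfold tt
  split_ifs with h
  · congr 1
    rw [Nat.cast_sub h]
    ring
  · have hle : j ≤ i + M := by omega
    rw [Nat.cast_sub hle]
    have e : (s : ℝ) * (((i + M : ℕ) : ℝ) - j) / M = ((s : ℝ) * i / M + -((s : ℝ) * j / M)) + s := by
      push_cast
      field_simp
      ring
    rw [e, ee_add _ (s : ℝ), ee_nat, mul_one]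

/-- for a fixed first index the second index is determined by the difference -/
lemma card_right {M i : ℕ} (hi : i < M) (P : ℕ → Prop) [DecidablePred P] :
    ((Finset.range M).filter (fun j => P (tt M i j))).card ≤
      ((Finset.range M).filter P).card := by
  refine Finset.card_le_card_of_injOn (fun j => tt M i j) ?_ ?_
  · intro j hj
    simp only [Finset.coe_filter, Finset.mem_range, Set.mem_ofPred_eq] at hj ⊢
    exact ⟨tt_lt hi hj.1, hj.2⟩
  · intro j hj j' hj' h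
    simp only [Finset.coe_filter, Finset.mem_range, Set.mem_ofPred_eq] at hj hj'
    exact tt_inj_right hi hj.1 hj'.1 h

lemma card_left {M j : ℕ} (hj : j < M) (P : ℕ → Prop) [DecidablePred P] :
    ((Finset.range M).filter (fun i => P (tt M i j))).card ≤
      ((Finset.range M).filter P).card := by
  refine Finset.card_le_card_of_injOn (fun i => tt M i j) ?_ ?_
  · intro i hi
    simp only [Finset.coe_filter, Finset.mem_range, Set.mem_ofPred_eq] at hi ⊢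
    exact ⟨tt_lt hi.1 hj, hi.2⟩
  · intro i hi i' hi' h
    simp only [Finset.coe_filter, Finset.mem_range, Set.mem_ofPred_eq] at hi hi'
    exact tt_inj_left hi.1 hi'.1 hj h

/-- the square of a sum of frequencies -/
lemma sq_sum (κ : Finset ℕ) (sh : ℕ → ℕ) (M : ℕ) (c : ℕ → ℂ) :
    ((∑ k ∈ κ, ‖∑ j ∈ Finset.range M, c j * ee ((sh k : ℝ) * j / M)‖ ^ 2 : ℝ) : ℂ) =
      ∑ i ∈ Finset.range M, ∑ j ∈ Finset.range M, (c i * (starRingEnd ℂ) (c j)) *
        ∑ k ∈ κ, ee ((sh k : ℝ) * (tt M i j : ℕ) / M) := by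
  have h1 : ∀ k ∈ κ, ((‖∑ j ∈ Finset.range M, c j * ee ((sh k : ℝ) * j / M)‖ ^ 2 : ℝ) : ℂ) =
      ∑ i ∈ Finset.range M, ∑ j ∈ Finset.range M, (c i * (starRingEnd ℂ) (c j)) *
        ee ((sh k : ℝ) * (tt M i j : ℕ) / M) := by
    intro k _
    rw [Complex.ofReal_pow, ← Complex.mul_conj', map_sum, Finset.sum_mul_sum]
    refine Finset.sum_congr rfl fun i _ => Finset.sum_congr rfl fun j hj => ?_
    rw [← ee_tt (Finset.mem_range.1 hj), map_mul]
    ring
  rw [Complex.ofReal_sum, Finset.sum_congr rfl h1, Finset.sum_comm]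
  refine Finset.sum_congr rfl fun i _ => ?_
  rw [Finset.sum_comm]
  refine Finset.sum_congr rfl fun j _ => ?_
  rw [Finset.mul_sum]

/-- the main estimate -/
lemma main (κ : Finset ℕ) (sh : ℕ → ℕ) (M G : ℕ) (w B : ℝ) (c : ℕ → ℂ) (Y : ℕ → ℝ)
    (hw : 0 ≤ w) (hB : 0 ≤ B) (hY : ∀ j, 0 ≤ Y j) (hc : ∀ j < M, ‖c j‖ ≤ B * Y j)
    (hG : ((Finset.range M).filter
      (fun t : ℕ => w < ‖∑ k ∈ κ, ee ((sh k : ℝ) * t / M)‖)).card ≤ G) :
    ∑ k ∈ κ, ‖∑ j ∈ Finset.range M, c j * ee ((sh k : ℝ) * j / M)‖ ^ 2 ≤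
      w * (∑ j ∈ Finset.range M, ‖c j‖) ^ 2 +
        (κ.card : ℝ) * B ^ 2 * G * ∑ j ∈ Finset.range M, Y j ^ 2 := by
  classical
  set W : ℕ → ℂ := fun t => ∑ k ∈ κ, ee ((sh k : ℝ) * t / M) with hW
  set P : ℕ → Prop := fun t => w < ‖W t‖ with hP
  have hWk : ∀ t, ‖W t‖ ≤ κ.card := by
    intro t
    refine (norm_sum_le _ _).trans ?_
    simp only [norm_ee]
    simp
  have hWb : ∀ t, ‖W t‖ ≤ w + if P t then (κ.card : ℝ) else 0 := by
    intro t
    by_cases h : P t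
    · rw [if_pos h]
      linarith [hWk t]
    · rw [if_neg h]
      have := not_lt.1 h
      linarith
  have h0 : ∑ k ∈ κ, ‖∑ j ∈ Finset.range M, c j * ee ((sh k : ℝ) * j / M)‖ ^ 2 ≤
      ∑ i ∈ Finset.range M, ∑ j ∈ Finset.range M, (‖c i‖ * ‖c j‖) * ‖W (tt M i j)‖ := by
    have hn : 0 ≤ ∑ k ∈ κ, ‖∑ j ∈ Finset.range M, c j * ee ((sh k : ℝ) * j / M)‖ ^ 2 :=
      Finset.sum_nonneg fun _ _ => by positivity
    have e := sq_sum κ sh M c
    have e2 : ∑ k ∈ κ, ‖∑ j ∈ Finset.range M, c j * ee ((sh k : ℝ) * j / M)‖ ^ 2 =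
        ‖((∑ k ∈ κ, ‖∑ j ∈ Finset.range M, c j * ee ((sh k : ℝ) * j / M)‖ ^ 2 : ℝ) : ℂ)‖ := by
      rw [Complex.norm_real, Real.norm_of_nonneg hn]
    rw [e2, e]
    refine (norm_sum_le _ _).trans (Finset.sum_le_sum fun i _ => ?_)
    refine (norm_sum_le _ _).trans (Finset.sum_le_sum fun j _ => ?_)
    rw [norm_mul, norm_mul, RCLike.norm_conj]
  refine h0.trans ?_
  have h1 : ∀ i ∈ Finset.range M, ∀ j ∈ Finset.range M,
      (‖c i‖ * ‖c j‖) * ‖W (tt M i j)‖ ≤ w * (‖c i‖ * ‖c j‖) +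
        ((κ.card : ℝ) * B ^ 2 / 2 * (if P (tt M i j) then Y i ^ 2 else 0) +
          (κ.card : ℝ) * B ^ 2 / 2 * (if P (tt M i j) then Y j ^ 2 else 0)) := by
    intro i hi j hj
    have a1 : 0 ≤ ‖c i‖ * ‖c j‖ := by positivity
    have a2 := mul_le_mul_of_nonneg_left (hWb (tt M i j)) a1
    have a3 : ‖c i‖ * ‖c j‖ ≤ B ^ 2 * (Y i * Y j) := by
      have := mul_le_mul (hc i (Finset.mem_range.1 hi)) (hc j (Finset.mem_range.1 hj))
        (norm_nonneg _) (mul_nonneg hB (hY i))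
      nlinarith
    by_cases h : P (tt M i j)
    · simp only [if_pos h] at a2 ⊢
      have a4 : ‖c i‖ * ‖c j‖ * (κ.card : ℝ) ≤ (κ.card : ℝ) * B ^ 2 / 2 * (Y i ^ 2 + Y j ^ 2) := by
        have b1 : Y i * Y j ≤ (Y i ^ 2 + Y j ^ 2) / 2 := by nlinarith [sq_nonneg (Y i - Y j)]
        have b2 : B ^ 2 * (Y i * Y j) ≤ B ^ 2 * ((Y i ^ 2 + Y j ^ 2) / 2) :=
          mul_le_mul_of_nonneg_left b1 (by positivity)
        have b3 := mul_le_mul_of_nonneg_right (a3.trans b2) (Nat.cast_nonneg (α := ℝ) κ.card)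
        linarith
      linarith
    · simp only [if_neg h] at a2 ⊢
      linarith
  have h2 : ∑ i ∈ Finset.range M, ∑ j ∈ Finset.range M, (‖c i‖ * ‖c j‖) * ‖W (tt M i j)‖ ≤
      ∑ i ∈ Finset.range M, ∑ j ∈ Finset.range M, (w * (‖c i‖ * ‖c j‖) +
        ((κ.card : ℝ) * B ^ 2 / 2 * (if P (tt M i j) then Y i ^ 2 else 0) +
          (κ.card : ℝ) * B ^ 2 / 2 * (if P (tt M i j) then Y j ^ 2 else 0))) :=
    Finset.sum_le_sum fun i hi => Finset.sum_le_sum fun j hj => h1 i hi j hj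
  refine h2.trans ?_
  simp only [Finset.sum_add_distrib, ← Finset.mul_sum]
  have h3 : ∑ i ∈ Finset.range M, ∑ j ∈ Finset.range M, (‖c i‖ * ‖c j‖) =
      (∑ j ∈ Finset.range M, ‖c j‖) ^ 2 := by
    rw [sq, Finset.sum_mul_sum]
  have h4 : ∑ i ∈ Finset.range M, ∑ j ∈ Finset.range M,
      (if P (tt M i j) then Y i ^ 2 else 0) ≤ G * ∑ j ∈ Finset.range M, Y j ^ 2 := by
    rw [Finset.mul_sum]
    refine Finset.sum_le_sum fun i hi => ?_
    rw [← Finset.sum_filter, Finset.sum_const, nsmul_eq_mul]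
    refine mul_le_mul_of_nonneg_right ?_ (by positivity)
    have := (card_right (Finset.mem_range.1 hi) P).trans hG
    exact_mod_cast this
  have h5 : ∑ i ∈ Finset.range M, ∑ j ∈ Finset.range M,
      (if P (tt M i j) then Y j ^ 2 else 0) ≤ G * ∑ j ∈ Finset.range M, Y j ^ 2 := by
    rw [Finset.sum_comm, Finset.mul_sum]
    refine Finset.sum_le_sum fun j hj => ?_
    rw [← Finset.sum_filter, Finset.sum_const, nsmul_eq_mul]
    refine mul_le_mul_of_nonneg_right ?_ (by positivity)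
    have := (card_left (Finset.mem_range.1 hj) P).trans hG
    exact_mod_cast this
  have h6 : 0 ≤ (κ.card : ℝ) * B ^ 2 / 2 := by positivity
  have h7 := mul_le_mul_of_nonneg_left h4 h6
  have h8 := mul_le_mul_of_nonneg_left h5 h6
  have h3' : ∑ i ∈ Finset.range M, (‖c i‖ * ∑ j ∈ Finset.range M, ‖c j‖) =
      (∑ j ∈ Finset.range M, ‖c j‖) ^ 2 := by
    rw [sq, Finset.sum_mul]
  rw [h3']
  linarith

end IQ4

open IQ4 in
/-- item Q4 -/
theorem prQ4 (h2 : tsQ2) (h3 : tsQ3) : tsQ4 := by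
  intro κ sh u v N H M G w B hM hsh hw hB hG
  have hM0 : 0 < M := by omega
  have hMr : (0 : ℝ) < M := by exact_mod_cast hM0
  set a : ℕ → ℂ := fun j => SS u N ((j : ℝ) / M) with ha
  set b : ℕ → ℂ := fun j => SS v (N + H) ((j : ℝ) / M) with hb
  set c : ℕ → ℂ := fun j => a j * (starRingEnd ℂ) (b j) with hc
  have hU : ∑ j ∈ Finset.range M, ‖a j‖ ^ 2 = (M : ℝ) * ∑ n ∈ Finset.Icc 1 N, u n ^ 2 :=
    h2 u N M (by omega)
  have hV : ∑ j ∈ Finset.range M, ‖b j‖ ^ 2 = (M : ℝ) * ∑ n ∈ Finset.Icc 1 (N + H), v n ^ 2 :=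
    h2 v (N + H) M hM
  have hcn : ∀ j, ‖c j‖ = ‖a j‖ * ‖b j‖ := by
    intro j
    simp only [hc]
    rw [norm_mul, RCLike.norm_conj]
  -- the sum of the squares
  have hcor : ∑ k ∈ κ, cor u v N (sh k) ^ 2 =
      (1 / (M : ℝ) ^ 2) *
        ∑ k ∈ κ, ‖∑ j ∈ Finset.range M, c j * ee ((sh k : ℝ) * j / M)‖ ^ 2 := by
    rw [Finset.mul_sum]
    refine Finset.sum_congr rfl fun k hk => ?_
    have e := h3 u v N H M (sh k) hM (hsh k hk)
    have e1 : cor u v N (sh k) ^ 2 = ‖((cor u v N (sh k) : ℝ) : ℂ)‖ ^ 2 := by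
      rw [Complex.norm_real, Real.norm_eq_abs, sq_abs]
    rw [e1, e, norm_mul, mul_pow, norm_div, norm_one, Complex.norm_natCast, div_pow, one_pow]
  have hCS : (∑ j ∈ Finset.range M, ‖c j‖) ^ 2 ≤
      ((M : ℝ) * ∑ n ∈ Finset.Icc 1 N, u n ^ 2) *
        ((M : ℝ) * ∑ n ∈ Finset.Icc 1 (N + H), v n ^ 2) := by
    rw [← hU, ← hV]
    simp only [hcn]
    exact Finset.sum_mul_sq_le_sq_mul_sq _ _ _
  have hfin : ∀ Y : ℕ → ℝ, (∀ j, 0 ≤ Y j) → (∀ j < M, ‖c j‖ ≤ B * Y j) → ∀ Z : ℝ,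
      ∑ j ∈ Finset.range M, Y j ^ 2 = (M : ℝ) * Z →
      ∑ k ∈ κ, cor u v N (sh k) ^ 2 ≤
      w * (∑ n ∈ Finset.Icc 1 N, u n ^ 2) * (∑ n ∈ Finset.Icc 1 (N + H), v n ^ 2) +
      (κ.card : ℝ) * B ^ 2 * ((G : ℝ) / M) * Z := by
    intro Y hY0 hY Z hZ
    have hm := main κ sh M G w B c Y hw hB hY0 hY hG
    rw [hcor]
    have hm2 := hm.trans (add_le_add (mul_le_mul_of_nonneg_left hCS hw) le_rfl)
    rw [hZ] at hm2
    have hm3 := mul_le_mul_of_nonneg_left hm2 (by positivity : (0 : ℝ) ≤ 1 / (M : ℝ) ^ 2)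
    refine hm3.trans (le_of_eq ?_)
    field_simp
  constructor
  · intro hb1
    refine hfin (fun j => ‖b j‖) (fun j => norm_nonneg _) ?_ _ hV
    intro j hj
    rw [hcn]
    exact mul_le_mul_of_nonneg_right (hb1 j hj) (norm_nonneg _)
  · intro hb1
    refine hfin (fun j => ‖a j‖) (fun j => norm_nonneg _) ?_ _ hU
    intro j hj
    rw [hcn, mul_comm]
    exact mul_le_mul_of_nonneg_right (hb1 j hj) (norm_nonneg _)

end Pool.Agent.Work.MP_122e00_nt.TS
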