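import Mathlib
import Pool.Agent.Work.MP_122e00_nt.TS.Stmts1

set_option autoImplicit false

/-! # Item W1 of the block TS: Weyl in degree one -/

namespace Pool.Agent.Work.MP_122e00_nt.TS

open Finset Filter Topology ArithmeticFunction
open scoped ArithmeticFunction.zeta ArithmeticFunction.Moebius

namespace IW1

theorem ee_add (x y : ℝ) : ee (x + y) = ee x * ee y := by
  unfold ee
  rw [← Complex.exp_add]
  congr 1
  push_cast
  ring

theorem norm_ee (x : ℝ) : ‖ee x‖ = 1 := by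
  unfold ee
  exact Complex.norm_exp_ofReal_mul_I _

end IW1

theorem prW1 (h : tsGS) : tsW1 := by
  intro δ' hδ'
  refine ⟨δ', hδ', 1, ?_⟩
  intro K hK f hf A B _ hS
  obtain ⟨α, hα⟩ : ∃ α : ℝ, α = f.coeff 1 := ⟨_, rfl⟩
  have hev : ∀ x : ℝ, f.eval x = x * α + f.coeff 0 := by
    intro x
    rw [Polynomial.eval_eq_sum_range' (Nat.lt_succ_of_le hf) x, Finset.sum_range_succ,
      Finset.sum_range_one, pow_zero, pow_one, ← hα]
    ring
  have hsum : ∑ k ∈ Finset.Ioc A B, ee (f.eval (k : ℝ)) =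
      (∑ k ∈ Finset.Ioc A B, ee (k * α)) * ee (f.coeff 0) := by
    rw [Finset.sum_mul]
    refine Finset.sum_congr rfl fun k _ => ?_
    rw [hev, IW1.ee_add]
  have h1 := (h A B α).1
  rw [hsum, norm_mul, IW1.norm_ee, mul_one] at hS
  have hK0 : (0 : ℝ) < K := lt_of_lt_of_le one_pos hK
  have hnn : (0 : ℝ) ≤ nn α := abs_nonneg _
  have h2 : (K : ℝ) ^ (1 - δ') * nn α ≤ 1 / 2 :=
    le_trans (mul_le_mul_of_nonneg_right hS hnn) h1
  have h3 : (K : ℝ) ^ (δ' - 1) * (K : ℝ) ^ (1 - δ') = 1 := by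
    rw [← Real.rpow_add hK0]
    have : δ' - 1 + (1 - δ') = 0 := by ring
    rw [this, Real.rpow_zero]
  have h4 : (0 : ℝ) < (K : ℝ) ^ (δ' - 1) := Real.rpow_pos_of_pos hK0 _
  refine ⟨1, le_refl 1, ?_, round α, ?_⟩
  · rw [Nat.cast_one]
    exact Real.one_le_rpow hK hδ'.le
  · rw [Nat.cast_one, one_mul, ← hα]
    show nn α ≤ _
    calc nn α = (K : ℝ) ^ (δ' - 1) * ((K : ℝ) ^ (1 - δ') * nn α) := by
          rw [← mul_assoc, h3, one_mul]
      _ ≤ (K : ℝ) ^ (δ' - 1) * (1 / 2) := mul_le_mul_of_nonneg_left h2 h4.le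
      _ ≤ (K : ℝ) ^ (δ' - 1) := by linarith

end Pool.Agent.Work.MP_122e00_nt.TS
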