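import Pool.Agent.Work.MP_122e00_nt.TS.Stmts1

set_option autoImplicit false

/-!
# Item W2: Weyl differencing
-/

namespace Pool.Agent.Work.MP_122e00_nt.TS

open Finset Filter Topology ArithmeticFunction
open scoped ArithmeticFunction.zeta ArithmeticFunction.Moebius ComplexConjugate

namespace IW2

theorem norm_ee (x : ℝ) : ‖ee x‖ = 1 := by
  unfold ee
  exact Complex.norm_exp_ofReal_mul_I _

theorem ee_mul_conj (x y : ℝ) : ee x * conj (ee y) = ee (x - y) := by
  unfold ee
  rw [← Complex.exp_conj, ← Complex.exp_add]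
  congr 1
  rw [map_mul, Complex.conj_I, Complex.conj_ofReal]
  push_cast
  ring

/-- the part above the diagonal, ordered by the difference -/
theorem upper (f : ℕ → ℝ) (K A B : ℕ) (h : B ≤ A + K) :
    ∑ p ∈ (Finset.Ioc A B ×ˢ Finset.Ioc A B).filter (fun p => p.2 < p.1), ee (f p.1 - f p.2) =
      ∑ h ∈ Finset.Icc 1 K, ∑ k ∈ Finset.Ioc A (B - h), ee (f (k + h) - f k) := by
  rw [Finset.sum_sigma']
  refine Finset.sum_nbij' (fun p => ⟨p.1 - p.2, p.2⟩) (fun q => (q.2 + q.1, q.2)) ?_ ?_ ?_ ?_ ?_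
  · rintro ⟨a, b⟩ hp
    simp only [Finset.mem_filter, Finset.mem_product, Finset.mem_Ioc, Finset.mem_sigma,
      Finset.mem_Icc] at hp ⊢
    omega
  · rintro ⟨a, b⟩ hp
    simp only [Finset.mem_filter, Finset.mem_product, Finset.mem_Ioc, Finset.mem_sigma,
      Finset.mem_Icc] at hp ⊢
    omega
  · rintro ⟨a, b⟩ hp
    simp only [Finset.mem_filter, Finset.mem_product, Finset.mem_Ioc] at hp
    have : b + (a - b) = a := by omega
    simp [this]
  · rintro ⟨a, b⟩ hp
    simp
  · rintro ⟨a, b⟩ hp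
    simp only [Finset.mem_filter, Finset.mem_product, Finset.mem_Ioc] at hp
    have : b + (a - b) = a := by omega
    simp [this]

end IW2

open IW2 in
theorem prW2 : tsW2 := by
  intro f K A B hB
  set I := Finset.Ioc A B with hI
  set S := ∑ k ∈ I, ee (f k) with hS
  have h0 : ((‖S‖ ^ 2 : ℝ) : ℂ) = ∑ p ∈ I ×ˢ I, ee (f p.1 - f p.2) := by
    rw [Finset.sum_product, ← Complex.normSq_eq_norm_sq, ← Complex.mul_conj, hS, map_sum,
      Finset.sum_mul_sum]
    refine Finset.sum_congr rfl fun a _ => Finset.sum_congr rfl fun b _ => ?_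
    rw [ee_mul_conj]
  set U := ∑ p ∈ (I ×ˢ I).filter (fun p => p.2 < p.1), ee (f p.1 - f p.2) with hU
  have hL : ∑ p ∈ (I ×ˢ I).filter (fun p => p.1 < p.2), ee (f p.1 - f p.2) = conj U := by
    rw [hU, map_sum]
    refine Finset.sum_nbij' Prod.swap Prod.swap ?_ ?_ ?_ ?_ ?_
    · rintro ⟨a, b⟩ hp
      simp only [Finset.mem_filter, Finset.mem_product, Prod.swap] at hp ⊢
      tauto
    · rintro ⟨a, b⟩ hp
      simp only [Finset.mem_filter, Finset.mem_product, Prod.swap] at hp ⊢
      tauto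
    · rintro ⟨a, b⟩ _
      rfl
    · rintro ⟨a, b⟩ _
      rfl
    · rintro ⟨a, b⟩ _
      simp only [Prod.swap]
      have h1 : ee (f a - f b) = ee (f a) * conj (ee (f b)) := (ee_mul_conj _ _).symm
      have h2 : ee (f b - f a) = ee (f b) * conj (ee (f a)) := (ee_mul_conj _ _).symm
      rw [h1, h2, map_mul, Complex.conj_conj]
      ring
  have hsplit : ∑ p ∈ I ×ˢ I, ee (f p.1 - f p.2) =
      ∑ p ∈ (I ×ˢ I).filter (fun p => p.1 = p.2), ee (f p.1 - f p.2) + (U + conj U) := by
    rw [← hL, hU, ← Finset.sum_filter_add_sum_filter_not (I ×ˢ I) (fun p => p.1 = p.2)]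
    congr 1
    rw [← Finset.sum_filter_add_sum_filter_not ((I ×ˢ I).filter (fun p => ¬ p.1 = p.2))
      (fun p => p.2 < p.1), Finset.filter_filter, Finset.filter_filter]
    congr 1
    · refine Finset.sum_congr (Finset.filter_congr fun p _ => ?_) fun _ _ => rfl
      constructor
      · rintro ⟨_, h⟩
        exact h
      · intro h
        exact ⟨by omega, h⟩
    · refine Finset.sum_congr (Finset.filter_congr fun p _ => ?_) fun _ _ => rfl
      constructor
      · rintro ⟨h1, h2⟩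
        omega
      · intro h
        exact ⟨by omega, by omega⟩
  have hdiag : ‖∑ p ∈ (I ×ˢ I).filter (fun p => p.1 = p.2), ee (f p.1 - f p.2)‖ ≤ K := by
    refine (norm_sum_le _ _).trans ?_
    simp only [norm_ee, Finset.sum_const, nsmul_eq_mul, mul_one]
    have hc : ((I ×ˢ I).filter (fun p => p.1 = p.2)).card ≤ I.card := by
      refine Finset.card_le_card_of_injOn Prod.fst ?_ ?_
      · rintro ⟨a, b⟩ hp
        have hp' := (Finset.mem_filter.1 (Finset.mem_coe.1 hp)).1
        exact Finset.mem_coe.2 (Finset.mem_product.1 hp').1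
      · rintro ⟨a, b⟩ hp ⟨c, d⟩ hq hcd
        have hp' := (Finset.mem_filter.1 (Finset.mem_coe.1 hp)).2
        have hq' := (Finset.mem_filter.1 (Finset.mem_coe.1 hq)).2
        simp only at hp' hq' hcd
        rw [← hp', ← hq', hcd]
    have hc2 : I.card ≤ K := by
      rw [hI, Nat.card_Ioc]
      omega
    exact_mod_cast hc.trans hc2
  have hUn : ‖U‖ ≤ ∑ h ∈ Finset.Icc 1 K, ‖∑ k ∈ Finset.Ioc A (B - h), ee (f (k + h) - f k)‖ := by
    rw [hU, hI, upper f K A B hB]
    exact norm_sum_le _ _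
  have hfin : ‖S‖ ^ 2 = ‖((‖S‖ ^ 2 : ℝ) : ℂ)‖ := by
    rw [Complex.norm_real, Real.norm_of_nonneg (by positivity)]
  rw [hfin, h0, hsplit]
  refine (norm_add_le _ _).trans ?_
  refine add_le_add hdiag ?_
  refine (norm_add_le _ _).trans ?_
  rw [Complex.norm_conj]
  linarith

end Pool.Agent.Work.MP_122e00_nt.TS
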