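import Mathlib
import Pool.Agent.Work.MP_122e00_nt.TS.Stmts1

/-!
# Thin shifts: item W3 (helper56)
-/

namespace Pool.Agent.Work.MP_122e00_nt.TS

open Finset

namespace IW3

lemma nn_le (x : ℝ) (m : ℤ) : nn x ≤ |x - m| := round_le x m

lemma round_eq_of (x : ℝ) (m : ℤ) (h : |x - m| < 1 / 2) : round x = m := by
  rw [abs_lt] at h
  rw [round_eq, Int.floor_eq_iff]
  constructor <;> linarith [h.1, h.2]

/-- the elements of `[1, N]` in one residue class modulo `q` -/
lemma card_class (q N : ℕ) (hq : 1 ≤ q) (T : Finset ℕ) (hT : T ⊆ Finset.Icc 1 N)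
    (hc : ∀ h ∈ T, ∀ h' ∈ T, (q : ℤ) ∣ (h : ℤ) - h') : T.card ≤ N / q + 1 := by
  have h1 : T.card ≤ (Finset.range (N / q + 1)).card := by
    refine Finset.card_le_card_of_injOn (fun h => h / q) ?_ ?_
    · intro h hh
      have := (Finset.mem_Icc.1 (hT hh)).2
      simp only [Finset.coe_range, Set.mem_Iio]
      exact Nat.lt_succ_of_le (Nat.div_le_div_right this)
    · intro h hh h' hh' he
      have hd := hc h hh h' hh'
      have hm : h % q = h' % q := by
        have : (h : ℤ) ≡ h' [ZMOD q] := by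
          rw [Int.modEq_iff_dvd]
          have h2 := (dvd_neg).2 hd
          rwa [neg_sub] at h2
        exact_mod_cast this
      have e1 := Nat.div_add_mod h q
      have e2 := Nat.div_add_mod h' q
      simp only at he
      rw [← e1, ← e2, he, hm]
  simpa using h1

end IW3

open IW3 in
theorem prW3 : tsW3 := by
  intro β κ ε N hN hκ hκ1 hε hεκ hS
  classical
  have hN0 : (0 : ℝ) < N := by exact_mod_cast hN
  obtain ⟨w, hw, hwd⟩ := Real.exists_rat_abs_sub_le_and_den_le β (n := 2 * N) (by omega)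
  set q : ℕ := w.den with hqdef
  set a : ℤ := w.num with hadef
  have hq1 : 1 ≤ q := w.den_pos
  have hq0 : (0 : ℝ) < q := by exact_mod_cast hq1
  have hwq : (w : ℝ) = (a : ℝ) / q := by
    rw [hqdef, hadef]
    exact_mod_cast (Rat.num_div_den w).symm
  have hcop : IsCoprime (q : ℤ) a := by
    have := w.isCoprime_num_den
    exact this.symm
  rw [hwq] at hw
  -- the basic estimate
  have hbase : ∀ h : ℕ, h ≤ N → |β * h - a * h / q| ≤ 1 / (2 * q) - (1 / (2 * q) - (N : ℝ) / ((2 * N + 1) * q)) := by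
    intro h hh
    have h1 : β * h - a * h / q = (β - a / q) * h := by ring
    rw [h1, abs_mul, Nat.abs_cast]
    have h2 : |β - a / q| * h ≤ 1 / ((((2 * N : ℕ) : ℝ) + 1) * q) * N := by
      have hh' : (h : ℝ) ≤ N := by exact_mod_cast hh
      exact mul_le_mul hw hh' (by positivity) (by positivity)
    calc |β - a / q| * h ≤ 1 / ((((2 * N : ℕ) : ℝ) + 1) * q) * N := h2
      _ = 1 / (2 * q) - (1 / (2 * q) - (N : ℝ) / ((2 * N + 1) * q)) := by
        push_cast
        ring
  have hlt : (N : ℝ) / ((2 * N + 1) * q) < 1 / (2 * q) := by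
    rw [div_lt_div_iff₀ (by positivity) (by positivity)]
    nlinarith
  set S : Finset ℕ := (Finset.Icc 1 N).filter (fun h => nn (β * (h : ℕ)) ≤ ε) with hSdef
  have hbase' : ∀ h : ℕ, h ≤ N → |β * h - a * h / q| < 1 / (2 * q) := by
    intro h hh
    have := hbase h hh
    linarith
  -- counting
  set L : ℤ := ⌊(q : ℝ) * ε + 1 / 2⌋ with hLdef
  have hL0 : 0 ≤ L := by
    rw [hLdef]
    exact Int.floor_nonneg.2 (by positivity)
  have hLle : (L : ℝ) ≤ q * ε + 1 / 2 := Int.floor_le _
  let f : ℕ → ℤ := fun h => a * h - q * round (β * h)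
  have himg : S.image f ⊆ Finset.Icc (-L) L := by
    intro y hy
    obtain ⟨h, hh, rfl⟩ := Finset.mem_image.1 hy
    rw [hSdef, Finset.mem_filter, Finset.mem_Icc] at hh
    obtain ⟨⟨hh1, hh2⟩, hh3⟩ := hh
    have hb := hbase' h hh2
    have h3 : |(f h : ℝ)| ≤ q * ε + 1 / 2 := by
      have e1 : ((f h : ℤ) : ℝ) = q * ((β * h - round (β * h)) - (β * h - a * h / q)) := by
        simp only [f]
        push_cast
        field_simp
        ring
      rw [e1, abs_mul, Nat.abs_cast]
      have h4 : |(β * h - round (β * h)) - (β * h - a * h / q)| ≤ ε + 1 / (2 * q) := by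
        refine (abs_sub _ _).trans ?_
        have : |β * h - round (β * h)| ≤ ε := hh3
        linarith
      calc (q : ℝ) * |(β * h - round (β * h)) - (β * h - a * h / q)|
          ≤ q * (ε + 1 / (2 * q)) := mul_le_mul_of_nonneg_left h4 hq0.le
        _ = q * ε + 1 / 2 := by field_simp
    have h5 : |f h| ≤ L := by
      rw [hLdef, Int.le_floor]
      push_cast
      exact h3
    rw [Finset.mem_Icc]
    exact abs_le.1 h5
  have hfib : ∀ y ∈ S.image f, (S.filter (fun h => f h = y)).card ≤ N / q + 1 := by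
    intro y _
    refine card_class q N hq1 _ ?_ ?_
    · intro h hh
      rw [Finset.mem_filter, hSdef, Finset.mem_filter] at hh
      exact hh.1.1
    · intro h hh h' hh'
      have e1 := (Finset.mem_filter.1 hh).2
      have e2 := (Finset.mem_filter.1 hh').2
      have e3 : f h = f h' := e1.trans e2.symm
      have e4 : a * ((h : ℤ) - h') = q * (round (β * h) - round (β * h')) := by
        simp only [f] at e3
        linarith
      have e5 : (q : ℤ) ∣ a * ((h : ℤ) - h') := ⟨_, e4⟩
      exact hcop.dvd_of_dvd_mul_left e5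
  have hcard : S.card ≤ (N / q + 1) * (S.image f).card :=
    Finset.card_le_mul_card_image _ _ hfib
  have hcimg : ((S.image f).card : ℝ) ≤ 2 * q * ε + 2 := by
    have h1 := Finset.card_le_card himg
    rw [Int.card_Icc] at h1
    have h2 : ((L + 1 - -L).toNat : ℝ) = 2 * L + 1 := by
      have : ((L + 1 - -L).toNat : ℤ) = 2 * L + 1 := by omega
      exact_mod_cast this
    have h3 : ((S.image f).card : ℝ) ≤ ((L + 1 - -L).toNat : ℝ) := by exact_mod_cast h1
    rw [h2] at h3
    linarith
  have hfl : (((N / q + 1 : ℕ)) : ℝ) ≤ 3 * N / q := by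
    have h1 : ((N / q : ℕ) : ℝ) ≤ N / q := Nat.cast_div_le
    have h2 : (1 : ℝ) ≤ 2 * N / q := by
      rw [le_div_iff₀ hq0, one_mul]
      exact_mod_cast hwd
    push_cast
    have h3 : 3 * (N : ℝ) / q = N / q + 2 * N / q := by ring
    rw [h3]
    linarith
  have hmain : κ * N ≤ (3 * N / q) * (2 * q * ε + 2) := by
    calc κ * N ≤ (S.card : ℝ) := hS
      _ ≤ (((N / q + 1 : ℕ)) : ℝ) * ((S.image f).card : ℝ) := by exact_mod_cast hcard
      _ ≤ (3 * N / q) * (2 * q * ε + 2) := by
        refine mul_le_mul hfl hcimg (by positivity) (by positivity)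
  have hκq : κ * q ≤ 6 * q * ε + 6 := by
    have e1 : (3 * (N : ℝ) / q) * (2 * q * ε + 2) = N * ((6 * q * ε + 6) / q) := by
      field_simp
      ring
    rw [e1, mul_comm κ] at hmain
    have h2 := le_of_mul_le_mul_left hmain hN0
    rwa [le_div_iff₀ hq0] at h2
  have hqκ : (q : ℝ) * κ ≤ 12 := by
    have : (q : ℝ) * ε ≤ q * (κ / 25) := mul_le_mul_of_nonneg_left hεκ hq0.le
    nlinarith
  have hq12 : (q : ℝ) ≤ 12 / κ := by
    rw [le_div_iff₀ hκ]
    exact hqκ
  have hεq : ε < 1 / (2 * q) := by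
    rw [lt_div_iff₀ (by positivity)]
    have : (q : ℝ) * ε ≤ q * (κ / 25) := mul_le_mul_of_nonneg_left hεκ hq0.le
    nlinarith
  -- all elements of `S` are multiples of `q`
  have hmul : ∀ h ∈ S, q ∣ h ∧ |β - a / q| * h ≤ ε := by
    intro h hh
    rw [hSdef, Finset.mem_filter, Finset.mem_Icc] at hh
    obtain ⟨⟨hh1, hh2⟩, hh3⟩ := hh
    have hb := hbase' h hh2
    have hdvd : q ∣ h := by
      by_contra hnd
      have hne : f h ≠ 0 := by
        intro h0
        apply hnd
        have e5 : (q : ℤ) ∣ a * (h : ℤ) := ⟨round (β * h), by simp only [f] at h0; linarith⟩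
        exact_mod_cast hcop.dvd_of_dvd_mul_left e5
      have h1 : (1 : ℝ) ≤ |(f h : ℝ)| := by
        exact_mod_cast Int.one_le_abs hne
      have e1 : ((f h : ℤ) : ℝ) = q * ((β * h - round (β * h)) - (β * h - a * h / q)) := by
        simp only [f]
        push_cast
        field_simp
        ring
      rw [e1, abs_mul, Nat.abs_cast] at h1
      have h4 : |(β * h - round (β * h)) - (β * h - a * h / q)| < 1 / (2 * q) + 1 / (2 * q) := by
        refine (abs_sub _ _).trans_lt ?_
        have : |β * h - round (β * h)| ≤ ε := hh3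
        linarith
      have h5 : (q : ℝ) * |(β * h - round (β * h)) - (β * h - a * h / q)| <
          q * (1 / (2 * q) + 1 / (2 * q)) := mul_lt_mul_of_pos_left h4 hq0
      have h6 : (q : ℝ) * (1 / (2 * q) + 1 / (2 * q)) = 1 := by
        field_simp
        norm_num
      linarith
    refine ⟨hdvd, ?_⟩
    obtain ⟨k, rfl⟩ := hdvd
    have e1 : (a : ℝ) * ((q * k : ℕ) : ℝ) / q = ((a * k : ℤ) : ℝ) := by
      push_cast
      field_simp
    rw [e1] at hb
    have hhalf : (1 : ℝ) / (2 * q) ≤ 1 / 2 := by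
      have : (1 : ℝ) ≤ q := by exact_mod_cast hq1
      rw [div_le_div_iff₀ (by positivity) (by positivity)]
      linarith
    have hr := round_eq_of _ _ (hb.trans_le hhalf)
    have h3 : |β * ((q * k : ℕ) : ℝ) - round (β * ((q * k : ℕ) : ℝ))| ≤ ε := hh3
    rw [hr] at h3
    have e2 : β * ((q * k : ℕ) : ℝ) - ((a * k : ℤ) : ℝ) = (β - a / q) * ((q * k : ℕ) : ℝ) := by
      rw [← e1]
      ring
    rw [e2, abs_mul, Nat.abs_cast] at h3
    exact h3
  -- the largest element
  have hSpos : 0 < S.card := by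
    have : (0 : ℝ) < S.card := lt_of_lt_of_le (by positivity) hS
    exact_mod_cast this
  have hSne : S.Nonempty := Finset.card_pos.1 hSpos
  set H : ℕ := S.max' hSne with hHdef
  have hHS : H ∈ S := S.max'_mem hSne
  have hsub : S ⊆ (Finset.Ioc 0 H).filter (fun x => q ∣ x) := by
    intro h hh
    rw [Finset.mem_filter, Finset.mem_Ioc]
    refine ⟨⟨?_, S.le_max' h hh⟩, (hmul h hh).1⟩
    have := hh
    rw [hSdef, Finset.mem_filter, Finset.mem_Icc] at this
    omega
  have hcH : S.card ≤ H / q := by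
    have := Finset.card_le_card hsub
    rwa [Nat.Ioc_filter_dvd_card_eq_div] at this
  have hcH' : (S.card : ℝ) * q ≤ H := by
    have h1 : S.card * q ≤ H := (Nat.le_div_iff_mul_le hq1).1 hcH
    exact_mod_cast h1
  have hHbig : κ * N * q ≤ H := (mul_le_mul_of_nonneg_right hS hq0.le).trans hcH'
  have hfin := (hmul H hHS).2
  refine ⟨q, hq1, hq12, a, ?_⟩
  have e3 : (q : ℝ) * β - a = q * (β - a / q) := by field_simp
  rw [e3, abs_mul, Nat.abs_cast, le_div_iff₀ (by positivity)]
  calc (q : ℝ) * |β - a / q| * (κ * N) = |β - a / q| * (κ * N * q) := by ring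
    _ ≤ |β - a / q| * H := mul_le_mul_of_nonneg_left hHbig (abs_nonneg _)
    _ ≤ ε := hfin

end Pool.Agent.Work.MP_122e00_nt.TS
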