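import Pool.Agent.Work.MP_122e00_nt.TS.Stmts1

/-!
# Thin shifts, item W5 (helper37): Weyl's inequality for the multiples of an integer polynomial
-/

namespace Pool.Agent.Work.MP_122e00_nt.TS

open Finset Filter Topology ArithmeticFunction
open scoped ArithmeticFunction.zeta ArithmeticFunction.Moebius

namespace IW5

theorem weyl_all (h1 : tsW1) (h4 : tsW4) : ∀ d : ℕ, WeylP (d + 1)
  | 0 => h1
  | d + 1 => h4 (d + 1) (Nat.le_add_left 1 d) (weyl_all h1 h4 d)

end IW5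

theorem prW5 (h1 : tsW1) (h4 : tsW4) : tsW5 := by
  intro F hd hL δ' hδ'
  have hW : WeylP F.natDegree := by
    have := IW5.weyl_all h1 h4 (F.natDegree - 1)
    rwa [Nat.sub_add_cancel hd] at this
  obtain ⟨δ, hδ, K0, hK0⟩ := hW (δ' / 2) (by linarith)
  obtain ⟨L, hLe⟩ : ∃ L : ℕ, (L : ℤ) = F.leadingCoeff :=
    ⟨F.leadingCoeff.toNat, Int.toNat_of_nonneg hL.le⟩
  have hL1 : 1 ≤ L := by
    have : (0 : ℤ) < L := by rw [hLe]; exact hL
    exact_mod_cast this
  have htend : Tendsto (fun K : ℝ => K ^ (δ' / 2)) atTop atTop := tendsto_rpow_atTop (by linarith)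
  obtain ⟨K1, hK1⟩ := eventually_atTop.1 (htend.eventually_ge_atTop (L : ℝ))
  refine ⟨δ, hδ, max K0 (max K1 1), ?_⟩
  intro K hK γ A hsum
  have hKa : K0 ≤ (K : ℝ) := (le_max_left _ _).trans hK
  have hKb : K1 ≤ (K : ℝ) := ((le_max_left _ _).trans (le_max_right _ _)).trans hK
  have hKc : (1 : ℝ) ≤ (K : ℝ) := ((le_max_right _ _).trans (le_max_right _ _)).trans hK
  have hKpos : (0 : ℝ) < (K : ℝ) := by linarith
  set f : Polynomial ℝ := Polynomial.C γ * F.map (Int.castRingHom ℝ) with hf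
  have hfd : f.natDegree ≤ F.natDegree :=
    (Polynomial.natDegree_C_mul_le _ _).trans Polynomial.natDegree_map_le
  have hfe : ∀ k : ℕ, f.eval (k : ℝ) = γ * ((F.eval (k : ℤ) : ℤ) : ℝ) := by
    intro k
    rw [hf, Polynomial.eval_mul, Polynomial.eval_C]
    congr 1
    have h := Polynomial.eval_intCast_map (Int.castRingHom ℝ) F (k : ℤ)
    simpa using h
  have hfc : f.coeff F.natDegree = γ * (L : ℝ) := by
    rw [hf, Polynomial.coeff_C_mul, Polynomial.coeff_map]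
    congr 1
    have h : F.coeff F.natDegree = (L : ℤ) := by rw [hLe]; rfl
    rw [h]
    simp
  obtain ⟨q, hq1, hq2, m, hm⟩ := hK0 K hKa f hfd A K (Nat.le_add_left K A) (by
    simp only [hfe]
    exact hsum)
  rw [hfc] at hm
  have hLK := hK1 (K : ℝ) hKb
  have hq0 : (0 : ℝ) < (q : ℝ) := by exact_mod_cast hq1
  have hL0 : (0 : ℝ) < (L : ℝ) := by exact_mod_cast hL1
  refine ⟨q * L, Nat.mul_pos hq1 hL1, ?_, m, ?_⟩
  · push_cast
    calc (q : ℝ) * L ≤ (K : ℝ) ^ (δ' / 2) * (K : ℝ) ^ (δ' / 2) :=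
          mul_le_mul hq2 hLK hL0.le (by positivity)
      _ = (K : ℝ) ^ δ' := by rw [← Real.rpow_add hKpos, add_halves]
  · push_cast
    have h5 : γ - (m : ℝ) / ((q : ℝ) * L) = ((q : ℝ) * (γ * L) - m) / ((q : ℝ) * L) := by
      field_simp
    rw [h5, abs_div, abs_of_pos (mul_pos hq0 hL0)]
    have h6 : (1 : ℝ) ≤ (q : ℝ) * L := by exact_mod_cast Nat.mul_pos hq1 hL1
    calc |(q : ℝ) * (γ * L) - m| / ((q : ℝ) * L) ≤ |(q : ℝ) * (γ * L) - m| :=
          div_le_self (abs_nonneg _) h6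
      _ ≤ (K : ℝ) ^ (δ' / 2 - (F.natDegree : ℝ)) := hm
      _ ≤ (K : ℝ) ^ (δ' - (F.natDegree : ℝ)) :=
          Real.rpow_le_rpow_of_exponent_le hKc (by linarith)

end Pool.Agent.Work.MP_122e00_nt.TS
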