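import Mathlib
import Pool.Agent.Work.MP_122e00_nt.TS.Stmts1

set_option autoImplicit false

/-!
# Thin shifts, item W6: counting the `t` with `t/M` close to a fraction of small denominator
-/

namespace Pool.Agent.Work.MP_122e00_nt.TS

namespace IW6

/-- the number of natural numbers within `r` of `c` is at most `2 r + 1` -/
theorem card_near (M : ℕ) (c r : ℝ) (hr : 0 ≤ r) :
    (((Finset.range M).filter (fun t : ℕ => |(t : ℝ) - c| ≤ r)).card : ℝ) ≤ 2 * r + 1 := by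
  have h1 : ((Finset.range M).filter (fun t : ℕ => |(t : ℝ) - c| ≤ r)).card ≤
      (Finset.Icc ⌈c - r⌉ ⌊c + r⌋).card := by
    refine Finset.card_le_card_of_injOn (fun t : ℕ => (t : ℤ)) ?_ ?_
    · intro t ht
      rw [Finset.mem_coe, Finset.mem_filter] at ht
      obtain ⟨h1, h2⟩ := abs_le.1 ht.2
      rw [Finset.mem_coe, Finset.mem_Icc]
      exact ⟨Int.ceil_le.2 (by push_cast; linarith), Int.le_floor.2 (by push_cast; linarith)⟩
    · intro a _ b _ h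
      simpa using h
  have h2 : ((Finset.Icc ⌈c - r⌉ ⌊c + r⌋).card : ℝ) ≤ 2 * r + 1 := by
    rw [Int.card_Icc]
    rcases le_total (⌊c + r⌋ + 1 - ⌈c - r⌉) 0 with h | h
    · rw [Int.toNat_of_nonpos h]
      push_cast
      linarith
    · have h3 : ((⌊c + r⌋ + 1 - ⌈c - r⌉).toNat : ℝ) = ((⌊c + r⌋ + 1 - ⌈c - r⌉ : ℤ) : ℝ) := by
        exact_mod_cast congrArg (Int.cast : ℤ → ℝ) (Int.toNat_of_nonneg h)
      rw [h3]
      push_cast
      linarith [Int.floor_le (c + r), Int.le_ceil (c - r)]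
  exact le_trans (by exact_mod_cast h1) h2

/-- the same for `t/M` and a fraction -/
theorem card_frac (M : ℕ) (c ρ : ℝ) (hM : 1 ≤ M) (hρ : 0 ≤ ρ) :
    (((Finset.range M).filter (fun t : ℕ => |(t : ℝ) / M - c| ≤ ρ)).card : ℝ) ≤
      2 * ρ * M + 1 := by
  have hM' : (0 : ℝ) < M := by exact_mod_cast hM
  have h1 : (Finset.range M).filter (fun t : ℕ => |(t : ℝ) / M - c| ≤ ρ) ⊆
      (Finset.range M).filter (fun t : ℕ => |(t : ℝ) - c * M| ≤ ρ * M) := by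
    intro t ht
    rw [Finset.mem_filter] at ht ⊢
    refine ⟨ht.1, ?_⟩
    have h2 : (t : ℝ) - c * M = ((t : ℝ) / M - c) * M := by
      field_simp
    rw [h2, abs_mul, abs_of_pos hM']
    exact mul_le_mul_of_nonneg_right ht.2 hM'.le
  have h3 := card_near M (c * M) (ρ * M) (mul_nonneg hρ hM'.le)
  have h4 : (((Finset.range M).filter (fun t : ℕ => |(t : ℝ) / M - c| ≤ ρ)).card : ℝ) ≤
      (((Finset.range M).filter (fun t : ℕ => |(t : ℝ) - c * M| ≤ ρ * M)).card : ℝ) := by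
    exact_mod_cast Finset.card_le_card h1
  linarith

end IW6

open IW6

theorem prW6 : tsW6 := by
  intro M Q ρ hM hQ hρ0 hρ1
  classical
  have hM' : (0 : ℝ) < M := by exact_mod_cast hM
  have hQ0 : 0 ≤ Q := le_trans zero_le_one hQ
  obtain ⟨F, hF⟩ : ∃ F : ℕ → ℤ → Finset ℕ, F = fun (q : ℕ) (a : ℤ) =>
      (Finset.range M).filter (fun t : ℕ => |(t : ℝ) / M - (a : ℝ) / (q : ℝ)| ≤ ρ) := ⟨_, rfl⟩
  obtain ⟨T, hT⟩ : ∃ T : Finset ℕ, T = (Finset.Icc 1 ⌊Q⌋₊).biUnion (fun q =>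
      (Finset.Ico (-(q : ℤ)) (2 * (q : ℤ))).biUnion (fun a => F q a)) := ⟨_, rfl⟩
  have hsub : {t : ℕ | t < M ∧ ∃ q : ℕ, 1 ≤ q ∧ (q : ℝ) ≤ Q ∧ ∃ a : ℤ,
      |(t : ℝ) / M - a / q| ≤ ρ} ⊆ (T : Set ℕ) := by
    rintro t ⟨ht, q, hq1, hqQ, a, ha⟩
    rw [hT, Finset.mem_coe, Finset.mem_biUnion]
    refine ⟨q, Finset.mem_Icc.2 ⟨hq1, Nat.le_floor hqQ⟩, Finset.mem_biUnion.2 ⟨a, ?_, ?_⟩⟩
    · have hq : (0 : ℝ) < q := by exact_mod_cast hq1
      obtain ⟨h1, h2⟩ := abs_le.1 ha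
      have h3 : 0 ≤ (t : ℝ) / M := div_nonneg (Nat.cast_nonneg _) hM'.le
      have h4 : (t : ℝ) / M < 1 := by
        rw [div_lt_one hM']
        exact_mod_cast ht
      have h5 : (-1 : ℝ) ≤ (a : ℝ) / q := by linarith
      have h6 : (a : ℝ) / q < 2 := by linarith
      rw [le_div_iff₀ hq] at h5
      rw [div_lt_iff₀ hq] at h6
      rw [Finset.mem_Ico]
      constructor
      · have : ((-(q : ℤ) : ℤ) : ℝ) ≤ (a : ℝ) := by push_cast; linarith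
        exact_mod_cast this
      · have : (a : ℝ) < ((2 * (q : ℤ) : ℤ) : ℝ) := by push_cast; linarith
        exact_mod_cast this
    · rw [hF]
      exact Finset.mem_filter.2 ⟨Finset.mem_range.2 ht, ha⟩
  refine ⟨T.finite_toSet.subset hsub, ?_⟩
  have hc : 0 ≤ 2 * ρ * M + 1 := by positivity
  have h1 : (Set.ncard {t : ℕ | t < M ∧ ∃ q : ℕ, 1 ≤ q ∧ (q : ℝ) ≤ Q ∧ ∃ a : ℤ,
      |(t : ℝ) / M - a / q| ≤ ρ} : ℝ) ≤ (T.card : ℝ) := by
    have h := Set.ncard_le_ncard hsub T.finite_toSet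
    rw [Set.ncard_coe_finset] at h
    exact_mod_cast h
  have h2 : (T.card : ℝ) ≤ ∑ q ∈ Finset.Icc 1 ⌊Q⌋₊, (3 * (q : ℝ)) * (2 * ρ * M + 1) := by
    have h3 : T.card ≤ ∑ q ∈ Finset.Icc 1 ⌊Q⌋₊,
        ∑ a ∈ Finset.Ico (-(q : ℤ)) (2 * (q : ℤ)), (F q a).card := by
      rw [hT]
      exact Finset.card_biUnion_le.trans
        (Finset.sum_le_sum fun q _ => Finset.card_biUnion_le)
    have h4 : (T.card : ℝ) ≤ ∑ q ∈ Finset.Icc 1 ⌊Q⌋₊,
        ∑ a ∈ Finset.Ico (-(q : ℤ)) (2 * (q : ℤ)), ((F q a).card : ℝ) := by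
      exact_mod_cast h3
    refine h4.trans (Finset.sum_le_sum fun q _ => ?_)
    have h5 : ∀ a ∈ Finset.Ico (-(q : ℤ)) (2 * (q : ℤ)), ((F q a).card : ℝ) ≤
        2 * ρ * M + 1 := by
      intro a _
      rw [hF]
      exact card_frac M ((a : ℝ) / (q : ℝ)) ρ hM hρ0
    refine (Finset.sum_le_sum h5).trans ?_
    rw [Finset.sum_const, Int.card_Ico, nsmul_eq_mul]
    refine mul_le_mul_of_nonneg_right (le_of_eq ?_) hc
    have h6 : (2 * (q : ℤ) - -(q : ℤ)).toNat = 3 * q := by omega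
    rw [h6]
    push_cast
    ring
  have h7 : ∑ q ∈ Finset.Icc 1 ⌊Q⌋₊, (3 * (q : ℝ)) * (2 * ρ * M + 1) ≤
      ∑ q ∈ Finset.Icc 1 ⌊Q⌋₊, (3 * Q) * (2 * ρ * M + 1) := by
    refine Finset.sum_le_sum fun q hq => mul_le_mul_of_nonneg_right ?_ hc
    have h8 : (q : ℝ) ≤ Q := (Nat.le_floor_iff hQ0).1 (Finset.mem_Icc.1 hq).2
    linarith
  have h9 : ∑ q ∈ Finset.Icc 1 ⌊Q⌋₊, (3 * Q) * (2 * ρ * M + 1) =
      (⌊Q⌋₊ : ℝ) * ((3 * Q) * (2 * ρ * M + 1)) := by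
    rw [Finset.sum_const, Nat.card_Icc, nsmul_eq_mul]
    simp
  have h10 : (⌊Q⌋₊ : ℝ) * ((3 * Q) * (2 * ρ * M + 1)) ≤ Q * ((3 * Q) * (2 * ρ * M + 1)) :=
    mul_le_mul_of_nonneg_right (Nat.floor_le hQ0) (mul_nonneg (by linarith) hc)
  have h11 : Q * ((3 * Q) * (2 * ρ * M + 1)) ≤ 4 * Q ^ 2 * (2 * ρ * M + 1) := by
    have h12 : 0 ≤ Q ^ 2 * (2 * ρ * M + 1) := mul_nonneg (sq_nonneg _) hc
    nlinarith
  linarith

end Pool.Agent.Work.MP_122e00_nt.TS
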