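import Mathlib
import Pool.Agent.Work.MP_122e00_nt.TS.Fin
import Pool.Agent.Work.MP_122e00_nt.TS.I_GS
import Pool.Agent.Work.MP_122e00_nt.TS.I_L0
import Pool.Agent.Work.MP_122e00_nt.TS.I_L1
import Pool.Agent.Work.MP_122e00_nt.TS.I_L2
import Pool.Agent.Work.MP_122e00_nt.TS.I_L3
import Pool.Agent.Work.MP_122e00_nt.TS.I_L4
import Pool.Agent.Work.MP_122e00_nt.TS.I_L5
import Pool.Agent.Work.MP_122e00_nt.TS.I_D1
import Pool.Agent.Work.MP_122e00_nt.TS.I_D2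
import Pool.Agent.Work.MP_122e00_nt.TS.I_D3
import Pool.Agent.Work.MP_122e00_nt.TS.I_D4
import Pool.Agent.Work.MP_122e00_nt.TS.I_D5
import Pool.Agent.Work.MP_122e00_nt.TS.I_D6
import Pool.Agent.Work.MP_122e00_nt.TS.I_M1
import Pool.Agent.Work.MP_122e00_nt.TS.I_M2
import Pool.Agent.Work.MP_122e00_nt.TS.I_M3
import Pool.Agent.Work.MP_122e00_nt.TS.I_M4
import Pool.Agent.Work.MP_122e00_nt.TS.I_E1
import Pool.Agent.Work.MP_122e00_nt.TS.I_E2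
import Pool.Agent.Work.MP_122e00_nt.TS.I_E3
import Pool.Agent.Work.MP_122e00_nt.TS.I_E4
import Pool.Agent.Work.MP_122e00_nt.TS.I_E5
import Pool.Agent.Work.MP_122e00_nt.TS.I_F1
import Pool.Agent.Work.MP_122e00_nt.TS.I_F2
import Pool.Agent.Work.MP_122e00_nt.TS.I_F3
import Pool.Agent.Work.MP_122e00_nt.TS.I_F4
import Pool.Agent.Work.MP_122e00_nt.TS.I_F5
import Pool.Agent.Work.MP_122e00_nt.TS.I_F6
import Pool.Agent.Work.MP_122e00_nt.TS.I_F7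
import Pool.Agent.Work.MP_122e00_nt.TS.I_F8
import Pool.Agent.Work.MP_122e00_nt.TS.I_F9
import Pool.Agent.Work.MP_122e00_nt.TS.I_G1
import Pool.Agent.Work.MP_122e00_nt.TS.I_G2
import Pool.Agent.Work.MP_122e00_nt.TS.I_G3
import Pool.Agent.Work.MP_122e00_nt.TS.I_G4
import Pool.Agent.Work.MP_122e00_nt.TS.I_H1
import Pool.Agent.Work.MP_122e00_nt.TS.I_H2
import Pool.Agent.Work.MP_122e00_nt.TS.I_H3
import Pool.Agent.Work.MP_122e00_nt.TS.I_H4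
import Pool.Agent.Work.MP_122e00_nt.TS.I_H5
import Pool.Agent.Work.MP_122e00_nt.TS.I_H6
import Pool.Agent.Work.MP_122e00_nt.TS.I_Q1
import Pool.Agent.Work.MP_122e00_nt.TS.I_Q2
import Pool.Agent.Work.MP_122e00_nt.TS.I_Q3
import Pool.Agent.Work.MP_122e00_nt.TS.I_Q4
import Pool.Agent.Work.MP_122e00_nt.TS.I_W1
import Pool.Agent.Work.MP_122e00_nt.TS.I_W2
import Pool.Agent.Work.MP_122e00_nt.TS.I_W3
import Pool.Agent.Work.MP_122e00_nt.TS.I_W4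
import Pool.Agent.Work.MP_122e00_nt.TS.I_W5
import Pool.Agent.Work.MP_122e00_nt.TS.I_W6

/-!
# Thin shifts: all items together (basic form)
-/

namespace Pool.Agent.Work.MP_122e00_nt.TS

theorem aGS : tsGS := prGS
theorem aL0 : tsL0 := prL0
theorem aL1 : tsL1 := prL1
theorem aL2 : tsL2 := prL2
theorem aL3 : tsL3 := prL3 aL2
theorem aL4 : tsL4 := prL4 aGS aL0 aL1 aL3
theorem aL5 : tsL5 := prL5 aGS aL0 aL1
theorem aD1 : tsD1 := prD1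
theorem aD2 : tsD2 := prD2 aD1
theorem aD3 : tsD3 := prD3
theorem aD4 : tsD4 := prD4
theorem aD5 : tsD5 := prD5 aD2 aD3 aD4
theorem aD6 : tsD6 := prD6 aD5
theorem aM1 : tsM1 := prM1
theorem aM2 : tsM2 := prM2
theorem aM3 : tsM3 := prM3
theorem aM4 : tsM4 := prM4 aD6 aM1 aM2 aM3
theorem aE1 : tsE1 := prE1
theorem aE2 : tsE2 := prE2
theorem aE3 : tsE3 := prE3 aL5 aE1 aE2
theorem aE4 : tsE4 := prE4
theorem aE5 : tsE5 := prE5 aL4 aE4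
theorem aF1 : tsF1 := prF1 aGS
theorem aF2 : tsF2 := prF2
theorem aF3 : tsF3 := prF3
theorem aF4 : tsF4 := prF4 aF3
theorem aF5 : tsF5 := prF5 aL4 aE1 aF1 aF2 aF4
theorem aF6 : tsF6 := prF6 aL0
theorem aF7 : tsF7 := prF7 aE1 aF1
theorem aF8 : tsF8 := prF8
theorem aF9 : tsF9 := prF9
theorem aG1 : tsG1 := prG1
theorem aG2 : tsG2 := prG2 aF9 aG1
theorem aG3 : tsG3 := prG3 aL0 aF2 aF3 aF7 aF8 aF9 aG1 aG2
theorem aG4 : tsG4 := prG4 aF9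
theorem aH2 : tsH2 := prH2
theorem aH5 : tsH5 := prH5 aH2
theorem aH6 : tsH6 := prH6
theorem aQ1 : tsQ1 := prQ1
theorem aQ2 : tsQ2 := prQ2 aQ1
theorem aQ3 : tsQ3 := prQ3 aQ1
theorem aQ4 : tsQ4 := prQ4 aQ2 aQ3
theorem aW1 : tsW1 := prW1 aGS
theorem aW2 : tsW2 := prW2
theorem aW3 : tsW3 := prW3
theorem aW4 : tsW4 := prW4 aW2 aW3
theorem aW5 : tsW5 := prW5 aW1 aW4
theorem aW6 : tsW6 := prW6
theorem aH1 : tsH1 := prH1 aW5 aW6
theorem aH3 : tsH3 := prH3 aQ4 aL0 aF6 aH1 aH2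
theorem aH4 : tsH4 := prH4 aG3 aH2 aH3

/-- the final theorem, basic form -/
theorem main0 : StFin := fin aL0 aF5 aM4 aE3 aE5 aG2 aG4 aH2 aH4 aH5 aH6

end Pool.Agent.Work.MP_122e00_nt.TS
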