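import Mathlib
import Pool.Agent.Work.MP_122e00_nt.TS.Fin
import Pool.Agent.Work.MP_122e00_nt.TS.Stmts4

/-!
# Thin shifts: assembly of the sharper form
-/

namespace Pool.Agent.Work.MP_122e00_nt.TS

open Finset Filter Topology ArithmeticFunction
open scoped ArithmeticFunction.zeta ArithmeticFunction.Moebius

/-- the final theorem, sharper form: shifts between `X^(1 - 2/r + ε)` and `X^(1 - ε)` -/
def StFinT : Prop := ∀ r : ℕ, 2 ≤ r → ∃ P : ℕ → Polynomial ℝ,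
  (∀ h : ℕ, 1 ≤ h → (P h).natDegree = 2 * (r - 1) ∧
    (P h).leadingCoeff = Csing (r - 1) h / ((r - 1).factorial : ℝ) ^ 2) ∧
  ∀ F : Polynomial ℤ, 1 ≤ F.natDegree → 0 < F.leadingCoeff →
  ∀ θ₁ θ₂ : ℝ, 0 < θ₁ → 1 - 2 / (r : ℝ) < θ₁ → θ₁ < θ₂ → θ₂ < 1 →
  ∃ (δ C : ℝ) (S : Set ℕ), 0 < δ ∧
  (∀ K : ℕ, 1 ≤ K → (Set.ncard {k : ℕ | k ∈ S ∧ 1 ≤ k ∧ k ≤ K} : ℝ) ≤ C * (K : ℝ) ^ (1 - δ)) ∧
  ∀ k : ℕ, k ∉ S → 1 ≤ F.eval (k : ℤ) ∧ ∀ X : ℝ, 1 ≤ X →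
    X ^ θ₁ ≤ ((F.eval (k : ℤ) : ℤ) : ℝ) → ((F.eval (k : ℤ) : ℤ) : ℝ) ≤ X ^ θ₂ →
    |cor (dr r) (dr r) ⌊X⌋₊ (F.eval (k : ℤ)).toNat -
      X * (P (F.eval (k : ℤ)).toNat).eval (Real.log X)| ≤ X ^ (1 - δ)

/-- common last part: from the second moment to the exceptional set -/
theorem fin_set (hL0 : tsL0) (hG2 : tsG2) (hH5 : tsH5) (hH6 : tsH6) (r : ℕ) (hr1 : 1 ≤ r)
    (E : ℕ → Polynomial ℝ) (hE : ∀ q, (E q).natDegree ≤ r - 1) (hCB : CB E)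
    (F : Polynomial ℤ) (A : ℕ) (hF : 1 ≤ F.natDegree) (hFl : 0 < F.leadingCoeff)
    (hA' : ∀ k : ℕ, A < k → 1 ≤ F.eval (k : ℤ)) (θa θ₀ θ' θ : ℝ) (h1 : 0 < θa) (h2 : θa < θ₀)
    (h3 : θ₀ < θ') (h4 : θ' < θ) (h5 : θ < 1)
    (hSM : ∃ δ X1 : ℝ, 0 < δ ∧ ∀ (X : ℝ) (K : ℕ), X1 ≤ X → X ^ θa ≤ (K : ℝ) ^ F.natDegree →
      (K : ℝ) ^ F.natDegree ≤ X ^ θ →
      ∑ k ∈ Finset.Ioc A K, (cor (dr r) (dr r) ⌊X⌋₊ (fv F k) -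
        X * (PH r E (fv F k)).eval (Real.log X)) ^ 2 ≤ K * X ^ (2 - δ)) :
    ∃ (δ C : ℝ) (S : Set ℕ), 0 < δ ∧
    (∀ K : ℕ, 1 ≤ K → (Set.ncard {k : ℕ | k ∈ S ∧ 1 ≤ k ∧ k ≤ K} : ℝ) ≤ C * (K : ℝ) ^ (1 - δ)) ∧
    ∀ k : ℕ, k ∉ S → 1 ≤ F.eval (k : ℤ) ∧ ∀ X : ℝ, 1 ≤ X →
      X ^ θ₀ ≤ ((F.eval (k : ℤ) : ℤ) : ℝ) → ((F.eval (k : ℤ) : ℤ) : ℝ) ≤ X ^ θ' →
      |cor (dr r) (dr r) ⌊X⌋₊ (F.eval (k : ℤ)).toNat -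
        X * (PH r E (F.eval (k : ℤ)).toNat).eval (Real.log X)| ≤ X ^ (1 - δ) := by
  obtain ⟨C2, hC2, -, hPH⟩ := hG2 r E hr1 hE hCB
  have hcoef : ∀ ε : ℝ, 0 < ε → ∃ C : ℝ, ∀ h j : ℕ, 1 ≤ h →
      |(PH r E h).coeff j| ≤ C * (h : ℝ) ^ ε := by
    intro ε hε
    obtain ⟨C0, hC0, h0⟩ := hL0 2 ε hε
    refine ⟨C2 * C0, fun h j hh => ?_⟩
    have h1 := (hPH h hh).2.1 j
    have h2 := h0 h hh
    rw [dr_two] at h2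
    calc |(PH r E h).coeff j| ≤ C2 * (h.divisors.card : ℝ) := h1
      _ ≤ C2 * (C0 * (h : ℝ) ^ ε) := by gcongr
      _ = C2 * C0 * (h : ℝ) ^ ε := by ring
  have hdeg : ∀ h, (PH r E h).natDegree ≤ 2 * (r - 1) := by
    intro h
    unfold PH
    apply Polynomial.natDegree_sum_le_of_forall_le
    intro j hj
    refine (Polynomial.natDegree_C_mul_X_pow_le _ _).trans ?_
    rw [Finset.mem_range] at hj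
    omega
  obtain ⟨δ', K2, hδ', hδ1', hbad⟩ := hH5 F A (2 * (r - 1))
    (fun X h => cor (dr r) (dr r) ⌊X⌋₊ h) (PH r E) θa θ₀ θ' θ
    hF hFl hA' (fun h x y _ hxy => cor_mono r h x y hxy) hdeg hcoef h1 h2 h3 h4 h5 hSM
  obtain ⟨C3, hC3⟩ := hH6 {k : ℕ | A < k ∧ ¬ Gd (fun X h => cor (dr r) (dr r) ⌊X⌋₊ h) (PH r E) F
    θ₀ θ' δ' k} δ' K2 hδ' hδ1' (fun K hK => by
      refine le_trans (le_of_eq ?_) (hbad K hK)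
      congr 2
      ext k
      simp only [Set.mem_ofPred_eq]
      tauto)
  refine ⟨δ', C3 + A, {k : ℕ | k ≤ A ∨ (A < k ∧ ¬ Gd (fun X h => cor (dr r) (dr r) ⌊X⌋₊ h)
    (PH r E) F θ₀ θ' δ' k)}, hδ', ?_, ?_⟩
  · intro K hK
    have h1 := hC3 K hK
    have h2 : {k : ℕ | k ∈ {k : ℕ | k ≤ A ∨ (A < k ∧ ¬ Gd (fun X h => cor (dr r) (dr r) ⌊X⌋₊ h)
        (PH r E) F θ₀ θ' δ' k)} ∧ 1 ≤ k ∧ k ≤ K} ⊆
        {k : ℕ | k ∈ {k : ℕ | A < k ∧ ¬ Gd (fun X h => cor (dr r) (dr r) ⌊X⌋₊ h) (PH r E) F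
          θ₀ θ' δ' k} ∧ 1 ≤ k ∧ k ≤ K} ∪ (Set.Icc 1 A) := by
      intro k hk
      simp only [Set.mem_ofPred_eq, Set.mem_union, Set.mem_Icc] at hk ⊢
      tauto
    have hfin : ({k : ℕ | k ∈ {k : ℕ | A < k ∧ ¬ Gd (fun X h => cor (dr r) (dr r) ⌊X⌋₊ h)
        (PH r E) F θ₀ θ' δ' k} ∧ 1 ≤ k ∧ k ≤ K} ∪ (Set.Icc 1 A)).Finite := by
      apply Set.Finite.union
      · exact (Set.finite_Icc 1 K).subset (fun k hk => ⟨hk.2.1, hk.2.2⟩)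
      · exact Set.finite_Icc 1 A
    have h3 := (Set.ncard_le_ncard h2 hfin).trans (Set.ncard_union_le _ _)
    have h4 : (Set.Icc 1 A).ncard = A := by
      rw [Set.ncard_eq_toFinset_card']
      simp
    rw [h4] at h3
    have h5 : (1 : ℝ) ≤ (K : ℝ) ^ (1 - δ') := by
      apply Real.one_le_rpow
      · exact_mod_cast hK
      · linarith
    have h6 : (A : ℝ) ≤ A * (K : ℝ) ^ (1 - δ') := le_mul_of_one_le_right (by positivity) h5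
    have h7 : ((Set.ncard {k : ℕ | k ∈ {k : ℕ | k ≤ A ∨ (A < k ∧ ¬ Gd
        (fun X h => cor (dr r) (dr r) ⌊X⌋₊ h) (PH r E) F θ₀ θ' δ' k)} ∧ 1 ≤ k ∧
        k ≤ K} : ℕ) : ℝ) ≤ (Set.ncard {k : ℕ | k ∈ {k : ℕ | A < k ∧ ¬ Gd
        (fun X h => cor (dr r) (dr r) ⌊X⌋₊ h) (PH r E) F θ₀ θ' δ' k} ∧ 1 ≤ k ∧
        k ≤ K} : ℝ) + A := by exact_mod_cast h3
    calc _ ≤ _ := h7
      _ ≤ C3 * (K : ℝ) ^ (1 - δ') + A * (K : ℝ) ^ (1 - δ') := add_le_add h1 h6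
      _ = (C3 + A) * (K : ℝ) ^ (1 - δ') := by ring
  · intro k hk
    simp only [Set.mem_ofPred_eq, not_or, not_and, not_not, not_le] at hk
    refine ⟨hA' k hk.1, ?_⟩
    have := hk.2 hk.1
    intro X hX h1 h2
    exact this X hX h1 h2

theorem finT (hL0 : tsL0) (hM4 : tsM4) (hE3 : tsE3) (hE5 : tsE5) (hG2 : tsG2)
    (hG4 : tsG4) (hH2 : tsH2) (hR10 : tsR10) (hT3 : tsT3) (hH5 : tsH5) (hH6 : tsH6) : StFinT := by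
  intro r hr
  have hr1 : 1 ≤ r := by omega
  obtain ⟨B, hB⟩ := hM4 r hr1
  obtain ⟨E, hE⟩ := hE3 r B hr1 hB
  have hCB := hE5 r E hr1 hE
  refine ⟨PH r E, fun h hh => hG4 r E hr hE hCB h hh, ?_⟩
  intro F hF hFl θ₁ θ₂ h0 h1 h12 h2
  obtain ⟨A, c, C, hc, hC, hA, -⟩ := hH2 F hF hFl
  have hA' : ∀ k : ℕ, A < k → 1 ≤ F.eval (k : ℤ) := fun k hk => (hA k hk).1
  have hm0 : (0 : ℝ) ≤ max 0 (1 - 2 / (r : ℝ)) := le_max_left _ _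
  have hm1 : 1 - 2 / (r : ℝ) ≤ max 0 (1 - 2 / (r : ℝ)) := le_max_right _ _
  have hm2 : max 0 (1 - 2 / (r : ℝ)) < θ₁ := max_lt h0 h1
  set m0 : ℝ := max 0 (1 - 2 / (r : ℝ)) with hm0d
  obtain ⟨η₂, δ, X0, hη₂, hη₂', hδ, hSI⟩ := hR10 r E hr hE hCB ((m0 + θ₁) / 2) ((1 + θ₂) / 2)
    (by linarith) (by linarith) (by linarith) (by linarith)
  have hSM := hT3 r E η₂ δ X0 ((m0 + θ₁) / 2) ((1 + θ₂) / 2) ((m0 + 3 * θ₁) / 4) ((1 + θ₂) / 2) hr hE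
    hCB hη₂ hη₂' hδ (by linarith) (by linarith) le_rfl (by linarith) hSI F A hF hFl hA'
  exact fin_set hL0 hG2 hH5 hH6 r hr1 E hE.1 hCB F A hF hFl hA' ((m0 + 3 * θ₁) / 4) θ₁ θ₂
    ((1 + θ₂) / 2) (by linarith) (by linarith) h12 (by linarith) (by linarith) hSM

end Pool.Agent.Work.MP_122e00_nt.TS
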