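import Mathlib
import Pool.Agent.Work.MP_122e00_nt.TS.Stmts3

/-!
# Thin shifts, item F7 (helper15): sums of products of two Ramanujan sums
-/

namespace Pool.Agent.Work.MP_122e00_nt.TS

open Finset Filter Topology ArithmeticFunction
open scoped ArithmeticFunction.zeta ArithmeticFunction.Moebius

namespace IF7

theorem tnorm_ee (x : ℝ) : ‖ee x‖ = 1 := by
  unfold ee
  exact Complex.norm_exp_ofReal_mul_I _

theorem tee_add (x y : ℝ) : ee (x + y) = ee x * ee y := by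
  unfold ee
  rw [← Complex.exp_add]
  congr 1
  push_cast
  ring

theorem tee_nat (m : ℕ) : ee (m : ℝ) = 1 := by
  unfold ee
  rw [Complex.exp_eq_one_iff]
  refine ⟨(m : ℤ), ?_⟩
  push_cast
  ring

/-- the reduced residues -/
def R (q : ℕ) : Finset ℕ := (Finset.range q).filter (fun a => Nat.Coprime a q)

theorem mem_R {q a : ℕ} : a ∈ R q ↔ a < q ∧ Nat.Coprime a q := by
  rw [R, Finset.mem_filter, Finset.mem_range]

theorem eq_of_dvd {q q' a a' : ℕ} (ha : Nat.Coprime a q) (ha' : Nat.Coprime a' q')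
    (h : q * q' ∣ a * q' + a' * q) : q = q' := by
  have h1 : q ∣ a * q' := (Nat.dvd_add_left (Dvd.intro_left _ rfl)).1 ((Dvd.intro _ rfl).trans h)
  have h2 : q' ∣ a' * q :=
    (Nat.dvd_add_right (Dvd.intro_left _ rfl)).1 ((Dvd.intro_left _ rfl).trans h)
  exact Nat.dvd_antisymm (ha.symm.dvd_of_dvd_mul_left h1) (ha'.symm.dvd_of_dvd_mul_left h2)

theorem coprime_of {q a a' : ℕ} (h : q ∣ a + a') (ha : Nat.Coprime a' q) : Nat.Coprime a q := by
  have h1 : Nat.gcd a q ∣ a' := (Nat.dvd_add_right (Nat.gcd_dvd_left a q)).1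
    ((Nat.gcd_dvd_right a q).trans h)
  exact Nat.dvd_one.1 (ha ▸ Nat.dvd_gcd h1 (Nat.gcd_dvd_right a q))

theorem dvd_aux {q a' : ℕ} (ha' : a' < q) : q ∣ (q - a') % q + a' := by
  rcases Nat.eq_zero_or_pos a' with h | h
  · subst h
    simp
  · rw [Nat.mod_eq_of_lt (by omega)]
    exact ⟨1, by omega⟩

theorem uniq {q a a' : ℕ} (ha : a < q) (ha' : a' < q) (h : q ∣ a + a') : (q - a') % q = a := by
  rcases Nat.eq_zero_or_pos a' with h0 | h0
  · subst h0
    rw [add_zero] at h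
    have : a = 0 := Nat.eq_zero_of_dvd_of_lt h ha
    simp [this]
  · obtain ⟨m, hm⟩ := h
    have hm1 : m = 1 := by
      have h1 : 0 < m := by
        rcases Nat.eq_zero_or_pos m with h2 | h2
        · subst h2; omega
        · exact h2
      have h2 : m < 2 := by
        by_contra h3
        have : q * 2 ≤ q * m := Nat.mul_le_mul_left q (by omega)
        omega
      omega
    subst hm1
    rw [Nat.mod_eq_of_lt (by omega)]
    omega

theorem dvd_iff {q a a' : ℕ} (hq : 1 ≤ q) : q * q ∣ a * q + a' * q ↔ q ∣ a + a' := by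
  rw [← add_mul]
  exact Nat.mul_dvd_mul_iff_right (by omega)

theorem main (hE1 : tsE1) (h q q' : ℕ) (hq : 1 ≤ q) (hq' : 1 ≤ q') :
    ∑ p ∈ (R q ×ˢ R q').filter (fun p => q * q' ∣ p.1 * q' + p.2 * q), ee ((h : ℝ) * p.2 / q') =
      (((if q = q' then Gh h q else 0 : ℝ)) : ℂ) := by
  by_cases he : q = q'
  · subst he
    rw [if_pos rfl, ← hE1 q h hq]
    change _ = ∑ a ∈ R q, ee ((h : ℝ) * a / q)
    refine Finset.sum_nbij' (fun p => p.2) (fun a' => ((q - a') % q, a')) ?_ ?_ ?_ ?_ ?_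
    · intro p hp
      exact (Finset.mem_product.1 (Finset.mem_filter.1 hp).1).2
    · intro a' ha'
      have h1 := mem_R.1 ha'
      have h2 := dvd_aux h1.1
      refine Finset.mem_filter.2 ⟨Finset.mem_product.2 ⟨mem_R.2 ⟨Nat.mod_lt _ hq, ?_⟩, ha'⟩, ?_⟩
      · exact coprime_of h2 h1.2
      · exact (dvd_iff hq).2 h2
    · intro p hp
      obtain ⟨h1, h2⟩ := Finset.mem_filter.1 hp
      obtain ⟨h3, h4⟩ := Finset.mem_product.1 h1
      refine Prod.ext ?_ rfl
      exact uniq (mem_R.1 h3).1 (mem_R.1 h4).1 ((dvd_iff hq).1 h2)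
    · intro a' _
      rfl
    · intro p _
      rfl
  · rw [if_neg he, Finset.filter_false_of_mem]
    · simp
    · intro p hp hd
      obtain ⟨h3, h4⟩ := Finset.mem_product.1 hp
      exact he (eq_of_dvd (mem_R.1 h3).2 (mem_R.1 h4).2 hd)

theorem nn_ge {q q' a a' : ℕ} (hq : 1 ≤ q) (hq' : 1 ≤ q')
    (h : ¬ q * q' ∣ a * q' + a' * q) : 1 ≤ ((q : ℝ) * q') * nn ((a : ℝ) / q + (a' : ℝ) / q') := by
  have hq0 : (0 : ℝ) < q := by exact_mod_cast hq
  have hq0' : (0 : ℝ) < q' := by exact_mod_cast hq'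
  set m : ℤ := round ((a : ℝ) / q + (a' : ℝ) / q') with hm
  have h1 : ((q : ℝ) * q') * nn ((a : ℝ) / q + (a' : ℝ) / q') =
      |(((a * q' + a' * q : ℕ) : ℤ) - m * ((q * q' : ℕ) : ℤ) : ℤ)| := by
    rw [nn, ← hm]
    have h0 : ((q : ℝ) * q') = |(q : ℝ) * q'| := (abs_of_pos (mul_pos hq0 hq0')).symm
    rw [h0, ← abs_mul]
    push_cast
    congr 1
    field_simp
  rw [h1]
  have h2 : ((a * q' + a' * q : ℕ) : ℤ) - m * ((q * q' : ℕ) : ℤ) ≠ 0 := by
    intro h3
    refine h ?_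
    have h4 : ((q * q' : ℕ) : ℤ) ∣ ((a * q' + a' * q : ℕ) : ℤ) := ⟨m, by linarith⟩
    exact_mod_cast h4
  exact_mod_cast Int.one_le_abs h2

end IF7

open IF7 in
theorem prF7 (hE1 : tsE1) (hF1 : tsF1) : tsF7 := by
  intro b V N h q q' hq hq' hV
  have hq0 : (0 : ℝ) < q := by exact_mod_cast hq
  have hq0' : (0 : ℝ) < q' := by exact_mod_cast hq'
  have hV0 : 0 ≤ V :=
    le_trans (add_nonneg (abs_nonneg _) (Finset.sum_nonneg fun _ _ => abs_nonneg _)) hV
  set T : ℝ → ℂ := fun γ => ∑ n ∈ Finset.Icc 1 N, (b n : ℂ) * ee (n * γ) with hT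
  set g : ℕ × ℕ → ℂ := fun p => ee ((h : ℝ) * p.2 / q') * T ((p.1 : ℝ) / q + (p.2 : ℝ) / q') with hg
  have hS : ((∑ n ∈ Finset.Icc 1 N, Gh n q * Gh (n + h) q' * b n : ℝ) : ℂ) =
      ∑ p ∈ R q ×ˢ R q', g p := by
    have h1 : ∀ n ∈ Finset.Icc 1 N, ((Gh n q * Gh (n + h) q' * b n : ℝ) : ℂ) =
        ∑ p ∈ R q ×ˢ R q', ee ((h : ℝ) * p.2 / q') *
          ((b n : ℂ) * ee (n * ((p.1 : ℝ) / q + (p.2 : ℝ) / q'))) := by
      intro n _
      rw [Complex.ofReal_mul, Complex.ofReal_mul, ← hE1 q n hq, ← hE1 q' (n + h) hq']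
      change (∑ a ∈ R q, ee ((n : ℝ) * a / q)) *
        (∑ a ∈ R q', ee (((n + h : ℕ) : ℝ) * a / q')) * (b n : ℂ) = _
      rw [Finset.sum_mul_sum, ← Finset.sum_product', Finset.sum_mul]
      refine Finset.sum_congr rfl fun p _ => ?_
      have e1 : ((n + h : ℕ) : ℝ) * p.2 / q' = n * ((p.2 : ℝ) / q') + (h : ℝ) * p.2 / q' := by
        push_cast
        ring
      have e2 : (n : ℝ) * ((p.1 : ℝ) / q + (p.2 : ℝ) / q') =
          (n : ℝ) * p.1 / q + n * ((p.2 : ℝ) / q') := by ring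
      rw [e1, e2, tee_add, tee_add]
      ring
    rw [Complex.ofReal_sum, Finset.sum_congr rfl h1, Finset.sum_comm]
    refine Finset.sum_congr rfl fun p _ => ?_
    rw [hg, hT]
    simp only
    rw [Finset.mul_sum]
  set D := (R q ×ˢ R q').filter (fun p => q * q' ∣ p.1 * q' + p.2 * q) with hD
  set D' := (R q ×ˢ R q').filter (fun p => ¬ q * q' ∣ p.1 * q' + p.2 * q) with hD'
  have hsplit : ∑ p ∈ R q ×ˢ R q', g p = ∑ p ∈ D, g p + ∑ p ∈ D', g p :=
    (Finset.sum_filter_add_sum_filter_not _ _ _).symm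
  have hgD : ∑ p ∈ D, g p = (((if q = q' then Gh h q else 0 : ℝ)) : ℂ) *
      ((∑ n ∈ Finset.Icc 1 N, b n : ℝ) : ℂ) := by
    rw [← main hE1 h q q' hq hq', Finset.sum_mul]
    refine Finset.sum_congr rfl fun p hp => ?_
    rw [hg]
    simp only
    congr 1
    obtain ⟨m, hm⟩ := (Finset.mem_filter.1 hp).2
    have h2 : (p.1 : ℝ) / q + (p.2 : ℝ) / q' = m := by
      have h3 : ((p.1 * q' + p.2 * q : ℕ) : ℝ) = ((q * q' * m : ℕ) : ℝ) := by rw [hm]
      push_cast at h3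
      field_simp
      linarith
    rw [h2, hT]
    simp only
    rw [Complex.ofReal_sum]
    refine Finset.sum_congr rfl fun n _ => ?_
    have h4 : (n : ℝ) * (m : ℝ) = ((n * m : ℕ) : ℝ) := by push_cast; ring
    rw [h4, tee_nat, mul_one]
  have hgD' : ‖∑ p ∈ D', g p‖ ≤ V * (q : ℝ) ^ 2 * (q' : ℝ) ^ 2 := by
    have h1 : ∀ p ∈ D', ‖g p‖ ≤ V * q * q' := by
      intro p hp
      have h2 := nn_ge hq hq' (Finset.mem_filter.1 hp).2
      have h3 := hF1 b V ((p.1 : ℝ) / q + (p.2 : ℝ) / q') N hV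
      rw [hg]
      simp only
      rw [norm_mul, tnorm_ee, one_mul]
      have h4 : ‖T ((p.1 : ℝ) / q + (p.2 : ℝ) / q')‖ * 1 ≤
          ‖T ((p.1 : ℝ) / q + (p.2 : ℝ) / q')‖ *
            (((q : ℝ) * q') * nn ((p.1 : ℝ) / q + (p.2 : ℝ) / q')) :=
        mul_le_mul_of_nonneg_left h2 (norm_nonneg _)
      have h5 := mul_le_mul_of_nonneg_left h3 (mul_pos hq0 hq0').le
      rw [hT] at h4 ⊢
      simp only at h4 ⊢
      linarith
    have hcard : (D'.card : ℝ) ≤ q * q' := by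
      have h2 : D'.card ≤ q * q' := by
        refine (Finset.card_filter_le _ _).trans ?_
        rw [Finset.card_product]
        refine Nat.mul_le_mul ?_ ?_
        · exact (Finset.card_filter_le _ _).trans (Finset.card_range q).le
        · exact (Finset.card_filter_le _ _).trans (Finset.card_range q').le
      exact_mod_cast h2
    refine (norm_sum_le _ _).trans ((Finset.sum_le_card_nsmul _ _ _ h1).trans ?_)
    rw [nsmul_eq_mul]
    have h3 : 0 ≤ V * q * q' := by positivity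
    refine (mul_le_mul_of_nonneg_right hcard h3).trans (le_of_eq ?_)
    ring
  have hfin : ((∑ n ∈ Finset.Icc 1 N, Gh n q * Gh (n + h) q' * b n -
      (if q = q' then Gh h q * ∑ n ∈ Finset.Icc 1 N, b n else 0) : ℝ) : ℂ) = ∑ p ∈ D', g p := by
    rw [Complex.ofReal_sub, hS, hsplit, hgD]
    split_ifs
    · rw [Complex.ofReal_mul]
      ring
    · rw [Complex.ofReal_zero]
      ring
  rw [← Real.norm_eq_abs, ← Complex.norm_real, hfin]
  exact hgD'

end Pool.Agent.Work.MP_122e00_nt.TS
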