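import Pool.Agent.Work.MP_122e00_nt.TS.Stmts4

set_option autoImplicit false

/-!
# Thin shifts, item J1: short intervals and short arcs
-/

namespace Pool.Agent.Work.MP_122e00_nt.TS

open Finset

namespace IJ1

theorem ee_add (x y : ℝ) : ee (x + y) = ee x * ee y := by
  unfold ee
  rw [← Complex.exp_add]
  congr 1
  push_cast
  ring

theorem ee_conj (x : ℝ) : (starRingEnd ℂ) (ee x) = ee (-x) := by
  unfold ee
  rw [← Complex.exp_conj]
  congr 1
  rw [map_mul, Complex.conj_I, Complex.conj_ofReal]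
  push_cast
  ring

theorem norm_ee (x : ℝ) : ‖ee x‖ = 1 := by
  unfold ee
  exact Complex.norm_exp_ofReal_mul_I _

/-- the square of the norm as a double sum -/
theorem sq (c : ℕ → ℂ) (N M j : ℕ) :
    ((‖∑ x ∈ Finset.Icc 1 N, c x * ee ((x : ℝ) * ((j : ℝ) / M))‖ ^ 2 : ℝ) : ℂ) =
    ∑ n ∈ Finset.Icc 1 N, ∑ m ∈ Finset.Icc 1 N,
      (c n * (starRingEnd ℂ) (c m)) * ee ((j : ℝ) * (((n : ℤ) - (m : ℤ) : ℤ) : ℝ) / M) := by
  rw [Complex.ofReal_pow, ← Complex.mul_conj', map_sum, Finset.sum_mul_sum]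
  refine Finset.sum_congr rfl fun n _ => Finset.sum_congr rfl fun m _ => ?_
  rw [map_mul, ee_conj]
  have e : ee ((j : ℝ) * (((n : ℤ) - (m : ℤ) : ℤ) : ℝ) / M) =
      ee ((n : ℝ) * ((j : ℝ) / M)) * ee (-((m : ℝ) * ((j : ℝ) / M))) := by
    rw [← ee_add]
    congr 1
    push_cast
    ring
  rw [e]
  ring

/-- Parseval modulo `M` with complex coefficients -/
theorem parseval (h : tsQ1) (c : ℕ → ℂ) (N M : ℕ) (hNM : N < M) :
    ∑ j ∈ Finset.range M, ‖∑ x ∈ Finset.Icc 1 N, c x * ee ((x : ℝ) * ((j : ℝ) / M))‖ ^ 2 =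
      (M : ℝ) * ∑ x ∈ Finset.Icc 1 N, ‖c x‖ ^ 2 := by
  have hM : 1 ≤ M := by omega
  apply Complex.ofReal_injective
  rw [Complex.ofReal_sum, Finset.sum_congr rfl fun j _ => sq c N M j, Finset.sum_comm]
  have h1 : ∀ n ∈ Finset.Icc 1 N, ∑ j ∈ Finset.range M, ∑ m ∈ Finset.Icc 1 N,
      (c n * (starRingEnd ℂ) (c m)) * ee ((j : ℝ) * (((n : ℤ) - (m : ℤ) : ℤ) : ℝ) / M) =
      (M : ℂ) * ((‖c n‖ : ℂ) ^ 2) := by
    intro n hn
    rw [Finset.sum_comm]
    have h2 : ∀ m ∈ Finset.Icc 1 N, ∑ j ∈ Finset.range M,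
        (c n * (starRingEnd ℂ) (c m)) * ee ((j : ℝ) * (((n : ℤ) - (m : ℤ) : ℤ) : ℝ) / M) =
        if n = m then (M : ℂ) * ((‖c n‖ : ℂ) ^ 2) else 0 := by
      intro m hm
      rw [← Finset.mul_sum, h M ((n : ℤ) - (m : ℤ)) hM]
      rw [Finset.mem_Icc] at hn hm
      by_cases hnm : n = m
      · subst hnm
        rw [if_pos rfl, if_pos (by simp), Complex.mul_conj']
        ring
      · rw [if_neg hnm, if_neg, mul_zero]
        intro hd
        have h3 : (n : ℤ) - (m : ℤ) = 0 := Int.eq_zero_of_abs_lt_dvd hd (by rw [abs_lt]; omega)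
        omega
    rw [Finset.sum_congr rfl h2, Finset.sum_ite_eq, if_pos hn]
  rw [Finset.sum_congr rfl h1, ← Finset.mul_sum]
  push_cast
  rfl

/-- a window of length `L` which starts at `n` -/
theorem window (N L n : ℕ) (hn : n ∈ Finset.Icc 1 N) (f : ℕ → ℂ) :
    ∑ x ∈ Finset.Icc 1 (N + L), (if n ≤ x ∧ x < n + L then f x else 0) =
      ∑ h ∈ Finset.range L, f (n + h) := by
  rw [Finset.mem_Icc] at hn
  rw [← Finset.sum_filter]
  have h1 : (Finset.Icc 1 (N + L)).filter (fun x => n ≤ x ∧ x < n + L) =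
      (Finset.range L).map (addLeftEmbedding n) := by
    ext x
    simp only [Finset.mem_filter, Finset.mem_Icc, Finset.mem_map, Finset.mem_range,
      addLeftEmbedding_apply]
    constructor
    · rintro ⟨_, h2, h3⟩
      exact ⟨x - n, by omega, by omega⟩
    · rintro ⟨h, h2, rfl⟩
      omega
  rw [h1, Finset.sum_map]
  rfl

/-- the product of the exponential sum and the kernel -/
theorem ident (u : ℕ → ℝ) (N L : ℕ) (α γ : ℝ) :
    SS u N α * ∑ h ∈ Finset.range L, ee ((h : ℝ) * (α - γ)) =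
      ∑ x ∈ Finset.Icc 1 (N + L), (ee (-((x : ℝ) * γ)) * wn u N L x γ) * ee ((x : ℝ) * α) := by
  have h1 : ∀ x ∈ Finset.Icc 1 (N + L),
      (ee (-((x : ℝ) * γ)) * wn u N L x γ) * ee ((x : ℝ) * α) =
      ∑ n ∈ Finset.Icc 1 N, (if n ≤ x ∧ x < n + L then
        (u n : ℂ) * (ee ((n : ℝ) * γ) * ee (-((x : ℝ) * γ)) * ee ((x : ℝ) * α)) else 0) := by
    intro x _
    unfold wn
    rw [Finset.mul_sum, Finset.sum_mul, Finset.sum_filter]
    refine Finset.sum_congr rfl fun n _ => ?_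
    split_ifs
    · ring
    · rfl
  rw [Finset.sum_congr rfl h1, Finset.sum_comm]
  unfold SS
  rw [Finset.sum_mul]
  refine Finset.sum_congr rfl fun n hn => ?_
  rw [window N L n hn (fun x => (u n : ℂ) * (ee ((n : ℝ) * γ) * ee (-((x : ℝ) * γ)) * ee ((x : ℝ) * α))),
    Finset.mul_sum]
  refine Finset.sum_congr rfl fun h _ => ?_
  rw [← ee_add, ← ee_add, mul_assoc, ← ee_add]
  congr 2
  push_cast
  ring

end IJ1

open IJ1 in
theorem prJ1 (h : tsQ1) : tsJ1 := by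
  intro u N L M γ _ hM
  unfold SI
  have h1 : ∀ j ∈ Finset.range M, ‖SS u N ((j : ℝ) / M)‖ ^ 2 *
      ‖∑ h ∈ Finset.range L, ee ((h : ℝ) * ((j : ℝ) / M - γ))‖ ^ 2 =
      ‖∑ x ∈ Finset.Icc 1 (N + L), (ee (-((x : ℝ) * γ)) * wn u N L x γ) *
        ee ((x : ℝ) * ((j : ℝ) / M))‖ ^ 2 := by
    intro j _
    rw [← mul_pow, ← norm_mul, ident]
  rw [Finset.sum_congr rfl h1, parseval h _ (N + L) M hM]
  congr 1
  refine Finset.sum_congr rfl fun x _ => ?_
  rw [norm_mul, IJ1.norm_ee, one_mul]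

end Pool.Agent.Work.MP_122e00_nt.TS
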