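import Pool.Agent.Work.MP_122e00_nt.TS.Stmts4

/-!
# Item J2 of the block TS: short arcs
-/

namespace Pool.Agent.Work.MP_122e00_nt.TS

open Finset Filter Topology ArithmeticFunction
open scoped ArithmeticFunction.zeta ArithmeticFunction.Moebius

namespace IJ2

/-- The kernel is large close to the integers. -/
lemma kernel (L : ℕ) (hL : 1 ≤ L) (t : ℝ) (ht : nn t ≤ 1 / (8 * (L : ℝ))) :
    (L : ℝ) / 2 ≤ ‖∑ h ∈ Finset.range L, ee ((h : ℝ) * t)‖ := by
  have hL0 : (0 : ℝ) < L := by exact_mod_cast hL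
  have key : ∀ h ∈ Finset.range L, (1 / 2 : ℝ) ≤ (ee ((h : ℝ) * t)).re := by
    intro h hh
    have hhL : (h : ℝ) ≤ L := by
      have := Finset.mem_range.mp hh
      exact_mod_cast this.le
    have h1 : (ee ((h : ℝ) * t)).re = Real.cos (2 * Real.pi * ((h : ℝ) * t)) := by
      unfold ee
      exact Complex.exp_ofReal_mul_I_re _
    have h2 : 2 * Real.pi * ((h : ℝ) * t) = 2 * Real.pi * ((h : ℝ) * (t - round t)) +
        ((((h : ℤ) * round t : ℤ)) : ℝ) * (2 * Real.pi) := by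
      push_cast
      ring
    rw [h1, h2, Real.cos_add_int_mul_two_pi]
    have hpi := Real.pi_pos
    have hpi4 := Real.pi_le_four
    have h3 : |2 * Real.pi * ((h : ℝ) * (t - round t))| ≤ 1 := by
      rw [abs_mul (2 * Real.pi), abs_mul (h : ℝ), abs_of_pos (by positivity : (0 : ℝ) < 2 * Real.pi),
        abs_of_nonneg (Nat.cast_nonneg h)]
      have h4 : |t - round t| ≤ 1 / (8 * (L : ℝ)) := ht
      have h5 : (h : ℝ) * |t - round t| ≤ L * (1 / (8 * (L : ℝ))) :=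
        mul_le_mul hhL h4 (abs_nonneg _) hL0.le
      have h6 : (L : ℝ) * (1 / (8 * (L : ℝ))) = 1 / 8 := by
        field_simp
      rw [h6] at h5
      calc 2 * Real.pi * ((h : ℝ) * |t - round t|) ≤ 2 * Real.pi * (1 / 8) :=
            mul_le_mul_of_nonneg_left h5 (by positivity)
        _ ≤ 1 := by linarith
    have h7 := Real.one_sub_sq_div_two_le_cos (x := 2 * Real.pi * ((h : ℝ) * (t - round t)))
    have h8 : (2 * Real.pi * ((h : ℝ) * (t - round t))) ^ 2 ≤ 1 := by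
      rw [← sq_abs]
      exact pow_le_one₀ (abs_nonneg _) h3
    linarith
  have h1 : (L : ℝ) / 2 ≤ (∑ h ∈ Finset.range L, ee ((h : ℝ) * t)).re := by
    rw [Complex.re_sum]
    calc (L : ℝ) / 2 = ∑ _h ∈ Finset.range L, (1 / 2 : ℝ) := by
          rw [Finset.sum_const, Finset.card_range, nsmul_eq_mul]
          ring
      _ ≤ _ := Finset.sum_le_sum key
  exact h1.trans (Complex.re_le_norm _)

end IJ2

/-- J2: short arcs. -/
theorem prJ2 (hJ1 : tsJ1) : tsJ2 := by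
  intro u N L M γ hL hM
  have hL0 : (0 : ℝ) < L := by exact_mod_cast hL
  have hM0 : (0 : ℝ) < M := by
    have : 0 < M := by omega
    exact_mod_cast this
  have hJ := hJ1 u N L M γ hL hM
  have h1 : ∑ j ∈ (Finset.range M).filter
      (fun j : ℕ => nn ((j : ℝ) / M - γ) ≤ 1 / (8 * (L : ℝ))), ‖SS u N ((j : ℝ) / M)‖ ^ 2 ≤
      ∑ j ∈ (Finset.range M).filter
        (fun j : ℕ => nn ((j : ℝ) / M - γ) ≤ 1 / (8 * (L : ℝ))), 4 / (L : ℝ) ^ 2 *
          (‖SS u N ((j : ℝ) / M)‖ ^ 2 *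
            ‖∑ h ∈ Finset.range L, ee ((h : ℝ) * ((j : ℝ) / M - γ))‖ ^ 2) := by
    refine Finset.sum_le_sum fun j hj => ?_
    have h2 := IJ2.kernel L hL _ (Finset.mem_filter.mp hj).2
    have h3 : ((L : ℝ) / 2) ^ 2 ≤
        ‖∑ h ∈ Finset.range L, ee ((h : ℝ) * ((j : ℝ) / M - γ))‖ ^ 2 :=
      pow_le_pow_left₀ (by positivity) h2 2
    have h4 : ‖SS u N ((j : ℝ) / M)‖ ^ 2 =
        4 / (L : ℝ) ^ 2 * (‖SS u N ((j : ℝ) / M)‖ ^ 2 * ((L : ℝ) / 2) ^ 2) := by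
      field_simp
      ring
    calc ‖SS u N ((j : ℝ) / M)‖ ^ 2 =
        4 / (L : ℝ) ^ 2 * (‖SS u N ((j : ℝ) / M)‖ ^ 2 * ((L : ℝ) / 2) ^ 2) := h4
      _ ≤ _ := mul_le_mul_of_nonneg_left (mul_le_mul_of_nonneg_left h3 (by positivity))
          (by positivity)
  have h5 : ∑ j ∈ (Finset.range M).filter
        (fun j : ℕ => nn ((j : ℝ) / M - γ) ≤ 1 / (8 * (L : ℝ))), 4 / (L : ℝ) ^ 2 *
          (‖SS u N ((j : ℝ) / M)‖ ^ 2 *
            ‖∑ h ∈ Finset.range L, ee ((h : ℝ) * ((j : ℝ) / M - γ))‖ ^ 2) ≤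
      ∑ j ∈ Finset.range M, 4 / (L : ℝ) ^ 2 *
          (‖SS u N ((j : ℝ) / M)‖ ^ 2 *
            ‖∑ h ∈ Finset.range L, ee ((h : ℝ) * ((j : ℝ) / M - γ))‖ ^ 2) :=
    Finset.sum_le_sum_of_subset_of_nonneg (Finset.filter_subset _ _)
      (fun _ _ _ => by positivity)
  have h5' := h1.trans h5
  rw [← Finset.mul_sum, hJ] at h5'
  have h6 := mul_le_mul_of_nonneg_left h5' (by positivity : (0 : ℝ) ≤ 1 / (M : ℝ))
  refine h6.trans (le_of_eq ?_)
  field_simp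

end Pool.Agent.Work.MP_122e00_nt.TS
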