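import Mathlib
import Pool.Agent.Work.MP_122e00_nt.TS.Stmts4
import Pool.Agent.Work.MP_122e00_nt.TS.I_Q4

/-!
# Thin shifts, item Q5: the second moment over a set of shifts, with short arcs (helper64)
-/

namespace Pool.Agent.Work.MP_122e00_nt.TS

open Finset Filter Topology ArithmeticFunction
open scoped ArithmeticFunction.zeta ArithmeticFunction.Moebius

namespace IQ5

lemma nn_eq (x : ℝ) : nn x = ‖(x : UnitAddCircle)‖ := by
  unfold nn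
  rw [UnitAddCircle.norm_eq]

lemma nn_neg (x : ℝ) : nn (-x) = nn x := by
  rw [nn_eq, nn_eq, AddCircle.coe_neg, norm_neg]

lemma nn_add_one (x : ℝ) : nn (x + 1) = nn x := by
  rw [nn_eq, nn_eq]
  congr 1
  have h := AddCircle.coe_add_period (p := (1 : ℝ)) x
  exact h

lemma nn_tt {M i j : ℕ} (hM : 0 < M) (hj : j < M) (g : ℝ) :
    nn (((IQ4.tt M i j : ℕ) : ℝ) / M - g) = nn ((i : ℝ) / M - ((j : ℝ) / M + g)) := by
  have hMr : (M : ℝ) ≠ 0 := by positivity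
  unfold IQ4.tt
  split_ifs with h
  · congr 1
    rw [Nat.cast_sub h]
    ring
  · rw [← nn_add_one ((i : ℝ) / M - ((j : ℝ) / M + g))]
    congr 1
    rw [Nat.cast_sub (by omega)]
    push_cast
    field_simp
    ring

lemma nn_tt' {M i j : ℕ} (hM : 0 < M) (hj : j < M) (g : ℝ) :
    nn (((IQ4.tt M i j : ℕ) : ℝ) / M - g) = nn ((j : ℝ) / M - ((i : ℝ) / M - g)) := by
  rw [nn_tt hM hj, ← nn_neg]
  congr 1
  ring

/-- the main estimate -/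
lemma main (κ : Finset ℕ) (sh : ℕ → ℕ) (M : ℕ) (w Z : ℝ) (c : ℕ → ℂ) (A B : ℕ → ℝ)
    (hw : 0 ≤ w) (hc : ∀ j, ‖c j‖ = A j * B j)
    (hZ1 : ∀ j < M, ∑ i ∈ (Finset.range M).filter (fun i => w < ‖∑ k ∈ κ,
      ee ((sh k : ℝ) * (IQ4.tt M i j : ℕ) / M)‖), A i ^ 2 ≤ Z)
    (hZ2 : ∀ i < M, ∑ j ∈ (Finset.range M).filter (fun j => w < ‖∑ k ∈ κ,
      ee ((sh k : ℝ) * (IQ4.tt M i j : ℕ) / M)‖), A j ^ 2 ≤ Z) :
    ∑ k ∈ κ, ‖∑ j ∈ Finset.range M, c j * ee ((sh k : ℝ) * j / M)‖ ^ 2 ≤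
      w * (∑ j ∈ Finset.range M, ‖c j‖) ^ 2 +
        (κ.card : ℝ) * (Z * ∑ j ∈ Finset.range M, B j ^ 2) := by
  classical
  set W : ℕ → ℂ := fun t => ∑ k ∈ κ, ee ((sh k : ℝ) * t / M) with hW
  set P : ℕ → Prop := fun t => w < ‖W t‖ with hP
  have hWk : ∀ t, ‖W t‖ ≤ κ.card := by
    intro t
    refine (norm_sum_le _ _).trans ?_
    simp only [IQ4.norm_ee]
    simp
  have hWb : ∀ t, ‖W t‖ ≤ w + if P t then (κ.card : ℝ) else 0 := by
    intro t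
    by_cases h : P t
    · rw [if_pos h]
      linarith [hWk t]
    · rw [if_neg h]
      have := not_lt.1 h
      linarith
  have h0 : ∑ k ∈ κ, ‖∑ j ∈ Finset.range M, c j * ee ((sh k : ℝ) * j / M)‖ ^ 2 ≤
      ∑ i ∈ Finset.range M, ∑ j ∈ Finset.range M, (‖c i‖ * ‖c j‖) * ‖W (IQ4.tt M i j)‖ := by
    have hn : 0 ≤ ∑ k ∈ κ, ‖∑ j ∈ Finset.range M, c j * ee ((sh k : ℝ) * j / M)‖ ^ 2 :=
      Finset.sum_nonneg fun _ _ => by positivity
    have e := IQ4.sq_sum κ sh M c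
    have e2 : ∑ k ∈ κ, ‖∑ j ∈ Finset.range M, c j * ee ((sh k : ℝ) * j / M)‖ ^ 2 =
        ‖((∑ k ∈ κ, ‖∑ j ∈ Finset.range M, c j * ee ((sh k : ℝ) * j / M)‖ ^ 2 : ℝ) : ℂ)‖ := by
      rw [Complex.norm_real, Real.norm_of_nonneg hn]
    rw [e2, e]
    refine (norm_sum_le _ _).trans (Finset.sum_le_sum fun i _ => ?_)
    refine (norm_sum_le _ _).trans (Finset.sum_le_sum fun j _ => ?_)
    rw [norm_mul, norm_mul, RCLike.norm_conj]
  refine h0.trans ?_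
  have h1 : ∀ i ∈ Finset.range M, ∀ j ∈ Finset.range M,
      (‖c i‖ * ‖c j‖) * ‖W (IQ4.tt M i j)‖ ≤ w * (‖c i‖ * ‖c j‖) +
        ((κ.card : ℝ) / 2 * (if P (IQ4.tt M i j) then A i ^ 2 * B j ^ 2 else 0) +
          (κ.card : ℝ) / 2 * (if P (IQ4.tt M i j) then A j ^ 2 * B i ^ 2 else 0)) := by
    intro i hi j hj
    have a1 : 0 ≤ ‖c i‖ * ‖c j‖ := by positivity
    have a2 := mul_le_mul_of_nonneg_left (hWb (IQ4.tt M i j)) a1
    have a3 : ‖c i‖ * ‖c j‖ ≤ (A i ^ 2 * B j ^ 2 + A j ^ 2 * B i ^ 2) / 2 := by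
      rw [hc, hc]
      nlinarith [sq_nonneg (A i * B j - A j * B i)]
    by_cases h : P (IQ4.tt M i j)
    · simp only [if_pos h] at a2 ⊢
      have a4 := mul_le_mul_of_nonneg_right a3 (Nat.cast_nonneg (α := ℝ) κ.card)
      linarith
    · simp only [if_neg h] at a2 ⊢
      linarith
  have h2 : ∑ i ∈ Finset.range M, ∑ j ∈ Finset.range M, (‖c i‖ * ‖c j‖) * ‖W (IQ4.tt M i j)‖ ≤
      ∑ i ∈ Finset.range M, ∑ j ∈ Finset.range M, (w * (‖c i‖ * ‖c j‖) +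
        ((κ.card : ℝ) / 2 * (if P (IQ4.tt M i j) then A i ^ 2 * B j ^ 2 else 0) +
          (κ.card : ℝ) / 2 * (if P (IQ4.tt M i j) then A j ^ 2 * B i ^ 2 else 0))) :=
    Finset.sum_le_sum fun i hi => Finset.sum_le_sum fun j hj => h1 i hi j hj
  refine h2.trans ?_
  simp only [Finset.sum_add_distrib, ← Finset.mul_sum]
  have h4 : ∑ i ∈ Finset.range M, ∑ j ∈ Finset.range M,
      (if P (IQ4.tt M i j) then A i ^ 2 * B j ^ 2 else 0) ≤ Z * ∑ j ∈ Finset.range M, B j ^ 2 := by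
    rw [Finset.sum_comm, Finset.mul_sum]
    refine Finset.sum_le_sum fun j hj => ?_
    rw [← Finset.sum_filter, ← Finset.sum_mul]
    exact mul_le_mul_of_nonneg_right (hZ1 j (Finset.mem_range.1 hj)) (by positivity)
  have h5 : ∑ i ∈ Finset.range M, ∑ j ∈ Finset.range M,
      (if P (IQ4.tt M i j) then A j ^ 2 * B i ^ 2 else 0) ≤ Z * ∑ j ∈ Finset.range M, B j ^ 2 := by
    rw [Finset.mul_sum]
    refine Finset.sum_le_sum fun i hi => ?_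
    rw [← Finset.sum_filter, ← Finset.sum_mul]
    exact mul_le_mul_of_nonneg_right (hZ2 i (Finset.mem_range.1 hi)) (by positivity)
  have h6 : 0 ≤ (κ.card : ℝ) / 2 := by positivity
  have h7 := mul_le_mul_of_nonneg_left h4 h6
  have h8 := mul_le_mul_of_nonneg_left h5 h6
  have h3' : ∑ i ∈ Finset.range M, (‖c i‖ * ∑ j ∈ Finset.range M, ‖c j‖) =
      (∑ j ∈ Finset.range M, ‖c j‖) ^ 2 := by
    rw [sq, Finset.sum_mul]
  rw [h3']
  linarith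

/-- the sum over the bad indices -/
lemma bad (M : ℕ) (A : ℕ → ℝ) (P : ℕ → Prop) [DecidablePred P] (Γ : Finset ℝ) (f : ℝ → ℝ)
    (ρ T : ℝ) (hP : ∀ i < M, P i → ∃ g ∈ Γ, nn ((i : ℝ) / M - f g) ≤ ρ)
    (hT : ∀ γ : ℝ, ∑ i ∈ (Finset.range M).filter (fun i : ℕ => nn ((i : ℝ) / M - γ) ≤ ρ),
      A i ^ 2 ≤ T) :
    ∑ i ∈ (Finset.range M).filter P, A i ^ 2 ≤ (Γ.card : ℝ) * T := by
  classical
  have h1 : ∑ i ∈ (Finset.range M).filter P, A i ^ 2 ≤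
      ∑ i ∈ Finset.range M, ∑ g ∈ Γ, (if nn ((i : ℝ) / M - f g) ≤ ρ then A i ^ 2 else 0) := by
    rw [Finset.sum_filter]
    refine Finset.sum_le_sum fun i hi => ?_
    have h0 : ∀ g ∈ Γ, 0 ≤ (if nn ((i : ℝ) / M - f g) ≤ ρ then A i ^ 2 else 0) := by
      intro g _
      split_ifs
      · positivity
      · exact le_rfl
    by_cases h : P i
    · rw [if_pos h]
      obtain ⟨g, hg, hgn⟩ := hP i (Finset.mem_range.1 hi) h
      have h2 := Finset.single_le_sum h0 hg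
      rwa [if_pos hgn] at h2
    · rw [if_neg h]
      exact Finset.sum_nonneg h0
  refine h1.trans ?_
  rw [Finset.sum_comm]
  refine (Finset.sum_le_sum fun g _ => ?_).trans (le_of_eq (by
    rw [Finset.sum_const, nsmul_eq_mul] : ∑ g ∈ Γ, T = (Γ.card : ℝ) * T))
  rw [← Finset.sum_filter]
  exact hT (f g)

end IQ5

open IQ5 in
/-- item Q5 -/
theorem prQ5 (h2 : tsQ2) (h3 : tsQ3) (hJ : tsJ2) : tsQ5 := by
  intro κ sh u v N H L M w Y Γ hL hM hsh hw hY hΓ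
  have hM0 : 0 < M := by omega
  have hMr : (0 : ℝ) < M := by exact_mod_cast hM0
  have hLr : (0 : ℝ) < L := by exact_mod_cast hL
  set a : ℕ → ℂ := fun j => SS u N ((j : ℝ) / M) with ha
  set b : ℕ → ℂ := fun j => SS v (N + H) ((j : ℝ) / M) with hb
  set c : ℕ → ℂ := fun j => a j * (starRingEnd ℂ) (b j) with hc
  have hU : ∑ j ∈ Finset.range M, ‖a j‖ ^ 2 = (M : ℝ) * ∑ n ∈ Finset.Icc 1 N, u n ^ 2 :=
    h2 u N M (by omega)
  have hV : ∑ j ∈ Finset.range M, ‖b j‖ ^ 2 = (M : ℝ) * ∑ n ∈ Finset.Icc 1 (N + H), v n ^ 2 :=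
    h2 v (N + H) M (by omega)
  have hcn : ∀ j, ‖c j‖ = ‖a j‖ * ‖b j‖ := by
    intro j
    simp only [hc]
    rw [norm_mul, RCLike.norm_conj]
  -- the sum of the squares
  have hcor : ∑ k ∈ κ, cor u v N (sh k) ^ 2 =
      (1 / (M : ℝ) ^ 2) *
        ∑ k ∈ κ, ‖∑ j ∈ Finset.range M, c j * ee ((sh k : ℝ) * j / M)‖ ^ 2 := by
    rw [Finset.mul_sum]
    refine Finset.sum_congr rfl fun k hk => ?_
    have e := h3 u v N H M (sh k) (by omega) (hsh k hk)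
    have e1 : cor u v N (sh k) ^ 2 = ‖((cor u v N (sh k) : ℝ) : ℂ)‖ ^ 2 := by
      rw [Complex.norm_real, Real.norm_eq_abs, sq_abs]
    rw [e1, e, norm_mul, mul_pow, norm_div, norm_one, Complex.norm_natCast, div_pow, one_pow]
  have hCS : (∑ j ∈ Finset.range M, ‖c j‖) ^ 2 ≤
      ((M : ℝ) * ∑ n ∈ Finset.Icc 1 N, u n ^ 2) *
        ((M : ℝ) * ∑ n ∈ Finset.Icc 1 (N + H), v n ^ 2) := by
    rw [← hU, ← hV]
    simp only [hcn]
    exact Finset.sum_mul_sq_le_sq_mul_sq _ _ _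
  have hfin : ∀ A B : ℕ → ℝ, (∀ j, ‖c j‖ = A j * B j) →
      (∀ γ : ℝ, ∑ i ∈ (Finset.range M).filter (fun i : ℕ => nn ((i : ℝ) / M - γ) ≤
        1 / (8 * (L : ℝ))), A i ^ 2 ≤ M * (4 / (L : ℝ) ^ 2 * Y)) → ∀ Z : ℝ,
      ∑ j ∈ Finset.range M, B j ^ 2 = (M : ℝ) * Z →
      ∑ k ∈ κ, cor u v N (sh k) ^ 2 ≤
      w * (∑ n ∈ Finset.Icc 1 N, u n ^ 2) * (∑ n ∈ Finset.Icc 1 (N + H), v n ^ 2) +
      (κ.card : ℝ) * ((Γ.card : ℝ) * (4 / (L : ℝ) ^ 2 * Y)) * Z := by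
    intro A B hAB hA Z hZ
    have hm := main κ sh M w ((Γ.card : ℝ) * (M * (4 / (L : ℝ) ^ 2 * Y))) c A B hw hAB ?_ ?_
    · rw [hcor]
      have hm2 := hm.trans (add_le_add (mul_le_mul_of_nonneg_left hCS hw) le_rfl)
      rw [hZ] at hm2
      have hm3 := mul_le_mul_of_nonneg_left hm2 (by positivity : (0 : ℝ) ≤ 1 / (M : ℝ) ^ 2)
      refine hm3.trans (le_of_eq ?_)
      field_simp
    · intro j hj
      refine bad M A _ Γ (fun g => (j : ℝ) / M + g) (1 / (8 * (L : ℝ))) _ ?_ hA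
      intro i hi hPi
      obtain ⟨g, hg, hgn⟩ := hΓ (IQ4.tt M i j) (IQ4.tt_lt hi hj) hPi
      refine ⟨g, hg, ?_⟩
      rwa [nn_tt hM0 hj] at hgn
    · intro i hi
      refine bad M A _ Γ (fun g => (i : ℝ) / M - g) (1 / (8 * (L : ℝ))) _ ?_ hA
      intro j hj hPj
      obtain ⟨g, hg, hgn⟩ := hΓ (IQ4.tt M i j) (IQ4.tt_lt hi hj) hPj
      refine ⟨g, hg, ?_⟩
      rwa [nn_tt' hM0 hj] at hgn
  have hJ' : ∀ (z : ℕ → ℝ) (N' : ℕ), N' + L < M → (∀ γ : ℝ, SI z N' L γ ≤ Y) →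
      ∀ γ : ℝ, ∑ i ∈ (Finset.range M).filter (fun i : ℕ => nn ((i : ℝ) / M - γ) ≤
        1 / (8 * (L : ℝ))), ‖SS z N' ((i : ℝ) / M)‖ ^ 2 ≤ M * (4 / (L : ℝ) ^ 2 * Y) := by
    intro z N' hN hz γ
    have e1 := hJ z N' L M γ hL hN
    have e2 : 4 / (L : ℝ) ^ 2 * SI z N' L γ ≤ 4 / (L : ℝ) ^ 2 * Y :=
      mul_le_mul_of_nonneg_left (hz γ) (by positivity)
    have e3 := e1.trans e2
    rw [one_div, inv_mul_le_iff₀ hMr] at e3
    exact e3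
  constructor
  · intro hb1
    exact hfin (fun j => ‖a j‖) (fun j => ‖b j‖) hcn (hJ' u N (by omega) hb1) _ hV
  · intro hb1
    exact hfin (fun j => ‖b j‖) (fun j => ‖a j‖) (fun j => by rw [hcn, mul_comm])
      (hJ' v (N + H) (by omega) hb1) _ hU

end Pool.Agent.Work.MP_122e00_nt.TS
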