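import Pool.Agent.Work.MP_122e00_nt.TS.Stmts4

/-!
# Thin shifts, item R1: splitting off a long variable, with the explicit weights
-/

set_option autoImplicit false

namespace Pool.Agent.Work.MP_122e00_nt.TS

open Finset Filter Topology ArithmeticFunction
open scoped ArithmeticFunction.zeta ArithmeticFunction.Moebius

namespace IR1

theorem uy_apply (y : ℝ) (n : ℕ) : uy y n = if n ≠ 0 ∧ (n : ℝ) ≤ y then 1 else 0 := rfl

theorem z_apply (n : ℕ) : (ζ : ArithmeticFunction ℝ) n = if n = 0 then 0 else 1 := by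
  rw [ArithmeticFunction.natCoe_apply, ArithmeticFunction.zeta_apply]
  split_ifs <;> simp

theorem z_pow (r n : ℕ) : ((ζ : ArithmeticFunction ℝ) ^ r) n = dr r n := by
  have h : ((ζ : ArithmeticFunction ℝ) ^ r) =
      (((ζ : ArithmeticFunction ℕ) ^ r : ArithmeticFunction ℕ) : ArithmeticFunction ℝ) := by
    induction r with
    | zero =>
      rw [pow_zero, pow_zero, ArithmeticFunction.natCoe_one]
    | succ r ih =>
      rw [pow_succ, pow_succ, ArithmeticFunction.natCoe_mul, ih]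
  rw [h, ArithmeticFunction.natCoe_apply]
  rfl

theorem mul_le (f g f' g' : ArithmeticFunction ℝ) (h1 : ∀ n, 0 ≤ f n ∧ f n ≤ f' n)
    (h2 : ∀ n, 0 ≤ g n ∧ g n ≤ g' n) (n : ℕ) : 0 ≤ (f * g) n ∧ (f * g) n ≤ (f' * g') n := by
  rw [ArithmeticFunction.mul_apply, ArithmeticFunction.mul_apply]
  constructor
  · exact Finset.sum_nonneg fun x _ => mul_nonneg (h1 _).1 (h2 _).1
  · exact Finset.sum_le_sum fun x _ => mul_le_mul (h1 _).2 (h2 _).2 (h2 _).1
      ((h1 _).1.trans (h1 _).2)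

theorem one_le (n : ℕ) : 0 ≤ (1 : ArithmeticFunction ℝ) n ∧
    (1 : ArithmeticFunction ℝ) n ≤ (ζ : ArithmeticFunction ℝ) n := by
  rw [ArithmeticFunction.one_apply, z_apply]
  constructor
  · split_ifs <;> norm_num
  · by_cases h : n = 1
    · subst h
      simp
    · rw [if_neg h]
      split_ifs <;> norm_num

theorem uy_le (y : ℝ) (n : ℕ) : 0 ≤ uy y n ∧ uy y n ≤ (ζ : ArithmeticFunction ℝ) n := by
  rw [uy_apply, z_apply]
  constructor
  · split_ifs <;> norm_num
  · by_cases h : n = 0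
    · subst h
      simp
    · rw [if_neg h]
      split_ifs <;> norm_num

theorem z_nonneg (n : ℕ) : 0 ≤ (ζ : ArithmeticFunction ℝ) n := by
  rw [z_apply]
  split_ifs <;> norm_num

theorem pow_le (f g : ArithmeticFunction ℝ) (h : ∀ n, 0 ≤ f n ∧ f n ≤ g n) (i : ℕ) :
    ∀ n, 0 ≤ (f ^ i) n ∧ (f ^ i) n ≤ (g ^ i) n := by
  induction i with
  | zero =>
    intro n
    rw [pow_zero, pow_zero]
    exact ⟨(one_le n).1, le_rfl⟩
  | succ i ih =>
    intro n
    rw [pow_succ, pow_succ]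
    exact mul_le _ _ _ _ ih h n

theorem z_pow_nonneg (i n : ℕ) : 0 ≤ ((ζ : ArithmeticFunction ℝ) ^ i) n :=
  (pow_le _ _ (fun n => ⟨z_nonneg n, le_rfl⟩) i n).1

theorem z_pow_mono (i n : ℕ) :
    ((ζ : ArithmeticFunction ℝ) ^ i) n ≤ ((ζ : ArithmeticFunction ℝ) ^ (i + 1)) n := by
  have h := (mul_le ((ζ : ArithmeticFunction ℝ) ^ i) 1 ((ζ : ArithmeticFunction ℝ) ^ i)
    (ζ : ArithmeticFunction ℝ) (fun n => ⟨z_pow_nonneg i n, le_rfl⟩) one_le n).2
  rw [mul_one] at h
  rw [pow_succ]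
  exact h

theorem term (r i : ℕ) (hi : i < r) (y : ℝ) (n : ℕ) :
    0 ≤ ((uy y) ^ i * (ζ : ArithmeticFunction ℝ) ^ (r - 1 - i)) n ∧
    ((uy y) ^ i * (ζ : ArithmeticFunction ℝ) ^ (r - 1 - i)) n ≤ dr r n := by
  have h := mul_le ((uy y) ^ i) ((ζ : ArithmeticFunction ℝ) ^ (r - 1 - i))
    ((ζ : ArithmeticFunction ℝ) ^ i) ((ζ : ArithmeticFunction ℝ) ^ (r - 1 - i))
    (pow_le _ _ (uy_le y) i) (fun n => ⟨z_pow_nonneg _ n, le_rfl⟩) n
  refine ⟨h.1, h.2.trans ?_⟩
  rw [← pow_add, show i + (r - 1 - i) = r - 1 by omega, ← z_pow]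
  have h2 := z_pow_mono (r - 1) n
  rwa [show r - 1 + 1 = r by omega] at h2

theorem sum_apply (s : Finset ℕ) (f : ℕ → ArithmeticFunction ℝ) (n : ℕ) :
    (∑ i ∈ s, f i) n = ∑ i ∈ s, (f i) n := by
  classical
  induction s using Finset.induction_on with
  | empty => simp
  | insert a s ha ih => rw [Finset.sum_insert ha, Finset.sum_insert ha,
      ArithmeticFunction.add_apply, ih]

theorem Wy_apply (r : ℕ) (y : ℝ) (m : ℕ) :
    Wy r y m = ∑ i ∈ Finset.range r, ((uy y) ^ i * (ζ : ArithmeticFunction ℝ) ^ (r - 1 - i)) m :=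
  sum_apply _ _ _

theorem sum_uy (y : ℝ) (hy : 0 ≤ y) (N : ℕ) : ∑ n ∈ Finset.Ioc 0 N, uy y n ≤ y := by
  have h1 : ∑ n ∈ Finset.Ioc 0 N, uy y n =
      (((Finset.Ioc 0 N).filter fun n : ℕ => n ≠ 0 ∧ (n : ℝ) ≤ y).card : ℝ) := by
    rw [Finset.card_filter]
    push_cast
    exact Finset.sum_congr rfl fun n _ => uy_apply y n
  rw [h1]
  have h2 : ((Finset.Ioc 0 N).filter fun n : ℕ => n ≠ 0 ∧ (n : ℝ) ≤ y).card ≤ ⌊y⌋₊ := by
    calc ((Finset.Ioc 0 N).filter fun n : ℕ => n ≠ 0 ∧ (n : ℝ) ≤ y).card ≤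
        (Finset.Icc 1 ⌊y⌋₊).card := Finset.card_le_card fun n hn => by
          rw [Finset.mem_filter] at hn
          exact Finset.mem_Icc.2 ⟨Nat.one_le_iff_ne_zero.2 hn.2.1, Nat.le_floor hn.2.2⟩
      _ = ⌊y⌋₊ := by simp
  calc (((Finset.Ioc 0 N).filter fun n : ℕ => n ≠ 0 ∧ (n : ℝ) ≤ y).card : ℝ) ≤ (⌊y⌋₊ : ℝ) := by
        exact_mod_cast h2
    _ ≤ y := Nat.floor_le hy

theorem sum_uy_pow (y : ℝ) (hy : 0 ≤ y) (r : ℕ) :
    ∀ N : ℕ, ∑ n ∈ Finset.Ioc 0 N, ((uy y) ^ r) n ≤ y ^ r := by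
  induction r with
  | zero =>
    intro N
    rw [pow_zero, pow_zero]
    have h1 : ∑ n ∈ Finset.Ioc 0 N, (1 : ArithmeticFunction ℝ) n =
        (((Finset.Ioc 0 N).filter fun n => n = 1).card : ℝ) := by
      rw [Finset.card_filter]
      push_cast
      exact Finset.sum_congr rfl fun n _ => ArithmeticFunction.one_apply
    rw [h1]
    have h2 : ((Finset.Ioc 0 N).filter fun n => n = 1).card ≤ 1 := by
      calc ((Finset.Ioc 0 N).filter fun n => n = 1).card ≤ ({1} : Finset ℕ).card :=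
            Finset.card_le_card fun n hn => by
              rw [Finset.mem_filter] at hn
              exact Finset.mem_singleton.2 hn.2
        _ = 1 := by simp
    exact_mod_cast h2
  | succ r ih =>
    intro N
    rw [pow_succ', ArithmeticFunction.sum_Ioc_mul_eq_sum_sum]
    calc ∑ n ∈ Finset.Ioc 0 N, uy y n * ∑ m ∈ Finset.Ioc 0 (N / n), ((uy y) ^ r) m ≤
        ∑ n ∈ Finset.Ioc 0 N, uy y n * y ^ r :=
          Finset.sum_le_sum fun n _ => mul_le_mul_of_nonneg_left (ih _) (uy_le y n).1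
      _ = (∑ n ∈ Finset.Ioc 0 N, uy y n) * y ^ r := by rw [Finset.sum_mul]
      _ ≤ y * y ^ r := mul_le_mul_of_nonneg_right (sum_uy y hy N) (pow_nonneg hy r)
      _ = y ^ (r + 1) := by rw [pow_succ']

theorem split (r : ℕ) (y : ℝ) : (ζ : ArithmeticFunction ℝ) ^ r =
    (uy y) ^ r + ((ζ : ArithmeticFunction ℝ) - uy y) * Wy r y := by
  have h := (Commute.all (uy y) (ζ : ArithmeticFunction ℝ)).mul_geom_sum₂ r
  have h2 : (uy y - (ζ : ArithmeticFunction ℝ)) * Wy r y =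
      (uy y) ^ r - (ζ : ArithmeticFunction ℝ) ^ r := h
  have h3 : ((ζ : ArithmeticFunction ℝ) - uy y) * Wy r y =
      - ((uy y - (ζ : ArithmeticFunction ℝ)) * Wy r y) := by ring
  rw [h3, h2]
  ring

end IR1

theorem prR1 : tsR1 := by
  intro r y hr hy
  have hy0 : 0 ≤ y := by linarith
  refine ⟨fun m => ?_, fun n => ?_, fun N => ?_, fun n hn => ?_⟩
  · rw [IR1.Wy_apply]
    constructor
    · exact Finset.sum_nonneg fun i hi => (IR1.term r i (Finset.mem_range.1 hi) y m).1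
    · calc ∑ i ∈ Finset.range r, ((uy y) ^ i * (ζ : ArithmeticFunction ℝ) ^ (r - 1 - i)) m ≤
          ∑ _i ∈ Finset.range r, dr r m :=
            Finset.sum_le_sum fun i hi => (IR1.term r i (Finset.mem_range.1 hi) y m).2
        _ = r * dr r m := by rw [Finset.sum_const, Finset.card_range, nsmul_eq_mul]
  · rw [← IR1.z_pow]
    exact IR1.pow_le _ _ (IR1.uy_le y) r n
  · have h : Finset.Icc 1 N = Finset.Ioc 0 N := by
      ext a
      simp only [Finset.mem_Icc, Finset.mem_Ioc]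
      omega
    rw [h]
    exact IR1.sum_uy_pow y hy0 r N
  · rw [← IR1.z_pow, IR1.split r y, ArithmeticFunction.add_apply]
    congr 1
    rw [ArithmeticFunction.mul_apply, Nat.sum_divisorsAntidiagonal'
      (f := fun a b => ((ζ : ArithmeticFunction ℝ) - uy y) a * Wy r y b), Finset.sum_filter]
    refine Finset.sum_congr rfl fun m hm => ?_
    have hmn : m ∣ n := Nat.dvd_of_mem_divisors hm
    have hm0 : 0 < m := Nat.pos_of_dvd_of_pos hmn hn
    have hq0 : n / m ≠ 0 := by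
      have := Nat.div_pos (Nat.le_of_dvd hn hmn) hm0
      omega
    have hcast : ((n / m : ℕ) : ℝ) * m = n := by
      exact_mod_cast Nat.div_mul_cancel hmn
    have hm0R : (0 : ℝ) < m := by exact_mod_cast hm0
    rw [sub_eq_add_neg, ArithmeticFunction.add_apply, ArithmeticFunction.neg_apply,
      IR1.z_apply, IR1.uy_apply, if_neg hq0]
    by_cases h : (m : ℝ) * y < n
    · rw [if_pos h, if_neg]
      · ring
      · rintro ⟨_, h2⟩
        have : (n : ℝ) ≤ m * y := by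
          rw [← hcast, mul_comm]
          exact mul_le_mul_of_nonneg_left h2 hm0R.le
        linarith
    · rw [if_neg h, if_pos]
      · ring
      · refine ⟨hq0, ?_⟩
        by_contra h2
        push Not at h2
        apply h
        rw [← hcast, mul_comm]
        exact mul_lt_mul_of_pos_right h2 hm0R

end Pool.Agent.Work.MP_122e00_nt.TS
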