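import Pool.Agent.Work.MP_122e00_nt.TS.Stmts4

/-!
# Thin shifts, item R10: the mean square over short intervals
-/

namespace Pool.Agent.Work.MP_122e00_nt.TS

open Finset Filter Topology

namespace IR10

lemma norm_ee (x : ℝ) : ‖ee x‖ = 1 := Complex.norm_exp_ofReal_mul_I _

lemma wn_eq (u : ℕ → ℝ) {N L x : ℕ} (γ : ℝ) (hx : x ≤ N) (hL : L ≤ x) :
    wn u N L x γ = ∑ n ∈ Finset.Ioc (x - L) x, (u n : ℂ) * ee (n * γ) := by
  unfold wn
  congr 1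
  ext n
  rw [Finset.mem_filter, Finset.mem_Icc, Finset.mem_Ioc]
  omega

lemma wn_le {u : ℕ → ℝ} {N L x : ℕ} {γ B : ℝ} (hB : 0 ≤ B)
    (h : ∀ n, 1 ≤ n → n ≤ N → |u n| ≤ B) : ‖wn u N L x γ‖ ≤ L * B := by
  unfold wn
  have h1 : ∀ n ∈ (Finset.Icc 1 N).filter (fun n => n ≤ x ∧ x < n + L),
      ‖(u n : ℂ) * ee (n * γ)‖ ≤ B := by
    intro n hn
    rw [Finset.mem_filter, Finset.mem_Icc] at hn
    rw [norm_mul, norm_ee, mul_one, Complex.norm_real, Real.norm_eq_abs]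
    exact h n hn.1.1 hn.1.2
  refine (norm_sum_le_of_le _ h1).trans ?_
  rw [Finset.sum_const, nsmul_eq_mul]
  refine mul_le_mul_of_nonneg_right ?_ hB
  have h2 : (Finset.Icc 1 N).filter (fun n => n ≤ x ∧ x < n + L) ⊆ Finset.Ioc (x - L) x := by
    intro n hn
    rw [Finset.mem_filter, Finset.mem_Icc] at hn
    rw [Finset.mem_Ioc]
    omega
  have h3 := Finset.card_le_card h2
  rw [Nat.card_Ioc] at h3
  have h4 : x - (x - L) ≤ L := by omega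
  exact_mod_cast h3.trans h4

/-- the good positions -/
def good (N L β i₀ : ℕ) : Finset ℕ :=
  (Finset.Icc 1 (N + L)).filter fun x => x ≤ N ∧ i₀ ≤ x / β ∧ x / β * β + L ≤ x

lemma good_sum {f : ℕ → ℝ} {N L β i₀ : ℕ} {Y : ℝ} (hβ : 0 < β)
    (h : ∀ i, i₀ ≤ i → i ≤ N / β →
      ∑ x ∈ (Finset.Icc (i * β + L) (i * β + β)).filter (fun x => x ≤ N), f x ≤ Y)
    (hf : ∀ x, 0 ≤ f x) (hY : 0 ≤ Y) :
    ∑ x ∈ good N L β i₀, f x ≤ ((N / β : ℕ) + 1) * Y := by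
  have hmap : ∀ x ∈ good N L β i₀, x / β ∈ Finset.Icc i₀ (N / β) := by
    intro x hx
    rw [good, Finset.mem_filter] at hx
    rw [Finset.mem_Icc]
    exact ⟨hx.2.2.1, Nat.div_le_div_right hx.2.1⟩
  rw [← Finset.sum_fiberwise_of_maps_to hmap]
  have h1 : ∀ i ∈ Finset.Icc i₀ (N / β), ∑ x ∈ (good N L β i₀).filter (fun x => x / β = i), f x ≤
      Y := by
    intro i hi
    rw [Finset.mem_Icc] at hi
    refine le_trans (Finset.sum_le_sum_of_subset_of_nonneg ?_ fun x _ _ => hf x) (h i hi.1 hi.2)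
    intro x hx
    rw [Finset.mem_filter, good, Finset.mem_filter] at hx
    obtain ⟨⟨-, hxN, -, hxL⟩, hxi⟩ := hx
    rw [hxi] at hxL
    rw [Finset.mem_filter, Finset.mem_Icc]
    have h2 := Nat.lt_mul_div_succ x hβ
    rw [hxi] at h2
    have h3 : β * (i + 1) = i * β + β := by ring
    exact ⟨⟨hxL, by omega⟩, hxN⟩
  refine (Finset.sum_le_card_nsmul _ _ _ h1).trans ?_
  rw [nsmul_eq_mul]
  refine mul_le_mul_of_nonneg_right ?_ hY
  rw [Nat.card_Icc]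
  have h4 : N / β + 1 - i₀ ≤ N / β + 1 := Nat.sub_le _ _
  exact_mod_cast h4

lemma bad_card {N L β i₀ : ℕ} (hβ : 0 < β) :
    (Finset.Icc 1 (N + L) \ good N L β i₀).card ≤ i₀ * β + (N / β + 1) * L + L := by
  have hsub : Finset.Icc 1 (N + L) \ good N L β i₀ ⊆ (Finset.range (i₀ * β) ∪
      (Finset.range (N / β + 1)).biUnion (fun i => Finset.Ico (i * β) (i * β + L))) ∪
      Finset.Ioc N (N + L) := by
    intro x hx
    rw [Finset.mem_sdiff, good, Finset.mem_filter] at hx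
    obtain ⟨hx1, hx2⟩ := hx
    rw [Finset.mem_union, Finset.mem_union]
    by_cases hN : x ≤ N
    · left
      by_cases hi : i₀ ≤ x / β
      · right
        rw [Finset.mem_biUnion]
        refine ⟨x / β, ?_, ?_⟩
        · rw [Finset.mem_range]
          exact Nat.lt_succ_of_le (Nat.div_le_div_right hN)
        · rw [Finset.mem_Ico]
          refine ⟨Nat.div_mul_le_self x β, ?_⟩
          by_contra h
          exact hx2 ⟨hx1, hN, hi, by omega⟩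
      · left
        rw [Finset.mem_range]
        exact Nat.lt_mul_of_div_lt (by omega) hβ
    · right
      rw [Finset.mem_Icc] at hx1
      rw [Finset.mem_Ioc]
      omega
  refine (Finset.card_le_card hsub).trans ?_
  refine (Finset.card_union_le _ _).trans (Nat.add_le_add ((Finset.card_union_le _ _).trans
    (Nat.add_le_add (by rw [Finset.card_range]) ?_)) (by rw [Nat.card_Ioc]; omega))
  refine Finset.card_biUnion_le.trans ?_
  refine (Finset.sum_le_card_nsmul _ _ L fun i _ => ?_).trans (by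
    rw [Finset.card_range, smul_eq_mul])
  rw [Nat.card_Ico]
  omega

lemma split {f : ℕ → ℝ} {N L β i₀ : ℕ} {Y Z : ℝ} (hβ : 0 < β)
    (h : ∀ i, i₀ ≤ i → i ≤ N / β →
      ∑ x ∈ (Finset.Icc (i * β + L) (i * β + β)).filter (fun x => x ≤ N), f x ≤ Y)
    (hf : ∀ x, 0 ≤ f x) (hfZ : ∀ x, f x ≤ Z) (hY : 0 ≤ Y) (hZ : 0 ≤ Z) :
    ∑ x ∈ Finset.Icc 1 (N + L), f x ≤
      ((N / β : ℕ) + 1) * Y + ((i₀ : ℝ) * β + ((N / β : ℕ) + 1) * L + L) * Z := by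
  have hsub : good N L β i₀ ⊆ Finset.Icc 1 (N + L) := Finset.filter_subset _ _
  rw [← Finset.sum_sdiff hsub, add_comm]
  refine add_le_add (good_sum hβ h hf hY) ?_
  refine (Finset.sum_le_card_nsmul _ _ Z fun x _ => hfZ x).trans ?_
  rw [nsmul_eq_mul]
  refine mul_le_mul_of_nonneg_right ?_ hZ
  exact_mod_cast bad_card hβ

/-- pointwise bound -/
lemma fl_le (hL0 : tsL0) (hF6 : tsF6) (r : ℕ) (E : ℕ → Polynomial ℝ)
    (hE : ∀ q, (E q).natDegree ≤ r - 1) (hCB : CB E) (ε : ℝ) (hε : 0 < ε) (hε1 : ε ≤ 1) :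
    ∃ C : ℝ, 0 < C ∧ ∀ (X : ℝ) (Q n : ℕ), 1 ≤ X → (Q : ℝ) ≤ X → 1 ≤ n → (n : ℝ) ≤ 2 * X →
      |fl r E Q n| ≤ C * X ^ ε := by
  obtain ⟨C₁, hC₁, h1⟩ := hL0 r ε hε
  obtain ⟨C₂, hC₂, h2⟩ := hF6 r E hE hCB ε hε
  refine ⟨2 * C₁ + C₂, by positivity, fun X Q n hX hQ hn hnX => ?_⟩
  have h3 := h2 X Q n hX hQ hn hnX
  have h4 := h1 n hn
  have h5 : 0 ≤ dr r n := by
    unfold dr
    exact Nat.cast_nonneg _
  have h6 : (n : ℝ) ^ ε ≤ 2 * X ^ ε := by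
    calc (n : ℝ) ^ ε ≤ (2 * X) ^ ε := Real.rpow_le_rpow (Nat.cast_nonneg _) hnX hε.le
      _ = 2 ^ ε * X ^ ε := Real.mul_rpow (by norm_num) (by linarith)
      _ ≤ 2 * X ^ ε := by
        refine mul_le_mul_of_nonneg_right ?_ (Real.rpow_nonneg (by linarith) _)
        calc (2 : ℝ) ^ ε ≤ 2 ^ (1 : ℝ) := Real.rpow_le_rpow_of_exponent_le (by norm_num) hε1
          _ = 2 := Real.rpow_one 2
  unfold fl
  have h7 : |dr r n - fs E Q n| ≤ |dr r n| + |fs E Q n| := abs_sub _ _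
  rw [abs_of_nonneg h5] at h7
  have h8 : C₁ * (n : ℝ) ^ ε ≤ C₁ * (2 * X ^ ε) := mul_le_mul_of_nonneg_left h6 hC₁.le
  have h9 : (2 * C₁ + C₂) * X ^ ε = C₁ * (2 * X ^ ε) + C₂ * X ^ ε := by ring
  rw [h9]
  linarith

end IR10

open IR10 in
theorem prR10 (hL0 : tsL0) (hF6 : tsF6) (hR9 : tsR9) : tsR10 := by
  intro r E hr hAP hCB θ₁ θ₂ hθ₁ hrθ hθ hθ₂
  obtain ⟨δ₁, X9, hδ0, hδ1, hδ2, h9⟩ := hR9 r E hr hAP hCB θ₁ θ₂ hθ₁ hrθ hθ hθ₂
  obtain ⟨C, hC, hfl⟩ := fl_le hL0 hF6 r E hAP.1 hCB (δ₁ / 16) (by positivity) (by linarith)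
  have hev : ∀ᶠ X : ℝ in atTop, 2 ≤ X ^ (1 - δ₁) ∧ 5 + 8 * C ^ 2 ≤ X ^ (δ₁ / 200) ∧ 1 ≤ X ∧
      X9 ≤ X :=
    ((tendsto_rpow_atTop (by linarith)).eventually_ge_atTop 2).and
      (((tendsto_rpow_atTop (by positivity)).eventually_ge_atTop (5 + 8 * C ^ 2)).and
        ((eventually_ge_atTop 1).and (eventually_ge_atTop X9)))
  obtain ⟨X0, hX0⟩ := Filter.eventually_atTop.1 hev
  refine ⟨δ₁ / 20, δ₁ / 50, X0, by positivity, by linarith, by positivity, ?_⟩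
  intro X γ N L hX hN hL1 hL2
  obtain ⟨hX2, hXC, hX1, hX9⟩ := hX0 X hX
  have hXpos : 0 < X := by linarith
  set Q : ℕ := ⌊X ^ (δ₁ / 20)⌋₊ with hQ
  have hQX : (Q : ℝ) ≤ X := by
    refine (Nat.floor_le (Real.rpow_nonneg hXpos.le _)).trans ?_
    calc X ^ (δ₁ / 20) ≤ X ^ (1 : ℝ) := Real.rpow_le_rpow_of_exponent_le hX1 (by linarith)
      _ = X := Real.rpow_one X
  set β : ℕ := ⌊X ^ (1 - δ₁)⌋₊ with hβ
  have hβle : (β : ℝ) ≤ X ^ (1 - δ₁) := Nat.floor_le (Real.rpow_nonneg hXpos.le _)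
  have hβge : X ^ (1 - δ₁) / 2 ≤ β := by
    have h1 := Nat.lt_floor_add_one (X ^ (1 - δ₁))
    rw [← hβ] at h1
    linarith
  have hβ0 : 0 < β := by
    have h1 : (0 : ℝ) < β := by linarith
    exact_mod_cast h1
  have hβpos : (0 : ℝ) < β := by exact_mod_cast hβ0
  set P : ℝ := X ^ (1 - δ₁ / 2) with hP
  have hP0 : 0 < P := Real.rpow_pos_of_pos hXpos _
  have hβP : (β : ℝ) ≤ P :=
    hβle.trans (Real.rpow_le_rpow_of_exponent_le hX1 (by linarith))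
  set i₀ : ℕ := ⌈P / β⌉₊ with hi₀
  have hi₀1 : P ≤ i₀ * β := by
    rw [← div_le_iff₀ hβpos]
    exact Nat.le_ceil _
  have hi₀2 : (i₀ : ℝ) * β ≤ 2 * P := by
    have h1 := Nat.ceil_lt_add_one (div_nonneg hP0.le hβpos.le)
    rw [← hi₀] at h1
    have h2 : (i₀ : ℝ) * β ≤ (P / β + 1) * β := mul_le_mul_of_nonneg_right h1.le hβpos.le
    rw [add_mul, div_mul_cancel₀ _ hβpos.ne', one_mul] at h2
    linarith
  set D : ℝ := X ^ δ₁ with hD
  have hD1 : 1 ≤ D := Real.one_le_rpow hX1 hδ0.le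
  have hXD : X = X ^ (1 - δ₁) * D := by
    rw [hD, ← Real.rpow_add hXpos]
    norm_num
  have hblocks : ((N / β : ℕ) : ℝ) + 1 ≤ 5 * D := by
    have h1 : ((N / β : ℕ) : ℝ) ≤ N / β := Nat.cast_div_le
    have h2 : (N : ℝ) / β ≤ 4 * D := by
      rw [div_le_iff₀ hβpos]
      calc (N : ℝ) ≤ 2 * X := hN
        _ = 4 * D * (X ^ (1 - δ₁) / 2) := by linear_combination 2 * hXD
        _ ≤ 4 * D * β := mul_le_mul_of_nonneg_left hβge (by positivity)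
    linarith
  set Y : ℝ := (L : ℝ) ^ 2 * X ^ (1 - δ₁ - δ₁ / 40) with hY
  set Z : ℝ := ((L : ℝ) * (C * X ^ (δ₁ / 16))) ^ 2 with hZ
  have hY0 : 0 ≤ Y := by positivity
  have hZ0 : 0 ≤ Z := by positivity
  have hLpos : 1 ≤ L := by
    have h1 : (0 : ℝ) < L := lt_of_lt_of_le (Real.rpow_pos_of_pos hXpos _) hL1
    exact_mod_cast h1
  have hsplit := split (f := fun x => ‖wn (fl r E Q) N L x γ‖ ^ 2) (N := N) (L := L) (β := β)
    (i₀ := i₀) (Y := Y) (Z := Z) hβ0 (by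
      intro i hi1 hi2
      have hiβ : i * β ≤ N := (Nat.mul_le_mul_right β hi2).trans (Nat.div_mul_le_self N β)
      have hiβ' : (i : ℝ) * β ≤ N := by exact_mod_cast hiβ
      have hPi : P ≤ ((i * β : ℕ) : ℝ) := by
        push_cast
        refine hi₀1.trans (mul_le_mul_of_nonneg_right ?_ hβpos.le)
        exact_mod_cast hi1
      have h1 := h9 X γ (i * β) (i * β + β) L hX9 hPi (by
          push_cast
          have h2 : X ^ (1 - δ₁) ≤ X := by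
            calc X ^ (1 - δ₁) ≤ X ^ (1 : ℝ) :=
                  Real.rpow_le_rpow_of_exponent_le hX1 (by linarith)
              _ = X := Real.rpow_one X
          linarith) (by push_cast; linarith) (by push_cast; linarith) hL1 hL2
      refine le_trans ?_ h1
      refine le_trans (Finset.sum_le_sum (g := fun x => ‖∑ n ∈ Finset.Ioc (x - L) x,
        ((fl r E Q n : ℝ) : ℂ) * ee (n * γ)‖ ^ 2) fun x hx => ?_)
        (Finset.sum_le_sum_of_subset_of_nonneg (Finset.filter_subset _ _)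
          fun x _ _ => by positivity)
      rw [Finset.mem_filter, Finset.mem_Icc] at hx
      rw [wn_eq _ _ hx.2 (by omega)])
    (fun x => by positivity) (fun x => by
      rw [hZ]
      refine pow_le_pow_left₀ (norm_nonneg _) (wn_le (by positivity) fun n hn1 hn2 => ?_) 2
      exact hfl X Q n hX1 hQX hn1 (le_trans (by exact_mod_cast hn2) hN)) hY0 hZ0
  unfold SI
  refine hsplit.trans ?_
  -- the good positions
  have hg : (((N / β : ℕ) : ℝ) + 1) * Y ≤ 5 * ((L : ℝ) ^ 2 * X ^ (1 - δ₁ / 40)) := by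
    refine (mul_le_mul_of_nonneg_right hblocks hY0).trans (le_of_eq ?_)
    have h1 : X ^ (1 - δ₁ / 40) = D * X ^ (1 - δ₁ - δ₁ / 40) := by
      rw [hD, ← Real.rpow_add hXpos]
      congr 1
      ring
    rw [h1, hY]
    ring
  -- the bad positions
  have hDT : D * L ≤ P := by
    calc D * (L : ℝ) ≤ D * X ^ θ₂ := mul_le_mul_of_nonneg_left hL2 (by linarith)
      _ = X ^ (δ₁ + θ₂) := by rw [hD, ← Real.rpow_add hXpos]
      _ ≤ P := Real.rpow_le_rpow_of_exponent_le hX1 (by linarith)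
  have hcount : (i₀ : ℝ) * β + (((N / β : ℕ) : ℝ) + 1) * L + L ≤ 8 * P := by
    have hL0' : (0 : ℝ) ≤ L := Nat.cast_nonneg L
    have h1 : (((N / β : ℕ) : ℝ) + 1) * L ≤ 5 * D * L := mul_le_mul_of_nonneg_right hblocks hL0'
    have h2 : (L : ℝ) ≤ D * L := le_mul_of_one_le_left hL0' hD1
    linarith
  have hb : ((i₀ : ℝ) * β + (((N / β : ℕ) : ℝ) + 1) * L + L) * Z ≤
      8 * C ^ 2 * ((L : ℝ) ^ 2 * X ^ (1 - δ₁ / 40)) := by
    refine (mul_le_mul_of_nonneg_right hcount hZ0).trans ?_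
    have h1 : P * (X ^ (δ₁ / 16)) ^ 2 ≤ X ^ (1 - δ₁ / 40) := by
      rw [hP, pow_two, ← Real.rpow_add hXpos, ← Real.rpow_add hXpos]
      exact Real.rpow_le_rpow_of_exponent_le hX1 (by linarith)
    calc 8 * P * Z = 8 * C ^ 2 * ((L : ℝ) ^ 2 * (P * (X ^ (δ₁ / 16)) ^ 2)) := by rw [hZ]; ring
      _ ≤ 8 * C ^ 2 * ((L : ℝ) ^ 2 * X ^ (1 - δ₁ / 40)) := by gcongr
  refine (add_le_add hg hb).trans ?_
  have h2 : X ^ (1 - δ₁ / 50) = X ^ (δ₁ / 200) * X ^ (1 - δ₁ / 40) := by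
    rw [← Real.rpow_add hXpos]
    congr 1
    ring
  rw [h2]
  have h3 : 0 ≤ (L : ℝ) ^ 2 * X ^ (1 - δ₁ / 40) := by positivity
  calc 5 * ((L : ℝ) ^ 2 * X ^ (1 - δ₁ / 40)) + 8 * C ^ 2 * ((L : ℝ) ^ 2 * X ^ (1 - δ₁ / 40)) =
        (5 + 8 * C ^ 2) * ((L : ℝ) ^ 2 * X ^ (1 - δ₁ / 40)) := by ring
    _ ≤ X ^ (δ₁ / 200) * ((L : ℝ) ^ 2 * X ^ (1 - δ₁ / 40)) := mul_le_mul_of_nonneg_right hXC h3
    _ = (L : ℝ) ^ 2 * (X ^ (δ₁ / 200) * X ^ (1 - δ₁ / 40)) := by ring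

end Pool.Agent.Work.MP_122e00_nt.TS
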