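import Pool.Agent.Work.MP_122e00_nt.TS.Stmts4

/-!
# MP_122e00_nt, block TS, item R3 (helper92): Ramanujan sums over a window
-/

set_option autoImplicit false

namespace Pool.Agent.Work.MP_122e00_nt.TS

open Finset ArithmeticFunction

namespace IR3

theorem eeadd (a b : ℝ) : ee (a + b) = ee a * ee b := by
  unfold ee
  rw [← Complex.exp_add]
  congr 1
  push_cast
  ring

end IR3

theorem prR3 (hE1 : tsE1) : tsR3 := by
  intro s x L γ hs hL
  have h1 : ∀ n ∈ Finset.Ioc (x - L) x, ((Gh n s : ℝ) : ℂ) * ee (n * γ) =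
      ∑ c ∈ (Finset.range s).filter (fun c => Nat.Coprime c s),
        ee ((n : ℝ) * (γ + (c : ℝ) / s)) := by
    intro n _
    rw [← hE1 s n hs, Finset.sum_mul]
    refine Finset.sum_congr rfl fun c _ => ?_
    rw [← IR3.eeadd]
    congr 1
    ring
  rw [Finset.sum_congr rfl h1, Finset.sum_comm]
  refine Finset.sum_congr rfl fun c _ => ?_
  rw [Finset.mul_sum]
  symm
  refine Finset.sum_bij (fun h _ => x - h) ?_ ?_ ?_ ?_
  · intro h hh
    rw [Finset.mem_range] at hh
    rw [Finset.mem_Ioc]
    omega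
  · intro a ha b hb hab
    rw [Finset.mem_range] at ha hb
    omega
  · intro n hn
    rw [Finset.mem_Ioc] at hn
    refine ⟨x - n, ?_, ?_⟩
    · rw [Finset.mem_range]
      omega
    · omega
  · intro h hh
    rw [Finset.mem_range] at hh
    rw [← IR3.eeadd, Nat.cast_sub (by omega : h ≤ x)]
    congr 1
    ring

end Pool.Agent.Work.MP_122e00_nt.TS
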