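import Pool.Agent.Work.MP_122e00_nt.TS.Stmts4

/-!
# Item R4: the dual large sieve for Farey fractions
-/

namespace Pool.Agent.Work.MP_122e00_nt.TS

open Finset

namespace IR4

theorem ee_eq (x : ℝ) : Pool.Agent.Work.MP_122e00_nt.ee x = ee x := by
  unfold Pool.Agent.Work.MP_122e00_nt.ee ee
  congr 1
  push_cast
  ring

theorem ee_add (x y : ℝ) : ee (x + y) = ee x * ee y := by
  unfold ee
  rw [← Complex.exp_add]
  congr 1
  push_cast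
  ring

theorem norm_ee (x : ℝ) : ‖ee x‖ = 1 := by
  unfold ee
  exact Complex.norm_exp_ofReal_mul_I _

/-- duality -/
theorem dual {ι κ : Type*} (P : Finset ι) (R : Finset κ) (M : ι → κ → ℂ) (D : ℝ) (hD : 0 ≤ D)
    (h : ∀ b : κ → ℂ, ∑ p ∈ P, ‖∑ n ∈ R, b n * M p n‖ ^ 2 ≤ D * ∑ n ∈ R, ‖b n‖ ^ 2)
    (a : ι → ℂ) :
    ∑ n ∈ R, ‖∑ p ∈ P, a p * M p n‖ ^ 2 ≤ D * ∑ p ∈ P, ‖a p‖ ^ 2 := by
  set F : κ → ℂ := fun n => ∑ p ∈ P, a p * M p n with hF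
  set T : ℝ := ∑ n ∈ R, ‖F n‖ ^ 2 with hT
  have hT0 : 0 ≤ T := Finset.sum_nonneg (fun _ _ => by positivity)
  have hA0 : 0 ≤ ∑ p ∈ P, ‖a p‖ ^ 2 := Finset.sum_nonneg (fun _ _ => by positivity)
  have h1 : (T : ℂ) = ∑ p ∈ P, a p * ∑ n ∈ R, (starRingEnd ℂ) (F n) * M p n := by
    have e1 : (T : ℂ) = ∑ n ∈ R, (starRingEnd ℂ) (F n) * F n := by
      rw [hT]
      push_cast
      refine Finset.sum_congr rfl (fun n _ => ?_)
      rw [Complex.conj_mul']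
    rw [e1]
    simp only [Finset.mul_sum]
    rw [Finset.sum_comm]
    refine Finset.sum_congr rfl (fun n _ => ?_)
    rw [hF]
    simp only [Finset.mul_sum]
    refine Finset.sum_congr rfl (fun p _ => ?_)
    ring
  have h2 : T ≤ ∑ p ∈ P, ‖a p‖ * ‖∑ n ∈ R, (starRingEnd ℂ) (F n) * M p n‖ := by
    have e2 : T = ‖(T : ℂ)‖ := by
      rw [Complex.norm_real, Real.norm_of_nonneg hT0]
    rw [e2, h1]
    refine (norm_sum_le _ _).trans (le_of_eq ?_)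
    refine Finset.sum_congr rfl (fun p _ => ?_)
    rw [norm_mul]
  have h3 : T ^ 2 ≤ (∑ p ∈ P, ‖a p‖ ^ 2) *
      ∑ p ∈ P, ‖∑ n ∈ R, (starRingEnd ℂ) (F n) * M p n‖ ^ 2 :=
    (pow_le_pow_left₀ hT0 h2 2).trans (Finset.sum_mul_sq_le_sq_mul_sq _ _ _)
  have h4 : ∑ p ∈ P, ‖∑ n ∈ R, (starRingEnd ℂ) (F n) * M p n‖ ^ 2 ≤ D * T := by
    refine (h (fun n => (starRingEnd ℂ) (F n))).trans (le_of_eq ?_)
    rw [hT]
    congr 1
    refine Finset.sum_congr rfl (fun n _ => ?_)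
    rw [RCLike.norm_conj]
  have h5 : T ^ 2 ≤ (∑ p ∈ P, ‖a p‖ ^ 2) * (D * T) :=
    h3.trans (mul_le_mul_of_nonneg_left h4 hA0)
  rcases hT0.eq_or_lt with h0 | h0
  · rw [← h0]
    positivity
  · have h6 : T * T ≤ (D * ∑ p ∈ P, ‖a p‖ ^ 2) * T := by
      calc T * T = T ^ 2 := by ring
        _ ≤ _ := h5
        _ = _ := by ring
    exact le_of_mul_le_mul_right h6 h0

theorem sum_Ioc_shift (x₀ N : ℕ) (f : ℕ → ℂ) :
    ∑ x ∈ Finset.Ioc x₀ (x₀ + N), f x = ∑ n ∈ Finset.range N, f (x₀ + 1 + n) := by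
  have e : Finset.Ioc x₀ (x₀ + N) = Finset.Ico (x₀ + 1) (x₀ + 1 + N) := by
    ext x
    simp only [Finset.mem_Ioc, Finset.mem_Ico]
    omega
  rw [e, Finset.sum_Ico_eq_sum_range]
  congr 2
  omega

theorem sum_Ioc_shift' (x₀ N : ℕ) (f : ℕ → ℝ) :
    ∑ x ∈ Finset.Ioc x₀ (x₀ + N), f x = ∑ n ∈ Finset.range N, f (x₀ + 1 + n) := by
  have e : Finset.Ioc x₀ (x₀ + N) = Finset.Ico (x₀ + 1) (x₀ + 1 + N) := by
    ext x
    simp only [Finset.mem_Ioc, Finset.mem_Ico]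
    omega
  rw [e, Finset.sum_Ico_eq_sum_range]
  congr 2
  omega

theorem direct (S N x₀ : ℕ) (γ : ℝ) (hS : 1 ≤ S) (b : ℕ → ℂ) :
    ∑ s ∈ Finset.Ioc S (2 * S), ∑ c ∈ (Finset.range s).filter (fun c => Nat.Coprime c s),
      ‖∑ x ∈ Finset.Ioc x₀ (x₀ + N), b x * ee ((x : ℝ) * (γ + (c : ℝ) / s))‖ ^ 2 ≤
    (N + ((2 * S) ^ 2 : ℕ) * (harmonic ((2 * S) ^ 2) : ℝ)) *
      ∑ x ∈ Finset.Ioc x₀ (x₀ + N), ‖b x‖ ^ 2 := by
  have h := farey_ls (2 * S) (by omega) N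
    (fun n => ee (((x₀ + 1 + n : ℕ) : ℝ) * γ) * b (x₀ + 1 + n))
  have hr : ∑ n ∈ Finset.range N, ‖ee (((x₀ + 1 + n : ℕ) : ℝ) * γ) * b (x₀ + 1 + n)‖ ^ 2 =
      ∑ x ∈ Finset.Ioc x₀ (x₀ + N), ‖b x‖ ^ 2 := by
    rw [sum_Ioc_shift']
    refine Finset.sum_congr rfl (fun n _ => ?_)
    rw [norm_mul, norm_ee, one_mul]
  rw [hr] at h
  refine le_trans ?_ h
  have hsub : Finset.Ioc S (2 * S) ⊆ Finset.Icc 1 (2 * S) := by
    intro s hs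
    simp only [Finset.mem_Ioc, Finset.mem_Icc] at hs ⊢
    omega
  refine le_trans (le_of_eq ?_) (Finset.sum_le_sum_of_subset_of_nonneg hsub
    (fun _ _ _ => Finset.sum_nonneg (fun _ _ => by positivity)))
  refine Finset.sum_congr rfl (fun s _ => Finset.sum_congr rfl (fun c _ => ?_))
  congr 1
  rw [sum_Ioc_shift]
  have e : ∀ n ∈ Finset.range N, b (x₀ + 1 + n) *
      ee (((x₀ + 1 + n : ℕ) : ℝ) * (γ + (c : ℝ) / s)) =
      ee (((x₀ + 1 : ℕ) : ℝ) * ((c : ℝ) / s)) *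
        (ee (((x₀ + 1 + n : ℕ) : ℝ) * γ) * b (x₀ + 1 + n) *
          Pool.Agent.Work.MP_122e00_nt.ee ((n : ℝ) * ((c : ℝ) / s))) := by
    intro n _
    rw [ee_eq]
    have e1 : ((x₀ + 1 + n : ℕ) : ℝ) * (γ + (c : ℝ) / s) =
        ((x₀ + 1 : ℕ) : ℝ) * ((c : ℝ) / s) + (((x₀ + 1 + n : ℕ) : ℝ) * γ +
          (n : ℝ) * ((c : ℝ) / s)) := by
      push_cast
      ring
    rw [e1, ee_add, ee_add]
    ring
  rw [Finset.sum_congr rfl e, ← Finset.mul_sum, norm_mul, norm_ee, one_mul]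

theorem delta (S N : ℕ) (hS : 1 ≤ S) :
    (N : ℝ) + ((2 * S) ^ 2 : ℕ) * (harmonic ((2 * S) ^ 2) : ℝ) ≤
      8 * ((N : ℝ) + (S : ℝ) ^ 2 * (1 + Real.log (2 * S))) := by
  have h1 := harmonic_le_one_add_log ((2 * S) ^ 2)
  have hS' : (1 : ℝ) ≤ S := by exact_mod_cast hS
  have h2 : Real.log (((2 * S) ^ 2 : ℕ) : ℝ) = 2 * Real.log (2 * S) := by
    push_cast
    rw [Real.log_pow]
    push_cast
    ring
  rw [h2] at h1
  have hl : 0 ≤ Real.log (2 * S) := Real.log_nonneg (by linarith)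
  have h3 : (((2 * S) ^ 2 : ℕ) : ℝ) * (harmonic ((2 * S) ^ 2) : ℝ) ≤
      (((2 * S) ^ 2 : ℕ) : ℝ) * (1 + 2 * Real.log (2 * S)) :=
    mul_le_mul_of_nonneg_left h1 (by positivity)
  have h4 : (((2 * S) ^ 2 : ℕ) : ℝ) = 4 * (S : ℝ) ^ 2 := by
    push_cast
    ring
  rw [h4] at h3 ⊢
  have hN : (0 : ℝ) ≤ N := Nat.cast_nonneg _
  nlinarith [sq_nonneg (S : ℝ)]

end IR4

open IR4 in
theorem prR4 : tsR4 := by
  refine ⟨8, by norm_num, ?_⟩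
  intro S N x₀ γ A hS
  have hH : (0 : ℝ) ≤ (harmonic ((2 * S) ^ 2) : ℝ) := by
    rw [harmonic_eq_sum_Icc]
    push_cast
    exact Finset.sum_nonneg (fun _ _ => by positivity)
  set D : ℝ := (N : ℝ) + ((2 * S) ^ 2 : ℕ) * (harmonic ((2 * S) ^ 2) : ℝ) with hD
  have hD0 : 0 ≤ D := by positivity
  set P : Finset ((_ : ℕ) × ℕ) := (Finset.Ioc S (2 * S)).sigma
    (fun s => (Finset.range s).filter (fun c => Nat.Coprime c s)) with hP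
  have h := dual P (Finset.Ioc x₀ (x₀ + N))
    (fun p x => ee ((x : ℝ) * (γ + (p.2 : ℝ) / p.1))) D hD0 ?_ (fun p => A p.1 p.2)
  · rw [hP, Finset.sum_sigma] at h
    simp only [Finset.sum_sigma] at h
    refine h.trans ?_
    refine mul_le_mul_of_nonneg_right (delta S N hS) ?_
    exact Finset.sum_nonneg (fun _ _ => Finset.sum_nonneg (fun _ _ => by positivity))
  · intro b
    rw [hP, Finset.sum_sigma]
    exact direct S N x₀ γ hS b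

end Pool.Agent.Work.MP_122e00_nt.TS
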