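import Mathlib
import Pool.Agent.Work.MP_122e00_nt.TS.Stmts4

/-!
# Thin shifts, item R5: the mean square over short intervals of a combination of Ramanujan sums
-/

namespace Pool.Agent.Work.MP_122e00_nt.TS

open Finset Filter Topology ArithmeticFunction
open scoped ArithmeticFunction.zeta ArithmeticFunction.Moebius

namespace IR5

/-- the coefficients, cut at `S₀` and `M` -/
noncomputable def hc (h : ℕ → ℝ) (S₀ M s : ℕ) : ℝ := if S₀ < s ∧ s ≤ M then h s else 0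

/-- the kernel -/
noncomputable def GG (L s : ℕ) (γ : ℝ) (c : ℕ) : ℂ :=
  ∑ h ∈ Finset.range L, ee (-((h : ℝ) * (γ + (c : ℝ) / s)))

/-- the contribution of one block -/
noncomputable def FF (u : ℕ → ℝ) (S L x : ℕ) (γ : ℝ) : ℂ :=
  ∑ s ∈ Finset.Ioc S (2 * S), ∑ c ∈ (Finset.range s).filter (fun c => Nat.Coprime c s),
    ((u s : ℂ) * GG L s γ c) * ee ((x : ℝ) * (γ + (c : ℝ) / s))

theorem block_eq (h3 : tsR3) (u : ℕ → ℝ) (S L x : ℕ) (γ : ℝ) (hL : L ≤ x) :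
    ∑ n ∈ Finset.Ioc (x - L) x, ((∑ s ∈ Finset.Ioc S (2 * S), u s * Gh n s : ℝ) : ℂ) *
      ee (n * γ) = FF u S L x γ := by
  have e1 : ∀ n ∈ Finset.Ioc (x - L) x,
      ((∑ s ∈ Finset.Ioc S (2 * S), u s * Gh n s : ℝ) : ℂ) * ee (n * γ) =
      ∑ s ∈ Finset.Ioc S (2 * S), (u s : ℂ) * (((Gh n s : ℝ) : ℂ) * ee (n * γ)) := by
    intro n _
    push_cast
    rw [Finset.sum_mul]
    exact Finset.sum_congr rfl fun s _ => by ring
  rw [Finset.sum_congr rfl e1, Finset.sum_comm]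
  unfold FF
  refine Finset.sum_congr rfl fun s hs => ?_
  rw [Finset.mem_Ioc] at hs
  rw [← Finset.mul_sum, h3 s x L γ (by omega) hL, Finset.mul_sum]
  refine Finset.sum_congr rfl fun c _ => ?_
  unfold GG
  ring

theorem block_bound (h6 : tsR6) (C : ℝ) (hC : 0 < C)
    (h4 : ∀ (S N' x₀ : ℕ) (γ : ℝ) (A : ℕ → ℕ → ℂ), 1 ≤ S →
      ∑ x ∈ Finset.Ioc x₀ (x₀ + N'), ‖∑ s ∈ Finset.Ioc S (2 * S),
        ∑ c ∈ (Finset.range s).filter (fun c => Nat.Coprime c s),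
          A s c * ee ((x : ℝ) * (γ + (c : ℝ) / s))‖ ^ 2 ≤
      C * ((N' : ℝ) + (S : ℝ) ^ 2 * (1 + Real.log (2 * S))) *
        ∑ s ∈ Finset.Ioc S (2 * S), ∑ c ∈ (Finset.range s).filter (fun c => Nat.Coprime c s),
          ‖A s c‖ ^ 2)
    (u : ℕ → ℝ) (A : ℝ) (hA : 0 ≤ A) (hu : ∀ s : ℕ, 1 ≤ s → |u s| ≤ A / s)
    (S L N' x₀ : ℕ) (γ : ℝ) (hS : 1 ≤ S) :
    ∑ x ∈ Finset.Ioc x₀ (x₀ + N'), ‖FF u S L x γ‖ ^ 2 ≤
      C * ((N' : ℝ) + (S : ℝ) ^ 2 * (1 + Real.log (2 * S))) *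
        (A ^ 2 * ((L : ℝ) ^ 2 / S + 2 * L)) := by
  have hS0 : (0 : ℝ) < S := by exact_mod_cast hS
  have hS1 : (1 : ℝ) ≤ S := by exact_mod_cast hS
  refine (h4 S N' x₀ γ (fun s c => (u s : ℂ) * GG L s γ c) hS).trans ?_
  have hlog : 0 ≤ Real.log (2 * S) := Real.log_nonneg (by linarith)
  refine mul_le_mul_of_nonneg_left ?_ (by positivity)
  have hone : ∀ s ∈ Finset.Ioc S (2 * S),
      ∑ c ∈ (Finset.range s).filter (fun c => Nat.Coprime c s), ‖(u s : ℂ) * GG L s γ c‖ ^ 2 ≤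
        (A / S) ^ 2 * ((L : ℝ) ^ 2 + 2 * S * L) := by
    intro s hs
    rw [Finset.mem_Ioc] at hs
    have hs1 : 1 ≤ s := by omega
    have hs0 : (0 : ℝ) < s := by exact_mod_cast hs1
    have hsS : (S : ℝ) ≤ s := by exact_mod_cast hs.1.le
    have hs2 : (s : ℝ) ≤ 2 * S := by exact_mod_cast hs.2
    have e1 : ∑ c ∈ (Finset.range s).filter (fun c => Nat.Coprime c s),
        ‖(u s : ℂ) * GG L s γ c‖ ^ 2 ≤ ∑ c ∈ Finset.range s, ‖(u s : ℂ) * GG L s γ c‖ ^ 2 :=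
      Finset.sum_le_sum_of_subset_of_nonneg (Finset.filter_subset _ _) fun _ _ _ => sq_nonneg _
    have e2 : ∑ c ∈ Finset.range s, ‖(u s : ℂ) * GG L s γ c‖ ^ 2 =
        |u s| ^ 2 * ∑ c ∈ Finset.range s, ‖GG L s γ c‖ ^ 2 := by
      rw [Finset.mul_sum]
      refine Finset.sum_congr rfl fun c _ => ?_
      rw [norm_mul, Complex.norm_real, Real.norm_eq_abs, mul_pow]
    have e3 : ∑ c ∈ Finset.range s, ‖GG L s γ c‖ ^ 2 ≤ (L : ℝ) ^ 2 + s * L := h6 s L γ hs1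
    have hL0 : (0 : ℝ) ≤ L := Nat.cast_nonneg L
    have e4 : |u s| ≤ A / S := (hu s hs1).trans (div_le_div_of_nonneg_left hA hS0 hsS)
    have e5 : |u s| ^ 2 ≤ (A / S) ^ 2 := pow_le_pow_left₀ (abs_nonneg _) e4 2
    have e6 : (L : ℝ) ^ 2 + s * L ≤ (L : ℝ) ^ 2 + 2 * S * L := by
      have := mul_le_mul_of_nonneg_right hs2 hL0
      linarith
    calc _ ≤ |u s| ^ 2 * ∑ c ∈ Finset.range s, ‖GG L s γ c‖ ^ 2 := e2 ▸ e1
      _ ≤ (A / S) ^ 2 * ((L : ℝ) ^ 2 + 2 * S * L) :=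
        mul_le_mul e5 (e3.trans e6) (Finset.sum_nonneg fun _ _ => sq_nonneg _) (sq_nonneg _)
  refine (Finset.sum_le_sum hone).trans (le_of_eq ?_)
  rw [Finset.sum_const, Nat.card_Ioc, nsmul_eq_mul]
  have : ((2 * S - S : ℕ) : ℝ) = S := by
    have : 2 * S - S = S := by omega
    rw [this]
  rw [this]
  field_simp

theorem dyadic (S₀ : ℕ) (f : ℕ → ℝ) (I : ℕ) :
    ∑ s ∈ Finset.Ioc S₀ (2 ^ I * S₀), f s =
      ∑ i ∈ Finset.range I, ∑ s ∈ Finset.Ioc (2 ^ i * S₀) (2 * (2 ^ i * S₀)), f s := by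
  induction I with
  | zero => simp
  | succ I ih =>
    rw [Finset.sum_range_succ, ← ih]
    have h1 : S₀ ≤ 2 ^ I * S₀ := Nat.le_mul_of_pos_left _ (by positivity)
    have h2 : 2 ^ (I + 1) * S₀ = 2 * (2 ^ I * S₀) := by ring
    rw [h2]
    exact (Finset.sum_Ioc_consecutive f h1 (by omega)).symm

/-- the numbers -/
theorem num (N' S S₀ L M lS Lm A : ℝ) (hN : 0 ≤ N') (hS₀ : 0 < S₀) (hS : S₀ ≤ S) (hM : S ≤ M)
    (hL : 0 < L) (hl : lS ≤ Lm) (hl0 : 0 ≤ lS) (hLm : 1 ≤ Lm) :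
    (N' + S ^ 2 * lS) * (A ^ 2 * (L ^ 2 / S + 2 * L)) ≤
      2 * Lm * A ^ 2 * L ^ 2 * (N' / S₀ + N' / L + M + M ^ 2 / L) := by
  have hS0 : 0 < S := lt_of_lt_of_le hS₀ hS
  have hM0 : 0 < M := lt_of_lt_of_le hS0 hM
  have hLm0 : 0 < Lm := by linarith
  have e1 : (N' + S ^ 2 * lS) * (A ^ 2 * (L ^ 2 / S + 2 * L)) =
      A ^ 2 * (N' * L ^ 2 / S + 2 * (N' * L) + S * lS * L ^ 2 + 2 * (S ^ 2 * lS * L)) := by
    field_simp
    ring
  have e2 : 2 * Lm * A ^ 2 * L ^ 2 * (N' / S₀ + N' / L + M + M ^ 2 / L) =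
      A ^ 2 * (2 * Lm * (N' * L ^ 2 / S₀) + 2 * Lm * (N' * L) + 2 * Lm * (M * L ^ 2) +
        2 * Lm * (M ^ 2 * L)) := by
    field_simp
  rw [e1, e2]
  refine mul_le_mul_of_nonneg_left ?_ (sq_nonneg A)
  have f1 : N' * L ^ 2 / S ≤ 2 * Lm * (N' * L ^ 2 / S₀) := by
    have g1 : N' * L ^ 2 / S ≤ N' * L ^ 2 / S₀ :=
      div_le_div_of_nonneg_left (by positivity) hS₀ hS
    have g2 : 0 ≤ N' * L ^ 2 / S₀ := by positivity
    nlinarith
  have f2 : 2 * (N' * L) ≤ 2 * Lm * (N' * L) := by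
    have g2 : 0 ≤ N' * L := by positivity
    nlinarith
  have f3 : S * lS * L ^ 2 ≤ 2 * Lm * (M * L ^ 2) := by
    have g1 : S * lS ≤ M * Lm := mul_le_mul hM hl hl0 hM0.le
    have g2 : S * lS * L ^ 2 ≤ M * Lm * L ^ 2 := mul_le_mul_of_nonneg_right g1 (by positivity)
    have g3 : 0 ≤ M * Lm * L ^ 2 := by positivity
    nlinarith
  have f4 : 2 * (S ^ 2 * lS * L) ≤ 2 * Lm * (M ^ 2 * L) := by
    have g0 : S ^ 2 ≤ M ^ 2 := pow_le_pow_left₀ hS0.le hM 2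
    have g1 : S ^ 2 * lS ≤ M ^ 2 * Lm := mul_le_mul g0 hl hl0 (by positivity)
    have g2 : S ^ 2 * lS * L ≤ M ^ 2 * Lm * L := mul_le_mul_of_nonneg_right g1 hL.le
    nlinarith
  linarith

end IR5

open IR5 in
/-- [R5] The mean square over short intervals of a combination of Ramanujan sums. -/
theorem prR5 (h3 : tsR3) (h4 : tsR4) (h6 : tsR6) : tsR5 := by
  obtain ⟨C, hC, h4⟩ := h4
  refine ⟨8 * C, by positivity, ?_⟩
  intro S₀ M N' L x₀ γ A h hS₀ hL hLx hA hh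
  have hlogM : 0 ≤ Real.log (2 * M) := by
    rcases Nat.eq_zero_or_pos M with h0 | h0
    · subst h0; simp
    · have : (1 : ℝ) ≤ M := by exact_mod_cast h0
      exact Real.log_nonneg (by linarith)
  set Lm : ℝ := 1 + Real.log (2 * M) with hLmdef
  have hLm1 : 1 ≤ Lm := by linarith
  have hS₀r : (1 : ℝ) ≤ S₀ := by exact_mod_cast hS₀
  have hLr : (1 : ℝ) ≤ L := by exact_mod_cast hL
  set Z : ℝ := (N' : ℝ) / S₀ + (N' : ℝ) / L + M + (M : ℝ) ^ 2 / L with hZ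
  have hZ0 : 0 ≤ Z := by positivity
  rcases Nat.lt_or_ge S₀ M with hlt | hge
  swap
  · have e1 : Finset.Ioc S₀ M = ∅ := Finset.Ioc_eq_empty (by omega)
    rw [e1]
    simp only [Finset.sum_empty, Complex.ofReal_zero, zero_mul, Finset.sum_const_zero, norm_zero]
    rw [Finset.sum_const, zero_pow (by norm_num), smul_zero]
    positivity
  set I : ℕ := Nat.log 2 M + 1 with hI
  have hMI : M < 2 ^ I := Nat.lt_pow_succ_log_self (by norm_num) M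
  have hMI2 : M ≤ 2 ^ I * S₀ := hMI.le.trans (Nat.le_mul_of_pos_right _ hS₀)
  have hM0 : 0 < M := by omega
  set u : ℕ → ℝ := hc h S₀ M with hu
  have hub : ∀ s : ℕ, 1 ≤ s → |u s| ≤ A / s := by
    intro s hs
    show |hc h S₀ M s| ≤ A / s
    unfold hc
    split_ifs with h1
    · exact hh s (Finset.mem_Ioc.2 h1)
    · rw [abs_zero]; positivity
  -- the decomposition in blocks
  have hdec : ∀ n : ℕ, ∑ s ∈ Finset.Ioc S₀ M, h s * Gh n s =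
      ∑ i ∈ Finset.range I, ∑ s ∈ Finset.Ioc (2 ^ i * S₀) (2 * (2 ^ i * S₀)), u s * Gh n s := by
    intro n
    rw [← dyadic S₀ (fun s => u s * Gh n s) I]
    have e1 : ∑ s ∈ Finset.Ioc S₀ M, h s * Gh n s = ∑ s ∈ Finset.Ioc S₀ M, u s * Gh n s := by
      refine Finset.sum_congr rfl fun s hs => ?_
      have : u s = h s := if_pos (Finset.mem_Ioc.1 hs)
      rw [this]
    rw [e1]
    refine Finset.sum_subset (Finset.Ioc_subset_Ioc_right hMI2) fun s hs hs' => ?_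
    have : u s = 0 := if_neg fun h1 => hs' (Finset.mem_Ioc.2 h1)
    rw [this, zero_mul]
  have hF : ∀ x ∈ Finset.Ioc x₀ (x₀ + N'), ∑ n ∈ Finset.Ioc (x - L) x,
      ((∑ s ∈ Finset.Ioc S₀ M, h s * Gh n s : ℝ) : ℂ) * ee (n * γ) =
      ∑ i ∈ Finset.range I, FF u (2 ^ i * S₀) L x γ := by
    intro x hx
    rw [Finset.mem_Ioc] at hx
    have e1 : ∀ n ∈ Finset.Ioc (x - L) x,
        ((∑ s ∈ Finset.Ioc S₀ M, h s * Gh n s : ℝ) : ℂ) * ee (n * γ) =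
        ∑ i ∈ Finset.range I,
          ((∑ s ∈ Finset.Ioc (2 ^ i * S₀) (2 * (2 ^ i * S₀)), u s * Gh n s : ℝ) : ℂ) *
            ee (n * γ) := by
      intro n _
      rw [hdec n, Complex.ofReal_sum, Finset.sum_mul]
    rw [Finset.sum_congr rfl e1, Finset.sum_comm]
    exact Finset.sum_congr rfl fun i _ => block_eq h3 u (2 ^ i * S₀) L x γ (by omega)
  rw [Finset.sum_congr rfl fun x hx => by rw [hF x hx]]
  -- the bound of one block
  have hblk : ∀ i ∈ Finset.range I,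
      ∑ x ∈ Finset.Ioc x₀ (x₀ + N'), ‖FF u (2 ^ i * S₀) L x γ‖ ^ 2 ≤
        C * (2 * Lm * A ^ 2 * (L : ℝ) ^ 2 * Z) := by
    intro i _
    have hSi : S₀ ≤ 2 ^ i * S₀ := Nat.le_mul_of_pos_left _ (by positivity)
    rcases Nat.lt_or_ge (2 ^ i * S₀) M with hi | hi
    · refine (block_bound h6 C hC h4 u A hA hub (2 ^ i * S₀) L N' x₀ γ (by omega)).trans ?_
      rw [mul_assoc C]
      refine mul_le_mul_of_nonneg_left ?_ hC.le
      have g1 : ((2 ^ i * S₀ : ℕ) : ℝ) ≤ M := by exact_mod_cast hi.le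
      have g2 : (S₀ : ℝ) ≤ ((2 ^ i * S₀ : ℕ) : ℝ) := by exact_mod_cast hSi
      have g3 : (1 : ℝ) ≤ ((2 ^ i * S₀ : ℕ) : ℝ) := hS₀r.trans g2
      refine num (N' : ℝ) ((2 ^ i * S₀ : ℕ) : ℝ) S₀ L M
        (1 + Real.log (2 * ((2 ^ i * S₀ : ℕ) : ℝ))) Lm A
        (Nat.cast_nonneg _) (by linarith) g2 g1 (by linarith) ?_ ?_ hLm1
      · have := Real.log_le_log (x := 2 * ((2 ^ i * S₀ : ℕ) : ℝ)) (y := 2 * M)
          (by linarith) (by linarith)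
        linarith
      · have := Real.log_nonneg (x := 2 * ((2 ^ i * S₀ : ℕ) : ℝ)) (by linarith)
        linarith
    · have e0 : ∀ x, FF u (2 ^ i * S₀) L x γ = 0 := by
        intro x
        unfold FF
        refine Finset.sum_eq_zero fun s hs => Finset.sum_eq_zero fun c _ => ?_
        rw [Finset.mem_Ioc] at hs
        have : u s = 0 := if_neg fun h1 => by omega
        rw [this]
        simp
      have e1 : ∑ x ∈ Finset.Ioc x₀ (x₀ + N'), ‖FF u (2 ^ i * S₀) L x γ‖ ^ 2 = 0 :=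
        Finset.sum_eq_zero fun x _ => by rw [e0, norm_zero]; norm_num
      rw [e1]
      positivity
  -- Cauchy-Schwarz
  have hcs : ∀ x : ℕ, ‖∑ i ∈ Finset.range I, FF u (2 ^ i * S₀) L x γ‖ ^ 2 ≤
      (I : ℝ) * ∑ i ∈ Finset.range I, ‖FF u (2 ^ i * S₀) L x γ‖ ^ 2 := by
    intro x
    have g1 := norm_sum_le (Finset.range I) (fun i => FF u (2 ^ i * S₀) L x γ)
    have g2 := pow_le_pow_left₀ (norm_nonneg _) g1 2
    have g3 := sq_sum_le_card_mul_sum_sq (s := Finset.range I)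
      (f := fun i => ‖FF u (2 ^ i * S₀) L x γ‖)
    rw [Finset.card_range] at g3
    exact g2.trans g3
  have hI0 : (0 : ℝ) ≤ I := Nat.cast_nonneg I
  have hIb : (I : ℝ) ≤ 2 * Lm := by
    have g1 : (2 : ℝ) ^ (Nat.log 2 M) ≤ M := by exact_mod_cast Nat.pow_log_le_self 2 hM0.ne'
    have g2 : (Nat.log 2 M : ℝ) * Real.log 2 ≤ Real.log M := by
      rw [← Real.log_pow]
      exact Real.log_le_log (by positivity) g1
    have hMr : (0 : ℝ) < M := by exact_mod_cast hM0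
    have g3 : Real.log (2 * M) = Real.log 2 + Real.log M :=
      Real.log_mul (by norm_num) hMr.ne'
    have g4 : (1 : ℝ) / 2 ≤ Real.log 2 := by
      have := Real.log_two_gt_d9
      linarith
    have g5 : (I : ℝ) = (Nat.log 2 M : ℝ) + 1 := by rw [hI]; push_cast; ring
    have g6 : (0 : ℝ) ≤ (Nat.log 2 M : ℝ) := Nat.cast_nonneg _
    have g7 : (Nat.log 2 M : ℝ) * (1 / 2) ≤ (Nat.log 2 M : ℝ) * Real.log 2 :=
      mul_le_mul_of_nonneg_left g4 g6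
    rw [g5, hLmdef, g3]
    linarith
  calc ∑ x ∈ Finset.Ioc x₀ (x₀ + N'), ‖∑ i ∈ Finset.range I, FF u (2 ^ i * S₀) L x γ‖ ^ 2
      ≤ ∑ x ∈ Finset.Ioc x₀ (x₀ + N'),
          (I : ℝ) * ∑ i ∈ Finset.range I, ‖FF u (2 ^ i * S₀) L x γ‖ ^ 2 :=
        Finset.sum_le_sum fun x _ => hcs x
    _ = (I : ℝ) * ∑ i ∈ Finset.range I,
          ∑ x ∈ Finset.Ioc x₀ (x₀ + N'), ‖FF u (2 ^ i * S₀) L x γ‖ ^ 2 := by
        rw [← Finset.mul_sum, Finset.sum_comm]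
    _ ≤ (I : ℝ) * ∑ i ∈ Finset.range I, C * (2 * Lm * A ^ 2 * (L : ℝ) ^ 2 * Z) :=
        mul_le_mul_of_nonneg_left (Finset.sum_le_sum hblk) hI0
    _ = (I : ℝ) ^ 2 * (C * (2 * Lm * A ^ 2 * (L : ℝ) ^ 2 * Z)) := by
        rw [Finset.sum_const, Finset.card_range, nsmul_eq_mul]
        ring
    _ ≤ (2 * Lm) ^ 2 * (C * (2 * Lm * A ^ 2 * (L : ℝ) ^ 2 * Z)) :=
        mul_le_mul_of_nonneg_right (pow_le_pow_left₀ hI0 hIb 2) (by positivity)
    _ = 8 * C * A ^ 2 * Lm ^ 3 * (L : ℝ) ^ 2 * Z := by ring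

end Pool.Agent.Work.MP_122e00_nt.TS
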