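import Pool.Agent.Work.MP_122e00_nt.TS.Stmts4
import Pool.Agent.Work.MP_122e00_nt.TS.I_Q1
import Pool.Agent.Work.MP_122e00_nt.TS.I_Q2

set_option autoImplicit false

/-!
# Thin shifts, item R6 (helper61): the kernel over the fractions with denominator `s`
-/

namespace Pool.Agent.Work.MP_122e00_nt.TS

open Finset Filter Topology ArithmeticFunction

namespace IR6

/-- the square of the norm as a double sum -/
lemma sq (s L c : ℕ) (γ : ℝ) :
    ((‖∑ h ∈ Finset.range L, ee (-((h : ℝ) * (γ + (c : ℝ) / s)))‖ ^ 2 : ℝ) : ℂ) =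
    ∑ h ∈ Finset.range L, ∑ k ∈ Finset.range L,
      ee (-(((h : ℝ) - k) * γ)) * ee ((c : ℝ) * (((k : ℤ) - (h : ℤ) : ℤ) : ℝ) / s) := by
  rw [Complex.ofReal_pow, ← Complex.mul_conj', map_sum, Finset.sum_mul_sum]
  refine Finset.sum_congr rfl fun h _ => Finset.sum_congr rfl fun k _ => ?_
  rw [IQ2.ee_conj, ← IQ2.ee_add, ← IQ2.ee_add]
  congr 1
  push_cast
  ring

lemma norm_ee (x : ℝ) : ‖ee x‖ = 1 := by
  unfold ee
  exact Complex.norm_exp_ofReal_mul_I _

lemma count (s L h : ℕ) (hs : 1 ≤ s) :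
    (((Finset.range L).filter fun k : ℕ => (s : ℤ) ∣ (k : ℤ) - (h : ℤ)).card : ℝ) ≤
      (L : ℝ) / s + 1 := by
  have e : ((Finset.range L).filter fun k : ℕ => (s : ℤ) ∣ (k : ℤ) - (h : ℤ)) =
      (Finset.range L).filter fun k : ℕ => k ≡ h [MOD s] := by
    refine Finset.filter_congr fun k _ => ?_
    rw [Nat.modEq_iff_dvd]
    constructor
    · intro hd
      have := (dvd_neg (α := ℤ)).2 hd
      rwa [neg_sub] at this
    · intro hd
      have := (dvd_neg (α := ℤ)).2 hd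
      rwa [neg_sub] at this
  rw [e, ← Nat.count_eq_card_filter_range, Nat.count_modEq_card L (r := s) (by omega) h]
  have h1 : ((L / s : ℕ) : ℝ) ≤ (L : ℝ) / s := Nat.cast_div_le
  push_cast
  split_ifs
  · push_cast
    linarith
  · push_cast
    linarith

end IR6

theorem prR6 : tsR6 := by
  intro s L γ hs
  have hs0 : (0 : ℝ) < s := by exact_mod_cast hs
  have h1 : ((∑ c ∈ Finset.range s,
      ‖∑ h ∈ Finset.range L, ee (-((h : ℝ) * (γ + (c : ℝ) / s)))‖ ^ 2 : ℝ) : ℂ) =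
      ∑ h ∈ Finset.range L, ∑ k ∈ Finset.range L,
        ee (-(((h : ℝ) - k) * γ)) * (if (s : ℤ) ∣ (k : ℤ) - (h : ℤ) then (s : ℂ) else 0) := by
    rw [Complex.ofReal_sum, Finset.sum_congr rfl fun c _ => IR6.sq s L c γ, Finset.sum_comm]
    refine Finset.sum_congr rfl fun h _ => ?_
    rw [Finset.sum_comm]
    refine Finset.sum_congr rfl fun k _ => ?_
    rw [← Finset.mul_sum, prQ1 s ((k : ℤ) - (h : ℤ)) hs]
  have h2 : (∑ c ∈ Finset.range s,
      ‖∑ h ∈ Finset.range L, ee (-((h : ℝ) * (γ + (c : ℝ) / s)))‖ ^ 2 : ℝ) =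
      ‖((∑ c ∈ Finset.range s,
      ‖∑ h ∈ Finset.range L, ee (-((h : ℝ) * (γ + (c : ℝ) / s)))‖ ^ 2 : ℝ) : ℂ)‖ := by
    rw [Complex.norm_real, Real.norm_eq_abs, abs_of_nonneg]
    exact Finset.sum_nonneg fun _ _ => by positivity
  rw [h2, h1]
  have h3 : ∀ h ∈ Finset.range L, ‖∑ k ∈ Finset.range L,
      ee (-(((h : ℝ) - k) * γ)) * (if (s : ℤ) ∣ (k : ℤ) - (h : ℤ) then (s : ℂ) else 0)‖ ≤
      (L : ℝ) + s := by
    intro h _
    refine (norm_sum_le _ _).trans ?_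
    have h4 : ∀ k ∈ Finset.range L, ‖ee (-(((h : ℝ) - k) * γ)) *
        (if (s : ℤ) ∣ (k : ℤ) - (h : ℤ) then (s : ℂ) else 0)‖ =
        if (s : ℤ) ∣ (k : ℤ) - (h : ℤ) then (s : ℝ) else 0 := by
      intro k _
      rw [norm_mul, IR6.norm_ee, one_mul]
      split_ifs
      · simp
      · simp
    rw [Finset.sum_congr rfl h4, ← Finset.sum_filter, Finset.sum_const, nsmul_eq_mul]
    calc (((Finset.range L).filter fun k : ℕ => (s : ℤ) ∣ (k : ℤ) - (h : ℤ)).card : ℝ) * s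
        ≤ ((L : ℝ) / s + 1) * s := mul_le_mul_of_nonneg_right (IR6.count s L h hs) hs0.le
      _ = (L : ℝ) + s := by field_simp
  refine (norm_sum_le _ _).trans ((Finset.sum_le_sum h3).trans (le_of_eq ?_))
  rw [Finset.sum_const, Finset.card_range, nsmul_eq_mul]
  ring

end Pool.Agent.Work.MP_122e00_nt.TS
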