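import Pool.Agent.Work.MP_122e00_nt.TS.Stmts4
import Pool.Agent.Work.MP_122e00_nt.TS.I_GS
import Pool.Agent.Work.MP_122e00_nt.TS.I_L0
import Pool.Agent.Work.MP_122e00_nt.TS.I_F3
import Pool.Agent.Work.MP_122e00_nt.TS.I_F5

/-!
# Thin shifts, item R8: the coefficients with small modulus are those of the model
-/

set_option autoImplicit false

namespace Pool.Agent.Work.MP_122e00_nt.TS

open Finset Filter Topology ArithmeticFunction
open scoped ArithmeticFunction.zeta ArithmeticFunction.Moebius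

namespace IR8

/-- the multiples of `m` in an interval -/
theorem inner_sum (a b m : ℕ) (hm : 1 ≤ m) (f : ℕ → ℂ) :
    ∑ n ∈ (Finset.Ioc a b).filter (m ∣ ·), f n =
      ∑ l ∈ Finset.Ioc (a / m) (b / m), f (l * m) := by
  have h1 : (Finset.Ioc a b).filter (m ∣ ·) =
      (Finset.Ioc (a / m) (b / m)).image (fun l => l * m) := by
    ext n
    simp only [Finset.mem_filter, Finset.mem_Ioc, Finset.mem_image]
    constructor
    · rintro ⟨⟨h1, h2⟩, k, rfl⟩
      refine ⟨k, ⟨?_, ?_⟩, mul_comm _ _⟩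
      · rw [Nat.div_lt_iff_lt_mul hm, mul_comm]
        exact h1
      · rw [Nat.le_div_iff_mul_le hm, mul_comm]
        exact h2
    · rintro ⟨k, ⟨h1, h2⟩, rfl⟩
      rw [Nat.div_lt_iff_lt_mul hm] at h1
      rw [Nat.le_div_iff_mul_le hm] at h2
      exact ⟨⟨h1, h2⟩, dvd_mul_left _ _⟩
  rw [h1, Finset.sum_image]
  intro x _ y _ hxy
  exact Nat.eq_of_mul_eq_mul_right hm hxy

/-- the number of multiples -/
theorem card_bd (a b m : ℕ) (hab : a ≤ b) (hm : 1 ≤ m) :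
    |(((b / m - a / m : ℕ) : ℝ)) - ((b : ℝ) - a) / m| ≤ 1 := by
  have hm' : (0 : ℝ) < m := by exact_mod_cast hm
  rw [Nat.cast_sub (Nat.div_le_div_right hab)]
  have key : ∀ n : ℕ, ((n / m : ℕ) : ℝ) ≤ (n : ℝ) / m ∧ (n : ℝ) / m < ((n / m : ℕ) : ℝ) + 1 := by
    intro n
    refine ⟨Nat.cast_div_le, ?_⟩
    rw [div_lt_iff₀ hm']
    have := Nat.lt_div_mul_add (a := n) hm
    have h2 : n < (n / m + 1) * m := by
      rw [add_mul, one_mul]
      exact this
    exact_mod_cast h2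
  obtain ⟨h1, h2⟩ := key a
  obtain ⟨h3, h4⟩ := key b
  rw [sub_div, abs_le]
  constructor <;> linarith

theorem ee_one_of_nat (k : ℕ) : ee (k : ℝ) = 1 := by
  unfold ee
  rw [Complex.exp_eq_one_iff]
  refine ⟨k, ?_⟩
  push_cast
  ring

/-- the inner sum if `s ∣ m` -/
theorem inner_div (A B m s : ℕ) (hs : 1 ≤ s) (h : s ∣ m) :
    ∑ l ∈ Finset.Ioc A B, ee (((l * m : ℕ) : ℝ) * (1 / (s : ℝ))) = ((B - A : ℕ) : ℂ) := by
  obtain ⟨k, rfl⟩ := h
  have hs' : (s : ℝ) ≠ 0 := by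
    have : (0 : ℝ) < s := by exact_mod_cast hs
    exact this.ne'
  have h1 : ∀ l ∈ Finset.Ioc A B, ee (((l * (s * k) : ℕ) : ℝ) * (1 / (s : ℝ))) = 1 := by
    intro l _
    rw [← ee_one_of_nat (l * k)]
    congr 1
    push_cast
    field_simp
  rw [Finset.sum_congr rfl h1]
  simp

/-- the inner sum if `s` does not divide `m` -/
theorem inner_ndiv (A B m s : ℕ) (hs : 1 ≤ s) (h : ¬ s ∣ m) :
    ‖∑ l ∈ Finset.Ioc A B, ee (((l * m : ℕ) : ℝ) * (1 / (s : ℝ)))‖ ≤ s := by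
  have hs' : (0 : ℝ) < s := by exact_mod_cast hs
  have h1 : ∑ l ∈ Finset.Ioc A B, ee (((l * m : ℕ) : ℝ) * (1 / (s : ℝ))) =
      ∑ l ∈ Finset.Ioc A B, ee ((l : ℝ) * ((m : ℝ) / s)) := by
    refine Finset.sum_congr rfl fun l _ => ?_
    congr 1
    push_cast
    ring
  rw [h1]
  have h2 := (prGS A B ((m : ℝ) / s)).1
  have h3 : 1 / (s : ℝ) ≤ nn ((m : ℝ) / s) := by
    unfold nn
    set k : ℤ := round ((m : ℝ) / s) with hk
    have e : (m : ℝ) / s - k = (((m : ℤ) - k * s : ℤ) : ℝ) / s := by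
      push_cast
      field_simp
    rw [e, abs_div, abs_of_pos hs', div_le_div_iff_of_pos_right hs']
    have h4 : (m : ℤ) - k * s ≠ 0 := by
      intro h5
      apply h
      have h6 : (m : ℤ) = s * k := by linarith
      have : (s : ℤ) ∣ (m : ℤ) := ⟨k, h6⟩
      exact_mod_cast this
    have h7 : 1 ≤ |(m : ℤ) - k * s| := Int.one_le_abs h4
    exact_mod_cast h7
  have h4 := norm_nonneg (∑ l ∈ Finset.Ioc A B, ee ((l : ℝ) * ((m : ℝ) / s)))
  have h5 := mul_le_mul_of_nonneg_left h3 h4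
  have h6 : ‖∑ l ∈ Finset.Ioc A B, ee ((l : ℝ) * ((m : ℝ) / s))‖ * (1 / (s : ℝ)) ≤ 1 / 2 :=
    h5.trans h2
  rw [mul_one_div, div_le_iff₀ hs'] at h6
  linarith

/-- one `m ≤ M₀` -/
theorem small_one (a b m s : ℕ) (hab : a ≤ b) (hm : 1 ≤ m) (hs1 : 1 ≤ s) (w : ℝ) (hw : 0 ≤ w) :
    ‖(w : ℂ) * ∑ n ∈ (Finset.Ioc a b).filter (m ∣ ·), ee ((n : ℝ) * (1 / (s : ℝ))) -
      ((if s ∣ m then w * (((b : ℝ) - a) / m) else 0 : ℝ) : ℂ)‖ ≤ w * (1 + s) := by
  have hs' : (0 : ℝ) < s := by exact_mod_cast hs1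
  rw [inner_sum a b m hm]
  by_cases h : s ∣ m
  · rw [inner_div _ _ _ _ hs1 h, if_pos h]
    have h1 := card_bd a b m hab hm
    have e : (w : ℂ) * ((b / m - a / m : ℕ) : ℂ) - ((w * (((b : ℝ) - a) / m) : ℝ) : ℂ) =
        ((w * (((b / m - a / m : ℕ) : ℝ) - ((b : ℝ) - a) / m) : ℝ) : ℂ) := by
      push_cast
      ring
    rw [e, Complex.norm_real, Real.norm_eq_abs, abs_mul, abs_of_nonneg hw]
    have h2 := mul_le_mul_of_nonneg_left h1 hw
    nlinarith
  · rw [if_neg h]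
    have h1 := inner_ndiv (a / m) (b / m) m s hs1 h
    rw [Complex.ofReal_zero, sub_zero, norm_mul, Complex.norm_real, Real.norm_eq_abs,
      abs_of_nonneg hw]
    refine mul_le_mul_of_nonneg_left (h1.trans (by linarith)) hw

/-- one `m > M₀` -/
theorem large_one (a b m s : ℕ) (y β' : ℝ) (hab : a ≤ b) (hm : 1 ≤ m) (w Wm : ℝ) (hw : 0 ≤ w)
    (hwm : w ≤ Wm) (hβ : ((b : ℝ) - a) / m ≤ β') :
    ‖(w : ℂ) * ∑ n ∈ (Finset.Ioc a b).filter (fun n => m ∣ n ∧ (m : ℝ) * y < n),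
      ee ((n : ℝ) * (1 / (s : ℝ)))‖ ≤ if (m : ℝ) * y < b then Wm * (β' + 1) else 0 := by
  rw [norm_mul, Complex.norm_real, Real.norm_eq_abs, abs_of_nonneg hw]
  by_cases h : (m : ℝ) * y < b
  · rw [if_pos h]
    have hm' : (0 : ℝ) < m := by exact_mod_cast hm
    have h0 : (0 : ℝ) ≤ (b : ℝ) - a := by
      have : (a : ℝ) ≤ b := by exact_mod_cast hab
      linarith
    have h1 : ‖∑ n ∈ (Finset.Ioc a b).filter (fun n => m ∣ n ∧ (m : ℝ) * y < n),
        ee ((n : ℝ) * (1 / (s : ℝ)))‖ ≤ β' + 1 := by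
      refine (norm_sum_le _ _).trans ?_
      have h2 : ∀ n ∈ (Finset.Ioc a b).filter (fun n => m ∣ n ∧ (m : ℝ) * y < n),
          ‖ee ((n : ℝ) * (1 / (s : ℝ)))‖ = 1 := fun n _ => IGS.norm_ee _
      rw [Finset.sum_congr rfl h2, Finset.sum_const, nsmul_eq_mul, mul_one]
      have h3 : ((Finset.Ioc a b).filter (fun n => m ∣ n ∧ (m : ℝ) * y < n)).card ≤
          ((Finset.Ioc a b).filter (m ∣ ·)).card := by
        refine Finset.card_le_card fun n hn => ?_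
        rw [Finset.mem_filter] at hn ⊢
        exact ⟨hn.1, hn.2.1⟩
      have h4 : (((Finset.Ioc a b).filter (m ∣ ·)).card : ℂ) = ((b / m - a / m : ℕ) : ℂ) := by
        have h5 := inner_sum a b m hm (fun _ => (1 : ℂ))
        simp only [Finset.sum_const, nsmul_eq_mul, mul_one, Nat.card_Ioc] at h5
        exact h5
      have h6 : ((Finset.Ioc a b).filter (m ∣ ·)).card = b / m - a / m := by exact_mod_cast h4
      have h7 := card_bd a b m hab hm
      have h8 : (((Finset.Ioc a b).filter (fun n => m ∣ n ∧ (m : ℝ) * y < n)).card : ℝ) ≤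
          ((b / m - a / m : ℕ) : ℝ) := by
        rw [← h6]
        exact_mod_cast h3
      have h9 := (abs_le.1 h7).2
      linarith
    have h10 : 0 ≤ β' + 1 := (norm_nonneg _).trans h1
    exact mul_le_mul hwm h1 (norm_nonneg _) (hw.trans hwm)
  · rw [if_neg h]
    have h1 : (Finset.Ioc a b).filter (fun n => m ∣ n ∧ (m : ℝ) * y < n) = ∅ := by
      refine Finset.filter_eq_empty_iff.2 fun n hn hh => h ?_
      rw [Finset.mem_Ioc] at hn
      have : (n : ℝ) ≤ b := by exact_mod_cast hn.2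
      exact hh.2.trans_le this
    rw [h1, Finset.sum_empty, norm_zero, mul_zero]

/-- the decomposition, no asymptotics -/
theorem comb (hR1 : tsR1) (r : ℕ) (y : ℝ) (hr : 1 ≤ r) (hy : 1 ≤ y) (a b s : ℕ) (ha : 1 ≤ a)
    (hab : a ≤ b) (hs1 : 1 ≤ s) (Wm : ℝ) (hWm : 0 ≤ Wm)
    (hW : ∀ m : ℕ, 1 ≤ m → m ≤ b → Wy r y m ≤ Wm) :
    ‖(∑ n ∈ Finset.Ioc a b, (dr r n : ℂ) * ee ((n : ℝ) * (1 / (s : ℝ)))) -
      ((((b : ℝ) - a) * hs r y ⌊(a : ℝ) / y⌋₊ s : ℝ) : ℂ)‖ ≤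
      y ^ r + Wm * ⌊(a : ℝ) / y⌋₊ * (1 + s) +
        Wm * (((b : ℝ) - a) / y + 1) * (((b : ℝ) - a) * y / a + 1) := by
  obtain ⟨hw, hu, husum, hdec⟩ := hR1 r y hr hy
  have hy0 : (0 : ℝ) < y := by linarith
  have ha0 : (0 : ℝ) < a := by exact_mod_cast ha
  have hab' : (a : ℝ) ≤ b := by exact_mod_cast hab
  set M₀ : ℕ := ⌊(a : ℝ) / y⌋₊ with hM₀
  have hM0a : (M₀ : ℝ) ≤ (a : ℝ) / y := Nat.floor_le (by positivity)
  have hM0b : (a : ℝ) / y < M₀ + 1 := Nat.lt_floor_add_one _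
  have hM0le : M₀ ≤ b := by
    have h1 : (a : ℝ) / y ≤ a := div_le_self ha0.le hy
    have h2 : (M₀ : ℝ) ≤ b := by linarith
    exact_mod_cast h2
  set F : ℕ → ℂ := fun n => ee ((n : ℝ) * (1 / (s : ℝ))) with hF
  -- the two sums
  have e1 : (∑ n ∈ Finset.Ioc a b, (dr r n : ℂ) * F n) =
      (∑ n ∈ Finset.Ioc a b, ((((uy y) ^ r) n : ℝ) : ℂ) * F n) +
      ∑ n ∈ Finset.Ioc a b, ∑ m ∈ n.divisors.filter (fun m : ℕ => (m : ℝ) * y < n),
        ((Wy r y m : ℝ) : ℂ) * F n := by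
    rw [← Finset.sum_add_distrib]
    refine Finset.sum_congr rfl fun n hn => ?_
    rw [Finset.mem_Ioc] at hn
    rw [hdec n (by omega), ← Finset.sum_mul, ← add_mul]
    congr 1
    push_cast
    rfl
  have e2 : (∑ n ∈ Finset.Ioc a b, ∑ m ∈ n.divisors.filter (fun m : ℕ => (m : ℝ) * y < n),
        ((Wy r y m : ℝ) : ℂ) * F n) =
      ∑ m ∈ Finset.Icc 1 b, ((Wy r y m : ℝ) : ℂ) *
        ∑ n ∈ (Finset.Ioc a b).filter (fun n => m ∣ n ∧ (m : ℝ) * y < n), F n := by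
    have h1 : ∀ m ∈ Finset.Icc 1 b, ((Wy r y m : ℝ) : ℂ) *
        ∑ n ∈ (Finset.Ioc a b).filter (fun n => m ∣ n ∧ (m : ℝ) * y < n), F n =
        ∑ n ∈ (Finset.Ioc a b).filter (fun n => m ∣ n ∧ (m : ℝ) * y < n),
          ((Wy r y m : ℝ) : ℂ) * F n := fun m _ => Finset.mul_sum _ _ _
    rw [Finset.sum_congr rfl h1]
    refine Finset.sum_comm' fun n m => ?_
    simp only [Finset.mem_Ioc, Finset.mem_filter, Nat.mem_divisors, Finset.mem_Icc]
    constructor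
    · rintro ⟨⟨h1, h2⟩, ⟨h3, h4⟩, h5⟩
      have h6 := Nat.le_of_dvd (by omega) h3
      have h7 : m ≠ 0 := by
        rintro rfl
        exact h4 (Nat.eq_zero_of_zero_dvd h3)
      exact ⟨⟨⟨h1, h2⟩, h3, h5⟩, by omega, by omega⟩
    · rintro ⟨⟨⟨h1, h2⟩, h3, h5⟩, h6, h7⟩
      exact ⟨⟨h1, h2⟩, ⟨h3, by omega⟩, h5⟩
  have e3 : Finset.Icc 1 b = Finset.Icc 1 M₀ ∪ Finset.Ioc M₀ b := by
    ext m
    simp only [Finset.mem_Icc, Finset.mem_union, Finset.mem_Ioc]
    omega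
  have e4 : Disjoint (Finset.Icc 1 M₀) (Finset.Ioc M₀ b) := by
    rw [Finset.disjoint_left]
    intro m h1 h2
    rw [Finset.mem_Icc] at h1
    rw [Finset.mem_Ioc] at h2
    omega
  rw [e1, e2, e3, Finset.sum_union e4]
  -- the three pieces
  have p1 : ‖∑ n ∈ Finset.Ioc a b, ((((uy y) ^ r) n : ℝ) : ℂ) * F n‖ ≤ y ^ r := by
    refine (norm_sum_le _ _).trans ?_
    have h1 : ∀ n ∈ Finset.Ioc a b, ‖((((uy y) ^ r) n : ℝ) : ℂ) * F n‖ = ((uy y) ^ r) n := by
      intro n _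
      rw [norm_mul, Complex.norm_real, Real.norm_eq_abs, abs_of_nonneg (hu n).1, hF]
      simp only
      rw [IGS.norm_ee, mul_one]
    rw [Finset.sum_congr rfl h1]
    refine le_trans ?_ (husum b)
    refine Finset.sum_le_sum_of_subset_of_nonneg (fun n hn => ?_) fun n _ _ => (hu n).1
    rw [Finset.mem_Ioc] at hn
    rw [Finset.mem_Icc]
    omega
  have p2 : ‖(∑ m ∈ Finset.Icc 1 M₀, ((Wy r y m : ℝ) : ℂ) *
        ∑ n ∈ (Finset.Ioc a b).filter (fun n => m ∣ n ∧ (m : ℝ) * y < n), F n) -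
      ((((b : ℝ) - a) * hs r y M₀ s : ℝ) : ℂ)‖ ≤ Wm * M₀ * (1 + s) := by
    have h1 : ((b : ℝ) - a) * hs r y M₀ s =
        ∑ m ∈ Finset.Icc 1 M₀, if s ∣ m then Wy r y m * (((b : ℝ) - a) / m) else 0 := by
      unfold hs
      rw [Finset.mul_sum, Finset.sum_filter]
      refine Finset.sum_congr rfl fun m _ => ?_
      split_ifs
      · ring
      · rfl
    rw [h1, Complex.ofReal_sum, ← Finset.sum_sub_distrib]
    refine (norm_sum_le _ _).trans ?_
    have h2 : ∀ m ∈ Finset.Icc 1 M₀, ‖((Wy r y m : ℝ) : ℂ) *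
        ∑ n ∈ (Finset.Ioc a b).filter (fun n => m ∣ n ∧ (m : ℝ) * y < n), F n -
        ((if s ∣ m then Wy r y m * (((b : ℝ) - a) / m) else 0 : ℝ) : ℂ)‖ ≤ Wm * (1 + s) := by
      intro m hm
      rw [Finset.mem_Icc] at hm
      have h3 : (Finset.Ioc a b).filter (fun n => m ∣ n ∧ (m : ℝ) * y < n) =
          (Finset.Ioc a b).filter (m ∣ ·) := by
        refine Finset.filter_congr fun n hn => ?_
        rw [Finset.mem_Ioc] at hn
        refine ⟨fun h => h.1, fun h => ⟨h, ?_⟩⟩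
        have h4 : (m : ℝ) ≤ (a : ℝ) / y := by
          have : (m : ℝ) ≤ M₀ := by exact_mod_cast hm.2
          linarith
        rw [le_div_iff₀ hy0] at h4
        have h5 : (a : ℝ) < n := by exact_mod_cast hn.1
        linarith
      rw [h3]
      refine (small_one a b m s hab hm.1 hs1 _ (hw m).1).trans ?_
      refine mul_le_mul_of_nonneg_right (hW m hm.1 (by omega)) (by positivity)
    refine (Finset.sum_le_sum h2).trans (le_of_eq ?_)
    rw [Finset.sum_const, Nat.card_Icc, nsmul_eq_mul]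
    simp only [Nat.add_sub_cancel]
    ring
  have p3 : ‖∑ m ∈ Finset.Ioc M₀ b, ((Wy r y m : ℝ) : ℂ) *
        ∑ n ∈ (Finset.Ioc a b).filter (fun n => m ∣ n ∧ (m : ℝ) * y < n), F n‖ ≤
      Wm * (((b : ℝ) - a) / y + 1) * (((b : ℝ) - a) * y / a + 1) := by
    refine (norm_sum_le _ _).trans ?_
    have h2 : ∀ m ∈ Finset.Ioc M₀ b, ‖((Wy r y m : ℝ) : ℂ) *
        ∑ n ∈ (Finset.Ioc a b).filter (fun n => m ∣ n ∧ (m : ℝ) * y < n), F n‖ ≤
        if (m : ℝ) * y < b then Wm * (((b : ℝ) - a) * y / a + 1) else 0 := by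
      intro m hm
      rw [Finset.mem_Ioc] at hm
      have hm1 : 1 ≤ m := by omega
      have hm' : (0 : ℝ) < m := by exact_mod_cast hm1
      refine large_one a b m s y _ hab hm1 _ Wm (hw m).1 (hW m hm1 hm.2) ?_
      have h3 : (a : ℝ) / y < m := by
        have : (M₀ : ℝ) + 1 ≤ m := by exact_mod_cast hm.1
        linarith
      rw [div_lt_iff₀ hy0] at h3
      rw [div_le_div_iff₀ hm' ha0]
      have h4 : (0 : ℝ) ≤ (b : ℝ) - a := by linarith
      nlinarith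
    refine (Finset.sum_le_sum h2).trans ?_
    rw [← Finset.sum_filter, Finset.sum_const, nsmul_eq_mul]
    have h3 : ((Finset.Ioc M₀ b).filter (fun m : ℕ => (m : ℝ) * y < b)).card ≤
        ⌊(b : ℝ) / y⌋₊ - M₀ := by
      rw [← Nat.card_Ioc]
      refine Finset.card_le_card fun m hm => ?_
      rw [Finset.mem_filter, Finset.mem_Ioc] at hm
      rw [Finset.mem_Ioc]
      refine ⟨hm.1.1, Nat.le_floor ?_⟩
      rw [le_div_iff₀ hy0]
      exact hm.2.le
    have h4 : M₀ ≤ ⌊(b : ℝ) / y⌋₊ := Nat.floor_le_floor (by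
      rw [div_le_div_iff_of_pos_right hy0]
      exact hab')
    have h5 : (((Finset.Ioc M₀ b).filter (fun m : ℕ => (m : ℝ) * y < b)).card : ℝ) ≤
        ((b : ℝ) - a) / y + 1 := by
      have h6 : (((Finset.Ioc M₀ b).filter (fun m : ℕ => (m : ℝ) * y < b)).card : ℝ) ≤
          ((⌊(b : ℝ) / y⌋₊ - M₀ : ℕ) : ℝ) := by exact_mod_cast h3
      rw [Nat.cast_sub h4] at h6
      have h7 : (⌊(b : ℝ) / y⌋₊ : ℝ) ≤ (b : ℝ) / y := Nat.floor_le (by positivity)
      rw [sub_div]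
      linarith
    have h6 : 0 ≤ Wm * (((b : ℝ) - a) * y / a + 1) := by
      refine mul_nonneg hWm ?_
      have : (0 : ℝ) ≤ (b : ℝ) - a := by linarith
      positivity
    refine (mul_le_mul_of_nonneg_right h5 h6).trans (le_of_eq ?_)
    ring
  have e5 : ∀ A B C D : ℂ, A + (B + C) - D = A + (B - D) + C := fun A B C D => by ring
  rw [e5]
  refine (norm_add_le _ _).trans (add_le_add ((norm_add_le _ _).trans (add_le_add p1 p2)) p3)

/-- the main term over a short interval -/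
theorem mean (d : ℕ) (P : Polynomial ℝ) (M : ℝ) (hP : P.natDegree ≤ d)
    (hM : ∀ j, |P.coeff j| ≤ M) (a b : ℝ) (ha : 1 ≤ a) (hab : a < b) :
    |b * P.eval (Real.log b) - a * P.eval (Real.log a) - (b - a) * (ed P).eval (Real.log a)| ≤
      (b - a) * ((d + 1) * (d * ((d + 1) * M)) * (1 + Real.log b) ^ d * ((b - a) / a)) := by
  have hM0 : 0 ≤ M := le_trans (abs_nonneg _) (hM 0)
  have hc1 : ContinuousOn (fun t => t * P.eval (Real.log t)) (Set.Icc a b) := fun t ht =>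
    (IF3.hasDeriv_F P t (by linarith [ht.1])).continuousAt.continuousWithinAt
  obtain ⟨ξ, hξ, h1⟩ := exists_hasDerivAt_eq_slope (fun t => t * P.eval (Real.log t))
    (fun t => (ed P).eval (Real.log t)) hab hc1
    (fun t ht => IF3.hasDeriv_F P t (by linarith [ht.1]))
  have hξa : a < ξ := hξ.1
  have hc2 : ContinuousOn (fun t => (ed P).eval (Real.log t)) (Set.Icc a ξ) := fun t ht =>
    (IF3.hasDeriv_log (ed P) t (by linarith [ht.1])).continuousAt.continuousWithinAt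
  obtain ⟨η, hη, h2⟩ := exists_hasDerivAt_eq_slope (fun t => (ed P).eval (Real.log t))
    (fun t => (Polynomial.derivative (ed P)).eval (Real.log t) * t⁻¹) hξa hc2
    (fun t ht => IF3.hasDeriv_log (ed P) t (by linarith [ht.1]))
  have hba : 0 < b - a := by linarith
  have hξa' : 0 < ξ - a := by linarith
  rw [eq_div_iff hba.ne'] at h1
  rw [eq_div_iff hξa'.ne'] at h2
  have hη1 : 1 ≤ η := by linarith [hη.1]
  have hlogη : 0 ≤ Real.log η := Real.log_nonneg hη1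
  have h3 := IF3.eval_bd d (Polynomial.derivative (ed P)) (d * ((d + 1) * M)) (Real.log η)
    (IF3.deg_der d _ (IF3.deg_ed d P hP))
    (IF3.der_bd d (ed P) ((d + 1) * M) (IF3.deg_ed d P hP) (IF3.ed_bd d P M hP hM)) hlogη
  have h4 : Real.log η ≤ Real.log b := Real.log_le_log (by linarith) (by
    linarith [hη.2, hξ.2])
  have h5 : (1 + Real.log η) ^ d ≤ (1 + Real.log b) ^ d := pow_le_pow_left₀ (by linarith)
    (by linarith) d
  have h6 : |(Polynomial.derivative (ed P)).eval (Real.log η)| ≤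
      (d + 1) * (d * ((d + 1) * M)) * (1 + Real.log b) ^ d :=
    h3.trans (mul_le_mul_of_nonneg_left h5 (by positivity))
  have h7 : b * P.eval (Real.log b) - a * P.eval (Real.log a) - (b - a) * (ed P).eval (Real.log a)
      = (b - a) * ((Polynomial.derivative (ed P)).eval (Real.log η) * (η⁻¹ * (ξ - a))) := by
    rw [← mul_assoc ((Polynomial.derivative (ed P)).eval (Real.log η)), h2, ← h1]
    ring
  rw [h7, abs_mul, abs_of_pos hba, abs_mul]
  refine mul_le_mul_of_nonneg_left ?_ hba.le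
  have h8 : |η⁻¹ * (ξ - a)| ≤ (b - a) / a := by
    rw [abs_mul, abs_of_pos hξa', abs_of_pos (by positivity), div_eq_inv_mul]
    refine mul_le_mul ?_ (by linarith [hξ.2]) hξa'.le (by positivity)
    exact inv_anti₀ (by linarith) hη.1.le
  have hlogb : 0 ≤ Real.log b := Real.log_nonneg (by linarith)
  exact mul_le_mul h6 h8 (abs_nonneg _) (by positivity)

/-- the sum `T` by AP -/
theorem byAP (f : ℕ → ℝ) (a b s : ℕ) (hab : a ≤ b) (u v : ℂ) (e : ℝ)
    (h1 : ‖SS f a (((1 : ℤ) : ℝ) / s) - u‖ ≤ e) (h2 : ‖SS f b (((1 : ℤ) : ℝ) / s) - v‖ ≤ e) :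
    ‖(∑ n ∈ Finset.Ioc a b, (f n : ℂ) * ee ((n : ℝ) * (1 / (s : ℝ)))) - (v - u)‖ ≤ 2 * e := by
  have h3 : SS f b (((1 : ℤ) : ℝ) / s) = SS f a (((1 : ℤ) : ℝ) / s) +
      ∑ n ∈ Finset.Ioc a b, (f n : ℂ) * ee ((n : ℝ) * (1 / (s : ℝ))) := by
    unfold SS
    have e3 : Finset.Icc 1 b = Finset.Icc 1 a ∪ Finset.Ioc a b := by
      ext m
      simp only [Finset.mem_Icc, Finset.mem_union, Finset.mem_Ioc]
      omega
    have e4 : Disjoint (Finset.Icc 1 a) (Finset.Ioc a b) := by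
      rw [Finset.disjoint_left]
      intro m h1 h2
      rw [Finset.mem_Icc] at h1
      rw [Finset.mem_Ioc] at h2
      omega
    rw [e3, Finset.sum_union e4]
    push_cast
    rfl
  have h4 : (∑ n ∈ Finset.Ioc a b, (f n : ℂ) * ee ((n : ℝ) * (1 / (s : ℝ)))) - (v - u) =
      (SS f b (((1 : ℤ) : ℝ) / s) - v) - (SS f a (((1 : ℤ) : ℝ) / s) - u) := by
    rw [h3]
    ring
  rw [h4]
  refine (norm_sub_le _ _).trans ?_
  linarith

end IR8

theorem prR8 (hR1 : tsR1) : tsR8 := by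
  intro r E hr hAP hCB σ hσ hσ4
  obtain ⟨hdeg, -, c, CA, hc0, hc4, hCA, hAPb⟩ := hAP
  obtain ⟨CB1, hCB10, hCB1⟩ := hCB 1 one_pos
  have hr0 : (0 : ℝ) < r := by exact_mod_cast (by omega : 0 < r)
  have hr2 : (2 : ℝ) ≤ r := by exact_mod_cast hr
  have hcA : 0 < 2 + CA / 20 := by positivity
  refine ⟨min (c / (2 + CA / 20)) (min (r * σ / 2) (min (1 / (8 * r)) (1 / 8))), by positivity,
    fun δ₁ hδ hδs => ?_⟩
  have k1 : δ₁ ≤ c / (2 + CA / 20) := hδs.trans (min_le_left _ _)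
  have k2 : δ₁ ≤ r * σ / 2 := (hδs.trans (min_le_right _ _)).trans (min_le_left _ _)
  have k3 : δ₁ ≤ 1 / (8 * r) :=
    ((hδs.trans (min_le_right _ _)).trans (min_le_right _ _)).trans (min_le_left _ _)
  have k4 : δ₁ ≤ 1 / 8 :=
    ((hδs.trans (min_le_right _ _)).trans (min_le_right _ _)).trans (min_le_right _ _)
  rw [le_div_iff₀ hcA] at k1
  -- `1 / r - σ ≥ 6 δ₁`
  have k5 : 6 * δ₁ ≤ 1 / (r : ℝ) - σ := by
    have e1 : 1 / (4 * (r : ℝ)) = (1 / r) / 4 := by field_simp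
    have e2 : 1 / (8 * (r : ℝ)) = (1 / r) / 8 := by field_simp
    rw [e1] at hσ4
    rw [e2] at k3
    linarith
  have k6 : 1 / (r : ℝ) ≤ 1 / 2 := one_div_le_one_div_of_le (by norm_num) hr2
  obtain ⟨CL, hCL0, hCL⟩ := prL0 r (δ₁ / 12) (by positivity)
  obtain ⟨KL, hKL0, hKL⟩ := IF5.log_pow (r - 1) (δ₁ / 12) (by positivity)
  set d : ℕ := r - 1 with hd
  set K1 : ℝ := (d + 1) * (d * ((d + 1) * CB1)) with hK1
  have hK10 : 0 ≤ K1 := by positivity
  set Kt : ℝ := 2 + 60 * r * CL + 12 * CA + K1 * (KL * 2) with hKt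
  have hKt0 : 0 < Kt := by positivity
  refine ⟨max 1 (Kt ^ (12 / δ₁)), fun X a b s hX ha hb hab1 hab2 hs1 hs2 => ?_⟩
  have hX1 : 1 ≤ X := (le_max_left _ _).trans hX
  have hX0 : 0 < X := by linarith
  have hKX : Kt ≤ X ^ (δ₁ / 12) := by
    have h1 : Kt ^ (12 / δ₁) ≤ X := (le_max_right _ _).trans hX
    have h2 : (Kt ^ (12 / δ₁)) ^ (δ₁ / 12) = Kt := by
      rw [← Real.rpow_mul hKt0.le]
      have : 12 / δ₁ * (δ₁ / 12) = 1 := by field_simp
      rw [this, Real.rpow_one]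
    rw [← h2]
    exact Real.rpow_le_rpow (by positivity) h1 (by positivity)
  set y : ℝ := X ^ (1 / (r : ℝ) - σ) with hy
  have hy1 : 1 ≤ y := Real.one_le_rpow hX1 (by linarith)
  have hy0 : 0 < y := by linarith
  have ha1' : (1 : ℝ) ≤ a := (Real.one_le_rpow hX1 (by linarith)).trans ha
  have ha0 : (0 : ℝ) < a := by linarith
  have ha1 : 1 ≤ a := by exact_mod_cast ha1'
  set β : ℝ := (b : ℝ) - a with hβ
  have hβlo : X ^ (1 - δ₁) / 2 ≤ β := by rw [hβ]; linarith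
  have hβhi : β ≤ X ^ (1 - δ₁) := by rw [hβ]; linarith
  have hXp : 0 < X ^ (1 - δ₁) := Real.rpow_pos_of_pos hX0 _
  have hβ0 : 0 < β := by linarith
  have hab' : (a : ℝ) < b := by linarith
  have hab : a ≤ b := by exact_mod_cast hab'.le
  have hb0 : (0 : ℝ) < b := by linarith
  have hs0 : (0 : ℝ) < s := by exact_mod_cast hs1
  have hs1' : (1 : ℝ) ≤ s := by exact_mod_cast hs1
  -- monotonicity in the exponent
  have mono : ∀ u v : ℝ, u ≤ v → X ^ u ≤ X ^ v := fun u v h =>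
    Real.rpow_le_rpow_of_exponent_le hX1 h
  have pos : ∀ u : ℝ, 0 < X ^ u := fun u => Real.rpow_pos_of_pos hX0 u
  have mulX : ∀ u v : ℝ, X ^ u * X ^ v = X ^ (u + v) := fun u v => (Real.rpow_add hX0 u v).symm
  set Z : ℝ := X ^ (-(5 * δ₁ / 12)) with hZ
  have hZ0 : 0 < Z := pos _
  -- `1 / β ≤ 2 X^(-1 + δ₁)`
  have hβinv : 1 / β ≤ 2 * X ^ (-1 + δ₁) := by
    rw [div_le_iff₀ hβ0]
    have h1 : 2 * X ^ (-1 + δ₁) * (X ^ (1 - δ₁) / 2) = 1 := by
      have h2 : X ^ (-1 + δ₁) * X ^ (1 - δ₁) = 1 := by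
        rw [mulX]
        have : -1 + δ₁ + (1 - δ₁) = 0 := by ring
        rw [this, Real.rpow_zero]
      linarith
    have h2 : 2 * X ^ (-1 + δ₁) * (X ^ (1 - δ₁) / 2) ≤ 2 * X ^ (-1 + δ₁) * β :=
      mul_le_mul_of_nonneg_left hβlo (by have := pos (-1 + δ₁); positivity)
    linarith
  -- `1 / a ≤ X^(-1 + δ₁/2)`
  have hainv : 1 / (a : ℝ) ≤ X ^ (-1 + δ₁ / 2) := by
    rw [div_le_iff₀ ha0]
    have h2 : X ^ (-1 + δ₁ / 2) * X ^ (1 - δ₁ / 2) = 1 := by
      rw [mulX]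
      have : -1 + δ₁ / 2 + (1 - δ₁ / 2) = 0 := by ring
      rw [this, Real.rpow_zero]
    have h3 : X ^ (-1 + δ₁ / 2) * X ^ (1 - δ₁ / 2) ≤ X ^ (-1 + δ₁ / 2) * a :=
      mul_le_mul_of_nonneg_left ha (pos _).le
    linarith
  have hyinv : 1 / y = X ^ (-(1 / (r : ℝ) - σ)) := by
    rw [hy, Real.rpow_neg hX0.le, one_div]
  -- the weights
  set Wm : ℝ := r * (CL * (3 * X ^ (δ₁ / 12))) with hWm
  have hWm0 : 0 ≤ Wm := by have := pos (δ₁ / 12); positivity
  have h3X : (3 * X) ^ (δ₁ / 12) ≤ 3 * X ^ (δ₁ / 12) := by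
    rw [Real.mul_rpow (by norm_num) hX0.le]
    refine mul_le_mul_of_nonneg_right ?_ (pos _).le
    calc (3 : ℝ) ^ (δ₁ / 12) ≤ 3 ^ (1 : ℝ) :=
          Real.rpow_le_rpow_of_exponent_le (by norm_num) (by linarith)
      _ = 3 := Real.rpow_one 3
  have hW : ∀ m : ℕ, 1 ≤ m → m ≤ b → Wy r y m ≤ Wm := by
    intro m hm hmb
    refine ((hR1 r y (by omega) hy1).1 m).2.trans ?_
    refine mul_le_mul_of_nonneg_left ?_ hr0.le
    refine (hCL m hm).trans (mul_le_mul_of_nonneg_left ?_ hCL0.le)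
    refine le_trans ?_ h3X
    refine Real.rpow_le_rpow (Nat.cast_nonneg m) ?_ (by positivity)
    have : (m : ℝ) ≤ b := by exact_mod_cast hmb
    linarith
  have hcomb := IR8.comb hR1 r y (by omega) hy1 a b s ha1 hab hs1 Wm hWm0 hW
  set T : ℂ := ∑ n ∈ Finset.Ioc a b, (dr r n : ℂ) * ee ((n : ℝ) * (1 / (s : ℝ))) with hT
  set H : ℝ := hs r y ⌊(a : ℝ) / y⌋₊ s with hH
  set M₀ : ℝ := (⌊(a : ℝ) / y⌋₊ : ℝ) with hM₀
  -- AP
  have h1ap : ∀ n : ℕ, (1 : ℝ) ≤ n → (n : ℝ) ≤ 3 * X →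
      ‖SS (dr r) n (((1 : ℤ) : ℝ) / s) - (((n * (E s).eval (Real.log n) : ℝ)) : ℂ)‖ ≤
        CA * (s : ℝ) ^ CA * (3 * X ^ (1 - c)) := by
    intro n hn hn3
    have h := hAPb s 1 n hs1 isCoprime_one_left hn
    rw [Nat.floor_natCast] at h
    refine h.trans (mul_le_mul_of_nonneg_left ?_ (by positivity))
    calc (n : ℝ) ^ (1 - c) ≤ (3 * X) ^ (1 - c) :=
          Real.rpow_le_rpow (by linarith) hn3 (by linarith)
      _ = 3 ^ (1 - c) * X ^ (1 - c) := Real.mul_rpow (by norm_num) hX0.le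
      _ ≤ 3 * X ^ (1 - c) := by
        refine mul_le_mul_of_nonneg_right ?_ (pos _).le
        calc (3 : ℝ) ^ (1 - c) ≤ 3 ^ (1 : ℝ) :=
              Real.rpow_le_rpow_of_exponent_le (by norm_num) (by linarith)
          _ = 3 := Real.rpow_one 3
  have hTap := IR8.byAP (dr r) a b s hab _ _ _ (h1ap a ha1' (by linarith))
    (h1ap b (by linarith) hb)
  -- the main term
  have hCBs : ∀ j, |(E s).coeff j| ≤ CB1 := by
    intro j
    have h := hCB1 s j hs1
    rw [sub_self, Real.rpow_zero, mul_one] at h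
    exact h
  have hmean := IR8.mean d (E s) CB1 (hdeg s) hCBs a b ha1' hab'
  rw [← hK1, ← hβ] at hmean
  set p : ℝ := (ed (E s)).eval (Real.log a) with hp
  -- assembly
  have hmain : β * |H - p| ≤ (y ^ r + Wm * M₀ * (1 + s) + Wm * (β / y + 1) * (β * y / a + 1)) +
      2 * (CA * (s : ℝ) ^ CA * (3 * X ^ (1 - c))) +
      β * (K1 * (1 + Real.log b) ^ d * (β / a)) := by
    have h1 : β * |H - p| = ‖(((β * H - β * p : ℝ)) : ℂ)‖ := by
      rw [Complex.norm_real, Real.norm_eq_abs, ← mul_sub, abs_mul, abs_of_pos hβ0]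
    set A : ℂ := (((b * (E s).eval (Real.log b) : ℝ)) : ℂ) -
      (((a * (E s).eval (Real.log a) : ℝ)) : ℂ) with hA
    have h2 : (((β * H - β * p : ℝ)) : ℂ) = -(T - ((β * H : ℝ) : ℂ)) + (T - A) +
        ((b * (E s).eval (Real.log b) - a * (E s).eval (Real.log a) - β * p : ℝ) : ℂ) := by
      rw [hA]
      push_cast
      ring
    rw [h1, h2]
    refine (norm_add_le _ _).trans (add_le_add ((norm_add_le _ _).trans (add_le_add ?_ hTap)) ?_)
    · rw [norm_neg]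
      exact hcomb
    · rw [Complex.norm_real, Real.norm_eq_abs]
      exact hmean
  have hβi0 : 0 < 1 / β := by positivity
  have hai0 : 0 < 1 / (a : ℝ) := by positivity
  -- division by `β`
  have hdiv : |H - p| ≤ 1 / β * y ^ r + 1 / β * (Wm * M₀ * (1 + s)) +
      Wm * (β / a + 1 / y + y / a + 1 / β) + 1 / β * (2 * (CA * (s : ℝ) ^ CA * (3 * X ^ (1 - c)))) +
      K1 * (1 + Real.log b) ^ d * (β / a) := by
    have h1 : |H - p| = 1 / β * (β * |H - p|) := by field_simp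
    rw [h1]
    refine (mul_le_mul_of_nonneg_left hmain hβi0.le).trans (le_of_eq ?_)
    field_simp
    ring
  have hM0 : M₀ ≤ 3 * X * (1 / y) := by
    have h1 : M₀ ≤ (a : ℝ) / y := Nat.floor_le (by positivity)
    refine h1.trans ?_
    rw [div_eq_mul_one_div]
    refine mul_le_mul_of_nonneg_right (by linarith) (by positivity)
  have hM00 : 0 ≤ M₀ := Nat.cast_nonneg _
  have hβa : β / a ≤ X ^ (-(δ₁ / 2)) := by
    rw [div_eq_mul_one_div]
    refine (mul_le_mul hβhi hainv hai0.le hXp.le).trans (le_of_eq ?_)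
    rw [mulX]
    congr 1
    ring
  have b1 : 1 / β * y ^ r ≤ 2 * Z := by
    have h1 : y ^ r = X ^ ((1 / (r : ℝ) - σ) * r) := by
      rw [hy, ← Real.rpow_natCast, ← Real.rpow_mul hX0.le]
    rw [h1]
    refine (mul_le_mul_of_nonneg_right hβinv (pos _).le).trans ?_
    rw [mul_assoc, mulX]
    refine mul_le_mul_of_nonneg_left (mono _ _ ?_) (by norm_num)
    have h2 : (1 / (r : ℝ) - σ) * r = 1 - r * σ := by field_simp
    rw [h2]
    linarith
  have b2 : 1 / β * (Wm * M₀ * (1 + s)) ≤ 36 * r * CL * Z := by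
    have h1 : (1 : ℝ) + s ≤ 2 * X ^ (δ₁ / 20) := by linarith
    have h2 : Wm * M₀ * (1 + s) ≤ Wm * (3 * X * (1 / y)) * (2 * X ^ (δ₁ / 20)) := by
      refine mul_le_mul (mul_le_mul_of_nonneg_left hM0 hWm0) h1 (by positivity) (by positivity)
    refine (mul_le_mul hβinv h2 (by positivity) (by have := pos (-1 + δ₁); positivity)).trans ?_
    rw [hyinv, hWm]
    have h3 : 2 * X ^ (-1 + δ₁) * (r * (CL * (3 * X ^ (δ₁ / 12))) *
        (3 * X * X ^ (-(1 / (r : ℝ) - σ))) * (2 * X ^ (δ₁ / 20))) =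
        36 * r * CL * (X ^ (-1 + δ₁) * X ^ (δ₁ / 12) * X ^ (1 : ℝ) * X ^ (-(1 / (r : ℝ) - σ)) *
          X ^ (δ₁ / 20)) := by
      rw [Real.rpow_one]
      ring
    rw [h3, mulX, mulX, mulX, mulX]
    refine mul_le_mul_of_nonneg_left (mono _ _ ?_) (by positivity)
    linarith
  have b3 : Wm * (β / a + 1 / y + y / a + 1 / β) ≤ 15 * r * CL * Z := by
    have h1 : 1 / y ≤ X ^ (-(δ₁ / 2)) := by
      rw [hyinv]
      exact mono _ _ (by linarith)
    have h2 : y / a ≤ X ^ (-(δ₁ / 2)) := by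
      rw [div_eq_mul_one_div]
      refine (mul_le_mul_of_nonneg_left hainv hy0.le).trans ?_
      rw [hy, mulX]
      exact mono _ _ (by linarith)
    have h3 : 1 / β ≤ 2 * X ^ (-(δ₁ / 2)) := by
      refine hβinv.trans (mul_le_mul_of_nonneg_left (mono _ _ (by linarith)) (by norm_num))
    have h4 : β / a + 1 / y + y / a + 1 / β ≤ 5 * X ^ (-(δ₁ / 2)) := by linarith
    refine (mul_le_mul_of_nonneg_left h4 hWm0).trans (le_of_eq ?_)
    have h5 : X ^ (δ₁ / 12) * X ^ (-(δ₁ / 2)) = Z := by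
      rw [mulX, hZ]
      congr 1
      ring
    rw [hWm, ← h5]
    ring
  have b4 : 1 / β * (2 * (CA * (s : ℝ) ^ CA * (3 * X ^ (1 - c)))) ≤ 12 * CA * Z := by
    have h1 : (s : ℝ) ^ CA ≤ X ^ (δ₁ / 20 * CA) := by
      rw [Real.rpow_mul hX0.le]
      exact Real.rpow_le_rpow hs0.le hs2 hCA.le
    have h2 : 2 * (CA * (s : ℝ) ^ CA * (3 * X ^ (1 - c))) ≤
        2 * (CA * X ^ (δ₁ / 20 * CA) * (3 * X ^ (1 - c))) := by
      refine mul_le_mul_of_nonneg_left (mul_le_mul_of_nonneg_right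
        (mul_le_mul_of_nonneg_left h1 hCA.le) ?_) (by norm_num)
      have := pos (1 - c)
      positivity
    have h20 : 0 ≤ 2 * (CA * (s : ℝ) ^ CA * (3 * X ^ (1 - c))) := by
      have := pos (1 - c)
      positivity
    refine (mul_le_mul hβinv h2 h20 (by have := pos (-1 + δ₁); positivity)).trans ?_
    have h3 : 2 * X ^ (-1 + δ₁) * (2 * (CA * X ^ (δ₁ / 20 * CA) * (3 * X ^ (1 - c)))) =
        12 * CA * (X ^ (-1 + δ₁) * X ^ (δ₁ / 20 * CA) * X ^ (1 - c)) := by ring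
    rw [h3, mulX, mulX]
    refine mul_le_mul_of_nonneg_left (mono _ _ ?_) (by positivity)
    nlinarith
  have b5 : K1 * (1 + Real.log b) ^ d * (β / a) ≤ K1 * (KL * 2) * Z := by
    have hlogb : 0 ≤ Real.log b := Real.log_nonneg (by linarith)
    have h1 : (1 + Real.log b) ^ d ≤ KL * (2 * X ^ (δ₁ / 12)) := by
      have h2 : (1 + Real.log b) ^ d ≤ (1 + Real.log (2 * (2 * X))) ^ d := by
        refine pow_le_pow_left₀ (by linarith) ?_ d
        have : Real.log b ≤ Real.log (2 * (2 * X)) := Real.log_le_log hb0 (by linarith)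
        linarith
      refine h2.trans ((hKL (2 * X) (by linarith)).trans ?_)
      refine mul_le_mul_of_nonneg_left ?_ hKL0.le
      rw [Real.mul_rpow (by norm_num) hX0.le]
      refine mul_le_mul_of_nonneg_right ?_ (pos _).le
      calc (2 : ℝ) ^ (δ₁ / 12) ≤ 2 ^ (1 : ℝ) :=
            Real.rpow_le_rpow_of_exponent_le (by norm_num) (by linarith)
        _ = 2 := Real.rpow_one 2
    have h3 : K1 * (1 + Real.log b) ^ d ≤ K1 * (KL * (2 * X ^ (δ₁ / 12))) :=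
      mul_le_mul_of_nonneg_left h1 hK10
    refine (mul_le_mul h3 hβa (by positivity) (by have := pos (δ₁ / 12); positivity)).trans
      (le_of_eq ?_)
    have h5 : X ^ (δ₁ / 12) * X ^ (-(δ₁ / 2)) = Z := by
      rw [mulX, hZ]
      congr 1
      ring
    rw [← h5]
    ring
  have hfin : |H - p| ≤ Kt * Z := by
    have h1 : 0 ≤ r * CL * Z := by positivity
    have e : Kt * Z = 2 * Z + 60 * (r * CL * Z) + 12 * CA * Z + K1 * (KL * 2) * Z := by
      rw [hKt]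
      ring
    have e2 : 36 * r * CL * Z = 36 * (r * CL * Z) := by ring
    have e3 : 15 * r * CL * Z = 15 * (r * CL * Z) := by ring
    rw [e2] at b2
    rw [e3] at b3
    rw [e]
    linarith
  refine hfin.trans ((mul_le_mul_of_nonneg_right hKX hZ0.le).trans (le_of_eq ?_))
  rw [hZ, mulX]
  congr 1
  ring

end Pool.Agent.Work.MP_122e00_nt.TS
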