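import Mathlib
import Pool.Agent.Work.MP_122e00_nt.TS.Stmts4
import Pool.Agent.Work.MP_122e00_nt.TS.I_F6
import Pool.Agent.Work.MP_122e00_nt.TS.I_F8
import Pool.Agent.Work.MP_122e00_nt.TS.I_G3

set_option autoImplicit false

/-!
# Thin shifts, item R9: one block
-/

namespace Pool.Agent.Work.MP_122e00_nt.TS

open Finset Filter Topology ArithmeticFunction
open scoped ArithmeticFunction.zeta ArithmeticFunction.Moebius

namespace IR9

/-! ### windows -/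

theorem ee_norm (x : ℝ) : ‖ee x‖ = 1 := by
  unfold ee
  exact Complex.norm_exp_ofReal_mul_I _

theorem win_le (s : Finset ℕ) (f g : ℕ → ℝ) (γ : ℝ) (h : ∀ n ∈ s, |f n| ≤ g n) :
    ‖∑ n ∈ s, ((f n : ℝ) : ℂ) * ee (n * γ)‖ ≤ ∑ n ∈ s, g n := by
  refine (norm_sum_le _ _).trans (Finset.sum_le_sum fun n hn => ?_)
  rw [norm_mul, ee_norm, mul_one, Complex.norm_real, Real.norm_eq_abs]
  exact h n hn

theorem win_zero (s : Finset ℕ) (f : ℕ → ℝ) :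
    ‖∑ n ∈ s, ((f n : ℝ) : ℂ) * ee (n * (0 : ℝ))‖ = |∑ n ∈ s, f n| := by
  have h1 : ∀ n ∈ s, ((f n : ℝ) : ℂ) * ee (n * (0 : ℝ)) = ((f n : ℝ) : ℂ) := by
    intro n _
    have : ee ((n : ℝ) * (0 : ℝ)) = 1 := by
      unfold ee
      simp
    rw [this, mul_one]
  rw [Finset.sum_congr rfl h1, ← Complex.ofReal_sum, Complex.norm_real, Real.norm_eq_abs]

theorem sq5 (a b c d e : ℝ) :
    (a + b + c + d + e) ^ 2 ≤ 5 * (a ^ 2 + b ^ 2 + c ^ 2 + d ^ 2 + e ^ 2) := by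
  nlinarith [sq_nonneg (a - b), sq_nonneg (a - c), sq_nonneg (a - d), sq_nonneg (a - e),
    sq_nonneg (b - c), sq_nonneg (b - d), sq_nonneg (b - e), sq_nonneg (c - d),
    sq_nonneg (c - e), sq_nonneg (d - e)]

/-- one window -/
theorem one_window (s : Finset ℕ) (L : ℕ) (γ U κ : ℝ) (f u b1 bs bl R T : ℕ → ℝ)
    (hcard : s.card = L)
    (hf : ∀ n ∈ s, f n = u n + b1 n + R n + T n)
    (hu : ∀ n ∈ s, 0 ≤ u n ∧ u n ≤ U)
    (hb : ∀ n ∈ s, 0 ≤ b1 n ∧ b1 n ≤ bs n + bl n)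
    (hbs : ∀ n ∈ s, |bs n| ≤ κ) (hR : ∀ n ∈ s, |R n| ≤ κ) :
    ‖∑ n ∈ s, ((f n : ℝ) : ℂ) * ee (n * γ)‖ ^ 2 ≤
      5 * (U * L * ∑ n ∈ s, u n + 2 * (L * κ) ^ 2 +
        ‖∑ n ∈ s, ((bl n : ℝ) : ℂ) * ee (n * (0 : ℝ))‖ ^ 2 +
        ‖∑ n ∈ s, ((T n : ℝ) : ℂ) * ee (n * γ)‖ ^ 2) := by
  have hconst : ∀ g : ℕ → ℝ, (∀ n ∈ s, |g n| ≤ κ) → ∑ n ∈ s, |g n| ≤ L * κ := by
    intro g hg
    calc ∑ n ∈ s, |g n| ≤ ∑ n ∈ s, κ := Finset.sum_le_sum hg
      _ = L * κ := by rw [Finset.sum_const, nsmul_eq_mul, hcard]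
  set Su : ℝ := ∑ n ∈ s, u n with hSu
  have hSu0 : 0 ≤ Su := Finset.sum_nonneg fun n hn => (hu n hn).1
  have hSuU : Su ≤ U * L := by
    calc Su ≤ ∑ n ∈ s, U := Finset.sum_le_sum fun n hn => (hu n hn).2
      _ = U * L := by rw [Finset.sum_const, nsmul_eq_mul, hcard]; ring
  have hsplit : ∑ n ∈ s, ((f n : ℝ) : ℂ) * ee (n * γ) =
      ∑ n ∈ s, ((u n : ℝ) : ℂ) * ee (n * γ) + ∑ n ∈ s, ((b1 n : ℝ) : ℂ) * ee (n * γ) +
      ∑ n ∈ s, ((R n : ℝ) : ℂ) * ee (n * γ) + ∑ n ∈ s, ((T n : ℝ) : ℂ) * ee (n * γ) := by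
    rw [← Finset.sum_add_distrib, ← Finset.sum_add_distrib, ← Finset.sum_add_distrib]
    refine Finset.sum_congr rfl fun n hn => ?_
    rw [hf n hn]
    push_cast
    ring
  have h1 : ‖∑ n ∈ s, ((u n : ℝ) : ℂ) * ee (n * γ)‖ ≤ Su :=
    win_le s u u γ fun n hn => (abs_of_nonneg (hu n hn).1).le
  have h2 : ‖∑ n ∈ s, ((b1 n : ℝ) : ℂ) * ee (n * γ)‖ ≤ L * κ + |∑ n ∈ s, bl n| := by
    refine (win_le s b1 b1 γ fun n hn => (abs_of_nonneg (hb n hn).1).le).trans ?_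
    calc ∑ n ∈ s, b1 n ≤ ∑ n ∈ s, (bs n + bl n) := Finset.sum_le_sum fun n hn => (hb n hn).2
      _ = ∑ n ∈ s, bs n + ∑ n ∈ s, bl n := Finset.sum_add_distrib
      _ ≤ L * κ + |∑ n ∈ s, bl n| := by
        apply add_le_add _ (le_abs_self _)
        exact (Finset.sum_le_sum fun n _ => le_abs_self (bs n)).trans (hconst bs hbs)
  have h3 : ‖∑ n ∈ s, ((R n : ℝ) : ℂ) * ee (n * γ)‖ ≤ L * κ :=
    (win_le s R (fun n => |R n|) γ fun n _ => le_rfl).trans (hconst R hR)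
  have h4 : ‖∑ n ∈ s, ((f n : ℝ) : ℂ) * ee (n * γ)‖ ≤
      Su + L * κ + L * κ + |∑ n ∈ s, bl n| + ‖∑ n ∈ s, ((T n : ℝ) : ℂ) * ee (n * γ)‖ := by
    rw [hsplit]
    have e1 := norm_add_le (∑ n ∈ s, ((u n : ℝ) : ℂ) * ee (n * γ) +
      ∑ n ∈ s, ((b1 n : ℝ) : ℂ) * ee (n * γ) + ∑ n ∈ s, ((R n : ℝ) : ℂ) * ee (n * γ))
      (∑ n ∈ s, ((T n : ℝ) : ℂ) * ee (n * γ))
    have e2 := norm_add_le (∑ n ∈ s, ((u n : ℝ) : ℂ) * ee (n * γ) +
      ∑ n ∈ s, ((b1 n : ℝ) : ℂ) * ee (n * γ)) (∑ n ∈ s, ((R n : ℝ) : ℂ) * ee (n * γ))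
    have e3 := norm_add_le (∑ n ∈ s, ((u n : ℝ) : ℂ) * ee (n * γ))
      (∑ n ∈ s, ((b1 n : ℝ) : ℂ) * ee (n * γ))
    linarith
  have h5 : ‖∑ n ∈ s, ((f n : ℝ) : ℂ) * ee (n * γ)‖ ^ 2 ≤
      (Su + L * κ + L * κ + |∑ n ∈ s, bl n| + ‖∑ n ∈ s, ((T n : ℝ) : ℂ) * ee (n * γ)‖) ^ 2 :=
    pow_le_pow_left₀ (norm_nonneg _) h4 2
  have h6 := sq5 Su (L * κ) (L * κ) |∑ n ∈ s, bl n| ‖∑ n ∈ s, ((T n : ℝ) : ℂ) * ee (n * γ)‖
  have h7 : Su ^ 2 ≤ U * L * Su := by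
    rw [pow_two]
    exact mul_le_mul_of_nonneg_right hSuU hSu0
  rw [win_zero]
  linarith

/-- windows covering -/
theorem sum_windows (a b L : ℕ) (u : ℕ → ℝ) (hu : ∀ n, 0 ≤ u n) :
    ∑ x ∈ Finset.Icc (a + L) b, ∑ n ∈ Finset.Ioc (x - L) x, u n ≤
      L * ∑ n ∈ Finset.Icc 1 b, u n := by
  have h1 : ∀ x ∈ Finset.Icc (a + L) b, ∑ n ∈ Finset.Ioc (x - L) x, u n =
      ∑ h ∈ Finset.range L, u (x - h) := by
    intro x hx
    rw [Finset.mem_Icc] at hx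
    symm
    refine Finset.sum_bij (fun h _ => x - h) ?_ ?_ ?_ ?_
    · intro h hh
      rw [Finset.mem_range] at hh
      rw [Finset.mem_Ioc]
      omega
    · intro h hh h' hh' e
      rw [Finset.mem_range] at hh hh'
      have e' : x - h = x - h' := e
      omega
    · intro n hn
      rw [Finset.mem_Ioc] at hn
      exact ⟨x - n, by rw [Finset.mem_range]; omega, by show x - (x - n) = n; omega⟩
    · intro h _
      rfl
  rw [Finset.sum_congr rfl h1, Finset.sum_comm]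
  calc ∑ h ∈ Finset.range L, ∑ x ∈ Finset.Icc (a + L) b, u (x - h)
      ≤ ∑ h ∈ Finset.range L, ∑ n ∈ Finset.Icc 1 b, u n := by
        refine Finset.sum_le_sum fun h hh => ?_
        rw [Finset.mem_range] at hh
        have h2 : ∑ x ∈ Finset.Icc (a + L) b, u (x - h) =
            ∑ n ∈ (Finset.Icc (a + L) b).image (fun x => x - h), u n := by
          rw [Finset.sum_image]
          intro x hx x' hx' e
          have hx1 := Finset.mem_Icc.mp (Finset.mem_coe.mp hx)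
          have hx2 := Finset.mem_Icc.mp (Finset.mem_coe.mp hx')
          have e' : x - h = x' - h := e
          omega
        rw [h2]
        refine Finset.sum_le_sum_of_subset_of_nonneg ?_ fun n _ _ => hu n
        intro n hn
        obtain ⟨x, hx, rfl⟩ := Finset.mem_image.mp hn
        rw [Finset.mem_Icc] at hx ⊢
        omega
    _ = L * ∑ n ∈ Finset.Icc 1 b, u n := by
        rw [Finset.sum_const, Finset.card_range, nsmul_eq_mul]

/-- all windows -/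
theorem total (a b L : ℕ) (γ U κ Y D1 D2 : ℝ) (f u b1 bs bl R T : ℕ → ℝ) (hL : 1 ≤ L)
    (hU : 0 ≤ U) (hu0 : ∀ n, 0 ≤ u n)
    (hf : ∀ n ∈ Finset.Ioc a b, f n = u n + b1 n + R n + T n)
    (hu : ∀ n ∈ Finset.Ioc a b, u n ≤ U)
    (hb : ∀ n ∈ Finset.Ioc a b, 0 ≤ b1 n ∧ b1 n ≤ bs n + bl n)
    (hbs : ∀ n ∈ Finset.Ioc a b, |bs n| ≤ κ) (hR : ∀ n ∈ Finset.Ioc a b, |R n| ≤ κ)
    (hY : ∑ n ∈ Finset.Icc 1 b, u n ≤ Y)
    (hD1 : ∑ x ∈ Finset.Icc (a + L) b, ‖∑ n ∈ Finset.Ioc (x - L) x,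
      ((bl n : ℝ) : ℂ) * ee (n * (0 : ℝ))‖ ^ 2 ≤ D1)
    (hD2 : ∑ x ∈ Finset.Icc (a + L) b, ‖∑ n ∈ Finset.Ioc (x - L) x,
      ((T n : ℝ) : ℂ) * ee (n * γ)‖ ^ 2 ≤ D2) :
    ∑ x ∈ Finset.Icc (a + L) b, ‖∑ n ∈ Finset.Ioc (x - L) x,
      ((f n : ℝ) : ℂ) * ee (n * γ)‖ ^ 2 ≤
      5 * (U * L * (L * Y) + ((b - a : ℕ) : ℝ) * (2 * (L * κ) ^ 2) + D1 + D2) := by
  have hsub : ∀ x ∈ Finset.Icc (a + L) b, ∀ n ∈ Finset.Ioc (x - L) x, n ∈ Finset.Ioc a b := by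
    intro x hx n hn
    rw [Finset.mem_Icc] at hx
    rw [Finset.mem_Ioc] at hn ⊢
    omega
  calc ∑ x ∈ Finset.Icc (a + L) b, ‖∑ n ∈ Finset.Ioc (x - L) x,
      ((f n : ℝ) : ℂ) * ee (n * γ)‖ ^ 2
      ≤ ∑ x ∈ Finset.Icc (a + L) b, 5 * (U * L * ∑ n ∈ Finset.Ioc (x - L) x, u n +
        2 * (L * κ) ^ 2 +
        ‖∑ n ∈ Finset.Ioc (x - L) x, ((bl n : ℝ) : ℂ) * ee (n * (0 : ℝ))‖ ^ 2 +
        ‖∑ n ∈ Finset.Ioc (x - L) x, ((T n : ℝ) : ℂ) * ee (n * γ)‖ ^ 2) := by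
        refine Finset.sum_le_sum fun x hx => ?_
        refine one_window (Finset.Ioc (x - L) x) L γ U κ f u b1 bs bl R T ?_
          (fun n hn => hf n (hsub x hx n hn)) (fun n hn => ⟨hu0 n, hu n (hsub x hx n hn)⟩)
          (fun n hn => hb n (hsub x hx n hn)) (fun n hn => hbs n (hsub x hx n hn))
          (fun n hn => hR n (hsub x hx n hn))
        rw [Finset.mem_Icc] at hx
        rw [Nat.card_Ioc]
        omega
    _ = 5 * (U * L * ∑ x ∈ Finset.Icc (a + L) b, ∑ n ∈ Finset.Ioc (x - L) x, u n +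
        ((Finset.Icc (a + L) b).card : ℝ) * (2 * (L * κ) ^ 2) +
        ∑ x ∈ Finset.Icc (a + L) b, ‖∑ n ∈ Finset.Ioc (x - L) x,
          ((bl n : ℝ) : ℂ) * ee (n * (0 : ℝ))‖ ^ 2 +
        ∑ x ∈ Finset.Icc (a + L) b, ‖∑ n ∈ Finset.Ioc (x - L) x,
          ((T n : ℝ) : ℂ) * ee (n * γ)‖ ^ 2) := by
        rw [← Finset.mul_sum, Finset.sum_add_distrib, Finset.sum_add_distrib,
          Finset.sum_add_distrib, ← Finset.mul_sum, Finset.sum_const, nsmul_eq_mul]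
    _ ≤ 5 * (U * L * (L * Y) + ((b - a : ℕ) : ℝ) * (2 * (L * κ) ^ 2) + D1 + D2) := by
        apply mul_le_mul_of_nonneg_left _ (by norm_num)
        apply add_le_add (add_le_add (add_le_add _ _) hD1) hD2
        · apply mul_le_mul_of_nonneg_left _ (mul_nonneg hU (Nat.cast_nonneg L))
          exact (sum_windows a b L u hu0).trans
            (mul_le_mul_of_nonneg_left hY (Nat.cast_nonneg L))
        · apply mul_le_mul_of_nonneg_right _ (by positivity)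
          rw [Nat.card_Icc]
          exact_mod_cast (by omega : b + 1 - (a + L) ≤ b - a)

/-! ### Ramanujan sums and coefficients -/

theorem Gh_le (n s : ℕ) : |Gh n s| ≤ (s : ℝ) ^ 2 := by
  refine (IF6.abs_Gh n s).trans ?_
  calc ∑ x ∈ s.divisorsAntidiagonal, Fh n x.2 ≤ ∑ x ∈ s.divisorsAntidiagonal, (s : ℝ) := by
        refine Finset.sum_le_sum fun x hx => ?_
        rw [Nat.mem_divisorsAntidiagonal] at hx
        have h1 : x.2 ≤ s := Nat.le_of_dvd (Nat.pos_of_ne_zero hx.2) ⟨x.1, by rw [← hx.1]; ring⟩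
        rw [Fh_apply]
        split_ifs
        · exact_mod_cast h1
        · exact Nat.cast_nonneg s
    _ = (s.divisors.card : ℝ) * s := by
        rw [Finset.sum_const, nsmul_eq_mul, ← Nat.map_div_right_divisors, Finset.card_map]
    _ ≤ (s : ℝ) * s := by
        apply mul_le_mul_of_nonneg_right _ (Nat.cast_nonneg s)
        exact_mod_cast Nat.card_divisors_le_self s
    _ = (s : ℝ) ^ 2 := by ring

theorem sumGh_bound (c : ℕ → ℝ) (Q n : ℕ) (τ : ℝ) (hτ : 0 ≤ τ)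
    (hc : ∀ s ∈ Finset.Icc 1 Q, |c s| ≤ τ) :
    |∑ s ∈ Finset.Icc 1 Q, c s * Gh n s| ≤ (Q : ℝ) ^ 3 * τ := by
  calc |∑ s ∈ Finset.Icc 1 Q, c s * Gh n s| ≤ ∑ s ∈ Finset.Icc 1 Q, |c s * Gh n s| :=
        Finset.abs_sum_le_sum_abs _ _
    _ ≤ ∑ s ∈ Finset.Icc 1 Q, τ * (Q : ℝ) ^ 2 := by
        refine Finset.sum_le_sum fun s hs => ?_
        rw [abs_mul]
        refine mul_le_mul (hc s hs) ((Gh_le n s).trans ?_) (abs_nonneg _) hτ
        exact pow_le_pow_left₀ (Nat.cast_nonneg s) (by exact_mod_cast (Finset.mem_Icc.mp hs).2) 2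
    _ = (Q : ℝ) ^ 3 * τ := by
        rw [Finset.sum_const, Nat.card_Icc, nsmul_eq_mul, Nat.add_sub_cancel]
        ring

theorem split_Icc (Q M : ℕ) (h : Q ≤ M) (f : ℕ → ℝ) :
    ∑ s ∈ Finset.Icc 1 M, f s = ∑ s ∈ Finset.Icc 1 Q, f s + ∑ s ∈ Finset.Ioc Q M, f s := by
  rw [← Finset.sum_union]
  · congr 1
    ext s
    rw [Finset.mem_union, Finset.mem_Icc, Finset.mem_Icc, Finset.mem_Ioc]
    omega
  · rw [Finset.disjoint_left]
    intro s hs hs'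
    rw [Finset.mem_Icc] at hs
    rw [Finset.mem_Ioc] at hs'
    omega

/-- the coefficients are `O(1/s)` -/
theorem hbound (w : ℕ → ℝ) (B : ℝ) (M s : ℕ) (hs : 1 ≤ s) (hB : 0 ≤ B)
    (hw : ∀ m ∈ Finset.Icc 1 M, 0 ≤ w m ∧ w m ≤ B) :
    |∑ m ∈ (Finset.Icc 1 M).filter (s ∣ ·), w m / m| ≤ B * (1 + Real.log M) / s := by
  have hs0 : (0 : ℝ) < s := by exact_mod_cast hs
  rw [abs_of_nonneg (Finset.sum_nonneg fun m hm =>
    div_nonneg (hw m (Finset.mem_filter.mp hm).1).1 (Nat.cast_nonneg m))]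
  calc ∑ m ∈ (Finset.Icc 1 M).filter (s ∣ ·), w m / m
      ≤ ∑ m ∈ (Finset.Icc 1 M).filter (s ∣ ·), B / m := by
        refine Finset.sum_le_sum fun m hm => ?_
        exact div_le_div_of_nonneg_right (hw m (Finset.mem_filter.mp hm).1).2 (Nat.cast_nonneg m)
    _ ≤ ∑ m ∈ (Finset.Icc 1 M).image (fun j => s * j), B / (m : ℝ) := by
        refine Finset.sum_le_sum_of_subset_of_nonneg ?_ fun m _ _ =>
          div_nonneg hB (Nat.cast_nonneg m)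
        intro m hm
        rw [Finset.mem_filter, Finset.mem_Icc] at hm
        obtain ⟨⟨h1, h2⟩, ⟨j, rfl⟩⟩ := hm
        rw [Finset.mem_image]
        refine ⟨j, ?_, rfl⟩
        rw [Finset.mem_Icc]
        constructor
        · rcases Nat.eq_zero_or_pos j with h0 | h0
          · subst h0
            omega
          · exact h0
        · calc j = 1 * j := (one_mul j).symm
            _ ≤ s * j := Nat.mul_le_mul_right j hs
            _ ≤ M := h2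
    _ = ∑ j ∈ Finset.Icc 1 M, B / ((s * j : ℕ) : ℝ) := by
        rw [Finset.sum_image]
        intro x _ x' _ e
        exact Nat.eq_of_mul_eq_mul_left hs e
    _ = B / s * ∑ j ∈ Finset.Icc 1 M, 1 / (j : ℝ) := by
        rw [Finset.mul_sum]
        refine Finset.sum_congr rfl fun j hj => ?_
        have hj0 : (0 : ℝ) < j := by exact_mod_cast (Finset.mem_Icc.mp hj).1
        push_cast
        field_simp
    _ ≤ B / s * (1 + Real.log M) :=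
        mul_le_mul_of_nonneg_left (IF6.harm M) (div_nonneg hB hs0.le)
    _ = B * (1 + Real.log M) / s := by ring

/-- the coefficients of the end of the range are small -/
theorem hsmall (W : ℕ → ℝ) (B : ℝ) (M0 M1 s : ℕ) (hB : 0 ≤ B) (hM : M0 ≤ M1)
    (hw : ∀ m ∈ Finset.Icc 1 M1, 0 ≤ W m ∧ W m ≤ B) :
    |∑ m ∈ (Finset.Icc 1 M1).filter (s ∣ ·), (if M0 < m then W m else 0) / m| ≤
      B * (((M1 : ℝ) - M0) / ((M0 : ℝ) + 1)) := by
  have hM0 : (0 : ℝ) < (M0 : ℝ) + 1 := by positivity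
  rw [abs_of_nonneg]
  · calc ∑ m ∈ (Finset.Icc 1 M1).filter (s ∣ ·), (if M0 < m then W m else 0) / m
        ≤ ∑ m ∈ (Finset.Icc 1 M1).filter (s ∣ ·), (if M0 < m then B / ((M0 : ℝ) + 1) else 0) := by
          refine Finset.sum_le_sum fun m hm => ?_
          have hm1 := (Finset.mem_filter.mp hm).1
          split_ifs with h
          · apply div_le_div₀ hB (hw m hm1).2 hM0
            exact_mod_cast h
          · rw [zero_div]
      _ ≤ ∑ m ∈ Finset.Icc 1 M1, (if M0 < m then B / ((M0 : ℝ) + 1) else 0) := by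
          refine Finset.sum_le_sum_of_subset_of_nonneg (Finset.filter_subset _ _) ?_
          intro m _ _
          split_ifs
          · exact div_nonneg hB hM0.le
          · exact le_rfl
      _ = ∑ m ∈ (Finset.Icc 1 M1).filter (fun m => M0 < m), B / ((M0 : ℝ) + 1) := by
          rw [Finset.sum_filter]
      _ = B * (((M1 : ℝ) - M0) / ((M0 : ℝ) + 1)) := by
          have h1 : (Finset.Icc 1 M1).filter (fun m => M0 < m) = Finset.Ioc M0 M1 := by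
            ext m
            rw [Finset.mem_filter, Finset.mem_Icc, Finset.mem_Ioc]
            omega
          rw [h1, Finset.sum_const, Nat.card_Ioc, nsmul_eq_mul, Nat.cast_sub hM]
          ring
  · refine Finset.sum_nonneg fun m hm => ?_
    apply div_nonneg _ (Nat.cast_nonneg m)
    split_ifs
    · exact (hw m (Finset.mem_filter.mp hm).1).1
    · exact le_rfl

/-- the decomposition of the sum over the divisors -/
theorem div_split (n M0 : ℕ) (y : ℝ) (W : ℕ → ℝ) (h : ∀ m : ℕ, m ≤ M0 → (m : ℝ) * y < n) :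
    ∑ m ∈ n.divisors.filter (fun m : ℕ => (m : ℝ) * y < n), W m =
      ∑ m ∈ n.divisors.filter (fun m => m ≤ M0), W m +
      ∑ m ∈ n.divisors.filter (fun m : ℕ => M0 < m ∧ (m : ℝ) * y < n), W m := by
  rw [← Finset.sum_union]
  · congr 1
    ext m
    rw [Finset.mem_union, Finset.mem_filter, Finset.mem_filter, Finset.mem_filter]
    constructor
    · rintro ⟨h1, h2⟩
      rcases Nat.lt_or_ge M0 m with h3 | h3
      · exact Or.inr ⟨h1, h3, h2⟩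
      · exact Or.inl ⟨h1, h3⟩
    · rintro (⟨h1, h2⟩ | ⟨h1, _, h2⟩)
      · exact ⟨h1, h m h2⟩
      · exact ⟨h1, h2⟩
  · rw [Finset.disjoint_left]
    intro m hm hm'
    have h1 := (Finset.mem_filter.mp hm).2
    have h2 := (Finset.mem_filter.mp hm').2.1
    omega

/-- the end of the range -/
theorem end_le (n M0 M1 : ℕ) (y : ℝ) (W : ℕ → ℝ) (hW : ∀ m, 0 ≤ W m)
    (h : ∀ m : ℕ, (m : ℝ) * y < n → m ≤ M1) :
    0 ≤ ∑ m ∈ n.divisors.filter (fun m : ℕ => M0 < m ∧ (m : ℝ) * y < n), W m ∧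
    ∑ m ∈ n.divisors.filter (fun m : ℕ => M0 < m ∧ (m : ℝ) * y < n), W m ≤
      ∑ m ∈ n.divisors.filter (fun m => m ≤ M1), (if M0 < m then W m else 0) := by
  constructor
  · exact Finset.sum_nonneg fun m _ => hW m
  · calc ∑ m ∈ n.divisors.filter (fun m : ℕ => M0 < m ∧ (m : ℝ) * y < n), W m
        = ∑ m ∈ n.divisors.filter (fun m : ℕ => M0 < m ∧ (m : ℝ) * y < n),
          (if M0 < m then W m else 0) := by
          refine Finset.sum_congr rfl fun m hm => ?_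
          rw [if_pos (Finset.mem_filter.mp hm).2.1]
      _ ≤ _ := by
          refine Finset.sum_le_sum_of_subset_of_nonneg ?_ ?_
          · intro m hm
            rw [Finset.mem_filter] at hm ⊢
            exact ⟨hm.1, h m hm.2.2⟩
          · intro m _ _
            split_ifs
            · exact hW m
            · exact le_rfl

/-- the coefficients of the end of the range -/
noncomputable def hp (r : ℕ) (y : ℝ) (M0 M1 s : ℕ) : ℝ :=
  ∑ m ∈ (Finset.Icc 1 M1).filter (s ∣ ·), (if M0 < m then Wy r y m else 0) / m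

/-- the decomposition of the difference of `d_r` and its model -/
theorem decomp (hR1 : tsR1) (hR2 : tsR2) (r : ℕ) (E : ℕ → Polynomial ℝ) (y : ℝ)
    (Q M0 M1 n : ℕ) (hr : 1 ≤ r) (hy : 1 ≤ y) (hn : 1 ≤ n) (hQ : Q ≤ M0) (hM : M0 ≤ M1)
    (h1 : ∀ m : ℕ, m ≤ M0 → (m : ℝ) * y < n) (h2 : ∀ m : ℕ, (m : ℝ) * y < n → m ≤ M1) :
    fl r E Q n = ((uy y) ^ r) n +
      ∑ m ∈ n.divisors.filter (fun m : ℕ => M0 < m ∧ (m : ℝ) * y < n), Wy r y m +
      ∑ s ∈ Finset.Icc 1 Q, (hs r y M0 s - (ed (E s)).eval (Real.log n)) * Gh n s +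
      ∑ s ∈ Finset.Ioc Q M0, hs r y M0 s * Gh n s ∧
    0 ≤ ∑ m ∈ n.divisors.filter (fun m : ℕ => M0 < m ∧ (m : ℝ) * y < n), Wy r y m ∧
    ∑ m ∈ n.divisors.filter (fun m : ℕ => M0 < m ∧ (m : ℝ) * y < n), Wy r y m ≤
      ∑ s ∈ Finset.Icc 1 Q, hp r y M0 M1 s * Gh n s +
      ∑ s ∈ Finset.Ioc Q M1, hp r y M0 M1 s * Gh n s := by
  obtain ⟨hW, -, -, hid⟩ := hR1 r y hr hy
  obtain ⟨e1, e2⟩ := end_le n M0 M1 y (fun m => Wy r y m) (fun m => (hW m).1) h2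
  refine ⟨?_, e1, ?_⟩
  · have e3 := hid n hn
    rw [div_split n M0 y (fun m => Wy r y m) h1] at e3
    have e4 := hR2 (fun m => Wy r y m) M0 n hn
    have e5 : ∑ s ∈ Finset.Icc 1 M0, (∑ m ∈ (Finset.Icc 1 M0).filter (s ∣ ·),
        Wy r y m / m) * Gh n s = ∑ s ∈ Finset.Icc 1 M0, hs r y M0 s * Gh n s := rfl
    rw [e4, e5, split_Icc Q M0 hQ] at e3
    have e6 : ∑ s ∈ Finset.Icc 1 Q, (hs r y M0 s - (ed (E s)).eval (Real.log n)) * Gh n s =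
        ∑ s ∈ Finset.Icc 1 Q, hs r y M0 s * Gh n s - fs E Q n := by
      unfold fs
      rw [← Finset.sum_sub_distrib]
      refine Finset.sum_congr rfl fun s _ => ?_
      ring
    rw [e6]
    unfold fl
    rw [e3]
    ring
  · refine e2.trans (le_of_eq ?_)
    rw [hR2 (fun m => if M0 < m then Wy r y m else 0) M1 n hn]
    exact split_Icc Q M1 (hQ.trans hM) fun s => hp r y M0 M1 s * Gh n s

/-! ### numerical lemmas -/

theorem logpow (k : ℕ) (η : ℝ) (hη : 0 < η) :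
    ∀ᶠ X : ℝ in atTop, (1 + Real.log (6 * X)) ^ k ≤ X ^ η := by
  obtain ⟨C, hC, hb⟩ := IG3.log_pow_bound k (half_pos hη)
  have h1 : ∀ᶠ X : ℝ in atTop, C * 3 ^ (η / 2) ≤ X ^ (η / 2) :=
    (tendsto_rpow_atTop (half_pos hη)).eventually_ge_atTop _
  filter_upwards [h1, eventually_ge_atTop (1 : ℝ)] with X hX hX1
  have hX0 : 0 < X := by linarith
  have h2 := hb (3 * X) (by linarith)
  rw [show 2 * (3 * X) = 6 * X by ring, Real.mul_rpow (by norm_num) hX0.le] at h2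
  calc (1 + Real.log (6 * X)) ^ k ≤ C * (3 ^ (η / 2) * X ^ (η / 2)) := h2
    _ = (C * 3 ^ (η / 2)) * X ^ (η / 2) := by ring
    _ ≤ X ^ (η / 2) * X ^ (η / 2) :=
        mul_le_mul_of_nonneg_right hX (Real.rpow_nonneg hX0.le _)
    _ = X ^ η := by
        rw [← Real.rpow_add hX0]
        congr 1
        ring

/-- the bracket of R5 -/
theorem bracket (X δ L N Q M : ℝ) (hX : 1 ≤ X) (hδ : 0 < δ) (hQ : X ^ (δ / 20) / 2 ≤ Q)
    (hL : X ^ (8 * δ) ≤ L) (hN : N ≤ X ^ (1 - δ)) (hM : M ≤ 3 * X ^ (1 - 6 * δ))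
    (hM2 : M ^ 2 / L ≤ 9 * X ^ (1 - 6 * δ)) :
    N / Q + N / L + M + M ^ 2 / L ≤ 15 * X ^ (1 - δ - δ / 20) := by
  have hX0 : 0 < X := by linarith
  have h1 : N / Q ≤ 2 * X ^ (1 - δ - δ / 20) := by
    have e1 : 0 < X ^ (δ / 20) := Real.rpow_pos_of_pos hX0 _
    calc N / Q ≤ X ^ (1 - δ) / (X ^ (δ / 20) / 2) :=
          div_le_div₀ (Real.rpow_nonneg hX0.le _) hN (by positivity) hQ
      _ = 2 * (X ^ (1 - δ) / X ^ (δ / 20)) := by field_simp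
      _ = 2 * X ^ (1 - δ - δ / 20) := by rw [← Real.rpow_sub hX0]
  have h2 : N / L ≤ X ^ (1 - δ - δ / 20) := by
    calc N / L ≤ X ^ (1 - δ) / X ^ (8 * δ) :=
          div_le_div₀ (Real.rpow_nonneg hX0.le _) hN (Real.rpow_pos_of_pos hX0 _) hL
      _ = X ^ (1 - δ - 8 * δ) := by rw [← Real.rpow_sub hX0]
      _ ≤ X ^ (1 - δ - δ / 20) := Real.rpow_le_rpow_of_exponent_le hX (by linarith)
  have h3 : X ^ (1 - 6 * δ) ≤ X ^ (1 - δ - δ / 20) :=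
    Real.rpow_le_rpow_of_exponent_le hX (by linarith)
  linarith

/-- the final estimate -/
theorem final (X δ B L Y N κ D1 D2 K0 C5 ℓ A : ℝ) (hX : 1 ≤ X) (hδ : 0 < δ)
    (hN : N ≤ X ^ (1 - δ)) (hY : Y ≤ X ^ (1 - 4 * δ)) (hB : B = K0 * X ^ (δ / 400))
    (hK0 : 0 < K0) (hC5 : 0 < C5) (hκ : κ = X ^ (-(δ / 6))) (hℓ : 1 ≤ ℓ) (hA0 : 0 ≤ A)
    (hA : A ≤ B * ℓ) (hℓ5 : ℓ ^ 5 ≤ X ^ (δ / 100))
    (hD1 : D1 ≤ C5 * A ^ 2 * ℓ ^ 3 * L ^ 2 * (15 * X ^ (1 - δ - δ / 20)))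
    (hD2 : D2 ≤ C5 * A ^ 2 * ℓ ^ 3 * L ^ 2 * (15 * X ^ (1 - δ - δ / 20)))
    (hK : 5 * K0 + 10 + 150 * C5 * K0 ^ 2 ≤ X ^ (δ / 100)) :
    5 * (B * L * (L * Y) + N * (2 * (L * κ) ^ 2) + D1 + D2) ≤ L ^ 2 * X ^ (1 - δ - δ / 40) := by
  have hX0 : 0 < X := by linarith
  set Z : ℝ := X ^ (1 - δ - δ / 20 + 3 * δ / 200) with hZ
  have hZ0 : 0 < Z := Real.rpow_pos_of_pos hX0 _
  have hL2 : 0 ≤ L ^ 2 := by positivity
  have t1 : B * L * (L * Y) ≤ L ^ 2 * (K0 * Z) := by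
    have e1 : X ^ (δ / 400) * Y ≤ Z := by
      calc X ^ (δ / 400) * Y ≤ X ^ (δ / 400) * X ^ (1 - 4 * δ) :=
            mul_le_mul_of_nonneg_left hY (Real.rpow_nonneg hX0.le _)
        _ = X ^ (δ / 400 + (1 - 4 * δ)) := by rw [← Real.rpow_add hX0]
        _ ≤ Z := Real.rpow_le_rpow_of_exponent_le hX (by linarith)
    calc B * L * (L * Y) = L ^ 2 * (K0 * (X ^ (δ / 400) * Y)) := by rw [hB]; ring
      _ ≤ L ^ 2 * (K0 * Z) := mul_le_mul_of_nonneg_left (mul_le_mul_of_nonneg_left e1 hK0.le) hL2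
  have t2 : N * (2 * (L * κ) ^ 2) ≤ L ^ 2 * (2 * Z) := by
    have e2 : κ ^ 2 = X ^ (-(δ / 3)) := by
      rw [hκ, ← Real.rpow_natCast, ← Real.rpow_mul hX0.le]
      congr 1
      push_cast
      ring
    have e1 : N * κ ^ 2 ≤ Z := by
      calc N * κ ^ 2 ≤ X ^ (1 - δ) * X ^ (-(δ / 3)) := by
            rw [e2]
            exact mul_le_mul_of_nonneg_right hN (Real.rpow_nonneg hX0.le _)
        _ = X ^ (1 - δ + -(δ / 3)) := by rw [← Real.rpow_add hX0]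
        _ ≤ Z := Real.rpow_le_rpow_of_exponent_le hX (by linarith)
    calc N * (2 * (L * κ) ^ 2) = L ^ 2 * (2 * (N * κ ^ 2)) := by ring
      _ ≤ L ^ 2 * (2 * Z) := mul_le_mul_of_nonneg_left (by linarith) hL2
  have t3 : C5 * A ^ 2 * ℓ ^ 3 * L ^ 2 * (15 * X ^ (1 - δ - δ / 20)) ≤
      L ^ 2 * (15 * C5 * K0 ^ 2 * Z) := by
    have e1 : A ^ 2 * ℓ ^ 3 ≤ K0 ^ 2 * (X ^ (δ / 200) * X ^ (δ / 100)) := by
      have f1 : A ^ 2 ≤ (B * ℓ) ^ 2 := pow_le_pow_left₀ hA0 hA 2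
      have f2 : (X ^ (δ / 400)) ^ 2 = X ^ (δ / 200) := by
        rw [← Real.rpow_natCast, ← Real.rpow_mul hX0.le]
        congr 1
        push_cast
        ring
      calc A ^ 2 * ℓ ^ 3 ≤ (B * ℓ) ^ 2 * ℓ ^ 3 :=
            mul_le_mul_of_nonneg_right f1 (by positivity)
        _ = K0 ^ 2 * ((X ^ (δ / 400)) ^ 2 * ℓ ^ 5) := by rw [hB]; ring
        _ = K0 ^ 2 * (X ^ (δ / 200) * ℓ ^ 5) := by rw [f2]
        _ ≤ K0 ^ 2 * (X ^ (δ / 200) * X ^ (δ / 100)) := by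
            apply mul_le_mul_of_nonneg_left _ (by positivity)
            exact mul_le_mul_of_nonneg_left hℓ5 (Real.rpow_nonneg hX0.le _)
    have e2 : X ^ (δ / 200) * X ^ (δ / 100) * X ^ (1 - δ - δ / 20) = Z := by
      rw [← Real.rpow_add hX0, ← Real.rpow_add hX0, hZ]
      congr 1
      ring
    calc C5 * A ^ 2 * ℓ ^ 3 * L ^ 2 * (15 * X ^ (1 - δ - δ / 20))
        = L ^ 2 * (15 * C5 * X ^ (1 - δ - δ / 20)) * (A ^ 2 * ℓ ^ 3) := by ring
      _ ≤ L ^ 2 * (15 * C5 * X ^ (1 - δ - δ / 20)) *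
          (K0 ^ 2 * (X ^ (δ / 200) * X ^ (δ / 100))) :=
          mul_le_mul_of_nonneg_left e1 (by positivity)
      _ = L ^ 2 * (15 * C5 * K0 ^ 2 * (X ^ (δ / 200) * X ^ (δ / 100) *
          X ^ (1 - δ - δ / 20))) := by ring
      _ = L ^ 2 * (15 * C5 * K0 ^ 2 * Z) := by rw [e2]
  have t4 : 5 * (B * L * (L * Y) + N * (2 * (L * κ) ^ 2) + D1 + D2) ≤
      L ^ 2 * ((5 * K0 + 10 + 150 * C5 * K0 ^ 2) * Z) := by
    have e1 : L ^ 2 * ((5 * K0 + 10 + 150 * C5 * K0 ^ 2) * Z) =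
        5 * (L ^ 2 * (K0 * Z) + L ^ 2 * (2 * Z) + L ^ 2 * (15 * C5 * K0 ^ 2 * Z) +
          L ^ 2 * (15 * C5 * K0 ^ 2 * Z)) := by ring
    rw [e1]
    linarith
  have t5 : X ^ (δ / 100) * Z = X ^ (1 - δ - δ / 40) := by
    rw [hZ, ← Real.rpow_add hX0]
    congr 1
    ring
  calc 5 * (B * L * (L * Y) + N * (2 * (L * κ) ^ 2) + D1 + D2)
      ≤ L ^ 2 * ((5 * K0 + 10 + 150 * C5 * K0 ^ 2) * Z) := t4
    _ ≤ L ^ 2 * (X ^ (δ / 100) * Z) :=
        mul_le_mul_of_nonneg_left (mul_le_mul_of_nonneg_right hK hZ0.le) hL2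
    _ = L ^ 2 * X ^ (1 - δ - δ / 40) := by rw [t5]

theorem lb3 (a b : ℝ) (ha : 0 < a) (hb : 0 < b) : ∃ σ : ℝ, 0 < σ ∧ σ ≤ a ∧ σ ≤ b :=
  ⟨min a b, lt_min ha hb, min_le_left _ _, min_le_right _ _⟩

theorem lb7 (a b c d e f g : ℝ) (ha : 0 < a) (hb : 0 < b) (hc : 0 < c) (hd : 0 < d) (he : 0 < e)
    (hf : 0 < f) (hg : 0 < g) :
    ∃ δ : ℝ, 0 < δ ∧ δ ≤ a ∧ δ ≤ b ∧ δ ≤ c ∧ δ ≤ d ∧ δ ≤ e ∧ δ ≤ f ∧ δ ≤ g := by
  obtain ⟨x, hx, hx1, hx2⟩ := lb3 a b ha hb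
  obtain ⟨y, hy, hy1, hy2⟩ := lb3 c d hc hd
  obtain ⟨z, hz, hz1, hz2⟩ := lb3 e f he hf
  obtain ⟨u, hu, hu1, hu2⟩ := lb3 x y hx hy
  obtain ⟨v, hv, hv1, hv2⟩ := lb3 z g hz hg
  obtain ⟨w, hw, hw1, hw2⟩ := lb3 u v hu hv
  exact ⟨w, hw, by linarith, by linarith, by linarith, by linarith, by linarith, by linarith,
    by linarith⟩

end IR9

open IR9 in
/-- R9. One block. -/
theorem prR9 (hL0 : tsL0) (hR1 : tsR1) (hR2 : tsR2) (hR5 : tsR5) (hR8 : tsR8) : tsR9 := by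
  intro r E hr hAP hCB θ₁ θ₂ hθ₁ hρ hθ₁₂ hθ₂
  have hr1 : 1 ≤ r := by omega
  have hr2 : (2 : ℝ) ≤ (r : ℝ) := by exact_mod_cast hr
  have hr0 : (0 : ℝ) < r := by linarith
  have hri : 1 / (r : ℝ) ≤ 1 / 2 := one_div_le_one_div_of_le (by norm_num) hr2
  have hri0 : 0 < 1 / (r : ℝ) := by positivity
  have hri4 : 1 / (4 * (r : ℝ)) = (1 / (r : ℝ)) / 4 := by field_simp
  have hri8 : 1 / (8 * (r : ℝ)) = (1 / (r : ℝ)) / 8 := by field_simp
  have hr2i : 2 / (r : ℝ) = 2 * (1 / (r : ℝ)) := by field_simp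
  obtain ⟨ι, hι⟩ : ∃ ι : ℝ, ι = 1 / (r : ℝ) := ⟨_, rfl⟩
  rw [← hι] at hri hri0 hri4 hri8 hr2i
  rw [hr2i] at hρ
  have hρ0 : 0 < θ₁ - (1 - 2 * ι) := by linarith
  obtain ⟨σ, hσ0, hσ1, hσ2⟩ := lb3 (1 / (4 * (r : ℝ))) ((θ₁ - (1 - 2 * ι)) / 8)
    (by positivity) (by positivity)
  obtain ⟨δs, hδs, h8⟩ := hR8 r E hr hAP hCB σ hσ0 hσ1
  obtain ⟨δ, hδ0, hδ1, hδ2, hδ3, hδ4, hδ5, hδ6, hδ7⟩ := lb7 δs ((1 - θ₂) / 8)
    ((θ₁ - (1 - 2 * ι)) / 8) (θ₁ / 8) (r * σ / 4) (1 / (8 * (r : ℝ))) (1 / 10) hδs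
    (by linarith) (by linarith) (by linarith) (by positivity) (by positivity) (by norm_num)
  rw [hri4] at hσ1
  rw [hri8] at hδ6
  obtain ⟨X8, h8'⟩ := h8 δ hδ0 hδ1
  obtain ⟨CL, hCL, hL⟩ := hL0 r (δ / 400) (by positivity)
  obtain ⟨CC, hCC, hCCb⟩ := hCB 1 one_pos
  obtain ⟨C5, hC5, h5⟩ := hR5
  obtain ⟨K0, hK0⟩ : ∃ K0 : ℝ, K0 = 3 * r * CL := ⟨_, rfl⟩
  have hK00 : 0 < K0 := by rw [hK0]; positivity
  obtain ⟨d, hd⟩ : ∃ d : ℕ, d = r - 1 := ⟨_, rfl⟩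
  obtain ⟨K4, hK4⟩ : ∃ K4 : ℝ, K4 = ((d : ℝ) + 1) * (((d : ℝ) + 1) * CC * d) := ⟨_, rfl⟩
  have hK40 : 0 ≤ K4 := by rw [hK4]; positivity
  have ev1 : ∀ᶠ X : ℝ in atTop, 2 * K0 ≤ X ^ (δ / 10) :=
    (tendsto_rpow_atTop (by positivity)).eventually_ge_atTop _
  have ev2 : ∀ᶠ X : ℝ in atTop, K4 ≤ X ^ (δ / 12) :=
    (tendsto_rpow_atTop (by positivity)).eventually_ge_atTop _
  have ev3 := logpow d (δ / 12) (by positivity)
  have ev4 : ∀ᶠ X : ℝ in atTop, 2 ≤ X ^ (δ / 60) :=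
    (tendsto_rpow_atTop (by positivity)).eventually_ge_atTop _
  have ev5 := logpow 5 (δ / 100) (by positivity)
  have ev6 : ∀ᶠ X : ℝ in atTop, 5 * K0 + 10 + 150 * C5 * K0 ^ 2 ≤ X ^ (δ / 100) :=
    (tendsto_rpow_atTop (by positivity)).eventually_ge_atTop _
  obtain ⟨X0, hX0⟩ := (((ev1.and ev2).and (ev3.and ev4)).and ((ev5.and ev6).and
    ((eventually_ge_atTop X8).and (eventually_ge_atTop (1 : ℝ))))).exists_forall_of_atTop
  refine ⟨δ, X0, hδ0, hδ7, hδ2, ?_⟩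
  intro X γ a b L hX haX hbX hab1 hab2 hLX hLX2
  obtain ⟨⟨⟨c1, c2⟩, c3, c4⟩, ⟨c5, c6⟩, cX8, hX1⟩ := hX0 X hX
  have hXp : 0 < X := by linarith
  have hmono : ∀ {s t : ℝ}, s ≤ t → X ^ s ≤ X ^ t :=
    fun h => Real.rpow_le_rpow_of_exponent_le hX1 h
  -- the parameters
  obtain ⟨y, hy⟩ : ∃ y : ℝ, y = X ^ (1 / (r : ℝ) - σ) := ⟨_, rfl⟩
  have hyι : y = X ^ (ι - σ) := by rw [hy, hι]
  have hy1 : 1 ≤ y := by rw [hyι]; exact Real.one_le_rpow hX1 (by linarith)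
  have hy0 : 0 < y := by linarith
  have ha0 : (0 : ℝ) < a := lt_of_lt_of_le (Real.rpow_pos_of_pos hXp _) haX
  have ha1 : 1 ≤ a := by exact_mod_cast ha0
  have hab : (a : ℝ) ≤ b := by
    have := Real.rpow_nonneg hXp.le (1 - δ)
    linarith
  have habn : a ≤ b := by exact_mod_cast hab
  have hL1 : (1 : ℝ) ≤ L := (Real.one_le_rpow hX1 hθ₁.le).trans hLX
  have hL1n : 1 ≤ L := by exact_mod_cast hL1
  have hL0' : (0 : ℝ) < L := by linarith
  obtain ⟨Q, hQ⟩ : ∃ Q : ℕ, Q = ⌊X ^ (δ / 20)⌋₊ := ⟨_, rfl⟩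
  obtain ⟨hQ1, hQ2, hQ3⟩ := IG3.floor_rpow hX1 (show (0 : ℝ) < δ / 20 by positivity)
  rw [← hQ] at hQ1 hQ2 hQ3
  obtain ⟨M0, hM0⟩ : ∃ M0 : ℕ, M0 = ⌊(a : ℝ) / y⌋₊ := ⟨_, rfl⟩
  obtain ⟨M1, hM1⟩ : ∃ M1 : ℕ, M1 = ⌊(b : ℝ) / y⌋₊ := ⟨_, rfl⟩
  have hay0 : 0 ≤ (a : ℝ) / y := by positivity
  have hby0 : 0 ≤ (b : ℝ) / y := by positivity
  have hM0le : (M0 : ℝ) ≤ (a : ℝ) / y := by rw [hM0]; exact Nat.floor_le hay0
  have hM0lt : (a : ℝ) / y < (M0 : ℝ) + 1 := by rw [hM0]; exact Nat.lt_floor_add_one _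
  have hM1le : (M1 : ℝ) ≤ (b : ℝ) / y := by rw [hM1]; exact Nat.floor_le hby0
  have hM01 : M0 ≤ M1 := by
    rw [hM0, hM1]
    exact Nat.floor_le_floor (div_le_div_of_nonneg_right hab hy0.le)
  have hQM0 : Q ≤ M0 := by
    rw [hQ, hM0]
    apply Nat.floor_le_floor
    rw [le_div_iff₀ hy0, hyι, ← Real.rpow_add hXp]
    exact (hmono (by linarith)).trans haX
  have hM0pos : 1 ≤ M0 := hQ1.trans hQM0
  have hw1 : ∀ n ∈ Finset.Ioc a b, ∀ m : ℕ, m ≤ M0 → (m : ℝ) * y < n := by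
    intro n hn m hm
    rw [Finset.mem_Ioc] at hn
    have e1 : (m : ℝ) ≤ M0 := by exact_mod_cast hm
    have e2 : (m : ℝ) * y ≤ a := by
      rw [← le_div_iff₀ hy0]
      exact e1.trans hM0le
    have e3 : (a : ℝ) < n := by exact_mod_cast hn.1
    linarith
  have hw2 : ∀ n ∈ Finset.Ioc a b, ∀ m : ℕ, (m : ℝ) * y < n → m ≤ M1 := by
    intro n hn m hm
    rw [Finset.mem_Ioc] at hn
    rw [hM1]
    apply Nat.le_floor
    rw [le_div_iff₀ hy0]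
    have e3 : (n : ℝ) ≤ b := by exact_mod_cast hn.2
    linarith
  -- the weights
  obtain ⟨hW, hu1, huy, -⟩ := hR1 r y hr1 hy1
  obtain ⟨B, hB⟩ : ∃ B : ℝ, B = K0 * X ^ (δ / 400) := ⟨_, rfl⟩
  have hB0 : 0 ≤ B := by rw [hB]; positivity
  have hdr : ∀ n : ℕ, 1 ≤ n → (n : ℝ) ≤ 3 * X → dr r n ≤ 3 * CL * X ^ (δ / 400) := by
    intro n hn hn3
    refine (hL n hn).trans ?_
    have e1 : (n : ℝ) ^ (δ / 400) ≤ (3 * X) ^ (δ / 400) :=
      Real.rpow_le_rpow (Nat.cast_nonneg n) hn3 (by positivity)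
    rw [Real.mul_rpow (by norm_num) hXp.le] at e1
    have e2 : (3 : ℝ) ^ (δ / 400) ≤ 3 := by
      have := Real.rpow_le_rpow_of_exponent_le (show (1 : ℝ) ≤ 3 by norm_num)
        (show δ / 400 ≤ 1 by linarith)
      rwa [Real.rpow_one] at this
    have e3 : 0 ≤ X ^ (δ / 400) := Real.rpow_nonneg hXp.le _
    calc CL * (n : ℝ) ^ (δ / 400) ≤ CL * (3 ^ (δ / 400) * X ^ (δ / 400)) :=
          mul_le_mul_of_nonneg_left e1 hCL.le
      _ ≤ CL * (3 * X ^ (δ / 400)) :=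
          mul_le_mul_of_nonneg_left (mul_le_mul_of_nonneg_right e2 e3) hCL.le
      _ = 3 * CL * X ^ (δ / 400) := by ring
  have hM1X : (M1 : ℝ) ≤ 3 * X := by
    refine hM1le.trans ((div_le_self (Nat.cast_nonneg b) hy1).trans hbX)
  have hWB : ∀ m ∈ Finset.Icc 1 M1, 0 ≤ Wy r y m ∧ Wy r y m ≤ B := by
    intro m hm
    rw [Finset.mem_Icc] at hm
    refine ⟨(hW m).1, (hW m).2.trans ?_⟩
    have e1 : (m : ℝ) ≤ 3 * X := le_trans (by exact_mod_cast hm.2) hM1X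
    calc (r : ℝ) * dr r m ≤ r * (3 * CL * X ^ (δ / 400)) :=
          mul_le_mul_of_nonneg_left (hdr m hm.1 e1) hr0.le
      _ = B := by rw [hB, hK0]; ring
  have hWB0 : ∀ m ∈ Finset.Icc 1 M0, 0 ≤ Wy r y m ∧ Wy r y m ≤ B := by
    intro m hm
    rw [Finset.mem_Icc] at hm
    exact hWB m (Finset.mem_Icc.mpr ⟨hm.1, hm.2.trans hM01⟩)
  have huB : ∀ n ∈ Finset.Ioc a b, ((uy y) ^ r) n ≤ B := by
    intro n hn
    rw [Finset.mem_Ioc] at hn
    have e1 : (n : ℝ) ≤ 3 * X := le_trans (by exact_mod_cast hn.2) hbX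
    refine ((hu1 n).2.trans (hdr n (by omega) e1)).trans ?_
    rw [hB, hK0]
    have e3 : 0 ≤ CL * X ^ (δ / 400) := mul_nonneg hCL.le (Real.rpow_nonneg hXp.le _)
    nlinarith
  -- lengths
  have hβ : ((b : ℝ) - a) / a ≤ X ^ (-(δ / 2)) := by
    calc ((b : ℝ) - a) / a ≤ X ^ (1 - δ) / X ^ (1 - δ / 2) :=
          div_le_div₀ (Real.rpow_nonneg hXp.le _) (by linarith) (Real.rpow_pos_of_pos hXp _) haX
      _ = X ^ (-(δ / 2)) := by
          rw [← Real.rpow_sub hXp]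
          congr 1
          ring
  have hya : y / a ≤ X ^ (-(δ / 2)) := by
    calc y / a ≤ y / X ^ (1 - δ / 2) :=
          div_le_div_of_nonneg_left hy0.le (Real.rpow_pos_of_pos hXp _) haX
      _ = X ^ (ι - σ - (1 - δ / 2)) := by rw [hyι, ← Real.rpow_sub hXp]
      _ ≤ X ^ (-(δ / 2)) := hmono (by linarith)
  have hM10 : ((M1 : ℝ) - M0) / ((M0 : ℝ) + 1) ≤ 2 * X ^ (-(δ / 2)) := by
    have hay : 0 < (a : ℝ) / y := by positivity
    calc ((M1 : ℝ) - M0) / ((M0 : ℝ) + 1) ≤ (((b : ℝ) - a) / y + 1) / ((a : ℝ) / y) := by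
          apply div_le_div₀ _ _ hay hM0lt.le
          · have : 0 ≤ ((b : ℝ) - a) / y := div_nonneg (by linarith) hy0.le
            linarith
          · rw [sub_div]
            linarith
      _ = ((b : ℝ) - a) / a + y / a := by field_simp
      _ ≤ 2 * X ^ (-(δ / 2)) := by linarith
  have hQ3pow : (Q : ℝ) ^ 3 ≤ X ^ (3 * δ / 20) := by
    calc (Q : ℝ) ^ 3 ≤ (X ^ (δ / 20)) ^ 3 := pow_le_pow_left₀ (Nat.cast_nonneg Q) hQ2 3
      _ = X ^ (3 * δ / 20) := by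
          rw [← Real.rpow_natCast, ← Real.rpow_mul hXp.le]
          congr 1
          push_cast
          ring
  obtain ⟨κ, hκ⟩ : ∃ κ : ℝ, κ = X ^ (-(δ / 6)) := ⟨_, rfl⟩
  -- the part with small moduli of the end of the range
  have hbs : ∀ n ∈ Finset.Ioc a b,
      |∑ s ∈ Finset.Icc 1 Q, hp r y M0 M1 s * Gh n s| ≤ κ := by
    intro n _
    have e1 : ∀ s ∈ Finset.Icc 1 Q, |hp r y M0 M1 s| ≤ B * (2 * X ^ (-(δ / 2))) := by
      intro s _
      exact (hsmall (fun m => Wy r y m) B M0 M1 s hB0 hM01 hWB).trans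
        (mul_le_mul_of_nonneg_left hM10 hB0)
    refine (sumGh_bound _ Q n _ (by positivity) e1).trans ?_
    calc (Q : ℝ) ^ 3 * (B * (2 * X ^ (-(δ / 2))))
        ≤ X ^ (3 * δ / 20) * (B * (2 * X ^ (-(δ / 2)))) :=
          mul_le_mul_of_nonneg_right hQ3pow (by positivity)
      _ = (2 * K0) * (X ^ (3 * δ / 20) * X ^ (δ / 400) * X ^ (-(δ / 2))) := by rw [hB]; ring
      _ ≤ X ^ (δ / 10) * (X ^ (3 * δ / 20) * X ^ (δ / 400) * X ^ (-(δ / 2))) :=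
          mul_le_mul_of_nonneg_right c1 (by positivity)
      _ = X ^ (δ / 10 + (3 * δ / 20 + δ / 400 + -(δ / 2))) := by
          rw [← Real.rpow_add hXp, ← Real.rpow_add hXp, ← Real.rpow_add hXp]
      _ ≤ κ := by rw [hκ]; exact hmono (by linarith)
  -- the part with small moduli
  have hlog6 : 1 ≤ 1 + Real.log (6 * X) := by
    have := Real.log_nonneg (show (1 : ℝ) ≤ 6 * X by linarith)
    linarith
  have hRb : ∀ n ∈ Finset.Ioc a b,
      |∑ s ∈ Finset.Icc 1 Q, (hs r y M0 s - (ed (E s)).eval (Real.log n)) * Gh n s| ≤ κ := by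
    intro n hn
    rw [Finset.mem_Ioc] at hn
    have hn3 : (n : ℝ) ≤ 3 * X := le_trans (by exact_mod_cast hn.2) hbX
    have han : (a : ℝ) ≤ n := by exact_mod_cast hn.1.le
    have hn0 : (0 : ℝ) < n := by linarith
    have hlogan : Real.log a ≤ Real.log n := Real.log_le_log ha0 han
    have hloga : 0 ≤ Real.log a := Real.log_nonneg (by exact_mod_cast ha1)
    have hlogn : Real.log n ≤ 1 + Real.log (6 * X) := by
      have := Real.log_le_log hn0 (show (n : ℝ) ≤ 6 * X by linarith)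
      linarith
    have hdl : Real.log n - Real.log a ≤ X ^ (-(δ / 2)) := by
      have e1 := IF8.log_shift (n := a) (h := n - a) ha1
      rw [Nat.cast_sub hn.1.le] at e1
      rw [show (a : ℝ) + ((n : ℝ) - a) = n by ring] at e1
      refine e1.trans (le_trans ?_ hβ)
      rw [mul_one_div]
      apply div_le_div_of_nonneg_right _ ha0.le
      have : (n : ℝ) ≤ b := by exact_mod_cast hn.2
      linarith
    have e1 : ∀ s ∈ Finset.Icc 1 Q, |hs r y M0 s - (ed (E s)).eval (Real.log n)| ≤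
        2 * X ^ (-(δ / 3)) := by
      intro s hsm
      rw [Finset.mem_Icc] at hsm
      have hsQ : (s : ℝ) ≤ X ^ (δ / 20) := le_trans (by exact_mod_cast hsm.2) hQ2
      have f1 := h8' X a b s cX8 haX hbX hab1 hab2 hsm.1 hsQ
      rw [← hy, ← hM0] at f1
      have hcoef : ∀ j, |(E s).coeff j| ≤ CC := by
        intro j
        have := hCCb s j hsm.1
        rwa [sub_self, Real.rpow_zero, mul_one] at this
      have hdeg : (E s).natDegree ≤ d := by rw [hd]; exact hAP.1 s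
      have f2 := IF8.eval_sub (d := d) (p := ed (E s)) (M := ((d : ℝ) + 1) * CC)
        (u := Real.log a) (v := Real.log n) (L := 1 + Real.log (6 * X)) (IG3.ed_deg hdeg)
        (IG3.ed_coeff hdeg hcoef) hloga hlogan hlogn hlog6
      have f3 : ((d : ℝ) + 1) * (((d : ℝ) + 1) * CC * (d * (1 + Real.log (6 * X)) ^ d)) *
          (Real.log n - Real.log a) ≤ X ^ (-(δ / 3)) := by
        have g1 : ((d : ℝ) + 1) * (((d : ℝ) + 1) * CC * (d * (1 + Real.log (6 * X)) ^ d)) =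
            K4 * (1 + Real.log (6 * X)) ^ d := by rw [hK4]; ring
        rw [g1]
        have g2 : 0 ≤ (1 + Real.log (6 * X)) ^ d := by positivity
        calc K4 * (1 + Real.log (6 * X)) ^ d * (Real.log n - Real.log a)
            ≤ X ^ (δ / 12) * X ^ (δ / 12) * X ^ (-(δ / 2)) := by
              apply mul_le_mul _ hdl (by linarith) (by positivity)
              exact mul_le_mul c2 c3 g2 (by positivity)
          _ = X ^ (δ / 12 + δ / 12 + -(δ / 2)) := by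
              rw [← Real.rpow_add hXp, ← Real.rpow_add hXp]
          _ ≤ X ^ (-(δ / 3)) := hmono (by linarith)
      have f4 : hs r y M0 s - (ed (E s)).eval (Real.log n) =
          (hs r y M0 s - (ed (E s)).eval (Real.log a)) -
          ((ed (E s)).eval (Real.log n) - (ed (E s)).eval (Real.log a)) := by ring
      rw [f4]
      refine (abs_sub _ _).trans ?_
      linarith [f2.trans f3]
    refine (sumGh_bound _ Q n _ (by positivity) e1).trans ?_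
    calc (Q : ℝ) ^ 3 * (2 * X ^ (-(δ / 3)))
        ≤ X ^ (3 * δ / 20) * (X ^ (δ / 60) * X ^ (-(δ / 3))) := by
          apply mul_le_mul hQ3pow _ (by positivity) (by positivity)
          exact mul_le_mul_of_nonneg_right c4 (by positivity)
      _ = X ^ (3 * δ / 20 + (δ / 60 + -(δ / 3))) := by
          rw [← Real.rpow_add hXp, ← Real.rpow_add hXp]
      _ ≤ κ := by rw [hκ]; exact hmono (by linarith)
  -- the parts with large moduli
  obtain ⟨A, hA⟩ : ∃ A : ℝ, A = B * (1 + Real.log (3 * X)) := ⟨_, rfl⟩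
  have hlog3 : 0 ≤ Real.log (3 * X) := Real.log_nonneg (by linarith)
  have hA0 : 0 ≤ A := by rw [hA]; positivity
  have hAℓ : A ≤ B * (1 + Real.log (6 * X)) := by
    rw [hA]
    apply mul_le_mul_of_nonneg_left _ hB0
    have := Real.log_le_log (show 0 < 3 * X by linarith) (show 3 * X ≤ 6 * X by linarith)
    linarith
  have hcoefA : ∀ (w : ℕ → ℝ) (M s : ℕ), 1 ≤ s → 1 ≤ M → (M : ℝ) ≤ 3 * X →
      (∀ m ∈ Finset.Icc 1 M, 0 ≤ w m ∧ w m ≤ B) →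
      |∑ m ∈ (Finset.Icc 1 M).filter (s ∣ ·), w m / m| ≤ A / s := by
    intro w M s hs hM hM3 hw
    refine (hbound w B M s hs hB0 hw).trans ?_
    apply div_le_div_of_nonneg_right _ (Nat.cast_nonneg s)
    rw [hA]
    apply mul_le_mul_of_nonneg_left _ hB0
    have : Real.log M ≤ Real.log (3 * X) :=
      Real.log_le_log (by exact_mod_cast hM) hM3
    linarith
  have hM0X : (M0 : ℝ) ≤ 3 * X := le_trans (by exact_mod_cast hM01) hM1X
  have hset : Finset.Icc (a + L) b =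
      Finset.Ioc (a + L - 1) (a + L - 1 + (b - (a + L - 1))) := by
    ext x
    rw [Finset.mem_Icc, Finset.mem_Ioc]
    omega
  have hN' : ((b - (a + L - 1) : ℕ) : ℝ) ≤ X ^ (1 - δ) := by
    have e1 : ((b - (a + L - 1) : ℕ) : ℝ) ≤ ((b - a : ℕ) : ℝ) := by
      exact_mod_cast (by omega : b - (a + L - 1) ≤ b - a)
    rw [Nat.cast_sub habn] at e1
    linarith
  have hM1exp : (M1 : ℝ) ≤ 3 * X ^ (1 - (ι - σ)) := by
    refine hM1le.trans ?_
    calc (b : ℝ) / y ≤ 3 * X / y := div_le_div_of_nonneg_right hbX hy0.le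
      _ = 3 * X ^ (1 - (ι - σ)) := by
          rw [hyι, Real.rpow_sub hXp 1, Real.rpow_one]
          ring
  have hM1a : ∀ M : ℕ, M ≤ M1 → (M : ℝ) ≤ 3 * X ^ (1 - 6 * δ) := by
    intro M hM
    have e1 : (M : ℝ) ≤ M1 := by exact_mod_cast hM
    refine e1.trans (hM1exp.trans ?_)
    exact mul_le_mul_of_nonneg_left (hmono (by linarith)) (by norm_num)
  have hM1b : ∀ M : ℕ, M ≤ M1 → (M : ℝ) ^ 2 / L ≤ 9 * X ^ (1 - 6 * δ) := by
    intro M hM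
    have e1 : (M : ℝ) ≤ 3 * X ^ (1 - (ι - σ)) := le_trans (by exact_mod_cast hM) hM1exp
    have e2 : (M : ℝ) ^ 2 ≤ 9 * X ^ (2 * (1 - (ι - σ))) := by
      calc (M : ℝ) ^ 2 ≤ (3 * X ^ (1 - (ι - σ))) ^ 2 := pow_le_pow_left₀ (Nat.cast_nonneg M) e1 2
        _ = 9 * (X ^ (1 - (ι - σ))) ^ 2 := by ring
        _ = 9 * X ^ (2 * (1 - (ι - σ))) := by
            rw [← Real.rpow_natCast (X ^ (1 - (ι - σ))) 2, ← Real.rpow_mul hXp.le]
            congr 2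
            push_cast
            ring
    calc (M : ℝ) ^ 2 / L ≤ (9 * X ^ (2 * (1 - (ι - σ)))) / X ^ θ₁ :=
          div_le_div₀ (by positivity) e2 (Real.rpow_pos_of_pos hXp _) hLX
      _ = 9 * X ^ (2 * (1 - (ι - σ)) - θ₁) := by
          rw [mul_div_assoc, ← Real.rpow_sub hXp]
      _ ≤ 9 * X ^ (1 - 6 * δ) :=
          mul_le_mul_of_nonneg_left (hmono (by linarith)) (by norm_num)
  have hD : ∀ (M : ℕ) (γ' : ℝ) (h : ℕ → ℝ), 1 ≤ M → M ≤ M1 →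
      (∀ s ∈ Finset.Ioc Q M, |h s| ≤ A / s) →
      ∑ x ∈ Finset.Icc (a + L) b, ‖∑ n ∈ Finset.Ioc (x - L) x,
        ((∑ s ∈ Finset.Ioc Q M, h s * Gh n s : ℝ) : ℂ) * ee (n * γ')‖ ^ 2 ≤
      C5 * A ^ 2 * (1 + Real.log (6 * X)) ^ 3 * (L : ℝ) ^ 2 * (15 * X ^ (1 - δ - δ / 20)) := by
    intro M γ' h hM hMM1 hh
    have e1 := h5 Q M (b - (a + L - 1)) L (a + L - 1) γ' A h hQ1 hL1n (by omega) hA0 hh
    rw [← hset] at e1
    refine e1.trans ?_
    have e2 := bracket X δ L ((b - (a + L - 1) : ℕ) : ℝ) Q M hX1 hδ0 hQ3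
      ((hmono (by linarith)).trans hLX) hN' (hM1a M hMM1) (hM1b M hMM1)
    have hM6 : 2 * (M : ℝ) ≤ 6 * X := by
      have : (M : ℝ) ≤ M1 := by exact_mod_cast hMM1
      linarith
    have hMr : (1 : ℝ) ≤ M := by exact_mod_cast hM
    have e3 : (1 + Real.log (2 * (M : ℝ))) ^ 3 ≤ (1 + Real.log (6 * X)) ^ 3 := by
      have g1 : 0 ≤ Real.log (2 * (M : ℝ)) := Real.log_nonneg (by linarith)
      have g2 : Real.log (2 * (M : ℝ)) ≤ Real.log (6 * X) := Real.log_le_log (by linarith) hM6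
      exact pow_le_pow_left₀ (by linarith) (by linarith) 3
    have e4 : 0 ≤ 1 + Real.log (6 * X) := by linarith
    apply mul_le_mul _ e2 (by positivity) (by positivity)
    apply mul_le_mul_of_nonneg_right _ (by positivity)
    exact mul_le_mul_of_nonneg_left e3 (by positivity)
  have hD1 := hD M1 0 (hp r y M0 M1) (hM0pos.trans hM01) le_rfl (by
    intro s hs
    rw [Finset.mem_Ioc] at hs
    refine hcoefA (fun m => if M0 < m then Wy r y m else 0) M1 s (by omega)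
      (hM0pos.trans hM01) hM1X ?_
    intro m hm
    show 0 ≤ (if M0 < m then Wy r y m else 0) ∧ (if M0 < m then Wy r y m else 0) ≤ B
    split_ifs
    · exact hWB m hm
    · exact ⟨le_rfl, hB0⟩)
  have hD2 := hD M0 γ (hs r y M0) hM0pos hM01 (by
    intro s hs
    rw [Finset.mem_Ioc] at hs
    exact hcoefA (fun m => Wy r y m) M0 s (by omega) hM0pos hM0X hWB0)
  -- the total
  have hdec : ∀ n ∈ Finset.Ioc a b, _ := fun n hn =>
    decomp hR1 hR2 r E y Q M0 M1 n hr1 hy1 (by rw [Finset.mem_Ioc] at hn; omega) hQM0 hM01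
      (hw1 n hn) (hw2 n hn)
  rw [← hQ]
  have htot := total a b L γ B κ (y ^ r) _ _ (fl r E Q) (fun n => ((uy y) ^ r) n)
    (fun n => ∑ m ∈ n.divisors.filter (fun m : ℕ => M0 < m ∧ (m : ℝ) * y < n), Wy r y m)
    (fun n => ∑ s ∈ Finset.Icc 1 Q, hp r y M0 M1 s * Gh n s)
    (fun n => ∑ s ∈ Finset.Ioc Q M1, hp r y M0 M1 s * Gh n s)
    (fun n => ∑ s ∈ Finset.Icc 1 Q, (hs r y M0 s - (ed (E s)).eval (Real.log n)) * Gh n s)
    (fun n => ∑ s ∈ Finset.Ioc Q M0, hs r y M0 s * Gh n s)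
    hL1n hB0 (fun n => (hu1 n).1) (fun n hn => (hdec n hn).1) huB (fun n hn => (hdec n hn).2)
    hbs hRb (huy b) hD1 hD2
  refine htot.trans ?_
  refine final X δ B L (y ^ r) ((b - a : ℕ) : ℝ) κ _ _ K0 C5 (1 + Real.log (6 * X)) A hX1 hδ0
    ?_ ?_ hB hK00 hC5 hκ hlog6 hA0 hAℓ c5 le_rfl le_rfl c6
  · rw [Nat.cast_sub habn]
    linarith
  · rw [hyι, ← Real.rpow_natCast, ← Real.rpow_mul hXp.le]
    apply hmono
    have e1 : ι * r = 1 := by rw [hι]; field_simp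
    have e2 : (ι - σ) * (r : ℝ) = 1 - r * σ := by rw [sub_mul, e1]; ring
    rw [e2]
    linarith

end Pool.Agent.Work.MP_122e00_nt.TS
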