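import Pool.Agent.Work.MP_122e00_nt.TS.Stmts4

set_option autoImplicit false

/-!
# Thin shifts, item T1: the centers of the short arcs where the Weyl sum is large
-/

namespace Pool.Agent.Work.MP_122e00_nt.TS

open Finset Filter Topology ArithmeticFunction
open scoped ArithmeticFunction.zeta ArithmeticFunction.Moebius

namespace IT1

/-- the sum over the values is a sum over the multiples of an integer polynomial -/
theorem conv (F : Polynomial ℤ) (A K t M : ℕ) (hF : ∀ k : ℕ, A < k → 1 ≤ F.eval (k : ℤ)) :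
    ∑ k ∈ Finset.Ioc A K, ee ((fv F k : ℝ) * t / M) =
      ∑ k ∈ Finset.Ioc A K, ee ((t : ℝ) / M * ((F.eval (k : ℤ) : ℤ) : ℝ)) := by
  refine Finset.sum_congr rfl fun k hk => ?_
  rw [Finset.mem_Ioc] at hk
  have h1 := hF k hk.1
  have h2 : ((fv F k : ℕ) : ℝ) = ((F.eval (k : ℤ) : ℤ) : ℝ) := by
    unfold fv
    have h3 : (((F.eval (k : ℤ)).toNat : ℕ) : ℤ) = F.eval (k : ℤ) := Int.toNat_of_nonneg (by omega)
    exact_mod_cast h3
  rw [h2]
  congr 1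
  ring

open Classical in
/-- the fractions between `-1` and `2` with denominator at most `Q` -/
noncomputable def fr (Q : ℕ) : Finset ℝ :=
  (Finset.Icc 1 Q).biUnion fun q =>
    (Finset.Icc (-(q : ℤ)) (2 * (q : ℤ))).image fun a : ℤ => (a : ℝ) / (q : ℝ)

theorem card_fr (Q : ℕ) : (fr Q).card ≤ 4 * Q ^ 2 := by
  classical
  unfold fr
  calc _ ≤ ∑ q ∈ Finset.Icc 1 Q,
        ((Finset.Icc (-(q : ℤ)) (2 * (q : ℤ))).image fun a : ℤ => (a : ℝ) / (q : ℝ)).card :=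
        Finset.card_biUnion_le
    _ ≤ ∑ _q ∈ Finset.Icc 1 Q, 4 * Q := by
        refine Finset.sum_le_sum fun q hq => ?_
        rw [Finset.mem_Icc] at hq
        refine Finset.card_image_le.trans ?_
        rw [Int.card_Icc]
        omega
    _ = 4 * Q ^ 2 := by
        rw [Finset.sum_const, Nat.card_Icc, smul_eq_mul, Nat.add_sub_cancel]
        ring

theorem mem_fr (Q q : ℕ) (a : ℤ) (hq1 : 1 ≤ q) (hq : q ≤ Q) (x ρ : ℝ) (hx0 : 0 ≤ x) (hx1 : x < 1)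
    (hρ : ρ ≤ 1) (h : |x - a / q| ≤ ρ) : (a : ℝ) / (q : ℝ) ∈ fr Q := by
  classical
  unfold fr
  rw [Finset.mem_biUnion]
  refine ⟨q, Finset.mem_Icc.2 ⟨hq1, hq⟩, ?_⟩
  refine Finset.mem_image_of_mem _ ?_
  have hq0 : (0 : ℝ) < q := by exact_mod_cast hq1
  obtain ⟨h1, h2⟩ := abs_le.1 (h.trans hρ)
  have h3 : (a : ℝ) / q ≤ 2 := by linarith
  have h4 : (-1 : ℝ) ≤ (a : ℝ) / q := by linarith
  rw [div_le_iff₀ hq0] at h3
  rw [le_div_iff₀ hq0] at h4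
  rw [Finset.mem_Icc]
  constructor
  · have h5 : (-(q : ℝ)) ≤ (a : ℝ) := by linarith
    exact_mod_cast h5
  · exact_mod_cast h3

end IT1

open IT1 in
theorem prT1 (h5 : tsW5) : tsT1 := by
  intro F A hd hl hF δ' hδ0 hδ1
  obtain ⟨δ, hδ, K0, h⟩ := h5 F hd hl δ' hδ0
  refine ⟨δ, K0, hδ, ?_⟩
  intro K hK0 hK
  have hKp : (0 : ℝ) < K := by exact_mod_cast hK
  have hK1 : (1 : ℝ) ≤ K := by exact_mod_cast hK
  have hd1 : (1 : ℝ) ≤ (F.natDegree : ℝ) := by exact_mod_cast hd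
  have hρ1 : (K : ℝ) ^ (δ' - (F.natDegree : ℝ)) ≤ 1 :=
    Real.rpow_le_one_of_one_le_of_nonpos hK1 (by linarith)
  have hQ0 : 0 ≤ (K : ℝ) ^ δ' := Real.rpow_nonneg hKp.le _
  refine ⟨fr ⌊(K : ℝ) ^ δ'⌋₊, ?_, ?_⟩
  · have h1 : ((fr ⌊(K : ℝ) ^ δ'⌋₊).card : ℝ) ≤ 4 * ((⌊(K : ℝ) ^ δ'⌋₊ : ℕ) : ℝ) ^ 2 := by
      exact_mod_cast card_fr ⌊(K : ℝ) ^ δ'⌋₊
    refine h1.trans ?_
    refine mul_le_mul_of_nonneg_left ?_ (by norm_num)
    have h2 : (K : ℝ) ^ (2 * δ') = ((K : ℝ) ^ δ') ^ 2 := by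
      rw [← Real.rpow_natCast, ← Real.rpow_mul hKp.le]
      congr 1
      push_cast
      ring
    rw [h2]
    exact pow_le_pow_left₀ (Nat.cast_nonneg _) (Nat.floor_le hQ0) 2
  · intro M t ht hbig
    rw [conv F A K t M hF] at hbig
    obtain ⟨q, hq1, hq, a, ha⟩ := h K hK0 ((t : ℝ) / M) A hbig.le
    have hM0 : (0 : ℝ) < M := by
      have : 0 < M := by omega
      exact_mod_cast this
    refine ⟨(a : ℝ) / (q : ℝ), ?_, ha⟩
    refine mem_fr _ q a hq1 (Nat.le_floor hq) ((t : ℝ) / M) _ (by positivity) ?_ hρ1 ha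
    rw [div_lt_one hM0]
    exact_mod_cast ht

end Pool.Agent.Work.MP_122e00_nt.TS
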