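import Pool.Agent.Work.MP_122e00_nt.TS.Stmts4

/-!
# Thin shifts, item T2 (helper22); model: `TS/I_H3.lean` (helper50)
-/

namespace Pool.Agent.Work.MP_122e00_nt.TS

open Finset Filter Topology ArithmeticFunction
open scoped ArithmeticFunction.zeta ArithmeticFunction.Moebius

namespace IT2

lemma numer (K X C1 δ₁ δ ε δ'' δ' θa : ℝ) (d : ℕ) (hd : 1 ≤ d) (hK : 1 ≤ K) (hX : 1 ≤ X)
    (hC1 : 0 < C1) (hδ₁ : 0 < δ₁) (hδ'0 : 0 < δ') (hδ' : δ' ≤ δ / 8) (hθa : 0 < θa)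
    (hKX : K ≤ X) (hKd : X ^ θa ≤ K ^ d) (hε1 : ε ≤ δ / 16) (hε2 : ε ≤ δ₁ * θa / (16 * d))
    (hδ1 : δ'' ≤ δ / 2) (hδ2 : δ'' ≤ δ₁ * θa / (2 * d))
    (hb1 : 8 * C1 ^ 4 ≤ X ^ (δ₁ * θa / (4 * d))) (hb2 : 64 * C1 ^ 2 ≤ X ^ (δ / 8)) :
    K ^ (1 - δ₁) * (2 * C1 ^ 2 * X ^ (1 + 2 * ε)) * (2 * C1 ^ 2 * X ^ (1 + 2 * ε)) +
      K * (4 * K ^ (2 * δ') * (4 * X ^ (1 - δ))) * (2 * C1 ^ 2 * X ^ (1 + 2 * ε)) ≤
        K * X ^ (2 - δ'') := by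
  have hX0 : 0 < X := by linarith
  have hK0 : 0 < K := by linarith
  have hd0 : (0 : ℝ) < d := by exact_mod_cast hd
  have h2 : X ^ (θa / (d : ℝ)) ≤ K := by
    have e1 : (X ^ θa) ^ (1 / (d : ℝ)) ≤ (K ^ d) ^ (1 / (d : ℝ)) :=
      Real.rpow_le_rpow (by positivity) hKd (by positivity)
    rw [← Real.rpow_mul hX0.le, ← Real.rpow_natCast K d, ← Real.rpow_mul hK0.le] at e1
    have e2 : (d : ℝ) * (1 / (d : ℝ)) = 1 := by field_simp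
    have e3 : θa * (1 / (d : ℝ)) = θa / (d : ℝ) := by field_simp
    rwa [e2, e3, Real.rpow_one] at e1
  obtain ⟨a, ha⟩ : ∃ a : ℝ, a = δ₁ * θa / d := ⟨_, rfl⟩
  have ha0 : 0 < a := by rw [ha]; positivity
  have f1 : δ₁ * θa / (16 * d) = a / 16 := by rw [ha]; field_simp
  have f2 : δ₁ * θa / (2 * d) = a / 2 := by rw [ha]; field_simp
  have f3 : δ₁ * θa / (4 * d) = a / 4 := by rw [ha]; field_simp
  rw [f1] at hε2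
  rw [f2] at hδ2
  rw [f3] at hb1
  have h3 : K ^ (-δ₁) ≤ X ^ (-a) := by
    have e1 : (X ^ (θa / (d : ℝ))) ^ δ₁ ≤ K ^ δ₁ := Real.rpow_le_rpow (by positivity) h2 hδ₁.le
    rw [← Real.rpow_mul hX0.le] at e1
    have e2 : θa / (d : ℝ) * δ₁ = a := by rw [ha]; field_simp
    rw [e2] at e1
    rw [Real.rpow_neg hK0.le, Real.rpow_neg hX0.le]
    exact inv_anti₀ (by positivity) e1
  have hK1 : K ^ (1 - δ₁) = K * K ^ (-δ₁) := by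
    rw [sub_eq_add_neg, Real.rpow_add hK0, Real.rpow_one]
  have hX2 : X ^ (1 + 2 * ε) * X ^ (1 + 2 * ε) = X ^ (2 + 4 * ε) := by
    rw [← Real.rpow_add hX0]; congr 1; ring
  have t1 : K ^ (1 - δ₁) * (2 * C1 ^ 2 * X ^ (1 + 2 * ε)) * (2 * C1 ^ 2 * X ^ (1 + 2 * ε)) ≤
      K * X ^ (2 - δ'') / 2 := by
    have e1 : K ^ (1 - δ₁) * (2 * C1 ^ 2 * X ^ (1 + 2 * ε)) * (2 * C1 ^ 2 * X ^ (1 + 2 * ε)) =
        K * (8 * C1 ^ 4) * (K ^ (-δ₁) * X ^ (2 + 4 * ε)) / 2 := by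
      rw [hK1, ← hX2]; ring
    have e3 : (8 * C1 ^ 4) * (K ^ (-δ₁) * X ^ (2 + 4 * ε)) ≤
        X ^ (a / 4) * (X ^ (-a) * X ^ (2 + 4 * ε)) := by gcongr
    have e4 : X ^ (a / 4) * (X ^ (-a) * X ^ (2 + 4 * ε)) = X ^ (a / 4 + (-a + (2 + 4 * ε))) := by
      rw [← Real.rpow_add hX0, ← Real.rpow_add hX0]
    have e6 : X ^ (a / 4 + (-a + (2 + 4 * ε))) ≤ X ^ (2 - δ'') :=
      Real.rpow_le_rpow_of_exponent_le hX (by linarith)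
    rw [e1, mul_assoc K]
    have e7 := e3.trans (e4.le.trans e6)
    gcongr
  have t2 : K * (4 * K ^ (2 * δ') * (4 * X ^ (1 - δ))) * (2 * C1 ^ 2 * X ^ (1 + 2 * ε)) ≤
      K * X ^ (2 - δ'') / 2 := by
    have e1 : K ^ (2 * δ') ≤ X ^ (δ / 4) :=
      (Real.rpow_le_rpow hK0.le hKX (by positivity)).trans
        (Real.rpow_le_rpow_of_exponent_le hX (by linarith))
    have e2 : K * (4 * K ^ (2 * δ') * (4 * X ^ (1 - δ))) * (2 * C1 ^ 2 * X ^ (1 + 2 * ε)) =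
        K * ((64 * C1 ^ 2) * (K ^ (2 * δ') * (X ^ (1 - δ) * X ^ (1 + 2 * ε)))) / 2 := by ring
    have e3 : (64 * C1 ^ 2) * (K ^ (2 * δ') * (X ^ (1 - δ) * X ^ (1 + 2 * ε))) ≤
        X ^ (δ / 8) * (X ^ (δ / 4) * (X ^ (1 - δ) * X ^ (1 + 2 * ε))) := by gcongr
    have e4 : X ^ (δ / 8) * (X ^ (δ / 4) * (X ^ (1 - δ) * X ^ (1 + 2 * ε))) =
        X ^ (δ / 8 + (δ / 4 + (1 - δ + (1 + 2 * ε)))) := by
      rw [← Real.rpow_add hX0, ← Real.rpow_add hX0, ← Real.rpow_add hX0]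
    have e5 : X ^ (δ / 8 + (δ / 4 + (1 - δ + (1 + 2 * ε)))) ≤ X ^ (2 - δ'') :=
      Real.rpow_le_rpow_of_exponent_le hX (by linarith)
    rw [e2]
    have e6 := e3.trans (e4.le.trans e5)
    gcongr
  linarith

lemma sumsq (f : ℕ → ℝ) (n : ℕ) (X D : ℝ) (hn : (n : ℝ) ≤ 2 * X) (hD : 0 ≤ D)
    (h : ∀ m, 1 ≤ m → m ≤ n → |f m| ≤ D) : ∑ m ∈ Finset.Icc 1 n, f m ^ 2 ≤ 2 * X * D ^ 2 := by
  calc ∑ m ∈ Finset.Icc 1 n, f m ^ 2 ≤ ∑ _m ∈ Finset.Icc 1 n, D ^ 2 := by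
        refine Finset.sum_le_sum fun m hm => ?_
        rw [Finset.mem_Icc] at hm
        exact sq_le_sq' (by have := (abs_le.1 (h m hm.1 hm.2)).1; linarith)
          ((abs_le.1 (h m hm.1 hm.2)).2)
    _ = (n : ℝ) * D ^ 2 := by simp
    _ ≤ 2 * X * D ^ 2 := by gcongr

lemma nn_le_abs (x : ℝ) : nn x ≤ |x| := by
  unfold nn
  have := round_le x 0
  simpa using this

/-- the length of the windows -/
lemma length (K X θ₁ θa δ' : ℝ) (d : ℕ) (hd : 1 ≤ d) (hK : 1 ≤ K) (hX : 1 ≤ X) (hθ₁ : 0 < θ₁)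
    (hθa : θ₁ < θa) (hδ'0 : 0 < δ') (hδ' : δ' * (2 * θa) ≤ θa - θ₁) (hKd : X ^ θa ≤ K ^ d)
    (hb : 16 ≤ X ^ ((θa - θ₁) / 2)) :
    1 ≤ ⌊K ^ ((d : ℝ) - δ') / 8⌋₊ ∧ X ^ θ₁ ≤ ((⌊K ^ ((d : ℝ) - δ') / 8⌋₊ : ℕ) : ℝ) ∧
    ((⌊K ^ ((d : ℝ) - δ') / 8⌋₊ : ℕ) : ℝ) ≤ K ^ d ∧
    K ^ (δ' - (d : ℝ)) ≤ 1 / (8 * ((⌊K ^ ((d : ℝ) - δ') / 8⌋₊ : ℕ) : ℝ)) := by
  have hX0 : 0 < X := by linarith
  have hK0 : 0 < K := by linarith
  have hd1 : (1 : ℝ) ≤ d := by exact_mod_cast hd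
  have hd0 : (0 : ℝ) < d := by linarith
  have hθ0 : 0 < θa := by linarith
  obtain ⟨y, hy⟩ : ∃ y : ℝ, y = K ^ ((d : ℝ) - δ') := ⟨_, rfl⟩
  have hδ'1 : δ' ≤ 1 := by
    by_contra h
    push Not at h
    nlinarith
  have h1 : 16 * X ^ θ₁ ≤ y := by
    have e1 : y = (K ^ d) ^ (1 - δ' / d) := by
      rw [hy, ← Real.rpow_natCast K d, ← Real.rpow_mul hK0.le]
      congr 1
      field_simp
    have e0 : δ' / d ≤ δ' := div_le_self hδ'0.le hd1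
    have e2 : (X ^ θa) ^ (1 - δ' / d) ≤ (K ^ d) ^ (1 - δ' / d) :=
      Real.rpow_le_rpow (by positivity) hKd (by linarith)
    rw [← Real.rpow_mul hX0.le] at e2
    have e3 : X ^ θ₁ * X ^ ((θa - θ₁) / 2) ≤ X ^ (θa * (1 - δ' / d)) := by
      rw [← Real.rpow_add hX0]
      refine Real.rpow_le_rpow_of_exponent_le hX ?_
      have e4 : θa * (δ' / d) ≤ θa * δ' := mul_le_mul_of_nonneg_left e0 hθ0.le
      nlinarith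
    have e5 : 0 < X ^ θ₁ := by positivity
    rw [e1]
    refine le_trans ?_ (e3.trans e2)
    rw [mul_comm]
    exact mul_le_mul_of_nonneg_left hb e5.le
  have h2 : 1 ≤ X ^ θ₁ := Real.one_le_rpow hX hθ₁.le
  rw [← hy]
  have hy0 : 0 < y := by linarith
  have h3 : ((⌊y / 8⌋₊ : ℕ) : ℝ) ≤ y / 8 := Nat.floor_le (by positivity)
  have h4 : y / 8 < ((⌊y / 8⌋₊ : ℕ) : ℝ) + 1 := Nat.lt_floor_add_one _
  have h5 : X ^ θ₁ ≤ ((⌊y / 8⌋₊ : ℕ) : ℝ) := by linarith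
  have h6 : (1 : ℝ) ≤ ((⌊y / 8⌋₊ : ℕ) : ℝ) := h2.trans h5
  refine ⟨by exact_mod_cast h6, h5, ?_, ?_⟩
  · have e1 : y ≤ K ^ d := by
      rw [hy, ← Real.rpow_natCast K d]
      exact Real.rpow_le_rpow_of_exponent_le hK (by linarith)
    linarith
  · have e1 : K ^ (δ' - (d : ℝ)) = y⁻¹ := by
      rw [hy, ← Real.rpow_neg hK0.le]
      congr 1
      ring
    rw [e1, ← one_div]
    exact one_div_le_one_div_of_le (by linarith) (by linarith)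

end IT2

open IT2

theorem prT2 (hQ5 : tsQ5) (hL0 : tsL0) (hF6 : tsF6) (hH2 : tsH2) (hT1 : tsT1) : tsT2 := by
  intro r E η₂ δ X0 θ₁ θ₂ θa θ hr hAP hCB hη₂ hη₂' hδ hθ₁ hθa hθ hθ₂ hhyp F A hd hlc hpos
  obtain ⟨A', c, CF, hc, hCF, -, hCFb⟩ := hH2 F hd hlc
  have hθa0 : 0 < θa := by linarith
  obtain ⟨δ', hδ'0, hδ'1, hδ'2, hδ'3⟩ : ∃ δ' : ℝ, 0 < δ' ∧ δ' ≤ δ / 8 ∧ δ' * (2 * θa) ≤ θa - θ₁ ∧
      δ' ≤ 1 / 2 := by
    refine ⟨min (δ / 8) (min ((θa - θ₁) / (2 * θa)) (1 / 2)), ?_, min_le_left _ _, ?_, ?_⟩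
    · have : 0 < (θa - θ₁) / (2 * θa) := div_pos (by linarith) (by linarith)
      exact lt_min (by positivity) (lt_min this (by norm_num))
    · have h1 : min (δ / 8) (min ((θa - θ₁) / (2 * θa)) (1 / 2)) ≤ (θa - θ₁) / (2 * θa) :=
        (min_le_right _ _).trans (min_le_left _ _)
      rwa [le_div_iff₀ (by linarith)] at h1
    · exact (min_le_right _ _).trans (min_le_right _ _)
  obtain ⟨δ₁, K0, hδ₁, hT1'⟩ := hT1 F A hd hlc hpos δ' hδ'0 (by linarith)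
  have hd0 : (0 : ℝ) < (F.natDegree : ℝ) := by exact_mod_cast hd
  obtain ⟨ε, hε, hε1, hε2, hε3⟩ : ∃ ε : ℝ, 0 < ε ∧ ε ≤ δ / 16 ∧
      ε ≤ δ₁ * θa / (16 * (F.natDegree : ℝ)) ∧ ε ≤ 1 :=
    ⟨min (δ / 16) (min (δ₁ * θa / (16 * (F.natDegree : ℝ))) 1),
      lt_min (by positivity) (lt_min (by positivity) one_pos),
      min_le_left _ _, (min_le_right _ _).trans (min_le_left _ _),
      (min_le_right _ _).trans (min_le_right _ _)⟩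
  obtain ⟨δ'', hδ'', hδ1, hδ2⟩ : ∃ δ'' : ℝ, 0 < δ'' ∧ δ'' ≤ δ / 2 ∧
      δ'' ≤ δ₁ * θa / (2 * (F.natDegree : ℝ)) :=
    ⟨min (δ / 2) (δ₁ * θa / (2 * (F.natDegree : ℝ))), lt_min (by positivity) (by positivity),
      min_le_left _ _, min_le_right _ _⟩
  obtain ⟨CL, hCL, hL⟩ := hL0 r ε hε
  obtain ⟨CM, hCM, hM⟩ := hF6 r E hAP.1 hCB ε hε
  obtain ⟨C1, hC1def⟩ : ∃ C1 : ℝ, C1 = 2 * CL + CM := ⟨_, rfl⟩
  have hC1 : 0 < C1 := by rw [hC1def]; positivity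
  have hθ1 : θ < 1 := by linarith
  -- the conditions on `X`
  have ev1 : ∀ᶠ X : ℝ in atTop, CF * X ^ θ ≤ X / 2 - 1 := by
    have h1 : ∀ᶠ X : ℝ in atTop, 4 * CF ≤ X ^ (1 - θ) :=
      (tendsto_rpow_atTop (by linarith : 0 < 1 - θ)).eventually_ge_atTop _
    filter_upwards [h1, eventually_ge_atTop (4 : ℝ)] with X hX1 hX4
    have hX0 : 0 < X := by linarith
    have e1 : X ^ (1 - θ) * X ^ θ = X := by
      rw [← Real.rpow_add hX0]; simp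
    have e2 : 0 < X ^ θ := by positivity
    nlinarith
  have ev2 : ∀ᶠ X : ℝ in atTop, (max K0 1) ^ F.natDegree ≤ X ^ θa :=
    (tendsto_rpow_atTop hθa0).eventually_ge_atTop _
  have ev3 : ∀ᶠ X : ℝ in atTop, 8 * C1 ^ 4 ≤ X ^ (δ₁ * θa / (4 * (F.natDegree : ℝ))) :=
    (tendsto_rpow_atTop (by positivity)).eventually_ge_atTop _
  have ev4 : ∀ᶠ X : ℝ in atTop, 64 * C1 ^ 2 ≤ X ^ (δ / 8) :=
    (tendsto_rpow_atTop (by positivity)).eventually_ge_atTop _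
  have ev5 : ∀ᶠ X : ℝ in atTop, 16 ≤ X ^ ((θa - θ₁) / 2) :=
    (tendsto_rpow_atTop (by linarith)).eventually_ge_atTop _
  obtain ⟨X1, hX1⟩ := (((ev1.and ev2).and (ev3.and ev4)).and
    ((ev5.and (eventually_ge_atTop X0)).and (eventually_ge_atTop (2 : ℝ)))).exists_forall_of_atTop
  refine ⟨δ'', X1, hδ'', ?_⟩
  intro X K hXX hK1 hK2
  obtain ⟨⟨⟨c1, c2⟩, c3, c4⟩, ⟨c7, c5⟩, c6⟩ := hX1 X hXX
  have hX1' : 1 ≤ X := by linarith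
  have hX0' : 0 < X := by linarith
  -- `K`
  have hKmax : max K0 1 ≤ (K : ℝ) := by
    have h1 : (max K0 1) ^ F.natDegree ≤ (K : ℝ) ^ F.natDegree := c2.trans hK1
    exact (pow_le_pow_iff_left₀ (by positivity) (by positivity) (by omega)).1 h1
  have hK0 : K0 ≤ (K : ℝ) := (le_max_left _ _).trans hKmax
  have hK1r : (1 : ℝ) ≤ K := (le_max_right _ _).trans hKmax
  have hK1n : 1 ≤ K := by exact_mod_cast hK1r
  have hXθ : X ^ θ ≤ X := by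
    have := Real.rpow_le_rpow_of_exponent_le hX1' hθ1.le
    rwa [Real.rpow_one] at this
  have hKX : (K : ℝ) ≤ X :=
    (le_self_pow₀ hK1r (by omega)).trans (hK2.trans hXθ)
  -- the numbers `N`, `H`, `L`
  obtain ⟨N, hN⟩ : ∃ N : ℕ, N = ⌊X⌋₊ := ⟨_, rfl⟩
  obtain ⟨H, hH⟩ : ∃ H : ℕ, H = ⌊X / 2⌋₊ := ⟨_, rfl⟩
  obtain ⟨hL1, hL2, hL3, hL4⟩ := length (K : ℝ) X θ₁ θa δ' F.natDegree hd hK1r hX1' hθ₁ hθa hδ'0
    hδ'2 hK1 c7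
  obtain ⟨L, hLdef⟩ : ∃ L : ℕ, L = ⌊(K : ℝ) ^ ((F.natDegree : ℝ) - δ') / 8⌋₊ := ⟨_, rfl⟩
  rw [← hLdef] at hL1 hL2 hL3 hL4
  have hL5 : (L : ℝ) ≤ X ^ θ₂ :=
    hL3.trans (hK2.trans (Real.rpow_le_rpow_of_exponent_le hX1' hθ))
  have hL1r : (1 : ℝ) ≤ L := by exact_mod_cast hL1
  have hNX : (N : ℝ) ≤ X := by rw [hN]; exact Nat.floor_le hX0'.le
  have hHX : (H : ℝ) ≤ X / 2 := by rw [hH]; exact Nat.floor_le (by positivity)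
  have hHX' : X / 2 < H + 1 := by rw [hH]; exact Nat.lt_floor_add_one _
  have hNH : ((N + H : ℕ) : ℝ) ≤ 2 * X := by push_cast; linarith
  have hN2 : (N : ℝ) ≤ 2 * X := by linarith
  have hsh : ∀ k ∈ Finset.Ioc A K, fv F k ≤ H := by
    intro k hk
    rw [Finset.mem_Ioc] at hk
    have hk1 : 1 ≤ k := by omega
    have h1 := hpos k hk.1
    have h2 : ((fv F k : ℕ) : ℝ) = ((F.eval (k : ℤ) : ℤ) : ℝ) := by
      unfold fv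
      have : (((F.eval (k : ℤ)).toNat : ℕ) : ℤ) = F.eval (k : ℤ) := Int.toNat_of_nonneg (by omega)
      exact_mod_cast this
    have h3 : ((F.eval (k : ℤ) : ℤ) : ℝ) ≤ CF * (k : ℝ) ^ F.natDegree :=
      (le_abs_self _).trans (hCFb k hk1)
    have h4 : CF * (k : ℝ) ^ F.natDegree ≤ CF * (K : ℝ) ^ F.natDegree := by
      have : (k : ℝ) ≤ K := by exact_mod_cast hk.2
      gcongr
    have h5 : CF * (K : ℝ) ^ F.natDegree ≤ CF * X ^ θ := by gcongr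
    have h6 : ((fv F k : ℕ) : ℝ) < H + 1 := by rw [h2]; linarith
    have h7 : fv F k < H + 1 := by exact_mod_cast h6
    omega
  obtain ⟨w, hw⟩ : ∃ w : ℝ, w = (K : ℝ) ^ (1 - δ₁) := ⟨_, rfl⟩
  have hw0 : 0 ≤ w := by rw [hw]; positivity
  obtain ⟨Y, hY⟩ : ∃ Y : ℝ, Y = (L : ℝ) ^ 2 * X ^ (1 - δ) := ⟨_, rfl⟩
  have hY0 : 0 ≤ Y := by rw [hY]; positivity
  have hY4 : 4 / (L : ℝ) ^ 2 * Y = 4 * X ^ (1 - δ) := by
    rw [hY]; field_simp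
  obtain ⟨Γ, hΓ1, hΓ2⟩ := hT1' K hK0 hK1n
  have hbad : ∀ t < N + H + L + 1, w < ‖∑ k ∈ Finset.Ioc A K,
      ee ((fv F k : ℝ) * (t : ℕ) / ((N + H + L + 1 : ℕ) : ℝ))‖ →
      ∃ g ∈ Γ, nn ((t : ℝ) / ((N + H + L + 1 : ℕ) : ℝ) - g) ≤ 1 / (8 * (L : ℝ)) := by
    intro t ht hwt
    rw [hw] at hwt
    obtain ⟨g, hg, hgt⟩ := hΓ2 (N + H + L + 1) t ht hwt
    exact ⟨g, hg, (nn_le_abs _).trans (hgt.trans hL4)⟩
  -- pointwise bounds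
  have hQ : ((⌊X ^ η₂⌋₊ : ℕ) : ℝ) ≤ X := by
    refine (Nat.floor_le (by positivity)).trans ?_
    have := Real.rpow_le_rpow_of_exponent_le hX1' (by linarith : η₂ ≤ 1)
    rwa [Real.rpow_one] at this
  have hD0 : 0 ≤ C1 * X ^ ε := by positivity
  have hdr0 : ∀ n, 0 ≤ dr r n := fun n => by unfold dr; positivity
  have hdr : ∀ n : ℕ, 1 ≤ n → (n : ℝ) ≤ 2 * X → |dr r n| ≤ 2 * CL * X ^ ε := by
    intro n hn1 hn2
    rw [abs_of_nonneg (hdr0 n)]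
    refine (hL n hn1).trans ?_
    have e1 : (n : ℝ) ^ ε ≤ (2 * X) ^ ε := Real.rpow_le_rpow (by positivity) hn2 hε.le
    rw [Real.mul_rpow (by norm_num) hX0'.le] at e1
    have e2 : (2 : ℝ) ^ ε ≤ 2 := by
      have := Real.rpow_le_rpow_of_exponent_le (by norm_num : (1 : ℝ) ≤ 2) hε3
      rwa [Real.rpow_one] at this
    calc CL * (n : ℝ) ^ ε ≤ CL * (2 ^ ε * X ^ ε) := by gcongr
      _ ≤ CL * (2 * X ^ ε) := by gcongr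
      _ = 2 * CL * X ^ ε := by ring
  have hfs : ∀ n : ℕ, 1 ≤ n → (n : ℝ) ≤ 2 * X → |fs E ⌊X ^ η₂⌋₊ n| ≤ CM * X ^ ε :=
    fun n hn1 hn2 => hM X _ n hX1' hQ hn1 hn2
  have hXε : 0 < X ^ ε := by positivity
  have b1 : ∀ n : ℕ, 1 ≤ n → (n : ℝ) ≤ 2 * X → |dr r n| ≤ C1 * X ^ ε := by
    intro n hn1 hn2
    refine (hdr n hn1 hn2).trans ?_
    rw [hC1def]
    nlinarith
  have b2 : ∀ n : ℕ, 1 ≤ n → (n : ℝ) ≤ 2 * X → |fs E ⌊X ^ η₂⌋₊ n| ≤ C1 * X ^ ε := by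
    intro n hn1 hn2
    refine (hfs n hn1 hn2).trans ?_
    rw [hC1def]
    nlinarith
  have b3 : ∀ n : ℕ, 1 ≤ n → (n : ℝ) ≤ 2 * X → |fl r E ⌊X ^ η₂⌋₊ n| ≤ C1 * X ^ ε := by
    intro n hn1 hn2
    unfold fl
    refine (abs_sub _ _).trans ?_
    rw [hC1def]
    have := hdr n hn1 hn2
    have := hfs n hn1 hn2
    nlinarith
  obtain ⟨S, hS⟩ : ∃ S : ℝ, S = 2 * C1 ^ 2 * X ^ (1 + 2 * ε) := ⟨_, rfl⟩
  have hS0 : 0 ≤ S := by rw [hS]; positivity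
  have hSeq : 2 * X * (C1 * X ^ ε) ^ 2 = S := by
    rw [hS, mul_pow, ← Real.rpow_natCast (X ^ ε) 2, ← Real.rpow_mul hX0'.le,
      Real.rpow_add hX0', Real.rpow_one]
    push_cast
    rw [mul_comm ε 2]
    ring
  have s : ∀ (f : ℕ → ℝ) (n : ℕ), (n : ℝ) ≤ 2 * X →
      (∀ m : ℕ, 1 ≤ m → (m : ℝ) ≤ 2 * X → |f m| ≤ C1 * X ^ ε) →
      ∑ m ∈ Finset.Icc 1 n, f m ^ 2 ≤ S := by
    intro f n hn hf
    rw [← hSeq]
    refine sumsq f n X _ hn hD0 fun m hm1 hm2 => hf m hm1 ?_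
    have : (m : ℝ) ≤ n := by exact_mod_cast hm2
    linarith
  have hnn : ∀ (f : ℕ → ℝ) (n : ℕ), 0 ≤ ∑ m ∈ Finset.Icc 1 n, f m ^ 2 :=
    fun f n => Finset.sum_nonneg fun m _ => sq_nonneg _
  have hcard : ((Finset.Ioc A K).card : ℝ) ≤ K := by
    rw [Nat.card_Ioc]
    exact_mod_cast Nat.sub_le K A
  have hfin := numer (K : ℝ) X C1 δ₁ δ ε δ'' δ' θa F.natDegree hd hK1r hX1' hC1 hδ₁ hδ'0 hδ'1
    hθa0 hKX hK1 hε1 hε2 hδ1 hδ2 c3 c4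
  have key : ∀ s1 s2 s3 : ℝ, 0 ≤ s1 → 0 ≤ s2 → 0 ≤ s3 → s1 ≤ S → s2 ≤ S → s3 ≤ S →
      w * s1 * s2 + ((Finset.Ioc A K).card : ℝ) * ((Γ.card : ℝ) * (4 / (L : ℝ) ^ 2 * Y)) * s3 ≤
        K * X ^ (2 - δ'') := by
    intro s1 s2 s3 h1 h2 h3 h4 h5 h6
    refine le_trans ?_ hfin
    rw [← hS, ← hw, hY4]
    gcongr
  constructor
  · have h1 := (hQ5 (Finset.Ioc A K) (fv F) (fl r E ⌊X ^ η₂⌋₊) (dr r) N H L (N + H + L + 1) w Y Γ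
      hL1 (Nat.lt_succ_self _) hsh hw0 hY0 hbad).1
      (fun γ => by rw [hY]; exact hhyp X γ N L c5 hN2 hL2 hL5)
    rw [← hN]
    exact h1.trans (key _ _ _ (hnn _ _) (hnn _ _) (hnn _ _) (s _ _ hN2 b3) (s _ _ hNH b1)
      (s _ _ hNH b1))
  · have h1 := (hQ5 (Finset.Ioc A K) (fv F) (fs E ⌊X ^ η₂⌋₊) (fl r E ⌊X ^ η₂⌋₊) N H L
      (N + H + L + 1) w Y Γ hL1 (Nat.lt_succ_self _) hsh hw0 hY0 hbad).2
      (fun γ => by rw [hY]; exact hhyp X γ (N + H) L c5 hNH hL2 hL5)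
    rw [← hN]
    exact h1.trans (key _ _ _ (hnn _ _) (hnn _ _) (hnn _ _) (s _ _ hN2 b2) (s _ _ hNH b3)
      (s _ _ hN2 b2))

end Pool.Agent.Work.MP_122e00_nt.TS
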