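import Mathlib
import Pool.Agent.Work.MP_122e00_nt.TS.Stmts1

/-!
# Thin shifts, item W4: the induction step of Weyl's inequality
-/

set_option autoImplicit false

namespace Pool.Agent.Work.MP_122e00_nt.TS

open Finset Filter Topology ArithmeticFunction
open scoped ArithmeticFunction.zeta ArithmeticFunction.Moebius

namespace IW4

open Polynomial in
/-- the difference polynomial `f(x + h) - f(x)` -/
noncomputable def gh (f : Polynomial ℝ) (h : ℝ) : Polynomial ℝ := Polynomial.taylor h f - f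

theorem gh_eval (f : Polynomial ℝ) (h x : ℝ) : (gh f h).eval x = f.eval (x + h) - f.eval x := by
  unfold gh
  rw [Polynomial.eval_sub, Polynomial.taylor_eval, add_comm]

theorem hasse_top {f : Polynomial ℝ} {d n : ℕ} (hf : f.natDegree ≤ d + 1) (hn : d < n) :
    Polynomial.hasseDeriv n f = Polynomial.C (f.coeff n) := by
  ext k
  rw [Polynomial.hasseDeriv_coeff, Polynomial.coeff_C]
  split_ifs with h
  · subst h
    simp
  · rw [Polynomial.coeff_eq_zero_of_natDegree_lt (by omega), mul_zero]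

theorem hasse_snd {f : Polynomial ℝ} {d : ℕ} (hf : f.natDegree ≤ d + 1) :
    Polynomial.hasseDeriv d f = Polynomial.C (f.coeff d) +
      Polynomial.C (((d : ℝ) + 1) * f.coeff (d + 1)) * Polynomial.X := by
  ext k
  rw [Polynomial.hasseDeriv_coeff, Polynomial.coeff_add, Polynomial.coeff_C, Polynomial.coeff_C_mul,
    Polynomial.coeff_X]
  rcases k with _ | _ | k
  · simp
  · have h1 : 0 + 1 + d = d + 1 := by omega
    rw [h1, Nat.choose_symm_of_eq_add (a := d) (b := 1) rfl, Nat.choose_one_right]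
    simp
  · rw [Polynomial.coeff_eq_zero_of_natDegree_lt (by omega)]
    simp

theorem gh_natDegree {f : Polynomial ℝ} {d : ℕ} (hf : f.natDegree ≤ d + 1) (h : ℝ) :
    (gh f h).natDegree ≤ d := by
  rw [Polynomial.natDegree_le_iff_coeff_eq_zero]
  intro n hn
  unfold gh
  rw [Polynomial.coeff_sub, Polynomial.taylor_coeff, hasse_top hf hn, Polynomial.eval_C, sub_self]

theorem gh_coeff {f : Polynomial ℝ} {d : ℕ} (hf : f.natDegree ≤ d + 1) (h : ℝ) :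
    (gh f h).coeff d = ((d : ℝ) + 1) * h * f.coeff (d + 1) := by
  unfold gh
  rw [Polynomial.coeff_sub, Polynomial.taylor_coeff, hasse_snd hf, Polynomial.eval_add, Polynomial.eval_C,
    Polynomial.eval_mul, Polynomial.eval_C, Polynomial.eval_X]
  ring

theorem norm_ee (x : ℝ) : ‖ee x‖ = 1 := by
  unfold ee
  exact Complex.norm_exp_ofReal_mul_I _

theorem nn_le (x : ℝ) (m : ℤ) : nn x ≤ |x - m| := by
  unfold nn
  exact round_le x m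

/-- the conditions on the size of `K` -/
theorem large (δ δ' c : ℝ) (hδ : 0 < δ) (hδ2 : δ ≤ 1 / 4) (hδ' : 0 < δ') (Kd : ℝ) : ∃ K0 : ℝ, ∀ x : ℝ, K0 ≤ x →
    1 ≤ x ∧ Kd ≤ x ∧ 4 ≤ x ^ (1 - 2 * δ) ∧ 8 ≤ x ^ δ ∧ 100 ≤ x ^ (5 / 8 : ℝ) ∧ c ≤ x ^ (5 * δ' / 8) := by
  have h1 : ∀ᶠ x : ℝ in atTop, 1 ≤ x ∧ Kd ≤ x ∧ 4 ≤ x ^ (1 - 2 * δ) ∧ 8 ≤ x ^ δ ∧ 100 ≤ x ^ (5 / 8 : ℝ) ∧
      c ≤ x ^ (5 * δ' / 8) := by
    filter_upwards [eventually_ge_atTop 1, eventually_ge_atTop Kd,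
      (tendsto_rpow_atTop (by linarith : 0 < 1 - 2 * δ)).eventually_ge_atTop 4,
      (tendsto_rpow_atTop hδ).eventually_ge_atTop 8,
      (tendsto_rpow_atTop (by norm_num : (0 : ℝ) < 5 / 8)).eventually_ge_atTop 100,
      (tendsto_rpow_atTop (by positivity : 0 < 5 * δ' / 8)).eventually_ge_atTop c] with x a1 a2 a3 a4 a5 a6
    exact ⟨a1, a2, a3, a4, a5, a6⟩
  exact eventually_atTop.1 h1

/-- the induction step for `δ' ≤ 1` -/
theorem step (h2 : tsW2) (h3 : tsW3) (d : ℕ) (hd : 1 ≤ d) (hW : WeylP d) (δ' : ℝ) (hδ' : 0 < δ') (hδ1 : δ' ≤ 1) :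
    ∃ δ : ℝ, 0 < δ ∧ ∃ K0 : ℝ, 1 ≤ K0 ∧ ∀ K : ℕ, K0 ≤ (K : ℝ) →
    ∀ f : Polynomial ℝ, f.natDegree ≤ d + 1 → ∀ A B : ℕ, B ≤ A + K →
    (K : ℝ) ^ (1 - δ) ≤ ‖∑ k ∈ Finset.Ioc A B, ee (f.eval (k : ℝ))‖ →
    ∃ q : ℕ, 1 ≤ q ∧ (q : ℝ) ≤ (K : ℝ) ^ δ' ∧ ∃ m : ℤ,
      |(q : ℝ) * f.coeff (d + 1) - m| ≤ (K : ℝ) ^ (δ' - ((d : ℝ) + 1)) := by
  obtain ⟨η, hη⟩ : ∃ η, η = δ' / 8 := ⟨_, rfl⟩
  have hη0 : 0 < η := by rw [hη]; positivity
  obtain ⟨δd, hδd, Kd, hKd⟩ := hW η hη0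
  obtain ⟨δ, hδ⟩ : ∃ δ, δ = min (δd / 3) (δ' / 16) := ⟨_, rfl⟩
  have hδ0 : 0 < δ := by rw [hδ]; exact lt_min (by positivity) (by positivity)
  have hδa : δ ≤ δd / 3 := by rw [hδ]; exact min_le_left _ _
  have hδb : δ ≤ δ' / 16 := by rw [hδ]; exact min_le_right _ _
  obtain ⟨K0, hK0⟩ := large δ δ' (48 * ((d : ℝ) + 1)) hδ0 (by linarith) hδ' Kd
  refine ⟨δ, hδ0, max K0 1, le_max_right _ _, ?_⟩
  intro K hK f hf A B hAB hS
  obtain ⟨a1, a2, a3, a4, a5, a6⟩ := hK0 K ((le_max_left _ _).trans hK)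
  have hKpos : (0 : ℝ) < K := by linarith
  have hK1 : 1 ≤ K := by exact_mod_cast a1
  have hd1 : (1 : ℝ) ≤ d := by exact_mod_cast hd
  -- the sums for the differences
  set Sh : ℕ → ℝ := fun h => ‖∑ k ∈ Finset.Ioc A (B - h), ee ((gh f h).eval (k : ℝ))‖ with hSh
  have hW2 : ‖∑ k ∈ Finset.Ioc A B, ee (f.eval (k : ℝ))‖ ^ 2 ≤ (K : ℝ) + 2 * ∑ h ∈ Finset.Icc 1 K, Sh h := by
    have h4 := h2 (fun k => f.eval (k : ℝ)) K A B hAB
    refine h4.trans (le_of_eq ?_)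
    congr 2
    refine Finset.sum_congr rfl fun h _ => ?_
    rw [hSh]
    simp only
    congr 1
    refine Finset.sum_congr rfl fun k _ => ?_
    rw [gh_eval]
    push_cast
    rfl
  have hShK : ∀ h, Sh h ≤ K := by
    intro h
    rw [hSh]
    simp only
    refine (norm_sum_le _ _).trans ?_
    simp only [norm_ee, Finset.sum_const, nsmul_eq_mul, mul_one, Nat.card_Ioc]
    exact_mod_cast (by omega : B - h - A ≤ K)
  set Hs : Finset ℕ := (Finset.Icc 1 K).filter (fun h => (K : ℝ) ^ (1 - 3 * δ) ≤ Sh h) with hHs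
  have hsum : ∑ h ∈ Finset.Icc 1 K, Sh h ≤ Hs.card * K + K * (K : ℝ) ^ (1 - 3 * δ) := by
    rw [← Finset.sum_filter_add_sum_filter_not (Finset.Icc 1 K) (fun h => (K : ℝ) ^ (1 - 3 * δ) ≤ Sh h)]
    refine add_le_add ?_ ?_
    · rw [← nsmul_eq_mul]
      exact Finset.sum_le_card_nsmul _ _ _ (fun h _ => hShK h)
    · have h5 : ∑ h ∈ (Finset.Icc 1 K).filter (fun h => ¬ (K : ℝ) ^ (1 - 3 * δ) ≤ Sh h), Sh h ≤
          ((Finset.Icc 1 K).filter (fun h => ¬ (K : ℝ) ^ (1 - 3 * δ) ≤ Sh h)).card • (K : ℝ) ^ (1 - 3 * δ) :=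
        Finset.sum_le_card_nsmul _ _ _ (fun h hh => (not_le.1 (Finset.mem_filter.1 hh).2).le)
      refine h5.trans ?_
      rw [nsmul_eq_mul]
      apply mul_le_mul_of_nonneg_right _ (by positivity)
      have h6 := Finset.card_filter_le (Finset.Icc 1 K) (fun h => ¬ (K : ℝ) ^ (1 - 3 * δ) ≤ Sh h)
      rw [Nat.card_Icc] at h6
      exact_mod_cast (by omega : ((Finset.Icc 1 K).filter (fun h => ¬ (K : ℝ) ^ (1 - 3 * δ) ≤ Sh h)).card ≤ K)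
  -- the number of large sums
  have hn1 : (K : ℝ) ^ (1 - 2 * δ) / 4 ≤ Hs.card := by
    have e1 : ((K : ℝ) ^ (1 - δ)) ^ 2 ≤ (K : ℝ) + 2 * (Hs.card * K + K * (K : ℝ) ^ (1 - 3 * δ)) :=
      (pow_le_pow_left₀ (by positivity) hS 2).trans (hW2.trans (by linarith))
    have e2 : ((K : ℝ) ^ (1 - δ)) ^ 2 = K * (K : ℝ) ^ (1 - 2 * δ) := by
      rw [← Real.rpow_natCast, ← Real.rpow_mul hKpos.le]
      nth_rewrite 2 [← Real.rpow_one (K : ℝ)]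
      rw [← Real.rpow_add hKpos]
      congr 1
      push_cast
      ring
    have e3 : (K : ℝ) ^ (1 - 2 * δ) = (K : ℝ) ^ (1 - 3 * δ) * (K : ℝ) ^ δ := by
      rw [← Real.rpow_add hKpos]
      congr 1
      ring
    have e4 : 0 < (K : ℝ) ^ (1 - 3 * δ) := by positivity
    have e5 : 8 * (K : ℝ) ^ (1 - 3 * δ) ≤ (K : ℝ) ^ (1 - 2 * δ) := by
      rw [e3]
      nlinarith
    rw [e2] at e1
    have e6 : (K : ℝ) * (K : ℝ) ^ (1 - 2 * δ) ≤
        K * (1 + 2 * (Hs.card + (K : ℝ) ^ (1 - 3 * δ))) := by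
      refine e1.trans (le_of_eq ?_)
      ring
    have e7 := le_of_mul_le_mul_left e6 hKpos
    linarith
  -- the denominators
  have hq : ∀ h ∈ Hs, ∃ q : ℕ, q ∈ Finset.Icc 1 ⌊(K : ℝ) ^ η⌋₊ ∧
      nn ((q : ℝ) * (((d : ℝ) + 1) * f.coeff (d + 1)) * (h : ℕ)) ≤ (K : ℝ) ^ (η - d) := by
    intro h hh
    rw [hHs, Finset.mem_filter] at hh
    obtain ⟨q, q1, q2, m, hm⟩ := hKd K a2 (gh f h) (gh_natDegree hf h) A (B - h) (by omega)
      (le_trans (Real.rpow_le_rpow_of_exponent_le a1 (by linarith)) hh.2)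
    refine ⟨q, Finset.mem_Icc.2 ⟨q1, Nat.le_floor q2⟩, ?_⟩
    refine (nn_le _ m).trans (le_trans (le_of_eq ?_) hm)
    rw [gh_coeff hf]
    congr 1
    ring
  choose! qf hqf1 hqf2 using hq
  have hη1 : (1 : ℝ) ≤ (K : ℝ) ^ η := Real.one_le_rpow a1 hη0.le
  have hfl : 1 ≤ ⌊(K : ℝ) ^ η⌋₊ := Nat.le_floor (by exact_mod_cast hη1)
  obtain ⟨κ, hκ⟩ : ∃ κ, κ = (K : ℝ) ^ (-2 * δ - η) / 4 := ⟨_, rfl⟩
  have hκ0 : 0 < κ := by rw [hκ]; positivity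
  have hκ1 : κ ≤ 1 := by
    rw [hκ]
    have : (K : ℝ) ^ (-2 * δ - η) ≤ 1 := Real.rpow_le_one_of_one_le_of_nonpos a1 (by linarith)
    linarith
  have hpig : ∃ y ∈ Finset.Icc 1 ⌊(K : ℝ) ^ η⌋₊, κ * K ≤ ((Hs.filter (fun h => qf h = y)).card : ℝ) := by
    refine Finset.exists_le_card_fiber_of_nsmul_le_card_of_maps_to (fun h hh => hqf1 h hh)
      ⟨1, Finset.mem_Icc.2 ⟨le_rfl, hfl⟩⟩ ?_
    rw [nsmul_eq_mul, Nat.card_Icc, Nat.add_sub_cancel]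
    refine le_trans ?_ hn1
    have e1 : (⌊(K : ℝ) ^ η⌋₊ : ℝ) ≤ (K : ℝ) ^ η := Nat.floor_le (by positivity)
    refine (mul_le_mul_of_nonneg_right e1 (by positivity)).trans (le_of_eq ?_)
    have e2 : (K : ℝ) ^ (1 - 2 * δ) = (K : ℝ) ^ η * ((K : ℝ) ^ (-2 * δ - η) * K) := by
      nth_rewrite 4 [← Real.rpow_one (K : ℝ)]
      rw [← Real.rpow_add hKpos, ← Real.rpow_add hKpos]
      congr 1
      ring
    rw [hκ, e2]
    ring
  obtain ⟨q, hq1, hqc⟩ := hpig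
  rw [Finset.mem_Icc] at hq1
  have hqK : (q : ℝ) ≤ (K : ℝ) ^ η := le_trans (by exact_mod_cast hq1.2) (Nat.floor_le (by positivity))
  obtain ⟨β, hβ⟩ : ∃ β, β = (q : ℝ) * (((d : ℝ) + 1) * f.coeff (d + 1)) := ⟨_, rfl⟩
  have hcount : κ * K ≤ (((Finset.Icc 1 K).filter (fun h => nn (β * (h : ℕ)) ≤ (K : ℝ) ^ (η - d))).card : ℝ) := by
    refine hqc.trans ?_
    have hsub : Hs.filter (fun h => qf h = q) ⊆
        (Finset.Icc 1 K).filter (fun h => nn (β * (h : ℕ)) ≤ (K : ℝ) ^ (η - d)) := by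
      intro h hh
      rw [Finset.mem_filter] at hh
      have h7 := hqf2 h hh.1
      rw [hh.2, ← hβ] at h7
      rw [Finset.mem_filter]
      exact ⟨(Finset.mem_filter.1 hh.1).1, h7⟩
    exact_mod_cast Finset.card_le_card hsub
  have hεκ : (K : ℝ) ^ (η - d) ≤ κ / 25 := by
    have e1 : (K : ℝ) ^ (η - d) * 100 ≤ (K : ℝ) ^ (-2 * δ - η) := by
      calc (K : ℝ) ^ (η - d) * 100 ≤ (K : ℝ) ^ (η - d) * (K : ℝ) ^ (5 / 8 : ℝ) :=
            mul_le_mul_of_nonneg_left a5 (by positivity)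
        _ = (K : ℝ) ^ (η - d + 5 / 8) := by rw [← Real.rpow_add hKpos]
        _ ≤ (K : ℝ) ^ (-2 * δ - η) := Real.rpow_le_rpow_of_exponent_le a1 (by linarith)
    rw [hκ]
    linarith
  obtain ⟨q2, b1, b2, m, hm⟩ := h3 β κ ((K : ℝ) ^ (η - d)) K hK1 hκ0 hκ1 (by positivity) hεκ hcount
  have e48 : (48 : ℝ) * ((d : ℝ) + 1) * (K : ℝ) ^ (2 * δ + 2 * η) ≤ (K : ℝ) ^ δ' := by
    calc (48 : ℝ) * ((d : ℝ) + 1) * (K : ℝ) ^ (2 * δ + 2 * η) ≤
          (K : ℝ) ^ (5 * δ' / 8) * (K : ℝ) ^ (2 * δ + 2 * η) := mul_le_mul_of_nonneg_right a6 (by positivity)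
      _ = (K : ℝ) ^ (5 * δ' / 8 + (2 * δ + 2 * η)) := by rw [← Real.rpow_add hKpos]
      _ ≤ (K : ℝ) ^ δ' := Real.rpow_le_rpow_of_exponent_le a1 (by linarith)
  refine ⟨q2 * q * (d + 1), Nat.mul_pos (Nat.mul_pos b1 hq1.1) (Nat.succ_pos d), ?_, m, ?_⟩
  · push_cast
    have e1 : 12 / κ = 48 * (K : ℝ) ^ (2 * δ + η) := by
      have e2 : (K : ℝ) ^ (-2 * δ - η) * (K : ℝ) ^ (2 * δ + η) = 1 := by
        rw [← Real.rpow_add hKpos]
        have : -2 * δ - η + (2 * δ + η) = 0 := by ring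
        rw [this, Real.rpow_zero]
      rw [div_eq_iff hκ0.ne', hκ]
      linear_combination (-12) * e2
    have e3 : (q2 : ℝ) * q ≤ 48 * (K : ℝ) ^ (2 * δ + η) * (K : ℝ) ^ η := by
      rw [e1] at b2
      exact mul_le_mul b2 hqK (Nat.cast_nonneg _) (by positivity)
    have e4 : (K : ℝ) ^ (2 * δ + η) * (K : ℝ) ^ η = (K : ℝ) ^ (2 * δ + 2 * η) := by
      rw [← Real.rpow_add hKpos]
      congr 1
      ring
    calc (q2 : ℝ) * q * ((d : ℝ) + 1) ≤ 48 * (K : ℝ) ^ (2 * δ + η) * (K : ℝ) ^ η * ((d : ℝ) + 1) :=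
          mul_le_mul_of_nonneg_right e3 (by positivity)
      _ = 48 * ((d : ℝ) + 1) * (K : ℝ) ^ (2 * δ + 2 * η) := by rw [← e4]; ring
      _ ≤ (K : ℝ) ^ δ' := e48
  · have e1 : ((q2 * q * (d + 1) : ℕ) : ℝ) * f.coeff (d + 1) - m = q2 * β - m := by
      rw [hβ]
      push_cast
      ring
    rw [e1]
    refine hm.trans ?_
    have e2 : (K : ℝ) ^ (η - d) / (κ * K) = 4 * (K : ℝ) ^ (2 * δ + 2 * η - ((d : ℝ) + 1)) := by
      rw [div_eq_iff (by positivity), hκ]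
      have e3 : (K : ℝ) ^ (η - d) = (K : ℝ) ^ (2 * δ + 2 * η - ((d : ℝ) + 1)) * ((K : ℝ) ^ (-2 * δ - η) * K) := by
        nth_rewrite 4 [← Real.rpow_one (K : ℝ)]
        rw [← Real.rpow_add hKpos, ← Real.rpow_add hKpos]
        congr 1
        ring
      rw [e3]
      ring
    rw [e2]
    have e5 : (4 : ℝ) * (K : ℝ) ^ (2 * δ + 2 * η) ≤ (K : ℝ) ^ δ' := by
      refine le_trans (mul_le_mul_of_nonneg_right ?_ (by positivity)) e48
      linarith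
    have e6 : (K : ℝ) ^ (2 * δ + 2 * η - ((d : ℝ) + 1)) = (K : ℝ) ^ (2 * δ + 2 * η) * (K : ℝ) ^ (-((d : ℝ) + 1)) := by
      rw [← Real.rpow_add hKpos]
      congr 1
    have e7 : (K : ℝ) ^ (δ' - ((d : ℝ) + 1)) = (K : ℝ) ^ δ' * (K : ℝ) ^ (-((d : ℝ) + 1)) := by
      rw [← Real.rpow_add hKpos]
      congr 1
    rw [e6, e7, ← mul_assoc]
    exact mul_le_mul_of_nonneg_right e5 (by positivity)

end IW4

open IW4 in
/-- W4 -/
theorem prW4 (h2 : tsW2) (h3 : tsW3) : tsW4 := by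
  intro d hd hW δ' hδ'
  rcases le_or_gt δ' 1 with h | h
  · obtain ⟨δ, hδ, K0, -, hK⟩ := step h2 h3 d hd hW δ' hδ' h
    refine ⟨δ, hδ, K0, fun K hK0 f hf A B hAB hS => ?_⟩
    obtain ⟨q, q1, q2, m, hm⟩ := hK K hK0 f hf A B hAB hS
    refine ⟨q, q1, q2, m, ?_⟩
    push_cast
    exact hm
  · obtain ⟨δ, hδ, K0, hK1, hK⟩ := step h2 h3 d hd hW 1 one_pos le_rfl
    refine ⟨δ, hδ, K0, fun K hK0 f hf A B hAB hS => ?_⟩
    obtain ⟨q, q1, q2, m, hm⟩ := hK K hK0 f hf A B hAB hS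
    have hKK : (1 : ℝ) ≤ K := hK1.trans hK0
    refine ⟨q, q1, q2.trans (Real.rpow_le_rpow_of_exponent_le hKK h.le), m, ?_⟩
    push_cast
    exact hm.trans (Real.rpow_le_rpow_of_exponent_le hKK (by linarith))

end Pool.Agent.Work.MP_122e00_nt.TS
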