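import Mathlib
import Pool.Agent.Work.MP_122e00_nt.TS.Fin2
import Pool.Agent.Work.MP_122e00_nt.TS.I_GS
import Pool.Agent.Work.MP_122e00_nt.TS.I_L0
import Pool.Agent.Work.MP_122e00_nt.TS.I_L1
import Pool.Agent.Work.MP_122e00_nt.TS.I_L2
import Pool.Agent.Work.MP_122e00_nt.TS.I_L3
import Pool.Agent.Work.MP_122e00_nt.TS.I_L4
import Pool.Agent.Work.MP_122e00_nt.TS.I_L5
import Pool.Agent.Work.MP_122e00_nt.TS.I_D1
import Pool.Agent.Work.MP_122e00_nt.TS.I_D2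
import Pool.Agent.Work.MP_122e00_nt.TS.I_D3
import Pool.Agent.Work.MP_122e00_nt.TS.I_D4
import Pool.Agent.Work.MP_122e00_nt.TS.I_D5
import Pool.Agent.Work.MP_122e00_nt.TS.I_D6
import Pool.Agent.Work.MP_122e00_nt.TS.I_M1
import Pool.Agent.Work.MP_122e00_nt.TS.I_M2
import Pool.Agent.Work.MP_122e00_nt.TS.I_M3
import Pool.Agent.Work.MP_122e00_nt.TS.I_M4
import Pool.Agent.Work.MP_122e00_nt.TS.I_E1
import Pool.Agent.Work.MP_122e00_nt.TS.I_E2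
import Pool.Agent.Work.MP_122e00_nt.TS.I_E3
import Pool.Agent.Work.MP_122e00_nt.TS.I_E4
import Pool.Agent.Work.MP_122e00_nt.TS.I_E5
import Pool.Agent.Work.MP_122e00_nt.TS.I_F1
import Pool.Agent.Work.MP_122e00_nt.TS.I_F2
import Pool.Agent.Work.MP_122e00_nt.TS.I_F3
import Pool.Agent.Work.MP_122e00_nt.TS.I_F6
import Pool.Agent.Work.MP_122e00_nt.TS.I_F7
import Pool.Agent.Work.MP_122e00_nt.TS.I_F8
import Pool.Agent.Work.MP_122e00_nt.TS.I_F9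
import Pool.Agent.Work.MP_122e00_nt.TS.I_G1
import Pool.Agent.Work.MP_122e00_nt.TS.I_G2
import Pool.Agent.Work.MP_122e00_nt.TS.I_G3
import Pool.Agent.Work.MP_122e00_nt.TS.I_G4
import Pool.Agent.Work.MP_122e00_nt.TS.I_H2
import Pool.Agent.Work.MP_122e00_nt.TS.I_H5
import Pool.Agent.Work.MP_122e00_nt.TS.I_H6
import Pool.Agent.Work.MP_122e00_nt.TS.I_Q1
import Pool.Agent.Work.MP_122e00_nt.TS.I_Q2
import Pool.Agent.Work.MP_122e00_nt.TS.I_Q3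
import Pool.Agent.Work.MP_122e00_nt.TS.I_W1
import Pool.Agent.Work.MP_122e00_nt.TS.I_W2
import Pool.Agent.Work.MP_122e00_nt.TS.I_W3
import Pool.Agent.Work.MP_122e00_nt.TS.I_W4
import Pool.Agent.Work.MP_122e00_nt.TS.I_W5
import Pool.Agent.Work.MP_122e00_nt.TS.I_J1
import Pool.Agent.Work.MP_122e00_nt.TS.I_J2
import Pool.Agent.Work.MP_122e00_nt.TS.I_Q5
import Pool.Agent.Work.MP_122e00_nt.TS.I_R1
import Pool.Agent.Work.MP_122e00_nt.TS.I_R2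
import Pool.Agent.Work.MP_122e00_nt.TS.I_R3
import Pool.Agent.Work.MP_122e00_nt.TS.I_R4
import Pool.Agent.Work.MP_122e00_nt.TS.I_R5
import Pool.Agent.Work.MP_122e00_nt.TS.I_R6
import Pool.Agent.Work.MP_122e00_nt.TS.I_R8
import Pool.Agent.Work.MP_122e00_nt.TS.I_R9
import Pool.Agent.Work.MP_122e00_nt.TS.I_R10
import Pool.Agent.Work.MP_122e00_nt.TS.I_T1
import Pool.Agent.Work.MP_122e00_nt.TS.I_T2
import Pool.Agent.Work.MP_122e00_nt.TS.I_T3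

/-!
# Thin shifts: all items together (sharper form)
-/

namespace Pool.Agent.Work.MP_122e00_nt.TS

theorem tGS : tsGS := prGS
theorem tL0 : tsL0 := prL0
theorem tL1 : tsL1 := prL1
theorem tL2 : tsL2 := prL2
theorem tL3 : tsL3 := prL3 tL2
theorem tL4 : tsL4 := prL4 tGS tL0 tL1 tL3
theorem tL5 : tsL5 := prL5 tGS tL0 tL1
theorem tD1 : tsD1 := prD1
theorem tD2 : tsD2 := prD2 tD1
theorem tD3 : tsD3 := prD3
theorem tD4 : tsD4 := prD4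
theorem tD5 : tsD5 := prD5 tD2 tD3 tD4
theorem tD6 : tsD6 := prD6 tD5
theorem tM1 : tsM1 := prM1
theorem tM2 : tsM2 := prM2
theorem tM3 : tsM3 := prM3
theorem tM4 : tsM4 := prM4 tD6 tM1 tM2 tM3
theorem tE1 : tsE1 := prE1
theorem tE2 : tsE2 := prE2
theorem tE3 : tsE3 := prE3 tL5 tE1 tE2
theorem tE4 : tsE4 := prE4
theorem tE5 : tsE5 := prE5 tL4 tE4
theorem tF1 : tsF1 := prF1 tGS
theorem tF2 : tsF2 := prF2
theorem tF3 : tsF3 := prF3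
theorem tF6 : tsF6 := prF6 tL0
theorem tF7 : tsF7 := prF7 tE1 tF1
theorem tF8 : tsF8 := prF8
theorem tF9 : tsF9 := prF9
theorem tG1 : tsG1 := prG1
theorem tG2 : tsG2 := prG2 tF9 tG1
theorem tG3 : tsG3 := prG3 tL0 tF2 tF3 tF7 tF8 tF9 tG1 tG2
theorem tG4 : tsG4 := prG4 tF9
theorem tH2 : tsH2 := prH2
theorem tH5 : tsH5 := prH5 tH2
theorem tH6 : tsH6 := prH6
theorem tQ1 : tsQ1 := prQ1
theorem tQ2 : tsQ2 := prQ2 tQ1
theorem tQ3 : tsQ3 := prQ3 tQ1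
theorem tW1 : tsW1 := prW1 tGS
theorem tW2 : tsW2 := prW2
theorem tW3 : tsW3 := prW3
theorem tW4 : tsW4 := prW4 tW2 tW3
theorem tW5 : tsW5 := prW5 tW1 tW4
theorem tJ1 : tsJ1 := prJ1 tQ1
theorem tJ2 : tsJ2 := prJ2 tJ1
theorem tQ5 : tsQ5 := prQ5 tQ2 tQ3 tJ2
theorem tR1 : tsR1 := prR1
theorem tR2 : tsR2 := prR2
theorem tR3 : tsR3 := prR3 tE1
theorem tR4 : tsR4 := prR4
theorem tR6 : tsR6 := prR6
theorem tR8 : tsR8 := prR8 tR1
theorem tT1 : tsT1 := prT1 tW5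
theorem tT2 : tsT2 := prT2 tQ5 tL0 tF6 tH2 tT1
theorem tT3 : tsT3 := prT3 tG3 tH2 tT2
theorem tR5 : tsR5 := prR5 tR3 tR4 tR6
theorem tR9 : tsR9 := prR9 tL0 tR1 tR2 tR5 tR8
theorem tR10 : tsR10 := prR10 tL0 tF6 tR9

/-- the final theorem, sharper form -/
theorem mainT : StFinT := finT tL0 tM4 tE3 tE5 tG2 tG4 tH2 tR10 tT3 tH5 tH6

end Pool.Agent.Work.MP_122e00_nt.TS
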