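import Mathlib
import Pool.Agent.Work.MP_122e00_nt.TS.Fin2
import Pool.Agent.Work.MP_122e00_nt.TS.Stmts6

/-!
# Thin shifts: assembly of the strongest form
-/

namespace Pool.Agent.Work.MP_122e00_nt.TS

open Finset Filter Topology ArithmeticFunction
open scoped ArithmeticFunction.zeta ArithmeticFunction.Moebius

/-- the final theorem, strongest form: shifts between `X^(min(1 - 2/r, 1/3) + ε)` and `X^(1 - ε)` -/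
def StFinS : Prop := ∀ r : ℕ, 2 ≤ r → ∃ P : ℕ → Polynomial ℝ,
  (∀ h : ℕ, 1 ≤ h → (P h).natDegree = 2 * (r - 1) ∧
    (P h).leadingCoeff = Csing (r - 1) h / ((r - 1).factorial : ℝ) ^ 2) ∧
  ∀ F : Polynomial ℤ, 1 ≤ F.natDegree → 0 < F.leadingCoeff →
  ∀ θ₁ θ₂ : ℝ, 0 < θ₁ → min (1 - 2 / (r : ℝ)) (1 / 3) < θ₁ → θ₁ < θ₂ → θ₂ < 1 →
  ∃ (δ C : ℝ) (S : Set ℕ), 0 < δ ∧
  (∀ K : ℕ, 1 ≤ K → (Set.ncard {k : ℕ | k ∈ S ∧ 1 ≤ k ∧ k ≤ K} : ℝ) ≤ C * (K : ℝ) ^ (1 - δ)) ∧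
  ∀ k : ℕ, k ∉ S → 1 ≤ F.eval (k : ℤ) ∧ ∀ X : ℝ, 1 ≤ X →
    X ^ θ₁ ≤ ((F.eval (k : ℤ) : ℤ) : ℝ) → ((F.eval (k : ℤ) : ℤ) : ℝ) ≤ X ^ θ₂ →
    |cor (dr r) (dr r) ⌊X⌋₊ (F.eval (k : ℤ)).toNat -
      X * (P (F.eval (k : ℤ)).toNat).eval (Real.log X)| ≤ X ^ (1 - δ)

/-- both bounds for the mean square over short intervals in one statement -/
theorem short_ms (hR10 : tsR10) (hU8 : tsU8) (r : ℕ) (E : ℕ → Polynomial ℝ) (hr : 2 ≤ r)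
    (hE : AP r E) (hCB : CB E) (θ₁ θ₂ : ℝ) (h0 : 0 < θ₁)
    (h1 : min (1 - 2 / (r : ℝ)) (1 / 3) < θ₁) (h12 : θ₁ < θ₂) (h2 : θ₂ < 1) :
    ∃ η₂ δ X0 : ℝ, 0 < η₂ ∧ η₂ ≤ 1 / 100 ∧ 0 < δ ∧
    ∀ (X γ : ℝ) (N L : ℕ), X0 ≤ X → (N : ℝ) ≤ 2 * X → X ^ θ₁ ≤ L → (L : ℝ) ≤ X ^ θ₂ →
    SI (fl r E ⌊X ^ η₂⌋₊) N L γ ≤ (L : ℝ) ^ 2 * X ^ (1 - δ) := by
  rcases min_lt_iff.1 h1 with h | h
  · exact hR10 r E hr hE hCB θ₁ θ₂ h0 h h12 h2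
  · exact hU8 r E hr hE hCB θ₁ θ₂ h h12 h2

theorem finS (hL0 : tsL0) (hM4 : tsM4) (hE3 : tsE3) (hE5 : tsE5) (hG2 : tsG2)
    (hG4 : tsG4) (hH2 : tsH2) (hR10 : tsR10) (hU8 : tsU8) (hT3 : tsT3) (hH5 : tsH5)
    (hH6 : tsH6) : StFinS := by
  intro r hr
  have hr1 : 1 ≤ r := by omega
  obtain ⟨B, hB⟩ := hM4 r hr1
  obtain ⟨E, hE⟩ := hE3 r B hr1 hB
  have hCB := hE5 r E hr1 hE
  refine ⟨PH r E, fun h hh => hG4 r E hr hE hCB h hh, ?_⟩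
  intro F hF hFl θ₁ θ₂ h0 h1 h12 h2
  obtain ⟨A, c, C, hc, hC, hA, -⟩ := hH2 F hF hFl
  have hA' : ∀ k : ℕ, A < k → 1 ≤ F.eval (k : ℤ) := fun k hk => (hA k hk).1
  have hm0 : (0 : ℝ) ≤ max 0 (min (1 - 2 / (r : ℝ)) (1 / 3)) := le_max_left _ _
  have hm1 : min (1 - 2 / (r : ℝ)) (1 / 3) ≤ max 0 (min (1 - 2 / (r : ℝ)) (1 / 3)) :=
    le_max_right _ _
  have hm2 : max 0 (min (1 - 2 / (r : ℝ)) (1 / 3)) < θ₁ := max_lt h0 h1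
  set m0 : ℝ := max 0 (min (1 - 2 / (r : ℝ)) (1 / 3)) with hm0d
  obtain ⟨η₂, δ, X0, hη₂, hη₂', hδ, hSI⟩ := short_ms hR10 hU8 r E hr hE hCB ((m0 + θ₁) / 2)
    ((1 + θ₂) / 2) (by linarith) (by linarith) (by linarith) (by linarith)
  have hSM := hT3 r E η₂ δ X0 ((m0 + θ₁) / 2) ((1 + θ₂) / 2) ((m0 + 3 * θ₁) / 4) ((1 + θ₂) / 2) hr hE
    hCB hη₂ hη₂' hδ (by linarith) (by linarith) le_rfl (by linarith) hSI F A hF hFl hA'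
  exact fin_set hL0 hG2 hH5 hH6 r hr1 E hE.1 hCB F A hF hFl hA' ((m0 + 3 * θ₁) / 4) θ₁ θ₂
    ((1 + θ₂) / 2) (by linarith) (by linarith) h12 (by linarith) (by linarith) hSM

end Pool.Agent.Work.MP_122e00_nt.TS
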