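import Mathlib
import Pool.Agent.Work.MP_122e00_nt.TS.Stmts5

/-!
# Thin shifts, item P1: the sums of `a ^ (-2πit)` over a progression
-/

set_option autoImplicit false

namespace Pool.Agent.Work.MP_122e00_nt.TS

open Finset Filter Topology ArithmeticFunction MeasureTheory
open scoped ArithmeticFunction.zeta ArithmeticFunction.Moebius

namespace IP1

theorem weyl_all (h1 : tsW1) (h4 : tsW4) : ∀ d : ℕ, WeylP (d + 1)
  | 0 => h1
  | d + 1 => h4 (d + 1) (Nat.le_add_left 1 d) (weyl_all h1 h4 d)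

theorem norm_ee (x : ℝ) : ‖ee x‖ = 1 := by
  unfold ee
  exact Complex.norm_exp_ofReal_mul_I _

theorem ee_sub_le (x y : ℝ) : ‖ee x - ee y‖ ≤ 7 * |x - y| := by
  have h1 : ee x - ee y = ee y * (Complex.exp (Complex.I * ((2 * Real.pi * (x - y) : ℝ) : ℂ)) - 1) := by
    unfold ee
    rw [mul_sub, mul_one, ← Complex.exp_add]
    congr 2
    push_cast
    ring
  rw [h1, norm_mul, norm_ee, one_mul]
  refine (Real.norm_exp_I_mul_ofReal_sub_one_le).trans ?_
  rw [Real.norm_eq_abs, abs_mul, abs_of_pos (by positivity : (0 : ℝ) < 2 * Real.pi)]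
  have := Real.pi_lt_d2
  exact mul_le_mul_of_nonneg_right (by linarith) (abs_nonneg _)

/-- Cutting an interval in blocks. -/
theorem blocks (F : ℕ → ℂ) (H : ℕ) (M : ℝ) (hM : 0 ≤ M) (K₁ : ℕ) : ∀ n K₀ : ℕ,
    (∀ k₀ H' : ℕ, K₀ ≤ k₀ → k₀ + H' ≤ K₁ → H' ≤ H → ‖∑ k ∈ Finset.Ioc k₀ (k₀ + H'), F k‖ ≤ M) →
    K₁ ≤ K₀ + n * H → ‖∑ k ∈ Finset.Ioc K₀ K₁, F k‖ ≤ n * M := by
  intro n
  induction n with
  | zero =>
    intro K₀ _ h
    rw [Finset.Ioc_eq_empty (by omega)]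
    simp
  | succ n ih =>
    intro K₀ hb h
    have hn : (0 : ℝ) ≤ n * M := mul_nonneg (Nat.cast_nonneg n) hM
    by_cases h1 : K₁ ≤ K₀ + H
    · by_cases h2 : K₀ ≤ K₁
      · have := hb K₀ (K₁ - K₀) le_rfl (by omega) (by omega)
        rw [Nat.add_sub_cancel' h2] at this
        push_cast
        linarith
      · rw [Finset.Ioc_eq_empty (by omega)]
        simp only [Finset.sum_empty, norm_zero]
        push_cast
        linarith
    · have h2 : K₀ + H ≤ K₁ := by omega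
      rw [← Finset.sum_Ioc_consecutive F (by omega : K₀ ≤ K₀ + H) h2]
      have e1 := hb K₀ H le_rfl h2 le_rfl
      have e2 := ih (K₀ + H) (fun k₀ H' a b c => hb k₀ H' (by omega) b c) (by
        rw [add_mul, one_mul] at h
        omega)
      refine (norm_add_le _ _).trans ?_
      push_cast
      linarith

/-- The Taylor polynomial. -/
noncomputable def fp (t b c : ℝ) (j : ℕ) : Polynomial ℝ :=
  Polynomial.C b + ∑ i ∈ Finset.range j,
    Polynomial.C (t * c ^ (i + 1) / ((i : ℝ) + 1)) * Polynomial.X ^ (i + 1)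

theorem fp_eval (t b c : ℝ) (j : ℕ) (x : ℝ) :
    (fp t b c j).eval x = b + t * ∑ i ∈ Finset.range j, (c * x) ^ (i + 1) / ((i : ℝ) + 1) := by
  unfold fp
  rw [Polynomial.eval_add, Polynomial.eval_C, Polynomial.eval_finsetSum, Finset.mul_sum]
  congr 1
  refine Finset.sum_congr rfl fun i _ => ?_
  rw [Polynomial.eval_mul, Polynomial.eval_C, Polynomial.eval_pow, Polynomial.eval_X, mul_pow]
  ring

theorem fp_deg (t b c : ℝ) (j : ℕ) : (fp t b c j).natDegree ≤ j := by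
  unfold fp
  refine (Polynomial.natDegree_add_le _ _).trans ?_
  rw [Polynomial.natDegree_C, Nat.zero_max]
  refine Polynomial.natDegree_sum_le_of_forall_le _ _ fun i hi => ?_
  rw [Finset.mem_range] at hi
  exact (Polynomial.natDegree_C_mul_X_pow_le _ _).trans (by omega)

theorem fp_coeff (t b c : ℝ) (j : ℕ) (hj : 1 ≤ j) : (fp t b c j).coeff j = t * c ^ j / j := by
  unfold fp
  rw [Polynomial.coeff_add, Polynomial.coeff_C, if_neg (by omega), zero_add,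
    Polynomial.finsetSum_coeff, Finset.sum_eq_single (j - 1)]
  · rw [Polynomial.coeff_C_mul, Polynomial.coeff_X_pow, if_pos (by omega), mul_one,
      Nat.sub_add_cancel hj]
    congr 1
    have : ((j - 1 : ℕ) : ℝ) + 1 = ((j - 1 + 1 : ℕ) : ℝ) := by push_cast; ring
    rw [this, Nat.sub_add_cancel hj]
  · intro i _ hi
    rw [Polynomial.coeff_C_mul, Polynomial.coeff_X_pow, if_neg (by omega), mul_zero]
  · intro h
    exact absurd (Finset.mem_range.2 (by omega)) h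

/-- One block. -/
theorem block (j : ℕ) (hj : 1 ≤ j) (δ' δ K0 : ℝ)
    (hW : ∀ K : ℕ, K0 ≤ (K : ℝ) → ∀ f : Polynomial ℝ, f.natDegree ≤ j → ∀ A B : ℕ, B ≤ A + K →
      (K : ℝ) ^ (1 - δ) ≤ ‖∑ k ∈ Finset.Ioc A B, ee (f.eval (k : ℝ))‖ →
      ∃ q : ℕ, 1 ≤ q ∧ (q : ℝ) ≤ (K : ℝ) ^ δ' ∧ ∃ m : ℤ,
        |(q : ℝ) * f.coeff j - m| ≤ (K : ℝ) ^ (δ' - j))
    (t a₀ q E : ℝ) (H H' : ℕ) (hH : H' ≤ H) (hK : K0 ≤ H) (hH0 : 0 < H) (ha₀ : 0 < a₀) (hq : 0 < q)
    (h1 : q * H / a₀ ≤ 1 / 2) (h2 : |t| * (q * H / a₀) ^ (j + 1) ≤ E)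
    (h3 : (H : ℝ) ^ δ' * (|t| * (q / a₀) ^ j) < 1 / 2) (h4 : (H : ℝ) ^ (δ' - j) < 1 / 2)
    (h5 : j * (H : ℝ) ^ δ' < |t| * (q * H / a₀) ^ j) :
    ‖∑ k ∈ Finset.Ioc 0 H', ee (-(t * Real.log (a₀ + q * k)))‖ ≤ (H : ℝ) ^ (1 - δ) + H * (14 * E) := by
  have hHr : (0 : ℝ) < H := by exact_mod_cast hH0
  have hjr : (1 : ℝ) ≤ j := by exact_mod_cast hj
  have hE : 0 ≤ E := le_trans (by positivity) h2
  set f := fp t (-(t * Real.log a₀)) (-(q / a₀)) j with hf
  have hsum : ‖∑ k ∈ Finset.Ioc 0 H', ee (f.eval (k : ℝ))‖ < (H : ℝ) ^ (1 - δ) := by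
    by_contra hcon
    rw [not_lt] at hcon
    obtain ⟨q₁, hq1, hq2, m, hm⟩ := hW H hK f (fp_deg _ _ _ _) 0 H' (by omega) hcon
    have hq1r : (1 : ℝ) ≤ q₁ := by exact_mod_cast hq1
    have hα : |f.coeff j| = |t| * (q / a₀) ^ j / j := by
      rw [hf, fp_coeff _ _ _ _ hj, abs_div, abs_mul, abs_pow, abs_neg,
        abs_of_pos (by positivity : (0 : ℝ) < q / a₀), Nat.abs_cast]
    have hα0 : |f.coeff j| ≤ |t| * (q / a₀) ^ j := by
      rw [hα]
      exact div_le_self (by positivity) hjr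
    have hqa : |(q₁ : ℝ) * f.coeff j| < 1 / 2 := by
      rw [abs_mul, Nat.abs_cast]
      refine lt_of_le_of_lt ?_ h3
      exact mul_le_mul hq2 hα0 (abs_nonneg _) (by positivity)
    have hm0 : m = 0 := by
      have h6 : |(m : ℝ)| < 1 := by
        have e : (m : ℝ) = (q₁ : ℝ) * f.coeff j - ((q₁ : ℝ) * f.coeff j - m) := by ring
        rw [e]
        have := abs_sub ((q₁ : ℝ) * f.coeff j) ((q₁ : ℝ) * f.coeff j - m)
        linarith
      rw [← Int.cast_abs] at h6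
      have h7 : |m| < 1 := by exact_mod_cast h6
      exact Int.abs_lt_one_iff.1 h7
    rw [hm0, Int.cast_zero, sub_zero, abs_mul, Nat.abs_cast] at hm
    have h8 : |f.coeff j| ≤ (H : ℝ) ^ (δ' - j) :=
      le_trans (le_mul_of_one_le_left (abs_nonneg _) hq1r) hm
    have h9 : (H : ℝ) ^ (δ' - j) * (H : ℝ) ^ j = (H : ℝ) ^ δ' := by
      rw [← Real.rpow_natCast, ← Real.rpow_add hHr]
      congr 1
      ring
    have h10 : |f.coeff j| * (H : ℝ) ^ j ≤ (H : ℝ) ^ δ' := by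
      rw [← h9]
      exact mul_le_mul_of_nonneg_right h8 (by positivity)
    have h11 : |t| * (q * H / a₀) ^ j = j * (|f.coeff j| * (H : ℝ) ^ j) := by
      rw [hα]
      have : q * H / a₀ = q / a₀ * H := by ring
      rw [this, mul_pow]
      field_simp
    rw [h11] at h5
    have := mul_le_mul_of_nonneg_left h10 (by positivity : (0 : ℝ) ≤ j)
    linarith
  have hdiff : ‖∑ k ∈ Finset.Ioc 0 H', ee (-(t * Real.log (a₀ + q * k))) -
      ∑ k ∈ Finset.Ioc 0 H', ee (f.eval (k : ℝ))‖ ≤ H * (14 * E) := by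
    rw [← Finset.sum_sub_distrib]
    refine (norm_sum_le _ _).trans ?_
    have hterm : ∀ k ∈ Finset.Ioc 0 H', ‖ee (-(t * Real.log (a₀ + q * (k : ℝ)))) - ee (f.eval (k : ℝ))‖ ≤
        14 * E := by
      intro k hk
      rw [Finset.mem_Ioc] at hk
      refine (ee_sub_le _ _).trans ?_
      have hkH : (k : ℝ) ≤ H := by exact_mod_cast hk.2.trans hH
      have hk0 : (0 : ℝ) ≤ k := Nat.cast_nonneg k
      set v := q * (k : ℝ) / a₀ with hv
      have hv0 : 0 ≤ v := by positivity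
      have hvH : v ≤ q * H / a₀ := by
        rw [hv]
        gcongr
      have hv2 : v ≤ 1 / 2 := hvH.trans h1
      have hlog : Real.log (a₀ + q * k) = Real.log a₀ + Real.log (1 - (-(q / a₀) * k)) := by
        rw [← Real.log_mul ha₀.ne' (by
          have : 1 - (-(q / a₀) * (k : ℝ)) = 1 + v := by rw [hv]; ring
          rw [this]
          positivity)]
        congr 1
        field_simp
        ring
      have habs : |-(q / a₀) * (k : ℝ)| = v := by
        rw [abs_mul, abs_neg, abs_of_pos (by positivity : (0 : ℝ) < q / a₀), abs_of_nonneg hk0, hv]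
        ring
      have htay := Real.abs_log_sub_add_sum_range_le (x := -(q / a₀) * (k : ℝ)) (by rw [habs]; linarith) j
      rw [habs] at htay
      have hev : -(t * Real.log (a₀ + q * k)) - f.eval (k : ℝ) =
          -(t * ((∑ i ∈ Finset.range j, (-(q / a₀) * (k : ℝ)) ^ (i + 1) / ((i : ℝ) + 1)) +
            Real.log (1 - (-(q / a₀) * k)))) := by
        rw [hf, fp_eval, hlog]
        ring
      rw [hev, abs_neg, abs_mul]
      have h12 : v ^ (j + 1) / (1 - v) ≤ 2 * v ^ (j + 1) := by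
        rw [div_le_iff₀ (by linarith)]
        have : (0 : ℝ) ≤ v ^ (j + 1) := by positivity
        nlinarith
      have h13 : |t| * v ^ (j + 1) ≤ E :=
        (mul_le_mul_of_nonneg_left (pow_le_pow_left₀ hv0 hvH _) (abs_nonneg t)).trans h2
      calc 7 * (|t| * |(∑ i ∈ Finset.range j, (-(q / a₀) * (k : ℝ)) ^ (i + 1) / ((i : ℝ) + 1)) +
            Real.log (1 - (-(q / a₀) * k))|)
          ≤ 7 * (|t| * (2 * v ^ (j + 1))) := by
            refine mul_le_mul_of_nonneg_left ?_ (by norm_num)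
            exact mul_le_mul_of_nonneg_left (htay.trans h12) (abs_nonneg t)
        _ = 14 * (|t| * v ^ (j + 1)) := by ring
        _ ≤ 14 * E := by linarith
    refine (Finset.sum_le_sum hterm).trans ?_
    rw [Finset.sum_const, Nat.card_Ioc, nsmul_eq_mul]
    refine mul_le_mul_of_nonneg_right ?_ (by positivity)
    have : H' - 0 ≤ H := by omega
    exact_mod_cast this
  have e : ∑ k ∈ Finset.Ioc 0 H', ee (-(t * Real.log (a₀ + q * k))) =
      ∑ k ∈ Finset.Ioc 0 H', ee (f.eval (k : ℝ)) +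
      (∑ k ∈ Finset.Ioc 0 H', ee (-(t * Real.log (a₀ + q * k))) -
        ∑ k ∈ Finset.Ioc 0 H', ee (f.eval (k : ℝ))) := by ring
  rw [e]
  refine (norm_add_le _ _).trans ?_
  linarith

/-- The progression. -/
theorem prog (g : ℕ → ℂ) (A A' q r : ℕ) (hq : 1 ≤ q) (hr : r < q) (hA : r ≤ A) (hAA : A ≤ A') :
    ∑ a ∈ (Finset.Ioc A A').filter (fun a => a % q = r), g a =
      ∑ k ∈ Finset.Ioc ((A - r) / q) ((A' - r) / q), g (r + q * k) := by
  refine Finset.sum_nbij' (fun a => a / q) (fun k => r + q * k) ?_ ?_ ?_ ?_ ?_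
  · intro a ha
    rw [Finset.mem_filter, Finset.mem_Ioc] at ha
    rw [Finset.mem_Ioc, Nat.div_lt_iff_lt_mul hq, Nat.le_div_iff_mul_le hq]
    have e := Nat.mod_add_div a q
    rw [ha.2, mul_comm q] at e
    omega
  · intro k hk
    rw [Finset.mem_Ioc, Nat.div_lt_iff_lt_mul hq, Nat.le_div_iff_mul_le hq, mul_comm k] at hk
    rw [Finset.mem_filter, Finset.mem_Ioc, Nat.add_mul_mod_self_left]
    exact ⟨by omega, Nat.mod_eq_of_lt hr⟩
  · intro a ha
    rw [Finset.mem_filter, Finset.mem_Ioc] at ha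
    have e := Nat.mod_add_div a q
    rw [ha.2] at e
    exact e
  · intro k _
    show (r + q * k) / q = k
    rw [Nat.add_mul_div_left _ _ hq, Nat.div_eq_of_lt hr, zero_add]
  · intro a ha
    rw [Finset.mem_filter, Finset.mem_Ioc] at ha
    have e := Nat.mod_add_div a q
    rw [ha.2] at e
    show g a = g (r + q * (a / q))
    rw [e]

theorem shift (g : ℕ → ℂ) (k₀ H' : ℕ) :
    ∑ k ∈ Finset.Ioc k₀ (k₀ + H'), g k = ∑ k ∈ Finset.Ioc 0 H', g (k₀ + k) := by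
  refine Finset.sum_nbij' (fun k => k - k₀) (fun k => k₀ + k) ?_ ?_ ?_ ?_ ?_
  · intro a ha
    rw [Finset.mem_Ioc] at *
    omega
  · intro a ha
    rw [Finset.mem_Ioc] at *
    omega
  · intro a ha
    rw [Finset.mem_Ioc] at ha
    show k₀ + (a - k₀) = a
    omega
  · intro a _
    show k₀ + a - k₀ = a
    omega
  · intro a ha
    rw [Finset.mem_Ioc] at ha
    show g a = g (k₀ + (a - k₀))
    congr 1
    omega

/-- The scale `u`. -/
theorem uex (j : ℕ) (ε₁ δ₆ δa X L : ℝ) (hX : 1 ≤ X) (hL1 : X ^ δ₆ ≤ L) (hL2 : L ≤ X ^ (5 : ℕ))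
    (hδa : 0 < δa) (hδa8 : δa ≤ 1 / 8) (h4 : δ₆ = 4 * δa * ((j : ℝ) + 1)) (hε : 0 < ε₁)
    (hjε : 7 ≤ j * ε₁) :
    ∃ u : ℝ, 0 < u ∧ X ^ (-(3 / 4 * ε₁)) ≤ u ∧ u ≤ X ^ (-(4 * δa)) ∧
      L * X ^ δa * u ^ (j + 1) = 1 := by
  have hX0 : 0 < X := by linarith
  have hL0 : 0 < L := lt_of_lt_of_le (by positivity) hL1
  have hj0 : (0 : ℝ) < (j : ℝ) + 1 := by positivity
  have hs0 : 0 < L * X ^ δa := by positivity
  refine ⟨(L * X ^ δa) ^ (-(1 / ((j : ℝ) + 1))), by positivity, ?_, ?_, ?_⟩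
  · have h5 : L * X ^ δa ≤ X ^ (5 + δa) := by
      rw [Real.rpow_add hX0]
      have : X ^ (5 : ℝ) = X ^ (5 : ℕ) := by
        rw [← Real.rpow_natCast]
        norm_num
      rw [this]
      gcongr
    have h6 := Real.rpow_le_rpow_of_nonpos hs0 h5 (z := -(1 / ((j : ℝ) + 1))) (by
      have : 0 < 1 / ((j : ℝ) + 1) := by positivity
      linarith)
    refine le_trans ?_ h6
    rw [← Real.rpow_mul hX0.le]
    refine Real.rpow_le_rpow_of_exponent_le hX ?_
    have : (5 + δa) * (1 / ((j : ℝ) + 1)) ≤ 3 / 4 * ε₁ := by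
      rw [mul_one_div, div_le_iff₀ hj0]
      nlinarith
    linarith
  · have h5 : X ^ δ₆ ≤ L * X ^ δa := by
      have : 1 ≤ X ^ δa := Real.one_le_rpow hX hδa.le
      nlinarith
    have h6 := Real.rpow_le_rpow_of_nonpos (by positivity : 0 < X ^ δ₆) h5 (z := -(1 / ((j : ℝ) + 1))) (by
      have : 0 < 1 / ((j : ℝ) + 1) := by positivity
      linarith)
    refine h6.trans (le_of_eq ?_)
    rw [← Real.rpow_mul hX0.le, h4]
    congr 1
    field_simp
  · rw [← Real.rpow_natCast, ← Real.rpow_mul hs0.le]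
    have : -(1 / ((j : ℝ) + 1)) * ((j + 1 : ℕ) : ℝ) = -1 := by
      push_cast
      field_simp
    rw [this, Real.rpow_neg_one]
    exact mul_inv_cancel₀ hs0.ne'

end IP1

theorem prP1 (h1 : tsW1) (h4 : tsW4) : tsP1 := by
  intro ε₁ δ₆ hε hε1 hδ hδ1
  obtain ⟨j, hj7⟩ : ∃ j : ℕ, 7 / ε₁ ≤ j := exists_nat_ge _
  have hjε : 7 ≤ (j : ℝ) * ε₁ := by rwa [div_le_iff₀ hε] at hj7
  have hjr : (7 : ℝ) ≤ j := by
    have : (0 : ℝ) ≤ j := Nat.cast_nonneg j
    nlinarith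
  have hj : 1 ≤ j := by
    have : 7 ≤ j := by exact_mod_cast hjr
    omega
  obtain ⟨δa, hδa⟩ : ∃ δa : ℝ, δa = δ₆ / (4 * ((j : ℝ) + 1)) := ⟨_, rfl⟩
  have hδa0 : 0 < δa := by
    rw [hδa]
    positivity
  have hδ4 : δ₆ = 4 * δa * ((j : ℝ) + 1) := by
    rw [hδa]
    field_simp
  have hδa8 : δa ≤ 1 / 8 := by
    rw [hδa, div_le_iff₀ (by positivity)]
    linarith
  have hWj : WeylP j := by
    have := IP1.weyl_all h1 h4 (j - 1)
    rwa [Nat.sub_add_cancel hj] at this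
  obtain ⟨δW, hδW, K0, hK0⟩ := hWj δa hδa0
  obtain ⟨δw, hδw⟩ : ∃ δw : ℝ, δw = min (min (ε₁ / 20) (1 / (2 * (j : ℝ)))) (min (ε₁ * δW / 10) (δa / 2)) :=
    ⟨_, rfl⟩
  have w0 : 0 < δw := by
    rw [hδw]
    have : (0 : ℝ) < j := by linarith
    refine lt_min (lt_min (by positivity) (by positivity)) (lt_min (by positivity) (by positivity))
  have w1 : δw ≤ ε₁ / 20 := by
    rw [hδw]
    exact (min_le_left _ _).trans (min_le_left _ _)
  have w2 : (j : ℝ) * δw ≤ 1 / 2 := by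
    have : δw ≤ 1 / (2 * (j : ℝ)) := by
      rw [hδw]
      exact (min_le_left _ _).trans (min_le_right _ _)
    rw [le_div_iff₀ (by linarith)] at this
    linarith
  have w3 : δw ≤ ε₁ * δW / 10 := by
    rw [hδw]
    exact (min_le_right _ _).trans (min_le_left _ _)
  have w4 : δw ≤ δa / 2 := by
    rw [hδw]
    exact (min_le_right _ _).trans (min_le_right _ _)
  have ev : ∀ᶠ X : ℝ in atTop, 1 ≤ X ∧ 4 ≤ X ^ (4 * δa) ∧ 2 ≤ X ^ (ε₁ / 20) ∧
      max K0 5 ≤ X ^ (3 * ε₁ / 20) ∧ 2 ^ (j + 2) ≤ X ∧ (j : ℝ) * 4 ^ j + 1 ≤ X ^ (2 * δa) ∧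
      6 ≤ X ^ (ε₁ * δW / 20) ∧ 84 * 2 ^ (j + 1) ≤ X ^ (δa / 2) := by
    have hb : ∀ c M : ℝ, 0 < c → ∀ᶠ X : ℝ in atTop, M ≤ X ^ c := fun c M hc =>
      (tendsto_rpow_atTop hc).eventually_ge_atTop M
    filter_upwards [eventually_ge_atTop 1, hb (4 * δa) 4 (by positivity), hb (ε₁ / 20) 2 (by positivity),
      hb (3 * ε₁ / 20) (max K0 5) (by positivity), eventually_ge_atTop (2 ^ (j + 2)),
      hb (2 * δa) ((j : ℝ) * 4 ^ j + 1) (by positivity), hb (ε₁ * δW / 20) 6 (by positivity),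
      hb (δa / 2) (84 * 2 ^ (j + 1)) (by positivity)] with X a1 a2 a3 a4 a5 a6 a7 a8
    exact ⟨a1, a2, a3, a4, a5, a6, a7, a8⟩
  obtain ⟨X0, hX0⟩ := eventually_atTop.1 ev
  refine ⟨δw, X0, w0, ?_⟩
  intro X t A A' q ρ hX hA1 hA2 hAA hAA2 hq hqX ht1 ht2
  obtain ⟨c1, c4, c2, c3, c5, c6, c7, c8⟩ := hX0 X hX
  have hXp : 0 < X := by linarith
  have hqr : (1 : ℝ) ≤ q := by exact_mod_cast hq
  have hq0 : (0 : ℝ) < q := by linarith
  have hAp : (0 : ℝ) < A := lt_of_lt_of_le (by positivity) hA1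
  have hqε : (q : ℝ) ≤ X ^ (ε₁ / 20) := hqX.trans (Real.rpow_le_rpow_of_exponent_le c1 w1)
  obtain ⟨u, hu0, hu1, hu2, hu3⟩ := IP1.uex j ε₁ δ₆ δa X |t| c1 ht1 ht2 hδa0 hδa8 hδ4 hε hjε
  have hu4 : u ≤ 1 / 4 := by
    refine hu2.trans ?_
    rw [Real.rpow_neg hXp.le, ← one_div]
    exact one_div_le_one_div_of_le (by norm_num) c4
  -- the length of the blocks
  obtain ⟨Y, hY⟩ : ∃ Y : ℝ, Y = A / q * u := ⟨_, rfl⟩
  have hYX : 2 * X ^ (3 * ε₁ / 20) ≤ Y := by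
    have e1 : X ^ ε₁ / X ^ (ε₁ / 20) * X ^ (-(3 / 4 * ε₁)) = X ^ (ε₁ / 20) * X ^ (3 * ε₁ / 20) := by
      rw [← Real.rpow_sub hXp, ← Real.rpow_add hXp, ← Real.rpow_add hXp]
      congr 1
      ring
    have e2 : X ^ ε₁ / X ^ (ε₁ / 20) * X ^ (-(3 / 4 * ε₁)) ≤ Y := by
      rw [hY]
      gcongr
    rw [e1] at e2
    refine le_trans ?_ e2
    exact mul_le_mul_of_nonneg_right c2 (by positivity)
  have hc3 : (1 : ℝ) ≤ X ^ (3 * ε₁ / 20) := Real.one_le_rpow c1 (by positivity)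
  have hY0 : 0 ≤ Y := by linarith
  have hYA : Y ≤ A / q := by
    rw [hY]
    exact mul_le_of_le_one_right (by positivity) (by linarith)
  obtain ⟨H, hH⟩ : ∃ H : ℕ, H = ⌊Y⌋₊ := ⟨_, rfl⟩
  have hHY : (H : ℝ) ≤ Y := by
    rw [hH]
    exact Nat.floor_le hY0
  have hHY2 : Y / 2 ≤ H := by
    have := Nat.lt_floor_add_one Y
    rw [← hH] at this
    linarith
  have hHX : X ^ (3 * ε₁ / 20) ≤ H := by linarith
  have hH5 : (5 : ℝ) ≤ H := (le_max_right _ _).trans (c3.trans hHX)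
  have hHK : K0 ≤ H := (le_max_left _ _).trans (c3.trans hHX)
  have hHp : (0 : ℝ) < H := by linarith
  have hH0 : 0 < H := by exact_mod_cast hHp
  have hAX : (A : ℝ) / q ≤ X := (div_le_self hAp.le hqr).trans hA2
  have hHleX : (H : ℝ) ≤ X := hHY.trans (hYA.trans hAX)
  have hHδ : (H : ℝ) ^ δa ≤ X ^ δa := Real.rpow_le_rpow hHp.le hHleX hδa0.le
  -- the progression
  obtain ⟨r, hr⟩ : ∃ r : ℕ, r = ρ % q := ⟨_, rfl⟩
  have hrq : r < q := by
    rw [hr]
    exact Nat.mod_lt _ hq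
  have h2q : 2 * (q : ℝ) ≤ A := by
    calc 2 * (q : ℝ) ≤ X ^ (ε₁ / 20) * X ^ (ε₁ / 20) := by gcongr
      _ = X ^ (ε₁ / 20 + ε₁ / 20) := (Real.rpow_add hXp _ _).symm
      _ ≤ X ^ ε₁ := Real.rpow_le_rpow_of_exponent_le c1 (by linarith)
      _ ≤ A := hA1
  have h2qn : 2 * q ≤ A := by exact_mod_cast h2q
  have hrA : r ≤ A := by omega
  rw [← hr, IP1.prog (fun a : ℕ => ee (-(t * Real.log (a : ℝ)))) A A' q r hq hrq hrA hAA]
  obtain ⟨E, hE⟩ : ∃ E : ℝ, E = 2 ^ (j + 1) * X ^ (-δa) := ⟨_, rfl⟩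
  have hE0 : 0 ≤ E := by
    rw [hE]
    positivity
  obtain ⟨M, hM⟩ : ∃ M : ℝ, M = (H : ℝ) ^ (1 - δW) + H * (14 * E) := ⟨_, rfl⟩
  have hM0 : 0 ≤ M := by
    rw [hM]
    positivity
  have htu : |t| * u ^ (j + 1) = X ^ (-δa) := by
    rw [Real.rpow_neg hXp.le]
    refine eq_inv_of_mul_eq_one_left ?_
    linarith
  have hblock : ∀ k₀ H' : ℕ, (A - r) / q ≤ k₀ → k₀ + H' ≤ (A' - r) / q → H' ≤ H →
      ‖∑ k ∈ Finset.Ioc k₀ (k₀ + H'), ee (-(t * Real.log ((r + q * k : ℕ) : ℝ)))‖ ≤ M := by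
    intro k₀ H' hk1 hk2 hHH
    rw [IP1.shift (fun k => ee (-(t * Real.log ((r + q * k : ℕ) : ℝ))))]
    obtain ⟨a₀, ha₀⟩ : ∃ a₀ : ℝ, a₀ = ((r + q * k₀ : ℕ) : ℝ) := ⟨_, rfl⟩
    have e0 : ∑ k ∈ Finset.Ioc 0 H', ee (-(t * Real.log ((r + q * (k₀ + k) : ℕ) : ℝ))) =
        ∑ k ∈ Finset.Ioc 0 H', ee (-(t * Real.log (a₀ + q * (k : ℝ)))) := by
      refine Finset.sum_congr rfl fun k _ => ?_
      rw [ha₀]
      congr 4
      push_cast
      ring
    rw [e0, hM]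
    have hlow : (A : ℝ) / 2 ≤ a₀ := by
      have e1 : A ≤ r + q * k₀ + q := by
        have := Nat.div_add_mod (A - r) q
        have h2 := Nat.mod_lt (A - r) hq
        have h3 := Nat.mul_le_mul_left q hk1
        omega
      have e2 : (A : ℝ) ≤ a₀ + q := by
        rw [ha₀]
        exact_mod_cast e1
      linarith
    have hup : a₀ ≤ 2 * A := by
      have e1 : r + q * k₀ ≤ 2 * A := by
        have h3 : k₀ ≤ (A' - r) / q := by omega
        rw [Nat.le_div_iff_mul_le hq, mul_comm] at h3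
        omega
      rw [ha₀]
      exact_mod_cast e1
    have ha0p : 0 < a₀ := by linarith
    have hqH : q * (H : ℝ) / a₀ ≤ 2 * u := by
      rw [div_le_iff₀ ha0p]
      have e1 : q * (H : ℝ) ≤ A * u := by
        calc q * (H : ℝ) ≤ q * (A / q * u) := by
              rw [← hY]
              gcongr
          _ = A * u := by field_simp
      nlinarith
    have hqH2 : u / 4 ≤ q * (H : ℝ) / a₀ := by
      rw [le_div_iff₀ ha0p]
      have e1 : A * u / 2 ≤ q * (H : ℝ) := by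
        calc A * u / 2 = q * (A / q * u / 2) := by field_simp
          _ ≤ q * H := by
              rw [← hY]
              gcongr
      nlinarith
    refine IP1.block j hj δa δW K0 hK0 t a₀ q E H H' hHH hHK hH0 ha0p hq0 ?_ ?_ ?_ ?_ ?_
    · linarith
    · rw [hE, ← htu]
      calc |t| * (q * (H : ℝ) / a₀) ^ (j + 1) ≤ |t| * (2 * u) ^ (j + 1) := by gcongr
        _ = 2 ^ (j + 1) * (|t| * u ^ (j + 1)) := by
            rw [mul_pow]
            ring
    · have e1 : (q : ℝ) / a₀ ≤ 2 * X ^ (δw - ε₁) := by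
        rw [Real.rpow_sub hXp, div_le_iff₀ ha0p]
        have e2 : X ^ δw = X ^ δw / X ^ ε₁ * X ^ ε₁ := by field_simp
        calc (q : ℝ) ≤ X ^ δw := hqX
          _ = X ^ δw / X ^ ε₁ * X ^ ε₁ := e2
          _ ≤ X ^ δw / X ^ ε₁ * (2 * a₀) := by
              gcongr
              linarith
          _ = 2 * (X ^ δw / X ^ ε₁) * a₀ := by ring
      have e3 : ((q : ℝ) / a₀) ^ j ≤ 2 ^ j * X ^ (-(13 / 2) : ℝ) := by
        refine (pow_le_pow_left₀ (by positivity) e1 j).trans ?_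
        rw [mul_pow, ← Real.rpow_natCast (X ^ (δw - ε₁)), ← Real.rpow_mul hXp.le]
        refine mul_le_mul_of_nonneg_left ?_ (by positivity)
        refine Real.rpow_le_rpow_of_exponent_le c1 ?_
        linarith
      have e4 : (H : ℝ) ^ δa * (|t| * ((q : ℝ) / a₀) ^ j) ≤
          X ^ (1 / 8 : ℝ) * (X ^ (5 : ℝ) * (2 ^ j * X ^ (-(13 / 2) : ℝ))) := by
        have e5 : |t| ≤ X ^ (5 : ℝ) := by
          have : X ^ (5 : ℝ) = X ^ (5 : ℕ) := by
            rw [← Real.rpow_natCast]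
            norm_num
          rw [this]
          exact ht2
        have e6 : (H : ℝ) ^ δa ≤ X ^ (1 / 8 : ℝ) :=
          hHδ.trans (Real.rpow_le_rpow_of_exponent_le c1 hδa8)
        gcongr
      refine lt_of_le_of_lt e4 ?_
      have e7 : X ^ (1 / 8 : ℝ) * (X ^ (5 : ℝ) * (2 ^ j * X ^ (-(13 / 2) : ℝ))) =
          2 ^ j * X ^ (-(11 / 8) : ℝ) := by
        have : X ^ (-(11 / 8) : ℝ) = X ^ (1 / 8 : ℝ) * X ^ (5 : ℝ) * X ^ (-(13 / 2) : ℝ) := by
          rw [← Real.rpow_add hXp, ← Real.rpow_add hXp]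
          norm_num
        rw [this]
        ring
      rw [e7]
      have e8 : X ^ (-(11 / 8) : ℝ) ≤ X⁻¹ := by
        rw [← Real.rpow_neg_one]
        exact Real.rpow_le_rpow_of_exponent_le c1 (by norm_num)
      have e9 : (2 : ℝ) ^ j * X⁻¹ ≤ 1 / 4 := by
        rw [← div_eq_mul_inv, div_le_iff₀ hXp]
        have : (2 : ℝ) ^ (j + 2) = 4 * 2 ^ j := by ring
        linarith
      have := mul_le_mul_of_nonneg_left e8 (by positivity : (0 : ℝ) ≤ 2 ^ j)
      linarith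
    · have e1 : (H : ℝ) ^ (δa - j) ≤ (H : ℝ)⁻¹ := by
        rw [← Real.rpow_neg_one]
        exact Real.rpow_le_rpow_of_exponent_le (by linarith) (by linarith)
      have e2 : (H : ℝ)⁻¹ ≤ 1 / 5 := by
        rw [← one_div]
        exact one_div_le_one_div_of_le (by norm_num) hH5
      linarith
    · have e1 : X ^ (3 * δa) ≤ |t| * u ^ j := by
        have e2 : |t| * u ^ j * u = X ^ (-δa) := by
          rw [← htu, pow_succ]
          ring
        have e3 : X ^ (3 * δa) * u ≤ |t| * u ^ j * u := by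
          rw [e2]
          calc X ^ (3 * δa) * u ≤ X ^ (3 * δa) * X ^ (-(4 * δa)) := by gcongr
            _ = X ^ (-δa) := by
                rw [← Real.rpow_add hXp]
                congr 1
                ring
        exact le_of_mul_le_mul_right e3 hu0
      have e4 : X ^ (3 * δa) / 4 ^ j ≤ |t| * (q * (H : ℝ) / a₀) ^ j := by
        calc X ^ (3 * δa) / 4 ^ j ≤ |t| * u ^ j / 4 ^ j := by gcongr
          _ = |t| * (u / 4) ^ j := by rw [div_pow, mul_div_assoc]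
          _ ≤ _ := by gcongr
      refine lt_of_lt_of_le ?_ e4
      rw [lt_div_iff₀ (by positivity)]
      have e5 : X ^ (3 * δa) = X ^ (2 * δa) * X ^ δa := by
        rw [← Real.rpow_add hXp]
        congr 1
        ring
      rw [e5]
      have e6 : (0 : ℝ) < X ^ δa := by positivity
      calc (j : ℝ) * (H : ℝ) ^ δa * 4 ^ j ≤ (j : ℝ) * X ^ δa * 4 ^ j := by gcongr
        _ = ((j : ℝ) * 4 ^ j) * X ^ δa := by ring
        _ < X ^ (2 * δa) * X ^ δa := by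
            refine mul_lt_mul_of_pos_right ?_ e6
            linarith
  -- the number of blocks
  obtain ⟨K₀, hK₀⟩ : ∃ K₀ : ℕ, K₀ = (A - r) / q := ⟨_, rfl⟩
  obtain ⟨K₁, hK₁⟩ : ∃ K₁ : ℕ, K₁ = (A' - r) / q := ⟨_, rfl⟩
  have hn : K₁ ≤ K₀ + ((K₁ - K₀) / H + 1) * H := by
    have := Nat.div_add_mod (K₁ - K₀) H
    have h2 := Nat.mod_lt (K₁ - K₀) hH0
    rw [add_mul, one_mul, mul_comm ((K₁ - K₀) / H)]
    omega
  have hfin := IP1.blocks (fun k => ee (-(t * Real.log ((r + q * k : ℕ) : ℝ)))) H M hM0 K₁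
    ((K₁ - K₀) / H + 1) K₀ (by
      intro k₀ H' a b c
      exact hblock k₀ H' (by rw [← hK₀]; exact a) (by rw [← hK₁]; exact b) c) hn
  rw [← hK₀, ← hK₁]
  refine hfin.trans ?_
  have hcount : (((K₁ - K₀) / H + 1 : ℕ) : ℝ) ≤ 3 * (A / q) / H := by
    have e1 : (((K₁ - K₀) / H : ℕ) : ℝ) ≤ ((K₁ - K₀ : ℕ) : ℝ) / H := Nat.cast_div_le
    have e2 : q * (K₁ - K₀) ≤ A + q := by
      have a1 : q * K₁ ≤ A' - r := by
        rw [hK₁]
        exact Nat.mul_div_le _ _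
      have a2 := Nat.div_add_mod (A - r) q
      have a3 := Nat.mod_lt (A - r) hq
      rw [← hK₀] at a2
      rw [Nat.mul_sub]
      omega
    have e3 : ((K₁ - K₀ : ℕ) : ℝ) ≤ A / q + 1 := by
      have e4 : (q : ℝ) * ((K₁ - K₀ : ℕ) : ℝ) ≤ A + q := by exact_mod_cast e2
      have e5 : (A : ℝ) / q + 1 = (A + q) / q := by field_simp
      rw [e5, le_div_iff₀ hq0]
      linarith
    have e6 : 1 ≤ (A / q : ℝ) / H := by
      rw [le_div_iff₀ hHp]
      linarith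
    have e7 : (1 : ℝ) / H ≤ 1 := by
      rw [div_le_one hHp]
      linarith
    push_cast
    calc (((K₁ - K₀) / H : ℕ) : ℝ) + 1 ≤ (A / q + 1) / H + 1 := by
          have := e1.trans (div_le_div_of_nonneg_right e3 hHp.le)
          linarith
      _ = (A / q : ℝ) / H + 1 / H + 1 := by ring
      _ ≤ (A / q : ℝ) / H + (A / q : ℝ) / H + (A / q : ℝ) / H := by linarith
      _ = 3 * (A / q) / H := by ring
  have hHW : (H : ℝ) ^ (-δW) ≤ 1 / 6 * X ^ (-δw) := by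
    have e1 : (H : ℝ) ^ (-δW) ≤ (X ^ (3 * ε₁ / 20)) ^ (-δW) :=
      Real.rpow_le_rpow_of_nonpos (by positivity) hHX (by linarith)
    have e2 : (X ^ (3 * ε₁ / 20)) ^ (-δW) = X ^ (-(ε₁ * δW / 20)) * X ^ (-(ε₁ * δW / 10)) := by
      rw [← Real.rpow_mul hXp.le, ← Real.rpow_add hXp]
      congr 1
      ring
    have e3 : X ^ (-(ε₁ * δW / 20)) ≤ 1 / 6 := by
      rw [Real.rpow_neg hXp.le, ← one_div]
      exact one_div_le_one_div_of_le (by norm_num) c7
    have e4 : X ^ (-(ε₁ * δW / 10)) ≤ X ^ (-δw) :=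
      Real.rpow_le_rpow_of_exponent_le c1 (by linarith)
    rw [e2] at e1
    refine e1.trans ?_
    gcongr
  have hEW : 14 * E ≤ 1 / 6 * X ^ (-δw) := by
    have e1 : X ^ (-δa) = X ^ (-(δa / 2)) * X ^ (-(δa / 2)) := by
      rw [← Real.rpow_add hXp]
      congr 1
      ring
    have e2 : 84 * 2 ^ (j + 1) * X ^ (-(δa / 2)) ≤ 1 := by
      rw [Real.rpow_neg hXp.le, ← div_eq_mul_inv, div_le_one (by positivity)]
      exact c8
    have e4 : X ^ (-(δa / 2)) ≤ X ^ (-δw) :=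
      Real.rpow_le_rpow_of_exponent_le c1 (by linarith)
    rw [hE, e1]
    calc 14 * (2 ^ (j + 1) * (X ^ (-(δa / 2)) * X ^ (-(δa / 2))))
        = 1 / 6 * ((84 * 2 ^ (j + 1) * X ^ (-(δa / 2))) * X ^ (-(δa / 2))) := by ring
      _ ≤ 1 / 6 * (1 * X ^ (-δw)) := by gcongr
      _ = _ := by ring
  have hMH : M = H * ((H : ℝ) ^ (-δW) + 14 * E) := by
    have : (H : ℝ) ^ (1 - δW) = H * (H : ℝ) ^ (-δW) := by
      rw [sub_eq_add_neg, Real.rpow_add hHp, Real.rpow_one]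
    rw [hM, this]
    ring
  have hXw : (0 : ℝ) < X ^ (-δw) := by positivity
  calc (((K₁ - K₀) / H + 1 : ℕ) : ℝ) * M ≤ 3 * (A / q) / H * M :=
        mul_le_mul_of_nonneg_right hcount hM0
    _ = 3 * (A / q) * ((H : ℝ) ^ (-δW) + 14 * E) := by
        rw [hMH]
        field_simp
    _ ≤ 3 * A * (1 / 6 * X ^ (-δw) + 1 / 6 * X ^ (-δw)) := by
        have : (A : ℝ) / q ≤ A := div_le_self hAp.le hqr
        gcongr
    _ = A * X ^ (-δw) := by ring

end Pool.Agent.Work.MP_122e00_nt.TS
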