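import Mathlib
import Pool.Agent.Work.MP_122e00_nt.TS.Stmts5

/-!
# Thin shifts, item P2: the Fourier transform of the triangle function
-/

namespace Pool.Agent.Work.MP_122e00_nt.TS

open MeasureTheory

namespace IP2

/-- the triangle function -/
noncomputable def tri (η v : ℝ) : ℝ := max (η - |v|) 0

/-- the square of the kernel -/
noncomputable def K (η t : ℝ) : ℝ := (Real.sin (Real.pi * η * t) / (Real.pi * t)) ^ 2

theorem K_bound {η : ℝ} (t : ℝ) : K η t ≤ (η ^ 2 + 1) * (1 + t ^ 2)⁻¹ := by
  have hpi := Real.pi_gt_three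
  unfold K
  have h1 : (0 : ℝ) < 1 + t ^ 2 := by positivity
  rw [le_mul_inv_iff₀ h1]
  by_cases ht : t = 0
  · subst ht
    simp
    positivity
  have h2 : (Real.sin (Real.pi * η * t)) ^ 2 ≤ (Real.pi * η * t) ^ 2 := by
    rw [sq_le_sq]
    exact Real.abs_sin_le_abs
  have h3 : (Real.sin (Real.pi * η * t)) ^ 2 ≤ 1 := Real.sin_sq_le_one _
  have hp : (0 : ℝ) < (Real.pi * t) ^ 2 := by positivity
  rw [div_pow, div_mul_eq_mul_div, div_le_iff₀ hp]
  have h4 : t ^ 2 ≤ (Real.pi * t) ^ 2 := by
    rw [mul_pow]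
    nlinarith [sq_nonneg t, sq_nonneg (Real.pi - 1)]
  nlinarith [sq_nonneg t]

theorem K_int {η : ℝ} : Integrable (K η) := by
  refine Integrable.mono' (integrable_inv_one_add_sq.const_mul (η ^ 2 + 1)) ?_ ?_
  · unfold K
    exact Measurable.aestronglyMeasurable (by fun_prop)
  · refine Filter.Eventually.of_forall fun t => ?_
    rw [Real.norm_eq_abs, abs_of_nonneg (by unfold K; positivity)]
    exact K_bound t

theorem tri_cont (η : ℝ) : Continuous (tri η) := by
  unfold tri
  fun_prop

theorem tri_zero {η v : ℝ} (h : η ≤ |v|) : tri η v = 0 := by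
  unfold tri
  exact max_eq_right (by linarith)

theorem tri_supp (η : ℝ) : HasCompactSupport (tri η) := by
  refine HasCompactSupport.of_support_subset_isCompact (isCompact_Icc (a := -η) (b := η)) ?_
  intro v hv
  rw [Function.mem_support] at hv
  have h : |v| < η := by
    by_contra h
    exact hv (tri_zero (not_lt.mp h))
  exact ⟨(abs_lt.mp h).1.le, (abs_lt.mp h).2.le⟩

theorem tri_cos {η : ℝ} (hη : 0 < η) {w : ℝ} (hw : w ≠ 0) :
    ∫ v : ℝ, tri η v * Real.cos (2 * Real.pi * v * w) = K η w := by
  have hpi := Real.pi_pos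
  have e1 : ∀ v : ℝ, tri η v * Real.cos (2 * Real.pi * v * w) =
      (fun u : ℝ => max (η - u) 0 * Real.cos (2 * Real.pi * u * w)) |v| := by
    intro v
    unfold tri
    change _ = max (η - |v|) 0 * Real.cos (2 * Real.pi * |v| * w)
    congr 1
    rcases abs_cases v with ⟨h, _⟩ | ⟨h, _⟩
    · rw [h]
    · rw [h, ← Real.cos_neg]
      congr 1
      ring
  have e0 : ∫ v : ℝ, tri η v * Real.cos (2 * Real.pi * v * w) =
      2 * ∫ u in Set.Ioi (0 : ℝ), max (η - u) 0 * Real.cos (2 * Real.pi * u * w) := by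
    rw [← integral_comp_abs (f := fun u : ℝ => max (η - u) 0 * Real.cos (2 * Real.pi * u * w))]
    exact integral_congr_ae (Filter.Eventually.of_forall e1)
  rw [e0]
  have e2 : ∫ u in Set.Ioi (0 : ℝ), max (η - u) 0 * Real.cos (2 * Real.pi * u * w) =
      ∫ u in (0 : ℝ)..η, (η - u) * Real.cos (2 * Real.pi * u * w) := by
    rw [intervalIntegral.integral_of_le hη.le]
    have s1 : ∫ u in Set.Ioi (0 : ℝ), max (η - u) 0 * Real.cos (2 * Real.pi * u * w) =
        ∫ u in Set.Ioc (0 : ℝ) η, max (η - u) 0 * Real.cos (2 * Real.pi * u * w) := by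
      refine setIntegral_eq_of_subset_of_forall_diff_eq_zero measurableSet_Ioi
        (fun x hx => hx.1) ?_
      intro x hx
      have hx2 : η < x := by
        by_contra h
        exact hx.2 ⟨hx.1, not_lt.mp h⟩
      rw [max_eq_right (by linarith), zero_mul]
    rw [s1]
    refine setIntegral_congr_fun measurableSet_Ioc fun u hu => ?_
    change max (η - u) 0 * _ = _
    rw [max_eq_left (by linarith [hu.2])]
  rw [e2]
  set c : ℝ := 2 * Real.pi * w with hc
  have hc0 : c ≠ 0 := by
    rw [hc]
    positivity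
  have e3 : ∫ u in (0 : ℝ)..η, (η - u) * Real.cos (2 * Real.pi * u * w) =
      (1 - Real.cos (c * η)) / c ^ 2 := by
    have hd : ∀ u ∈ Set.uIcc 0 η, HasDerivAt
        (fun u => (η - u) * Real.sin (c * u) / c - Real.cos (c * u) / c ^ 2)
        ((η - u) * Real.cos (2 * Real.pi * u * w)) u := by
      intro u _
      have d1 : HasDerivAt (fun u : ℝ => c * u) c u := by
        simpa using (hasDerivAt_id u).const_mul c
      have d2 : HasDerivAt (fun u : ℝ => η - u) (-1) u := by
        simpa using (hasDerivAt_id u).const_sub η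
      have d3 := ((d2.mul d1.sin).div_const c).sub (d1.cos.div_const (c ^ 2))
      refine d3.congr_deriv ?_
      have h5 : 2 * Real.pi * u * w = c * u := by rw [hc]; ring
      rw [h5]
      field_simp
      ring
    rw [intervalIntegral.integral_eq_sub_of_hasDerivAt hd (by
      apply Continuous.intervalIntegrable
      fun_prop)]
    simp
    ring
  rw [e3]
  unfold K
  have h6 : Real.cos (c * η) = 1 - 2 * Real.sin (Real.pi * η * w) ^ 2 := by
    have h7 : c * η = 2 * (Real.pi * η * w) := by rw [hc]; ring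
    rw [h7, Real.cos_two_mul, Real.cos_sq']
    ring
  rw [h6, hc]
  field_simp
  ring

theorem tri_sin (η w : ℝ) : ∫ v : ℝ, tri η v * Real.sin (2 * Real.pi * v * w) = 0 := by
  have h := integral_neg_eq_self (fun v : ℝ => tri η v * Real.sin (2 * Real.pi * v * w)) volume
  have h2 : ∫ v : ℝ, tri η (-v) * Real.sin (2 * Real.pi * (-v) * w) =
      -∫ v : ℝ, tri η v * Real.sin (2 * Real.pi * v * w) := by
    rw [← integral_neg]
    congr 1
    funext v
    have h3 : 2 * Real.pi * (-v) * w = -(2 * Real.pi * v * w) := by ring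
    unfold tri
    rw [h3, Real.sin_neg, abs_neg]
    ring
  rw [h2] at h
  linarith

theorem int_cos (η w : ℝ) : Integrable (fun v : ℝ => tri η v * Real.cos (2 * Real.pi * v * w)) := by
  refine Continuous.integrable_of_hasCompactSupport ?_ ((tri_supp η).mul_right)
  have := tri_cont η
  fun_prop

theorem int_sin (η w : ℝ) : Integrable (fun v : ℝ => tri η v * Real.sin (2 * Real.pi * v * w)) := by
  refine Continuous.integrable_of_hasCompactSupport ?_ ((tri_supp η).mul_right)
  have := tri_cont η
  fun_prop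

/-- complex form -/
noncomputable def f (η : ℝ) (v : ℝ) : ℂ := (tri η v : ℂ)

open FourierTransform in
theorem four {η : ℝ} (hη : 0 < η) {w : ℝ} (hw : w ≠ 0) : 𝓕 (f η) w = (K η w : ℂ) := by
  rw [Real.fourier_real_eq_integral_exp_smul]
  have h1 : ∀ v : ℝ, Complex.exp (((-2 * Real.pi * v * w : ℝ) : ℂ) * Complex.I) • f η v =
      ((tri η v * Real.cos (2 * Real.pi * v * w) : ℝ) : ℂ) -
        ((tri η v * Real.sin (2 * Real.pi * v * w) : ℝ) : ℂ) * Complex.I := by
    intro v
    have h2 : (((-2 * Real.pi * v * w : ℝ) : ℂ)) = -(((2 * Real.pi * v * w : ℝ)) : ℂ) := by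
      push_cast
      ring
    rw [h2, Complex.exp_mul_I, Complex.cos_neg, Complex.sin_neg, ← Complex.ofReal_cos,
      ← Complex.ofReal_sin, smul_eq_mul]
    unfold f
    push_cast
    ring
  simp_rw [h1]
  rw [integral_sub (int_cos η w).ofReal ((int_sin η w).ofReal.mul_const _),
    integral_mul_const, integral_complex_ofReal, integral_complex_ofReal, tri_cos hη hw, tri_sin]
  simp

theorem f_cont (η : ℝ) : Continuous (f η) := Complex.continuous_ofReal.comp (tri_cont η)

theorem f_int (η : ℝ) : Integrable (f η) :=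
  ((tri_cont η).integrable_of_hasCompactSupport (tri_supp η)).ofReal

end IP2

open IP2 in
open FourierTransform in
theorem prP2 : tsP2 := by
  intro η hη
  refine ⟨K_int, fun v => ?_⟩
  have hae : (𝓕 (f η)) =ᵐ[volume] fun w => (K η w : ℂ) := by
    have h0 : ∀ᵐ w : ℝ ∂volume, w ≠ 0 := by
      have := (Set.countable_singleton (0 : ℝ)).ae_notMem volume
      filter_upwards [this] with w hw
      exact hw
    filter_upwards [h0] with w hw
    exact four hη hw
  have hfi : Integrable (𝓕 (f η)) := (K_int.ofReal).congr hae.symm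
  have hinv := congrFun ((f_cont η).fourierInv_fourier_eq (f_int η) hfi) v
  rw [Real.fourierInv_eq'] at hinv
  have h1 : ∫ w : ℝ, Complex.exp (((2 * Real.pi * inner ℝ w v : ℝ) : ℂ) * Complex.I) •
      𝓕 (f η) w = ∫ w : ℝ, Complex.exp (((2 * Real.pi * inner ℝ w v : ℝ) : ℂ) * Complex.I) •
        (K η w : ℂ) := by
    refine integral_congr_ae ?_
    filter_upwards [hae] with w hw
    rw [hw]
  rw [h1] at hinv
  have hKc : Integrable (fun w : ℝ => K η w * Real.cos (2 * Real.pi * w * v)) := by
    refine (K_int (η := η)).mono ?_ (Filter.Eventually.of_forall fun w => ?_)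
    · unfold K
      exact Measurable.aestronglyMeasurable (by fun_prop)
    · rw [norm_mul, Real.norm_eq_abs (Real.cos _)]
      exact mul_le_of_le_one_right (norm_nonneg _) (Real.abs_cos_le_one _)
  have hKs : Integrable (fun w : ℝ => K η w * Real.sin (2 * Real.pi * w * v)) := by
    refine (K_int (η := η)).mono ?_ (Filter.Eventually.of_forall fun w => ?_)
    · unfold K
      exact Measurable.aestronglyMeasurable (by fun_prop)
    · rw [norm_mul, Real.norm_eq_abs (Real.sin _)]
      exact mul_le_of_le_one_right (norm_nonneg _) (Real.abs_sin_le_one _)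
  have h2 : ∀ w : ℝ, Complex.exp (((2 * Real.pi * inner ℝ w v : ℝ) : ℂ) * Complex.I) •
      (K η w : ℂ) = ((K η w * Real.cos (2 * Real.pi * w * v) : ℝ) : ℂ) +
        ((K η w * Real.sin (2 * Real.pi * w * v) : ℝ) : ℂ) * Complex.I := by
    intro w
    have e1 : inner ℝ w v = w * v := by simp [mul_comm]
    have e2 : 2 * Real.pi * inner ℝ w v = 2 * Real.pi * w * v := by rw [e1]; ring
    rw [e2, Complex.exp_mul_I, ← Complex.ofReal_cos, ← Complex.ofReal_sin, smul_eq_mul]
    push_cast
    ring
  simp_rw [h2] at hinv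
  rw [integral_add hKc.ofReal (hKs.ofReal.mul_const _), integral_mul_const,
    integral_complex_ofReal, integral_complex_ofReal] at hinv
  have h3 := congrArg Complex.re hinv
  rw [Complex.add_re, Complex.ofReal_re, Complex.re_ofReal_mul, Complex.I_re, mul_zero,
    add_zero] at h3
  exact h3

end Pool.Agent.Work.MP_122e00_nt.TS
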