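import Pool.Agent.Work.MP_122e00_nt.TS.Stmts5

/-!
# Thin shifts, item P3: Plancherel for windows (helper72)
-/

set_option autoImplicit false

namespace Pool.Agent.Work.MP_122e00_nt.TS

open Finset Filter Topology ArithmeticFunction MeasureTheory
open scoped ArithmeticFunction.zeta ArithmeticFunction.Moebius

namespace IP3

/-- the indicator function of `[0, η)` -/
noncomputable def chi (η u : ℝ) : ℝ := if 0 ≤ u ∧ u < η then 1 else 0

theorem psi_eq (η v : ℝ) : psi η v = chi η v - chi η (v - η) := by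
  unfold psi chi
  by_cases h1 : 0 ≤ v ∧ v < η
  · have h2 : ¬ (0 ≤ v - η ∧ v - η < η) := by
      rintro ⟨h, -⟩
      linarith [h1.2]
    rw [if_pos h1, if_pos h1, if_neg h2]
    norm_num
  · by_cases h3 : η ≤ v ∧ v < 2 * η
    · have h2 : 0 ≤ v - η ∧ v - η < η := ⟨by linarith [h3.1], by linarith [h3.2]⟩
      rw [if_neg h1, if_neg h1, if_pos h3, if_pos h2]
      norm_num
    · have h2 : ¬ (0 ≤ v - η ∧ v - η < η) := by
        rintro ⟨h, h'⟩
        exact h3 ⟨by linarith, by linarith⟩
      rw [if_neg h1, if_neg h1, if_neg h3, if_neg h2]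
      norm_num

theorem chi_mul (η a b u : ℝ) : chi η (u - a) * chi η (u - b) =
    (Set.Ico (max a b) (min a b + η)).indicator (1 : ℝ → ℝ) u := by
  have h : u ∈ Set.Ico (max a b) (min a b + η) ↔
      (0 ≤ u - a ∧ u - a < η) ∧ (0 ≤ u - b ∧ u - b < η) := by
    rw [Set.mem_Ico, max_le_iff, ← sub_lt_iff_lt_add, lt_min_iff]
    constructor
    · rintro ⟨⟨h1, h2⟩, h3, h4⟩
      exact ⟨⟨by linarith, by linarith⟩, by linarith, by linarith⟩
    · rintro ⟨⟨h1, h2⟩, h3, h4⟩
      exact ⟨⟨by linarith, by linarith⟩, by linarith, by linarith⟩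
  unfold chi
  by_cases h1 : 0 ≤ u - a ∧ u - a < η
  · by_cases h2 : 0 ≤ u - b ∧ u - b < η
    · rw [if_pos h1, if_pos h2, Set.indicator_of_mem (h.2 ⟨h1, h2⟩)]
      simp
    · rw [if_pos h1, if_neg h2, Set.indicator_of_notMem (fun h3 => h2 (h.1 h3).2)]
      simp
  · rw [if_neg h1, Set.indicator_of_notMem (fun h3 => h1 (h.1 h3).1)]
    simp

theorem chi_integrable (η a b : ℝ) :
    Integrable (fun u : ℝ => chi η (u - a) * chi η (u - b)) := by
  have h : (fun u : ℝ => chi η (u - a) * chi η (u - b)) =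
      (Set.Ico (max a b) (min a b + η)).indicator (1 : ℝ → ℝ) := by
    funext u
    exact chi_mul η a b u
  rw [h, integrable_indicator_iff measurableSet_Ico]
  exact integrableOn_const (by simp)

theorem chi_int (η a b : ℝ) :
    ∫ u : ℝ, chi η (u - a) * chi η (u - b) = max (η - |a - b|) 0 := by
  have h : (fun u : ℝ => chi η (u - a) * chi η (u - b)) =
      (Set.Ico (max a b) (min a b + η)).indicator (1 : ℝ → ℝ) := by
    funext u
    exact chi_mul η a b u
  rw [h, integral_indicator_one measurableSet_Ico, Real.volume_real_Ico]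
  congr 1
  rw [← max_sub_min_eq_abs, max_comm b a, min_comm b a]
  ring

theorem int4 {f g h k : ℝ → ℝ} (hf : Integrable f) (hg : Integrable g) (hh : Integrable h)
    (hk : Integrable k) :
    ∫ u, (f u - g u - h u + k u) = (∫ u, f u) - (∫ u, g u) - (∫ u, h u) + ∫ u, k u := by
  have e1 : ∫ u, (f u - g u) = (∫ u, f u) - ∫ u, g u := integral_sub hf hg
  have i1 : Integrable (fun u => f u - g u) := hf.sub hg
  have e2 : ∫ u, ((f u - g u) - h u) = (∫ u, (f u - g u)) - ∫ u, h u := integral_sub i1 hh
  have i2 : Integrable (fun u => (f u - g u) - h u) := i1.sub hh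
  have e3 : ∫ u, (((f u - g u) - h u) + k u) = (∫ u, ((f u - g u) - h u)) + ∫ u, k u :=
    integral_add i2 hk
  rw [e3, e2, e1]

theorem int3 {f g h : ℝ → ℝ} (hf : Integrable f) (hg : Integrable g) (hh : Integrable h) :
    ∫ u, (f u - g u - h u) = (∫ u, f u) - (∫ u, g u) - ∫ u, h u := by
  have e1 : ∫ u, (f u - g u) = (∫ u, f u) - ∫ u, g u := integral_sub hf hg
  have i1 : Integrable (fun u => f u - g u) := hf.sub hg
  have e2 : ∫ u, ((f u - g u) - h u) = (∫ u, (f u - g u)) - ∫ u, h u := integral_sub i1 hh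
  rw [e2, e1]

theorem psi_mul (η x y u : ℝ) : psi η (u - x) * psi η (u - y) =
    chi η (u - x) * chi η (u - y) - chi η (u - x) * chi η (u - (y + η)) -
      chi η (u - (x + η)) * chi η (u - y) + chi η (u - (x + η)) * chi η (u - (y + η)) := by
  rw [psi_eq η (u - x), psi_eq η (u - y), show u - x - η = u - (x + η) by ring,
    show u - y - η = u - (y + η) by ring]
  ring

theorem psi_integrable (η x y : ℝ) :
    Integrable (fun u : ℝ => psi η (u - x) * psi η (u - y)) := by
  have h : (fun u : ℝ => psi η (u - x) * psi η (u - y)) = fun u =>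
      chi η (u - x) * chi η (u - y) - chi η (u - x) * chi η (u - (y + η)) -
      chi η (u - (x + η)) * chi η (u - y) + chi η (u - (x + η)) * chi η (u - (y + η)) := by
    funext u
    exact psi_mul η x y u
  rw [h]
  exact (((chi_integrable η x y).sub (chi_integrable η x (y + η))).sub
    (chi_integrable η (x + η) y)).add (chi_integrable η (x + η) (y + η))

theorem psi_int (η x y : ℝ) :
    ∫ u : ℝ, psi η (u - x) * psi η (u - y) =
      2 * max (η - |x - y|) 0 - max (η - |x - y - η|) 0 - max (η - |x - y + η|) 0 := by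
  have h : (fun u : ℝ => psi η (u - x) * psi η (u - y)) = fun u =>
      chi η (u - x) * chi η (u - y) - chi η (u - x) * chi η (u - (y + η)) -
      chi η (u - (x + η)) * chi η (u - y) + chi η (u - (x + η)) * chi η (u - (y + η)) := by
    funext u
    exact psi_mul η x y u
  rw [h, int4 (chi_integrable η x y) (chi_integrable η x (y + η)) (chi_integrable η (x + η) y)
    (chi_integrable η (x + η) (y + η)), chi_int, chi_int, chi_int, chi_int, show x - (y + η) = x - y - η by ring,
    show x + η - y = x - y + η by ring, show x + η - (y + η) = x - y by ring]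
  ring

theorem nsq {ι : Type} (I : Finset ι) (z : ι → ℂ) :
    ‖∑ i ∈ I, z i‖ ^ 2 = ∑ i ∈ I, ∑ j ∈ I, (z i * (starRingEnd ℂ) (z j)).re := by
  have h : ((‖∑ i ∈ I, z i‖ ^ 2 : ℝ) : ℂ) =
      (∑ i ∈ I, z i) * (starRingEnd ℂ) (∑ i ∈ I, z i) := by
    rw [Complex.mul_conj, Complex.normSq_eq_norm_sq]
  have h2 := congrArg Complex.re h
  rw [Complex.ofReal_re, map_sum, Finset.sum_mul_sum, Complex.re_sum] at h2
  rw [h2]
  exact Finset.sum_congr rfl fun i _ => Complex.re_sum _ _

theorem ee_re (x : ℝ) : (ee x).re = Real.cos (2 * Real.pi * x) := by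
  unfold ee
  rw [Complex.exp_ofReal_mul_I_re]

theorem ee_im (x : ℝ) : (ee x).im = Real.sin (2 * Real.pi * x) := by
  unfold ee
  rw [Complex.exp_ofReal_mul_I_im]

theorem pair (c d : ℂ) (t x y : ℝ) :
    (c * ee (-(t * x)) * (starRingEnd ℂ) (d * ee (-(t * y)))).re =
      (c * (starRingEnd ℂ) d).re * Real.cos (2 * Real.pi * t * (x - y)) +
        (c * (starRingEnd ℂ) d).im * Real.sin (2 * Real.pi * t * (x - y)) := by
  have h1 : 2 * Real.pi * t * (x - y) = 2 * Real.pi * (t * x) - 2 * Real.pi * (t * y) := by ring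
  have h2 : 2 * Real.pi * -(t * x) = -(2 * Real.pi * (t * x)) := by ring
  have h3 : 2 * Real.pi * -(t * y) = -(2 * Real.pi * (t * y)) := by ring
  rw [h1, Real.cos_sub, Real.sin_sub]
  simp only [map_mul, Complex.mul_re, Complex.mul_im, Complex.conj_re, Complex.conj_im, ee_re,
    ee_im, h2, h3, Real.cos_neg, Real.sin_neg]
  ring

theorem bdd_int {w g : ℝ → ℝ} (hw : Integrable w) (hg : Continuous g) (C : ℝ)
    (hC : ∀ t, |g t| ≤ C) : Integrable (fun t => w t * g t) := by
  refine (hw.norm.mul_const C).mono' (hw.aestronglyMeasurable.mul hg.aestronglyMeasurable)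
    (Filter.Eventually.of_forall fun t => ?_)
  rw [norm_mul]
  exact mul_le_mul_of_nonneg_left (hC t) (norm_nonneg _)

end IP3

open IP3 in
/-- Plancherel for windows -/
theorem prP3 (hP2 : tsP2) : tsP3 := by
  intro ι I lam c η hη
  obtain ⟨hw, hcos⟩ := hP2 η hη
  set w : ℝ → ℝ := fun t => (Real.sin (Real.pi * η * t) / (Real.pi * t)) ^ 2 with hwdef
  set W : ℝ → ℝ := fun t => w t * (4 * Real.sin (Real.pi * η * t) ^ 2) with hWdef
  have hs1 : ∀ t : ℝ, |Real.sin (Real.pi * η * t)| ≤ 1 := fun t => Real.abs_sin_le_one _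
  have hWc : ∀ v : ℝ, Integrable (fun t => W t * Real.cos (2 * Real.pi * t * v)) := by
    intro v
    have h : (fun t => W t * Real.cos (2 * Real.pi * t * v)) = fun t =>
        w t * (4 * Real.sin (Real.pi * η * t) ^ 2 * Real.cos (2 * Real.pi * t * v)) := by
      funext t
      simp only [hWdef]
      ring
    rw [h]
    refine bdd_int hw (by fun_prop) 4 fun t => ?_
    rw [abs_mul, abs_mul, abs_pow]
    have h1 := hs1 t
    have h2 := Real.abs_cos_le_one (2 * Real.pi * t * v)
    have h3 : |Real.sin (Real.pi * η * t)| ^ 2 ≤ 1 := by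
      have := abs_nonneg (Real.sin (Real.pi * η * t))
      nlinarith
    have h4 : |(4 : ℝ)| = 4 := by norm_num
    rw [h4]
    have h5 := abs_nonneg (Real.cos (2 * Real.pi * t * v))
    have h6 : 0 ≤ |Real.sin (Real.pi * η * t)| ^ 2 := by positivity
    nlinarith
  have hWs : ∀ v : ℝ, Integrable (fun t => W t * Real.sin (2 * Real.pi * t * v)) := by
    intro v
    have h : (fun t => W t * Real.sin (2 * Real.pi * t * v)) = fun t =>
        w t * (4 * Real.sin (Real.pi * η * t) ^ 2 * Real.sin (2 * Real.pi * t * v)) := by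
      funext t
      simp only [hWdef]
      ring
    rw [h]
    refine bdd_int hw (by fun_prop) 4 fun t => ?_
    rw [abs_mul, abs_mul, abs_pow]
    have h1 := hs1 t
    have h2 := Real.abs_sin_le_one (2 * Real.pi * t * v)
    have h3 : |Real.sin (Real.pi * η * t)| ^ 2 ≤ 1 := by
      have := abs_nonneg (Real.sin (Real.pi * η * t))
      nlinarith
    have h4 : |(4 : ℝ)| = 4 := by norm_num
    rw [h4]
    have h5 := abs_nonneg (Real.sin (2 * Real.pi * t * v))
    have h6 : 0 ≤ |Real.sin (Real.pi * η * t)| ^ 2 := by positivity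
    nlinarith
  have hwc : ∀ v : ℝ, Integrable (fun t => w t * Real.cos (2 * Real.pi * t * v)) := fun v =>
    bdd_int hw (by fun_prop) 1 fun t => Real.abs_cos_le_one _
  -- the sine integral vanishes
  have hsin : ∀ v : ℝ, ∫ t, W t * Real.sin (2 * Real.pi * t * v) = 0 := by
    intro v
    have h := integral_neg_eq_self (fun t => W t * Real.sin (2 * Real.pi * t * v)) volume
    have h2 : (fun t : ℝ => W (-t) * Real.sin (2 * Real.pi * (-t) * v)) =
        fun t => -(W t * Real.sin (2 * Real.pi * t * v)) := by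
      funext t
      simp only [hWdef, hwdef]
      rw [show Real.pi * η * -t = -(Real.pi * η * t) by ring,
        show 2 * Real.pi * -t * v = -(2 * Real.pi * t * v) by ring, Real.sin_neg, Real.sin_neg,
        show Real.pi * -t = -(Real.pi * t) by ring, neg_div_neg_eq]
      ring
    rw [h2, integral_neg] at h
    linarith
  -- the cosine integral
  have hG : ∀ v : ℝ, ∫ t, W t * Real.cos (2 * Real.pi * t * v) =
      2 * max (η - |v|) 0 - max (η - |v - η|) 0 - max (η - |v + η|) 0 := by
    intro v
    have h : (fun t => W t * Real.cos (2 * Real.pi * t * v)) = fun t =>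
        2 * (w t * Real.cos (2 * Real.pi * t * v)) - w t * Real.cos (2 * Real.pi * t * (v - η)) -
          w t * Real.cos (2 * Real.pi * t * (v + η)) := by
      funext t
      have h1 : 2 * Real.pi * t * (v - η) = 2 * Real.pi * t * v - 2 * (Real.pi * η * t) := by ring
      have h2 : 2 * Real.pi * t * (v + η) = 2 * Real.pi * t * v + 2 * (Real.pi * η * t) := by ring
      rw [h1, h2, Real.cos_sub, Real.cos_add, Real.cos_two_mul, Real.cos_sq']
      simp only [hWdef]
      ring
    rw [h, int3 ((hwc v).const_mul 2) (hwc (v - η)) (hwc (v + η)), integral_const_mul]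
    rw [hcos v, hcos (v - η), hcos (v + η)]
  -- expansion of the right side
  have hR : (fun t : ℝ => (Real.sin (Real.pi * η * t) / (Real.pi * t)) ^ 2 *
      (4 * Real.sin (Real.pi * η * t) ^ 2) * ‖∑ i ∈ I, c i * ee (-(t * lam i))‖ ^ 2) =
      fun t => ∑ i ∈ I, ∑ j ∈ I, ((c i * (starRingEnd ℂ) (c j)).re *
        (W t * Real.cos (2 * Real.pi * t * (lam i - lam j))) +
        (c i * (starRingEnd ℂ) (c j)).im *
        (W t * Real.sin (2 * Real.pi * t * (lam i - lam j)))) := by
    funext t
    rw [nsq, Finset.mul_sum]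
    refine Finset.sum_congr rfl fun i _ => ?_
    rw [Finset.mul_sum]
    refine Finset.sum_congr rfl fun j _ => ?_
    rw [pair]
    simp only [hWdef, hwdef]
    ring
  have hint : ∀ i j : ι, Integrable (fun t => (c i * (starRingEnd ℂ) (c j)).re *
      (W t * Real.cos (2 * Real.pi * t * (lam i - lam j))) +
      (c i * (starRingEnd ℂ) (c j)).im *
      (W t * Real.sin (2 * Real.pi * t * (lam i - lam j)))) := fun i j =>
    ((hWc _).const_mul _).add ((hWs _).const_mul _)
  have hL : (fun u : ℝ => ‖∑ i ∈ I, c i * ((psi η (u - lam i) : ℝ) : ℂ)‖ ^ 2) =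
      fun u => ∑ i ∈ I, ∑ j ∈ I, (c i * (starRingEnd ℂ) (c j)).re *
        (psi η (u - lam i) * psi η (u - lam j)) := by
    funext u
    rw [nsq]
    refine Finset.sum_congr rfl fun i _ => Finset.sum_congr rfl fun j _ => ?_
    rw [map_mul, Complex.conj_ofReal, show c i * ((psi η (u - lam i) : ℝ) : ℂ) *
      ((starRingEnd ℂ) (c j) * ((psi η (u - lam j) : ℝ) : ℂ)) =
      (c i * (starRingEnd ℂ) (c j)) * ((psi η (u - lam i) * psi η (u - lam j) : ℝ) : ℂ) by
        push_cast; ring, Complex.re_mul_ofReal]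
  refine ⟨?_, ?_⟩
  · rw [hR]
    exact integrable_finsetSum _ fun i _ => integrable_finsetSum _ fun j _ => hint i j
  · rw [hR, hL, integral_finsetSum _ fun i _ => integrable_finsetSum _ fun j _ =>
        (psi_integrable η (lam i) (lam j)).const_mul _,
      integral_finsetSum _ fun i _ => integrable_finsetSum _ fun j _ => hint i j]
    refine Finset.sum_congr rfl fun i _ => ?_
    rw [integral_finsetSum _ fun j _ => (psi_integrable η (lam i) (lam j)).const_mul _,
      integral_finsetSum _ fun j _ => hint i j]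
    refine Finset.sum_congr rfl fun j _ => ?_
    rw [integral_const_mul, psi_int η (lam i) (lam j),
      integral_add ((hWc _).const_mul _) ((hWs _).const_mul _), integral_const_mul,
      integral_const_mul, hsin, hG]
    ring

end Pool.Agent.Work.MP_122e00_nt.TS
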