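import Pool.Agent.Work.MP_122e00_nt.TS.Stmts5

/-!
# Thin shifts, item P5
-/

namespace Pool.Agent.Work.MP_122e00_nt.TS

open Finset Filter Topology ArithmeticFunction MeasureTheory

namespace IP5

theorem psi_eq (η : ℝ) (hη : 0 < η) (v : ℝ) :
    psi η v = (if 0 ≤ v then (1 : ℝ) else 0) - 2 * (if η ≤ v then 1 else 0) +
      (if 2 * η ≤ v then 1 else 0) := by
  unfold psi
  by_cases h0 : 0 ≤ v
  · by_cases h1 : v < η
    · rw [if_pos ⟨h0, h1⟩, if_pos h0, if_neg (not_le.2 h1), if_neg (by linarith)]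
      norm_num
    · have h1' : η ≤ v := not_lt.1 h1
      by_cases h2 : v < 2 * η
      · rw [if_neg (fun h => h1 h.2), if_pos ⟨h1', h2⟩, if_pos h0, if_pos h1',
          if_neg (not_le.2 h2)]
        norm_num
      · rw [if_neg (fun h => h1 h.2), if_neg (fun h => h2 h.2), if_pos h0, if_pos h1',
          if_pos (not_lt.1 h2)]
        norm_num
  · rw [if_neg (fun h => h0 h.1), if_neg (fun h => h0 (by linarith [h.1])), if_neg h0,
      if_neg (fun h => h0 (by linarith)), if_neg (fun h => h0 (by linarith))]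
    norm_num

/-- partial sums -/
noncomputable def G (c : ℕ → ℂ) (m : ℕ) : ℂ := ∑ n ∈ Finset.Ioc 0 m, c n

theorem sum_Ioc (c : ℕ → ℂ) {i j : ℕ} (h : i ≤ j) :
    ∑ n ∈ Finset.Ioc i j, c n = G c j - G c i := by
  unfold G
  rw [← Finset.sum_Ioc_consecutive c (Nat.zero_le i) h]
  ring

theorem G_sub_le (c : ℕ → ℂ) (D : ℝ) (hD : ∀ n, ‖c n‖ ≤ D) {i j : ℕ} (h : i ≤ j) :
    ‖G c j - G c i‖ ≤ D * ((j : ℝ) - i) := by
  rw [← sum_Ioc c h]
  calc ‖∑ n ∈ Finset.Ioc i j, c n‖ ≤ ∑ n ∈ Finset.Ioc i j, ‖c n‖ := norm_sum_le _ _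
    _ ≤ ∑ n ∈ Finset.Ioc i j, D := Finset.sum_le_sum fun n _ => hD n
    _ = D * ((j : ℝ) - i) := by
        rw [Finset.sum_const, Nat.card_Ioc, nsmul_eq_mul, Nat.cast_sub h]
        ring

theorem G_sub_abs (c : ℕ → ℂ) (D : ℝ) (hD : ∀ n, ‖c n‖ ≤ D) (i j : ℕ) :
    ‖G c j - G c i‖ ≤ D * |(j : ℝ) - i| := by
  rcases le_total i j with h | h
  · rw [abs_of_nonneg (sub_nonneg.2 (by exact_mod_cast h))]
    exact G_sub_le c D hD h
  · rw [abs_sub_comm, abs_of_nonneg (sub_nonneg.2 (by exact_mod_cast h)), norm_sub_rev]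
    exact G_sub_le c D hD h

theorem G_floor (c : ℕ → ℂ) (D : ℝ) (hD : ∀ n, ‖c n‖ ≤ D) (m : ℕ) (t : ℝ) (ht : 0 ≤ t) :
    ‖G c m - G c ⌊t⌋₊‖ ≤ D * (|(m : ℝ) - t| + 1) := by
  have hD0 : 0 ≤ D := (norm_nonneg _).trans (hD 0)
  refine (G_sub_abs c D hD _ _).trans (mul_le_mul_of_nonneg_left ?_ hD0)
  have h1 : |(m : ℝ) - ⌊t⌋₊| ≤ |(m : ℝ) - t| + |t - ⌊t⌋₊| := abs_sub_le _ _ _
  have h2 : |t - ⌊t⌋₊| ≤ 1 := by
    rw [abs_le]
    constructor
    · linarith [Nat.floor_le ht]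
    · linarith [Nat.lt_floor_add_one t]
  linarith

theorem sum_ind (c : ℕ → ℂ) (N : ℕ) (s : ℝ) (hs : ⌊Real.exp s⌋₊ ≤ N) :
    ∑ n ∈ Finset.Icc 1 N, c n * ((if Real.log n ≤ s then (1 : ℝ) else 0 : ℝ) : ℂ) =
      G c ⌊Real.exp s⌋₊ := by
  unfold G
  have h1 : ∀ n ∈ Finset.Icc 1 N, c n * ((if Real.log n ≤ s then (1 : ℝ) else 0 : ℝ) : ℂ) =
      if Real.log n ≤ s then c n else 0 := by
    intro n _
    by_cases h : Real.log n ≤ s
    · rw [if_pos h, if_pos h]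
      simp
    · rw [if_neg h, if_neg h]
      simp
  rw [Finset.sum_congr rfl h1, ← Finset.sum_filter]
  refine Finset.sum_congr ?_ fun _ _ => rfl
  ext n
  rw [Finset.mem_filter, Finset.mem_Icc, Finset.mem_Ioc]
  constructor
  · rintro ⟨⟨h2, h3⟩, h4⟩
    refine ⟨h2, (Nat.le_floor_iff (Real.exp_pos s).le).2 ?_⟩
    exact (Real.log_le_iff_le_exp (by exact_mod_cast h2)).1 h4
  · rintro ⟨h2, h3⟩
    refine ⟨⟨h2, h3.trans hs⟩, ?_⟩
    exact (Real.log_le_iff_le_exp (by exact_mod_cast h2)).2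
      ((Nat.le_floor_iff (Real.exp_pos s).le).1 h3)

theorem V_eq (c : ℕ → ℂ) (N : ℕ) (η u : ℝ) (hη : 0 < η) (hu : ⌊Real.exp u⌋₊ ≤ N) :
    ∑ n ∈ Finset.Icc 1 N, c n * ((psi η (u - Real.log n) : ℝ) : ℂ) =
      G c ⌊Real.exp u⌋₊ - 2 * G c ⌊Real.exp (u - η)⌋₊ + G c ⌊Real.exp (u - 2 * η)⌋₊ := by
  have h1 : ⌊Real.exp (u - η)⌋₊ ≤ N :=
    (Nat.floor_mono (Real.exp_le_exp.2 (by linarith))).trans hu
  have h2 : ⌊Real.exp (u - 2 * η)⌋₊ ≤ N :=
    (Nat.floor_mono (Real.exp_le_exp.2 (by linarith))).trans hu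
  rw [← sum_ind c N u hu, ← sum_ind c N (u - η) h1, ← sum_ind c N (u - 2 * η) h2,
    Finset.mul_sum, ← Finset.sum_sub_distrib, ← Finset.sum_add_distrib]
  refine Finset.sum_congr rfl fun n _ => ?_
  rw [psi_eq η hη]
  have e0 : (0 ≤ u - Real.log n) = (Real.log n ≤ u) := by
    rw [sub_nonneg]
  have e1 : (η ≤ u - Real.log n) = (Real.log n ≤ u - η) :=
    propext ⟨fun h => by linarith, fun h => by linarith⟩
  have e2 : (2 * η ≤ u - Real.log n) = (Real.log n ≤ u - 2 * η) :=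
    propext ⟨fun h => by linarith, fun h => by linarith⟩
  simp only [e0, e1, e2]
  push_cast
  ring

/-- the two endpoints -/
theorem ends (a b l x y : ℝ) (hl : 1 ≤ l) (hla : 2 * l ≤ a) (hb2 : b ≤ 2 * a) (hx : a ≤ x)
    (hxb : x ≤ b) (hy1 : x ≤ y) (hy2 : y ≤ x + 1) :
    |x - l - y * Real.exp (-(l / a))| ≤ 3 * (1 + l * (b - a) / a + l ^ 2 / a) ∧
    |x - 2 * l - y * Real.exp (-(2 * (l / a)))| ≤ 12 * (1 + l * (b - a) / a + l ^ 2 / a) := by
  have ha : 0 < a := by linarith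
  have hy0 : 0 ≤ y := by linarith
  obtain ⟨η, hη⟩ : ∃ η : ℝ, η = l / a := ⟨_, rfl⟩
  have hηp : 0 < η := by rw [hη]; positivity
  have hη2 : 2 * η ≤ 1 := by
    rw [hη, ← mul_div_assoc, div_le_one ha]
    exact hla
  have hηa : η * a = l := by rw [hη]; field_simp
  have hA : l * (b - a) / a = η * (b - a) := by rw [hη]; ring
  have hB : l ^ 2 / a = η * l := by rw [hη]; ring
  rw [← hη, hA, hB]
  have hba : 0 ≤ b - a := by linarith
  have hp1 : 0 ≤ η * (b - a) := mul_nonneg hηp.le hba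
  have hp2 : 0 ≤ η * l := mul_nonneg hηp.le (by linarith)
  have h3 : y ≤ 3 * a := by linarith
  have e1l : 1 - η ≤ Real.exp (-η) := Real.one_sub_le_exp_neg η
  have e2l : 1 - 2 * η ≤ Real.exp (-(2 * η)) := Real.one_sub_le_exp_neg (2 * η)
  have e1u : Real.exp (-η) ≤ 1 - η + η ^ 2 := by
    have h := (abs_le.1 (Real.abs_exp_sub_one_sub_id_le (x := -η)
      (by rw [abs_neg, abs_of_pos hηp]; linarith))).2
    nlinarith
  have e2u : Real.exp (-(2 * η)) ≤ 1 - 2 * η + 4 * η ^ 2 := by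
    have h := (abs_le.1 (Real.abs_exp_sub_one_sub_id_le (x := -(2 * η))
      (by rw [abs_neg, abs_of_pos (by linarith)]; linarith))).2
    nlinarith
  have hyη : y * η ≤ 3 * l := by
    calc y * η ≤ 3 * a * η := mul_le_mul_of_nonneg_right h3 hηp.le
      _ = 3 * l := by rw [← hηa]; ring
  have hyη2 : y * η ^ 2 ≤ 3 * (η * l) := by
    calc y * η ^ 2 = y * η * η := by ring
      _ ≤ 3 * l * η := mul_le_mul_of_nonneg_right hyη hηp.le
      _ = 3 * (η * l) := by ring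
  have hdiff : y * η - l ≤ η * (b - a) + 1 / 2 := by
    have h : y * η ≤ (b + 1) * η := mul_le_mul_of_nonneg_right (by linarith) hηp.le
    nlinarith
  have hdiff0 : 0 ≤ y * η - l := by
    have h : a * η ≤ y * η := mul_le_mul_of_nonneg_right (by linarith) hηp.le
    nlinarith
  have m1l : y * (1 - η) ≤ y * Real.exp (-η) := mul_le_mul_of_nonneg_left e1l hy0
  have m1u : y * Real.exp (-η) ≤ y * (1 - η + η ^ 2) := mul_le_mul_of_nonneg_left e1u hy0
  have m2l : y * (1 - 2 * η) ≤ y * Real.exp (-(2 * η)) := mul_le_mul_of_nonneg_left e2l hy0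
  have m2u : y * Real.exp (-(2 * η)) ≤ y * (1 - 2 * η + 4 * η ^ 2) :=
    mul_le_mul_of_nonneg_left e2u hy0
  constructor
  · rw [abs_le]
    constructor <;> nlinarith
  · rw [abs_le]
    constructor <;> nlinarith

theorem point (c : ℕ → ℂ) (D : ℝ) (a b l N : ℕ) (hl : 1 ≤ l) (hla : 2 * l ≤ a)
    (hb2 : b ≤ 2 * a) (hbN : b ≤ N) (hD : ∀ n, ‖c n‖ ≤ D) (x : ℕ) (hx : a + 2 * l ≤ x)
    (hxb : x ≤ b) (u : ℝ) (hu1 : Real.log x ≤ u) (hu2 : u < Real.log ((x : ℝ) + 1)) :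
    ‖∑ n ∈ Finset.Ioc (x - l) x, c n - ∑ n ∈ Finset.Ioc (x - 2 * l) (x - l), c n‖ ≤
      ‖∑ n ∈ Finset.Icc 1 N, c n * ((psi ((l : ℝ) / a) (u - Real.log n) : ℝ) : ℂ)‖ +
        21 * (D * (1 + l * ((b : ℝ) - a) / a + (l : ℝ) ^ 2 / a)) := by
  have hD0 : 0 ≤ D := (norm_nonneg _).trans (hD 0)
  have hx0 : 0 < x := by omega
  have hxr : (0 : ℝ) < x := by exact_mod_cast hx0
  have ha0 : 0 < a := by omega
  have har : (0 : ℝ) < a := by exact_mod_cast ha0
  have hlr : (1 : ℝ) ≤ l := by exact_mod_cast hl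
  have hη : (0 : ℝ) < (l : ℝ) / a := by positivity
  have hy1 : (x : ℝ) ≤ Real.exp u := (Real.log_le_iff_le_exp hxr).1 hu1
  have hy2 : Real.exp u < (x : ℝ) + 1 := (Real.lt_log_iff_exp_lt (by linarith)).1 hu2
  have hfl : ⌊Real.exp u⌋₊ = x := (Nat.floor_eq_iff (Real.exp_pos u).le).2 ⟨hy1, hy2⟩
  rw [V_eq c N _ u hη (by rw [hfl]; omega), hfl, sum_Ioc c (Nat.sub_le x l),
    sum_Ioc c (by omega : x - 2 * l ≤ x - l)]
  have hE := ends a b l x (Real.exp u) hlr (by exact_mod_cast hla) (by exact_mod_cast hb2)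
    (by exact_mod_cast (by omega : a ≤ x)) (by exact_mod_cast hxb) hy1 hy2.le
  obtain ⟨E, hEd⟩ : ∃ E : ℝ, E = 1 + l * ((b : ℝ) - a) / a + (l : ℝ) ^ 2 / a := ⟨_, rfl⟩
  rw [← hEd] at hE ⊢
  have hE1 : 1 ≤ E := by
    have h1 : (0 : ℝ) ≤ (b : ℝ) - a := by
      have : (a : ℝ) ≤ b := by exact_mod_cast (by omega : a ≤ b)
      linarith
    have h2 : (0 : ℝ) ≤ l * ((b : ℝ) - a) / a := by positivity
    have h3 : (0 : ℝ) ≤ (l : ℝ) ^ 2 / a := by positivity
    rw [hEd]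
    linarith
  have f1 := G_floor c D hD (x - l) (Real.exp (u - (l : ℝ) / a)) (Real.exp_pos _).le
  have f2 := G_floor c D hD (x - 2 * l) (Real.exp (u - 2 * ((l : ℝ) / a))) (Real.exp_pos _).le
  have c1 : ((x - l : ℕ) : ℝ) = x - l := Nat.cast_sub (by omega)
  have c2 : ((x - 2 * l : ℕ) : ℝ) = x - 2 * l := by
    rw [Nat.cast_sub (by omega : 2 * l ≤ x)]
    push_cast
    ring
  have x1 : Real.exp (u - (l : ℝ) / a) = Real.exp u * Real.exp (-((l : ℝ) / a)) := by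
    rw [← Real.exp_add]
    ring_nf
  have x2 : Real.exp (u - 2 * ((l : ℝ) / a)) = Real.exp u * Real.exp (-(2 * ((l : ℝ) / a))) := by
    rw [← Real.exp_add]
    ring_nf
  rw [c1, x1] at f1
  rw [c2, x2] at f2
  have g1 : ‖G c (x - l) - G c ⌊Real.exp u * Real.exp (-((l : ℝ) / a))⌋₊‖ ≤ D * (3 * E + 1) :=
    f1.trans (mul_le_mul_of_nonneg_left (by linarith [hE.1]) hD0)
  have g2 : ‖G c (x - 2 * l) - G c ⌊Real.exp u * Real.exp (-(2 * ((l : ℝ) / a)))⌋₊‖ ≤
      D * (12 * E + 1) :=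
    f2.trans (mul_le_mul_of_nonneg_left (by linarith [hE.2]) hD0)
  rw [x1, x2]
  obtain ⟨P, hP⟩ : ∃ P : ℂ, P = G c ⌊Real.exp u * Real.exp (-((l : ℝ) / a))⌋₊ := ⟨_, rfl⟩
  obtain ⟨Q, hQ⟩ : ∃ Q : ℂ, Q = G c ⌊Real.exp u * Real.exp (-(2 * ((l : ℝ) / a)))⌋₊ := ⟨_, rfl⟩
  rw [← hP, ← hQ]
  rw [← hP] at g1
  rw [← hQ] at g2
  have key : G c x - G c (x - l) - (G c (x - l) - G c (x - 2 * l)) =
      (G c x - 2 * P + Q) + (-2 * (G c (x - l) - P) + (G c (x - 2 * l) - Q)) := by ring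
  rw [key]
  have n1 : ‖-2 * (G c (x - l) - P) + (G c (x - 2 * l) - Q)‖ ≤
      2 * (D * (3 * E + 1)) + D * (12 * E + 1) := by
    refine (norm_add_le _ _).trans (add_le_add ?_ g2)
    rw [norm_mul, norm_neg, Complex.norm_ofNat]
    exact mul_le_mul_of_nonneg_left g1 (by norm_num)
  refine (norm_add_le _ _).trans (add_le_add le_rfl (n1.trans ?_))
  have hDE : D ≤ D * E := le_mul_of_one_le_right hD0 hE1
  nlinarith

/-- integrability -/
theorem psi_memLp (η : ℝ) (t : ℝ) (c : ℂ) :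
    MemLp (fun u : ℝ => c * ((psi η (u - t) : ℝ) : ℂ)) 2 volume := by
  have h1 : (fun u : ℝ => c * ((psi η (u - t) : ℝ) : ℂ)) =
      (Set.Ico t (t + η)).indicator (fun _ => c) -
        (Set.Ico (t + η) (t + 2 * η)).indicator (fun _ => c) := by
    funext u
    rw [Pi.sub_apply]
    unfold psi
    by_cases h0 : 0 ≤ u - t ∧ u - t < η
    · rw [if_pos h0, Set.indicator_of_mem, Set.indicator_of_notMem]
      · simp
      · intro h
        have := h.1
        linarith [h0.2]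
      · exact ⟨by linarith [h0.1], by linarith [h0.2]⟩
    · rw [if_neg h0]
      have h0' : u ∉ Set.Ico t (t + η) := by
        intro h
        exact h0 ⟨by linarith [h.1], by linarith [h.2]⟩
      rw [Set.indicator_of_notMem h0']
      by_cases h2 : η ≤ u - t ∧ u - t < 2 * η
      · rw [if_pos h2, Set.indicator_of_mem]
        · simp
        · exact ⟨by linarith [h2.1], by linarith [h2.2]⟩
      · rw [if_neg h2, Set.indicator_of_notMem]
        · simp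
        · intro h
          exact h2 ⟨by linarith [h.1], by linarith [h.2]⟩
  rw [h1]
  refine MemLp.sub ?_ ?_
  · refine memLp_indicator_const 2 measurableSet_Ico c (Or.inr ?_)
    rw [Real.volume_Ico]
    exact ENNReal.ofReal_ne_top
  · refine memLp_indicator_const 2 measurableSet_Ico c (Or.inr ?_)
    rw [Real.volume_Ico]
    exact ENNReal.ofReal_ne_top

theorem V_int (c : ℕ → ℂ) (η : ℝ) (N : ℕ) :
    Integrable (fun u : ℝ => ‖∑ n ∈ Finset.Icc 1 N,
      c n * ((psi η (u - Real.log n) : ℝ) : ℂ)‖ ^ 2) := by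
  have h1 : MemLp (fun u : ℝ => ∑ n ∈ Finset.Icc 1 N,
      c n * ((psi η (u - Real.log n) : ℝ) : ℂ)) 2 volume :=
    memLp_finsetSum _ fun n _ => psi_memLp η (Real.log n) (c n)
  exact h1.integrable_norm_pow (by norm_num)

/-- one interval -/
theorem one_int (f : ℝ → ℝ) (hf : Integrable f) (hf0 : ∀ u, 0 ≤ f u) (x : ℕ) (hx : 0 < x)
    (S K : ℝ) (h : ∀ u, Real.log x ≤ u → u < Real.log ((x : ℝ) + 1) → S ≤ 2 * f u + K) :
    S ≤ 2 * ((x : ℝ) + 1) * (∫ u in (Real.log x)..(Real.log ((x : ℝ) + 1)), f u) + K := by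
  have hxr : (0 : ℝ) < x := by exact_mod_cast hx
  have hle : Real.log x ≤ Real.log ((x : ℝ) + 1) := Real.log_le_log hxr (by linarith)
  have hexp : ∫ u in (Real.log x)..(Real.log ((x : ℝ) + 1)), Real.exp u = 1 := by
    rw [integral_exp, Real.exp_log hxr, Real.exp_log (by linarith)]
    ring
  have hmul : ∀ M : ℝ, ∫ u in (Real.log x)..(Real.log ((x : ℝ) + 1)), Real.exp u * M = M := by
    intro M
    rw [intervalIntegral.integral_mul_const, hexp, one_mul]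
  have hfi : IntervalIntegrable f volume (Real.log x) (Real.log ((x : ℝ) + 1)) :=
    hf.intervalIntegrable
  have hci : ∀ M : ℝ, IntervalIntegrable (fun u : ℝ => Real.exp u * M) volume (Real.log x)
      (Real.log ((x : ℝ) + 1)) := fun M =>
    (Real.continuous_exp.mul continuous_const).intervalIntegrable _ _
  have hS : S - K ≤ ∫ u in (Real.log x)..(Real.log ((x : ℝ) + 1)),
      2 * ((x : ℝ) + 1) * f u := by
    rw [← hmul (S - K)]
    refine intervalIntegral.integral_mono_on_of_le_Ioo hle (hci _) (hfi.const_mul _) ?_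
    intro u hu
    have h1 := h u hu.1.le hu.2
    have h2 : Real.exp u ≤ (x : ℝ) + 1 :=
      ((Real.lt_log_iff_exp_lt (by linarith)).1 hu.2).le
    have h3 : Real.exp u * (S - K) ≤ Real.exp u * (2 * f u) :=
      mul_le_mul_of_nonneg_left (by linarith) (Real.exp_pos u).le
    have h4 : Real.exp u * (2 * f u) ≤ ((x : ℝ) + 1) * (2 * f u) :=
      mul_le_mul_of_nonneg_right h2 (by linarith [hf0 u])
    linarith
  rw [intervalIntegral.integral_const_mul] at hS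
  linarith

end IP5

open IP5 in
theorem prP5 : tsP5 := by
  refine ⟨900, by norm_num, ?_⟩
  intro c D a b l N hl hla hab hb2 hbN hD
  have hD0 : 0 ≤ D := (norm_nonneg _).trans (hD 0)
  have ha0 : 0 < a := by omega
  have har : (0 : ℝ) < a := by exact_mod_cast ha0
  have habr : (a : ℝ) ≤ b := by exact_mod_cast hab
  have hb1 : (1 : ℝ) ≤ b := by exact_mod_cast (by omega : 1 ≤ b)
  obtain ⟨f, hf⟩ : ∃ f : ℝ → ℝ, f = fun u : ℝ => ‖∑ n ∈ Finset.Icc 1 N,
      c n * ((psi ((l : ℝ) / a) (u - Real.log n) : ℝ) : ℂ)‖ ^ 2 := ⟨_, rfl⟩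
  have hfi : Integrable f := by
    rw [hf]
    exact V_int c _ N
  have hf0 : ∀ u, 0 ≤ f u := by
    intro u
    rw [hf]
    positivity
  have hfe : (∫ u : ℝ, ‖∑ n ∈ Finset.Icc 1 N,
      c n * ((psi ((l : ℝ) / a) (u - Real.log n) : ℝ) : ℂ)‖ ^ 2) = ∫ u, f u := by
    rw [hf]
  rw [hfe]
  obtain ⟨E, hE⟩ : ∃ E : ℝ, E = 1 + l * ((b : ℝ) - a) / a + (l : ℝ) ^ 2 / a := ⟨_, rfl⟩
  have hI0 : 0 ≤ ∫ u, f u := integral_nonneg hf0
  -- one `x`
  have hone : ∀ x ∈ Finset.Icc (a + 2 * l) b,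
      ‖∑ n ∈ Finset.Ioc (x - l) x, c n - ∑ n ∈ Finset.Ioc (x - 2 * l) (x - l), c n‖ ^ 2 ≤
        4 * b * (∫ u in (Real.log (x : ℝ))..(Real.log ((x + 1 : ℕ) : ℝ)), f u) +
          900 * (D * E) ^ 2 := by
    intro x hx
    rw [Finset.mem_Icc] at hx
    have hx0 : 0 < x := by omega
    have hxr : (0 : ℝ) < x := by exact_mod_cast hx0
    have h1 := one_int f hfi hf0 x hx0
      (‖∑ n ∈ Finset.Ioc (x - l) x, c n - ∑ n ∈ Finset.Ioc (x - 2 * l) (x - l), c n‖ ^ 2)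
      (900 * (D * E) ^ 2) (by
        intro u hu1 hu2
        have h2 := point c D a b l N hl hla hb2 hbN hD x hx.1 hx.2 u hu1 hu2
        rw [← hE] at h2
        have h3 : ‖∑ n ∈ Finset.Ioc (x - l) x, c n -
            ∑ n ∈ Finset.Ioc (x - 2 * l) (x - l), c n‖ ^ 2 ≤
            (‖∑ n ∈ Finset.Icc 1 N, c n * ((psi ((l : ℝ) / a) (u - Real.log n) : ℝ) : ℂ)‖ +
              21 * (D * E)) ^ 2 := pow_le_pow_left₀ (norm_nonneg _) h2 2
        rw [hf]
        dsimp only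
        refine h3.trans ?_
        nlinarith [sq_nonneg (‖∑ n ∈ Finset.Icc 1 N, c n *
          ((psi ((l : ℝ) / a) (u - Real.log n) : ℝ) : ℂ)‖ - 21 * (D * E))])
    have h4 : 0 ≤ ∫ u in (Real.log (x : ℝ))..(Real.log ((x : ℝ) + 1)), f u :=
      intervalIntegral.integral_nonneg (Real.log_le_log hxr (by linarith)) fun u _ => hf0 u
    have h5 : 2 * ((x : ℝ) + 1) ≤ 4 * b := by
      have : (x : ℝ) ≤ b := by exact_mod_cast hx.2
      linarith
    have h6 : ((x + 1 : ℕ) : ℝ) = (x : ℝ) + 1 := by push_cast; ring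
    rw [h6]
    refine h1.trans (add_le_add (mul_le_mul_of_nonneg_right h5 h4) le_rfl)
  refine (Finset.sum_le_sum hone).trans ?_
  rw [Finset.sum_add_distrib, ← Finset.mul_sum]
  refine add_le_add ?_ ?_
  · have h1 : ∑ x ∈ Finset.Icc (a + 2 * l) b,
        (∫ u in (Real.log (x : ℝ))..(Real.log ((x + 1 : ℕ) : ℝ)), f u) ≤ ∫ u, f u := by
      by_cases hle : a + 2 * l ≤ b + 1
      · have h2 : Finset.Icc (a + 2 * l) b = Finset.Ico (a + 2 * l) (b + 1) := by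
          ext n
          rw [Finset.mem_Icc, Finset.mem_Ico]
          omega
        rw [h2, intervalIntegral.sum_integral_adjacent_intervals_Ico
          (a := fun n : ℕ => Real.log (n : ℝ)) hle fun k _ => hfi.intervalIntegrable]
        have h3 : Real.log ((a + 2 * l : ℕ) : ℝ) ≤ Real.log ((b + 1 : ℕ) : ℝ) :=
          Real.log_le_log (by exact_mod_cast (by omega : 0 < a + 2 * l)) (by exact_mod_cast hle)
        rw [intervalIntegral.integral_of_le h3]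
        exact setIntegral_le_integral hfi (Filter.Eventually.of_forall hf0)
      · rw [Finset.Icc_eq_empty (by omega), Finset.sum_empty]
        exact hI0
    have h2 : 4 * (b : ℝ) * ∑ x ∈ Finset.Icc (a + 2 * l) b,
        (∫ u in (Real.log (x : ℝ))..(Real.log ((x + 1 : ℕ) : ℝ)), f u) ≤
        4 * b * ∫ u, f u := mul_le_mul_of_nonneg_left h1 (by linarith)
    have h3 : 0 ≤ (b : ℝ) * ∫ u, f u := mul_nonneg (by linarith) hI0
    linarith
  · rw [Finset.sum_const, Nat.card_Icc, nsmul_eq_mul, ← hE]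
    have h1 : ((b + 1 - (a + 2 * l) : ℕ) : ℝ) ≤ (b : ℝ) - a + 1 := by
      have h2 : b + 1 - (a + 2 * l) ≤ b + 1 - a := by omega
      have h3 : ((b + 1 - a : ℕ) : ℝ) = (b : ℝ) - a + 1 := by
        rw [Nat.cast_sub (by omega)]
        push_cast
        ring
      rw [← h3]
      exact_mod_cast h2
    calc ((b + 1 - (a + 2 * l) : ℕ) : ℝ) * (900 * (D * E) ^ 2) ≤
        ((b : ℝ) - a + 1) * (900 * (D * E) ^ 2) :=
          mul_le_mul_of_nonneg_right h1 (by positivity)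
      _ = 900 * ((b : ℝ) - a + 1) * D ^ 2 * E ^ 2 := by ring

end Pool.Agent.Work.MP_122e00_nt.TS
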