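import Pool.Agent.Work.MP_122e00_nt.TS.Stmts5

/-!
Item P6 of block TS: medium variables, major arcs.
-/

set_option autoImplicit false

namespace Pool.Agent.Work.MP_122e00_nt.TS

open Finset Filter Topology ArithmeticFunction MeasureTheory
open scoped ArithmeticFunction.zeta ArithmeticFunction.Moebius

namespace IP6

theorem ee_add (x y : ℝ) : ee (x + y) = ee x * ee y := by
  unfold ee
  rw [← Complex.exp_add]
  congr 1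
  push_cast
  ring

theorem ee_int (k : ℤ) : ee (k : ℝ) = 1 := by
  unfold ee
  rw [Complex.exp_eq_one_iff]
  refine ⟨k, ?_⟩
  push_cast
  ring

theorem norm_ee (x : ℝ) : ‖ee x‖ = 1 := by
  unfold ee
  exact Complex.norm_exp_ofReal_mul_I _

theorem dr_two (h : ℕ) : dr 2 h = (h.divisors.card : ℝ) := by
  unfold dr
  rw [pow_two, ← ArithmeticFunction.sigma_zero_apply]
  have h1 : (ζ : ArithmeticFunction ℕ) * ζ = ArithmeticFunction.sigma 0 := by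
    rw [← ArithmeticFunction.zeta_mul_pow_eq_sigma, ArithmeticFunction.pow_zero_eq_zeta]
  rw [h1]

/-- the dyadic points -/
def Ai (a0 w0 i : ℕ) : ℕ := min (2 ^ i * a0) w0

theorem Ai_zero (a0 w0 : ℕ) (h : a0 ≤ w0) : Ai a0 w0 0 = a0 := by
  unfold Ai; simp [h]

theorem Ai_last (a0 w0 I : ℕ) (h0 : 1 ≤ a0) (h : w0 ≤ 2 ^ I) : Ai a0 w0 I = w0 := by
  unfold Ai
  apply min_eq_right
  calc w0 ≤ 2 ^ I := h
    _ = 2 ^ I * 1 := (mul_one _).symm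
    _ ≤ 2 ^ I * a0 := Nat.mul_le_mul_left _ h0

theorem Ai_mono (a0 w0 i : ℕ) : Ai a0 w0 i ≤ Ai a0 w0 (i + 1) := by
  unfold Ai
  apply min_le_min _ le_rfl
  apply Nat.mul_le_mul_right
  exact Nat.pow_le_pow_right (by norm_num) (Nat.le_succ i)

theorem Ai_double (a0 w0 i : ℕ) : Ai a0 w0 (i + 1) ≤ 2 * Ai a0 w0 i := by
  unfold Ai
  rcases le_total (2 ^ i * a0) w0 with h | h
  · rw [min_eq_left h]
    refine le_trans (min_le_left _ _) ?_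
    rw [pow_succ]
    apply le_of_eq
    ring
  · rw [min_eq_right h]
    refine le_trans (min_le_right _ _) (by omega)

theorem Ai_ge (a0 w0 i : ℕ) (h : a0 ≤ w0) : a0 ≤ Ai a0 w0 i := by
  unfold Ai
  apply le_min _ h
  exact Nat.le_mul_of_pos_left _ (by positivity)

theorem Ai_le (a0 w0 i : ℕ) : Ai a0 w0 i ≤ w0 := min_le_right _ _

theorem sum_cover {E : Type*} [AddCommMonoid E] (A : ℕ → ℕ) (hA : ∀ i, A i ≤ A (i + 1)) (f : ℕ → E)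
    (I : ℕ) : ∑ i ∈ Finset.range I, ∑ x ∈ Finset.Ioc (A i) (A (i + 1)), f x =
      ∑ x ∈ Finset.Ioc (A 0) (A I), f x := by
  have hmono : Monotone A := monotone_nat_of_le_succ hA
  induction I with
  | zero => simp
  | succ I ih =>
    rw [Finset.sum_range_succ, ih]
    exact Finset.sum_Ioc_consecutive f (hmono (Nat.zero_le I)) (hA I)

theorem sum_resid {E : Type*} [AddCommMonoid E] (q : ℕ) (hq : 1 ≤ q) (S : Finset ℕ)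
    (g : ℕ → ℕ → E) : ∑ ρ ∈ Finset.range q, ∑ a ∈ S.filter (fun a => a % q = ρ % q), g ρ a =
      ∑ a ∈ S, g (a % q) a := by
  have h := Finset.sum_fiberwise_of_maps_to (s := S) (t := Finset.range q) (g := fun a => a % q)
    (fun a _ => Finset.mem_range.mpr (Nat.mod_lt _ hq)) (fun a => g (a % q) a)
  rw [← h]
  apply Finset.sum_congr rfl
  intro ρ hρ
  rw [Nat.mod_eq_of_lt (Finset.mem_range.mp hρ)]
  apply Finset.sum_congr rfl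
  intro a ha
  rw [(Finset.mem_filter.mp ha).2]

/-- the fibre over `n` of the multiplication by `a` -/
theorem fib_val {E : Type*} [AddCommMonoid E] (a M n : ℕ) (ha : 1 ≤ a) (hn : 1 ≤ n)
    (hM : n / a ≤ M) (G : ℕ → E) :
    ∑ m ∈ Finset.Icc 1 M, (if a * m = n then G m else 0) = if a ∣ n then G (n / a) else 0 := by
  split_ifs with h
  · obtain ⟨k, rfl⟩ := h
    have hk : a * k / a = k := Nat.mul_div_cancel_left k ha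
    rw [hk] at hM ⊢
    have hk1 : 1 ≤ k := Nat.pos_of_ne_zero (by rintro rfl; simp at hn)
    rw [Finset.sum_eq_single k]
    · simp
    · intro m _ hm
      rw [if_neg]
      intro h2
      exact hm (Nat.eq_of_mul_eq_mul_left ha h2)
    · intro h2
      exact absurd (Finset.mem_Icc.mpr ⟨hk1, hM⟩) h2
  · apply Finset.sum_eq_zero
    intro m _
    rw [if_neg]
    intro h2
    exact h ⟨m, h2.symm⟩

theorem fib_norm (a M n : ℕ) (ha : 1 ≤ a) (G : ℕ → ℂ) (D : ℝ) (hD : 0 ≤ D)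
    (hG : ∀ m ∈ Finset.Icc 1 M, ‖G m‖ ≤ D) :
    ‖∑ m ∈ Finset.Icc 1 M, (if a * m = n then G m else 0)‖ ≤ if a ∣ n then D else 0 := by
  split_ifs with h
  · obtain ⟨k, rfl⟩ := h
    by_cases hk : k ∈ Finset.Icc 1 M
    · rw [Finset.sum_eq_single k]
      · simpa using hG k hk
      · intro m _ hm
        rw [if_neg]
        intro h2
        exact hm (Nat.eq_of_mul_eq_mul_left ha h2)
      · intro h2
        exact absurd hk h2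
    · rw [Finset.sum_eq_zero]
      · simpa using hD
      · intro m hm
        rw [if_neg]
        intro h2
        have := Nat.eq_of_mul_eq_mul_left ha h2
        subst this
        exact hk hm
  · rw [Finset.sum_eq_zero]
    · simp
    · intro m _
      rw [if_neg]
      intro h2
      exact h ⟨m, h2.symm⟩


/-- the coefficients -/
noncomputable def cc (B : ℕ → ℝ) (a0 w0 I q : ℕ) (b' : ℤ) (M : ℕ → ℕ) (n : ℕ) : ℂ :=
  ∑ i ∈ Finset.range I, ∑ ρ ∈ Finset.range q,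
    ∑ p ∈ ((Finset.Ioc (Ai a0 w0 i) (Ai a0 w0 (i + 1))).filter (fun a => a % q = ρ % q)) ×ˢ
      Finset.Icc 1 (M i),
      (if p.1 * p.2 = n then (B p.2 : ℂ) * ee ((b' : ℝ) * ρ * p.2 / q) else 0)

theorem cc_eq (B : ℕ → ℝ) (a0 w0 I q : ℕ) (b' : ℤ) (M : ℕ → ℕ) (n : ℕ) (hq : 1 ≤ q) :
    cc B a0 w0 I q b' M n = ∑ i ∈ Finset.range I,
      ∑ a ∈ Finset.Ioc (Ai a0 w0 i) (Ai a0 w0 (i + 1)), ∑ m ∈ Finset.Icc 1 (M i),
        (if a * m = n then (B m : ℂ) * ee ((b' : ℝ) * ((a % q : ℕ) : ℝ) * m / q) else 0) := by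
  unfold cc
  apply Finset.sum_congr rfl
  intro i _
  rw [← sum_resid q hq (Finset.Ioc (Ai a0 w0 i) (Ai a0 w0 (i + 1)))
    (fun ρ a => ∑ m ∈ Finset.Icc 1 (M i),
        (if a * m = n then (B m : ℂ) * ee ((b' : ℝ) * (ρ : ℝ) * m / q) else 0))]
  apply Finset.sum_congr rfl
  intro ρ _
  rw [Finset.sum_product]

theorem cc_norm (B : ℕ → ℝ) (a0 w0 I q : ℕ) (b' : ℤ) (M : ℕ → ℕ) (n : ℕ) (hq : 1 ≤ q)
    (h0 : 1 ≤ a0) (hw : a0 ≤ w0) (hI : w0 ≤ 2 ^ I) (D : ℝ) (hD : 0 ≤ D)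
    (hB : ∀ i < I, ∀ m ∈ Finset.Icc 1 (M i), |B m| ≤ D) (hn : 1 ≤ n) :
    ‖cc B a0 w0 I q b' M n‖ ≤ (n.divisors.card : ℝ) * D := by
  rw [cc_eq B a0 w0 I q b' M n hq]
  have h1 : ∀ i ∈ Finset.range I, ‖∑ a ∈ Finset.Ioc (Ai a0 w0 i) (Ai a0 w0 (i + 1)),
      ∑ m ∈ Finset.Icc 1 (M i),
        (if a * m = n then (B m : ℂ) * ee ((b' : ℝ) * ((a % q : ℕ) : ℝ) * m / q) else 0)‖ ≤
      ∑ a ∈ Finset.Ioc (Ai a0 w0 i) (Ai a0 w0 (i + 1)), (if a ∣ n then D else 0) := by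
    intro i hi
    refine le_trans (norm_sum_le _ _) (Finset.sum_le_sum fun a ha => ?_)
    apply fib_norm a (M i) n _ _ D hD
    · intro m hm
      rw [norm_mul, norm_ee, mul_one, Complex.norm_real, Real.norm_eq_abs]
      exact hB i (Finset.mem_range.mp hi) m hm
    · exact le_trans h0 (le_trans (Ai_ge a0 w0 i hw) (Finset.mem_Ioc.mp ha).1.le)
  refine le_trans (norm_sum_le _ _) (le_trans (Finset.sum_le_sum h1) ?_)
  rw [sum_cover (Ai a0 w0) (Ai_mono a0 w0), Ai_zero a0 w0 hw, Ai_last a0 w0 I h0 hI,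
    ← Finset.sum_filter, Finset.sum_const, nsmul_eq_mul]
  apply mul_le_mul_of_nonneg_right _ hD
  have h2 : ((Finset.Ioc a0 w0).filter (fun a => a ∣ n)).card ≤ n.divisors.card := by
    apply Finset.card_le_card
    intro a ha
    rw [Nat.mem_divisors]
    exact ⟨(Finset.mem_filter.mp ha).2, by omega⟩
  exact_mod_cast h2

theorem ee_mod (b' : ℤ) (a q m : ℕ) (hq : 1 ≤ q) :
    ee ((b' : ℝ) * ((a % q : ℕ) : ℝ) * m / q) = ee (((a * m : ℕ) : ℝ) * ((b' : ℝ) / q)) := by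
  have hq0 : (q : ℝ) ≠ 0 := by
    have : (0 : ℝ) < q := by exact_mod_cast hq
    exact this.ne'
  have h1 : ((a : ℕ) : ℝ) = q * ((a / q : ℕ) : ℝ) + ((a % q : ℕ) : ℝ) := by
    exact_mod_cast (Nat.div_add_mod a q).symm
  obtain ⟨k, hk⟩ : ∃ k : ℕ, a / q = k := ⟨_, rfl⟩
  rw [hk] at h1
  have h2 : ((a * m : ℕ) : ℝ) * ((b' : ℝ) / q) = (b' : ℝ) * ((a % q : ℕ) : ℝ) * m / q +
      (((b' * (k : ℤ) * (m : ℤ)) : ℤ) : ℝ) := by
    push_cast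
    rw [h1]
    field_simp
    ring
  rw [h2, ee_add, ee_int, mul_one]

/-- change of variable in `T2` -/
theorem T2_eq (B : ℕ → ℝ) (z w : ℝ) (n : ℕ) (hz : 0 ≤ z) (hw : 0 ≤ w) (hn : 1 ≤ n) :
    T2 B z w n = ∑ a ∈ Finset.Ioc ⌊z⌋₊ ⌊w⌋₊, (if a ∣ n then B (n / a) else 0) := by
  unfold T2
  rw [← Finset.sum_filter]
  refine Finset.sum_nbij' (fun m => n / m) (fun a => n / a) ?_ ?_ ?_ ?_ ?_
  · intro m hm
    rw [Finset.mem_filter, Nat.mem_divisors] at hm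
    obtain ⟨⟨hmn, _⟩, h1, h2⟩ := hm
    obtain ⟨a, rfl⟩ := hmn
    have hm0 : 0 < m := Nat.pos_of_ne_zero (by rintro rfl; simp at hn)
    have hm1 : (0 : ℝ) < m := by exact_mod_cast hm0
    rw [Nat.mul_div_cancel_left a hm0, Finset.mem_filter, Finset.mem_Ioc]
    push_cast at h1 h2
    refine ⟨⟨?_, ?_⟩, Dvd.intro_left m rfl⟩
    · rw [Nat.floor_lt hz]
      exact lt_of_mul_lt_mul_left h1 hm1.le
    · apply Nat.le_floor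
      exact le_of_mul_le_mul_left h2 hm1
  · intro a ha
    rw [Finset.mem_filter, Finset.mem_Ioc] at ha
    obtain ⟨⟨h1, h2⟩, h3⟩ := ha
    obtain ⟨m, rfl⟩ := h3
    have ha0 : 0 < a := Nat.pos_of_ne_zero (by rintro rfl; simp at hn)
    have hm0 : 0 < m := Nat.pos_of_ne_zero (by rintro rfl; simp at hn)
    have hm1 : (0 : ℝ) < m := by exact_mod_cast hm0
    rw [Nat.mul_div_cancel_left m ha0, Finset.mem_filter, Nat.mem_divisors]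
    refine ⟨⟨Dvd.intro_left a rfl, by positivity⟩, ?_, ?_⟩
    · push_cast
      rw [mul_comm]
      exact mul_lt_mul_of_pos_right ((Nat.floor_lt hz).mp h1) hm1
    · push_cast
      rw [mul_comm (m : ℝ) w]
      apply mul_le_mul_of_nonneg_right _ hm1.le
      exact le_trans (by exact_mod_cast h2) (Nat.floor_le hw)
  · intro m hm
    rw [Finset.mem_filter, Nat.mem_divisors] at hm
    exact Nat.div_div_self hm.1.1 (by omega)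
  · intro a ha
    rw [Finset.mem_filter] at ha
    exact Nat.div_div_self ha.2 (by omega)
  · intro m hm
    rw [Finset.mem_filter, Nat.mem_divisors] at hm
    rw [Nat.div_div_self hm.1.1 (by omega)]

theorem cc_val (B : ℕ → ℝ) (z w X : ℝ) (I q : ℕ) (b' : ℤ) (M : ℕ → ℕ) (n : ℕ) (hq : 1 ≤ q)
    (hz : 1 ≤ z) (hzw : z ≤ w) (hI : ⌊w⌋₊ ≤ 2 ^ I) (hn : 1 ≤ n) (hnX : (n : ℝ) ≤ 3 * X)
    (hM : ∀ i < I, M i = ⌊3 * X / (Ai ⌊z⌋₊ ⌊w⌋₊ i : ℝ)⌋₊) :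
    cc B ⌊z⌋₊ ⌊w⌋₊ I q b' M n = (T2 B z w n : ℂ) * ee ((n : ℝ) * ((b' : ℝ) / q)) := by
  have h0 : 1 ≤ ⌊z⌋₊ := Nat.le_floor (by simpa using hz)
  have hw : ⌊z⌋₊ ≤ ⌊w⌋₊ := Nat.floor_le_floor hzw
  rw [cc_eq B _ _ I q b' M n hq]
  have h1 : ∀ i ∈ Finset.range I, ∑ a ∈ Finset.Ioc (Ai ⌊z⌋₊ ⌊w⌋₊ i) (Ai ⌊z⌋₊ ⌊w⌋₊ (i + 1)),
      ∑ m ∈ Finset.Icc 1 (M i),
        (if a * m = n then (B m : ℂ) * ee ((b' : ℝ) * ((a % q : ℕ) : ℝ) * m / q) else 0) =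
      ∑ a ∈ Finset.Ioc (Ai ⌊z⌋₊ ⌊w⌋₊ i) (Ai ⌊z⌋₊ ⌊w⌋₊ (i + 1)),
        (((if a ∣ n then B (n / a) else 0 : ℝ) : ℂ) * ee ((n : ℝ) * ((b' : ℝ) / q))) := by
    intro i hi
    apply Finset.sum_congr rfl
    intro a ha
    have hAi : 1 ≤ Ai ⌊z⌋₊ ⌊w⌋₊ i := le_trans h0 (Ai_ge _ _ i hw)
    have hAa : Ai ⌊z⌋₊ ⌊w⌋₊ i ≤ a := (Finset.mem_Ioc.mp ha).1.le
    have ha1 : 1 ≤ a := le_trans hAi hAa
    have hnM : n / a ≤ M i := by
      rw [hM i (Finset.mem_range.mp hi)]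
      apply Nat.le_floor
      have hp : (0 : ℝ) < (Ai ⌊z⌋₊ ⌊w⌋₊ i : ℝ) := by exact_mod_cast hAi
      calc ((n / a : ℕ) : ℝ) ≤ (n : ℝ) / a := Nat.cast_div_le
        _ ≤ 3 * X / a := by
            apply div_le_div_of_nonneg_right hnX
            positivity
        _ ≤ 3 * X / (Ai ⌊z⌋₊ ⌊w⌋₊ i : ℝ) := by
            apply div_le_div_of_nonneg_left _ hp (by exact_mod_cast hAa)
            exact le_trans (by positivity) hnX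
    rw [fib_val a (M i) n ha1 hn hnM
      (fun m => (B m : ℂ) * ee ((b' : ℝ) * ((a % q : ℕ) : ℝ) * m / q))]
    split_ifs with h
    · obtain ⟨m, rfl⟩ := h
      rw [Nat.mul_div_cancel_left m ha1, ee_mod b' a q m hq]
    · simp
  rw [Finset.sum_congr rfl h1, sum_cover (Ai ⌊z⌋₊ ⌊w⌋₊) (Ai_mono _ _), Ai_zero _ _ hw,
    Ai_last _ _ I h0 hI, ← Finset.sum_mul, T2_eq B z w n (by linarith) (by linarith) hn]
  congr 1
  push_cast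
  rfl


theorem psi_sum (B : ℕ → ℝ) (a0 w0 I q : ℕ) (b' : ℤ) (M : ℕ → ℕ) (N : ℕ) (ψ : ℕ → ℂ)
    (hN : ∀ i < I, Ai a0 w0 (i + 1) * M i ≤ N) :
    ∑ n ∈ Finset.Icc 1 N, cc B a0 w0 I q b' M n * ψ n =
      ∑ j ∈ Finset.range I ×ˢ Finset.range q,
        ∑ p ∈ ((Finset.Ioc (Ai a0 w0 j.1) (Ai a0 w0 (j.1 + 1))).filter
          (fun a => a % q = j.2 % q)) ×ˢ Finset.Icc 1 (M j.1),
          ((B p.2 : ℂ) * ee ((b' : ℝ) * j.2 * p.2 / q)) * ψ (p.1 * p.2) := by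
  unfold cc
  rw [Finset.sum_product]
  simp only [Finset.sum_mul]
  rw [Finset.sum_comm]
  apply Finset.sum_congr rfl
  intro i hi
  rw [Finset.sum_comm]
  apply Finset.sum_congr rfl
  intro ρ _
  rw [Finset.sum_comm]
  apply Finset.sum_congr rfl
  intro p hp
  rw [Finset.mem_product, Finset.mem_filter, Finset.mem_Ioc, Finset.mem_Icc] at hp
  rw [Finset.sum_eq_single (p.1 * p.2)]
  · simp
  · intro n _ hn
    rw [if_neg (fun h => hn h.symm), zero_mul]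
  · intro h
    exfalso
    apply h
    rw [Finset.mem_Icc]
    refine ⟨Nat.mul_pos (by omega) (by omega), ?_⟩
    exact le_trans (Nat.mul_le_mul hp.1.1.2 hp.2.2) (hN i (Finset.mem_range.mp hi))

theorem psi_memLp (η lam : ℝ) :
    MemLp (fun u : ℝ => ((psi η (u - lam) : ℝ) : ℂ)) 2 (volume : Measure ℝ) := by
  have h : (fun u : ℝ => ((psi η (u - lam) : ℝ) : ℂ)) =
      (Set.Ico lam (lam + η)).indicator (fun _ => (1 : ℂ)) -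
        (Set.Ico (lam + η) (lam + 2 * η)).indicator (fun _ => (1 : ℂ)) := by
    funext u
    rw [Pi.sub_apply]
    unfold psi
    by_cases h1 : 0 ≤ u - lam ∧ u - lam < η
    · rw [if_pos h1, Set.indicator_of_mem, Set.indicator_of_notMem]
      · simp
      · intro h2
        rw [Set.mem_Ico] at h2
        linarith [h1.2, h2.1]
      · rw [Set.mem_Ico]
        exact ⟨by linarith [h1.1], by linarith [h1.2]⟩
    · rw [if_neg h1, Set.indicator_of_notMem]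
      · by_cases h2 : η ≤ u - lam ∧ u - lam < 2 * η
        · rw [if_pos h2, Set.indicator_of_mem]
          · simp
          · rw [Set.mem_Ico]
            exact ⟨by linarith [h2.1], by linarith [h2.2]⟩
        · rw [if_neg h2, Set.indicator_of_notMem]
          · simp
          · intro h3
            rw [Set.mem_Ico] at h3
            exact h2 ⟨by linarith [h3.1], by linarith [h3.2]⟩
      · intro h3
        rw [Set.mem_Ico] at h3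
        exact h1 ⟨by linarith [h3.1], by linarith [h3.2]⟩
  rw [h]
  apply MemLp.sub
  · apply memLp_indicator_const 2 measurableSet_Ico
    right
    rw [Real.volume_Ico]
    exact ENNReal.ofReal_ne_top
  · apply memLp_indicator_const 2 measurableSet_Ico
    right
    rw [Real.volume_Ico]
    exact ENNReal.ofReal_ne_top

theorem psi_integrable {ι : Type} (P : Finset ι) (c : ι → ℂ) (lam : ι → ℝ) (η : ℝ) :
    Integrable (fun u : ℝ => ‖∑ p ∈ P, c p * ((psi η (u - lam p) : ℝ) : ℂ)‖ ^ 2)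
      (volume : Measure ℝ) := by
  have h1 : MemLp (fun u : ℝ => ∑ p ∈ P, c p * ((psi η (u - lam p) : ℝ) : ℂ)) 2
      (volume : Measure ℝ) := by
    apply memLp_finsetSum
    intro p _
    exact (psi_memLp η (lam p)).const_mul (c p)
  exact h1.integrable_norm_pow (by norm_num)

theorem int_sum {ι : Type} (J : Finset ι) (v : ι → ℝ → ℂ) (K : ℝ)
    (hv : ∀ j ∈ J, Integrable (fun u => ‖v j u‖ ^ 2) (volume : Measure ℝ))
    (hK : ∀ j ∈ J, ∫ u : ℝ, ‖v j u‖ ^ 2 ≤ K) :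
    ∫ u : ℝ, ‖∑ j ∈ J, v j u‖ ^ 2 ≤ (J.card : ℝ) ^ 2 * K := by
  have h1 : ∀ u : ℝ, ‖∑ j ∈ J, v j u‖ ^ 2 ≤ (J.card : ℝ) * ∑ j ∈ J, ‖v j u‖ ^ 2 := by
    intro u
    have h2 : ‖∑ j ∈ J, v j u‖ ≤ ∑ j ∈ J, ‖v j u‖ := norm_sum_le _ _
    calc ‖∑ j ∈ J, v j u‖ ^ 2 ≤ (∑ j ∈ J, ‖v j u‖) ^ 2 :=
          pow_le_pow_left₀ (norm_nonneg _) h2 2
      _ ≤ (J.card : ℝ) * ∑ j ∈ J, ‖v j u‖ ^ 2 := sq_sum_le_card_mul_sum_sq
  have h2 : Integrable (fun u => (J.card : ℝ) * ∑ j ∈ J, ‖v j u‖ ^ 2) (volume : Measure ℝ) :=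
    (integrable_finsetSum J hv).const_mul _
  calc ∫ u : ℝ, ‖∑ j ∈ J, v j u‖ ^ 2 ≤ ∫ u : ℝ, (J.card : ℝ) * ∑ j ∈ J, ‖v j u‖ ^ 2 := by
        apply integral_mono_of_nonneg
        · exact Filter.Eventually.of_forall fun u => by positivity
        · exact h2
        · exact Filter.Eventually.of_forall h1
    _ = (J.card : ℝ) * ∑ j ∈ J, ∫ u : ℝ, ‖v j u‖ ^ 2 := by
        rw [integral_const_mul, integral_finsetSum J hv]
    _ ≤ (J.card : ℝ) * ∑ _j ∈ J, K := by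
        apply mul_le_mul_of_nonneg_left (Finset.sum_le_sum hK) (by positivity)
    _ = (J.card : ℝ) ^ 2 * K := by
        rw [Finset.sum_const, nsmul_eq_mul]
        ring


theorem two_mul_three (A X : ℝ) (hA : 0 < A) : (2 * A) * (3 * X / A) = 6 * X := by
  field_simp
  ring

/-- the deterministic part -/
theorem core (ε₁ δ₅ δw C5 X D0 D1 : ℝ) (hε₁ : 0 < ε₁) (hX : 1 ≤ X) (hD0 : 0 ≤ D0)
    (h4 : ∀ (η D : ℝ) (A A' q ρ M : ℕ) (B : ℕ → ℂ), X ^ (ε₁ / 2) ≤ A → A ≤ A' → A' ≤ 2 * A →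
      1 ≤ q → (q : ℝ) ≤ X ^ δw → (M : ℝ) ≤ 3 * X / A → 0 < η → η ≤ X ^ (-(δ₅ / 2)) →
      (A : ℝ) ≤ 3 * η * X ^ (1 - ε₁ / 2) → 0 ≤ D → (∀ m ∈ Finset.Icc 1 M, ‖B m‖ ≤ D) →
      ∫ u : ℝ, ‖∑ p ∈ ((Finset.Ioc A A').filter (fun a => a % q = ρ % q)) ×ˢ Finset.Icc 1 M,
        B p.2 * ((psi η (u - Real.log ((p.1 : ℝ) * p.2)) : ℝ) : ℂ)‖ ^ 2 ≤
          D ^ 2 * η ^ 2 * X ^ (2 - δw))
    (h5 : ∀ (c : ℕ → ℂ) (D : ℝ) (a b ℓ N : ℕ), 1 ≤ ℓ → 2 * ℓ ≤ a → a ≤ b →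
      b ≤ 2 * a → b ≤ N → (∀ n, ‖c n‖ ≤ D) →
      ∑ x ∈ Finset.Icc (a + 2 * ℓ) b, ‖∑ n ∈ Finset.Ioc (x - ℓ) x, c n -
        ∑ n ∈ Finset.Ioc (x - 2 * ℓ) (x - ℓ), c n‖ ^ 2 ≤
      8 * b * (∫ u : ℝ, ‖∑ n ∈ Finset.Icc 1 N,
        c n * ((psi ((ℓ : ℝ) / a) (u - Real.log n) : ℝ) : ℂ)‖ ^ 2) +
        C5 * ((b : ℝ) - a + 1) * D ^ 2 * (1 + ℓ * ((b : ℝ) - a) / a + (ℓ : ℝ) ^ 2 / a) ^ 2)
    (hz1 : X ^ (ε₁ / 2) + 1 ≤ X ^ ε₁)
    (B : ℕ → ℝ) (hB : ∀ m : ℕ, 1 ≤ m → (m : ℝ) ≤ 3 * X → |B m| ≤ D0)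
    (hD1 : ∀ n : ℕ, 1 ≤ n → (n : ℝ) ≤ 6 * X → (n.divisors.card : ℝ) * D0 ≤ D1)
    (a b ℓ q : ℕ) (b' : ℤ) (hℓ1 : 1 ≤ ℓ) (hℓa : 2 * ℓ ≤ a) (hab : a ≤ b) (hb2 : b ≤ 2 * a)
    (hb3 : (b : ℝ) ≤ 3 * X) (hq1 : 1 ≤ q) (hqw : (q : ℝ) ≤ X ^ δw)
    (hη : (ℓ : ℝ) / a ≤ X ^ (-(δ₅ / 2))) (hℓ : X ^ (1 / 3 + 2 * ε₁) ≤ ℓ)
    (I : ℕ) (hI : ⌊X ^ (1 / 3 + ε₁)⌋₊ ≤ 2 ^ I) :
    ∑ x ∈ Finset.Icc (a + 2 * ℓ) b, ‖ws (T2 B (X ^ ε₁) (X ^ (1 / 3 + ε₁))) (b' / q) ℓ x -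
      ws (T2 B (X ^ ε₁) (X ^ (1 / 3 + ε₁))) (b' / q) ℓ (x - ℓ)‖ ^ 2 ≤
    8 * b * (((I : ℝ) * q) ^ 2 * (D0 ^ 2 * ((ℓ : ℝ) / a) ^ 2 * X ^ (2 - δw))) +
      C5 * ((b : ℝ) - a + 1) * D1 ^ 2 *
        (1 + ℓ * ((b : ℝ) - a) / a + (ℓ : ℝ) ^ 2 / a) ^ 2 := by
  have hX0 : (0 : ℝ) < X := by linarith
  have hzpos : 1 ≤ X ^ (ε₁ / 2) := Real.one_le_rpow hX (by linarith)
  have hz : 1 ≤ X ^ ε₁ := by linarith
  have hzw : X ^ ε₁ ≤ X ^ (1 / 3 + ε₁) := Real.rpow_le_rpow_of_exponent_le hX (by linarith)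
  have h0 : 1 ≤ ⌊X ^ ε₁⌋₊ := Nat.le_floor (by simpa using hz)
  have hw : ⌊X ^ ε₁⌋₊ ≤ ⌊X ^ (1 / 3 + ε₁)⌋₊ := Nat.floor_le_floor hzw
  have haN : 1 ≤ a := by omega
  have ha0 : (0 : ℝ) < a := by exact_mod_cast haN
  have hη0 : (0 : ℝ) < (ℓ : ℝ) / a := by
    apply div_pos _ ha0
    exact_mod_cast hℓ1
  have hAge : ∀ i, 1 ≤ Ai ⌊X ^ ε₁⌋₊ ⌊X ^ (1 / 3 + ε₁)⌋₊ i := fun i =>
    le_trans h0 (Ai_ge _ _ i hw)
  obtain ⟨M, hM⟩ : ∃ M : ℕ → ℕ, ∀ i, M i = ⌊3 * X / (Ai ⌊X ^ ε₁⌋₊ ⌊X ^ (1 / 3 + ε₁)⌋₊ i : ℝ)⌋₊ :=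
    ⟨fun i => ⌊3 * X / (Ai ⌊X ^ ε₁⌋₊ ⌊X ^ (1 / 3 + ε₁)⌋₊ i : ℝ)⌋₊, fun i => rfl⟩
  have hMle : ∀ i, (M i : ℝ) ≤ 3 * X / (Ai ⌊X ^ ε₁⌋₊ ⌊X ^ (1 / 3 + ε₁)⌋₊ i : ℝ) := by
    intro i
    rw [hM i]
    exact Nat.floor_le (by positivity)
  have hM3 : ∀ i, (M i : ℝ) ≤ 3 * X := by
    intro i
    refine le_trans (hMle i) ?_
    apply div_le_self (by linarith)
    exact_mod_cast hAge i
  have hMB : ∀ i < I, ∀ m ∈ Finset.Icc 1 (M i), |B m| ≤ D0 := by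
    intro i _ m hm
    rw [Finset.mem_Icc] at hm
    apply hB m hm.1
    refine le_trans ?_ (hM3 i)
    exact_mod_cast hm.2
  have hN : ∀ i < I, Ai ⌊X ^ ε₁⌋₊ ⌊X ^ (1 / 3 + ε₁)⌋₊ (i + 1) * M i ≤ ⌊6 * X⌋₊ := by
    intro i _
    apply Nat.le_floor
    have hp : (0 : ℝ) < (Ai ⌊X ^ ε₁⌋₊ ⌊X ^ (1 / 3 + ε₁)⌋₊ i : ℝ) := by exact_mod_cast hAge i
    have h1 : (Ai ⌊X ^ ε₁⌋₊ ⌊X ^ (1 / 3 + ε₁)⌋₊ (i + 1) : ℝ) ≤
        2 * (Ai ⌊X ^ ε₁⌋₊ ⌊X ^ (1 / 3 + ε₁)⌋₊ i : ℝ) := by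
      exact_mod_cast Ai_double _ _ i
    push_cast
    calc (Ai ⌊X ^ ε₁⌋₊ ⌊X ^ (1 / 3 + ε₁)⌋₊ (i + 1) : ℝ) * (M i : ℝ)
        ≤ (2 * (Ai ⌊X ^ ε₁⌋₊ ⌊X ^ (1 / 3 + ε₁)⌋₊ i : ℝ)) *
          (3 * X / (Ai ⌊X ^ ε₁⌋₊ ⌊X ^ (1 / 3 + ε₁)⌋₊ i : ℝ)) :=
          mul_le_mul h1 (hMle i) (by positivity) (by positivity)
      _ = 6 * X := two_mul_three _ X hp
  obtain ⟨c, hc⟩ : ∃ c : ℕ → ℂ, ∀ n, c n = if 1 ≤ n ∧ n ≤ ⌊6 * X⌋₊ then
      cc B ⌊X ^ ε₁⌋₊ ⌊X ^ (1 / 3 + ε₁)⌋₊ I q b' M n else 0 := ⟨_, fun n => rfl⟩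
  have hb6 : b ≤ ⌊6 * X⌋₊ := by
    apply Nat.le_floor
    linarith
  have hD1nn : 0 ≤ D1 := le_trans (by positivity) (hD1 1 le_rfl (by push_cast; linarith))
  have hcD : ∀ n, ‖c n‖ ≤ D1 := by
    intro n
    rw [hc n]
    split_ifs with h
    · refine le_trans (cc_norm B _ _ I q b' M n hq1 h0 hw hI D0 hD0 hMB h.1) (hD1 n h.1 ?_)
      exact (Nat.le_floor_iff (by linarith)).mp h.2
    · simpa using hD1nn
  have hcv : ∀ n, 1 ≤ n → n ≤ b → c n =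
      (T2 B (X ^ ε₁) (X ^ (1 / 3 + ε₁)) n : ℂ) * ee ((n : ℝ) * ((b' : ℝ) / q)) := by
    intro n hn1 hnb
    rw [hc n, if_pos ⟨hn1, le_trans hnb hb6⟩]
    apply cc_val B _ _ X I q b' M n hq1 hz hzw hI hn1 _ (fun i _ => hM i)
    refine le_trans ?_ hb3
    exact_mod_cast hnb
  have hmain := h5 c D1 a b ℓ ⌊6 * X⌋₊ hℓ1 hℓa hab hb2 hb6 hcD
  have hL : ∑ x ∈ Finset.Icc (a + 2 * ℓ) b, ‖ws (T2 B (X ^ ε₁) (X ^ (1 / 3 + ε₁))) (b' / q) ℓ x -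
      ws (T2 B (X ^ ε₁) (X ^ (1 / 3 + ε₁))) (b' / q) ℓ (x - ℓ)‖ ^ 2 =
      ∑ x ∈ Finset.Icc (a + 2 * ℓ) b, ‖∑ n ∈ Finset.Ioc (x - ℓ) x, c n -
        ∑ n ∈ Finset.Ioc (x - 2 * ℓ) (x - ℓ), c n‖ ^ 2 := by
    apply Finset.sum_congr rfl
    intro x hx
    rw [Finset.mem_Icc] at hx
    have e1 : ws (T2 B (X ^ ε₁) (X ^ (1 / 3 + ε₁))) (b' / q) ℓ x =
        ∑ n ∈ Finset.Ioc (x - ℓ) x, c n := by
      unfold ws
      apply Finset.sum_congr rfl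
      intro n hn
      rw [Finset.mem_Ioc] at hn
      rw [hcv n (by omega) (by omega)]
    have e2 : ws (T2 B (X ^ ε₁) (X ^ (1 / 3 + ε₁))) (b' / q) ℓ (x - ℓ) =
        ∑ n ∈ Finset.Ioc (x - 2 * ℓ) (x - ℓ), c n := by
      unfold ws
      have e3 : x - ℓ - ℓ = x - 2 * ℓ := by omega
      rw [e3]
      apply Finset.sum_congr rfl
      intro n hn
      rw [Finset.mem_Ioc] at hn
      rw [hcv n (by omega) (by omega)]
    rw [e1, e2]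
  rw [hL]
  refine le_trans hmain ?_
  have hint : ∫ u : ℝ, ‖∑ n ∈ Finset.Icc 1 ⌊6 * X⌋₊,
        c n * ((psi ((ℓ : ℝ) / a) (u - Real.log n) : ℝ) : ℂ)‖ ^ 2 ≤
      ((I : ℝ) * q) ^ 2 * (D0 ^ 2 * ((ℓ : ℝ) / a) ^ 2 * X ^ (2 - δw)) := by
    have e1 : (fun u : ℝ => ‖∑ n ∈ Finset.Icc 1 ⌊6 * X⌋₊,
        c n * ((psi ((ℓ : ℝ) / a) (u - Real.log n) : ℝ) : ℂ)‖ ^ 2) = fun u : ℝ =>
        ‖∑ j ∈ Finset.range I ×ˢ Finset.range q, ∑ p ∈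
          ((Finset.Ioc (Ai ⌊X ^ ε₁⌋₊ ⌊X ^ (1 / 3 + ε₁)⌋₊ j.1)
            (Ai ⌊X ^ ε₁⌋₊ ⌊X ^ (1 / 3 + ε₁)⌋₊ (j.1 + 1))).filter
          (fun a => a % q = j.2 % q)) ×ˢ Finset.Icc 1 (M j.1),
          ((B p.2 : ℂ) * ee ((b' : ℝ) * j.2 * p.2 / q)) *
            ((psi ((ℓ : ℝ) / a) (u - Real.log ((p.1 : ℝ) * p.2)) : ℝ) : ℂ)‖ ^ 2 := by
      funext u
      have e2 := psi_sum B ⌊X ^ ε₁⌋₊ ⌊X ^ (1 / 3 + ε₁)⌋₊ I q b' M ⌊6 * X⌋₊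
        (fun n => ((psi ((ℓ : ℝ) / a) (u - Real.log n) : ℝ) : ℂ)) hN
      have e3 : ∑ n ∈ Finset.Icc 1 ⌊6 * X⌋₊,
          c n * ((psi ((ℓ : ℝ) / a) (u - Real.log n) : ℝ) : ℂ) =
          ∑ n ∈ Finset.Icc 1 ⌊6 * X⌋₊, cc B ⌊X ^ ε₁⌋₊ ⌊X ^ (1 / 3 + ε₁)⌋₊ I q b' M n *
            ((psi ((ℓ : ℝ) / a) (u - Real.log n) : ℝ) : ℂ) := by
        apply Finset.sum_congr rfl
        intro n hn
        rw [hc n, if_pos (Finset.mem_Icc.mp hn)]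
      rw [e3, e2]
      simp only [Nat.cast_mul]
    rw [e1]
    have e4 := int_sum (Finset.range I ×ˢ Finset.range q)
      (fun (j : ℕ × ℕ) (u : ℝ) => ∑ p ∈
          ((Finset.Ioc (Ai ⌊X ^ ε₁⌋₊ ⌊X ^ (1 / 3 + ε₁)⌋₊ j.1)
            (Ai ⌊X ^ ε₁⌋₊ ⌊X ^ (1 / 3 + ε₁)⌋₊ (j.1 + 1))).filter
          (fun a => a % q = j.2 % q)) ×ˢ Finset.Icc 1 (M j.1),
          ((B p.2 : ℂ) * ee ((b' : ℝ) * j.2 * p.2 / q)) *
            ((psi ((ℓ : ℝ) / a) (u - Real.log ((p.1 : ℝ) * p.2)) : ℝ) : ℂ))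
      (D0 ^ 2 * ((ℓ : ℝ) / a) ^ 2 * X ^ (2 - δw)) ?_ ?_
    · rw [Finset.card_product, Finset.card_range, Finset.card_range] at e4
      push_cast at e4
      exact e4
    · intro j _
      exact psi_integrable _ (fun p : ℕ × ℕ => (B p.2 : ℂ) * ee ((b' : ℝ) * j.2 * p.2 / q))
        (fun p : ℕ × ℕ => Real.log ((p.1 : ℝ) * p.2)) _
    · intro j hj
      rw [Finset.mem_product, Finset.mem_range, Finset.mem_range] at hj
      apply h4 ((ℓ : ℝ) / a) D0 (Ai ⌊X ^ ε₁⌋₊ ⌊X ^ (1 / 3 + ε₁)⌋₊ j.1)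
        (Ai ⌊X ^ ε₁⌋₊ ⌊X ^ (1 / 3 + ε₁)⌋₊ (j.1 + 1)) q j.2 (M j.1)
        (fun m => (B m : ℂ) * ee ((b' : ℝ) * j.2 * m / q)) _ (Ai_mono _ _ _) (Ai_double _ _ _)
        hq1 hqw (hMle j.1) hη0 hη _ hD0 _
      · have g1 : X ^ ε₁ - 1 ≤ (⌊X ^ ε₁⌋₊ : ℝ) := (Nat.sub_one_lt_floor _).le
        have g2 : (⌊X ^ ε₁⌋₊ : ℝ) ≤ (Ai ⌊X ^ ε₁⌋₊ ⌊X ^ (1 / 3 + ε₁)⌋₊ j.1 : ℝ) := by
          exact_mod_cast Ai_ge _ _ j.1 hw
        linarith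
      · have g1 : (Ai ⌊X ^ ε₁⌋₊ ⌊X ^ (1 / 3 + ε₁)⌋₊ j.1 : ℝ) ≤ X ^ (1 / 3 + ε₁) := by
          refine le_trans ?_ (Nat.floor_le (by positivity))
          exact_mod_cast Ai_le _ _ _
        have g2 : X ^ (1 / 3 + ε₁) = X ^ (1 / 3 + 2 * ε₁) * X ^ (-ε₁) := by
          rw [← Real.rpow_add hX0]
          congr 1
          ring
        have g3 : (a : ℝ) ≤ 3 * X := le_trans (by exact_mod_cast hab) hb3
        have g4 : X * X ^ (-ε₁) = X ^ (1 - ε₁) := by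
          rw [sub_eq_add_neg, Real.rpow_add hX0, Real.rpow_one]
        calc (Ai ⌊X ^ ε₁⌋₊ ⌊X ^ (1 / 3 + ε₁)⌋₊ j.1 : ℝ) ≤ X ^ (1 / 3 + 2 * ε₁) * X ^ (-ε₁) := by
              rw [← g2]; exact g1
          _ ≤ (ℓ : ℝ) * X ^ (-ε₁) := by
              apply mul_le_mul_of_nonneg_right hℓ (by positivity)
          _ = (ℓ : ℝ) / a * (a * X ^ (-ε₁)) := by field_simp
          _ ≤ (ℓ : ℝ) / a * (3 * X * X ^ (-ε₁)) := by
              apply mul_le_mul_of_nonneg_left _ hη0.le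
              apply mul_le_mul_of_nonneg_right g3 (by positivity)
          _ = 3 * ((ℓ : ℝ) / a) * (X * X ^ (-ε₁)) := by ring
          _ = 3 * ((ℓ : ℝ) / a) * X ^ (1 - ε₁) := by rw [g4]
          _ ≤ 3 * ((ℓ : ℝ) / a) * X ^ (1 - ε₁ / 2) := by
              apply mul_le_mul_of_nonneg_left _ (by positivity)
              exact Real.rpow_le_rpow_of_exponent_le hX (by linarith)
      · intro m hm
        rw [norm_mul, norm_ee, mul_one, Complex.norm_real, Real.norm_eq_abs]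
        exact hMB j.1 hj.1 m hm
  have hb0 : (0 : ℝ) ≤ 8 * (b : ℝ) := by positivity
  have := mul_le_mul_of_nonneg_left hint hb0
  linarith


/-- a power beats the square of the logarithm -/
theorem ev_log (K s : ℝ) (hs : 0 < s) : ∀ᶠ X : ℝ in atTop,
    K * (2 * Real.log X + 1) ^ 2 ≤ X ^ s := by
  have hs4 : 0 < s / 4 := by linarith
  have h1 : Tendsto (fun X : ℝ => X ^ (s / 2)) atTop atTop := tendsto_rpow_atTop (by linarith)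
  filter_upwards [h1.eventually_ge_atTop (|K| * (2 / (s / 4) + 1) ^ 2), eventually_ge_atTop 1]
    with X hX hX1
  have hX0 : 0 < X := by linarith
  have hl : Real.log X ≤ X ^ (s / 4) / (s / 4) := Real.log_le_rpow_div hX0.le hs4
  have hl0 : 0 ≤ Real.log X := Real.log_nonneg hX1
  have hX4 : 1 ≤ X ^ (s / 4) := Real.one_le_rpow hX1 hs4.le
  have h2 : 2 * Real.log X + 1 ≤ (2 / (s / 4) + 1) * X ^ (s / 4) := by
    calc 2 * Real.log X + 1 ≤ 2 * (X ^ (s / 4) / (s / 4)) + X ^ (s / 4) := by linarith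
      _ = (2 / (s / 4) + 1) * X ^ (s / 4) := by ring
  have h3 : (2 * Real.log X + 1) ^ 2 ≤ (2 / (s / 4) + 1) ^ 2 * X ^ (s / 2) := by
    calc (2 * Real.log X + 1) ^ 2 ≤ ((2 / (s / 4) + 1) * X ^ (s / 4)) ^ 2 :=
          pow_le_pow_left₀ (by linarith) h2 2
      _ = (2 / (s / 4) + 1) ^ 2 * (X ^ (s / 4) * X ^ (s / 4)) := by ring
      _ = (2 / (s / 4) + 1) ^ 2 * X ^ (s / 2) := by
          rw [← Real.rpow_add hX0]
          congr 2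
          ring
  calc K * (2 * Real.log X + 1) ^ 2 ≤ |K| * (2 * Real.log X + 1) ^ 2 :=
        mul_le_mul_of_nonneg_right (le_abs_self K) (sq_nonneg _)
    _ ≤ |K| * ((2 / (s / 4) + 1) ^ 2 * X ^ (s / 2)) :=
        mul_le_mul_of_nonneg_left h3 (abs_nonneg K)
    _ = (|K| * (2 / (s / 4) + 1) ^ 2) * X ^ (s / 2) := by ring
    _ ≤ X ^ (s / 2) * X ^ (s / 2) := mul_le_mul_of_nonneg_right hX (by positivity)
    _ = X ^ s := by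
        rw [← Real.rpow_add hX0]
        congr 1
        ring

theorem ev_const (K s : ℝ) (hs : 0 < s) : ∀ᶠ X : ℝ in atTop, K ≤ X ^ s :=
  (tendsto_rpow_atTop hs).eventually_ge_atTop K

/-- first numerical condition -/
theorem ev_first (c ε e1 e2 : ℝ) (h : 2 * ε + e1 < e2) : ∀ᶠ X : ℝ in atTop,
    24 * (2 * Real.log X + 1) ^ 2 * (c * (3 * X) ^ ε) ^ 2 * X ^ e1 ≤ X ^ e2 / 2 := by
  filter_upwards [ev_log (48 * (c * 3 ^ ε) ^ 2) (e2 - (2 * ε + e1)) (by linarith),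
    eventually_gt_atTop 0] with X hX hX0
  have h1 : (3 * X) ^ ε = 3 ^ ε * X ^ ε := Real.mul_rpow (by norm_num) hX0.le
  have h2 : X ^ ε * X ^ ε * X ^ e1 = X ^ (2 * ε + e1) := by
    rw [← Real.rpow_add hX0, ← Real.rpow_add hX0]
    congr 1
    ring
  have h3 : X ^ (e2 - (2 * ε + e1)) * X ^ (2 * ε + e1) = X ^ e2 := by
    rw [← Real.rpow_add hX0]
    congr 1
    ring
  calc 24 * (2 * Real.log X + 1) ^ 2 * (c * (3 * X) ^ ε) ^ 2 * X ^ e1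
      = (48 * (c * 3 ^ ε) ^ 2 * (2 * Real.log X + 1) ^ 2) * (X ^ ε * X ^ ε * X ^ e1) / 2 := by
        rw [h1]; ring
    _ = (48 * (c * 3 ^ ε) ^ 2 * (2 * Real.log X + 1) ^ 2) * X ^ (2 * ε + e1) / 2 := by rw [h2]
    _ ≤ X ^ (e2 - (2 * ε + e1)) * X ^ (2 * ε + e1) / 2 := by
        apply div_le_div_of_nonneg_right _ (by norm_num)
        exact mul_le_mul_of_nonneg_right hX (by positivity)
    _ = X ^ e2 / 2 := by rw [h3]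

/-- second numerical condition -/
theorem ev_second (c K ε e1 e2 : ℝ) (h : 4 * ε + e1 < e2) : ∀ᶠ X : ℝ in atTop,
    K * (c * ((6 * X) ^ ε * (3 * X) ^ ε)) ^ 2 * X ^ e1 ≤ X ^ e2 / 2 := by
  filter_upwards [ev_const (2 * K * (c * (6 ^ ε * 3 ^ ε)) ^ 2) (e2 - (4 * ε + e1)) (by linarith),
    eventually_gt_atTop 0] with X hX hX0
  have h1 : (3 * X) ^ ε = 3 ^ ε * X ^ ε := Real.mul_rpow (by norm_num) hX0.le
  have h1' : (6 * X) ^ ε = 6 ^ ε * X ^ ε := Real.mul_rpow (by norm_num) hX0.le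
  have h2 : X ^ ε * X ^ ε * (X ^ ε * X ^ ε) * X ^ e1 = X ^ (4 * ε + e1) := by
    rw [← Real.rpow_add hX0, ← Real.rpow_add hX0, ← Real.rpow_add hX0]
    congr 1
    ring
  have h3 : X ^ (e2 - (4 * ε + e1)) * X ^ (4 * ε + e1) = X ^ e2 := by
    rw [← Real.rpow_add hX0]
    congr 1
    ring
  calc K * (c * ((6 * X) ^ ε * (3 * X) ^ ε)) ^ 2 * X ^ e1
      = (2 * K * (c * (6 ^ ε * 3 ^ ε)) ^ 2) * (X ^ ε * X ^ ε * (X ^ ε * X ^ ε) * X ^ e1) / 2 := by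
        rw [h1, h1']; ring
    _ = (2 * K * (c * (6 ^ ε * 3 ^ ε)) ^ 2) * X ^ (4 * ε + e1) / 2 := by rw [h2]
    _ ≤ X ^ (e2 - (4 * ε + e1)) * X ^ (4 * ε + e1) / 2 := by
        apply div_le_div_of_nonneg_right _ (by norm_num)
        exact mul_le_mul_of_nonneg_right hX (by positivity)
    _ = X ^ e2 / 2 := by rw [h3]

/-- bound of the number of dyadic ranges -/
theorem log_bound (X t : ℝ) (hX : 1 ≤ X) (ht : t ≤ 1) :
    ((Nat.log 2 ⌊X ^ t⌋₊ + 1 : ℕ) : ℝ) ≤ 2 * Real.log X + 1 := by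
  have hl0 : 0 ≤ Real.log X := Real.log_nonneg hX
  rcases Nat.eq_zero_or_pos ⌊X ^ t⌋₊ with h | h
  · rw [h]
    simp
    exact hl0
  · have h1 : 2 ^ (Nat.log 2 ⌊X ^ t⌋₊) ≤ ⌊X ^ t⌋₊ := Nat.pow_log_le_self 2 h.ne'
    have h2 : ((2 : ℝ)) ^ (Nat.log 2 ⌊X ^ t⌋₊) ≤ X := by
      calc ((2 : ℝ)) ^ (Nat.log 2 ⌊X ^ t⌋₊) ≤ (⌊X ^ t⌋₊ : ℝ) := by exact_mod_cast h1
        _ ≤ X ^ t := Nat.floor_le (by positivity)
        _ ≤ X ^ (1 : ℝ) := Real.rpow_le_rpow_of_exponent_le hX ht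
        _ = X := Real.rpow_one X
    have h3 := Real.log_le_log (by positivity) h2
    rw [Real.log_pow] at h3
    have h4 : (1 / 2 : ℝ) ≤ Real.log 2 := by
      have := Real.log_two_gt_d9
      linarith
    have h5 : (0 : ℝ) ≤ (Nat.log 2 ⌊X ^ t⌋₊ : ℝ) := by positivity
    push_cast
    nlinarith


theorem first_bound (X b I q D0 ℓ a δm δ₁ δw : ℝ) (hX : 1 ≤ X) (hb : b ≤ 3 * X)
    (hI0 : 0 ≤ I) (hI : I ≤ 2 * Real.log X + 1) (hq0 : 0 ≤ q) (hq : q ≤ X ^ δm)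
    (hℓ : 0 ≤ ℓ) (ha : X ^ (1 - δ₁ / 2) ≤ a) :
    8 * b * ((I * q) ^ 2 * (D0 ^ 2 * (ℓ / a) ^ 2 * X ^ (2 - δw))) ≤
      ℓ ^ 2 * (24 * (2 * Real.log X + 1) ^ 2 * D0 ^ 2 * X ^ (1 + 2 * δm + δ₁ - δw)) := by
  have hX0 : 0 < X := by linarith
  have hpa : 0 < X ^ (1 - δ₁ / 2) := by positivity
  have ha0 : 0 < a := lt_of_lt_of_le hpa ha
  have h1 : (ℓ / a) ^ 2 ≤ ℓ ^ 2 * X ^ (δ₁ - 2) := by
    have h2 : ℓ / a ≤ ℓ / X ^ (1 - δ₁ / 2) := div_le_div_of_nonneg_left hℓ hpa ha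
    have h3 : ℓ / X ^ (1 - δ₁ / 2) = ℓ * X ^ (-(1 - δ₁ / 2)) := by
      rw [Real.rpow_neg hX0.le]; rfl
    calc (ℓ / a) ^ 2 ≤ (ℓ * X ^ (-(1 - δ₁ / 2))) ^ 2 := by
          apply pow_le_pow_left₀ (by positivity)
          rw [← h3]; exact h2
      _ = ℓ ^ 2 * (X ^ (-(1 - δ₁ / 2)) * X ^ (-(1 - δ₁ / 2))) := by ring
      _ = ℓ ^ 2 * X ^ (δ₁ - 2) := by
          rw [← Real.rpow_add hX0]
          congr 2
          ring
  have h4 : (I * q) ^ 2 ≤ (2 * Real.log X + 1) ^ 2 * X ^ (2 * δm) := by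
    calc (I * q) ^ 2 ≤ ((2 * Real.log X + 1) * X ^ δm) ^ 2 := by
          apply pow_le_pow_left₀ (by positivity)
          exact mul_le_mul hI hq hq0 (le_trans hI0 hI)
      _ = (2 * Real.log X + 1) ^ 2 * (X ^ δm * X ^ δm) := by ring
      _ = (2 * Real.log X + 1) ^ 2 * X ^ (2 * δm) := by
          rw [← Real.rpow_add hX0]
          congr 2
          ring
  have h5 : X * X ^ (2 * δm) * X ^ (δ₁ - 2) * X ^ (2 - δw) = X ^ (1 + 2 * δm + δ₁ - δw) := by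
    nth_rewrite 1 [← Real.rpow_one X]
    rw [← Real.rpow_add hX0, ← Real.rpow_add hX0, ← Real.rpow_add hX0]
    congr 1
    ring
  calc 8 * b * ((I * q) ^ 2 * (D0 ^ 2 * (ℓ / a) ^ 2 * X ^ (2 - δw)))
      ≤ 8 * (3 * X) * (((2 * Real.log X + 1) ^ 2 * X ^ (2 * δm)) *
          (D0 ^ 2 * (ℓ ^ 2 * X ^ (δ₁ - 2)) * X ^ (2 - δw))) := by
        apply mul_le_mul (by linarith) _ (by positivity) (by positivity)
        apply mul_le_mul h4 _ (by positivity) (by positivity)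
        apply mul_le_mul_of_nonneg_right _ (by positivity)
        exact mul_le_mul_of_nonneg_left h1 (by positivity)
    _ = ℓ ^ 2 * (24 * (2 * Real.log X + 1) ^ 2 * D0 ^ 2 *
          (X * X ^ (2 * δm) * X ^ (δ₁ - 2) * X ^ (2 - δw))) := by ring
    _ = _ := by rw [h5]

theorem second_bound (X b a ℓ C5 D1 δ₁ δ₅ : ℝ) (hX : 1 ≤ X) (hδ₁ : 0 < δ₁) (hδ : δ₁ ≤ δ₅)
    (hδ₅ : δ₅ ≤ 1 / 20) (hC5 : 0 ≤ C5) (hab : a ≤ b) (hba : b ≤ a + X ^ (1 - δ₁))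
    (ha : X ^ (1 - δ₁ / 2) ≤ a) (hℓ : X ^ (1 / 3 : ℝ) ≤ ℓ) (hℓ' : ℓ ≤ X ^ (1 - δ₅)) :
    C5 * (b - a + 1) * D1 ^ 2 * (1 + ℓ * (b - a) / a + ℓ ^ 2 / a) ^ 2 ≤
      ℓ ^ 2 * (18 * C5 * D1 ^ 2 * X ^ (1 - 2 * δ₁)) := by
  have hX0 : 0 < X := by linarith
  have hpa : 0 < X ^ (1 - δ₁ / 2) := by positivity
  have ha0 : 0 < a := lt_of_lt_of_le hpa ha
  have hℓ0 : 0 < ℓ := lt_of_lt_of_le (by positivity) hℓ
  have g1 : b - a + 1 ≤ 2 * X ^ (1 - δ₁) := by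
    have : 1 ≤ X ^ (1 - δ₁) := Real.one_le_rpow hX (by linarith)
    linarith
  have g2 : 1 ≤ ℓ * X ^ (-(δ₁ / 2)) := by
    calc (1 : ℝ) ≤ X ^ (1 / 3 + -(δ₁ / 2)) := Real.one_le_rpow hX (by linarith)
      _ = X ^ (1 / 3 : ℝ) * X ^ (-(δ₁ / 2)) := Real.rpow_add hX0 _ _
      _ ≤ ℓ * X ^ (-(δ₁ / 2)) := mul_le_mul_of_nonneg_right hℓ (by positivity)
  have g3 : ℓ * (b - a) / a ≤ ℓ * X ^ (-(δ₁ / 2)) := by
    rw [div_le_iff₀ ha0]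
    calc ℓ * (b - a) ≤ ℓ * X ^ (1 - δ₁) := by
          apply mul_le_mul_of_nonneg_left (by linarith) hℓ0.le
      _ = ℓ * (X ^ (-(δ₁ / 2)) * X ^ (1 - δ₁ / 2)) := by
          rw [← Real.rpow_add hX0]
          congr 2
          ring
      _ ≤ ℓ * (X ^ (-(δ₁ / 2)) * a) := by
          apply mul_le_mul_of_nonneg_left _ hℓ0.le
          exact mul_le_mul_of_nonneg_left ha (by positivity)
      _ = ℓ * X ^ (-(δ₁ / 2)) * a := by ring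
  have g4 : ℓ ^ 2 / a ≤ ℓ * X ^ (-(δ₁ / 2)) := by
    rw [div_le_iff₀ ha0]
    calc ℓ ^ 2 = ℓ * ℓ := by ring
      _ ≤ ℓ * X ^ (1 - δ₅) := mul_le_mul_of_nonneg_left hℓ' hℓ0.le
      _ ≤ ℓ * X ^ (1 - δ₁) := by
          apply mul_le_mul_of_nonneg_left _ hℓ0.le
          exact Real.rpow_le_rpow_of_exponent_le hX (by linarith)
      _ = ℓ * (X ^ (-(δ₁ / 2)) * X ^ (1 - δ₁ / 2)) := by
          rw [← Real.rpow_add hX0]
          congr 2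
          ring
      _ ≤ ℓ * (X ^ (-(δ₁ / 2)) * a) := by
          apply mul_le_mul_of_nonneg_left _ hℓ0.le
          exact mul_le_mul_of_nonneg_left ha (by positivity)
      _ = ℓ * X ^ (-(δ₁ / 2)) * a := by ring
  have g5 : 0 ≤ ℓ * (b - a) / a := by
    apply div_nonneg _ ha0.le
    exact mul_nonneg hℓ0.le (by linarith)
  have g6 : 0 ≤ ℓ ^ 2 / a := by positivity
  have g7 : (1 + ℓ * (b - a) / a + ℓ ^ 2 / a) ^ 2 ≤ 9 * (ℓ ^ 2 * X ^ (-δ₁)) := by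
    calc (1 + ℓ * (b - a) / a + ℓ ^ 2 / a) ^ 2 ≤ (3 * (ℓ * X ^ (-(δ₁ / 2)))) ^ 2 := by
          apply pow_le_pow_left₀ (by linarith)
          linarith
      _ = 9 * (ℓ ^ 2 * (X ^ (-(δ₁ / 2)) * X ^ (-(δ₁ / 2)))) := by ring
      _ = 9 * (ℓ ^ 2 * X ^ (-δ₁)) := by
          rw [← Real.rpow_add hX0]
          congr 3
          ring
  have g8 : X ^ (1 - δ₁) * X ^ (-δ₁) = X ^ (1 - 2 * δ₁) := by
    rw [← Real.rpow_add hX0]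
    congr 1
    ring
  calc C5 * (b - a + 1) * D1 ^ 2 * (1 + ℓ * (b - a) / a + ℓ ^ 2 / a) ^ 2
      ≤ C5 * (2 * X ^ (1 - δ₁)) * D1 ^ 2 * (9 * (ℓ ^ 2 * X ^ (-δ₁))) := by
        apply mul_le_mul _ g7 (by positivity) (by positivity)
        apply mul_le_mul_of_nonneg_right _ (sq_nonneg _)
        exact mul_le_mul_of_nonneg_left g1 hC5
    _ = ℓ ^ 2 * (18 * C5 * D1 ^ 2 * (X ^ (1 - δ₁) * X ^ (-δ₁))) := by ring
    _ = _ := by rw [g8]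

end IP6

theorem prP6 (hL0 : tsL0) (hP4 : tsP4) (hP5 : tsP5) : tsP6 := by
  intro r ε₁ δ₅ hr hε₁ hε₁' hδ₅ hδ₅'
  have hr2 : (2 : ℝ) ≤ r := by exact_mod_cast hr
  have hε48 : ε₁ ≤ 1 / 48 := by
    refine le_trans hε₁' ?_
    apply div_le_div_of_nonneg_left (by norm_num) (by norm_num)
    linarith
  obtain ⟨δw, X04, hδw, h4⟩ := hP4 (ε₁ / 2) (δ₅ / 2) (by linarith) (by linarith) (by linarith)
    (by linarith)
  obtain ⟨C5, hC5, h5⟩ := hP5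
  refine ⟨min (δw / 8) (δ₅ / 4), lt_min (by linarith) (by linarith), ?_⟩
  intro δ₁ hδ₁ hδ₁m
  obtain ⟨δm, hδmdef⟩ : ∃ δm : ℝ, δm = min (δw / 8) (δ₅ / 4) := ⟨_, rfl⟩
  rw [← hδmdef] at hδ₁m
  have hm1 : δm ≤ δw / 8 := by rw [hδmdef]; exact min_le_left _ _
  have hm2 : δm ≤ δ₅ / 4 := by rw [hδmdef]; exact min_le_right _ _
  obtain ⟨C0, hC0, hLr⟩ := hL0 r (δ₁ / 100) (by linarith)
  obtain ⟨C2, hC2, hL2⟩ := hL0 2 (δ₁ / 100) (by linarith)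
  have F1 := IP6.ev_const 2 (ε₁ / 2) (by linarith)
  have F2 := IP6.ev_const 2 (δ₅ - δ₁ / 2) (by linarith)
  have F3 := IP6.ev_first (r * C0) (δ₁ / 100) (1 + 2 * δm + δ₁ - δw) (1 - δ₁ - δ₁ / 40)
    (by linarith)
  have F4 := IP6.ev_second (C2 * (r * C0)) (18 * C5) (δ₁ / 100) (1 - 2 * δ₁)
    (1 - δ₁ - δ₁ / 40) (by linarith)
  obtain ⟨X0, hX0⟩ := Filter.eventually_atTop.mp ((F1.and F2).and ((F3.and F4).and
    ((eventually_ge_atTop X04).and (eventually_ge_atTop (1 : ℝ)))))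
  refine ⟨X0, ?_⟩
  intro X hX B hB a b hBlk ℓ q b' hℓ hℓ' hq1 hqm
  rw [← hδmdef] at hqm
  obtain ⟨⟨f1, f2⟩, ⟨f3, f4⟩, f5, f6⟩ := hX0 X hX
  obtain ⟨hB1, hB2, hB3, hB4⟩ := hBlk
  have hXp : 0 < X := by linarith
  have hℓ3 : X ^ (1 / 3 : ℝ) ≤ ℓ :=
    le_trans (Real.rpow_le_rpow_of_exponent_le f6 (by linarith)) hℓ
  have hℓ1 : 1 ≤ ℓ := by
    have : (1 : ℝ) ≤ ℓ := le_trans (Real.one_le_rpow f6 (by linarith)) hℓ3
    exact_mod_cast this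
  have hpow : X ^ (1 - δ₁) ≤ X ^ (1 - δ₁ / 2) :=
    Real.rpow_le_rpow_of_exponent_le f6 (by linarith)
  have hab' : (a : ℝ) ≤ b := by
    have : 0 ≤ X ^ (1 - δ₁) := by positivity
    linarith
  have hab : a ≤ b := by exact_mod_cast hab'
  have hb2 : b ≤ 2 * a := by
    have : (b : ℝ) ≤ 2 * a := by linarith
    exact_mod_cast this
  have hℓa : 2 * ℓ ≤ a := by
    have h1 : (2 : ℝ) * ℓ ≤ a := by
      calc (2 : ℝ) * ℓ ≤ X ^ (δ₅ - δ₁ / 2) * X ^ (1 - δ₅) :=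
            mul_le_mul f2 hℓ' (by positivity) (by positivity)
        _ = X ^ (1 - δ₁ / 2) := by
            rw [← Real.rpow_add hXp]
            congr 1
            ring
        _ ≤ a := hB1
    exact_mod_cast h1
  have ha0 : (0 : ℝ) < a := lt_of_lt_of_le (by positivity) hB1
  have hη : (ℓ : ℝ) / a ≤ X ^ (-(δ₅ / 2)) := by
    rw [div_le_iff₀ ha0]
    calc (ℓ : ℝ) ≤ X ^ (1 - δ₅) := hℓ'
      _ ≤ X ^ (-(δ₅ / 2) + (1 - δ₁ / 2)) :=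
          Real.rpow_le_rpow_of_exponent_le f6 (by linarith)
      _ = X ^ (-(δ₅ / 2)) * X ^ (1 - δ₁ / 2) := Real.rpow_add hXp _ _
      _ ≤ X ^ (-(δ₅ / 2)) * a := mul_le_mul_of_nonneg_left hB1 (by positivity)
  have hz1 : X ^ (ε₁ / 2) + 1 ≤ X ^ ε₁ := by
    have h1 : X ^ ε₁ = X ^ (ε₁ / 2) * X ^ (ε₁ / 2) := by
      rw [← Real.rpow_add hXp]
      congr 1
      ring
    rw [h1]
    nlinarith
  have hBd : ∀ m : ℕ, 1 ≤ m → (m : ℝ) ≤ 3 * X → |B m| ≤ r * C0 * (3 * X) ^ (δ₁ / 100) := by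
    intro m hm1 hm3
    rw [abs_of_nonneg (hB m).1]
    calc B m ≤ r * dr r m := (hB m).2
      _ ≤ r * (C0 * (m : ℝ) ^ (δ₁ / 100)) :=
          mul_le_mul_of_nonneg_left (hLr m hm1) (by positivity)
      _ ≤ r * (C0 * (3 * X) ^ (δ₁ / 100)) := by
          apply mul_le_mul_of_nonneg_left _ (by positivity)
          apply mul_le_mul_of_nonneg_left _ hC0.le
          exact Real.rpow_le_rpow (by positivity) hm3 (by linarith)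
      _ = r * C0 * (3 * X) ^ (δ₁ / 100) := by ring
  have hD1 : ∀ n : ℕ, 1 ≤ n → (n : ℝ) ≤ 6 * X →
      (n.divisors.card : ℝ) * (r * C0 * (3 * X) ^ (δ₁ / 100)) ≤
        C2 * (r * C0) * ((6 * X) ^ (δ₁ / 100) * (3 * X) ^ (δ₁ / 100)) := by
    intro n hn1 hn6
    have h1 : (n.divisors.card : ℝ) ≤ C2 * (6 * X) ^ (δ₁ / 100) := by
      rw [← IP6.dr_two]
      refine le_trans (hL2 n hn1) ?_
      apply mul_le_mul_of_nonneg_left _ hC2.le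
      exact Real.rpow_le_rpow (by positivity) hn6 (by linarith)
    calc (n.divisors.card : ℝ) * (r * C0 * (3 * X) ^ (δ₁ / 100))
        ≤ (C2 * (6 * X) ^ (δ₁ / 100)) * (r * C0 * (3 * X) ^ (δ₁ / 100)) :=
          mul_le_mul_of_nonneg_right h1 (by positivity)
      _ = _ := by ring
  have hcore := IP6.core ε₁ δ₅ δw C5 X (r * C0 * (3 * X) ^ (δ₁ / 100))
    (C2 * (r * C0) * ((6 * X) ^ (δ₁ / 100) * (3 * X) ^ (δ₁ / 100))) hε₁ f6 (by positivity)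
    (fun η D A A' q ρ M B => h4 X η D A A' q ρ M B f5) h5 hz1 B hBd hD1 a b ℓ q b' hℓ1 hℓa hab
    hb2 hB2 hq1 (le_trans hqm (Real.rpow_le_rpow_of_exponent_le f6 (by linarith))) hη hℓ
    (Nat.log 2 ⌊X ^ (1 / 3 + ε₁)⌋₊ + 1) (Nat.lt_pow_succ_log_self one_lt_two _).le
  refine le_trans hcore ?_
  have g1 := IP6.first_bound X b ((Nat.log 2 ⌊X ^ (1 / 3 + ε₁)⌋₊ + 1 : ℕ) : ℝ) q
    (r * C0 * (3 * X) ^ (δ₁ / 100)) ℓ a δm δ₁ δw f6 hB2 (by positivity)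
    (IP6.log_bound X _ f6 (by linarith)) (by positivity) hqm (by positivity) hB1
  have g2 := IP6.second_bound X b a ℓ C5
    (C2 * (r * C0) * ((6 * X) ^ (δ₁ / 100) * (3 * X) ^ (δ₁ / 100))) δ₁ δ₅ f6 hδ₁ (by linarith)
    hδ₅' hC5.le hab' hB4 hB1 hℓ3 hℓ'
  have g3 := mul_le_mul_of_nonneg_left f3 (sq_nonneg (ℓ : ℝ))
  have g4 := mul_le_mul_of_nonneg_left f4 (sq_nonneg (ℓ : ℝ))
  linarith

end Pool.Agent.Work.MP_122e00_nt.TS
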