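import Pool.Agent.Work.MP_122e00_nt.TS.Stmts6

/-!
# MP_122e00_nt, block TS, item U1 (helper9): adjacent windows at rational frequencies
-/

set_option autoImplicit false

namespace Pool.Agent.Work.MP_122e00_nt.TS

open Finset Filter Topology ArithmeticFunction MeasureTheory
open scoped ArithmeticFunction.zeta ArithmeticFunction.Moebius

namespace IU1

theorem ee_int (x : ℕ) (m : ℤ) : ee ((x : ℝ) * m) = 1 := by
  unfold ee
  have h : (((2 * Real.pi * ((x : ℝ) * m) : ℝ) : ℂ) * Complex.I) =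
      ((x * m : ℤ) : ℂ) * (2 * Real.pi * Complex.I) := by
    push_cast
    ring
  rw [h]
  exact Complex.exp_int_mul_two_pi_mul_I _

theorem norm_ee (x : ℝ) : ‖ee x‖ = 1 := by
  unfold ee
  exact Complex.norm_exp_ofReal_mul_I _

theorem ee_add (a b : ℝ) : ee (a + b) = ee a * ee b := by
  unfold ee
  rw [← Complex.exp_add]
  congr 1
  push_cast
  ring

theorem ker_bound (hGS : tsGS) (l : ℕ) (φ : ℝ) :
    ‖∑ h ∈ Finset.range l, ee (-((h : ℝ) * φ))‖ * nn φ ≤ 1 / 2 := by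
  have h1 : ∑ h ∈ Finset.range l, ee (-((h : ℝ) * φ)) =
      ee (-((l : ℝ) * φ)) * ∑ k ∈ Finset.Ioc 0 l, ee (k * φ) := by
    rw [Finset.mul_sum]
    symm
    refine Finset.sum_bij (fun k _ => l - k) ?_ ?_ ?_ ?_
    · intro k hk
      rw [Finset.mem_Ioc] at hk
      rw [Finset.mem_range]
      omega
    · intro a ha b hb hab
      rw [Finset.mem_Ioc] at ha hb
      omega
    · intro h hh
      rw [Finset.mem_range] at hh
      refine ⟨l - h, ?_, ?_⟩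
      · rw [Finset.mem_Ioc]
        omega
      · omega
    · intro k hk
      rw [Finset.mem_Ioc] at hk
      rw [← ee_add, Nat.cast_sub hk.2]
      congr 1
      ring
  rw [h1, norm_mul, norm_ee, one_mul]
  exact (hGS 0 l φ).1

theorem nn_frac (s q : ℕ) (hs : 1 ≤ s) (hq : 1 ≤ q) (b' : ℤ) (c : ℕ)
    (h0 : nn ((b' : ℝ) / q + (c : ℝ) / s) ≠ 0) :
    1 ≤ nn ((b' : ℝ) / q + (c : ℝ) / s) * ((q : ℝ) * s) := by
  have hs' : (0 : ℝ) < s := by exact_mod_cast hs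
  have hq' : (0 : ℝ) < q := by exact_mod_cast hq
  have hqs : (0 : ℝ) < (q : ℝ) * s := mul_pos hq' hs'
  unfold nn at h0 ⊢
  set m : ℤ := round ((b' : ℝ) / q + (c : ℝ) / s) with hm
  have e1 : |(b' : ℝ) / q + (c : ℝ) / s - m| * ((q : ℝ) * s) =
      |((b' * s + c * q - m * (q * s) : ℤ) : ℝ)| := by
    rw [← abs_of_pos hqs, ← abs_mul]
    congr 1
    push_cast
    field_simp
  rw [e1]
  have h2 : (b' * s + c * q - m * (q * s) : ℤ) ≠ 0 := by
    intro h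
    apply h0
    rw [h] at e1
    simp only [Int.cast_zero, abs_zero] at e1
    rcases mul_eq_zero.1 e1 with h3 | h3
    · exact h3
    · exact absurd h3 hqs.ne'
  have h3 : (1 : ℤ) ≤ |(b' * s + c * q - m * (q * s) : ℤ)| := Int.one_le_abs h2
  exact_mod_cast h3

theorem gh_diff (hGS : tsGS) (hR3 : tsR3) (s q : ℕ) (b' : ℤ) (x l : ℕ) (hs : 1 ≤ s)
    (hq : 1 ≤ q) (hx : 2 * l ≤ x) :
    ‖ws (fun n => Gh n s) (b' / q) l x - ws (fun n => Gh n s) (b' / q) l (x - l)‖ ≤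
      (s : ℝ) * ((q : ℝ) * s) := by
  have hs' : (0 : ℝ) < s := by exact_mod_cast hs
  have hq' : (0 : ℝ) < q := by exact_mod_cast hq
  have hqs : (0 : ℝ) < (q : ℝ) * s := mul_pos hq' hs'
  have e1 := hR3 s x l ((b' : ℝ) / q) hs (by omega)
  have e2 := hR3 s (x - l) l ((b' : ℝ) / q) hs (by omega)
  unfold ws
  rw [e1, e2, ← Finset.sum_sub_distrib]
  calc ‖∑ c ∈ (Finset.range s).filter (fun c => Nat.Coprime c s),
          (ee ((x : ℝ) * ((b' : ℝ) / q + (c : ℝ) / s)) *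
              ∑ h ∈ Finset.range l, ee (-((h : ℝ) * ((b' : ℝ) / q + (c : ℝ) / s))) -
            ee (((x - l : ℕ) : ℝ) * ((b' : ℝ) / q + (c : ℝ) / s)) *
              ∑ h ∈ Finset.range l, ee (-((h : ℝ) * ((b' : ℝ) / q + (c : ℝ) / s))))‖
      ≤ ∑ c ∈ (Finset.range s).filter (fun c => Nat.Coprime c s), (q : ℝ) * s := by
        refine norm_sum_le_of_le _ fun c _ => ?_
        rw [← sub_mul, norm_mul]
        by_cases h0 : nn ((b' : ℝ) / q + (c : ℝ) / s) = 0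
        · have h1 : (b' : ℝ) / q + (c : ℝ) / s =
              ((round ((b' : ℝ) / q + (c : ℝ) / s) : ℤ) : ℝ) := by
            unfold nn at h0
            have := abs_eq_zero.1 h0
            linarith
          have e3 : ee ((x : ℝ) * ((b' : ℝ) / q + (c : ℝ) / s)) = 1 := by
            rw [h1]
            exact ee_int _ _
          have e4 : ee (((x - l : ℕ) : ℝ) * ((b' : ℝ) / q + (c : ℝ) / s)) = 1 := by
            rw [h1]
            exact ee_int _ _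
          rw [e3, e4, sub_self, norm_zero, zero_mul]
          exact hqs.le
        · have h1 := nn_frac s q hs hq b' c h0
          have h2 := ker_bound hGS l ((b' : ℝ) / q + (c : ℝ) / s)
          have h3 : ‖ee ((x : ℝ) * ((b' : ℝ) / q + (c : ℝ) / s)) -
              ee (((x - l : ℕ) : ℝ) * ((b' : ℝ) / q + (c : ℝ) / s))‖ ≤ 2 := by
            refine (norm_sub_le _ _).trans ?_
            rw [norm_ee, norm_ee]
            norm_num
          set K : ℝ := ‖∑ h ∈ Finset.range l,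
            ee (-((h : ℝ) * ((b' : ℝ) / q + (c : ℝ) / s)))‖ with hK
          have hK0 : 0 ≤ K := norm_nonneg _
          have h4 : K ≤ (q : ℝ) * s / 2 := by
            have h5 : K * 1 ≤ K * (nn ((b' : ℝ) / q + (c : ℝ) / s) * ((q : ℝ) * s)) :=
              mul_le_mul_of_nonneg_left h1 hK0
            have h6 : K * nn ((b' : ℝ) / q + (c : ℝ) / s) * ((q : ℝ) * s) ≤
                1 / 2 * ((q : ℝ) * s) := mul_le_mul_of_nonneg_right h2 hqs.le
            nlinarith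
          calc _ ≤ 2 * ((q : ℝ) * s / 2) := mul_le_mul h3 h4 hK0 (by norm_num)
            _ = (q : ℝ) * s := by ring
    _ ≤ (s : ℝ) * ((q : ℝ) * s) := by
        rw [Finset.sum_const, nsmul_eq_mul]
        refine mul_le_mul_of_nonneg_right ?_ hqs.le
        have h1 : ((Finset.range s).filter (fun c => Nat.Coprime c s)).card ≤ s := by
          refine (Finset.card_filter_le _ _).trans ?_
          rw [Finset.card_range]
        exact_mod_cast h1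

theorem ws_lin (Q : ℕ) (h : ℕ → ℝ) (γ : ℝ) (l x : ℕ) :
    ws (fun n => ∑ s ∈ Finset.Icc 1 Q, h s * Gh n s) γ l x =
      ∑ s ∈ Finset.Icc 1 Q, (h s : ℂ) * ws (fun n => Gh n s) γ l x := by
  unfold ws
  simp only [Finset.mul_sum]
  rw [Finset.sum_comm]
  refine Finset.sum_congr rfl fun n _ => ?_
  push_cast
  rw [Finset.sum_mul]
  refine Finset.sum_congr rfl fun s _ => ?_
  ring

theorem f2_diff (hGS : tsGS) (hR3 : tsR3) (Q q : ℕ) (b' : ℤ) (x l : ℕ) (hq : 1 ≤ q)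
    (hx : 2 * l ≤ x) (h : ℕ → ℝ) (H : ℝ) (hH0 : 0 ≤ H)
    (hH : ∀ s ∈ Finset.Icc 1 Q, |h s| ≤ H) :
    ‖ws (fun n => ∑ s ∈ Finset.Icc 1 Q, h s * Gh n s) (b' / q) l x -
      ws (fun n => ∑ s ∈ Finset.Icc 1 Q, h s * Gh n s) (b' / q) l (x - l)‖ ≤
      H * (q * (Q : ℝ) ^ 3) := by
  rw [ws_lin, ws_lin, ← Finset.sum_sub_distrib]
  calc _ ≤ ∑ s ∈ Finset.Icc 1 Q, H * ((Q : ℝ) * ((q : ℝ) * Q)) := by
        refine norm_sum_le_of_le _ fun s hs => ?_
        rw [← mul_sub, norm_mul, Complex.norm_real, Real.norm_eq_abs]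
        have hs' := Finset.mem_Icc.1 hs
        have hsQ : (s : ℝ) ≤ Q := by exact_mod_cast hs'.2
        refine mul_le_mul (hH s hs) ((gh_diff hGS hR3 s q b' x l hs'.1 hq hx).trans ?_)
          (norm_nonneg _) hH0
        exact mul_le_mul hsQ (mul_le_mul_of_nonneg_left hsQ (Nat.cast_nonneg _)) (by positivity)
          (by positivity)
    _ = H * (q * (Q : ℝ) ^ 3) := by
        rw [Finset.sum_const, nsmul_eq_mul, Nat.card_Icc, Nat.add_sub_cancel]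
        ring

theorem three_sq (a b c : ℂ) : ‖a + b + c‖ ^ 2 ≤ 3 * (‖a‖ ^ 2 + ‖b‖ ^ 2 + ‖c‖ ^ 2) := by
  have h : ‖a + b + c‖ ≤ ‖a‖ + ‖b‖ + ‖c‖ := norm_add₃_le
  have h0 : 0 ≤ ‖a + b + c‖ := norm_nonneg _
  have h1 : ‖a + b + c‖ ^ 2 ≤ (‖a‖ + ‖b‖ + ‖c‖) ^ 2 := by
    exact pow_le_pow_left₀ h0 h 2
  nlinarith [sq_nonneg (‖a‖ - ‖b‖), sq_nonneg (‖a‖ - ‖c‖), sq_nonneg (‖b‖ - ‖c‖)]

theorem two_sq (a b : ℂ) : ‖a - b‖ ^ 2 ≤ 2 * ‖a‖ ^ 2 + 2 * ‖b‖ ^ 2 := by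
  have h : ‖a - b‖ ≤ ‖a‖ + ‖b‖ := norm_sub_le _ _
  have h0 : 0 ≤ ‖a - b‖ := norm_nonneg _
  have h1 : ‖a - b‖ ^ 2 ≤ (‖a‖ + ‖b‖) ^ 2 := pow_le_pow_left₀ h0 h 2
  nlinarith [sq_nonneg (‖a‖ - ‖b‖)]

/-- the shifted sum is a part of the whole sum -/
theorem sum_shift (a b l : ℕ) (F : ℕ → ℝ) (hF : ∀ x, 0 ≤ F x) :
    ∑ x ∈ Finset.Icc (a + 2 * l) b, F (x - l) ≤ ∑ x ∈ Finset.Icc (a + l) b, F x := by
  have h1 : ∑ x ∈ Finset.Icc (a + 2 * l) b, F (x - l) =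
      ∑ y ∈ (Finset.Icc (a + 2 * l) b).image (fun x => x - l), F y := by
    rw [Finset.sum_image]
    intro x hx y hy hxy
    rw [Finset.mem_coe, Finset.mem_Icc] at hx hy
    simp only at hxy
    omega
  rw [h1]
  refine Finset.sum_le_sum_of_subset_of_nonneg ?_ fun x _ _ => hF x
  intro y hy
  rw [Finset.mem_image] at hy
  obtain ⟨x, hx, rfl⟩ := hy
  rw [Finset.mem_Icc] at hx ⊢
  omega

theorem sum_sub (a b l : ℕ) (F : ℕ → ℝ) (hF : ∀ x, 0 ≤ F x) :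
    ∑ x ∈ Finset.Icc (a + 2 * l) b, F x ≤ ∑ x ∈ Finset.Icc (a + l) b, F x := by
  refine Finset.sum_le_sum_of_subset_of_nonneg ?_ fun x _ _ => hF x
  intro y hy
  rw [Finset.mem_Icc] at hy ⊢
  omega

end IU1

open IU1 in
theorem prU1 (hGS : tsGS) (hR3 : tsR3) (hV1 : tsV1) (hV2 : tsV2) (hP6 : tsP6) : tsU1 := by
  intro r ε₁ δ₅ hr hε hε' hδ5 hδ5'
  obtain ⟨X1, hX1⟩ := hV1 r ε₁ hr hε hε'
  obtain ⟨δs, hδs, hS⟩ := hV2 r ε₁ hr hε hε'
  obtain ⟨δp, hδp, hP⟩ := hP6 r ε₁ δ₅ hr hε hε' hδ5 hδ5'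
  have hr0 : (0 : ℝ) < r := by
    have : 0 < r := by omega
    exact_mod_cast this
  refine ⟨min (min (1 / 100) (δ₅ / 2)) (min (2 * r * ε₁) (min δs δp)), ?_, ?_⟩
  · refine lt_min (lt_min (by norm_num) (by linarith)) (lt_min (by positivity)
      (lt_min hδs hδp))
  intro δ₁ hδ1 hδm
  set δm : ℝ := min (min (1 / 100) (δ₅ / 2)) (min (2 * r * ε₁) (min δs δp)) with hδmdef
  have m1 : δm ≤ 1 / 100 := (min_le_left _ _).trans (min_le_left _ _)
  have m2 : δm ≤ δ₅ / 2 := (min_le_left _ _).trans (min_le_right _ _)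
  have m3 : δm ≤ 2 * r * ε₁ := (min_le_right _ _).trans (min_le_left _ _)
  have m4 : δm ≤ δs := (min_le_right _ _).trans ((min_le_right _ _).trans (min_le_left _ _))
  have m5 : δm ≤ δp := (min_le_right _ _).trans ((min_le_right _ _).trans (min_le_right _ _))
  obtain ⟨X2, hX2⟩ := hS δ₁ hδ1 (hδm.trans m4)
  obtain ⟨X3, hX3⟩ := hP δ₁ hδ1 (hδm.trans m5)
  refine ⟨max (max X1 X2) (max X3 (max 1 ((18 : ℝ) ^ (200 / δ₁)))), ?_⟩
  intro X hX a b hB l q b' hl hl' hq hq'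
  have g1 : X1 ≤ X := ((le_max_left _ _).trans (le_max_left _ _)).trans hX
  have g2 : X2 ≤ X := ((le_max_right _ _).trans (le_max_left _ _)).trans hX
  have g3 : X3 ≤ X := ((le_max_left _ _).trans (le_max_right _ _)).trans hX
  have g4 : 1 ≤ X :=
    ((le_max_left _ _).trans ((le_max_right _ _).trans (le_max_right _ _))).trans hX
  have g5 : (18 : ℝ) ^ (200 / δ₁) ≤ X :=
    ((le_max_right _ _).trans ((le_max_right _ _).trans (le_max_right _ _))).trans hX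
  have hX0 : 0 < X := by linarith
  have g6 : (18 : ℝ) ≤ X ^ (δ₁ / 200) := by
    have h1 : ((18 : ℝ) ^ (200 / δ₁)) ^ (δ₁ / 200) = 18 := by
      rw [← Real.rpow_mul (by norm_num)]
      have : 200 / δ₁ * (δ₁ / 200) = 1 := by field_simp
      rw [this, Real.rpow_one]
    rw [← h1]
    exact Real.rpow_le_rpow (by positivity) g5 (by positivity)
  obtain ⟨W, B, hW, hBB, hsplit⟩ := hX1 X g1
  obtain ⟨h, hh, hV⟩ := hX2 X g2 W hW a b hB
  have hPx := hX3 X g3 B hBB a b hB l q b' hl hl' hq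
    (hq'.trans (Real.rpow_le_rpow_of_exponent_le g4 m5))
  obtain ⟨B1, B2, B3, B4⟩ := hB
  have hl3 : X ^ (1 / 3 : ℝ) ≤ l :=
    (Real.rpow_le_rpow_of_exponent_le g4 (by linarith)).trans hl
  have hlV : (l : ℝ) ≤ X ^ (1 - 2 * δ₁) :=
    hl'.trans (Real.rpow_le_rpow_of_exponent_le g4 (by linarith))
  have hVx := hV l ((b' : ℝ) / q) hl3 hlV
  set f1 : ℕ → ℝ := fun n => T1 W (X ^ (1 / 2 - r * ε₁)) n -
    ∑ s ∈ Finset.Icc 1 ⌊X ^ (δ₁ / 20)⌋₊, h s * Gh n s with hf1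
  set f2 : ℕ → ℝ := fun n => ∑ s ∈ Finset.Icc 1 ⌊X ^ (δ₁ / 20)⌋₊, h s * Gh n s with hf2
  set f3 : ℕ → ℝ := T2 B (X ^ ε₁) (X ^ (1 / 3 + ε₁)) with hf3
  -- splitting of the windows
  have hab : (a : ℝ) ≤ b := by
    have : 0 ≤ X ^ (1 - δ₁) / 2 := by positivity
    linarith
  have hspl : ∀ y, a + l ≤ y → y ≤ b → ws (dr r) (b' / q) l y =
      ws f1 (b' / q) l y + ws f2 (b' / q) l y + ws f3 (b' / q) l y := by
    intro y hy1 hy2
    unfold ws
    rw [← Finset.sum_add_distrib, ← Finset.sum_add_distrib]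
    refine Finset.sum_congr rfl fun n hn => ?_
    rw [Finset.mem_Ioc] at hn
    have hn1 : a < n := by omega
    have hn2 : n ≤ b := by omega
    have hn1' : (a : ℝ) < n := by exact_mod_cast hn1
    have hn2' : (n : ℝ) ≤ b := by exact_mod_cast hn2
    have h1 : X ^ (1 - r * ε₁) < (n : ℝ) := by
      have h2 : X ^ (1 - r * ε₁) ≤ X ^ (1 - δ₁ / 2) := by
        refine Real.rpow_le_rpow_of_exponent_le g4 ?_
        nlinarith
      linarith
    have h2 := hsplit n (by omega) h1 (by linarith)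
    have h3 : dr r n = f1 n + f2 n + f3 n := by
      rw [h2, hf1, hf2, hf3]
      ring
    rw [h3]
    push_cast
    ring
  -- part (iii)
  have hQ : ((⌊X ^ (δ₁ / 20)⌋₊ : ℕ) : ℝ) ≤ X ^ (δ₁ / 20) := Nat.floor_le (by positivity)
  have hd2 : ∀ x ∈ Finset.Icc (a + 2 * l) b,
      ‖ws f2 (b' / q) l x - ws f2 (b' / q) l (x - l)‖ ≤ X ^ (1 / 20 : ℝ) := by
    intro x hx
    rw [Finset.mem_Icc] at hx
    have h1 := f2_diff hGS hR3 ⌊X ^ (δ₁ / 20)⌋₊ q b' x l hq (by omega) h (X ^ (δ₁ / 100))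
      (by positivity) hh
    refine h1.trans ?_
    have h2 : ((⌊X ^ (δ₁ / 20)⌋₊ : ℕ) : ℝ) ^ 3 ≤ X ^ (3 * δ₁ / 20) := by
      have h3 : ((⌊X ^ (δ₁ / 20)⌋₊ : ℕ) : ℝ) ^ 3 ≤ (X ^ (δ₁ / 20)) ^ 3 :=
        pow_le_pow_left₀ (Nat.cast_nonneg _) hQ 3
      refine h3.trans (le_of_eq ?_)
      rw [← Real.rpow_natCast, ← Real.rpow_mul hX0.le]
      congr 1
      push_cast
      ring
    calc X ^ (δ₁ / 100) * (q * ((⌊X ^ (δ₁ / 20)⌋₊ : ℕ) : ℝ) ^ 3)
        ≤ X ^ (δ₁ / 100) * (X ^ δm * X ^ (3 * δ₁ / 20)) := by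
          refine mul_le_mul_of_nonneg_left ?_ (by positivity)
          exact mul_le_mul hq' h2 (by positivity) (by positivity)
      _ = X ^ (δ₁ / 100 + (δm + 3 * δ₁ / 20)) := by
          rw [Real.rpow_add hX0, Real.rpow_add hX0]
      _ ≤ X ^ (1 / 20 : ℝ) := by
          refine Real.rpow_le_rpow_of_exponent_le g4 ?_
          linarith
  have hc1 : (1 : ℝ) ≤ X ^ (1 - δ₁) := Real.one_le_rpow g4 (by linarith)
  have hs2 : ∑ x ∈ Finset.Icc (a + 2 * l) b,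
      ‖ws f2 (b' / q) l x - ws f2 (b' / q) l (x - l)‖ ^ 2 ≤
      (l : ℝ) ^ 2 * X ^ (1 - δ₁ - δ₁ / 40) := by
    have h1 : ∑ x ∈ Finset.Icc (a + 2 * l) b,
        ‖ws f2 (b' / q) l x - ws f2 (b' / q) l (x - l)‖ ^ 2 ≤
        ∑ x ∈ Finset.Icc (a + 2 * l) b, (X ^ (1 / 20 : ℝ)) ^ 2 :=
      Finset.sum_le_sum fun x hx => pow_le_pow_left₀ (norm_nonneg _) (hd2 x hx) 2
    refine h1.trans ?_
    rw [Finset.sum_const, nsmul_eq_mul, Nat.card_Icc]
    have h2 : ((b + 1 - (a + 2 * l) : ℕ) : ℝ) ≤ 2 * X ^ (1 - δ₁) := by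
      have h3 : ((b + 1 - (a + 2 * l) : ℕ) : ℝ) ≤ ((b + 1 - a : ℕ) : ℝ) := by
        exact_mod_cast (by omega : b + 1 - (a + 2 * l) ≤ b + 1 - a)
      have h4 : a ≤ b + 1 := by
        have : a ≤ b := by exact_mod_cast hab
        omega
      rw [Nat.cast_sub h4] at h3
      push_cast at h3
      linarith
    have h5 : (X ^ (1 / 20 : ℝ)) ^ 2 = X ^ (1 / 10 : ℝ) := by
      rw [← Real.rpow_natCast, ← Real.rpow_mul hX0.le]
      congr 1
      norm_num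
    have h6 : X ^ (2 / 3 : ℝ) ≤ (l : ℝ) ^ 2 := by
      have h7 : (X ^ (1 / 3 : ℝ)) ^ 2 ≤ (l : ℝ) ^ 2 := pow_le_pow_left₀ (by positivity) hl3 2
      have h8 : (X ^ (1 / 3 : ℝ)) ^ 2 = X ^ (2 / 3 : ℝ) := by
        rw [← Real.rpow_natCast, ← Real.rpow_mul hX0.le]
        congr 1
        norm_num
      rwa [h8] at h7
    rw [h5]
    calc ((b + 1 - (a + 2 * l) : ℕ) : ℝ) * X ^ (1 / 10 : ℝ)
        ≤ (2 * X ^ (1 - δ₁)) * X ^ (1 / 10 : ℝ) :=
          mul_le_mul_of_nonneg_right h2 (by positivity)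
      _ ≤ (X ^ (δ₁ / 200) * X ^ (1 - δ₁)) * X ^ (1 / 10 : ℝ) := by
          refine mul_le_mul_of_nonneg_right ?_ (by positivity)
          exact mul_le_mul_of_nonneg_right (by linarith) (by positivity)
      _ = X ^ (δ₁ / 200 + (1 - δ₁) + 1 / 10) := by
          rw [Real.rpow_add hX0, Real.rpow_add hX0]
      _ ≤ X ^ (2 / 3 + (1 - δ₁ - δ₁ / 40)) := by
          refine Real.rpow_le_rpow_of_exponent_le g4 ?_
          linarith
      _ = X ^ (2 / 3 : ℝ) * X ^ (1 - δ₁ - δ₁ / 40) := Real.rpow_add hX0 _ _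
      _ ≤ (l : ℝ) ^ 2 * X ^ (1 - δ₁ - δ₁ / 40) :=
          mul_le_mul_of_nonneg_right h6 (by positivity)
  -- part (i)
  have hs1 : ∑ x ∈ Finset.Icc (a + 2 * l) b,
      ‖ws f1 (b' / q) l x - ws f1 (b' / q) l (x - l)‖ ^ 2 ≤
      4 * ((l : ℝ) ^ 2 * X ^ (1 - δ₁ - δ₁ / 40)) := by
    have h1 : ∑ x ∈ Finset.Icc (a + 2 * l) b,
        ‖ws f1 (b' / q) l x - ws f1 (b' / q) l (x - l)‖ ^ 2 ≤
        2 * ∑ x ∈ Finset.Icc (a + 2 * l) b, ‖ws f1 (b' / q) l x‖ ^ 2 +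
        2 * ∑ x ∈ Finset.Icc (a + 2 * l) b, ‖ws f1 (b' / q) l (x - l)‖ ^ 2 := by
      rw [Finset.mul_sum, Finset.mul_sum, ← Finset.sum_add_distrib]
      exact Finset.sum_le_sum fun x _ => two_sq _ _
    have h2 := sum_sub a b l (fun x => ‖ws f1 (b' / q) l x‖ ^ 2) (fun x => by positivity)
    have h3 := sum_shift a b l (fun x => ‖ws f1 (b' / q) l x‖ ^ 2) (fun x => by positivity)
    linarith
  -- the total
  have hpt : ∀ x ∈ Finset.Icc (a + 2 * l) b,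
      ‖ws (dr r) (b' / q) l x - ws (dr r) (b' / q) l (x - l)‖ ^ 2 ≤
      3 * (‖ws f1 (b' / q) l x - ws f1 (b' / q) l (x - l)‖ ^ 2 +
        ‖ws f2 (b' / q) l x - ws f2 (b' / q) l (x - l)‖ ^ 2 +
        ‖ws f3 (b' / q) l x - ws f3 (b' / q) l (x - l)‖ ^ 2) := by
    intro x hx
    rw [Finset.mem_Icc] at hx
    have e : ws (dr r) (b' / q) l x - ws (dr r) (b' / q) l (x - l) =
        (ws f1 (b' / q) l x - ws f1 (b' / q) l (x - l)) +
        (ws f2 (b' / q) l x - ws f2 (b' / q) l (x - l)) +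
        (ws f3 (b' / q) l x - ws f3 (b' / q) l (x - l)) := by
      rw [hspl x (by omega) hx.2, hspl (x - l) (by omega) (by omega)]
      ring
    rw [e]
    exact three_sq _ _ _
  have htot := Finset.sum_le_sum hpt
  rw [← Finset.mul_sum, Finset.sum_add_distrib, Finset.sum_add_distrib] at htot
  refine htot.trans ?_
  have hfin : 18 * ((l : ℝ) ^ 2 * X ^ (1 - δ₁ - δ₁ / 40)) ≤
      (l : ℝ) ^ 2 * X ^ (1 - δ₁ - δ₁ / 50) := by
    have h1 : X ^ (1 - δ₁ - δ₁ / 50) = X ^ (δ₁ / 200) * X ^ (1 - δ₁ - δ₁ / 40) := by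
      rw [← Real.rpow_add hX0]
      congr 1
      ring
    rw [h1]
    have h2 : 0 ≤ (l : ℝ) ^ 2 * X ^ (1 - δ₁ - δ₁ / 40) := by positivity
    have h3 := mul_le_mul_of_nonneg_right g6 h2
    linarith
  linarith

end Pool.Agent.Work.MP_122e00_nt.TS
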