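import Pool.Agent.Work.MP_122e00_nt.TS.Stmts6
import Pool.Agent.Work.MP_122e00_nt.TS.I_F3
import Pool.Agent.Work.MP_122e00_nt.TS.I_G3

/-!
# Thin shifts, item U2: windows of `d_r` at rational frequencies against the main term
-/

set_option autoImplicit false

namespace Pool.Agent.Work.MP_122e00_nt.TS

open Finset Filter Topology ArithmeticFunction
open scoped ArithmeticFunction.zeta ArithmeticFunction.Moebius

namespace IU2

theorem ee_norm (x : ℝ) : ‖ee x‖ = 1 := by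
  unfold ee
  exact Complex.norm_exp_ofReal_mul_I _

/-- doubling of a window -/
theorem ws_double (f : ℕ → ℝ) (γ : ℝ) (ℓ x : ℕ) :
    ws f γ (2 * ℓ) x = ws f γ ℓ x + ws f γ ℓ (x - ℓ) := by
  unfold ws
  have h : x - 2 * ℓ = x - ℓ - ℓ := by omega
  rw [h, add_comm, Finset.sum_Ioc_consecutive _ (Nat.sub_le _ _) (Nat.sub_le _ _)]

/-- a window as a difference of initial sums -/
theorem ws_SS (f : ℕ → ℝ) (γ : ℝ) (L x : ℕ) : ws f γ L x = SS f x γ - SS f (x - L) γ := by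
  unfold ws SS
  have h : ∀ N : ℕ, Finset.Icc 1 N = Finset.Ioc 0 N := by
    intro N
    ext m
    simp only [Finset.mem_Icc, Finset.mem_Ioc]
    omega
  rw [h, h, ← Finset.sum_Ioc_consecutive _ (Nat.zero_le (x - L)) (Nat.sub_le x L)]
  ring

/-- trivial bound of a window -/
theorem ws_le (f : ℕ → ℝ) (γ : ℝ) (L x : ℕ) (B : ℝ) (hB : 0 ≤ B)
    (h : ∀ n ∈ Finset.Ioc (x - L) x, |f n| ≤ B) : ‖ws f γ L x‖ ≤ L * B := by
  unfold ws
  refine (norm_sum_le _ _).trans ?_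
  have h1 : ∀ n ∈ Finset.Ioc (x - L) x, ‖(f n : ℂ) * ee (n * γ)‖ ≤ B := by
    intro n hn
    rw [norm_mul, ee_norm, mul_one, Complex.norm_real, Real.norm_eq_abs]
    exact h n hn
  refine (Finset.sum_le_card_nsmul _ _ _ h1).trans ?_
  rw [nsmul_eq_mul, Nat.card_Ioc]
  refine mul_le_mul_of_nonneg_right ?_ hB
  have : x - (x - L) ≤ L := by omega
  exact_mod_cast this

/-- the main term over a short interval, with the value at the right end point -/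
theorem mean (d : ℕ) (P : Polynomial ℝ) (M : ℝ) (hP : P.natDegree ≤ d)
    (hM : ∀ j, |P.coeff j| ≤ M) (a b : ℝ) (ha : 1 ≤ a) (hab : a < b) :
    |b * P.eval (Real.log b) - a * P.eval (Real.log a) - (b - a) * (ed P).eval (Real.log b)| ≤
      (b - a) * ((d + 1) * (d * ((d + 1) * M)) * (1 + Real.log b) ^ d * ((b - a) / a)) := by
  have hM0 : 0 ≤ M := le_trans (abs_nonneg _) (hM 0)
  have hc1 : ContinuousOn (fun t => t * P.eval (Real.log t)) (Set.Icc a b) := fun t ht =>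
    (IF3.hasDeriv_F P t (by linarith [ht.1])).continuousAt.continuousWithinAt
  obtain ⟨ξ, hξ, h1⟩ := exists_hasDerivAt_eq_slope (fun t => t * P.eval (Real.log t))
    (fun t => (ed P).eval (Real.log t)) hab hc1
    (fun t ht => IF3.hasDeriv_F P t (by linarith [ht.1]))
  have hξa : a < ξ := hξ.1
  have hξb : ξ < b := hξ.2
  have hc2 : ContinuousOn (fun t => (ed P).eval (Real.log t)) (Set.Icc ξ b) := fun t ht =>
    (IF3.hasDeriv_log (ed P) t (by linarith [ht.1])).continuousAt.continuousWithinAt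
  obtain ⟨η, hη, h2⟩ := exists_hasDerivAt_eq_slope (fun t => (ed P).eval (Real.log t))
    (fun t => (Polynomial.derivative (ed P)).eval (Real.log t) * t⁻¹) hξb hc2
    (fun t ht => IF3.hasDeriv_log (ed P) t (by linarith [ht.1]))
  have hba : 0 < b - a := by linarith
  have hξb' : 0 < b - ξ := by linarith
  rw [eq_div_iff hba.ne'] at h1
  rw [eq_div_iff hξb'.ne'] at h2
  have hη1 : 1 ≤ η := by linarith [hη.1]
  have hlogη : 0 ≤ Real.log η := Real.log_nonneg hη1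
  have h3 := IF3.eval_bd d (Polynomial.derivative (ed P)) (d * ((d + 1) * M)) (Real.log η)
    (IF3.deg_der d _ (IF3.deg_ed d P hP))
    (IF3.der_bd d (ed P) ((d + 1) * M) (IF3.deg_ed d P hP) (IF3.ed_bd d P M hP hM)) hlogη
  have h4 : Real.log η ≤ Real.log b := Real.log_le_log (by linarith) hη.2.le
  have h5 : (1 + Real.log η) ^ d ≤ (1 + Real.log b) ^ d := pow_le_pow_left₀ (by linarith)
    (by linarith) d
  have h6 : |(Polynomial.derivative (ed P)).eval (Real.log η)| ≤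
      (d + 1) * (d * ((d + 1) * M)) * (1 + Real.log b) ^ d :=
    h3.trans (mul_le_mul_of_nonneg_left h5 (by positivity))
  have h7 : b * P.eval (Real.log b) - a * P.eval (Real.log a) - (b - a) * (ed P).eval (Real.log b)
      = -((b - a) * ((Polynomial.derivative (ed P)).eval (Real.log η) * (η⁻¹ * (b - ξ)))) := by
    rw [← mul_assoc ((Polynomial.derivative (ed P)).eval (Real.log η)), h2, ← h1]
    ring
  rw [h7, abs_neg, abs_mul, abs_of_pos hba, abs_mul]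
  refine mul_le_mul_of_nonneg_left ?_ hba.le
  have h8 : |η⁻¹ * (b - ξ)| ≤ (b - a) / a := by
    rw [abs_mul, abs_of_pos hξb', abs_of_pos (by positivity), div_eq_inv_mul]
    refine mul_le_mul ?_ (by linarith) hξb'.le (by positivity)
    exact inv_anti₀ (by linarith) (by linarith [hη.1])
  have hlogb : 0 ≤ Real.log b := Real.log_nonneg (by linarith)
  exact mul_le_mul h6 h8 (abs_nonneg _) (by positivity)

/-- dyadic scales -/
theorem scales (L Y : ℝ) (hL : 0 < L) (hLY : L ≤ Y) :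
    ∃ J : ℕ, 2 ^ J * L ≤ Y ∧ Y < 2 ^ (J + 1) * L := by
  have hex : ∃ J : ℕ, Y < 2 ^ (J + 1) * L := by
    obtain ⟨n, hn⟩ := pow_unbounded_of_one_lt (Y / L) (by norm_num : (1 : ℝ) < 2)
    refine ⟨n, ?_⟩
    rw [div_lt_iff₀ hL] at hn
    have h2 : (0 : ℝ) < 2 ^ n * L := by positivity
    rw [pow_succ]
    linarith
  classical
  refine ⟨Nat.find hex, ?_, Nat.find_spec hex⟩
  rcases Nat.eq_zero_or_pos (Nat.find hex) with h | h
  · rw [h]
    simpa using hLY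
  · obtain ⟨i, hi⟩ : ∃ i, Nat.find hex = i + 1 := ⟨Nat.find hex - 1, by omega⟩
    have h3 := Nat.find_min hex (m := i) (by omega)
    rw [hi]
    exact not_lt.mp h3

/-- telescoping in the mean square -/
theorem tele (W : ℕ → ℕ → ℂ) (s : Finset ℕ) (J : ℕ) (D : ℝ)
    (h : ∀ j < J, ∑ x ∈ s, ‖W j x - W (j + 1) x‖ ^ 2 ≤ D) :
    ∑ x ∈ s, ‖W 0 x - W J x‖ ^ 2 ≤ (J : ℝ) ^ 2 * D := by
  have h1 : ∀ x, ‖W 0 x - W J x‖ ^ 2 ≤ (J : ℝ) * ∑ j ∈ Finset.range J, ‖W j x - W (j + 1) x‖ ^ 2 := by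
    intro x
    have h2 : W 0 x - W J x = ∑ j ∈ Finset.range J, (W j x - W (j + 1) x) :=
      (Finset.sum_range_sub' (fun j => W j x) J).symm
    rw [h2]
    have h3 := norm_sum_le (Finset.range J) (fun j => W j x - W (j + 1) x)
    have h4 := sq_sum_le_card_mul_sum_sq (s := Finset.range J)
      (f := fun j => ‖W j x - W (j + 1) x‖)
    rw [Finset.card_range] at h4
    exact (pow_le_pow_left₀ (norm_nonneg _) h3 2).trans h4
  refine (Finset.sum_le_sum fun x _ => h1 x).trans ?_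
  rw [← Finset.mul_sum, Finset.sum_comm]
  have h5 : ∑ j ∈ Finset.range J, ∑ x ∈ s, ‖W j x - W (j + 1) x‖ ^ 2 ≤ (J : ℝ) * D := by
    refine (Finset.sum_le_sum fun j hj => h j (Finset.mem_range.mp hj)).trans ?_
    rw [Finset.sum_const, Finset.card_range, nsmul_eq_mul]
  calc (J : ℝ) * ∑ j ∈ Finset.range J, ∑ x ∈ s, ‖W j x - W (j + 1) x‖ ^ 2 ≤ (J : ℝ) * (J * D) :=
        mul_le_mul_of_nonneg_left h5 (Nat.cast_nonneg _)
    _ = (J : ℝ) ^ 2 * D := by ring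

/-- the combinatorial core -/
theorem core (f : ℕ → ℝ) (γ : ℝ) (p : ℕ → ℝ) (a b L J : ℕ) (D κ B : ℝ) (hL : 1 ≤ L)
    (hD : ∀ j < J, ∑ x ∈ Finset.Icc (a + 2 * (2 ^ j * L)) b,
      ‖ws f γ (2 ^ j * L) x - ws f γ (2 ^ j * L) (x - 2 ^ j * L)‖ ^ 2 ≤
        ((2 ^ j * L : ℕ) : ℝ) ^ 2 * D)
    (hκ : ∀ x ∈ Finset.Icc (a + 2 ^ J * L) b,
      ‖ws f γ (2 ^ J * L) x - ((((2 ^ J * L : ℕ) : ℝ) * p x : ℝ) : ℂ)‖ ≤
        ((2 ^ J * L : ℕ) : ℝ) * κ)
    (hB : ∀ x ∈ Finset.Icc (a + L) b, ‖ws f γ L x - (((L : ℝ) * p x : ℝ) : ℂ)‖ ≤ L * B) :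
    ∑ x ∈ Finset.Icc (a + L) b, ‖ws f γ L x - (((L : ℝ) * p x : ℝ) : ℂ)‖ ^ 2 ≤
      (L : ℝ) ^ 2 * (2 * ((J : ℝ) ^ 2 * (D / 4)) +
        2 * (((Finset.Icc (a + 2 ^ J * L) b).card : ℝ) * κ ^ 2) +
        ((2 ^ J * L : ℕ) : ℝ) * B ^ 2) := by
  have hL0 : (0 : ℝ) < L := by exact_mod_cast hL
  have hLj : ∀ j : ℕ, 0 < ((2 ^ j * L : ℕ) : ℝ) := by
    intro j
    have : 0 < 2 ^ j * L := by positivity
    exact_mod_cast this
  obtain ⟨W, hW⟩ : ∃ W : ℕ → ℕ → ℂ,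
      W = fun j x => ws f γ (2 ^ j * L) x / (((2 ^ j * L : ℕ) : ℝ) : ℂ) := ⟨_, rfl⟩
  have hLJ : L ≤ 2 ^ J * L := Nat.le_mul_of_pos_left L (by positivity)
  -- the differences
  have hdiff : ∀ j < J, ∑ x ∈ Finset.Icc (a + 2 ^ J * L) b, ‖W j x - W (j + 1) x‖ ^ 2 ≤ D / 4 := by
    intro j hj
    have h1 : ∀ x, ‖W j x - W (j + 1) x‖ ^ 2 = (1 / (4 * ((2 ^ j * L : ℕ) : ℝ) ^ 2)) *
        ‖ws f γ (2 ^ j * L) x - ws f γ (2 ^ j * L) (x - 2 ^ j * L)‖ ^ 2 := by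
      intro x
      have e1 : 2 ^ (j + 1) * L = 2 * (2 ^ j * L) := by ring
      have e2 : W j x - W (j + 1) x =
          (ws f γ (2 ^ j * L) x - ws f γ (2 ^ j * L) (x - 2 ^ j * L)) /
            ((2 * ((2 ^ j * L : ℕ) : ℝ) : ℝ) : ℂ) := by
        rw [hW]
        show ws f γ (2 ^ j * L) x / (((2 ^ j * L : ℕ) : ℝ) : ℂ) -
          ws f γ (2 ^ (j + 1) * L) x / (((2 ^ (j + 1) * L : ℕ) : ℝ) : ℂ) = _
        rw [e1, ws_double]
        have h0 : ((((2 ^ j * L : ℕ) : ℝ)) : ℂ) ≠ 0 := by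
          exact_mod_cast (hLj j).ne'
        have e3 : (((2 * (2 ^ j * L) : ℕ) : ℝ) : ℂ) = 2 * ((((2 ^ j * L : ℕ) : ℝ)) : ℂ) := by
          push_cast
          ring
        have e4 : ((2 * ((2 ^ j * L : ℕ) : ℝ) : ℝ) : ℂ) = 2 * ((((2 ^ j * L : ℕ) : ℝ)) : ℂ) := by
          push_cast
          ring
        rw [e3, e4]
        generalize ((((2 ^ j * L : ℕ) : ℝ)) : ℂ) = z at h0 ⊢
        field_simp
        ring
      rw [e2, norm_div, div_pow, Complex.norm_real, Real.norm_eq_abs,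
        abs_of_pos (by have := hLj j; positivity)]
      have := (hLj j).ne'
      field_simp
      ring
    have h2 : ∑ x ∈ Finset.Icc (a + 2 ^ J * L) b, ‖W j x - W (j + 1) x‖ ^ 2 ≤
        ∑ x ∈ Finset.Icc (a + 2 * (2 ^ j * L)) b, ‖W j x - W (j + 1) x‖ ^ 2 := by
      refine Finset.sum_le_sum_of_subset_of_nonneg (Finset.Icc_subset_Icc_left ?_)
        (fun _ _ _ => by positivity)
      have h3 : 2 * (2 ^ j * L) = 2 ^ (j + 1) * L := by ring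
      rw [h3]
      exact Nat.add_le_add_left (Nat.mul_le_mul_right _
        (Nat.pow_le_pow_right (by norm_num) (by omega))) _
    refine h2.trans ?_
    simp only [h1]
    rw [← Finset.mul_sum]
    refine (mul_le_mul_of_nonneg_left (hD j hj) (by positivity)).trans (le_of_eq ?_)
    have := (hLj j).ne'
    field_simp
  have htele := tele W _ J (D / 4) hdiff
  -- the last scale
  have hlast : ∀ x ∈ Finset.Icc (a + 2 ^ J * L) b, ‖W J x - ((p x : ℝ) : ℂ)‖ ^ 2 ≤ κ ^ 2 := by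
    intro x hx
    have h1 := hκ x hx
    have h2 : ws f γ (2 ^ J * L) x - ((((2 ^ J * L : ℕ) : ℝ) * p x : ℝ) : ℂ) =
        ((((2 ^ J * L : ℕ) : ℝ)) : ℂ) * (W J x - ((p x : ℝ) : ℂ)) := by
      rw [hW]
      show _ = ((((2 ^ J * L : ℕ) : ℝ)) : ℂ) *
        (ws f γ (2 ^ J * L) x / (((2 ^ J * L : ℕ) : ℝ) : ℂ) - ((p x : ℝ) : ℂ))
      have h0 : ((((2 ^ J * L : ℕ) : ℝ)) : ℂ) ≠ 0 := by
        exact_mod_cast (hLj J).ne'
      rw [Complex.ofReal_mul]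
      generalize ((((2 ^ J * L : ℕ) : ℝ)) : ℂ) = z at h0 ⊢
      field_simp
    rw [h2, norm_mul, Complex.norm_real, Real.norm_eq_abs, abs_of_pos (hLj J)] at h1
    have h3 : ‖W J x - ((p x : ℝ) : ℂ)‖ ≤ κ := le_of_mul_le_mul_left h1 (hLj J)
    exact pow_le_pow_left₀ (norm_nonneg _) h3 2
  -- the first part
  have hfirst : ∑ x ∈ Finset.Icc (a + 2 ^ J * L) b, ‖ws f γ L x - (((L : ℝ) * p x : ℝ) : ℂ)‖ ^ 2 ≤
      (L : ℝ) ^ 2 * (2 * ((J : ℝ) ^ 2 * (D / 4)) +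
        2 * (((Finset.Icc (a + 2 ^ J * L) b).card : ℝ) * κ ^ 2)) := by
    have h1 : ∀ x ∈ Finset.Icc (a + 2 ^ J * L) b, ‖ws f γ L x - (((L : ℝ) * p x : ℝ) : ℂ)‖ ^ 2 ≤
        (L : ℝ) ^ 2 * (2 * ‖W 0 x - W J x‖ ^ 2 + 2 * κ ^ 2) := by
      intro x hx
      have h2 : ws f γ L x - (((L : ℝ) * p x : ℝ) : ℂ) =
          ((L : ℝ) : ℂ) * ((W 0 x - W J x) + (W J x - ((p x : ℝ) : ℂ))) := by
        rw [sub_add_sub_cancel, hW]
        show _ = ((L : ℝ) : ℂ) *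
          (ws f γ (2 ^ 0 * L) x / (((2 ^ 0 * L : ℕ) : ℝ) : ℂ) - ((p x : ℝ) : ℂ))
        rw [pow_zero, one_mul, Complex.ofReal_mul]
        have h0 : ((L : ℝ) : ℂ) ≠ 0 := by
          exact_mod_cast hL0.ne'
        generalize ((L : ℝ) : ℂ) = z at h0 ⊢
        field_simp
      rw [h2, norm_mul, mul_pow, Complex.norm_real, Real.norm_eq_abs, sq_abs]
      refine mul_le_mul_of_nonneg_left ?_ (by positivity)
      have h3 := norm_add_le (W 0 x - W J x) (W J x - ((p x : ℝ) : ℂ))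
      have h4 := hlast x hx
      have h5 : ‖W 0 x - W J x + (W J x - ((p x : ℝ) : ℂ))‖ ^ 2 ≤
          (‖W 0 x - W J x‖ + ‖W J x - ((p x : ℝ) : ℂ)‖) ^ 2 :=
        pow_le_pow_left₀ (norm_nonneg _) h3 2
      nlinarith [sq_nonneg (‖W 0 x - W J x‖ - ‖W J x - ((p x : ℝ) : ℂ)‖)]
    refine (Finset.sum_le_sum h1).trans ?_
    rw [← Finset.mul_sum, Finset.sum_add_distrib, ← Finset.mul_sum, Finset.sum_const,
      nsmul_eq_mul]
    refine mul_le_mul_of_nonneg_left ?_ (by positivity)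
    linarith
  -- the rest
  have hsplit := Finset.sum_filter_add_sum_filter_not (Finset.Icc (a + L) b)
    (fun x => a + 2 ^ J * L ≤ x) (fun x => ‖ws f γ L x - (((L : ℝ) * p x : ℝ) : ℂ)‖ ^ 2)
  have hf1 : (Finset.Icc (a + L) b).filter (fun x => a + 2 ^ J * L ≤ x) =
      Finset.Icc (a + 2 ^ J * L) b := by
    ext x
    simp only [Finset.mem_filter, Finset.mem_Icc]
    constructor
    · rintro ⟨⟨h1, h2⟩, h3⟩
      exact ⟨h3, h2⟩
    · rintro ⟨h1, h2⟩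
      exact ⟨⟨by omega, h2⟩, h1⟩
  have hrest : ∑ x ∈ (Finset.Icc (a + L) b).filter (fun x => ¬ a + 2 ^ J * L ≤ x),
      ‖ws f γ L x - (((L : ℝ) * p x : ℝ) : ℂ)‖ ^ 2 ≤
        (L : ℝ) ^ 2 * (((2 ^ J * L : ℕ) : ℝ) * B ^ 2) := by
    have h1 : ∀ x ∈ (Finset.Icc (a + L) b).filter (fun x => ¬ a + 2 ^ J * L ≤ x),
        ‖ws f γ L x - (((L : ℝ) * p x : ℝ) : ℂ)‖ ^ 2 ≤ (L * B) ^ 2 := fun x hx =>
      pow_le_pow_left₀ (norm_nonneg _) (hB x (Finset.mem_filter.mp hx).1) 2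
    refine (Finset.sum_le_card_nsmul _ _ _ h1).trans ?_
    rw [nsmul_eq_mul]
    have h2 : ((Finset.Icc (a + L) b).filter (fun x => ¬ a + 2 ^ J * L ≤ x)).card ≤ 2 ^ J * L := by
      have h3 : (Finset.Icc (a + L) b).filter (fun x => ¬ a + 2 ^ J * L ≤ x) ⊆
          Finset.Ico a (a + 2 ^ J * L) := by
        intro x hx
        simp only [Finset.mem_filter, Finset.mem_Icc, Finset.mem_Ico] at hx ⊢
        omega
      refine (Finset.card_le_card h3).trans ?_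
      rw [Nat.card_Ico]
      omega
    have h4 : (((Finset.Icc (a + L) b).filter (fun x => ¬ a + 2 ^ J * L ≤ x)).card : ℝ) ≤
        ((2 ^ J * L : ℕ) : ℝ) := by exact_mod_cast h2
    calc (((Finset.Icc (a + L) b).filter (fun x => ¬ a + 2 ^ J * L ≤ x)).card : ℝ) * (L * B) ^ 2 ≤
        ((2 ^ J * L : ℕ) : ℝ) * (L * B) ^ 2 := mul_le_mul_of_nonneg_right h4 (by positivity)
      _ = (L : ℝ) ^ 2 * (((2 ^ J * L : ℕ) : ℝ) * B ^ 2) := by ring
  rw [hf1] at hsplit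
  rw [← hsplit]
  linarith

/-- a constant times a power of the logarithm -/
theorem ev_log (K : ℝ) (k : ℕ) (η : ℝ) (hη : 0 < η) :
    ∀ᶠ X : ℝ in atTop, K * (1 + Real.log (6 * X)) ^ k ≤ X ^ η := by
  obtain ⟨C, hC, hb⟩ := IG3.log_pow_bound k (half_pos hη)
  have h1 : ∀ᶠ X : ℝ in atTop, |K| * (C * 3 ^ (η / 2)) ≤ X ^ (η / 2) :=
    (tendsto_rpow_atTop (half_pos hη)).eventually_ge_atTop _
  filter_upwards [h1, eventually_ge_atTop (1 : ℝ)] with X hX hX1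
  have hX0 : 0 < X := by linarith
  have h2 := hb (3 * X) (by linarith)
  rw [show 2 * (3 * X) = 6 * X by ring, Real.mul_rpow (by norm_num) hX0.le] at h2
  have hlog : 0 ≤ Real.log (6 * X) := Real.log_nonneg (by linarith)
  have hXp : 0 ≤ X ^ (η / 2) := Real.rpow_nonneg hX0.le _
  calc K * (1 + Real.log (6 * X)) ^ k ≤ |K| * (1 + Real.log (6 * X)) ^ k :=
        mul_le_mul_of_nonneg_right (le_abs_self K) (by positivity)
    _ ≤ |K| * (C * (3 ^ (η / 2) * X ^ (η / 2))) := mul_le_mul_of_nonneg_left h2 (abs_nonneg K)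
    _ = (|K| * (C * 3 ^ (η / 2))) * X ^ (η / 2) := by ring
    _ ≤ X ^ (η / 2) * X ^ (η / 2) := mul_le_mul_of_nonneg_right hX hXp
    _ = X ^ η := by
        rw [← Real.rpow_add hX0]
        congr 1
        ring

end IU2

/-- U2. Windows of `d_r` at rational frequencies against the main term. -/
theorem prU2 (hL0 : tsL0) (hU1 : tsU1) : tsU2 := by
  intro r E hr hAP hCB ε₁ θ₂ hε hε' hθ
  obtain ⟨hdeg, -, c, CA, hc0, hc4, hCA, hAPb⟩ := hAP
  obtain ⟨CB1, hCB10, hCB1⟩ := hCB 1 one_pos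
  obtain ⟨δ₅, hδ₅0, h51, h52, h53⟩ : ∃ δ₅ : ℝ, 0 < δ₅ ∧ δ₅ ≤ c / 4 ∧ δ₅ ≤ (1 - θ₂) / 2 ∧
      δ₅ ≤ 1 / 20 := by
    refine ⟨min (c / 4) (min ((1 - θ₂) / 2) (1 / 20)), ?_, min_le_left _ _,
      (min_le_right _ _).trans (min_le_left _ _), (min_le_right _ _).trans (min_le_right _ _)⟩
    refine lt_min (by positivity) (lt_min (by linarith) (by norm_num))
  obtain ⟨δu, hδu0, hU⟩ := hU1 r ε₁ δ₅ hr hε hε' hδ₅0 h53
  obtain ⟨δm, hδm0, hm1, hm2, hm3⟩ : ∃ δm : ℝ, 0 < δm ∧ δm ≤ δu ∧ δm ≤ c / (4 * CA) ∧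
      δm ≤ δ₅ / 4 := by
    refine ⟨min δu (min (c / (4 * CA)) (δ₅ / 4)), ?_, min_le_left _ _,
      (min_le_right _ _).trans (min_le_left _ _), (min_le_right _ _).trans (min_le_right _ _)⟩
    refine lt_min hδu0 (lt_min (by positivity) (by positivity))
  refine ⟨δm, hδm0, fun δ₁ hδ₁ hδ₁m => ?_⟩
  have hδ₁5 : δ₁ ≤ δ₅ / 4 := hδ₁m.trans hm3
  obtain ⟨X1, hX1⟩ := hU δ₁ hδ₁ (hδ₁m.trans hm1)
  obtain ⟨CL, hCL0, hCL⟩ := hL0 r (δ₅ / 8) (by positivity)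
  obtain ⟨d, hd⟩ : ∃ d : ℕ, d = r - 1 := ⟨_, rfl⟩
  rw [← hd] at hdeg
  obtain ⟨K1, hK1⟩ : ∃ K1 : ℝ, K1 = (d + 1) * (d * ((d + 1) * CB1)) := ⟨_, rfl⟩
  obtain ⟨K2, hK2⟩ : ∃ K2 : ℝ, K2 = (d + 1) * ((d + 1) * CB1) := ⟨_, rfl⟩
  have hK10 : 0 ≤ K1 := by rw [hK1]; positivity
  have hK20 : 0 ≤ K2 := by rw [hK2]; positivity
  have ev : ∀ᶠ X : ℝ in atTop, X1 ≤ X ∧ 1 ≤ X ∧
      (12 * CA + K1) * (1 + Real.log (6 * X)) ^ d ≤ X ^ (δ₅ / 8) ∧
      8 * (1 + Real.log (6 * X)) ^ 2 ≤ X ^ (δ₁ / 300) ∧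
      K2 * (1 + Real.log (6 * X)) ^ d ≤ X ^ (δ₅ / 8) ∧
      4 * (3 * CL + 1) ^ 2 ≤ X ^ (δ₅ / 4) ∧ 8 ≤ X ^ (δ₅ / 2) := by
    filter_upwards [eventually_ge_atTop X1, eventually_ge_atTop (1 : ℝ),
      IU2.ev_log (12 * CA + K1) d (δ₅ / 8) (by positivity),
      IU2.ev_log 8 2 (δ₁ / 300) (by positivity), IU2.ev_log K2 d (δ₅ / 8) (by positivity),
      (tendsto_rpow_atTop (by positivity : 0 < δ₅ / 4)).eventually_ge_atTop (4 * (3 * CL + 1) ^ 2),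
      (tendsto_rpow_atTop (by positivity : 0 < δ₅ / 2)).eventually_ge_atTop 8]
      with X a1 a2 a3 a4 a5 a6 a7
    exact ⟨a1, a2, a3, a4, a5, a6, a7⟩
  obtain ⟨X0, hX0⟩ := eventually_atTop.mp ev
  refine ⟨X0, fun X hX a b hBlk L q b' hL1 hL2 hq1 hq2 hcop => ?_⟩
  obtain ⟨hXX1, hXone, A1, A2, A3, A4, A5⟩ := hX0 X hX
  have hXpos : 0 < X := by linarith
  obtain ⟨hB1, hB2, hB3, hB4⟩ := hBlk
  have mono : ∀ u v : ℝ, u ≤ v → X ^ u ≤ X ^ v := fun u v h =>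
    Real.rpow_le_rpow_of_exponent_le hXone h
  have pos : ∀ u : ℝ, 0 < X ^ u := fun u => Real.rpow_pos_of_pos hXpos u
  have mulX : ∀ u v : ℝ, X ^ u * X ^ v = X ^ (u + v) := fun u v => (Real.rpow_add hXpos u v).symm
  have hLone : (1 : ℝ) ≤ L := (Real.one_le_rpow hXone (by linarith)).trans hL1
  have hL1n : 1 ≤ L := by exact_mod_cast hLone
  have hLpos : (0 : ℝ) < L := by linarith
  have hLY : (L : ℝ) ≤ X ^ (1 - δ₅) := hL2.trans (mono _ _ (by linarith))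
  obtain ⟨J, hJ1, hJ2⟩ := IU2.scales L (X ^ (1 - δ₅)) hLpos hLY
  have haone : (1 : ℝ) ≤ a := (Real.one_le_rpow hXone (by linarith)).trans hB1
  have hapos : (0 : ℝ) < a := by linarith
  -- the large scale
  obtain ⟨lJ, hlJ⟩ : ∃ lJ : ℕ, lJ = 2 ^ J * L := ⟨_, rfl⟩
  have hlJr : (lJ : ℝ) = 2 ^ J * L := by rw [hlJ]; push_cast; ring
  have hlJ1 : (lJ : ℝ) ≤ X ^ (1 - δ₅) := by rw [hlJr]; exact hJ1
  have hlJ2 : X ^ (1 - δ₅) / 2 ≤ lJ := by
    rw [hlJr]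
    rw [pow_succ] at hJ2
    linarith
  have hLlJ : L ≤ lJ := by
    rw [hlJ]
    exact Nat.le_mul_of_pos_left L (by positivity)
  have hlJpos : (0 : ℝ) < lJ := by
    have : (L : ℝ) ≤ lJ := by exact_mod_cast hLlJ
    linarith
  obtain ⟨γ, hγ⟩ : ∃ γ : ℝ, γ = (b' : ℝ) / q := ⟨_, rfl⟩
  have hlog3 : ∀ x : ℕ, 1 ≤ x → (x : ℝ) ≤ 3 * X → 0 ≤ Real.log x ∧
      Real.log x ≤ Real.log (6 * X) := by
    intro x hx hx3
    have h1 : (1 : ℝ) ≤ x := by exact_mod_cast hx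
    exact ⟨Real.log_nonneg h1, Real.log_le_log (by linarith) (by linarith)⟩
  have hlog6 : 0 ≤ Real.log (6 * X) := Real.log_nonneg (by linarith)
  -- AP
  have hqCA : (q : ℝ) ^ CA ≤ X ^ (c / 4) := by
    calc (q : ℝ) ^ CA ≤ (X ^ δm) ^ CA := Real.rpow_le_rpow (Nat.cast_nonneg q) hq2 hCA.le
      _ = X ^ (δm * CA) := (Real.rpow_mul hXpos.le _ _).symm
      _ ≤ X ^ (c / 4) := by
          refine mono _ _ ?_
          rw [le_div_iff₀ (by positivity)] at hm2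
          linarith
  have hap : ∀ n : ℕ, 1 ≤ n → (n : ℝ) ≤ 3 * X →
      ‖SS (dr r) n γ - (((n * (E q).eval (Real.log n) : ℝ)) : ℂ)‖ ≤ 3 * CA * X ^ (1 - 3 * c / 4) := by
    intro n hn hn3
    have hn1 : (1 : ℝ) ≤ n := by exact_mod_cast hn
    have h := hAPb q b' n hq1 hcop hn1
    rw [Nat.floor_natCast, ← hγ] at h
    refine h.trans ?_
    have h1 : (n : ℝ) ^ (1 - c) ≤ 3 * X ^ (1 - c) := by
      calc (n : ℝ) ^ (1 - c) ≤ (3 * X) ^ (1 - c) :=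
            Real.rpow_le_rpow (by linarith) hn3 (by linarith)
        _ = 3 ^ (1 - c) * X ^ (1 - c) := Real.mul_rpow (by norm_num) hXpos.le
        _ ≤ 3 * X ^ (1 - c) := by
          refine mul_le_mul_of_nonneg_right ?_ (pos _).le
          calc (3 : ℝ) ^ (1 - c) ≤ 3 ^ (1 : ℝ) :=
                Real.rpow_le_rpow_of_exponent_le (by norm_num) (by linarith)
            _ = 3 := Real.rpow_one 3
    calc CA * (q : ℝ) ^ CA * (n : ℝ) ^ (1 - c) ≤ CA * X ^ (c / 4) * (3 * X ^ (1 - c)) :=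
          mul_le_mul (mul_le_mul_of_nonneg_left hqCA hCA.le) h1
            (Real.rpow_nonneg (by linarith) _) (by have := pos (c / 4); positivity)
      _ = 3 * CA * (X ^ (c / 4) * X ^ (1 - c)) := by ring
      _ = 3 * CA * X ^ (1 - 3 * c / 4) := by
          rw [mulX]
          congr 2
          ring
  have hCBs : ∀ j, |(E q).coeff j| ≤ CB1 := by
    intro j
    have h := hCB1 q j hq1
    rw [sub_self, Real.rpow_zero, mul_one] at h
    exact h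
  -- the three bounds
  have hD : ∀ j < J, ∑ x ∈ Finset.Icc (a + 2 * (2 ^ j * L)) b,
      ‖ws (dr r) γ (2 ^ j * L) x - ws (dr r) γ (2 ^ j * L) (x - 2 ^ j * L)‖ ^ 2 ≤
        ((2 ^ j * L : ℕ) : ℝ) ^ 2 * X ^ (1 - δ₁ - δ₁ / 50) := by
    intro j hj
    have h1 : (L : ℝ) ≤ ((2 ^ j * L : ℕ) : ℝ) := by
      have : L ≤ 2 ^ j * L := Nat.le_mul_of_pos_left L (by positivity)
      exact_mod_cast this
    have h2 : ((2 ^ j * L : ℕ) : ℝ) ≤ lJ := by
      have : 2 ^ j * L ≤ lJ := by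
        rw [hlJ]
        exact Nat.mul_le_mul_right _ (Nat.pow_le_pow_right (by norm_num) hj.le)
      exact_mod_cast this
    rw [hγ]
    exact hX1 X hXX1 a b ⟨hB1, hB2, hB3, hB4⟩ (2 ^ j * L) q b' (hL1.trans h1) (h2.trans hlJ1) hq1
      (hq2.trans (mono _ _ hm1))
  have hκ : ∀ x ∈ Finset.Icc (a + 2 ^ J * L) b,
      ‖ws (dr r) γ (2 ^ J * L) x -
        ((((2 ^ J * L : ℕ) : ℝ) * (ed (E q)).eval (Real.log (x : ℝ)) : ℝ) : ℂ)‖ ≤
        ((2 ^ J * L : ℕ) : ℝ) * X ^ (-(δ₅ / 2)) := by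
    intro x hx
    rw [← hlJ] at hx ⊢
    rw [Finset.mem_Icc] at hx
    have ha1 : 1 ≤ a := by exact_mod_cast haone
    have hxb : (x : ℝ) ≤ b := by exact_mod_cast hx.2
    have hx3 : (x : ℝ) ≤ 3 * X := by linarith
    have hx1 : 1 ≤ x := by omega
    have hsub1 : 1 ≤ x - lJ := by omega
    have hsuba : a ≤ x - lJ := by omega
    have hsubr : ((x - lJ : ℕ) : ℝ) = (x : ℝ) - lJ := by
      rw [Nat.cast_sub (by omega)]
    have hsubar : (a : ℝ) ≤ ((x - lJ : ℕ) : ℝ) := by exact_mod_cast hsuba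
    have hsub3 : ((x - lJ : ℕ) : ℝ) ≤ 3 * X := by
      rw [hsubr]
      linarith
    have p1 := hap x hx1 hx3
    have p2 := hap (x - lJ) hsub1 hsub3
    have p3 := IU2.mean d (E q) CB1 (hdeg q) hCBs ((x - lJ : ℕ) : ℝ) x (by linarith)
      (by rw [hsubr]; linarith)
    rw [← hK1] at p3
    have hdiff : (x : ℝ) - ((x - lJ : ℕ) : ℝ) = lJ := by rw [hsubr]; ring
    rw [hdiff] at p3
    obtain ⟨l1, l2⟩ := hlog3 x hx1 hx3
    have p4 : (1 + Real.log (x : ℝ)) ^ d ≤ (1 + Real.log (6 * X)) ^ d :=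
      pow_le_pow_left₀ (by linarith) (by linarith) d
    have p5 : (lJ : ℝ) / ((x - lJ : ℕ) : ℝ) ≤ X ^ (-(7 * δ₅ / 8)) := by
      rw [div_le_iff₀ (by linarith)]
      calc (lJ : ℝ) ≤ X ^ (1 - δ₅) := hlJ1
        _ ≤ X ^ (-(7 * δ₅ / 8) + (1 - δ₁ / 2)) := mono _ _ (by linarith)
        _ = X ^ (-(7 * δ₅ / 8)) * X ^ (1 - δ₁ / 2) := (mulX _ _).symm
        _ ≤ X ^ (-(7 * δ₅ / 8)) * ((x - lJ : ℕ) : ℝ) :=
            mul_le_mul_of_nonneg_left (hB1.trans hsubar) (pos _).le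
    have hsp : 0 < ((x - lJ : ℕ) : ℝ) := by linarith
    have p6 : K1 * (1 + Real.log (x : ℝ)) ^ d * (lJ / ((x - lJ : ℕ) : ℝ)) ≤
        K1 * (1 + Real.log (6 * X)) ^ d * X ^ (-(7 * δ₅ / 8)) :=
      mul_le_mul (mul_le_mul_of_nonneg_left p4 hK10) p5 (by positivity) (by positivity)
    have p7 : 2 * (3 * CA * X ^ (1 - 3 * c / 4)) ≤ lJ * (12 * CA * X ^ (-(7 * δ₅ / 8))) := by
      calc 2 * (3 * CA * X ^ (1 - 3 * c / 4)) ≤
            2 * (3 * CA * X ^ ((1 - δ₅) + -(7 * δ₅ / 8))) := by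
            refine mul_le_mul_of_nonneg_left (mul_le_mul_of_nonneg_left (mono _ _ ?_)
              (by positivity)) (by norm_num)
            linarith
        _ = X ^ (1 - δ₅) / 2 * (12 * CA * X ^ (-(7 * δ₅ / 8))) := by
            rw [← mulX]
            ring
        _ ≤ lJ * (12 * CA * X ^ (-(7 * δ₅ / 8))) :=
            mul_le_mul_of_nonneg_right hlJ2 (by have := pos (-(7 * δ₅ / 8)); positivity)
    have p8 : 12 * CA * X ^ (-(7 * δ₅ / 8)) +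
        K1 * (1 + Real.log (6 * X)) ^ d * X ^ (-(7 * δ₅ / 8)) ≤ X ^ (-(δ₅ / 2)) := by
      have q1 : (1 : ℝ) ≤ (1 + Real.log (6 * X)) ^ d := one_le_pow₀ (by linarith)
      calc 12 * CA * X ^ (-(7 * δ₅ / 8)) +
          K1 * (1 + Real.log (6 * X)) ^ d * X ^ (-(7 * δ₅ / 8)) ≤
          12 * CA * (1 + Real.log (6 * X)) ^ d * X ^ (-(7 * δ₅ / 8)) +
          K1 * (1 + Real.log (6 * X)) ^ d * X ^ (-(7 * δ₅ / 8)) := by
            have : 12 * CA * 1 ≤ 12 * CA * (1 + Real.log (6 * X)) ^ d :=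
              mul_le_mul_of_nonneg_left q1 (by positivity)
            have := mul_le_mul_of_nonneg_right this (pos (-(7 * δ₅ / 8))).le
            linarith
        _ = (12 * CA + K1) * (1 + Real.log (6 * X)) ^ d * X ^ (-(7 * δ₅ / 8)) := by ring
        _ ≤ X ^ (δ₅ / 8) * X ^ (-(7 * δ₅ / 8)) := mul_le_mul_of_nonneg_right A1 (pos _).le
        _ = X ^ (δ₅ / 8 + -(7 * δ₅ / 8)) := mulX _ _
        _ ≤ X ^ (-(δ₅ / 2)) := mono _ _ (by linarith)
    have hid : ws (dr r) γ lJ x - (((lJ : ℝ) * (ed (E q)).eval (Real.log (x : ℝ)) : ℝ) : ℂ) =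
        (SS (dr r) x γ - (((x * (E q).eval (Real.log x) : ℝ)) : ℂ)) -
        (SS (dr r) (x - lJ) γ -
          (((((x - lJ : ℕ) : ℝ) * (E q).eval (Real.log ((x - lJ : ℕ) : ℝ)) : ℝ)) : ℂ)) +
        ((x * (E q).eval (Real.log x) -
          ((x - lJ : ℕ) : ℝ) * (E q).eval (Real.log ((x - lJ : ℕ) : ℝ)) -
          lJ * (ed (E q)).eval (Real.log (x : ℝ)) : ℝ) : ℂ) := by
      rw [IU2.ws_SS]
      push_cast
      ring
    rw [hid]
    have p9 : ‖((x * (E q).eval (Real.log x) -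
          ((x - lJ : ℕ) : ℝ) * (E q).eval (Real.log ((x - lJ : ℕ) : ℝ)) -
          lJ * (ed (E q)).eval (Real.log (x : ℝ)) : ℝ) : ℂ)‖ ≤
        lJ * (K1 * (1 + Real.log (6 * X)) ^ d * X ^ (-(7 * δ₅ / 8))) := by
      rw [Complex.norm_real, Real.norm_eq_abs]
      exact p3.trans (mul_le_mul_of_nonneg_left p6 hlJpos.le)
    have p10 := norm_add_le ((SS (dr r) x γ - (((x * (E q).eval (Real.log x) : ℝ)) : ℂ)) -
        (SS (dr r) (x - lJ) γ -
          (((((x - lJ : ℕ) : ℝ) * (E q).eval (Real.log ((x - lJ : ℕ) : ℝ)) : ℝ)) : ℂ)))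
        ((x * (E q).eval (Real.log x) -
          ((x - lJ : ℕ) : ℝ) * (E q).eval (Real.log ((x - lJ : ℕ) : ℝ)) -
          lJ * (ed (E q)).eval (Real.log (x : ℝ)) : ℝ) : ℂ)
    have p11 := norm_sub_le (SS (dr r) x γ - (((x * (E q).eval (Real.log x) : ℝ)) : ℂ))
        (SS (dr r) (x - lJ) γ -
          (((((x - lJ : ℕ) : ℝ) * (E q).eval (Real.log ((x - lJ : ℕ) : ℝ)) : ℝ)) : ℂ))
    have p12 := mul_le_mul_of_nonneg_left p8 hlJpos.le
    linarith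
  have hBd : ∀ x ∈ Finset.Icc (a + L) b,
      ‖ws (dr r) γ L x - (((L : ℝ) * (ed (E q)).eval (Real.log (x : ℝ)) : ℝ) : ℂ)‖ ≤
        L * ((3 * CL + 1) * X ^ (δ₅ / 8)) := by
    intro x hx
    rw [Finset.mem_Icc] at hx
    have ha1 : 1 ≤ a := by exact_mod_cast haone
    have hxb : (x : ℝ) ≤ b := by exact_mod_cast hx.2
    have hx3 : (x : ℝ) ≤ 3 * X := by linarith
    have hx1 : 1 ≤ x := by omega
    obtain ⟨l1, l2⟩ := hlog3 x hx1 hx3
    have hXe := pos (δ₅ / 8)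
    have h1 : ‖ws (dr r) γ L x‖ ≤ L * (3 * CL * X ^ (δ₅ / 8)) := by
      refine IU2.ws_le (dr r) γ L x _ (by positivity) fun n hn => ?_
      rw [Finset.mem_Ioc] at hn
      have hn1 : 1 ≤ n := by omega
      have hnx : (n : ℝ) ≤ x := by exact_mod_cast hn.2
      have hdr0 : 0 ≤ dr r n := by
        unfold dr
        exact Nat.cast_nonneg _
      rw [abs_of_nonneg hdr0]
      refine (hCL n hn1).trans ?_
      calc CL * (n : ℝ) ^ (δ₅ / 8) ≤ CL * (3 * X) ^ (δ₅ / 8) :=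
            mul_le_mul_of_nonneg_left (Real.rpow_le_rpow (Nat.cast_nonneg n) (by linarith)
              (by positivity)) hCL0.le
        _ = CL * (3 ^ (δ₅ / 8) * X ^ (δ₅ / 8)) := by rw [Real.mul_rpow (by norm_num) hXpos.le]
        _ ≤ CL * (3 * X ^ (δ₅ / 8)) := by
            refine mul_le_mul_of_nonneg_left (mul_le_mul_of_nonneg_right ?_ hXe.le) hCL0.le
            calc (3 : ℝ) ^ (δ₅ / 8) ≤ 3 ^ (1 : ℝ) :=
                  Real.rpow_le_rpow_of_exponent_le (by norm_num) (by linarith)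
              _ = 3 := Real.rpow_one 3
        _ = 3 * CL * X ^ (δ₅ / 8) := by ring
    have h2 : |(ed (E q)).eval (Real.log (x : ℝ))| ≤ X ^ (δ₅ / 8) := by
      have e1 := IF3.eval_bd d (ed (E q)) ((d + 1) * CB1) (Real.log (x : ℝ))
        (IF3.deg_ed d _ (hdeg q)) (IF3.ed_bd d (E q) CB1 (hdeg q) hCBs) l1
      rw [← hK2] at e1
      refine e1.trans (le_trans ?_ A3)
      exact mul_le_mul_of_nonneg_left (pow_le_pow_left₀ (by linarith) (by linarith) d) hK20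
    refine (norm_sub_le _ _).trans ?_
    rw [Complex.norm_real, Real.norm_eq_abs, abs_mul, abs_of_pos hLpos]
    have h3 := mul_le_mul_of_nonneg_left h2 hLpos.le
    calc ‖ws (dr r) γ L x‖ + L * |(ed (E q)).eval (Real.log (x : ℝ))| ≤
        L * (3 * CL * X ^ (δ₅ / 8)) + L * X ^ (δ₅ / 8) := add_le_add h1 h3
      _ = L * ((3 * CL + 1) * X ^ (δ₅ / 8)) := by ring
  have hcore := IU2.core (dr r) γ (fun x => (ed (E q)).eval (Real.log (x : ℝ))) a b L J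
    (X ^ (1 - δ₁ - δ₁ / 50)) (X ^ (-(δ₅ / 2))) ((3 * CL + 1) * X ^ (δ₅ / 8)) hL1n hD hκ hBd
  rw [← hlJ] at hcore
  rw [← hγ]
  refine hcore.trans (mul_le_mul_of_nonneg_left ?_ (by positivity))
  -- the three terms
  have hZ := pos (1 - δ₁ - δ₁ / 60)
  have t1 : 2 * ((J : ℝ) ^ 2 * (X ^ (1 - δ₁ - δ₁ / 50) / 4)) ≤ X ^ (1 - δ₁ - δ₁ / 60) / 4 := by
    have j1 : (2 : ℝ) ^ J ≤ X := by
      have e1 : (2 : ℝ) ^ J * 1 ≤ 2 ^ J * L := mul_le_mul_of_nonneg_left hLone (by positivity)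
      have e2 : X ^ (1 - δ₅) ≤ X ^ (1 : ℝ) := mono _ _ (by linarith)
      rw [Real.rpow_one] at e2
      linarith
    have j2 : (J : ℝ) * Real.log 2 ≤ Real.log X := by
      rw [← Real.log_pow]
      exact Real.log_le_log (by positivity) j1
    have j3 : (1 / 2 : ℝ) ≤ Real.log 2 := by
      have := Real.log_two_gt_d9
      linarith
    have j4 : (J : ℝ) ≤ 2 * (1 + Real.log (6 * X)) := by
      have e1 : (J : ℝ) * (1 / 2) ≤ J * Real.log 2 :=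
        mul_le_mul_of_nonneg_left j3 (Nat.cast_nonneg J)
      have e2 : Real.log X ≤ Real.log (6 * X) := Real.log_le_log hXpos (by linarith)
      linarith
    have j5 : (J : ℝ) ^ 2 ≤ (2 * (1 + Real.log (6 * X))) ^ 2 :=
      pow_le_pow_left₀ (Nat.cast_nonneg J) j4 2
    have hZ' := pos (1 - δ₁ - δ₁ / 50)
    calc 2 * ((J : ℝ) ^ 2 * (X ^ (1 - δ₁ - δ₁ / 50) / 4)) ≤
        2 * ((2 * (1 + Real.log (6 * X))) ^ 2 * (X ^ (1 - δ₁ - δ₁ / 50) / 4)) :=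
          mul_le_mul_of_nonneg_left (mul_le_mul_of_nonneg_right j5 (by positivity)) (by norm_num)
      _ = (8 * (1 + Real.log (6 * X)) ^ 2) * X ^ (1 - δ₁ - δ₁ / 50) / 4 := by ring
      _ ≤ X ^ (δ₁ / 300) * X ^ (1 - δ₁ - δ₁ / 50) / 4 := by
          have := mul_le_mul_of_nonneg_right A2 hZ'.le
          linarith
      _ = X ^ (1 - δ₁ - δ₁ / 60) / 4 := by
          rw [mulX]
          congr 2
          ring
  have t2 : 2 * (((Finset.Icc (a + lJ) b).card : ℝ) * (X ^ (-(δ₅ / 2))) ^ 2) ≤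
      X ^ (1 - δ₁ - δ₁ / 60) / 4 := by
    have c1 : ((Finset.Icc (a + lJ) b).card : ℝ) ≤ X ^ (1 - δ₁) := by
      rw [Nat.card_Icc]
      have hlJ1n : 1 ≤ lJ := hL1n.trans hLlJ
      have e1 : b + 1 - (a + lJ) ≤ b - a := by omega
      have e2 : ((b + 1 - (a + lJ) : ℕ) : ℝ) ≤ ((b - a : ℕ) : ℝ) := by exact_mod_cast e1
      refine e2.trans ?_
      have hab : a ≤ b := by
        have : (a : ℝ) ≤ b := by
          have := pos (1 - δ₁)
          linarith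
        exact_mod_cast this
      rw [Nat.cast_sub hab]
      linarith
    have c2 : (X ^ (-(δ₅ / 2))) ^ 2 = X ^ (-δ₅) := by
      rw [← Real.rpow_natCast, ← Real.rpow_mul hXpos.le]
      congr 1
      push_cast
      ring
    rw [c2]
    have hZ5 := pos (-δ₅)
    calc 2 * (((Finset.Icc (a + lJ) b).card : ℝ) * X ^ (-δ₅)) ≤ 2 * (X ^ (1 - δ₁) * X ^ (-δ₅)) :=
          mul_le_mul_of_nonneg_left (mul_le_mul_of_nonneg_right c1 hZ5.le) (by norm_num)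
      _ = 8 * X ^ (1 - δ₁ + -δ₅) / 4 := by
          rw [mulX]
          ring
      _ ≤ X ^ (δ₅ / 2) * X ^ (1 - δ₁ + -δ₅) / 4 := by
          have := mul_le_mul_of_nonneg_right A5 (pos (1 - δ₁ + -δ₅)).le
          linarith
      _ = X ^ (δ₅ / 2 + (1 - δ₁ + -δ₅)) / 4 := by rw [mulX]
      _ ≤ X ^ (1 - δ₁ - δ₁ / 60) / 4 := by
          have := mono (δ₅ / 2 + (1 - δ₁ + -δ₅)) (1 - δ₁ - δ₁ / 60) (by linarith)
          linarith
  have t3 : (lJ : ℝ) * ((3 * CL + 1) * X ^ (δ₅ / 8)) ^ 2 ≤ X ^ (1 - δ₁ - δ₁ / 60) / 4 := by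
    have c2 : (X ^ (δ₅ / 8)) ^ 2 = X ^ (δ₅ / 4) := by
      rw [← Real.rpow_natCast, ← Real.rpow_mul hXpos.le]
      congr 1
      push_cast
      ring
    rw [mul_pow, c2]
    have hZ4 := pos (δ₅ / 4)
    have hZ5 := pos (1 - δ₅)
    calc (lJ : ℝ) * ((3 * CL + 1) ^ 2 * X ^ (δ₅ / 4)) ≤
        X ^ (1 - δ₅) * ((3 * CL + 1) ^ 2 * X ^ (δ₅ / 4)) :=
          mul_le_mul_of_nonneg_right hlJ1 (by positivity)
      _ = (4 * (3 * CL + 1) ^ 2) * (X ^ (1 - δ₅) * X ^ (δ₅ / 4)) / 4 := by ring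
      _ ≤ X ^ (δ₅ / 4) * (X ^ (1 - δ₅) * X ^ (δ₅ / 4)) / 4 := by
          have := mul_le_mul_of_nonneg_right A4 (by positivity : 0 ≤ X ^ (1 - δ₅) * X ^ (δ₅ / 4))
          linarith
      _ = X ^ (δ₅ / 4 + (1 - δ₅ + δ₅ / 4)) / 4 := by rw [mulX, mulX]
      _ ≤ X ^ (1 - δ₁ - δ₁ / 60) / 4 := by
          have := mono (δ₅ / 4 + (1 - δ₅ + δ₅ / 4)) (1 - δ₁ - δ₁ / 60) (by linarith)
          linarith
  linarith

end Pool.Agent.Work.MP_122e00_nt.TS
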