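import Mathlib
import Pool.Agent.Work.MP_122e00_nt.TS.Stmts6
import Pool.Agent.Work.MP_122e00_nt.TS.I_F5

/-!
# MP_122e00_nt, block TS, item U3 (helper92): windows of the model at rational frequencies
-/

set_option autoImplicit false

namespace Pool.Agent.Work.MP_122e00_nt.TS

open Finset Filter Topology ArithmeticFunction

namespace IU3

theorem eeadd (a b : ℝ) : ee (a + b) = ee a * ee b := by
  unfold ee
  rw [← Complex.exp_add]
  congr 1
  push_cast
  ring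

theorem ee_int (m : ℤ) : ee (m : ℝ) = 1 := by
  unfold ee
  have h : ((2 * Real.pi * (m : ℝ) : ℝ) : ℂ) * Complex.I = m * (2 * Real.pi * Complex.I) := by
    push_cast
    ring
  rw [h]
  exact Complex.exp_int_mul_two_pi_mul_I m

/-- divisibility expressing that `b'/q + c/s` is an integer -/
def Nd (b' : ℤ) (q s c : ℕ) : Prop := ((q : ℤ) * s) ∣ b' * s + c * q

theorem ph_eq (b' : ℤ) (q s c : ℕ) (hq : 1 ≤ q) (hs : 1 ≤ s) :
    (b' : ℝ) / q + (c : ℝ) / s = ((b' * s + c * q : ℤ) : ℝ) / ((q : ℝ) * s) := by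
  have hq0 : (q : ℝ) ≠ 0 := by positivity
  have hs0 : (s : ℝ) ≠ 0 := by positivity
  push_cast
  field_simp

theorem nn_ge (b' : ℤ) (q s c : ℕ) (hq : 1 ≤ q) (hs : 1 ≤ s) (h : ¬ Nd b' q s c) :
    1 ≤ ((q : ℝ) * s) * nn ((b' : ℝ) / q + (c : ℝ) / s) := by
  have hq0 : (0 : ℝ) < q := by exact_mod_cast hq
  have hs0 : (0 : ℝ) < s := by exact_mod_cast hs
  rw [ph_eq b' q s c hq hs]
  set m : ℤ := round (((b' * s + c * q : ℤ) : ℝ) / ((q : ℝ) * s)) with hm
  have h1 : ((q : ℝ) * s) * nn (((b' * s + c * q : ℤ) : ℝ) / ((q : ℝ) * s)) =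
      |((b' * s + c * q - m * (q * s) : ℤ) : ℝ)| := by
    rw [nn, ← hm]
    have h0 : ((q : ℝ) * s) = |(q : ℝ) * s| := (abs_of_pos (mul_pos hq0 hs0)).symm
    rw [h0, ← abs_mul, ← h0]
    congr 1
    push_cast
    field_simp
  rw [h1]
  have h2 : (b' * s + c * q - m * (q * s) : ℤ) ≠ 0 := by
    intro h3
    exact h ⟨m, by linarith⟩
  exact_mod_cast Int.one_le_abs h2

theorem ph_int (b' : ℤ) (q s c : ℕ) (hq : 1 ≤ q) (hs : 1 ≤ s) (h : Nd b' q s c) :
    ∃ m : ℤ, (b' : ℝ) / q + (c : ℝ) / s = m := by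
  obtain ⟨m, hm⟩ := h
  refine ⟨m, ?_⟩
  rw [ph_eq b' q s c hq hs, hm]
  have hq0 : (q : ℝ) ≠ 0 := by positivity
  have hs0 : (s : ℝ) ≠ 0 := by positivity
  push_cast
  field_simp

theorem eq_of_Nd (b' : ℤ) (q s c : ℕ) (hb : IsCoprime b' (q : ℤ)) (hc : Nat.Coprime c s)
    (h : Nd b' q s c) : s = q := by
  unfold Nd at h
  have h1 : (q : ℤ) ∣ b' * s + c * q := (dvd_mul_right _ _).trans h
  have h2 : (s : ℤ) ∣ b' * s + c * q := (dvd_mul_left _ _).trans h
  have h3 : (q : ℤ) ∣ b' * s := (dvd_add_left (dvd_mul_left _ _)).mp h1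
  have h4 : (s : ℤ) ∣ c * q := (dvd_add_right (dvd_mul_left _ _)).mp h2
  have h5 : (q : ℤ) ∣ s := hb.symm.dvd_of_dvd_mul_left h3
  have hc' : IsCoprime (s : ℤ) (c : ℤ) := (Nat.isCoprime_iff_coprime.mpr hc).symm
  have h6 : (s : ℤ) ∣ q := hc'.dvd_of_dvd_mul_left h4
  exact Nat.dvd_antisymm (by exact_mod_cast h6) (by exact_mod_cast h5)

theorem Nd_self (b' : ℤ) (q c : ℕ) (hq : 1 ≤ q) : Nd b' q q c ↔ (q : ℤ) ∣ b' + c := by
  unfold Nd
  have e : b' * (q : ℤ) + c * q = (b' + c) * q := by ring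
  rw [e]
  have hq0 : (q : ℤ) ≠ 0 := by positivity
  exact mul_dvd_mul_iff_right hq0

open scoped Classical in
theorem cnt (b' : ℤ) (q : ℕ) (hq : 1 ≤ q) (hb : IsCoprime b' (q : ℤ)) (g : ℝ) :
    ∑ c ∈ (Finset.range q).filter (fun c => Nat.Coprime c q),
      (if Nd b' q q c then g else 0) = g := by
  have hq0 : (0 : ℤ) < q := by exact_mod_cast hq
  have hc0 : 0 ≤ (-b') % (q : ℤ) := Int.emod_nonneg _ hq0.ne'
  obtain ⟨c0, hc0'⟩ := Int.eq_ofNat_of_zero_le hc0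
  have hlt : (c0 : ℤ) < q := by rw [← hc0']; exact Int.emod_lt_of_pos _ hq0
  have hd : (q : ℤ) ∣ b' + c0 := by
    rw [← hc0']
    have := Int.emod_add_mul_ediv (-b') q
    refine ⟨-(-b' / q), ?_⟩
    linarith
  have hcop : Nat.Coprime c0 q := by
    rw [← Nat.isCoprime_iff_coprime]
    obtain ⟨k, hk⟩ := hd
    have e : (c0 : ℤ) = -b' + q * k := by linarith
    rw [e]
    exact (IsCoprime.neg_left hb).add_mul_left_left k
  rw [Finset.sum_eq_single c0]
  · rw [if_pos ((Nd_self b' q c0 hq).mpr hd)]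
  · intro c hc hne
    rw [if_neg]
    intro h
    rw [Nd_self b' q c hq] at h
    apply hne
    have h1 : (q : ℤ) ∣ (c : ℤ) - c0 := by
      have := dvd_sub h hd
      rwa [add_sub_add_left_eq_sub] at this
    have h2 : c < q := Finset.mem_range.mp (Finset.mem_filter.mp hc).1
    have h3 : |(c : ℤ) - c0| < q := by
      rw [abs_lt]
      constructor <;> omega
    have h4 := Int.eq_zero_of_abs_lt_dvd h1 h3
    omega
  · intro h
    exact (h (Finset.mem_filter.mpr ⟨Finset.mem_range.mpr (by exact_mod_cast hlt), hcop⟩)).elim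

open scoped Classical in
theorem pairs (b' : ℤ) (q Q : ℕ) (hq : 1 ≤ q) (hb : IsCoprime b' (q : ℤ)) (g : ℕ → ℝ) :
    ∑ s ∈ Finset.Icc 1 Q, ∑ c ∈ (Finset.range s).filter (fun c => Nat.Coprime c s),
      (if Nd b' q s c then g s else 0) = if q ≤ Q then g q else 0 := by
  have h1 : ∀ s ∈ Finset.Icc 1 Q, ∑ c ∈ (Finset.range s).filter (fun c => Nat.Coprime c s),
      (if Nd b' q s c then g s else 0) = if s = q then g s else 0 := by
    intro s _
    split_ifs with h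
    · subst h
      exact cnt b' s hq hb (g s)
    · refine Finset.sum_eq_zero fun c hc => ?_
      rw [if_neg]
      intro h2
      exact h (eq_of_Nd b' q s c hb (Finset.mem_filter.mp hc).2 h2)
  rw [Finset.sum_congr rfl h1, Finset.sum_ite_eq' (Finset.Icc 1 Q) q g]
  by_cases h : q ≤ Q
  · rw [if_pos h, if_pos (Finset.mem_Icc.mpr ⟨hq, h⟩)]
  · rw [if_neg h, if_neg]
    rw [Finset.mem_Icc]
    tauto

/-- the window sum of a sequence -/
noncomputable def WW (b : ℕ → ℝ) (L x : ℕ) (φ : ℝ) : ℂ :=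
  ∑ n ∈ Finset.Ioc (x - L) x, (b n : ℂ) * ee (n * φ)

theorem ws_fs (hE1 : tsE1) (E : ℕ → Polynomial ℝ) (Q L x : ℕ) (γ : ℝ) :
    ws (fs E Q) γ L x = ∑ s ∈ Finset.Icc 1 Q,
      ∑ c ∈ (Finset.range s).filter (fun c => Nat.Coprime c s),
        WW (fun n => (ed (E s)).eval (Real.log n)) L x (γ + (c : ℝ) / s) := by
  unfold ws fs
  have h1 : ∀ n ∈ Finset.Ioc (x - L) x,
      ((∑ q ∈ Finset.Icc 1 Q, Gh n q * (ed (E q)).eval (Real.log n) : ℝ) : ℂ) * ee (n * γ) =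
      ∑ s ∈ Finset.Icc 1 Q, ∑ c ∈ (Finset.range s).filter (fun c => Nat.Coprime c s),
        (((ed (E s)).eval (Real.log n) : ℝ) : ℂ) * ee ((n : ℝ) * (γ + (c : ℝ) / s)) := by
    intro n _
    rw [Complex.ofReal_sum, Finset.sum_mul]
    refine Finset.sum_congr rfl fun s hs => ?_
    rw [Complex.ofReal_mul, ← hE1 s n (Finset.mem_Icc.1 hs).1, Finset.sum_mul, Finset.sum_mul]
    refine Finset.sum_congr rfl fun c _ => ?_
    have e1 : (n : ℝ) * (γ + (c : ℝ) / s) = n * c / s + n * γ := by ring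
    rw [e1, eeadd]
    ring
  rw [Finset.sum_congr rfl h1, Finset.sum_comm]
  refine Finset.sum_congr rfl fun s _ => ?_
  rw [Finset.sum_comm]
  rfl

theorem WW_TT (b : ℕ → ℝ) (L x : ℕ) (φ : ℝ) :
    WW b L x φ = IF5.TT b x φ - IF5.TT b (x - L) φ := by
  unfold WW IF5.TT
  have h : Finset.Icc 1 x = Finset.Icc 1 (x - L) ∪ Finset.Ioc (x - L) x := by
    ext n
    simp only [Finset.mem_Icc, Finset.mem_union, Finset.mem_Ioc]
    omega
  have hd : Disjoint (Finset.Icc 1 (x - L)) (Finset.Ioc (x - L) x) := by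
    rw [Finset.disjoint_left]
    intro n hn hn'
    rw [Finset.mem_Icc] at hn
    rw [Finset.mem_Ioc] at hn'
    omega
  rw [h, Finset.sum_union hd]
  ring

theorem polylog (d : ℕ) (P : Polynomial ℝ) (M : ℝ) (hP : P.natDegree ≤ d)
    (hM : ∀ j, |P.coeff j| ≤ M) (y x : ℝ) (hy : 1 ≤ y) (hyx : y ≤ x) :
    |P.eval (Real.log y) - P.eval (Real.log x)| ≤
      (d + 1) ^ 2 * M * (1 + Real.log x) ^ d * ((x - y) / y) := by
  have hM0 : 0 ≤ M := le_trans (abs_nonneg _) (hM 0)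
  have hy0 : 0 < y := by linarith
  have hx0 : 0 < x := by linarith
  have hly : 0 ≤ Real.log y := Real.log_nonneg hy
  have hlx : Real.log y ≤ Real.log x := Real.log_le_log hy0 hyx
  have hlx0 : 0 ≤ Real.log x := hly.trans hlx
  have hdiff : Real.log x - Real.log y ≤ (x - y) / y := by
    rw [← Real.log_div hx0.ne' hy0.ne']
    refine (Real.log_le_sub_one_of_pos (by positivity)).trans (le_of_eq ?_)
    field_simp
  have hdy : 0 ≤ (x - y) / y := div_nonneg (by linarith) hy0.le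
  rw [Polynomial.eval_eq_sum_range' (Nat.lt_succ_of_le hP),
    Polynomial.eval_eq_sum_range' (Nat.lt_succ_of_le hP), ← Finset.sum_sub_distrib]
  refine (Finset.abs_sum_le_sum_abs _ _).trans ?_
  have hb : ∀ i ∈ Finset.range (d + 1), |P.coeff i * Real.log y ^ i - P.coeff i * Real.log x ^ i| ≤
      M * ((d + 1) * (1 + Real.log x) ^ d * ((x - y) / y)) := by
    intro i hi
    have hi' : i ≤ d := Nat.lt_succ_iff.1 (Finset.mem_range.1 hi)
    rw [← mul_sub, abs_mul]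
    refine mul_le_mul (hM i) ?_ (abs_nonneg _) hM0
    have h1 := abs_pow_sub_pow_le (Real.log y) (Real.log x) i
    have h2 : |Real.log y - Real.log x| = Real.log x - Real.log y := by
      rw [abs_sub_comm, abs_of_nonneg (by linarith)]
    have h3 : max |Real.log y| |Real.log x| = Real.log x := by
      rw [abs_of_nonneg hly, abs_of_nonneg hlx0, max_eq_right hlx]
    rw [h2, h3] at h1
    refine h1.trans ?_
    have h4 : Real.log x ^ (i - 1) ≤ (1 + Real.log x) ^ d :=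
      (pow_le_pow_left₀ hlx0 (by linarith) _).trans
        (pow_le_pow_right₀ (by linarith) (by omega))
    have h5 : (i : ℝ) ≤ d + 1 := by
      have : i ≤ d + 1 := by omega
      exact_mod_cast this
    calc (Real.log x - Real.log y) * i * Real.log x ^ (i - 1)
        ≤ ((x - y) / y) * (d + 1) * (1 + Real.log x) ^ d := by
          refine mul_le_mul (mul_le_mul hdiff h5 (by positivity) hdy) h4 (by positivity) ?_
          positivity
      _ = _ := by ring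
  refine (Finset.sum_le_sum hb).trans (le_of_eq ?_)
  rw [Finset.sum_const, Finset.card_range, nsmul_eq_mul]
  push_cast
  ring

/-- integral frequency -/
theorem WW_int (d : ℕ) (P : Polynomial ℝ) (M : ℝ) (hP : P.natDegree ≤ d)
    (hM : ∀ j, |P.coeff j| ≤ M) (L x : ℕ) (hLx : L + 1 ≤ x) (m : ℤ) :
    ‖WW (fun n => P.eval (Real.log n)) L x m - ((L * P.eval (Real.log x) : ℝ) : ℂ)‖ ≤
      L * ((d + 1) ^ 2 * M * (1 + Real.log x) ^ d * (L / ((x : ℝ) - L))) := by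
  have hM0 : 0 ≤ M := le_trans (abs_nonneg _) (hM 0)
  have hx1 : (1 : ℝ) ≤ x := by
    have : 1 ≤ x := by omega
    exact_mod_cast this
  have hlx0 : 0 ≤ Real.log x := Real.log_nonneg hx1
  have hLx' : (L : ℝ) + 1 ≤ x := by exact_mod_cast hLx
  have e1 : WW (fun n => P.eval (Real.log n)) L x m =
      ∑ n ∈ Finset.Ioc (x - L) x, ((P.eval (Real.log n) : ℝ) : ℂ) := by
    unfold WW
    refine Finset.sum_congr rfl fun n _ => ?_
    have : (n : ℝ) * (m : ℝ) = ((n * m : ℤ) : ℝ) := by push_cast; ring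
    rw [this, ee_int, mul_one]
  have e2 : ((L * P.eval (Real.log x) : ℝ) : ℂ) =
      ∑ n ∈ Finset.Ioc (x - L) x, ((P.eval (Real.log x) : ℝ) : ℂ) := by
    rw [Finset.sum_const, Nat.card_Ioc, nsmul_eq_mul]
    have : x - (x - L) = L := by omega
    rw [this]
    push_cast
    ring
  rw [e1, e2, ← Finset.sum_sub_distrib]
  refine (norm_sum_le _ _).trans ?_
  have hb : ∀ n ∈ Finset.Ioc (x - L) x,
      ‖((P.eval (Real.log n) : ℝ) : ℂ) - ((P.eval (Real.log x) : ℝ) : ℂ)‖ ≤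
      (d + 1) ^ 2 * M * (1 + Real.log x) ^ d * (L / ((x : ℝ) - L)) := by
    intro n hn
    rw [Finset.mem_Ioc] at hn
    have hn1 : (1 : ℝ) ≤ n := by
      have : 1 ≤ n := by omega
      exact_mod_cast this
    have hnx : (n : ℝ) ≤ x := by exact_mod_cast hn.2
    have hnL : (x : ℝ) - L ≤ n := by
      have h : x ≤ n + L := by omega
      have h' : (x : ℝ) ≤ n + L := by exact_mod_cast h
      linarith
    rw [← Complex.ofReal_sub, Complex.norm_real, Real.norm_eq_abs]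
    refine (polylog d P M hP hM n x hn1 hnx).trans ?_
    refine mul_le_mul_of_nonneg_left ?_ (by positivity)
    exact div_le_div₀ (by positivity) (by linarith) (by linarith) hnL
  refine (Finset.sum_le_sum hb).trans (le_of_eq ?_)
  rw [Finset.sum_const, Nat.card_Ioc, nsmul_eq_mul]
  have : x - (x - L) = L := by omega
  rw [this]

open scoped Classical in
/-- one pair `(s, c)` -/
theorem one_pair (d : ℕ) (P : Polynomial ℝ) (M V : ℝ) (hP : P.natDegree ≤ d)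
    (hM : ∀ j, |P.coeff j| ≤ M) (L x q s c : ℕ) (b' : ℤ) (hLx : L + 1 ≤ x) (hq : 1 ≤ q) (hs : 1 ≤ s)
    (hV : ∀ (N : ℕ) (γ : ℝ), 1 ≤ N → N ≤ x →
      ‖IF5.TT (fun n => P.eval (Real.log n)) N γ‖ * nn γ ≤ V) :
    ‖WW (fun n => P.eval (Real.log n)) L x ((b' : ℝ) / q + (c : ℝ) / s) -
      (((if Nd b' q s c then L * P.eval (Real.log x) else 0 : ℝ)) : ℂ)‖ ≤
    2 * V * (q * s) +
      (if Nd b' q s c then
        L * ((d + 1) ^ 2 * M * (1 + Real.log x) ^ d * (L / ((x : ℝ) - L))) else 0) := by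
  have hV0 : 0 ≤ V := le_trans (mul_nonneg (norm_nonneg _) (abs_nonneg _)) (hV 1 0 le_rfl (by omega))
  have hq0 : (0 : ℝ) < q := by exact_mod_cast hq
  have hs0 : (0 : ℝ) < s := by exact_mod_cast hs
  by_cases h : Nd b' q s c
  · rw [if_pos h, if_pos h]
    obtain ⟨m, hm⟩ := ph_int b' q s c hq hs h
    rw [hm]
    have h1 := WW_int d P M hP hM L x hLx m
    have h2 : 0 ≤ 2 * V * (q * s) := by positivity
    linarith
  · rw [if_neg h, if_neg h, Complex.ofReal_zero, sub_zero, add_zero, WW_TT]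
    have h1 := nn_ge b' q s c hq hs h
    set φ : ℝ := (b' : ℝ) / q + (c : ℝ) / s with hφ
    have h2 : ∀ N : ℕ, 1 ≤ N → N ≤ x →
        ‖IF5.TT (fun n => P.eval (Real.log n)) N φ‖ ≤ V * (q * s) := by
      intro N hN hNx
      have h3 := hV N φ hN hNx
      have h4 : ‖IF5.TT (fun n => P.eval (Real.log n)) N φ‖ * 1 ≤
          ‖IF5.TT (fun n => P.eval (Real.log n)) N φ‖ * (((q : ℝ) * s) * nn φ) :=
        mul_le_mul_of_nonneg_left h1 (norm_nonneg _)
      calc ‖IF5.TT (fun n => P.eval (Real.log n)) N φ‖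
          = ‖IF5.TT (fun n => P.eval (Real.log n)) N φ‖ * 1 := (mul_one _).symm
        _ ≤ ‖IF5.TT (fun n => P.eval (Real.log n)) N φ‖ * (((q : ℝ) * s) * nn φ) := h4
        _ = (‖IF5.TT (fun n => P.eval (Real.log n)) N φ‖ * nn φ) * (q * s) := by ring
        _ ≤ V * (q * s) := mul_le_mul_of_nonneg_right h3 (by positivity)
    have h5 := h2 x (by omega) le_rfl
    have h6 := h2 (x - L) (by omega) (by omega)
    refine (norm_sub_le _ _).trans ?_
    linarith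

open scoped Classical in
theorem total (hE1 : tsE1) (d : ℕ) (E : ℕ → Polynomial ℝ) (M V : ℝ) (Q : ℕ)
    (hP : ∀ s, 1 ≤ s → (ed (E s)).natDegree ≤ d)
    (hM : ∀ s, 1 ≤ s → ∀ j, |(ed (E s)).coeff j| ≤ M) (L x q : ℕ) (b' : ℤ) (hLx : L + 1 ≤ x)
    (hq : 1 ≤ q) (hb : IsCoprime b' (q : ℤ))
    (hV : ∀ s, 1 ≤ s → ∀ (N : ℕ) (γ : ℝ), 1 ≤ N → N ≤ x →
      ‖IF5.TT (fun n => (ed (E s)).eval (Real.log n)) N γ‖ * nn γ ≤ V) :
    ‖ws (fs E Q) ((b' : ℝ) / q) L x -
      ((if q ≤ Q then L * (ed (E q)).eval (Real.log x) else 0 : ℝ) : ℂ)‖ ≤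
    2 * V * q * (Q : ℝ) ^ 3 +
      L * ((d + 1) ^ 2 * M * (1 + Real.log x) ^ d * (L / ((x : ℝ) - L))) := by
  have hV0 : 0 ≤ V := le_trans (mul_nonneg (norm_nonneg _) (abs_nonneg _))
    (hV 1 le_rfl 1 0 le_rfl (by omega))
  have hM0 : 0 ≤ M := le_trans (abs_nonneg _) (hM 1 le_rfl 0)
  have hx1 : (1 : ℝ) ≤ x := by
    have : 1 ≤ x := by omega
    exact_mod_cast this
  have hlx0 : 0 ≤ Real.log x := Real.log_nonneg hx1
  have hLx' : (L : ℝ) + 1 ≤ x := by exact_mod_cast hLx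
  set B : ℝ := L * ((d + 1) ^ 2 * M * (1 + Real.log x) ^ d * (L / ((x : ℝ) - L))) with hB
  have hB0 : 0 ≤ B := by
    rw [hB]
    have : 0 ≤ (L : ℝ) / ((x : ℝ) - L) := div_nonneg (by positivity) (by linarith)
    positivity
  rw [ws_fs hE1, ← pairs b' q Q hq hb (fun s => L * (ed (E s)).eval (Real.log x))]
  rw [Complex.ofReal_sum, ← Finset.sum_sub_distrib]
  have h1 : ∀ s ∈ Finset.Icc 1 Q,
      ‖(∑ c ∈ (Finset.range s).filter (fun c => Nat.Coprime c s),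
        WW (fun n => (ed (E s)).eval (Real.log n)) L x ((b' : ℝ) / q + (c : ℝ) / s)) -
      ((∑ c ∈ (Finset.range s).filter (fun c => Nat.Coprime c s),
        (if Nd b' q s c then L * (ed (E s)).eval (Real.log x) else 0) : ℝ) : ℂ)‖ ≤
      2 * V * q * (Q : ℝ) ^ 2 +
        ∑ c ∈ (Finset.range s).filter (fun c => Nat.Coprime c s), (if Nd b' q s c then B else 0) := by
    intro s hs
    rw [Finset.mem_Icc] at hs
    have hsQ : (s : ℝ) ≤ Q := by exact_mod_cast hs.2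
    rw [Complex.ofReal_sum, ← Finset.sum_sub_distrib]
    refine (norm_sum_le _ _).trans ?_
    refine (Finset.sum_le_sum fun c _ => one_pair d (ed (E s)) M V (hP s hs.1) (hM s hs.1) L x q s c b'
      hLx hq hs.1 (hV s hs.1)).trans ?_
    rw [Finset.sum_add_distrib]
    refine add_le_add ?_ le_rfl
    rw [Finset.sum_const, nsmul_eq_mul]
    have hcard : (((Finset.range s).filter (fun c => Nat.Coprime c s)).card : ℝ) ≤ Q := by
      refine le_trans ?_ hsQ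
      have := Finset.card_filter_le (Finset.range s) (fun c => Nat.Coprime c s)
      rw [Finset.card_range] at this
      exact_mod_cast this
    calc (((Finset.range s).filter (fun c => Nat.Coprime c s)).card : ℝ) * (2 * V * (q * s))
        ≤ Q * (2 * V * (q * Q)) := by
          refine mul_le_mul hcard ?_ (by positivity) (by positivity)
          gcongr
      _ = 2 * V * q * (Q : ℝ) ^ 2 := by ring
  refine (norm_sum_le _ _).trans ((Finset.sum_le_sum h1).trans ?_)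
  rw [Finset.sum_add_distrib, Finset.sum_const, Nat.card_Icc, nsmul_eq_mul,
    pairs b' q Q hq hb (fun _ => B)]
  have h2 : (if q ≤ Q then B else 0) ≤ B := by
    split_ifs
    · exact le_rfl
    · exact hB0
  have h3 : ((Q + 1 - 1 : ℕ) : ℝ) * (2 * V * q * (Q : ℝ) ^ 2) = 2 * V * q * (Q : ℝ) ^ 3 := by
    rw [Nat.add_sub_cancel]
    ring
  rw [h3]
  exact add_le_add le_rfl h2

theorem logpow (k : ℕ) (A η : ℝ) (hA : 0 ≤ A) (hη : 0 < η) :
    ∀ᶠ X : ℝ in atTop, A * (1 + Real.log (2 * (3 * X / 2))) ^ k ≤ X ^ η := by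
  obtain ⟨K, hK, hb⟩ := IF5.log_pow k (η / 2) (half_pos hη)
  have h1 : ∀ᶠ X : ℝ in atTop, A * K * (3 / 2) ^ (η / 2) ≤ X ^ (η / 2) :=
    (tendsto_rpow_atTop (half_pos hη)).eventually_ge_atTop _
  filter_upwards [h1, eventually_ge_atTop (1 : ℝ)] with X hX hX1
  have hX0 : 0 < X := by linarith
  have h2 := hb (3 * X / 2) (by linarith)
  have e : (3 * X / 2) ^ (η / 2) = (3 / 2) ^ (η / 2) * X ^ (η / 2) := by
    rw [← Real.mul_rpow (by norm_num) hX0.le]
    congr 1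
    ring
  rw [e] at h2
  calc A * (1 + Real.log (2 * (3 * X / 2))) ^ k
      ≤ A * (K * ((3 / 2) ^ (η / 2) * X ^ (η / 2))) := mul_le_mul_of_nonneg_left h2 hA
    _ = (A * K * (3 / 2) ^ (η / 2)) * X ^ (η / 2) := by ring
    _ ≤ X ^ (η / 2) * X ^ (η / 2) := mul_le_mul_of_nonneg_right hX (Real.rpow_nonneg hX0.le _)
    _ = X ^ η := by
        rw [← Real.rpow_add hX0]
        congr 1
        ring

end IU3

open IU3 in
theorem prU3 (hE1 : tsE1) (hF1 : tsF1) (hF2 : tsF2) : tsU3 := by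
  intro r E hr hdeg hCB θ₂ hθ
  obtain ⟨CE, hCE, hE⟩ := hCB 1 one_pos
  obtain ⟨CF, hCF, hF2'⟩ := hF2 r
  obtain ⟨M, hMd⟩ : ∃ M : ℝ, M = (r + 1) * CE := ⟨_, rfl⟩
  have hM0 : 0 ≤ M := by rw [hMd]; positivity
  have hE' : ∀ s, 1 ≤ s → ∀ j, |(E s).coeff j| ≤ CE := by
    intro s hs j
    have h := hE s j hs
    simpa using h
  have hM : ∀ s, 1 ≤ s → ∀ j, |(ed (E s)).coeff j| ≤ M := by
    intro s hs j
    rw [hMd]
    exact IF5.ed_coeff r (E s) CE hCE.le (hdeg s) (hE' s hs) j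
  have hP : ∀ s, 1 ≤ s → (ed (E s)).natDegree ≤ r := fun s _ => IF5.ed_deg r (E s) (hdeg s)
  obtain ⟨κ, hκ⟩ : ∃ κ : ℝ, κ = (1 - θ₂) / 8 := ⟨_, rfl⟩
  have hκ0 : 0 < κ := by rw [hκ]; linarith
  have hθκ : θ₂ = 1 - 8 * κ := by rw [hκ]; ring
  obtain ⟨δ, hδ⟩ : ∃ δ : ℝ, δ = min ((1 - θ₂) / 2) (1 / 10) := ⟨_, rfl⟩
  have hδa : δ ≤ 4 * κ := by
    rw [hδ, hκ]
    exact (min_le_left _ _).trans (le_of_eq (by ring))
  have hδb : δ ≤ 1 / 10 := by rw [hδ]; exact min_le_right _ _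
  have hδ0 : 0 < δ := by
    rw [hδ]
    exact lt_min (by linarith) (by norm_num)
  refine ⟨δ, hδ0, fun η₂ hη0 hη1 => ?_⟩
  have ev : ∀ᶠ X : ℝ in atTop, 1 ≤ X ∧
      CF * M * (1 + Real.log (2 * (3 * X / 2))) ^ (2 * r) ≤ X ^ (1 / 200 : ℝ) ∧
      4 ≤ X ^ (1 / 100 : ℝ) ∧
      4 * (r + 1) ^ 2 * M * (1 + Real.log (2 * (3 * X / 2))) ^ r ≤ X ^ κ ∧ 2 ≤ X ^ (6 * κ) := by
    refine (eventually_ge_atTop 1).and ((logpow (2 * r) (CF * M) (1 / 200) (by positivity)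
      (by norm_num)).and (((tendsto_rpow_atTop (by norm_num)).eventually_ge_atTop 4).and
      ((logpow r (4 * (r + 1) ^ 2 * M) κ (by positivity) hκ0).and
      ((tendsto_rpow_atTop (by positivity)).eventually_ge_atTop 2))))
  obtain ⟨X0, hX0⟩ := eventually_atTop.mp ev
  refine ⟨X0, fun X hX x L q b' hx1 hx2 hL1 hL2 hq1 hq2 hb => ?_⟩
  obtain ⟨h1X, hVX, h4X, hBX, h2X⟩ := hX0 X hX
  have hXp : 0 < X := by linarith
  rw [hθκ] at hL2
  have hx1' : X ^ (1 - 2 * κ) ≤ x := by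
    refine le_trans (le_of_eq ?_) hx1
    congr 1
    rw [hκ]
    ring
  have e1 : X ^ (1 - 2 * κ) = X ^ (1 - 8 * κ) * X ^ (6 * κ) := by
    rw [← Real.rpow_add hXp]
    congr 1
    ring
  have hp8 : 0 < X ^ (1 - 8 * κ) := Real.rpow_pos_of_pos hXp _
  have hxL : 2 * (L : ℝ) ≤ x := by
    refine le_trans ?_ hx1'
    rw [e1]
    calc 2 * (L : ℝ) ≤ 2 * X ^ (1 - 8 * κ) := by linarith
      _ = X ^ (1 - 8 * κ) * 2 := by ring
      _ ≤ _ := mul_le_mul_of_nonneg_left h2X hp8.le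
  have hL1' : (1 : ℝ) ≤ L := (Real.one_le_rpow h1X (by norm_num)).trans hL1
  have hLn : 1 ≤ L := by exact_mod_cast hL1'
  have hLx : L + 1 ≤ x := by
    have h : 2 * L ≤ x := by exact_mod_cast hxL
    omega
  obtain ⟨Q, hQ⟩ : ∃ Q : ℕ, Q = ⌊X ^ η₂⌋₊ := ⟨_, rfl⟩
  rw [← hQ]
  have hQX : (Q : ℝ) ≤ X ^ (1 / 100 : ℝ) := by
    rw [hQ]
    refine (Nat.floor_le (Real.rpow_nonneg hXp.le _)).trans ?_
    exact Real.rpow_le_rpow_of_exponent_le h1X hη1
  obtain ⟨V, hV⟩ : ∃ V : ℝ, V = CF * M * (1 + Real.log (2 * (3 * X / 2))) ^ (2 * r) := ⟨_, rfl⟩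
  have hlog : 0 ≤ Real.log (2 * (3 * X / 2)) := Real.log_nonneg (by linarith)
  have hV0 : 0 ≤ V := by rw [hV]; positivity
  have hx0 : (0 : ℝ) < x := by linarith
  have key := total hE1 r E M V Q hP hM L x q b' hLx hq1 hb (by
    intro s hs N γ hN hNx
    rw [hV]
    refine IF5.Tbound hF1 r CF hCF hF2' (ed (E s)) M (3 * X / 2) γ N hM0 (hP s hs) (hM s hs) hN ?_
    have : (N : ℝ) ≤ x := by exact_mod_cast hNx
    linarith)
  refine key.trans ?_
  have hLp : 0 ≤ (L : ℝ) := by linarith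
  -- first term
  have t1 : 2 * V * q * (Q : ℝ) ^ 3 ≤ (1 / 2) * (L * X ^ (-δ)) := by
    have hp : 0 ≤ X ^ (1 / 100 : ℝ) := Real.rpow_nonneg hXp.le _
    have a1 : 2 * V * q * (Q : ℝ) ^ 3 ≤
        2 * X ^ (1 / 200 : ℝ) * X ^ (1 / 100 : ℝ) * (X ^ (1 / 100 : ℝ)) ^ 3 := by
      have hV' : V ≤ X ^ (1 / 200 : ℝ) := by rw [hV]; exact hVX
      gcongr
    have a2 : 2 * X ^ (1 / 200 : ℝ) * X ^ (1 / 100 : ℝ) * (X ^ (1 / 100 : ℝ)) ^ 3 =
        2 * X ^ (9 / 200 : ℝ) := by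
      rw [← Real.rpow_natCast (X ^ (1 / 100 : ℝ)) 3, ← Real.rpow_mul hXp.le, mul_assoc, mul_assoc,
        ← Real.rpow_add hXp, ← Real.rpow_add hXp]
      norm_num
    have a3 : 4 * X ^ (9 / 200 : ℝ) ≤ X ^ (11 / 200 : ℝ) := by
      calc 4 * X ^ (9 / 200 : ℝ) ≤ X ^ (1 / 100 : ℝ) * X ^ (9 / 200 : ℝ) :=
            mul_le_mul_of_nonneg_right h4X (Real.rpow_nonneg hXp.le _)
        _ = X ^ (11 / 200 : ℝ) := by
            rw [← Real.rpow_add hXp]
            norm_num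
    have a4 : X ^ (11 / 200 : ℝ) ≤ X ^ (1 / 3 : ℝ) * X ^ (-δ) := by
      rw [← Real.rpow_add hXp]
      exact Real.rpow_le_rpow_of_exponent_le h1X (by linarith)
    have a5 : X ^ (1 / 3 : ℝ) * X ^ (-δ) ≤ L * X ^ (-δ) :=
      mul_le_mul_of_nonneg_right hL1 (Real.rpow_nonneg hXp.le _)
    linarith
  -- second term
  have t2 : L * ((r + 1) ^ 2 * M * (1 + Real.log x) ^ r * (L / ((x : ℝ) - L))) ≤
      (1 / 2) * (L * X ^ (-δ)) := by
    have b1 : (L : ℝ) / ((x : ℝ) - L) ≤ 2 * X ^ (-(6 * κ)) := by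
      rw [div_le_iff₀ (by linarith)]
      have c1 : (x : ℝ) / 2 ≤ x - L := by linarith
      have c2 : X ^ (-(6 * κ)) * X ^ (1 - 2 * κ) = X ^ (1 - 8 * κ) := by
        rw [← Real.rpow_add hXp]
        congr 1
        ring
      have c3 : 0 ≤ X ^ (-(6 * κ)) := Real.rpow_nonneg hXp.le _
      calc (L : ℝ) ≤ X ^ (1 - 8 * κ) := hL2
        _ = X ^ (-(6 * κ)) * X ^ (1 - 2 * κ) := c2.symm
        _ ≤ X ^ (-(6 * κ)) * x := mul_le_mul_of_nonneg_left hx1' c3
        _ = 2 * X ^ (-(6 * κ)) * (x / 2) := by ring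
        _ ≤ 2 * X ^ (-(6 * κ)) * (x - L) := mul_le_mul_of_nonneg_left c1 (by positivity)
    have b2 : 1 + Real.log x ≤ 1 + Real.log (2 * (3 * X / 2)) := by
      have := Real.log_le_log hx0 (by linarith : (x : ℝ) ≤ 2 * (3 * X / 2))
      linarith
    have hlx : 0 ≤ Real.log x := Real.log_nonneg (by linarith)
    have b3 : (r + 1) ^ 2 * M * (1 + Real.log x) ^ r ≤ X ^ κ / 4 := by
      have c1 : (r + 1) ^ 2 * M * (1 + Real.log x) ^ r ≤
          (r + 1) ^ 2 * M * (1 + Real.log (2 * (3 * X / 2))) ^ r :=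
        mul_le_mul_of_nonneg_left (pow_le_pow_left₀ (by linarith) b2 r) (by positivity)
      linarith
    have b4 : 0 ≤ (L : ℝ) / ((x : ℝ) - L) := div_nonneg hLp (by linarith)
    have b5 : (r + 1) ^ 2 * M * (1 + Real.log x) ^ r * (L / ((x : ℝ) - L)) ≤
        (X ^ κ / 4) * (2 * X ^ (-(6 * κ))) :=
      mul_le_mul b3 b1 b4 (by positivity)
    have b6 : (X ^ κ / 4) * (2 * X ^ (-(6 * κ))) = (1 / 2) * X ^ (-(5 * κ)) := by
      have : X ^ κ * X ^ (-(6 * κ)) = X ^ (-(5 * κ)) := by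
        rw [← Real.rpow_add hXp]
        congr 1
        ring
      calc (X ^ κ / 4) * (2 * X ^ (-(6 * κ))) = (1 / 2) * (X ^ κ * X ^ (-(6 * κ))) := by ring
        _ = _ := by rw [this]
    have b7 : X ^ (-(5 * κ)) ≤ X ^ (-δ) :=
      Real.rpow_le_rpow_of_exponent_le h1X (by linarith)
    calc L * ((r + 1) ^ 2 * M * (1 + Real.log x) ^ r * (L / ((x : ℝ) - L)))
        ≤ L * ((1 / 2) * X ^ (-δ)) := by
          refine mul_le_mul_of_nonneg_left ?_ hLp
          linarith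
      _ = (1 / 2) * (L * X ^ (-δ)) := by ring
  linarith

end Pool.Agent.Work.MP_122e00_nt.TS
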