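import Pool.Agent.Work.MP_122e00_nt.TS.Stmts6
import Pool.Agent.Work.MP_122e00_nt.TS.I_F6
import Pool.Agent.Work.MP_122e00_nt.TS.I_G3

set_option autoImplicit false

/-!
# Thin shifts, item U4 (helper82)
-/

namespace Pool.Agent.Work.MP_122e00_nt.TS

open Finset Filter Topology ArithmeticFunction MeasureTheory
open scoped ArithmeticFunction.zeta ArithmeticFunction.Moebius

namespace IU4

theorem ws_fl (r : ℕ) (E : ℕ → Polynomial ℝ) (Q : ℕ) (γ : ℝ) (L x : ℕ) :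
    ws (fl r E Q) γ L x = ws (dr r) γ L x - ws (fs E Q) γ L x := by
  unfold ws fl
  rw [← Finset.sum_sub_distrib]
  refine Finset.sum_congr rfl fun n _ => ?_
  push_cast
  ring

theorem sq3 (A B C : ℂ) : ‖A - B + C‖ ^ 2 ≤ 3 * (‖A‖ ^ 2 + ‖B‖ ^ 2 + ‖C‖ ^ 2) := by
  have h : ‖A - B + C‖ ≤ ‖A‖ + ‖B‖ + ‖C‖ :=
    (norm_add_le _ _).trans (by linarith [norm_sub_le A B])
  calc ‖A - B + C‖ ^ 2 ≤ (‖A‖ + ‖B‖ + ‖C‖) ^ 2 := pow_le_pow_left₀ (norm_nonneg _) h 2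
    _ ≤ 3 * (‖A‖ ^ 2 + ‖B‖ ^ 2 + ‖C‖ ^ 2) := by
      nlinarith [sq_nonneg (‖A‖ - ‖B‖), sq_nonneg (‖A‖ - ‖C‖), sq_nonneg (‖B‖ - ‖C‖)]

theorem logpow3 (k : ℕ) (η : ℝ) (hη : 0 < η) :
    ∀ᶠ X : ℝ in atTop, (1 + Real.log (3 * X)) ^ k ≤ X ^ η := by
  obtain ⟨C, hC, hb⟩ := IG3.log_pow_bound k (half_pos hη)
  have h1 : ∀ᶠ X : ℝ in atTop, C * (3 / 2) ^ (η / 2) ≤ X ^ (η / 2) :=
    (tendsto_rpow_atTop (half_pos hη)).eventually_ge_atTop _
  filter_upwards [h1, eventually_ge_atTop (1 : ℝ)] with X hX hX1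
  have hX0 : 0 < X := by linarith
  have h2 := hb (3 / 2 * X) (by linarith)
  rw [show 2 * (3 / 2 * X) = 3 * X by ring, Real.mul_rpow (by norm_num) hX0.le] at h2
  calc (1 + Real.log (3 * X)) ^ k ≤ C * ((3 / 2) ^ (η / 2) * X ^ (η / 2)) := h2
    _ = (C * (3 / 2) ^ (η / 2)) * X ^ (η / 2) := by ring
    _ ≤ X ^ (η / 2) * X ^ (η / 2) :=
        mul_le_mul_of_nonneg_right hX (Real.rpow_nonneg hX0.le _)
    _ = X ^ η := by
        rw [← Real.rpow_add hX0]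
        congr 1
        ring

/-- the final numerical inequality -/
theorem fin_num (X L δ δb η K : ℝ) (hX : 1 ≤ X) (hδ : 0 < δ) (hδb : δ ≤ δb)
    (hη : 2 * η ≤ δ / 20 - δ / 60) (hbig : 3 * (2 + K ^ 2) ≤ X ^ (δ / 60 - δ / 70)) :
    3 * (L ^ 2 * X ^ (1 - δ - δ / 60) + X ^ (1 - δ) * (L * X ^ (-δb)) ^ 2 +
      X ^ (1 - δ) * (L * (K * (X ^ (-(δ / 40)) * X ^ η))) ^ 2) ≤
    L ^ 2 * X ^ (1 - δ - δ / 70) := by
  have hX0 : 0 < X := by linarith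
  have hL2 : 0 ≤ L ^ 2 := sq_nonneg L
  have e1 : X ^ (1 - δ) * (L * X ^ (-δb)) ^ 2 ≤ L ^ 2 * X ^ (1 - δ - δ / 60) := by
    have h1 : X ^ (1 - δ) * (L * X ^ (-δb)) ^ 2 = L ^ 2 * X ^ (1 - δ + (-δb) + (-δb)) := by
      rw [Real.rpow_add hX0, Real.rpow_add hX0]
      ring
    rw [h1]
    exact mul_le_mul_of_nonneg_left (Real.rpow_le_rpow_of_exponent_le hX (by linarith)) hL2
  have e2 : X ^ (1 - δ) * (L * (K * (X ^ (-(δ / 40)) * X ^ η))) ^ 2 ≤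
      K ^ 2 * (L ^ 2 * X ^ (1 - δ - δ / 60)) := by
    have h1 : X ^ (1 - δ) * (L * (K * (X ^ (-(δ / 40)) * X ^ η))) ^ 2 =
        K ^ 2 * (L ^ 2 * X ^ (1 - δ + (-(δ / 40)) + (-(δ / 40)) + η + η)) := by
      rw [Real.rpow_add hX0, Real.rpow_add hX0, Real.rpow_add hX0, Real.rpow_add hX0]
      ring
    rw [h1]
    refine mul_le_mul_of_nonneg_left ?_ (sq_nonneg K)
    exact mul_le_mul_of_nonneg_left (Real.rpow_le_rpow_of_exponent_le hX (by linarith)) hL2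
  have e3 : X ^ (1 - δ - δ / 70) = X ^ (1 - δ - δ / 60) * X ^ (δ / 60 - δ / 70) := by
    rw [← Real.rpow_add hX0]
    congr 1
    ring
  have hP : 0 ≤ L ^ 2 * X ^ (1 - δ - δ / 60) := mul_nonneg hL2 (Real.rpow_nonneg hX0.le _)
  calc 3 * (L ^ 2 * X ^ (1 - δ - δ / 60) + X ^ (1 - δ) * (L * X ^ (-δb)) ^ 2 +
      X ^ (1 - δ) * (L * (K * (X ^ (-(δ / 40)) * X ^ η))) ^ 2)
      ≤ 3 * (L ^ 2 * X ^ (1 - δ - δ / 60) + L ^ 2 * X ^ (1 - δ - δ / 60) +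
        K ^ 2 * (L ^ 2 * X ^ (1 - δ - δ / 60))) := by linarith
    _ = (L ^ 2 * X ^ (1 - δ - δ / 60)) * (3 * (2 + K ^ 2)) := by ring
    _ ≤ (L ^ 2 * X ^ (1 - δ - δ / 60)) * X ^ (δ / 60 - δ / 70) :=
        mul_le_mul_of_nonneg_left hbig hP
    _ = L ^ 2 * X ^ (1 - δ - δ / 70) := by rw [e3]; ring

end IU4

open IU4

/-- item U4 -/
theorem prU4 (hU2 : tsU2) (hU3 : tsU3) : tsU4 := by
  intro r E hr hAP hCB ε₁ θ₂ hε₁ hε₁' hθ₂
  obtain ⟨δa, hδa, hA⟩ := hU2 r E hr hAP hCB ε₁ θ₂ hε₁ hε₁' hθ₂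
  obtain ⟨δb, hδb, hB⟩ := hU3 r E (by omega) hAP.1 hCB θ₂ hθ₂
  obtain ⟨C2, hC2, hco⟩ := hCB (1 / 2) (by norm_num)
  refine ⟨min (min δa δb) (min (1 / 100) ((1 - θ₂) / 2)),
    lt_min (lt_min hδa hδb) (lt_min (by norm_num) (by linarith)), ?_⟩
  intro δ₁ hδ₁ hδ₁m
  have h1a : δ₁ ≤ δa := hδ₁m.trans ((min_le_left _ _).trans (min_le_left _ _))
  have h1b : δ₁ ≤ δb := hδ₁m.trans ((min_le_left _ _).trans (min_le_right _ _))
  have h1c : δ₁ ≤ 1 / 100 := hδ₁m.trans ((min_le_right _ _).trans (min_le_left _ _))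
  have h1d : δ₁ ≤ (1 - θ₂) / 2 := hδ₁m.trans ((min_le_right _ _).trans (min_le_right _ _))
  obtain ⟨XA, hXA⟩ := hA δ₁ hδ₁ h1a
  obtain ⟨XB, hXB⟩ := hB (δ₁ / 20) (by linarith) (by linarith)
  set K : ℝ := ((r : ℝ) + 1) * ((r : ℝ) + 2) * C2 with hK
  have hK0 : 0 ≤ K := by positivity
  set η : ℝ := δ₁ / 1000 with hη
  have hη0 : 0 < η := by positivity
  have hev1 : ∀ᶠ X : ℝ in atTop, 3 * (2 + K ^ 2) ≤ X ^ (δ₁ / 60 - δ₁ / 70) :=
    (tendsto_rpow_atTop (by linarith)).eventually_ge_atTop _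
  obtain ⟨XC, hXC⟩ := Filter.eventually_atTop.1
    ((hev1.and (logpow3 r η hη0)).and (eventually_ge_atTop (1 : ℝ)))
  refine ⟨max XA (max XB XC), ?_⟩
  intro X hX a b hblk L q b' hL1 hL2 hq hqX hcop
  obtain ⟨⟨hbig, hlog⟩, hX1⟩ := hXC X ((le_max_right _ _).trans ((le_max_right _ _).trans hX))
  have hX0 : 0 < X := by linarith
  set δm : ℝ := min (min δa δb) (min (1 / 100) ((1 - θ₂) / 2)) with hδm
  have hqa : (q : ℝ) ≤ X ^ δa := hqX.trans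
    (Real.rpow_le_rpow_of_exponent_le hX1 ((min_le_left _ _).trans (min_le_left _ _)))
  have hqc : (q : ℝ) ≤ X ^ (1 / 100 : ℝ) := hqX.trans
    (Real.rpow_le_rpow_of_exponent_le hX1 ((min_le_right _ _).trans (min_le_left _ _)))
  have hAA := hXA X ((le_max_left _ _).trans hX) a b hblk L q b' hL1 hL2 hq hqa hcop
  obtain ⟨hba, hbb, hbc, hbd⟩ := hblk
  have hL13 : X ^ (1 / 3 : ℝ) ≤ (L : ℝ) :=
    (Real.rpow_le_rpow_of_exponent_le hX1 (by linarith)).trans hL1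
  have hLone : (1 : ℝ) ≤ L := (Real.one_le_rpow hX1 (by norm_num)).trans hL13
  have hLone' : 1 ≤ L := by exact_mod_cast hLone
  -- the number of windows
  have hcard : ((Finset.Icc (a + L) b).card : ℝ) ≤ X ^ (1 - δ₁) := by
    rw [Nat.card_Icc]
    by_cases h : a + L ≤ b + 1
    · rw [Nat.cast_sub h]
      push_cast
      linarith
    · rw [Nat.sub_eq_zero_of_le (by omega)]
      push_cast
      exact Real.rpow_nonneg hX0.le _
  set Q : ℕ := ⌊X ^ (δ₁ / 20)⌋₊ with hQ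
  have hLg1 : (1 : ℝ) ≤ 1 + Real.log (3 * X) := by
    have := Real.log_nonneg (show (1 : ℝ) ≤ 3 * X by linarith)
    linarith
  -- the three parts at one window
  have key : ∀ x ∈ Finset.Icc (a + L) b, ‖ws (fl r E Q) (b' / q) L x‖ ^ 2 ≤
      3 * (‖ws (dr r) (b' / q) L x - ((L * (ed (E q)).eval (Real.log x) : ℝ) : ℂ)‖ ^ 2 +
        (L * X ^ (-δb)) ^ 2 + (L * (K * (X ^ (-(δ₁ / 40)) * X ^ η))) ^ 2) := by
    intro x hx
    rw [Finset.mem_Icc] at hx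
    have hxa : (a : ℝ) ≤ x := by exact_mod_cast (show a ≤ x by omega)
    have hxb : (x : ℝ) ≤ 3 * X := le_trans (by exact_mod_cast hx.2) hbb
    have hx1 : (1 : ℝ) ≤ x := by
      have : 1 ≤ x := by omega
      exact_mod_cast this
    have hB1 := hXB X ((le_max_left _ _).trans ((le_max_right _ _).trans hX)) x L q b'
      ((Real.rpow_le_rpow_of_exponent_le hX1 (by linarith)).trans (hba.trans hxa)) hxb hL13 hL2
      hq hqc hcop
    set p : ℝ := (ed (E q)).eval (Real.log x) with hp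
    have hsplit : ws (fl r E Q) (b' / q) L x =
        (ws (dr r) (b' / q) L x - ((L * p : ℝ) : ℂ)) -
          (ws (fs E Q) (b' / q) L x - ((if q ≤ Q then L * p else 0 : ℝ) : ℂ)) +
          ((if q ≤ Q then 0 else L * p : ℝ) : ℂ) := by
      rw [ws_fl]
      by_cases h : q ≤ Q
      · rw [if_pos h, if_pos h]
        push_cast
        ring
      · rw [if_neg h, if_neg h]
        push_cast
        ring
    rw [hsplit]
    refine (sq3 _ _ _).trans ?_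
    have hBsq : ‖ws (fs E Q) (b' / q) L x - ((if q ≤ Q then L * p else 0 : ℝ) : ℂ)‖ ^ 2 ≤
        (L * X ^ (-δb)) ^ 2 := pow_le_pow_left₀ (norm_nonneg _) hB1 2
    have hCn : ‖((if q ≤ Q then 0 else L * p : ℝ) : ℂ)‖ ≤
        L * (K * (X ^ (-(δ₁ / 40)) * X ^ η)) := by
      rw [Complex.norm_real, Real.norm_eq_abs]
      by_cases h : q ≤ Q
      · rw [if_pos h, abs_zero]
        positivity
      · rw [if_neg h, abs_mul, Nat.abs_cast]
        refine mul_le_mul_of_nonneg_left ?_ (by linarith)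
        have hqQ : X ^ (δ₁ / 20) ≤ (q : ℝ) := (Nat.lt_of_floor_lt (by omega)).le
        have hq12 : (q : ℝ) ^ ((1 / 2 : ℝ) - 1) ≤ X ^ (-(δ₁ / 40)) := by
          have h1 : (q : ℝ) ^ ((1 / 2 : ℝ) - 1) ≤ (X ^ (δ₁ / 20)) ^ ((1 / 2 : ℝ) - 1) :=
            Real.rpow_le_rpow_of_nonpos (Real.rpow_pos_of_pos hX0 _) hqQ (by norm_num)
          rw [← Real.rpow_mul hX0.le] at h1
          refine h1.trans (le_of_eq ?_)
          congr 1
          ring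
        have hbd := IF6.ed_bd r (E q) (hAP.1 q) (C2 * (q : ℝ) ^ ((1 / 2 : ℝ) - 1))
          (by positivity) (fun j => hco q j hq) (Real.log x) (1 + Real.log (3 * X))
          (Real.log_nonneg hx1) hLg1
          (by
            have := Real.log_le_log (by linarith) hxb
            linarith)
        refine hbd.trans ?_
        have h3 : C2 * (q : ℝ) ^ ((1 / 2 : ℝ) - 1) ≤ C2 * X ^ (-(δ₁ / 40)) :=
          mul_le_mul_of_nonneg_left hq12 hC2.le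
        calc ((r : ℝ) + 1) * ((r : ℝ) + 2) * (C2 * (q : ℝ) ^ ((1 / 2 : ℝ) - 1)) *
              (1 + Real.log (3 * X)) ^ r
            ≤ ((r : ℝ) + 1) * ((r : ℝ) + 2) * (C2 * X ^ (-(δ₁ / 40))) * X ^ η := by
              refine mul_le_mul (mul_le_mul_of_nonneg_left h3 (by positivity)) hlog
                (by positivity) (by positivity)
          _ = K * (X ^ (-(δ₁ / 40)) * X ^ η) := by rw [hK]; ring
    have hCsq : ‖((if q ≤ Q then 0 else L * p : ℝ) : ℂ)‖ ^ 2 ≤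
        (L * (K * (X ^ (-(δ₁ / 40)) * X ^ η))) ^ 2 := pow_le_pow_left₀ (norm_nonneg _) hCn 2
    linarith
  refine (Finset.sum_le_sum key).trans ?_
  rw [← Finset.mul_sum, Finset.sum_add_distrib, Finset.sum_add_distrib, Finset.sum_const,
    Finset.sum_const, nsmul_eq_mul, nsmul_eq_mul]
  refine le_trans ?_ (fin_num X L δ₁ δb η K hX1 hδ₁ h1b (by rw [hη]; linarith) hbig)
  have hc1 : ((Finset.Icc (a + L) b).card : ℝ) * (L * X ^ (-δb)) ^ 2 ≤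
      X ^ (1 - δ₁) * (L * X ^ (-δb)) ^ 2 := mul_le_mul_of_nonneg_right hcard (sq_nonneg _)
  have hc2 : ((Finset.Icc (a + L) b).card : ℝ) * (L * (K * (X ^ (-(δ₁ / 40)) * X ^ η))) ^ 2 ≤
      X ^ (1 - δ₁) * (L * (K * (X ^ (-(δ₁ / 40)) * X ^ η))) ^ 2 :=
    mul_le_mul_of_nonneg_right hcard (sq_nonneg _)
  linarith

end Pool.Agent.Work.MP_122e00_nt.TS
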