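import Mathlib
import Pool.Agent.Work.MP_122e00_nt.TS.Stmts6
import Pool.Agent.Work.MP_122e00_nt.TS.I_F3
import Pool.Agent.Work.MP_122e00_nt.TS.I_F5
import Pool.Agent.Work.MP_122e00_nt.TS.I_R3

/-!
# MP_122e00_nt, block TS, item U6 (helper24): minor arcs
-/

set_option autoImplicit false

namespace Pool.Agent.Work.MP_122e00_nt.TS

open Finset ArithmeticFunction

namespace IU6

theorem big (K e : ℝ) (he : 0 < e) : ∃ X0 : ℝ, ∀ X : ℝ, X0 ≤ X → K ≤ X ^ e :=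
  Filter.eventually_atTop.mp ((tendsto_rpow_atTop he).eventually_ge_atTop K)

/-- the shifted frequencies are far from the integers -/
theorem nnlow (s q c : ℕ) (b' : ℤ) (γ : ℝ) (hs : 1 ≤ s) (hq : 2 * s ≤ q)
    (hcop : IsCoprime b' (q : ℤ)) (hγ : |γ - b' / q| ≤ 1 / (q : ℝ) ^ 2) :
    1 ≤ nn (γ + (c : ℝ) / s) * (2 * (q * s)) := by
  unfold nn
  set m : ℤ := round (γ + (c : ℝ) / s) with hm
  have hs0 : (0 : ℝ) < s := by exact_mod_cast hs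
  have hq0 : (0 : ℝ) < q := by exact_mod_cast (by omega : 0 < q)
  have hz : b' * s + c * q - m * (q * s) ≠ 0 := by
    intro h
    have h1 : (q : ℤ) ∣ b' * s := ⟨m * s - c, by linarith⟩
    have h2 : (q : ℤ) ∣ s := hcop.symm.dvd_of_dvd_mul_left h1
    have h3 : q ∣ s := by exact_mod_cast h2
    have := Nat.le_of_dvd (by omega) h3
    omega
  have hz1 : (1 : ℝ) ≤ |((b' * s + c * q - m * (q * s) : ℤ) : ℝ)| := by
    have := Int.one_le_abs hz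
    exact_mod_cast this
  set z : ℝ := ((b' * s + c * q - m * (q * s) : ℤ) : ℝ) with hzd
  have hqs : (0 : ℝ) < q * s := by positivity
  have e1 : (γ + (c : ℝ) / s - m) * (q * s) = (γ - b' / q) * (q * s) + z := by
    rw [hzd]
    push_cast
    field_simp
    ring
  have e2 : |(γ - b' / q) * (q * s)| ≤ 1 / 2 := by
    rw [abs_mul, abs_of_pos hqs]
    have h1 : |γ - b' / q| * (q * s) ≤ 1 / (q : ℝ) ^ 2 * (q * s) :=
      mul_le_mul_of_nonneg_right hγ hqs.le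
    have h2 : 1 / (q : ℝ) ^ 2 * (q * s) = s / q := by field_simp
    have h3 : (s : ℝ) / q ≤ 1 / 2 := by
      rw [div_le_iff₀ hq0]
      have : (2 * s : ℝ) ≤ q := by exact_mod_cast hq
      linarith
    linarith
  have e3 : |γ + (c : ℝ) / s - m| * (q * s) = |(γ - b' / q) * (q * s) + z| := by
    rw [← e1, abs_mul, abs_of_pos hqs]
  have e4 : |z| ≤ |(γ - b' / q) * (q * s) + z| + |(γ - b' / q) * (q * s)| := by
    have h1 := abs_add_le ((γ - b' / q) * (q * s) + z) (-((γ - b' / q) * (q * s)))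
    rw [abs_neg] at h1
    have h2 : (γ - b' / q) * (q * s) + z + -((γ - b' / q) * (q * s)) = z := by ring
    rwa [h2] at h1
  have e5 : |γ + (c : ℝ) / s - m| * (2 * (q * s)) = 2 * (|γ + (c : ℝ) / s - m| * (q * s)) := by
    ring
  rw [e5, e3]
  linarith

theorem ws_add (f g : ℕ → ℝ) (γ : ℝ) (L x : ℕ) :
    ws (fun n => f n + g n) γ L x = ws f γ L x + ws g γ L x := by
  unfold ws
  rw [← Finset.sum_add_distrib]
  refine Finset.sum_congr rfl fun n _ => ?_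
  push_cast
  ring

theorem ws_sub (f g : ℕ → ℝ) (γ : ℝ) (L x : ℕ) :
    ws (fun n => f n - g n) γ L x = ws f γ L x - ws g γ L x := by
  unfold ws
  rw [← Finset.sum_sub_distrib]
  refine Finset.sum_congr rfl fun n _ => ?_
  push_cast
  ring

theorem ws_mul (c : ℝ) (f : ℕ → ℝ) (γ : ℝ) (L x : ℕ) :
    ws (fun n => c * f n) γ L x = (c : ℂ) * ws f γ L x := by
  unfold ws
  rw [Finset.mul_sum]
  refine Finset.sum_congr rfl fun n _ => ?_
  push_cast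
  ring

theorem ws_sum {ι : Type*} (I : Finset ι) (g : ι → ℕ → ℝ) (γ : ℝ) (L x : ℕ) :
    ws (fun n => ∑ s ∈ I, g s n) γ L x = ∑ s ∈ I, ws (g s) γ L x := by
  unfold ws
  rw [Finset.sum_comm]
  refine Finset.sum_congr rfl fun n _ => ?_
  push_cast
  rw [Finset.sum_mul]

theorem ws_Gh (hE1 : tsE1) (s : ℕ) (hs : 1 ≤ s) (u : ℕ → ℝ) (γ : ℝ) (L x : ℕ) :
    ws (fun n => Gh n s * u n) γ L x =
      ∑ c ∈ (Finset.range s).filter (fun c => Nat.Coprime c s), ws u (γ + (c : ℝ) / s) L x := by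
  unfold ws
  rw [Finset.sum_comm]
  refine Finset.sum_congr rfl fun n _ => ?_
  rw [Complex.ofReal_mul, ← hE1 s n hs, Finset.sum_mul, Finset.sum_mul]
  refine Finset.sum_congr rfl fun c _ => ?_
  have h1 : ee ((n : ℝ) * (γ + (c : ℝ) / s)) = ee ((n : ℝ) * c / s) * ee ((n : ℝ) * γ) := by
    rw [← IR3.eeadd]
    congr 1
    ring
  rw [h1]
  ring

theorem ws_Gh_bd (hE1 : tsE1) (s : ℕ) (hs : 1 ≤ s) (u : ℕ → ℝ) (γ : ℝ) (L x : ℕ) (B : ℝ)
    (hB : 0 ≤ B) (h : ∀ c : ℕ, ‖ws u (γ + (c : ℝ) / s) L x‖ ≤ B) :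
    ‖ws (fun n => Gh n s * u n) γ L x‖ ≤ s * B := by
  rw [ws_Gh hE1 s hs]
  refine (norm_sum_le _ _).trans ?_
  refine (Finset.sum_le_card_nsmul _ _ B (fun c _ => h c)).trans ?_
  rw [nsmul_eq_mul]
  refine mul_le_mul_of_nonneg_right ?_ hB
  have h1 := (Finset.card_filter_le (Finset.range s) (fun c => Nat.Coprime c s))
  rw [Finset.card_range] at h1
  exact_mod_cast h1

theorem ws_one (hGS : tsGS) (φ : ℝ) (L x : ℕ) : ‖ws (fun _ => 1) φ L x‖ * nn φ ≤ 1 / 2 := by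
  have h := (hGS (x - L) x φ).1
  have e : ws (fun _ => 1) φ L x = ∑ l ∈ Finset.Ioc (x - L) x, ee (l * φ) := by
    unfold ws
    refine Finset.sum_congr rfl fun n _ => ?_
    rw [Complex.ofReal_one, one_mul]
  rw [e]
  exact h

theorem nn_nonneg (φ : ℝ) : 0 ≤ nn φ := abs_nonneg _

theorem ws_p (hF1 : tsF1) (u : ℕ → ℝ) (V φ : ℝ) (L x : ℕ)
    (h1 : |u x| + ∑ n ∈ Finset.Ico 1 x, |u (n + 1) - u n| ≤ V)
    (h2 : |u (x - L)| + ∑ n ∈ Finset.Ico 1 (x - L), |u (n + 1) - u n| ≤ V) :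
    ‖ws u φ L x‖ * nn φ ≤ 2 * V := by
  have hI : ∀ N : ℕ, Finset.Icc 1 N = Finset.Ioc 0 N := fun N => by
    ext n
    simp only [Finset.mem_Icc, Finset.mem_Ioc]
    omega
  have e : ws u φ L x = ∑ n ∈ Finset.Icc 1 x, (u n : ℂ) * ee (n * φ) -
      ∑ n ∈ Finset.Icc 1 (x - L), (u n : ℂ) * ee (n * φ) := by
    unfold ws
    rw [hI, hI, ← Finset.sum_Ioc_consecutive _ (Nat.zero_le (x - L)) (Nat.sub_le x L)]
    ring
  have h3 := hF1 u V φ x h1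
  have h4 := hF1 u V φ (x - L) h2
  rw [e]
  calc ‖∑ n ∈ Finset.Icc 1 x, (u n : ℂ) * ee (n * φ) -
      ∑ n ∈ Finset.Icc 1 (x - L), (u n : ℂ) * ee (n * φ)‖ * nn φ
      ≤ (‖∑ n ∈ Finset.Icc 1 x, (u n : ℂ) * ee (n * φ)‖ +
        ‖∑ n ∈ Finset.Icc 1 (x - L), (u n : ℂ) * ee (n * φ)‖) * nn φ :=
        mul_le_mul_of_nonneg_right (norm_sub_le _ _) (nn_nonneg φ)
    _ ≤ 2 * V := by rw [add_mul]; linarith

theorem from_nn (A t K V : ℝ) (hA : 0 ≤ A) (hK : 0 ≤ K) (h1 : A * t ≤ V) (h2 : 1 ≤ t * K) :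
    A ≤ V * K := by
  have h3 : A * 1 ≤ A * (t * K) := mul_le_mul_of_nonneg_left h2 hA
  have h4 : A * t * K ≤ V * K := mul_le_mul_of_nonneg_right h1 hK
  have h5 : A * (t * K) = A * t * K := by ring
  linarith

theorem var (hF2 : tsF2) (d : ℕ) : ∃ C : ℝ, 0 < C ∧ ∀ (p : Polynomial ℝ) (M Z : ℝ) (N : ℕ),
    p.natDegree ≤ d → (∀ j, |p.coeff j| ≤ M) → 1 ≤ N → (N : ℝ) ≤ Z →
    |p.eval (Real.log N)| + ∑ n ∈ Finset.Ico 1 N, |p.eval (Real.log ((n + 1 : ℕ) : ℝ)) -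
      p.eval (Real.log n)| ≤ C * M * (1 + Real.log Z) ^ (2 * d) := by
  obtain ⟨C, hC, h⟩ := hF2 d
  refine ⟨C, hC, fun p M Z N hp hM hN hNZ => ?_⟩
  have hM0 : 0 ≤ M := (abs_nonneg _).trans (hM 0)
  have h1 := h p 1 M 1 N 0 hp (by simp) hM (fun j => by
    rw [Polynomial.coeff_one]
    split_ifs <;> simp) hN
  simp only [Polynomial.eval_one, mul_one, Nat.cast_zero, add_zero] at h1
  refine h1.trans ?_
  have hN1 : (1 : ℝ) ≤ N := by exact_mod_cast hN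
  have hlog : Real.log N ≤ Real.log Z := Real.log_le_log (by linarith) hNZ
  have hlog0 : 0 ≤ Real.log N := Real.log_nonneg hN1
  exact mul_le_mul_of_nonneg_left (pow_le_pow_left₀ (by linarith) (by linarith) _) (by positivity)

/-- part (iii) -/
theorem part3 (hGS : tsGS) (hE1 : tsE1) (Q q : ℕ) (b' : ℤ) (γ H : ℝ) (h : ℕ → ℝ) (hH : 0 ≤ H)
    (hh : ∀ s ∈ Finset.Icc 1 Q, |h s| ≤ H) (hq : 2 * Q ≤ q) (hcop : IsCoprime b' (q : ℤ))
    (hγ : |γ - b' / q| ≤ 1 / (q : ℝ) ^ 2) (L x : ℕ) :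
    ‖ws (fun n => ∑ s ∈ Finset.Icc 1 Q, h s * Gh n s) γ L x‖ ≤ H * q * (Q : ℝ) ^ 3 := by
  rw [ws_sum]
  refine (norm_sum_le _ _).trans ?_
  have h1 : ∀ s ∈ Finset.Icc 1 Q, ‖ws (fun n => h s * Gh n s) γ L x‖ ≤ H * (Q * (q * Q)) := by
    intro s hs
    have hs' := Finset.mem_Icc.mp hs
    have hsQ : (s : ℝ) ≤ Q := by exact_mod_cast hs'.2
    rw [ws_mul, norm_mul, Complex.norm_real, Real.norm_eq_abs]
    refine mul_le_mul (hh s hs) ?_ (norm_nonneg _) hH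
    have h2 : (fun n => Gh n s) = fun n => Gh n s * (1 : ℝ) := by
      funext n
      rw [mul_one]
    rw [h2]
    refine (ws_Gh_bd hE1 s hs'.1 (fun _ => 1) γ L x (q * s) (by positivity) ?_).trans ?_
    · intro c
      have h3 := from_nn _ _ (2 * (q * s)) (1 / 2) (norm_nonneg _) (by positivity)
        (ws_one hGS (γ + (c : ℝ) / s) L x)
        (nnlow s q c b' γ hs'.1 (by omega) hcop hγ)
      have h4 : (1 / 2 : ℝ) * (2 * (q * s)) = q * s := by ring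
      rwa [h4] at h3
    · refine mul_le_mul hsQ (mul_le_mul_of_nonneg_left hsQ (Nat.cast_nonneg _)) (by positivity)
        (Nat.cast_nonneg _)
  refine (Finset.sum_le_card_nsmul _ _ _ h1).trans (le_of_eq ?_)
  rw [nsmul_eq_mul, Nat.card_Icc, Nat.add_sub_cancel]
  ring

/-- part (iv) -/
theorem part4 (hE1 : tsE1) (hF1 : tsF1) (E : ℕ → Polynomial ℝ) (Q q : ℕ) (b' : ℤ) (γ V : ℝ)
    (hV : 0 ≤ V) (L x : ℕ)
    (hv : ∀ s ∈ Finset.Icc 1 Q, ∀ N : ℕ, (N = x ∨ N = x - L) →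
      |(ed (E s)).eval (Real.log N)| + ∑ n ∈ Finset.Ico 1 N,
        |(ed (E s)).eval (Real.log ((n + 1 : ℕ) : ℝ)) - (ed (E s)).eval (Real.log n)| ≤ V)
    (hq : 2 * Q ≤ q) (hcop : IsCoprime b' (q : ℤ)) (hγ : |γ - b' / q| ≤ 1 / (q : ℝ) ^ 2) :
    ‖ws (fs E Q) γ L x‖ ≤ 4 * V * q * (Q : ℝ) ^ 3 := by
  have e : ws (fs E Q) γ L x = ∑ s ∈ Finset.Icc 1 Q,
      ws (fun n => Gh n s * (ed (E s)).eval (Real.log n)) γ L x := by
    rw [← ws_sum]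
    rfl
  rw [e]
  refine (norm_sum_le _ _).trans ?_
  have h1 : ∀ s ∈ Finset.Icc 1 Q, ‖ws (fun n => Gh n s * (ed (E s)).eval (Real.log n)) γ L x‖ ≤
      Q * (4 * V * (q * Q)) := by
    intro s hs
    have hs' := Finset.mem_Icc.mp hs
    have hsQ : (s : ℝ) ≤ Q := by exact_mod_cast hs'.2
    refine (ws_Gh_bd hE1 s hs'.1 (fun n => (ed (E s)).eval (Real.log n)) γ L x
      (4 * V * (q * s)) (by positivity) ?_).trans ?_
    · intro c
      have h3 := from_nn _ _ (2 * (q * s)) (2 * V) (norm_nonneg _) (by positivity)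
        (ws_p hF1 (fun n => (ed (E s)).eval (Real.log n)) V (γ + (c : ℝ) / s) L x
          (hv s hs x (Or.inl rfl)) (hv s hs (x - L) (Or.inr rfl)))
        (nnlow s q c b' γ hs'.1 (by omega) hcop hγ)
      have h4 : 2 * V * (2 * (q * s)) = 4 * V * (q * s) := by ring
      rwa [h4] at h3
    · refine mul_le_mul hsQ (mul_le_mul_of_nonneg_left
        (mul_le_mul_of_nonneg_left hsQ (Nat.cast_nonneg _)) (by positivity)) (by positivity)
        (Nat.cast_nonneg _)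
  refine (Finset.sum_le_card_nsmul _ _ _ h1).trans (le_of_eq ?_)
  rw [nsmul_eq_mul, Nat.card_Icc, Nat.add_sub_cancel]
  ring

theorem sq4 (A B C D : ℂ) : ‖A + B + C - D‖ ^ 2 ≤ 4 * (‖A‖ ^ 2 + ‖B‖ ^ 2 + ‖C‖ ^ 2 + ‖D‖ ^ 2) := by
  have h1 : ‖A + B + C - D‖ ≤ ‖A‖ + ‖B‖ + ‖C‖ + ‖D‖ :=
    (norm_sub_le _ _).trans (add_le_add_left ((norm_add_le _ _).trans
      (add_le_add_left (norm_add_le _ _) _)) _)
  have h2 : ‖A + B + C - D‖ ^ 2 ≤ (‖A‖ + ‖B‖ + ‖C‖ + ‖D‖) ^ 2 :=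
    pow_le_pow_left₀ (norm_nonneg _) h1 2
  nlinarith [sq_nonneg (‖A‖ - ‖B‖), sq_nonneg (‖A‖ - ‖C‖), sq_nonneg (‖A‖ - ‖D‖),
    sq_nonneg (‖B‖ - ‖C‖), sq_nonneg (‖B‖ - ‖D‖), sq_nonneg (‖C‖ - ‖D‖)]

end IU6

theorem prU6 (hGS : tsGS) (hE1 : tsE1) (hF1 : tsF1) (hF2 : tsF2) (hV1 : tsV1) (hV2 : tsV2)
    (hV4 : tsV4) : tsU6 := by
  intro r E hr hdeg hCB ε₁ δ₂ θ₂ hε hε' hδ₂ hδ₂' hθ
  have hr0 : (0 : ℝ) < r := by exact_mod_cast (by omega : 0 < r)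
  obtain ⟨δ4, X4, hδ4, h4⟩ := hV4 r ε₁ δ₂ hr hε hε' hδ₂ hδ₂'
  obtain ⟨δs2, hδs2, h2⟩ := hV2 r ε₁ hr hε hε'
  obtain ⟨CB1, hCB10, hCB1⟩ := hCB 1 one_pos
  obtain ⟨CV, hCV, hvar⟩ := IU6.var hF2 (r - 1)
  obtain ⟨KL, hKL0, hKL⟩ := IF5.log_pow (2 * (r - 1)) (δ₂ / 16) (by positivity)
  have hrε : 0 < 2 * (r : ℝ) * ε₁ := by positivity
  have hθ' : 0 < (1 - θ₂) / 2 := by linarith
  refine ⟨min δs2 (min (δ4 / 2) (min (δ₂ / 2) (min (2 * r * ε₁) (min ((1 - θ₂) / 2) (1 / 100))))),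
    lt_min hδs2 (lt_min (by positivity) (lt_min (by positivity) (lt_min hrε
      (lt_min hθ' (by norm_num))))), fun δ₁ hδ hδs => ?_⟩
  simp only [le_min_iff] at hδs
  obtain ⟨k1, k2, k3, k4, k5, k6⟩ := hδs
  obtain ⟨X2, h2'⟩ := h2 δ₁ hδ k1
  obtain ⟨X1, h1⟩ := hV1 r ε₁ hr hε hε'
  set M : ℝ := (((r - 1 : ℕ) : ℝ) + 1) * CB1 with hM
  have hM0 : 0 < M := by positivity
  obtain ⟨Xa, hXa⟩ := IU6.big 2 (δ₂ / 2) (by positivity)
  obtain ⟨Xb, hXb⟩ := IU6.big (8 * (CV * M * KL)) (δ₂ / 10) (by positivity)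
  obtain ⟨Xc, hXc⟩ := IU6.big 16 (δ₁ / 80) (by positivity)
  refine ⟨max 1 (max X4 (max X2 (max X1 (max Xa (max Xb Xc))))),
    fun X hX a b hBlk L q b' γ hL1 hL2 hq1 hq2 hcop hγ => ?_⟩
  simp only [max_le_iff] at hX
  obtain ⟨hX1, hX4, hX2, hX1', hXa', hXb', hXc'⟩ := hX
  obtain ⟨W, B, hW, hB, hsplit⟩ := h1 X hX1'
  obtain ⟨h, hh, hi⟩ := h2' X hX2 W hW a b hBlk
  obtain ⟨hab1, hab2, hab3, hab4⟩ := hBlk
  have hX0 : 0 < X := by linarith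
  have mono : ∀ u v : ℝ, u ≤ v → X ^ u ≤ X ^ v := fun u v h =>
    Real.rpow_le_rpow_of_exponent_le hX1 h
  have pos : ∀ u : ℝ, 0 < X ^ u := fun u => Real.rpow_pos_of_pos hX0 u
  have mulX : ∀ u v : ℝ, X ^ u * X ^ v = X ^ (u + v) := fun u v => (Real.rpow_add hX0 u v).symm
  set Q : ℕ := ⌊X ^ (δ₁ / 20)⌋₊ with hQ
  have hQle : (Q : ℝ) ≤ X ^ (δ₁ / 20) := Nat.floor_le (pos _).le
  have hq2Q : 2 * Q ≤ q := by
    have h1 : (2 : ℝ) * Q ≤ q := by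
      calc (2 : ℝ) * Q ≤ X ^ (δ₂ / 2) * X ^ (δ₁ / 20) :=
            mul_le_mul (hXa X hXa') hQle (Nat.cast_nonneg _) (pos _).le
        _ = X ^ (δ₂ / 2 + δ₁ / 20) := mulX _ _
        _ ≤ X ^ δ₂ := mono _ _ (by linarith)
        _ ≤ q := hq1
    exact_mod_cast h1
  have hLpos' : (1 : ℝ) ≤ L := (Real.one_le_rpow hX1 (by linarith)).trans hL1
  have hLpos : 1 ≤ L := by exact_mod_cast hLpos'
  have ha1' : (1 : ℝ) ≤ a := (Real.one_le_rpow hX1 (by linarith)).trans hab1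
  have ha1 : 1 ≤ a := by exact_mod_cast ha1'
  have hab : a ≤ b := by
    have := pos (1 - δ₁)
    have h1 : (a : ℝ) ≤ b := by linarith
    exact_mod_cast h1
  set G : ℝ := (L : ℝ) ^ 2 * X ^ (1 - δ₁ - δ₁ / 40) with hG
  have hG0 : 0 ≤ G := by have := pos (1 - δ₁ - δ₁ / 40); positivity
  have hQ3 : (Q : ℝ) ^ 3 ≤ X ^ (3 * δ₁ / 20) := by
    calc (Q : ℝ) ^ 3 ≤ (X ^ (δ₁ / 20)) ^ 3 := pow_le_pow_left₀ (Nat.cast_nonneg _) hQle 3
      _ = X ^ (3 * δ₁ / 20) := by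
        rw [← Real.rpow_natCast, ← Real.rpow_mul hX0.le]
        congr 1
        push_cast
        ring
  -- part (i)
  have p1 := hi L γ (le_trans (mono _ _ (by linarith)) hL1) (hL2.trans (mono _ _ (by linarith)))
  -- part (ii)
  have hL3X : (L : ℝ) ≤ 3 * X := by
    have h1 : X ^ θ₂ ≤ X ^ (1 : ℝ) := mono _ _ hθ.le
    rw [Real.rpow_one] at h1
    linarith
  have p2 : ∑ x ∈ Finset.Icc (a + L) b, ‖ws (T2 B (X ^ ε₁) (X ^ (1 / 3 + ε₁))) γ L x‖ ^ 2 ≤ G := by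
    refine (Finset.sum_le_sum_of_subset_of_nonneg ?_ (fun _ _ _ => by positivity)).trans
      ((h4 X hX4 B hB L q b' γ hL1 hL3X hq1 hq2 hcop hγ).trans ?_)
    · intro x hx
      rw [Finset.mem_Icc] at hx ⊢
      exact ⟨by omega, Nat.le_floor (le_trans (by exact_mod_cast hx.2) hab2)⟩
    · exact mul_le_mul_of_nonneg_left (mono _ _ (by linarith)) (by positivity)
  -- part (iii)
  have p3 : ∀ x, ‖ws (fun n => ∑ s ∈ Finset.Icc 1 Q, h s * Gh n s) γ L x‖ ≤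
      L * X ^ (-(3 * δ₂ / 4)) := by
    intro x
    refine (IU6.part3 hGS hE1 Q q b' γ (X ^ (δ₁ / 100)) h (pos _).le hh hq2Q hcop hγ L x).trans ?_
    calc X ^ (δ₁ / 100) * q * (Q : ℝ) ^ 3
        ≤ X ^ (δ₁ / 100) * (L * X ^ (-δ₂)) * X ^ (3 * δ₁ / 20) := by
          refine mul_le_mul (mul_le_mul_of_nonneg_left hq2 (pos _).le) hQ3 (by positivity) ?_
          have := pos (δ₁ / 100)
          have := pos (-δ₂)
          positivity
      _ = L * (X ^ (δ₁ / 100) * X ^ (-δ₂) * X ^ (3 * δ₁ / 20)) := by ring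
      _ = L * X ^ (δ₁ / 100 + -δ₂ + 3 * δ₁ / 20) := by rw [mulX, mulX]
      _ ≤ L * X ^ (-(3 * δ₂ / 4)) :=
          mul_le_mul_of_nonneg_left (mono _ _ (by linarith)) (Nat.cast_nonneg _)
  -- part (iv)
  have p4 : ∀ x ∈ Finset.Icc (a + L) b, ‖ws (fs E Q) γ L x‖ ≤ L * X ^ (-(3 * δ₂ / 4)) := by
    intro x hx
    rw [Finset.mem_Icc] at hx
    have hlog : (1 + Real.log (3 * X)) ^ (2 * (r - 1)) ≤ KL * (2 * X ^ (δ₂ / 16)) := by
      have h3 : 0 ≤ Real.log (3 * X) := Real.log_nonneg (by linarith)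
      have h5 : (1 + Real.log (3 * X)) ^ (2 * (r - 1)) ≤
          (1 + Real.log (2 * (2 * X))) ^ (2 * (r - 1)) := by
        refine pow_le_pow_left₀ (by linarith) ?_ _
        have : Real.log (3 * X) ≤ Real.log (2 * (2 * X)) :=
          Real.log_le_log (by linarith) (by linarith)
        linarith
      refine h5.trans ((hKL (2 * X) (by linarith)).trans ?_)
      refine mul_le_mul_of_nonneg_left ?_ hKL0.le
      rw [Real.mul_rpow (by norm_num) hX0.le]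
      refine mul_le_mul_of_nonneg_right ?_ (pos _).le
      calc (2 : ℝ) ^ (δ₂ / 16) ≤ 2 ^ (1 : ℝ) :=
            Real.rpow_le_rpow_of_exponent_le (by norm_num) (by linarith)
        _ = 2 := Real.rpow_one 2
    have hp16 := pos (δ₂ / 16)
    have hV0 : 0 ≤ CV * M * (KL * (2 * X ^ (δ₂ / 16))) := by positivity
    refine (IU6.part4 hE1 hF1 E Q q b' γ (CV * M * (KL * (2 * X ^ (δ₂ / 16)))) hV0 L x ?_ hq2Q
      hcop hγ).trans ?_
    · intro s hs N hN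
      have hs1 := (Finset.mem_Icc.mp hs).1
      have hN1 : 1 ≤ N := by omega
      have hNb : N ≤ b := by omega
      have hN3 : (N : ℝ) ≤ 3 * X := le_trans (by exact_mod_cast hNb) hab2
      have hcoef : ∀ j, |(E s).coeff j| ≤ CB1 := by
        intro j
        have h := hCB1 s j hs1
        rwa [sub_self, Real.rpow_zero, mul_one] at h
      refine (hvar (ed (E s)) M (3 * X) N (IF3.deg_ed _ _ (hdeg s))
        (fun j => IF3.ed_bd (r - 1) (E s) CB1 (hdeg s) hcoef j) hN1 hN3).trans ?_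
      exact mul_le_mul_of_nonneg_left hlog (by positivity)
    · have hb := hXb X hXb'
      calc 4 * (CV * M * (KL * (2 * X ^ (δ₂ / 16)))) * q * (Q : ℝ) ^ 3
          = 8 * (CV * M * KL) * X ^ (δ₂ / 16) * q * (Q : ℝ) ^ 3 := by ring
        _ ≤ X ^ (δ₂ / 10) * X ^ (δ₂ / 16) * (L * X ^ (-δ₂)) * X ^ (3 * δ₁ / 20) := by
          have hp10 := pos (δ₂ / 10)
          have hpd := pos (-δ₂)
          refine mul_le_mul (mul_le_mul (mul_le_mul_of_nonneg_right hb hp16.le) hq2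
            (Nat.cast_nonneg _) (by positivity)) hQ3 (by positivity) (by positivity)
        _ = L * (X ^ (δ₂ / 10) * X ^ (δ₂ / 16) * X ^ (-δ₂) * X ^ (3 * δ₁ / 20)) := by ring
        _ = L * X ^ (δ₂ / 10 + δ₂ / 16 + -δ₂ + 3 * δ₁ / 20) := by rw [mulX, mulX, mulX]
        _ ≤ L * X ^ (-(3 * δ₂ / 4)) :=
          mul_le_mul_of_nonneg_left (mono _ _ (by linarith)) (Nat.cast_nonneg _)
  have hcard : ((Finset.Icc (a + L) b).card : ℝ) ≤ X ^ (1 - δ₁) := by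
    rw [Nat.card_Icc]
    have h1 : b + 1 - (a + L) ≤ b - a := by omega
    have h3 : ((b + 1 - (a + L) : ℕ) : ℝ) ≤ ((b - a : ℕ) : ℝ) := by exact_mod_cast h1
    have h5 : ((b - a : ℕ) : ℝ) = b - a := Nat.cast_sub hab
    linarith
  have hsmall : ∀ g : ℕ → ℂ, (∀ x ∈ Finset.Icc (a + L) b, ‖g x‖ ≤ L * X ^ (-(3 * δ₂ / 4))) →
      ∑ x ∈ Finset.Icc (a + L) b, ‖g x‖ ^ 2 ≤ G := by
    intro g hg
    have h1 : ∀ x ∈ Finset.Icc (a + L) b, ‖g x‖ ^ 2 ≤ (L * X ^ (-(3 * δ₂ / 4))) ^ 2 :=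
      fun x hx => pow_le_pow_left₀ (norm_nonneg _) (hg x hx) 2
    refine (Finset.sum_le_card_nsmul _ _ _ h1).trans ?_
    rw [nsmul_eq_mul]
    calc ((Finset.Icc (a + L) b).card : ℝ) * (L * X ^ (-(3 * δ₂ / 4))) ^ 2
        ≤ X ^ (1 - δ₁) * (L * X ^ (-(3 * δ₂ / 4))) ^ 2 :=
          mul_le_mul_of_nonneg_right hcard (by positivity)
      _ = (L : ℝ) ^ 2 * (X ^ (1 - δ₁) * X ^ (-(3 * δ₂ / 4)) * X ^ (-(3 * δ₂ / 4))) := by ring
      _ = (L : ℝ) ^ 2 * X ^ (1 - δ₁ + -(3 * δ₂ / 4) + -(3 * δ₂ / 4)) := by rw [mulX, mulX]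
      _ ≤ G := mul_le_mul_of_nonneg_left (mono _ _ (by linarith)) (by positivity)
  have s3 := hsmall (fun x => ws (fun n => ∑ s ∈ Finset.Icc 1 Q, h s * Gh n s) γ L x)
    (fun x _ => p3 x)
  have s4 := hsmall (fun x => ws (fs E Q) γ L x) p4
  -- the decomposition
  have key : ∀ x ∈ Finset.Icc (a + L) b, ws (fl r E Q) γ L x =
      ws (fun n => T1 W (X ^ (1 / 2 - r * ε₁)) n - ∑ s ∈ Finset.Icc 1 Q, h s * Gh n s) γ L x +
      ws (T2 B (X ^ ε₁) (X ^ (1 / 3 + ε₁))) γ L x +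
      ws (fun n => ∑ s ∈ Finset.Icc 1 Q, h s * Gh n s) γ L x - ws (fs E Q) γ L x := by
    intro x hx
    rw [Finset.mem_Icc] at hx
    rw [← IU6.ws_add, ← IU6.ws_add, ← IU6.ws_sub]
    unfold ws
    refine Finset.sum_congr rfl fun n hn => ?_
    rw [Finset.mem_Ioc] at hn
    have hn1 : a < n := by omega
    have hnb : n ≤ b := by omega
    have hn1' : (a : ℝ) < n := by exact_mod_cast hn1
    have hnb' : (n : ℝ) ≤ b := by exact_mod_cast hnb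
    have hexp : X ^ (1 - r * ε₁) ≤ X ^ (1 - δ₁ / 2) := mono _ _ (by linarith)
    have e := hsplit n (by omega) (by linarith) (by linarith)
    have e2 : fl r E Q n = T1 W (X ^ (1 / 2 - r * ε₁)) n -
        (∑ s ∈ Finset.Icc 1 Q, h s * Gh n s) + T2 B (X ^ ε₁) (X ^ (1 / 3 + ε₁)) n +
        (∑ s ∈ Finset.Icc 1 Q, h s * Gh n s) - fs E Q n := by
      unfold fl
      rw [e]
      ring
    exact congrArg (fun t : ℝ => (t : ℂ) * ee (n * γ)) e2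
  have hsum : ∑ x ∈ Finset.Icc (a + L) b, ‖ws (fl r E Q) γ L x‖ ^ 2 ≤ 4 * (G + G + G + G) := by
    have e0 : ∑ x ∈ Finset.Icc (a + L) b, ‖ws (fl r E Q) γ L x‖ ^ 2 =
        ∑ x ∈ Finset.Icc (a + L) b,
        ‖ws (fun n => T1 W (X ^ (1 / 2 - r * ε₁)) n - ∑ s ∈ Finset.Icc 1 Q, h s * Gh n s) γ L x +
        ws (T2 B (X ^ ε₁) (X ^ (1 / 3 + ε₁))) γ L x +
        ws (fun n => ∑ s ∈ Finset.Icc 1 Q, h s * Gh n s) γ L x - ws (fs E Q) γ L x‖ ^ 2 :=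
      Finset.sum_congr rfl fun x hx => by rw [key x hx]
    rw [e0]
    refine (Finset.sum_le_sum (fun x _ => IU6.sq4 _ _ _ _)).trans ?_
    rw [← Finset.mul_sum]
    refine mul_le_mul_of_nonneg_left ?_ (by norm_num)
    rw [Finset.sum_add_distrib, Finset.sum_add_distrib, Finset.sum_add_distrib]
    exact add_le_add (add_le_add (add_le_add p1 p2) s3) s4
  refine hsum.trans ?_
  have h16 := hXc X hXc'
  calc 4 * (G + G + G + G) = 16 * G := by ring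
    _ ≤ X ^ (δ₁ / 80) * G := mul_le_mul_of_nonneg_right h16 hG0
    _ = (L : ℝ) ^ 2 * (X ^ (δ₁ / 80) * X ^ (1 - δ₁ - δ₁ / 40)) := by rw [hG]; ring
    _ = (L : ℝ) ^ 2 * X ^ (1 - δ₁ - δ₁ / 80) := by
      rw [mulX]
      congr 2
      ring

end Pool.Agent.Work.MP_122e00_nt.TS
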