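import Mathlib
import Pool.Agent.Work.MP_122e00_nt.TS.Stmts6

set_option autoImplicit false

/-!
# Thin shifts, item U7: one block, all frequencies
-/

namespace Pool.Agent.Work.MP_122e00_nt.TS

open Finset Filter Topology ArithmeticFunction
open scoped ArithmeticFunction.zeta ArithmeticFunction.Moebius

theorem prU7 (h5 : tsU5) (h6 : tsU6) : tsU7 := by
  intro r E hr hAP hCB θ₁ θ₂ h1 h12 h2
  have hr0 : (0 : ℝ) < r := by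
    have : 0 < r := by omega
    exact_mod_cast this
  obtain ⟨ε₁, hε0, hε1, hε2⟩ : ∃ ε₁ : ℝ, 0 < ε₁ ∧ ε₁ ≤ 1 / (24 * (r : ℝ)) ∧
      ε₁ ≤ (θ₁ - 1 / 3) / 3 :=
    ⟨min (1 / (24 * (r : ℝ))) ((θ₁ - 1 / 3) / 3), lt_min (by positivity) (by linarith),
      min_le_left _ _, min_le_right _ _⟩
  obtain ⟨δm, hδm, H5⟩ := h5 r E hr hAP hCB ε₁ θ₂ hε0 hε1 h2
  obtain ⟨δ₂, hδ20, hδ2m, hδ21⟩ : ∃ δ₂ : ℝ, 0 < δ₂ ∧ δ₂ ≤ δm ∧ δ₂ ≤ 1 / 10 :=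
    ⟨min δm (1 / 10), lt_min hδm (by norm_num), min_le_left _ _, min_le_right _ _⟩
  obtain ⟨δs, hδs, H6⟩ := h6 r E hr hAP.1 hCB ε₁ δ₂ θ₂ hε0 hε1 hδ20 (by linarith) h2
  obtain ⟨δ₁, hδ10, hδ1m, hδ1s, hδ1t, hδ11⟩ : ∃ δ₁ : ℝ, 0 < δ₁ ∧ δ₁ ≤ δm ∧ δ₁ ≤ δs ∧
      δ₁ ≤ (1 - θ₂) / 8 ∧ δ₁ ≤ 1 / 10 :=
    ⟨min (min δm δs) (min ((1 - θ₂) / 8) (1 / 10)),
      lt_min (lt_min hδm hδs) (lt_min (by linarith) (by norm_num)),
      (min_le_left _ _).trans (min_le_left _ _), (min_le_left _ _).trans (min_le_right _ _),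
      (min_le_right _ _).trans (min_le_left _ _), (min_le_right _ _).trans (min_le_right _ _)⟩
  obtain ⟨X5, HX5⟩ := H5 δ₁ hδ10 hδ1m
  obtain ⟨X6, HX6⟩ := H6 δ₁ hδ10 hδ1s
  refine ⟨δ₁, max (max X5 X6) 1, hδ10, hδ11, hδ1t, ?_⟩
  intro X γ a b L hX ha hb hab hba hL1 hL2
  have hX1 : 1 ≤ X := (le_max_right _ _).trans hX
  have hX5 : X5 ≤ X := ((le_max_left _ _).trans (le_max_left _ _)).trans hX
  have hX6 : X6 ≤ X := ((le_max_right _ _).trans (le_max_left _ _)).trans hX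
  have hXp : 0 < X := by linarith
  have hBlk : Blk X δ₁ a b := ⟨ha, hb, hab, hba⟩
  have hL3 : X ^ (1 / 3 + 3 * ε₁) ≤ L :=
    (Real.rpow_le_rpow_of_exponent_le hX1 (by linarith)).trans hL1
  have hL4 : X ^ (1 / 3 + 2 * ε₁) ≤ L :=
    (Real.rpow_le_rpow_of_exponent_le hX1 (by linarith)).trans hL3
  have hLpos : (0 : ℝ) < L := lt_of_lt_of_le (Real.rpow_pos_of_pos hXp _) hL3
  have hQ : 1 ≤ (L : ℝ) * X ^ (-δ₂) := by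
    have e1 : X ^ (1 / 3 + 3 * ε₁) * X ^ (-δ₂) ≤ (L : ℝ) * X ^ (-δ₂) :=
      mul_le_mul_of_nonneg_right hL3 (Real.rpow_nonneg hXp.le _)
    have e2 : X ^ (1 / 3 + 3 * ε₁) * X ^ (-δ₂) = X ^ (1 / 3 + 3 * ε₁ + -δ₂) :=
      (Real.rpow_add hXp _ _).symm
    have e3 : 1 ≤ X ^ (1 / 3 + 3 * ε₁ + -δ₂) :=
      Real.one_le_rpow hX1 (by linarith)
    linarith
  have hQ1 : 1 ≤ ⌊(L : ℝ) * X ^ (-δ₂)⌋₊ := Nat.one_le_floor_iff _ |>.mpr hQ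
  obtain ⟨ρ, hρ1, hρ2⟩ := Real.exists_rat_abs_sub_le_and_den_le γ (lt_of_lt_of_le Nat.zero_lt_one hQ1)
  have hden : 1 ≤ ρ.den := ρ.den_pos
  have hden' : (1 : ℝ) ≤ (ρ.den : ℝ) := by exact_mod_cast hden
  have hcop : IsCoprime ρ.num (ρ.den : ℤ) := by
    rw [Int.isCoprime_iff_gcd_eq_one, Int.gcd_def]
    exact ρ.reduced
  have hρc : (ρ : ℝ) = (ρ.num : ℝ) / (ρ.den : ℝ) := Rat.cast_def ρ
  rw [hρc] at hρ1
  have hfl : (L : ℝ) * X ^ (-δ₂) < (⌊(L : ℝ) * X ^ (-δ₂)⌋₊ : ℝ) + 1 := Nat.lt_floor_add_one _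
  have hfl2 : (⌊(L : ℝ) * X ^ (-δ₂)⌋₊ : ℝ) ≤ (L : ℝ) * X ^ (-δ₂) :=
    Nat.floor_le (by linarith)
  have hρ3 : (ρ.den : ℝ) ≤ (⌊(L : ℝ) * X ^ (-δ₂)⌋₊ : ℝ) := by exact_mod_cast hρ2
  rcases le_or_gt (ρ.den : ℝ) (X ^ δ₂) with hq | hq
  · refine HX5 X hX5 a b hBlk L ρ.den ρ.num γ hL3 hL2 hden
      (hq.trans (Real.rpow_le_rpow_of_exponent_le hX1 hδ2m)) hcop (hρ1.trans ?_)
    calc (1 : ℝ) / (((⌊(L : ℝ) * X ^ (-δ₂)⌋₊ : ℝ) + 1) * (ρ.den : ℝ))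
        ≤ 1 / ((L : ℝ) * X ^ (-δ₂) * 1) := by
          apply one_div_le_one_div_of_le (by positivity)
          exact mul_le_mul hfl.le hden' (by norm_num) (by linarith)
      _ = X ^ δ₂ / L := by
          rw [mul_one, Real.rpow_neg hXp.le]
          have := (Real.rpow_pos_of_pos hXp δ₂).ne'
          field_simp
      _ ≤ X ^ δm / L := by
          apply div_le_div_of_nonneg_right _ hLpos.le
          exact Real.rpow_le_rpow_of_exponent_le hX1 hδ2m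
  · refine HX6 X hX6 a b hBlk L ρ.den ρ.num γ hL4 hL2 hq.le (hρ3.trans hfl2) hcop
      (hρ1.trans ?_)
    apply one_div_le_one_div_of_le (by positivity)
    rw [pow_two]
    exact mul_le_mul_of_nonneg_right (by linarith) (by linarith)

end Pool.Agent.Work.MP_122e00_nt.TS
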