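import Pool.Agent.Work.MP_122e00_nt.TS.Stmts5
import Pool.Agent.Work.MP_122e00_nt.TS.I_R1

/-!
# Thin shifts, item V1: splitting of `d_r` by the size of the factors
-/

set_option autoImplicit false

namespace Pool.Agent.Work.MP_122e00_nt.TS

open Finset Filter Topology ArithmeticFunction
open scoped ArithmeticFunction.zeta ArithmeticFunction.Moebius

namespace IV1

/-- indicator function of `[1, z] ∪ (w, ∞)` -/
noncomputable def aa (z w : ℝ) : ArithmeticFunction ℝ := (ζ : ArithmeticFunction ℝ) - (uy w - uy z)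

/-- indicator function of `[1, z] ∪ (w, y]` -/
noncomputable def pp (z w y : ℝ) : ArithmeticFunction ℝ := uy y - (uy w - uy z)

theorem sub_apply (f g : ArithmeticFunction ℝ) (n : ℕ) : (f - g) n = f n - g n := by
  rw [sub_eq_add_neg, ArithmeticFunction.add_apply, ArithmeticFunction.neg_apply, sub_eq_add_neg]

theorem aa_bd {z w : ℝ} (h : z ≤ w) (n : ℕ) :
    0 ≤ aa z w n ∧ aa z w n ≤ (ζ : ArithmeticFunction ℝ) n := by
  unfold aa
  rw [sub_apply, sub_apply, IR1.z_apply, IR1.uy_apply, IR1.uy_apply]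
  by_cases h0 : n = 0
  · subst h0
    simp
  · by_cases h1 : (n : ℝ) ≤ z
    · have h2 : (n : ℝ) ≤ w := h1.trans h
      simp [h0, h1, h2]
    · by_cases h2 : (n : ℝ) ≤ w
      · simp [h0, h1, h2]
      · simp [h0, h1, h2]

theorem pp_cases {z w y : ℝ} (h : z ≤ w) (h' : w ≤ y) (n : ℕ) :
    (pp z w y n = 0) ∨ (pp z w y n = 1 ∧ n ≠ 0 ∧
      ((n : ℝ) ≤ z ∨ (w < (n : ℝ) ∧ (n : ℝ) ≤ y))) := by
  unfold pp
  rw [sub_apply, sub_apply, IR1.uy_apply, IR1.uy_apply, IR1.uy_apply]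
  by_cases h0 : n = 0
  · subst h0
    simp
  · by_cases h1 : (n : ℝ) ≤ z
    · have h2 : (n : ℝ) ≤ w := h1.trans h
      have h3 : (n : ℝ) ≤ y := h2.trans h'
      right
      simp [h0, h1, h2, h3]
    · by_cases h2 : (n : ℝ) ≤ w
      · have h3 : (n : ℝ) ≤ y := h2.trans h'
        left
        simp [h0, h1, h2, h3]
      · by_cases h3 : (n : ℝ) ≤ y
        · right
          have h4 : w < (n : ℝ) := not_le.1 h2
          simp [h0, h1, h2, h3, h4]
        · left
          simp [h0, h1, h2, h3]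

theorem pp_bd {z w y : ℝ} (h : z ≤ w) (h' : w ≤ y) (n : ℕ) :
    0 ≤ pp z w y n ∧ pp z w y n ≤ (ζ : ArithmeticFunction ℝ) n := by
  rcases pp_cases h h' n with h1 | ⟨h1, h2, -⟩
  · rw [h1]
    exact ⟨le_rfl, IR1.z_nonneg n⟩
  · rw [h1, IR1.z_apply, if_neg h2]
    norm_num

theorem gterm (f g : ArithmeticFunction ℝ) (hf : ∀ n, 0 ≤ f n ∧ f n ≤ (ζ : ArithmeticFunction ℝ) n)
    (hg : ∀ n, 0 ≤ g n ∧ g n ≤ (ζ : ArithmeticFunction ℝ) n) (r i : ℕ) (hi : i < r) (n : ℕ) :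
    0 ≤ (f ^ i * g ^ (r - 1 - i)) n ∧ (f ^ i * g ^ (r - 1 - i)) n ≤ dr r n := by
  have h := IR1.mul_le (f ^ i) (g ^ (r - 1 - i)) ((ζ : ArithmeticFunction ℝ) ^ i)
    ((ζ : ArithmeticFunction ℝ) ^ (r - 1 - i)) (IR1.pow_le _ _ hf i) (IR1.pow_le _ _ hg _) n
  refine ⟨h.1, h.2.trans ?_⟩
  rw [← pow_add, show i + (r - 1 - i) = r - 1 by omega, ← IR1.z_pow]
  have h2 := IR1.z_pow_mono (r - 1) n
  rwa [show r - 1 + 1 = r by omega] at h2

theorem gsum (f g : ArithmeticFunction ℝ) (hf : ∀ n, 0 ≤ f n ∧ f n ≤ (ζ : ArithmeticFunction ℝ) n)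
    (hg : ∀ n, 0 ≤ g n ∧ g n ≤ (ζ : ArithmeticFunction ℝ) n) (r n : ℕ) :
    0 ≤ (∑ i ∈ Finset.range r, f ^ i * g ^ (r - 1 - i)) n ∧
      (∑ i ∈ Finset.range r, f ^ i * g ^ (r - 1 - i)) n ≤ r * dr r n := by
  rw [IR1.sum_apply]
  constructor
  · exact Finset.sum_nonneg fun i hi => (gterm f g hf hg r i (Finset.mem_range.1 hi) n).1
  · calc ∑ i ∈ Finset.range r, (f ^ i * g ^ (r - 1 - i)) n ≤ ∑ _i ∈ Finset.range r, dr r n :=
          Finset.sum_le_sum fun i hi => (gterm f g hf hg r i (Finset.mem_range.1 hi) n).2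
      _ = r * dr r n := by rw [Finset.sum_const, Finset.card_range, nsmul_eq_mul]

theorem tele (f g : ArithmeticFunction ℝ) (r : ℕ) :
    g ^ r = f ^ r + (g - f) * ∑ i ∈ Finset.range r, f ^ i * g ^ (r - 1 - i) := by
  have h := (Commute.all f g).mul_geom_sum₂ r
  have h3 : (g - f) * ∑ i ∈ Finset.range r, f ^ i * g ^ (r - 1 - i) =
      - ((f - g) * ∑ i ∈ Finset.range r, f ^ i * g ^ (r - 1 - i)) := by ring
  rw [h3, h]
  ring

theorem supp {z w y : ℝ} (h : z ≤ w) (h' : w ≤ y) (hz : 1 ≤ z) (k : ℕ) :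
    ∀ n : ℕ, ((pp z w y) ^ k) n ≠ 0 → n ≠ 0 ∧ ∃ j ≤ k, w ^ j ≤ (n : ℝ) ∧
      (n : ℝ) ≤ z ^ (k - j) * y ^ j := by
  induction k with
  | zero =>
    intro n hn
    rw [pow_zero, ArithmeticFunction.one_apply] at hn
    have h1 : n = 1 := by
      by_contra h1
      exact hn (if_neg h1)
    subst h1
    exact ⟨one_ne_zero, 0, le_rfl, by simp, by simp⟩
  | succ k ih =>
    intro n hn
    rw [pow_succ, ArithmeticFunction.mul_apply] at hn
    obtain ⟨x, hx, hne⟩ := Finset.exists_ne_zero_of_sum_ne_zero hn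
    have hxn := Nat.mem_divisorsAntidiagonal.1 hx
    have ha : ((pp z w y) ^ k) x.1 ≠ 0 := left_ne_zero_of_mul hne
    have hb : (pp z w y) x.2 ≠ 0 := right_ne_zero_of_mul hne
    obtain ⟨ha0, j, hj, hj1, hj2⟩ := ih x.1 ha
    have hx1 : (1 : ℝ) ≤ x.1 := by exact_mod_cast Nat.one_le_iff_ne_zero.2 ha0
    have hn' : (n : ℝ) = (x.1 : ℝ) * x.2 := by
      rw [← hxn.1]
      push_cast
      ring
    have hw1 : 1 ≤ w := hz.trans h
    have hy1 : 1 ≤ y := hw1.trans h'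
    have hz0 : 0 ≤ z := by linarith
    have hw0 : 0 ≤ w := by linarith
    have hy0 : 0 ≤ y := by linarith
    rcases pp_cases h h' x.2 with h1 | ⟨-, h2, h3⟩
    · exact absurd h1 hb
    · have hx2 : (1 : ℝ) ≤ x.2 := by exact_mod_cast Nat.one_le_iff_ne_zero.2 h2
      refine ⟨hxn.2, ?_⟩
      rcases h3 with h3 | ⟨h3, h4⟩
      · refine ⟨j, by omega, ?_, ?_⟩
        · rw [hn']
          nlinarith
        · rw [hn', show k + 1 - j = (k - j) + 1 by omega, pow_succ]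
          calc (x.1 : ℝ) * x.2 ≤ (z ^ (k - j) * y ^ j) * z :=
                mul_le_mul hj2 h3 (by linarith) (by positivity)
            _ = z ^ (k - j) * z * y ^ j := by ring
      · refine ⟨j + 1, by omega, ?_, ?_⟩
        · rw [hn', pow_succ]
          exact mul_le_mul hj1 h3.le hw0 (by linarith)
        · rw [hn', show k + 1 - (j + 1) = k - j by omega, pow_succ]
          calc (x.1 : ℝ) * x.2 ≤ (z ^ (k - j) * y ^ j) * y :=
                mul_le_mul hj2 h4 (by linarith) (by positivity)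
            _ = z ^ (k - j) * (y ^ j * y) := by ring

/-- the convolution with the indicator function of `(y, ∞)` -/
theorem conv1 (y : ℝ) (W : ArithmeticFunction ℝ) (n : ℕ) (hn : 1 ≤ n) :
    (((ζ : ArithmeticFunction ℝ) - uy y) * W) n = T1 W y n := by
  unfold T1
  rw [ArithmeticFunction.mul_apply, Nat.sum_divisorsAntidiagonal'
    (f := fun a b => ((ζ : ArithmeticFunction ℝ) - uy y) a * W b), Finset.sum_filter]
  refine Finset.sum_congr rfl fun m hm => ?_
  have hmn : m ∣ n := Nat.dvd_of_mem_divisors hm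
  have hm0 : 0 < m := Nat.pos_of_dvd_of_pos hmn hn
  have hq0 : n / m ≠ 0 := by
    have := Nat.div_pos (Nat.le_of_dvd hn hmn) hm0
    omega
  have hcast : ((n / m : ℕ) : ℝ) * m = n := by
    exact_mod_cast Nat.div_mul_cancel hmn
  have hm0R : (0 : ℝ) < m := by exact_mod_cast hm0
  rw [sub_apply, IR1.z_apply, IR1.uy_apply, if_neg hq0]
  by_cases h : (m : ℝ) * y < n
  · rw [if_pos h, if_neg]
    · ring
    · rintro ⟨_, h2⟩
      have : (n : ℝ) ≤ m * y := by
        rw [← hcast, mul_comm]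
        exact mul_le_mul_of_nonneg_left h2 hm0R.le
      linarith
  · rw [if_neg h, if_pos]
    · ring
    · refine ⟨hq0, ?_⟩
      by_contra h2
      push Not at h2
      apply h
      rw [← hcast, mul_comm]
      exact mul_lt_mul_of_pos_right h2 hm0R

/-- the convolution with the indicator function of `(z, w]` -/
theorem conv2 (z w : ℝ) (hzw : z ≤ w) (B : ArithmeticFunction ℝ) (n : ℕ) (hn : 1 ≤ n) :
    ((uy w - uy z) * B) n = T2 B z w n := by
  unfold T2
  rw [ArithmeticFunction.mul_apply, Nat.sum_divisorsAntidiagonal'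
    (f := fun a b => (uy w - uy z) a * B b), Finset.sum_filter]
  refine Finset.sum_congr rfl fun m hm => ?_
  have hmn : m ∣ n := Nat.dvd_of_mem_divisors hm
  have hm0 : 0 < m := Nat.pos_of_dvd_of_pos hmn hn
  have hq0 : n / m ≠ 0 := by
    have := Nat.div_pos (Nat.le_of_dvd hn hmn) hm0
    omega
  have hcast : ((n / m : ℕ) : ℝ) * m = n := by
    exact_mod_cast Nat.div_mul_cancel hmn
  have hm0R : (0 : ℝ) < m := by exact_mod_cast hm0
  have key : ∀ y : ℝ, ((n / m : ℕ) : ℝ) ≤ y ↔ (n : ℝ) ≤ m * y := by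
    intro y
    rw [← hcast, mul_comm]
    exact (mul_le_mul_iff_of_pos_left hm0R).symm
  rw [sub_apply, IR1.uy_apply, IR1.uy_apply]
  by_cases h1 : (n : ℝ) ≤ m * z
  · have h2 : (n : ℝ) ≤ m * w := h1.trans (mul_le_mul_of_nonneg_left hzw hm0R.le)
    rw [if_pos ⟨hq0, (key w).2 h2⟩, if_pos ⟨hq0, (key z).2 h1⟩,
      if_neg (fun h3 => absurd h3.1 (not_lt.2 h1))]
    ring
  · by_cases h2 : (n : ℝ) ≤ m * w
    · rw [if_pos ⟨hq0, (key w).2 h2⟩, if_neg (fun h3 => h1 ((key z).1 h3.2)),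
        if_pos ⟨not_le.1 h1, h2⟩]
      ring
    · rw [if_neg (fun h3 => h2 ((key w).1 h3.2)), if_neg (fun h3 => h1 ((key z).1 h3.2)),
        if_neg (fun h3 => h2 h3.2)]
      ring

end IV1

theorem prV1 : tsV1 := by
  intro r ε₁ hr hε hε1
  have hr2 : (2 : ℝ) ≤ r := by exact_mod_cast hr
  have hr0 : (0 : ℝ) < r := by linarith
  have hrε : r * ε₁ ≤ 1 / 24 := by
    calc r * ε₁ ≤ r * (1 / (24 * (r : ℝ))) := mul_le_mul_of_nonneg_left hε1 hr0.le
      _ = 1 / 24 := by field_simp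
  have hε48 : ε₁ ≤ 1 / 48 := by nlinarith
  refine ⟨(4 : ℝ) ^ (3 * ε₁)⁻¹, fun X hX => ?_⟩
  have h3ε : 0 < 3 * ε₁ := by linarith
  have hX1 : 1 ≤ X := le_trans (Real.one_le_rpow (by norm_num) (inv_nonneg.2 h3ε.le)) hX
  have hX0 : 0 < X := by linarith
  have hX4 : 4 ≤ X ^ (3 * ε₁) := by
    calc (4 : ℝ) = ((4 : ℝ) ^ (3 * ε₁)⁻¹) ^ (3 * ε₁) := by
          rw [← Real.rpow_mul (by norm_num), inv_mul_cancel₀ h3ε.ne', Real.rpow_one]
      _ ≤ X ^ (3 * ε₁) := Real.rpow_le_rpow (by positivity) hX h3ε.le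
  set z : ℝ := X ^ ε₁ with hz
  set w : ℝ := X ^ (1 / 3 + ε₁) with hw
  set y : ℝ := X ^ (1 / 2 - r * ε₁) with hy
  have hz1 : 1 ≤ z := Real.one_le_rpow hX1 hε.le
  have hzw : z ≤ w := Real.rpow_le_rpow_of_exponent_le hX1 (by linarith)
  have hwy : w ≤ y := Real.rpow_le_rpow_of_exponent_le hX1 (by linarith)
  have hw1 : 1 ≤ w := hz1.trans hzw
  have hy1 : 1 ≤ y := hw1.trans hwy
  set a := IV1.aa z w with ha
  set p := IV1.pp z w y with hp
  set W : ArithmeticFunction ℝ := ∑ i ∈ Finset.range r, p ^ i * a ^ (r - 1 - i) with hW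
  set B : ArithmeticFunction ℝ :=
    ∑ i ∈ Finset.range r, a ^ i * (ζ : ArithmeticFunction ℝ) ^ (r - 1 - i) with hB
  refine ⟨W, B, fun m => IV1.gsum p a (IV1.pp_bd hzw hwy) (IV1.aa_bd hzw) r m,
    fun m => IV1.gsum a _ (IV1.aa_bd hzw) (fun n => ⟨IR1.z_nonneg n, le_rfl⟩) r m,
    fun n hn hn1 hn2 => ?_⟩
  have hpn : (p ^ r) n = 0 := by
    by_contra hne
    obtain ⟨-, j, hj, hj1, hj2⟩ := IV1.supp hzw hwy hz1 r n hne
    rcases Nat.lt_or_ge 2 j with h3 | h2
    · have h5 : w ^ 3 ≤ (n : ℝ) := (pow_le_pow_right₀ hw1 h3).trans hj1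
      have h6 : w ^ 3 = X * X ^ (3 * ε₁) := by
        rw [hw, ← Real.rpow_natCast, ← Real.rpow_mul hX0.le, ← Real.rpow_one_add' hX0.le
          (by positivity)]
        congr 1
        push_cast
        ring
      rw [h6] at h5
      nlinarith
    · have h5 : z ^ (r - j) * y ^ j ≤ z ^ (r - 2) * y ^ 2 := by
        have e1 : r - j = (r - 2) + (2 - j) := by omega
        calc z ^ (r - j) * y ^ j = z ^ (r - 2) * (z ^ (2 - j) * y ^ j) := by
              rw [e1, pow_add]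
              ring
          _ ≤ z ^ (r - 2) * (y ^ (2 - j) * y ^ j) := by
              have := pow_le_pow_left₀ (by linarith : (0 : ℝ) ≤ z) (hzw.trans hwy) (2 - j)
              gcongr
          _ = z ^ (r - 2) * y ^ 2 := by
              rw [← pow_add, show 2 - j + j = 2 by omega]
      have h6 : z ^ (r - 2) * y ^ 2 ≤ X ^ (1 - r * ε₁) := by
        have e2 : z ^ (r - 2) = X ^ (((r : ℝ) - 2) * ε₁) := by
          rw [hz, ← Real.rpow_natCast, ← Real.rpow_mul hX0.le]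
          congr 1
          rw [Nat.cast_sub hr]
          push_cast
          ring
        have e3 : y ^ 2 = X ^ (1 - 2 * (r * ε₁)) := by
          rw [hy, ← Real.rpow_natCast, ← Real.rpow_mul hX0.le]
          congr 1
          push_cast
          ring
        rw [e2, e3, ← Real.rpow_add hX0]
        apply Real.rpow_le_rpow_of_exponent_le hX1
        nlinarith
      linarith
  rw [← IR1.z_pow, IV1.tele a (ζ : ArithmeticFunction ℝ) r, IV1.tele p a r,
    ArithmeticFunction.add_apply, ArithmeticFunction.add_apply, hpn, zero_add, ← hW, ← hB]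
  have e4 : a - p = (ζ : ArithmeticFunction ℝ) - uy y := by
    rw [ha, hp]
    unfold IV1.aa IV1.pp
    ring
  have e5 : (ζ : ArithmeticFunction ℝ) - a = uy w - uy z := by
    rw [ha]
    unfold IV1.aa
    ring
  rw [e4, e5, IV1.conv1 y W n hn, IV1.conv2 z w hzw B n hn]

end Pool.Agent.Work.MP_122e00_nt.TS
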