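import Mathlib
import Pool.Agent.Work.MP_122e00_nt.TS.Stmts5
import Pool.Agent.Work.MP_122e00_nt.TS.I_R9

set_option autoImplicit false

/-!
# Thin shifts, item V2: the part with a long variable
-/

namespace Pool.Agent.Work.MP_122e00_nt.TS

open Finset Filter Topology ArithmeticFunction
open scoped ArithmeticFunction.zeta ArithmeticFunction.Moebius

namespace IV2

/-- the coefficients -/
noncomputable def hh (W : ℕ → ℝ) (M s : ℕ) : ℝ :=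
  ∑ m ∈ (Finset.Icc 1 M).filter (s ∣ ·), W m / m

/-- the weights of the end of the range -/
noncomputable def We (W : ℕ → ℝ) (M0 m : ℕ) : ℝ := if M0 < m then W m else 0

/-- the decomposition -/
theorem decomp (hR2 : tsR2) (W : ℕ → ℝ) (hW : ∀ m, 0 ≤ W m) (y : ℝ)
    (Q M0 M1 n : ℕ) (hn : 1 ≤ n) (hQ : Q ≤ M0) (hM : M0 ≤ M1)
    (h1 : ∀ m : ℕ, m ≤ M0 → (m : ℝ) * y < n) (h2 : ∀ m : ℕ, (m : ℝ) * y < n → m ≤ M1) :
    T1 W y n - ∑ s ∈ Finset.Icc 1 Q, hh W M0 s * Gh n s = (0 : ℝ) +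
      ∑ m ∈ n.divisors.filter (fun m : ℕ => M0 < m ∧ (m : ℝ) * y < n), W m +
      (0 : ℝ) + ∑ s ∈ Finset.Ioc Q M0, hh W M0 s * Gh n s ∧
    0 ≤ ∑ m ∈ n.divisors.filter (fun m : ℕ => M0 < m ∧ (m : ℝ) * y < n), W m ∧
    ∑ m ∈ n.divisors.filter (fun m : ℕ => M0 < m ∧ (m : ℝ) * y < n), W m ≤
      ∑ s ∈ Finset.Icc 1 Q, hh (We W M0) M1 s * Gh n s +
      ∑ s ∈ Finset.Ioc Q M1, hh (We W M0) M1 s * Gh n s := by
  obtain ⟨e1, e2⟩ := IR9.end_le n M0 M1 y W hW h2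
  refine ⟨?_, e1, ?_⟩
  · have e3 : T1 W y n = ∑ m ∈ n.divisors.filter (fun m => m ≤ M0), W m +
        ∑ m ∈ n.divisors.filter (fun m : ℕ => M0 < m ∧ (m : ℝ) * y < n), W m :=
      IR9.div_split n M0 y W h1
    have e4 := hR2 W M0 n hn
    have e5 : ∑ s ∈ Finset.Icc 1 M0, (∑ m ∈ (Finset.Icc 1 M0).filter (s ∣ ·),
        W m / m) * Gh n s = ∑ s ∈ Finset.Icc 1 M0, hh W M0 s * Gh n s := rfl
    rw [e4, e5, IR9.split_Icc Q M0 hQ] at e3
    rw [e3]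
    ring
  · refine e2.trans (le_of_eq ?_)
    have e3 := hR2 (We W M0) M1 n hn
    have e4 : ∑ m ∈ n.divisors.filter (fun m => m ≤ M1), (if M0 < m then W m else 0) =
        ∑ m ∈ n.divisors.filter (fun m => m ≤ M1), We W M0 m := rfl
    rw [e4, e3]
    exact IR9.split_Icc Q M1 (hQ.trans hM) fun s => hh (We W M0) M1 s * Gh n s

end IV2

open IV2 in
/-- V2. The part with a long variable. -/
theorem prV2 (hL0 : tsL0) (hR2 : tsR2) (hR5 : tsR5) : tsV2 := by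
  intro r ε₁ hr hε hε2
  have hr2 : (2 : ℝ) ≤ (r : ℝ) := by exact_mod_cast hr
  have hr0 : (0 : ℝ) < r := by linarith
  obtain ⟨ρ, hρ⟩ : ∃ ρ : ℝ, ρ = r * ε₁ := ⟨_, rfl⟩
  have hρ0 : 0 < ρ := by rw [hρ]; positivity
  have hρ1 : ρ ≤ 1 / 24 := by
    rw [hρ]
    calc (r : ℝ) * ε₁ ≤ r * (1 / (24 * (r : ℝ))) := mul_le_mul_of_nonneg_left hε2 hr0.le
      _ = 1 / 24 := by field_simp
  refine ⟨1 / 100, by norm_num, ?_⟩
  intro δ hδ0 hδ1
  obtain ⟨CL, hCL, hL⟩ := hL0 r (δ / 400) (by positivity)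
  obtain ⟨C5, hC5, h5⟩ := hR5
  obtain ⟨K0, hK0⟩ : ∃ K0 : ℝ, K0 = 3 * r * CL := ⟨_, rfl⟩
  have hK00 : 0 < K0 := by rw [hK0]; positivity
  have ev1 : ∀ᶠ X : ℝ in atTop, 2 * K0 ≤ X ^ (δ / 10) :=
    (tendsto_rpow_atTop (by positivity)).eventually_ge_atTop _
  have ev2 : ∀ᶠ X : ℝ in atTop, K0 ≤ X ^ (δ / 400) :=
    (tendsto_rpow_atTop (by positivity)).eventually_ge_atTop _
  have ev3 := IR9.logpow 1 (δ / 400) (by positivity)
  have ev5 := IR9.logpow 5 (δ / 100) (by positivity)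
  have ev6 : ∀ᶠ X : ℝ in atTop, 5 * K0 + 10 + 150 * C5 * K0 ^ 2 ≤ X ^ (δ / 100) :=
    (tendsto_rpow_atTop (by positivity)).eventually_ge_atTop _
  obtain ⟨X0, hX0⟩ := (((ev1.and ev2).and ev3).and ((ev5.and ev6).and
    (eventually_ge_atTop (1 : ℝ)))).exists_forall_of_atTop
  refine ⟨X0, ?_⟩
  intro X hX W hWB0 a b hBlk
  obtain ⟨haX, hbX, hab1, hab2⟩ := hBlk
  obtain ⟨⟨⟨c1, c2⟩, c3⟩, ⟨c5, c6⟩, hX1⟩ := hX0 X hX
  rw [pow_one] at c3
  have hXp : 0 < X := by linarith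
  have hmono : ∀ {s t : ℝ}, s ≤ t → X ^ s ≤ X ^ t :=
    fun h => Real.rpow_le_rpow_of_exponent_le hX1 h
  have hWn : ∀ m, 0 ≤ W m := fun m => (hWB0 m).1
  -- the parameters
  obtain ⟨y, hy⟩ : ∃ y : ℝ, y = X ^ (1 / 2 - r * ε₁) := ⟨_, rfl⟩
  have hyι : y = X ^ (1 / 2 - ρ) := by rw [hy, hρ]
  have hy1 : 1 ≤ y := by rw [hyι]; exact Real.one_le_rpow hX1 (by linarith)
  have hy0 : 0 < y := by linarith
  have ha0 : (0 : ℝ) < a := lt_of_lt_of_le (Real.rpow_pos_of_pos hXp _) haX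
  have ha1 : 1 ≤ a := by exact_mod_cast ha0
  have hab : (a : ℝ) ≤ b := by
    have := Real.rpow_nonneg hXp.le (1 - δ)
    linarith
  have habn : a ≤ b := by exact_mod_cast hab
  obtain ⟨Q, hQ⟩ : ∃ Q : ℕ, Q = ⌊X ^ (δ / 20)⌋₊ := ⟨_, rfl⟩
  obtain ⟨hQ1, hQ2, hQ3⟩ := IG3.floor_rpow hX1 (show (0 : ℝ) < δ / 20 by positivity)
  rw [← hQ] at hQ1 hQ2 hQ3
  obtain ⟨M0, hM0⟩ : ∃ M0 : ℕ, M0 = ⌊(a : ℝ) / y⌋₊ := ⟨_, rfl⟩
  obtain ⟨M1, hM1⟩ : ∃ M1 : ℕ, M1 = ⌊(b : ℝ) / y⌋₊ := ⟨_, rfl⟩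
  have hay0 : 0 ≤ (a : ℝ) / y := by positivity
  have hby0 : 0 ≤ (b : ℝ) / y := by positivity
  have hM0le : (M0 : ℝ) ≤ (a : ℝ) / y := by rw [hM0]; exact Nat.floor_le hay0
  have hM0lt : (a : ℝ) / y < (M0 : ℝ) + 1 := by rw [hM0]; exact Nat.lt_floor_add_one _
  have hM1le : (M1 : ℝ) ≤ (b : ℝ) / y := by rw [hM1]; exact Nat.floor_le hby0
  have hM01 : M0 ≤ M1 := by
    rw [hM0, hM1]
    exact Nat.floor_le_floor (div_le_div_of_nonneg_right hab hy0.le)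
  have hQM0 : Q ≤ M0 := by
    rw [hQ, hM0]
    apply Nat.floor_le_floor
    rw [le_div_iff₀ hy0, hyι, ← Real.rpow_add hXp]
    exact (hmono (by linarith)).trans haX
  have hM0pos : 1 ≤ M0 := hQ1.trans hQM0
  have hw1 : ∀ n ∈ Finset.Ioc a b, ∀ m : ℕ, m ≤ M0 → (m : ℝ) * y < n := by
    intro n hn m hm
    rw [Finset.mem_Ioc] at hn
    have e1 : (m : ℝ) ≤ M0 := by exact_mod_cast hm
    have e2 : (m : ℝ) * y ≤ a := by
      rw [← le_div_iff₀ hy0]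
      exact e1.trans hM0le
    have e3 : (a : ℝ) < n := by exact_mod_cast hn.1
    linarith
  have hw2 : ∀ n ∈ Finset.Ioc a b, ∀ m : ℕ, (m : ℝ) * y < n → m ≤ M1 := by
    intro n hn m hm
    rw [Finset.mem_Ioc] at hn
    rw [hM1]
    apply Nat.le_floor
    rw [le_div_iff₀ hy0]
    have e3 : (n : ℝ) ≤ b := by exact_mod_cast hn.2
    linarith
  -- the weights
  obtain ⟨B, hB⟩ : ∃ B : ℝ, B = K0 * X ^ (δ / 400) := ⟨_, rfl⟩
  have hB0 : 0 ≤ B := by rw [hB]; positivity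
  have hdr : ∀ n : ℕ, 1 ≤ n → (n : ℝ) ≤ 3 * X → dr r n ≤ 3 * CL * X ^ (δ / 400) := by
    intro n hn hn3
    refine (hL n hn).trans ?_
    have e1 : (n : ℝ) ^ (δ / 400) ≤ (3 * X) ^ (δ / 400) :=
      Real.rpow_le_rpow (Nat.cast_nonneg n) hn3 (by positivity)
    rw [Real.mul_rpow (by norm_num) hXp.le] at e1
    have e2 : (3 : ℝ) ^ (δ / 400) ≤ 3 := by
      have := Real.rpow_le_rpow_of_exponent_le (show (1 : ℝ) ≤ 3 by norm_num)
        (show δ / 400 ≤ 1 by linarith)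
      rwa [Real.rpow_one] at this
    have e3 : 0 ≤ X ^ (δ / 400) := Real.rpow_nonneg hXp.le _
    calc CL * (n : ℝ) ^ (δ / 400) ≤ CL * (3 ^ (δ / 400) * X ^ (δ / 400)) :=
          mul_le_mul_of_nonneg_left e1 hCL.le
      _ ≤ CL * (3 * X ^ (δ / 400)) :=
          mul_le_mul_of_nonneg_left (mul_le_mul_of_nonneg_right e2 e3) hCL.le
      _ = 3 * CL * X ^ (δ / 400) := by ring
  have hM1X : (M1 : ℝ) ≤ 3 * X := by
    refine hM1le.trans ((div_le_self (Nat.cast_nonneg b) hy1).trans hbX)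
  have hWB : ∀ m ∈ Finset.Icc 1 M1, 0 ≤ W m ∧ W m ≤ B := by
    intro m hm
    rw [Finset.mem_Icc] at hm
    refine ⟨(hWB0 m).1, (hWB0 m).2.trans ?_⟩
    have e1 : (m : ℝ) ≤ 3 * X := le_trans (by exact_mod_cast hm.2) hM1X
    calc (r : ℝ) * dr r m ≤ r * (3 * CL * X ^ (δ / 400)) :=
          mul_le_mul_of_nonneg_left (hdr m hm.1 e1) hr0.le
      _ = B := by rw [hB, hK0]; ring
  have hWBM0 : ∀ m ∈ Finset.Icc 1 M0, 0 ≤ W m ∧ W m ≤ B := by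
    intro m hm
    rw [Finset.mem_Icc] at hm
    exact hWB m (Finset.mem_Icc.mpr ⟨hm.1, hm.2.trans hM01⟩)
  -- lengths
  have hβ : ((b : ℝ) - a) / a ≤ X ^ (-(δ / 2)) := by
    calc ((b : ℝ) - a) / a ≤ X ^ (1 - δ) / X ^ (1 - δ / 2) :=
          div_le_div₀ (Real.rpow_nonneg hXp.le _) (by linarith) (Real.rpow_pos_of_pos hXp _) haX
      _ = X ^ (-(δ / 2)) := by
          rw [← Real.rpow_sub hXp]
          congr 1
          ring
  have hya : y / a ≤ X ^ (-(δ / 2)) := by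
    calc y / a ≤ y / X ^ (1 - δ / 2) :=
          div_le_div_of_nonneg_left hy0.le (Real.rpow_pos_of_pos hXp _) haX
      _ = X ^ (1 / 2 - ρ - (1 - δ / 2)) := by rw [hyι, ← Real.rpow_sub hXp]
      _ ≤ X ^ (-(δ / 2)) := hmono (by linarith)
  have hM10 : ((M1 : ℝ) - M0) / ((M0 : ℝ) + 1) ≤ 2 * X ^ (-(δ / 2)) := by
    have hay : 0 < (a : ℝ) / y := by positivity
    calc ((M1 : ℝ) - M0) / ((M0 : ℝ) + 1) ≤ (((b : ℝ) - a) / y + 1) / ((a : ℝ) / y) := by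
          apply div_le_div₀ _ _ hay hM0lt.le
          · have : 0 ≤ ((b : ℝ) - a) / y := div_nonneg (by linarith) hy0.le
            linarith
          · rw [sub_div]
            linarith
      _ = ((b : ℝ) - a) / a + y / a := by field_simp
      _ ≤ 2 * X ^ (-(δ / 2)) := by linarith
  have hQ3pow : (Q : ℝ) ^ 3 ≤ X ^ (3 * δ / 20) := by
    calc (Q : ℝ) ^ 3 ≤ (X ^ (δ / 20)) ^ 3 := pow_le_pow_left₀ (Nat.cast_nonneg Q) hQ2 3
      _ = X ^ (3 * δ / 20) := by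
          rw [← Real.rpow_natCast, ← Real.rpow_mul hXp.le]
          congr 1
          push_cast
          ring
  obtain ⟨κ, hκ⟩ : ∃ κ : ℝ, κ = X ^ (-(δ / 6)) := ⟨_, rfl⟩
  have hκ0 : 0 ≤ κ := by rw [hκ]; exact Real.rpow_nonneg hXp.le _
  -- the part with small moduli of the end of the range
  have hbs : ∀ n ∈ Finset.Ioc a b,
      |∑ s ∈ Finset.Icc 1 Q, hh (We W M0) M1 s * Gh n s| ≤ κ := by
    intro n _
    have e1 : ∀ s ∈ Finset.Icc 1 Q, |hh (We W M0) M1 s| ≤ B * (2 * X ^ (-(δ / 2))) := by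
      intro s _
      exact (IR9.hsmall W B M0 M1 s hB0 hM01 hWB).trans
        (mul_le_mul_of_nonneg_left hM10 hB0)
    refine (IR9.sumGh_bound _ Q n _ (by positivity) e1).trans ?_
    calc (Q : ℝ) ^ 3 * (B * (2 * X ^ (-(δ / 2))))
        ≤ X ^ (3 * δ / 20) * (B * (2 * X ^ (-(δ / 2)))) :=
          mul_le_mul_of_nonneg_right hQ3pow (by positivity)
      _ = (2 * K0) * (X ^ (3 * δ / 20) * X ^ (δ / 400) * X ^ (-(δ / 2))) := by rw [hB]; ring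
      _ ≤ X ^ (δ / 10) * (X ^ (3 * δ / 20) * X ^ (δ / 400) * X ^ (-(δ / 2))) :=
          mul_le_mul_of_nonneg_right c1 (by positivity)
      _ = X ^ (δ / 10 + (3 * δ / 20 + δ / 400 + -(δ / 2))) := by
          rw [← Real.rpow_add hXp, ← Real.rpow_add hXp, ← Real.rpow_add hXp]
      _ ≤ κ := by rw [hκ]; exact hmono (by linarith)
  have hlog6 : 1 ≤ 1 + Real.log (6 * X) := by
    have := Real.log_nonneg (show (1 : ℝ) ≤ 6 * X by linarith)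
    linarith
  -- the coefficients
  obtain ⟨A, hA⟩ : ∃ A : ℝ, A = B * (1 + Real.log (3 * X)) := ⟨_, rfl⟩
  have hlog3 : 0 ≤ Real.log (3 * X) := Real.log_nonneg (by linarith)
  have hA0 : 0 ≤ A := by rw [hA]; positivity
  have hAℓ : A ≤ B * (1 + Real.log (6 * X)) := by
    rw [hA]
    apply mul_le_mul_of_nonneg_left _ hB0
    have := Real.log_le_log (show 0 < 3 * X by linarith) (show 3 * X ≤ 6 * X by linarith)
    linarith
  have hcoefA : ∀ (w : ℕ → ℝ) (M s : ℕ), 1 ≤ s → 1 ≤ M → (M : ℝ) ≤ 3 * X →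
      (∀ m ∈ Finset.Icc 1 M, 0 ≤ w m ∧ w m ≤ B) → |hh w M s| ≤ A / s := by
    intro w M s hs hM hM3 hw
    refine (IR9.hbound w B M s hs hB0 hw).trans ?_
    apply div_le_div_of_nonneg_right _ (Nat.cast_nonneg s)
    rw [hA]
    apply mul_le_mul_of_nonneg_left _ hB0
    have : Real.log M ≤ Real.log (3 * X) :=
      Real.log_le_log (by exact_mod_cast hM) hM3
    linarith
  have hM0X : (M0 : ℝ) ≤ 3 * X := le_trans (by exact_mod_cast hM01) hM1X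
  refine ⟨hh W M0, ?_, ?_⟩
  · intro s hs
    rw [Finset.mem_Icc] at hs
    have hs1 : (1 : ℝ) ≤ s := by exact_mod_cast hs.1
    calc |hh W M0 s| ≤ A / s := hcoefA W M0 s hs.1 hM0pos hM0X hWBM0
      _ ≤ A := div_le_self hA0 hs1
      _ ≤ B * (1 + Real.log (6 * X)) := hAℓ
      _ ≤ B * X ^ (δ / 400) := mul_le_mul_of_nonneg_left c3 hB0
      _ = K0 * (X ^ (δ / 400) * X ^ (δ / 400)) := by rw [hB]; ring
      _ ≤ X ^ (δ / 400) * (X ^ (δ / 400) * X ^ (δ / 400)) :=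
          mul_le_mul_of_nonneg_right c2 (by positivity)
      _ = X ^ (δ / 400 + (δ / 400 + δ / 400)) := by
          rw [← Real.rpow_add hXp, ← Real.rpow_add hXp]
      _ ≤ X ^ (δ / 100) := hmono (by linarith)
  intro L γ hLX _
  have hL1 : (1 : ℝ) ≤ L := (Real.one_le_rpow hX1 (by norm_num)).trans hLX
  have hL1n : 1 ≤ L := by exact_mod_cast hL1
  have hL0' : (0 : ℝ) < L := by linarith
  have hset : Finset.Icc (a + L) b =
      Finset.Ioc (a + L - 1) (a + L - 1 + (b - (a + L - 1))) := by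
    ext x
    rw [Finset.mem_Icc, Finset.mem_Ioc]
    omega
  have hN' : ((b - (a + L - 1) : ℕ) : ℝ) ≤ X ^ (1 - δ) := by
    have e1 : ((b - (a + L - 1) : ℕ) : ℝ) ≤ ((b - a : ℕ) : ℝ) := by
      exact_mod_cast (by omega : b - (a + L - 1) ≤ b - a)
    rw [Nat.cast_sub habn] at e1
    linarith
  have hM1exp : (M1 : ℝ) ≤ 3 * X ^ (1 - (1 / 2 - ρ)) := by
    refine hM1le.trans ?_
    calc (b : ℝ) / y ≤ 3 * X / y := div_le_div_of_nonneg_right hbX hy0.le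
      _ = 3 * X ^ (1 - (1 / 2 - ρ)) := by
          rw [hyι, Real.rpow_sub hXp 1, Real.rpow_one]
          ring
  have hM1a : ∀ M : ℕ, M ≤ M1 → (M : ℝ) ≤ 3 * X ^ (1 - 6 * δ) := by
    intro M hM
    have e1 : (M : ℝ) ≤ M1 := by exact_mod_cast hM
    refine e1.trans (hM1exp.trans ?_)
    exact mul_le_mul_of_nonneg_left (hmono (by linarith)) (by norm_num)
  have hM1b : ∀ M : ℕ, M ≤ M1 → (M : ℝ) ^ 2 / L ≤ 9 * X ^ (1 - 6 * δ) := by
    intro M hM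
    have e1 : (M : ℝ) ≤ 3 * X ^ (1 - (1 / 2 - ρ)) := le_trans (by exact_mod_cast hM) hM1exp
    have e2 : (M : ℝ) ^ 2 ≤ 9 * X ^ (2 * (1 - (1 / 2 - ρ))) := by
      calc (M : ℝ) ^ 2 ≤ (3 * X ^ (1 - (1 / 2 - ρ))) ^ 2 :=
            pow_le_pow_left₀ (Nat.cast_nonneg M) e1 2
        _ = 9 * (X ^ (1 - (1 / 2 - ρ))) ^ 2 := by ring
        _ = 9 * X ^ (2 * (1 - (1 / 2 - ρ))) := by
            rw [← Real.rpow_natCast (X ^ (1 - (1 / 2 - ρ))) 2, ← Real.rpow_mul hXp.le]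
            congr 2
            push_cast
            ring
    calc (M : ℝ) ^ 2 / L ≤ (9 * X ^ (2 * (1 - (1 / 2 - ρ)))) / X ^ (1 / 3 : ℝ) :=
          div_le_div₀ (by positivity) e2 (Real.rpow_pos_of_pos hXp _) hLX
      _ = 9 * X ^ (2 * (1 - (1 / 2 - ρ)) - 1 / 3) := by
          rw [mul_div_assoc, ← Real.rpow_sub hXp]
      _ ≤ 9 * X ^ (1 - 6 * δ) :=
          mul_le_mul_of_nonneg_left (hmono (by linarith)) (by norm_num)
  have hD : ∀ (M : ℕ) (γ' : ℝ) (h : ℕ → ℝ), 1 ≤ M → M ≤ M1 →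
      (∀ s ∈ Finset.Ioc Q M, |h s| ≤ A / s) →
      ∑ x ∈ Finset.Icc (a + L) b, ‖∑ n ∈ Finset.Ioc (x - L) x,
        ((∑ s ∈ Finset.Ioc Q M, h s * Gh n s : ℝ) : ℂ) * ee (n * γ')‖ ^ 2 ≤
      C5 * A ^ 2 * (1 + Real.log (6 * X)) ^ 3 * (L : ℝ) ^ 2 * (15 * X ^ (1 - δ - δ / 20)) := by
    intro M γ' h hM hMM1 hhs
    have e1 := h5 Q M (b - (a + L - 1)) L (a + L - 1) γ' A h hQ1 hL1n (by omega) hA0 hhs
    rw [← hset] at e1
    refine e1.trans ?_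
    have e2 := IR9.bracket X δ L ((b - (a + L - 1) : ℕ) : ℝ) Q M hX1 hδ0 hQ3
      ((hmono (by linarith)).trans hLX) hN' (hM1a M hMM1) (hM1b M hMM1)
    have hM6 : 2 * (M : ℝ) ≤ 6 * X := by
      have : (M : ℝ) ≤ M1 := by exact_mod_cast hMM1
      linarith
    have hMr : (1 : ℝ) ≤ M := by exact_mod_cast hM
    have e3 : (1 + Real.log (2 * (M : ℝ))) ^ 3 ≤ (1 + Real.log (6 * X)) ^ 3 := by
      have g1 : 0 ≤ Real.log (2 * (M : ℝ)) := Real.log_nonneg (by linarith)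
      have g2 : Real.log (2 * (M : ℝ)) ≤ Real.log (6 * X) := Real.log_le_log (by linarith) hM6
      exact pow_le_pow_left₀ (by linarith) (by linarith) 3
    have e4 : 0 ≤ 1 + Real.log (6 * X) := by linarith
    apply mul_le_mul _ e2 (by positivity) (by positivity)
    apply mul_le_mul_of_nonneg_right _ (by positivity)
    exact mul_le_mul_of_nonneg_left e3 (by positivity)
  have hD1 := hD M1 0 (hh (We W M0) M1) (hM0pos.trans hM01) le_rfl (by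
    intro s hs
    rw [Finset.mem_Ioc] at hs
    refine hcoefA (We W M0) M1 s (by omega) (hM0pos.trans hM01) hM1X ?_
    intro m hm
    show 0 ≤ (if M0 < m then W m else 0) ∧ (if M0 < m then W m else 0) ≤ B
    split_ifs
    · exact hWB m hm
    · exact ⟨le_rfl, hB0⟩)
  have hD2 := hD M0 γ (hh W M0) hM0pos hM01 (by
    intro s hs
    rw [Finset.mem_Ioc] at hs
    exact hcoefA W M0 s (by omega) hM0pos hM0X hWBM0)
  -- the total
  have hdec : ∀ n ∈ Finset.Ioc a b, _ := fun n hn =>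
    decomp hR2 W hWn y Q M0 M1 n (by rw [Finset.mem_Ioc] at hn; omega) hQM0 hM01
      (hw1 n hn) (hw2 n hn)
  rw [← hQ, ← hy]
  unfold ws
  have htot := IR9.total a b L γ B κ 0 _ _
    (fun n => T1 W y n - ∑ s ∈ Finset.Icc 1 Q, hh W M0 s * Gh n s) (fun _ => (0 : ℝ))
    (fun n => ∑ m ∈ n.divisors.filter (fun m : ℕ => M0 < m ∧ (m : ℝ) * y < n), W m)
    (fun n => ∑ s ∈ Finset.Icc 1 Q, hh (We W M0) M1 s * Gh n s)
    (fun n => ∑ s ∈ Finset.Ioc Q M1, hh (We W M0) M1 s * Gh n s)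
    (fun _ => (0 : ℝ))
    (fun n => ∑ s ∈ Finset.Ioc Q M0, hh W M0 s * Gh n s)
    hL1n hB0 (fun _ => le_rfl) (fun n hn => (hdec n hn).1) (fun _ _ => hB0)
    (fun n hn => (hdec n hn).2)
    hbs (fun _ _ => by rw [abs_zero]; exact hκ0) (by rw [Finset.sum_const_zero]) hD1 hD2
  refine htot.trans ?_
  refine IR9.final X δ B L 0 ((b - a : ℕ) : ℝ) κ _ _ K0 C5 (1 + Real.log (6 * X)) A hX1 hδ0
    ?_ (Real.rpow_nonneg hXp.le _) hB hK00 hC5 hκ hlog6 hA0 hAℓ c5 le_rfl le_rfl c6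
  rw [Nat.cast_sub habn]
  linarith

end Pool.Agent.Work.MP_122e00_nt.TS
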