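import Mathlib
import Pool.Agent.Work.MP_122e00_nt.TS.Stmts5

/-!
# Thin shifts, item V3: medium variable, minor arcs
-/

namespace Pool.Agent.Work.MP_122e00_nt.TS

open Finset Filter Topology ArithmeticFunction MeasureTheory
open scoped ArithmeticFunction.zeta ArithmeticFunction.Moebius ComplexConjugate

namespace IV3

/-- the sum over `m` with `a` fixed -/
noncomputable def TT (B : ℕ → ℝ) (γ : ℝ) (L M a x : ℕ) : ℂ :=
  ∑ m ∈ Finset.Icc 1 M, if a * m ≤ x ∧ x < a * m + L then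
    (B m : ℂ) * ee (((a * m : ℕ) : ℝ) * γ) else 0

theorem split (A A' L Z : ℕ) (γ : ℝ) (B : ℕ → ℝ) (hA : 1 ≤ A) (x : ℕ) (hLx : L ≤ x)
    (hxZ : x ≤ Z) :
    ws (fun n => ∑ m ∈ n.divisors.filter (fun m => A * m < n ∧ n ≤ A' * m), B m) γ L x =
      ∑ a ∈ Finset.Ioc A A', TT B γ L (Z / A) a x := by
  unfold ws TT
  simp only [Complex.ofReal_sum, Finset.sum_mul]
  simp only [← Finset.sum_filter]
  rw [Finset.sum_sigma', Finset.sum_sigma']
  refine Finset.sum_nbij' (fun p => ⟨p.1 / p.2, p.2⟩) (fun p => ⟨p.1 * p.2, p.2⟩) ?_ ?_ ?_ ?_ ?_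
  · rintro ⟨n, m⟩ hp
    simp only [Finset.mem_sigma, Finset.mem_Ioc, Finset.mem_filter, Nat.mem_divisors,
      Finset.mem_Icc] at hp ⊢
    obtain ⟨⟨h1, h2⟩, ⟨⟨k, rfl⟩, h4⟩, h5, h6⟩ := hp
    have hm : 0 < m := by
      rcases Nat.eq_zero_or_pos m with h | h
      · subst h
        simp at h4
      · exact h
    rw [Nat.mul_div_cancel_left k hm]
    have h5' : A < k := by
      have : m * A < m * k := by rw [mul_comm m A]; exact h5
      exact Nat.lt_of_mul_lt_mul_left this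
    have h6' : k ≤ A' := by
      have : m * k ≤ m * A' := by rw [mul_comm m A']; exact h6
      exact Nat.le_of_mul_le_mul_left this hm
    refine ⟨⟨h5', h6'⟩, ⟨hm, ?_⟩, ?_, ?_⟩
    · rw [Nat.le_div_iff_mul_le (by omega)]
      rw [mul_comm A m] at h5
      omega
    · rw [mul_comm k m]
      exact h2
    · rw [mul_comm k m]
      omega
  · rintro ⟨a, m⟩ hp
    simp only [Finset.mem_sigma, Finset.mem_Ioc, Finset.mem_filter, Nat.mem_divisors,
      Finset.mem_Icc] at hp ⊢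
    obtain ⟨⟨h1, h2⟩, ⟨h3, h4⟩, h5, h6⟩ := hp
    have h7 : 0 < a * m := Nat.mul_pos (by omega) (by omega)
    refine ⟨⟨by omega, h5⟩, ⟨Dvd.intro_left a rfl, by omega⟩, ?_, ?_⟩
    · exact Nat.mul_lt_mul_of_pos_right h1 (by omega)
    · exact Nat.mul_le_mul_right m h2
  · rintro ⟨n, m⟩ hp
    simp only [Finset.mem_sigma, Finset.mem_Ioc, Finset.mem_filter, Nat.mem_divisors] at hp
    obtain ⟨-, ⟨h3, h4⟩, -⟩ := hp
    simp only [Nat.div_mul_cancel h3]
  · rintro ⟨a, m⟩ hp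
    simp only [Finset.mem_sigma, Finset.mem_Ioc, Finset.mem_filter, Finset.mem_Icc] at hp
    simp only [Nat.mul_div_cancel a (show 0 < m by omega)]
  · rintro ⟨n, m⟩ hp
    simp only [Finset.mem_sigma, Finset.mem_Ioc, Finset.mem_filter, Nat.mem_divisors] at hp
    obtain ⟨-, ⟨h3, h4⟩, -⟩ := hp
    simp only [Nat.div_mul_cancel h3]

theorem cnt (L a m m' N : ℕ) (h1 : a * m + L ≤ N) (h2 : a * m' + L ≤ N) :
    ((Finset.range N).filter (fun x => (a * m ≤ x ∧ x < a * m + L) ∧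
      (a * m' ≤ x ∧ x < a * m' + L))).card = L - a * ((m - m') + (m' - m)) := by
  have h : (Finset.range N).filter (fun x => (a * m ≤ x ∧ x < a * m + L) ∧
      (a * m' ≤ x ∧ x < a * m' + L)) =
      Finset.Ico (max (a * m) (a * m')) (min (a * m + L) (a * m' + L)) := by
    ext x
    simp only [Finset.mem_filter, Finset.mem_range, Finset.mem_Ico, max_le_iff, lt_min_iff]
    omega
  rw [h, Nat.card_Ico]
  rcases le_total m m' with hm | hm
  · obtain ⟨k, rfl⟩ := Nat.exists_eq_add_of_le hm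
    have e1 : (m - (m + k)) + (m + k - m) = k := by omega
    rw [e1, mul_add]
    generalize a * m = u
    generalize a * k = v
    omega
  · obtain ⟨k, rfl⟩ := Nat.exists_eq_add_of_le hm
    have e1 : (m' + k - m') + (m' - (m' + k)) = k := by omega
    rw [e1, mul_add]
    generalize a * m' = u
    generalize a * k = v
    omega

theorem sq_sum (B : ℕ → ℝ) (γ : ℝ) (L M a N : ℕ) (hN : a * M + L ≤ N) :
    ((∑ x ∈ Finset.range N, ‖TT B γ L M a x‖ ^ 2 : ℝ) : ℂ) =
      ∑ m ∈ Finset.Icc 1 M, ∑ m' ∈ Finset.Icc 1 M, (B m : ℂ) * (B m' : ℂ) *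
        (((L - a * ((m - m') + (m' - m)) : ℕ) : ℂ) *
          (ee (((a * m : ℕ) : ℝ) * γ) * conj (ee (((a * m' : ℕ) : ℝ) * γ)))) := by
  have h1 : ∀ x, ((‖TT B γ L M a x‖ ^ 2 : ℝ) : ℂ) =
      ∑ m ∈ Finset.Icc 1 M, ∑ m' ∈ Finset.Icc 1 M,
        (if (a * m ≤ x ∧ x < a * m + L) ∧ (a * m' ≤ x ∧ x < a * m' + L) then
          (B m : ℂ) * (B m' : ℂ) * (ee (((a * m : ℕ) : ℝ) * γ) *
            conj (ee (((a * m' : ℕ) : ℝ) * γ))) else 0) := by
    intro x
    rw [Complex.ofReal_pow, ← Complex.mul_conj']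
    unfold TT
    rw [map_sum, Finset.sum_mul_sum]
    refine Finset.sum_congr rfl fun m _ => Finset.sum_congr rfl fun m' _ => ?_
    by_cases c1 : a * m ≤ x ∧ x < a * m + L
    · by_cases c2 : a * m' ≤ x ∧ x < a * m' + L
      · rw [if_pos c1, if_pos c2, if_pos ⟨c1, c2⟩, map_mul, Complex.conj_ofReal]
        ring
      · rw [if_pos c1, if_neg c2, if_neg (fun h => c2 h.2), _root_.map_zero, mul_zero]
    · rw [if_neg c1, zero_mul]
      exact (if_neg (fun h => c1 h.1)).symm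
  rw [Complex.ofReal_sum]
  rw [Finset.sum_congr rfl fun x _ => h1 x]
  rw [Finset.sum_comm]
  refine Finset.sum_congr rfl fun m hm => ?_
  rw [Finset.sum_comm]
  refine Finset.sum_congr rfl fun m' hm' => ?_
  rw [Finset.mem_Icc] at hm hm'
  have g1 : a * m + L ≤ N := le_trans (Nat.add_le_add_right (Nat.mul_le_mul_left a hm.2) L) hN
  have g2 : a * m' + L ≤ N := le_trans (Nat.add_le_add_right (Nat.mul_le_mul_left a hm'.2) L) hN
  rw [← Finset.sum_filter, Finset.sum_const, cnt L a m m' N g1 g2, nsmul_eq_mul]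
  ring

theorem abel (A : ℕ) (w : ℕ → ℝ) (z : ℕ → ℂ) (W K : ℝ) (hK : 0 ≤ K)
    (hw : ∀ a, w (a + 1) ≤ w a) (h0 : ∀ a, 0 ≤ w a) (hW : w A ≤ W) (n : ℕ)
    (hS : ∀ k, k ≤ n → ‖∑ a ∈ Finset.Ioc A (A + k), z a‖ ≤ K) :
    ‖∑ a ∈ Finset.Ioc A (A + n), (w a : ℂ) * z a‖ ≤ W * K := by
  have key : ∀ k, k ≤ n → ‖∑ a ∈ Finset.Ioc A (A + k), (w a : ℂ) * z a -
      (w (A + k) : ℂ) * ∑ a ∈ Finset.Ioc A (A + k), z a‖ ≤ (W - w (A + k)) * K := by
    intro k
    induction k with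
    | zero =>
      intro _
      simp only [add_zero, Finset.Ioc_self, Finset.sum_empty, mul_zero, sub_zero, norm_zero]
      exact mul_nonneg (by linarith) hK
    | succ k ih =>
      intro hk
      have ih' := ih (by omega)
      have e1 : Finset.Ioc A (A + (k + 1)) = insert (A + (k + 1)) (Finset.Ioc A (A + k)) := by
        ext t
        simp only [Finset.mem_Ioc, Finset.mem_insert]
        omega
      have e2 : A + (k + 1) ∉ Finset.Ioc A (A + k) := by
        simp only [Finset.mem_Ioc]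
        omega
      rw [e1, Finset.sum_insert e2, Finset.sum_insert e2]
      have e3 : (w (A + (k + 1)) : ℂ) * z (A + (k + 1)) +
          ∑ a ∈ Finset.Ioc A (A + k), (w a : ℂ) * z a -
          (w (A + (k + 1)) : ℂ) * (z (A + (k + 1)) + ∑ a ∈ Finset.Ioc A (A + k), z a) =
          (∑ a ∈ Finset.Ioc A (A + k), (w a : ℂ) * z a -
            (w (A + k) : ℂ) * ∑ a ∈ Finset.Ioc A (A + k), z a) +
          ((w (A + k) - w (A + (k + 1)) : ℝ) : ℂ) * ∑ a ∈ Finset.Ioc A (A + k), z a := by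
        push_cast
        ring
      rw [e3]
      refine le_trans (norm_add_le _ _) ?_
      have e4 : ‖((w (A + k) - w (A + (k + 1)) : ℝ) : ℂ) * ∑ a ∈ Finset.Ioc A (A + k), z a‖ ≤
          (w (A + k) - w (A + (k + 1))) * K := by
        rw [norm_mul, Complex.norm_real, Real.norm_eq_abs]
        have h5 := hw (A + k)
        rw [abs_of_nonneg (by rw [← add_assoc]; linarith)]
        exact mul_le_mul_of_nonneg_left (hS k (by omega)) (by rw [← add_assoc]; linarith)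
      have e5 : (W - w (A + (k + 1))) * K =
          (W - w (A + k)) * K + (w (A + k) - w (A + (k + 1))) * K := by ring
      rw [e5]
      exact add_le_add ih' e4
  have h1 := key n le_rfl
  have h2 : ∑ a ∈ Finset.Ioc A (A + n), (w a : ℂ) * z a =
      (∑ a ∈ Finset.Ioc A (A + n), (w a : ℂ) * z a -
      (w (A + n) : ℂ) * ∑ a ∈ Finset.Ioc A (A + n), z a) +
      (w (A + n) : ℂ) * ∑ a ∈ Finset.Ioc A (A + n), z a := by ring
  rw [h2]
  refine le_trans (norm_add_le _ _) ?_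
  have h3 : ‖(w (A + n) : ℂ) * ∑ a ∈ Finset.Ioc A (A + n), z a‖ ≤ w (A + n) * K := by
    rw [norm_mul, Complex.norm_real, Real.norm_eq_abs, abs_of_nonneg (h0 _)]
    exact mul_le_mul_of_nonneg_left (hS n le_rfl) (h0 _)
  have h4 : W * K = (W - w (A + n)) * K + w (A + n) * K := by ring
  rw [h4]
  exact add_le_add h1 h3

/-- the bound for the geometric sums -/
noncomputable def bj (A : ℕ) (γ : ℝ) (j : ℕ) : ℝ :=
  if nn (γ * j) = 0 then (A : ℝ) else min (A : ℝ) (1 / (2 * nn (γ * j)))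

theorem nn_nonneg (x : ℝ) : 0 ≤ nn x := abs_nonneg _

theorem bj_nonneg (A : ℕ) (γ : ℝ) (j : ℕ) : 0 ≤ bj A γ j := by
  unfold bj
  split_ifs
  · positivity
  · have := nn_nonneg (γ * j)
    exact le_min (by positivity) (by positivity)

theorem bj_le (A : ℕ) (γ : ℝ) (j : ℕ) : bj A γ j ≤ A := by
  unfold bj
  split_ifs
  · exact le_rfl
  · exact min_le_left _ _

theorem bj_nn (A : ℕ) (γ : ℝ) (j : ℕ) : bj A γ j * nn (γ * j) ≤ 1 := by
  unfold bj
  split_ifs with h
  · rw [h]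
    simp
  · have h1 : 0 < nn (γ * j) := lt_of_le_of_ne (nn_nonneg _) (Ne.symm h)
    calc min (A : ℝ) (1 / (2 * nn (γ * j))) * nn (γ * j) ≤
        (1 / (2 * nn (γ * j))) * nn (γ * j) := mul_le_mul_of_nonneg_right (min_le_right _ _) h1.le
      _ = 1 / 2 := by field_simp
      _ ≤ 1 := by norm_num

theorem le_bj (hGS : tsGS) (A k : ℕ) (γ : ℝ) (j : ℕ) (hk : k ≤ A) :
    ‖∑ l ∈ Finset.Ioc A (A + k), ee (l * (γ * j))‖ ≤ bj A γ j := by
  obtain ⟨h1, h2⟩ := hGS A (A + k) (γ * j)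
  have h3 : ((A + k - A : ℕ) : ℝ) ≤ A := by
    have : A + k - A ≤ A := by omega
    exact_mod_cast this
  unfold bj
  split_ifs with h
  · exact le_trans h2 h3
  · have h4 : 0 < nn (γ * j) := lt_of_le_of_ne (nn_nonneg _) (Ne.symm h)
    refine le_min (le_trans h2 h3) ?_
    rw [le_div_iff₀ (by positivity)]
    linarith

theorem pair (hGS : tsGS) (A A' L : ℕ) (γ : ℝ) (j : ℕ) (hAA : A ≤ A') (hA2 : A' ≤ 2 * A) :
    ‖∑ a ∈ Finset.Ioc A A', ((L - a * j : ℕ) : ℂ) * ee (a * (γ * j))‖ ≤ L * bj A γ j := by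
  obtain ⟨n, rfl⟩ := Nat.exists_eq_add_of_le hAA
  have h := abel A (fun a => ((L - a * j : ℕ) : ℝ)) (fun a => ee (a * (γ * j))) L (bj A γ j)
    (bj_nonneg _ _ _) ?_ ?_ ?_ n ?_
  · simpa only [Complex.ofReal_natCast] using h
  · intro a
    have : L - (a + 1) * j ≤ L - a * j := by
      have : a * j ≤ (a + 1) * j := Nat.mul_le_mul_right j (by omega)
      omega
    exact_mod_cast this
  · intro a
    positivity
  · have : L - A * j ≤ L := by omega
    exact_mod_cast this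
  · intro k hk
    exact le_bj hGS A k γ j (by omega)

/-- the bound for a pair -/
noncomputable def GG (A L : ℕ) (γ : ℝ) (j : ℕ) : ℝ :=
  if L / A < j then 0 else L * bj A γ j

theorem GG_nonneg (A L : ℕ) (γ : ℝ) (j : ℕ) : 0 ≤ GG A L γ j := by
  unfold GG
  split_ifs
  · exact le_rfl
  · exact mul_nonneg (by positivity) (bj_nonneg _ _ _)

theorem pairG (hGS : tsGS) (A A' L : ℕ) (γ : ℝ) (j : ℕ) (hA : 1 ≤ A) (hAA : A ≤ A')
    (hA2 : A' ≤ 2 * A) :
    ‖∑ a ∈ Finset.Ioc A A', ((L - a * j : ℕ) : ℂ) * ee (a * (γ * j))‖ ≤ GG A L γ j := by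
  unfold GG
  split_ifs with h
  · have h0 : ∀ a ∈ Finset.Ioc A A', ((L - a * j : ℕ) : ℂ) * ee (a * (γ * j)) = 0 := by
      intro a ha
      rw [Finset.mem_Ioc] at ha
      have h1 : L < j * A := by
        rw [Nat.div_lt_iff_lt_mul (by omega)] at h
        exact h
      have h2 : j * A ≤ a * j := by
        rw [mul_comm j A]
        exact Nat.mul_le_mul_right j (by omega)
      have h3 : L - a * j = 0 := by omega
      rw [h3]
      simp
    rw [Finset.sum_eq_zero h0, norm_zero]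
  · exact pair hGS A A' L γ j hAA hA2

theorem ee_conj (x : ℝ) : conj (ee x) = ee (-x) := by
  unfold ee
  rw [← Complex.exp_conj, map_mul, Complex.conj_ofReal, Complex.conj_I]
  congr 1
  push_cast
  ring

theorem ee_add (x y : ℝ) : ee x * ee y = ee (x + y) := by
  unfold ee
  rw [← Complex.exp_add]
  congr 1
  push_cast
  ring

theorem pairmm (hGS : tsGS) (A A' L : ℕ) (γ : ℝ) (m m' : ℕ) (hA : 1 ≤ A) (hAA : A ≤ A')
    (hA2 : A' ≤ 2 * A) :
    ‖∑ a ∈ Finset.Ioc A A', (((L - a * ((m - m') + (m' - m)) : ℕ) : ℂ) *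
      (ee (((a * m : ℕ) : ℝ) * γ) * conj (ee (((a * m' : ℕ) : ℝ) * γ))))‖ ≤
      GG A L γ ((m - m') + (m' - m)) := by
  rcases le_total m' m with h | h
  · obtain ⟨j, rfl⟩ := Nat.exists_eq_add_of_le h
    have e1 : (m' + j - m') + (m' - (m' + j)) = j := by omega
    rw [e1]
    refine le_trans (le_of_eq ?_) (pairG hGS A A' L γ j hA hAA hA2)
    congr 1
    refine Finset.sum_congr rfl fun a _ => ?_
    rw [ee_conj, ee_add]
    congr 2
    push_cast
    ring
  · obtain ⟨j, rfl⟩ := Nat.exists_eq_add_of_le h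
    have e1 : (m - (m + j)) + (m + j - m) = j := by omega
    rw [e1]
    refine le_trans (le_of_eq ?_) (pairG hGS A A' L γ j hA hAA hA2)
    rw [← Complex.norm_conj, map_sum]
    congr 1
    refine Finset.sum_congr rfl fun a _ => ?_
    rw [map_mul, map_mul, Complex.conj_conj, Complex.conj_natCast, ee_conj, ee_add]
    congr 2
    push_cast
    ring

theorem sumone (M J m : ℕ) (G : ℕ → ℝ) (hG : ∀ j, 0 ≤ G j) (hJ : ∀ j, J < j → G j = 0) :
    ∑ m' ∈ Finset.Icc 1 M, G ((m - m') + (m' - m)) ≤ G 0 + 2 * ∑ j ∈ Finset.Icc 1 J, G j := by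
  have key : ∀ (s : Finset ℕ) (f : ℕ → ℕ), Set.InjOn f s → (∀ t ∈ s, 1 ≤ f t) →
      ∑ t ∈ s, G (f t) ≤ ∑ j ∈ Finset.Icc 1 J, G j := by
    intro s f hf h1
    rw [← Finset.sum_image (f := G) hf]
    have h2 : ∑ j ∈ s.image f, G j = ∑ j ∈ (s.image f).filter (· ≤ J), G j := by
      rw [Finset.sum_filter]
      refine Finset.sum_congr rfl fun j _ => ?_
      split_ifs with h
      · rfl
      · exact hJ j (by omega)
    rw [h2]
    refine Finset.sum_le_sum_of_subset_of_nonneg ?_ fun j _ _ => hG j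
    intro j hj
    rw [Finset.mem_filter, Finset.mem_image] at hj
    obtain ⟨⟨t, ht, rfl⟩, h3⟩ := hj
    rw [Finset.mem_Icc]
    exact ⟨h1 t ht, h3⟩
  have e1 : ∑ m' ∈ Finset.Icc 1 M, G ((m - m') + (m' - m)) =
      ∑ m' ∈ (Finset.Icc 1 M).filter (· < m), G ((m - m') + (m' - m)) +
      ∑ m' ∈ (Finset.Icc 1 M).filter (fun t => ¬ t < m), G ((m - m') + (m' - m)) :=
    (Finset.sum_filter_add_sum_filter_not _ _ _).symm
  have e2 : ∑ m' ∈ (Finset.Icc 1 M).filter (fun t => ¬ t < m), G ((m - m') + (m' - m)) =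
      ∑ m' ∈ ((Finset.Icc 1 M).filter (fun t => ¬ t < m)).filter (· = m),
        G ((m - m') + (m' - m)) +
      ∑ m' ∈ ((Finset.Icc 1 M).filter (fun t => ¬ t < m)).filter (fun t => ¬ t = m),
        G ((m - m') + (m' - m)) := (Finset.sum_filter_add_sum_filter_not _ _ _).symm
  have e3 : ∑ m' ∈ (Finset.Icc 1 M).filter (· < m), G ((m - m') + (m' - m)) ≤
      ∑ j ∈ Finset.Icc 1 J, G j := by
    refine key _ (fun m' => (m - m') + (m' - m)) ?_ ?_
    · intro u hu v hv huv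
      rw [Finset.mem_coe, Finset.mem_filter] at hu hv
      simp only at huv
      omega
    · intro t ht
      rw [Finset.mem_filter] at ht
      omega
  have e4 : ∑ m' ∈ ((Finset.Icc 1 M).filter (fun t => ¬ t < m)).filter (fun t => ¬ t = m),
        G ((m - m') + (m' - m)) ≤ ∑ j ∈ Finset.Icc 1 J, G j := by
    refine key _ (fun m' => (m - m') + (m' - m)) ?_ ?_
    · intro u hu v hv huv
      rw [Finset.mem_coe, Finset.mem_filter, Finset.mem_filter] at hu hv
      simp only at huv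
      omega
    · intro t ht
      rw [Finset.mem_filter, Finset.mem_filter] at ht
      omega
  have e5 : ∑ m' ∈ ((Finset.Icc 1 M).filter (fun t => ¬ t < m)).filter (· = m),
        G ((m - m') + (m' - m)) ≤ G 0 := by
    have h1 : ∑ m' ∈ ((Finset.Icc 1 M).filter (fun t => ¬ t < m)).filter (· = m),
        G ((m - m') + (m' - m)) ≤ ∑ m' ∈ {m}, G ((m - m') + (m' - m)) := by
      refine Finset.sum_le_sum_of_subset_of_nonneg ?_ fun j _ _ => hG _
      intro j hj
      rw [Finset.mem_filter] at hj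
      rw [Finset.mem_singleton]
      exact hj.2
    rw [Finset.sum_singleton] at h1
    have h2 : (m - m) + (m - m) = 0 := by omega
    rw [h2] at h1
    exact h1
  linarith

theorem blocks (hL2 : tsL2) (A q : ℕ) (b : ℤ) (γ : ℝ) (hq : 1 ≤ q) (hb : IsCoprime b (q : ℤ))
    (hγ : |γ - b / q| ≤ 1 / (q : ℝ) ^ 2) (n : ℕ) :
    ∑ j ∈ Finset.Ioc 0 (n * q), bj A γ j ≤ n * (6 * (A + q * (1 + Real.log q))) := by
  induction n with
  | zero => simp
  | succ n ih =>
    have e1 : (n + 1) * q = n * q + q := by ring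
    rw [e1, ← Finset.sum_Ioc_consecutive _ (Nat.zero_le (n * q)) (by omega : n * q ≤ n * q + q)]
    have h1 := hL2 γ b q (n * q) A (bj A γ) hq hb hγ (by positivity)
      (fun m _ => ⟨bj_nonneg _ _ _, bj_le _ _ _, bj_nn _ _ _⟩)
    push_cast
    linarith

end IV3

open IV3

theorem prV3 (hGS : tsGS) (hL2 : tsL2) : tsV3 := by
  refine ⟨13, by norm_num, ?_⟩
  intro A A' L q Z b γ D B hA hAA hA2 hAL hq hb hγ hB
  have hD : 0 ≤ D := le_trans (abs_nonneg _) (hB 0)
  have hA0 : (0 : ℝ) < A := by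
    have : (1 : ℝ) ≤ A := by exact_mod_cast hA
    linarith
  have hL0 : (0 : ℝ) < L := by
    have : (A : ℝ) ≤ L := by exact_mod_cast hAL
    linarith
  have hq0 : (0 : ℝ) < q := by
    have : (1 : ℝ) ≤ q := by exact_mod_cast hq
    linarith
  have hlq : 0 ≤ Real.log q := Real.log_natCast_nonneg q
  set M := Z / A with hM
  set N := Z + 1 + A' * M + L with hN
  set J := L / A with hJ
  -- Cauchy
  have s1 : ∑ x ∈ Finset.Icc L Z, ‖ws (fun n => ∑ m ∈ n.divisors.filter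
      (fun m => A * m < n ∧ n ≤ A' * m), B m) γ L x‖ ^ 2 ≤
      A * ∑ a ∈ Finset.Ioc A A', ∑ x ∈ Finset.range N, ‖TT B γ L M a x‖ ^ 2 := by
    calc ∑ x ∈ Finset.Icc L Z, ‖ws (fun n => ∑ m ∈ n.divisors.filter
          (fun m => A * m < n ∧ n ≤ A' * m), B m) γ L x‖ ^ 2
        ≤ ∑ x ∈ Finset.Icc L Z, (A : ℝ) * ∑ a ∈ Finset.Ioc A A', ‖TT B γ L M a x‖ ^ 2 := by
          refine Finset.sum_le_sum fun x hx => ?_
          rw [Finset.mem_Icc] at hx
          rw [split A A' L Z γ B hA x hx.1 hx.2]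
          have t1 : ‖∑ a ∈ Finset.Ioc A A', TT B γ L M a x‖ ^ 2 ≤
              (∑ a ∈ Finset.Ioc A A', ‖TT B γ L M a x‖) ^ 2 :=
            pow_le_pow_left₀ (norm_nonneg _) (norm_sum_le _ _) 2
          have t2 : (∑ a ∈ Finset.Ioc A A', ‖TT B γ L M a x‖) ^ 2 ≤
              (Finset.Ioc A A').card * ∑ a ∈ Finset.Ioc A A', ‖TT B γ L M a x‖ ^ 2 :=
            sq_sum_le_card_mul_sum_sq
          have t3 : ((Finset.Ioc A A').card : ℝ) ≤ A := by
            rw [Nat.card_Ioc]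
            have : A' - A ≤ A := by omega
            exact_mod_cast this
          exact le_trans t1 (le_trans t2 (mul_le_mul_of_nonneg_right t3
            (Finset.sum_nonneg fun a _ => by positivity)))
      _ = A * ∑ x ∈ Finset.Icc L Z, ∑ a ∈ Finset.Ioc A A', ‖TT B γ L M a x‖ ^ 2 := by
          rw [Finset.mul_sum]
      _ ≤ A * ∑ x ∈ Finset.range N, ∑ a ∈ Finset.Ioc A A', ‖TT B γ L M a x‖ ^ 2 := by
          refine mul_le_mul_of_nonneg_left ?_ hA0.le
          refine Finset.sum_le_sum_of_subset_of_nonneg ?_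
            fun x _ _ => Finset.sum_nonneg fun a _ => by positivity
          intro x hx
          rw [Finset.mem_Icc] at hx
          rw [Finset.mem_range]
          omega
      _ = A * ∑ a ∈ Finset.Ioc A A', ∑ x ∈ Finset.range N, ‖TT B γ L M a x‖ ^ 2 := by
          rw [Finset.sum_comm]
  -- expansion
  have s2 : ∑ a ∈ Finset.Ioc A A', ∑ x ∈ Finset.range N, ‖TT B γ L M a x‖ ^ 2 ≤
      D ^ 2 * ∑ m ∈ Finset.Icc 1 M, ∑ m' ∈ Finset.Icc 1 M, GG A L γ ((m - m') + (m' - m)) := by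
    have t0 : 0 ≤ ∑ a ∈ Finset.Ioc A A', ∑ x ∈ Finset.range N, ‖TT B γ L M a x‖ ^ 2 :=
      Finset.sum_nonneg fun a _ => Finset.sum_nonneg fun x _ => by positivity
    have t1 : ((∑ a ∈ Finset.Ioc A A', ∑ x ∈ Finset.range N, ‖TT B γ L M a x‖ ^ 2 : ℝ) : ℂ) =
        ∑ m ∈ Finset.Icc 1 M, ∑ m' ∈ Finset.Icc 1 M, (B m : ℂ) * (B m' : ℂ) *
          ∑ a ∈ Finset.Ioc A A', (((L - a * ((m - m') + (m' - m)) : ℕ) : ℂ) *
          (ee (((a * m : ℕ) : ℝ) * γ) * conj (ee (((a * m' : ℕ) : ℝ) * γ)))) := by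
      rw [Complex.ofReal_sum]
      have t2 : ∀ a ∈ Finset.Ioc A A',
          ((∑ x ∈ Finset.range N, ‖TT B γ L M a x‖ ^ 2 : ℝ) : ℂ) =
          ∑ m ∈ Finset.Icc 1 M, ∑ m' ∈ Finset.Icc 1 M, (B m : ℂ) * (B m' : ℂ) *
          (((L - a * ((m - m') + (m' - m)) : ℕ) : ℂ) *
            (ee (((a * m : ℕ) : ℝ) * γ) * conj (ee (((a * m' : ℕ) : ℝ) * γ)))) := by
        intro a ha
        rw [Finset.mem_Ioc] at ha
        refine sq_sum B γ L M a N ?_
        have : a * M ≤ A' * M := Nat.mul_le_mul_right M ha.2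
        omega
      rw [Finset.sum_congr rfl t2, Finset.sum_comm]
      refine Finset.sum_congr rfl fun m _ => ?_
      rw [Finset.sum_comm]
      refine Finset.sum_congr rfl fun m' _ => ?_
      rw [Finset.mul_sum]
    have t3 : ∑ a ∈ Finset.Ioc A A', ∑ x ∈ Finset.range N, ‖TT B γ L M a x‖ ^ 2 =
        ‖((∑ a ∈ Finset.Ioc A A', ∑ x ∈ Finset.range N, ‖TT B γ L M a x‖ ^ 2 : ℝ) : ℂ)‖ := by
      rw [Complex.norm_real, Real.norm_eq_abs, abs_of_nonneg t0]
    rw [t3, t1, Finset.mul_sum]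
    refine le_trans (norm_sum_le _ _) (Finset.sum_le_sum fun m _ => ?_)
    rw [Finset.mul_sum]
    refine le_trans (norm_sum_le _ _) (Finset.sum_le_sum fun m' _ => ?_)
    rw [norm_mul, norm_mul, Complex.norm_real, Complex.norm_real, Real.norm_eq_abs,
      Real.norm_eq_abs]
    have t4 : |B m| * |B m'| ≤ D ^ 2 := by
      rw [sq]
      exact mul_le_mul (hB m) (hB m') (abs_nonneg _) hD
    exact mul_le_mul t4 (pairmm hGS A A' L γ m m' hA hAA hA2) (norm_nonneg _) (by positivity)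
  have s3 : ∑ m ∈ Finset.Icc 1 M, ∑ m' ∈ Finset.Icc 1 M, GG A L γ ((m - m') + (m' - m)) ≤
      M * (L * (A + 2 * ((J / q + 1 : ℕ) * (6 * (A + q * (1 + Real.log q)))))) := by
    have t1 : ∀ m ∈ Finset.Icc 1 M, ∑ m' ∈ Finset.Icc 1 M, GG A L γ ((m - m') + (m' - m)) ≤
        L * (A + 2 * ((J / q + 1 : ℕ) * (6 * (A + q * (1 + Real.log q))))) := by
      intro m _
      refine le_trans (sumone M J m (GG A L γ) (GG_nonneg A L γ) ?_) ?_
      · intro j hj
        unfold GG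
        rw [if_pos hj]
      · have u1 : GG A L γ 0 ≤ L * A := by
          unfold GG
          rw [if_neg (Nat.not_lt_zero _)]
          exact mul_le_mul_of_nonneg_left (bj_le _ _ _) hL0.le
        have u2 : ∑ j ∈ Finset.Icc 1 J, GG A L γ j ≤ L * ∑ j ∈ Finset.Ioc 0 ((J / q + 1) * q),
            bj A γ j := by
          rw [Finset.mul_sum]
          have u3 : ∑ j ∈ Finset.Icc 1 J, GG A L γ j ≤ ∑ j ∈ Finset.Icc 1 J, L * bj A γ j := by
            refine Finset.sum_le_sum fun j _ => ?_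
            unfold GG
            split_ifs
            · exact mul_nonneg hL0.le (bj_nonneg _ _ _)
            · exact le_rfl
          refine le_trans u3 (Finset.sum_le_sum_of_subset_of_nonneg ?_
            fun j _ _ => mul_nonneg hL0.le (bj_nonneg _ _ _))
          intro j hj
          rw [Finset.mem_Icc] at hj
          rw [Finset.mem_Ioc]
          refine ⟨by omega, ?_⟩
          have u4 : J < (J / q + 1) * q := by
            have := Nat.lt_div_mul_add (a := J) (b := q) (by omega)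
            rw [add_mul, one_mul]
            exact this
          omega
        have u5 := blocks hL2 A q b γ hq hb hγ (J / q + 1)
        have u6 := mul_le_mul_of_nonneg_left u5 hL0.le
        linarith
    refine le_trans (Finset.sum_le_sum t1) ?_
    rw [Finset.sum_const, Nat.card_Icc, nsmul_eq_mul]
    simp
  have s4 : ((J / q + 1 : ℕ) : ℝ) ≤ L / (A * q) + 1 := by
    push_cast
    have t1 : ((J / q : ℕ) : ℝ) ≤ (J : ℝ) / q := Nat.cast_div_le
    have t2 : ((J : ℕ) : ℝ) ≤ (L : ℝ) / A := Nat.cast_div_le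
    have t3 : (J : ℝ) / q ≤ (L : ℝ) / A / q := div_le_div_of_nonneg_right t2 hq0.le
    rw [div_div] at t3
    linarith
  have s5 : (M : ℝ) * A ≤ Z := by
    have : M * A ≤ Z := Nat.div_mul_le_self Z A
    exact_mod_cast this
  set ℓ := 1 + Real.log q with hℓ
  have hℓ1 : 1 ≤ ℓ := by linarith
  have s6 : (L : ℝ) * (A + 2 * ((J / q + 1 : ℕ) * (6 * (A + q * ℓ)))) ≤
      13 * (L : ℝ) ^ 2 * ℓ * (1 / (A : ℝ) + (A : ℝ) / L + 1 / (q : ℝ) + (q : ℝ) / L) := by
    have t1 : (L : ℝ) * (A + 2 * ((J / q + 1 : ℕ) * (6 * (A + q * ℓ)))) ≤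
        (L : ℝ) * (A + 2 * ((L / (A * q) + 1) * (6 * (A + q * ℓ)))) := by
      have : (0 : ℝ) ≤ 6 * (A + q * ℓ) := by positivity
      have := mul_le_mul_of_nonneg_right s4 this
      refine mul_le_mul_of_nonneg_left ?_ hL0.le
      linarith
    refine le_trans t1 ?_
    have t2 : (L : ℝ) * (A + 2 * ((L / (A * q) + 1) * (6 * (A + q * ℓ)))) =
        (L : ℝ) ^ 2 * (13 * ((A : ℝ) / L) + 12 * (1 / (q : ℝ)) + 12 * (ℓ * (1 / (A : ℝ))) +
          12 * (ℓ * ((q : ℝ) / L))) := by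
      field_simp
      ring
    rw [t2]
    have v1 : (A : ℝ) / L ≤ ℓ * ((A : ℝ) / L) := le_mul_of_one_le_left (by positivity) hℓ1
    have v2 : 1 / (q : ℝ) ≤ ℓ * (1 / (q : ℝ)) := le_mul_of_one_le_left (by positivity) hℓ1
    have v3 : 0 ≤ ℓ * (1 / (A : ℝ)) := by positivity
    have v4 : 0 ≤ ℓ * ((q : ℝ) / L) := by positivity
    have v5 : 0 ≤ ℓ * (1 / (q : ℝ)) := by positivity
    have t3 : 13 * (L : ℝ) ^ 2 * ℓ * (1 / (A : ℝ) + (A : ℝ) / L + 1 / (q : ℝ) + (q : ℝ) / L) =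
        (L : ℝ) ^ 2 * (13 * (ℓ * ((A : ℝ) / L)) + 13 * (ℓ * (1 / (q : ℝ))) +
          13 * (ℓ * (1 / (A : ℝ))) + 13 * (ℓ * ((q : ℝ) / L))) := by ring
    rw [t3]
    refine mul_le_mul_of_nonneg_left ?_ (by positivity)
    linarith
  calc ∑ x ∈ Finset.Icc L Z, ‖ws (fun n => ∑ m ∈ n.divisors.filter
        (fun m => A * m < n ∧ n ≤ A' * m), B m) γ L x‖ ^ 2
      ≤ A * ∑ a ∈ Finset.Ioc A A', ∑ x ∈ Finset.range N, ‖TT B γ L M a x‖ ^ 2 := s1
    _ ≤ A * (D ^ 2 * (M * (L * (A + 2 * ((J / q + 1 : ℕ) * (6 * (A + q * ℓ))))))) := by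
        refine mul_le_mul_of_nonneg_left (le_trans s2 ?_) hA0.le
        exact mul_le_mul_of_nonneg_left s3 (by positivity)
    _ = (M * A) * (D ^ 2 * (L * (A + 2 * ((J / q + 1 : ℕ) * (6 * (A + q * ℓ)))))) := by ring
    _ ≤ Z * (D ^ 2 * (13 * (L : ℝ) ^ 2 * ℓ *
          (1 / (A : ℝ) + (A : ℝ) / L + 1 / (q : ℝ) + (q : ℝ) / L))) := by
        refine mul_le_mul s5 (mul_le_mul_of_nonneg_left s6 (by positivity)) ?_ (by positivity)
        positivity
    _ = 13 * D ^ 2 * Z * (L : ℝ) ^ 2 * ℓ *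
          (1 / (A : ℝ) + (A : ℝ) / L + 1 / (q : ℝ) + (q : ℝ) / L) := by ring

end Pool.Agent.Work.MP_122e00_nt.TS
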