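import Pool.Agent.Work.MP_122e00_nt.TS.Stmts5

/-!
# Thin shifts, item V4: medium variables, minor arcs

Author: helper5.
-/

set_option autoImplicit false

namespace Pool.Agent.Work.MP_122e00_nt.TS

open Finset Filter Topology ArithmeticFunction MeasureTheory
open scoped ArithmeticFunction.zeta ArithmeticFunction.Moebius

namespace IV4

theorem tele {M : Type} [AddCommMonoid M] (c : ℕ → ℕ) (hc : Monotone c) (n : ℕ) (v : M) (I : ℕ) :
    ∑ i ∈ Finset.range I, (if c i < n ∧ n ≤ c (i + 1) then v else 0) =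
      if c 0 < n ∧ n ≤ c I then v else 0 := by
  induction I with
  | zero =>
    rw [Finset.sum_range_zero, if_neg]
    omega
  | succ I ih =>
    rw [Finset.sum_range_succ, ih]
    have h1 : c 0 ≤ c I := hc (Nat.zero_le _)
    have h2 : c I ≤ c (I + 1) := hc (Nat.le_succ _)
    by_cases h : n ≤ c I
    · by_cases h0 : c 0 < n
      · rw [if_pos ⟨h0, h⟩, if_neg (by omega), if_pos ⟨h0, by omega⟩, add_zero]
      · rw [if_neg (by omega), if_neg (by omega), if_neg (by omega), add_zero]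
    · by_cases h0 : n ≤ c (I + 1)
      · rw [if_neg (by omega), if_pos ⟨by omega, h0⟩, if_pos ⟨by omega, h0⟩, zero_add]
      · rw [if_neg (by omega), if_neg (by omega), if_neg (by omega), add_zero]

/-- the end points of the dyadic ranges -/
def As (a w i : ℕ) : ℕ := min (2 ^ i * a) w

theorem As_mono (a w : ℕ) : Monotone (As a w) := by
  intro i j hij
  exact min_le_min_right _ (Nat.mul_le_mul_right _ (Nat.pow_le_pow_right (by norm_num) hij))

theorem As_zero {a w : ℕ} (h : a ≤ w) : As a w 0 = a := by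
  simp [As, h]

theorem As_top {a w I : ℕ} (h : w ≤ 2 ^ I * a) : As a w I = w := by
  simp [As, h]

theorem As_succ (a w i : ℕ) : As a w (i + 1) ≤ 2 * As a w i := by
  unfold As
  rw [pow_succ]
  rcases le_total (2 ^ i * a) w with h | h
  · rw [min_eq_left h]
    exact (min_le_left _ _).trans (by nlinarith)
  · rw [min_eq_right h]
    exact (min_le_right _ _).trans (by omega)

theorem le_As {a w : ℕ} (h : a ≤ w) (i : ℕ) : a ≤ As a w i := by
  have := As_mono a w (Nat.zero_le i)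
  rwa [As_zero h] at this

theorem T2_eq (B : ℕ → ℝ) {z w : ℝ} (hz : 0 ≤ z) (hw : 0 ≤ w) (n : ℕ) :
    T2 B z w n = ∑ m ∈ n.divisors.filter (fun m => ⌊z⌋₊ * m < n ∧ n ≤ ⌊w⌋₊ * m), B m := by
  unfold T2
  refine Finset.sum_congr (Finset.filter_congr ?_) (fun _ _ => rfl)
  intro m hm
  obtain ⟨a, rfl⟩ := Nat.dvd_of_mem_divisors hm
  have hm0 : 0 < m := Nat.pos_of_mem_divisors hm
  have hmR : (0 : ℝ) < m := by exact_mod_cast hm0
  have e1 : (m : ℝ) * z < ((m * a : ℕ) : ℝ) ↔ ⌊z⌋₊ * m < m * a := by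
    rw [Nat.cast_mul, mul_lt_mul_iff_right₀ hmR, ← Nat.floor_lt hz, mul_comm ⌊z⌋₊ m,
      Nat.mul_lt_mul_left hm0]
  have e2 : ((m * a : ℕ) : ℝ) ≤ m * w ↔ m * a ≤ ⌊w⌋₊ * m := by
    rw [Nat.cast_mul, mul_le_mul_iff_right₀ hmR, ← Nat.le_floor_iff hw, mul_comm ⌊w⌋₊ m,
      Nat.mul_le_mul_left_iff hm0]
  exact and_congr e1 e2

theorem dec (B : ℕ → ℝ) {a w I : ℕ} (h1 : a ≤ w) (h2 : w ≤ 2 ^ I * a) (n : ℕ) :
    ∑ m ∈ n.divisors.filter (fun m => a * m < n ∧ n ≤ w * m), B m =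
      ∑ i ∈ Finset.range I, ∑ m ∈ n.divisors.filter
        (fun m => As a w i * m < n ∧ n ≤ As a w (i + 1) * m), B m := by
  simp_rw [Finset.sum_filter]
  rw [Finset.sum_comm]
  refine Finset.sum_congr rfl fun m _ => ?_
  have := tele (fun i => As a w i * m) (fun i j hij => Nat.mul_le_mul_right _ (As_mono a w hij))
    n (B m) I
  simp only [As_zero h1, As_top h2] at this
  exact this.symm

theorem ws_sum {f : ℕ → ℝ} {g : ℕ → ℕ → ℝ} {I : ℕ} (γ : ℝ) (L x : ℕ)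
    (h : ∀ n ∈ Finset.Ioc (x - L) x, f n = ∑ i ∈ Finset.range I, g i n) :
    ws f γ L x = ∑ i ∈ Finset.range I, ws (g i) γ L x := by
  unfold ws
  rw [Finset.sum_comm]
  refine Finset.sum_congr rfl fun n hn => ?_
  rw [h n hn]
  push_cast
  rw [Finset.sum_mul]

theorem norm_sq_sum_le (I : ℕ) (f : ℕ → ℂ) :
    ‖∑ i ∈ Finset.range I, f i‖ ^ 2 ≤ I * ∑ i ∈ Finset.range I, ‖f i‖ ^ 2 := by
  have h1 : ‖∑ i ∈ Finset.range I, f i‖ ≤ ∑ i ∈ Finset.range I, ‖f i‖ := norm_sum_le _ _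
  have h2 : (∑ i ∈ Finset.range I, ‖f i‖) ^ 2 ≤
      (Finset.range I).card * ∑ i ∈ Finset.range I, ‖f i‖ ^ 2 := sq_sum_le_card_mul_sum_sq
  rw [Finset.card_range] at h2
  exact (pow_le_pow_left₀ (norm_nonneg _) h1 2).trans h2

theorem dr_zero (r : ℕ) : dr r 0 = 0 := by
  simp [dr]

theorem clog_le {X : ℝ} {w : ℕ} (hX : 1 ≤ X) (hw : (w : ℝ) ≤ X) :
    ((Nat.clog 2 w : ℕ) : ℝ) ≤ 1 + 2 * Real.log X := by
  have hl : 0 ≤ Real.log X := Real.log_nonneg hX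
  rcases Nat.lt_or_ge 1 w with h | h
  · have h1 := Nat.pow_pred_clog_lt_self (b := 2) (by norm_num) h
    have h2 : ((2 : ℝ) ^ (Nat.clog 2 w).pred) ≤ X := by
      have h3 : ((2 ^ (Nat.clog 2 w).pred : ℕ) : ℝ) ≤ w := by exact_mod_cast h1.le
      push_cast at h3
      exact h3.trans hw
    have h4 := Real.log_le_log (by positivity) h2
    rw [Real.log_pow] at h4
    have h5 := Real.log_two_gt_d9
    have h6 : (0 : ℝ) ≤ ((Nat.clog 2 w).pred : ℕ) := Nat.cast_nonneg _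
    have h7 : ((Nat.clog 2 w : ℕ) : ℝ) ≤ ((Nat.clog 2 w).pred : ℕ) + 1 := by
      exact_mod_cast (by rw [Nat.pred_eq_sub_one]; omega :
        Nat.clog 2 w ≤ (Nat.clog 2 w).pred + 1)
    nlinarith
  · rw [Nat.clog_of_right_le_one h]
    push_cast
    linarith

/-- the final computation -/
theorem fin_calc {X s η C3 E I Z L lq : ℝ} (hX : 1 ≤ X) (hη : 0 < η) (hs : s = η / 24)
    (hC3 : 0 < C3) (hE : 0 ≤ E) (hI0 : 0 ≤ I) (hI : I ≤ X ^ s) (hZ0 : 0 ≤ Z) (hZ : Z ≤ 3 * X)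
    (hl0 : 0 ≤ lq) (hl : lq ≤ X ^ s) (hK : C3 * E ^ 2 * 15 ≤ X ^ s) :
    I * (I * (C3 * (E * X ^ s) ^ 2 * Z * L ^ 2 * lq * (5 * X ^ (-η)))) ≤ L ^ 2 * X ^ (1 - η / 2) := by
  have hX0 : 0 < X := by linarith
  have hs0 : 0 < s := by rw [hs]; positivity
  have p0 : 0 ≤ X ^ s := (Real.rpow_pos_of_pos hX0 s).le
  have p1 : 0 ≤ X ^ (-η) := (Real.rpow_pos_of_pos hX0 _).le
  have hL : 0 ≤ L ^ 2 := sq_nonneg L
  calc I * (I * (C3 * (E * X ^ s) ^ 2 * Z * L ^ 2 * lq * (5 * X ^ (-η))))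
      ≤ X ^ s * (X ^ s * (C3 * (E * X ^ s) ^ 2 * (3 * X) * L ^ 2 * X ^ s * (5 * X ^ (-η)))) := by
        gcongr
    _ = L ^ 2 * ((C3 * E ^ 2 * 15) * (X ^ s) ^ 5 * X * X ^ (-η)) := by ring
    _ ≤ L ^ 2 * (X ^ s * (X ^ s) ^ 5 * X * X ^ (-η)) := by
        gcongr
    _ = L ^ 2 * X ^ (6 * s + 1 - η) := by
        congr 1
        have e1 : X ^ s * (X ^ s) ^ 5 = X ^ (6 * s) := by
          rw [← pow_succ', ← Real.rpow_natCast, ← Real.rpow_mul hX0.le]
          congr 1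
          push_cast
          ring
        rw [e1, sub_eq_add_neg, Real.rpow_add hX0, Real.rpow_add hX0, Real.rpow_one]
    _ ≤ L ^ 2 * X ^ (1 - η / 2) := by
        apply mul_le_mul_of_nonneg_left _ hL
        apply Real.rpow_le_rpow_of_exponent_le hX
        rw [hs]
        linarith

theorem ev_log (s : ℝ) (hs : 0 < s) :
    ∀ᶠ X : ℝ in atTop, 1 + 2 * Real.log X ≤ X ^ s ∧ 1 + Real.log (3 * X) ≤ X ^ s := by
  have h1 := (isLittleO_log_rpow_atTop hs).def (show (0 : ℝ) < 1 / 8 by norm_num)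
  have h2 : ∀ᶠ X : ℝ in atTop, 8 * (3 : ℝ) ≤ X ^ s :=
    (tendsto_rpow_atTop hs).eventually_ge_atTop _
  filter_upwards [h1, h2, eventually_ge_atTop (1 : ℝ)] with X h3 h4 h5
  have h6 : 0 ≤ Real.log X := Real.log_nonneg h5
  have h7 : 0 < X ^ s := Real.rpow_pos_of_pos (by linarith) s
  rw [Real.norm_of_nonneg h6, Real.norm_of_nonneg h7.le] at h3
  have h8 : Real.log (3 * X) = Real.log 3 + Real.log X :=
    Real.log_mul (by norm_num) (by linarith)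
  have h9 : Real.log 3 ≤ 3 - 1 := Real.log_le_sub_one_of_pos (by norm_num)
  constructor
  · linarith
  · rw [h8]
    linarith

end IV4

theorem prV4 (hL0 : tsL0) (hV3 : tsV3) : tsV4 := by
  intro r ε₁ δ₂ hr hε₁ hε₁' hδ₂ hδ₂'
  obtain ⟨C3, hC3, hV⟩ := hV3
  obtain ⟨η, hηdef⟩ : ∃ η : ℝ, η = min ε₁ δ₂ := ⟨_, rfl⟩
  have hη : 0 < η := by rw [hηdef]; exact lt_min hε₁ hδ₂
  have hη1 : η ≤ ε₁ := by rw [hηdef]; exact min_le_left _ _
  have hη2 : η ≤ δ₂ := by rw [hηdef]; exact min_le_right _ _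
  obtain ⟨s, hs⟩ : ∃ s : ℝ, s = η / 24 := ⟨_, rfl⟩
  have hs0 : 0 < s := by rw [hs]; positivity
  obtain ⟨C, hC, hd⟩ := hL0 r s hs0
  obtain ⟨E, hE⟩ : ∃ E : ℝ, E = r * C * 3 ^ s := ⟨_, rfl⟩
  have hE0 : 0 ≤ E := by rw [hE]; positivity
  have hr1 : (2 : ℝ) ≤ r := by exact_mod_cast hr
  have hε₁1 : ε₁ ≤ 1 / 48 := by
    refine hε₁'.trans ?_
    apply one_div_le_one_div_of_le (by norm_num)
    linarith
  obtain ⟨X0, hX0⟩ := eventually_atTop.1 (((IV4.ev_log s hs0).and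
    ((tendsto_rpow_atTop hs0).eventually_ge_atTop (C3 * E ^ 2 * 15))).and
      (eventually_ge_atTop (1 : ℝ)))
  refine ⟨η / 2, X0, by positivity, ?_⟩
  intro X hX B hB L q b γ hL1 hL2 hq1 hq2 hbq hγ
  obtain ⟨⟨⟨hlog1, hlog2⟩, hK⟩, hX1⟩ := hX0 X hX
  have hXpos : 0 < X := by linarith
  -- the end points
  obtain ⟨a, ha⟩ : ∃ a : ℕ, a = ⌊X ^ ε₁⌋₊ := ⟨_, rfl⟩
  obtain ⟨w, hw⟩ : ∃ w : ℕ, w = ⌊X ^ (1 / 3 + ε₁)⌋₊ := ⟨_, rfl⟩
  have hz1 : 1 ≤ X ^ ε₁ := Real.one_le_rpow hX1 hε₁.le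
  have ha1 : 1 ≤ a := by
    rw [ha]
    exact (Nat.le_floor_iff' one_ne_zero).2 (by exact_mod_cast hz1)
  have ha2 : X ^ ε₁ ≤ 2 * (a : ℝ) := by
    have h1 := Nat.lt_floor_add_one (X ^ ε₁)
    rw [← ha] at h1
    have h2 : (1 : ℝ) ≤ a := by exact_mod_cast ha1
    linarith
  have haw : a ≤ w := by
    rw [ha, hw]
    exact Nat.floor_le_floor (Real.rpow_le_rpow_of_exponent_le hX1 (by linarith))
  have hwle : (w : ℝ) ≤ X ^ (1 / 3 + ε₁) := by
    rw [hw]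
    exact Nat.floor_le (Real.rpow_nonneg hXpos.le _)
  have hwX : (w : ℝ) ≤ X := by
    refine hwle.trans ?_
    calc X ^ (1 / 3 + ε₁) ≤ X ^ (1 : ℝ) := Real.rpow_le_rpow_of_exponent_le hX1 (by linarith)
      _ = X := Real.rpow_one X
  obtain ⟨I, hI⟩ : ∃ I : ℕ, I = Nat.clog 2 w := ⟨_, rfl⟩
  have hIw : w ≤ 2 ^ I * a := by
    rw [hI]
    have h1 := Nat.le_pow_clog (b := 2) (by norm_num) w
    calc w ≤ 2 ^ Nat.clog 2 w * 1 := by rw [mul_one]; exact h1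
      _ ≤ 2 ^ Nat.clog 2 w * a := Nat.mul_le_mul_left _ ha1
  have hIlog : (I : ℝ) ≤ X ^ s := by
    rw [hI]
    exact (IV4.clog_le hX1 hwX).trans hlog1
  obtain ⟨Z, hZ⟩ : ∃ Z : ℕ, Z = ⌊3 * X⌋₊ := ⟨_, rfl⟩
  have hZle : (Z : ℝ) ≤ 3 * X := by
    rw [hZ]
    exact Nat.floor_le (by linarith)
  -- the truncated weights
  obtain ⟨B', hB'⟩ : ∃ B' : ℕ → ℝ, ∀ m, B' m = if m ≤ Z then B m else 0 := ⟨_, fun _ => rfl⟩
  have hD : ∀ m, |B' m| ≤ E * X ^ s := by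
    intro m
    have hD0 : 0 ≤ E * X ^ s := mul_nonneg hE0 (Real.rpow_nonneg hXpos.le _)
    rw [hB']
    split_ifs with h
    · rw [abs_of_nonneg (hB m).1]
      rcases Nat.eq_zero_or_pos m with h0 | h0
      · have h1 := (hB m).2
        rw [h0, IV4.dr_zero, mul_zero] at h1
        rw [h0]
        exact h1.trans hD0
      · have h1 := (hB m).2
        have h2 := hd m h0
        have h3 : (m : ℝ) ^ s ≤ (3 * X) ^ s := by
          apply Real.rpow_le_rpow (Nat.cast_nonneg m) _ hs0.le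
          have h4 : (m : ℝ) ≤ Z := by exact_mod_cast h
          exact h4.trans hZle
        rw [Real.mul_rpow (by norm_num) hXpos.le] at h3
        calc B m ≤ r * dr r m := h1
          _ ≤ r * (C * (m : ℝ) ^ s) := by gcongr
          _ ≤ r * (C * (3 ^ s * X ^ s)) := by gcongr
          _ = E * X ^ s := by rw [hE]; ring
    · rw [abs_zero]
      exact hD0
  -- the decomposition
  have hdec : ∀ x ∈ Finset.Icc L Z, ws (T2 B (X ^ ε₁) (X ^ (1 / 3 + ε₁))) γ L x =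
      ∑ i ∈ Finset.range I, ws (fun n => ∑ m ∈ n.divisors.filter
        (fun m => IV4.As a w i * m < n ∧ n ≤ IV4.As a w (i + 1) * m), B' m) γ L x := by
    intro x hx
    apply IV4.ws_sum
    intro n hn
    have hnZ : n ≤ Z := (Finset.mem_Ioc.1 hn).2.trans (Finset.mem_Icc.1 hx).2
    rw [IV4.T2_eq B (Real.rpow_nonneg hXpos.le _) (Real.rpow_nonneg hXpos.le _), ← ha, ← hw,
      ← IV4.dec B' haw hIw n]
    refine Finset.sum_congr rfl fun m hm => ?_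
    rw [hB', if_pos]
    exact (Nat.divisor_le (Finset.mem_filter.1 hm).1).trans hnZ
  -- sizes
  have hLpos : (0 : ℝ) < L := lt_of_lt_of_le (Real.rpow_pos_of_pos hXpos _) hL1
  have hqpos : (0 : ℝ) < q := lt_of_lt_of_le (Real.rpow_pos_of_pos hXpos _) hq1
  have hq1' : 1 ≤ q := by
    have : 0 < q := by exact_mod_cast hqpos
    omega
  have hq1R : (1 : ℝ) ≤ q := by exact_mod_cast hq1'
  have hlq : 1 + Real.log q ≤ X ^ s := by
    have h1 : (q : ℝ) ≤ 3 * X := by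
      have h2 : X ^ (-δ₂) ≤ 1 := Real.rpow_le_one_of_one_le_of_nonpos hX1 (by linarith)
      calc (q : ℝ) ≤ L * X ^ (-δ₂) := hq2
        _ ≤ L * 1 := by gcongr
        _ ≤ 3 * X := by linarith
    have h2 := Real.log_le_log hqpos h1
    linarith
  have hone : ∀ i, 1 / (IV4.As a w i : ℝ) + (IV4.As a w i : ℝ) / L + 1 / (q : ℝ) + (q : ℝ) / L ≤
      5 * X ^ (-η) := by
    intro i
    have hAi : (a : ℝ) ≤ IV4.As a w i := by exact_mod_cast IV4.le_As haw i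
    have haR : (1 : ℝ) ≤ a := by exact_mod_cast ha1
    have hAw : (IV4.As a w i : ℝ) ≤ w := by exact_mod_cast min_le_right _ _
    have k1 : 1 / (IV4.As a w i : ℝ) ≤ 2 * X ^ (-η) := by
      have h1 : 1 / (IV4.As a w i : ℝ) ≤ 1 / a := one_div_le_one_div_of_le (by linarith) hAi
      have h2 : 1 / (a : ℝ) ≤ 2 * X ^ (-ε₁) := by
        rw [Real.rpow_neg hXpos.le, div_le_iff₀ (by linarith), mul_assoc, mul_comm _ (a : ℝ),
          ← mul_assoc, ← div_eq_mul_inv, le_div_iff₀ (by positivity)]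
        linarith
      have h3 : X ^ (-ε₁) ≤ X ^ (-η) := Real.rpow_le_rpow_of_exponent_le hX1 (by linarith)
      linarith
    have k2 : (IV4.As a w i : ℝ) / L ≤ X ^ (-η) := by
      rw [div_le_iff₀ hLpos]
      calc (IV4.As a w i : ℝ) ≤ X ^ (1 / 3 + ε₁) := hAw.trans hwle
        _ = X ^ (-ε₁) * X ^ (1 / 3 + 2 * ε₁) := by
            rw [← Real.rpow_add hXpos]
            congr 1
            ring
        _ ≤ X ^ (-η) * L := by
            apply mul_le_mul _ hL1 (Real.rpow_nonneg hXpos.le _) (Real.rpow_nonneg hXpos.le _)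
            exact Real.rpow_le_rpow_of_exponent_le hX1 (by linarith)
    have k3 : 1 / (q : ℝ) ≤ X ^ (-η) := by
      have h1 : 1 / (q : ℝ) ≤ 1 / X ^ δ₂ :=
        one_div_le_one_div_of_le (Real.rpow_pos_of_pos hXpos _) hq1
      rw [one_div (X ^ δ₂), ← Real.rpow_neg hXpos.le] at h1
      exact h1.trans (Real.rpow_le_rpow_of_exponent_le hX1 (by linarith))
    have k4 : (q : ℝ) / L ≤ X ^ (-η) := by
      rw [div_le_iff₀ hLpos]
      calc (q : ℝ) ≤ L * X ^ (-δ₂) := hq2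
        _ ≤ L * X ^ (-η) := by
            apply mul_le_mul_of_nonneg_left _ hLpos.le
            exact Real.rpow_le_rpow_of_exponent_le hX1 (by linarith)
        _ = X ^ (-η) * L := mul_comm _ _
    linarith
  have hlq0 : 0 ≤ 1 + Real.log q := by
    have := Real.log_nonneg hq1R
    linarith
  have hpiece : ∀ i ∈ Finset.range I, ∑ x ∈ Finset.Icc L Z,
      ‖ws (fun n => ∑ m ∈ n.divisors.filter
        (fun m => IV4.As a w i * m < n ∧ n ≤ IV4.As a w (i + 1) * m), B' m) γ L x‖ ^ 2 ≤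
      C3 * (E * X ^ s) ^ 2 * Z * (L : ℝ) ^ 2 * (1 + Real.log q) * (5 * X ^ (-η)) := by
    intro i _
    have hAL : IV4.As a w i ≤ L := by
      have h1 : (IV4.As a w i : ℝ) ≤ w := by exact_mod_cast min_le_right _ _
      have h2 : X ^ (1 / 3 + ε₁) ≤ X ^ (1 / 3 + 2 * ε₁) :=
        Real.rpow_le_rpow_of_exponent_le hX1 (by linarith)
      exact_mod_cast ((h1.trans hwle).trans h2).trans hL1
    refine (hV (IV4.As a w i) (IV4.As a w (i + 1)) L q Z b γ (E * X ^ s) B'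
      (ha1.trans (IV4.le_As haw i)) (IV4.As_mono a w (Nat.le_succ i)) (IV4.As_succ a w i) hAL
      hq1' hbq hγ hD).trans ?_
    apply mul_le_mul_of_nonneg_left (hone i)
    positivity
  rw [← hZ]
  calc ∑ x ∈ Finset.Icc L Z, ‖ws (T2 B (X ^ ε₁) (X ^ (1 / 3 + ε₁))) γ L x‖ ^ 2
      ≤ ∑ x ∈ Finset.Icc L Z, (I : ℝ) * ∑ i ∈ Finset.range I, ‖ws (fun n => ∑ m ∈ n.divisors.filter
        (fun m => IV4.As a w i * m < n ∧ n ≤ IV4.As a w (i + 1) * m), B' m) γ L x‖ ^ 2 := by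
        refine Finset.sum_le_sum fun x hx => ?_
        rw [hdec x hx]
        exact IV4.norm_sq_sum_le I _
    _ = (I : ℝ) * ∑ i ∈ Finset.range I, ∑ x ∈ Finset.Icc L Z,
        ‖ws (fun n => ∑ m ∈ n.divisors.filter
        (fun m => IV4.As a w i * m < n ∧ n ≤ IV4.As a w (i + 1) * m), B' m) γ L x‖ ^ 2 := by
        rw [← Finset.mul_sum, Finset.sum_comm]
    _ ≤ (I : ℝ) * ∑ i ∈ Finset.range I,
        (C3 * (E * X ^ s) ^ 2 * Z * (L : ℝ) ^ 2 * (1 + Real.log q) * (5 * X ^ (-η))) := by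
        apply mul_le_mul_of_nonneg_left _ (Nat.cast_nonneg I)
        exact Finset.sum_le_sum hpiece
    _ = (I : ℝ) * ((I : ℝ) * (C3 * (E * X ^ s) ^ 2 * Z * (L : ℝ) ^ 2 * (1 + Real.log q) *
          (5 * X ^ (-η)))) := by
        rw [Finset.sum_const, Finset.card_range, nsmul_eq_mul]
    _ ≤ (L : ℝ) ^ 2 * X ^ (1 - η / 2) :=
        IV4.fin_calc hX1 hη hs hC3 hE0 (Nat.cast_nonneg I) hIlog (Nat.cast_nonneg Z) hZle hlq0 hlq hK

end Pool.Agent.Work.MP_122e00_nt.TS
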