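import Mathlib
import Pool.Agent.Work.MP_122e00_nt.TS.FinS
import Pool.Agent.Work.MP_122e00_nt.TS.AllT
import Pool.Agent.Work.MP_122e00_nt.TS.I_V1
import Pool.Agent.Work.MP_122e00_nt.TS.I_V2
import Pool.Agent.Work.MP_122e00_nt.TS.I_V3
import Pool.Agent.Work.MP_122e00_nt.TS.I_V4
import Pool.Agent.Work.MP_122e00_nt.TS.I_P1
import Pool.Agent.Work.MP_122e00_nt.TS.I_P2
import Pool.Agent.Work.MP_122e00_nt.TS.I_P3
import Pool.Agent.Work.MP_122e00_nt.TS.I_P4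
import Pool.Agent.Work.MP_122e00_nt.TS.I_P5
import Pool.Agent.Work.MP_122e00_nt.TS.I_P6
import Pool.Agent.Work.MP_122e00_nt.TS.I_U1
import Pool.Agent.Work.MP_122e00_nt.TS.I_U2
import Pool.Agent.Work.MP_122e00_nt.TS.I_U3
import Pool.Agent.Work.MP_122e00_nt.TS.I_U4
import Pool.Agent.Work.MP_122e00_nt.TS.I_U5
import Pool.Agent.Work.MP_122e00_nt.TS.I_U6
import Pool.Agent.Work.MP_122e00_nt.TS.I_U7
import Pool.Agent.Work.MP_122e00_nt.TS.I_U8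

/-!
# Thin shifts: all items together (strongest form)
-/

namespace Pool.Agent.Work.MP_122e00_nt.TS

theorem tV1 : tsV1 := prV1
theorem tV2 : tsV2 := prV2 tL0 tR2 tR5
theorem tV3 : tsV3 := prV3 tGS tL2
theorem tV4 : tsV4 := prV4 tL0 tV3
theorem tP1 : tsP1 := prP1 tW1 tW4
theorem tP2 : tsP2 := prP2
theorem tP3 : tsP3 := prP3 tP2
theorem tP4 : tsP4 := prP4 tP1 tP2 tP3
theorem tP5 : tsP5 := prP5
theorem tP6 : tsP6 := prP6 tL0 tP4 tP5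
theorem tU1 : tsU1 := prU1 tGS tR3 tV1 tV2 tP6
theorem tU2 : tsU2 := prU2 tL0 tU1
theorem tU3 : tsU3 := prU3 tE1 tF1 tF2
theorem tU4 : tsU4 := prU4 tU2 tU3
theorem tU5 : tsU5 := prU5 tL0 tF6 tU4
theorem tU6 : tsU6 := prU6 tGS tE1 tF1 tF2 tV1 tV2 tV4
theorem tU7 : tsU7 := prU7 tU5 tU6
theorem tU8 : tsU8 := prU8 tL0 tF6 tU7

/-- the final theorem, strongest form -/
theorem mainS : StFinS := finS tL0 tM4 tE3 tE5 tG2 tG4 tH2 tR10 tU8 tT3 tH5 tH6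

end Pool.Agent.Work.MP_122e00_nt.TS
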