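import Mathlib
import Pool.Agent.Work.MP_122e00_nt.TS.Stmts12

/-!
# Shifts down to a power of the logarithm: assembly
-/

namespace Pool.Agent.Work.MP_122e00_nt.TS

open Finset Filter Topology ArithmeticFunction
open scoped ArithmeticFunction.zeta ArithmeticFunction.Moebius

/-- the final theorem: the asymptotic formula for almost all values of a polynomial, from a power
of `log X` to `X^b`, `b < 1` -/
def StFinC : Prop := ∀ r : ℕ, 2 ≤ r → ∀ F : Polynomial ℤ, 1 ≤ F.natDegree → 0 < F.leadingCoeff →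
  ∀ b η : ℝ, 0 < b → b < 1 → 0 < η →
  ∃ (A δ C : ℝ) (S : Set ℕ), 0 < A ∧ 0 < δ ∧
  (∀ K : ℕ, 1 ≤ K → (Set.ncard {k : ℕ | k ∈ S ∧ 1 ≤ k ∧ k ≤ K} : ℝ) ≤ C * (K : ℝ) ^ (1 - δ)) ∧
  ∀ k : ℕ, k ∉ S → 1 ≤ F.eval (k : ℤ) ∧ ∀ X : ℝ, 1 ≤ X →
    Real.log X ^ A ≤ ((F.eval (k : ℤ) : ℤ) : ℝ) → ((F.eval (k : ℤ) : ℤ) : ℝ) ≤ X ^ b →
    Gx r η X (fv F k)

theorem finC (hM4 : tsM4) (hE3 : tsE3) (hE5 : tsE5) (hH6 : tsH6) (hX23 : tsX23) : StFinC := by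
  intro r hr F hF hFl b η hb hb1 hη
  have hr1 : 1 ≤ r := by omega
  obtain ⟨B, hB⟩ := hM4 r hr1
  obtain ⟨E, hE⟩ := hE3 r B hr1 hB
  have hCB := hE5 r E hr1 hE
  obtain ⟨A, δ', K0, hA, hδ, hδ1, h⟩ := hX23 r E hr hE hCB F hF hFl b η hb hb1 hη
  obtain ⟨C, hC⟩ := hH6 {k : ℕ | BadL r F A b η k} δ' K0 hδ hδ1 h
  refine ⟨A, δ', C, {k : ℕ | BadL r F A b η k}, hA, hδ, hC, fun k hk => ?_⟩
  have hk' : ¬ BadL r F A b η k := hk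
  have h1 : 1 ≤ F.eval (k : ℤ) := by
    by_contra hc
    exact hk' (Or.inl hc)
  refine ⟨h1, fun X hX hXa hXb => ?_⟩
  by_contra hG
  exact hk' (Or.inr ⟨X, hX, hXa, hXb, hG⟩)

end Pool.Agent.Work.MP_122e00_nt.TS
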