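import Pool.Agent.Work.MP_122e00_nt.TS.Stmts7

/-!
# Block TS, item K1: the mean value theorem with the weight `om`
-/

namespace Pool.Agent.Work.MP_122e00_nt.TS

open Finset Filter Topology MeasureTheory

namespace IK1

theorem psi_sq (η v : ℝ) (hη : 0 < η) :
    psi η v ^ 2 = Set.indicator (Set.Ico 0 (2 * η)) (fun _ => (1 : ℝ)) v := by
  unfold psi
  by_cases h1 : 0 ≤ v ∧ v < η
  · have h2 : v ∈ Set.Ico 0 (2 * η) := ⟨h1.1, by linarith [h1.2]⟩
    rw [if_pos h1, Set.indicator_of_mem h2]; norm_num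
  · rw [if_neg h1]
    by_cases h3 : η ≤ v ∧ v < 2 * η
    · have h2 : v ∈ Set.Ico 0 (2 * η) := ⟨by linarith [h3.1], h3.2⟩
      rw [if_pos h3, Set.indicator_of_mem h2]; norm_num
    · have h2 : v ∉ Set.Ico 0 (2 * η) := by
        rintro ⟨h4, h5⟩
        rcases lt_or_ge v η with h6 | h6
        · exact h1 ⟨h4, h6⟩
        · exact h3 ⟨h6, h5⟩
      rw [if_neg h3, Set.indicator_of_notMem h2]; norm_num

theorem int_psi (η c : ℝ) (hη : 0 < η) :
    Integrable (fun u : ℝ => psi η (u - c) ^ 2) ∧ ∫ u : ℝ, psi η (u - c) ^ 2 = 2 * η := by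
  have e : (fun u : ℝ => psi η (u - c) ^ 2) =
      fun u => Set.indicator (Set.Ico 0 (2 * η)) (fun _ => (1 : ℝ)) (u - c) :=
    funext fun u => psi_sq η (u - c) hη
  have hi : Integrable (Set.indicator (Set.Ico 0 (2 * η)) (fun _ => (1 : ℝ))) := by
    refine (integrable_indicator_iff measurableSet_Ico).2 ?_
    exact integrableOn_const (by rw [Real.volume_Ico]; exact ENNReal.ofReal_ne_top)
  rw [e]
  refine ⟨hi.comp_sub_right c, ?_⟩
  rw [integral_sub_right_eq_self (fun v => Set.indicator (Set.Ico 0 (2 * η)) (fun _ => (1 : ℝ)) v) c,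
    integral_indicator measurableSet_Ico]
  simp [hη.le]

theorem count (N : ℕ) (η u : ℝ) (hη : 0 < η) :
    ((((Icc 1 N).filter fun n : ℕ => psi η (u - Real.log n) ≠ 0).card : ℕ) : ℝ) ≤
      2 * η * N + 1 := by
  set S := (Icc 1 N).filter fun n : ℕ => psi η (u - Real.log n) ≠ 0 with hS
  have hN : (0 : ℝ) ≤ N := Nat.cast_nonneg N
  have hm : ∀ n ∈ S, 1 ≤ n ∧ n ≤ N ∧ 0 ≤ u - Real.log n ∧ u - Real.log n < 2 * η := by
    intro n hn
    rw [hS, mem_filter, mem_Icc] at hn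
    have h1 : psi η (u - Real.log n) ^ 2 ≠ 0 := pow_ne_zero 2 hn.2
    rw [psi_sq _ _ hη] at h1
    have h2 := Set.mem_of_indicator_ne_zero h1
    exact ⟨hn.1.1, hn.1.2, h2.1, h2.2⟩
  rcases S.eq_empty_or_nonempty with h0 | h0
  · rw [h0]; simp only [card_empty, Nat.cast_zero]; positivity
  · have ha := hm _ (S.min'_mem h0)
    have hb := hm _ (S.max'_mem h0)
    set a := S.min' h0
    set b := S.max' h0
    have hab : a ≤ b := S.min'_le_max' h0
    have hsub : S ⊆ Icc a b := fun n hn => mem_Icc.2 ⟨S.min'_le n hn, S.le_max' n hn⟩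
    have hc : S.card ≤ b + 1 - a := (card_le_card hsub).trans (by rw [Nat.card_Icc])
    have ha0 : (0 : ℝ) < a := by exact_mod_cast ha.1
    have hb0 : (0 : ℝ) < b := by exact_mod_cast hb.1
    have hlog : Real.log b - 2 * η < Real.log a := by linarith [ha.2.2.2, hb.2.2.1]
    have h3 : (b : ℝ) * Real.exp (-(2 * η)) ≤ a := by
      have h4 := Real.exp_le_exp.2 hlog.le
      rw [Real.exp_log ha0, sub_eq_add_neg, Real.exp_add, Real.exp_log hb0] at h4
      exact h4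
    have h5 : 1 - 2 * η ≤ Real.exp (-(2 * η)) := by
      have := Real.add_one_le_exp (-(2 * η)); linarith
    have h6 : (b : ℝ) * (1 - 2 * η) ≤ a := (mul_le_mul_of_nonneg_left h5 hb0.le).trans h3
    have h7 : (b : ℝ) ≤ N := by exact_mod_cast hb.2.1
    have h8 : (S.card : ℝ) ≤ (b : ℝ) + 1 - a := by
      have : S.card + a ≤ b + 1 := by omega
      have h9 : ((S.card + a : ℕ) : ℝ) ≤ ((b + 1 : ℕ) : ℝ) := by exact_mod_cast this
      push_cast at h9; linarith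
    have h10 : η * b ≤ η * N := mul_le_mul_of_nonneg_left h7 hη.le
    nlinarith

theorem point (N : ℕ) (g : ℕ → ℂ) (η u : ℝ) (hη : 0 < η) :
    ‖∑ n ∈ Icc 1 N, g n * ((psi η (u - Real.log n) : ℝ) : ℂ)‖ ^ 2 ≤
      (2 * η * N + 1) * ∑ n ∈ Icc 1 N, ‖g n‖ ^ 2 * psi η (u - Real.log n) ^ 2 := by
  set S := (Icc 1 N).filter fun n : ℕ => psi η (u - Real.log n) ≠ 0 with hS
  have e : ∑ n ∈ Icc 1 N, g n * ((psi η (u - Real.log n) : ℝ) : ℂ) =
      ∑ n ∈ S, g n * ((psi η (u - Real.log n) : ℝ) : ℂ) := by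
    rw [hS, sum_filter]
    refine sum_congr rfl fun n _ => ?_
    by_cases h : psi η (u - Real.log n) = 0
    · rw [if_neg (not_not.2 h), h]; simp
    · rw [if_pos h]
  have h1 : ‖∑ n ∈ S, g n * ((psi η (u - Real.log n) : ℝ) : ℂ)‖ ≤
      ∑ n ∈ S, ‖g n‖ * |psi η (u - Real.log n)| := by
    refine (norm_sum_le _ _).trans (le_of_eq (sum_congr rfl fun n _ => ?_))
    rw [norm_mul, Complex.norm_real, Real.norm_eq_abs]
  rw [e]
  calc ‖∑ n ∈ S, g n * ((psi η (u - Real.log n) : ℝ) : ℂ)‖ ^ 2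
      ≤ (∑ n ∈ S, ‖g n‖ * |psi η (u - Real.log n)|) ^ 2 :=
        pow_le_pow_left₀ (norm_nonneg _) h1 2
    _ ≤ (S.card : ℝ) * ∑ n ∈ S, (‖g n‖ * |psi η (u - Real.log n)|) ^ 2 :=
        sq_sum_le_card_mul_sum_sq
    _ = (S.card : ℝ) * ∑ n ∈ S, ‖g n‖ ^ 2 * psi η (u - Real.log n) ^ 2 := by
        congr 1
        refine sum_congr rfl fun n _ => ?_
        rw [mul_pow, sq_abs]
    _ ≤ (2 * η * N + 1) * ∑ n ∈ Icc 1 N, ‖g n‖ ^ 2 * psi η (u - Real.log n) ^ 2 := by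
        refine mul_le_mul (count N η u hη) ?_ (sum_nonneg fun n _ => by positivity)
          (by positivity)
        exact sum_le_sum_of_subset_of_nonneg (filter_subset _ _) fun n _ _ => by positivity

end IK1

open IK1 in
/-- K1: the mean value theorem with the weight `om` -/
theorem prK1 (h : tsP3) : tsK1 := by
  intro N g η hη hη4
  have hN : (0 : ℝ) ≤ N := Nat.cast_nonneg N
  have e := (h ℕ (Icc 1 N) (fun n => Real.log n) g η hη).2
  have e1 : ∫ t : ℝ, om η t * ‖∑ n ∈ Finset.Icc 1 N, g n * ee (-(t * Real.log n))‖ ^ 2 =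
      ∫ u : ℝ, ‖∑ n ∈ Icc 1 N, g n * ((psi η (u - Real.log n) : ℝ) : ℂ)‖ ^ 2 := e.symm
  rw [e1]
  have hi : ∀ n ∈ Icc 1 N, Integrable fun u : ℝ => ‖g n‖ ^ 2 * psi η (u - Real.log n) ^ 2 :=
    fun n _ => (int_psi η (Real.log n) hη).1.const_mul _
  have hsum : ∫ u : ℝ, (2 * η * N + 1) * ∑ n ∈ Icc 1 N, ‖g n‖ ^ 2 * psi η (u - Real.log n) ^ 2 =
      (2 * η * N + 1) * (2 * η) * ∑ n ∈ Icc 1 N, ‖g n‖ ^ 2 := by
    have h2 : ∫ u : ℝ, ∑ n ∈ Icc 1 N, ‖g n‖ ^ 2 * psi η (u - Real.log n) ^ 2 =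
        2 * η * ∑ n ∈ Icc 1 N, ‖g n‖ ^ 2 := by
      rw [integral_finsetSum _ hi, mul_sum]
      refine sum_congr rfl fun n _ => ?_
      rw [integral_const_mul, (int_psi η (Real.log n) hη).2]; ring
    rw [integral_const_mul, h2]; ring
  refine (integral_mono_of_nonneg (Eventually.of_forall fun u => by positivity)
    ((integrable_finsetSum _ hi).const_mul _)
    (Eventually.of_forall fun u => point N g η u hη)).trans ?_
  rw [hsum]
  refine mul_le_mul_of_nonneg_right ?_ (sum_nonneg fun n _ => by positivity)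
  nlinarith [mul_nonneg hη.le (mul_nonneg hη.le hN)]

end Pool.Agent.Work.MP_122e00_nt.TS
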