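import Pool.Agent.Work.MP_122e00_nt.TS.Stmts7

/-!
# All powers, item K2: pointwise bound for `d_r(m) m^(-2πit)` over a residue class (helper82)
-/

set_option autoImplicit false

namespace Pool.Agent.Work.MP_122e00_nt.TS

open Finset Filter Topology ArithmeticFunction

namespace IK2

theorem ee_add (x y : ℝ) : ee (x + y) = ee x * ee y := by
  unfold ee
  rw [← Complex.exp_add]
  congr 1
  push_cast
  ring

theorem norm_ee (x : ℝ) : ‖ee x‖ = 1 := by
  unfold ee
  exact Complex.norm_exp_ofReal_mul_I _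

theorem dyadic (h : ℕ → ℂ) (K : ℝ) (hK : 0 ≤ K) (y N : ℕ) (hy : 1 ≤ y)
    (H : ∀ A A' : ℕ, y ≤ A → A ≤ A' → A' ≤ 2 * A → A' ≤ N →
      ‖∑ l ∈ Finset.Ioc A A', h l‖ ≤ A * K) :
    ∀ B : ℕ, B ≤ N → ‖∑ l ∈ Finset.Ioc y B, h l‖ ≤ 4 * B * K := by
  intro B
  induction B using Nat.strong_induction_on with
  | _ B ih =>
    intro hB
    rcases le_or_gt B y with h1 | h1
    · rw [Finset.Ioc_eq_empty (by omega), Finset.sum_empty, norm_zero]
      positivity
    · rcases le_or_gt ((B + 1) / 2) y with h2 | h2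
      · have h3 := H y B le_rfl h1.le (by omega) hB
        refine h3.trans ?_
        have h4 : (y : ℝ) ≤ 4 * B := by
          have h5 : (y : ℝ) ≤ B := by exact_mod_cast h1.le
          have h6 := (Nat.cast_nonneg B : (0 : ℝ) ≤ B)
          linarith
        exact mul_le_mul_of_nonneg_right h4 hK
      · set A := (B + 1) / 2 with hA
        have h3 := H A B h2.le (by omega) (by omega) hB
        have h4 := ih A (by omega) (by omega)
        have h5 : ∑ l ∈ Finset.Ioc y B, h l =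
            ∑ l ∈ Finset.Ioc y A, h l + ∑ l ∈ Finset.Ioc A B, h l :=
          (Finset.sum_Ioc_consecutive h h2.le (by omega)).symm
        rw [h5]
        refine (norm_add_le _ _).trans ?_
        have h6 : 5 * (A : ℝ) ≤ 4 * B := by
          have h7 : 5 * A ≤ 4 * B := by omega
          exact_mod_cast h7
        calc _ ≤ 4 * (A : ℝ) * K + A * K := add_le_add h4 h3
          _ = 5 * A * K := by ring
          _ ≤ 4 * B * K := mul_le_mul_of_nonneg_right h6 hK

/-- the coefficients of the item -/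
noncomputable def gg (q σ : ℕ) (t : ℝ) (n : ℕ) : ℂ :=
  if n % q = σ % q then ee (-(t * Real.log n)) else 0

theorem norm_gg (q σ : ℕ) (t : ℝ) (n : ℕ) : ‖gg q σ t n‖ ≤ 1 := by
  unfold gg
  split_ifs
  · exact (norm_ee _).le
  · simp

theorem gg_mul (q σ m l : ℕ) (t : ℝ) (hq : 1 ≤ q) (hm : 1 ≤ m) (hl : 1 ≤ l) :
    gg q σ t (m * l) = ∑ ρ ∈ Finset.range q,
      (if (m * ρ) % q = σ % q then ee (-(t * Real.log m)) else 0) *
      (if l % q = ρ % q then ee (-(t * Real.log l)) else 0) := by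
  rw [Finset.sum_eq_single (l % q)]
  · rw [Nat.mod_mod, if_pos rfl, gg]
    have h1 : (m * (l % q)) % q = (m * l) % q := by simp [Nat.mul_mod]
    rw [h1]
    split_ifs
    · rw [← ee_add]
      congr 1
      have hm' : (m : ℝ) ≠ 0 := by positivity
      have hl' : (l : ℝ) ≠ 0 := by positivity
      push_cast
      rw [Real.log_mul hm' hl']
      ring
    · rw [zero_mul]
  · intro ρ hρ hne
    have h2 : ¬ (l % q = ρ % q) := by
      rw [Nat.mod_eq_of_lt (Finset.mem_range.1 hρ)]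
      exact fun h => hne h.symm
    rw [if_neg h2, mul_zero]
  · intro h
    exact absurd (Finset.mem_range.2 (Nat.mod_lt _ hq)) h

theorem block (q σ m : ℕ) (t : ℝ) (hq : 1 ≤ q) (hm : 1 ≤ m) (A A' : ℕ) (b : ℝ)
    (H : ∀ ρ : ℕ, ‖∑ a ∈ (Finset.Ioc A A').filter (fun a => a % q = ρ % q),
      ee (-(t * Real.log a))‖ ≤ b) :
    ‖∑ l ∈ Finset.Ioc A A', gg q σ t (m * l)‖ ≤ q * b := by
  have h1 : ∑ l ∈ Finset.Ioc A A', gg q σ t (m * l) = ∑ ρ ∈ Finset.range q,
      (if (m * ρ) % q = σ % q then ee (-(t * Real.log m)) else 0) *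
      ∑ a ∈ (Finset.Ioc A A').filter (fun a => a % q = ρ % q), ee (-(t * Real.log a)) := by
    rw [Finset.sum_congr rfl fun l hl => gg_mul q σ m l t hq hm
      (by rw [Finset.mem_Ioc] at hl; omega), Finset.sum_comm]
    refine Finset.sum_congr rfl fun ρ _ => ?_
    rw [Finset.sum_filter, Finset.mul_sum]
  rw [h1]
  calc _ ≤ ∑ _ρ ∈ Finset.range q, b := by
        refine norm_sum_le_of_le _ fun ρ _ => ?_
        rw [norm_mul]
        have h2 : ‖(if (m * ρ) % q = σ % q then ee (-(t * Real.log m)) else 0 : ℂ)‖ ≤ 1 := by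
          split_ifs
          · exact (norm_ee _).le
          · simp
        calc _ ≤ 1 * b := mul_le_mul h2 (H ρ) (norm_nonneg _) zero_le_one
          _ = b := one_mul b
    _ = q * b := by simp

theorem sum_inv_le (N : ℕ) : ∑ m ∈ Finset.Icc 1 N, (1 : ℝ) / m ≤ 1 + Real.log N := by
  have h := harmonic_le_one_add_log N
  rw [harmonic_eq_sum_Icc] at h
  push_cast at h
  simpa [one_div] using h

end IK2

open IK2 in
/-- K2 -/
theorem prK2 (h0 : tsL0) (h1 : tsL1) (h2 : tsP1) : tsK2 := by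
  intro r δ₆ hr hδ hδ1
  have hr0 : (0 : ℝ) < r := by exact_mod_cast hr
  have hr1 : (1 : ℝ) ≤ r := by exact_mod_cast hr
  set ε₁ : ℝ := 1 / (8 * r) with hε₁
  have he0 : 0 < ε₁ := by positivity
  have he1 : ε₁ ≤ 1 := by
    rw [hε₁, div_le_one (by positivity)]
    linarith
  obtain ⟨δw, X1, hw, hP⟩ := h2 ε₁ δ₆ he0 he1 hδ hδ1
  obtain ⟨C, hC, hL0⟩ := h0 r (δw / 4) (by positivity)
  -- thresholds
  have hE1 : ∀ᶠ X : ℝ in atTop, 8 * r * C * (1 + Real.log X) * X ^ (-(δw / 4)) ≤ 1 := by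
    have ha : Tendsto (fun X : ℝ => X ^ (-(δw / 4))) atTop (𝓝 0) :=
      tendsto_rpow_neg_atTop (by positivity)
    have hb : Tendsto (fun X : ℝ => Real.log X * X ^ (-(δw / 4))) atTop (𝓝 0) := by
      have := (isLittleO_log_rpow_atTop (show 0 < δw / 4 by positivity)).tendsto_div_nhds_zero
      refine this.congr' ?_
      filter_upwards [eventually_gt_atTop 0] with X hX
      rw [Real.rpow_neg hX.le, div_eq_mul_inv]
    have hc : Tendsto (fun X : ℝ => 8 * r * C * (1 + Real.log X) * X ^ (-(δw / 4))) atTop (𝓝 0) := by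
      have := ((ha.add hb).const_mul (8 * r * C))
      simp only [add_zero, mul_zero] at this
      refine this.congr fun X => ?_
      ring
    exact (hc.eventually (gt_mem_nhds zero_lt_one)).mono fun X hX => hX.le
  have hE2 : ∀ᶠ X : ℝ in atTop, 2 ≤ X ^ ε₁ := (tendsto_rpow_atTop he0).eventually_ge_atTop 2
  have hE3 : ∀ᶠ X : ℝ in atTop, 2 ≤ X ^ (1 / 8 : ℝ) :=
    (tendsto_rpow_atTop (by norm_num)).eventually_ge_atTop 2
  obtain ⟨X0, hX0⟩ := eventually_atTop.1 (((hE1.and hE2).and (hE3.and (eventually_ge_atTop X1))).and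
    (eventually_ge_atTop 1))
  refine ⟨min (δw / 4) (1 / 8), X0, by positivity, ?_⟩
  intro X t M q σ hX hM1 hM2 hq hq2 ht1 ht2
  obtain ⟨⟨⟨hX1, hX2⟩, hX3, hX4⟩, hX5⟩ := hX0 X hX
  set δ' : ℝ := min (δw / 4) (1 / 8) with hδ'
  have hXpos : 0 < X := by linarith
  have hd1 : δ' ≤ δw / 4 := min_le_left _ _
  have hd2 : δ' ≤ 1 / 8 := min_le_right _ _
  have hd0 : 0 < δ' := by positivity
  have hMpos : (0 : ℝ) < M := lt_of_lt_of_le (Real.rpow_pos_of_pos hXpos _) hM1
  have hM0 : 1 ≤ M := by exact_mod_cast hMpos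
  have hM1' : (1 : ℝ) ≤ M := by exact_mod_cast hM0
  obtain ⟨W, hW, hL1⟩ := h1 r M hr hM1'
  have hmain := hL1 (gg q σ t) M (norm_gg q σ t) le_rfl
  set y := ⌊(M : ℝ) ^ (1 / (2 * (r : ℝ)))⌋₊ with hy
  -- the sum of the item
  have hsum : ∑ m ∈ (Finset.Icc 1 M).filter (fun m => m % q = σ % q),
      (dr r m : ℂ) * ee (-(t * Real.log m)) = ∑ n ∈ Finset.Icc 1 M, (dr r n : ℂ) * gg q σ t n := by
    rw [Finset.sum_filter]
    refine Finset.sum_congr rfl fun n _ => ?_
    unfold gg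
    split_ifs
    · rfl
    · rw [mul_zero]
  -- the lower end
  have hyX : X ^ ε₁ ≤ y := by
    have e1 : (X ^ ε₁) ^ (2 : ℕ) ≤ (M : ℝ) ^ (1 / (2 * (r : ℝ))) := by
      calc (X ^ ε₁) ^ (2 : ℕ) = (X ^ (1 / 2 : ℝ)) ^ (1 / (2 * (r : ℝ))) := by
            rw [← Real.rpow_natCast, ← Real.rpow_mul hXpos.le, ← Real.rpow_mul hXpos.le]
            congr 1
            rw [hε₁]
            push_cast
            field_simp
            norm_num
        _ ≤ _ := Real.rpow_le_rpow (by positivity) hM1 (by positivity)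
    have e2 : (M : ℝ) ^ (1 / (2 * (r : ℝ))) < y + 1 := Nat.lt_floor_add_one _
    nlinarith
  have hy1 : 1 ≤ y := by
    have : (0 : ℝ) < y := by linarith
    exact_mod_cast this
  -- the inner sums
  have hinner : ∀ m : ℕ, 1 ≤ m → ‖∑ l ∈ Finset.Ioc y (M / m), gg q σ t (m * l)‖ ≤
      4 * (M / m : ℝ) * (q * X ^ (-δw)) := by
    intro m hm
    have e1 := dyadic (fun l => gg q σ t (m * l)) (q * X ^ (-δw)) (by positivity) y M hy1
      (fun A A' hA hAA hA2 hAN => by
        have e2 := block q σ m t hq hm A A' (A * X ^ (-δw)) (fun ρ => by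
          refine hP X t A A' q ρ hX4 (hyX.trans (by exact_mod_cast hA)) ?_ hAA hA2 hq ?_ ht1 ht2
          · have : (A : ℝ) ≤ M := by exact_mod_cast hAA.trans hAN
            exact this.trans hM2
          · refine hq2.trans (Real.rpow_le_rpow_of_exponent_le hX5 ?_)
            linarith)
        calc _ ≤ _ := e2
          _ = A * (q * X ^ (-δw)) := by ring) (M / m) (Nat.div_le_self _ _)
    refine e1.trans ?_
    have e3 : ((M / m : ℕ) : ℝ) ≤ (M : ℝ) / m := Nat.cast_div_le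
    have e4 : (0 : ℝ) ≤ q * X ^ (-δw) := by positivity
    exact mul_le_mul_of_nonneg_right (by linarith) e4
  -- the outer sum
  set Z := ⌊(M : ℝ) ^ (1 - 1 / (2 * (r : ℝ)))⌋₊ with hZ
  have hZM : Z ≤ M := by
    have e1 : (M : ℝ) ^ (1 - 1 / (2 * (r : ℝ))) ≤ M := by
      calc _ ≤ (M : ℝ) ^ (1 : ℝ) := Real.rpow_le_rpow_of_exponent_le hM1' (by
            have : 0 ≤ 1 / (2 * (r : ℝ)) := by positivity
            linarith)
        _ = M := Real.rpow_one _
    calc Z ≤ ⌊(M : ℝ)⌋₊ := Nat.floor_le_floor e1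
      _ = M := Nat.floor_natCast M
  have houter : ‖∑ m ∈ Finset.Icc 1 Z, (W m : ℂ) *
      ∑ l ∈ Finset.Ioc y (M / m), gg q σ t (m * l)‖ ≤ (1 / 2) * (M * X ^ (-δ')) := by
    have e1 : ∀ m ∈ Finset.Icc 1 Z, ‖(W m : ℂ) * ∑ l ∈ Finset.Ioc y (M / m), gg q σ t (m * l)‖ ≤
        (4 * r * C * X ^ (δw / 4) * M * (q * X ^ (-δw))) * (1 / m) := by
      intro m hm
      rw [Finset.mem_Icc] at hm
      have hm0 : (0 : ℝ) < m := by exact_mod_cast hm.1
      rw [norm_mul, Complex.norm_real, Real.norm_of_nonneg (hW m).1]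
      have f1 : W m ≤ r * (C * X ^ (δw / 4)) := by
        refine (hW m).2.trans (mul_le_mul_of_nonneg_left ((hL0 m hm.1).trans ?_) hr0.le)
        refine mul_le_mul_of_nonneg_left ?_ hC.le
        refine Real.rpow_le_rpow hm0.le ?_ (by positivity)
        have : (m : ℝ) ≤ M := by exact_mod_cast hm.2.trans hZM
        exact this.trans hM2
      calc _ ≤ (r * (C * X ^ (δw / 4))) * (4 * (M / m : ℝ) * (q * X ^ (-δw))) :=
            mul_le_mul f1 (hinner m hm.1) (norm_nonneg _) (by positivity)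
        _ = _ := by ring
    refine (norm_sum_le_of_le _ e1).trans ?_
    rw [← Finset.mul_sum]
    have e2 : ∑ m ∈ Finset.Icc 1 Z, (1 : ℝ) / m ≤ 1 + Real.log X := by
      have f0 : ∑ m ∈ Finset.Icc 1 Z, (1 : ℝ) / m ≤ ∑ m ∈ Finset.Icc 1 M, (1 : ℝ) / m :=
        Finset.sum_le_sum_of_subset_of_nonneg (Finset.Icc_subset_Icc_right hZM)
          fun _ _ _ => by positivity
      have f1 := sum_inv_le M
      have f2 : Real.log M ≤ Real.log X := Real.log_le_log hMpos hM2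
      linarith
    have e3 : (0 : ℝ) ≤ 4 * r * C * X ^ (δw / 4) * M * (q * X ^ (-δw)) := by positivity
    refine (mul_le_mul_of_nonneg_left e2 e3).trans ?_
    have hlog : 0 ≤ Real.log X := Real.log_nonneg hX5
    have e4 : (q : ℝ) ≤ X ^ (δw / 4) := hq2.trans (Real.rpow_le_rpow_of_exponent_le hX5 hd1)
    have e5 : X ^ (δw / 4) * X ^ (δw / 4) * X ^ (-δw) = X ^ (-(δw / 4)) * X ^ (-(δw / 4)) := by
      rw [← Real.rpow_add hXpos, ← Real.rpow_add hXpos, ← Real.rpow_add hXpos]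
      congr 1
      ring
    have e6 : X ^ (-(δw / 4)) ≤ X ^ (-δ') := Real.rpow_le_rpow_of_exponent_le hX5 (by linarith)
    calc 4 * r * C * X ^ (δw / 4) * M * (q * X ^ (-δw)) * (1 + Real.log X)
        ≤ 4 * r * C * X ^ (δw / 4) * M * (X ^ (δw / 4) * X ^ (-δw)) * (1 + Real.log X) := by
          refine mul_le_mul_of_nonneg_right (mul_le_mul_of_nonneg_left
            (mul_le_mul_of_nonneg_right e4 (by positivity)) (by positivity)) (by positivity)
      _ = (1 / 2) * M * (8 * r * C * (1 + Real.log X)) *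
            (X ^ (δw / 4) * X ^ (δw / 4) * X ^ (-δw)) := by ring
      _ = (1 / 2) * M * (8 * r * C * (1 + Real.log X) * X ^ (-(δw / 4))) * X ^ (-(δw / 4)) := by
          rw [e5]
          ring
      _ ≤ (1 / 2) * M * 1 * X ^ (-(δw / 4)) :=
          mul_le_mul_of_nonneg_right (mul_le_mul_of_nonneg_left hX1 (by positivity))
            (by positivity)
      _ ≤ (1 / 2) * M * 1 * X ^ (-δ') := mul_le_mul_of_nonneg_left e6 (by positivity)
      _ = (1 / 2) * (M * X ^ (-δ')) := by ring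
  -- the short sum
  have hshort : (M : ℝ) ^ (1 / 2 : ℝ) ≤ (1 / 2) * (M * X ^ (-δ')) := by
    have e1 : 2 * X ^ δ' ≤ (M : ℝ) ^ (1 / 2 : ℝ) := by
      calc 2 * X ^ δ' ≤ X ^ (1 / 8 : ℝ) * X ^ (1 / 8 : ℝ) :=
            mul_le_mul hX3 (Real.rpow_le_rpow_of_exponent_le hX5 hd2) (by positivity) (by positivity)
        _ = (X ^ (1 / 2 : ℝ)) ^ (1 / 2 : ℝ) := by
            rw [← Real.rpow_add hXpos, ← Real.rpow_mul hXpos.le]
            norm_num
        _ ≤ _ := Real.rpow_le_rpow (by positivity) hM1 (by norm_num)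
    have e2 : (M : ℝ) = (M : ℝ) ^ (1 / 2 : ℝ) * (M : ℝ) ^ (1 / 2 : ℝ) := by
      rw [← Real.rpow_add hMpos]
      norm_num
    have e3 : X ^ δ' * X ^ (-δ') = 1 := by
      rw [← Real.rpow_add hXpos, add_neg_cancel, Real.rpow_zero]
    calc (M : ℝ) ^ (1 / 2 : ℝ) = (1 / 2) * ((M : ℝ) ^ (1 / 2 : ℝ) * (2 * X ^ δ' * X ^ (-δ'))) := by
          rw [mul_assoc 2, e3]
          ring
      _ ≤ (1 / 2) * ((M : ℝ) ^ (1 / 2 : ℝ) * ((M : ℝ) ^ (1 / 2 : ℝ) * X ^ (-δ'))) := by
          refine mul_le_mul_of_nonneg_left (mul_le_mul_of_nonneg_left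
            (mul_le_mul_of_nonneg_right e1 (by positivity)) (by positivity)) (by positivity)
      _ = (1 / 2) * (((M : ℝ) ^ (1 / 2 : ℝ) * (M : ℝ) ^ (1 / 2 : ℝ)) * X ^ (-δ')) := by ring
      _ = (1 / 2) * (M * X ^ (-δ')) := by rw [← e2]
  rw [hsum]
  calc _ = ‖(∑ n ∈ Finset.Icc 1 M, (dr r n : ℂ) * gg q σ t n - ∑ m ∈ Finset.Icc 1 Z, (W m : ℂ) *
        ∑ l ∈ Finset.Ioc y (M / m), gg q σ t (m * l)) + ∑ m ∈ Finset.Icc 1 Z, (W m : ℂ) *
        ∑ l ∈ Finset.Ioc y (M / m), gg q σ t (m * l)‖ := by rw [sub_add_cancel]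
    _ ≤ (1 / 2) * (M * X ^ (-δ')) + (1 / 2) * (M * X ^ (-δ')) :=
        (norm_add_le _ _).trans (add_le_add (hmain.trans hshort) houter)
    _ = M * X ^ (-δ') := by ring

end Pool.Agent.Work.MP_122e00_nt.TS
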