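import Pool.Agent.Work.MP_122e00_nt.TS.Stmts7
import Pool.Agent.Work.MP_122e00_nt.TS.I_F6

set_option autoImplicit false

/-!
Item K7: the function `u` and its model are small.
-/

namespace Pool.Agent.Work.MP_122e00_nt.TS

open Finset Filter Topology ArithmeticFunction
open scoped ArithmeticFunction.zeta ArithmeticFunction.Moebius

namespace IK7

theorem dr_nonneg (r n : ℕ) : 0 ≤ dr r n := by
  unfold dr
  positivity

theorem dr_two (n : ℕ) : dr 2 n = (n.divisors.card : ℝ) := by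
  unfold dr
  rw [pow_two]
  have h2 : (ζ : ArithmeticFunction ℕ) * ζ = ArithmeticFunction.sigma 0 := by
    rw [← ArithmeticFunction.zeta_mul_pow_eq_sigma, ArithmeticFunction.pow_zero_eq_zeta]
  rw [h2, ArithmeticFunction.sigma_zero_apply]

/-- the function `u` -/
theorem up_bd (r : ℕ) (z w e C : ℝ) (n : ℕ) (hn : 1 ≤ n) (he : 0 ≤ e) (hC : 0 < C)
    (hdr : ∀ m : ℕ, 1 ≤ m → dr r m ≤ C * (m : ℝ) ^ e) :
    |up r z w n| ≤ dr 2 n * (C * (n : ℝ) ^ e) := by
  unfold up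
  rw [abs_of_nonneg (Finset.sum_nonneg fun p _ => dr_nonneg _ _)]
  have h1 : ∀ p ∈ (PW z w).filter (· ∣ n), dr r (n / p) ≤ C * (n : ℝ) ^ e := by
    intro p hp
    rw [Finset.mem_filter] at hp
    have hpd := hp.2
    have hp0 : 0 < p := Nat.pos_of_dvd_of_pos hpd (by omega)
    have h2 : 1 ≤ n / p := Nat.div_pos (Nat.le_of_dvd (by omega) hpd) hp0
    refine (hdr _ h2).trans ?_
    refine mul_le_mul_of_nonneg_left ?_ hC.le
    refine Real.rpow_le_rpow (by positivity) ?_ he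
    exact_mod_cast Nat.div_le_self n p
  refine (Finset.sum_le_card_nsmul _ _ _ h1).trans ?_
  rw [nsmul_eq_mul, dr_two]
  refine mul_le_mul_of_nonneg_right ?_ (by positivity)
  refine Nat.cast_le.mpr (Finset.card_le_card ?_)
  intro p hp
  rw [Finset.mem_filter] at hp
  exact Nat.mem_divisors.mpr ⟨hp.2, by omega⟩

/-- the model, with coefficients at most `M q^(e-1)` -/
theorem fs_bd (r : ℕ) (E : ℕ → Polynomial ℝ) (hE : ∀ q, (E q).natDegree ≤ r - 1) (M e L X : ℝ)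
    (hM : 0 ≤ M) (he : 0 ≤ e) (hX : 1 ≤ X) (hL : 1 ≤ L)
    (hc : ∀ q j : ℕ, 1 ≤ q → |(E q).coeff j| ≤ M * (q : ℝ) ^ (e - 1)) (Q n : ℕ) (hQX : (Q : ℝ) ≤ X)
    (hn : 1 ≤ n) (hLn : Real.log n ≤ L) (hLQ : 1 + Real.log X ≤ L) :
    |fs E Q n| ≤ ((r : ℝ) + 1) * ((r : ℝ) + 2) * M * L ^ r * X ^ e * (L * dr 2 n) := by
  have hX0 : (0 : ℝ) < X := by linarith
  have hn1 : (1 : ℝ) ≤ n := by exact_mod_cast hn
  have hu0 : 0 ≤ Real.log n := Real.log_nonneg hn1
  have hd0 : 0 ≤ dr 2 n := dr_nonneg _ _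
  rcases Nat.eq_zero_or_pos Q with hQ | hQ
  · subst hQ
    have h0 : fs E 0 n = 0 := by
      unfold fs
      simp
    rw [h0, abs_zero]
    positivity
  have hQ1 : (1 : ℝ) ≤ Q := by exact_mod_cast hQ
  have hlogQ : 1 + Real.log Q ≤ L := by
    have := Real.log_le_log (by linarith) hQX
    linarith
  have hterm : ∀ q ∈ Finset.Icc 1 Q, |Gh n q * (ed (E q)).eval (Real.log n)| ≤
      (((r : ℝ) + 1) * ((r : ℝ) + 2) * M * L ^ r * X ^ e) *
        ((∑ x ∈ q.divisorsAntidiagonal, Fh n x.2) * (1 / (q : ℝ))) := by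
    intro q hq
    rw [Finset.mem_Icc] at hq
    have hq1 : (1 : ℝ) ≤ q := by exact_mod_cast hq.1
    have hqX : (q : ℝ) ≤ X := le_trans (by exact_mod_cast hq.2) hQX
    have hpow : (q : ℝ) ^ (e - 1) ≤ X ^ e * (1 / (q : ℝ)) := by
      rw [Real.rpow_sub_one (by linarith)]
      rw [div_eq_mul_one_div]
      exact mul_le_mul_of_nonneg_right (Real.rpow_le_rpow (by linarith) hqX he) (by positivity)
    have h1 := IF6.ed_bd r (E q) (hE q) (M * (q : ℝ) ^ (e - 1)) (by positivity)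
      (fun j => hc q j hq.1) (Real.log n) L hu0 hL hLn
    rw [abs_mul]
    have h2 := IF6.abs_Gh n q
    have h3 : 0 ≤ ∑ x ∈ q.divisorsAntidiagonal, Fh n x.2 :=
      Finset.sum_nonneg fun x _ => IF6.Fh_nonneg _ _
    calc |Gh n q| * |(ed (E q)).eval (Real.log n)|
        ≤ (∑ x ∈ q.divisorsAntidiagonal, Fh n x.2) *
          (((r : ℝ) + 1) * ((r : ℝ) + 2) * (M * (q : ℝ) ^ (e - 1)) * L ^ r) :=
          mul_le_mul h2 h1 (abs_nonneg _) h3
      _ ≤ (∑ x ∈ q.divisorsAntidiagonal, Fh n x.2) *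
          (((r : ℝ) + 1) * ((r : ℝ) + 2) * (M * (X ^ e * (1 / (q : ℝ)))) * L ^ r) := by
          refine mul_le_mul_of_nonneg_left ?_ h3
          refine mul_le_mul_of_nonneg_right ?_ (by positivity)
          refine mul_le_mul_of_nonneg_left ?_ (by positivity)
          exact mul_le_mul_of_nonneg_left hpow hM
      _ = _ := by ring
  have hA : 0 ≤ ((r : ℝ) + 1) * ((r : ℝ) + 2) * M * L ^ r * X ^ e := by positivity
  calc |fs E Q n| ≤ ∑ q ∈ Finset.Icc 1 Q, |Gh n q * (ed (E q)).eval (Real.log n)| := by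
        unfold fs
        exact Finset.abs_sum_le_sum_abs _ _
    _ ≤ ∑ q ∈ Finset.Icc 1 Q, (((r : ℝ) + 1) * ((r : ℝ) + 2) * M * L ^ r * X ^ e) *
        ((∑ x ∈ q.divisorsAntidiagonal, Fh n x.2) * (1 / (q : ℝ))) := Finset.sum_le_sum hterm
    _ = (((r : ℝ) + 1) * ((r : ℝ) + 2) * M * L ^ r * X ^ e) *
        ∑ q ∈ Finset.Icc 1 Q, ((∑ x ∈ q.divisorsAntidiagonal, Fh n x.2) * (1 / (q : ℝ))) := by
        rw [Finset.mul_sum]
    _ ≤ (((r : ℝ) + 1) * ((r : ℝ) + 2) * M * L ^ r * X ^ e) * ((1 + Real.log Q) * dr 2 n) :=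
        mul_le_mul_of_nonneg_left (IF6.dbl n Q hn) hA
    _ ≤ _ := mul_le_mul_of_nonneg_left (mul_le_mul_of_nonneg_right hlogQ hd0) hA

end IK7

theorem prK7 (hL0 : tsL0) (hK5 : tsK5) : tsK7 := by
  intro r E hr hE hCB ε hε
  obtain ⟨hdeg, hK⟩ := hK5 r E hr hE hCB
  set e : ℝ := ε / 8 with he
  have he0 : 0 < e := by positivity
  obtain ⟨C0, hC0, hCB'⟩ := hK e he0
  obtain ⟨C1, hC1, hdr⟩ := hL0 2 e he0
  obtain ⟨C2, hC2, hdr2⟩ := hL0 r e he0
  set s : ℝ := e / (2 * (r : ℝ) + 2) with hs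
  have hs0 : 0 < s := by positivity
  set K1 : ℝ := 1 + 3 ^ s / s with hK1
  have hK1p : 0 < K1 := by positivity
  have hA0 : 0 < ((r : ℝ) + 1) * ((r : ℝ) + 2) * C0 * K1 ^ (2 * r + 2) * (C1 * 3 ^ e) := by
    positivity
  have hB0 : 0 < C1 * C2 * (3 ^ e * 3 ^ e : ℝ) := by positivity
  refine ⟨((r : ℝ) + 1) * ((r : ℝ) + 2) * C0 * K1 ^ (2 * r + 2) * (C1 * 3 ^ e) +
    C1 * C2 * (3 ^ e * 3 ^ e), by positivity, ?_⟩
  intro X z w Q n hX hw hwX hQX hn hnX
  have hX0 : (0 : ℝ) < X := by linarith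
  have hn1 : (1 : ℝ) ≤ n := by exact_mod_cast hn
  have hXe : (0 : ℝ) < X ^ ε := Real.rpow_pos_of_pos hX0 _
  have h3X : (n : ℝ) ^ e ≤ 3 ^ e * X ^ e := by
    rw [← Real.mul_rpow (by norm_num) hX0.le]
    exact Real.rpow_le_rpow (by linarith) hnX he0.le
  have hd2 : dr 2 n ≤ C1 * (3 ^ e * X ^ e) :=
    (hdr n hn).trans (mul_le_mul_of_nonneg_left h3X hC1.le)
  have hd0 : 0 ≤ dr 2 n := IK7.dr_nonneg _ _
  have hX2 : X ^ e * X ^ e ≤ X ^ ε := by
    rw [← Real.rpow_add hX0]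
    refine Real.rpow_le_rpow_of_exponent_le hX ?_
    rw [he]; linarith
  have hX3 : X ^ e * X ^ e * X ^ e ≤ X ^ ε := by
    rw [← Real.rpow_add hX0, ← Real.rpow_add hX0]
    refine Real.rpow_le_rpow_of_exponent_le hX ?_
    rw [he]; linarith
  constructor
  · have h1 := IK7.up_bd r z w e C2 n hn he0.le hC2 hdr2
    calc |up r z w n| ≤ dr 2 n * (C2 * (n : ℝ) ^ e) := h1
      _ ≤ (C1 * (3 ^ e * X ^ e)) * (C2 * (3 ^ e * X ^ e)) :=
          mul_le_mul hd2 (mul_le_mul_of_nonneg_left h3X hC2.le) (by positivity) (by positivity)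
      _ = (C1 * C2 * (3 ^ e * 3 ^ e)) * (X ^ e * X ^ e) := by ring
      _ ≤ (C1 * C2 * (3 ^ e * 3 ^ e)) * X ^ ε := mul_le_mul_of_nonneg_left hX2 hB0.le
      _ ≤ _ := by
          rw [add_mul]
          have := mul_pos hA0 hXe
          linarith
  · set L : ℝ := 1 + Real.log (3 * X) with hL
    have hlog0 : 0 ≤ Real.log (3 * X) := Real.log_nonneg (by linarith)
    have hL1 : 1 ≤ L := by linarith
    have huL : Real.log n ≤ L := by
      have := Real.log_le_log (by linarith) hnX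
      linarith
    have hXL : 1 + Real.log X ≤ L := by
      have := Real.log_le_log hX0 (show X ≤ 3 * X by linarith)
      linarith
    have hwL : 1 + Real.log w ≤ L := by
      have := Real.log_le_log (by linarith) (show w ≤ 3 * X by linarith)
      linarith
    have hw0 : 0 ≤ 1 + Real.log w := by
      have := Real.log_nonneg hw
      linarith
    have hLX : L ^ (2 * r + 2) ≤ K1 ^ (2 * r + 2) * X ^ e := by
      have h1 : L ≤ K1 * X ^ s := by
        have h2 := Real.log_le_rpow_div (show (0 : ℝ) ≤ 3 * X by linarith) hs0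
        rw [Real.mul_rpow (by norm_num) hX0.le] at h2
        have h3 : (1 : ℝ) ≤ X ^ s := Real.one_le_rpow hX hs0.le
        have h4 : K1 * X ^ s = X ^ s + 3 ^ s * X ^ s / s := by rw [hK1]; ring
        rw [h4, hL]
        linarith
      have h5 : (K1 * X ^ s) ^ (2 * r + 2) = K1 ^ (2 * r + 2) * X ^ e := by
        rw [mul_pow]
        congr 1
        rw [← Real.rpow_natCast, ← Real.rpow_mul hX0.le]
        congr 1
        rw [hs]
        push_cast
        field_simp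
      rw [← h5]
      exact pow_le_pow_left₀ (by linarith) h1 _
    have hc : ∀ q j : ℕ, 1 ≤ q →
        |(Eu E z w q).coeff j| ≤ (C0 * L ^ (r + 1)) * (q : ℝ) ^ (e - 1) := by
      intro q j hq
      refine (hCB' z w q j hw hq).trans ?_
      refine mul_le_mul_of_nonneg_right ?_ (by positivity)
      exact mul_le_mul_of_nonneg_left (pow_le_pow_left₀ hw0 hwL _) hC0.le
    have h1 := IK7.fs_bd r (Eu E z w) (fun q => hdeg z w q) (C0 * L ^ (r + 1)) e L X
      (by positivity) he0.le hX hL1 hc Q n hQX hn huL hXL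
    calc |fs (Eu E z w) Q n| ≤ ((r : ℝ) + 1) * ((r : ℝ) + 2) * (C0 * L ^ (r + 1)) * L ^ r * X ^ e *
          (L * dr 2 n) := h1
      _ ≤ ((r : ℝ) + 1) * ((r : ℝ) + 2) * (C0 * L ^ (r + 1)) * L ^ r * X ^ e *
          (L * (C1 * (3 ^ e * X ^ e))) := by
          refine mul_le_mul_of_nonneg_left ?_ (by positivity)
          exact mul_le_mul_of_nonneg_left hd2 (by linarith)
      _ = ((r : ℝ) + 1) * ((r : ℝ) + 2) * C0 * (C1 * 3 ^ e) * (X ^ e * X ^ e) *
          L ^ (2 * r + 2) := by ring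
      _ ≤ ((r : ℝ) + 1) * ((r : ℝ) + 2) * C0 * (C1 * 3 ^ e) * (X ^ e * X ^ e) *
          (K1 ^ (2 * r + 2) * X ^ e) := mul_le_mul_of_nonneg_left hLX (by positivity)
      _ = (((r : ℝ) + 1) * ((r : ℝ) + 2) * C0 * K1 ^ (2 * r + 2) * (C1 * 3 ^ e)) *
          (X ^ e * X ^ e * X ^ e) := by ring
      _ ≤ (((r : ℝ) + 1) * ((r : ℝ) + 2) * C0 * K1 ^ (2 * r + 2) * (C1 * 3 ^ e)) * X ^ ε :=
          mul_le_mul_of_nonneg_left hX3 hA0.le
      _ ≤ _ := by
          rw [add_mul]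
          have := mul_pos hB0 hXe
          linarith

end Pool.Agent.Work.MP_122e00_nt.TS
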