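import Pool.Agent.Work.MP_122e00_nt.TS.Stmts8
import Pool.Agent.Work.MP_56b8f5_nt.WM.I_Mert

/-!
Block TS, item N1: Mertens' theorems.
-/

namespace Pool.Agent.Work.MP_122e00_nt.TS

open Finset Filter Topology ArithmeticFunction MeasureTheory
open scoped ArithmeticFunction.zeta ArithmeticFunction.Moebius

namespace IN1

theorem pr1_eq (Z : ℕ) : Pool.Agent.Work.MP_56b8f5_nt.WM.pr Z = pr1 Z :=
  Pool.Agent.Work.MP_56b8f5_nt.WM.I_Mert.pr_eq Z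

theorem loglog_floor {z : ℝ} (hz : 2 ≤ z) :
    Real.log (Real.log (⌊z⌋₊ : ℝ)) ≤ Real.log (Real.log z) ∧
      Real.log (Real.log z) ≤ Real.log (Real.log (⌊z⌋₊ : ℝ)) + Real.log 2 := by
  have h2 : 2 ≤ ⌊z⌋₊ := Nat.le_floor (by exact_mod_cast hz)
  have h2' : (2 : ℝ) ≤ (⌊z⌋₊ : ℝ) := by exact_mod_cast h2
  have hfl : (⌊z⌋₊ : ℝ) ≤ z := Nat.floor_le (by linarith)
  have hfu : z < (⌊z⌋₊ : ℝ) + 1 := Nat.lt_floor_add_one z
  have hlf : 0 < Real.log (⌊z⌋₊ : ℝ) := Real.log_pos (by linarith)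
  have hlz : Real.log (⌊z⌋₊ : ℝ) ≤ Real.log z := Real.log_le_log (by linarith) hfl
  have hlz2 : Real.log z ≤ 2 * Real.log (⌊z⌋₊ : ℝ) := by
    have h3 : z ≤ (⌊z⌋₊ : ℝ) ^ 2 := by nlinarith
    calc Real.log z ≤ Real.log ((⌊z⌋₊ : ℝ) ^ 2) := Real.log_le_log (by linarith) h3
      _ = 2 * Real.log (⌊z⌋₊ : ℝ) := by rw [Real.log_pow]; norm_num
  refine ⟨Real.log_le_log hlf hlz, ?_⟩
  calc Real.log (Real.log z) ≤ Real.log (2 * Real.log (⌊z⌋₊ : ℝ)) :=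
        Real.log_le_log (by linarith) hlz2
    _ = Real.log (Real.log (⌊z⌋₊ : ℝ)) + Real.log 2 := by
        rw [Real.log_mul (by norm_num) hlf.ne']; ring

theorem pw_eq {z w : ℝ} (hz : 2 ≤ z) (hzw : z ≤ w) :
    pw z w = ∑ p ∈ pr1 ⌊w⌋₊, 1 / (p : ℝ) - ∑ p ∈ pr1 ⌊z⌋₊, 1 / (p : ℝ) := by
  have hfl : ⌊z⌋₊ ≤ ⌊w⌋₊ := Nat.floor_mono hzw
  have h1 : pr1 ⌊w⌋₊ = PW z w ∪ pr1 ⌊z⌋₊ := by
    ext p
    simp only [pr1, PW, Finset.mem_union, Finset.mem_filter, Finset.mem_Icc]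
    constructor
    · rintro ⟨⟨h1, h2⟩, hp⟩
      rcases lt_or_ge z (p : ℝ) with h | h
      · exact Or.inl ⟨⟨h1, h2⟩, hp, h⟩
      · exact Or.inr ⟨⟨h1, Nat.le_floor h⟩, hp⟩
    · rintro (⟨⟨h1, h2⟩, hp, h⟩ | ⟨⟨h1, h2⟩, hp⟩)
      · exact ⟨⟨h1, h2⟩, hp⟩
      · exact ⟨⟨h1, h2.trans hfl⟩, hp⟩
  have h2 : Disjoint (PW z w) (pr1 ⌊z⌋₊) := by
    rw [Finset.disjoint_left]
    intro p hp hp'
    simp only [pr1, PW, Finset.mem_filter, Finset.mem_Icc] at hp hp'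
    have h3 : (p : ℝ) ≤ z := (Nat.le_floor_iff (by linarith)).1 hp'.1.2
    linarith [hp.2.2]
  rw [h1, Finset.sum_union h2]
  unfold pw
  ring

end IN1

open IN1 in
theorem prN1 : tsN1 := by
  obtain ⟨C1, h1⟩ := Pool.Agent.Work.MP_e0c7e8_nt.Mert.mertens1.2
  obtain ⟨C2, hC2, h2⟩ := Pool.Agent.Work.MP_56b8f5_nt.WM.Mert_pf
  have hlC2 : 0 ≤ Real.log C2 := Real.log_nonneg hC2
  have hl2 : 0 < Real.log 2 := Real.log_pos (by norm_num)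
  have key : ∀ Z : ℕ, 2 ≤ Z →
      |∑ p ∈ pr1 Z, 1 / (p : ℝ) - Real.log (Real.log Z)| ≤ Real.log C2 := by
    intro Z hZ
    have hlZ : 0 < Real.log (Z : ℝ) := Real.log_pos (by exact_mod_cast (by omega : 1 < Z))
    have hS : Pool.Agent.Work.MP_56b8f5_nt.WM.S1 Z = ∑ p ∈ pr1 Z, 1 / (p : ℝ) := by
      unfold Pool.Agent.Work.MP_56b8f5_nt.WM.S1
      rw [pr1_eq]
    obtain ⟨ha, hb⟩ := h2 Z hZ
    rw [hS] at ha hb
    have ha' := Real.log_le_log (Real.exp_pos _) ha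
    rw [Real.log_exp, Real.log_mul (by linarith) hlZ.ne'] at ha'
    have hb' := Real.log_le_log hlZ hb
    rw [Real.log_mul (by linarith) (Real.exp_pos _).ne', Real.log_exp] at hb'
    rw [abs_le]
    constructor <;> linarith
  refine ⟨|C1| + 2 * Real.log C2 + 2 * Real.log 2, by positivity, ?_, ?_⟩
  · intro Z hZ
    refine ⟨?_, (key Z hZ).trans ?_⟩
    · have h3 := h1 Z (by exact_mod_cast (by omega : 1 ≤ Z))
      rw [Nat.floor_natCast] at h3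
      have h4 := (abs_le.1 h3).2
      have h5 := le_abs_self C1
      have h6 : ∑ p ∈ pr1 Z, Real.log p / p =
        ∑ p ∈ (Finset.Icc 1 Z).filter Nat.Prime, Real.log p / (p : ℝ) := rfl
      rw [h6]
      linarith
    · linarith [abs_nonneg C1]
  · intro z w hz hzw
    have hw : 2 ≤ w := hz.trans hzw
    have hfz : 2 ≤ ⌊z⌋₊ := Nat.le_floor (by exact_mod_cast hz)
    have hfw : 2 ≤ ⌊w⌋₊ := Nat.le_floor (by exact_mod_cast hw)
    have kz := abs_le.1 (key ⌊z⌋₊ hfz)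
    have kw := abs_le.1 (key ⌊w⌋₊ hfw)
    obtain ⟨z1, z2⟩ := loglog_floor hz
    obtain ⟨w1, w2⟩ := loglog_floor hw
    have hlz : 0 < Real.log z := Real.log_pos (by linarith)
    have hlw : 0 < Real.log w := Real.log_pos (by linarith)
    rw [pw_eq hz hzw, Real.log_div hlw.ne' hlz.ne', abs_le]
    have h5 := abs_nonneg C1
    constructor <;> linarith [kz.1, kz.2, kw.1, kw.2]

end Pool.Agent.Work.MP_122e00_nt.TS
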