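import Pool.Agent.Work.MP_122e00_nt.TS.Stmts8

set_option autoImplicit false

/-!
# Thin shifts, item N10 (helper70)
-/

namespace Pool.Agent.Work.MP_122e00_nt.TS

open Finset Filter Topology ArithmeticFunction MeasureTheory
open scoped ArithmeticFunction.zeta ArithmeticFunction.Moebius

namespace IN10

/-! ## smooth parts -/

theorem sm_dvd (Y m : ℕ) (hm : m ≠ 0) : sm Y m ∣ m := by
  have h := Nat.prod_factorization_pow_eq_self hm
  unfold sm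
  have h2 : ∏ p ∈ m.primeFactors.filter (fun p => p ≤ Y), p ^ m.factorization p ∣
      ∏ p ∈ m.primeFactors, p ^ m.factorization p :=
    Finset.prod_dvd_prod_of_subset _ _ _ (Finset.filter_subset _ _)
  have h3 : ∏ p ∈ m.primeFactors, p ^ m.factorization p = m := h
  rwa [h3] at h2

theorem sm_smooth (Y m : ℕ) : sm Y m ∈ (Y + 1).smoothNumbers := by
  rw [Nat.mem_smoothNumbers']
  intro q hq hd
  unfold sm at hd
  obtain ⟨p, hp, hqp⟩ := (hq.prime.dvd_finsetProd_iff _).1 hd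
  rw [Finset.mem_filter] at hp
  have h1 := hq.prime.dvd_of_dvd_pow hqp
  have h2 := (Nat.prime_dvd_prime_iff_eq hq (Nat.prime_of_mem_primeFactors hp.1)).1 h1
  omega

theorem sm_pos (Y m : ℕ) : 0 < sm Y m := by
  unfold sm
  refine Finset.prod_pos fun p hp => Nat.pow_pos ?_
  exact (Nat.prime_of_mem_primeFactors (Finset.mem_filter.1 hp).1).pos

/-- the completely multiplicative function `n ↦ n ^ (-7/8)` -/
noncomputable def ff : ℕ →* ℝ where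
  toFun n := (n : ℝ) ^ (-(7 / 8) : ℝ)
  map_one' := by simp
  map_mul' a b := by
    push_cast
    exact Real.mul_rpow (Nat.cast_nonneg _) (Nat.cast_nonneg _)

theorem ff_apply (n : ℕ) : ff n = (n : ℝ) ^ (-(7 / 8) : ℝ) := rfl

theorem ff_nonneg (n : ℕ) : 0 ≤ ff n := Real.rpow_nonneg (Nat.cast_nonneg _) _

theorem two_le : (2 : ℝ) ^ (-(7 / 8) : ℝ) ≤ 2 / 3 := by
  have h1 : ((2 : ℝ) ^ (-(7 / 8) : ℝ)) ^ 8 = 1 / 128 := by
    rw [← Real.rpow_natCast, ← Real.rpow_mul (by norm_num)]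
    rw [show (-(7 / 8) : ℝ) * ((8 : ℕ) : ℝ) = -((7 : ℕ) : ℝ) by norm_num, Real.rpow_neg (by norm_num),
      Real.rpow_natCast]
    norm_num
  have h2 : ((2 : ℝ) ^ (-(7 / 8) : ℝ)) ^ 8 ≤ (2 / 3 : ℝ) ^ 8 := by
    rw [h1]
    norm_num
  exact le_of_pow_le_pow_left₀ (by norm_num) (by norm_num) h2

theorem ff_le {p : ℕ} (hp : p.Prime) : ff p ≤ 2 / 3 := by
  rw [ff_apply]
  refine le_trans ?_ two_le
  exact Real.rpow_le_rpow_of_nonpos (by norm_num) (by exact_mod_cast hp.two_le) (by norm_num)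

theorem inv_le {x : ℝ} (h0 : 0 ≤ x) (h1 : x ≤ 2 / 3) : (1 - x)⁻¹ ≤ Real.exp (3 * x) := by
  have h2 : 3 * x + 1 ≤ Real.exp (3 * x) := Real.add_one_le_exp _
  refine le_trans ?_ h2
  rw [inv_le_iff_one_le_mul₀ (by linarith)]
  nlinarith

/-- sums over smooth numbers -/
theorem sum_smooth (Y : ℕ) (S : Finset ℕ) (hS : ∀ a ∈ S, a ∈ (Y + 1).smoothNumbers) :
    ∑ a ∈ S, (a : ℝ) ^ (-(7 / 8) : ℝ) ≤ ∏ p ∈ (Y + 1).primesBelow, (1 - ff p)⁻¹ := by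
  have h := (EulerProduct.summable_and_hasSum_smoothNumbers_prod_primesBelow_geometric (f := ff)
    (fun {p} hp => by
      rw [Real.norm_of_nonneg (ff_nonneg p)]
      linarith [ff_le hp]) (Y + 1)).2
  have h1 := sum_le_hasSum (S.subtype (fun a => a ∈ (Y + 1).smoothNumbers))
    (fun i _ => ff_nonneg i) h
  rw [Finset.sum_subtype_of_mem (fun a => ff a) hS] at h1
  exact h1

theorem sum_pow (Y : ℕ) : ∑ k ∈ Finset.Icc 1 Y, (k : ℝ) ^ (-(7 / 8) : ℝ) ≤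
    8 * (Y : ℝ) ^ (1 / 8 : ℝ) := by
  induction Y with
  | zero => simp
  | succ Y ih =>
    rw [Finset.sum_Icc_succ_top (by omega)]
    have hY : (0 : ℝ) < ((Y + 1 : ℕ) : ℝ) := by positivity
    have h1 : (Y : ℝ) = ((Y + 1 : ℕ) : ℝ) * (1 + -(1 / ((Y + 1 : ℕ) : ℝ))) := by
      field_simp
      push_cast
      ring
    have h3 : (1 : ℝ) / ((Y + 1 : ℕ) : ℝ) ≤ 1 := by
      rw [div_le_one hY]
      push_cast
      linarith [Nat.cast_nonneg (α := ℝ) Y]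
    have h2 : (Y : ℝ) ^ (1 / 8 : ℝ) ≤ ((Y + 1 : ℕ) : ℝ) ^ (1 / 8 : ℝ) *
        (1 + 1 / 8 * -(1 / ((Y + 1 : ℕ) : ℝ))) := by
      conv_lhs => rw [h1]
      rw [Real.mul_rpow hY.le (by linarith)]
      refine mul_le_mul_of_nonneg_left ?_ (Real.rpow_nonneg hY.le _)
      exact rpow_one_add_le_one_add_mul_self (by linarith) (by norm_num) (by norm_num)
    have h4 : ((Y + 1 : ℕ) : ℝ) ^ (-(7 / 8) : ℝ) =
        ((Y + 1 : ℕ) : ℝ) ^ (1 / 8 : ℝ) * (1 / ((Y + 1 : ℕ) : ℝ)) := by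
      rw [one_div ((Y + 1 : ℕ) : ℝ), ← Real.rpow_neg_one, ← Real.rpow_add hY]
      norm_num
    rw [h4]
    linarith

theorem prod_le (Y : ℕ) : ∏ p ∈ (Y + 1).primesBelow, (1 - ff p)⁻¹ ≤
    Real.exp (24 * (Y : ℝ) ^ (1 / 8 : ℝ)) := by
  calc ∏ p ∈ (Y + 1).primesBelow, (1 - ff p)⁻¹ ≤ ∏ p ∈ (Y + 1).primesBelow, Real.exp (3 * ff p) := by
        refine Finset.prod_le_prod (fun p hp => ?_) fun p hp => ?_
        · have := ff_le (Nat.mem_primesBelow.1 hp).2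
          exact inv_nonneg.2 (by linarith)
        · exact inv_le (ff_nonneg p) (ff_le (Nat.mem_primesBelow.1 hp).2)
    _ = Real.exp (∑ p ∈ (Y + 1).primesBelow, 3 * ff p) := (Real.exp_sum _ _).symm
    _ ≤ Real.exp (24 * (Y : ℝ) ^ (1 / 8 : ℝ)) := by
        apply Real.exp_le_exp.2
        rw [← Finset.mul_sum]
        have h1 : ∑ p ∈ (Y + 1).primesBelow, ff p ≤
            ∑ k ∈ Finset.Icc 1 Y, (k : ℝ) ^ (-(7 / 8) : ℝ) := by
          refine Finset.sum_le_sum_of_subset_of_nonneg (fun p hp => ?_) fun p _ _ => ff_nonneg p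
          rw [Nat.mem_primesBelow] at hp
          have := hp.2.pos
          rw [Finset.mem_Icc]
          omega
        have h2 := sum_pow Y
        linarith

/-- Rankin's bound -/
theorem rankin (Y N : ℕ) (T : ℝ) (hT : 0 < T) (S : Finset ℕ)
    (hS : ∀ m ∈ S, 1 ≤ m ∧ m ≤ N ∧ T < (sm Y m : ℝ)) :
    (S.card : ℝ) ≤ T ^ (-(1 / 8) : ℝ) * (N * Real.exp (24 * (Y : ℝ) ^ (1 / 8 : ℝ))) := by
  classical
  have h1 : (S.card : ℝ) ≤ ∑ m ∈ S, T ^ (-(1 / 8) : ℝ) * (sm Y m : ℝ) ^ (1 / 8 : ℝ) := by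
    rw [Finset.card_eq_sum_ones, Nat.cast_sum]
    refine Finset.sum_le_sum fun m hm => ?_
    have h2 := (hS m hm).2.2
    rw [Nat.cast_one, Real.rpow_neg hT.le, ← div_eq_inv_mul, ← Real.div_rpow (by positivity) hT.le]
    exact Real.one_le_rpow (by rw [one_le_div hT]; exact h2.le) (by norm_num)
  rw [← Finset.mul_sum] at h1
  refine h1.trans (mul_le_mul_of_nonneg_left ?_ (Real.rpow_nonneg hT.le _))
  obtain ⟨I, hI⟩ : ∃ I : Finset ℕ, I = Finset.Ioc 0 N := ⟨_, rfl⟩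
  have h3 : ∑ m ∈ S, (sm Y m : ℝ) ^ (1 / 8 : ℝ) ≤ ∑ m ∈ I, (sm Y m : ℝ) ^ (1 / 8 : ℝ) := by
    refine Finset.sum_le_sum_of_subset_of_nonneg (fun m hm => ?_) fun m _ _ => by positivity
    have := hS m hm
    rw [hI, Finset.mem_Ioc]
    omega
  refine h3.trans ?_
  have h4 := Finset.sum_fiberwise_of_maps_to (s := I) (t := I.image (sm Y)) (g := sm Y)
    (fun m hm => Finset.mem_image_of_mem _ hm) (fun m => (sm Y m : ℝ) ^ (1 / 8 : ℝ))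
  rw [← h4]
  have h5 : ∀ a ∈ I.image (sm Y), ∑ m ∈ I with sm Y m = a, (sm Y m : ℝ) ^ (1 / 8 : ℝ) ≤
      N * (a : ℝ) ^ (-(7 / 8) : ℝ) := by
    intro a ha
    obtain ⟨m₀, -, hm₀⟩ := Finset.mem_image.1 ha
    have ha0 : 0 < a := by
      rw [← hm₀]
      exact sm_pos Y m₀
    have har : (0 : ℝ) < a := by exact_mod_cast ha0
    have h6 : ∑ m ∈ I with sm Y m = a, (sm Y m : ℝ) ^ (1 / 8 : ℝ) =
        ((I.filter fun m => sm Y m = a).card : ℝ) * (a : ℝ) ^ (1 / 8 : ℝ) := by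
      rw [Finset.sum_congr rfl (g := fun _ => (a : ℝ) ^ (1 / 8 : ℝ)), Finset.sum_const,
        nsmul_eq_mul]
      intro m hm
      rw [(Finset.mem_filter.1 hm).2]
    rw [h6]
    have h7 : ((I.filter fun m => sm Y m = a).card : ℝ) ≤ (N : ℝ) / a := by
      have h8 : (I.filter fun m => sm Y m = a).card ≤ N / a := by
        rw [← Nat.Ioc_filter_dvd_card_eq_div, ← hI]
        refine Finset.card_le_card fun m hm => ?_
        rw [Finset.mem_filter] at hm ⊢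
        refine ⟨hm.1, ?_⟩
        rw [← hm.2]
        refine sm_dvd Y m ?_
        have := hm.1
        rw [hI, Finset.mem_Ioc] at this
        omega
      calc ((I.filter fun m => sm Y m = a).card : ℝ) ≤ ((N / a : ℕ) : ℝ) := by exact_mod_cast h8
        _ ≤ (N : ℝ) / a := Nat.cast_div_le
    calc ((I.filter fun m => sm Y m = a).card : ℝ) * (a : ℝ) ^ (1 / 8 : ℝ) ≤
          (N : ℝ) / a * (a : ℝ) ^ (1 / 8 : ℝ) :=
          mul_le_mul_of_nonneg_right h7 (Real.rpow_nonneg har.le _)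
      _ = N * ((a : ℝ) ^ (-1 : ℝ) * (a : ℝ) ^ (1 / 8 : ℝ)) := by
          rw [Real.rpow_neg_one]
          ring
      _ = N * (a : ℝ) ^ (-(7 / 8) : ℝ) := by
          rw [← Real.rpow_add har]
          norm_num
  refine (Finset.sum_le_sum h5).trans ?_
  rw [← Finset.mul_sum]
  refine mul_le_mul_of_nonneg_left ?_ (Nat.cast_nonneg _)
  refine (sum_smooth Y _ fun a ha => ?_).trans (prod_le Y)
  obtain ⟨m₀, -, hm₀⟩ := Finset.mem_image.1 ha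
  rw [← hm₀]
  exact sm_smooth Y m₀

/-- large prime powers -/
theorem first (X : ℝ) (hX : 1 ≤ X) (S : Finset ℕ)
    (hS : ∀ m ∈ S, 1 ≤ m ∧ m ≤ ⌊2 * X⌋₊ ∧ ∃ p j : ℕ, p.Prime ∧ (p : ℝ) ≤ X ^ (1 / 32 : ℝ) ∧
      p ^ j ∣ m ∧ X ^ (1 / 16 : ℝ) < ((p ^ j : ℕ) : ℝ)) :
    (S.card : ℝ) ≤ 2 * X ^ (31 / 32 : ℝ) := by
  classical
  have hXp : 0 < X := by linarith
  have hex : ∀ p : ℕ, 2 ≤ p → ∃ j, X ^ (1 / 16 : ℝ) < ((p ^ j : ℕ) : ℝ) := by
    intro p hp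
    obtain ⟨j, hj⟩ := pow_unbounded_of_one_lt (X ^ (1 / 16 : ℝ))
      (show (1 : ℝ) < p by exact_mod_cast (show 1 < p by omega))
    exact ⟨j, by push_cast; exact hj⟩
  obtain ⟨J, hJ⟩ : ∃ J : ℕ → ℕ, ∀ p : ℕ, 2 ≤ p → X ^ (1 / 16 : ℝ) < ((p ^ J p : ℕ) : ℝ) ∧
      ∀ j, X ^ (1 / 16 : ℝ) < ((p ^ j : ℕ) : ℝ) → J p ≤ j := by
    have h1 : ∀ p : ℕ, ∃ i : ℕ, 2 ≤ p → X ^ (1 / 16 : ℝ) < ((p ^ i : ℕ) : ℝ) ∧
        ∀ j, X ^ (1 / 16 : ℝ) < ((p ^ j : ℕ) : ℝ) → i ≤ j := by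
      intro p
      by_cases hp : 2 ≤ p
      · exact ⟨Nat.find (hex p hp), fun _ => ⟨Nat.find_spec (hex p hp),
          fun j hj => Nat.find_min' (hex p hp) hj⟩⟩
      · exact ⟨0, fun h => absurd h hp⟩
    choose J hJ using h1
    exact ⟨J, hJ⟩
  obtain ⟨P, hP⟩ : ∃ P : ℕ, P = ⌊X ^ (1 / 32 : ℝ)⌋₊ := ⟨_, rfl⟩
  obtain ⟨N, hN⟩ : ∃ N : ℕ, N = ⌊2 * X⌋₊ := ⟨_, rfl⟩
  have hsub : S ⊆ (Finset.Icc 2 P).biUnion
      (fun p => (Finset.Ioc 0 N).filter (fun m => p ^ J p ∣ m)) := by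
    intro m hm
    obtain ⟨h1, h2, p, j, hp, hpX, hd, hlt⟩ := hS m hm
    rw [Finset.mem_biUnion]
    refine ⟨p, ?_, ?_⟩
    · rw [Finset.mem_Icc, hP]
      exact ⟨hp.two_le, Nat.le_floor hpX⟩
    · rw [Finset.mem_filter, Finset.mem_Ioc, hN]
      exact ⟨⟨h1, h2⟩, (pow_dvd_pow p ((hJ p hp.two_le).2 j hlt)).trans hd⟩
  have h2 := (Finset.card_le_card hsub).trans Finset.card_biUnion_le
  have hNle : (N : ℝ) ≤ 2 * X := by
    rw [hN]
    exact Nat.floor_le (by linarith)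
  have h3 : ∀ p ∈ Finset.Icc 2 P, (((Finset.Ioc 0 N).filter (fun m => p ^ J p ∣ m)).card : ℝ) ≤
      2 * X ^ (15 / 16 : ℝ) := by
    intro p hp
    have hp2 := (Finset.mem_Icc.1 hp).1
    rw [Nat.Ioc_filter_dvd_card_eq_div]
    have h4 := (hJ p hp2).1
    have h5 : (0 : ℝ) < X ^ (1 / 16 : ℝ) := Real.rpow_pos_of_pos hXp _
    calc ((N / p ^ J p : ℕ) : ℝ) ≤ (N : ℝ) / ((p ^ J p : ℕ) : ℝ) := Nat.cast_div_le
      _ ≤ (2 * X) / X ^ (1 / 16 : ℝ) := div_le_div₀ (by linarith) hNle h5 h4.le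
      _ = 2 * X ^ (15 / 16 : ℝ) := by
          rw [mul_div_assoc]
          congr 1
          rw [div_eq_iff h5.ne', ← Real.rpow_add hXp]
          norm_num
  calc (S.card : ℝ) ≤ ((∑ p ∈ Finset.Icc 2 P,
        ((Finset.Ioc 0 N).filter (fun m => p ^ J p ∣ m)).card : ℕ) : ℝ) := by exact_mod_cast h2
    _ = ∑ p ∈ Finset.Icc 2 P, (((Finset.Ioc 0 N).filter (fun m => p ^ J p ∣ m)).card : ℝ) := by
        push_cast
        rfl
    _ ≤ ∑ p ∈ Finset.Icc 2 P, 2 * X ^ (15 / 16 : ℝ) := Finset.sum_le_sum h3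
    _ = ((Finset.Icc 2 P).card : ℝ) * (2 * X ^ (15 / 16 : ℝ)) := by
        rw [Finset.sum_const, nsmul_eq_mul]
    _ ≤ X ^ (1 / 32 : ℝ) * (2 * X ^ (15 / 16 : ℝ)) := by
        refine mul_le_mul_of_nonneg_right ?_ (by positivity)
        have h6 : ((Finset.Icc 2 P).card : ℝ) ≤ P := by
          rw [Nat.card_Icc]
          exact_mod_cast (show P + 1 - 2 ≤ P by omega)
        refine h6.trans ?_
        rw [hP]
        exact Nat.floor_le (Real.rpow_nonneg hXp.le _)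
    _ = 2 * X ^ (31 / 32 : ℝ) := by
        rw [show (31 / 32 : ℝ) = 1 / 32 + 15 / 16 by norm_num, Real.rpow_add hXp]
        ring

theorem ev_pow (c e : ℝ) (he : 0 < e) : ∀ᶠ X : ℝ in atTop, c ≤ X ^ e :=
  (tendsto_rpow_atTop he).eventually_ge_atTop c

/-- the exponential factor -/
theorem ev_exp : ∀ᶠ X : ℝ in atTop,
    Real.exp (24 * ((⌊Real.log X ^ 4⌋₊ : ℕ) : ℝ) ^ (1 / 8 : ℝ)) ≤ X ^ (1 / 1000 : ℝ) := by
  have h1 : ∀ᶠ X : ℝ in atTop, (24000 : ℝ) ^ 2 ≤ Real.log X :=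
    Real.tendsto_log_atTop.eventually_ge_atTop _
  filter_upwards [h1, eventually_gt_atTop (0 : ℝ)] with X hX hX0
  have hl0 : 0 ≤ Real.log X := le_trans (by norm_num) hX
  have h2 : ((⌊Real.log X ^ 4⌋₊ : ℕ) : ℝ) ^ (1 / 8 : ℝ) ≤ Real.sqrt (Real.log X) := by
    have h3 : ((⌊Real.log X ^ 4⌋₊ : ℕ) : ℝ) ≤ Real.log X ^ 4 := Nat.floor_le (by positivity)
    refine (Real.rpow_le_rpow (Nat.cast_nonneg _) h3 (by norm_num)).trans (le_of_eq ?_)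
    rw [← Real.rpow_natCast, ← Real.rpow_mul hl0, Real.sqrt_eq_rpow]
    congr 1
    norm_num
  have h4 : 24000 * Real.sqrt (Real.log X) ≤ Real.log X := by
    have h5 : (24000 : ℝ) ≤ Real.sqrt (Real.log X) := Real.le_sqrt_of_sq_le hX
    calc 24000 * Real.sqrt (Real.log X) ≤ Real.sqrt (Real.log X) * Real.sqrt (Real.log X) :=
          mul_le_mul_of_nonneg_right h5 (Real.sqrt_nonneg _)
      _ = Real.log X := Real.mul_self_sqrt hl0
  rw [Real.rpow_def_of_pos hX0]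
  apply Real.exp_le_exp.2
  linarith

end IN10

open IN10

/-- item N10 -/
theorem prN10 : tsN10 := by
  obtain ⟨X0, hX0⟩ := Filter.eventually_atTop.1
    (((ev_pow 4 (1 - 1 / 200 - 31 / 32 : ℝ) (by norm_num)).and
      (ev_pow 4 (1 / 128 - 1 / 1000 - 1 / 200 : ℝ) (by norm_num))).and
      (ev_exp.and (eventually_ge_atTop (1 : ℝ))))
  refine ⟨X0, fun X hX => ?_⟩
  obtain ⟨⟨h1, h2⟩, h3, hX1⟩ := hX0 X hX
  have hXp : 0 < X := by linarith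
  classical
  obtain ⟨I, hI⟩ : ∃ I : Finset ℕ, I = Finset.Icc 1 ⌊2 * X⌋₊ := ⟨_, rfl⟩
  obtain ⟨A, hA⟩ : ∃ A : Finset ℕ, A = I.filter (fun m => ∃ p j : ℕ, p.Prime ∧
      (p : ℝ) ≤ X ^ (1 / 32 : ℝ) ∧ p ^ j ∣ m ∧ X ^ (1 / 16 : ℝ) < ((p ^ j : ℕ) : ℝ)) := ⟨_, rfl⟩
  obtain ⟨B, hB⟩ : ∃ B : Finset ℕ, B = I.filter (fun m =>
      X ^ (1 / 16 : ℝ) < (sm ⌊Real.log X ^ 4⌋₊ m : ℝ)) := ⟨_, rfl⟩
  have hcA : (A.card : ℝ) ≤ 2 * X ^ (31 / 32 : ℝ) := by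
    refine first X hX1 A fun m hm => ?_
    rw [hA, Finset.mem_filter, hI, Finset.mem_Icc] at hm
    exact ⟨hm.1.1, hm.1.2, hm.2⟩
  have hcB : (B.card : ℝ) ≤ 2 * X ^ (1 - 1 / 128 + 1 / 1000 : ℝ) := by
    have h4 := rankin ⌊Real.log X ^ 4⌋₊ ⌊2 * X⌋₊ (X ^ (1 / 16 : ℝ)) (Real.rpow_pos_of_pos hXp _) B
      (fun m hm => by
        rw [hB, Finset.mem_filter, hI, Finset.mem_Icc] at hm
        exact ⟨hm.1.1, hm.1.2, hm.2⟩)
    refine h4.trans ?_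
    rw [← Real.rpow_mul hXp.le]
    have h5 : ((⌊2 * X⌋₊ : ℕ) : ℝ) ≤ 2 * X := Nat.floor_le (by linarith)
    calc X ^ (1 / 16 * -(1 / 8) : ℝ) * (((⌊2 * X⌋₊ : ℕ) : ℝ) *
          Real.exp (24 * ((⌊Real.log X ^ 4⌋₊ : ℕ) : ℝ) ^ (1 / 8 : ℝ))) ≤
          X ^ (1 / 16 * -(1 / 8) : ℝ) * (2 * X * X ^ (1 / 1000 : ℝ)) := by
          refine mul_le_mul_of_nonneg_left ?_ (Real.rpow_nonneg hXp.le _)
          exact mul_le_mul h5 h3 (Real.exp_pos _).le (by linarith)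
      _ = 2 * X ^ (1 - 1 / 128 + 1 / 1000 : ℝ) := by
          rw [show (1 - 1 / 128 + 1 / 1000 : ℝ) = 1 / 16 * -(1 / 8) + 1 + 1 / 1000 by norm_num,
            Real.rpow_add hXp, Real.rpow_add hXp, Real.rpow_one]
          ring
  have hsub : (Finset.Icc 1 ⌊2 * X⌋₊).filter (Ex X) ⊆ A ∪ B := by
    intro m hm
    rw [Finset.mem_filter] at hm
    rw [Finset.mem_union, hA, hB, Finset.mem_filter, Finset.mem_filter, hI]
    rcases hm.2 with h | h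
    · exact Or.inl ⟨hm.1, h⟩
    · exact Or.inr ⟨hm.1, h⟩
  have hcard : ((((Finset.Icc 1 ⌊2 * X⌋₊).filter (Ex X)).card : ℕ) : ℝ) ≤ A.card + B.card := by
    exact_mod_cast (Finset.card_le_card hsub).trans (Finset.card_union_le _ _)
  have k1 : 4 * X ^ (31 / 32 : ℝ) ≤ X ^ (1 - 1 / 200 : ℝ) := by
    have e : X ^ (1 - 1 / 200 : ℝ) = X ^ (1 - 1 / 200 - 31 / 32 : ℝ) * X ^ (31 / 32 : ℝ) := by
      rw [← Real.rpow_add hXp]
      congr 1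
      ring
    rw [e]
    exact mul_le_mul_of_nonneg_right h1 (Real.rpow_nonneg hXp.le _)
  have k2 : 4 * X ^ (1 - 1 / 128 + 1 / 1000 : ℝ) ≤ X ^ (1 - 1 / 200 : ℝ) := by
    have e : X ^ (1 - 1 / 200 : ℝ) =
        X ^ (1 / 128 - 1 / 1000 - 1 / 200 : ℝ) * X ^ (1 - 1 / 128 + 1 / 1000 : ℝ) := by
      rw [← Real.rpow_add hXp]
      congr 1
      ring
    rw [e]
    exact mul_le_mul_of_nonneg_right h2 (Real.rpow_nonneg hXp.le _)
  linarith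

end Pool.Agent.Work.MP_122e00_nt.TS
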