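import Pool.Agent.Work.MP_122e00_nt.TS.Stmts8

set_option autoImplicit false

/-!
# Thin shifts, item N11 (helper70)
-/

namespace Pool.Agent.Work.MP_122e00_nt.TS

open Finset Filter Topology ArithmeticFunction MeasureTheory
open scoped ArithmeticFunction.zeta ArithmeticFunction.Moebius

namespace IN11

theorem ev_big : ∀ᶠ X : ℝ in atTop, X ^ (1 / 33 : ℝ) ≤ (⌊X ^ (1 / 32 : ℝ)⌋₊ : ℝ) := by
  have h1 : ∀ᶠ X : ℝ in atTop, (2 : ℝ) ≤ X ^ (1 / 32 - 1 / 33 : ℝ) :=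
    (tendsto_rpow_atTop (by norm_num)).eventually_ge_atTop _
  filter_upwards [h1, eventually_ge_atTop (1 : ℝ)] with X hX hX1
  have hX0 : 0 < X := by linarith
  have h2 : 2 * X ^ (1 / 33 : ℝ) ≤ X ^ (1 / 32 : ℝ) := by
    have e : X ^ (1 / 32 : ℝ) = X ^ (1 / 32 - 1 / 33 : ℝ) * X ^ (1 / 33 : ℝ) := by
      rw [← Real.rpow_add hX0]
      congr 1
      ring
    rw [e]
    exact mul_le_mul_of_nonneg_right hX (Real.rpow_nonneg hX0.le _)
  have h3 : 1 ≤ X ^ (1 / 33 : ℝ) := Real.one_le_rpow hX1 (by norm_num)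
  have h4 := Nat.lt_floor_add_one (X ^ (1 / 32 : ℝ))
  linarith

end IN11

open IN11

/-- item N11 -/
theorem prN11 (hN8 : tsN8) : tsN11 := by
  obtain ⟨hs1, hs2, hs3, hs4, -⟩ := hN8
  obtain ⟨X0, hX0⟩ := Filter.eventually_atTop.1 (ev_big.and (eventually_ge_atTop (16 : ℝ)))
  refine ⟨X0, fun X h n hX hh hn => ?_⟩
  obtain ⟨hbig, hX16⟩ := hX0 X hX
  have hXp : 0 < X := by linarith
  have hX1 : 1 ≤ X := by linarith
  have hnh : 1 ≤ n + h := by omega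
  by_contra hcon
  rw [not_or, not_or, not_or] at hcon
  obtain ⟨hE1, hE2, hB1, hB2⟩ := hcon
  unfold Ex at hE1 hE2
  rw [not_or] at hE1 hE2
  obtain ⟨hp1, hsm1⟩ := hE1
  obtain ⟨hp2, hsm2⟩ := hE2
  rw [not_lt] at hsm1 hsm2
  obtain ⟨A, hA⟩ : ∃ A : ℕ → ℝ, ∀ Z, A Z = (sm Z n : ℝ) * (sm Z (n + h) : ℝ) :=
    ⟨fun Z => (sm Z n : ℝ) * (sm Z (n + h) : ℝ), fun _ => rfl⟩
  have hsa : ∀ Z, (1 : ℝ) ≤ (sm Z n : ℝ) := fun Z => by exact_mod_cast (hs1 Z n hn).2.1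
  have hsb : ∀ Z, (1 : ℝ) ≤ (sm Z (n + h) : ℝ) := fun Z => by
    exact_mod_cast (hs1 Z (n + h) hnh).2.1
  have hA1 : ∀ Z, 1 ≤ A Z := fun Z => by
    rw [hA]
    exact one_le_mul_of_one_le_of_one_le (hsa Z) (hsb Z)
  have hflo : ((⌊X ^ (1 / 32 : ℝ)⌋₊ : ℕ) : ℝ) ≤ X ^ (1 / 32 : ℝ) :=
    Nat.floor_le (Real.rpow_nonneg hXp.le _)
  have h84 : X ^ (1 / 8 : ℝ) ≤ X ^ (1 / 4 : ℝ) :=
    Real.rpow_le_rpow_of_exponent_le hX1 (by norm_num)
  have hA32 : X ^ (1 / 4 : ℝ) < A ⌊X ^ (1 / 32 : ℝ)⌋₊ := by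
    by_contra hle
    rw [not_lt] at hle
    apply hB1
    refine ⟨⌊X ^ (1 / 32 : ℝ)⌋₊, ?_, ?_, ?_, ?_⟩
    · have e : (1 / (((32 : ℕ) : ℝ) + 1)) = 1 / 33 := by norm_num
      rw [e]
      exact hbig
    · have e : (1 / ((32 : ℕ) : ℝ)) = 1 / 32 := by norm_num
      rw [e]
      exact hflo
    · rw [← hA]
      linarith [hA1 ⌊X ^ (1 / 32 : ℝ)⌋₊]
    · rw [← hA]
      exact hle
  have hex : ∃ Z, X ^ (1 / 8 : ℝ) < A Z := ⟨_, lt_of_le_of_lt h84 hA32⟩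
  obtain ⟨Z, hZ, hmin⟩ : ∃ Z, X ^ (1 / 8 : ℝ) < A Z ∧ ∀ Z' < Z, A Z' ≤ X ^ (1 / 8 : ℝ) := by
    classical
    exact ⟨Nat.find hex, Nat.find_spec hex, fun Z' hZ' => not_lt.1 (Nat.find_min hex hZ')⟩
  have hZ32 : Z ≤ ⌊X ^ (1 / 32 : ℝ)⌋₊ := by
    by_contra hlt
    have := hmin _ (not_le.1 hlt)
    linarith
  have hZle : (Z : ℝ) ≤ X ^ (1 / 32 : ℝ) := le_trans (by exact_mod_cast hZ32) hflo
  have hone8 : 1 ≤ X ^ (1 / 8 : ℝ) := Real.one_le_rpow hX1 (by norm_num)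
  have hZ0 : Z ≠ 0 := by
    rintro rfl
    rw [hA, hs4 n hn, hs4 (n + h) hnh] at hZ
    norm_num at hZ
    norm_num at hone8
    linarith
  obtain ⟨Z', rfl⟩ : ∃ Z', Z = Z' + 1 := ⟨Z - 1, by omega⟩
  have hZ' := hmin Z' (Nat.lt_succ_self _)
  have e1 := hs3 Z' n hn
  have e2 := hs3 Z' (n + h) hnh
  have hprime : (Z' + 1).Prime := by
    by_contra hnp
    rw [if_neg hnp, mul_one] at e1 e2
    rw [hA, e1, e2, ← hA] at hZ
    linarith
  rw [if_pos hprime] at e1 e2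
  have hv1 : (((Z' + 1) ^ n.factorization (Z' + 1) : ℕ) : ℝ) ≤ X ^ (1 / 16 : ℝ) := by
    by_contra hlt
    exact hp1 ⟨Z' + 1, n.factorization (Z' + 1), hprime, hZle, Nat.ordProj_dvd n (Z' + 1),
      not_le.1 hlt⟩
  have hv2 : (((Z' + 1) ^ (n + h).factorization (Z' + 1) : ℕ) : ℝ) ≤ X ^ (1 / 16 : ℝ) := by
    by_contra hlt
    exact hp2 ⟨Z' + 1, (n + h).factorization (Z' + 1), hprime, hZle,
      Nat.ordProj_dvd (n + h) (Z' + 1), not_le.1 hlt⟩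
  have hup : A (Z' + 1) ≤ X ^ (1 / 4 : ℝ) := by
    have e3 : A (Z' + 1) = A Z' * ((((Z' + 1) ^ n.factorization (Z' + 1) : ℕ) : ℝ) *
        (((Z' + 1) ^ (n + h).factorization (Z' + 1) : ℕ) : ℝ)) := by
      rw [hA, hA, e1, e2]
      push_cast
      ring
    rw [e3]
    have e4 : X ^ (1 / 4 : ℝ) = X ^ (1 / 8 : ℝ) * (X ^ (1 / 16 : ℝ) * X ^ (1 / 16 : ℝ)) := by
      rw [← Real.rpow_add hXp, ← Real.rpow_add hXp]
      congr 1
      norm_num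
    rw [e4]
    exact mul_le_mul hZ' (mul_le_mul hv1 hv2 (Nat.cast_nonneg _) (Real.rpow_nonneg hXp.le _))
      (by positivity) (Real.rpow_nonneg hXp.le _)
  -- the scale
  have hlX : 1 < Real.log X := by
    have h1 : Real.exp 1 < X := lt_of_lt_of_le Real.exp_one_lt_d9 (by linarith)
    have h2 := Real.log_lt_log (Real.exp_pos 1) h1
    rwa [Real.log_exp] at h2
  have hlX0 : 0 < Real.log X := by linarith
  have hllX : 0 < Real.log (Real.log X) := Real.log_pos hlX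
  have hZr : (2 : ℝ) ≤ ((Z' + 1 : ℕ) : ℝ) := by exact_mod_cast hprime.two_le
  have hZpos : (0 : ℝ) < ((Z' + 1 : ℕ) : ℝ) := by linarith
  have hlZ : 0 < Real.log ((Z' + 1 : ℕ) : ℝ) := Real.log_pos (by linarith)
  have hlZle : Real.log ((Z' + 1 : ℕ) : ℝ) ≤ 1 / 32 * Real.log X := by
    have h1 := Real.log_le_log hZpos hZle
    rwa [Real.log_rpow hXp] at h1
  obtain ⟨s, hs⟩ : ∃ s : ℕ, s = ⌊Real.log X / Real.log ((Z' + 1 : ℕ) : ℝ)⌋₊ := ⟨_, rfl⟩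
  have hsle : (s : ℝ) ≤ Real.log X / Real.log ((Z' + 1 : ℕ) : ℝ) := by
    rw [hs]
    exact Nat.floor_le (by positivity)
  have hslt : Real.log X / Real.log ((Z' + 1 : ℕ) : ℝ) < (s : ℝ) + 1 := by
    rw [hs]
    exact Nat.lt_floor_add_one _
  have hs32 : 32 ≤ s := by
    rw [hs]
    apply Nat.le_floor
    rw [le_div_iff₀ hlZ]
    push_cast
    push_cast at hlZle
    linarith
  have hs32r : (32 : ℝ) ≤ s := by exact_mod_cast hs32
  have hs0 : (0 : ℝ) < s := by linarith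
  have hmul : (s : ℝ) * Real.log ((Z' + 1 : ℕ) : ℝ) ≤ Real.log X := (le_div_iff₀ hlZ).1 hsle
  have hmul2 : Real.log X < ((s : ℝ) + 1) * Real.log ((Z' + 1 : ℕ) : ℝ) := (div_lt_iff₀ hlZ).1 hslt
  have hZup : ((Z' + 1 : ℕ) : ℝ) ≤ X ^ (1 / (s : ℝ)) := by
    rw [← Real.log_le_log_iff hZpos (Real.rpow_pos_of_pos hXp _), Real.log_rpow hXp,
      one_div_mul_eq_div, le_div_iff₀ hs0]
    linarith
  have hZlow : X ^ (1 / ((s : ℝ) + 1)) ≤ ((Z' + 1 : ℕ) : ℝ) := by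
    rw [← Real.log_le_log_iff (Real.rpow_pos_of_pos hXp _) hZpos, Real.log_rpow hXp,
      one_div_mul_eq_div, div_le_iff₀ (by linarith)]
    linarith
  apply hB2
  refine ⟨s, hs32, ?_, Z' + 1, hZlow, hZup, ?_, ?_⟩
  · by_contra hlt
    rw [not_le] at hlt
    have h1 : Real.log X / (4 * Real.log (Real.log X)) < s := by
      have h2 := Nat.lt_floor_add_one (Real.log X / (4 * Real.log (Real.log X)))
      have h3 : ((⌊Real.log X / (4 * Real.log (Real.log X))⌋₊ : ℕ) : ℝ) + 1 ≤ s := by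
        exact_mod_cast hlt
      linarith
    rw [div_lt_iff₀ (by positivity)] at h1
    have h4 : Real.log ((Z' + 1 : ℕ) : ℝ) < 4 * Real.log (Real.log X) := by
      by_contra h5
      rw [not_lt] at h5
      have := mul_le_mul_of_nonneg_left h5 hs0.le
      linarith
    have h6 : ((Z' + 1 : ℕ) : ℝ) < Real.log X ^ 4 := by
      rw [← Real.log_lt_log_iff hZpos (by positivity), Real.log_pow]
      push_cast at h4 ⊢
      exact h4
    have h7 : Z' + 1 ≤ ⌊Real.log X ^ 4⌋₊ := Nat.le_floor h6.le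
    have h8 : (sm (Z' + 1) n : ℝ) ≤ X ^ (1 / 16 : ℝ) :=
      le_trans (by exact_mod_cast hs2 _ _ n h7) hsm1
    have h9 : (sm (Z' + 1) (n + h) : ℝ) ≤ X ^ (1 / 16 : ℝ) :=
      le_trans (by exact_mod_cast hs2 _ _ (n + h) h7) hsm2
    have h10 : A (Z' + 1) ≤ X ^ (1 / 8 : ℝ) := by
      rw [hA]
      have e5 : X ^ (1 / 8 : ℝ) = X ^ (1 / 16 : ℝ) * X ^ (1 / 16 : ℝ) := by
        rw [← Real.rpow_add hXp]
        congr 1
        norm_num
      rw [e5]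
      exact mul_le_mul h8 h9 (Nat.cast_nonneg _) (Real.rpow_nonneg hXp.le _)
    linarith
  · rw [← hA]
    exact hZ
  · rw [← hA]
    exact hup

end Pool.Agent.Work.MP_122e00_nt.TS
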