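import Pool.Agent.Work.MP_122e00_nt.TS.Stmts8
import Pool.Agent.Work.MP_122e00_nt.Euler4

/-!
Item N13: the singular series is large if `h` has many small prime factors.
-/

namespace Pool.Agent.Work.MP_122e00_nt.TS

open Finset Filter Topology

namespace IN13

theorem log_one_add_ge (v : ℝ) (hv : 0 ≤ v) : v - v ^ 2 ≤ Real.log (1 + v) := by
  have h1 := Real.one_sub_inv_le_log_of_pos (x := 1 + v) (by linarith)
  have h2 : v - v ^ 2 ≤ 1 - (1 + v)⁻¹ := by
    rw [le_sub_iff_add_le, ← le_sub_iff_add_le', inv_eq_one_div, div_le_iff₀ (by linarith)]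
    nlinarith [mul_nonneg hv (sq_nonneg v)]
  linarith

theorem log_one_sub_ge (t : ℝ) (ht : 0 ≤ t) (ht2 : t ≤ 1 / 2) : -(2 * t) ≤ Real.log (1 - t) := by
  have h1 := Real.one_sub_inv_le_log_of_pos (x := 1 - t) (by linarith)
  have h2 : -(2 * t) ≤ 1 - (1 - t)⁻¹ := by
    rw [le_sub_iff_add_le, ← le_sub_iff_add_le', inv_eq_one_div, div_le_iff₀ (by linarith)]
    nlinarith
  linarith

theorem bern (s : ℕ) (x : ℝ) (_hx0 : 0 ≤ x) (hx1 : x ≤ 1) : 1 - (s : ℝ) * x ≤ (1 - x) ^ s := by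
  have h1 := one_add_mul_le_pow (a := -x) (by linarith) s
  have h2 : 1 + -x = 1 - x := by ring
  rw [h2] at h1
  linarith

theorem upp (s : ℕ) (x : ℝ) (hx0 : 0 ≤ x) (hx1 : x ≤ 1) :
    (1 - x) ^ s ≤ 1 - (s : ℝ) * x + ((s : ℝ) * x) ^ 2 := by
  have ha : 0 ≤ (s : ℝ) * x := by positivity
  have h1 := one_add_mul_le_pow (a := x) (by linarith) s
  have h0 : 0 ≤ (1 - x) ^ s := pow_nonneg (by linarith) _
  have h2 : (1 - x) ^ s * (1 + (s : ℝ) * x) ≤ 1 := by
    calc (1 - x) ^ s * (1 + (s : ℝ) * x) ≤ (1 - x) ^ s * (1 + x) ^ s := by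
          apply mul_le_mul_of_nonneg_left _ h0
          linarith
      _ = (1 - x ^ 2) ^ s := by rw [← mul_pow]; ring
      _ ≤ 1 := by
          apply pow_le_one₀
          · nlinarith
          · nlinarith
  set a := (s : ℝ) * x
  have h3 : 1 ≤ (1 - a + a ^ 2) * (1 + a) := by
    have : (1 - a + a ^ 2) * (1 + a) = 1 + a ^ 3 := by ring
    rw [this]
    have : 0 ≤ a ^ 3 := by positivity
    linarith
  have h4 : (1 - x) ^ s * (1 + a) ≤ (1 - a + a ^ 2) * (1 + a) := h2.trans h3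
  exact le_of_mul_le_mul_right h4 (by linarith)

theorem locProb_two (s : ℕ) (hs : 1 ≤ s) (p : ℕ) :
    locProb s p 2 = 1 - (1 - 1 / (p : ℝ)) ^ s * (1 + (s : ℝ) * (1 / (p : ℝ))) := by
  unfold locProb
  rw [Finset.sum_range_succ, Finset.sum_range_one]
  have h1 : (1 + s - 1).choose (s - 1) = s := by
    obtain ⟨t, rfl⟩ : ∃ t, s = t + 1 := ⟨s - 1, by omega⟩
    have : 1 + (t + 1) - 1 = t + 1 := by omega
    rw [this, Nat.add_sub_cancel, Nat.choose_succ_self_right]
  rw [h1]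
  have h2 : (0 + s - 1).choose (s - 1) = 1 := by
    rw [zero_add, Nat.choose_self]
  rw [h2]
  simp [div_eq_mul_inv]

theorem factor_ge_zero (s : ℕ) (hs : 1 ≤ s) (p : ℕ) (hp : p.Prime) (ν : ℕ) :
    1 - (locProb s p 1) ^ 2 ≤ locFactor s p ν := by
  unfold locFactor
  have h1 : ∀ j ∈ Finset.range (ν + 1),
      0 ≤ (p : ℝ) ^ j * (locProb s p j ^ 2 - locProb s p (j + 1) ^ 2) := by
    intro j _
    have h1 := locProb_succ_lt hs p hp j
    have h2 := locProb_nonneg hs p hp (j + 1)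
    have h3 : 0 < locProb s p j ^ 2 - locProb s p (j + 1) ^ 2 := by nlinarith
    have h4 : (0:ℝ) < p := by exact_mod_cast hp.pos
    positivity
  have h2 := Finset.single_le_sum h1 (Finset.mem_range.mpr (Nat.succ_pos ν))
  rw [pow_zero, one_mul, locProb_zero, one_pow, zero_add] at h2
  exact h2

theorem factor_ge_one (s : ℕ) (hs : 1 ≤ s) (p : ℕ) (hp : p.Prime) (ν : ℕ) (hν : 1 ≤ ν) :
    1 - (locProb s p 1) ^ 2 + (p : ℝ) * (locProb s p 1 ^ 2 - locProb s p 2 ^ 2) ≤
      locFactor s p ν := by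
  unfold locFactor
  have h1 : ∀ j ∈ Finset.range (ν + 1),
      0 ≤ (p : ℝ) ^ j * (locProb s p j ^ 2 - locProb s p (j + 1) ^ 2) := by
    intro j _
    have h1 := locProb_succ_lt hs p hp j
    have h2 := locProb_nonneg hs p hp (j + 1)
    have h3 : 0 < locProb s p j ^ 2 - locProb s p (j + 1) ^ 2 := by nlinarith
    have h4 : (0:ℝ) < p := by exact_mod_cast hp.pos
    positivity
  have h2 := Finset.sum_le_sum_of_subset_of_nonneg (s := Finset.range 2)
    (t := Finset.range (ν + 1))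
    (f := fun j => (p : ℝ) ^ j * (locProb s p j ^ 2 - locProb s p (j + 1) ^ 2))
    (Finset.range_mono (by omega)) (fun i hi _ => h1 i hi)
  rw [Finset.sum_range_succ, Finset.sum_range_one] at h2
  simp only [pow_zero, one_mul, locProb_zero, one_pow, zero_add, pow_one] at h2
  exact h2

theorem main (s : ℕ) (hs : 1 ≤ s) (p : ℕ) (hp : p.Prime) (ν : ℕ) :
    (if ν = 0 then 0 else (s : ℝ) ^ 2 * (1 / (p : ℝ))) - 100 * (s : ℝ) ^ 6 * (1 / (p : ℝ) ^ 2) ≤
      Real.log (locFactor s p ν) := by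
  have hS : (1:ℝ) ≤ s := by exact_mod_cast hs
  have hP : (2:ℝ) ≤ p := by exact_mod_cast hp.two_le
  set S : ℝ := (s : ℝ) with hSd
  set x : ℝ := 1 / (p : ℝ) with hx
  have hx0 : 0 < x := by positivity
  have hx1 : x ≤ 1 / 2 := by
    rw [hx]
    exact one_div_le_one_div_of_le (by norm_num) hP
  have hpx : (p : ℝ) * x = 1 := by
    rw [hx]
    field_simp
  have hxx : 1 / (p : ℝ) ^ 2 = x ^ 2 := by rw [hx]; ring
  rw [hxx]
  have hP1 := locProb_nonneg hs p hp 1
  have e1 : locProb s p 1 = 1 - (1 - x) ^ s := locProb_one p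
  have hb1 := bern s x hx0.le (by linarith)
  have hb2 := upp s x hx0.le (by linarith)
  have hP1u : locProb s p 1 ≤ S * x := by rw [e1]; linarith
  have hP1l : S * x - (S * x) ^ 2 ≤ locProb s p 1 := by rw [e1]; linarith
  have hpos := locFactor_pos hs p hp ν
  by_cases hbig : 4 * S ^ 2 * x ≤ 1
  · have ha0 : 0 ≤ S * x := by positivity
    have hu0 : 0 ≤ S ^ 2 * x := by positivity
    have haq : S * x ≤ S ^ 2 * x := by
      have : S * x * 1 ≤ S * x * S := mul_le_mul_of_nonneg_left hS ha0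
      nlinarith
    have hS6 : S ^ 2 ≤ S ^ 6 := pow_le_pow_right₀ hS (by norm_num)
    have hS64 : S ^ 4 ≤ S ^ 6 := pow_le_pow_right₀ hS (by norm_num)
    have hx2 : 0 ≤ x ^ 2 := by positivity
    by_cases hν : ν = 0
    · rw [if_pos hν]
      have h1 := factor_ge_zero s hs p hp ν
      have h2 : locProb s p 1 ^ 2 ≤ (S * x) ^ 2 := pow_le_pow_left₀ hP1 hP1u 2
      have h3 : (S * x) ^ 2 ≤ 1 / 2 := by nlinarith
      have h4 := log_one_sub_ge ((S * x) ^ 2) (by positivity) h3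
      have h5 : Real.log (1 - (S * x) ^ 2) ≤ Real.log (locFactor s p ν) :=
        Real.log_le_log (by linarith) (by linarith)
      have h6 : 2 * (S * x) ^ 2 ≤ 100 * S ^ 6 * x ^ 2 := by
        have : (S * x) ^ 2 ≤ S ^ 6 * x ^ 2 := by
          rw [mul_pow]
          exact mul_le_mul_of_nonneg_right hS6 hx2
        nlinarith [show 0 ≤ (S * x) ^ 2 by positivity]
      linarith
    · rw [if_neg hν]
      have h1 := factor_ge_one s hs p hp ν (Nat.one_le_iff_ne_zero.mpr hν)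
      have hP2 := locProb_nonneg hs p hp 2
      have hP2u : locProb s p 2 ≤ (S * x) ^ 2 := by
        rw [locProb_two s hs p]
        have : (1 - S * x) * (1 + S * x) ≤ (1 - x) ^ s * (1 + S * x) :=
          mul_le_mul_of_nonneg_right hb1 (by linarith)
        nlinarith
      have h2 : locProb s p 1 ^ 2 ≤ (S * x) ^ 2 := pow_le_pow_left₀ hP1 hP1u 2
      have h3 : (S * x - (S * x) ^ 2) ^ 2 ≤ locProb s p 1 ^ 2 := by
        apply pow_le_pow_left₀ _ hP1l
        nlinarith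
      have h4 : locProb s p 2 ^ 2 ≤ ((S * x) ^ 2) ^ 2 := pow_le_pow_left₀ hP2 hP2u 2
      have h5 : (p : ℝ) * ((S * x - (S * x) ^ 2) ^ 2 - ((S * x) ^ 2) ^ 2) ≤
          (p : ℝ) * (locProb s p 1 ^ 2 - locProb s p 2 ^ 2) := by
        apply mul_le_mul_of_nonneg_left _ (by linarith)
        linarith
      have h6 : (p : ℝ) * ((S * x - (S * x) ^ 2) ^ 2 - ((S * x) ^ 2) ^ 2) =
          S ^ 2 * x - 2 * S ^ 3 * x ^ 2 := by
        have : (p : ℝ) * ((S * x - (S * x) ^ 2) ^ 2 - ((S * x) ^ 2) ^ 2) =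
          ((p : ℝ) * x) * (S ^ 2 * x - 2 * S ^ 3 * x ^ 2) := by ring
        rw [this, hpx, one_mul]
      set v := S ^ 2 * x - 3 * S ^ 3 * x ^ 2 with hv
      have hS23 : S ^ 2 ≤ S ^ 3 := pow_le_pow_right₀ hS (by norm_num)
      have hS34 : S ^ 3 ≤ S ^ 4 := pow_le_pow_right₀ hS (by norm_num)
      have hv0 : 0 ≤ v := by
        have a1 : 3 * S ^ 3 * x ^ 2 ≤ 3 * S ^ 4 * x ^ 2 := by
          apply mul_le_mul_of_nonneg_right _ hx2
          linarith
        have a2 : 3 * S ^ 4 * x ^ 2 = 3 * (S ^ 2 * x) * (S ^ 2 * x) := by ring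
        nlinarith
      have hvu : v ≤ S ^ 2 * x := by
        have : 0 ≤ 3 * S ^ 3 * x ^ 2 := by positivity
        linarith
      have hl : 1 + v ≤ locFactor s p ν := by
        have : S ^ 2 * x ^ 2 ≤ S ^ 3 * x ^ 2 := mul_le_mul_of_nonneg_right hS23 hx2
        have h7 : (S * x) ^ 2 = S ^ 2 * x ^ 2 := by ring
        linarith
      have h8 := log_one_add_ge v hv0
      have h9 : Real.log (1 + v) ≤ Real.log (locFactor s p ν) :=
        Real.log_le_log (by linarith) hl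
      have h10 : v ^ 2 ≤ S ^ 4 * x ^ 2 := by
        calc v ^ 2 ≤ (S ^ 2 * x) ^ 2 := pow_le_pow_left₀ hv0 hvu 2
          _ = _ := by ring
      have h11 : 3 * S ^ 3 * x ^ 2 + S ^ 4 * x ^ 2 ≤ 100 * S ^ 6 * x ^ 2 := by
        have : S ^ 3 * x ^ 2 ≤ S ^ 6 * x ^ 2 :=
          mul_le_mul_of_nonneg_right (pow_le_pow_right₀ hS (by norm_num)) hx2
        have h12 : S ^ 4 * x ^ 2 ≤ S ^ 6 * x ^ 2 := mul_le_mul_of_nonneg_right hS64 hx2
        nlinarith [show 0 ≤ S ^ 6 * x ^ 2 by positivity]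
      linarith
  · have hlow : 1 < 4 * S ^ 2 * x := not_le.mp hbig
    have h1 := factor_ge_zero s hs p hp ν
    have h2 : (1 / 2 : ℝ) ^ s ≤ (1 - x) ^ s := by
      apply pow_le_pow_left₀ (by norm_num)
      linarith
    have hle1 : (1 - x) ^ s ≤ 1 := pow_le_one₀ (by linarith) (by linarith)
    have hge0 : 0 ≤ (1 - x) ^ s := pow_nonneg (by linarith) _
    have h3 : (1 / 2 : ℝ) ^ s ≤ locFactor s p ν := by
      rw [e1] at h1
      nlinarith
    have h4 : Real.log ((1 / 2 : ℝ) ^ s) ≤ Real.log (locFactor s p ν) :=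
      Real.log_le_log (by positivity) h3
    rw [Real.log_pow] at h4
    have h5 : -1 ≤ Real.log (1 / 2 : ℝ) := by
      have := Real.one_sub_inv_le_log_of_pos (x := (1 / 2 : ℝ)) (by norm_num)
      norm_num at this ⊢
      linarith
    have h6 : -S ≤ (s : ℝ) * Real.log (1 / 2 : ℝ) := by
      have : (s : ℝ) * (-1) ≤ (s : ℝ) * Real.log (1 / 2 : ℝ) :=
        mul_le_mul_of_nonneg_left h5 (by linarith)
      linarith
    have h7 : (if ν = 0 then 0 else S ^ 2 * x) ≤ S ^ 2 * x := by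
      split_ifs
      · positivity
      · exact le_rfl
    have h8 : S ^ 2 * x - 100 * S ^ 6 * x ^ 2 ≤ -S := by
      -- S² x ≤ 4 S⁴ x², S ≤ 16 S^5 x²
      have b1 : S ^ 2 * x ≤ 4 * S ^ 4 * x ^ 2 := by
        have : S ^ 2 * x * 1 ≤ S ^ 2 * x * (4 * S ^ 2 * x) :=
          mul_le_mul_of_nonneg_left hlow.le (by positivity)
        linarith [show S ^ 2 * x * (4 * S ^ 2 * x) = 4 * S ^ 4 * x ^ 2 by ring]
      have b2 : S ≤ 16 * S ^ 5 * x ^ 2 := by
        have c1 : 1 ≤ (4 * S ^ 2 * x) ^ 2 := by nlinarith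
        have : S * 1 ≤ S * (4 * S ^ 2 * x) ^ 2 := mul_le_mul_of_nonneg_left c1 (by linarith)
        linarith [show S * (4 * S ^ 2 * x) ^ 2 = 16 * S ^ 5 * x ^ 2 by ring]
      have b3 : S ^ 4 * x ^ 2 ≤ S ^ 6 * x ^ 2 :=
        mul_le_mul_of_nonneg_right (pow_le_pow_right₀ hS (by norm_num)) (by positivity)
      have b4 : S ^ 5 * x ^ 2 ≤ S ^ 6 * x ^ 2 :=
        mul_le_mul_of_nonneg_right (pow_le_pow_right₀ hS (by norm_num)) (by positivity)
      nlinarith [show 0 ≤ S ^ 6 * x ^ 2 by positivity]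
    linarith

theorem aux {ι : Type*} (S : Finset ι) (f : ι → ℝ) (hf : Summable f) (h0 : ∀ p, 0 ≤ f p) :
    ∑ p ∈ S, f p ≤ ∑' p, f p := hf.sum_le_tsum S (fun p _ => h0 p)

theorem sum1 : Summable (fun p : Nat.Primes => 1 / ((p : ℕ) : ℝ) ^ 2) := by
  have h1 : Summable (fun n : ℕ => 1 / (n : ℝ) ^ 2) :=
    Real.summable_one_div_nat_pow.mpr (by norm_num)
  exact h1.comp_injective (i := fun p : Nat.Primes => (p : ℕ)) Nat.Primes.coe_nat_injective

theorem sumlog (s : ℕ) (h : ℕ) (hh : h ≠ 0) :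
    Summable (fun p : Nat.Primes => Real.log (locFactor s p (h.factorization p))) := by
  have hsum : Summable (fun p : Nat.Primes => locFactor s p (h.factorization p) - 1) := by
    have hs1 : Summable (fun p : Nat.Primes => (s : ℝ) ^ 2 * (1 / ((p : ℕ) : ℝ) ^ 2)) :=
      sum1.mul_left _
    apply hs1.of_norm_bounded_eventually
    have hfin : Set.Finite {p : Nat.Primes | (p : ℕ) ∣ h} := by
      apply Set.Finite.of_finite_image (f := fun p : Nat.Primes => (p : ℕ))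
      · apply (Finset.finite_toSet h.divisors).subset
        rintro x ⟨p, hp, rfl⟩
        rw [Finset.mem_coe, Nat.mem_divisors]
        exact ⟨hp, hh⟩
      · exact Nat.Primes.coe_nat_injective.injOn
    have hev : ∀ᶠ p : Nat.Primes in cofinite, ¬ (p : ℕ) ∣ h := by
      rw [Filter.eventually_cofinite]
      simpa using hfin
    filter_upwards [hev] with p hp
    rw [Nat.factorization_eq_zero_of_not_dvd hp, locFactor_zero]
    have hp2 : (2:ℝ) ≤ ((p : ℕ) : ℝ) := by exact_mod_cast p.2.two_le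
    have hx1 : 1 / ((p : ℕ) : ℝ) ≤ 1 := by
      rw [div_le_one (by linarith)]
      linarith
    have hx0 : 0 ≤ 1 / ((p : ℕ) : ℝ) := by positivity
    have hb := bern s (1 / ((p : ℕ) : ℝ)) hx0 hx1
    have hle : (1 - 1 / ((p : ℕ) : ℝ)) ^ s ≤ 1 := pow_le_one₀ (by linarith) (by linarith)
    have e1 : 1 - (1 - (1 - 1 / ((p : ℕ) : ℝ)) ^ s) ^ 2 - 1 =
        -((1 - (1 - 1 / ((p : ℕ) : ℝ)) ^ s) ^ 2) := by ring
    rw [e1, norm_neg, Real.norm_eq_abs, abs_of_nonneg (sq_nonneg _)]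
    calc (1 - (1 - 1 / ((p : ℕ) : ℝ)) ^ s) ^ 2 ≤ ((s : ℝ) * (1 / ((p : ℕ) : ℝ))) ^ 2 := by
          apply pow_le_pow_left₀
          · linarith
          · linarith
      _ = _ := by
          rw [mul_pow, div_pow, one_pow]
  have hlog := Real.summable_log_one_add_of_summable hsum
  refine hlog.congr (fun p => ?_)
  congr 1
  ring

end IN13

open IN13 in
theorem prN13 : tsN13 := by
  intro s hs
  set A : ℝ := ∑' p : Nat.Primes, 1 / ((p : ℕ) : ℝ) ^ 2 with hA
  refine ⟨Real.exp (100 * (s : ℝ) ^ 6 * A), Real.exp_pos _, ?_⟩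
  intro h hh
  have hh0 : h ≠ 0 := by omega
  have hl := sumlog s h hh0
  have hq : Summable (fun p : Nat.Primes => 100 * (s : ℝ) ^ 6 * (1 / ((p : ℕ) : ℝ) ^ 2)) :=
    sum1.mul_left _
  have hC : Csing s h = Real.exp (∑' p : Nat.Primes,
      Real.log (locFactor s p (h.factorization p))) := by
    rw [Csing_eq hs h hh0]
    exact (Real.rexp_tsum_eq_tprod
      (f := fun p : Nat.Primes => locFactor s p (h.factorization p))
      (fun p : Nat.Primes => locFactor_pos hs p p.2 _) hl).symm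
  rw [hC, ← Real.exp_add]
  apply Real.exp_le_exp.mpr
  have hmul : 100 * (s : ℝ) ^ 6 * A =
      ∑' p : Nat.Primes, 100 * (s : ℝ) ^ 6 * (1 / ((p : ℕ) : ℝ) ^ 2) :=
    (sum1.tsum_mul_left _).symm
  rw [hmul, ← hq.tsum_add hl]
  have hmain : ∀ p : Nat.Primes, (if h.factorization p = 0 then 0 else
      (s : ℝ) ^ 2 * (1 / ((p : ℕ) : ℝ))) ≤ 100 * (s : ℝ) ^ 6 * (1 / ((p : ℕ) : ℝ) ^ 2) +
      Real.log (locFactor s p (h.factorization p)) := by
    intro p
    have := main s hs p p.2 (h.factorization p)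
    linarith
  have hnn : ∀ p : Nat.Primes, 0 ≤ 100 * (s : ℝ) ^ 6 * (1 / ((p : ℕ) : ℝ) ^ 2) +
      Real.log (locFactor s p (h.factorization p)) := by
    intro p
    have h1 := hmain p
    have h2 : (0:ℝ) ≤ (if h.factorization p = 0 then 0 else
      (s : ℝ) ^ 2 * (1 / ((p : ℕ) : ℝ))) := by
      split_ifs
      · exact le_rfl
      · positivity
    exact h2.trans h1
  have hadd : Summable (fun p : Nat.Primes => 100 * (s : ℝ) ^ 6 * (1 / ((p : ℕ) : ℝ) ^ 2) +
      Real.log (locFactor s p (h.factorization p))) := hq.add hl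
  have hle : ∑ p ∈ (h.primeFactors.subtype Nat.Prime : Finset Nat.Primes),
      (100 * (s : ℝ) ^ 6 * (1 / ((p : ℕ) : ℝ) ^ 2) +
      Real.log (locFactor s p (h.factorization p))) ≤
      ∑' p : Nat.Primes, (100 * (s : ℝ) ^ 6 * (1 / ((p : ℕ) : ℝ) ^ 2) +
      Real.log (locFactor s p (h.factorization p))) :=
    aux (h.primeFactors.subtype Nat.Prime : Finset Nat.Primes) _ hadd hnn
  refine le_trans ?_ hle
  have e2 : (s : ℝ) ^ 2 * Sh h =
      ∑ p ∈ h.primeFactors.subtype Nat.Prime, (s : ℝ) ^ 2 * (1 / ((p : ℕ) : ℝ)) := by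
    unfold Sh
    rw [Finset.mul_sum]
    exact (Finset.sum_subtype_of_mem (fun p : ℕ => (s : ℝ) ^ 2 * (1 / (p : ℝ)))
      (fun p hp => Nat.prime_of_mem_primeFactors hp)).symm
  rw [e2]
  apply Finset.sum_le_sum
  intro p hp
  rw [Finset.mem_subtype] at hp
  have h1 := hmain p
  have h2 : h.factorization p ≠ 0 := by
    have := (Nat.mem_primeFactors.mp hp)
    exact (this.1.factorization_pos_of_dvd hh0 this.2.1).ne'
  rw [if_neg h2] at h1
  exact h1

end Pool.Agent.Work.MP_122e00_nt.TS
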