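import Pool.Agent.Work.MP_122e00_nt.TS.Stmts8

/-!
Item N14 of block TS: comparison of `jw` and `pw`.
-/

namespace Pool.Agent.Work.MP_122e00_nt.TS

open Finset Filter Topology ArithmeticFunction MeasureTheory
open scoped ArithmeticFunction.zeta ArithmeticFunction.Moebius

namespace IN14

theorem mem_PW {z w : ℝ} {p : ℕ} (hw : 1 ≤ w) (hp : p ∈ PW z w) :
    (1 : ℝ) ≤ p ∧ (p : ℝ) ≤ w := by
  unfold PW at hp
  rw [Finset.mem_filter, Finset.mem_Icc] at hp
  refine ⟨by exact_mod_cast hp.1.1, ?_⟩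
  exact (Nat.cast_le.mpr hp.1.2).trans (Nat.floor_le (by linarith))

theorem sum_log {C : ℝ} (hC : 0 < C) (h : ∀ Z : ℕ, 2 ≤ Z →
    ∑ p ∈ pr1 Z, Real.log p / p ≤ Real.log Z + C) (z w : ℝ) (hw : 1 ≤ w) :
    ∑ p ∈ PW z w, Real.log p / p ≤ Real.log w + C := by
  have hsub : PW z w ⊆ pr1 ⌊w⌋₊ := by
    intro p hp
    unfold PW at hp
    unfold pr1
    rw [Finset.mem_filter] at hp ⊢
    exact ⟨hp.1, hp.2.1⟩
  have h1 : ∑ p ∈ PW z w, Real.log p / p ≤ ∑ p ∈ pr1 ⌊w⌋₊, Real.log p / p := by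
    refine Finset.sum_le_sum_of_subset_of_nonneg hsub fun p hp _ => ?_
    unfold pr1 at hp
    rw [Finset.mem_filter, Finset.mem_Icc] at hp
    have : (1 : ℝ) ≤ p := by exact_mod_cast hp.1.1
    exact div_nonneg (Real.log_nonneg this) (by linarith)
  have hf1 : 1 ≤ ⌊w⌋₊ := (Nat.one_le_floor_iff w).mpr hw
  rcases Nat.lt_or_ge ⌊w⌋₊ 2 with h2 | h2
  · have h3 : ⌊w⌋₊ = 1 := by omega
    have h4 : pr1 ⌊w⌋₊ = ∅ := by
      rw [h3]
      unfold pr1
      ext p
      simp only [Finset.mem_filter, Finset.mem_Icc, Finset.notMem_empty, iff_false, not_and]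
      intro hp hpp
      have := hpp.two_le
      omega
    rw [h4, Finset.sum_empty] at h1
    have := Real.log_nonneg hw
    linarith
  · have h3 := h ⌊w⌋₊ h2
    have h4 : Real.log (⌊w⌋₊ : ℝ) ≤ Real.log w := by
      refine Real.log_le_log ?_ (Nat.floor_le (by linarith))
      exact_mod_cast (by omega : 0 < ⌊w⌋₊)
    linarith

end IN14

theorem prN14 (h : tsN1) : tsN14 := by
  obtain ⟨C, hC, h1, -⟩ := h
  refine ⟨C, hC, ?_⟩
  intro r X z w hr hX hw hwX
  have hlX : 0 < Real.log X := Real.log_pos (by linarith)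
  have hx : ∀ p ∈ PW z w, 0 ≤ Real.log p / Real.log X ∧ Real.log p / Real.log X ≤ 1 := by
    intro p hp
    obtain ⟨h2, h3⟩ := IN14.mem_PW hw hp
    refine ⟨div_nonneg (Real.log_nonneg h2) hlX.le, ?_⟩
    rw [div_le_one hlX]
    exact Real.log_le_log (by linarith) (h3.trans hwX)
  constructor
  · unfold jw pw
    refine Finset.sum_le_sum fun p hp => ?_
    obtain ⟨h2, h3⟩ := hx p hp
    have h4 : (1 - Real.log p / Real.log X) ^ (r - 1) ≤ 1 :=
      pow_le_one₀ (by linarith) (by linarith)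
    exact mul_le_of_le_one_right (by positivity) h4
  · have hs := IN14.sum_log hC (fun Z hZ => (h1 Z hZ).1) z w hw
    have hs0 : 0 ≤ ∑ p ∈ PW z w, Real.log p / p := by
      refine Finset.sum_nonneg fun p hp => ?_
      obtain ⟨h2, -⟩ := IN14.mem_PW hw hp
      exact div_nonneg (Real.log_nonneg h2) (by linarith)
    have h5 : pw z w - ((r - 1 : ℕ) : ℝ) / Real.log X * ∑ p ∈ PW z w, Real.log p / p ≤
        jw r X z w := by
      unfold jw pw
      rw [Finset.mul_sum, ← Finset.sum_sub_distrib]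
      refine Finset.sum_le_sum fun p hp => ?_
      obtain ⟨h2, h3⟩ := hx p hp
      have h4 := one_add_mul_le_pow (a := -(Real.log p / Real.log X)) (by linarith) (r - 1)
      have h6 : 1 + ((r - 1 : ℕ) : ℝ) * -(Real.log p / Real.log X) ≤
          (1 - Real.log p / Real.log X) ^ (r - 1) := by
        rw [sub_eq_add_neg (1 : ℝ) (Real.log p / Real.log X)]
        exact h4
      calc 1 / (p : ℝ) - ((r - 1 : ℕ) : ℝ) / Real.log X * (Real.log p / p)
          = 1 / (p : ℝ) * (1 + ((r - 1 : ℕ) : ℝ) * -(Real.log p / Real.log X)) := by ring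
        _ ≤ 1 / (p : ℝ) * (1 - Real.log p / Real.log X) ^ (r - 1) :=
            mul_le_mul_of_nonneg_left h6 (by positivity)
    have h7 : ((r - 1 : ℕ) : ℝ) / Real.log X * ∑ p ∈ PW z w, Real.log p / p ≤
        r * (Real.log w + C) / Real.log X := by
      have h8 : ((r - 1 : ℕ) : ℝ) ≤ r := by exact_mod_cast Nat.sub_le r 1
      calc ((r - 1 : ℕ) : ℝ) / Real.log X * ∑ p ∈ PW z w, Real.log p / p
          = ((r - 1 : ℕ) : ℝ) * (∑ p ∈ PW z w, Real.log p / p) / Real.log X := by ring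
        _ ≤ r * (Real.log w + C) / Real.log X := by
            refine div_le_div_of_nonneg_right ?_ hlX.le
            exact mul_le_mul h8 hs hs0 (by positivity)
    linarith

end Pool.Agent.Work.MP_122e00_nt.TS
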