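import Pool.Agent.Work.MP_122e00_nt.TS.Stmts8

/-!
# All powers, item N2: harmonic sums over integers coprime to `D`
-/

set_option autoImplicit false

namespace Pool.Agent.Work.MP_122e00_nt.TS

open Finset

namespace IN2

/-- the integers up to `N` which are divisible by no element of `s` -/
def F (s : Finset ℕ) (N : ℕ) : Finset ℕ := (Finset.Icc 1 N).filter (fun m => ∀ q ∈ s, ¬ q ∣ m)

theorem mem_F {s : Finset ℕ} {N m : ℕ} :
    m ∈ F s N ↔ (1 ≤ m ∧ m ≤ N) ∧ ∀ q ∈ s, ¬ q ∣ m := by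
  unfold F
  rw [Finset.mem_filter, Finset.mem_Icc]

theorem step (s : Finset ℕ) (p N : ℕ) (hp : 1 ≤ p) :
    (1 - 1 / (p : ℝ)) * ∑ m ∈ F s N, 1 / (m : ℝ) ≤ ∑ m ∈ F (insert p s) N, 1 / (m : ℝ) := by
  have hp' : (0 : ℝ) < p := by exact_mod_cast hp
  have h1 : (F s N).filter (fun m => ¬ p ∣ m) = F (insert p s) N := by
    ext m
    rw [Finset.mem_filter, mem_F, mem_F]
    constructor
    · rintro ⟨⟨h1, h2⟩, h3⟩
      refine ⟨h1, fun q hq => ?_⟩
      rcases Finset.mem_insert.1 hq with h | h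
      · rw [h]
        exact h3
      · exact h2 q h
    · rintro ⟨h1, h2⟩
      exact ⟨⟨h1, fun q hq => h2 q (Finset.mem_insert_of_mem hq)⟩,
        h2 p (Finset.mem_insert_self p s)⟩
  have h2 : ∑ m ∈ (F s N).filter (fun m => p ∣ m), 1 / (m : ℝ) ≤
      1 / (p : ℝ) * ∑ m ∈ F s N, 1 / (m : ℝ) := by
    have e1 : ∀ m ∈ (F s N).filter (fun m => p ∣ m),
        1 / (m : ℝ) = 1 / (p : ℝ) * (1 / ((m / p : ℕ) : ℝ)) := by
      intro m hm
      obtain ⟨hm1, k, rfl⟩ := Finset.mem_filter.1 hm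
      rw [Nat.mul_div_cancel_left k hp]
      push_cast
      rw [one_div_mul_one_div]
    rw [Finset.sum_congr rfl e1, ← Finset.mul_sum]
    refine mul_le_mul_of_nonneg_left ?_ (by positivity)
    have e2 : ∑ m ∈ (F s N).filter (fun m => p ∣ m), 1 / ((m / p : ℕ) : ℝ) =
        ∑ n ∈ ((F s N).filter (fun m => p ∣ m)).image (fun m => m / p), 1 / (n : ℝ) := by
      rw [Finset.sum_image]
      intro a ha b hb hab
      have ha' := (Finset.mem_filter.1 (Finset.mem_coe.1 ha)).2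
      have hb' := (Finset.mem_filter.1 (Finset.mem_coe.1 hb)).2
      have hab' : a / p = b / p := hab
      calc a = p * (a / p) := (Nat.mul_div_cancel' ha').symm
        _ = p * (b / p) := by rw [hab']
        _ = b := Nat.mul_div_cancel' hb'
    rw [e2]
    refine Finset.sum_le_sum_of_subset_of_nonneg ?_ (fun i _ _ => by positivity)
    intro n hn
    obtain ⟨m, hm, rfl⟩ := Finset.mem_image.1 hn
    obtain ⟨hm1, hm2⟩ := Finset.mem_filter.1 hm
    obtain ⟨k, rfl⟩ := hm2
    rw [mem_F] at hm1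
    show p * k / p ∈ F s N
    rw [Nat.mul_div_cancel_left k hp, mem_F]
    obtain ⟨⟨h3, h4⟩, h5⟩ := hm1
    refine ⟨⟨?_, ?_⟩, fun q hq hqk => h5 q hq (Dvd.dvd.mul_left hqk p)⟩
    · rcases Nat.eq_zero_or_pos k with h | h
      · rw [h, mul_zero] at h3
        omega
      · exact h
    · calc k = 1 * k := (one_mul k).symm
        _ ≤ p * k := Nat.mul_le_mul_right k hp
        _ ≤ N := h4
  have h3 := Finset.sum_filter_add_sum_filter_not (F s N) (fun m => p ∣ m)
    (fun m => 1 / (m : ℝ))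
  rw [h1] at h3
  rw [sub_mul, one_mul]
  linarith

theorem main (s : Finset ℕ) (N : ℕ) (hs : ∀ p ∈ s, 1 ≤ p) :
    (∏ p ∈ s, (1 - 1 / (p : ℝ))) * ∑ m ∈ Finset.Icc 1 N, 1 / (m : ℝ) ≤
      ∑ m ∈ F s N, 1 / (m : ℝ) := by
  induction s using Finset.induction_on with
  | empty =>
    have h1 : F ∅ N = Finset.Icc 1 N := by
      ext m
      rw [mem_F, Finset.mem_Icc]
      exact ⟨fun h => h.1, fun h => ⟨h, fun q hq => absurd hq (Finset.notMem_empty q)⟩⟩
    rw [h1, Finset.prod_empty, one_mul]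
  | insert p s hp ih =>
    have ih' := ih fun q hq => hs q (Finset.mem_insert_of_mem hq)
    have hp1 : 1 ≤ p := hs p (Finset.mem_insert_self p s)
    have h1 : (0 : ℝ) ≤ 1 - 1 / (p : ℝ) := by
      have h2 : (1 : ℝ) ≤ p := by exact_mod_cast hp1
      have h3 : 1 / (p : ℝ) ≤ 1 := by
        rw [div_le_one (by linarith)]
        exact h2
      linarith
    rw [Finset.prod_insert hp, mul_assoc]
    exact (mul_le_mul_of_nonneg_left ih' h1).trans (step s p N hp1)

theorem log_le (N : ℕ) (hN : 1 ≤ N) : Real.log N ≤ ∑ m ∈ Finset.Icc 1 N, 1 / (m : ℝ) := by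
  have h1 := log_add_one_le_harmonic N
  have h2 : Real.log N ≤ Real.log ((N + 1 : ℕ) : ℝ) := by
    refine Real.log_le_log (by exact_mod_cast hN) ?_
    push_cast
    linarith
  have h3 : ((harmonic N : ℚ) : ℝ) = ∑ m ∈ Finset.Icc 1 N, 1 / (m : ℝ) := by
    rw [harmonic_eq_sum_Icc]
    push_cast
    refine Finset.sum_congr rfl fun m _ => ?_
    rw [one_div]
  rw [← h3]
  exact h2.trans h1

theorem totient_div (D : ℕ) (hD : 1 ≤ D) :
    (Nat.totient D : ℝ) / D = ∏ p ∈ D.primeFactors, (1 - 1 / (p : ℝ)) := by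
  have h1 := Nat.totient_eq_mul_prod_factors D
  have h2 : ((Nat.totient D : ℕ) : ℝ) = D * ∏ p ∈ D.primeFactors, (1 - (p : ℝ)⁻¹) := by
    have h3 := congrArg (fun x : ℚ => (x : ℝ)) h1
    push_cast at h3
    exact h3
  have hD' : (D : ℝ) ≠ 0 := by
    have : (0 : ℝ) < D := by exact_mod_cast hD
    exact this.ne'
  rw [h2, mul_comm, mul_div_assoc, div_self hD', mul_one]
  refine Finset.prod_congr rfl fun p _ => ?_
  rw [one_div]

end IN2

theorem prN2 : tsN2 := by
  intro D N hD hN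
  have h1 : (Finset.Icc 1 N).filter (fun m => Nat.Coprime m D) = IN2.F D.primeFactors N := by
    ext m
    rw [Finset.mem_filter, IN2.mem_F, Finset.mem_Icc]
    refine and_congr_right fun hm => ?_
    constructor
    · intro h q hq hqm
      exact (Nat.Prime.not_coprime_iff_dvd.2 ⟨q, Nat.prime_of_mem_primeFactors hq, hqm,
        Nat.dvd_of_mem_primeFactors hq⟩) h
    · intro h
      by_contra hc
      obtain ⟨q, hq1, hq2, hq3⟩ := Nat.Prime.not_coprime_iff_dvd.1 hc
      exact h q (Nat.mem_primeFactors.2 ⟨hq1, hq3, by omega⟩) hq2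
  rw [h1, IN2.totient_div D hD]
  have h2 := IN2.main D.primeFactors N fun p hp => (Nat.prime_of_mem_primeFactors hp).one_le
  refine le_trans (mul_le_mul_of_nonneg_left (IN2.log_le N hN) ?_) h2
  rw [← IN2.totient_div D hD]
  positivity

end Pool.Agent.Work.MP_122e00_nt.TS
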