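import Mathlib
import Pool.Agent.Work.MP_122e00_nt.TS.Stmts8

/-!
# Thin shifts, item N3: lower bound for the sum of the sieve
-/

namespace Pool.Agent.Work.MP_122e00_nt.TS

open Finset Filter Topology ArithmeticFunction
open scoped ArithmeticFunction.zeta ArithmeticFunction.Moebius

namespace IN3

/-- partial sums of the geometric series -/
lemma geom_le {x : ℝ} (h0 : 0 ≤ x) (h1 : x < 1) (M : ℕ) :
    ∑ i ∈ Finset.range M, x ^ i ≤ 1 / (1 - x) := by
  rw [le_div_iff₀ (by linarith)]
  have h := geom_sum_mul_neg x M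
  rw [h]
  have := pow_nonneg h0 M
  linarith

/-- the local factor -/
noncomputable def g (h p : ℕ) : ℝ := (oh h p : ℝ) / ((p : ℝ) - oh h p)

lemma g_nonneg (h p : ℕ) (hp : 2 < p) : 0 ≤ g h p := by
  have h1 : (3 : ℝ) ≤ p := by exact_mod_cast hp
  unfold g oh
  split_ifs
  · have : (0 : ℝ) ≤ (p : ℝ) - ((1 : ℕ) : ℝ) := by push_cast; linarith
    positivity
  · have : (0 : ℝ) ≤ (p : ℝ) - ((2 : ℕ) : ℝ) := by push_cast; linarith
    positivity

/-- the local sum -/
lemma local_le (h p : ℕ) (hp : 2 < p) (E : Finset (ℕ × ℕ)) (hE0 : (0, 0) ∉ E)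
    (hE : p ∣ h → ∀ e ∈ E, e.2 = 0) :
    ∑ e ∈ E, (1 / (p : ℝ)) ^ (e.1 + e.2) ≤ g h p := by
  classical
  have h1 : (3 : ℝ) ≤ p := by exact_mod_cast hp
  have hx0 : (0 : ℝ) ≤ 1 / p := by positivity
  have hx1 : (1 : ℝ) / p < 1 := by
    rw [div_lt_one (by linarith)]
    linarith
  -- a box which contains everything
  obtain ⟨M, hM⟩ : ∃ M : ℕ, ∀ e ∈ E, e.1 < M ∧ e.2 < M := by
    refine ⟨∑ e ∈ E, (e.1 + e.2) + 1, fun e he => ?_⟩
    have := Finset.single_le_sum (f := fun e : ℕ × ℕ => e.1 + e.2) (fun _ _ => Nat.zero_le _) he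
    omega
  by_cases hph : p ∣ h
  · have hsub : insert (0, 0) E ⊆ Finset.range (M + 1) ×ˢ {0} := by
      intro e he
      rw [Finset.mem_insert] at he
      rw [Finset.mem_product, Finset.mem_range, Finset.mem_singleton]
      rcases he with rfl | he
      · exact ⟨Nat.succ_pos _, rfl⟩
      · exact ⟨by have := (hM e he).1; omega, hE hph e he⟩
    have h2 : ∑ e ∈ insert (0, 0) E, (1 / (p : ℝ)) ^ (e.1 + e.2) ≤
        ∑ e ∈ Finset.range (M + 1) ×ˢ {0}, (1 / (p : ℝ)) ^ (e.1 + e.2) :=
      Finset.sum_le_sum_of_subset_of_nonneg hsub fun _ _ _ => by positivity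
    rw [Finset.sum_insert hE0, Finset.sum_product] at h2
    simp only [Finset.sum_singleton, add_zero, pow_zero] at h2
    have h3 := geom_le hx0 hx1 (M + 1)
    have h4 : (1 : ℝ) / (1 - 1 / p) = 1 + g h p := by
      unfold g oh
      rw [if_pos hph]
      have : (p : ℝ) - 1 ≠ 0 := by linarith
      push_cast
      field_simp
      ring
    linarith
  · have hsub : insert (0, 0) E ⊆ Finset.range (M + 1) ×ˢ Finset.range (M + 1) := by
      intro e he
      rw [Finset.mem_insert] at he
      rw [Finset.mem_product, Finset.mem_range, Finset.mem_range]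
      rcases he with rfl | he
      · exact ⟨Nat.succ_pos _, Nat.succ_pos _⟩
      · have := hM e he
        exact ⟨by omega, by omega⟩
    have h2 : ∑ e ∈ insert (0, 0) E, (1 / (p : ℝ)) ^ (e.1 + e.2) ≤
        ∑ e ∈ Finset.range (M + 1) ×ˢ Finset.range (M + 1), (1 / (p : ℝ)) ^ (e.1 + e.2) :=
      Finset.sum_le_sum_of_subset_of_nonneg hsub fun _ _ _ => by positivity
    rw [Finset.sum_insert hE0] at h2
    have h5 : ∑ e ∈ Finset.range (M + 1) ×ˢ Finset.range (M + 1), (1 / (p : ℝ)) ^ (e.1 + e.2) =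
        (∑ i ∈ Finset.range (M + 1), (1 / (p : ℝ)) ^ i) ^ 2 := by
      rw [sq, Finset.sum_mul_sum, Finset.sum_product]
      exact Finset.sum_congr rfl fun i _ => Finset.sum_congr rfl fun j _ => by rw [pow_add]
    rw [h5] at h2
    have h3 := geom_le hx0 hx1 (M + 1)
    have h3' : 0 ≤ ∑ i ∈ Finset.range (M + 1), (1 / (p : ℝ)) ^ i :=
      Finset.sum_nonneg fun _ _ => by positivity
    have h6 : (∑ i ∈ Finset.range (M + 1), (1 / (p : ℝ)) ^ i) ^ 2 ≤ (1 / (1 - 1 / (p : ℝ))) ^ 2 :=
      pow_le_pow_left₀ h3' h3 2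
    have h4 : (1 / (1 - 1 / (p : ℝ))) ^ 2 ≤ 1 + g h p := by
      unfold g oh
      rw [if_neg hph]
      push_cast
      have e1 : (1 : ℝ) / (1 - 1 / p) = p / (p - 1) := by
        have : (p : ℝ) - 1 ≠ 0 := by linarith
        field_simp
      have e2 : (1 : ℝ) + 2 / (p - 2) = p / (p - 2) := by
        have : (p : ℝ) - 2 ≠ 0 := by linarith
        field_simp
        ring
      rw [e1, e2, div_pow, div_le_div_iff₀ (by nlinarith) (by linarith)]
      nlinarith
    simp only [add_zero, pow_zero] at h2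
    linarith

/-- the sum over all pairs with a given radical -/
lemma fiber_le (h : ℕ) (S : Finset ℕ) : (∀ p ∈ S, p.Prime ∧ 2 < p) → ∀ T : Finset (ℕ × ℕ),
    (∀ x ∈ T, x.1 ≠ 0 ∧ x.2 ≠ 0 ∧ x.1.primeFactors ∪ x.2.primeFactors = S ∧
      ∀ p ∈ x.2.primeFactors, ¬ p ∣ h) →
    ∑ x ∈ T, 1 / ((x.1 : ℝ) * x.2) ≤ ∏ p ∈ S, g h p := by
  classical
  induction S using Finset.induction_on with
  | empty =>
    intro _ T hT
    have hsub : T ⊆ {(1, 1)} := by
      intro x hx
      obtain ⟨h1, h2, h3, -⟩ := hT x hx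
      rw [Finset.union_eq_empty, Nat.primeFactors_eq_empty, Nat.primeFactors_eq_empty] at h3
      rw [Finset.mem_singleton]
      ext
      · exact h3.1.resolve_left h1
      · exact h3.2.resolve_left h2
    calc ∑ x ∈ T, 1 / ((x.1 : ℝ) * x.2) ≤ ∑ x ∈ ({(1, 1)} : Finset (ℕ × ℕ)), 1 / ((x.1 : ℝ) * x.2) :=
          Finset.sum_le_sum_of_subset_of_nonneg hsub fun _ _ _ => by positivity
      _ = 1 := by simp
      _ = ∏ p ∈ (∅ : Finset ℕ), g h p := by simp
  | insert p S hpS ih =>
    intro hS T hT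
    have hp := hS p (Finset.mem_insert_self p S)
    have hpp : p.Prime := hp.1
    set T' := T.image (fun x : ℕ × ℕ => (x.1 / p ^ x.1.factorization p, x.2 / p ^ x.2.factorization p))
      with hT'
    set E := T.image (fun x : ℕ × ℕ => (x.1.factorization p, x.2.factorization p)) with hE
    have hne : ∀ n : ℕ, n ≠ 0 → n = p ^ n.factorization p * (n / p ^ n.factorization p) := fun n _ =>
      (Nat.ordProj_mul_ordCompl_eq_self n p).symm
    have hval : ∀ n : ℕ, n ≠ 0 → 1 / (n : ℝ) =
        (1 / ((n / p ^ n.factorization p : ℕ) : ℝ)) * (1 / (p : ℝ)) ^ n.factorization p := by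
      intro n hn
      have h1 := hne n hn
      have h2 : (n : ℝ) = (p : ℝ) ^ n.factorization p * ((n / p ^ n.factorization p : ℕ) : ℝ) := by
        exact_mod_cast h1
      conv_lhs => rw [h2]
      rw [one_div_pow, one_div_mul_one_div, mul_comm]
    -- first step
    have key : ∑ x ∈ T, 1 / ((x.1 : ℝ) * x.2) ≤
        ∑ y ∈ T' ×ˢ E, 1 / ((y.1.1 : ℝ) * y.1.2) * (1 / (p : ℝ)) ^ (y.2.1 + y.2.2) := by
      have hinj : Set.InjOn (fun x : ℕ × ℕ => (((x.1 / p ^ x.1.factorization p,
          x.2 / p ^ x.2.factorization p) : ℕ × ℕ), ((x.1.factorization p, x.2.factorization p) : ℕ × ℕ)))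
          (T : Set (ℕ × ℕ)) := by
        intro x hx y hy hxy
        simp only [Prod.mk.injEq] at hxy
        obtain ⟨⟨a1, a2⟩, a3, a4⟩ := hxy
        obtain ⟨h1, h2, -, -⟩ := hT x hx
        obtain ⟨h1', h2', -, -⟩ := hT y hy
        ext
        · rw [hne x.1 h1, hne y.1 h1', a1, a3]
        · rw [hne x.2 h2, hne y.2 h2', a2, a4]
      have himg : T.image (fun x : ℕ × ℕ => (((x.1 / p ^ x.1.factorization p,
          x.2 / p ^ x.2.factorization p) : ℕ × ℕ), ((x.1.factorization p, x.2.factorization p) : ℕ × ℕ)))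
          ⊆ T' ×ˢ E := by
        intro y hy
        rw [Finset.mem_image] at hy
        obtain ⟨x, hx, rfl⟩ := hy
        rw [Finset.mem_product]
        exact ⟨Finset.mem_image_of_mem _ hx, Finset.mem_image_of_mem _ hx⟩
      refine le_trans (le_of_eq ?_) (Finset.sum_le_sum_of_subset_of_nonneg himg fun _ _ _ => by positivity)
      rw [Finset.sum_image hinj]
      refine Finset.sum_congr rfl fun x hx => ?_
      obtain ⟨h1, h2, -, -⟩ := hT x hx
      simp only
      rw [← one_div_mul_one_div, ← one_div_mul_one_div, hval x.1 h1, hval x.2 h2, pow_add]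
      ring
    have hT'1 : ∑ x ∈ T', 1 / ((x.1 : ℝ) * x.2) ≤ ∏ p ∈ S, g h p := by
      refine ih (fun q hq => hS q (Finset.mem_insert_of_mem hq)) T' ?_
      intro y hy
      rw [hT', Finset.mem_image] at hy
      obtain ⟨x, hx, rfl⟩ := hy
      obtain ⟨h1, h2, h3, h4⟩ := hT x hx
      have pf : ∀ n : ℕ, (n / p ^ n.factorization p).primeFactors = n.primeFactors.erase p := by
        intro n
        rw [← Nat.support_factorization, Nat.factorization_ordCompl, Finsupp.support_erase,
          Nat.support_factorization]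
      refine ⟨(Nat.ordCompl_pos p h1).ne', (Nat.ordCompl_pos p h2).ne', ?_, ?_⟩
      · simp only
        rw [pf, pf, ← Finset.erase_union_distrib, h3, Finset.erase_insert hpS]
      · intro q hq
        simp only at hq
        rw [pf] at hq
        exact h4 q (Finset.mem_of_mem_erase hq)
    have hE1 : ∑ e ∈ E, (1 / (p : ℝ)) ^ (e.1 + e.2) ≤ g h p := by
      refine local_le h p hp.2 E ?_ ?_
      · intro hmem
        rw [hE, Finset.mem_image] at hmem
        obtain ⟨x, hx, hxe⟩ := hmem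
        obtain ⟨h1, h2, h3, h4⟩ := hT x hx
        rw [Prod.mk.injEq] at hxe
        have : p ∈ x.1.primeFactors ∪ x.2.primeFactors := h3 ▸ Finset.mem_insert_self p S
        rw [Finset.mem_union, ← Nat.support_factorization, ← Nat.support_factorization,
          Finsupp.mem_support_iff, Finsupp.mem_support_iff] at this
        rcases this with h | h
        · exact h hxe.1
        · exact h hxe.2
      · intro hph e he
        rw [hE, Finset.mem_image] at he
        obtain ⟨x, hx, rfl⟩ := he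
        obtain ⟨h1, h2, h3, h4⟩ := hT x hx
        simp only
        by_contra hc
        have : p ∈ x.2.primeFactors := by
          rw [← Nat.support_factorization, Finsupp.mem_support_iff]
          exact hc
        exact h4 p this hph
    rw [Finset.prod_insert hpS, mul_comm]
    refine key.trans ?_
    rw [Finset.sum_product]
    simp only
    rw [← Finset.sum_mul_sum T' E (fun y => 1 / ((y.1 : ℝ) * y.2))
      (fun e => (1 / (p : ℝ)) ^ (e.1 + e.2))]
    exact mul_le_mul hT'1 hE1 (Finset.sum_nonneg fun _ _ => by positivity)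
      (Finset.prod_nonneg fun q hq => g_nonneg h q (hS q (Finset.mem_insert_of_mem hq)).2)

/-- the product of the two harmonic sums -/
lemma prod_le (h D F N : ℕ) (hN : N * N ≤ F) :
    (∑ m ∈ (Finset.Icc 1 N).filter (fun m => Nat.Coprime m (2 * D)), 1 / (m : ℝ)) *
      (∑ m ∈ (Finset.Icc 1 N).filter (fun m => Nat.Coprime m (2 * D * h)), 1 / (m : ℝ)) ≤
    Pool.Agent.F0f91f8.FC.Gs (PD D F) (oh h) F := by
  classical
  rw [Finset.sum_mul_sum, ← Finset.sum_product']
  set A := (Finset.Icc 1 N).filter (fun m => Nat.Coprime m (2 * D)) with hA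
  set B := (Finset.Icc 1 N).filter (fun m => Nat.Coprime m (2 * D * h)) with hB
  set Q := (Finset.Icc 1 F).filter (fun q => Squarefree q ∧ q.primeFactors ⊆ PD D F) with hQ
  have hmem : ∀ x ∈ A ×ˢ B, (1 ≤ x.1 ∧ x.1 ≤ N ∧ Nat.Coprime x.1 (2 * D)) ∧
      (1 ≤ x.2 ∧ x.2 ≤ N ∧ Nat.Coprime x.2 (2 * D * h)) := by
    intro x hx
    rw [Finset.mem_product, hA, hB, Finset.mem_filter, Finset.mem_filter, Finset.mem_Icc,
      Finset.mem_Icc] at hx
    exact ⟨⟨hx.1.1.1, hx.1.1.2, hx.1.2⟩, ⟨hx.2.1.1, hx.2.1.2, hx.2.2⟩⟩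
  have hprime : ∀ x ∈ A ×ˢ B, ∀ p ∈ (x.1 * x.2).primeFactors, p.Prime := fun x _ p hp =>
    Nat.prime_of_mem_primeFactors hp
  have hpf : ∀ x ∈ A ×ˢ B, (∏ p ∈ (x.1 * x.2).primeFactors, p).primeFactors =
      (x.1 * x.2).primeFactors := fun x hx => Nat.primeFactors_prod (hprime x hx)
  have hPD : ∀ x ∈ A ×ˢ B, ∀ p ∈ (x.1 * x.2).primeFactors, p ∈ PD D F := by
    intro x hx p hp
    obtain ⟨⟨a1, a2, a3⟩, b1, b2, b3⟩ := hmem x hx
    have hpp := Nat.prime_of_mem_primeFactors hp
    have hdvd := Nat.dvd_of_mem_primeFactors hp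
    have hN1 : N ≤ N * N := Nat.le_mul_self N
    have h1 : p ≤ N ∧ Nat.Coprime p (2 * D) := by
      rcases (Nat.Prime.dvd_mul hpp).1 hdvd with hd | hd
      · exact ⟨(Nat.le_of_dvd (by omega) hd).trans a2, Nat.Coprime.coprime_dvd_left hd a3⟩
      · exact ⟨(Nat.le_of_dvd (by omega) hd).trans b2,
          Nat.Coprime.coprime_dvd_left hd (Nat.Coprime.coprime_mul_right_right b3)⟩
    have h2 : ¬ p ∣ 2 * D := fun hc => by
      have := Nat.Coprime.eq_one_of_dvd h1.2 hc
      exact hpp.one_lt.ne' this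
    unfold PD
    rw [Finset.mem_filter, Finset.mem_Icc]
    refine ⟨⟨hpp.pos, by omega⟩, hpp, ?_, fun hc => h2 (Dvd.dvd.mul_left hc 2)⟩
    rcases hpp.two_le.lt_or_eq with hlt | heq
    · exact hlt
    · exact absurd (heq ▸ Dvd.intro D rfl) h2
  have hmap : ∀ x ∈ A ×ˢ B, (∏ p ∈ (x.1 * x.2).primeFactors, p) ∈ Q := by
    intro x hx
    obtain ⟨⟨a1, a2, a3⟩, b1, b2, b3⟩ := hmem x hx
    rw [hQ, Finset.mem_filter, Finset.mem_Icc]
    refine ⟨⟨Finset.prod_pos fun p hp => (hprime x hx p hp).pos, ?_⟩, ?_, ?_⟩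
    · refine (Nat.le_of_dvd (Nat.mul_pos a1 b1) (Nat.prod_primeFactors_dvd _)).trans ?_
      exact (Nat.mul_le_mul a2 b2).trans hN
    · refine Finset.squarefree_prod_of_pairwise_isCoprime (fun a ha b hb hab => ?_)
        fun a ha => (hprime x hx a ha).squarefree
      simp only [Function.onFun, ← Nat.coprime_iff_isRelPrime]
      exact (Nat.coprime_primes (hprime x hx a ha) (hprime x hx b hb)).mpr hab
    · rw [hpf x hx]
      exact hPD x hx
  rw [← Finset.sum_fiberwise_of_maps_to hmap]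
  unfold Pool.Agent.F0f91f8.FC.Gs
  refine Finset.sum_le_sum fun q hq => ?_
  have hq' := hq
  rw [hQ, Finset.mem_filter, Finset.mem_Icc] at hq'
  have hstep := fiber_le h q.primeFactors (fun p hp => by
    have := hq'.2.2 hp
    unfold PD at this
    rw [Finset.mem_filter] at this
    exact ⟨this.2.1, this.2.2.1⟩) ((A ×ˢ B).filter (fun x => ∏ p ∈ (x.1 * x.2).primeFactors, p = q)) (by
    intro x hx
    rw [Finset.mem_filter] at hx
    obtain ⟨hx, hxq⟩ := hx
    obtain ⟨⟨a1, a2, a3⟩, b1, b2, b3⟩ := hmem x hx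
    refine ⟨by omega, by omega, ?_, ?_⟩
    · rw [← Nat.primeFactors_mul (by omega) (by omega), ← hpf x hx, hxq]
    · intro p hp hph
      have hpp := Nat.prime_of_mem_primeFactors hp
      have hd := Nat.dvd_of_mem_primeFactors hp
      have h3 : Nat.Coprime p (2 * D * h) := Nat.Coprime.coprime_dvd_left hd b3
      exact hpp.one_lt.ne' (Nat.Coprime.eq_one_of_dvd h3 (Dvd.dvd.mul_left hph _)))
  refine le_trans (le_of_eq ?_) hstep
  exact Finset.sum_congr rfl fun x _ => by rw [one_div_mul_one_div]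

end IN3

open IN3 in
/-- item N3 -/
theorem prN3 (hN2 : tsN2) : tsN3 := by
  refine ⟨1 / 64, by norm_num, ?_⟩
  intro h D F hh hD hF
  have hDpos : (0 : ℝ) < D := by exact_mod_cast hD
  have hhpos : (0 : ℝ) < h := by exact_mod_cast hh
  have tD : (0 : ℝ) ≤ (Nat.totient D : ℝ) / D := by positivity
  have th : (0 : ℝ) ≤ (Nat.totient h : ℝ) / h := by positivity
  have tD1 : (Nat.totient D : ℝ) / D ≤ 1 := by
    rw [div_le_one hDpos]
    exact_mod_cast Nat.totient_le D
  have th1 : (Nat.totient h : ℝ) / h ≤ 1 := by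
    rw [div_le_one hhpos]
    exact_mod_cast Nat.totient_le h
  rcases Nat.lt_or_ge F 4 with hF4 | hF4
  · -- small `F`
    have h1 := prod_le h D F 1 (by omega)
    have e1 : (Finset.Icc 1 1).filter (fun m => Nat.Coprime m (2 * D)) = {1} := by
      ext m
      simp only [Finset.mem_filter, Finset.Icc_self, Finset.mem_singleton]
      constructor
      · exact fun h => h.1
      · rintro rfl
        exact ⟨rfl, Nat.coprime_one_left _⟩
    have e2 : (Finset.Icc 1 1).filter (fun m => Nat.Coprime m (2 * D * h)) = {1} := by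
      ext m
      simp only [Finset.mem_filter, Finset.Icc_self, Finset.mem_singleton]
      constructor
      · exact fun h => h.1
      · rintro rfl
        exact ⟨rfl, Nat.coprime_one_left _⟩
    rw [e1, e2, Finset.sum_singleton, Nat.cast_one, div_one, mul_one] at h1
    refine le_trans ?_ h1
    have hl0 : 0 ≤ Real.log F := Real.log_natCast_nonneg F
    have hl1 : Real.log F ≤ 4 := by
      have h2 : Real.log F ≤ F - 1 := Real.log_le_sub_one_of_pos (by positivity)
      have h3 : (F : ℝ) ≤ 4 := by exact_mod_cast hF4.le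
      linarith
    have hsq : Real.log F ^ 2 ≤ 16 := by nlinarith
    have ha : ((Nat.totient D : ℝ) / D) ^ 2 * ((Nat.totient h : ℝ) / h) ≤ 1 := by
      have : ((Nat.totient D : ℝ) / D) ^ 2 ≤ 1 := pow_le_one₀ tD tD1
      nlinarith [sq_nonneg ((Nat.totient D : ℝ) / D)]
    have hb : 0 ≤ ((Nat.totient D : ℝ) / D) ^ 2 * ((Nat.totient h : ℝ) / h) := by positivity
    calc 1 / 64 * ((Nat.totient D : ℝ) / D) ^ 2 * ((Nat.totient h : ℝ) / h) * Real.log F ^ 2
        = 1 / 64 * ((((Nat.totient D : ℝ) / D) ^ 2 * ((Nat.totient h : ℝ) / h)) * Real.log F ^ 2) := by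
          ring
      _ ≤ 1 / 64 * (1 * 16) := by
          refine mul_le_mul_of_nonneg_left ?_ (by norm_num)
          exact mul_le_mul ha hsq (by positivity) zero_le_one
      _ ≤ 1 := by norm_num
  · -- the main case
    set N := Nat.sqrt F with hN
    have hN2' : 2 ≤ N := by
      rw [hN, Nat.le_sqrt]
      omega
    have hNF : N * N ≤ F := Nat.sqrt_le F
    have hFN : F < (N + 1) * (N + 1) := Nat.lt_succ_sqrt F
    have hF4' : F ≤ N ^ 4 := by
      have h1 : N + 1 ≤ N * N := by nlinarith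
      calc F ≤ (N + 1) * (N + 1) := hFN.le
        _ ≤ (N * N) * (N * N) := Nat.mul_le_mul h1 h1
        _ = N ^ 4 := by ring
    have hFpos : (0 : ℝ) < F := by positivity
    have hlog : Real.log F ≤ 4 * Real.log N := by
      have h1 : (F : ℝ) ≤ (N : ℝ) ^ 4 := by exact_mod_cast hF4'
      have h2 := Real.log_le_log hFpos h1
      rw [Real.log_pow] at h2
      exact_mod_cast h2
    have hl0 : 0 ≤ Real.log F := Real.log_natCast_nonneg F
    have hlN : 0 ≤ Real.log N := Real.log_natCast_nonneg N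
    have h1 := prod_le h D F N hNF
    have a1 := hN2 (2 * D) N (by omega) (by omega)
    have a2 := hN2 (2 * D * h) N (Nat.mul_pos (by omega) hh) (by omega)
    have b1 : ((Nat.totient D : ℝ) / D) / 2 ≤ (Nat.totient (2 * D) : ℝ) / ((2 * D : ℕ) : ℝ) := by
      have h2 : Nat.totient D ≤ Nat.totient (2 * D) := by
        have := Nat.totient_super_multiplicative 2 D
        rwa [Nat.totient_two, one_mul] at this
      have h3 : (Nat.totient D : ℝ) ≤ Nat.totient (2 * D) := by exact_mod_cast h2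
      push_cast
      rw [div_div, mul_comm (D : ℝ) 2]
      gcongr
    have b2 : ((Nat.totient D : ℝ) / D) * ((Nat.totient h : ℝ) / h) / 2 ≤
        (Nat.totient (2 * D * h) : ℝ) / ((2 * D * h : ℕ) : ℝ) := by
      have h2 : Nat.totient D * Nat.totient h ≤ Nat.totient (2 * D * h) := by
        have h4 := Nat.totient_super_multiplicative 2 D
        rw [Nat.totient_two, one_mul] at h4
        exact (Nat.mul_le_mul_right _ h4).trans (Nat.totient_super_multiplicative (2 * D) h)
      have h3 : (Nat.totient D : ℝ) * Nat.totient h ≤ Nat.totient (2 * D * h) := by exact_mod_cast h2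
      push_cast
      rw [div_mul_div_comm, div_div, show (D : ℝ) * h * 2 = 2 * D * h by ring]
      gcongr
    have c1 : ((Nat.totient D : ℝ) / D) / 2 * Real.log N ≤
        ∑ m ∈ (Finset.Icc 1 N).filter (fun m => Nat.Coprime m (2 * D)), 1 / (m : ℝ) :=
      (mul_le_mul_of_nonneg_right b1 hlN).trans a1
    have c2 : ((Nat.totient D : ℝ) / D) * ((Nat.totient h : ℝ) / h) / 2 * Real.log N ≤
        ∑ m ∈ (Finset.Icc 1 N).filter (fun m => Nat.Coprime m (2 * D * h)), 1 / (m : ℝ) :=
      (mul_le_mul_of_nonneg_right b2 hlN).trans a2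
    refine le_trans ?_ ((mul_le_mul c1 c2 (by positivity)
      (Finset.sum_nonneg fun _ _ => by positivity)).trans h1)
    have hsq : Real.log F ^ 2 ≤ 16 * Real.log N ^ 2 := by nlinarith
    have hb : 0 ≤ ((Nat.totient D : ℝ) / D) ^ 2 * ((Nat.totient h : ℝ) / h) := by positivity
    calc 1 / 64 * ((Nat.totient D : ℝ) / D) ^ 2 * ((Nat.totient h : ℝ) / h) * Real.log F ^ 2
        = 1 / 64 * ((((Nat.totient D : ℝ) / D) ^ 2 * ((Nat.totient h : ℝ) / h)) * Real.log F ^ 2) := by
          ring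
      _ ≤ 1 / 64 * ((((Nat.totient D : ℝ) / D) ^ 2 * ((Nat.totient h : ℝ) / h)) *
            (16 * Real.log N ^ 2)) := by
          refine mul_le_mul_of_nonneg_left ?_ (by norm_num)
          exact mul_le_mul_of_nonneg_left hsq hb
      _ = ((Nat.totient D : ℝ) / D) / 2 * Real.log N *
            (((Nat.totient D : ℝ) / D) * ((Nat.totient h : ℝ) / h) / 2 * Real.log N) := by ring

end Pool.Agent.Work.MP_122e00_nt.TS
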