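import Pool.Agent.Work.MP_122e00_nt.TS.Stmts8

/-!
# Thin shifts, item N5: sums over admissible pairs and products
-/

namespace Pool.Agent.Work.MP_122e00_nt.TS

open Finset

namespace IN5

/-- the part prime to `p` -/
def c1 (p a : ℕ) : ℕ := a / p ^ a.factorization p

theorem c1_mul (p a : ℕ) : c1 p a * p ^ a.factorization p = a := by
  unfold c1
  exact Nat.div_mul_cancel (Nat.ordProj_dvd a p)

theorem c1_ndvd {p a : ℕ} (hp : p.Prime) (ha : 1 ≤ a) : ¬ p ∣ c1 p a :=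
  Nat.not_dvd_ordCompl hp (by omega)

theorem c1_dvd (p a : ℕ) : c1 p a ∣ a := ⟨_, (c1_mul p a).symm⟩

theorem c1_pos (p : ℕ) {a : ℕ} (ha : 1 ≤ a) : 1 ≤ c1 p a := by
  rcases Nat.eq_zero_or_pos (c1 p a) with h | h
  · have h1 := c1_mul p a
    rw [h, zero_mul] at h1
    omega
  · exact h

theorem fac_pos {p a : ℕ} (hp : p.Prime) (ha : 1 ≤ a) (h : p ∣ a) : 1 ≤ a.factorization p :=
  hp.factorization_pos_of_dvd (by omega) h

theorem dvd_of_fac {p a : ℕ} (h : a.factorization p ≠ 0) : p ∣ a := by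
  by_contra hcon
  exact h (Nat.factorization_eq_zero_of_not_dvd hcon)

theorem fac_le {p a M : ℕ} (hp : p.Prime) (ha : 1 ≤ a) (haM : a ≤ M) : a.factorization p ≤ M := by
  have h1 : p ^ a.factorization p ≤ a := Nat.ordProj_le p (by omega)
  have h2 : a.factorization p < p ^ a.factorization p := Nat.lt_pow_self hp.one_lt
  omega

/-- the possible pairs of exponents -/
def EE (p h M : ℕ) : Finset (ℕ × ℕ) := insert (0, 0) (if p ∣ h then
  (Finset.Icc 1 M) ×ˢ (Finset.Icc 1 M) else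
  ((Finset.Icc 1 M) ×ˢ ({0} : Finset ℕ)) ∪ (({0} : Finset ℕ) ×ˢ (Finset.Icc 1 M)))

/-- the local weight -/
noncomputable def VV (W : ℕ → ℕ → ℝ) (p : ℕ) (e : ℕ × ℕ) : ℝ :=
  if e = (0, 0) then 1 else W (p ^ e.1) (p ^ e.2)

theorem VV_nonneg (W : ℕ → ℕ → ℝ) (hW : ∀ a b, 0 ≤ W a b) (p : ℕ) (e : ℕ × ℕ) : 0 ≤ VV W p e := by
  unfold VV
  split_ifs
  · exact zero_le_one
  · exact hW _ _

theorem VV_le (W : ℕ → ℕ → ℝ) (p : ℕ) (e : ℕ × ℕ) (he : e ≠ (0, 0)) :
    VV W p e = W (p ^ e.1) (p ^ e.2) := if_neg he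

theorem sum_EE (W : ℕ → ℕ → ℝ) (hW : ∀ a b, 0 ≤ W a b) (p h M : ℕ) :
    ∑ e ∈ EE p h M, VV W p e ≤ 1 + LF W h M p := by
  unfold EE LF
  split_ifs with hph
  · rw [Finset.sum_insert (by simp)]
    refine add_le_add (le_of_eq (if_pos rfl)) (le_of_eq ?_)
    rw [Finset.sum_product]
    refine Finset.sum_congr rfl fun i hi => Finset.sum_congr rfl fun j hj => ?_
    refine VV_le W p (i, j) ?_
    intro hc
    have h1 := (Finset.mem_Icc.1 hi).1
    have h2 : i = 0 := congrArg Prod.fst hc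
    omega
  · rw [Finset.sum_insert (by simp)]
    refine add_le_add (le_of_eq (if_pos rfl)) ?_
    rw [Finset.sum_add_distrib]
    have h1 : ∑ e ∈ ((Finset.Icc 1 M) ×ˢ ({0} : Finset ℕ)) ∪
        (({0} : Finset ℕ) ×ˢ (Finset.Icc 1 M)), VV W p e ≤
        ∑ e ∈ (Finset.Icc 1 M) ×ˢ ({0} : Finset ℕ), VV W p e +
        ∑ e ∈ ({0} : Finset ℕ) ×ˢ (Finset.Icc 1 M), VV W p e := by
      rw [← Finset.sum_union_inter]
      exact le_add_of_nonneg_right (Finset.sum_nonneg fun e _ => VV_nonneg W hW p e)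
    refine h1.trans (le_of_eq ?_)
    rw [Finset.sum_product, Finset.sum_product, Finset.sum_singleton]
    refine congrArg₂ (· + ·) ?_ ?_
    · refine Finset.sum_congr rfl fun i hi => ?_
      rw [Finset.sum_singleton, VV_le W p (i, 0)]
      · rw [pow_zero]
      · intro hc
        have h1 := (Finset.mem_Icc.1 hi).1
        have h2 : i = 0 := congrArg Prod.fst hc
        omega
    · refine Finset.sum_congr rfl fun i hi => ?_
      rw [VV_le W p (0, i)]
      · rw [pow_zero]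
      · intro hc
        have h1 := (Finset.mem_Icc.1 hi).1
        have h2 : i = 0 := congrArg Prod.snd hc
        omega

theorem mem_AdP {h Z M a b : ℕ} : (a, b) ∈ AdP h Z M ↔ (1 ≤ a ∧ a ≤ M) ∧ (1 ≤ b ∧ b ≤ M) ∧
    ∀ p : ℕ, p.Prime → (p ∣ a ∨ p ∣ b) → p ≤ Z ∧
    (p ∣ h → p ∣ a ∧ p ∣ b) ∧ (¬ p ∣ h → ¬ (p ∣ a ∧ p ∣ b)) := by
  unfold AdP
  rw [Finset.mem_filter, Finset.mem_product, Finset.mem_Icc, Finset.mem_Icc]
  constructor
  · rintro ⟨⟨ha, hb⟩, h1⟩
    refine ⟨ha, hb, ?_⟩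
    intro p hp hpd
    refine h1 p (Nat.mem_primeFactors.2 ⟨hp, ?_, ?_⟩)
    · exact hp.dvd_mul.2 hpd
    · have h3 : 1 ≤ a := ha.1
      have h4 : 1 ≤ b := hb.1
      show a * b ≠ 0
      positivity
  · rintro ⟨ha, hb, h1⟩
    refine ⟨⟨ha, hb⟩, ?_⟩
    intro p hp
    have h2 := Nat.mem_primeFactors.1 hp
    exact h1 p h2.1 (h2.1.dvd_mul.1 h2.2.1)

theorem step_mem {h Z M a b : ℕ} (hp : (Z + 1).Prime) (hab : (a, b) ∈ AdP h (Z + 1) M) :
    (c1 (Z + 1) a, c1 (Z + 1) b) ∈ AdP h Z M := by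
  rw [mem_AdP] at hab ⊢
  obtain ⟨ha, hb, h1⟩ := hab
  refine ⟨⟨c1_pos _ ha.1, (Nat.le_of_dvd ha.1 (c1_dvd _ _)).trans ha.2⟩,
    ⟨c1_pos _ hb.1, (Nat.le_of_dvd hb.1 (c1_dvd _ _)).trans hb.2⟩, ?_⟩
  intro q hq hqd
  have hqab : q ∣ a ∨ q ∣ b := by
    rcases hqd with hd | hd
    · exact Or.inl (hd.trans (c1_dvd _ _))
    · exact Or.inr (hd.trans (c1_dvd _ _))
  have h2 := h1 q hq hqab
  have hqp : q ≠ Z + 1 := by
    rintro rfl
    rcases hqd with hd | hd
    · exact c1_ndvd hp ha.1 hd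
    · exact c1_ndvd hp hb.1 hd
  have key : ∀ x : ℕ, q ∣ x → q ∣ c1 (Z + 1) x := by
    intro x hx
    rw [← c1_mul (Z + 1) x] at hx
    rcases hq.dvd_mul.1 hx with h3 | h3
    · exact h3
    · exact absurd ((Nat.prime_dvd_prime_iff_eq hq hp).1 (hq.dvd_of_dvd_pow h3)) hqp
  refine ⟨by omega, fun hqh => ?_, fun hqh hc => ?_⟩
  · exact ⟨key a (h2.2.1 hqh).1, key b (h2.2.1 hqh).2⟩
  · exact h2.2.2 hqh ⟨hc.1.trans (c1_dvd _ _), hc.2.trans (c1_dvd _ _)⟩

theorem step_exp {h Z M a b : ℕ} (hp : (Z + 1).Prime) (hab : (a, b) ∈ AdP h (Z + 1) M) :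
    (a.factorization (Z + 1), b.factorization (Z + 1)) ∈ EE (Z + 1) h M := by
  rw [mem_AdP] at hab
  obtain ⟨ha, hb, h1⟩ := hab
  unfold EE
  rw [Finset.mem_insert]
  by_cases hij : a.factorization (Z + 1) = 0 ∧ b.factorization (Z + 1) = 0
  · left
    rw [hij.1, hij.2]
  · right
    have hd : (Z + 1) ∣ a ∨ (Z + 1) ∣ b := by
      by_contra hcon
      push Not at hcon
      exact hij ⟨Nat.factorization_eq_zero_of_not_dvd hcon.1,
        Nat.factorization_eq_zero_of_not_dvd hcon.2⟩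
    have h2 := h1 (Z + 1) hp hd
    split_ifs with hph
    · have h3 := h2.2.1 hph
      rw [Finset.mem_product, Finset.mem_Icc, Finset.mem_Icc]
      exact ⟨⟨fac_pos hp ha.1 h3.1, fac_le hp ha.1 ha.2⟩,
        ⟨fac_pos hp hb.1 h3.2, fac_le hp hb.1 hb.2⟩⟩
    · have h3 := h2.2.2 hph
      rw [Finset.mem_union, Finset.mem_product, Finset.mem_product, Finset.mem_singleton,
        Finset.mem_singleton, Finset.mem_Icc, Finset.mem_Icc]
      rcases hd with hd | hd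
      · left
        refine ⟨⟨fac_pos hp ha.1 hd, fac_le hp ha.1 ha.2⟩, ?_⟩
        refine Nat.factorization_eq_zero_of_not_dvd ?_
        intro hd'
        exact h3 ⟨hd, hd'⟩
      · right
        refine ⟨?_, ⟨fac_pos hp hb.1 hd, fac_le hp hb.1 hb.2⟩⟩
        refine Nat.factorization_eq_zero_of_not_dvd ?_
        intro hd'
        exact h3 ⟨hd', hd⟩

/-- the decomposition of a pair -/
def Ph (p : ℕ) (q : ℕ × ℕ) : (ℕ × ℕ) × (ℕ × ℕ) :=
  ((c1 p q.1, c1 p q.2), (q.1.factorization p, q.2.factorization p))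

theorem Ph_inj (p : ℕ) : Function.Injective (Ph p) := by
  rintro ⟨a, b⟩ ⟨a', b'⟩ hh
  have h1 : c1 p a = c1 p a' := congrArg (fun x => x.1.1) hh
  have h2 : c1 p b = c1 p b' := congrArg (fun x => x.1.2) hh
  have h3 : a.factorization p = a'.factorization p := congrArg (fun x => x.2.1) hh
  have h4 : b.factorization p = b'.factorization p := congrArg (fun x => x.2.2) hh
  rw [← c1_mul p a, ← c1_mul p b, ← c1_mul p a', ← c1_mul p b', h1, h2, h3, h4]

theorem step (W : ℕ → ℕ → ℝ) (hW : ∀ a b, 0 ≤ W a b)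
    (hm : ∀ p i j a b : ℕ, p.Prime → ¬ p ∣ a → ¬ p ∣ b →
      W (a * p ^ i) (b * p ^ j) ≤ W a b * W (p ^ i) (p ^ j)) (h Z M : ℕ) (hp : (Z + 1).Prime) :
    ∑ q ∈ AdP h (Z + 1) M, W q.1 q.2 ≤
      (∑ q ∈ AdP h Z M, W q.1 q.2) * (1 + LF W h M (Z + 1)) := by
  have h1 : ∀ q ∈ AdP h (Z + 1) M, W q.1 q.2 ≤
      (fun x : (ℕ × ℕ) × (ℕ × ℕ) => W x.1.1 x.1.2 * VV W (Z + 1) x.2) (Ph (Z + 1) q) := by
    rintro ⟨a, b⟩ hq
    show W a b ≤ W (c1 (Z + 1) a) (c1 (Z + 1) b) *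
      VV W (Z + 1) (a.factorization (Z + 1), b.factorization (Z + 1))
    obtain ⟨ha, hb, -⟩ := mem_AdP.1 hq
    by_cases hij : (a.factorization (Z + 1), b.factorization (Z + 1)) = (0, 0)
    · have hi : a.factorization (Z + 1) = 0 := congrArg Prod.fst hij
      have hj : b.factorization (Z + 1) = 0 := congrArg Prod.snd hij
      have h2 : VV W (Z + 1) (a.factorization (Z + 1), b.factorization (Z + 1)) = 1 := if_pos hij
      have h3 : c1 (Z + 1) a = a := by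
        have := c1_mul (Z + 1) a
        rwa [hi, pow_zero, mul_one] at this
      have h4 : c1 (Z + 1) b = b := by
        have := c1_mul (Z + 1) b
        rwa [hj, pow_zero, mul_one] at this
      rw [h2, h3, h4, mul_one]
    · rw [VV_le W (Z + 1) _ hij]
      have h2 := hm (Z + 1) (a.factorization (Z + 1)) (b.factorization (Z + 1)) (c1 (Z + 1) a)
        (c1 (Z + 1) b) hp (c1_ndvd hp ha.1) (c1_ndvd hp hb.1)
      rw [c1_mul, c1_mul] at h2
      exact h2
  refine (Finset.sum_le_sum h1).trans ?_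
  rw [← Finset.sum_image (s := AdP h (Z + 1) M) (g := Ph (Z + 1))
    (f := fun x : (ℕ × ℕ) × (ℕ × ℕ) => W x.1.1 x.1.2 * VV W (Z + 1) x.2)
    (fun x _ y _ hxy => Ph_inj (Z + 1) hxy)]
  have h2 : (AdP h (Z + 1) M).image (Ph (Z + 1)) ⊆ (AdP h Z M) ×ˢ (EE (Z + 1) h M) := by
    intro x hx
    obtain ⟨⟨a, b⟩, hq, rfl⟩ := Finset.mem_image.1 hx
    exact Finset.mem_product.2 ⟨step_mem hp hq, step_exp hp hq⟩
  refine (Finset.sum_le_sum_of_subset_of_nonneg h2 ?_).trans ?_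
  · intro x _ _
    exact mul_nonneg (hW _ _) (VV_nonneg W hW _ _)
  · rw [Finset.sum_product]
    have h3 : ∑ x ∈ AdP h Z M, ∑ y ∈ EE (Z + 1) h M, W (x, y).1.1 (x, y).1.2 * VV W (Z + 1) (x, y).2 =
        (∑ q ∈ AdP h Z M, W q.1 q.2) * ∑ e ∈ EE (Z + 1) h M, VV W (Z + 1) e := by
      rw [Finset.sum_mul_sum]
    rw [h3]
    exact mul_le_mul_of_nonneg_left (sum_EE W hW _ _ _) (Finset.sum_nonneg fun q _ => hW _ _)

theorem LF_nonneg (W : ℕ → ℕ → ℝ) (hW : ∀ a b, 0 ≤ W a b) (h M p : ℕ) : 0 ≤ LF W h M p := by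
  unfold LF
  split_ifs
  · exact Finset.sum_nonneg fun i _ => Finset.sum_nonneg fun j _ => hW _ _
  · exact Finset.sum_nonneg fun i _ => add_nonneg (hW _ _) (hW _ _)

theorem pr1_succ_prime {Z : ℕ} (hp : (Z + 1).Prime) : pr1 (Z + 1) = insert (Z + 1) (pr1 Z) := by
  ext q
  unfold pr1
  rw [Finset.mem_insert, Finset.mem_filter, Finset.mem_filter, Finset.mem_Icc, Finset.mem_Icc]
  constructor
  · rintro ⟨h1, h2⟩
    by_cases h3 : q = Z + 1
    · exact Or.inl h3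
    · exact Or.inr ⟨by omega, h2⟩
  · rintro (rfl | ⟨h1, h2⟩)
    · exact ⟨by omega, hp⟩
    · exact ⟨by omega, h2⟩

theorem pr1_succ_not {Z : ℕ} (hp : ¬ (Z + 1).Prime) : pr1 (Z + 1) = pr1 Z := by
  ext q
  unfold pr1
  rw [Finset.mem_filter, Finset.mem_filter, Finset.mem_Icc, Finset.mem_Icc]
  constructor
  · rintro ⟨h1, h2⟩
    have h3 : q ≠ Z + 1 := by
      rintro rfl
      exact hp h2
    exact ⟨by omega, h2⟩
  · rintro ⟨h1, h2⟩
    exact ⟨by omega, h2⟩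

end IN5

theorem prN5 : tsN5 := by
  intro W hW hm h Z M
  induction Z with
  | zero =>
    have h1 : pr1 0 = ∅ := rfl
    rw [h1, Finset.prod_empty, mul_one]
    have h2 : AdP h 0 M ⊆ {(1, 1)} := by
      rintro ⟨a, b⟩ hab
      obtain ⟨ha, hb, h3⟩ := IN5.mem_AdP.1 hab
      have h4 : ∀ x : ℕ, (∀ p : ℕ, p.Prime → p ∣ x → False) → x = 1 := by
        intro x hx
        by_contra hne
        obtain ⟨p, hp, hpx⟩ := Nat.exists_prime_and_dvd hne
        exact hx p hp hpx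
      have ha1 : a = 1 := h4 a fun p hp hpa => by
        have := (h3 p hp (Or.inl hpa)).1
        have := hp.pos
        omega
      have hb1 : b = 1 := h4 b fun p hp hpb => by
        have := (h3 p hp (Or.inr hpb)).1
        have := hp.pos
        omega
      rw [ha1, hb1]
      exact Finset.mem_singleton_self _
    refine (Finset.sum_le_sum_of_subset_of_nonneg h2 fun q _ _ => hW _ _).trans ?_
    rw [Finset.sum_singleton]
  | succ Z ih =>
    by_cases hp : (Z + 1).Prime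
    · have h1 : Z + 1 ∉ pr1 Z := by
        unfold pr1
        rw [Finset.mem_filter, Finset.mem_Icc]
        omega
      rw [IN5.pr1_succ_prime hp, Finset.prod_insert h1]
      refine (IN5.step W hW hm h Z M hp).trans ?_
      have h2 : 0 ≤ 1 + LF W h M (Z + 1) := add_nonneg zero_le_one (IN5.LF_nonneg W hW h M _)
      have h3 := mul_le_mul_of_nonneg_right ih h2
      refine h3.trans (le_of_eq ?_)
      ring
    · rw [IN5.pr1_succ_not hp]
      refine le_trans ?_ ih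
      refine Finset.sum_le_sum_of_subset_of_nonneg ?_ fun q _ _ => hW _ _
      rintro ⟨a, b⟩ hab
      rw [IN5.mem_AdP] at hab ⊢
      refine ⟨hab.1, hab.2.1, ?_⟩
      intro p hpp hpd
      have h1 := hab.2.2 p hpp hpd
      have h2 : p ≠ Z + 1 := by
        rintro rfl
        exact hp hpp
      exact ⟨by omega, h1.2⟩

end Pool.Agent.Work.MP_122e00_nt.TS
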