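import Mathlib
import Pool.Agent.Work.MP_122e00_nt.TS.Stmts8

/-!
# MP_122e00_nt, block TS, item N6: the local sums
-/

set_option autoImplicit false

namespace Pool.Agent.Work.MP_122e00_nt.TS

open Finset ArithmeticFunction
open scoped ArithmeticFunction.zeta

namespace IN6

/-- the base of the geometric series -/
noncomputable def rh : ℝ := (2 : ℝ) ^ (-(1 / 4) : ℝ)

lemma rh_pos : 0 < rh := Real.rpow_pos_of_pos (by norm_num) _

lemma rh_lt : rh < 1 := Real.rpow_lt_one_of_one_lt_of_neg (by norm_num) (by norm_num)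

/-- the summands -/
noncomputable def g (r i : ℕ) : ℝ := ((i : ℝ) + 1) ^ r * rh ^ i

lemma g_nonneg (r i : ℕ) : 0 ≤ g r i := by
  unfold g
  have := rh_pos
  positivity

lemma g_summable (r : ℕ) : Summable (g r) := by
  have h1 : Summable fun n : ℕ => (n : ℝ) ^ r * rh ^ n :=
    summable_pow_mul_geometric_of_norm_lt_one r (by
      rw [Real.norm_eq_abs, abs_of_pos rh_pos]
      exact rh_lt)
  have h2 := (summable_nat_add_iff 1).2 h1
  have h3 := h2.mul_left rh⁻¹
  refine h3.congr fun i => ?_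
  unfold g
  have := rh_pos.ne'
  rw [pow_succ]
  push_cast
  field_simp

lemma g_sum (r : ℕ) (s : Finset ℕ) : ∑ i ∈ s, g r i ≤ ∑' i, g r i :=
  (g_summable r).sum_le_tsum s fun i _ => g_nonneg r i

lemma zn_one (r : ℕ) : ((ζ : ArithmeticFunction ℕ) ^ r) 1 = 1 := by
  induction r with
  | zero => simp
  | succ r ih =>
    rw [pow_succ, mul_zeta_apply, Nat.divisors_one, Finset.sum_singleton, ih]

lemma zn_prime (r p : ℕ) (hp : p.Prime) : ((ζ : ArithmeticFunction ℕ) ^ r) p = r := by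
  induction r with
  | zero =>
    rw [pow_zero, one_apply, if_neg hp.one_lt.ne']
  | succ r ih =>
    rw [pow_succ, mul_zeta_apply, hp.sum_divisors, ih, zn_one]

lemma zn_pow (r p i : ℕ) (hp : p.Prime) : ((ζ : ArithmeticFunction ℕ) ^ r) (p ^ i) ≤ (i + 1) ^ r := by
  induction r generalizing i with
  | zero =>
    rw [pow_zero, pow_zero, one_apply]
    split_ifs <;> omega
  | succ r ih =>
    rw [pow_succ, mul_zeta_apply, Nat.sum_divisors_prime_pow hp]
    have h1 : ∀ x ∈ Finset.range (i + 1), ((ζ : ArithmeticFunction ℕ) ^ r) (p ^ x) ≤ (i + 1) ^ r := by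
      intro x hx
      refine (ih x).trans (Nat.pow_le_pow_left ?_ r)
      have := Finset.mem_range.1 hx
      omega
    refine (Finset.sum_le_card_nsmul _ _ _ h1).trans ?_
    rw [Finset.card_range, smul_eq_mul, pow_succ, mul_comm]

lemma dr_nonneg (r n : ℕ) : 0 ≤ dr r n := Nat.cast_nonneg _

lemma dr_one (r : ℕ) : dr r 1 = 1 := by
  unfold dr
  rw [zn_one]
  simp

lemma dr_prime (r p : ℕ) (hp : p.Prime) : dr r p = r := by
  unfold dr
  rw [zn_prime r p hp]

lemma dr_pow (r p i : ℕ) (hp : p.Prime) : dr r (p ^ i) ≤ ((i : ℝ) + 1) ^ r := by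
  unfold dr
  have := zn_pow r p i hp
  exact_mod_cast this

/-- the factor of the window -/
lemma y_ow (z w y : ℝ) (p i : ℕ) (hp : p.Prime) (hi : 1 ≤ i) :
    y ^ ow z w (p ^ i) = if p ∈ PW z w then y else 1 := by
  have h1 : (PW z w).filter (· ∣ p ^ i) = if p ∈ PW z w then {p} else ∅ := by
    ext q
    simp only [Finset.mem_filter]
    constructor
    · rintro ⟨hq, hd⟩
      have hqp : q.Prime := by
        unfold PW at hq
        exact (Finset.mem_filter.1 hq).2.1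
      have hqe : q = p := (Nat.prime_dvd_prime_iff_eq hqp hp).1 (hqp.dvd_of_dvd_pow hd)
      subst hqe
      rw [if_pos hq]
      exact Finset.mem_singleton_self _
    · intro h
      split_ifs at h with hP
      · rw [Finset.mem_singleton] at h
        subst h
        exact ⟨hP, dvd_pow_self _ (by omega)⟩
      · exact absurd h (Finset.notMem_empty _)
  unfold ow
  rw [h1]
  split_ifs
  · rw [Finset.card_singleton, pow_one]
  · rw [Finset.card_empty, pow_zero]

lemma y_ow_one (z w y : ℝ) : y ^ ow z w 1 = 1 := by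
  have h1 : (PW z w).filter (· ∣ 1) = ∅ := by
    rw [Finset.filter_eq_empty_iff]
    intro q hq hd
    have hqp : q.Prime := by
      unfold PW at hq
      exact (Finset.mem_filter.1 hq).2.1
    exact hqp.one_lt.ne' (Nat.dvd_one.1 hd)
  unfold ow
  rw [h1, Finset.card_empty, pow_zero]

/-- `n / φ(n)` for prime powers -/
lemma ntot (p k : ℕ) (hp : p.Prime) (hk : 1 ≤ k) :
    ((p ^ k : ℕ) : ℝ) / (Nat.totient (p ^ k) : ℝ) = (p : ℝ) / ((p : ℝ) - 1) := by
  obtain ⟨m, rfl⟩ : ∃ m, k = m + 1 := ⟨k - 1, by omega⟩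
  rw [Nat.totient_prime_pow_succ hp]
  have hp1 : (1 : ℝ) < p := by exact_mod_cast hp.one_lt
  have h0 : (p : ℝ) ^ m ≠ 0 := by positivity
  have h1 : (p : ℝ) - 1 ≠ 0 := by linarith
  rw [Nat.cast_mul, Nat.cast_pow, Nat.cast_pow, Nat.cast_sub hp.one_lt.le, Nat.cast_one, pow_succ]
  field_simp

/-- the constant `(p/(p-1))²` -/
noncomputable def ka (p : ℕ) : ℝ := ((p : ℝ) / ((p : ℝ) - 1)) ^ 2

lemma ka_nonneg (p : ℕ) : 0 ≤ ka p := sq_nonneg _

lemma ka_le (p : ℕ) (hp : 2 ≤ p) : ka p ≤ 1 + 6 / p := by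
  have hp2 : (2 : ℝ) ≤ p := by exact_mod_cast hp
  unfold ka
  have h1 : (0 : ℝ) < (p : ℝ) - 1 := by linarith
  have h0 : (0 : ℝ) < p := by linarith
  have e : (1 : ℝ) + 6 / p = (p + 6) / p := by field_simp
  rw [e, div_pow, div_le_div_iff₀ (by positivity) h0]
  nlinarith [mul_nonneg (by linarith : (0 : ℝ) ≤ (p : ℝ) - 2) (by linarith : (0 : ℝ) ≤ 4 * (p : ℝ) - 3)]

lemma ka_le4 (p : ℕ) (hp : 2 ≤ p) : ka p ≤ 4 := by
  have hp2 : (2 : ℝ) ≤ p := by exact_mod_cast hp
  refine (ka_le p hp).trans ?_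
  have : (6 : ℝ) / p ≤ 3 := by
    rw [div_le_iff₀ (by linarith)]
    linarith
  linarith

lemma lcm_pow (p i j : ℕ) : Nat.lcm (p ^ i) (p ^ j) = p ^ (max i j) := by
  rcases le_total i j with h | h
  · rw [max_eq_right h]
    exact Nat.lcm_eq_right (pow_dvd_pow p h)
  · rw [max_eq_left h]
    exact Nat.lcm_eq_left (pow_dvd_pow p h)

lemma Wpow (r : ℕ) (z w y σ : ℝ) (p i j : ℕ) (hp : p.Prime) (hi : 1 ≤ i) (hj : 1 ≤ j) :
    Wp r z w y σ (p ^ i) (p ^ j) = dr r (p ^ i) * (if p ∈ PW z w then y else 1) * dr r (p ^ j) *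
      ka p * (p : ℝ) ^ (((i : ℝ) + j) * σ - ((max i j : ℕ) : ℝ)) := by
  have hp0 : (0 : ℝ) < p := by exact_mod_cast hp.pos
  unfold Wp
  rw [y_ow z w y p i hp hi, lcm_pow, ← pow_add, ntot p (i + j) hp (by omega)]
  have e1 : (((p ^ i : ℕ) : ℝ) * ((p ^ j : ℕ) : ℝ)) ^ σ = (p : ℝ) ^ (((i : ℝ) + j) * σ) := by
    rw [Nat.cast_pow, Nat.cast_pow, ← pow_add, ← Real.rpow_natCast, ← Real.rpow_mul hp0.le]
    push_cast
    rfl
  have e2 : ((p ^ (max i j) : ℕ) : ℝ) = (p : ℝ) ^ (((max i j : ℕ) : ℝ)) := by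
    rw [Nat.cast_pow, Real.rpow_natCast]
  rw [e1, e2, Real.rpow_sub hp0]
  unfold ka
  ring

lemma Wl (r : ℕ) (z w y σ : ℝ) (p i : ℕ) (hp : p.Prime) (hi : 1 ≤ i) :
    Wp r z w y σ (p ^ i) 1 = dr r (p ^ i) * (if p ∈ PW z w then y else 1) *
      ka p * (p : ℝ) ^ ((i : ℝ) * σ - (i : ℝ)) := by
  have hp0 : (0 : ℝ) < p := by exact_mod_cast hp.pos
  unfold Wp
  rw [y_ow z w y p i hp hi, Nat.lcm_one_right, mul_one (p ^ i), ntot p i hp hi, dr_one]
  have e1 : (((p ^ i : ℕ) : ℝ) * ((1 : ℕ) : ℝ)) ^ σ = (p : ℝ) ^ ((i : ℝ) * σ) := by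
    rw [Nat.cast_one, mul_one, Nat.cast_pow, ← Real.rpow_natCast, ← Real.rpow_mul hp0.le]
  have e2 : ((p ^ i : ℕ) : ℝ) = (p : ℝ) ^ (i : ℝ) := by
    rw [Nat.cast_pow, Real.rpow_natCast]
  rw [e1, e2, Real.rpow_sub hp0]
  unfold ka
  ring

lemma Wr (r : ℕ) (z w y σ : ℝ) (p i : ℕ) (hp : p.Prime) (hi : 1 ≤ i) :
    Wp r z w y σ 1 (p ^ i) = dr r (p ^ i) * ka p * (p : ℝ) ^ ((i : ℝ) * σ - (i : ℝ)) := by
  have hp0 : (0 : ℝ) < p := by exact_mod_cast hp.pos
  unfold Wp
  rw [y_ow_one, Nat.lcm_one_left, one_mul (p ^ i), ntot p i hp hi, dr_one]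
  have e1 : (((1 : ℕ) : ℝ) * ((p ^ i : ℕ) : ℝ)) ^ σ = (p : ℝ) ^ ((i : ℝ) * σ) := by
    rw [Nat.cast_one, one_mul, Nat.cast_pow, ← Real.rpow_natCast, ← Real.rpow_mul hp0.le]
  have e2 : ((p ^ i : ℕ) : ℝ) = (p : ℝ) ^ (i : ℝ) := by
    rw [Nat.cast_pow, Real.rpow_natCast]
  rw [e1, e2, Real.rpow_sub hp0]
  unfold ka
  ring

/-- small powers of `p` -/
lemma small (p : ℝ) (hp : 2 ≤ p) (e : ℝ) (n : ℕ) (h1 : e ≤ -(3 / 2))
    (h2 : e ≤ -(3 / 2) + (1 - (n : ℝ) / 4)) :
    p ^ e ≤ 2 * rh ^ n * p ^ (-(3 / 2) : ℝ) := by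
  have hp0 : 0 < p := by linarith
  have e1 : p ^ e = p ^ (e + 3 / 2) * p ^ (-(3 / 2) : ℝ) := by
    rw [← Real.rpow_add hp0]
    congr 1
    ring
  rw [e1]
  refine mul_le_mul_of_nonneg_right ?_ (Real.rpow_nonneg hp0.le _)
  calc p ^ (e + 3 / 2) ≤ (2 : ℝ) ^ (e + 3 / 2) :=
        Real.rpow_le_rpow_of_nonpos (by norm_num) hp (by linarith)
    _ ≤ (2 : ℝ) ^ (1 + (-(1 / 4) : ℝ) * n) :=
        Real.rpow_le_rpow_of_exponent_le (by norm_num) (by linarith)
    _ = 2 * rh ^ n := by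
        rw [Real.rpow_add (by norm_num), Real.rpow_one, Real.rpow_mul (by norm_num),
          Real.rpow_natCast]
        rfl

lemma sum_delta (M : ℕ) : ∑ i ∈ Finset.Icc 1 M, (if i = 1 then (1 : ℝ) else 0) ≤ 1 := by
  rw [Finset.sum_ite_eq']
  split_ifs <;> norm_num

end IN6

open IN6 in
theorem prN6 : tsN6 := by
  intro r hr
  set S : ℝ := ∑' i, g r i with hS
  have hS0 : 0 ≤ S := tsum_nonneg (g_nonneg r)
  have hr0 : (0 : ℝ) ≤ r := Nat.cast_nonneg r
  refine ⟨18 * r + 24 * S + 12 * (r : ℝ) ^ 2 + 16 * S ^ 2 + 1, by positivity,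
    fun z w y σ h M p hp hy1 hy2 hσ0 hσ1 => ?_⟩
  have hp2 : 2 ≤ p := hp.two_le
  have hpr : (2 : ℝ) ≤ p := by exact_mod_cast hp2
  have hp0 : (0 : ℝ) < p := by linarith
  set Y : ℝ := if p ∈ PW z w then y else 1 with hY
  have hY1 : 0 ≤ Y := by rw [hY]; split_ifs <;> linarith
  have hY2 : Y ≤ 2 := by rw [hY]; split_ifs <;> linarith
  set P : ℝ := (p : ℝ) ^ (-(3 / 2) : ℝ) with hP
  have hP0 : 0 < P := Real.rpow_pos_of_pos hp0 _
  have hk0 := ka_nonneg p
  have hk4 := ka_le4 p hp2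
  have hk6 := ka_le p hp2
  have hmono : ∀ e : ℝ, e ≤ -(3 / 2) → (p : ℝ) ^ e ≤ P := fun e he =>
    Real.rpow_le_rpow_of_exponent_le (by linarith) he
  have hpe : ∀ e : ℝ, 6 / (p : ℝ) * (p : ℝ) ^ e = 6 * (p : ℝ) ^ (e - 1) := by
    intro e
    rw [Real.rpow_sub_one hp0.ne']
    field_simp
  unfold LF
  split_ifs with hph
  · -- `p` divides `h`
    set Mn : ℝ := (r : ℝ) ^ 2 * Y * (p : ℝ) ^ (2 * σ - 1) with hMn
    have hMn0 : 0 ≤ Mn := by positivity
    have hterm : ∀ i ∈ Finset.Icc 1 M, ∀ j ∈ Finset.Icc 1 M, Wp r z w y σ (p ^ i) (p ^ j) ≤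
        (if i = 1 then (1 : ℝ) else 0) * (if j = 1 then (1 : ℝ) else 0) *
          (Mn + 12 * (r : ℝ) ^ 2 * P) + 16 * P * (g r i * g r j) := by
      intro i hi j hj
      have hi1 := (Finset.mem_Icc.1 hi).1
      have hj1 := (Finset.mem_Icc.1 hj).1
      have hgi := g_nonneg r i
      have hgj := g_nonneg r j
      rw [Wpow r z w y σ p i j hp hi1 hj1, ← hY]
      by_cases hij : i = 1 ∧ j = 1
      · obtain ⟨rfl, rfl⟩ := hij
        simp only [if_true, one_mul, pow_one, max_self, Nat.cast_one]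
        rw [dr_prime r p hp]
        have e1 : ((1 : ℝ) + 1) * σ - 1 = 2 * σ - 1 := by ring
        rw [e1]
        have hx0 : 0 ≤ (p : ℝ) ^ (2 * σ - 1) := by positivity
        have h1 : (r : ℝ) * Y * r * ka p * (p : ℝ) ^ (2 * σ - 1) ≤
            (r : ℝ) * Y * r * (1 + 6 / p) * (p : ℝ) ^ (2 * σ - 1) := by
          refine mul_le_mul_of_nonneg_right (mul_le_mul_of_nonneg_left hk6 (by positivity)) hx0
        have h2 : (r : ℝ) * Y * r * (1 + 6 / p) * (p : ℝ) ^ (2 * σ - 1) =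
            Mn + (r : ℝ) ^ 2 * Y * (6 * (p : ℝ) ^ (2 * σ - 1 - 1)) := by
          rw [← hpe, hMn]
          ring
        have h3 : (p : ℝ) ^ (2 * σ - 1 - 1) ≤ P := hmono _ (by linarith)
        have h4 : (r : ℝ) ^ 2 * Y * (6 * (p : ℝ) ^ (2 * σ - 1 - 1)) ≤ (r : ℝ) ^ 2 * 2 * (6 * P) :=
          mul_le_mul (mul_le_mul_of_nonneg_left hY2 (by positivity))
            (mul_le_mul_of_nonneg_left h3 (by norm_num)) (by positivity) (by positivity)
        have h5 : 0 ≤ 16 * P * (g r 1 * g r 1) := by positivity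
        linarith
      · have hd : (if i = 1 then (1 : ℝ) else 0) * (if j = 1 then (1 : ℝ) else 0) = 0 := by
          by_cases h1 : i = 1
          · have h2 : ¬ j = 1 := fun h2 => hij ⟨h1, h2⟩
            rw [if_neg h2, mul_zero]
          · rw [if_neg h1, zero_mul]
        rw [hd, zero_mul, zero_add]
        set m : ℕ := max i j with hm
        have hm2 : 2 ≤ m := by omega
        have him : i ≤ m := le_max_left _ _
        have hjm : j ≤ m := le_max_right _ _
        have hm2' : (2 : ℝ) ≤ m := by exact_mod_cast hm2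
        have him' : (i : ℝ) ≤ m := by exact_mod_cast him
        have hjm' : (j : ℝ) ≤ m := by exact_mod_cast hjm
        have hi0' : (0 : ℝ) ≤ i := Nat.cast_nonneg _
        have hj0' : (0 : ℝ) ≤ j := Nat.cast_nonneg _
        have hs1 : ((i : ℝ) + j) * σ ≤ (m : ℝ) / 8 := by
          have : ((i : ℝ) + j) * σ ≤ (2 * m) * (1 / 16) :=
            mul_le_mul (by linarith) hσ1 hσ0 (by linarith)
          linarith
        have hsm := small p hpr (((i : ℝ) + j) * σ - (m : ℝ)) (i + j) (by linarith)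
          (by push_cast; linarith)
        have hdi := dr_pow r p i hp
        have hdj := dr_pow r p j hp
        have hdi0 := dr_nonneg r (p ^ i)
        have hdj0 := dr_nonneg r (p ^ j)
        have hrh := rh_pos
        calc dr r (p ^ i) * Y * dr r (p ^ j) * ka p * (p : ℝ) ^ (((i : ℝ) + j) * σ - (m : ℝ))
            ≤ ((i : ℝ) + 1) ^ r * 2 * ((j : ℝ) + 1) ^ r * 4 * (2 * rh ^ (i + j) * P) := by
              refine mul_le_mul (mul_le_mul (mul_le_mul (mul_le_mul hdi hY2 hY1 (by positivity))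
                hdj hdj0 (by positivity)) hk4 hk0 (by positivity)) hsm (by positivity)
                (by positivity)
          _ = 16 * P * (g r i * g r j) := by
              unfold g
              rw [pow_add]
              ring
    refine (Finset.sum_le_sum fun i hi => Finset.sum_le_sum fun j hj => hterm i hi j hj).trans ?_
    have hsplit : ∑ i ∈ Finset.Icc 1 M, ∑ j ∈ Finset.Icc 1 M,
        ((if i = 1 then (1 : ℝ) else 0) * (if j = 1 then (1 : ℝ) else 0) *
          (Mn + 12 * (r : ℝ) ^ 2 * P) + 16 * P * (g r i * g r j)) =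
        (∑ i ∈ Finset.Icc 1 M, (if i = 1 then (1 : ℝ) else 0)) *
          (∑ j ∈ Finset.Icc 1 M, (if j = 1 then (1 : ℝ) else 0)) * (Mn + 12 * (r : ℝ) ^ 2 * P) +
        16 * P * ((∑ i ∈ Finset.Icc 1 M, g r i) * ∑ j ∈ Finset.Icc 1 M, g r j) := by
      rw [Finset.sum_mul_sum, Finset.sum_mul_sum, Finset.sum_mul, Finset.mul_sum,
        ← Finset.sum_add_distrib]
      refine Finset.sum_congr rfl fun i _ => ?_
      rw [Finset.sum_mul, Finset.mul_sum, ← Finset.sum_add_distrib]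
    rw [hsplit]
    have hδ := sum_delta M
    have hδ0 : 0 ≤ ∑ i ∈ Finset.Icc 1 M, (if i = 1 then (1 : ℝ) else 0) :=
      Finset.sum_nonneg fun i _ => by split_ifs <;> norm_num
    have hg := g_sum r (Finset.Icc 1 M)
    have hg0 : 0 ≤ ∑ i ∈ Finset.Icc 1 M, g r i := Finset.sum_nonneg fun i _ => g_nonneg r i
    have h1 : (∑ i ∈ Finset.Icc 1 M, (if i = 1 then (1 : ℝ) else 0)) *
        (∑ j ∈ Finset.Icc 1 M, (if j = 1 then (1 : ℝ) else 0)) * (Mn + 12 * (r : ℝ) ^ 2 * P) ≤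
        1 * (Mn + 12 * (r : ℝ) ^ 2 * P) := by
      refine mul_le_mul_of_nonneg_right ?_ (by positivity)
      exact mul_le_one₀ hδ hδ0 hδ
    have h2 : 16 * P * ((∑ i ∈ Finset.Icc 1 M, g r i) * ∑ j ∈ Finset.Icc 1 M, g r j) ≤
        16 * P * (S * S) :=
      mul_le_mul_of_nonneg_left (mul_le_mul hg hg hg0 hS0) (by positivity)
    have h3 : 0 ≤ (18 * r + 24 * S + 1) * P := by positivity
    nlinarith
  · -- `p` does not divide `h`
    set Mn : ℝ := (r : ℝ) * (1 + Y) * (p : ℝ) ^ (σ - 1) with hMn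
    have hMn0 : 0 ≤ Mn := by positivity
    have hterm : ∀ i ∈ Finset.Icc 1 M, Wp r z w y σ (p ^ i) 1 + Wp r z w y σ 1 (p ^ i) ≤
        (if i = 1 then (1 : ℝ) else 0) * (Mn + 18 * (r : ℝ) * P) + 24 * P * g r i := by
      intro i hi
      have hi1 := (Finset.mem_Icc.1 hi).1
      have hgi := g_nonneg r i
      rw [Wl r z w y σ p i hp hi1, Wr r z w y σ p i hp hi1, ← hY]
      by_cases hi' : i = 1
      · subst hi'
        simp only [if_true, one_mul, pow_one, Nat.cast_one]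
        rw [dr_prime r p hp]
        have hx0 : 0 ≤ (p : ℝ) ^ (σ - 1) := by positivity
        have h1 : (r : ℝ) * Y * ka p * (p : ℝ) ^ (σ - 1) + (r : ℝ) * ka p * (p : ℝ) ^ (σ - 1) ≤
            (r : ℝ) * (1 + Y) * (1 + 6 / p) * (p : ℝ) ^ (σ - 1) := by
          have h0 : (r : ℝ) * (1 + Y) * ka p * (p : ℝ) ^ (σ - 1) ≤
              (r : ℝ) * (1 + Y) * (1 + 6 / p) * (p : ℝ) ^ (σ - 1) :=
            mul_le_mul_of_nonneg_right (mul_le_mul_of_nonneg_left hk6 (by positivity)) hx0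
          refine le_trans (le_of_eq ?_) h0
          ring
        have h2 : (r : ℝ) * (1 + Y) * (1 + 6 / p) * (p : ℝ) ^ (σ - 1) =
            Mn + (r : ℝ) * (1 + Y) * (6 * (p : ℝ) ^ (σ - 1 - 1)) := by
          rw [← hpe, hMn]
          ring
        have h3 : (p : ℝ) ^ (σ - 1 - 1) ≤ P := hmono _ (by linarith)
        have h4 : (r : ℝ) * (1 + Y) * (6 * (p : ℝ) ^ (σ - 1 - 1)) ≤ (r : ℝ) * 3 * (6 * P) :=
          mul_le_mul (mul_le_mul_of_nonneg_left (by linarith) hr0)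
            (mul_le_mul_of_nonneg_left h3 (by norm_num)) (by positivity) (by positivity)
        have h5 : 0 ≤ 24 * P * g r 1 := by positivity
        linarith
      · rw [if_neg hi', zero_mul, zero_add]
        have hi2 : (2 : ℝ) ≤ i := by exact_mod_cast (by omega : 2 ≤ i)
        have hs1 : (i : ℝ) * σ ≤ (i : ℝ) / 16 := by
          have : (i : ℝ) * σ ≤ i * (1 / 16) := mul_le_mul_of_nonneg_left hσ1 (by linarith)
          linarith
        have hsm := small p hpr ((i : ℝ) * σ - (i : ℝ)) i (by linarith) (by linarith)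
        have hdi := dr_pow r p i hp
        have hdi0 := dr_nonneg r (p ^ i)
        have hrh := rh_pos
        calc dr r (p ^ i) * Y * ka p * (p : ℝ) ^ ((i : ℝ) * σ - (i : ℝ)) +
              dr r (p ^ i) * ka p * (p : ℝ) ^ ((i : ℝ) * σ - (i : ℝ))
            = dr r (p ^ i) * (1 + Y) * ka p * (p : ℝ) ^ ((i : ℝ) * σ - (i : ℝ)) := by ring
          _ ≤ ((i : ℝ) + 1) ^ r * 3 * 4 * (2 * rh ^ i * P) := by
              refine mul_le_mul (mul_le_mul (mul_le_mul hdi (by linarith) (by linarith)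
                (by positivity)) hk4 hk0 (by positivity)) hsm (by positivity) (by positivity)
          _ = 24 * P * g r i := by
              unfold g
              ring
    refine (Finset.sum_le_sum hterm).trans ?_
    rw [Finset.sum_add_distrib, ← Finset.sum_mul, ← Finset.mul_sum]
    have hδ := sum_delta M
    have hg := g_sum r (Finset.Icc 1 M)
    have h1 : (∑ i ∈ Finset.Icc 1 M, (if i = 1 then (1 : ℝ) else 0)) *
        (Mn + 18 * (r : ℝ) * P) ≤ 1 * (Mn + 18 * (r : ℝ) * P) :=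
      mul_le_mul_of_nonneg_right hδ (by positivity)
    have h2 : 24 * P * ∑ i ∈ Finset.Icc 1 M, g r i ≤ 24 * P * S :=
      mul_le_mul_of_nonneg_left hg (by positivity)
    have h3 : 0 ≤ (12 * (r : ℝ) ^ 2 + 16 * S ^ 2 + 1) * P := by positivity
    nlinarith

end Pool.Agent.Work.MP_122e00_nt.TS
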