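import Pool.Agent.Work.MP_122e00_nt.TS.Stmts8

/-!
# All powers, item N8: smooth parts
-/

namespace Pool.Agent.Work.MP_122e00_nt.TS

open Finset ArithmeticFunction
open scoped ArithmeticFunction.zeta

namespace IN8

theorem sm_fac (Z n : ℕ) : (sm Z n).factorization = n.factorization.filter (fun p => p ≤ Z) := by
  have h : sm Z n = (n.factorization.filter (fun p => p ≤ Z)).prod (· ^ ·) := by
    rw [Finsupp.prod_filter_index]
    rfl
  rw [h]
  refine Nat.prod_pow_factorization_eq_self fun p hp => ?_
  rw [Finsupp.support_filter, Finset.mem_filter, Nat.support_factorization] at hp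
  exact Nat.prime_of_mem_primeFactors hp.1

theorem sm_pos (Z n : ℕ) : 0 < sm Z n := by
  unfold sm
  refine Finset.prod_pos fun p hp => ?_
  exact pow_pos (Nat.prime_of_mem_primeFactors (Finset.mem_filter.mp hp).1).pos _

theorem sm_primes (Z n : ℕ) : (sm Z n).primeFactors = n.primeFactors.filter (fun p => p ≤ Z) := by
  rw [← Nat.support_factorization, sm_fac, Finsupp.support_filter, Nat.support_factorization]

theorem sm_dvd_iff (Z n p : ℕ) (hn : 1 ≤ n) (hp : p.Prime) : p ∣ sm Z n ↔ p ∣ n ∧ p ≤ Z := by
  have h := congrArg (fun s : Finset ℕ => p ∈ s) (sm_primes Z n)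
  have h0 : sm Z n ≠ 0 := (sm_pos Z n).ne'
  simp only [Nat.mem_primeFactors, Finset.mem_filter, eq_iff_iff] at h
  constructor
  · intro hd
    have := h.mp ⟨hp, hd, h0⟩
    exact ⟨this.1.2.1, this.2⟩
  · rintro ⟨h1, h2⟩
    exact (h.mpr ⟨⟨hp, h1, by omega⟩, h2⟩).2.1

theorem split (Z n : ℕ) (hn : 1 ≤ n) :
    sm Z n * ∏ p ∈ n.primeFactors.filter (fun p => ¬ p ≤ Z), p ^ n.factorization p = n := by
  unfold sm
  rw [Finset.prod_filter_mul_prod_filter_not]
  exact Nat.prod_factorization_pow_eq_self (by omega)

theorem zp (r p j : ℕ) (hp : p.Prime) (hr : 1 ≤ r) : ((ζ : ArithmeticFunction ℕ) ^ r) (p ^ j) ≤ r ^ j := by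
  induction r, hr using Nat.le_induction generalizing j with
  | base =>
    rw [pow_one, one_pow, zeta_apply, if_neg (pow_ne_zero _ hp.ne_zero)]
  | succ r hr ih =>
    rw [pow_succ, mul_zeta_apply, Nat.sum_divisors_prime_pow hp]
    refine (Finset.sum_le_sum fun i _ => ih i).trans ?_
    rw [add_pow]
    refine Finset.sum_le_sum fun i hi => ?_
    rw [one_pow, mul_one]
    have : 0 < j.choose i := Nat.choose_pos (by
      rw [Finset.mem_range] at hi
      omega)
    exact Nat.le_mul_of_pos_right _ this

theorem dr_nonneg (r n : ℕ) : 0 ≤ dr r n := by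
  unfold dr
  positivity

theorem dr_prod (r n : ℕ) (hn : n ≠ 0) :
    dr r n = ∏ p ∈ n.primeFactors, dr r (p ^ n.factorization p) := by
  unfold dr
  have hm : ((ζ : ArithmeticFunction ℕ) ^ r).IsMultiplicative := isMultiplicative_zeta.pow
  rw [hm.multiplicative_factorization _ hn]
  rw [Finsupp.prod, Nat.support_factorization]
  push_cast
  rfl

theorem dr_pp (r p j : ℕ) (hp : p.Prime) (hr : 1 ≤ r) : dr r (p ^ j) ≤ (r : ℝ) ^ j := by
  unfold dr
  exact_mod_cast zp r p j hp hr

end IN8

open IN8

theorem prN8 : tsN8 := by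
  refine ⟨?_, ?_, ?_, ?_, ?_⟩
  · intro Z n hn
    refine ⟨⟨_, (split Z n hn).symm⟩, sm_pos Z n, fun p hp => sm_dvd_iff Z n p hn hp⟩
  · intro Z Z' n hZ
    unfold sm
    refine Finset.prod_le_prod_of_subset_of_one_le' ?_ ?_
    · intro p hp
      rw [Finset.mem_filter] at hp ⊢
      exact ⟨hp.1, hp.2.trans hZ⟩
    · intro p hp _
      exact Nat.one_le_iff_ne_zero.mpr (pow_ne_zero _
        (Nat.prime_of_mem_primeFactors (Finset.mem_filter.mp hp).1).ne_zero)
  · intro Z n hn
    unfold sm
    by_cases hpr : (Z + 1).Prime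
    · rw [if_pos hpr]
      by_cases hd : (Z + 1) ∣ n
      · have hmem : Z + 1 ∈ n.primeFactors := Nat.mem_primeFactors.mpr ⟨hpr, hd, by omega⟩
        have e : n.primeFactors.filter (fun p => p ≤ Z + 1) =
            insert (Z + 1) (n.primeFactors.filter (fun p => p ≤ Z)) := by
          ext p
          simp only [Finset.mem_filter, Finset.mem_insert]
          constructor
          · rintro ⟨h1, h2⟩
            rcases Nat.lt_or_ge p (Z + 1) with h | h
            · exact Or.inr ⟨h1, by omega⟩
            · exact Or.inl (by omega)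
          · rintro (h | ⟨h1, h2⟩)
            · rw [h]
              exact ⟨hmem, le_rfl⟩
            · exact ⟨h1, by omega⟩
        rw [e, Finset.prod_insert (by simp), mul_comm]
      · have hz : n.factorization (Z + 1) = 0 := Nat.factorization_eq_zero_of_not_dvd hd
        rw [hz, pow_zero, mul_one]
        refine Finset.prod_congr ?_ fun _ _ => rfl
        ext p
        simp only [Finset.mem_filter]
        constructor
        · rintro ⟨h1, h2⟩
          refine ⟨h1, ?_⟩
          rcases Nat.lt_or_ge p (Z + 1) with h | h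
          · omega
          · exact absurd (Nat.dvd_of_mem_primeFactors (by
              have : p = Z + 1 := by omega
              rw [← this]
              exact h1)) hd
        · rintro ⟨h1, h2⟩
          exact ⟨h1, by omega⟩
    · rw [if_neg hpr, mul_one]
      refine Finset.prod_congr ?_ fun _ _ => rfl
      ext p
      simp only [Finset.mem_filter]
      constructor
      · rintro ⟨h1, h2⟩
        refine ⟨h1, ?_⟩
        rcases Nat.lt_or_ge p (Z + 1) with h | h
        · omega
        · exact absurd (by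
            have : p = Z + 1 := by omega
            rw [← this]
            exact Nat.prime_of_mem_primeFactors h1) hpr
      · rintro ⟨h1, h2⟩
        exact ⟨h1, by omega⟩
  · intro n hn
    unfold sm
    rw [Finset.prod_eq_one]
    intro p hp
    rw [Finset.mem_filter] at hp
    exact absurd hp.2 (by
      have := (Nat.prime_of_mem_primeFactors hp.1).pos
      omega)
  · intro r Z n k z w y hr hn hy1 hy2 hnk
    obtain ⟨Q, hQ⟩ : ∃ Q, Q = n.primeFactors.filter (fun p => ¬ p ≤ Z) := ⟨_, rfl⟩
    obtain ⟨W, hW⟩ : ∃ W, W = ∑ p ∈ Q, n.factorization p := ⟨_, rfl⟩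
    have hQp : ∀ p ∈ Q, p.Prime ∧ p ∣ n ∧ Z + 1 ≤ p := by
      intro p hp
      rw [hQ, Finset.mem_filter] at hp
      exact ⟨Nat.prime_of_mem_primeFactors hp.1, Nat.dvd_of_mem_primeFactors hp.1, by omega⟩
    -- the number of large prime factors
    have hWk : W ≤ k := by
      by_contra hcon
      push Not at hcon
      have h1 : (Z + 1) ^ W ≤ ∏ p ∈ Q, p ^ n.factorization p := by
        rw [hW, ← Finset.prod_pow_eq_pow_sum]
        exact Finset.prod_le_prod' fun p hp => Nat.pow_le_pow_left (hQp p hp).2.2 _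
      have h2 : ∏ p ∈ Q, p ^ n.factorization p ≤ n := by
        have := split Z n hn
        rw [← hQ] at this
        exact Nat.le_of_dvd (by omega) ⟨_, by rw [mul_comm]; exact this.symm⟩
      have h3 : (Z + 1) ^ (k + 1) ≤ (Z + 1) ^ W := Nat.pow_le_pow_right (by omega) hcon
      have h4 : Z ^ (k + 1) < (Z + 1) ^ (k + 1) := Nat.pow_lt_pow_left (by omega) (by omega)
      omega
    -- `dr`
    have hdr : dr r n ≤ dr r (sm Z n) * (r : ℝ) ^ k := by
      have hn0 : n ≠ 0 := by omega
      have h1 : dr r (sm Z n) = ∏ p ∈ n.primeFactors.filter (fun p => p ≤ Z),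
          dr r (p ^ n.factorization p) := by
        rw [dr_prod r _ (sm_pos Z n).ne', sm_primes]
        refine Finset.prod_congr rfl fun p hp => ?_
        have e : (sm Z n).factorization p = n.factorization p := by
          rw [sm_fac]
          exact Finsupp.filter_apply_pos (fun p => p ≤ Z) _ (Finset.mem_filter.mp hp).2
        rw [e]
      have h2 : dr r n = dr r (sm Z n) * ∏ p ∈ Q, dr r (p ^ n.factorization p) := by
        rw [h1, hQ, Finset.prod_filter_mul_prod_filter_not]
        exact dr_prod r n hn0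
      rw [h2]
      refine mul_le_mul_of_nonneg_left ?_ (dr_nonneg _ _)
      have h3 : ∏ p ∈ Q, dr r (p ^ n.factorization p) ≤ ∏ p ∈ Q, (r : ℝ) ^ n.factorization p :=
        Finset.prod_le_prod (fun p _ => dr_nonneg _ _) fun p hp => dr_pp r p _ (hQp p hp).1 hr
      refine h3.trans ?_
      rw [Finset.prod_pow_eq_pow_sum, ← hW]
      exact pow_le_pow_right₀ (by exact_mod_cast hr) hWk
    -- the window
    have hy0 : 0 ≤ y := by linarith
    have how : y ^ ow z w n ≤ y ^ ow z w (sm Z n) * 2 ^ k := by
      have h1 : ow z w n = ow z w (sm Z n) + ((PW z w).filter (fun p => p ∣ n ∧ ¬ p ≤ Z)).card := by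
        unfold ow
        rw [← Finset.card_union_of_disjoint]
        · congr 1
          ext p
          simp only [Finset.mem_filter, Finset.mem_union]
          constructor
          · rintro ⟨h1, h2⟩
            have hp : p.Prime := (Finset.mem_filter.mp h1).2.1
            by_cases h : p ≤ Z
            · exact Or.inl ⟨h1, (sm_dvd_iff Z n p hn hp).mpr ⟨h2, h⟩⟩
            · exact Or.inr ⟨h1, h2, h⟩
          · rintro (⟨h1, h2⟩ | ⟨h1, h2, _⟩)
            · have hp : p.Prime := (Finset.mem_filter.mp h1).2.1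
              exact ⟨h1, ((sm_dvd_iff Z n p hn hp).mp h2).1⟩
            · exact ⟨h1, h2⟩
        · rw [Finset.disjoint_left]
          intro p h1 h2
          rw [Finset.mem_filter] at h1 h2
          have hp : p.Prime := (Finset.mem_filter.mp h1.1).2.1
          exact h2.2.2 ((sm_dvd_iff Z n p hn hp).mp h1.2).2
      have h2 : ((PW z w).filter (fun p => p ∣ n ∧ ¬ p ≤ Z)).card ≤ k := by
        refine le_trans ?_ hWk
        have h3 : (PW z w).filter (fun p => p ∣ n ∧ ¬ p ≤ Z) ⊆ Q := by
          intro p hp
          rw [Finset.mem_filter] at hp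
          have hpp : p.Prime := (Finset.mem_filter.mp hp.1).2.1
          rw [hQ, Finset.mem_filter]
          exact ⟨Nat.mem_primeFactors.mpr ⟨hpp, hp.2.1, by omega⟩, hp.2.2⟩
        refine (Finset.card_le_card h3).trans ?_
        rw [hW, Finset.card_eq_sum_ones]
        refine Finset.sum_le_sum fun p hp => ?_
        exact (hQp p hp).1.factorization_pos_of_dvd (by omega) (hQp p hp).2.1
      rw [h1, pow_add]
      refine mul_le_mul_of_nonneg_left ?_ (pow_nonneg hy0 _)
      exact (pow_le_pow_left₀ hy0 hy2 _).trans (pow_le_pow_right₀ (by norm_num) h2)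
    calc dr r n * y ^ ow z w n ≤ (dr r (sm Z n) * (r : ℝ) ^ k) * (y ^ ow z w (sm Z n) * 2 ^ k) :=
          mul_le_mul hdr how (pow_nonneg hy0 _) (mul_nonneg (dr_nonneg _ _) (by positivity))
      _ = dr r (sm Z n) * y ^ ow z w (sm Z n) * (2 * r) ^ k := by
          rw [mul_pow]
          ring

end Pool.Agent.Work.MP_122e00_nt.TS
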