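import Pool.Agent.Work.MP_122e00_nt.TS.Stmts11
import Pool.Agent.Work.MP_122e00_nt.TS.I_F6

set_option autoImplicit false

/-!
# Thin shifts, item X10 (model: item K10 of helper70)
-/

namespace Pool.Agent.Work.MP_122e00_nt.TS

open Finset Filter Topology ArithmeticFunction MeasureTheory
open scoped ArithmeticFunction.zeta ArithmeticFunction.Moebius

namespace IX10

theorem ws_fu (r : ℕ) (E : ℕ → Polynomial ℝ) (z w : ℝ) (Q : ℕ) (γ : ℝ) (L x : ℕ) :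
    ws (fu r E z w Q) γ L x = ws (up r z w) γ L x - ws (fs (Eu E z w) Q) γ L x := by
  unfold ws fu
  rw [← Finset.sum_sub_distrib]
  refine Finset.sum_congr rfl fun n _ => ?_
  push_cast
  ring

theorem sq3 (A B C : ℂ) : ‖A - B + C‖ ^ 2 ≤ 3 * (‖A‖ ^ 2 + ‖B‖ ^ 2 + ‖C‖ ^ 2) := by
  have h : ‖A - B + C‖ ≤ ‖A‖ + ‖B‖ + ‖C‖ :=
    (norm_add_le _ _).trans (by linarith [norm_sub_le A B])
  calc ‖A - B + C‖ ^ 2 ≤ (‖A‖ + ‖B‖ + ‖C‖) ^ 2 := pow_le_pow_left₀ (norm_nonneg _) h 2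
    _ ≤ 3 * (‖A‖ ^ 2 + ‖B‖ ^ 2 + ‖C‖ ^ 2) := by
      nlinarith [sq_nonneg (‖A‖ - ‖B‖), sq_nonneg (‖A‖ - ‖C‖), sq_nonneg (‖B‖ - ‖C‖)]

/-- powers of `log X` against powers of `H` -/
theorem logH (r : ℕ) (η A₀ X H : ℝ) (hη : 0 < η) (hA : 4 * (r : ℝ) + 2 ≤ A₀ * η)
    (hl : 3 ≤ Real.log X) (hX : 0 < X) (hH : Real.log X ^ A₀ ≤ H) :
    (1 + Real.log (3 * X)) ^ (2 * r + 1) ≤ H ^ η := by
  have h3 : Real.log 3 ≤ 2 := by
    have := Real.log_le_sub_one_of_pos (show (0 : ℝ) < 3 by norm_num)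
    linarith
  have h30 : 0 ≤ Real.log 3 := Real.log_nonneg (by norm_num)
  have h1 : 1 + Real.log (3 * X) ≤ Real.log X ^ 2 := by
    rw [Real.log_mul (by norm_num) hX.ne']
    nlinarith
  have h0 : 0 ≤ 1 + Real.log (3 * X) := by
    rw [Real.log_mul (by norm_num) hX.ne']
    linarith
  calc (1 + Real.log (3 * X)) ^ (2 * r + 1) ≤ (Real.log X ^ 2) ^ (2 * r + 1) :=
        pow_le_pow_left₀ h0 h1 _
    _ = Real.log X ^ ((4 * r + 2 : ℕ) : ℝ) := by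
        rw [← pow_mul, Real.rpow_natCast]
        congr 1
        ring
    _ ≤ Real.log X ^ (A₀ * η) := by
        refine Real.rpow_le_rpow_of_exponent_le (by linarith) ?_
        push_cast
        linarith
    _ = (Real.log X ^ A₀) ^ η := Real.rpow_mul (by linarith) _ _
    _ ≤ H ^ η := Real.rpow_le_rpow (Real.rpow_nonneg (by linarith) _) hH hη.le

/-- the final numerical inequality -/
theorem fin_num (X H L δ δb η K K1 : ℝ) (hX : 0 ≤ X) (hH : 1 ≤ H) (hδ : 0 < δ) (hδb : δ ≤ δb)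
    (hη : 2 * η ≤ δ / 20 - δ / 60) (hbig : 3 * (1 + K1 ^ 2 + K ^ 2) ≤ H ^ (δ / 60 - δ / 70)) :
    3 * (L ^ 2 * X * H ^ (-δ - δ / 60) + X * H ^ (-δ) * (L * (K1 * (H ^ η * H ^ (-δb)))) ^ 2 +
      X * H ^ (-δ) * (L * (K * (H ^ (-(δ / 40)) * H ^ η))) ^ 2) ≤
    L ^ 2 * X * H ^ (-δ - δ / 70) := by
  have hH0 : 0 < H := by linarith
  have hL2 : 0 ≤ L ^ 2 * X := mul_nonneg (sq_nonneg L) hX
  have e1 : X * H ^ (-δ) * (L * (K1 * (H ^ η * H ^ (-δb)))) ^ 2 ≤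
      K1 ^ 2 * (L ^ 2 * X * H ^ (-δ - δ / 60)) := by
    have h1 : X * H ^ (-δ) * (L * (K1 * (H ^ η * H ^ (-δb)))) ^ 2 =
        K1 ^ 2 * (L ^ 2 * X * H ^ (-δ + (-δb) + (-δb) + η + η)) := by
      rw [Real.rpow_add hH0, Real.rpow_add hH0, Real.rpow_add hH0, Real.rpow_add hH0]
      ring
    rw [h1]
    refine mul_le_mul_of_nonneg_left ?_ (sq_nonneg K1)
    exact mul_le_mul_of_nonneg_left (Real.rpow_le_rpow_of_exponent_le hH (by linarith)) hL2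
  have e2 : X * H ^ (-δ) * (L * (K * (H ^ (-(δ / 40)) * H ^ η))) ^ 2 ≤
      K ^ 2 * (L ^ 2 * X * H ^ (-δ - δ / 60)) := by
    have h1 : X * H ^ (-δ) * (L * (K * (H ^ (-(δ / 40)) * H ^ η))) ^ 2 =
        K ^ 2 * (L ^ 2 * X * H ^ (-δ + (-(δ / 40)) + (-(δ / 40)) + η + η)) := by
      rw [Real.rpow_add hH0, Real.rpow_add hH0, Real.rpow_add hH0, Real.rpow_add hH0]
      ring
    rw [h1]
    refine mul_le_mul_of_nonneg_left ?_ (sq_nonneg K)
    exact mul_le_mul_of_nonneg_left (Real.rpow_le_rpow_of_exponent_le hH (by linarith)) hL2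
  have e3 : H ^ (-δ - δ / 70) = H ^ (-δ - δ / 60) * H ^ (δ / 60 - δ / 70) := by
    rw [← Real.rpow_add hH0]
    congr 1
    ring
  have hP : 0 ≤ L ^ 2 * X * H ^ (-δ - δ / 60) := mul_nonneg hL2 (Real.rpow_nonneg hH0.le _)
  calc 3 * (L ^ 2 * X * H ^ (-δ - δ / 60) + X * H ^ (-δ) * (L * (K1 * (H ^ η * H ^ (-δb)))) ^ 2 +
      X * H ^ (-δ) * (L * (K * (H ^ (-(δ / 40)) * H ^ η))) ^ 2)
      ≤ 3 * (L ^ 2 * X * H ^ (-δ - δ / 60) + K1 ^ 2 * (L ^ 2 * X * H ^ (-δ - δ / 60)) +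
        K ^ 2 * (L ^ 2 * X * H ^ (-δ - δ / 60))) := by linarith
    _ = (L ^ 2 * X * H ^ (-δ - δ / 60)) * (3 * (1 + K1 ^ 2 + K ^ 2)) := by ring
    _ ≤ (L ^ 2 * X * H ^ (-δ - δ / 60)) * H ^ (δ / 60 - δ / 70) :=
        mul_le_mul_of_nonneg_left hbig hP
    _ = L ^ 2 * X * H ^ (-δ - δ / 70) := by rw [e3]; ring

end IX10

open IX10

/-- item X10 -/
theorem prX10 (hK5 : tsK5) (hX8 : tsX8) (hX9 : tsX9) : tsX10 := by
  intro r E hr hAP hCB ε₂ θ₂ hε₂ hε4 hθ0 hθ₂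
  obtain ⟨δa, hδa, hA⟩ := hX8 r E hr hAP hCB ε₂ θ₂ hε₂ hε4 hθ0 hθ₂
  obtain ⟨δb, A9, XB, hδb, hB⟩ := hX9 r θ₂ hr hθ0 hθ₂
  obtain ⟨hdeg, hcoef⟩ := hK5 r E hr hAP.1 hCB
  obtain ⟨C1, hC1, hco1⟩ := hcoef 1 one_pos
  obtain ⟨C2, hC2, hco⟩ := hcoef (1 / 2) (by norm_num)
  refine ⟨min (min δa δb) (min (1 / 32) ((1 - θ₂) / 2)),
    lt_min (lt_min hδa hδb) (lt_min (by norm_num) (by linarith)), ?_⟩
  intro δ₁ hδ₁ hδ₁m
  have h1a : δ₁ ≤ δa := hδ₁m.trans ((min_le_left _ _).trans (min_le_left _ _))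
  have h1b : δ₁ ≤ δb := hδ₁m.trans ((min_le_left _ _).trans (min_le_right _ _))
  have h1c : δ₁ ≤ 1 / 32 := hδ₁m.trans ((min_le_right _ _).trans (min_le_left _ _))
  have h1d : δ₁ ≤ (1 - θ₂) / 2 := hδ₁m.trans ((min_le_right _ _).trans (min_le_right _ _))
  obtain ⟨A8, XA, hXA⟩ := hA δ₁ hδ₁ h1a
  set K : ℝ := ((r : ℝ) + 1) * ((r : ℝ) + 2) * C2 with hK
  have hK0 : 0 ≤ K := by positivity
  set η : ℝ := δ₁ / 1000 with hη
  have hη0 : 0 < η := by positivity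
  set A₀ : ℝ := max (max A8 A9) (max 1 ((4 * (r : ℝ) + 2) / η)) with hA₀
  have hA₀η : 4 * (r : ℝ) + 2 ≤ A₀ * η := by
    rw [← div_le_iff₀ hη0]
    exact (le_max_right _ _).trans (le_max_right _ _)
  have hev1 : ∀ᶠ H : ℝ in atTop, 3 * (1 + C1 ^ 2 + K ^ 2) ≤ H ^ (δ₁ / 60 - δ₁ / 70) :=
    (tendsto_rpow_atTop (by linarith)).eventually_ge_atTop _
  obtain ⟨H0, hH0⟩ := Filter.eventually_atTop.1 hev1
  obtain ⟨XC, hXC⟩ := Filter.eventually_atTop.1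
    ((Real.tendsto_log_atTop.eventually_ge_atTop (max 3 H0)).and (eventually_ge_atTop (1 : ℝ)))
  refine ⟨A₀, max XA (max XB XC), ?_⟩
  intro X H hX hHl hHu a b hblk L q b' hL1 hL2 hq hqX hcop
  obtain ⟨hlogX, hX1⟩ := hXC X ((le_max_right _ _).trans ((le_max_right _ _).trans hX))
  have hX0 : 0 < X := by linarith
  have hl3 : 3 ≤ Real.log X := (le_max_left _ _).trans hlogX
  have hl1 : 1 ≤ Real.log X := by linarith
  have hlA : ∀ A, A ≤ A₀ → Real.log X ^ A ≤ H := fun A hA =>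
    (Real.rpow_le_rpow_of_exponent_le hl1 hA).trans hHl
  have hlH : Real.log X ≤ H := by
    have := hlA 1 ((le_max_left _ _).trans (le_max_right _ _))
    rwa [Real.rpow_one] at this
  have hH1 : 1 ≤ H := hl1.trans hlH
  have hHpos : 0 < H := by linarith
  have hbig := hH0 H (((le_max_right _ _).trans hlogX).trans hlH)
  have hHX : H ≤ X := by
    refine hHu.trans ?_
    calc X ^ θ₂ ≤ X ^ (1 : ℝ) := Real.rpow_le_rpow_of_exponent_le hX1 hθ₂.le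
      _ = X := Real.rpow_one X
  have hlog := logH r η A₀ X H hη0 hA₀η hl3 hX0 hHl
  have hqa : (q : ℝ) ≤ H ^ δa := hqX.trans
    (Real.rpow_le_rpow_of_exponent_le hH1 ((min_le_left _ _).trans (min_le_left _ _)))
  have hqc : (q : ℝ) ≤ H ^ (1 / 32 : ℝ) := hqX.trans
    (Real.rpow_le_rpow_of_exponent_le hH1 ((min_le_right _ _).trans (min_le_left _ _)))
  have hAA := hXA X H ((le_max_left _ _).trans hX)
    (hlA A8 ((le_max_left _ _).trans (le_max_left _ _))) hHu a b hblk L q b' hL1 hL2 hq hqa hcop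
  obtain ⟨hba, hbb, hbc, hbd⟩ := hblk
  have hLone : (1 : ℝ) ≤ L := (Real.one_le_rpow hH1 (by norm_num)).trans hL1
  have hLone' : 1 ≤ L := by exact_mod_cast hLone
  -- the number of windows
  have hcard : ((Finset.Icc (a + L) b).card : ℝ) ≤ X * H ^ (-δ₁) := by
    rw [Nat.card_Icc]
    by_cases h : a + L ≤ b + 1
    · rw [Nat.cast_sub h]
      push_cast
      linarith
    · rw [Nat.sub_eq_zero_of_le (by omega)]
      push_cast
      exact mul_nonneg hX0.le (Real.rpow_nonneg hHpos.le _)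
  set Q : ℕ := ⌊H ^ (δ₁ / 20)⌋₊ with hQ
  have hLg1 : (1 : ℝ) ≤ 1 + Real.log (3 * X) := by
    have := Real.log_nonneg (show (1 : ℝ) ≤ 3 * X by linarith)
    linarith
  have hw1X : (1 : ℝ) ≤ H ^ (1 / 4 : ℝ) := Real.one_le_rpow hH1 (by norm_num)
  have hlw0 : 0 ≤ Real.log (H ^ (1 / 4 : ℝ)) := Real.log_nonneg hw1X
  have hlw : 1 + Real.log (H ^ (1 / 4 : ℝ)) ≤ 1 + Real.log (3 * X) := by
    have h1 : H ^ (1 / 4 : ℝ) ≤ H ^ (1 : ℝ) :=
      Real.rpow_le_rpow_of_exponent_le hH1 (by norm_num)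
    rw [Real.rpow_one] at h1
    have := Real.log_le_log (by linarith) (show H ^ (1 / 4 : ℝ) ≤ 3 * X by linarith)
    linarith
  have hlwp : (1 + Real.log (H ^ (1 / 4 : ℝ))) ^ (r + 1) ≤ (1 + Real.log (3 * X)) ^ (r + 1) :=
    pow_le_pow_left₀ (by linarith) hlw _
  have hlwη : (1 + Real.log (H ^ (1 / 4 : ℝ))) ^ (r + 1) ≤ H ^ η :=
    hlwp.trans ((pow_le_pow_right₀ hLg1 (by omega)).trans hlog)
  have hQle : (Q : ℝ) ≤ H ^ (1 / 32 : ℝ) :=
    (Nat.floor_le (Real.rpow_nonneg hHpos.le _)).trans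
      (Real.rpow_le_rpow_of_exponent_le hH1 (by linarith))
  have hxlow : X ^ (1 - (1 - θ₂) / 4) ≤ (a : ℝ) := by
    refine le_trans ?_ hba
    have h1 : X ^ (-(δ₁ / 2)) ≤ H ^ (-(δ₁ / 2)) :=
      Real.rpow_le_rpow_of_nonpos hHpos hHX (by linarith)
    calc X ^ (1 - (1 - θ₂) / 4) ≤ X ^ (1 + -(δ₁ / 2)) :=
          Real.rpow_le_rpow_of_exponent_le hX1 (by linarith)
      _ = X * X ^ (-(δ₁ / 2)) := by rw [Real.rpow_add hX0, Real.rpow_one]
      _ ≤ X * H ^ (-(δ₁ / 2)) := mul_le_mul_of_nonneg_left h1 hX0.le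
  -- the three parts at one window
  have key : ∀ x ∈ Finset.Icc (a + L) b,
      ‖ws (fu r E (H ^ ε₂) (H ^ (1 / 4 : ℝ)) Q) (b' / q) L x‖ ^ 2 ≤
      3 * (‖ws (up r (H ^ ε₂) (H ^ (1 / 4 : ℝ))) (b' / q) L x -
          ((L * (ed (Eu E (H ^ ε₂) (H ^ (1 / 4 : ℝ)) q)).eval (Real.log x) : ℝ) : ℂ)‖ ^ 2 +
        (L * (C1 * (H ^ η * H ^ (-δb)))) ^ 2 + (L * (K * (H ^ (-(δ₁ / 40)) * H ^ η))) ^ 2) := by
    intro x hx
    rw [Finset.mem_Icc] at hx
    have hxa : (a : ℝ) ≤ x := by exact_mod_cast (show a ≤ x by omega)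
    have hxb : (x : ℝ) ≤ 3 * X := le_trans (by exact_mod_cast hx.2) hbb
    have hx1 : (1 : ℝ) ≤ x := by
      have : 1 ≤ x := by omega
      exact_mod_cast this
    have hB1 := hB (Eu E (H ^ ε₂) (H ^ (1 / 4 : ℝ)))
      (C1 * (1 + Real.log (H ^ (1 / 4 : ℝ))) ^ (r + 1)) X H Q x L q b'
      ((le_max_left _ _).trans ((le_max_right _ _).trans hX))
      (hlA A9 ((le_max_right _ _).trans (le_max_left _ _))) hHu
      (by positivity) (fun s => hdeg _ _ s)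
      (fun s j hs => by
        have := hco1 (H ^ ε₂) (H ^ (1 / 4 : ℝ)) s j hw1X hs
        rw [sub_self, Real.rpow_zero, mul_one] at this
        exact this)
      hQle (hxlow.trans hxa) hxb hL1 hL2 hq hqc hcop
    set p : ℝ := (ed (Eu E (H ^ ε₂) (H ^ (1 / 4 : ℝ)) q)).eval (Real.log x) with hp
    have hsplit : ws (fu r E (H ^ ε₂) (H ^ (1 / 4 : ℝ)) Q) (b' / q) L x =
        (ws (up r (H ^ ε₂) (H ^ (1 / 4 : ℝ))) (b' / q) L x - ((L * p : ℝ) : ℂ)) -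
          (ws (fs (Eu E (H ^ ε₂) (H ^ (1 / 4 : ℝ))) Q) (b' / q) L x -
            ((if q ≤ Q then L * p else 0 : ℝ) : ℂ)) +
          ((if q ≤ Q then 0 else L * p : ℝ) : ℂ) := by
      rw [ws_fu]
      by_cases h : q ≤ Q
      · rw [if_pos h, if_pos h]
        push_cast
        ring
      · rw [if_neg h, if_neg h]
        push_cast
        ring
    rw [hsplit]
    refine (sq3 _ _ _).trans ?_
    have hBsq : ‖ws (fs (Eu E (H ^ ε₂) (H ^ (1 / 4 : ℝ))) Q) (b' / q) L x -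
        ((if q ≤ Q then L * p else 0 : ℝ) : ℂ)‖ ^ 2 ≤ (L * (C1 * (H ^ η * H ^ (-δb)))) ^ 2 := by
      refine pow_le_pow_left₀ (norm_nonneg _) (hB1.trans ?_) 2
      calc C1 * (1 + Real.log (H ^ (1 / 4 : ℝ))) ^ (r + 1) * L * H ^ (-δb) ≤
            C1 * H ^ η * L * H ^ (-δb) := by
              refine mul_le_mul_of_nonneg_right (mul_le_mul_of_nonneg_right
                (mul_le_mul_of_nonneg_left hlwη hC1.le) (by linarith))
                (Real.rpow_nonneg hHpos.le _)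
        _ = L * (C1 * (H ^ η * H ^ (-δb))) := by ring
    have hCn : ‖((if q ≤ Q then 0 else L * p : ℝ) : ℂ)‖ ≤
        L * (K * (H ^ (-(δ₁ / 40)) * H ^ η)) := by
      rw [Complex.norm_real, Real.norm_eq_abs]
      by_cases h : q ≤ Q
      · rw [if_pos h, abs_zero]
        positivity
      · rw [if_neg h, abs_mul, Nat.abs_cast]
        refine mul_le_mul_of_nonneg_left ?_ (by linarith)
        have hqQ : H ^ (δ₁ / 20) ≤ (q : ℝ) := (Nat.lt_of_floor_lt (by omega)).le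
        have hq12 : (q : ℝ) ^ ((1 / 2 : ℝ) - 1) ≤ H ^ (-(δ₁ / 40)) := by
          have h1 : (q : ℝ) ^ ((1 / 2 : ℝ) - 1) ≤ (H ^ (δ₁ / 20)) ^ ((1 / 2 : ℝ) - 1) :=
            Real.rpow_le_rpow_of_nonpos (Real.rpow_pos_of_pos hHpos _) hqQ (by norm_num)
          rw [← Real.rpow_mul hHpos.le] at h1
          refine h1.trans (le_of_eq ?_)
          congr 1
          ring
        have hbd := IF6.ed_bd r (Eu E (H ^ ε₂) (H ^ (1 / 4 : ℝ)) q) (hdeg _ _ q)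
          (C2 * (1 + Real.log (H ^ (1 / 4 : ℝ))) ^ (r + 1) * (q : ℝ) ^ ((1 / 2 : ℝ) - 1))
          (by positivity) (fun j => hco _ _ q j hw1X hq) (Real.log x) (1 + Real.log (3 * X))
          (Real.log_nonneg hx1) hLg1
          (by
            have := Real.log_le_log (by linarith) hxb
            linarith)
        refine hbd.trans ?_
        calc ((r : ℝ) + 1) * ((r : ℝ) + 2) *
              (C2 * (1 + Real.log (H ^ (1 / 4 : ℝ))) ^ (r + 1) * (q : ℝ) ^ ((1 / 2 : ℝ) - 1)) *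
              (1 + Real.log (3 * X)) ^ r
            ≤ ((r : ℝ) + 1) * ((r : ℝ) + 2) *
              (C2 * (1 + Real.log (3 * X)) ^ (r + 1) * H ^ (-(δ₁ / 40))) *
              (1 + Real.log (3 * X)) ^ r := by
              gcongr
          _ = K * (H ^ (-(δ₁ / 40)) * (1 + Real.log (3 * X)) ^ (2 * r + 1)) := by
              rw [hK, show 2 * r + 1 = (r + 1) + r by ring, pow_add]
              ring
          _ ≤ K * (H ^ (-(δ₁ / 40)) * H ^ η) := by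
              gcongr
    have hCsq : ‖((if q ≤ Q then 0 else L * p : ℝ) : ℂ)‖ ^ 2 ≤
        (L * (K * (H ^ (-(δ₁ / 40)) * H ^ η))) ^ 2 := pow_le_pow_left₀ (norm_nonneg _) hCn 2
    linarith
  refine (Finset.sum_le_sum key).trans ?_
  rw [← Finset.mul_sum, Finset.sum_add_distrib, Finset.sum_add_distrib, Finset.sum_const,
    Finset.sum_const, nsmul_eq_mul, nsmul_eq_mul]
  refine le_trans ?_ (fin_num X H L δ₁ δb η K C1 hX0.le hH1 hδ₁ h1b (by rw [hη]; linarith) hbig)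
  have hc1 : ((Finset.Icc (a + L) b).card : ℝ) * (L * (C1 * (H ^ η * H ^ (-δb)))) ^ 2 ≤
      X * H ^ (-δ₁) * (L * (C1 * (H ^ η * H ^ (-δb)))) ^ 2 :=
    mul_le_mul_of_nonneg_right hcard (sq_nonneg _)
  have hc2 : ((Finset.Icc (a + L) b).card : ℝ) * (L * (K * (H ^ (-(δ₁ / 40)) * H ^ η))) ^ 2 ≤
      X * H ^ (-δ₁) * (L * (K * (H ^ (-(δ₁ / 40)) * H ^ η))) ^ 2 :=
    mul_le_mul_of_nonneg_right hcard (sq_nonneg _)
  linarith

end Pool.Agent.Work.MP_122e00_nt.TS
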