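import Mathlib
import Pool.Agent.Work.MP_122e00_nt.TS.Stmts7

/-!
# All powers, item K11: frequencies near a fraction with small denominator
-/

namespace Pool.Agent.Work.MP_122e00_nt.TS

open Finset Filter Topology

namespace IK11

theorem e_add (x y : ℝ) : ee (x + y) = ee x * ee y := by
  unfold ee
  rw [← Complex.exp_add]
  congr 1
  push_cast
  ring

theorem e_norm (x : ℝ) : ‖ee x‖ = 1 := by
  unfold ee
  exact Complex.norm_exp_ofReal_mul_I _

theorem e_sub_one (z : ℝ) : ‖ee z - 1‖ ≤ 2 * Real.pi * |z| := by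
  unfold ee
  have h := Real.norm_exp_I_mul_ofReal_sub_one_le (x := 2 * Real.pi * z)
  rw [mul_comm Complex.I] at h
  refine h.trans (le_of_eq ?_)
  rw [Real.norm_eq_abs, abs_mul, abs_of_pos (by positivity)]

/-- cutting a window -/
theorem cut (g : ℕ → ℂ) (l x : ℕ) : ∀ K : ℕ, K * l ≤ x →
    ∑ n ∈ Finset.Ioc (x - K * l) x, g n =
      ∑ i ∈ Finset.range K, ∑ n ∈ Finset.Ioc (x - i * l - l) (x - i * l), g n := by
  intro K
  induction K with
  | zero => intro _; simp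
  | succ K ih =>
    intro h
    have h1 : K * l + l ≤ x := by
      have : (K + 1) * l = K * l + l := by ring
      omega
    have h2 : x - (K + 1) * l = x - K * l - l := by
      have : (K + 1) * l = K * l + l := by ring
      omega
    rw [Finset.sum_range_succ, ← ih (by omega), h2]
    refine (Finset.sum_Ioc_consecutive g (show x - K * l - l ≤ x - K * l by omega)
      (show x - K * l ≤ x by omega)).symm.trans ?_
    exact add_comm _ _

/-- one short window -/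
theorem short (f : ℕ → ℝ) (γ β : ℝ) (l y : ℕ) (M : ℝ) (hM : 0 ≤ M) (hly : l ≤ y)
    (hf : ∀ n ∈ Finset.Ioc (y - l) y, |f n| ≤ M) :
    ‖ws f γ l y‖ ≤ ‖ws f β l y‖ + l * (M * (2 * Real.pi * (l * |γ - β|))) := by
  have h1 : ws f γ l y = ee (y * (γ - β)) * (ws f β l y +
      ∑ n ∈ Finset.Ioc (y - l) y, (f n : ℂ) * ee (n * β) *
        (ee (((n : ℝ) - y) * (γ - β)) - 1)) := by
    unfold ws
    rw [← Finset.sum_add_distrib, Finset.mul_sum]
    refine Finset.sum_congr rfl fun n _ => ?_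
    have h2 : (n : ℝ) * γ = y * (γ - β) + (n * β + ((n : ℝ) - y) * (γ - β)) := by ring
    rw [h2, e_add, e_add]
    ring
  rw [h1, norm_mul, e_norm, one_mul]
  refine (norm_add_le _ _).trans (add_le_add le_rfl ?_)
  refine (norm_sum_le _ _).trans ?_
  have h3 : ∀ n ∈ Finset.Ioc (y - l) y, ‖(f n : ℂ) * ee (n * β) *
      (ee (((n : ℝ) - y) * (γ - β)) - 1)‖ ≤ M * (2 * Real.pi * (l * |γ - β|)) := by
    intro n hn
    rw [norm_mul, norm_mul, e_norm, mul_one, Complex.norm_real, Real.norm_eq_abs]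
    refine mul_le_mul (hf n hn) ?_ (norm_nonneg _) hM
    refine (e_sub_one _).trans ?_
    rw [abs_mul]
    refine mul_le_mul_of_nonneg_left ?_ (by positivity)
    refine mul_le_mul_of_nonneg_right ?_ (abs_nonneg _)
    have hn' := Finset.mem_Ioc.mp hn
    have h4 : (n : ℝ) ≤ y := by exact_mod_cast hn'.2
    have h5 : (y : ℝ) - l ≤ n := by
      have : y ≤ n + l := by omega
      have : (y : ℝ) ≤ n + l := by exact_mod_cast this
      linarith
    rw [abs_le]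
    constructor <;> linarith
  refine (Finset.sum_le_sum h3).trans ?_
  rw [Finset.sum_const, Nat.card_Ioc, nsmul_eq_mul]
  have h6 : y - (y - l) = l := by omega
  rw [h6]

/-- the pointwise bound -/
theorem pointwise (f : ℕ → ℝ) (γ β : ℝ) (l K L x : ℕ) (M : ℝ) (hM : 0 ≤ M) (hKL : K * l ≤ L)
    (hR : L ≤ K * l + l) (hLx : L ≤ x) (hf : ∀ n ∈ Finset.Ioc (x - L) x, |f n| ≤ M) :
    ‖ws f γ L x‖ ≤ ∑ i ∈ Finset.range K, ‖ws f β l (x - i * l)‖ +
      (L * (M * (2 * Real.pi * (l * |γ - β|))) + l * M) := by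
  have h1 : ws f γ L x = ∑ n ∈ Finset.Ioc (x - L) (x - K * l), (f n : ℂ) * ee (n * γ) +
      ∑ i ∈ Finset.range K, ws f γ l (x - i * l) := by
    unfold ws
    rw [← cut (fun n => (f n : ℂ) * ee (n * γ)) l x K (hKL.trans hLx)]
    exact (Finset.sum_Ioc_consecutive _ (by omega) (by omega)).symm
  have h2 : ‖∑ n ∈ Finset.Ioc (x - L) (x - K * l), (f n : ℂ) * ee (n * γ)‖ ≤ l * M := by
    refine (norm_sum_le _ _).trans ?_
    have h3 : ∀ n ∈ Finset.Ioc (x - L) (x - K * l), ‖(f n : ℂ) * ee (n * γ)‖ ≤ M := by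
      intro n hn
      rw [norm_mul, e_norm, mul_one, Complex.norm_real, Real.norm_eq_abs]
      refine hf n (Finset.mem_Ioc.mpr ?_)
      have := Finset.mem_Ioc.mp hn
      omega
    refine (Finset.sum_le_sum h3).trans ?_
    rw [Finset.sum_const, Nat.card_Ioc, nsmul_eq_mul]
    refine mul_le_mul_of_nonneg_right ?_ hM
    have h4 : x - K * l - (x - L) ≤ l := by omega
    exact_mod_cast h4
  have h5 : ‖∑ i ∈ Finset.range K, ws f γ l (x - i * l)‖ ≤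
      ∑ i ∈ Finset.range K, ‖ws f β l (x - i * l)‖ +
        L * (M * (2 * Real.pi * (l * |γ - β|))) := by
    refine (norm_sum_le _ _).trans ?_
    have h6 : ∀ i ∈ Finset.range K, ‖ws f γ l (x - i * l)‖ ≤ ‖ws f β l (x - i * l)‖ +
        l * (M * (2 * Real.pi * (l * |γ - β|))) := by
      intro i hi
      have hi' : i + 1 ≤ K := Finset.mem_range.mp hi
      have h7 : (i + 1) * l ≤ K * l := Nat.mul_le_mul_right l hi'
      have h8 : (i + 1) * l = i * l + l := by ring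
      refine short f γ β l (x - i * l) M hM (by omega) ?_
      intro n hn
      refine hf n (Finset.mem_Ioc.mpr ?_)
      have := Finset.mem_Ioc.mp hn
      omega
    refine (Finset.sum_le_sum h6).trans ?_
    rw [Finset.sum_add_distrib, Finset.sum_const, Finset.card_range, nsmul_eq_mul, ← mul_assoc]
    refine add_le_add le_rfl (mul_le_mul_of_nonneg_right ?_ (by positivity))
    exact_mod_cast hKL
  rw [h1]
  refine (norm_add_le _ _).trans ?_
  linarith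

theorem sq_bound {K : ℕ} (A : ℕ → ℝ) (E y : ℝ) (hy : 0 ≤ y)
    (h : y ≤ ∑ i ∈ Finset.range K, A i + E) :
    y ^ 2 ≤ 2 * K * ∑ i ∈ Finset.range K, A i ^ 2 + 2 * E ^ 2 := by
  have h1 : (∑ i ∈ Finset.range K, A i) ^ 2 ≤ K * ∑ i ∈ Finset.range K, A i ^ 2 := by
    have := sq_sum_le_card_mul_sum_sq (s := Finset.range K) (f := A)
    rwa [Finset.card_range] at this
  have h2 : y ^ 2 ≤ (∑ i ∈ Finset.range K, A i + E) ^ 2 := pow_le_pow_left₀ hy h 2
  nlinarith [sq_nonneg (∑ i ∈ Finset.range K, A i - E)]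

/-- shifted sums -/
theorem shift_sum (F : ℕ → ℝ) (hF : ∀ y, 0 ≤ F y) (a b L l s : ℕ) (hs : s + l ≤ L) :
    ∑ x ∈ Finset.Icc (a + L) b, F (x - s) ≤ ∑ y ∈ Finset.Icc (a + l) b, F y := by
  have hinj : Set.InjOn (fun x => x - s) (Finset.Icc (a + L) b : Finset ℕ) := by
    intro x hx y hy hxy
    have hx' := Finset.mem_Icc.mp hx
    have hy' := Finset.mem_Icc.mp hy
    change x - s = y - s at hxy
    omega
  rw [← Finset.sum_image (f := F) hinj]
  refine Finset.sum_le_sum_of_subset_of_nonneg ?_ fun y _ _ => hF y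
  intro y hy
  obtain ⟨x, hx, rfl⟩ := Finset.mem_image.mp hy
  have hx' := Finset.mem_Icc.mp hx
  exact Finset.mem_Icc.mpr ⟨by omega, by omega⟩

end IK11

open IK11 in
theorem prK11 (hK7 : tsK7) (hK10 : tsK10) : tsK11 := by
  intro r E hr hAP hCB ε₂ θw θ₁ θ₂ hε hεw hw1 hw4 hθ
  have hw2 : θw < (θw + θ₁) / 2 := by linarith
  obtain ⟨δ4, hδ4, h4⟩ := hK10 r E hr hAP hCB ε₂ θw ((θw + θ₁) / 2) θ₂ hε hεw hw2 hw4 hθ
  obtain ⟨δm, hδm⟩ : ∃ δm : ℝ, δm = min δ4 (min ((θ₁ - θw) / 12) (1 / 10)) := ⟨_, rfl⟩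
  have hδm0 : 0 < δm := by
    rw [hδm]
    exact lt_min hδ4 (lt_min (by linarith) (by norm_num))
  have hm4 : δm ≤ δ4 := by rw [hδm]; exact min_le_left _ _
  have hmε : δm ≤ (θ₁ - θw) / 12 := by
    rw [hδm]; exact (min_le_right _ _).trans (min_le_left _ _)
  have hm10 : δm ≤ 1 / 10 := by rw [hδm]; exact (min_le_right _ _).trans (min_le_right _ _)
  refine ⟨δm, hδm0, fun δ₁ hδ₁ hδ₁m => ?_⟩
  obtain ⟨X4, hX4⟩ := h4 δ₁ hδ₁ (hδ₁m.trans hm4)
  obtain ⟨C7, hC7, h7⟩ := hK7 r E hr hAP.1 hCB (δm / 10) (by positivity)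
  obtain ⟨C, hC⟩ : ∃ C : ℝ, C = C7 * 2 := ⟨_, rfl⟩
  have hC0 : 0 < C := by rw [hC]; positivity
  have hev : ∀ᶠ X : ℝ in atTop, X4 ≤ X ∧ 1 ≤ X ∧ 2 ≤ X ^ ((θ₁ - θw) / 4) ∧
      4 ≤ X ^ (δ₁ / 70 - δ₁ / 80) ∧ 512 * C ^ 2 ≤ X ^ (3 * δm) := by
    have e1 := (tendsto_rpow_atTop (show (0 : ℝ) < (θ₁ - θw) / 4 by
      linarith)).eventually_ge_atTop 2
    have e2 := (tendsto_rpow_atTop (show (0 : ℝ) < δ₁ / 70 - δ₁ / 80 by
      linarith)).eventually_ge_atTop 4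
    have e3 := (tendsto_rpow_atTop (show (0 : ℝ) < 3 * δm by
      linarith)).eventually_ge_atTop (512 * C ^ 2)
    filter_upwards [eventually_ge_atTop X4, eventually_ge_atTop 1, e1, e2, e3] with X a b c d e
    exact ⟨a, b, c, d, e⟩
  obtain ⟨X0, hX0⟩ := Filter.eventually_atTop.mp hev
  refine ⟨X0, fun X hX a b hBlk L q b' γ hL1 hL2 hq1 hq2 hcop hγ => ?_⟩
  obtain ⟨hXX4, hX1, hXε, hX70, hXC⟩ := hX0 X hX
  have hXpos : 0 < X := by linarith
  obtain ⟨hB1, hB2, hB3, hB4⟩ := hBlk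
  have hab : (b : ℝ) - a ≤ X ^ (1 - δ₁) := by linarith
  -- the short length
  obtain ⟨l, hl⟩ : ∃ l : ℕ, l = ⌊(L : ℝ) * X ^ (-(3 * δm))⌋₊ := ⟨_, rfl⟩
  have hLpos : (0 : ℝ) < L := lt_of_lt_of_le (Real.rpow_pos_of_pos hXpos _) hL1
  have hlL : (l : ℝ) ≤ L * X ^ (-(3 * δm)) := by
    rw [hl]
    exact Nat.floor_le (by positivity)
  have hl1 : X ^ ((θw + θ₁) / 2) ≤ l := by
    have g1 : X ^ ((θw + θ₁) / 2) * 2 ≤ L * X ^ (-(3 * δm)) := by
      calc X ^ ((θw + θ₁) / 2) * 2 ≤ X ^ ((θw + θ₁) / 2) * X ^ ((θ₁ - θw) / 4) :=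
            mul_le_mul_of_nonneg_left hXε (by positivity)
        _ = X ^ ((θw + θ₁) / 2 + (θ₁ - θw) / 4) := by rw [← Real.rpow_add hXpos]
        _ ≤ X ^ (θ₁ + -(3 * δm)) :=
            Real.rpow_le_rpow_of_exponent_le hX1 (by linarith)
        _ = X ^ θ₁ * X ^ (-(3 * δm)) := Real.rpow_add hXpos _ _
        _ ≤ L * X ^ (-(3 * δm)) := mul_le_mul_of_nonneg_right hL1 (by positivity)
    have g2 : 1 ≤ X ^ ((θw + θ₁) / 2) := Real.one_le_rpow hX1 (by linarith)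
    have g3 : (L : ℝ) * X ^ (-(3 * δm)) < l + 1 := by
      rw [hl]
      exact Nat.lt_floor_add_one _
    linarith
  have hl0 : 0 < l := by
    have : (0 : ℝ) < l := lt_of_lt_of_le (Real.rpow_pos_of_pos hXpos _) hl1
    exact_mod_cast this
  have hXm3 : X ^ (-(3 * δm)) ≤ 1 := Real.rpow_le_one_of_one_le_of_nonpos hX1 (by linarith)
  have hlL' : (l : ℝ) ≤ L := hlL.trans (mul_le_of_le_one_right hLpos.le hXm3)
  have hlLn : l ≤ L := by exact_mod_cast hlL'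
  obtain ⟨K, hK⟩ : ∃ K : ℕ, K = L / l := ⟨_, rfl⟩
  have hKL : K * l ≤ L := by rw [hK]; exact Nat.div_mul_le_self L l
  have hR : L ≤ K * l + l := by
    rw [hK]
    have := Nat.lt_div_mul_add (a := L) hl0
    omega
  have hKLr : (K : ℝ) * l ≤ L := by exact_mod_cast hKL
  have h40 := hX4 X hXX4 a b ⟨hB1, hB2, hB3, hB4⟩ l q b' hl1 (hlL'.trans hL2) hq1
    (hq2.trans (Real.rpow_le_rpow_of_exponent_le hX1 hm4)) hcop
  obtain ⟨f, hf⟩ : ∃ f : ℕ → ℝ, f = fu r E (X ^ ε₂) (X ^ θw) ⌊X ^ (δ₁ / 20)⌋₊ := ⟨_, rfl⟩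
  rw [← hf] at h40 ⊢
  obtain ⟨β, hβ⟩ : ∃ β : ℝ, β = (b' : ℝ) / q := ⟨_, rfl⟩
  rw [← hβ] at h40 hγ
  -- size of f
  have hfM : ∀ n : ℕ, 1 ≤ n → (n : ℝ) ≤ 3 * X → |f n| ≤ C * X ^ (δm / 10) := by
    intro n hn hn3
    have hw0 : 1 ≤ X ^ θw := Real.one_le_rpow hX1 (by linarith)
    have hwX : X ^ θw ≤ X := by
      calc X ^ θw ≤ X ^ (1 : ℝ) := Real.rpow_le_rpow_of_exponent_le hX1 (by linarith)
        _ = X := Real.rpow_one X
    have hQX : (⌊X ^ (δ₁ / 20)⌋₊ : ℝ) ≤ X := by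
      refine (Nat.floor_le (by positivity)).trans ?_
      calc X ^ (δ₁ / 20) ≤ X ^ (1 : ℝ) := Real.rpow_le_rpow_of_exponent_le hX1 (by linarith)
        _ = X := Real.rpow_one X
    obtain ⟨g1, g2⟩ := h7 X (X ^ ε₂) (X ^ θw) ⌊X ^ (δ₁ / 20)⌋₊ n hX1 hw0 hwX hQX hn hn3
    rw [hf]
    unfold fu
    refine (abs_sub _ _).trans ?_
    rw [hC]
    linarith
  obtain ⟨M, hM⟩ : ∃ M : ℝ, M = C * X ^ (δm / 10) := ⟨_, rfl⟩
  have hM0 : 0 ≤ M := by rw [hM]; positivity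
  -- the error
  have hτ : (l : ℝ) * |γ - β| ≤ X ^ (-(2 * δm)) := by
    calc (l : ℝ) * |γ - β| ≤ (L * X ^ (-(3 * δm))) * (X ^ δm / L) :=
          mul_le_mul hlL hγ (abs_nonneg _) (by positivity)
      _ = X ^ (-(3 * δm)) * X ^ δm := by field_simp
      _ = X ^ (-(2 * δm)) := by
          rw [← Real.rpow_add hXpos]
          congr 1
          ring
  have hX32 : X ^ (-(3 * δm)) ≤ X ^ (-(2 * δm)) :=
    Real.rpow_le_rpow_of_exponent_le hX1 (by linarith)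
  obtain ⟨Er, hEr⟩ : ∃ Er : ℝ, Er = L * (M * (2 * Real.pi * (l * |γ - β|))) + l * M := ⟨_, rfl⟩
  have hEr0 : 0 ≤ Er := by rw [hEr]; positivity
  have hEr8 : Er ≤ 8 * (L * M * X ^ (-(2 * δm))) := by
    have hpi : 2 * Real.pi ≤ 7 := by
      have := Real.pi_lt_d2
      linarith
    have g1 : (L : ℝ) * (M * (2 * Real.pi * (l * |γ - β|))) ≤
        L * (M * (7 * X ^ (-(2 * δm)))) := by
      refine mul_le_mul_of_nonneg_left (mul_le_mul_of_nonneg_left ?_ hM0) hLpos.le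
      exact mul_le_mul hpi hτ (by positivity) (by norm_num)
    have g2 : (l : ℝ) * M ≤ L * X ^ (-(2 * δm)) * M :=
      mul_le_mul_of_nonneg_right (hlL.trans (mul_le_mul_of_nonneg_left hX32 hLpos.le)) hM0
    rw [hEr]
    linarith
  have hEr2 : Er ^ 2 ≤ 64 * (C ^ 2 * (L ^ 2 * X ^ (2 * (δm / 10) + -(4 * δm)))) := by
    have g1 : Er ^ 2 ≤ (8 * (L * M * X ^ (-(2 * δm)))) ^ 2 := pow_le_pow_left₀ hEr0 hEr8 2
    refine g1.trans (le_of_eq ?_)
    have g2 : X ^ (2 * (δm / 10) + -(4 * δm)) = (X ^ (δm / 10)) ^ 2 * (X ^ (-(2 * δm))) ^ 2 := by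
      rw [Real.rpow_add hXpos, ← Real.rpow_natCast, ← Real.rpow_natCast, ← Real.rpow_mul hXpos.le,
        ← Real.rpow_mul hXpos.le]
      congr 2 <;> push_cast <;> ring
    rw [g2, hM]
    ring
  -- pointwise
  have hpt : ∀ x ∈ Finset.Icc (a + L) b, ‖ws f γ L x‖ ^ 2 ≤
      2 * K * ∑ i ∈ Finset.range K, ‖ws f β l (x - i * l)‖ ^ 2 + 2 * Er ^ 2 := by
    intro x hx
    have hx' := Finset.mem_Icc.mp hx
    refine sq_bound (fun i => ‖ws f β l (x - i * l)‖) Er _ (norm_nonneg _) ?_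
    rw [hEr]
    refine pointwise f γ β l K L x M hM0 hKL hR (by omega) ?_
    intro n hn
    have hn' := Finset.mem_Ioc.mp hn
    rw [hM]
    refine hfM n (by omega) ?_
    have : (n : ℝ) ≤ b := by
      have : n ≤ b := by omega
      exact_mod_cast this
    linarith
  refine (Finset.sum_le_sum hpt).trans ?_
  rw [Finset.sum_add_distrib, ← Finset.mul_sum, Finset.sum_comm, Finset.sum_const, nsmul_eq_mul]
  have hmain : ∑ i ∈ Finset.range K, ∑ x ∈ Finset.Icc (a + L) b, ‖ws f β l (x - i * l)‖ ^ 2 ≤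
      K * ((l : ℝ) ^ 2 * X ^ (1 - δ₁ - δ₁ / 70)) := by
    have g1 : ∀ i ∈ Finset.range K, ∑ x ∈ Finset.Icc (a + L) b, ‖ws f β l (x - i * l)‖ ^ 2 ≤
        (l : ℝ) ^ 2 * X ^ (1 - δ₁ - δ₁ / 70) := by
      intro i hi
      have hi' : i + 1 ≤ K := Finset.mem_range.mp hi
      have h7 : (i + 1) * l ≤ K * l := Nat.mul_le_mul_right l hi'
      have h8 : (i + 1) * l = i * l + l := by ring
      exact (shift_sum (fun y => ‖ws f β l y‖ ^ 2) (fun y => by positivity) a b L l (i * l)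
        (by omega)).trans h40
    refine (Finset.sum_le_sum g1).trans (le_of_eq ?_)
    rw [Finset.sum_const, Finset.card_range, nsmul_eq_mul]
  have hcard : ((Finset.Icc (a + L) b).card : ℝ) ≤ 2 * X ^ (1 - δ₁) := by
    rw [Nat.card_Icc]
    have g1 : ((b + 1 - (a + L) : ℕ) : ℝ) ≤ (b : ℝ) - a + 1 := by
      have g2 : b + 1 - (a + L) + a ≤ b + 1 ∨ b + 1 - (a + L) = 0 := by omega
      have g3 : (a : ℝ) ≤ b := by
        have : 0 < X ^ (1 - δ₁) / 2 := by positivity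
        linarith
      rcases g2 with g2 | g2
      · have : ((b + 1 - (a + L) : ℕ) : ℝ) + a ≤ b + 1 := by exact_mod_cast g2
        linarith
      · rw [g2]
        push_cast
        linarith
    have g4 : 1 ≤ X ^ (1 - δ₁) := Real.one_le_rpow hX1 (by linarith)
    linarith
  have hP : 0 < X ^ (1 - δ₁ - δ₁ / 70) := Real.rpow_pos_of_pos hXpos _
  have hfin1 : 4 * X ^ (1 - δ₁ - δ₁ / 70) ≤ X ^ (1 - δ₁ - δ₁ / 80) := by
    have g1 : X ^ (1 - δ₁ - δ₁ / 80) = X ^ (δ₁ / 70 - δ₁ / 80) * X ^ (1 - δ₁ - δ₁ / 70) := by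
      rw [← Real.rpow_add hXpos]
      congr 1
      ring
    rw [g1]
    exact mul_le_mul_of_nonneg_right hX70 hP.le
  have hfin2 : 512 * C ^ 2 * (X ^ (1 - δ₁) * X ^ (2 * (δm / 10) + -(4 * δm))) ≤
      X ^ (1 - δ₁ - δ₁ / 80) := by
    have g1 : 512 * C ^ 2 * (X ^ (1 - δ₁) * X ^ (2 * (δm / 10) + -(4 * δm))) ≤
        X ^ (3 * δm) * (X ^ (1 - δ₁) * X ^ (2 * (δm / 10) + -(4 * δm))) :=
      mul_le_mul_of_nonneg_right hXC (by positivity)
    refine g1.trans ?_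
    rw [← Real.rpow_add hXpos, ← Real.rpow_add hXpos]
    exact Real.rpow_le_rpow_of_exponent_le hX1 (by linarith)
  have hL2p : (0 : ℝ) ≤ (L : ℝ) ^ 2 := by positivity
  have hKl2 : ((K : ℝ) * l) ^ 2 ≤ (L : ℝ) ^ 2 := pow_le_pow_left₀ (by positivity) hKLr 2
  have hA : 2 * (K : ℝ) * ∑ i ∈ Finset.range K, ∑ x ∈ Finset.Icc (a + L) b,
      ‖ws f β l (x - i * l)‖ ^ 2 ≤ (L : ℝ) ^ 2 * (2 * X ^ (1 - δ₁ - δ₁ / 70)) := by
    calc 2 * (K : ℝ) * ∑ i ∈ Finset.range K, ∑ x ∈ Finset.Icc (a + L) b,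
          ‖ws f β l (x - i * l)‖ ^ 2 ≤
          2 * (K : ℝ) * (K * ((l : ℝ) ^ 2 * X ^ (1 - δ₁ - δ₁ / 70))) :=
            mul_le_mul_of_nonneg_left hmain (by positivity)
      _ = ((K : ℝ) * l) ^ 2 * (2 * X ^ (1 - δ₁ - δ₁ / 70)) := by ring
      _ ≤ _ := mul_le_mul_of_nonneg_right hKl2 (by positivity)
  have hBd : ((Finset.Icc (a + L) b).card : ℝ) * (2 * Er ^ 2) ≤
      (L : ℝ) ^ 2 * (256 * C ^ 2 * (X ^ (1 - δ₁) * X ^ (2 * (δm / 10) + -(4 * δm)))) := by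
    calc ((Finset.Icc (a + L) b).card : ℝ) * (2 * Er ^ 2) ≤ (2 * X ^ (1 - δ₁)) *
          (2 * (64 * (C ^ 2 * (L ^ 2 * X ^ (2 * (δm / 10) + -(4 * δm)))))) :=
            mul_le_mul hcard (mul_le_mul_of_nonneg_left hEr2 (by norm_num)) (by positivity)
              (by positivity)
      _ = _ := by ring
  have hsum : (L : ℝ) ^ 2 * (2 * X ^ (1 - δ₁ - δ₁ / 70)) +
      (L : ℝ) ^ 2 * (256 * C ^ 2 * (X ^ (1 - δ₁) * X ^ (2 * (δm / 10) + -(4 * δm)))) ≤
      (L : ℝ) ^ 2 * X ^ (1 - δ₁ - δ₁ / 80) := by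
    rw [← mul_add]
    exact mul_le_mul_of_nonneg_left (by linarith) hL2p
  exact (add_le_add hA hBd).trans hsum

end Pool.Agent.Work.MP_122e00_nt.TS
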