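import Pool.Agent.Work.MP_122e00_nt.TS.Stmts11
import Pool.Agent.Work.MP_122e00_nt.TS.I_K11

/-!
# Thin shifts, item X11: frequencies near a fraction with small denominator
-/

namespace Pool.Agent.Work.MP_122e00_nt.TS

open Finset Filter Topology

namespace IX11

/-- one short window -/
theorem short (f : ℕ → ℝ) (γ β : ℝ) (l y : ℕ) (hly : l ≤ y) :
    ‖ws f γ l y‖ ≤ ‖ws f β l y‖ +
      2 * Real.pi * (l * |γ - β|) * ∑ n ∈ Finset.Ioc (y - l) y, |f n| := by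
  have h1 : ws f γ l y = ee (y * (γ - β)) * (ws f β l y +
      ∑ n ∈ Finset.Ioc (y - l) y, (f n : ℂ) * ee (n * β) *
        (ee (((n : ℝ) - y) * (γ - β)) - 1)) := by
    unfold ws
    rw [← Finset.sum_add_distrib, Finset.mul_sum]
    refine Finset.sum_congr rfl fun n _ => ?_
    have h2 : (n : ℝ) * γ = y * (γ - β) + (n * β + ((n : ℝ) - y) * (γ - β)) := by ring
    rw [h2, IK11.e_add, IK11.e_add]
    ring
  rw [h1, norm_mul, IK11.e_norm, one_mul]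
  refine (norm_add_le _ _).trans (add_le_add le_rfl ?_)
  refine (norm_sum_le _ _).trans ?_
  rw [Finset.mul_sum]
  refine Finset.sum_le_sum fun n hn => ?_
  rw [norm_mul, norm_mul, IK11.e_norm, mul_one, Complex.norm_real, Real.norm_eq_abs,
    mul_comm]
  refine mul_le_mul_of_nonneg_right ?_ (abs_nonneg _)
  refine (IK11.e_sub_one _).trans ?_
  rw [abs_mul]
  refine mul_le_mul_of_nonneg_left ?_ (by positivity)
  refine mul_le_mul_of_nonneg_right ?_ (abs_nonneg _)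
  have hn' := Finset.mem_Ioc.mp hn
  have h4 : (n : ℝ) ≤ y := by exact_mod_cast hn'.2
  have h5 : (y : ℝ) - l ≤ n := by
    have : y ≤ n + l := by omega
    have : (y : ℝ) ≤ n + l := by exact_mod_cast this
    linarith
  rw [abs_le]
  constructor <;> linarith

theorem cutR (g : ℕ → ℝ) (l x : ℕ) : ∀ K : ℕ, K * l ≤ x →
    ∑ n ∈ Finset.Ioc (x - K * l) x, g n =
      ∑ i ∈ Finset.range K, ∑ n ∈ Finset.Ioc (x - i * l - l) (x - i * l), g n := by
  intro K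
  induction K with
  | zero => intro _; simp
  | succ K ih =>
    intro h
    have h1 : K * l + l ≤ x := by
      have : (K + 1) * l = K * l + l := by ring
      omega
    have h2 : x - (K + 1) * l = x - K * l - l := by
      have : (K + 1) * l = K * l + l := by ring
      omega
    rw [Finset.sum_range_succ, ← ih (by omega), h2]
    refine (Finset.sum_Ioc_consecutive g (show x - K * l - l ≤ x - K * l by omega)
      (show x - K * l ≤ x by omega)).symm.trans ?_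
    exact add_comm _ _

/-- the pointwise bound -/
theorem pointwise (f : ℕ → ℝ) (γ β : ℝ) (l K L x : ℕ) (hKL : K * l ≤ L) (hLx : L ≤ x) :
    ‖ws f γ L x‖ ≤ ∑ i ∈ Finset.range K, ‖ws f β l (x - i * l)‖ +
      (2 * Real.pi * (l * |γ - β|) * ∑ n ∈ Finset.Ioc (x - L) x, |f n| +
        ∑ n ∈ Finset.Ioc (x - L) (x - K * l), |f n|) := by
  have h1 : ws f γ L x = ∑ n ∈ Finset.Ioc (x - L) (x - K * l), (f n : ℂ) * ee (n * γ) +
      ∑ i ∈ Finset.range K, ws f γ l (x - i * l) := by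
    unfold ws
    rw [← IK11.cut (fun n => (f n : ℂ) * ee (n * γ)) l x K (hKL.trans hLx)]
    exact (Finset.sum_Ioc_consecutive _ (by omega) (by omega)).symm
  have h2 : ‖∑ n ∈ Finset.Ioc (x - L) (x - K * l), (f n : ℂ) * ee (n * γ)‖ ≤
      ∑ n ∈ Finset.Ioc (x - L) (x - K * l), |f n| := by
    refine (norm_sum_le _ _).trans (le_of_eq (Finset.sum_congr rfl fun n _ => ?_))
    rw [norm_mul, IK11.e_norm, mul_one, Complex.norm_real, Real.norm_eq_abs]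
  have h0 : 0 ≤ 2 * Real.pi * (l * |γ - β|) := by positivity
  have h5 : ‖∑ i ∈ Finset.range K, ws f γ l (x - i * l)‖ ≤
      ∑ i ∈ Finset.range K, ‖ws f β l (x - i * l)‖ +
        2 * Real.pi * (l * |γ - β|) * ∑ n ∈ Finset.Ioc (x - L) x, |f n| := by
    refine (norm_sum_le _ _).trans ?_
    have h6 : ∀ i ∈ Finset.range K, ‖ws f γ l (x - i * l)‖ ≤ ‖ws f β l (x - i * l)‖ +
        2 * Real.pi * (l * |γ - β|) * ∑ n ∈ Finset.Ioc (x - i * l - l) (x - i * l), |f n| := by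
      intro i hi
      have hi' : i + 1 ≤ K := Finset.mem_range.mp hi
      have h7 : (i + 1) * l ≤ K * l := Nat.mul_le_mul_right l hi'
      have h8 : (i + 1) * l = i * l + l := by ring
      exact short f γ β l (x - i * l) (by omega)
    refine (Finset.sum_le_sum h6).trans ?_
    rw [Finset.sum_add_distrib, ← Finset.mul_sum,
      ← cutR (fun n => |f n|) l x K (hKL.trans hLx)]
    refine add_le_add le_rfl (mul_le_mul_of_nonneg_left ?_ h0)
    refine Finset.sum_le_sum_of_subset_of_nonneg ?_ fun _ _ _ => abs_nonneg _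
    exact Finset.Ioc_subset_Ioc_left (by omega)
  rw [h1]
  refine (norm_add_le _ _).trans ?_
  linarith

/-- windows -/
theorem win_sum (g : ℕ → ℝ) (hg : ∀ n, 0 ≤ g n) (a b L s R : ℕ) (h : s + R ≤ L) :
    ∑ x ∈ Finset.Icc (a + L) b, ∑ n ∈ Finset.Ioc (x - s - R) (x - s), g n ≤
      R * ∑ n ∈ Finset.Ioc a b, g n := by
  have h1 : ∀ x ∈ Finset.Icc (a + L) b, ∑ n ∈ Finset.Ioc (x - s - R) (x - s), g n =
      ∑ i ∈ Finset.range R, g (x - (s + i)) := by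
    intro x hx
    have hx' := Finset.mem_Icc.mp hx
    have h2 := cutR g 1 (x - s) R (by omega)
    rw [mul_one] at h2
    rw [h2]
    refine Finset.sum_congr rfl fun i hi => ?_
    have hi' := Finset.mem_range.mp hi
    have h3 : Finset.Ioc (x - s - i * 1 - 1) (x - s - i * 1) = {x - (s + i)} := by
      ext n
      rw [Finset.mem_Ioc, Finset.mem_singleton]
      omega
    rw [h3, Finset.sum_singleton]
  rw [Finset.sum_congr rfl h1, Finset.sum_comm]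
  have h4 : ∀ i ∈ Finset.range R, ∑ x ∈ Finset.Icc (a + L) b, g (x - (s + i)) ≤
      ∑ n ∈ Finset.Ioc a b, g n := by
    intro i hi
    have hi' := Finset.mem_range.mp hi
    refine (IK11.shift_sum g hg a b L 1 (s + i) (by omega)).trans (le_of_eq ?_)
    refine Finset.sum_congr ?_ fun _ _ => rfl
    ext n
    rw [Finset.mem_Icc, Finset.mem_Ioc]
    omega
  refine (Finset.sum_le_sum h4).trans (le_of_eq ?_)
  rw [Finset.sum_const, Finset.card_range, nsmul_eq_mul]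

theorem cs (f : ℕ → ℝ) (i j : ℕ) (R : ℕ) (hR : j - i ≤ R) :
    (∑ n ∈ Finset.Ioc i j, |f n|) ^ 2 ≤ R * ∑ n ∈ Finset.Ioc i j, f n ^ 2 := by
  have h1 := sq_sum_le_card_mul_sum_sq (s := Finset.Ioc i j) (f := fun n => |f n|)
  rw [Nat.card_Ioc] at h1
  refine h1.trans ?_
  have h2 : ∑ n ∈ Finset.Ioc i j, |f n| ^ 2 = ∑ n ∈ Finset.Ioc i j, f n ^ 2 :=
    Finset.sum_congr rfl fun n _ => sq_abs _
  rw [h2]
  exact mul_le_mul_of_nonneg_right (by exact_mod_cast hR)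
    (Finset.sum_nonneg fun _ _ => sq_nonneg _)

end IX11

open IX11 in
theorem prX11 (hX3 : tsX3) (hX10 : tsX10) : tsX11 := by
  intro r E hr hAP hCB ε₂ θ₂ hε hε4 hθ hθ1
  obtain ⟨δ4, hδ4, h4⟩ := hX10 r E hr hAP hCB ε₂ θ₂ hε hε4 hθ hθ1
  obtain ⟨δs, hδs, h3⟩ := hX3 r E hr hAP.1 hCB
  obtain ⟨δm, hδm⟩ : ∃ δm : ℝ, δm = min δ4 (min (1 / 24) (δs / 2)) := ⟨_, rfl⟩
  have hδm0 : 0 < δm := by
    rw [hδm]
    exact lt_min hδ4 (lt_min (by norm_num) (by linarith))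
  have hm4 : δm ≤ δ4 := by rw [hδm]; exact min_le_left _ _
  have hm24 : δm ≤ 1 / 24 := by
    rw [hδm]; exact (min_le_right _ _).trans (min_le_left _ _)
  have hms : δm ≤ δs / 2 := by rw [hδm]; exact (min_le_right _ _).trans (min_le_right _ _)
  refine ⟨δm, hδm0, fun δ₁ hδ₁ hδ₁m => ?_⟩
  obtain ⟨A4, X4, hX4⟩ := h4 δ₁ hδ₁ (hδ₁m.trans hm4)
  obtain ⟨C, hC, hS⟩ := h3 1 one_pos
  obtain ⟨A₀, hA₀⟩ : ∃ A₀ : ℝ, A₀ = max A4 (max 1 (20 * C / δm)) := ⟨_, rfl⟩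
  have hA4 : A4 ≤ A₀ := by rw [hA₀]; exact le_max_left _ _
  have hA1 : 1 ≤ A₀ := by rw [hA₀]; exact (le_max_left _ _).trans (le_max_right _ _)
  have hAC : 20 * C / δm ≤ A₀ := by rw [hA₀]; exact (le_max_right _ _).trans (le_max_right _ _)
  have hev : ∀ᶠ X : ℝ in atTop, X4 ≤ X ∧ 3 ≤ X ∧ 2 ≤ X ^ (δs / 2) ∧ 1 ≤ Real.log X ∧
      2 ≤ Real.log X ^ (1 / 8 : ℝ) ∧ 4 ≤ Real.log X ^ (δ₁ / 70 - δ₁ / 80) ∧
      1600 * C ≤ Real.log X ^ (3 * δm) := by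
    have e0 := (tendsto_rpow_atTop (show (0 : ℝ) < δs / 2 by linarith)).eventually_ge_atTop 2
    have e1 := Real.tendsto_log_atTop.eventually_ge_atTop 1
    have e2 := ((tendsto_rpow_atTop (show (0 : ℝ) < 1 / 8 by norm_num)).comp
      Real.tendsto_log_atTop).eventually_ge_atTop 2
    have e3 := ((tendsto_rpow_atTop (show (0 : ℝ) < δ₁ / 70 - δ₁ / 80 by linarith)).comp
      Real.tendsto_log_atTop).eventually_ge_atTop 4
    have e4 := ((tendsto_rpow_atTop (show (0 : ℝ) < 3 * δm by linarith)).comp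
      Real.tendsto_log_atTop).eventually_ge_atTop (1600 * C)
    filter_upwards [eventually_ge_atTop X4, eventually_ge_atTop 3, e0, e1, e2, e3, e4]
      with X a b c d e f g
    exact ⟨a, b, c, d, e, f, g⟩
  obtain ⟨X0, hX0⟩ := Filter.eventually_atTop.mp hev
  refine ⟨A₀, X0, fun X H hX hHA hHθ a b hBh L q b' γ hL1 hL2 hq1 hq2 hcop hγ => ?_⟩
  obtain ⟨hXX4, hX3', hXs, hY1, hY8, hY70, hYC⟩ := hX0 X hX
  have hX1 : 1 ≤ X := by linarith
  have hXpos : 0 < X := by linarith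
  obtain ⟨Y, hY⟩ : ∃ Y : ℝ, Y = Real.log X := ⟨_, rfl⟩
  rw [← hY] at hY1 hY8 hY70 hYC hHA
  have hYpos : 0 < Y := by linarith
  have hHA4 : Y ^ A4 ≤ H := (Real.rpow_le_rpow_of_exponent_le hY1 hA4).trans hHA
  have hHY : Y ≤ H := by
    calc Y = Y ^ (1 : ℝ) := (Real.rpow_one Y).symm
      _ ≤ Y ^ A₀ := Real.rpow_le_rpow_of_exponent_le hY1 hA1
      _ ≤ H := hHA
  have hH1 : 1 ≤ H := hY1.trans hHY
  have hHpos : 0 < H := by linarith
  have hHX : H ≤ X := by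
    calc H ≤ X ^ θ₂ := hHθ
      _ ≤ X ^ (1 : ℝ) := Real.rpow_le_rpow_of_exponent_le hX1 hθ1.le
      _ = X := Real.rpow_one X
  have hH8 : 2 ≤ H ^ (1 / 8 : ℝ) := hY8.trans (Real.rpow_le_rpow hYpos.le hHY (by norm_num))
  have hH70 : 4 ≤ H ^ (δ₁ / 70 - δ₁ / 80) :=
    hY70.trans (Real.rpow_le_rpow hYpos.le hHY (by linarith))
  have hHC : 1600 * C ≤ H ^ (3 * δm) :=
    hYC.trans (Real.rpow_le_rpow hYpos.le hHY (by linarith))
  have hYCH : Y ^ C ≤ H ^ (δm / 20) := by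
    have g1 : Y ^ (20 * C / δm) ≤ H := (Real.rpow_le_rpow_of_exponent_le hY1 hAC).trans hHA
    have g2 := Real.rpow_le_rpow (Real.rpow_nonneg hYpos.le _) g1
      (show (0 : ℝ) ≤ δm / 20 by linarith)
    rw [← Real.rpow_mul hYpos.le] at g2
    have g3 : 20 * C / δm * (δm / 20) = C := by field_simp
    rwa [g3] at g2
  have hBh0 := hBh
  obtain ⟨hB1, hB2, hB3, hB4⟩ := hBh
  have hBp : 0 < X * H ^ (-δ₁) := mul_pos hXpos (Real.rpow_pos_of_pos hHpos _)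
  have hablt : (a : ℝ) ≤ b := by linarith
  have hab' : a ≤ b := by exact_mod_cast hablt
  -- the short length
  obtain ⟨l, hl⟩ : ∃ l : ℕ, l = ⌊(L : ℝ) * H ^ (-(3 * δm))⌋₊ := ⟨_, rfl⟩
  have hLpos : (0 : ℝ) < L := lt_of_lt_of_le (Real.rpow_pos_of_pos hHpos _) hL1
  have hlL : (l : ℝ) ≤ L * H ^ (-(3 * δm)) := by
    rw [hl]
    exact Nat.floor_le (by positivity)
  have hl1 : H ^ (1 / 2 : ℝ) ≤ l := by
    have g1 : H ^ (1 / 2 : ℝ) * 2 ≤ L * H ^ (-(3 * δm)) := by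
      calc H ^ (1 / 2 : ℝ) * 2 ≤ H ^ (1 / 2 : ℝ) * H ^ (1 / 8 : ℝ) :=
            mul_le_mul_of_nonneg_left hH8 (by positivity)
        _ = H ^ (1 / 2 + 1 / 8 : ℝ) := by rw [← Real.rpow_add hHpos]
        _ ≤ H ^ (3 / 4 + -(3 * δm) : ℝ) :=
            Real.rpow_le_rpow_of_exponent_le hH1 (by linarith)
        _ = H ^ (3 / 4 : ℝ) * H ^ (-(3 * δm)) := Real.rpow_add hHpos _ _
        _ ≤ L * H ^ (-(3 * δm)) := mul_le_mul_of_nonneg_right hL1 (by positivity)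
    have g2 : 1 ≤ H ^ (1 / 2 : ℝ) := Real.one_le_rpow hH1 (by norm_num)
    have g3 : (L : ℝ) * H ^ (-(3 * δm)) < l + 1 := by
      rw [hl]
      exact Nat.lt_floor_add_one _
    linarith
  have hl0 : 0 < l := by
    have : (0 : ℝ) < l := lt_of_lt_of_le (Real.rpow_pos_of_pos hHpos _) hl1
    exact_mod_cast this
  have hHm3 : H ^ (-(3 * δm)) ≤ 1 := Real.rpow_le_one_of_one_le_of_nonpos hH1 (by linarith)
  have hlL' : (l : ℝ) ≤ L := hlL.trans (mul_le_of_le_one_right hLpos.le hHm3)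
  have hlLn : l ≤ L := by exact_mod_cast hlL'
  obtain ⟨K, hK⟩ : ∃ K : ℕ, K = L / l := ⟨_, rfl⟩
  have hKL : K * l ≤ L := by rw [hK]; exact Nat.div_mul_le_self L l
  have hR : L ≤ K * l + l := by
    rw [hK]
    have := Nat.lt_div_mul_add (a := L) hl0
    omega
  have hKLr : (K : ℝ) * l ≤ L := by exact_mod_cast hKL
  have h40 := hX4 X H hXX4 (by rw [← hY]; exact hHA4) hHθ a b hBh0 l q b' hl1 (hlL'.trans hL2) hq1
    (hq2.trans (Real.rpow_le_rpow_of_exponent_le hH1 hm4)) hcop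
  -- the second moment
  have hQ : (⌊H ^ (δ₁ / 20)⌋₊ : ℝ) ≤ H ^ (δm / 20) :=
    (Nat.floor_le (by positivity)).trans
      (Real.rpow_le_rpow_of_exponent_le hH1 (by linarith))
  have hS2 : ∑ n ∈ Finset.Ioc a b, fu r E (H ^ ε₂) (H ^ (1 / 4 : ℝ)) ⌊H ^ (δ₁ / 20)⌋₊ n ^ 2 ≤
      4 * C * (X * H ^ (-δ₁) * H ^ (δm / 10)) := by
    have hw0 : 1 ≤ H ^ (1 / 4 : ℝ) := Real.one_le_rpow hH1 (by norm_num)
    have hwX : H ^ (1 / 4 : ℝ) ≤ X := by
      calc H ^ (1 / 4 : ℝ) ≤ H ^ (1 : ℝ) :=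
            Real.rpow_le_rpow_of_exponent_le hH1 (by norm_num)
        _ = H := Real.rpow_one H
        _ ≤ X := hHX
    have hQX : (⌊H ^ (δ₁ / 20)⌋₊ : ℝ) ≤ X := by
      refine hQ.trans ?_
      calc H ^ (δm / 20) ≤ H ^ (1 : ℝ) := Real.rpow_le_rpow_of_exponent_le hH1 (by linarith)
        _ = H := Real.rpow_one H
        _ ≤ X := hHX
    have hlen : X ^ (1 - δs) ≤ (b : ℝ) - a := by
      have g1 : X ^ (-(δs / 2)) ≤ H ^ (-δ₁) := by
        calc X ^ (-(δs / 2)) ≤ X ^ (-δ₁) :=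
              Real.rpow_le_rpow_of_exponent_le hX1 (by linarith)
          _ ≤ H ^ (-δ₁) := Real.rpow_le_rpow_of_nonpos hHpos hHX (by linarith)
      have g2 : X ^ (1 - δs) * 2 ≤ X * H ^ (-δ₁) := by
        calc X ^ (1 - δs) * 2 ≤ X ^ (1 - δs) * X ^ (δs / 2) :=
              mul_le_mul_of_nonneg_left hXs (by positivity)
          _ = X ^ (1 + -(δs / 2)) := by
              rw [← Real.rpow_add hXpos]
              congr 1
              ring
          _ = X * X ^ (-(δs / 2)) := by rw [Real.rpow_add hXpos, Real.rpow_one]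
          _ ≤ X * H ^ (-δ₁) := mul_le_mul_of_nonneg_left g1 hXpos.le
      linarith
    obtain ⟨s1, _, s3⟩ := hS X (H ^ ε₂) (H ^ (1 / 4 : ℝ)) ⌊H ^ (δ₁ / 20)⌋₊ a b hX3' hw0 hwX hQX
      hab' hB2 hlen
    rw [← hY, Real.rpow_one] at s3
    rw [← hY] at s1
    have hpt : ∀ n ∈ Finset.Ioc a b,
        fu r E (H ^ ε₂) (H ^ (1 / 4 : ℝ)) ⌊H ^ (δ₁ / 20)⌋₊ n ^ 2 ≤
        2 * up r (H ^ ε₂) (H ^ (1 / 4 : ℝ)) n ^ 2 +
          2 * fs (Eu E (H ^ ε₂) (H ^ (1 / 4 : ℝ))) ⌊H ^ (δ₁ / 20)⌋₊ n ^ 2 := by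
      intro n _
      unfold fu
      nlinarith [sq_nonneg (up r (H ^ ε₂) (H ^ (1 / 4 : ℝ)) n +
        fs (Eu E (H ^ ε₂) (H ^ (1 / 4 : ℝ))) ⌊H ^ (δ₁ / 20)⌋₊ n)]
    refine (Finset.sum_le_sum hpt).trans ?_
    rw [Finset.sum_add_distrib, ← Finset.mul_sum, ← Finset.mul_sum]
    have hd0 : 0 ≤ (b : ℝ) - a := by linarith
    have hd1 : (b : ℝ) - a ≤ X * H ^ (-δ₁) := by linarith
    have hq1' : 1 ≤ H ^ (δm / 20) := Real.one_le_rpow hH1 (by linarith)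
    have g1 : C * ((b : ℝ) - a) * Y ^ C ≤ C * (X * H ^ (-δ₁)) * H ^ (δm / 20) :=
      mul_le_mul (mul_le_mul_of_nonneg_left hd1 hC.le) hYCH (by positivity) (by positivity)
    have g2 : C * ((b : ℝ) - a) * Y ^ C * (⌊H ^ (δ₁ / 20)⌋₊ : ℝ) ≤
        C * (X * H ^ (-δ₁)) * H ^ (δm / 20) * H ^ (δm / 20) :=
      mul_le_mul g1 hQ (by positivity) (by positivity)
    have g3 : C * (X * H ^ (-δ₁)) * H ^ (δm / 20) ≤
        C * (X * H ^ (-δ₁)) * H ^ (δm / 20) * H ^ (δm / 20) :=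
      le_mul_of_one_le_right (by positivity) hq1'
    have g4 : C * (X * H ^ (-δ₁)) * H ^ (δm / 20) * H ^ (δm / 20) =
        C * (X * H ^ (-δ₁) * H ^ (δm / 10)) := by
      have : H ^ (δm / 10) = H ^ (δm / 20) * H ^ (δm / 20) := by
        rw [← Real.rpow_add hHpos]
        congr 1
        ring
      rw [this]
      ring
    linarith
  obtain ⟨f, hf⟩ : ∃ f : ℕ → ℝ, f = fu r E (H ^ ε₂) (H ^ (1 / 4 : ℝ)) ⌊H ^ (δ₁ / 20)⌋₊ :=
    ⟨_, rfl⟩
  rw [← hf] at h40 hS2 ⊢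
  obtain ⟨β, hβ⟩ : ∃ β : ℝ, β = (b' : ℝ) / q := ⟨_, rfl⟩
  rw [← hβ] at h40 hγ
  obtain ⟨S2, hS2d⟩ : ∃ S2 : ℝ, S2 = ∑ n ∈ Finset.Ioc a b, f n ^ 2 := ⟨_, rfl⟩
  rw [← hS2d] at hS2
  have hS20 : 0 ≤ S2 := by
    rw [hS2d]
    exact Finset.sum_nonneg fun _ _ => sq_nonneg _
  -- the phase
  have hτ : (l : ℝ) * |γ - β| ≤ H ^ (-(2 * δm)) := by
    calc (l : ℝ) * |γ - β| ≤ (L * H ^ (-(3 * δm))) * (H ^ δm / L) :=
          mul_le_mul hlL hγ (abs_nonneg _) (by positivity)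
      _ = H ^ (-(3 * δm)) * H ^ δm := by field_simp
      _ = H ^ (-(2 * δm)) := by
          rw [← Real.rpow_add hHpos]
          congr 1
          ring
  obtain ⟨T, hT⟩ : ∃ T : ℝ, T = 2 * Real.pi * (l * |γ - β|) := ⟨_, rfl⟩
  have hT0 : 0 ≤ T := by rw [hT]; positivity
  have hT7 : T ≤ 7 * H ^ (-(2 * δm)) := by
    have hpi : 2 * Real.pi ≤ 7 := by
      have := Real.pi_lt_d2
      linarith
    rw [hT]
    exact mul_le_mul hpi hτ (by positivity) (by norm_num)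
  have hH4 : (H ^ (-(2 * δm))) ^ 2 = H ^ (-(4 * δm)) := by
    rw [← Real.rpow_natCast, ← Real.rpow_mul hHpos.le]
    congr 1
    push_cast
    ring
  have hT2 : T ^ 2 ≤ 49 * H ^ (-(4 * δm)) := by
    refine (pow_le_pow_left₀ hT0 hT7 2).trans (le_of_eq ?_)
    rw [mul_pow, hH4]
    norm_num
  have hl2 : (l : ℝ) ^ 2 ≤ L ^ 2 * H ^ (-(4 * δm)) := by
    have g1 : (l : ℝ) ≤ L * H ^ (-(2 * δm)) :=
      hlL.trans (mul_le_mul_of_nonneg_left
        (Real.rpow_le_rpow_of_exponent_le hH1 (by linarith)) hLpos.le)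
    refine (pow_le_pow_left₀ (Nat.cast_nonneg l) g1 2).trans (le_of_eq ?_)
    rw [mul_pow, hH4]
  -- pointwise
  have hpt : ∀ x ∈ Finset.Icc (a + L) b, ‖ws f γ L x‖ ^ 2 ≤
      2 * K * ∑ i ∈ Finset.range K, ‖ws f β l (x - i * l)‖ ^ 2 +
        (4 * T ^ 2 * (L * ∑ n ∈ Finset.Ioc (x - 0 - L) (x - 0), f n ^ 2) +
          4 * (l * ∑ n ∈ Finset.Ioc (x - K * l - (L - K * l)) (x - K * l), f n ^ 2)) := by
    intro x hx
    have hx' := Finset.mem_Icc.mp hx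
    have g0 := pointwise f γ β l K L x hKL (by omega)
    rw [← hT] at g0
    have g1 := IK11.sq_bound (fun i => ‖ws f β l (x - i * l)‖) _ _ (norm_nonneg _) g0
    refine g1.trans (add_le_add le_rfl ?_)
    have g2 := cs f (x - L) x L (by omega)
    have g3 := cs f (x - L) (x - K * l) l (by omega)
    have g4 : x - 0 - L = x - L := by omega
    have g5 : x - K * l - (L - K * l) = x - L := by omega
    rw [g4, g5, Nat.sub_zero]
    obtain ⟨P, hP⟩ : ∃ P : ℝ, P = ∑ n ∈ Finset.Ioc (x - L) x, |f n| := ⟨_, rfl⟩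
    obtain ⟨Q, hQ⟩ : ∃ Q : ℝ, Q = ∑ n ∈ Finset.Ioc (x - L) (x - K * l), |f n| := ⟨_, rfl⟩
    rw [← hP] at g2 ⊢
    rw [← hQ] at g3 ⊢
    have g6 : T ^ 2 * P ^ 2 ≤ T ^ 2 * (L * ∑ n ∈ Finset.Ioc (x - L) x, f n ^ 2) :=
      mul_le_mul_of_nonneg_left g2 (sq_nonneg _)
    have g7 : (T * P + Q) ^ 2 ≤ 2 * (T ^ 2 * P ^ 2) + 2 * Q ^ 2 := by
      nlinarith [sq_nonneg (T * P - Q)]
    linarith
  refine (Finset.sum_le_sum hpt).trans ?_
  rw [Finset.sum_add_distrib, Finset.sum_add_distrib, ← Finset.mul_sum, ← Finset.mul_sum,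
    ← Finset.mul_sum, ← Finset.mul_sum, ← Finset.mul_sum, Finset.sum_comm]
  have hmain : ∑ i ∈ Finset.range K, ∑ x ∈ Finset.Icc (a + L) b, ‖ws f β l (x - i * l)‖ ^ 2 ≤
      K * ((l : ℝ) ^ 2 * X * H ^ (-δ₁ - δ₁ / 70)) := by
    have g1 : ∀ i ∈ Finset.range K, ∑ x ∈ Finset.Icc (a + L) b, ‖ws f β l (x - i * l)‖ ^ 2 ≤
        (l : ℝ) ^ 2 * X * H ^ (-δ₁ - δ₁ / 70) := by
      intro i hi
      have hi' : i + 1 ≤ K := Finset.mem_range.mp hi
      have h7 : (i + 1) * l ≤ K * l := Nat.mul_le_mul_right l hi'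
      have h8 : (i + 1) * l = i * l + l := by ring
      exact (IK11.shift_sum (fun y => ‖ws f β l y‖ ^ 2) (fun y => by positivity) a b L l (i * l)
        (by omega)).trans h40
    refine (Finset.sum_le_sum g1).trans (le_of_eq ?_)
    rw [Finset.sum_const, Finset.card_range, nsmul_eq_mul]
  have w1 := win_sum (fun n => f n ^ 2) (fun n => sq_nonneg _) a b L 0 L (by omega)
  have w2 := win_sum (fun n => f n ^ 2) (fun n => sq_nonneg _) a b L (K * l) (L - K * l) (by omega)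
  rw [← hS2d] at w1 w2
  have hLK : ((L - K * l : ℕ) : ℝ) ≤ l := by
    have : L - K * l ≤ l := by omega
    exact_mod_cast this
  have w2' : ∑ x ∈ Finset.Icc (a + L) b,
      ∑ n ∈ Finset.Ioc (x - K * l - (L - K * l)) (x - K * l), f n ^ 2 ≤ l * S2 :=
    w2.trans (mul_le_mul_of_nonneg_right hLK hS20)
  have hP : 0 < X * H ^ (-δ₁ - δ₁ / 70) := mul_pos hXpos (Real.rpow_pos_of_pos hHpos _)
  have hL2p : (0 : ℝ) ≤ (L : ℝ) ^ 2 := by positivity
  have hKl2 : ((K : ℝ) * l) ^ 2 ≤ (L : ℝ) ^ 2 := pow_le_pow_left₀ (by positivity) hKLr 2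
  have hA : 2 * (K : ℝ) * ∑ i ∈ Finset.range K, ∑ x ∈ Finset.Icc (a + L) b,
      ‖ws f β l (x - i * l)‖ ^ 2 ≤ (L : ℝ) ^ 2 * (2 * (X * H ^ (-δ₁ - δ₁ / 70))) := by
    calc 2 * (K : ℝ) * ∑ i ∈ Finset.range K, ∑ x ∈ Finset.Icc (a + L) b,
          ‖ws f β l (x - i * l)‖ ^ 2 ≤
          2 * (K : ℝ) * (K * ((l : ℝ) ^ 2 * X * H ^ (-δ₁ - δ₁ / 70))) :=
            mul_le_mul_of_nonneg_left hmain (by positivity)
      _ = ((K : ℝ) * l) ^ 2 * (2 * (X * H ^ (-δ₁ - δ₁ / 70))) := by ring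
      _ ≤ _ := mul_le_mul_of_nonneg_right hKl2 (by positivity)
  have hB : 4 * T ^ 2 * (L * ∑ x ∈ Finset.Icc (a + L) b,
      ∑ n ∈ Finset.Ioc (x - 0 - L) (x - 0), f n ^ 2) ≤
      (L : ℝ) ^ 2 * (196 * H ^ (-(4 * δm)) * S2) := by
    calc 4 * T ^ 2 * (L * ∑ x ∈ Finset.Icc (a + L) b,
          ∑ n ∈ Finset.Ioc (x - 0 - L) (x - 0), f n ^ 2) ≤
          4 * (49 * H ^ (-(4 * δm))) * (L * (L * S2)) :=
            mul_le_mul (mul_le_mul_of_nonneg_left hT2 (by norm_num))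
              (mul_le_mul_of_nonneg_left w1 hLpos.le)
              (mul_nonneg hLpos.le (Finset.sum_nonneg fun _ _ =>
                Finset.sum_nonneg fun _ _ => sq_nonneg _)) (by positivity)
      _ = _ := by ring
  have hD : 4 * (l * ∑ x ∈ Finset.Icc (a + L) b,
      ∑ n ∈ Finset.Ioc (x - K * l - (L - K * l)) (x - K * l), f n ^ 2) ≤
      (L : ℝ) ^ 2 * (4 * H ^ (-(4 * δm)) * S2) := by
    calc 4 * (l * ∑ x ∈ Finset.Icc (a + L) b,
          ∑ n ∈ Finset.Ioc (x - K * l - (L - K * l)) (x - K * l), f n ^ 2) ≤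
          4 * ((l : ℝ) * (l * S2)) :=
            mul_le_mul_of_nonneg_left (mul_le_mul_of_nonneg_left w2' (Nat.cast_nonneg l))
              (by norm_num)
      _ = (l : ℝ) ^ 2 * (4 * S2) := by ring
      _ ≤ L ^ 2 * H ^ (-(4 * δm)) * (4 * S2) := mul_le_mul_of_nonneg_right hl2 (by positivity)
      _ = _ := by ring
  have hfin1 : 4 * H ^ (-δ₁ - δ₁ / 70) ≤ H ^ (-δ₁ - δ₁ / 80) := by
    have g1 : H ^ (-δ₁ - δ₁ / 80) = H ^ (δ₁ / 70 - δ₁ / 80) * H ^ (-δ₁ - δ₁ / 70) := by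
      rw [← Real.rpow_add hHpos]
      congr 1
      ring
    rw [g1]
    exact mul_le_mul_of_nonneg_right hH70 (Real.rpow_pos_of_pos hHpos _).le
  have hfin2 : 1600 * C * (H ^ (-(4 * δm)) * (H ^ (-δ₁) * H ^ (δm / 10))) ≤
      H ^ (-δ₁ - δ₁ / 80) := by
    have g1 : 1600 * C * (H ^ (-(4 * δm)) * (H ^ (-δ₁) * H ^ (δm / 10))) ≤
        H ^ (3 * δm) * (H ^ (-(4 * δm)) * (H ^ (-δ₁) * H ^ (δm / 10))) :=
      mul_le_mul_of_nonneg_right hHC (by positivity)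
    refine g1.trans ?_
    rw [← Real.rpow_add hHpos, ← Real.rpow_add hHpos, ← Real.rpow_add hHpos]
    exact Real.rpow_le_rpow_of_exponent_le hH1 (by linarith)
  have hsum : 2 * (X * H ^ (-δ₁ - δ₁ / 70)) + (196 * H ^ (-(4 * δm)) * S2 +
      4 * H ^ (-(4 * δm)) * S2) ≤ X * H ^ (-δ₁ - δ₁ / 80) := by
    have g1 : X * (4 * H ^ (-δ₁ - δ₁ / 70)) ≤ X * H ^ (-δ₁ - δ₁ / 80) :=
      mul_le_mul_of_nonneg_left hfin1 hXpos.le
    have g2 : H ^ (-(4 * δm)) * S2 ≤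
        H ^ (-(4 * δm)) * (4 * C * (X * H ^ (-δ₁) * H ^ (δm / 10))) :=
      mul_le_mul_of_nonneg_left hS2 (by positivity)
    have g3 : X * (1600 * C * (H ^ (-(4 * δm)) * (H ^ (-δ₁) * H ^ (δm / 10)))) ≤
        X * H ^ (-δ₁ - δ₁ / 80) := mul_le_mul_of_nonneg_left hfin2 hXpos.le
    have g4 : H ^ (-(4 * δm)) * (4 * C * (X * H ^ (-δ₁) * H ^ (δm / 10))) * 400 =
        X * (1600 * C * (H ^ (-(4 * δm)) * (H ^ (-δ₁) * H ^ (δm / 10)))) := by ring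
    linarith
  have hall := mul_le_mul_of_nonneg_left hsum hL2p
  have e1 : (L : ℝ) ^ 2 * (X * H ^ (-δ₁ - δ₁ / 80)) = (L : ℝ) ^ 2 * X * H ^ (-δ₁ - δ₁ / 80) := by
    ring
  rw [e1] at hall
  refine le_trans ?_ hall
  rw [mul_add, mul_add]
  exact add_le_add hA (add_le_add hB hD)

end Pool.Agent.Work.MP_122e00_nt.TS
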