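import Mathlib
import Pool.Agent.Work.MP_122e00_nt.TS.Stmts7
import Pool.Agent.Work.MP_122e00_nt.TS.I_V3

/-!
# Thin shifts, item K12: medium variable with coefficients, minor arcs
(on top of the lemmas of `TS/I_V3.lean`)
-/

namespace Pool.Agent.Work.MP_122e00_nt.TS

open Finset Filter Topology ArithmeticFunction MeasureTheory
open scoped ArithmeticFunction.zeta ArithmeticFunction.Moebius ComplexConjugate

open IV3

namespace IK12

theorem split (A A' L Z : ℕ) (γ : ℝ) (B c : ℕ → ℝ) (hA : 1 ≤ A) (x : ℕ) (hLx : L ≤ x)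
    (hxZ : x ≤ Z) :
    ws (fun n => ∑ m ∈ n.divisors.filter (fun m => A * m < n ∧ n ≤ A' * m),
      c (n / m) * B m) γ L x = ∑ a ∈ Finset.Ioc A A', (c a : ℂ) * TT B γ L (Z / A) a x := by
  unfold ws TT
  simp only [Complex.ofReal_sum, Finset.sum_mul, Complex.ofReal_mul]
  simp only [← Finset.sum_filter, Finset.mul_sum]
  rw [Finset.sum_sigma', Finset.sum_sigma']
  refine Finset.sum_nbij' (fun p => ⟨p.1 / p.2, p.2⟩) (fun p => ⟨p.1 * p.2, p.2⟩) ?_ ?_ ?_ ?_ ?_
  · rintro ⟨n, m⟩ hp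
    simp only [Finset.mem_sigma, Finset.mem_Ioc, Finset.mem_filter, Nat.mem_divisors,
      Finset.mem_Icc] at hp ⊢
    obtain ⟨⟨h1, h2⟩, ⟨⟨k, rfl⟩, h4⟩, h5, h6⟩ := hp
    have hm : 0 < m := by
      rcases Nat.eq_zero_or_pos m with h | h
      · subst h
        simp at h4
      · exact h
    rw [Nat.mul_div_cancel_left k hm]
    have h5' : A < k := by
      have : m * A < m * k := by rw [mul_comm m A]; exact h5
      exact Nat.lt_of_mul_lt_mul_left this
    have h6' : k ≤ A' := by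
      have : m * k ≤ m * A' := by rw [mul_comm m A']; exact h6
      exact Nat.le_of_mul_le_mul_left this hm
    refine ⟨⟨h5', h6'⟩, ⟨hm, ?_⟩, ?_, ?_⟩
    · rw [Nat.le_div_iff_mul_le (by omega)]
      rw [mul_comm A m] at h5
      omega
    · rw [mul_comm k m]
      exact h2
    · rw [mul_comm k m]
      omega
  · rintro ⟨a, m⟩ hp
    simp only [Finset.mem_sigma, Finset.mem_Ioc, Finset.mem_filter, Nat.mem_divisors,
      Finset.mem_Icc] at hp ⊢
    obtain ⟨⟨h1, h2⟩, ⟨h3, h4⟩, h5, h6⟩ := hp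
    have h7 : 0 < a * m := Nat.mul_pos (by omega) (by omega)
    refine ⟨⟨by omega, h5⟩, ⟨Dvd.intro_left a rfl, by omega⟩, ?_, ?_⟩
    · exact Nat.mul_lt_mul_of_pos_right h1 (by omega)
    · exact Nat.mul_le_mul_right m h2
  · rintro ⟨n, m⟩ hp
    simp only [Finset.mem_sigma, Finset.mem_Ioc, Finset.mem_filter, Nat.mem_divisors] at hp
    obtain ⟨-, ⟨h3, h4⟩, -⟩ := hp
    simp only [Nat.div_mul_cancel h3]
  · rintro ⟨a, m⟩ hp
    simp only [Finset.mem_sigma, Finset.mem_Ioc, Finset.mem_filter, Finset.mem_Icc] at hp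
    simp only [Nat.mul_div_cancel a (show 0 < m by omega)]
  · rintro ⟨n, m⟩ hp
    simp only [Finset.mem_sigma, Finset.mem_Ioc, Finset.mem_filter, Nat.mem_divisors] at hp
    obtain ⟨-, ⟨h3, h4⟩, -⟩ := hp
    simp only [Nat.div_mul_cancel h3, mul_assoc]

end IK12

theorem prK12 (hGS : tsGS) (hL2 : tsL2) : tsK12 := by
  refine ⟨13, by norm_num, ?_⟩
  intro A A' L q Z b γ D B c hA hAA hA2 hAL hq hb hγ hB hc
  have hD : 0 ≤ D := le_trans (abs_nonneg _) (hB 0)
  have hA0 : (0 : ℝ) < A := by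
    have : (1 : ℝ) ≤ A := by exact_mod_cast hA
    linarith
  have hL0 : (0 : ℝ) < L := by
    have : (A : ℝ) ≤ L := by exact_mod_cast hAL
    linarith
  have hq0 : (0 : ℝ) < q := by
    have : (1 : ℝ) ≤ q := by exact_mod_cast hq
    linarith
  have hlq : 0 ≤ Real.log q := Real.log_natCast_nonneg q
  set M := Z / A with hM
  set N := Z + 1 + A' * M + L with hN
  set J := L / A with hJ
  -- Cauchy
  have s1 : ∑ x ∈ Finset.Icc L Z, ‖ws (fun n => ∑ m ∈ n.divisors.filter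
      (fun m => A * m < n ∧ n ≤ A' * m), c (n / m) * B m) γ L x‖ ^ 2 ≤
      A * ∑ a ∈ Finset.Ioc A A', ∑ x ∈ Finset.range N, ‖TT B γ L M a x‖ ^ 2 := by
    calc ∑ x ∈ Finset.Icc L Z, ‖ws (fun n => ∑ m ∈ n.divisors.filter
          (fun m => A * m < n ∧ n ≤ A' * m), c (n / m) * B m) γ L x‖ ^ 2
        ≤ ∑ x ∈ Finset.Icc L Z, (A : ℝ) * ∑ a ∈ Finset.Ioc A A', ‖TT B γ L M a x‖ ^ 2 := by
          refine Finset.sum_le_sum fun x hx => ?_
          rw [Finset.mem_Icc] at hx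
          rw [IK12.split A A' L Z γ B c hA x hx.1 hx.2]
          have t0 : ‖∑ a ∈ Finset.Ioc A A', (c a : ℂ) * TT B γ L M a x‖ ≤
              ∑ a ∈ Finset.Ioc A A', ‖TT B γ L M a x‖ := by
            refine le_trans (norm_sum_le _ _) (Finset.sum_le_sum fun a _ => ?_)
            rw [norm_mul, Complex.norm_real, Real.norm_eq_abs]
            exact mul_le_of_le_one_left (norm_nonneg _) (hc a)
          have t1 : ‖∑ a ∈ Finset.Ioc A A', (c a : ℂ) * TT B γ L M a x‖ ^ 2 ≤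
              (∑ a ∈ Finset.Ioc A A', ‖TT B γ L M a x‖) ^ 2 :=
            pow_le_pow_left₀ (norm_nonneg _) t0 2
          have t2 : (∑ a ∈ Finset.Ioc A A', ‖TT B γ L M a x‖) ^ 2 ≤
              (Finset.Ioc A A').card * ∑ a ∈ Finset.Ioc A A', ‖TT B γ L M a x‖ ^ 2 :=
            sq_sum_le_card_mul_sum_sq
          have t3 : ((Finset.Ioc A A').card : ℝ) ≤ A := by
            rw [Nat.card_Ioc]
            have : A' - A ≤ A := by omega
            exact_mod_cast this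
          exact le_trans t1 (le_trans t2 (mul_le_mul_of_nonneg_right t3
            (Finset.sum_nonneg fun a _ => by positivity)))
      _ = A * ∑ x ∈ Finset.Icc L Z, ∑ a ∈ Finset.Ioc A A', ‖TT B γ L M a x‖ ^ 2 := by
          rw [Finset.mul_sum]
      _ ≤ A * ∑ x ∈ Finset.range N, ∑ a ∈ Finset.Ioc A A', ‖TT B γ L M a x‖ ^ 2 := by
          refine mul_le_mul_of_nonneg_left ?_ hA0.le
          refine Finset.sum_le_sum_of_subset_of_nonneg ?_
            fun x _ _ => Finset.sum_nonneg fun a _ => by positivity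
          intro x hx
          rw [Finset.mem_Icc] at hx
          rw [Finset.mem_range]
          omega
      _ = A * ∑ a ∈ Finset.Ioc A A', ∑ x ∈ Finset.range N, ‖TT B γ L M a x‖ ^ 2 := by
          rw [Finset.sum_comm]
  -- expansion
  have s2 : ∑ a ∈ Finset.Ioc A A', ∑ x ∈ Finset.range N, ‖TT B γ L M a x‖ ^ 2 ≤
      D ^ 2 * ∑ m ∈ Finset.Icc 1 M, ∑ m' ∈ Finset.Icc 1 M, GG A L γ ((m - m') + (m' - m)) := by
    have t0 : 0 ≤ ∑ a ∈ Finset.Ioc A A', ∑ x ∈ Finset.range N, ‖TT B γ L M a x‖ ^ 2 :=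
      Finset.sum_nonneg fun a _ => Finset.sum_nonneg fun x _ => by positivity
    have t1 : ((∑ a ∈ Finset.Ioc A A', ∑ x ∈ Finset.range N, ‖TT B γ L M a x‖ ^ 2 : ℝ) : ℂ) =
        ∑ m ∈ Finset.Icc 1 M, ∑ m' ∈ Finset.Icc 1 M, (B m : ℂ) * (B m' : ℂ) *
          ∑ a ∈ Finset.Ioc A A', (((L - a * ((m - m') + (m' - m)) : ℕ) : ℂ) *
          (ee (((a * m : ℕ) : ℝ) * γ) * conj (ee (((a * m' : ℕ) : ℝ) * γ)))) := by
      rw [Complex.ofReal_sum]
      have t2 : ∀ a ∈ Finset.Ioc A A',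
          ((∑ x ∈ Finset.range N, ‖TT B γ L M a x‖ ^ 2 : ℝ) : ℂ) =
          ∑ m ∈ Finset.Icc 1 M, ∑ m' ∈ Finset.Icc 1 M, (B m : ℂ) * (B m' : ℂ) *
          (((L - a * ((m - m') + (m' - m)) : ℕ) : ℂ) *
            (ee (((a * m : ℕ) : ℝ) * γ) * conj (ee (((a * m' : ℕ) : ℝ) * γ)))) := by
        intro a ha
        rw [Finset.mem_Ioc] at ha
        refine sq_sum B γ L M a N ?_
        have : a * M ≤ A' * M := Nat.mul_le_mul_right M ha.2
        omega
      rw [Finset.sum_congr rfl t2, Finset.sum_comm]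
      refine Finset.sum_congr rfl fun m _ => ?_
      rw [Finset.sum_comm]
      refine Finset.sum_congr rfl fun m' _ => ?_
      rw [Finset.mul_sum]
    have t3 : ∑ a ∈ Finset.Ioc A A', ∑ x ∈ Finset.range N, ‖TT B γ L M a x‖ ^ 2 =
        ‖((∑ a ∈ Finset.Ioc A A', ∑ x ∈ Finset.range N, ‖TT B γ L M a x‖ ^ 2 : ℝ) : ℂ)‖ := by
      rw [Complex.norm_real, Real.norm_eq_abs, abs_of_nonneg t0]
    rw [t3, t1, Finset.mul_sum]
    refine le_trans (norm_sum_le _ _) (Finset.sum_le_sum fun m _ => ?_)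
    rw [Finset.mul_sum]
    refine le_trans (norm_sum_le _ _) (Finset.sum_le_sum fun m' _ => ?_)
    rw [norm_mul, norm_mul, Complex.norm_real, Complex.norm_real, Real.norm_eq_abs,
      Real.norm_eq_abs]
    have t4 : |B m| * |B m'| ≤ D ^ 2 := by
      rw [sq]
      exact mul_le_mul (hB m) (hB m') (abs_nonneg _) hD
    exact mul_le_mul t4 (pairmm hGS A A' L γ m m' hA hAA hA2) (norm_nonneg _) (by positivity)
  have s3 : ∑ m ∈ Finset.Icc 1 M, ∑ m' ∈ Finset.Icc 1 M, GG A L γ ((m - m') + (m' - m)) ≤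
      M * (L * (A + 2 * ((J / q + 1 : ℕ) * (6 * (A + q * (1 + Real.log q)))))) := by
    have t1 : ∀ m ∈ Finset.Icc 1 M, ∑ m' ∈ Finset.Icc 1 M, GG A L γ ((m - m') + (m' - m)) ≤
        L * (A + 2 * ((J / q + 1 : ℕ) * (6 * (A + q * (1 + Real.log q))))) := by
      intro m _
      refine le_trans (sumone M J m (GG A L γ) (GG_nonneg A L γ) ?_) ?_
      · intro j hj
        unfold GG
        rw [if_pos hj]
      · have u1 : GG A L γ 0 ≤ L * A := by
          unfold GG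
          rw [if_neg (Nat.not_lt_zero _)]
          exact mul_le_mul_of_nonneg_left (bj_le _ _ _) hL0.le
        have u2 : ∑ j ∈ Finset.Icc 1 J, GG A L γ j ≤ L * ∑ j ∈ Finset.Ioc 0 ((J / q + 1) * q),
            bj A γ j := by
          rw [Finset.mul_sum]
          have u3 : ∑ j ∈ Finset.Icc 1 J, GG A L γ j ≤ ∑ j ∈ Finset.Icc 1 J, L * bj A γ j := by
            refine Finset.sum_le_sum fun j _ => ?_
            unfold GG
            split_ifs
            · exact mul_nonneg hL0.le (bj_nonneg _ _ _)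
            · exact le_rfl
          refine le_trans u3 (Finset.sum_le_sum_of_subset_of_nonneg ?_
            fun j _ _ => mul_nonneg hL0.le (bj_nonneg _ _ _))
          intro j hj
          rw [Finset.mem_Icc] at hj
          rw [Finset.mem_Ioc]
          refine ⟨by omega, ?_⟩
          have u4 : J < (J / q + 1) * q := by
            have := Nat.lt_div_mul_add (a := J) (b := q) (by omega)
            rw [add_mul, one_mul]
            exact this
          omega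
        have u5 := blocks hL2 A q b γ hq hb hγ (J / q + 1)
        have u6 := mul_le_mul_of_nonneg_left u5 hL0.le
        linarith
    refine le_trans (Finset.sum_le_sum t1) ?_
    rw [Finset.sum_const, Nat.card_Icc, nsmul_eq_mul]
    simp
  have s4 : ((J / q + 1 : ℕ) : ℝ) ≤ L / (A * q) + 1 := by
    push_cast
    have t1 : ((J / q : ℕ) : ℝ) ≤ (J : ℝ) / q := Nat.cast_div_le
    have t2 : ((J : ℕ) : ℝ) ≤ (L : ℝ) / A := Nat.cast_div_le
    have t3 : (J : ℝ) / q ≤ (L : ℝ) / A / q := div_le_div_of_nonneg_right t2 hq0.le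
    rw [div_div] at t3
    linarith
  have s5 : (M : ℝ) * A ≤ Z := by
    have : M * A ≤ Z := Nat.div_mul_le_self Z A
    exact_mod_cast this
  set ℓ := 1 + Real.log q with hℓ
  have hℓ1 : 1 ≤ ℓ := by linarith
  have s6 : (L : ℝ) * (A + 2 * ((J / q + 1 : ℕ) * (6 * (A + q * ℓ)))) ≤
      13 * (L : ℝ) ^ 2 * ℓ * (1 / (A : ℝ) + (A : ℝ) / L + 1 / (q : ℝ) + (q : ℝ) / L) := by
    have t1 : (L : ℝ) * (A + 2 * ((J / q + 1 : ℕ) * (6 * (A + q * ℓ)))) ≤
        (L : ℝ) * (A + 2 * ((L / (A * q) + 1) * (6 * (A + q * ℓ)))) := by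
      have : (0 : ℝ) ≤ 6 * (A + q * ℓ) := by positivity
      have := mul_le_mul_of_nonneg_right s4 this
      refine mul_le_mul_of_nonneg_left ?_ hL0.le
      linarith
    refine le_trans t1 ?_
    have t2 : (L : ℝ) * (A + 2 * ((L / (A * q) + 1) * (6 * (A + q * ℓ)))) =
        (L : ℝ) ^ 2 * (13 * ((A : ℝ) / L) + 12 * (1 / (q : ℝ)) + 12 * (ℓ * (1 / (A : ℝ))) +
          12 * (ℓ * ((q : ℝ) / L))) := by
      field_simp
      ring
    rw [t2]
    have v1 : (A : ℝ) / L ≤ ℓ * ((A : ℝ) / L) := le_mul_of_one_le_left (by positivity) hℓ1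
    have v2 : 1 / (q : ℝ) ≤ ℓ * (1 / (q : ℝ)) := le_mul_of_one_le_left (by positivity) hℓ1
    have v3 : 0 ≤ ℓ * (1 / (A : ℝ)) := by positivity
    have v4 : 0 ≤ ℓ * ((q : ℝ) / L) := by positivity
    have v5 : 0 ≤ ℓ * (1 / (q : ℝ)) := by positivity
    have t3 : 13 * (L : ℝ) ^ 2 * ℓ * (1 / (A : ℝ) + (A : ℝ) / L + 1 / (q : ℝ) + (q : ℝ) / L) =
        (L : ℝ) ^ 2 * (13 * (ℓ * ((A : ℝ) / L)) + 13 * (ℓ * (1 / (q : ℝ))) +
          13 * (ℓ * (1 / (A : ℝ))) + 13 * (ℓ * ((q : ℝ) / L))) := by ring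
    rw [t3]
    refine mul_le_mul_of_nonneg_left ?_ (by positivity)
    linarith
  calc ∑ x ∈ Finset.Icc L Z, ‖ws (fun n => ∑ m ∈ n.divisors.filter
        (fun m => A * m < n ∧ n ≤ A' * m), c (n / m) * B m) γ L x‖ ^ 2
      ≤ A * ∑ a ∈ Finset.Ioc A A', ∑ x ∈ Finset.range N, ‖TT B γ L M a x‖ ^ 2 := s1
    _ ≤ A * (D ^ 2 * (M * (L * (A + 2 * ((J / q + 1 : ℕ) * (6 * (A + q * ℓ))))))) := by
        refine mul_le_mul_of_nonneg_left (le_trans s2 ?_) hA0.le
        exact mul_le_mul_of_nonneg_left s3 (by positivity)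
    _ = (M * A) * (D ^ 2 * (L * (A + 2 * ((J / q + 1 : ℕ) * (6 * (A + q * ℓ)))))) := by ring
    _ ≤ Z * (D ^ 2 * (13 * (L : ℝ) ^ 2 * ℓ *
          (1 / (A : ℝ) + (A : ℝ) / L + 1 / (q : ℝ) + (q : ℝ) / L))) := by
        refine mul_le_mul s5 (mul_le_mul_of_nonneg_left s6 (by positivity)) ?_ (by positivity)
        positivity
    _ = 13 * D ^ 2 * Z * (L : ℝ) ^ 2 * ℓ *
          (1 / (A : ℝ) + (A : ℝ) / L + 1 / (q : ℝ) + (q : ℝ) / L) := by ring

end Pool.Agent.Work.MP_122e00_nt.TS
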