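import Mathlib
import Pool.Agent.Work.MP_122e00_nt.TS.Stmts7
import Pool.Agent.Work.MP_122e00_nt.TS.I_U6

/-!
# MP_122e00_nt, block TS, item K14: windows of a model on the minor arcs
-/

set_option autoImplicit false

namespace Pool.Agent.Work.MP_122e00_nt.TS

open Finset ArithmeticFunction

namespace IK14

/-- value plus variation, also at `0` -/
theorem var0 (d : ℕ) (C : ℝ) (hC : 0 < C)
    (hvar : ∀ (p : Polynomial ℝ) (M Z : ℝ) (N : ℕ),
      p.natDegree ≤ d → (∀ j, |p.coeff j| ≤ M) → 1 ≤ N → (N : ℝ) ≤ Z →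
      |p.eval (Real.log N)| + ∑ n ∈ Finset.Ico 1 N, |p.eval (Real.log ((n + 1 : ℕ) : ℝ)) -
        p.eval (Real.log n)| ≤ C * M * (1 + Real.log Z) ^ (2 * d))
    (p : Polynomial ℝ) (M Z : ℝ) (N : ℕ) (hp : p.natDegree ≤ d) (hM : ∀ j, |p.coeff j| ≤ M)
    (hZ : 1 ≤ Z) (hN : (N : ℝ) ≤ Z) :
    |p.eval (Real.log N)| + ∑ n ∈ Finset.Ico 1 N, |p.eval (Real.log ((n + 1 : ℕ) : ℝ)) -
        p.eval (Real.log n)| ≤ (C + 1) * M * (1 + Real.log Z) ^ (2 * d) := by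
  have hM0 : 0 ≤ M := (abs_nonneg _).trans (hM 0)
  have hlog : 0 ≤ Real.log Z := Real.log_nonneg hZ
  have h1 : (1 : ℝ) ≤ (1 + Real.log Z) ^ (2 * d) := one_le_pow₀ (by linarith)
  rcases Nat.eq_zero_or_pos N with h0 | h0
  · subst h0
    have e1 : p.eval (Real.log ((0 : ℕ) : ℝ)) = p.coeff 0 := by
      rw [Nat.cast_zero, Real.log_zero, Polynomial.coeff_zero_eq_eval_zero]
    rw [e1]
    have e2 : Finset.Ico 1 0 = (∅ : Finset ℕ) := by simp
    rw [e2, Finset.sum_empty, add_zero]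
    refine (hM 0).trans ?_
    have h2 : M * 1 ≤ (C + 1) * M * (1 + Real.log Z) ^ (2 * d) :=
      mul_le_mul (by nlinarith) h1 zero_le_one (by positivity)
    linarith
  · refine (hvar p M Z N hp hM h0 hN).trans ?_
    refine mul_le_mul_of_nonneg_right ?_ (by positivity)
    nlinarith

end IK14

theorem prK14 (hE1 : tsE1) (hF1 : tsF1) (hF2 : tsF2) : tsK14 := by
  intro r δ₂ hr hδ₂
  obtain ⟨CV, hCV, hvar⟩ := IU6.var hF2 (r - 1)
  obtain ⟨KL, hKL0, hKL⟩ := IF5.log_pow (2 * (r - 1)) (δ₂ / 16) (by positivity)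
  set K2 : ℝ := (2 : ℝ) ^ (δ₂ / 16) with hK2
  have hK2pos : 0 < K2 := Real.rpow_pos_of_pos (by norm_num) _
  set R1 : ℝ := ((r - 1 : ℕ) : ℝ) + 1 with hR1
  have hR1pos : 0 < R1 := by positivity
  obtain ⟨Xa, hXa⟩ := IU6.big 2 (δ₂ / 2) (by positivity)
  obtain ⟨Xb, hXb⟩ := IU6.big (4 * ((CV + 1) * R1 * (KL * K2))) (δ₂ / 16) (by positivity)
  refine ⟨max 1 (max Xa Xb), fun E' M X γ Q x L q b' hX hM hdeg hcoef hQ hLx hx3 hq1 hq2 hcop
    hγ => ?_⟩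
  simp only [max_le_iff] at hX
  obtain ⟨hX1, hXa', hXb'⟩ := hX
  have hX0 : 0 < X := by linarith
  have mono : ∀ u v : ℝ, u ≤ v → X ^ u ≤ X ^ v := fun u v h =>
    Real.rpow_le_rpow_of_exponent_le hX1 h
  have pos : ∀ u : ℝ, 0 < X ^ u := fun u => Real.rpow_pos_of_pos hX0 u
  have mulX : ∀ u v : ℝ, X ^ u * X ^ v = X ^ (u + v) := fun u v => (Real.rpow_add hX0 u v).symm
  have hq2Q : 2 * Q ≤ q := by
    have h1 : (2 : ℝ) * Q ≤ q := by
      calc (2 : ℝ) * Q ≤ X ^ (δ₂ / 2) * X ^ (δ₂ / 8) :=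
            mul_le_mul (hXa X hXa') hQ (Nat.cast_nonneg _) (pos _).le
        _ = X ^ (δ₂ / 2 + δ₂ / 8) := mulX _ _
        _ ≤ X ^ δ₂ := mono _ _ (by linarith)
        _ ≤ q := hq1
    exact_mod_cast h1
  have hQ3 : (Q : ℝ) ^ 3 ≤ X ^ (3 * δ₂ / 8) := by
    calc (Q : ℝ) ^ 3 ≤ (X ^ (δ₂ / 8)) ^ 3 := pow_le_pow_left₀ (Nat.cast_nonneg _) hQ 3
      _ = X ^ (3 * δ₂ / 8) := by
        rw [← Real.rpow_natCast, ← Real.rpow_mul hX0.le]
        congr 1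
        push_cast
        ring
  have hlog : (1 + Real.log (3 * X)) ^ (2 * (r - 1)) ≤ KL * (K2 * X ^ (δ₂ / 16)) := by
    have h3 : 0 ≤ Real.log (3 * X) := Real.log_nonneg (by linarith)
    have h5 : (1 + Real.log (3 * X)) ^ (2 * (r - 1)) ≤
        (1 + Real.log (2 * (2 * X))) ^ (2 * (r - 1)) := by
      refine pow_le_pow_left₀ (by linarith) ?_ _
      have : Real.log (3 * X) ≤ Real.log (2 * (2 * X)) :=
        Real.log_le_log (by linarith) (by linarith)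
      linarith
    refine h5.trans ((hKL (2 * X) (by linarith)).trans ?_)
    refine mul_le_mul_of_nonneg_left ?_ hKL0.le
    rw [Real.mul_rpow (by norm_num) hX0.le]
  have hp16 := pos (δ₂ / 16)
  have hlogpos : 0 ≤ (1 + Real.log (3 * X)) ^ (2 * (r - 1)) := by
    have h3 : 0 ≤ Real.log (3 * X) := Real.log_nonneg (by linarith)
    positivity
  have hV0 : 0 ≤ (CV + 1) * (R1 * M) * (KL * (K2 * X ^ (δ₂ / 16))) := by positivity
  refine (IU6.part4 hE1 hF1 E' Q q b' γ ((CV + 1) * (R1 * M) * (KL * (K2 * X ^ (δ₂ / 16))))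
    hV0 L x ?_ hq2Q hcop hγ).trans ?_
  · intro s hs N hN
    have hs1 := (Finset.mem_Icc.mp hs).1
    have hNx : N ≤ x := by omega
    have hN3 : (N : ℝ) ≤ 3 * X := le_trans (by exact_mod_cast hNx) hx3
    refine (IK14.var0 (r - 1) CV hCV hvar (ed (E' s)) (R1 * M) (3 * X) N
      (IF3.deg_ed _ _ (hdeg s))
      (fun j => IF3.ed_bd (r - 1) (E' s) M (hdeg s) (fun j => hcoef s j hs1) j)
      (by linarith) hN3).trans ?_
    exact mul_le_mul_of_nonneg_left hlog (by positivity)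
  · have hb := hXb X hXb'
    have hpd := pos (-δ₂)
    calc 4 * ((CV + 1) * (R1 * M) * (KL * (K2 * X ^ (δ₂ / 16)))) * q * (Q : ℝ) ^ 3
        = M * (4 * ((CV + 1) * R1 * (KL * K2)) * X ^ (δ₂ / 16) * q * (Q : ℝ) ^ 3) := by ring
      _ ≤ M * (X ^ (δ₂ / 16) * X ^ (δ₂ / 16) * (L * X ^ (-δ₂)) * X ^ (3 * δ₂ / 8)) := by
        refine mul_le_mul_of_nonneg_left ?_ hM
        refine mul_le_mul (mul_le_mul (mul_le_mul_of_nonneg_right hb hp16.le) hq2
          (Nat.cast_nonneg _) (by positivity)) hQ3 (by positivity) (by positivity)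
      _ = M * L * (X ^ (δ₂ / 16) * X ^ (δ₂ / 16) * X ^ (-δ₂) * X ^ (3 * δ₂ / 8)) := by ring
      _ = M * L * X ^ (δ₂ / 16 + δ₂ / 16 + -δ₂ + 3 * δ₂ / 8) := by rw [mulX, mulX, mulX]
      _ ≤ M * L * X ^ (-(δ₂ / 4)) :=
        mul_le_mul_of_nonneg_left (mono _ _ (by linarith)) (by positivity)

end Pool.Agent.Work.MP_122e00_nt.TS
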