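import Mathlib
import Pool.Agent.Work.MP_122e00_nt.TS.Stmts11
import Pool.Agent.Work.MP_122e00_nt.TS.I_K14

/-!
# MP_122e00_nt, block TS, item X14: windows of a model on the minor arcs
-/

set_option autoImplicit false

namespace Pool.Agent.Work.MP_122e00_nt.TS

open Finset ArithmeticFunction

namespace IX14

/-- powers of the logarithm -/
theorem ev (K : ℝ) (k : ℕ) : ∃ X0 : ℝ, ∀ X : ℝ, X0 ≤ X → 1 ≤ X ∧ 2 ≤ Real.log X ∧
    K * (1 + Real.log (3 * X)) ^ k ≤ Real.log X ^ (k + 1) := by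
  refine ⟨Real.exp (7 + |K| * 3 ^ k), fun X hX => ?_⟩
  have hX0 : 0 < X := (Real.exp_pos _).trans_le hX
  have h1 : 7 + |K| * 3 ^ k ≤ Real.log X := (Real.le_log_iff_exp_le hX0).2 hX
  have h2 : 0 ≤ |K| * 3 ^ k := by positivity
  have h3 : 1 ≤ X := by
    have := Real.add_one_le_exp (7 + |K| * 3 ^ k)
    linarith
  refine ⟨h3, by linarith, ?_⟩
  have h9 : Real.log 3 ≤ 3 - 1 := Real.log_le_sub_one_of_pos (by norm_num)
  have h9' : 0 ≤ Real.log 3 := Real.log_nonneg (by norm_num)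
  have h10 : Real.log (3 * X) = Real.log 3 + Real.log X := Real.log_mul (by norm_num) hX0.ne'
  have h11 : 1 + Real.log (3 * X) ≤ 3 * Real.log X := by
    rw [h10]
    linarith
  have h12 : 0 ≤ 1 + Real.log (3 * X) := by
    rw [h10]
    linarith
  have h13 : 0 ≤ Real.log X := by linarith
  calc K * (1 + Real.log (3 * X)) ^ k
      ≤ |K| * (3 * Real.log X) ^ k :=
        mul_le_mul (le_abs_self K) (pow_le_pow_left₀ h12 h11 _) (by positivity) (by positivity)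
    _ = (|K| * 3 ^ k) * Real.log X ^ k := by
        rw [mul_pow]
        ring
    _ ≤ Real.log X * Real.log X ^ k :=
        mul_le_mul_of_nonneg_right (by linarith) (by positivity)
    _ = Real.log X ^ (k + 1) := by rw [← pow_succ']

/-- `H` beats powers of the logarithm -/
theorem Hbig {X H δ : ℝ} {k : ℕ} (hδ : 0 < δ) (hl : 1 ≤ Real.log X)
    (hH : Real.log X ^ (((k + 1 : ℕ) : ℝ) * (8 / δ)) ≤ H) :
    1 ≤ H ∧ Real.log X ^ (k + 1) ≤ H ^ (δ / 8) := by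
  have h0 : 0 ≤ Real.log X := by linarith
  refine ⟨(Real.one_le_rpow hl (by positivity)).trans hH, ?_⟩
  have h1 : Real.log X ^ (k + 1) =
      (Real.log X ^ (((k + 1 : ℕ) : ℝ) * (8 / δ))) ^ (δ / 8) := by
    rw [← Real.rpow_mul h0, ← Real.rpow_natCast]
    congr 1
    field_simp
  rw [h1]
  exact Real.rpow_le_rpow (Real.rpow_nonneg h0 _) hH (by positivity)

end IX14

theorem prX14 (hE1 : tsE1) (hF1 : tsF1) (hF2 : tsF2) : tsX14 := by
  intro r δ₂ hr hδ₂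
  obtain ⟨CV, hCV, hvar⟩ := IU6.var hF2 (r - 1)
  set R1 : ℝ := ((r - 1 : ℕ) : ℝ) + 1 with hR1
  have hR1pos : 0 < R1 := by positivity
  obtain ⟨X0, hX0⟩ := IX14.ev (4 * ((CV + 1) * R1)) (2 * (r - 1))
  refine ⟨((2 * (r - 1) + 1 : ℕ) : ℝ) * (8 / δ₂), X0,
    fun E' M X H γ Q x L q b' hX hXH hHX hM hdeg hcoef hQ hLx hx3 hq1 hq2 hcop hγ => ?_⟩
  obtain ⟨hX1, hlX, hlog⟩ := hX0 X hX
  obtain ⟨hH1, hHlog⟩ := IX14.Hbig hδ₂ (by linarith) hXH
  have hXpos : 0 < X := by linarith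
  have hH0 : 0 < H := by linarith
  have mono : ∀ u v : ℝ, u ≤ v → H ^ u ≤ H ^ v := fun u v h =>
    Real.rpow_le_rpow_of_exponent_le hH1 h
  have pos : ∀ u : ℝ, 0 < H ^ u := fun u => Real.rpow_pos_of_pos hH0 u
  have mulX : ∀ u v : ℝ, H ^ u * H ^ v = H ^ (u + v) := fun u v => (Real.rpow_add hH0 u v).symm
  have h2H : 2 ≤ H ^ (δ₂ / 2) := by
    calc (2 : ℝ) ≤ Real.log X := hlX
      _ = Real.log X ^ 1 := (pow_one _).symm
      _ ≤ Real.log X ^ (2 * (r - 1) + 1) := pow_le_pow_right₀ (by linarith) (by omega)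
      _ ≤ H ^ (δ₂ / 8) := hHlog
      _ ≤ H ^ (δ₂ / 2) := mono _ _ (by linarith)
  have hq2Q : 2 * Q ≤ q := by
    have h1 : (2 : ℝ) * Q ≤ q := by
      calc (2 : ℝ) * Q ≤ H ^ (δ₂ / 2) * H ^ (δ₂ / 8) :=
            mul_le_mul h2H hQ (Nat.cast_nonneg _) (pos _).le
        _ = H ^ (δ₂ / 2 + δ₂ / 8) := mulX _ _
        _ ≤ H ^ δ₂ := mono _ _ (by linarith)
        _ ≤ q := hq1
    exact_mod_cast h1
  have hQ3 : (Q : ℝ) ^ 3 ≤ H ^ (3 * δ₂ / 8) := by
    calc (Q : ℝ) ^ 3 ≤ (H ^ (δ₂ / 8)) ^ 3 := pow_le_pow_left₀ (Nat.cast_nonneg _) hQ 3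
      _ = H ^ (3 * δ₂ / 8) := by
        rw [← Real.rpow_natCast, ← Real.rpow_mul hH0.le]
        congr 1
        push_cast
        ring
  obtain ⟨W, hW⟩ : ∃ W : ℝ, W = (1 + Real.log (3 * X)) ^ (2 * (r - 1)) := ⟨_, rfl⟩
  have hWpos : 0 ≤ W := by
    have h3 : 0 ≤ Real.log (3 * X) := Real.log_nonneg (by linarith)
    rw [hW]
    positivity
  have hV0 : 0 ≤ (CV + 1) * (R1 * M) * W := by positivity
  refine (IU6.part4 hE1 hF1 E' Q q b' γ ((CV + 1) * (R1 * M) * W)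
    hV0 L x ?_ hq2Q hcop hγ).trans ?_
  · intro s hs N hN
    have hs1 := (Finset.mem_Icc.mp hs).1
    have hNx : N ≤ x := by omega
    have hN3 : (N : ℝ) ≤ 3 * X := le_trans (by exact_mod_cast hNx) hx3
    rw [hW]
    exact IK14.var0 (r - 1) CV hCV hvar (ed (E' s)) (R1 * M) (3 * X) N
      (IF3.deg_ed _ _ (hdeg s))
      (fun j => IF3.ed_bd (r - 1) (E' s) M (hdeg s) (fun j => hcoef s j hs1) j)
      (by linarith) hN3
  · have hb : 4 * ((CV + 1) * R1) * W ≤ H ^ (δ₂ / 8) := by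
      rw [hW]
      exact hlog.trans hHlog
    have hp8 := pos (δ₂ / 8)
    calc 4 * ((CV + 1) * (R1 * M) * W) * q * (Q : ℝ) ^ 3
        = M * (4 * ((CV + 1) * R1) * W * q * (Q : ℝ) ^ 3) := by ring
      _ ≤ M * (H ^ (δ₂ / 8) * (L * H ^ (-δ₂)) * H ^ (3 * δ₂ / 8)) := by
        refine mul_le_mul_of_nonneg_left ?_ hM
        refine mul_le_mul (mul_le_mul hb hq2
          (Nat.cast_nonneg _) (by positivity)) hQ3 (by positivity) ?_
        have := pos (-δ₂)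
        positivity
      _ = M * L * (H ^ (δ₂ / 8) * H ^ (-δ₂) * H ^ (3 * δ₂ / 8)) := by ring
      _ = M * L * H ^ (δ₂ / 8 + -δ₂ + 3 * δ₂ / 8) := by rw [mulX, mulX]
      _ ≤ M * L * H ^ (-(δ₂ / 4)) :=
        mul_le_mul_of_nonneg_left (mono _ _ (by linarith)) (by positivity)

end Pool.Agent.Work.MP_122e00_nt.TS
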