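import Mathlib
import Pool.Agent.Work.MP_122e00_nt.TS.Stmts12
import Pool.Agent.Work.MP_122e00_nt.TS.I_R10

/-!
# Thin shifts, item X16: the mean square over short intervals, short scales

Adapted from `I_K17.lean` (helper57).
-/

set_option autoImplicit false

namespace Pool.Agent.Work.MP_122e00_nt.TS

open Finset Filter Topology

namespace IX16

/-- pointwise bound -/
lemma fu_le (hK7 : tsK7) (r : ℕ) (E : ℕ → Polynomial ℝ) (hr : 1 ≤ r)
    (hE : ∀ q, (E q).natDegree ≤ r - 1) (hCB : CB E) (ε : ℝ) (hε : 0 < ε) :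
    ∃ C : ℝ, 0 < C ∧ ∀ (X z w : ℝ) (Q n : ℕ), 1 ≤ X → 1 ≤ w → w ≤ X → (Q : ℝ) ≤ X → 1 ≤ n →
      (n : ℝ) ≤ 2 * X → |fu r E z w Q n| ≤ C * X ^ ε := by
  obtain ⟨C, hC, h⟩ := hK7 r E hr hE hCB ε hε
  refine ⟨2 * C, by positivity, fun X z w Q n hX hw1 hw2 hQ hn hnX => ?_⟩
  obtain ⟨h1, h2⟩ := h X z w Q n hX hw1 hw2 hQ hn (by linarith)
  unfold fu
  have h3 : |up r z w n - fs (Eu E z w) Q n| ≤ |up r z w n| + |fs (Eu E z w) Q n| := abs_sub _ _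
  calc |up r z w n - fs (Eu E z w) Q n| ≤ C * X ^ ε + C * X ^ ε := by linarith
    _ = 2 * C * X ^ ε := by ring

lemma bad_sub {N L β i₀ : ℕ} (hβ : 0 < β) :
    Finset.Icc 1 (N + L) \ IR10.good N L β i₀ ⊆ Finset.range (i₀ * β) ∪
      ((Finset.range (N / β + 1)).biUnion (fun i => Finset.Ico (i * β) (i * β + L)) ∪
      Finset.Ioc N (N + L)) := by
  intro x hx
  rw [Finset.mem_sdiff, IR10.good, Finset.mem_filter] at hx
  obtain ⟨hx1, hx2⟩ := hx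
  rw [Finset.mem_union, Finset.mem_union]
  by_cases hN : x ≤ N
  · by_cases hi : i₀ ≤ x / β
    · right
      left
      rw [Finset.mem_biUnion]
      refine ⟨x / β, ?_, ?_⟩
      · rw [Finset.mem_range]
        exact Nat.lt_succ_of_le (Nat.div_le_div_right hN)
      · rw [Finset.mem_Ico]
        refine ⟨Nat.div_mul_le_self x β, ?_⟩
        by_contra h
        exact hx2 ⟨hx1, hN, hi, by omega⟩
    · left
      rw [Finset.mem_range]
      exact Nat.lt_mul_of_div_lt (by omega) hβ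
  · right
    right
    rw [Finset.mem_Icc] at hx1
    rw [Finset.mem_Ioc]
    omega

lemma two_card {N L β : ℕ} :
    ((Finset.range (N / β + 1)).biUnion (fun i => Finset.Ico (i * β) (i * β + L)) ∪
      Finset.Ioc N (N + L)).card ≤ (N / β + 1) * L + L := by
  refine (Finset.card_union_le _ _).trans (Nat.add_le_add ?_ (by rw [Nat.card_Ioc]; omega))
  refine Finset.card_biUnion_le.trans ?_
  refine (Finset.sum_le_card_nsmul _ _ L fun i _ => ?_).trans (by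
    rw [Finset.card_range, smul_eq_mul])
  rw [Nat.card_Ico]
  omega

lemma sub_sq_le (a b : ℝ) : (a - b) ^ 2 ≤ 2 * a ^ 2 + 2 * b ^ 2 := by
  nlinarith [sq_nonneg (a + b)]

lemma sum_union_le' {f : ℕ → ℝ} (hf : ∀ x, 0 ≤ f x) (s t : Finset ℕ) :
    ∑ x ∈ s ∪ t, f x ≤ ∑ x ∈ s, f x + ∑ x ∈ t, f x := by
  have h1 := Finset.sum_union_inter (s₁ := s) (s₂ := t) (f := f)
  have h2 : 0 ≤ ∑ x ∈ s ∩ t, f x := Finset.sum_nonneg fun x _ => hf x
  linarith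

/-- good positions, small positions, boundaries -/
lemma split {f : ℕ → ℝ} {N L β i₀ : ℕ} {Y Z : ℝ} (hβ : 0 < β)
    (h : ∀ i, i₀ ≤ i → i ≤ N / β →
      ∑ x ∈ (Finset.Icc (i * β + L) (i * β + β)).filter (fun x => x ≤ N), f x ≤ Y)
    (hf : ∀ x, 0 ≤ f x) (hfZ : ∀ x, f x ≤ Z) (hY : 0 ≤ Y) (hZ : 0 ≤ Z) :
    ∑ x ∈ Finset.Icc 1 (N + L), f x ≤
      ((N / β : ℕ) + 1) * Y + (∑ x ∈ Finset.range (i₀ * β), f x +
        (((N / β : ℕ) + 1) * L + L) * Z) := by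
  have hsub : IR10.good N L β i₀ ⊆ Finset.Icc 1 (N + L) := Finset.filter_subset _ _
  rw [← Finset.sum_sdiff hsub, add_comm]
  refine add_le_add (IR10.good_sum hβ h hf hY) ?_
  refine (Finset.sum_le_sum_of_subset_of_nonneg (bad_sub hβ) fun x _ _ => hf x).trans ?_
  refine (sum_union_le' hf _ _).trans ?_
  refine add_le_add le_rfl ?_
  refine (Finset.sum_le_card_nsmul _ _ Z fun x _ => hfZ x).trans ?_
  rw [nsmul_eq_mul]
  refine mul_le_mul_of_nonneg_right ?_ hZ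
  exact_mod_cast two_card

/-- Cauchy for the small positions -/
lemma small_sum (u : ℕ → ℝ) (N L M : ℕ) (γ : ℝ) :
    ∑ x ∈ Finset.range M, ‖wn u N L x γ‖ ^ 2 ≤ (L : ℝ) ^ 2 * ∑ n ∈ Finset.Ioc 0 M, u n ^ 2 := by
  have h1 : ∀ x, ‖wn u N L x γ‖ ^ 2 ≤
      (L : ℝ) * ∑ n ∈ (Finset.Icc 1 N).filter (fun n => n ≤ x ∧ x < n + L), u n ^ 2 := by
    intro x
    have hc : (((Finset.Icc 1 N).filter (fun n => n ≤ x ∧ x < n + L)).card : ℝ) ≤ L := by
      have h2 : (Finset.Icc 1 N).filter (fun n => n ≤ x ∧ x < n + L) ⊆ Finset.Ioc (x - L) x := by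
        intro n hn
        rw [Finset.mem_filter, Finset.mem_Icc] at hn
        rw [Finset.mem_Ioc]
        omega
      have h3 := Finset.card_le_card h2
      rw [Nat.card_Ioc] at h3
      have h4 : x - (x - L) ≤ L := by omega
      exact_mod_cast h3.trans h4
    have h5 : ‖wn u N L x γ‖ ≤
        ∑ n ∈ (Finset.Icc 1 N).filter (fun n => n ≤ x ∧ x < n + L), |u n| := by
      unfold wn
      refine (norm_sum_le _ _).trans (le_of_eq ?_)
      refine Finset.sum_congr rfl fun n _ => ?_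
      rw [norm_mul, IR10.norm_ee, mul_one, Complex.norm_real, Real.norm_eq_abs]
    calc ‖wn u N L x γ‖ ^ 2 ≤
          (∑ n ∈ (Finset.Icc 1 N).filter (fun n => n ≤ x ∧ x < n + L), |u n|) ^ 2 :=
          pow_le_pow_left₀ (norm_nonneg _) h5 2
      _ ≤ ((Finset.Icc 1 N).filter (fun n => n ≤ x ∧ x < n + L)).card *
          ∑ n ∈ (Finset.Icc 1 N).filter (fun n => n ≤ x ∧ x < n + L), |u n| ^ 2 :=
          sq_sum_le_card_mul_sum_sq
      _ ≤ (L : ℝ) * ∑ n ∈ (Finset.Icc 1 N).filter (fun n => n ≤ x ∧ x < n + L), u n ^ 2 := by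
          simp only [sq_abs]
          exact mul_le_mul_of_nonneg_right hc (Finset.sum_nonneg fun _ _ => sq_nonneg _)
  refine (Finset.sum_le_sum fun x _ => h1 x).trans ?_
  rw [← Finset.mul_sum, sq, mul_assoc]
  refine mul_le_mul_of_nonneg_left ?_ (Nat.cast_nonneg L)
  simp only [Finset.sum_filter]
  rw [Finset.sum_comm]
  have h2 : ∀ n ∈ Finset.Icc 1 N, ∑ x ∈ Finset.range M, (if n ≤ x ∧ x < n + L then u n ^ 2 else 0) ≤
      if n ∈ Finset.Ioc 0 M then (L : ℝ) * u n ^ 2 else 0 := by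
    intro n hn
    rw [Finset.mem_Icc] at hn
    rw [← Finset.sum_filter, Finset.sum_const, nsmul_eq_mul]
    split_ifs with h
    · refine mul_le_mul_of_nonneg_right ?_ (sq_nonneg _)
      have h3 : (Finset.range M).filter (fun x => n ≤ x ∧ x < n + L) ⊆ Finset.Ico n (n + L) := by
        intro x hx
        rw [Finset.mem_filter] at hx
        rw [Finset.mem_Ico]
        exact hx.2
      have h4 := Finset.card_le_card h3
      rw [Nat.card_Ico] at h4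
      have h5 : n + L - n = L := by omega
      rw [h5] at h4
      exact_mod_cast h4
    · have h3 : (Finset.range M).filter (fun x => n ≤ x ∧ x < n + L) = ∅ := by
        rw [Finset.filter_eq_empty_iff]
        intro x hx
        rw [Finset.mem_range] at hx
        rw [Finset.mem_Ioc] at h
        omega
      rw [h3, Finset.card_empty, Nat.cast_zero, zero_mul]
  refine (Finset.sum_le_sum h2).trans ?_
  rw [← Finset.sum_filter, Finset.mul_sum]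
  refine Finset.sum_le_sum_of_subset_of_nonneg ?_ fun _ _ _ => by positivity
  intro n hn
  rw [Finset.mem_filter] at hn
  exact hn.2

end IX16

open IR10 in
theorem prX16 (hK7 : tsK7) (hX3 : tsX3) (hX15 : tsX15) : tsX16 := by
  intro r E hr hAP hCB ε₂ θ₂ hε₂ hε4 hθ0 hθ₂
  obtain ⟨δ₀, hd0, hd1, hd2, h9⟩ := hX15 r E hr hAP hCB ε₂ θ₂ hε₂ hε4 hθ0 hθ₂
  obtain ⟨δs, hδs, h3⟩ := hX3 r E hr hAP.1 hCB
  obtain ⟨C₃, hC₃, h3⟩ := h3 1 one_pos
  refine ⟨min δ₀ δs / 20, by positivity, fun η₂ hη0 hη => ?_⟩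
  obtain ⟨δ₁, hδdef⟩ : ∃ δ₁ : ℝ, δ₁ = 20 * η₂ := ⟨_, rfl⟩
  have hδ₀ : δ₁ ≤ δ₀ := by
    have := min_le_left δ₀ δs
    linarith
  have hδs1 : δ₁ ≤ δs := by
    have := min_le_right δ₀ δs
    linarith
  have hδ0 : 0 < δ₁ := by linarith
  have hη₂ : η₂ = δ₁ / 20 := by linarith
  rw [hη₂]
  have hδ1 : δ₁ ≤ 1 / 10 := by linarith
  have hδ2 : δ₁ ≤ (1 - θ₂) / 8 := by linarith
  obtain ⟨A₁, X9, h9⟩ := h9 δ₁ hδ0 hδ₀
  obtain ⟨C, hC, hfl⟩ := IX16.fu_le hK7 r E hr hAP.1 hCB ((1 - θ₂) / 16) (by linarith)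
  obtain ⟨A₀, hA₀⟩ : ∃ A₀ : ℝ, A₀ = max (max A₁ 1) (100 * C₃ / δ₁) := ⟨_, rfl⟩
  have hA₁ : A₁ ≤ A₀ := by rw [hA₀]; exact (le_max_left _ _).trans (le_max_left _ _)
  have hA1 : 1 ≤ A₀ := by rw [hA₀]; exact (le_max_right _ _).trans (le_max_left _ _)
  have hA3 : C₃ / A₀ ≤ δ₁ / 100 := by
    have h1 : 100 * C₃ / δ₁ ≤ A₀ := by rw [hA₀]; exact le_max_right _ _
    rw [div_le_iff₀ hδ0] at h1
    rw [div_le_div_iff₀ (by linarith) (by norm_num)]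
    linarith
  have hev : ∀ᶠ X : ℝ in atTop, 2 ≤ X ^ (1 - δ₁) ∧
      5 + 8 * C₃ + 6 * C ^ 2 ≤ Real.log X ^ (δ₁ / 400) ∧ 1 ≤ Real.log X ∧ 3 ≤ X ∧
      X9 ≤ X :=
    ((tendsto_rpow_atTop (by linarith)).eventually_ge_atTop 2).and
      ((((tendsto_rpow_atTop (by positivity)).comp Real.tendsto_log_atTop).eventually_ge_atTop
        (5 + 8 * C₃ + 6 * C ^ 2)).and
        ((Real.tendsto_log_atTop.eventually_ge_atTop 1).and
        ((eventually_ge_atTop 3).and (eventually_ge_atTop X9))))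
  obtain ⟨X0, hX0⟩ := Filter.eventually_atTop.1 hev
  refine ⟨δ₁ / 100, A₀, X0, by positivity, ?_⟩
  intro X H γ N L hX hlogH hHX hN hL1 hL2
  obtain ⟨hX2, hXC, hlog1, hX3', hX9⟩ := hX0 X hX
  have hX1 : (1 : ℝ) ≤ X := by linarith
  have hXpos : 0 < X := by linarith
  have hlH : Real.log X ≤ H := by
    calc Real.log X = Real.log X ^ (1 : ℝ) := (Real.rpow_one _).symm
      _ ≤ Real.log X ^ A₀ := Real.rpow_le_rpow_of_exponent_le hlog1 hA1
      _ ≤ H := hlogH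
  have hH1 : 1 ≤ H := by linarith
  have hHpos : 0 < H := by linarith
  have hlogH1 : Real.log X ^ A₁ ≤ H :=
    (Real.rpow_le_rpow_of_exponent_le hlog1 hA₁).trans hlogH
  have hHX' : H ≤ X := by
    calc H ≤ X ^ θ₂ := hHX
      _ ≤ X ^ (1 : ℝ) := Real.rpow_le_rpow_of_exponent_le hX1 hθ₂.le
      _ = X := Real.rpow_one X
  have hHC : 5 + 8 * C₃ + 6 * C ^ 2 ≤ H ^ (δ₁ / 400) :=
    hXC.trans (Real.rpow_le_rpow (by linarith) hlH (by positivity))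
  have hHpow : ∀ p : ℝ, 0 ≤ p → X ^ (-p) ≤ H ^ (-p) := fun p hp =>
    Real.rpow_le_rpow_of_nonpos hHpos hHX' (by linarith)
  set Q : ℕ := ⌊H ^ (δ₁ / 20)⌋₊ with hQ
  have hQH : (Q : ℝ) ≤ H ^ (δ₁ / 20) := Nat.floor_le (Real.rpow_nonneg hHpos.le _)
  have hQX : (Q : ℝ) ≤ X := by
    refine hQH.trans (le_trans ?_ hHX')
    calc H ^ (δ₁ / 20) ≤ H ^ (1 : ℝ) := Real.rpow_le_rpow_of_exponent_le hH1 (by linarith)
      _ = H := Real.rpow_one H
  have hw1 : 1 ≤ H ^ (1 / 4 : ℝ) := Real.one_le_rpow hH1 (by norm_num)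
  have hw2 : H ^ (1 / 4 : ℝ) ≤ X := by
    refine le_trans ?_ hHX'
    calc H ^ (1 / 4 : ℝ) ≤ H ^ (1 : ℝ) := Real.rpow_le_rpow_of_exponent_le hH1 (by norm_num)
      _ = H := Real.rpow_one H
  obtain ⟨T, hT⟩ : ∃ T : ℝ, T = X * H ^ (-δ₁) := ⟨_, rfl⟩
  have hT0 : 0 < T := by rw [hT]; positivity
  have hT2 : 2 ≤ T := by
    rw [hT]
    calc (2 : ℝ) ≤ X ^ (1 - δ₁) := hX2
      _ = X * X ^ (-δ₁) := by rw [sub_eq_add_neg, Real.rpow_add hXpos, Real.rpow_one]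
      _ ≤ X * H ^ (-δ₁) := mul_le_mul_of_nonneg_left (hHpow δ₁ hδ0.le) hXpos.le
  have hTX : T ≤ X := by
    rw [hT]
    exact mul_le_of_le_one_right hXpos.le (Real.rpow_le_one_of_one_le_of_nonpos hH1 (by linarith))
  set β : ℕ := ⌊T⌋₊ with hβ
  have hβle : (β : ℝ) ≤ T := Nat.floor_le hT0.le
  have hβge : T / 2 ≤ β := by
    have h1 := Nat.lt_floor_add_one T
    rw [← hβ] at h1
    linarith
  have hβ0 : 0 < β := by
    have h1 : (0 : ℝ) < β := by linarith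
    exact_mod_cast h1
  have hβpos : (0 : ℝ) < β := by exact_mod_cast hβ0
  obtain ⟨P, hP⟩ : ∃ P : ℝ, P = X * H ^ (-(δ₁ / 2)) := ⟨_, rfl⟩
  have hP0 : 0 < P := by rw [hP]; positivity
  have hPX : P ≤ X := by
    rw [hP]
    exact mul_le_of_le_one_right hXpos.le (Real.rpow_le_one_of_one_le_of_nonpos hH1 (by linarith))
  have hβP : (β : ℝ) ≤ P := by
    refine hβle.trans ?_
    rw [hT, hP]
    exact mul_le_mul_of_nonneg_left
      (Real.rpow_le_rpow_of_exponent_le hH1 (by linarith)) hXpos.le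
  set i₀ : ℕ := ⌈P / β⌉₊ with hi₀
  have hi₀1 : P ≤ i₀ * β := by
    rw [← div_le_iff₀ hβpos]
    exact Nat.le_ceil _
  have hi₀2 : (i₀ : ℝ) * β ≤ 2 * P := by
    have h1 := Nat.ceil_lt_add_one (div_nonneg hP0.le hβpos.le)
    rw [← hi₀] at h1
    have h2 : (i₀ : ℝ) * β ≤ (P / β + 1) * β := mul_le_mul_of_nonneg_right h1.le hβpos.le
    rw [add_mul, div_mul_cancel₀ _ hβpos.ne', one_mul] at h2
    linarith
  set D : ℝ := H ^ δ₁ with hD
  have hD1 : 1 ≤ D := Real.one_le_rpow hH1 hδ0.le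
  have hXD : X = T * D := by
    rw [hT, hD, mul_assoc, ← Real.rpow_add hHpos, neg_add_cancel, Real.rpow_zero, mul_one]
  have hblocks : ((N / β : ℕ) : ℝ) + 1 ≤ 5 * D := by
    have h1 : ((N / β : ℕ) : ℝ) ≤ N / β := Nat.cast_div_le
    have h2 : (N : ℝ) / β ≤ 4 * D := by
      rw [div_le_iff₀ hβpos]
      calc (N : ℝ) ≤ 2 * X := hN
        _ = 4 * D * (T / 2) := by rw [hXD]; ring
        _ ≤ 4 * D * β := mul_le_mul_of_nonneg_left hβge (by positivity)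
    linarith
  set Y : ℝ := (L : ℝ) ^ 2 * X * H ^ (-δ₁ - δ₁ / 80) with hY
  set Z : ℝ := ((L : ℝ) * (C * X ^ ((1 - θ₂) / 16))) ^ 2 with hZ
  have hY0 : 0 ≤ Y := by positivity
  have hZ0 : 0 ≤ Z := by positivity
  have hLpos : 1 ≤ L := by
    have h1 : (0 : ℝ) < L := lt_of_lt_of_le (Real.rpow_pos_of_pos hHpos _) hL1
    exact_mod_cast h1
  have hsplit := IX16.split (f := fun x => ‖wn (fu r E (H ^ ε₂) (H ^ (1 / 4 : ℝ)) Q) N L x γ‖ ^ 2)
    (N := N) (L := L) (β := β)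
    (i₀ := i₀) (Y := Y) (Z := Z) hβ0 (by
      intro i hi1 hi2
      have hiβ : i * β ≤ N := (Nat.mul_le_mul_right β hi2).trans (Nat.div_mul_le_self N β)
      have hiβ' : (i : ℝ) * β ≤ N := by exact_mod_cast hiβ
      have hPi : P ≤ ((i * β : ℕ) : ℝ) := by
        push_cast
        refine hi₀1.trans (mul_le_mul_of_nonneg_right ?_ hβpos.le)
        exact_mod_cast hi1
      have h1 := h9 X H γ (i * β) (i * β + β) L hX9 hlogH1 hHX ⟨by rw [← hP]; exact hPi, by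
          push_cast
          linarith, by rw [← hT]; push_cast; linarith, by rw [← hT]; push_cast; linarith⟩ hL1 hL2
      refine le_trans ?_ h1
      refine le_trans (Finset.sum_le_sum (g := fun x => ‖∑ n ∈ Finset.Ioc (x - L) x,
        ((fu r E (H ^ ε₂) (H ^ (1 / 4 : ℝ)) Q n : ℝ) : ℂ) * ee (n * γ)‖ ^ 2) fun x hx => ?_)
        (Finset.sum_le_sum_of_subset_of_nonneg (Finset.filter_subset _ _)
          fun x _ _ => by positivity)
      rw [Finset.mem_filter, Finset.mem_Icc] at hx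
      rw [wn_eq _ _ hx.2 (by omega)])
    (fun x => by positivity) (fun x => by
      rw [hZ]
      refine pow_le_pow_left₀ (norm_nonneg _) (wn_le (by positivity) fun n hn1 hn2 => ?_) 2
      exact hfl X (H ^ ε₂) (H ^ (1 / 4 : ℝ)) Q n hX1 hw1 hw2 hQX hn1
        (le_trans (by exact_mod_cast hn2) hN)) hY0 hZ0
  unfold SI
  refine hsplit.trans ?_
  obtain ⟨G, hG⟩ : ∃ G : ℝ, G = (L : ℝ) ^ 2 * X * H ^ (-(δ₁ / 80)) := ⟨_, rfl⟩
  have hG0 : 0 ≤ G := by rw [hG]; positivity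
  -- the good positions
  have hg : (((N / β : ℕ) : ℝ) + 1) * Y ≤ 5 * G := by
    refine (mul_le_mul_of_nonneg_right hblocks hY0).trans (le_of_eq ?_)
    have h1 : H ^ (-(δ₁ / 80)) = D * H ^ (-δ₁ - δ₁ / 80) := by
      rw [hD, ← Real.rpow_add hHpos]
      congr 1
      ring
    rw [hG, h1, hY]
    ring
  -- the small positions
  have hs : ∑ x ∈ Finset.range (i₀ * β),
      ‖wn (fu r E (H ^ ε₂) (H ^ (1 / 4 : ℝ)) Q) N L x γ‖ ^ 2 ≤ 8 * C₃ * G := by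
    refine (IX16.small_sum _ N L (i₀ * β) γ).trans ?_
    have hi₀X : ((i₀ * β : ℕ) : ℝ) ≤ 3 * X := by push_cast; linarith
    have hlen : X ^ (1 - δs) ≤ ((i₀ * β : ℕ) : ℝ) - ((0 : ℕ) : ℝ) := by
      push_cast
      rw [sub_zero]
      refine le_trans ?_ hi₀1
      rw [hP]
      calc X ^ (1 - δs) ≤ X ^ (1 - δ₁ / 2) := Real.rpow_le_rpow_of_exponent_le hX1 (by linarith)
        _ = X * X ^ (-(δ₁ / 2)) := by rw [sub_eq_add_neg, Real.rpow_add hXpos, Real.rpow_one]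
        _ ≤ X * H ^ (-(δ₁ / 2)) := mul_le_mul_of_nonneg_left (hHpow _ (by linarith)) hXpos.le
    obtain ⟨m1, -, m3⟩ := h3 X (H ^ ε₂) (H ^ (1 / 4 : ℝ)) Q 0 (i₀ * β) hX3' hw1 hw2 hQX
      (Nat.zero_le _) hi₀X hlen
    have hQ1 : (Q : ℝ) ^ (1 : ℝ) ≤ H ^ (δ₁ / 20) := by rw [Real.rpow_one]; exact hQH
    have hlog3 : Real.log X ^ C₃ ≤ H ^ (δ₁ / 100) := by
      have h1 : Real.log X ^ C₃ = (Real.log X ^ A₀) ^ (C₃ / A₀) := by
        rw [← Real.rpow_mul (by linarith)]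
        congr 1
        have : A₀ ≠ 0 := by linarith
        field_simp
      rw [h1]
      calc (Real.log X ^ A₀) ^ (C₃ / A₀) ≤ H ^ (C₃ / A₀) :=
            Real.rpow_le_rpow (by positivity) hlogH (by positivity)
        _ ≤ H ^ (δ₁ / 100) := Real.rpow_le_rpow_of_exponent_le hH1 hA3
    have hlen2 : ((i₀ * β : ℕ) : ℝ) - ((0 : ℕ) : ℝ) ≤ 2 * P := by
      push_cast
      rw [sub_zero]
      exact hi₀2
    have hQ0 : 1 ≤ H ^ (δ₁ / 20) := Real.one_le_rpow hH1 (by positivity)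
    have hfu : ∑ n ∈ Finset.Ioc 0 (i₀ * β), fu r E (H ^ ε₂) (H ^ (1 / 4 : ℝ)) Q n ^ 2 ≤
        8 * C₃ * P * H ^ (δ₁ / 100) * H ^ (δ₁ / 20) := by
      have h1 : ∀ n ∈ Finset.Ioc 0 (i₀ * β), fu r E (H ^ ε₂) (H ^ (1 / 4 : ℝ)) Q n ^ 2 ≤
          2 * up r (H ^ ε₂) (H ^ (1 / 4 : ℝ)) n ^ 2 +
            2 * fs (Eu E (H ^ ε₂) (H ^ (1 / 4 : ℝ))) Q n ^ 2 := by
        intro n _
        unfold fu
        exact IX16.sub_sq_le _ _
      refine (Finset.sum_le_sum h1).trans ?_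
      rw [Finset.sum_add_distrib, ← Finset.mul_sum, ← Finset.mul_sum]
      have b1 : C₃ * (((i₀ * β : ℕ) : ℝ) - ((0 : ℕ) : ℝ)) * Real.log X ^ C₃ ≤
          2 * C₃ * P * H ^ (δ₁ / 100) * H ^ (δ₁ / 20) := by
        calc C₃ * (((i₀ * β : ℕ) : ℝ) - ((0 : ℕ) : ℝ)) * Real.log X ^ C₃
            ≤ C₃ * (2 * P) * H ^ (δ₁ / 100) := by gcongr
          _ = 2 * C₃ * P * H ^ (δ₁ / 100) * 1 := by ring
          _ ≤ 2 * C₃ * P * H ^ (δ₁ / 100) * H ^ (δ₁ / 20) := by gcongr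
      have b2 : C₃ * (((i₀ * β : ℕ) : ℝ) - ((0 : ℕ) : ℝ)) * Real.log X ^ C₃ * (Q : ℝ) ^ (1 : ℝ) ≤
          2 * C₃ * P * H ^ (δ₁ / 100) * H ^ (δ₁ / 20) := by
        calc C₃ * (((i₀ * β : ℕ) : ℝ) - ((0 : ℕ) : ℝ)) * Real.log X ^ C₃ * (Q : ℝ) ^ (1 : ℝ)
            ≤ C₃ * (2 * P) * H ^ (δ₁ / 100) * H ^ (δ₁ / 20) := by gcongr
          _ = 2 * C₃ * P * H ^ (δ₁ / 100) * H ^ (δ₁ / 20) := by ring
      linarith
    have hPH : P * H ^ (δ₁ / 100) * H ^ (δ₁ / 20) ≤ X * H ^ (-(δ₁ / 80)) := by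
      rw [hP, mul_assoc, mul_assoc, ← Real.rpow_add hHpos, ← Real.rpow_add hHpos]
      exact mul_le_mul_of_nonneg_left
        (Real.rpow_le_rpow_of_exponent_le hH1 (by linarith)) hXpos.le
    calc (L : ℝ) ^ 2 * ∑ n ∈ Finset.Ioc 0 (i₀ * β), fu r E (H ^ ε₂) (H ^ (1 / 4 : ℝ)) Q n ^ 2
        ≤ (L : ℝ) ^ 2 * (8 * C₃ * P * H ^ (δ₁ / 100) * H ^ (δ₁ / 20)) := by gcongr
      _ = 8 * C₃ * ((L : ℝ) ^ 2 * (P * H ^ (δ₁ / 100) * H ^ (δ₁ / 20))) := by ring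
      _ ≤ 8 * C₃ * ((L : ℝ) ^ 2 * (X * H ^ (-(δ₁ / 80)))) := by gcongr
      _ = 8 * C₃ * G := by rw [hG]; ring
  -- the boundaries
  have hcount : (((N / β : ℕ) : ℝ) + 1) * L + L ≤ 6 * D * H := by
    have hL0' : (0 : ℝ) ≤ L := Nat.cast_nonneg L
    have h1 : (((N / β : ℕ) : ℝ) + 1) * L ≤ 5 * D * L := mul_le_mul_of_nonneg_right hblocks hL0'
    have h2 : (L : ℝ) ≤ D * L := le_mul_of_one_le_left hL0' hD1
    have h3 : D * (L : ℝ) ≤ D * H := mul_le_mul_of_nonneg_left hL2 (by linarith)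
    linarith
  have hb : ((((N / β : ℕ) : ℝ) + 1) * L + L) * Z ≤ 6 * C ^ 2 * G := by
    refine (mul_le_mul_of_nonneg_right hcount hZ0).trans ?_
    have h1 : D * H * (X ^ ((1 - θ₂) / 16)) ^ 2 ≤ X * H ^ (-(δ₁ / 80)) := by
      have e1 : D * H = H ^ (-(δ₁ / 80)) * H ^ (1 + δ₁ + δ₁ / 80) := by
        rw [hD, ← Real.rpow_add hHpos]
        have : H ^ δ₁ * H = H ^ (δ₁ + 1) := by rw [Real.rpow_add hHpos, Real.rpow_one]
        rw [this]
        congr 1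
        ring
      have e2 : H ^ (1 + δ₁ + δ₁ / 80) ≤ X ^ (1 - (1 - θ₂) / 8) := by
        calc H ^ (1 + δ₁ + δ₁ / 80) ≤ (X ^ θ₂) ^ (1 + δ₁ + δ₁ / 80) :=
              Real.rpow_le_rpow hHpos.le hHX (by linarith)
          _ = X ^ (θ₂ * (1 + δ₁ + δ₁ / 80)) := by rw [← Real.rpow_mul hXpos.le]
          _ ≤ X ^ (1 - (1 - θ₂) / 8) := by
              refine Real.rpow_le_rpow_of_exponent_le hX1 ?_
              have : θ₂ * (δ₁ + δ₁ / 80) ≤ 1 * (δ₁ + δ₁ / 80) :=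
                mul_le_mul_of_nonneg_right hθ₂.le (by positivity)
              linarith
      have e3 : X ^ (1 - (1 - θ₂) / 8) * (X ^ ((1 - θ₂) / 16)) ^ 2 = X := by
        rw [pow_two, ← Real.rpow_add hXpos, ← Real.rpow_add hXpos]
        rw [show 1 - (1 - θ₂) / 8 + ((1 - θ₂) / 16 + (1 - θ₂) / 16) = 1 by ring, Real.rpow_one]
      calc D * H * (X ^ ((1 - θ₂) / 16)) ^ 2
          = H ^ (-(δ₁ / 80)) * (H ^ (1 + δ₁ + δ₁ / 80) * (X ^ ((1 - θ₂) / 16)) ^ 2) := by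
            rw [e1]; ring
        _ ≤ H ^ (-(δ₁ / 80)) * (X ^ (1 - (1 - θ₂) / 8) * (X ^ ((1 - θ₂) / 16)) ^ 2) := by gcongr
        _ = X * H ^ (-(δ₁ / 80)) := by rw [e3]; ring
    calc 6 * D * H * Z = 6 * C ^ 2 * ((L : ℝ) ^ 2 * (D * H * (X ^ ((1 - θ₂) / 16)) ^ 2)) := by
          rw [hZ]; ring
      _ ≤ 6 * C ^ 2 * ((L : ℝ) ^ 2 * (X * H ^ (-(δ₁ / 80)))) := by gcongr
      _ = 6 * C ^ 2 * G := by rw [hG]; ring
  refine (add_le_add hg (add_le_add hs hb)).trans ?_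
  have h2 : H ^ (-(δ₁ / 100)) = H ^ (δ₁ / 400) * H ^ (-(δ₁ / 80)) := by
    rw [← Real.rpow_add hHpos]
    congr 1
    ring
  rw [h2]
  calc 5 * G + (8 * C₃ * G + 6 * C ^ 2 * G) = (5 + 8 * C₃ + 6 * C ^ 2) * G := by ring
    _ ≤ H ^ (δ₁ / 400) * G := mul_le_mul_of_nonneg_right hHC hG0
    _ = (L : ℝ) ^ 2 * X * (H ^ (δ₁ / 400) * H ^ (-(δ₁ / 80))) := by rw [hG]; ring

end Pool.Agent.Work.MP_122e00_nt.TS
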