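import Pool.Agent.Work.MP_122e00_nt.TS.Stmts12

/-!
# Thin shifts, item X17 (helper85); models: `TS/I_Y1.lean` (helper55), `TS/I_T2.lean` (helper22)
-/

namespace Pool.Agent.Work.MP_122e00_nt.TS

open Finset Filter Topology ArithmeticFunction
open scoped ArithmeticFunction.zeta ArithmeticFunction.Moebius

namespace IX17

lemma numer (K X H C P δ₁ δ ε δ'' δ' : ℝ) (d : ℕ) (hd : 1 ≤ d) (hK : 1 ≤ K) (hX : 0 < X)
    (hH : H = K ^ d) (hC : 0 < C) (hP : 0 < P) (hδ'0 : 0 < δ')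
    (hδ' : δ' ≤ δ / 8) (hε : ε = δ₁ / (4 * d)) (hδ1 : δ'' ≤ δ / 2) (hδ2 : δ'' ≤ δ₁ / (2 * d))
    (hb1 : 16 * C ^ 2 * P ^ 2 ≤ H ^ (δ₁ / (4 * d))) (hb2 : 64 * C * P ≤ H ^ (δ / 4)) :
    K ^ (1 - δ₁) * (4 * C * X * P * H ^ ε) * (2 * C * X * P) +
      K * (4 * K ^ (2 * δ') * (4 * (X * H ^ (-δ)))) * (2 * C * X * P) ≤
        K * X ^ (2 : ℕ) * H ^ (-δ'') := by
  have hK0 : 0 < K := by linarith
  have hd0 : (0 : ℝ) < d := by exact_mod_cast hd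
  have hH1 : 1 ≤ H := by rw [hH]; exact one_le_pow₀ hK
  have hH0 : 0 < H := by linarith
  have hKH : K ≤ H := by rw [hH]; exact le_self_pow₀ hK (by omega)
  obtain ⟨a, ha⟩ : ∃ a : ℝ, a = δ₁ / d := ⟨_, rfl⟩
  have f1 : δ₁ / (4 * d) = a / 4 := by rw [ha]; field_simp
  have f2 : δ₁ / (2 * d) = a / 2 := by rw [ha]; field_simp
  rw [f1] at hε hb1
  rw [f2] at hδ2
  have h3 : K ^ (-δ₁) = H ^ (-a) := by
    rw [hH, ← Real.rpow_natCast K d, ← Real.rpow_mul hK0.le, ha]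
    congr 1
    field_simp
  have hK1 : K ^ (1 - δ₁) = K * H ^ (-a) := by
    rw [sub_eq_add_neg, Real.rpow_add hK0, Real.rpow_one, h3]
  have t1 : K ^ (1 - δ₁) * (4 * C * X * P * H ^ ε) * (2 * C * X * P) ≤
      K * X ^ (2 : ℕ) * H ^ (-δ'') / 2 := by
    have e1 : K ^ (1 - δ₁) * (4 * C * X * P * H ^ ε) * (2 * C * X * P) =
        K * X ^ (2 : ℕ) * ((16 * C ^ 2 * P ^ 2) * (H ^ (-a) * H ^ ε)) / 2 := by
      rw [hK1]; ring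
    have e3 : (16 * C ^ 2 * P ^ 2) * (H ^ (-a) * H ^ ε) ≤
        H ^ (a / 4) * (H ^ (-a) * H ^ ε) := by gcongr
    have e4 : H ^ (a / 4) * (H ^ (-a) * H ^ ε) = H ^ (a / 4 + (-a + ε)) := by
      rw [← Real.rpow_add hH0, ← Real.rpow_add hH0]
    have e6 : H ^ (a / 4 + (-a + ε)) ≤ H ^ (-δ'') :=
      Real.rpow_le_rpow_of_exponent_le hH1 (by linarith)
    rw [e1]
    have e7 := e3.trans (e4.le.trans e6)
    gcongr
  have t2 : K * (4 * K ^ (2 * δ') * (4 * (X * H ^ (-δ)))) * (2 * C * X * P) ≤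
      K * X ^ (2 : ℕ) * H ^ (-δ'') / 2 := by
    have e1 : K ^ (2 * δ') ≤ H ^ (δ / 4) :=
      (Real.rpow_le_rpow hK0.le hKH (by positivity)).trans
        (Real.rpow_le_rpow_of_exponent_le hH1 (by linarith))
    have e2 : K * (4 * K ^ (2 * δ') * (4 * (X * H ^ (-δ)))) * (2 * C * X * P) =
        K * X ^ (2 : ℕ) * ((64 * C * P) * (K ^ (2 * δ') * H ^ (-δ))) / 2 := by ring
    have e3 : (64 * C * P) * (K ^ (2 * δ') * H ^ (-δ)) ≤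
        H ^ (δ / 4) * (H ^ (δ / 4) * H ^ (-δ)) := by gcongr
    have e4 : H ^ (δ / 4) * (H ^ (δ / 4) * H ^ (-δ)) = H ^ (δ / 4 + (δ / 4 + -δ)) := by
      rw [← Real.rpow_add hH0, ← Real.rpow_add hH0]
    have e5 : H ^ (δ / 4 + (δ / 4 + -δ)) ≤ H ^ (-δ'') :=
      Real.rpow_le_rpow_of_exponent_le hH1 (by linarith)
    rw [e2]
    have e6 := e3.trans (e4.le.trans e5)
    gcongr
  linarith

lemma nn_le_abs (x : ℝ) : nn x ≤ |x| := by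
  unfold nn
  have := round_le x 0
  simpa using this

/-- the length of the windows -/
lemma length (K δ' : ℝ) (d : ℕ) (hd : 1 ≤ d) (hK : (16 : ℝ) ^ 8 ≤ K) (hδ'0 : 0 < δ')
    (hδ' : δ' ≤ 1 / 8) :
    1 ≤ ⌊K ^ ((d : ℝ) - δ') / 8⌋₊ ∧
    (K ^ d) ^ (3 / 4 : ℝ) ≤ ((⌊K ^ ((d : ℝ) - δ') / 8⌋₊ : ℕ) : ℝ) ∧
    ((⌊K ^ ((d : ℝ) - δ') / 8⌋₊ : ℕ) : ℝ) ≤ K ^ d ∧
    K ^ (δ' - (d : ℝ)) ≤ 1 / (8 * ((⌊K ^ ((d : ℝ) - δ') / 8⌋₊ : ℕ) : ℝ)) := by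
  have hK1 : 1 ≤ K := le_trans (by norm_num) hK
  have hK0 : 0 < K := by linarith
  have hd1 : (1 : ℝ) ≤ d := by exact_mod_cast hd
  obtain ⟨y, hy⟩ : ∃ y : ℝ, y = K ^ ((d : ℝ) - δ') := ⟨_, rfl⟩
  have h2 : 1 ≤ (K ^ d) ^ (3 / 4 : ℝ) := Real.one_le_rpow (one_le_pow₀ hK1) (by norm_num)
  have h1 : 16 * (K ^ d) ^ (3 / 4 : ℝ) ≤ y := by
    have e1 : (K ^ d) ^ (3 / 4 : ℝ) = K ^ ((d : ℝ) * (3 / 4)) := by
      rw [← Real.rpow_natCast K d, ← Real.rpow_mul hK0.le]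
    have e2 : (16 : ℝ) ≤ K ^ (1 / 8 : ℝ) := by
      have h3 : ((16 : ℝ) ^ 8) ^ (1 / 8 : ℝ) ≤ K ^ (1 / 8 : ℝ) :=
        Real.rpow_le_rpow (by positivity) hK (by norm_num)
      have h4 : ((16 : ℝ) ^ 8) ^ (1 / 8 : ℝ) = 16 := by
        rw [← Real.rpow_natCast (16 : ℝ) 8, ← Real.rpow_mul (by norm_num)]
        norm_num
      rwa [h4] at h3
    have e3 : K ^ (1 / 8 : ℝ) * K ^ ((d : ℝ) * (3 / 4)) ≤ y := by
      rw [← Real.rpow_add hK0, hy]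
      exact Real.rpow_le_rpow_of_exponent_le hK1 (by linarith)
    rw [e1]
    refine le_trans ?_ e3
    gcongr
  rw [← hy]
  have hy0 : 0 < y := by linarith
  have h3 : ((⌊y / 8⌋₊ : ℕ) : ℝ) ≤ y / 8 := Nat.floor_le (by positivity)
  have h4 : y / 8 < ((⌊y / 8⌋₊ : ℕ) : ℝ) + 1 := Nat.lt_floor_add_one _
  have h5 : (K ^ d) ^ (3 / 4 : ℝ) ≤ ((⌊y / 8⌋₊ : ℕ) : ℝ) := by linarith
  have h6 : (1 : ℝ) ≤ ((⌊y / 8⌋₊ : ℕ) : ℝ) := h2.trans h5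
  refine ⟨by exact_mod_cast h6, h5, ?_, ?_⟩
  · have e1 : y ≤ K ^ d := by
      rw [hy, ← Real.rpow_natCast K d]
      exact Real.rpow_le_rpow_of_exponent_le hK1 (by linarith)
    linarith
  · have e1 : K ^ (δ' - (d : ℝ)) = y⁻¹ := by
      rw [hy, ← Real.rpow_neg hK0.le]
      congr 1
      ring
    rw [e1, ← one_div]
    exact one_div_le_one_div_of_le (by linarith) (by linarith)

end IX17

open IX17

theorem prX17 (hQ5 : tsQ5) (hH2 : tsH2) (hT1 : tsT1) (hX3 : tsX3) : tsX17 := by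
  intro r E ε₂ η₂ δ A₀ X0 θ₂ hr hAP hCB hε₂ hε₂' hη₂ hη₂' hδ hθ₂ hθ₂' hhyp F A hd hlc hpos
  obtain ⟨A', c, CF, hc, hCF, -, hCFb⟩ := hH2 F hd hlc
  obtain ⟨δ', hδ'0, hδ'1, hδ'2⟩ : ∃ δ' : ℝ, 0 < δ' ∧ δ' ≤ δ / 8 ∧ δ' ≤ 1 / 8 :=
    ⟨min (δ / 8) (1 / 8), lt_min (by positivity) (by norm_num), min_le_left _ _,
      min_le_right _ _⟩
  obtain ⟨δ₁, K0, hδ₁, hT1'⟩ := hT1 F A hd hlc hpos δ' hδ'0 (by linarith)
  have hd0 : (0 : ℝ) < (F.natDegree : ℝ) := by exact_mod_cast hd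
  obtain ⟨δs, hδs, hX3'⟩ := hX3 r E (by omega) hAP.1 hCB
  obtain ⟨ε, hε⟩ : ∃ ε : ℝ, ε = δ₁ / (4 * (F.natDegree : ℝ)) := ⟨_, rfl⟩
  have hε0 : 0 < ε := by rw [hε]; positivity
  obtain ⟨C, hC, hX3''⟩ := hX3' ε hε0
  obtain ⟨δ'', hδ'', hδ1, hδ2⟩ : ∃ δ'' : ℝ, 0 < δ'' ∧ δ'' ≤ δ / 2 ∧
      δ'' ≤ δ₁ / (2 * (F.natDegree : ℝ)) :=
    ⟨min (δ / 2) (δ₁ / (2 * (F.natDegree : ℝ))), lt_min (by positivity) (by positivity),
      min_le_left _ _, min_le_right _ _⟩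
  obtain ⟨A₁, hA1, hA2, hA3, hA4⟩ : ∃ A₁ : ℝ, 1 ≤ A₁ ∧ A₀ ≤ A₁ ∧
      2 * C + 1 ≤ A₁ * (δ₁ / (4 * (F.natDegree : ℝ))) ∧ C + 1 ≤ A₁ * (δ / 4) := by
    have p1 : 0 < δ₁ / (4 * (F.natDegree : ℝ)) := by positivity
    have p2 : 0 < δ / 4 := by positivity
    refine ⟨max (max 1 A₀) (max ((2 * C + 1) / (δ₁ / (4 * (F.natDegree : ℝ)))) ((C + 1) / (δ / 4))),
      (le_max_left _ _).trans (le_max_left _ _), (le_max_right _ _).trans (le_max_left _ _), ?_, ?_⟩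
    · rw [← div_le_iff₀ p1]
      exact (le_max_left _ _).trans (le_max_right _ _)
    · rw [← div_le_iff₀ p2]
      exact (le_max_right _ _).trans (le_max_right _ _)
  -- the conditions on `X`
  have ev1 : ∀ᶠ X : ℝ in atTop, CF * X ^ θ₂ ≤ X / 2 - 1 := by
    have h1 : ∀ᶠ X : ℝ in atTop, 4 * CF ≤ X ^ (1 - θ₂) :=
      (tendsto_rpow_atTop (by linarith : 0 < 1 - θ₂)).eventually_ge_atTop _
    filter_upwards [h1, eventually_ge_atTop (4 : ℝ)] with X hX1 hX4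
    have hX0 : 0 < X := by linarith
    have e1 : X ^ (1 - θ₂) * X ^ θ₂ = X := by
      rw [← Real.rpow_add hX0]; simp
    have e2 : 0 < X ^ θ₂ := by positivity
    nlinarith
  have ev2 : ∀ᶠ X : ℝ in atTop, (max K0 ((16 : ℝ) ^ 8)) ^ F.natDegree ≤ Real.log X :=
    Real.tendsto_log_atTop.eventually_ge_atTop _
  have ev3 : ∀ᶠ X : ℝ in atTop, 16 * C ^ 2 ≤ Real.log X :=
    Real.tendsto_log_atTop.eventually_ge_atTop _
  have ev4 : ∀ᶠ X : ℝ in atTop, 64 * C ≤ Real.log X :=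
    Real.tendsto_log_atTop.eventually_ge_atTop _
  have ev5 : ∀ᶠ X : ℝ in atTop, 2 ≤ X ^ δs :=
    (tendsto_rpow_atTop hδs).eventually_ge_atTop _
  have ev6 : ∀ᶠ X : ℝ in atTop, 1 ≤ Real.log X :=
    Real.tendsto_log_atTop.eventually_ge_atTop _
  obtain ⟨X1, hX1⟩ := (((ev1.and ev2).and (ev3.and ev4)).and
    ((ev5.and (eventually_ge_atTop X0)).and
      ((eventually_ge_atTop (3 : ℝ)).and ev6))).exists_forall_of_atTop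
  refine ⟨δ'', A₁, X1, hδ'', ?_⟩
  intro X H K hXX hHK hH1 hH2'
  obtain ⟨⟨⟨c1, c2⟩, c3, c4⟩, ⟨c5, c6⟩, c7, c8⟩ := hX1 X hXX
  have hX1' : 1 ≤ X := by linarith
  have hX0' : 0 < X := by linarith
  have hlog : Real.log X ≤ H := by
    have h1 := Real.rpow_le_rpow_of_exponent_le c8 hA1
    rw [Real.rpow_one] at h1
    exact h1.trans hH1
  -- `K`
  have hKmax : max K0 ((16 : ℝ) ^ 8) ≤ (K : ℝ) := by
    have h1 : (max K0 ((16 : ℝ) ^ 8)) ^ F.natDegree ≤ (K : ℝ) ^ F.natDegree := by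
      rw [← hHK]
      exact c2.trans hlog
    refine (pow_le_pow_iff_left₀ ?_ (by positivity) (by omega)).1 h1
    exact le_trans (by positivity) (le_max_right _ _)
  have hK0 : K0 ≤ (K : ℝ) := (le_max_left _ _).trans hKmax
  have hK16 : (16 : ℝ) ^ 8 ≤ (K : ℝ) := (le_max_right _ _).trans hKmax
  have hK1r : (1 : ℝ) ≤ K := le_trans (by norm_num) hK16
  have hK1n : 1 ≤ K := by exact_mod_cast hK1r
  have hXθ : X ^ θ₂ ≤ X := by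
    have := Real.rpow_le_rpow_of_exponent_le hX1' hθ₂'.le
    rwa [Real.rpow_one] at this
  have hHge1 : 1 ≤ H := c8.trans hlog
  have hH0 : 0 < H := by linarith
  have hHX0 : H ≤ X := hH2'.trans hXθ
  -- the numbers `N`, `H'`, `L`
  obtain ⟨N, hN⟩ : ∃ N : ℕ, N = ⌊X⌋₊ := ⟨_, rfl⟩
  obtain ⟨H', hH'⟩ : ∃ H' : ℕ, H' = ⌊X / 2⌋₊ := ⟨_, rfl⟩
  obtain ⟨hL1, hL2, hL3, hL4⟩ := length (K : ℝ) δ' F.natDegree hd hK16 hδ'0 hδ'2
  obtain ⟨L, hLdef⟩ : ∃ L : ℕ, L = ⌊(K : ℝ) ^ ((F.natDegree : ℝ) - δ') / 8⌋₊ := ⟨_, rfl⟩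
  rw [← hLdef] at hL1 hL2 hL3 hL4
  rw [← hHK] at hL2 hL3
  have hL1r : (1 : ℝ) ≤ L := by exact_mod_cast hL1
  have hNX : (N : ℝ) ≤ X := by rw [hN]; exact Nat.floor_le hX0'.le
  have hNX' : X < N + 1 := by rw [hN]; exact Nat.lt_floor_add_one _
  have hHX : (H' : ℝ) ≤ X / 2 := by rw [hH']; exact Nat.floor_le (by positivity)
  have hHX' : X / 2 < H' + 1 := by rw [hH']; exact Nat.lt_floor_add_one _
  have hNH : ((N + H' : ℕ) : ℝ) ≤ 2 * X := by push_cast; linarith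
  have hN2 : (N : ℝ) ≤ 2 * X := by linarith
  have hsh : ∀ k ∈ Finset.Ioc A K, fv F k ≤ H' := by
    intro k hk
    rw [Finset.mem_Ioc] at hk
    have hk1 : 1 ≤ k := by omega
    have h1 := hpos k hk.1
    have h2 : ((fv F k : ℕ) : ℝ) = ((F.eval (k : ℤ) : ℤ) : ℝ) := by
      unfold fv
      have : (((F.eval (k : ℤ)).toNat : ℕ) : ℤ) = F.eval (k : ℤ) := Int.toNat_of_nonneg (by omega)
      exact_mod_cast this
    have h3 : ((F.eval (k : ℤ) : ℤ) : ℝ) ≤ CF * (k : ℝ) ^ F.natDegree :=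
      (le_abs_self _).trans (hCFb k hk1)
    have h4 : CF * (k : ℝ) ^ F.natDegree ≤ CF * (K : ℝ) ^ F.natDegree := by
      have : (k : ℝ) ≤ K := by exact_mod_cast hk.2
      gcongr
    have h5 : CF * (K : ℝ) ^ F.natDegree ≤ CF * X ^ θ₂ := by
      rw [← hHK]
      gcongr
    have h6 : ((fv F k : ℕ) : ℝ) < H' + 1 := by rw [h2]; linarith
    have h7 : fv F k < H' + 1 := by exact_mod_cast h6
    omega
  obtain ⟨w, hw⟩ : ∃ w : ℝ, w = (K : ℝ) ^ (1 - δ₁) := ⟨_, rfl⟩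
  have hw0 : 0 ≤ w := by rw [hw]; positivity
  obtain ⟨Y, hY⟩ : ∃ Y : ℝ, Y = (L : ℝ) ^ 2 * X * H ^ (-δ) := ⟨_, rfl⟩
  have hY0 : 0 ≤ Y := by rw [hY]; positivity
  have hY4 : 4 / (L : ℝ) ^ 2 * Y = 4 * (X * H ^ (-δ)) := by
    rw [hY]; field_simp
  obtain ⟨Γ, hΓ1, hΓ2⟩ := hT1' K hK0 hK1n
  have hbad : ∀ t < N + H' + L + 1, w < ‖∑ k ∈ Finset.Ioc A K,
      ee ((fv F k : ℝ) * (t : ℕ) / ((N + H' + L + 1 : ℕ) : ℝ))‖ →
      ∃ g ∈ Γ, nn ((t : ℝ) / ((N + H' + L + 1 : ℕ) : ℝ) - g) ≤ 1 / (8 * (L : ℝ)) := by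
    intro t ht hwt
    rw [hw] at hwt
    obtain ⟨g, hg, hgt⟩ := hΓ2 (N + H' + L + 1) t ht hwt
    exact ⟨g, hg, (nn_le_abs _).trans (hgt.trans hL4)⟩
  -- second moments
  have hQH : ((⌊H ^ η₂⌋₊ : ℕ) : ℝ) ≤ H := by
    refine (Nat.floor_le (by positivity)).trans ?_
    have := Real.rpow_le_rpow_of_exponent_le hHge1 (by linarith : η₂ ≤ 1)
    rwa [Real.rpow_one] at this
  have hw1 : 1 ≤ H ^ (1 / 4 : ℝ) := Real.one_le_rpow hHge1 (by norm_num)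
  have hwX : H ^ (1 / 4 : ℝ) ≤ X := by
    have := Real.rpow_le_rpow_of_exponent_le hHge1 (by norm_num : (1 / 4 : ℝ) ≤ 1)
    rw [Real.rpow_one] at this
    linarith
  obtain ⟨P, hP⟩ : ∃ P : ℝ, P = Real.log X ^ C := ⟨_, rfl⟩
  have hP0 : 0 < P := by rw [hP]; exact Real.rpow_pos_of_pos (by linarith) _
  have hXs : X ^ (1 - δs) ≤ N := by
    have e1 : X ^ (1 - δs) * X ^ δs = X := by
      rw [← Real.rpow_add hX0']; simp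
    have e2 : 0 < X ^ (1 - δs) := by positivity
    nlinarith
  have m1 := hX3'' X (H ^ ε₂) (H ^ (1 / 4 : ℝ)) ⌊H ^ η₂⌋₊ 0 N c7 hw1 hwX (hQH.trans hHX0)
    (Nat.zero_le _) (by linarith) (by push_cast; linarith)
  have m2 := hX3'' X (H ^ ε₂) (H ^ (1 / 4 : ℝ)) ⌊H ^ η₂⌋₊ 0 (N + H') c7 hw1 hwX (hQH.trans hHX0)
    (Nat.zero_le _) (by linarith)
    (by
      push_cast
      have : (0 : ℝ) ≤ H' := Nat.cast_nonneg _
      linarith)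
  rw [← hP] at m1 m2
  obtain ⟨S1, hS1⟩ : ∃ S1 : ℝ, S1 = 4 * C * X * P * H ^ ε := ⟨_, rfl⟩
  obtain ⟨S2, hS2⟩ : ∃ S2 : ℝ, S2 = 2 * C * X * P := ⟨_, rfl⟩
  have hHε : 1 ≤ H ^ ε := Real.one_le_rpow hHge1 hε0.le
  have hs1 : ∑ n ∈ Finset.Icc 1 N, fu r E (H ^ ε₂) (H ^ (1 / 4 : ℝ)) ⌊H ^ η₂⌋₊ n ^ 2 ≤ S1 := by
    have e0 : Finset.Icc 1 N = Finset.Ioc 0 N := by
      ext n
      simp only [Finset.mem_Icc, Finset.mem_Ioc]
      omega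
    have e1 : ∑ n ∈ Finset.Ioc 0 N, fu r E (H ^ ε₂) (H ^ (1 / 4 : ℝ)) ⌊H ^ η₂⌋₊ n ^ 2 ≤
        2 * ∑ n ∈ Finset.Ioc 0 N, up r (H ^ ε₂) (H ^ (1 / 4 : ℝ)) n ^ 2 +
        2 * ∑ n ∈ Finset.Ioc 0 N, fs (Eu E (H ^ ε₂) (H ^ (1 / 4 : ℝ))) ⌊H ^ η₂⌋₊ n ^ 2 := by
      rw [Finset.mul_sum, Finset.mul_sum, ← Finset.sum_add_distrib]
      refine Finset.sum_le_sum fun n _ => ?_
      unfold fu
      nlinarith [sq_nonneg (up r (H ^ ε₂) (H ^ (1 / 4 : ℝ)) n +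
        fs (Eu E (H ^ ε₂) (H ^ (1 / 4 : ℝ))) ⌊H ^ η₂⌋₊ n)]
    have e2 : ∑ n ∈ Finset.Ioc 0 N, up r (H ^ ε₂) (H ^ (1 / 4 : ℝ)) n ^ 2 ≤
        C * X * P * H ^ ε := by
      refine m1.1.trans ?_
      have : C * ((N : ℝ) - (0 : ℕ)) * P ≤ C * X * P := by
        rw [Nat.cast_zero, sub_zero]
        gcongr
      refine this.trans ?_
      exact le_mul_of_one_le_right (by positivity) hHε
    have e3 : ∑ n ∈ Finset.Ioc 0 N, fs (Eu E (H ^ ε₂) (H ^ (1 / 4 : ℝ))) ⌊H ^ η₂⌋₊ n ^ 2 ≤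
        C * X * P * H ^ ε := by
      refine m1.2.2.trans ?_
      rw [Nat.cast_zero, sub_zero]
      have : ((⌊H ^ η₂⌋₊ : ℕ) : ℝ) ^ ε ≤ H ^ ε := Real.rpow_le_rpow (Nat.cast_nonneg _) hQH hε0.le
      gcongr
    rw [e0, hS1]
    linarith
  have hs2 : ∑ n ∈ Finset.Icc 1 (N + H'), dr r n ^ 2 ≤ S2 := by
    have e0 : Finset.Icc 1 (N + H') = Finset.Ioc 0 (N + H') := by
      ext n
      simp only [Finset.mem_Icc, Finset.mem_Ioc]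
      omega
    rw [e0, hS2]
    refine m2.2.1.trans ?_
    rw [Nat.cast_zero, sub_zero]
    have : C * ((N + H' : ℕ) : ℝ) * P ≤ C * (2 * X) * P := by gcongr
    refine this.trans (le_of_eq (by ring))
  have hcard : ((Finset.Ioc A K).card : ℝ) ≤ K := by
    rw [Nat.card_Ioc]
    exact_mod_cast Nat.sub_le K A
  have hlog0 : 0 < Real.log X := by linarith
  have hb1 : 16 * C ^ 2 * P ^ 2 ≤ H ^ (δ₁ / (4 * (F.natDegree : ℝ))) := by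
    have e1 : (Real.log X ^ A₁) ^ (δ₁ / (4 * (F.natDegree : ℝ))) ≤
        H ^ (δ₁ / (4 * (F.natDegree : ℝ))) :=
      Real.rpow_le_rpow (by positivity) hH1 (by positivity)
    rw [← Real.rpow_mul hlog0.le] at e1
    have e2 : Real.log X ^ (2 * C + 1) ≤ Real.log X ^ (A₁ * (δ₁ / (4 * (F.natDegree : ℝ)))) :=
      Real.rpow_le_rpow_of_exponent_le c8 hA3
    have e3 : Real.log X ^ (2 * C + 1) = Real.log X * P ^ 2 := by
      rw [Real.rpow_add hlog0, Real.rpow_one, hP, ← Real.rpow_natCast (Real.log X ^ C) 2,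
        ← Real.rpow_mul hlog0.le, mul_comm (2 : ℝ) C, mul_comm]
      norm_num
    have e4 : 16 * C ^ 2 * P ^ 2 ≤ Real.log X * P ^ 2 := by gcongr
    linarith
  have hb2 : 64 * C * P ≤ H ^ (δ / 4) := by
    have e1 : (Real.log X ^ A₁) ^ (δ / 4) ≤ H ^ (δ / 4) :=
      Real.rpow_le_rpow (by positivity) hH1 (by positivity)
    rw [← Real.rpow_mul hlog0.le] at e1
    have e2 : Real.log X ^ (C + 1) ≤ Real.log X ^ (A₁ * (δ / 4)) :=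
      Real.rpow_le_rpow_of_exponent_le c8 hA4
    have e3 : Real.log X ^ (C + 1) = Real.log X * P := by
      rw [Real.rpow_add hlog0, Real.rpow_one, hP, mul_comm]
    have e4 : 64 * C * P ≤ Real.log X * P := by gcongr
    linarith
  have hfin := numer (K : ℝ) X H C P δ₁ δ ε δ'' δ' F.natDegree hd hK1r hX0' hHK hC hP0 hδ'0 hδ'1
    hε hδ1 hδ2 hb1 hb2
  have h1 := (hQ5 (Finset.Ioc A K) (fv F) (fu r E (H ^ ε₂) (H ^ (1 / 4 : ℝ)) ⌊H ^ η₂⌋₊) (dr r) N H'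
    L (N + H' + L + 1) w Y Γ hL1 (Nat.lt_succ_self _) hsh hw0 hY0 hbad).1
    (fun γ => by
      rw [hY]
      exact hhyp X H γ N L c6
        ((Real.rpow_le_rpow_of_exponent_le c8 hA2).trans hH1) hH2' hN2 hL2 hL3)
  rw [← hN]
  refine h1.trans (le_trans ?_ hfin)
  have hn1 : 0 ≤ ∑ n ∈ Finset.Icc 1 N, fu r E (H ^ ε₂) (H ^ (1 / 4 : ℝ)) ⌊H ^ η₂⌋₊ n ^ 2 :=
    Finset.sum_nonneg fun m _ => sq_nonneg _
  have hn2 : 0 ≤ ∑ n ∈ Finset.Icc 1 (N + H'), dr r n ^ 2 :=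
    Finset.sum_nonneg fun m _ => sq_nonneg _
  have hS1' : 0 ≤ S1 := hn1.trans hs1
  have hS2' : 0 ≤ S2 := hn2.trans hs2
  rw [← hS1, ← hS2, ← hw, hY4]
  gcongr

end Pool.Agent.Work.MP_122e00_nt.TS
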