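import Pool.Agent.Work.MP_122e00_nt.TS.Stmts8

set_option autoImplicit false

namespace Pool.Agent.Work.MP_122e00_nt.TS

open Finset Filter Topology ArithmeticFunction MeasureTheory
open scoped ArithmeticFunction.zeta ArithmeticFunction.Moebius

namespace IN16

theorem log_lower {x : ℝ} (hx : 0 ≤ x) : x - x ^ 2 / 2 ≤ Real.log (1 + x) := by
  have h := Real.le_log_one_add_of_nonneg hx
  refine le_trans ?_ h
  rw [le_div_iff₀ (by linarith)]
  nlinarith [mul_nonneg (mul_nonneg hx hx) hx]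

theorem log_upper {x : ℝ} (hx : 0 ≤ x) (hx1 : x ≤ 1 / 2) : -Real.log (1 - x) ≤ x + 2 * x ^ 2 := by
  have h := Real.one_sub_inv_le_log_of_pos (show (0 : ℝ) < 1 - x by linarith)
  have h2 : (1 - x)⁻¹ ≤ 1 + x + 2 * x ^ 2 := by
    rw [inv_le_iff_one_le_mul₀ (by linarith)]
    nlinarith [mul_nonneg (mul_nonneg hx hx) (show (0 : ℝ) ≤ 1 - 2 * x by linarith)]
  linarith

/-- the pointwise bound -/
theorem point {t m : ℝ} (ht : 0 < t) (ht1 : t ≤ 1 / 2) (hm : 4 / t ≤ m) (k : ℕ) :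
    |1 - (k : ℝ) / m| ≤ t + (1 + t / 2) ^ k * Real.exp (-((1 + t) * m * Real.log (1 + t / 2))) +
      (1 - t / 2) ^ k * Real.exp (-((1 - t) * m * Real.log (1 - t / 2))) := by
  have hm0 : 0 < m := lt_of_lt_of_le (by positivity) hm
  have e1 : (1 + t / 2) ^ k * Real.exp (-((1 + t) * m * Real.log (1 + t / 2))) =
      Real.exp (((k : ℝ) - (1 + t) * m) * Real.log (1 + t / 2)) := by
    have hp : (0 : ℝ) < 1 + t / 2 := by linarith
    have hs : ((k : ℝ) - (1 + t) * m) * Real.log (1 + t / 2) =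
        Real.log (1 + t / 2) * k + -((1 + t) * m * Real.log (1 + t / 2)) := by ring
    rw [hs, Real.exp_add, ← Real.rpow_def_of_pos hp, Real.rpow_natCast]
  have e2 : (1 - t / 2) ^ k * Real.exp (-((1 - t) * m * Real.log (1 - t / 2))) =
      Real.exp (((k : ℝ) - (1 - t) * m) * Real.log (1 - t / 2)) := by
    have hp : (0 : ℝ) < 1 - t / 2 := by linarith
    have hs : ((k : ℝ) - (1 - t) * m) * Real.log (1 - t / 2) =
        Real.log (1 - t / 2) * k + -((1 - t) * m * Real.log (1 - t / 2)) := by ring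
    rw [hs, Real.exp_add, ← Real.rpow_def_of_pos hp, Real.rpow_natCast]
  rw [e1, e2]
  have p1 := Real.exp_pos (((k : ℝ) - (1 + t) * m) * Real.log (1 + t / 2))
  have p2 := Real.exp_pos (((k : ℝ) - (1 - t) * m) * Real.log (1 - t / 2))
  have hkm : (k : ℝ) / m * m = k := div_mul_cancel₀ _ hm0.ne'
  have hk0 : 0 ≤ (k : ℝ) / m := by positivity
  rcases le_or_gt (k : ℝ) ((1 + t) * m) with h1 | h1
  · rcases le_or_gt ((1 - t) * m) (k : ℝ) with h2 | h2
    · have a1 : (k : ℝ) / m ≤ 1 + t := by rw [div_le_iff₀ hm0]; exact h1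
      have a2 : 1 - t ≤ (k : ℝ) / m := by rw [le_div_iff₀ hm0]; exact h2
      have : |1 - (k : ℝ) / m| ≤ t := by
        rw [abs_le]; constructor <;> linarith
      linarith
    · have a1 : (k : ℝ) / m ≤ 1 := by
        rw [div_le_iff₀ hm0]
        nlinarith
      have a3 : |1 - (k : ℝ) / m| ≤ 1 := by
        rw [abs_le]; constructor <;> linarith
      have a4 : 1 ≤ Real.exp (((k : ℝ) - (1 - t) * m) * Real.log (1 - t / 2)) := by
        apply Real.one_le_exp
        apply mul_nonneg_of_nonpos_of_nonpos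
        · linarith
        · exact Real.log_nonpos (by linarith) (by linarith)
      linarith
  · have a0 : 1 / m ≤ t / 4 := by
      rw [div_le_iff₀ hm0]
      rw [div_le_iff₀ ht] at hm
      nlinarith
    have b1 : t / 4 ≤ Real.log (1 + t / 2) := by
      have := log_lower (show (0 : ℝ) ≤ t / 2 by linarith)
      nlinarith
    have b2 : 1 + ((k : ℝ) - (1 + t) * m) * (t / 4) ≤
        Real.exp (((k : ℝ) - (1 + t) * m) * Real.log (1 + t / 2)) := by
      have := Real.add_one_le_exp (((k : ℝ) - (1 + t) * m) * Real.log (1 + t / 2))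
      have c : ((k : ℝ) - (1 + t) * m) * (t / 4) ≤
          ((k : ℝ) - (1 + t) * m) * Real.log (1 + t / 2) :=
        mul_le_mul_of_nonneg_left b1 (by linarith)
      linarith
    have b3 : (k : ℝ) / m = (1 + t) + ((k : ℝ) - (1 + t) * m) * (1 / m) := by
      field_simp
      ring
    have b4 : ((k : ℝ) - (1 + t) * m) * (1 / m) ≤ ((k : ℝ) - (1 + t) * m) * (t / 4) :=
      mul_le_mul_of_nonneg_left a0 (by linarith)
    have b5 : 0 ≤ ((k : ℝ) - (1 + t) * m) * (1 / m) :=
      mul_nonneg (by linarith) (by positivity)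
    have b6 : |1 - (k : ℝ) / m| = (k : ℝ) / m - 1 := by
      rw [abs_sub_comm, abs_of_nonneg]
      rw [b3]; linarith
    rw [b6, b3]
    linarith

theorem dr_nonneg (r n : ℕ) : 0 ≤ dr r n := by
  unfold dr
  exact Nat.cast_nonneg _

theorem Sh_nonneg (h : ℕ) : 0 ≤ Sh h := by
  unfold Sh
  exact Finset.sum_nonneg fun p _ => by positivity

end IN16

open IN16 in
theorem prN16 (h1 : tsN1) (h12 : tsN12) (h14 : tsN14) (h15 : tsN15) : tsN16 := by
  intro r θw κ hr hθ0 hθ1 hκ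
  obtain ⟨CM, hCM, -, hM⟩ := h1
  obtain ⟨C, hC, hN12⟩ := h12 r hr
  obtain ⟨C14, hC14, hN14⟩ := h14
  set t : ℝ := min (1 / 2) (κ / (4 * C)) with ht_def
  have ht0 : 0 < t := lt_min (by norm_num) (by positivity)
  have ht1 : t ≤ 1 / 2 := min_le_left _ _
  have htC : t * C ≤ κ / 4 := by
    have : t ≤ κ / (4 * C) := min_le_right _ _
    calc t * C ≤ κ / (4 * C) * C := mul_le_mul_of_nonneg_right this hC.le
      _ = κ / 4 := by field_simp
  have hr1 : (2 : ℝ) ≤ (r : ℝ) := by exact_mod_cast hr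
  set J0 : ℝ := 4 / t + ((r : ℝ) ^ 2 + |Real.log (4 * C / κ)|) / (t ^ 3 / 2) with hJ0
  have hδ : 0 < t ^ 3 / 2 := by positivity
  have hJ0a : 4 / t ≤ J0 := by
    rw [hJ0]
    have : 0 ≤ ((r : ℝ) ^ 2 + |Real.log (4 * C / κ)|) / (t ^ 3 / 2) := by positivity
    linarith
  have h4t : 8 ≤ 4 / t := by
    rw [le_div_iff₀ ht0]; linarith
  have hJ0b : (r : ℝ) ^ 2 + |Real.log (4 * C / κ)| ≤ J0 * (t ^ 3 / 2) := by
    rw [hJ0, add_mul, div_mul_cancel₀ _ hδ.ne']
    have : 0 ≤ 4 / t * (t ^ 3 / 2) := by positivity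
    linarith
  refine ⟨θw * Real.exp (-(J0 + CM + r)), by positivity, ?_, ?_⟩
  · have : Real.exp (-(J0 + CM + r)) ≤ 1 := by
      apply Real.exp_le_one_iff.mpr
      linarith
    calc θw * Real.exp (-(J0 + CM + r)) ≤ θw * 1 := mul_le_mul_of_nonneg_left this hθ0.le
      _ = θw := mul_one _
  intro ε₂ hε0 hε1
  have hεθ : ε₂ < θw := by
    have : Real.exp (-(J0 + CM + r)) ≤ 1 := by
      apply Real.exp_le_one_iff.mpr
      linarith
    calc ε₂ < θw * Real.exp (-(J0 + CM + r)) := hε1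
      _ ≤ θw * 1 := mul_le_mul_of_nonneg_left this hθ0.le
      _ = θw := mul_one _
  obtain ⟨X12, hX12⟩ := hN12 ε₂ θw hε0 hεθ hθ1
  obtain ⟨X15, hX15⟩ := h15 r ε₂ θw (by omega) hε0 hεθ hθ1
  have ev : ∀ᶠ X : ℝ in atTop, X12 ≤ X ∧ X15 ≤ X ∧ 3 ≤ X ∧ 2 ≤ X ^ ε₂ ∧ 2 * C14 ≤ Real.log X ∧
      1 ≤ Real.log X ∧ 4 / κ ≤ X ^ (ε₂ / 2) := by
    filter_upwards [eventually_ge_atTop X12, eventually_ge_atTop X15, eventually_ge_atTop 3,
      (tendsto_rpow_atTop hε0).eventually_ge_atTop 2,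
      Real.tendsto_log_atTop.eventually_ge_atTop (2 * C14),
      Real.tendsto_log_atTop.eventually_ge_atTop 1,
      (tendsto_rpow_atTop (half_pos hε0)).eventually_ge_atTop (4 / κ)] with X a b c d e f g
    exact ⟨a, b, c, d, e, f, g⟩
  obtain ⟨X0, hX0⟩ := eventually_atTop.mp ev
  refine ⟨X0, fun X h hX hh hhX => ?_⟩
  obtain ⟨x12, x15, x3, xe, xC, xl, xκ⟩ := hX0 X hX
  have hXpos : 0 < X := by linarith
  have hX1 : 1 ≤ X := by linarith
  set z : ℝ := X ^ ε₂ with hz
  set w : ℝ := X ^ θw with hw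
  set P : ℝ := pw z w with hP
  set J : ℝ := jw r X z w with hJ
  have hlw : Real.log w = θw * Real.log X := Real.log_rpow hXpos _
  have hlz : Real.log z = ε₂ * Real.log X := Real.log_rpow hXpos _
  have hzw : z ≤ w := Real.rpow_le_rpow_of_exponent_le hX1 hεθ.le
  have hw1 : 1 ≤ w := Real.one_le_rpow hX1 hθ0.le
  have hwX : w ≤ X := by
    calc w ≤ X ^ (1 : ℝ) := Real.rpow_le_rpow_of_exponent_le hX1 (by linarith)
      _ = X := Real.rpow_one X
  have hPl : Real.log (θw / ε₂) - CM ≤ P := by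
    have := abs_le.mp (hM z w xe hzw)
    rw [hlw, hlz, mul_div_mul_right _ _ (by linarith : Real.log X ≠ 0)] at this
    linarith [this.1]
  obtain ⟨hJP, hJl⟩ := hN14 r X z w (by omega) x3 hw1 hwX
  have hJP' : J ≤ P := hJP
  have hPJ : P ≤ J + r := by
    have : (r : ℝ) * (Real.log w + C14) / Real.log X ≤ r := by
      rw [div_le_iff₀ (by linarith), hlw]
      apply mul_le_mul_of_nonneg_left _ (by linarith)
      nlinarith
    linarith
  have hJ0J : J0 ≤ J := by
    have h2 : J0 + CM + r ≤ Real.log (θw / ε₂) := by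
      rw [Real.le_log_iff_exp_le (by positivity), le_div_iff₀ hε0]
      have h3 : ε₂ * Real.exp (J0 + CM + r) ≤ θw := by
        calc ε₂ * Real.exp (J0 + CM + r)
            ≤ θw * Real.exp (-(J0 + CM + r)) * Real.exp (J0 + CM + r) :=
              mul_le_mul_of_nonneg_right hε1.le (Real.exp_pos _).le
          _ = θw := by
              rw [mul_assoc, ← Real.exp_add, neg_add_cancel, Real.exp_zero, mul_one]
      linarith
    linarith
  have hJ8 : 8 ≤ J := by linarith
  refine ⟨by linarith, ?_⟩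
  set m : ℝ := (r : ℝ) * J with hm
  have hmJ : J ≤ m := by
    rw [hm]; nlinarith
  have hm4 : 4 / t ≤ m := by linarith
  have hm0 : 0 < m := by linarith
  -- the majorant
  set M : ℝ := Real.exp (((r : ℝ) - 1) ^ 2 * Sh h) * X * Real.log X ^ (2 * r - 2) with hMd
  have hMX : X ≤ M := by
    have a1 : 1 ≤ Real.exp (((r : ℝ) - 1) ^ 2 * Sh h) :=
      Real.one_le_exp (mul_nonneg (sq_nonneg _) (Sh_nonneg h))
    have a2 : 1 ≤ Real.log X ^ (2 * r - 2) := one_le_pow₀ xl
    calc X = 1 * X * 1 := by ring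
      _ ≤ Real.exp (((r : ℝ) - 1) ^ 2 * Sh h) * X * Real.log X ^ (2 * r - 2) := by
        apply mul_le_mul _ a2 (by norm_num) (by positivity)
        exact mul_le_mul_of_nonneg_right a1 hXpos.le
  have hM0 : 0 ≤ M := by linarith
  have key : ∀ y : ℝ, 1 / 2 ≤ y → y ≤ 2 →
      ∑ n ∈ Finset.Icc 1 ⌊X⌋₊, dr r n * y ^ ow z w n * dr r (n + h) ≤
        C * Real.exp (r * (y - 1) * P) * M := by
    intro y hy1 hy2
    refine (hX12 X y h x12 hh hhX hy1 hy2).trans (le_of_eq ?_)
    rw [hMd, Real.exp_add]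
    ring
  -- the three sums
  have s0 : ∑ n ∈ Finset.Icc 1 ⌊X⌋₊, dr r n * dr r (n + h) ≤ C * M := by
    have := key 1 (by norm_num) (by norm_num)
    simpa using this
  have s1 := key (1 + t / 2) (by linarith) (by linarith)
  have s2 := key (1 - t / 2) (by linarith) (by linarith)
  have hexp : C * Real.exp ((r : ℝ) ^ 2 - m * (t ^ 3 / 2)) ≤ κ / 4 := by
    have a1 : (r : ℝ) ^ 2 - m * (t ^ 3 / 2) ≤ -Real.log (4 * C / κ) := by
      have b1 : J0 * (t ^ 3 / 2) ≤ m * (t ^ 3 / 2) :=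
        mul_le_mul_of_nonneg_right (by linarith) hδ.le
      have b2 := le_abs_self (Real.log (4 * C / κ))
      linarith
    calc C * Real.exp ((r : ℝ) ^ 2 - m * (t ^ 3 / 2))
        ≤ C * Real.exp (-Real.log (4 * C / κ)) :=
          mul_le_mul_of_nonneg_left (Real.exp_le_exp.mpr a1) hC.le
      _ = κ / 4 := by
          rw [Real.exp_neg, Real.exp_log (by positivity)]
          field_simp
  have f1 : Real.exp (-((1 + t) * m * Real.log (1 + t / 2))) *
      (C * Real.exp (r * ((1 + t / 2) - 1) * P) * M) ≤ κ / 4 * M := by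
    have a1 : -((1 + t) * m * Real.log (1 + t / 2)) + r * ((1 + t / 2) - 1) * P ≤
        (r : ℝ) ^ 2 - m * (t ^ 3 / 2) := by
      have l1 := log_lower (show (0 : ℝ) ≤ t / 2 by linarith)
      have l2 : (1 + t) * (t / 2 - (t / 2) ^ 2 / 2) ≤ (1 + t) * Real.log (1 + t / 2) :=
        mul_le_mul_of_nonneg_left l1 (by linarith)
      have l3 : t / 2 + t ^ 3 / 2 ≤ (1 + t) * (t / 2 - (t / 2) ^ 2 / 2) := by
        nlinarith [mul_nonneg (mul_nonneg ht0.le ht0.le) (show (0 : ℝ) ≤ 1 / 2 - t by linarith)]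
      have l4 : m * (t / 2 + t ^ 3 / 2) ≤ m * ((1 + t) * Real.log (1 + t / 2)) :=
        mul_le_mul_of_nonneg_left (l3.trans l2) hm0.le
      have l5 : (r : ℝ) * (t / 2) * P ≤ (r : ℝ) * (t / 2) * (J + r) :=
        mul_le_mul_of_nonneg_left hPJ (by positivity)
      have l6 : (r : ℝ) * (t / 2) * (J + r) ≤ m * (t / 2) + (r : ℝ) ^ 2 := by
        rw [hm]
        nlinarith [mul_nonneg (sq_nonneg (r : ℝ)) (show (0 : ℝ) ≤ 1 - t / 2 by linarith)]
      nlinarith
    calc Real.exp (-((1 + t) * m * Real.log (1 + t / 2))) *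
        (C * Real.exp (r * ((1 + t / 2) - 1) * P) * M)
        = C * Real.exp (-((1 + t) * m * Real.log (1 + t / 2)) + r * ((1 + t / 2) - 1) * P) * M := by
          rw [Real.exp_add]; ring
      _ ≤ C * Real.exp ((r : ℝ) ^ 2 - m * (t ^ 3 / 2)) * M := by
          apply mul_le_mul_of_nonneg_right _ hM0
          exact mul_le_mul_of_nonneg_left (Real.exp_le_exp.mpr a1) hC.le
      _ ≤ κ / 4 * M := mul_le_mul_of_nonneg_right hexp hM0
  have f2 : Real.exp (-((1 - t) * m * Real.log (1 - t / 2))) *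
      (C * Real.exp (r * ((1 - t / 2) - 1) * P) * M) ≤ κ / 4 * M := by
    have a1 : -((1 - t) * m * Real.log (1 - t / 2)) + r * ((1 - t / 2) - 1) * P ≤
        (r : ℝ) ^ 2 - m * (t ^ 3 / 2) := by
      have l1 := log_upper (show (0 : ℝ) ≤ t / 2 by linarith) (by linarith)
      have l2 : (1 - t) * (-Real.log (1 - t / 2)) ≤ (1 - t) * (t / 2 + 2 * (t / 2) ^ 2) :=
        mul_le_mul_of_nonneg_left l1 (by linarith)
      have l3 : (1 - t) * (t / 2 + 2 * (t / 2) ^ 2) = t / 2 - t ^ 3 / 2 := by ring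
      have l4 : m * ((1 - t) * (-Real.log (1 - t / 2))) ≤ m * (t / 2 - t ^ 3 / 2) := by
        rw [← l3]
        exact mul_le_mul_of_nonneg_left l2 hm0.le
      have l5 : (r : ℝ) * (t / 2) * J ≤ (r : ℝ) * (t / 2) * P :=
        mul_le_mul_of_nonneg_left hJP' (by positivity)
      have l6 : (r : ℝ) * (t / 2) * J = m * (t / 2) := by rw [hm]; ring
      nlinarith [sq_nonneg (r : ℝ)]
    calc Real.exp (-((1 - t) * m * Real.log (1 - t / 2))) *
        (C * Real.exp (r * ((1 - t / 2) - 1) * P) * M)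
        = C * Real.exp (-((1 - t) * m * Real.log (1 - t / 2)) + r * ((1 - t / 2) - 1) * P) * M := by
          rw [Real.exp_add]; ring
      _ ≤ C * Real.exp ((r : ℝ) ^ 2 - m * (t ^ 3 / 2)) * M := by
          apply mul_le_mul_of_nonneg_right _ hM0
          exact mul_le_mul_of_nonneg_left (Real.exp_le_exp.mpr a1) hC.le
      _ ≤ κ / 4 * M := mul_le_mul_of_nonneg_right hexp hM0
  have f3 : X ^ (1 - ε₂ / 2) ≤ κ / 4 * M := by
    have a1 : X ^ (1 - ε₂ / 2) = X / X ^ (ε₂ / 2) := by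
      rw [Real.rpow_sub hXpos, Real.rpow_one]
    rw [a1, div_le_iff₀ (by positivity)]
    have a2 : 1 ≤ κ / 4 * X ^ (ε₂ / 2) := by
      calc (1 : ℝ) = κ / 4 * (4 / κ) := by field_simp
        _ ≤ κ / 4 * X ^ (ε₂ / 2) := mul_le_mul_of_nonneg_left xκ (by positivity)
    calc X = X * 1 := (mul_one X).symm
      _ ≤ M * (κ / 4 * X ^ (ε₂ / 2)) := mul_le_mul hMX a2 (by norm_num) hM0
      _ = κ / 4 * M * X ^ (ε₂ / 2) := by ring
  have hJne : J ≠ 0 := by linarith
  have hrne : (r : ℝ) ≠ 0 := by linarith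
  have hdec : cor (dr r) (dr r) ⌊X⌋₊ h - cor (up r z w) (dr r) ⌊X⌋₊ h / J =
      ∑ n ∈ Finset.Icc 1 ⌊X⌋₊, (dr r n * dr r (n + h) * (1 - (ow z w n : ℝ) / m) -
        (r * up r z w n - (ow z w n : ℝ) * dr r n) * dr r (n + h) * (1 / m)) := by
    unfold cor
    rw [Finset.sum_div, ← Finset.sum_sub_distrib]
    apply Finset.sum_congr rfl
    intro n _
    rw [hm]
    field_simp
    ring
  rw [hdec]
  have hpt : ∀ n ∈ Finset.Icc 1 ⌊X⌋₊, |dr r n * dr r (n + h) * (1 - (ow z w n : ℝ) / m) -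
        (r * up r z w n - (ow z w n : ℝ) * dr r n) * dr r (n + h) * (1 / m)| ≤
      t * (dr r n * dr r (n + h)) +
      Real.exp (-((1 + t) * m * Real.log (1 + t / 2))) *
        (dr r n * (1 + t / 2) ^ ow z w n * dr r (n + h)) +
      Real.exp (-((1 - t) * m * Real.log (1 - t / 2))) *
        (dr r n * (1 - t / 2) ^ ow z w n * dr r (n + h)) +
      |r * up r z w n - (ow z w n : ℝ) * dr r n| * dr r (n + h) := by
    intro n _
    have d1 := dr_nonneg r n
    have d2 := dr_nonneg r (n + h)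
    have b1 : |dr r n * dr r (n + h) * (1 - (ow z w n : ℝ) / m)| ≤
        dr r n * dr r (n + h) * (t + (1 + t / 2) ^ ow z w n *
          Real.exp (-((1 + t) * m * Real.log (1 + t / 2))) +
        (1 - t / 2) ^ ow z w n * Real.exp (-((1 - t) * m * Real.log (1 - t / 2)))) := by
      rw [abs_mul, abs_of_nonneg (mul_nonneg d1 d2)]
      exact mul_le_mul_of_nonneg_left (point ht0 ht1 hm4 _) (mul_nonneg d1 d2)
    have b2 : |(r * up r z w n - (ow z w n : ℝ) * dr r n) * dr r (n + h) * (1 / m)| ≤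
        |r * up r z w n - (ow z w n : ℝ) * dr r n| * dr r (n + h) := by
      rw [abs_mul, abs_mul, abs_of_nonneg d2, abs_of_nonneg (by positivity : 0 ≤ 1 / m)]
      have : 1 / m ≤ 1 := by
        rw [div_le_one hm0]; linarith
      calc |r * up r z w n - (ow z w n : ℝ) * dr r n| * dr r (n + h) * (1 / m)
          ≤ |r * up r z w n - (ow z w n : ℝ) * dr r n| * dr r (n + h) * 1 :=
            mul_le_mul_of_nonneg_left this (mul_nonneg (abs_nonneg _) d2)
        _ = _ := mul_one _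
    refine (abs_sub _ _).trans ?_
    refine (add_le_add b1 b2).trans (le_of_eq ?_)
    ring
  calc |∑ n ∈ Finset.Icc 1 ⌊X⌋₊, (dr r n * dr r (n + h) * (1 - (ow z w n : ℝ) / m) -
        (r * up r z w n - (ow z w n : ℝ) * dr r n) * dr r (n + h) * (1 / m))|
      ≤ ∑ n ∈ Finset.Icc 1 ⌊X⌋₊, (t * (dr r n * dr r (n + h)) +
      Real.exp (-((1 + t) * m * Real.log (1 + t / 2))) *
        (dr r n * (1 + t / 2) ^ ow z w n * dr r (n + h)) +
      Real.exp (-((1 - t) * m * Real.log (1 - t / 2))) *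
        (dr r n * (1 - t / 2) ^ ow z w n * dr r (n + h)) +
      |r * up r z w n - (ow z w n : ℝ) * dr r n| * dr r (n + h)) :=
        (Finset.abs_sum_le_sum_abs _ _).trans (Finset.sum_le_sum hpt)
    _ = t * ∑ n ∈ Finset.Icc 1 ⌊X⌋₊, dr r n * dr r (n + h) +
      Real.exp (-((1 + t) * m * Real.log (1 + t / 2))) *
        ∑ n ∈ Finset.Icc 1 ⌊X⌋₊, dr r n * (1 + t / 2) ^ ow z w n * dr r (n + h) +
      Real.exp (-((1 - t) * m * Real.log (1 - t / 2))) *
        ∑ n ∈ Finset.Icc 1 ⌊X⌋₊, dr r n * (1 - t / 2) ^ ow z w n * dr r (n + h) +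
      ∑ n ∈ Finset.Icc 1 ⌊X⌋₊, |r * up r z w n - (ow z w n : ℝ) * dr r n| * dr r (n + h) := by
        rw [Finset.sum_add_distrib, Finset.sum_add_distrib, Finset.sum_add_distrib,
          ← Finset.mul_sum, ← Finset.mul_sum, ← Finset.mul_sum]
    _ ≤ t * (C * M) + κ / 4 * M + κ / 4 * M + κ / 4 * M := by
        have g1 := mul_le_mul_of_nonneg_left s0 ht0.le
        have g2 := (mul_le_mul_of_nonneg_left s1
          (Real.exp_pos (-((1 + t) * m * Real.log (1 + t / 2)))).le).trans f1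
        have g3 := (mul_le_mul_of_nonneg_left s2
          (Real.exp_pos (-((1 - t) * m * Real.log (1 - t / 2)))).le).trans f2
        have g4 := (hX15 X h x15 hh hhX).trans f3
        linarith
    _ ≤ κ * M := by
        have : t * (C * M) ≤ κ / 4 * M := by
          rw [← mul_assoc]
          exact mul_le_mul_of_nonneg_right htC hM0
        linarith
    _ = κ * Real.exp (((r : ℝ) - 1) ^ 2 * Sh h) * X * Real.log X ^ (2 * r - 2) := by
        rw [hMd]; ring

end Pool.Agent.Work.MP_122e00_nt.TS
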