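import Mathlib
import Pool.Agent.Work.MP_122e00_nt.TS.Stmts10

/-!
# Thin shifts, item Z6: the asymptotic formula for one shift, without condition on `ta h`
-/

namespace Pool.Agent.Work.MP_122e00_nt.TS

open Finset Filter Topology ArithmeticFunction MeasureTheory
open scoped ArithmeticFunction.zeta ArithmeticFunction.Moebius

namespace IZ6

lemma ev_rpow {δ c : ℝ} (hδ : 0 < δ) (hc : 0 < c) : ∀ᶠ X : ℝ in atTop, X ^ (-δ) ≤ c :=
  (tendsto_rpow_neg_atTop hδ).eventually_le_const hc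

lemma ev_logpow (n : ℕ) (C : ℝ) {δ c : ℝ} (hδ : 0 < δ) (hc : 0 < c) :
    ∀ᶠ X : ℝ in atTop, C * (1 + Real.log X) ^ n * X ^ (-δ) ≤ c := by
  have hc' : 0 < c / ((|C| + 1) * 2 ^ n) := by positivity
  have h := (isLittleO_log_rpow_rpow_atTop (n : ℝ) hδ).bound hc'
  filter_upwards [h, Real.tendsto_log_atTop.eventually_ge_atTop 1, eventually_gt_atTop (0 : ℝ)]
    with X h1 h2 h3
  have hL0 : 0 ≤ Real.log X := by linarith
  rw [Real.rpow_natCast, Real.norm_of_nonneg (by positivity), Real.norm_of_nonneg (by positivity)] at h1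
  have h4 : (1 + Real.log X) ^ n ≤ 2 ^ n * Real.log X ^ n := by
    rw [← mul_pow]
    exact pow_le_pow_left₀ (by linarith) (by linarith) n
  have h5 : X ^ (-δ) * X ^ δ = 1 := by
    rw [← Real.rpow_add h3, neg_add_cancel, Real.rpow_zero]
  have h6 : 0 ≤ X ^ (-δ) := by positivity
  calc C * (1 + Real.log X) ^ n * X ^ (-δ)
      ≤ (|C| + 1) * (2 ^ n * Real.log X ^ n) * X ^ (-δ) := by
        have : C ≤ |C| + 1 := (le_abs_self C).trans (by linarith)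
        gcongr
    _ ≤ (|C| + 1) * (2 ^ n * (c / ((|C| + 1) * 2 ^ n) * X ^ δ)) * X ^ (-δ) := by
        gcongr
    _ = (|C| + 1) * 2 ^ n * (c / ((|C| + 1) * 2 ^ n)) * (X ^ (-δ) * X ^ δ) := by ring
    _ = c := by
        rw [h5, mul_one]
        have : (|C| + 1) * 2 ^ n ≠ 0 := by positivity
        field_simp

lemma ev_ll (C : ℝ) {c : ℝ} (hc : 0 < c) :
    ∀ᶠ X : ℝ in atTop, Real.log (2 * Real.log X) ^ C ≤ c * Real.log X := by
  have h := (isLittleO_log_rpow_rpow_atTop C one_pos).bound (by positivity : 0 < c / 2)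
  have ht : Tendsto (fun X : ℝ => 2 * Real.log X) atTop atTop :=
    Real.tendsto_log_atTop.const_mul_atTop (by norm_num)
  filter_upwards [ht.eventually h, Real.tendsto_log_atTop.eventually_ge_atTop 1] with X h1 h2
  have h3 : 0 ≤ Real.log (2 * Real.log X) := Real.log_nonneg (by linarith)
  rw [Real.rpow_one, Real.norm_of_nonneg (by positivity), Real.norm_of_nonneg (by positivity)] at h1
  calc _ ≤ c / 2 * (2 * Real.log X) := h1
    _ = c * Real.log X := by ring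

lemma ll_nonneg (h : ℕ) : 0 ≤ ll h := by
  unfold ll
  apply Real.log_nonneg
  rw [Real.le_log_iff_exp_le (by positivity)]
  have h1 := Real.exp_one_lt_d9
  have h2 : (0 : ℝ) ≤ h := Nat.cast_nonneg h
  linarith

lemma ll_le {X : ℝ} {h : ℕ} (hX : 5 ≤ X) (hh : (h : ℝ) ≤ X) : ll h ≤ Real.log (2 * Real.log X) := by
  unfold ll
  have h2 : (0 : ℝ) ≤ h := Nat.cast_nonneg h
  have h1 := Real.exp_one_lt_d9
  apply Real.log_le_log
  · apply Real.log_pos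
    linarith
  · have h3 : 2 * Real.log X = Real.log (X ^ 2) := by
      rw [Real.log_pow]
      norm_num
    rw [h3]
    apply Real.log_le_log (by positivity)
    nlinarith

lemma dr_two (n : ℕ) : dr 2 n = n.divisors.card := by
  unfold dr
  rw [sq, ← ArithmeticFunction.pow_zero_eq_zeta, ArithmeticFunction.pow_zero_eq_zeta,
    ← ArithmeticFunction.sigma_zero_apply, ← ArithmeticFunction.zeta_mul_pow_eq_sigma,
    ArithmeticFunction.pow_zero_eq_zeta]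

lemma ta_le (h : ℕ) : ta h ≤ dr 2 h := by
  rw [dr_two]
  unfold ta
  calc ∑ g ∈ h.divisors, (g : ℝ) ^ (-(1 / 2) : ℝ) ≤ ∑ g ∈ h.divisors, (1 : ℝ) := by
        refine Finset.sum_le_sum fun g hg => ?_
        have h1 : (1 : ℝ) ≤ g := by exact_mod_cast Nat.pos_of_mem_divisors hg
        exact Real.rpow_le_one_of_one_le_of_nonpos h1 (by norm_num)
    _ = h.divisors.card := by simp

lemma cor_add (u v w : ℕ → ℝ) (N h : ℕ) :
    cor (fun n => u n + v n) w N h = cor u w N h + cor v w N h := by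
  unfold cor
  rw [← Finset.sum_add_distrib]
  exact Finset.sum_congr rfl fun n _ => by ring

lemma Sh_nonneg (h : ℕ) : 0 ≤ Sh h := by
  unfold Sh
  exact Finset.sum_nonneg fun p _ => by positivity

lemma ta_nonneg (h : ℕ) : 0 ≤ ta h := by
  unfold ta
  exact Finset.sum_nonneg fun p _ => by positivity

end IZ6

open IZ6 in
/-- item Z6 -/
theorem prZ6 (hL0 : tsL0) (hK5 : tsK5) (hN13 : tsN13) (hN14 : tsN14) (hN16 : tsN16) (hY3 : tsY3) (hZ5 : tsZ5) :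
    tsZ6 := by
  intro r E hr hAP hCB θw θ' η hθw hθw4 hθ' hθ'1 hη
  obtain ⟨C₁, hC₁, h13⟩ := hN13 (r - 1) (by omega)
  obtain ⟨C₂, hC₂, h14⟩ := hN14
  have hf0 : (0 : ℝ) < ((r - 1).factorial : ℝ) := by positivity
  have hκ : 0 < η / (4 * (C₁ * ((r - 1).factorial : ℝ) ^ 2)) := by positivity
  obtain ⟨ε₀, hε₀, hε₀w, h16⟩ := hN16 r θw (η / (4 * (C₁ * ((r - 1).factorial : ℝ) ^ 2))) hr hθw hθw4 hκ
  obtain ⟨η₁, δ, X₃, hη₁, hδ, h3⟩ := hY3 r E θ' (by omega) hAP hCB hθ' hθ'1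
  obtain ⟨C₆, hC₆, h6⟩ := hZ5 r E hr hAP hCB
  obtain ⟨hdeg, h5⟩ := hK5 r E (by omega) hAP.1 hCB
  obtain ⟨C₅, hC₅, h5⟩ := h5 1 one_pos
  refine ⟨ε₀ / 2, η₁, by positivity, by linarith, hη₁, ?_⟩
  intro η₂ δ₄ hη₂ hη₂' hδ₄
  obtain ⟨C₀, hC₀, h0⟩ := hL0 2 (η₂ / 16) (by positivity)
  obtain ⟨X₁₆, h16⟩ := h16 (ε₀ / 2) (by positivity) (by linarith)
  have hr0 : (0 : ℝ) < r := by exact_mod_cast (by omega : 0 < r)
  obtain ⟨c, hc⟩ : ∃ c : ℝ, c = η / (12 * (C₁ * ((r - 1).factorial : ℝ) ^ 2)) := ⟨_, rfl⟩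
  have hc0 : 0 < c := by rw [hc]; positivity
  obtain ⟨c', hc'⟩ : ∃ c' : ℝ, c' = c / (2 * (C₆ * (1 + 2 * r))) := ⟨_, rfl⟩
  have hc'0 : 0 < c' := by rw [hc']; positivity
  have hev : ∀ᶠ X : ℝ in atTop, X₁₆ ≤ X ∧ X₃ ≤ X ∧ 5 ≤ X ∧ 1 ≤ Real.log X ∧ C₂ ≤ Real.log X ∧
      X ^ (-δ₄) ≤ c ∧ C₅ * (1 + Real.log X) ^ (r + 1) * X ^ (-δ) ≤ c ∧
      X ^ (-(η₂ / 16)) ≤ c' / C₀ ∧ Real.log (2 * Real.log X) ^ C₆ ≤ c' * Real.log X := by
    filter_upwards [eventually_ge_atTop X₁₆, eventually_ge_atTop X₃, eventually_ge_atTop 5,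
      Real.tendsto_log_atTop.eventually_ge_atTop 1, Real.tendsto_log_atTop.eventually_ge_atTop C₂,
      ev_rpow hδ₄ hc0, ev_logpow (r + 1) C₅ hδ hc0,
      ev_rpow (by positivity : 0 < η₂ / 16) (by positivity : 0 < c' / C₀), ev_ll C₆ hc'0] with X a1 a2 a3 a4 a5 a6 a7 a8 a9
    exact ⟨a1, a2, a3, a4, a5, a6, a7, a8, a9⟩
  obtain ⟨X0, hX0⟩ := eventually_atTop.1 hev
  refine ⟨X0, fun X h hX hh hhX hfu => ?_⟩
  obtain ⟨a1, a2, a3, a4, a5, a6, a7, a8, a9⟩ := hX0 X hX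
  have hXpos : (0 : ℝ) < X := by linarith
  have hX1 : (1 : ℝ) ≤ X := by linarith
  have hL0 : 0 < Real.log X := by linarith
  have hhX' : (h : ℝ) ≤ X := hhX.trans (by
    calc X ^ θ' ≤ X ^ (1 : ℝ) := Real.rpow_le_rpow_of_exponent_le hX1 hθ'1.le
      _ = X := Real.rpow_one X)
  obtain ⟨hJ1, hDU⟩ := h16 X h a1 hh hhX'
  have hw1 : 1 ≤ X ^ θw := Real.one_le_rpow hX1 hθw.le
  have hwX : X ^ θw ≤ X := by
    calc X ^ θw ≤ X ^ (1 : ℝ) := Real.rpow_le_rpow_of_exponent_le hX1 (by linarith)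
      _ = X := Real.rpow_one X
  obtain ⟨hJP, hPJ⟩ := h14 r X (X ^ (ε₀ / 2)) (X ^ θw) (by omega) (by linarith) hw1 hwX
  have h6' := h6 X (X ^ (ε₀ / 2)) (X ^ θw) ⌊X ^ η₂⌋₊ h (by linarith) hw1 hwX hh
  have hlw : Real.log (X ^ θw) ≤ Real.log X := Real.log_le_log (by positivity) hwX
  have hlw0 : 0 ≤ Real.log (X ^ θw) := Real.log_nonneg hw1
  have hQ : ((⌊X ^ η₂⌋₊ : ℕ) : ℝ) ≤ X ^ η₁ :=
    (Nat.floor_le (by positivity)).trans (Real.rpow_le_rpow_of_exponent_le hX1 hη₂')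
  have hco : ∀ s j : ℕ, 1 ≤ s → |(Eu E (X ^ (ε₀ / 2)) (X ^ θw) s).coeff j| ≤
      C₅ * (1 + Real.log X) ^ (r + 1) := by
    intro s j hs
    have := h5 (X ^ (ε₀ / 2)) (X ^ θw) s j hw1 hs
    rw [sub_self, Real.rpow_zero, mul_one] at this
    exact this.trans (by gcongr)
  have h3' := h3 (Eu E (X ^ (ε₀ / 2)) (X ^ θw)) (C₅ * (1 + Real.log X) ^ (r + 1)) X ⌊X ^ η₂⌋₊ h a2
    (by positivity) (fun s => hdeg _ _ s) hco hQ hh hhX
  have hU : cor (up r (X ^ (ε₀ / 2)) (X ^ θw)) (dr r) ⌊X⌋₊ h =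
      cor (fu r E (X ^ (ε₀ / 2)) (X ^ θw) ⌊X ^ η₂⌋₊) (dr r) ⌊X⌋₊ h +
        cor (fs (Eu E (X ^ (ε₀ / 2)) (X ^ θw)) ⌊X ^ η₂⌋₊) (dr r) ⌊X⌋₊ h := by
    rw [← cor_add]
    congr 1
    funext n
    unfold fu
    ring
  -- abbreviations
  generalize hJdef : jw r X (X ^ (ε₀ / 2)) (X ^ θw) = J at *
  generalize hPdef : pw (X ^ (ε₀ / 2)) (X ^ θw) = P at *
  generalize hUdef : cor (up r (X ^ (ε₀ / 2)) (X ^ θw)) (dr r) ⌊X⌋₊ h = U at *
  generalize hVdef : cor (fu r E (X ^ (ε₀ / 2)) (X ^ θw) ⌊X ^ η₂⌋₊) (dr r) ⌊X⌋₊ h = V at *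
  generalize hWdef : cor (fs (Eu E (X ^ (ε₀ / 2)) (X ^ θw)) ⌊X ^ η₂⌋₊) (dr r) ⌊X⌋₊ h = W at *
  generalize hSdef : (∑ q ∈ Finset.Icc 1 ⌊X ^ η₂⌋₊, Gh h q *
    ∫ t in (1 : ℝ)..X, (ed (Eu E (X ^ (ε₀ / 2)) (X ^ θw) q)).eval (Real.log t) *
      (ed (E q)).eval (Real.log t)) = S at *
  unfold Gx
  generalize hDdef : cor (dr r) (dr r) ⌊X⌋₊ h = D at *
  have hexp2 : 2 * (r - 1) = 2 * r - 2 := by omega
  rw [hexp2]
  obtain ⟨M, hM⟩ : ∃ M : ℝ, M = X * Real.log X ^ (2 * r - 2) := ⟨_, rfl⟩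
  have hXM : X ≤ M := by
    rw [hM]
    exact le_mul_of_one_le_right hXpos.le (one_le_pow₀ a4)
  have hM0 : 0 < M := lt_of_lt_of_le hXpos hXM
  rw [← hM]
  have hJ0 : 0 < J := by linarith
  obtain ⟨G, hG⟩ : ∃ G : ℝ, G = C₁ * ((r - 1).factorial : ℝ) ^ 2 := ⟨_, rfl⟩
  have hG0 : 0 < G := by rw [hG]; positivity
  rw [← hG] at hDU hc
  -- the singular series
  have hexp : Real.exp (((r : ℝ) - 1) ^ 2 * Sh h) ≤ G * lc r h := by
    have := h13 h hh
    rw [Nat.cast_sub (by omega : 1 ≤ r), Nat.cast_one] at this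
    refine this.trans (le_of_eq ?_)
    rw [hG]
    unfold lc
    field_simp
  have hexp1 : 1 ≤ G * lc r h := by
    refine le_trans ?_ hexp
    exact Real.one_le_exp (by have := Sh_nonneg h; positivity)
  have hlc : 0 < lc r h := by
    by_contra hcon
    have : G * lc r h ≤ 0 := mul_nonpos_of_nonneg_of_nonpos hG0.le (not_lt.1 hcon)
    linarith
  -- first half
  have hA : |D - U / J| ≤ η / 4 * (lc r h * M) := by
    refine hDU.trans ?_
    calc η / (4 * G) * Real.exp (((r : ℝ) - 1) ^ 2 * Sh h) * X * Real.log X ^ (2 * r - 2)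
        = η / (4 * G) * Real.exp (((r : ℝ) - 1) ^ 2 * Sh h) * M := by rw [hM]; ring
      _ ≤ η / (4 * G) * (G * lc r h) * M := by gcongr
      _ = η / 4 * (lc r h * M) := by field_simp
  -- second half
  have hE1 : X ^ (1 - δ₄) ≤ J * (c * M) := by
    have e1 : X ^ (1 - δ₄) = X ^ (-δ₄) * X := by
      rw [sub_eq_add_neg, Real.rpow_add hXpos, Real.rpow_one, mul_comm]
    rw [e1]
    calc X ^ (-δ₄) * X ≤ c * M := mul_le_mul a6 hXM hXpos.le hc0.le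
      _ ≤ J * (c * M) := le_mul_of_one_le_left (by positivity) hJ1
  have hE2 : C₅ * (1 + Real.log X) ^ (r + 1) * X ^ (1 - δ) ≤ J * (c * M) := by
    have e1 : X ^ (1 - δ) = X ^ (-δ) * X := by
      rw [sub_eq_add_neg, Real.rpow_add hXpos, Real.rpow_one, mul_comm]
    rw [e1, ← mul_assoc]
    calc C₅ * (1 + Real.log X) ^ (r + 1) * X ^ (-δ) * X ≤ c * M := mul_le_mul a7 hXM hXpos.le hc0.le
      _ ≤ J * (c * M) := le_mul_of_one_le_left (by positivity) hJ1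
  have hP : P ≤ (1 + 2 * r) * J := by
    have e1 : (r : ℝ) * (Real.log (X ^ θw) + C₂) / Real.log X ≤ 2 * r := by
      rw [div_le_iff₀ hL0]
      calc (r : ℝ) * (Real.log (X ^ θw) + C₂) ≤ r * (Real.log X + Real.log X) :=
            mul_le_mul_of_nonneg_left (add_le_add hlw a5) hr0.le
        _ = 2 * r * Real.log X := by ring
    have e2 : 2 * (r : ℝ) * 1 ≤ 2 * r * J := mul_le_mul_of_nonneg_left hJ1 (by positivity)
    have e3 : (1 + 2 * (r : ℝ)) * J = J + 2 * r * J := by ring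
    linarith
  have hP0 : 0 ≤ P := by linarith
  have hQ8 : ll h ^ C₆ / Real.log X + ta h * (((⌊X ^ η₂⌋₊ : ℕ) : ℝ) + 1) ^ (-(1 / 8) : ℝ) ≤
      2 * c' := by
    have e1 : X ^ η₂ ≤ ((⌊X ^ η₂⌋₊ : ℕ) : ℝ) + 1 := (Nat.lt_floor_add_one _).le
    have e2 : (((⌊X ^ η₂⌋₊ : ℕ) : ℝ) + 1) ^ (-(1 / 8) : ℝ) ≤ (X ^ η₂) ^ (-(1 / 8) : ℝ) :=
      Real.rpow_le_rpow_of_nonpos (by positivity) e1 (by norm_num)
    have e3 : (X ^ η₂) ^ (-(1 / 8) : ℝ) = X ^ (-(η₂ / 8)) := by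
      rw [← Real.rpow_mul hXpos.le]
      congr 1
      ring
    rw [e3] at e2
    have e4 : ta h ≤ C₀ * X ^ (η₂ / 16) := by
      refine (ta_le h).trans ((h0 h hh).trans ?_)
      have : (h : ℝ) ^ (η₂ / 16) ≤ X ^ (η₂ / 16) :=
        Real.rpow_le_rpow (Nat.cast_nonneg h) hhX' (by positivity)
      gcongr
    have e5 : ta h * (((⌊X ^ η₂⌋₊ : ℕ) : ℝ) + 1) ^ (-(1 / 8) : ℝ) ≤ c' := by
      calc ta h * (((⌊X ^ η₂⌋₊ : ℕ) : ℝ) + 1) ^ (-(1 / 8) : ℝ)
          ≤ C₀ * X ^ (η₂ / 16) * X ^ (-(η₂ / 8)) :=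
            mul_le_mul e4 e2 (by positivity) (by positivity)
        _ = C₀ * X ^ (-(η₂ / 16)) := by
            rw [mul_assoc, ← Real.rpow_add hXpos]
            congr 2
            ring
        _ ≤ C₀ * (c' / C₀) := mul_le_mul_of_nonneg_left a8 hC₀.le
        _ = c' := by field_simp
    have e6 : ll h ^ C₆ / Real.log X ≤ c' := by
      rw [div_le_iff₀ hL0]
      exact (Real.rpow_le_rpow (ll_nonneg h) (ll_le a3 hhX') hC₆.le).trans a9
    linarith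
  have hE3 : C₆ * P * X * Real.log X ^ (2 * r - 2) *
      (ll h ^ C₆ / Real.log X + ta h * (((⌊X ^ η₂⌋₊ : ℕ) : ℝ) + 1) ^ (-(1 / 8) : ℝ)) ≤
        J * (c * M) := by
    have hcc : 2 * (C₆ * (1 + 2 * (r : ℝ))) * c' = c := by
      rw [hc']
      field_simp
    calc C₆ * P * X * Real.log X ^ (2 * r - 2) *
          (ll h ^ C₆ / Real.log X + ta h * (((⌊X ^ η₂⌋₊ : ℕ) : ℝ) + 1) ^ (-(1 / 8) : ℝ))
        ≤ C₆ * P * X * Real.log X ^ (2 * r - 2) * (2 * c') := by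
          refine mul_le_mul_of_nonneg_left hQ8 ?_
          positivity
      _ = C₆ * P * M * (2 * c') := by rw [hM]; ring
      _ ≤ C₆ * ((1 + 2 * r) * J) * M * (2 * c') := by
          gcongr
      _ = J * ((2 * (C₆ * (1 + 2 * (r : ℝ))) * c') * M) := by ring
      _ = J * (c * M) := by rw [hcc]
  have hB : |U - J * (lc r h * M)| ≤ J * (3 * c * M) := by
    have e1 : |V| ≤ J * (c * M) := hfu.trans hE1
    have e2 : |W - S| ≤ J * (c * M) := h3'.trans hE2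
    have e3 : |S - J * lc r h * X * Real.log X ^ (2 * r - 2)| ≤ J * (c * M) := h6'.trans hE3
    have e4 : J * lc r h * X * Real.log X ^ (2 * r - 2) = J * (lc r h * M) := by rw [hM]; ring
    rw [e4] at e3
    rw [hU]
    calc |V + W - J * (lc r h * M)| = |V + (W - S) + (S - J * (lc r h * M))| := by ring_nf
      _ ≤ |V| + |W - S| + |S - J * (lc r h * M)| := abs_add_three _ _ _
      _ ≤ J * (c * M) + J * (c * M) + J * (c * M) := by linarith
      _ = J * (3 * c * M) := by ring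
  have hC : |U / J - lc r h * M| ≤ 3 * c * M := by
    have e1 : U / J - lc r h * M = (U - J * (lc r h * M)) / J := by
      field_simp
    rw [e1, abs_div, abs_of_pos hJ0, div_le_iff₀ hJ0]
    linarith
  have hC2 : 3 * c * M ≤ η / 4 * (lc r h * M) := by
    have e1 : 3 * c = η / (4 * G) := by
      rw [hc]
      field_simp
      norm_num
    rw [e1]
    calc η / (4 * G) * M = η / (4 * G) * 1 * M := by ring
      _ ≤ η / (4 * G) * (G * lc r h) * M := by gcongr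
      _ = η / 4 * (lc r h * M) := by field_simp
  have hlM : 0 < lc r h * M := by positivity
  calc |D - lc r h * M| = |(D - U / J) + (U / J - lc r h * M)| := by ring_nf
    _ ≤ |D - U / J| + |U / J - lc r h * M| := abs_add_le _ _
    _ ≤ η / 4 * (lc r h * M) + η / 4 * (lc r h * M) := by linarith
    _ = η * (lc r h * M) / 2 := by ring
    _ ≤ η * (lc r h * M) := half_le_self (by positivity)

end Pool.Agent.Work.MP_122e00_nt.TS
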