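import Mathlib
import Pool.Agent.Work.MP_122e00_nt.TS.Stmts12
import Pool.Agent.Work.MP_122e00_nt.TS.I_Z6

/-!
# Thin shifts, item X21: the asymptotic formula for one shift in the logarithmic range
-/

namespace Pool.Agent.Work.MP_122e00_nt.TS

open Finset Filter Topology ArithmeticFunction MeasureTheory
open scoped ArithmeticFunction.zeta ArithmeticFunction.Moebius

open IZ6 in
/-- item X21 -/
theorem prX21 (hL0 : tsL0) (hK5 : tsK5) (hN13 : tsN13) (hN14 : tsN14) (hX20 : tsX20)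
    (hY3 : tsY3) (hZ5 : tsZ5) : tsX21 := by
  intro r E hr hAP hCB θ' η hθ' hθ'1 hη
  obtain ⟨C₁, hC₁, h13⟩ := hN13 (r - 1) (by omega)
  obtain ⟨C₂, hC₂, h14⟩ := hN14
  have hf0 : (0 : ℝ) < ((r - 1).factorial : ℝ) := by positivity
  have hκ : 0 < η / (4 * (C₁ * ((r - 1).factorial : ℝ) ^ 2)) := by positivity
  obtain ⟨ε₀, hε₀, hε₀w, A₀, X₁₆, h16⟩ :=
    hX20 r (η / (4 * (C₁ * ((r - 1).factorial : ℝ) ^ 2))) hr hκ
  obtain ⟨η₁, δ, X₃, hη₁, hδ, h3⟩ := hY3 r E θ' (by omega) hAP hCB hθ' hθ'1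
  obtain ⟨C₆, hC₆, h6⟩ := hZ5 r E hr hAP hCB
  obtain ⟨hdeg, h5⟩ := hK5 r E (by omega) hAP.1 hCB
  obtain ⟨C₅, hC₅, h5⟩ := h5 1 one_pos
  refine ⟨ε₀, η₁, hε₀, hε₀w, hη₁, ?_⟩
  intro η₂ δ₄ hη₂ hη₂' hδ₄
  obtain ⟨C₀, hC₀, h0⟩ := hL0 2 (η₂ / 32) (by positivity)
  have hr0 : (0 : ℝ) < r := by exact_mod_cast (by omega : 0 < r)
  obtain ⟨c, hc⟩ : ∃ c : ℝ, c = η / (12 * (C₁ * ((r - 1).factorial : ℝ) ^ 2)) := ⟨_, rfl⟩
  have hc0 : 0 < c := by rw [hc]; positivity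
  obtain ⟨c', hc'⟩ : ∃ c' : ℝ, c' = c / (2 * (C₆ * (1 + 2 * r))) := ⟨_, rfl⟩
  have hc'0 : 0 < c' := by rw [hc']; positivity
  have hevH : ∀ᶠ H : ℝ in atTop, H ^ (-δ₄) ≤ c ∧ H ^ (-(η₂ / 16)) ≤ c' / C₀ := by
    filter_upwards [ev_rpow hδ₄ hc0,
      ev_rpow (by positivity : 0 < η₂ / 16) (by positivity : 0 < c' / C₀)] with H a6 a8
    exact ⟨a6, a8⟩
  obtain ⟨H0, hH0⟩ := eventually_atTop.1 hevH
  have hev : ∀ᶠ X : ℝ in atTop, X₁₆ ≤ X ∧ X₃ ≤ X ∧ 5 ≤ X ∧ 1 ≤ Real.log X ∧ C₂ ≤ Real.log X ∧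
      H0 ≤ Real.log X ∧ C₅ * (1 + Real.log X) ^ (r + 1) * X ^ (-δ) ≤ c ∧
      Real.log (2 * Real.log X) ^ C₆ ≤ c' * Real.log X := by
    filter_upwards [eventually_ge_atTop X₁₆, eventually_ge_atTop X₃, eventually_ge_atTop 5,
      Real.tendsto_log_atTop.eventually_ge_atTop 1, Real.tendsto_log_atTop.eventually_ge_atTop C₂,
      Real.tendsto_log_atTop.eventually_ge_atTop H0, ev_logpow (r + 1) C₅ hδ hc0,
      ev_ll C₆ hc'0] with X a1 a2 a3 a4 a5 a6 a7 a9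
    exact ⟨a1, a2, a3, a4, a5, a6, a7, a9⟩
  obtain ⟨X0, hX0⟩ := eventually_atTop.1 hev
  refine ⟨max A₀ 1, X0, fun X H h hX hXH hHX hh hhX hhH hfu => ?_⟩
  obtain ⟨a1, a2, a3, a4, a5, aH, a7, a9⟩ := hX0 X hX
  have hXpos : (0 : ℝ) < X := by linarith
  have hX1 : (1 : ℝ) ≤ X := by linarith
  have hLH : Real.log X ≤ H := by
    refine le_trans ?_ hXH
    calc Real.log X = Real.log X ^ (1 : ℝ) := (Real.rpow_one _).symm
      _ ≤ Real.log X ^ max A₀ 1 := Real.rpow_le_rpow_of_exponent_le a4 (le_max_right _ _)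
  have hLA : Real.log X ^ A₀ ≤ H :=
    (Real.rpow_le_rpow_of_exponent_le a4 (le_max_left _ _)).trans hXH
  have hH1 : (1 : ℝ) ≤ H := a4.trans hLH
  have hHpos : (0 : ℝ) < H := by linarith
  obtain ⟨a6, a8⟩ := hH0 H (aH.trans hLH)
  have hL0 : 0 < Real.log X := by linarith
  have hhX' : (h : ℝ) ≤ X := hhX.trans (by
    calc X ^ θ' ≤ X ^ (1 : ℝ) := Real.rpow_le_rpow_of_exponent_le hX1 hθ'1.le
      _ = X := Real.rpow_one X)
  obtain ⟨hJ1, hDU⟩ := h16 X H h a1 hLA hHX hh hhX'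
  have hw1 : 1 ≤ H ^ (1 / 4 : ℝ) := Real.one_le_rpow hH1 (by norm_num)
  have hwX : H ^ (1 / 4 : ℝ) ≤ X := by
    refine le_trans ?_ hHX
    calc H ^ (1 / 4 : ℝ) ≤ H ^ (1 : ℝ) := Real.rpow_le_rpow_of_exponent_le hH1 (by norm_num)
      _ = H := Real.rpow_one H
  obtain ⟨hJP, hPJ⟩ := h14 r X (H ^ ε₀) (H ^ (1 / 4 : ℝ)) (by omega) (by linarith) hw1 hwX
  have h6' := h6 X (H ^ ε₀) (H ^ (1 / 4 : ℝ)) ⌊H ^ η₂⌋₊ h (by linarith) hw1 hwX hh
  have hlw : Real.log (H ^ (1 / 4 : ℝ)) ≤ Real.log X := Real.log_le_log (by positivity) hwX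
  have hlw0 : 0 ≤ Real.log (H ^ (1 / 4 : ℝ)) := Real.log_nonneg hw1
  have hQ : ((⌊H ^ η₂⌋₊ : ℕ) : ℝ) ≤ X ^ η₁ :=
    (Nat.floor_le (by positivity)).trans ((Real.rpow_le_rpow hHpos.le hHX hη₂.le).trans
      (Real.rpow_le_rpow_of_exponent_le hX1 hη₂'))
  have hco : ∀ s j : ℕ, 1 ≤ s → |(Eu E (H ^ ε₀) (H ^ (1 / 4 : ℝ)) s).coeff j| ≤
      C₅ * (1 + Real.log X) ^ (r + 1) := by
    intro s j hs
    have := h5 (H ^ ε₀) (H ^ (1 / 4 : ℝ)) s j hw1 hs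
    rw [sub_self, Real.rpow_zero, mul_one] at this
    exact this.trans (by gcongr)
  have h3' := h3 (Eu E (H ^ ε₀) (H ^ (1 / 4 : ℝ))) (C₅ * (1 + Real.log X) ^ (r + 1)) X ⌊H ^ η₂⌋₊ h a2
    (by positivity) (fun s => hdeg _ _ s) hco hQ hh hhX
  have hU : cor (up r (H ^ ε₀) (H ^ (1 / 4 : ℝ))) (dr r) ⌊X⌋₊ h =
      cor (fu r E (H ^ ε₀) (H ^ (1 / 4 : ℝ)) ⌊H ^ η₂⌋₊) (dr r) ⌊X⌋₊ h +
        cor (fs (Eu E (H ^ ε₀) (H ^ (1 / 4 : ℝ))) ⌊H ^ η₂⌋₊) (dr r) ⌊X⌋₊ h := by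
    rw [← cor_add]
    congr 1
    funext n
    unfold fu
    ring
  -- abbreviations
  generalize hJdef : jw r X (H ^ ε₀) (H ^ (1 / 4 : ℝ)) = J at *
  generalize hPdef : pw (H ^ ε₀) (H ^ (1 / 4 : ℝ)) = P at *
  generalize hUdef : cor (up r (H ^ ε₀) (H ^ (1 / 4 : ℝ))) (dr r) ⌊X⌋₊ h = U at *
  generalize hVdef : cor (fu r E (H ^ ε₀) (H ^ (1 / 4 : ℝ)) ⌊H ^ η₂⌋₊) (dr r) ⌊X⌋₊ h = V at *
  generalize hWdef : cor (fs (Eu E (H ^ ε₀) (H ^ (1 / 4 : ℝ))) ⌊H ^ η₂⌋₊) (dr r) ⌊X⌋₊ h = W at *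
  generalize hSdef : (∑ q ∈ Finset.Icc 1 ⌊H ^ η₂⌋₊, Gh h q *
    ∫ t in (1 : ℝ)..X, (ed (Eu E (H ^ ε₀) (H ^ (1 / 4 : ℝ)) q)).eval (Real.log t) *
      (ed (E q)).eval (Real.log t)) = S at *
  unfold Gx
  generalize hDdef : cor (dr r) (dr r) ⌊X⌋₊ h = D at *
  have hexp2 : 2 * (r - 1) = 2 * r - 2 := by omega
  rw [hexp2]
  obtain ⟨M, hM⟩ : ∃ M : ℝ, M = X * Real.log X ^ (2 * r - 2) := ⟨_, rfl⟩
  have hXM : X ≤ M := by
    rw [hM]
    exact le_mul_of_one_le_right hXpos.le (one_le_pow₀ a4)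
  have hM0 : 0 < M := lt_of_lt_of_le hXpos hXM
  rw [← hM]
  have hJ0 : 0 < J := by linarith
  obtain ⟨G, hG⟩ : ∃ G : ℝ, G = C₁ * ((r - 1).factorial : ℝ) ^ 2 := ⟨_, rfl⟩
  have hG0 : 0 < G := by rw [hG]; positivity
  rw [← hG] at hDU hc
  -- the singular series
  have hexp : Real.exp (((r : ℝ) - 1) ^ 2 * Sh h) ≤ G * lc r h := by
    have := h13 h hh
    rw [Nat.cast_sub (by omega : 1 ≤ r), Nat.cast_one] at this
    refine this.trans (le_of_eq ?_)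
    rw [hG]
    unfold lc
    field_simp
  have hexp1 : 1 ≤ G * lc r h := by
    refine le_trans ?_ hexp
    exact Real.one_le_exp (by have := Sh_nonneg h; positivity)
  have hlc : 0 < lc r h := by
    by_contra hcon
    have : G * lc r h ≤ 0 := mul_nonpos_of_nonneg_of_nonpos hG0.le (not_lt.1 hcon)
    linarith
  -- first half
  have hA : |D - U / J| ≤ η / 4 * (lc r h * M) := by
    refine hDU.trans ?_
    calc η / (4 * G) * Real.exp (((r : ℝ) - 1) ^ 2 * Sh h) * X * Real.log X ^ (2 * r - 2)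
        = η / (4 * G) * Real.exp (((r : ℝ) - 1) ^ 2 * Sh h) * M := by rw [hM]; ring
      _ ≤ η / (4 * G) * (G * lc r h) * M := by gcongr
      _ = η / 4 * (lc r h * M) := by field_simp
  -- second half
  have hE1 : X * H ^ (-δ₄) ≤ J * (c * M) := by
    rw [mul_comm X]
    calc H ^ (-δ₄) * X ≤ c * M := mul_le_mul a6 hXM hXpos.le hc0.le
      _ ≤ J * (c * M) := le_mul_of_one_le_left (by positivity) hJ1
  have hE2 : C₅ * (1 + Real.log X) ^ (r + 1) * X ^ (1 - δ) ≤ J * (c * M) := by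
    have e1 : X ^ (1 - δ) = X ^ (-δ) * X := by
      rw [sub_eq_add_neg, Real.rpow_add hXpos, Real.rpow_one, mul_comm]
    rw [e1, ← mul_assoc]
    calc C₅ * (1 + Real.log X) ^ (r + 1) * X ^ (-δ) * X ≤ c * M := mul_le_mul a7 hXM hXpos.le hc0.le
      _ ≤ J * (c * M) := le_mul_of_one_le_left (by positivity) hJ1
  have hP : P ≤ (1 + 2 * r) * J := by
    have e1 : (r : ℝ) * (Real.log (H ^ (1 / 4 : ℝ)) + C₂) / Real.log X ≤ 2 * r := by
      rw [div_le_iff₀ hL0]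
      calc (r : ℝ) * (Real.log (H ^ (1 / 4 : ℝ)) + C₂) ≤ r * (Real.log X + Real.log X) :=
            mul_le_mul_of_nonneg_left (add_le_add hlw a5) hr0.le
        _ = 2 * r * Real.log X := by ring
    have e2 : 2 * (r : ℝ) * 1 ≤ 2 * r * J := mul_le_mul_of_nonneg_left hJ1 (by positivity)
    have e3 : (1 + 2 * (r : ℝ)) * J = J + 2 * r * J := by ring
    linarith
  have hP0 : 0 ≤ P := by linarith
  have hQ8 : ll h ^ C₆ / Real.log X + ta h * (((⌊H ^ η₂⌋₊ : ℕ) : ℝ) + 1) ^ (-(1 / 8) : ℝ) ≤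
      2 * c' := by
    have e1 : H ^ η₂ ≤ ((⌊H ^ η₂⌋₊ : ℕ) : ℝ) + 1 := (Nat.lt_floor_add_one _).le
    have e2 : (((⌊H ^ η₂⌋₊ : ℕ) : ℝ) + 1) ^ (-(1 / 8) : ℝ) ≤ (H ^ η₂) ^ (-(1 / 8) : ℝ) :=
      Real.rpow_le_rpow_of_nonpos (by positivity) e1 (by norm_num)
    have e3 : (H ^ η₂) ^ (-(1 / 8) : ℝ) = H ^ (-(η₂ / 8)) := by
      rw [← Real.rpow_mul hHpos.le]
      congr 1
      ring
    rw [e3] at e2
    have e4 : ta h ≤ C₀ * H ^ (η₂ / 16) := by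
      refine (ta_le h).trans ((h0 h hh).trans ?_)
      have : (h : ℝ) ^ (η₂ / 32) ≤ H ^ (η₂ / 16) := by
        calc (h : ℝ) ^ (η₂ / 32) ≤ (H ^ (2 : ℕ)) ^ (η₂ / 32) :=
              Real.rpow_le_rpow (Nat.cast_nonneg h) hhH (by positivity)
          _ = H ^ (η₂ / 16) := by
              rw [← Real.rpow_natCast H 2, ← Real.rpow_mul hHpos.le]
              congr 1
              push_cast
              ring
      gcongr
    have e5 : ta h * (((⌊H ^ η₂⌋₊ : ℕ) : ℝ) + 1) ^ (-(1 / 8) : ℝ) ≤ c' := by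
      calc ta h * (((⌊H ^ η₂⌋₊ : ℕ) : ℝ) + 1) ^ (-(1 / 8) : ℝ)
          ≤ C₀ * H ^ (η₂ / 16) * H ^ (-(η₂ / 8)) :=
            mul_le_mul e4 e2 (by positivity) (by positivity)
        _ = C₀ * H ^ (-(η₂ / 16)) := by
            rw [mul_assoc, ← Real.rpow_add hHpos]
            congr 2
            ring
        _ ≤ C₀ * (c' / C₀) := mul_le_mul_of_nonneg_left a8 hC₀.le
        _ = c' := by field_simp
    have e6 : ll h ^ C₆ / Real.log X ≤ c' := by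
      rw [div_le_iff₀ hL0]
      exact (Real.rpow_le_rpow (ll_nonneg h) (ll_le a3 hhX') hC₆.le).trans a9
    linarith
  have hE3 : C₆ * P * X * Real.log X ^ (2 * r - 2) *
      (ll h ^ C₆ / Real.log X + ta h * (((⌊H ^ η₂⌋₊ : ℕ) : ℝ) + 1) ^ (-(1 / 8) : ℝ)) ≤
        J * (c * M) := by
    have hcc : 2 * (C₆ * (1 + 2 * (r : ℝ))) * c' = c := by
      rw [hc']
      field_simp
    calc C₆ * P * X * Real.log X ^ (2 * r - 2) *
          (ll h ^ C₆ / Real.log X + ta h * (((⌊H ^ η₂⌋₊ : ℕ) : ℝ) + 1) ^ (-(1 / 8) : ℝ))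
        ≤ C₆ * P * X * Real.log X ^ (2 * r - 2) * (2 * c') := by
          refine mul_le_mul_of_nonneg_left hQ8 ?_
          positivity
      _ = C₆ * P * M * (2 * c') := by rw [hM]; ring
      _ ≤ C₆ * ((1 + 2 * r) * J) * M * (2 * c') := by
          gcongr
      _ = J * ((2 * (C₆ * (1 + 2 * (r : ℝ))) * c') * M) := by ring
      _ = J * (c * M) := by rw [hcc]
  have hB : |U - J * (lc r h * M)| ≤ J * (3 * c * M) := by
    have e1 : |V| ≤ J * (c * M) := hfu.trans hE1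
    have e2 : |W - S| ≤ J * (c * M) := h3'.trans hE2
    have e3 : |S - J * lc r h * X * Real.log X ^ (2 * r - 2)| ≤ J * (c * M) := h6'.trans hE3
    have e4 : J * lc r h * X * Real.log X ^ (2 * r - 2) = J * (lc r h * M) := by rw [hM]; ring
    rw [e4] at e3
    rw [hU]
    calc |V + W - J * (lc r h * M)| = |V + (W - S) + (S - J * (lc r h * M))| := by ring_nf
      _ ≤ |V| + |W - S| + |S - J * (lc r h * M)| := abs_add_three _ _ _
      _ ≤ J * (c * M) + J * (c * M) + J * (c * M) := by linarith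
      _ = J * (3 * c * M) := by ring
  have hC : |U / J - lc r h * M| ≤ 3 * c * M := by
    have e1 : U / J - lc r h * M = (U - J * (lc r h * M)) / J := by
      field_simp
    rw [e1, abs_div, abs_of_pos hJ0, div_le_iff₀ hJ0]
    linarith
  have hC2 : 3 * c * M ≤ η / 4 * (lc r h * M) := by
    have e1 : 3 * c = η / (4 * G) := by
      rw [hc]
      field_simp
      norm_num
    rw [e1]
    calc η / (4 * G) * M = η / (4 * G) * 1 * M := by ring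
      _ ≤ η / (4 * G) * (G * lc r h) * M := by gcongr
      _ = η / 4 * (lc r h * M) := by field_simp
  have hlM : 0 < lc r h * M := by positivity
  calc |D - lc r h * M| = |(D - U / J) + (U / J - lc r h * M)| := by ring_nf
    _ ≤ |D - U / J| + |U / J - lc r h * M| := abs_add_le _ _
    _ ≤ η / 4 * (lc r h * M) + η / 4 * (lc r h * M) := by linarith
    _ = η * (lc r h * M) / 2 := by ring
    _ ≤ η * (lc r h * M) := half_le_self (by positivity)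

end Pool.Agent.Work.MP_122e00_nt.TS
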