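import Pool.Agent.Work.MP_122e00_nt.TS.Stmts12

/-!
# Thin shifts, item X22: few exceptions for fixed `X`, logarithmic range
-/

set_option autoImplicit false

namespace Pool.Agent.Work.MP_122e00_nt.TS

open Finset Filter Topology ArithmeticFunction MeasureTheory
open scoped ArithmeticFunction.zeta ArithmeticFunction.Moebius

namespace IX22

lemma cheb (s : Finset ℕ) (g : ℕ → ℝ) (t T : ℝ) (p : ℕ → Prop) [DecidablePred p] (ht : 0 < t)
    (h0 : ∀ k ∈ s, 0 ≤ g k) (hp : ∀ k ∈ s, p k → t ≤ g k) (hT : ∑ k ∈ s, g k ≤ T) :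
    ((s.filter p).card : ℝ) ≤ T / t := by
  rw [le_div_iff₀ ht]
  calc ((s.filter p).card : ℝ) * t = ∑ k ∈ s.filter p, t := by
        rw [Finset.sum_const, nsmul_eq_mul]
    _ ≤ ∑ k ∈ s.filter p, g k := Finset.sum_le_sum (fun k hk => by
        rw [Finset.mem_filter] at hk; exact hp k hk.1 hk.2)
    _ ≤ ∑ k ∈ s, g k := Finset.sum_le_sum_of_subset_of_nonneg (Finset.filter_subset _ _)
        (fun k hk _ => h0 k hk)
    _ ≤ T := hT

lemma large (CF θ : ℝ) (hθ : θ < 1) : ∃ X0 : ℝ, ∀ X : ℝ, X0 ≤ X →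
    3 ≤ X ∧ CF ≤ X ^ ((1 - θ) / 2) ∧ CF ≤ Real.log X ∧ 1 ≤ Real.log X := by
  have e1 : ∀ᶠ X : ℝ in atTop, 3 ≤ X := eventually_ge_atTop 3
  have e2 : ∀ᶠ X : ℝ in atTop, CF ≤ X ^ ((1 - θ) / 2) :=
    (tendsto_rpow_atTop (by linarith)).eventually_ge_atTop CF
  have e3 : ∀ᶠ X : ℝ in atTop, CF ≤ Real.log X := Real.tendsto_log_atTop.eventually_ge_atTop CF
  have e4 : ∀ᶠ X : ℝ in atTop, 1 ≤ Real.log X := Real.tendsto_log_atTop.eventually_ge_atTop 1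
  obtain ⟨X0, h⟩ := eventually_atTop.1 (e1.and (e2.and (e3.and e4)))
  exact ⟨X0, fun X hX => h X hX⟩

end IX22

open Classical in
theorem prX22 (hH2 : tsH2) (hX16 : tsX16) (hX17 : tsX17) (hX21 : tsX21) : tsX22 := by
  intro r E hr hAP hCB F A hF1 hF2 hF3 θ η hθ0 hθ hη
  obtain ⟨ε₂, η₁, hε0, hεw, hη₁, h21⟩ := hX21 r E hr hAP hCB ((1 + θ) / 2) η
    (by linarith) (by linarith) hη
  obtain ⟨η₀, hη₀, h16⟩ := hX16 r E (by omega) hAP hCB ε₂ ((1 + θ) / 2) hε0 hεw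
    (by linarith) (by linarith)
  obtain ⟨η₂, hη₂⟩ : ∃ η₂ : ℝ, η₂ = min (min η₁ η₀) (1 / 100) := ⟨_, rfl⟩
  have h20 : 0 < η₂ := by rw [hη₂]; exact lt_min (lt_min hη₁ hη₀) (by norm_num)
  have h2c : η₂ ≤ 1 / 100 := by rw [hη₂]; exact min_le_right _ _
  have h2a : η₂ ≤ η₁ := by rw [hη₂]; exact (min_le_left _ _).trans (min_le_left _ _)
  have h2b : η₂ ≤ η₀ := by rw [hη₂]; exact (min_le_left _ _).trans (min_le_right _ _)
  obtain ⟨δ, A₀, X0, hδ, hSI⟩ := h16 η₂ h20 h2b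
  obtain ⟨δ'', A₁, X1, hδ'', h1⟩ := hX17 r E ε₂ η₂ δ A₀ X0 ((1 + θ) / 2) hr hAP hCB
    hε0 hεw h20 h2c hδ (by linarith) (by linarith) hSI F A hF1 hF2 hF3
  obtain ⟨A₂, X2, h10'⟩ := h21 η₂ (δ'' / 4) h20 h2a (by linarith)
  obtain ⟨A', c, CF, hc, hCF, -, hCF'⟩ := hH2 F hF1 hF2
  obtain ⟨X3, h3⟩ := IX22.large CF θ hθ
  refine ⟨min (δ'' / 2) (1 / 2), max (max A₁ A₂) 1, max (max X1 X2) X3,
    lt_min (by positivity) (by norm_num), (min_le_right _ _).trans_lt (by norm_num),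
    fun X K hX hXa hXb => ?_⟩
  have hX1 : X1 ≤ X := (le_max_left _ _).trans ((le_max_left _ _).trans hX)
  have hX2 : X2 ≤ X := (le_max_right _ _).trans ((le_max_left _ _).trans hX)
  obtain ⟨hX3, hXF, hXl, hl1⟩ := h3 X ((le_max_right _ _).trans hX)
  have hXpos : 0 < X := by linarith
  obtain ⟨H, hH⟩ : ∃ H : ℝ, H = (K : ℝ) ^ F.natDegree := ⟨_, rfl⟩
  rw [← hH] at hXa hXb
  have hA1 : Real.log X ^ A₁ ≤ H := (Real.rpow_le_rpow_of_exponent_le hl1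
    ((le_max_left _ _).trans (le_max_left _ _))).trans hXa
  have hA2 : Real.log X ^ A₂ ≤ H := (Real.rpow_le_rpow_of_exponent_le hl1
    ((le_max_right _ _).trans (le_max_left _ _))).trans hXa
  have hA3 : Real.log X ≤ H := by
    have h := (Real.rpow_le_rpow_of_exponent_le hl1
      (le_max_right (max A₁ A₂) 1)).trans hXa
    rwa [Real.rpow_one] at h
  have hHF : CF ≤ H := hXl.trans hA3
  have hH1 : 1 ≤ H := hl1.trans hA3
  have hHpos : 0 < H := by linarith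
  have hHX : H ≤ X := hXb.trans (by
    have h := Real.rpow_le_rpow_of_exponent_le (show 1 ≤ X by linarith) hθ.le
    rwa [Real.rpow_one] at h)
  have hHX' : H ≤ X ^ ((1 + θ) / 2) := hXb.trans
    (Real.rpow_le_rpow_of_exponent_le (show 1 ≤ X by linarith) (by linarith))
  -- `K ≥ 1`
  have hK1 : 1 ≤ K := by
    by_contra hK
    have hK0 : K = 0 := by omega
    rw [hK0, Nat.cast_zero, zero_pow (by omega)] at hH
    linarith
  have hK1R : (1 : ℝ) ≤ K := by exact_mod_cast hK1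
  have hKpos : (0 : ℝ) < K := by linarith
  have hKH : (K : ℝ) ≤ H := by
    rw [hH]
    exact le_self_pow₀ hK1R (by omega)
  -- the size of the shifts
  have hsize : ∀ k ∈ Finset.Ioc A K, 1 ≤ fv F k ∧ ((fv F k : ℕ) : ℝ) ≤ X ^ ((1 + θ) / 2) ∧
      ((fv F k : ℕ) : ℝ) ≤ H ^ (2 : ℕ) := by
    intro k hk
    rw [Finset.mem_Ioc] at hk
    have hF := hF3 k hk.1
    have hcast : ((fv F k : ℕ) : ℤ) = F.eval (k : ℤ) := by
      unfold fv
      exact Int.toNat_of_nonneg (by omega)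
    have h1' : 1 ≤ fv F k := by omega
    have hcastR : ((fv F k : ℕ) : ℝ) = ((F.eval (k : ℤ) : ℤ) : ℝ) := by
      rw [← hcast]; push_cast; rfl
    have hk1 : 1 ≤ k := by omega
    have hb : ((fv F k : ℕ) : ℝ) ≤ CF * H := by
      rw [hcastR, hH]
      calc ((F.eval (k : ℤ) : ℤ) : ℝ) ≤ |((F.eval (k : ℤ) : ℤ) : ℝ)| := le_abs_self _
        _ ≤ CF * (k : ℝ) ^ F.natDegree := hCF' k hk1
        _ ≤ CF * (K : ℝ) ^ F.natDegree := by
            have : (k : ℝ) ≤ K := by exact_mod_cast hk.2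
            gcongr
    refine ⟨h1', ?_, ?_⟩
    · calc ((fv F k : ℕ) : ℝ) ≤ CF * H := hb
        _ ≤ X ^ ((1 - θ) / 2) * X ^ θ := by gcongr
        _ = X ^ ((1 + θ) / 2) := by
            rw [← Real.rpow_add hXpos]; congr 1; ring
    · calc ((fv F k : ℕ) : ℝ) ≤ CF * H := hb
        _ ≤ H * H := by gcongr
        _ = H ^ (2 : ℕ) := by ring
  -- the exceptional set
  have hsub : (Finset.Ioc A K).filter (fun k => ¬ Gx r η X (fv F k)) ⊆
      (Finset.Ioc A K).filter (fun k => X * H ^ (-(δ'' / 4)) <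
        |cor (fu r E (H ^ ε₂) (H ^ (1 / 4 : ℝ)) ⌊H ^ η₂⌋₊) (dr r) ⌊X⌋₊ (fv F k)|) := by
    intro k hk
    rw [Finset.mem_filter] at hk
    rw [Finset.mem_filter]
    refine ⟨hk.1, ?_⟩
    by_contra hcon
    push Not at hcon
    obtain ⟨hs1, hs2, hs3⟩ := hsize k hk.1
    exact hk.2 (h10' X H (fv F k) hX2 hA2 hHX hs1 hs2 hs3 hcon)
  have hp1 : 0 < (X * H ^ (-(δ'' / 4))) ^ 2 := by positivity
  have hcard1 : (((Finset.Ioc A K).filter (fun k => X * H ^ (-(δ'' / 4)) <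
        |cor (fu r E (H ^ ε₂) (H ^ (1 / 4 : ℝ)) ⌊H ^ η₂⌋₊) (dr r) ⌊X⌋₊ (fv F k)|)).card : ℝ) ≤
      K * H ^ (-(δ'' / 2)) := by
    have hc := IX22.cheb (Finset.Ioc A K)
      (fun k => cor (fu r E (H ^ ε₂) (H ^ (1 / 4 : ℝ)) ⌊H ^ η₂⌋₊) (dr r) ⌊X⌋₊ (fv F k) ^ 2)
      ((X * H ^ (-(δ'' / 4))) ^ 2) (K * X ^ (2 : ℕ) * H ^ (-δ''))
      (fun k => X * H ^ (-(δ'' / 4)) <
        |cor (fu r E (H ^ ε₂) (H ^ (1 / 4 : ℝ)) ⌊H ^ η₂⌋₊) (dr r) ⌊X⌋₊ (fv F k)|)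
      hp1 (fun k _ => sq_nonneg _)
      (fun k _ hk => by
        rw [← sq_abs (cor _ _ _ _)]
        exact pow_le_pow_left₀ (by positivity) hk.le 2)
      (h1 X H K hX1 hH hA1 hHX')
    refine hc.trans (le_of_eq ?_)
    have e2 : H ^ (-δ'') = (H ^ (-(δ'' / 4))) ^ 2 * H ^ (-(δ'' / 2)) := by
      rw [← Real.rpow_natCast, ← Real.rpow_mul hHpos.le, ← Real.rpow_add hHpos]
      congr 1; push_cast; ring
    have hp2 : 0 < H ^ (-(δ'' / 4)) := Real.rpow_pos_of_pos hHpos _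
    rw [e2]
    field_simp
  calc (((Finset.Ioc A K).filter (fun k => ¬ Gx r η X (fv F k))).card : ℝ)
      ≤ (((Finset.Ioc A K).filter (fun k => X * H ^ (-(δ'' / 4)) <
          |cor (fu r E (H ^ ε₂) (H ^ (1 / 4 : ℝ)) ⌊H ^ η₂⌋₊) (dr r) ⌊X⌋₊ (fv F k)|)).card : ℝ) := by
          exact_mod_cast Finset.card_le_card hsub
    _ ≤ K * H ^ (-(δ'' / 2)) := hcard1
    _ ≤ K * (K : ℝ) ^ (-(δ'' / 2)) := by
        have h := Real.rpow_le_rpow_of_nonpos hKpos hKH (show -(δ'' / 2) ≤ 0 by linarith)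
        gcongr
    _ = (K : ℝ) ^ (1 - δ'' / 2) := by
        rw [sub_eq_add_neg, Real.rpow_add hKpos, Real.rpow_one]
    _ ≤ (K : ℝ) ^ (1 - min (δ'' / 2) (1 / 2)) :=
        Real.rpow_le_rpow_of_exponent_le hK1R (by
          have := min_le_left (δ'' / 2) (1 / 2 : ℝ)
          linarith)

end Pool.Agent.Work.MP_122e00_nt.TS
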