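import Mathlib
import Pool.Agent.Work.MP_122e00_nt.TS.Stmts5

set_option autoImplicit false

/-!
# Item P4: the mean square of multiplicative windows

The middle range of `t` is treated with P2 (the Fourier transform of the triangle function) in place
of a mean value theorem and a dyadic decomposition.
-/

namespace Pool.Agent.Work.MP_122e00_nt.TS

open Finset Filter Topology ArithmeticFunction MeasureTheory
open scoped ArithmeticFunction.zeta ArithmeticFunction.Moebius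

namespace IP4

/-- the weight of P2 -/
noncomputable def w (η t : ℝ) : ℝ := (Real.sin (Real.pi * η * t) / (Real.pi * t)) ^ 2

theorem w_nonneg (η t : ℝ) : 0 ≤ w η t := sq_nonneg _

theorem w_le_sq {η : ℝ} (hη : 0 < η) (t : ℝ) : w η t ≤ η ^ 2 := by
  unfold w
  rcases eq_or_ne t 0 with rfl | ht
  · simp only [mul_zero, Real.sin_zero, div_zero, ne_eq, OfNat.ofNat_ne_zero, not_false_eq_true,
      zero_pow]
    positivity
  · rw [div_pow, div_le_iff₀ (by positivity)]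
    calc Real.sin (Real.pi * η * t) ^ 2 ≤ (Real.pi * η * t) ^ 2 := Real.sin_sq_le_sq
      _ = η ^ 2 * (Real.pi * t) ^ 2 := by ring

theorem w_le_inv (η : ℝ) {t : ℝ} (ht : t ≠ 0) : w η t ≤ 1 / t ^ 2 := by
  unfold w
  have hpi : 3 < Real.pi := Real.pi_gt_three
  rw [div_pow]
  have h1 : Real.sin (Real.pi * η * t) ^ 2 ≤ 1 := Real.sin_sq_le_one _
  have h2 : 0 < t ^ 2 := by positivity
  calc Real.sin (Real.pi * η * t) ^ 2 / (Real.pi * t) ^ 2 ≤ 1 / (Real.pi * t) ^ 2 := by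
        gcongr
    _ ≤ 1 / t ^ 2 := by
        refine one_div_le_one_div_of_le h2 ?_
        rw [mul_pow]
        have h3 : 1 ≤ Real.pi ^ 2 := by nlinarith
        nlinarith

theorem w_meas (η : ℝ) : Measurable (w η) := by
  unfold w
  fun_prop

theorem w_neg (η t : ℝ) : w η (-t) = w η t := by
  unfold w
  rw [mul_neg, mul_neg, Real.sin_neg, neg_div_neg_eq]

theorem nrm_ee (x : ℝ) : ‖ee x‖ = 1 := by
  unfold ee
  exact Complex.norm_exp_ofReal_mul_I _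

theorem ee_add (x y : ℝ) : ee (x + y) = ee x * ee y := by
  unfold ee
  rw [← Complex.exp_add]
  congr 1
  push_cast
  ring

theorem ee_re (x : ℝ) : (ee x).re = Real.cos (2 * Real.pi * x) := by
  unfold ee
  rw [Complex.exp_ofReal_mul_I_re]

theorem ee_im (x : ℝ) : (ee x).im = Real.sin (2 * Real.pi * x) := by
  unfold ee
  rw [Complex.exp_ofReal_mul_I_im]

theorem ee_conj (x : ℝ) : (starRingEnd ℂ) (ee x) = ee (-x) := by
  apply Complex.ext
  · rw [Complex.conj_re, ee_re, ee_re, mul_neg, Real.cos_neg]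
  · rw [Complex.conj_im, ee_im, ee_im, mul_neg, Real.sin_neg]

/-- integrability of the basic functions -/
theorem int_cos {η : ℝ} (hw : Integrable (w η)) (v : ℝ) :
    Integrable fun t : ℝ => w η t * Real.cos (2 * Real.pi * t * v) := by
  refine Integrable.mono' hw ?_ (Eventually.of_forall fun t => ?_)
  · exact ((w_meas η).mul (by fun_prop)).aestronglyMeasurable
  · rw [Real.norm_eq_abs, abs_mul, abs_of_nonneg (w_nonneg η t)]
    exact mul_le_of_le_one_right (w_nonneg η t) (Real.abs_cos_le_one _)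

theorem int_sin {η : ℝ} (hw : Integrable (w η)) (v : ℝ) :
    Integrable fun t : ℝ => w η t * Real.sin (2 * Real.pi * t * v) := by
  refine Integrable.mono' hw ?_ (Eventually.of_forall fun t => ?_)
  · exact ((w_meas η).mul (by fun_prop)).aestronglyMeasurable
  · rw [Real.norm_eq_abs, abs_mul, abs_of_nonneg (w_nonneg η t)]
    exact mul_le_of_le_one_right (w_nonneg η t) (Real.abs_sin_le_one _)

theorem sin_zero' (η v : ℝ) : ∫ t : ℝ, w η t * Real.sin (2 * Real.pi * t * v) = 0 := by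
  have h1 := integral_neg_eq_self (fun t : ℝ => w η t * Real.sin (2 * Real.pi * t * v)) volume
  have h2 : (fun t : ℝ => w η (-t) * Real.sin (2 * Real.pi * (-t) * v)) =
      fun t : ℝ => -(w η t * Real.sin (2 * Real.pi * t * v)) := by
    funext t
    rw [w_neg, show 2 * Real.pi * (-t) * v = -(2 * Real.pi * t * v) by ring, Real.sin_neg,
      mul_neg]
  rw [h2, integral_neg] at h1
  linarith

/-- expansion of the square -/
theorem sq_expand (S : Finset ℕ) (lam : ℕ → ℝ) (B : ℕ → ℂ) (t : ℝ) :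
    ‖∑ m ∈ S, B m * ee (-(t * lam m))‖ ^ 2 = ∑ m ∈ S, ∑ m' ∈ S,
      ((B m * (starRingEnd ℂ) (B m')).re * Real.cos (2 * Real.pi * t * (lam m - lam m')) +
        (B m * (starRingEnd ℂ) (B m')).im * Real.sin (2 * Real.pi * t * (lam m - lam m'))) := by
  have h1 : ((‖∑ m ∈ S, B m * ee (-(t * lam m))‖ ^ 2 : ℝ) : ℂ) =
      (∑ m ∈ S, B m * ee (-(t * lam m))) *
        (starRingEnd ℂ) (∑ m ∈ S, B m * ee (-(t * lam m))) := by
    rw [Complex.mul_conj, Complex.normSq_eq_norm_sq]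
  have h2 : ‖∑ m ∈ S, B m * ee (-(t * lam m))‖ ^ 2 =
      ((∑ m ∈ S, B m * ee (-(t * lam m))) *
        (starRingEnd ℂ) (∑ m ∈ S, B m * ee (-(t * lam m)))).re := by
    rw [← h1, Complex.ofReal_re]
  rw [h2, map_sum, Finset.sum_mul_sum, Complex.re_sum]
  refine Finset.sum_congr rfl fun m _ => ?_
  rw [Complex.re_sum]
  refine Finset.sum_congr rfl fun m' _ => ?_
  have h3 : B m * ee (-(t * lam m)) * (starRingEnd ℂ) (B m' * ee (-(t * lam m'))) =
      (B m * (starRingEnd ℂ) (B m')) * ee (-(t * (lam m - lam m'))) := by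
    rw [map_mul, ee_conj, show -(t * (lam m - lam m')) = -(t * lam m) + -(-(t * lam m')) by ring,
      ee_add]
    ring
  rw [h3, Complex.mul_re, ee_re, ee_im,
    show 2 * Real.pi * -(t * (lam m - lam m')) = -(2 * Real.pi * t * (lam m - lam m')) by ring,
    Real.cos_neg, Real.sin_neg]
  ring

/-- the mean square with the weight `w` -/
theorem ms (h2 : tsP2) {η : ℝ} (hη : 0 < η) (S : Finset ℕ) (lam : ℕ → ℝ) (B : ℕ → ℂ) (D : ℝ)
    (hD : ∀ m ∈ S, ‖B m‖ ≤ D) :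
    Integrable (fun t : ℝ => w η t * ‖∑ m ∈ S, B m * ee (-(t * lam m))‖ ^ 2) ∧
    ∫ t : ℝ, w η t * ‖∑ m ∈ S, B m * ee (-(t * lam m))‖ ^ 2 ≤
      D ^ 2 * ∑ m ∈ S, ∑ m' ∈ S, max (η - |lam m - lam m'|) 0 := by
  obtain ⟨hw, hF⟩ := h2 η hη
  have hw' : Integrable (w η) := hw
  have hF' : ∀ v : ℝ, ∫ t : ℝ, w η t * Real.cos (2 * Real.pi * t * v) = max (η - |v|) 0 := hF
  have h1 : (fun t : ℝ => w η t * ‖∑ m ∈ S, B m * ee (-(t * lam m))‖ ^ 2) =
      fun t : ℝ => ∑ m ∈ S, ∑ m' ∈ S,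
      ((B m * (starRingEnd ℂ) (B m')).re *
          (w η t * Real.cos (2 * Real.pi * t * (lam m - lam m'))) +
        (B m * (starRingEnd ℂ) (B m')).im *
          (w η t * Real.sin (2 * Real.pi * t * (lam m - lam m')))) := by
    funext t
    rw [sq_expand, Finset.mul_sum]
    refine Finset.sum_congr rfl fun m _ => ?_
    rw [Finset.mul_sum]
    refine Finset.sum_congr rfl fun m' _ => ?_
    ring
  have hi : ∀ m ∈ S, ∀ m' ∈ S, Integrable fun t : ℝ =>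
      ((B m * (starRingEnd ℂ) (B m')).re *
          (w η t * Real.cos (2 * Real.pi * t * (lam m - lam m'))) +
        (B m * (starRingEnd ℂ) (B m')).im *
          (w η t * Real.sin (2 * Real.pi * t * (lam m - lam m')))) := fun m _ m' _ =>
    ((int_cos hw' _).const_mul _).add ((int_sin hw' _).const_mul _)
  rw [h1]
  refine ⟨integrable_finsetSum _ fun m hm => integrable_finsetSum _ fun m' hm' => hi m hm m' hm',
    ?_⟩
  rw [integral_finsetSum _ fun m hm => integrable_finsetSum _ fun m' hm' => hi m hm m' hm',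
    Finset.mul_sum]
  refine Finset.sum_le_sum fun m hm => ?_
  rw [integral_finsetSum _ fun m' hm' => hi m hm m' hm', Finset.mul_sum]
  refine Finset.sum_le_sum fun m' hm' => ?_
  rw [integral_add ((int_cos hw' _).const_mul _) ((int_sin hw' _).const_mul _),
    integral_const_mul, integral_const_mul, sin_zero', hF', mul_zero, add_zero]
  refine mul_le_mul_of_nonneg_right ?_ (le_max_right _ _)
  calc (B m * (starRingEnd ℂ) (B m')).re ≤ ‖B m * (starRingEnd ℂ) (B m')‖ := Complex.re_le_norm _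
    _ = ‖B m‖ * ‖B m'‖ := by rw [norm_mul, RCLike.norm_conj]
    _ ≤ D * D := mul_le_mul (hD m hm) (hD m' hm') (norm_nonneg _)
        ((norm_nonneg _).trans (hD m hm))
    _ = D ^ 2 := (sq D).symm

/-- close logarithms -/
theorem close_log {η : ℝ} {m m' M : ℕ} (hm : 1 ≤ m) (hm' : 1 ≤ m') (hM' : m' ≤ M)
    (hη : 0 < η) (h : |Real.log m - Real.log m'| < η) : m' ≤ m + ⌊η * M⌋₊ := by
  rcases le_or_gt m' m with h1 | h1
  · omega
  · have h2 : (0 : ℝ) < m := by exact_mod_cast hm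
    have h3 : (0 : ℝ) < m' := by exact_mod_cast hm'
    have h4 : 1 - ((m' : ℝ) / m)⁻¹ ≤ Real.log ((m' : ℝ) / m) :=
      Real.one_sub_inv_le_log_of_pos (by positivity)
    rw [Real.log_div h3.ne' h2.ne', inv_div] at h4
    have h5 : Real.log m' - Real.log m < η := by
      rw [abs_sub_comm] at h
      exact (le_abs_self _).trans_lt h
    have h6 : 1 - (m : ℝ) / m' < η := h4.trans_lt h5
    have h7 : (m' : ℝ) - m < η * m' := by
      have h8 : (m : ℝ) / m' * m' = m := div_mul_cancel₀ _ h3.ne'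
      nlinarith
    have h9 : ((m' - m : ℕ) : ℝ) ≤ η * M := by
      rw [Nat.cast_sub h1.le]
      have h10 : (m' : ℝ) ≤ M := by exact_mod_cast hM'
      nlinarith
    have h11 := Nat.le_floor h9
    omega

/-- the number of close pairs -/
theorem count {η : ℝ} (hη : 0 < η) (M : ℕ) :
    ∑ m ∈ Finset.Icc 1 M, ∑ m' ∈ Finset.Icc 1 M, max (η - |Real.log m - Real.log m'|) 0 ≤
      η * M * (2 * (η * M) + 1) := by
  have h1 : ∀ m ∈ Finset.Icc 1 M, ∑ m' ∈ Finset.Icc 1 M,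
      max (η - |Real.log m - Real.log m'|) 0 ≤ η * (2 * (η * M) + 1) := by
    intro m hm
    rw [Finset.mem_Icc] at hm
    have h2 : ∑ m' ∈ Finset.Icc 1 M, max (η - |Real.log m - Real.log m'|) 0 ≤
        ∑ m' ∈ Finset.Icc 1 M, if |Real.log m - Real.log m'| < η then η else 0 := by
      refine Finset.sum_le_sum fun m' _ => ?_
      split_ifs with h
      · exact max_le (by linarith [abs_nonneg (Real.log m - Real.log m')]) hη.le
      · exact max_le (by linarith) le_rfl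
    refine h2.trans ?_
    rw [← Finset.sum_filter, Finset.sum_const, nsmul_eq_mul, mul_comm]
    refine mul_le_mul_of_nonneg_left ?_ hη.le
    have h3 : (Finset.Icc 1 M).filter (fun m' : ℕ => |Real.log m - Real.log m'| < η) ⊆
        Finset.Icc (m - ⌊η * M⌋₊) (m + ⌊η * M⌋₊) := by
      intro m' hm'
      rw [Finset.mem_filter, Finset.mem_Icc] at hm'
      obtain ⟨⟨h4, h5⟩, h6⟩ := hm'
      have h7 := close_log hm.1 h4 h5 hη h6
      rw [abs_sub_comm] at h6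
      have h8 := close_log h4 hm.1 hm.2 hη h6
      rw [Finset.mem_Icc]
      omega
    have h4 := Finset.card_le_card h3
    rw [Nat.card_Icc] at h4
    have h5 : (Finset.filter (fun m' : ℕ => |Real.log m - Real.log m'| < η)
        (Finset.Icc 1 M)).card ≤ 2 * ⌊η * M⌋₊ + 1 := by omega
    have h6 : ((Finset.filter (fun m' : ℕ => |Real.log m - Real.log m'| < η)
        (Finset.Icc 1 M)).card : ℝ) ≤ 2 * (⌊η * M⌋₊ : ℝ) + 1 := by exact_mod_cast h5
    have h7 : (⌊η * M⌋₊ : ℝ) ≤ η * M := Nat.floor_le (by positivity)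
    linarith
  calc _ ≤ ∑ m ∈ Finset.Icc 1 M, η * (2 * (η * M) + 1) := Finset.sum_le_sum h1
    _ = η * M * (2 * (η * M) + 1) := by
        rw [Finset.sum_const, nsmul_eq_mul, Nat.card_Icc]
        rw [Nat.add_sub_cancel]
        ring

/-- the tail integral -/
theorem tail {a : ℝ} (ha : 0 < a) : Integrable (fun t : ℝ => (a ^ 2 + t ^ 2)⁻¹) ∧
    ∫ t : ℝ, (a ^ 2 + t ^ 2)⁻¹ = Real.pi / a := by
  have h1 : (fun t : ℝ => (a ^ 2 + t ^ 2)⁻¹) = fun t : ℝ => (a ^ 2)⁻¹ * (1 + (t / a) ^ 2)⁻¹ := by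
    funext t
    rw [← mul_inv, div_pow]
    congr 1
    field_simp
  rw [h1]
  refine ⟨(integrable_inv_one_add_sq.comp_div ha.ne').const_mul _, ?_⟩
  rw [integral_const_mul, Measure.integral_comp_div (fun y : ℝ => (1 + y ^ 2)⁻¹) a,
    integral_univ_inv_one_add_sq, abs_of_pos ha, smul_eq_mul]
  field_simp

/-- factorisation -/
theorem factor (R : Finset ℕ) (M : ℕ) (B : ℕ → ℂ) (hR : ∀ a ∈ R, 1 ≤ a) (t : ℝ) :
    ∑ p ∈ R ×ˢ Finset.Icc 1 M, B p.2 * ee (-(t * Real.log ((p.1 : ℝ) * p.2))) =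
      (∑ a ∈ R, ee (-(t * Real.log a))) * ∑ m ∈ Finset.Icc 1 M, B m * ee (-(t * Real.log m)) := by
  rw [Finset.sum_mul_sum, Finset.sum_product]
  refine Finset.sum_congr rfl fun a ha => Finset.sum_congr rfl fun m hm => ?_
  have h1 : (0 : ℝ) < a := by exact_mod_cast hR a ha
  have h2 : (0 : ℝ) < m := by exact_mod_cast (Finset.mem_Icc.1 hm).1
  show B m * ee (-(t * Real.log ((a : ℝ) * m))) = _
  rw [Real.log_mul h1.ne' h2.ne',
    show -(t * (Real.log a + Real.log m)) = -(t * Real.log a) + -(t * Real.log m) by ring, ee_add]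
  ring

/-- the pointwise bound -/
theorem pointwise {η T₀ a E FA t : ℝ} {CA CB : ℂ} (hη : 0 < η) (ha : 0 < a)
    (hCE : ‖CA * CB‖ ≤ E) (hFA : T₀ < |t| → |t| ≤ a → ‖CA‖ ≤ FA) :
    w η t * (4 * Real.sin (Real.pi * η * t) ^ 2) * ‖CA * CB‖ ^ 2 ≤
      (Set.Icc (-T₀) T₀).indicator (fun _ => 4 * Real.pi ^ 2 * η ^ 4 * T₀ ^ 2 * E ^ 2) t +
        4 * FA ^ 2 * (w η t * ‖CB‖ ^ 2) + 8 * E ^ 2 * (a ^ 2 + t ^ 2)⁻¹ := by
  have hw0 := w_nonneg η t
  have hpi := Real.pi_pos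
  have hE2 : ‖CA * CB‖ ^ 2 ≤ E ^ 2 := pow_le_pow_left₀ (norm_nonneg _) hCE 2
  have p1 : 0 ≤ (Set.Icc (-T₀) T₀).indicator
      (fun _ => 4 * Real.pi ^ 2 * η ^ 4 * T₀ ^ 2 * E ^ 2) t :=
    Set.indicator_nonneg (fun _ _ => by positivity) _
  have p2 : 0 ≤ 4 * FA ^ 2 * (w η t * ‖CB‖ ^ 2) := by positivity
  have p3 : 0 ≤ 8 * E ^ 2 * (a ^ 2 + t ^ 2)⁻¹ := by positivity
  rcases le_or_gt |t| T₀ with h1 | h1
  · have h2 : t ∈ Set.Icc (-T₀) T₀ := by
      rw [Set.mem_Icc]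
      exact abs_le.1 h1
    rw [Set.indicator_of_mem h2] at p1 ⊢
    have h3 : Real.sin (Real.pi * η * t) ^ 2 ≤ (Real.pi * η * T₀) ^ 2 := by
      refine Real.sin_sq_le_sq.trans ?_
      rw [mul_pow (Real.pi * η) t, mul_pow (Real.pi * η) T₀]
      refine mul_le_mul_of_nonneg_left ?_ (by positivity)
      exact sq_le_sq' (by linarith [h2.1]) h2.2
    have h4 : w η t * (4 * Real.sin (Real.pi * η * t) ^ 2) * ‖CA * CB‖ ^ 2 ≤
        η ^ 2 * (4 * (Real.pi * η * T₀) ^ 2) * E ^ 2 := by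
      have h5 := w_le_sq hη t
      gcongr
    have h6 : η ^ 2 * (4 * (Real.pi * η * T₀) ^ 2) * E ^ 2 =
        4 * Real.pi ^ 2 * η ^ 4 * T₀ ^ 2 * E ^ 2 := by ring
    linarith
  · rcases le_or_gt |t| a with h2 | h2
    · have h3 := hFA h1 h2
      have h4 : ‖CA * CB‖ ^ 2 ≤ FA ^ 2 * ‖CB‖ ^ 2 := by
        rw [norm_mul, mul_pow]
        gcongr
      have h5 : Real.sin (Real.pi * η * t) ^ 2 ≤ 1 := Real.sin_sq_le_one _
      have h6 : w η t * (4 * Real.sin (Real.pi * η * t) ^ 2) * ‖CA * CB‖ ^ 2 ≤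
          w η t * (4 * 1) * (FA ^ 2 * ‖CB‖ ^ 2) := by
        gcongr
      have h7 : w η t * (4 * 1) * (FA ^ 2 * ‖CB‖ ^ 2) = 4 * FA ^ 2 * (w η t * ‖CB‖ ^ 2) := by ring
      linarith
    · have ht : t ≠ 0 := by
        rintro rfl
        rw [abs_zero] at h2
        linarith
      have h3 : a ^ 2 ≤ t ^ 2 := by
        rw [← sq_abs t]
        exact pow_le_pow_left₀ ha.le h2.le 2
      have h4 : 1 / t ^ 2 ≤ 2 * (a ^ 2 + t ^ 2)⁻¹ := by
        have h5 : 0 < t ^ 2 := by positivity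
        rw [← div_eq_mul_inv, div_le_div_iff₀ h5 (by positivity)]
        linarith
      have h5 : Real.sin (Real.pi * η * t) ^ 2 ≤ 1 := Real.sin_sq_le_one _
      have h6 := w_le_inv η ht
      have h7 : w η t ≤ 2 * (a ^ 2 + t ^ 2)⁻¹ := h6.trans h4
      have h8 : w η t * (4 * Real.sin (Real.pi * η * t) ^ 2) * ‖CA * CB‖ ^ 2 ≤
          (2 * (a ^ 2 + t ^ 2)⁻¹) * (4 * 1) * E ^ 2 := by
        gcongr
      have h9 : (2 * (a ^ 2 + t ^ 2)⁻¹) * (4 * 1) * E ^ 2 = 8 * E ^ 2 * (a ^ 2 + t ^ 2)⁻¹ := by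
        ring
      linarith

/-- the final estimate -/
theorem final {X η D AM A V Y E2 E1 E3 : ℝ} (hη : 0 < η) (hX : 1 ≤ X) (hA : 0 ≤ A)
    (hAM : 0 ≤ AM) (h1 : AM ≤ 3 * X) (h2 : A ≤ 3 * η * X) (h3 : 1 ≤ 9 * (η ^ 2 * X ^ 2))
    (e1 : E1 ≤ 1152 * (D ^ 2 * η ^ 2 * X ^ 2) * (Y / 3456))
    (e2 : E2 ≤ 4 * V * (D ^ 2 * (2 * η ^ 2 * AM ^ 2 + η * A * AM))) (hVY : V ≤ Y / 324)
    (e3 : E3 ≤ 288 * D ^ 2 * (Y / 7776)) (hY : 0 ≤ Y) :
    E1 + E2 + E3 ≤ D ^ 2 * η ^ 2 * X ^ 2 * Y := by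
  have hX0 : 0 ≤ X := by linarith
  have a1 : AM ^ 2 ≤ 9 * X ^ 2 := by nlinarith
  have a2 : A * AM ≤ 9 * η * X ^ 2 := by
    calc A * AM ≤ (3 * η * X) * (3 * X) := mul_le_mul h2 h1 hAM (by positivity)
      _ = 9 * η * X ^ 2 := by ring
  have a3 : 2 * η ^ 2 * AM ^ 2 + η * A * AM ≤ 27 * (η ^ 2 * X ^ 2) := by
    have b1 : 2 * η ^ 2 * AM ^ 2 ≤ 2 * η ^ 2 * (9 * X ^ 2) := by gcongr
    have b2 : η * (A * AM) ≤ η * (9 * η * X ^ 2) := by gcongr
    nlinarith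
  have a4 : E2 ≤ 4 * (Y / 324) * (D ^ 2 * (27 * (η ^ 2 * X ^ 2))) := by
    refine e2.trans ?_
    gcongr
  have a5 : D ^ 2 * Y ≤ D ^ 2 * Y * (9 * (η ^ 2 * X ^ 2)) :=
    le_mul_of_one_le_right (by positivity) h3
  nlinarith

theorem ax1 {x y c : ℝ} (h : x * y = 1) (hx : 0 < x) (hc : c ≤ y) : c * x ≤ 1 := by
  rw [← h, mul_comm x y]
  exact mul_le_mul_of_nonneg_right hc hx.le

theorem ax2 {η X : ℝ} (h : 1 ≤ 3 * η * X) : 1 ≤ 9 * (η ^ 2 * X ^ 2) := by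
  have h1 : (1 : ℝ) ≤ (3 * η * X) ^ 2 := one_le_pow₀ h
  have h2 : (3 * η * X) ^ 2 = 9 * (η ^ 2 * X ^ 2) := by ring
  linarith

theorem ax3 {x y c : ℝ} (hc : 0 < c) (hx : 0 < x) (h : c * x ≤ 1) (hy : x ≤ y) :
    x * x ≤ y / c := by
  rw [le_div_iff₀ hc]
  calc x * x * c = (c * x) * x := by ring
    _ ≤ 1 * x := mul_le_mul_of_nonneg_right h hx.le
    _ ≤ y := by rw [one_mul]; exact hy

theorem ax4 {X z : ℝ} (hX : 0 < X) (h : X⁻¹ ≤ z) : 1 ≤ X * z := by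
  calc (1 : ℝ) = X * X⁻¹ := (mul_inv_cancel₀ hX.ne').symm
    _ ≤ X * z := mul_le_mul_of_nonneg_left h hX.le

theorem ax5 {X Y : ℝ} (hX : 100 ≤ X) (h : 1 ≤ X * Y) : 1 / X ^ 3 ≤ Y / 7776 := by
  have h0 : 0 < X := by linarith
  rw [div_le_div_iff₀ (by positivity) (by norm_num)]
  have c6 : (7776 : ℝ) ≤ X ^ 2 := by nlinarith
  have c7 : Y * X ^ 3 = (X * Y) * X ^ 2 := by ring
  rw [c7]
  exact mul_le_mul h c6 (by norm_num) (by linarith)

end IP4

open IP4 in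
/-- item P4 -/
theorem prP4 (h1 : tsP1) (h2 : tsP2) (h3 : tsP3) : tsP4 := by
  intro ε₁ δ₅ hε hε1 hδ hδ1
  obtain ⟨δ', X1, hδ', hP1⟩ := h1 ε₁ (δ₅ / 3) hε (by linarith) (by linarith) (by linarith)
  have ev : ∀ᶠ X : ℝ in atTop, X1 ≤ X ∧ 3456 ≤ X ^ (δ₅ / 2) ∧ 324 ≤ X ^ δ' ∧ 100 ≤ X :=
    (eventually_ge_atTop X1).and (((tendsto_rpow_atTop (by linarith)).eventually_ge_atTop 3456).and
      (((tendsto_rpow_atTop hδ').eventually_ge_atTop 324).and (eventually_ge_atTop 100)))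
  obtain ⟨X0, hX0⟩ := eventually_atTop.1 ev
  refine ⟨min (δ₅ / 2) (δ' / 2), X0, lt_min (by linarith) (by linarith), ?_⟩
  set δw : ℝ := min (δ₅ / 2) (δ' / 2) with hδw
  have hδw0 : 0 < δw := lt_min (by linarith) (by linarith)
  have hδw5 : δw ≤ δ₅ / 2 := min_le_left _ _
  have hδwp : δw ≤ δ' / 2 := min_le_right _ _
  intro X η D A A' q ρ M B hX hA hAA hA2 hq hqX hM hη hηX hAη hD hB
  obtain ⟨g1, g2, g3, g4⟩ := hX0 X hX
  have hX1 : 1 ≤ X := by linarith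
  have hXp : 0 < X := by linarith
  set R : Finset ℕ := (Finset.Ioc A A').filter (fun a => a % q = ρ % q) with hR
  have hR1 : ∀ a ∈ R, 1 ≤ a := by
    intro a ha
    rw [hR, Finset.mem_filter, Finset.mem_Ioc] at ha
    omega
  have hRc : (R.card : ℝ) ≤ A := by
    have c1 : R.card ≤ A := by
      calc R.card ≤ (Finset.Ioc A A').card := Finset.card_filter_le _ _
        _ = A' - A := Nat.card_Ioc _ _
        _ ≤ A := by omega
    exact_mod_cast c1
  have hA0 : (0 : ℝ) < A := (Real.rpow_pos_of_pos hXp _).trans_le hA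
  have hAM : (A : ℝ) * M ≤ 3 * X := by
    rw [le_div_iff₀ hA0] at hM
    linarith
  have hX1e : X ^ (1 - ε₁) ≤ X := by
    calc X ^ (1 - ε₁) ≤ X ^ (1 : ℝ) := Real.rpow_le_rpow_of_exponent_le hX1 (by linarith)
      _ = X := Real.rpow_one X
  have hX5 : 3456 * X ^ (-δ₅ / 2) ≤ 1 := by
    have c1 : X ^ (-δ₅ / 2) * X ^ (δ₅ / 2) = 1 := by
      rw [← Real.rpow_add hXp, show -δ₅ / 2 + δ₅ / 2 = 0 by ring, Real.rpow_zero]
    exact ax1 c1 (Real.rpow_pos_of_pos hXp _) g2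
  have hXd5 : X ^ (-δ₅) ≤ X ^ (-δ₅ / 2) := Real.rpow_le_rpow_of_exponent_le hX1 (by linarith)
  have hη1 : η ≤ 1 := by
    have c2 : 0 < X ^ (-δ₅ / 2) := Real.rpow_pos_of_pos hXp _
    linarith
  have hAX : (A : ℝ) ≤ X := by
    refine hAη.trans ?_
    have c2 : 3 * η ≤ 1 := by
      have c3 : 0 < X ^ (-δ₅ / 2) := Real.rpow_pos_of_pos hXp _
      linarith
    calc 3 * η * X ^ (1 - ε₁) ≤ 1 * X := by gcongr
      _ = X := one_mul X
  have hA3 : (A : ℝ) ≤ 3 * η * X := hAη.trans (by gcongr)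
  have hqX' : (q : ℝ) ≤ X ^ δ' :=
    hqX.trans (Real.rpow_le_rpow_of_exponent_le hX1 (by linarith))
  -- the bound for eta
  have hη9 : 1 ≤ 9 * (η ^ 2 * X ^ 2) := by
    have c1 : X ^ ε₁ ≤ 3 * η * X ^ (1 - ε₁) := hA.trans hAη
    have c2 : 1 ≤ X ^ ε₁ := Real.one_le_rpow hX1 hε.le
    have c3 : 1 ≤ 3 * η * X := by
      calc (1 : ℝ) ≤ X ^ ε₁ := c2
        _ ≤ 3 * η * X ^ (1 - ε₁) := c1
        _ ≤ 3 * η * X := by gcongr
    exact ax2 c3
  -- Plancherel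
  obtain ⟨hint, heq⟩ := h3 (ℕ × ℕ) (R ×ˢ Finset.Icc 1 M)
    (fun p => Real.log ((p.1 : ℝ) * p.2)) (fun p => B p.2) η hη
  have heq' : ∫ u : ℝ, ‖∑ p ∈ R ×ˢ Finset.Icc 1 M,
      B p.2 * ((psi η (u - Real.log ((p.1 : ℝ) * p.2)) : ℝ) : ℂ)‖ ^ 2 =
      ∫ t : ℝ, w η t * (4 * Real.sin (Real.pi * η * t) ^ 2) *
        ‖∑ p ∈ R ×ˢ Finset.Icc 1 M, B p.2 * ee (-(t * Real.log ((p.1 : ℝ) * p.2)))‖ ^ 2 := heq
  have hint' : Integrable (fun t : ℝ => w η t * (4 * Real.sin (Real.pi * η * t) ^ 2) *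
        ‖∑ p ∈ R ×ˢ Finset.Icc 1 M,
          B p.2 * ee (-(t * Real.log ((p.1 : ℝ) * p.2)))‖ ^ 2) := hint
  rw [heq']
  simp only [factor R M B hR1] at hint' ⊢
  set CA : ℝ → ℂ := fun t => ∑ a ∈ R, ee (-(t * Real.log a)) with hCA
  set CB : ℝ → ℂ := fun t => ∑ m ∈ Finset.Icc 1 M, B m * ee (-(t * Real.log m)) with hCB
  have bA : ∀ t, ‖CA t‖ ≤ A := by
    intro t
    calc ‖CA t‖ ≤ ∑ a ∈ R, ‖ee (-(t * Real.log a))‖ := norm_sum_le _ _
      _ = R.card := by simp [nrm_ee]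
      _ ≤ A := hRc
  have bB : ∀ t, ‖CB t‖ ≤ M * D := by
    intro t
    calc ‖CB t‖ ≤ ∑ m ∈ Finset.Icc 1 M, ‖B m * ee (-(t * Real.log m))‖ := norm_sum_le _ _
      _ ≤ ∑ m ∈ Finset.Icc 1 M, D := by
          refine Finset.sum_le_sum fun m hm => ?_
          rw [norm_mul, nrm_ee, mul_one]
          exact hB m hm
      _ = M * D := by
          rw [Finset.sum_const, Nat.card_Icc, nsmul_eq_mul, Nat.add_sub_cancel]
  have bC : ∀ t, ‖CA t * CB t‖ ≤ 3 * X * D := by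
    intro t
    rw [norm_mul]
    calc ‖CA t‖ * ‖CB t‖ ≤ A * (M * D) :=
          mul_le_mul (bA t) (bB t) (norm_nonneg _) hA0.le
      _ = (A * M) * D := by ring
      _ ≤ 3 * X * D := by gcongr
  set T₀ : ℝ := X ^ (δ₅ / 3) with hT₀
  have hT0 : 0 < T₀ := Real.rpow_pos_of_pos hXp _
  set a : ℝ := X ^ (5 : ℕ) with ha
  have ha0 : 0 < a := by positivity
  set FA : ℝ := A * X ^ (-δ') with hFA
  have bFA : ∀ t, T₀ < |t| → |t| ≤ a → ‖CA t‖ ≤ FA := fun t ht1 ht2 =>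
    hP1 X t A A' q ρ g1 hA hAX hAA hA2 hq hqX' ht1.le ht2
  obtain ⟨hmi, hms⟩ := ms h2 hη (Finset.Icc 1 M) (fun m => Real.log m) B D hB
  obtain ⟨hti, htv⟩ := tail ha0
  have hind : Integrable ((Set.Icc (-T₀) T₀).indicator
      (fun _ : ℝ => 4 * Real.pi ^ 2 * η ^ 4 * T₀ ^ 2 * (3 * X * D) ^ 2)) := by
    rw [integrable_indicator_iff measurableSet_Icc]
    exact integrableOn_const measure_Icc_lt_top.ne enorm_ne_top
  have hb : ∫ t : ℝ, w η t * (4 * Real.sin (Real.pi * η * t) ^ 2) * ‖CA t * CB t‖ ^ 2 ≤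
      ∫ t : ℝ, ((Set.Icc (-T₀) T₀).indicator
        (fun _ : ℝ => 4 * Real.pi ^ 2 * η ^ 4 * T₀ ^ 2 * (3 * X * D) ^ 2) t +
        4 * FA ^ 2 * (w η t * ‖CB t‖ ^ 2) + 8 * (3 * X * D) ^ 2 * (a ^ 2 + t ^ 2)⁻¹) := by
    refine integral_mono hint' ((hind.add (hmi.const_mul _)).add (hti.const_mul _)) fun t => ?_
    exact pointwise hη ha0 (bC t) (bFA t)
  refine hb.trans ?_
  have e1 := integral_add (hind.add (hmi.const_mul (4 * FA ^ 2)))
    (hti.const_mul (8 * (3 * X * D) ^ 2))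
  have e2 := integral_add hind (hmi.const_mul (4 * FA ^ 2))
  simp only [Pi.add_apply] at e1
  rw [e2, integral_const_mul, integral_const_mul, htv,
    integral_indicator_const _ measurableSet_Icc] at e1
  refine e1.le.trans ?_
  have hvol : (volume : Measure ℝ).real (Set.Icc (-T₀) T₀) = 2 * T₀ := by
    rw [Real.volume_real_Icc_of_le (by linarith)]
    ring
  rw [hvol, smul_eq_mul, show (2 : ℝ) - δw = 2 + -δw by ring, Real.rpow_add hXp,
    ← mul_assoc (D ^ 2 * η ^ 2), show X ^ (2 : ℝ) = X ^ (2 : ℕ) by norm_cast]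
  have hYp : 0 < X ^ (-δw) := Real.rpow_pos_of_pos hXp _
  have hpi4 : Real.pi ≤ 4 := Real.pi_le_four
  have hpi0 := Real.pi_pos
  refine final (AM := A * M) (A := A) (V := (X ^ (-δ')) ^ 2) hη hX1 hA0.le (by positivity) hAM hA3
    hη9 ?_ ?_ ?_ ?_ hYp.le
  · -- small t
    have c1 : T₀ ^ 3 = X ^ δ₅ := by
      rw [hT₀, ← Real.rpow_natCast, ← Real.rpow_mul hXp.le]
      congr 1
      push_cast
      ring
    have c2 : η ^ 2 * X ^ δ₅ ≤ X ^ (-δ₅) := by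
      have c3 : X ^ (-δ₅) * X ^ δ₅ = 1 := by
        rw [← Real.rpow_add hXp, show -δ₅ + δ₅ = 0 by ring, Real.rpow_zero]
      have c4 : 0 < X ^ δ₅ := Real.rpow_pos_of_pos hXp _
      have c5 : 0 < X ^ (-δ₅) := Real.rpow_pos_of_pos hXp _
      calc η ^ 2 * X ^ δ₅ ≤ (X ^ (-δ₅)) ^ 2 * X ^ δ₅ := by gcongr
        _ = X ^ (-δ₅) * (X ^ (-δ₅) * X ^ δ₅) := by ring
        _ = X ^ (-δ₅) := by rw [c3, mul_one]
    have c3 : X ^ (-δ₅) ≤ X ^ (-δw) / 3456 := by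
      have c4 : X ^ (-δ₅) = X ^ (-δ₅ / 2) * X ^ (-δ₅ / 2) := by
        rw [← Real.rpow_add hXp]
        congr 1
        ring
      have c5 : X ^ (-δ₅ / 2) ≤ X ^ (-δw) := Real.rpow_le_rpow_of_exponent_le hX1 (by linarith)
      rw [c4]
      exact ax3 (by norm_num) (Real.rpow_pos_of_pos hXp _) hX5 c5
    calc 2 * T₀ * (4 * Real.pi ^ 2 * η ^ 4 * T₀ ^ 2 * (3 * X * D) ^ 2) =
          72 * Real.pi ^ 2 * (D ^ 2 * η ^ 2 * X ^ 2) * (η ^ 2 * T₀ ^ 3) := by ring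
      _ ≤ 72 * 4 ^ 2 * (D ^ 2 * η ^ 2 * X ^ 2) * (X ^ (-δw) / 3456) := by
          rw [c1]
          have c7 := c2.trans c3
          have c8 : 0 ≤ η ^ 2 * X ^ δ₅ := by positivity
          gcongr
      _ = 1152 * (D ^ 2 * η ^ 2 * X ^ 2) * (X ^ (-δw) / 3456) := by ring
  · -- middle t
    have c1 := hms.trans (mul_le_mul_of_nonneg_left (count hη M) (sq_nonneg D))
    have c2 : 4 * FA ^ 2 * (∫ t : ℝ, w η t * ‖CB t‖ ^ 2) ≤
        4 * FA ^ 2 * (D ^ 2 * (η * M * (2 * (η * M) + 1))) :=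
      mul_le_mul_of_nonneg_left c1 (by positivity)
    refine c2.trans (le_of_eq ?_)
    rw [hFA]
    ring
  · -- V
    have c1 : (X ^ (-δ')) ^ 2 = X ^ (-δ') * X ^ (-δ') := sq _
    have c2 : X ^ (-δ') ≤ X ^ (-δw) := Real.rpow_le_rpow_of_exponent_le hX1 (by linarith)
    have c3 : X ^ (-δ') * X ^ δ' = 1 := by
      rw [← Real.rpow_add hXp, show -δ' + δ' = 0 by ring, Real.rpow_zero]
    have c4 : 0 < X ^ (-δ') := Real.rpow_pos_of_pos hXp _
    rw [c1]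
    exact ax3 (by norm_num) c4 (ax1 c3 c4 g3) c2
  · -- large t
    have c1 : 1 ≤ X * X ^ (-δw) := by
      have c2 : X ^ (-(1 : ℝ)) ≤ X ^ (-δw) := Real.rpow_le_rpow_of_exponent_le hX1 (by linarith)
      rw [Real.rpow_neg_one] at c2
      exact ax4 hXp c2
    have c2 : 8 * (3 * X * D) ^ 2 * (Real.pi / a) ≤ 288 * D ^ 2 * (1 / X ^ 3) := by
      rw [ha]
      have c3 : 8 * (3 * X * D) ^ 2 * (Real.pi / X ^ 5) = 72 * Real.pi * D ^ 2 * (1 / X ^ 3) := by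
        field_simp
        ring
      rw [c3]
      have c4 : 72 * Real.pi ≤ 288 := by linarith
      gcongr
    refine c2.trans ?_
    have c5 : 1 / X ^ 3 ≤ X ^ (-δw) / 7776 := ax5 g4 c1
    gcongr

end Pool.Agent.Work.MP_122e00_nt.TS
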