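import Mathlib
import Pool.Agent.Work.MP_122e00_nt.TS.Stmts7
import Pool.Agent.Work.MP_122e00_nt.TS.I_P4

set_option autoImplicit false

/-!
# Item K3: primes times the divisor function in multiplicative windows
-/

namespace Pool.Agent.Work.MP_122e00_nt.TS

open Finset Filter Topology ArithmeticFunction MeasureTheory
open scoped ArithmeticFunction.zeta ArithmeticFunction.Moebius

namespace IK3

theorem om_eq (η t : ℝ) : om η t = IP4.w η t * (4 * Real.sin (Real.pi * η * t) ^ 2) := rfl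

theorem om_nonneg (η t : ℝ) : 0 ≤ om η t := by
  rw [om_eq]
  have := IP4.w_nonneg η t
  positivity

/-- factorisation -/
theorem factor (R S : Finset ℕ) (B : ℕ → ℂ) (hR : ∀ a ∈ R, 1 ≤ a) (hS : ∀ m ∈ S, 1 ≤ m)
    (t : ℝ) :
    ∑ p ∈ R ×ˢ S, B p.2 * ee (-(t * Real.log ((p.1 : ℝ) * p.2))) =
      (∑ a ∈ R, ee (-(t * Real.log a))) * ∑ m ∈ S, B m * ee (-(t * Real.log m)) := by
  rw [Finset.sum_mul_sum, Finset.sum_product]
  refine Finset.sum_congr rfl fun a ha => Finset.sum_congr rfl fun m hm => ?_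
  have h1 : (0 : ℝ) < a := by exact_mod_cast hR a ha
  have h2 : (0 : ℝ) < m := by exact_mod_cast hS m hm
  show B m * ee (-(t * Real.log ((a : ℝ) * m))) = _
  rw [Real.log_mul h1.ne' h2.ne',
    show -(t * (Real.log a + Real.log m)) = -(t * Real.log a) + -(t * Real.log m) by ring,
    IP4.ee_add]
  ring

theorem ee_zero : ee 0 = 1 := by
  unfold ee
  simp

theorem ee_sum {ι : Type} (s : Finset ι) (y : ι → ℝ) :
    ee (∑ i ∈ s, y i) = ∏ i ∈ s, ee (y i) := by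
  classical
  induction s using Finset.induction_on with
  | empty => rw [Finset.sum_empty, Finset.prod_empty, ee_zero]
  | insert a s ha ih => rw [Finset.sum_insert ha, Finset.prod_insert ha, IP4.ee_add, ih]

/-- the number of representations of `n` as a product of `k` elements of `R` -/
noncomputable def cnt (k : ℕ) (R : Finset ℕ) (n : ℕ) : ℕ :=
  ((Fintype.piFinset fun _ : Fin k => R).filter (fun x => ∏ i, x i = n)).card

theorem cnt_le (k : ℕ) (R : Finset ℕ) (hR : ∀ p ∈ R, p.Prime) (n : ℕ) :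
    cnt k R n ≤ k.factorial := by
  unfold cnt
  have hperm : ∀ x ∈ (Fintype.piFinset fun _ : Fin k => R).filter (fun x => ∏ i, x i = n),
      (List.ofFn x).Perm (Nat.primeFactorsList n) := by
    intro x hx
    obtain ⟨h1, h2⟩ := Finset.mem_filter.1 hx
    apply Nat.primeFactorsList_unique
    · rw [List.prod_ofFn]
      exact h2
    · intro p hp
      rw [List.mem_ofFn] at hp
      obtain ⟨i, rfl⟩ := hp
      exact hR _ (Fintype.mem_piFinset.1 h1 i)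
  rcases Finset.eq_empty_or_nonempty
    ((Fintype.piFinset fun _ : Fin k => R).filter (fun x => ∏ i, x i = n)) with h | ⟨x0, hx0⟩
  · rw [h, Finset.card_empty]
    exact Nat.zero_le _
  · have hlen : (Nat.primeFactorsList n).length = k := by
      rw [← (hperm x0 hx0).length_eq, List.length_ofFn]
    calc ((Fintype.piFinset fun _ : Fin k => R).filter (fun x => ∏ i, x i = n)).card
        ≤ ((Nat.primeFactorsList n).permutations.toFinset).card := by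
          apply Finset.card_le_card_of_injOn (fun x => List.ofFn x)
          · intro x hx
            have := hperm x hx
            rw [Finset.mem_coe, List.mem_toFinset, List.mem_permutations]
            exact this
          · exact List.ofFn_injective.injOn
      _ ≤ (Nat.primeFactorsList n).permutations.length := List.toFinset_card_le _
      _ = k.factorial := by rw [List.length_permutations, hlen]

theorem maps (k A' : ℕ) (R : Finset ℕ) (hR : ∀ p ∈ R, 1 ≤ p ∧ p ≤ A') :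
    ∀ x ∈ (Fintype.piFinset fun _ : Fin k => R), ∏ i, x i ∈ Finset.Icc 1 (A' ^ k) := by
  intro x hx
  rw [Fintype.mem_piFinset] at hx
  rw [Finset.mem_Icc]
  constructor
  · exact Nat.one_le_iff_ne_zero.2 (Finset.prod_ne_zero_iff.2 fun i _ => by
      have := (hR _ (hx i)).1
      omega)
  · calc ∏ i, x i ≤ ∏ _i : Fin k, A' := Finset.prod_le_prod' fun i _ => (hR _ (hx i)).2
      _ = A' ^ k := by rw [Finset.prod_const, Finset.card_univ, Fintype.card_fin]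

theorem pow_eq (k A' : ℕ) (R : Finset ℕ) (hR : ∀ p ∈ R, 1 ≤ p ∧ p ≤ A') (t : ℝ) :
    (∑ p ∈ R, ee (-(t * Real.log p))) ^ k =
      ∑ n ∈ Finset.Icc 1 (A' ^ k), (cnt k R n : ℂ) * ee (-(t * Real.log n)) := by
  have h1 : (∑ p ∈ R, ee (-(t * Real.log p))) ^ k =
      ∑ x ∈ Fintype.piFinset (fun _ : Fin k => R), ∏ i, ee (-(t * Real.log (x i : ℕ))) := by
    have h0 := Finset.prod_univ_sum (fun _ : Fin k => R)
      (fun (_ : Fin k) (p : ℕ) => ee (-(t * Real.log p)))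
    rw [Finset.prod_const, Finset.card_univ, Fintype.card_fin] at h0
    exact h0
  rw [h1, ← Finset.sum_fiberwise_of_maps_to (maps k A' R hR)]
  refine Finset.sum_congr rfl fun n _ => ?_
  have h2 : ∀ x ∈ (Fintype.piFinset fun _ : Fin k => R).filter (fun x => ∏ i, x i = n),
      ∏ i, ee (-(t * Real.log (x i : ℕ))) = ee (-(t * Real.log n)) := by
    intro x hx
    obtain ⟨h3, h4⟩ := Finset.mem_filter.1 hx
    rw [Fintype.mem_piFinset] at h3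
    rw [← ee_sum, Finset.sum_neg_distrib, ← Finset.mul_sum, ← h4]
    congr 3
    push_cast
    rw [Real.log_prod]
    intro i _
    have := (hR _ (h3 i)).1
    exact_mod_cast (by omega : x i ≠ 0)
  rw [Finset.sum_congr rfl h2, Finset.sum_const, nsmul_eq_mul]
  rfl

theorem sum_cnt (k A' : ℕ) (R : Finset ℕ) (hR : ∀ p ∈ R, 1 ≤ p ∧ p ≤ A') :
    ∑ n ∈ Finset.Icc 1 (A' ^ k), cnt k R n = R.card ^ k := by
  unfold cnt
  rw [← Finset.card_eq_sum_card_fiberwise (maps k A' R hR)]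
  simp

theorem sum_sq (k A' A : ℕ) (R : Finset ℕ) (hR : ∀ p ∈ R, 1 ≤ p ∧ p ≤ A')
    (hP : ∀ p ∈ R, p.Prime) (hc : R.card ≤ A) :
    ∑ n ∈ Finset.Icc 1 (A' ^ k), ‖(cnt k R n : ℂ)‖ ^ 2 ≤ k.factorial * (A : ℝ) ^ k := by
  calc ∑ n ∈ Finset.Icc 1 (A' ^ k), ‖(cnt k R n : ℂ)‖ ^ 2
      ≤ ∑ n ∈ Finset.Icc 1 (A' ^ k), (k.factorial : ℝ) * (cnt k R n : ℝ) := by
        refine Finset.sum_le_sum fun n _ => ?_
        rw [Complex.norm_natCast, sq]
        have h1 : (cnt k R n : ℝ) ≤ k.factorial := by exact_mod_cast cnt_le k R hP n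
        exact mul_le_mul_of_nonneg_right h1 (Nat.cast_nonneg _)
    _ = (k.factorial : ℝ) * ((R.card ^ k : ℕ) : ℝ) := by
        rw [← Finset.mul_sum, ← sum_cnt k A' R hR, Nat.cast_sum]
    _ ≤ k.factorial * (A : ℝ) ^ k := by
        rw [Nat.cast_pow]
        have h1 : (R.card : ℝ) ≤ A := by exact_mod_cast hc
        gcongr

/-- the mean of a power of the sum over primes -/
theorem second (h1 : tsK1) {η : ℝ} (hη : 0 < η) (hη4 : η ≤ 1 / 4) (k A' A : ℕ) (R : Finset ℕ)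
    (hR : ∀ p ∈ R, 1 ≤ p ∧ p ≤ A') (hP : ∀ p ∈ R, p.Prime) (hc : R.card ≤ A) (hA : A' ≤ 2 * A)
    (hηA : 1 ≤ η * (A : ℝ) ^ k) :
    ∫ t : ℝ, om η t * ‖(∑ p ∈ R, ee (-(t * Real.log p))) ^ k‖ ^ 2 ≤
      8 * (1 + 2 ^ k) * k.factorial * η ^ 2 * ((A : ℝ) ^ k) ^ 2 := by
  have e1 : ∀ t : ℝ, om η t * ‖(∑ p ∈ R, ee (-(t * Real.log p))) ^ k‖ ^ 2 =
      om η t * ‖∑ n ∈ Finset.Icc 1 (A' ^ k), (cnt k R n : ℂ) * ee (-(t * Real.log n))‖ ^ 2 := by
    intro t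
    rw [pow_eq k A' R hR t]
  simp only [e1]
  refine (h1 (A' ^ k) (fun n => (cnt k R n : ℂ)) η hη hη4).trans ?_
  have h2 := sum_sq k A' A R hR hP hc
  have h3 : ((A' ^ k : ℕ) : ℝ) ≤ 2 ^ k * (A : ℝ) ^ k := by
    rw [← mul_pow]
    push_cast
    have : (A' : ℝ) ≤ 2 * A := by exact_mod_cast hA
    gcongr
  have h4 : 0 ≤ (A : ℝ) ^ k := by positivity
  have h5 : 1 + η * ((A' ^ k : ℕ) : ℝ) ≤ η * (A : ℝ) ^ k + η * (2 ^ k * (A : ℝ) ^ k) := by
    have := mul_le_mul_of_nonneg_left h3 hη.le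
    linarith
  calc 8 * η * (1 + η * ((A' ^ k : ℕ) : ℝ)) * ∑ n ∈ Finset.Icc 1 (A' ^ k), ‖(cnt k R n : ℂ)‖ ^ 2
      ≤ 8 * η * (η * (A : ℝ) ^ k + η * (2 ^ k * (A : ℝ) ^ k)) * (k.factorial * (A : ℝ) ^ k) := by
        apply mul_le_mul
        · exact mul_le_mul_of_nonneg_left h5 (by positivity)
        · exact h2
        · exact Finset.sum_nonneg fun _ _ => by positivity
        · positivity
    _ = 8 * (1 + 2 ^ k) * k.factorial * η ^ 2 * ((A : ℝ) ^ k) ^ 2 := by ring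

/-- the mean square of the sum over the residue class -/
theorem first (h1 : tsK1) {η D : ℝ} (hη : 0 < η) (hη4 : η ≤ 1 / 4) (r q σ M : ℕ)
    (hB : ∀ m ∈ Finset.Icc 1 M, ‖(dr r m : ℂ)‖ ≤ D) :
    ∫ t : ℝ, om η t * ‖∑ m ∈ (Finset.Icc 1 M).filter (fun m => m % q = σ % q),
      (dr r m : ℂ) * ee (-(t * Real.log m))‖ ^ 2 ≤ 8 * η * (1 + η * M) * (M * D ^ 2) := by
  have e1 : ∀ t : ℝ, om η t * ‖∑ m ∈ (Finset.Icc 1 M).filter (fun m => m % q = σ % q),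
      (dr r m : ℂ) * ee (-(t * Real.log m))‖ ^ 2 =
      om η t * ‖∑ n ∈ Finset.Icc 1 M, (if n % q = σ % q then (dr r n : ℂ) else 0) *
        ee (-(t * Real.log n))‖ ^ 2 := by
    intro t
    rw [Finset.sum_filter]
    congr 3
    refine Finset.sum_congr rfl fun m _ => ?_
    split_ifs <;> simp
  simp only [e1]
  refine (h1 M (fun n => if n % q = σ % q then (dr r n : ℂ) else 0) η hη hη4).trans ?_
  have h0 : 0 ≤ 8 * η * (1 + η * M) := by positivity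
  refine mul_le_mul_of_nonneg_left ?_ h0
  calc ∑ n ∈ Finset.Icc 1 M, ‖(if n % q = σ % q then (dr r n : ℂ) else 0)‖ ^ 2
      ≤ ∑ n ∈ Finset.Icc 1 M, D ^ 2 := by
        refine Finset.sum_le_sum fun n hn => ?_
        split_ifs
        · exact pow_le_pow_left₀ (norm_nonneg _) (hB n hn) 2
        · rw [norm_zero, zero_pow two_ne_zero]
          positivity
    _ = M * D ^ 2 := by
        rw [Finset.sum_const, Nat.card_Icc, nsmul_eq_mul, Nat.add_sub_cancel]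

/-- the pointwise bound -/
theorem pointwise {η T₀ a E FR AP U t : ℝ} {k : ℕ} {CA CB : ℂ} (hη : 0 < η) (ha : 0 < a)
    (hCE : ‖CA * CB‖ ≤ E) (hCA : ‖CA‖ ≤ AP) (hU : 0 < U)
    (hFR : T₀ < |t| → |t| ≤ a → ‖CB‖ ≤ FR) :
    om η t * ‖CA * CB‖ ^ 2 ≤
      (Set.Icc (-T₀) T₀).indicator (fun _ => 4 * Real.pi ^ 2 * η ^ 4 * T₀ ^ 2 * E ^ 2) t +
        U ^ 2 * (om η t * ‖CB‖ ^ 2) +
        AP ^ 2 * FR ^ 2 * ((U ^ k) ^ 2)⁻¹ * (om η t * ‖CA ^ k‖ ^ 2) +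
        8 * E ^ 2 * (a ^ 2 + t ^ 2)⁻¹ := by
  have hw0 := IP4.w_nonneg η t
  have ho0 := om_nonneg η t
  have hpi := Real.pi_pos
  have hE2 : ‖CA * CB‖ ^ 2 ≤ E ^ 2 := pow_le_pow_left₀ (norm_nonneg _) hCE 2
  have p1 : 0 ≤ (Set.Icc (-T₀) T₀).indicator
      (fun _ => 4 * Real.pi ^ 2 * η ^ 4 * T₀ ^ 2 * E ^ 2) t :=
    Set.indicator_nonneg (fun _ _ => by positivity) _
  have p2 : 0 ≤ U ^ 2 * (om η t * ‖CB‖ ^ 2) := by positivity
  have p3 : 0 ≤ AP ^ 2 * FR ^ 2 * ((U ^ k) ^ 2)⁻¹ * (om η t * ‖CA ^ k‖ ^ 2) := by positivity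
  have p4 : 0 ≤ 8 * E ^ 2 * (a ^ 2 + t ^ 2)⁻¹ := by positivity
  rcases le_or_gt |t| T₀ with h1 | h1
  · have h2 : t ∈ Set.Icc (-T₀) T₀ := by
      rw [Set.mem_Icc]
      exact abs_le.1 h1
    rw [Set.indicator_of_mem h2] at p1 ⊢
    have h3 : Real.sin (Real.pi * η * t) ^ 2 ≤ (Real.pi * η * T₀) ^ 2 := by
      refine Real.sin_sq_le_sq.trans ?_
      rw [mul_pow (Real.pi * η) t, mul_pow (Real.pi * η) T₀]
      refine mul_le_mul_of_nonneg_left ?_ (by positivity)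
      exact sq_le_sq' (by linarith [h2.1]) h2.2
    have h4 : om η t * ‖CA * CB‖ ^ 2 ≤ η ^ 2 * (4 * (Real.pi * η * T₀) ^ 2) * E ^ 2 := by
      rw [om_eq]
      have h5 := IP4.w_le_sq hη t
      gcongr
    have h6 : η ^ 2 * (4 * (Real.pi * η * T₀) ^ 2) * E ^ 2 =
        4 * Real.pi ^ 2 * η ^ 4 * T₀ ^ 2 * E ^ 2 := by ring
    linarith
  · rcases le_or_gt |t| a with h2 | h2
    · have h3 := hFR h1 h2
      rcases le_or_gt ‖CA‖ U with h4 | h4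
      · have h5 : om η t * ‖CA * CB‖ ^ 2 ≤ U ^ 2 * (om η t * ‖CB‖ ^ 2) := by
          rw [norm_mul, mul_pow]
          have h6 : ‖CA‖ ^ 2 ≤ U ^ 2 := pow_le_pow_left₀ (norm_nonneg _) h4 2
          calc om η t * (‖CA‖ ^ 2 * ‖CB‖ ^ 2) ≤ om η t * (U ^ 2 * ‖CB‖ ^ 2) := by gcongr
            _ = U ^ 2 * (om η t * ‖CB‖ ^ 2) := by ring
        linarith
      · have h5 : om η t * ‖CA * CB‖ ^ 2 ≤
            AP ^ 2 * FR ^ 2 * ((U ^ k) ^ 2)⁻¹ * (om η t * ‖CA ^ k‖ ^ 2) := by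
          rw [norm_mul, mul_pow, norm_pow]
          have h6 : ‖CA‖ ^ 2 ≤ AP ^ 2 := pow_le_pow_left₀ (norm_nonneg _) hCA 2
          have h7 : ‖CB‖ ^ 2 ≤ FR ^ 2 := pow_le_pow_left₀ (norm_nonneg _) h3 2
          have h8 : (U ^ k) ^ 2 ≤ (‖CA‖ ^ k) ^ 2 := by gcongr
          have h9 : 1 ≤ ((U ^ k) ^ 2)⁻¹ * (‖CA‖ ^ k) ^ 2 := by
            rw [inv_mul_eq_div, one_le_div (by positivity)]
            exact h8
          calc om η t * (‖CA‖ ^ 2 * ‖CB‖ ^ 2) ≤ om η t * (AP ^ 2 * FR ^ 2) := by gcongr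
            _ ≤ om η t * (AP ^ 2 * FR ^ 2) * (((U ^ k) ^ 2)⁻¹ * (‖CA‖ ^ k) ^ 2) :=
                le_mul_of_one_le_right (by positivity) h9
            _ = AP ^ 2 * FR ^ 2 * ((U ^ k) ^ 2)⁻¹ * (om η t * (‖CA‖ ^ k) ^ 2) := by ring
        linarith
    · have ht : t ≠ 0 := by
        rintro rfl
        rw [abs_zero] at h2
        linarith
      have h3 : a ^ 2 ≤ t ^ 2 := by
        rw [← sq_abs t]
        exact pow_le_pow_left₀ ha.le h2.le 2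
      have h4 : 1 / t ^ 2 ≤ 2 * (a ^ 2 + t ^ 2)⁻¹ := by
        have h5 : 0 < t ^ 2 := by positivity
        rw [← div_eq_mul_inv, div_le_div_iff₀ h5 (by positivity)]
        linarith
      have h5 : Real.sin (Real.pi * η * t) ^ 2 ≤ 1 := Real.sin_sq_le_one _
      have h6 := IP4.w_le_inv η ht
      have h7 : IP4.w η t ≤ 2 * (a ^ 2 + t ^ 2)⁻¹ := h6.trans h4
      have h8 : om η t * ‖CA * CB‖ ^ 2 ≤
          (2 * (a ^ 2 + t ^ 2)⁻¹) * (4 * 1) * E ^ 2 := by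
        rw [om_eq]
        gcongr
      have h9 : (2 * (a ^ 2 + t ^ 2)⁻¹) * (4 * 1) * E ^ 2 = 8 * E ^ 2 * (a ^ 2 + t ^ 2)⁻¹ := by
        ring
      linarith

/-- exponents -/
theorem rp {X a b c : ℝ} (hX : 1 ≤ X) (h : a + b ≤ c) : X ^ a * X ^ b ≤ X ^ c := by
  have hXp : 0 < X := by linarith
  rw [← Real.rpow_add hXp]
  exact Real.rpow_le_rpow_of_exponent_le hX h

end IK3

open IK3 in
/-- item K3 -/
theorem prK3 (h0 : tsL0) (h3 : tsP3) (h1 : tsK1) (h2 : tsK2) : tsK3 := by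
  intro r ε₂ δ₅ hr hε hε1 hδ hδ1
  obtain ⟨δ', X1, hδ', hK2⟩ := h2 r (δ₅ / 4) hr (by linarith) (by linarith)
  set k : ℕ := ⌈1 / ε₂⌉₊ with hk
  have hkε : 1 ≤ (k : ℝ) * ε₂ := by
    have c1 : 1 / ε₂ ≤ (k : ℝ) := Nat.le_ceil _
    rw [div_le_iff₀ hε] at c1
    exact c1
  have hk0 : 0 < k := by
    rw [hk, Nat.ceil_pos]
    positivity
  have hk1 : (1 : ℝ) ≤ k := by exact_mod_cast hk0
  set α : ℝ := δ' / (2 * k) with hα
  have hα0 : 0 < α := by positivity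
  have hkα : 2 * k * α = δ' := by
    rw [hα]
    field_simp
  have hαδ : 2 * α ≤ δ' := by nlinarith
  set δw : ℝ := min (δ₅ / 2) α with hδw
  have hδw0 : 0 < δw := lt_min (by linarith) hα0
  have hδw5 : δw ≤ δ₅ / 2 := min_le_left _ _
  have hδwα : δw ≤ α := min_le_right _ _
  obtain ⟨C, hC, hL0⟩ := h0 r (δw / 8) (by linarith)
  set K : ℝ := 6096 * C ^ 2 + 288 * (1 + 2 ^ k) * k.factorial with hK
  have ev : ∀ᶠ X : ℝ in atTop, X1 ≤ X ∧ K ≤ X ^ (δw / 2) ∧ 6 ≤ X ^ ε₂ ∧ 4 ≤ X ^ δ₅ ∧ 1 ≤ X :=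
    (eventually_ge_atTop X1).and (((tendsto_rpow_atTop (by linarith)).eventually_ge_atTop K).and
      (((tendsto_rpow_atTop hε).eventually_ge_atTop 6).and
        (((tendsto_rpow_atTop hδ).eventually_ge_atTop 4).and (eventually_ge_atTop 1))))
  obtain ⟨X0, hX0⟩ := eventually_atTop.1 ev
  refine ⟨δw, X0, hδw0, ?_⟩
  intro X η A A' q ρ σ M hX hA hAA hA2 hq hqX hM hM2 hAη hηX
  obtain ⟨g1, g2, g3, g4, hX1⟩ := hX0 X hX
  have hXp : 0 < X := by linarith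
  have hA6 : (6 : ℝ) ≤ A := g3.trans hA
  have hA0 : (0 : ℝ) < A := by linarith
  have hη : 0 < η := (mul_pos_iff_of_pos_right hXp).1 (hA0.trans_le hAη)
  have hη4 : η ≤ 1 / 4 := by
    refine hηX.trans ?_
    rw [Real.rpow_neg hXp.le, inv_le_comm₀ (Real.rpow_pos_of_pos hXp _) (by norm_num)]
    norm_num
    exact g4
  have hAM : (A : ℝ) * M ≤ 6 * X := by
    rw [le_div_iff₀ hA0] at hM2
    linarith
  have hMX : (M : ℝ) ≤ X := by
    have c1 : (0 : ℝ) ≤ M := Nat.cast_nonneg _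
    nlinarith
  have hηX1 : 1 ≤ η * X := by linarith
  have hηX2 : 1 ≤ η ^ 2 * X ^ 2 := by
    rw [← mul_pow]
    exact one_le_pow₀ hηX1
  have hqX' : (q : ℝ) ≤ X ^ δ' :=
    hqX.trans (Real.rpow_le_rpow_of_exponent_le hX1 (by linarith))
  set R : Finset ℕ := (Finset.Ioc A A').filter (fun a => a.Prime ∧ a % q = ρ % q) with hR
  set S : Finset ℕ := (Finset.Icc 1 M).filter (fun m => m % q = σ % q) with hS
  have hR1 : ∀ a ∈ R, 1 ≤ a ∧ a ≤ A' := by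
    intro a ha
    rw [hR, Finset.mem_filter, Finset.mem_Ioc] at ha
    omega
  have hRP : ∀ a ∈ R, a.Prime := by
    intro a ha
    rw [hR, Finset.mem_filter] at ha
    exact ha.2.1
  have hS1 : ∀ m ∈ S, 1 ≤ m := by
    intro m hm
    rw [hS, Finset.mem_filter, Finset.mem_Icc] at hm
    exact hm.1.1
  have hRc : R.card ≤ A := by
    calc R.card ≤ (Finset.Ioc A A').card := Finset.card_filter_le _ _
      _ = A' - A := Nat.card_Ioc _ _
      _ ≤ A := by omega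
  set D : ℝ := C * X ^ (δw / 8) with hD
  have hD0 : 0 ≤ D := by positivity
  have hB : ∀ m ∈ Finset.Icc 1 M, ‖(dr r m : ℂ)‖ ≤ D := by
    intro m hm
    obtain ⟨m1, m2⟩ := Finset.mem_Icc.1 hm
    have c1 : 0 ≤ dr r m := by
      unfold dr
      positivity
    rw [Complex.norm_real, Real.norm_eq_abs, abs_of_nonneg c1]
    refine (hL0 m m1).trans ?_
    have c2 : (m : ℝ) ≤ X := by
      have : (m : ℝ) ≤ M := by exact_mod_cast m2
      linarith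
    rw [hD]
    gcongr
  -- Plancherel
  obtain ⟨hint, heq⟩ := h3 (ℕ × ℕ) (R ×ˢ S)
    (fun p => Real.log ((p.1 : ℝ) * p.2)) (fun p => (dr r p.2 : ℂ)) η hη
  have heq' : ∫ u : ℝ, ‖∑ p ∈ R ×ˢ S,
      (dr r p.2 : ℂ) * ((psi η (u - Real.log ((p.1 : ℝ) * p.2)) : ℝ) : ℂ)‖ ^ 2 =
      ∫ t : ℝ, om η t *
        ‖∑ p ∈ R ×ˢ S, (dr r p.2 : ℂ) * ee (-(t * Real.log ((p.1 : ℝ) * p.2)))‖ ^ 2 := heq
  have hint' : Integrable (fun t : ℝ => om η t *
        ‖∑ p ∈ R ×ˢ S, (dr r p.2 : ℂ) * ee (-(t * Real.log ((p.1 : ℝ) * p.2)))‖ ^ 2) := hint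
  rw [heq']
  simp only [factor R S (fun m => (dr r m : ℂ)) (fun a ha => (hR1 a ha).1) hS1] at hint' ⊢
  set CA : ℝ → ℂ := fun t => ∑ a ∈ R, ee (-(t * Real.log a)) with hCA
  set CB : ℝ → ℂ := fun t => ∑ m ∈ S, (dr r m : ℂ) * ee (-(t * Real.log m)) with hCB
  have bA : ∀ t, ‖CA t‖ ≤ A := by
    intro t
    calc ‖CA t‖ ≤ ∑ a ∈ R, ‖ee (-(t * Real.log a))‖ := norm_sum_le _ _
      _ = R.card := by simp [IP4.nrm_ee]
      _ ≤ A := by exact_mod_cast hRc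
  have bB : ∀ t, ‖CB t‖ ≤ M * D := by
    intro t
    calc ‖CB t‖ ≤ ∑ m ∈ S, ‖(dr r m : ℂ) * ee (-(t * Real.log m))‖ := norm_sum_le _ _
      _ ≤ ∑ m ∈ S, D := by
          refine Finset.sum_le_sum fun m hm => ?_
          rw [norm_mul, IP4.nrm_ee, mul_one]
          exact hB m (Finset.mem_filter.1 hm).1
      _ = S.card * D := by rw [Finset.sum_const, nsmul_eq_mul]
      _ ≤ M * D := by
          have c1 : S.card ≤ M := by
            calc S.card ≤ (Finset.Icc 1 M).card := Finset.card_filter_le _ _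
              _ = M := by rw [Nat.card_Icc, Nat.add_sub_cancel]
          have c2 : (S.card : ℝ) ≤ M := by exact_mod_cast c1
          gcongr
  have bC : ∀ t, ‖CA t * CB t‖ ≤ 6 * X * D := by
    intro t
    rw [norm_mul]
    calc ‖CA t‖ * ‖CB t‖ ≤ A * (M * D) :=
          mul_le_mul (bA t) (bB t) (norm_nonneg _) hA0.le
      _ = (A * M) * D := by ring
      _ ≤ 6 * X * D := by gcongr
  set T₀ : ℝ := X ^ (δ₅ / 4) with hT₀
  have hT0 : 0 < T₀ := Real.rpow_pos_of_pos hXp _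
  set a : ℝ := X ^ (5 : ℕ) with ha
  have ha0 : 0 < a := by positivity
  set U : ℝ := A * X ^ (-α) with hU
  have hU0 : 0 < U := mul_pos hA0 (Real.rpow_pos_of_pos hXp _)
  set FR : ℝ := M * X ^ (-δ') with hFR
  have hM12 : X ^ (1 / 2 : ℝ) ≤ M :=
    (Real.rpow_le_rpow_of_exponent_le hX1 (by norm_num)).trans hM
  have bFR : ∀ t, T₀ < |t| → |t| ≤ a → ‖CB t‖ ≤ FR := fun t ht1 ht2 =>
    hK2 X t M q σ g1 hM12 hMX hq hqX' ht1.le ht2
  -- the three mean values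
  have m1 : Integrable (fun t : ℝ => om η t * ‖CB t‖ ^ 2) :=
    (h3 ℕ S (fun m => Real.log m) (fun m => (dr r m : ℂ)) η hη).1
  have m2 : Integrable (fun t : ℝ => om η t * ‖CA t ^ k‖ ^ 2) := by
    have c1 : (fun t : ℝ => om η t * ‖CA t ^ k‖ ^ 2) = fun t : ℝ => om η t *
        ‖∑ n ∈ Finset.Icc 1 (A' ^ k), (IK3.cnt k R n : ℂ) * ee (-(t * Real.log n))‖ ^ 2 := by
      funext t
      rw [hCA]
      simp only
      rw [pow_eq k A' R hR1 t]
    rw [c1]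
    exact (h3 ℕ (Finset.Icc 1 (A' ^ k)) (fun m => Real.log m) (fun n => (IK3.cnt k R n : ℂ)) η hη).1
  have v1 : ∫ t : ℝ, om η t * ‖CB t‖ ^ 2 ≤ 8 * η * (1 + η * M) * (M * D ^ 2) :=
    first h1 hη hη4 r q σ M hB
  have hAk : X ≤ (A : ℝ) ^ k := by
    calc X = X ^ (1 : ℝ) := (Real.rpow_one X).symm
      _ ≤ X ^ ((k : ℝ) * ε₂) := Real.rpow_le_rpow_of_exponent_le hX1 hkε
      _ = (X ^ ε₂) ^ k := by
          rw [mul_comm, Real.rpow_mul hXp.le, Real.rpow_natCast]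
      _ ≤ (A : ℝ) ^ k := by gcongr
  have v2 : ∫ t : ℝ, om η t * ‖CA t ^ k‖ ^ 2 ≤
      8 * (1 + 2 ^ k) * k.factorial * η ^ 2 * ((A : ℝ) ^ k) ^ 2 := by
    refine second h1 hη hη4 k A' A R hR1 hRP hRc hA2 ?_
    exact hηX1.trans (mul_le_mul_of_nonneg_left hAk hη.le)
  obtain ⟨hti, htv⟩ := IP4.tail ha0
  have hind : Integrable ((Set.Icc (-T₀) T₀).indicator
      (fun _ : ℝ => 4 * Real.pi ^ 2 * η ^ 4 * T₀ ^ 2 * (6 * X * D) ^ 2)) := by
    rw [integrable_indicator_iff measurableSet_Icc]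
    exact integrableOn_const measure_Icc_lt_top.ne enorm_ne_top
  have hb : ∫ t : ℝ, om η t * ‖CA t * CB t‖ ^ 2 ≤
      ∫ t : ℝ, ((Set.Icc (-T₀) T₀).indicator
        (fun _ : ℝ => 4 * Real.pi ^ 2 * η ^ 4 * T₀ ^ 2 * (6 * X * D) ^ 2) t +
        U ^ 2 * (om η t * ‖CB t‖ ^ 2) +
        (A : ℝ) ^ 2 * FR ^ 2 * ((U ^ k) ^ 2)⁻¹ * (om η t * ‖CA t ^ k‖ ^ 2) +
        8 * (6 * X * D) ^ 2 * (a ^ 2 + t ^ 2)⁻¹) := by
    refine integral_mono hint' (((hind.add (m1.const_mul _)).add (m2.const_mul _)).add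
      (hti.const_mul _)) fun t => ?_
    exact pointwise hη ha0 (bC t) (bA t) hU0 (bFR t)
  refine hb.trans ?_
  have e1 := integral_add ((hind.add (m1.const_mul (U ^ 2))).add
    (m2.const_mul ((A : ℝ) ^ 2 * FR ^ 2 * ((U ^ k) ^ 2)⁻¹))) (hti.const_mul (8 * (6 * X * D) ^ 2))
  have e2 := integral_add (hind.add (m1.const_mul (U ^ 2)))
    (m2.const_mul ((A : ℝ) ^ 2 * FR ^ 2 * ((U ^ k) ^ 2)⁻¹))
  have e3 := integral_add hind (m1.const_mul (U ^ 2))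
  simp only [Pi.add_apply] at e1 e2
  rw [e2, e3, integral_const_mul, integral_const_mul, integral_const_mul, htv,
    integral_indicator_const _ measurableSet_Icc] at e1
  refine e1.le.trans ?_
  have hvol : (volume : Measure ℝ).real (Set.Icc (-T₀) T₀) = 2 * T₀ := by
    rw [Real.volume_real_Icc_of_le (by linarith)]
    ring
  rw [hvol, smul_eq_mul]
  -- numbers
  set Y : ℝ := X ^ (-δw) with hY
  set Z : ℝ := X ^ (-(δw / 2)) with hZ
  have hY0 : 0 < Y := Real.rpow_pos_of_pos hXp _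
  have hZ0 : 0 < Z := Real.rpow_pos_of_pos hXp _
  have hYZ : Y * Z = X ^ (-(3 * δw / 2)) := by
    rw [hY, hZ, ← Real.rpow_add hXp]
    congr 1
    ring
  have hKZ : K * Z ≤ 1 := by
    have c1 : X ^ (δw / 2) * Z = 1 := by
      rw [hZ, ← Real.rpow_add hXp, show δw / 2 + -(δw / 2) = 0 by ring, Real.rpow_zero]
    rw [← c1]
    exact mul_le_mul_of_nonneg_right g2 hZ0.le
  have hD2 : D ^ 2 = C ^ 2 * X ^ (δw / 4) := by
    rw [hD, mul_pow, ← Real.rpow_natCast (X ^ (δw / 8)), ← Real.rpow_mul hXp.le]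
    congr 2
    push_cast
    ring
  have hDs : ∀ s : ℝ, s ≤ -(2 * δw) → D ^ 2 * X ^ s ≤ C ^ 2 * (Y * Z) := by
    intro s hs
    rw [hD2, mul_assoc, hYZ]
    exact mul_le_mul_of_nonneg_left (rp hX1 (by linarith)) (by positivity)
  have hpi4 : Real.pi ≤ 4 := Real.pi_le_four
  have hpi0 := Real.pi_pos
  have t1 : 2 * T₀ * (4 * Real.pi ^ 2 * η ^ 4 * T₀ ^ 2 * (6 * X * D) ^ 2) ≤
      4608 * (η ^ 2 * X ^ 2) * (C ^ 2 * (Y * Z)) := by
    have c1 : T₀ ^ 3 = X ^ (3 * δ₅ / 4) := by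
      rw [hT₀, ← Real.rpow_natCast, ← Real.rpow_mul hXp.le]
      congr 1
      push_cast
      ring
    have c2 : η ^ 2 * T₀ ^ 3 ≤ X ^ (-δ₅) := by
      have c3 : η ^ 2 ≤ X ^ (-(2 * δ₅)) := by
        calc η ^ 2 ≤ (X ^ (-δ₅)) ^ 2 := by gcongr
          _ = X ^ (-(2 * δ₅)) := by
              rw [← Real.rpow_natCast, ← Real.rpow_mul hXp.le]
              congr 1
              push_cast
              ring
      rw [c1]
      calc η ^ 2 * X ^ (3 * δ₅ / 4) ≤ X ^ (-(2 * δ₅)) * X ^ (3 * δ₅ / 4) := by gcongr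
        _ ≤ X ^ (-δ₅) := rp hX1 (by linarith)
    have c3 : D ^ 2 * (η ^ 2 * T₀ ^ 3) ≤ C ^ 2 * (Y * Z) := by
      refine (mul_le_mul_of_nonneg_left c2 (sq_nonneg D)).trans (hDs _ (by linarith))
    calc 2 * T₀ * (4 * Real.pi ^ 2 * η ^ 4 * T₀ ^ 2 * (6 * X * D) ^ 2) =
          288 * Real.pi ^ 2 * (η ^ 2 * X ^ 2) * (D ^ 2 * (η ^ 2 * T₀ ^ 3)) := by ring
      _ ≤ 288 * 4 ^ 2 * (η ^ 2 * X ^ 2) * (C ^ 2 * (Y * Z)) := by gcongr
      _ = 4608 * (η ^ 2 * X ^ 2) * (C ^ 2 * (Y * Z)) := by ring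
  have hX2α : (X ^ (-α)) ^ 2 = X ^ (-(2 * α)) := by
    rw [← Real.rpow_natCast, ← Real.rpow_mul hXp.le]
    congr 1
    push_cast
    ring
  have t2 : U ^ 2 * ∫ t : ℝ, om η t * ‖CB t‖ ^ 2 ≤ 336 * (η ^ 2 * X ^ 2) * (C ^ 2 * (Y * Z)) := by
    have c1 : η * A * (A * M) + η ^ 2 * (A * M) ^ 2 ≤ 42 * (η ^ 2 * X ^ 2) := by
      have d0 : (0 : ℝ) ≤ A * M := by positivity
      have d1 : η * A * (A * M) ≤ η * (η * X) * (6 * X) := by gcongr
      have d2 : η ^ 2 * (A * M) ^ 2 ≤ η ^ 2 * (6 * X) ^ 2 := by gcongr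
      have d3 : η * (η * X) * (6 * X) = 6 * (η ^ 2 * X ^ 2) := by ring
      have d4 : η ^ 2 * (6 * X) ^ 2 = 36 * (η ^ 2 * X ^ 2) := by ring
      linarith
    calc U ^ 2 * ∫ t : ℝ, om η t * ‖CB t‖ ^ 2 ≤ U ^ 2 * (8 * η * (1 + η * M) * (M * D ^ 2)) :=
          mul_le_mul_of_nonneg_left v1 (sq_nonneg U)
      _ = 8 * (D ^ 2 * (X ^ (-α)) ^ 2) * (η * A * (A * M) + η ^ 2 * (A * M) ^ 2) := by
          rw [hU]
          ring
      _ ≤ 8 * (C ^ 2 * (Y * Z)) * (42 * (η ^ 2 * X ^ 2)) := by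
          rw [hX2α]
          have d1 := hDs (-(2 * α)) (by linarith)
          gcongr
      _ = 336 * (η ^ 2 * X ^ 2) * (C ^ 2 * (Y * Z)) := by ring
  have t3 : (A : ℝ) ^ 2 * FR ^ 2 * ((U ^ k) ^ 2)⁻¹ * ∫ t : ℝ, om η t * ‖CA t ^ k‖ ^ 2 ≤
      288 * (1 + 2 ^ k) * k.factorial * (η ^ 2 * X ^ 2) * (Y * Z) := by
    have c1 : (U ^ k) ^ 2 = ((A : ℝ) ^ k) ^ 2 * X ^ (-δ') := by
      rw [hU, mul_pow, mul_pow, ← Real.rpow_natCast (X ^ (-α)), ← Real.rpow_mul hXp.le,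
        ← Real.rpow_natCast (X ^ (-α * (k : ℝ))), ← Real.rpow_mul hXp.le]
      congr 2
      push_cast
      linarith
    have c2 : (X ^ (-δ')) ^ 2 = X ^ (-δ') * X ^ (-δ') := sq _
    have c3 : 0 < X ^ (-δ') := Real.rpow_pos_of_pos hXp _
    have c4 : 0 < (A : ℝ) ^ k := by positivity
    have c5 : X ^ (-δ') ≤ Y * Z := by
      rw [hYZ]
      exact Real.rpow_le_rpow_of_exponent_le hX1 (by linarith)
    have c6 : ((A : ℝ) * M) ^ 2 ≤ 36 * X ^ 2 := by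
      calc ((A : ℝ) * M) ^ 2 ≤ (6 * X) ^ 2 := by gcongr
        _ = 36 * X ^ 2 := by ring
    calc (A : ℝ) ^ 2 * FR ^ 2 * ((U ^ k) ^ 2)⁻¹ * ∫ t : ℝ, om η t * ‖CA t ^ k‖ ^ 2
        ≤ (A : ℝ) ^ 2 * FR ^ 2 * ((U ^ k) ^ 2)⁻¹ *
          (8 * (1 + 2 ^ k) * k.factorial * η ^ 2 * ((A : ℝ) ^ k) ^ 2) :=
          mul_le_mul_of_nonneg_left v2 (by positivity)
      _ = 8 * (1 + 2 ^ k) * k.factorial * η ^ 2 * ((A : ℝ) * M) ^ 2 * X ^ (-δ') := by
          rw [c1, hFR, mul_pow (M : ℝ), c2]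
          field_simp
      _ ≤ 8 * (1 + 2 ^ k) * k.factorial * η ^ 2 * (36 * X ^ 2) * (Y * Z) := by gcongr
      _ = 288 * (1 + 2 ^ k) * k.factorial * (η ^ 2 * X ^ 2) * (Y * Z) := by ring
  have t4 : 8 * (6 * X * D) ^ 2 * (Real.pi / a) ≤ 1152 * (η ^ 2 * X ^ 2) * (C ^ 2 * (Y * Z)) := by
    have c1 : 8 * (6 * X * D) ^ 2 * (Real.pi / a) = 288 * Real.pi * (D ^ 2 * (1 / X ^ 3)) := by
      rw [ha]
      field_simp
      ring
    have c2 : 1 / X ^ 3 = X ^ (-(3 : ℝ)) := by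
      rw [Real.rpow_neg hXp.le, one_div]
      norm_cast
    have c3 := hDs (-(3 : ℝ)) (by linarith)
    have c4 : 0 ≤ C ^ 2 * (Y * Z) := by positivity
    calc 8 * (6 * X * D) ^ 2 * (Real.pi / a) = 288 * Real.pi * (D ^ 2 * (1 / X ^ 3)) := c1
      _ ≤ 288 * 4 * (C ^ 2 * (Y * Z)) := by
          rw [c2]
          gcongr
      _ = 1152 * (C ^ 2 * (Y * Z)) := by ring
      _ ≤ 1152 * (C ^ 2 * (Y * Z)) * (η ^ 2 * X ^ 2) :=
          le_mul_of_one_le_right (by positivity) hηX2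
      _ = 1152 * (η ^ 2 * X ^ 2) * (C ^ 2 * (Y * Z)) := by ring
  have hfin : η ^ 2 * X ^ (2 - δw) = η ^ 2 * X ^ 2 * Y := by
    rw [show (2 : ℝ) - δw = 2 + -δw by ring, Real.rpow_add hXp, ← mul_assoc,
      show X ^ (2 : ℝ) = X ^ (2 : ℕ) by norm_cast]
  rw [hfin]
  have hs : 4608 * (η ^ 2 * X ^ 2) * (C ^ 2 * (Y * Z)) + 336 * (η ^ 2 * X ^ 2) * (C ^ 2 * (Y * Z)) +
      288 * (1 + 2 ^ k) * k.factorial * (η ^ 2 * X ^ 2) * (Y * Z) +
      1152 * (η ^ 2 * X ^ 2) * (C ^ 2 * (Y * Z)) = η ^ 2 * X ^ 2 * Y * (K * Z) := by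
    rw [hK]
    ring
  have hs2 : η ^ 2 * X ^ 2 * Y * (K * Z) ≤ η ^ 2 * X ^ 2 * Y :=
    mul_le_of_le_one_right (by positivity) hKZ
  linarith

end Pool.Agent.Work.MP_122e00_nt.TS
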