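import Mathlib
import Pool.Agent.Work.MP_122e00_nt.TS.Stmts11
import Pool.Agent.Work.MP_122e00_nt.TS.I_K3

set_option autoImplicit false

/-!
# Item X4: primes times the divisor function in multiplicative windows, at the scale `H`
-/

namespace Pool.Agent.Work.MP_122e00_nt.TS

open Finset Filter Topology ArithmeticFunction MeasureTheory
open scoped ArithmeticFunction.zeta ArithmeticFunction.Moebius

namespace IX4

theorem dr_nonneg (r n : ℕ) : 0 ≤ dr r n := by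
  unfold dr
  positivity

/-- the mean square of the sum over the residue class -/
theorem first (h1 : tsK1) {η D : ℝ} (hη : 0 < η) (hη4 : η ≤ 1 / 4) (r q σ M : ℕ)
    (hB : ∑ m ∈ Finset.Icc 1 M, dr r m ^ 2 ≤ D) :
    ∫ t : ℝ, om η t * ‖∑ m ∈ (Finset.Icc 1 M).filter (fun m => m % q = σ % q),
      (dr r m : ℂ) * ee (-(t * Real.log m))‖ ^ 2 ≤ 8 * η * (1 + η * M) * D := by
  have e1 : ∀ t : ℝ, om η t * ‖∑ m ∈ (Finset.Icc 1 M).filter (fun m => m % q = σ % q),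
      (dr r m : ℂ) * ee (-(t * Real.log m))‖ ^ 2 =
      om η t * ‖∑ n ∈ Finset.Icc 1 M, (if n % q = σ % q then (dr r n : ℂ) else 0) *
        ee (-(t * Real.log n))‖ ^ 2 := by
    intro t
    rw [Finset.sum_filter]
    congr 3
    refine Finset.sum_congr rfl fun m _ => ?_
    split_ifs <;> simp
  simp only [e1]
  refine (h1 M (fun n => if n % q = σ % q then (dr r n : ℂ) else 0) η hη hη4).trans ?_
  have h0 : 0 ≤ 8 * η * (1 + η * M) := by positivity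
  refine mul_le_mul_of_nonneg_left (le_trans ?_ hB) h0
  refine Finset.sum_le_sum fun n hn => ?_
  split_ifs
  · rw [Complex.norm_real, Real.norm_eq_abs, sq_abs]
  · rw [norm_zero, zero_pow two_ne_zero]
    positivity

/-- powers of the logarithm -/
theorem logpow (s : ℕ) (K δ A₀ : ℝ) (hA : (s : ℝ) + 1 ≤ A₀ * δ) (hδ : 0 < δ) (hK : 0 ≤ K) :
    ∀ᶠ X : ℝ in atTop, ∀ H : ℝ, Real.log X ^ A₀ ≤ H → K * (1 + Real.log X) ^ s ≤ H ^ δ := by
  have h1 := Real.tendsto_log_atTop.eventually_ge_atTop (max 1 (K * 2 ^ s))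
  filter_upwards [h1] with X hX H hH
  have hL1 : 1 ≤ Real.log X := (le_max_left _ _).trans hX
  have hL2 : K * 2 ^ s ≤ Real.log X := (le_max_right _ _).trans hX
  have hL0 : 0 < Real.log X := by linarith
  calc K * (1 + Real.log X) ^ s ≤ K * (2 * Real.log X) ^ s := by
        gcongr
        linarith
    _ = K * 2 ^ s * Real.log X ^ s := by rw [mul_pow]; ring
    _ ≤ Real.log X * Real.log X ^ s := by gcongr
    _ = Real.log X ^ ((s : ℝ) + 1) := by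
        rw [Real.rpow_add hL0, Real.rpow_natCast, Real.rpow_one]
        ring
    _ ≤ Real.log X ^ (A₀ * δ) := Real.rpow_le_rpow_of_exponent_le hL1 hA
    _ = (Real.log X ^ A₀) ^ δ := Real.rpow_mul hL0.le _ _
    _ ≤ H ^ δ := Real.rpow_le_rpow (Real.rpow_nonneg hL0.le _) hH hδ.le

/-- the exponent `k` -/
theorem kk {X H A ε₂ δ' A₀ : ℝ} (hL : 6 ≤ Real.log X) (hLL : 1 ≤ Real.log (Real.log X))
    (hH : Real.log X ^ A₀ ≤ H) (hε : 0 < ε₂) (hδ' : 0 < δ') (hA₀ : 8 ≤ A₀ * ε₂)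
    (hA₀' : 8 ≤ A₀ * ε₂ * δ') (hA : H ^ ε₂ ≤ A) (hAX : A ≤ X) (hA6 : 6 ≤ A) :
    ∃ k : ℕ, 0 < k ∧ X ≤ A ^ k ∧ (2 : ℝ) ^ k * (k.factorial : ℝ) ≤ X ^ (δ' / 4) ∧
      X ^ (-(δ' / k)) ≤ H ^ (-(ε₂ * δ' / 2)) := by
  have hL0 : 0 < Real.log X := by linarith
  have hXp : 0 < X := by linarith
  have hAp : 0 < A := by linarith
  have hH0 : 0 < H := (Real.rpow_pos_of_pos hL0 _).trans_le hH
  have hlA : 0 < Real.log A := Real.log_pos (by linarith)
  have hlAX : Real.log A ≤ Real.log X := Real.log_le_log hAp hAX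
  have hlH : A₀ * Real.log (Real.log X) ≤ Real.log H := by
    rw [← Real.log_rpow hL0]
    exact Real.log_le_log (Real.rpow_pos_of_pos hL0 _) hH
  have hlHA : ε₂ * Real.log H ≤ Real.log A := by
    rw [← Real.log_rpow hH0]
    exact Real.log_le_log (Real.rpow_pos_of_pos hH0 _) hA
  set k : ℕ := ⌈Real.log X / Real.log A⌉₊ with hk
  have k1 : Real.log X / Real.log A ≤ k := Nat.le_ceil _
  have k2 : (k : ℝ) < Real.log X / Real.log A + 1 := Nat.ceil_lt_add_one (by positivity)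
  have k3 : 0 < k := by
    rw [hk, Nat.ceil_pos]
    positivity
  have k4 : Real.log X ≤ k * Real.log A := by
    rwa [div_le_iff₀ hlA] at k1
  have k5 : (k : ℝ) * Real.log A ≤ 2 * Real.log X := by
    have c1 : (k : ℝ) * Real.log A ≤ (Real.log X / Real.log A + 1) * Real.log A :=
      mul_le_mul_of_nonneg_right k2.le hlA.le
    have c2 : (Real.log X / Real.log A + 1) * Real.log A = Real.log X + Real.log A := by
      field_simp
    linarith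
  have k3' : (0 : ℝ) < k := by exact_mod_cast k3
  have k6 : (k : ℝ) * (A₀ * ε₂ * Real.log (Real.log X)) ≤ 2 * Real.log X := by
    refine le_trans ?_ k5
    refine mul_le_mul_of_nonneg_left (le_trans ?_ hlHA) k3'.le
    have c1 := mul_le_mul_of_nonneg_left hlH hε.le
    linarith
  have k7 : (k : ℝ) * Real.log (Real.log X) ≤ δ' / 4 * Real.log X := by
    have c1 : 0 ≤ (k : ℝ) * Real.log (Real.log X) := by positivity
    have c2 := mul_le_mul_of_nonneg_left hA₀' c1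
    have c3 := mul_le_mul_of_nonneg_left k6 hδ'.le
    linarith
  have k8 : 2 * (k : ℝ) ≤ Real.log X := by
    have c1 := mul_le_mul_of_nonneg_left hA₀ k3'.le
    have c2 : (k : ℝ) * (A₀ * ε₂) ≤ (k : ℝ) * (A₀ * ε₂) * Real.log (Real.log X) :=
      le_mul_of_one_le_right (by positivity) hLL
    linarith
  refine ⟨k, k3, ?_, ?_, ?_⟩
  · calc X = Real.exp (Real.log X) := (Real.exp_log hXp).symm
      _ ≤ Real.exp (k * Real.log A) := Real.exp_le_exp.2 k4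
      _ = A ^ k := by rw [Real.exp_nat_mul, Real.exp_log hAp]
  · have c1 : (k.factorial : ℝ) ≤ (k : ℝ) ^ k := by exact_mod_cast Nat.factorial_le_pow k
    calc (2 : ℝ) ^ k * (k.factorial : ℝ) ≤ 2 ^ k * (k : ℝ) ^ k := by gcongr
      _ = (2 * (k : ℝ)) ^ k := (mul_pow _ _ _).symm
      _ ≤ Real.log X ^ k := by gcongr
      _ = Real.exp (k * Real.log (Real.log X)) := by rw [Real.exp_nat_mul, Real.exp_log hL0]
      _ ≤ Real.exp (δ' / 4 * Real.log X) := Real.exp_le_exp.2 k7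
      _ = X ^ (δ' / 4) := by rw [Real.rpow_def_of_pos hXp, mul_comm]
  · rw [Real.rpow_def_of_pos hXp, Real.rpow_def_of_pos hH0, Real.exp_le_exp]
    have c1 : ε₂ * Real.log H * k ≤ 2 * Real.log X := by
      refine le_trans ?_ k5
      rw [mul_comm]
      exact mul_le_mul_of_nonneg_left hlHA k3'.le
    have c2 : ε₂ * δ' / 2 * Real.log H ≤ δ' / k * Real.log X := by
      rw [div_mul_eq_mul_div δ', le_div_iff₀ k3']
      have c3 := mul_le_mul_of_nonneg_left c1 hδ'.le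
      linarith
    linarith

end IX4

open IK3 IX4 in
/-- item X4 -/
theorem prX4 (h3 : tsP3) (h1 : tsK1) (h2 : tsK2) (hX2 : tsX2) : tsX4 := by
  intro r ε₂ δ₅ hr hε hε1 hδ hδ1
  obtain ⟨δ', X1, hδ', hK2⟩ := h2 r (δ₅ / 4) hr (by linarith) (by linarith)
  obtain ⟨hx1, hx2, _⟩ := hX2
  set δw : ℝ := min (min δ' δ₅) (ε₂ * δ') / 8 with hδw
  have hδw0 : 0 < δw := by
    rw [hδw]
    have : 0 < min (min δ' δ₅) (ε₂ * δ') := lt_min (lt_min hδ' hδ) (by positivity)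
    positivity
  have hw1 : 8 * δw ≤ δ' := by
    have := (min_le_left (min δ' δ₅) (ε₂ * δ')).trans (min_le_left _ _)
    rw [hδw]
    linarith
  have hw2 : 8 * δw ≤ δ₅ := by
    have := (min_le_left (min δ' δ₅) (ε₂ * δ')).trans (min_le_right _ _)
    rw [hδw]
    linarith
  have hw3 : 8 * δw ≤ ε₂ * δ' := by
    have := min_le_right (min δ' δ₅) (ε₂ * δ')
    rw [hδw]
    linarith
  obtain ⟨A₀, hA₀1, hA₀2, hA₀3⟩ : ∃ A₀ : ℝ, ((2 * r ^ 2 : ℕ) : ℝ) + 1 ≤ A₀ * δw ∧ 8 ≤ A₀ * ε₂ ∧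
      8 ≤ A₀ * ε₂ * δ' := by
    refine ⟨(((2 * r ^ 2 : ℕ) : ℝ) + 1) / δw + 8 / ε₂ + 8 / (ε₂ * δ'), ?_, ?_, ?_⟩
    · have c1 : (((2 * r ^ 2 : ℕ) : ℝ) + 1) / δw * δw = ((2 * r ^ 2 : ℕ) : ℝ) + 1 := by
        field_simp
      have c2 : 0 ≤ 8 / ε₂ * δw := by positivity
      have c3 : 0 ≤ 8 / (ε₂ * δ') * δw := by positivity
      linarith
    · have c1 : 8 / ε₂ * ε₂ = 8 := by field_simp
      have c2 : 0 ≤ (((2 * r ^ 2 : ℕ) : ℝ) + 1) / δw * ε₂ := by positivity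
      have c3 : 0 ≤ 8 / (ε₂ * δ') * ε₂ := by positivity
      linarith
    · have c1 : 8 / (ε₂ * δ') * (ε₂ * δ') = 8 := by field_simp
      have c2 : 0 ≤ (((2 * r ^ 2 : ℕ) : ℝ) + 1) / δw * (ε₂ * δ') := by positivity
      have c3 : 0 ≤ 8 / ε₂ * (ε₂ * δ') := by positivity
      linarith
  set K : ℝ := 6672 with hK
  have ev : ∀ᶠ X : ℝ in atTop, X1 ≤ X ∧
      (∀ H : ℝ, Real.log X ^ A₀ ≤ H → K * (1 + Real.log X) ^ (2 * r ^ 2) ≤ H ^ δw) ∧
      6 ≤ Real.log X ∧ 1 ≤ Real.log (Real.log X) ∧ 4 ≤ X ^ δ₅ ∧ 1 ≤ X :=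
    (eventually_ge_atTop X1).and
      ((logpow (2 * r ^ 2) K δw A₀ hA₀1 hδw0 (by norm_num [hK])).and
      ((Real.tendsto_log_atTop.eventually_ge_atTop 6).and
        (((Real.tendsto_log_atTop.comp Real.tendsto_log_atTop).eventually_ge_atTop 1).and
        (((tendsto_rpow_atTop hδ).eventually_ge_atTop 4).and (eventually_ge_atTop 1)))))
  obtain ⟨X0, hX0⟩ := eventually_atTop.1 ev
  refine ⟨δw, A₀, X0, hδw0, ?_⟩
  intro X H η A A' q ρ σ M hX hH hHX hA hAA hA2 hq hqX hM hM2 hAη hηX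
  obtain ⟨g1, g2, g3, g3', g4, hX1⟩ := hX0 X hX
  have g2' := g2 H hH
  have hXp : 0 < X := by linarith
  set L : ℝ := Real.log X with hL
  have hL0 : 0 < L := by linarith
  have hL1 : 1 ≤ L := by linarith
  have hH1 : 1 ≤ H := by
    refine le_trans ?_ hH
    exact Real.one_le_rpow hL1 (by nlinarith)
  have hHp : 0 < H := by linarith
  have hA6 : (6 : ℝ) ≤ A := by
    calc (6 : ℝ) ≤ L := g3
      _ = L ^ (1 : ℝ) := (Real.rpow_one L).symm
      _ ≤ L ^ (A₀ * ε₂) := Real.rpow_le_rpow_of_exponent_le hL1 (by linarith)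
      _ = (L ^ A₀) ^ ε₂ := Real.rpow_mul hL0.le _ _
      _ ≤ H ^ ε₂ := Real.rpow_le_rpow (Real.rpow_nonneg hL0.le _) hH hε.le
      _ ≤ A := hA
  have hA0 : (0 : ℝ) < A := by linarith
  have hη : 0 < η := (mul_pos_iff_of_pos_right hXp).1 (hA0.trans_le hAη)
  have hη4 : η ≤ 1 / 4 := by
    refine hηX.trans ?_
    rw [Real.rpow_neg hXp.le, inv_le_comm₀ (Real.rpow_pos_of_pos hXp _) (by norm_num)]
    norm_num
    exact g4
  have hAX : (A : ℝ) ≤ X := by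
    refine hAη.trans ?_
    nlinarith
  have hAM : (A : ℝ) * M ≤ 6 * X := by
    rw [le_div_iff₀ hA0] at hM2
    linarith
  have hMX : (M : ℝ) ≤ X := by
    have c1 : (0 : ℝ) ≤ M := Nat.cast_nonneg _
    nlinarith
  have hM0 : (0 : ℝ) < M := (Real.rpow_pos_of_pos hXp _).trans_le hM
  have hM1 : 1 ≤ M := by
    have : 0 < M := by exact_mod_cast hM0
    omega
  have hηX1 : 1 ≤ η * X := by linarith
  have hηX2 : 1 ≤ η ^ 2 * X ^ 2 := by
    rw [← mul_pow]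
    exact one_le_pow₀ hηX1
  have hqX' : (q : ℝ) ≤ X ^ δ' := by
    refine hqX.trans ?_
    calc H ^ δw ≤ X ^ δw := Real.rpow_le_rpow hHp.le hHX hδw0.le
      _ ≤ X ^ δ' := Real.rpow_le_rpow_of_exponent_le hX1 (by linarith)
  obtain ⟨k, hk0, hAk, hkf, hkl⟩ := kk g3 g3' hH hε hδ' hA₀2 hA₀3 hA hAX hA6
  have hk0' : (0 : ℝ) < k := by exact_mod_cast hk0
  set R : Finset ℕ := (Finset.Ioc A A').filter (fun a => a.Prime ∧ a % q = ρ % q) with hR
  set S : Finset ℕ := (Finset.Icc 1 M).filter (fun m => m % q = σ % q) with hS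
  have hR1 : ∀ a ∈ R, 1 ≤ a ∧ a ≤ A' := by
    intro a ha
    rw [hR, Finset.mem_filter, Finset.mem_Ioc] at ha
    omega
  have hRP : ∀ a ∈ R, a.Prime := by
    intro a ha
    rw [hR, Finset.mem_filter] at ha
    exact ha.2.1
  have hS1 : ∀ m ∈ S, 1 ≤ m := by
    intro m hm
    rw [hS, Finset.mem_filter, Finset.mem_Icc] at hm
    exact hm.1.1
  have hRc : R.card ≤ A := by
    calc R.card ≤ (Finset.Ioc A A').card := Finset.card_filter_le _ _
      _ = A' - A := Nat.card_Ioc _ _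
      _ ≤ A := by omega
  have hlM : Real.log M ≤ L := Real.log_le_log hM0 hMX
  have hlM0 : 0 ≤ Real.log M := Real.log_natCast_nonneg M
  -- divisor sums
  set D : ℝ := (1 + L) ^ (r - 1) with hD
  set W : ℝ := (1 + L) ^ (2 * r ^ 2) with hW
  have h1L : (1 : ℝ) ≤ 1 + L := by linarith
  have hD0 : 0 ≤ D := by positivity
  have hW1 : 1 ≤ W := one_le_pow₀ h1L
  have hDW : D ^ 2 ≤ W := by
    rw [hD, hW, ← pow_mul]
    refine pow_le_pow_right₀ h1L ?_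
    have : r ≤ r ^ 2 := by nlinarith
    omega
  have hsum1 : ∑ m ∈ Finset.Icc 1 M, dr r m ≤ M * D := by
    refine (hx2 r M hr hM1).trans ?_
    rw [hD]
    gcongr
  have hsum2 : ∑ m ∈ Finset.Icc 1 M, dr r m ^ 2 ≤ M * W := by
    calc ∑ m ∈ Finset.Icc 1 M, dr r m ^ 2 ≤ ∑ m ∈ Finset.Icc 1 M, dr (r * r) m := by
          refine Finset.sum_le_sum fun m _ => ?_
          rw [sq]
          exact hx1 r r m hr hr
      _ ≤ M * (1 + Real.log M) ^ (r * r - 1) := hx2 (r * r) M (Nat.mul_pos hr hr) hM1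
      _ ≤ M * (1 + L) ^ (r * r - 1) := by gcongr
      _ ≤ M * (1 + L) ^ (2 * r ^ 2) := by
          refine mul_le_mul_of_nonneg_left (pow_le_pow_right₀ h1L ?_) hM0.le
          rw [sq]
          omega
  -- Plancherel
  obtain ⟨hint, heq⟩ := h3 (ℕ × ℕ) (R ×ˢ S)
    (fun p => Real.log ((p.1 : ℝ) * p.2)) (fun p => (dr r p.2 : ℂ)) η hη
  have heq' : ∫ u : ℝ, ‖∑ p ∈ R ×ˢ S,
      (dr r p.2 : ℂ) * ((psi η (u - Real.log ((p.1 : ℝ) * p.2)) : ℝ) : ℂ)‖ ^ 2 =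
      ∫ t : ℝ, om η t *
        ‖∑ p ∈ R ×ˢ S, (dr r p.2 : ℂ) * ee (-(t * Real.log ((p.1 : ℝ) * p.2)))‖ ^ 2 := heq
  have hint' : Integrable (fun t : ℝ => om η t *
        ‖∑ p ∈ R ×ˢ S, (dr r p.2 : ℂ) * ee (-(t * Real.log ((p.1 : ℝ) * p.2)))‖ ^ 2) := hint
  rw [heq']
  simp only [factor R S (fun m => (dr r m : ℂ)) (fun a ha => (hR1 a ha).1) hS1] at hint' ⊢
  set CA : ℝ → ℂ := fun t => ∑ a ∈ R, ee (-(t * Real.log a)) with hCA
  set CB : ℝ → ℂ := fun t => ∑ m ∈ S, (dr r m : ℂ) * ee (-(t * Real.log m)) with hCB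
  have bA : ∀ t, ‖CA t‖ ≤ A := by
    intro t
    calc ‖CA t‖ ≤ ∑ a ∈ R, ‖ee (-(t * Real.log a))‖ := norm_sum_le _ _
      _ = R.card := by simp [IP4.nrm_ee]
      _ ≤ A := by exact_mod_cast hRc
  have bB : ∀ t, ‖CB t‖ ≤ M * D := by
    intro t
    calc ‖CB t‖ ≤ ∑ m ∈ S, ‖(dr r m : ℂ) * ee (-(t * Real.log m))‖ := norm_sum_le _ _
      _ = ∑ m ∈ S, dr r m := by
          refine Finset.sum_congr rfl fun m _ => ?_
          rw [norm_mul, IP4.nrm_ee, mul_one, Complex.norm_real, Real.norm_eq_abs,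
            abs_of_nonneg (dr_nonneg r m)]
      _ ≤ ∑ m ∈ Finset.Icc 1 M, dr r m :=
          Finset.sum_le_sum_of_subset_of_nonneg (Finset.filter_subset _ _)
            fun m _ _ => dr_nonneg r m
      _ ≤ M * D := hsum1
  have bC : ∀ t, ‖CA t * CB t‖ ≤ 6 * X * D := by
    intro t
    rw [norm_mul]
    calc ‖CA t‖ * ‖CB t‖ ≤ A * (M * D) :=
          mul_le_mul (bA t) (bB t) (norm_nonneg _) hA0.le
      _ = (A * M) * D := by ring
      _ ≤ 6 * X * D := by gcongr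
  set T₀ : ℝ := X ^ (δ₅ / 4) with hT₀
  have hT0 : 0 < T₀ := Real.rpow_pos_of_pos hXp _
  set a : ℝ := X ^ (5 : ℕ) with ha
  have ha0 : 0 < a := by positivity
  set α : ℝ := δ' / (2 * k) with hα
  have hα0 : 0 < α := by positivity
  have hkα : 2 * k * α = δ' := by
    rw [hα]
    field_simp
  have hα2 : 2 * α = δ' / k := by
    rw [hα]
    field_simp
  set U : ℝ := A * X ^ (-α) with hU
  have hU0 : 0 < U := mul_pos hA0 (Real.rpow_pos_of_pos hXp _)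
  set FR : ℝ := M * X ^ (-δ') with hFR
  have hM12 : X ^ (1 / 2 : ℝ) ≤ M :=
    (Real.rpow_le_rpow_of_exponent_le hX1 (by norm_num)).trans hM
  have bFR : ∀ t, T₀ < |t| → |t| ≤ a → ‖CB t‖ ≤ FR := fun t ht1 ht2 =>
    hK2 X t M q σ g1 hM12 hMX hq hqX' ht1.le ht2
  -- the three mean values
  have m1 : Integrable (fun t : ℝ => om η t * ‖CB t‖ ^ 2) :=
    (h3 ℕ S (fun m => Real.log m) (fun m => (dr r m : ℂ)) η hη).1
  have m2 : Integrable (fun t : ℝ => om η t * ‖CA t ^ k‖ ^ 2) := by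
    have c1 : (fun t : ℝ => om η t * ‖CA t ^ k‖ ^ 2) = fun t : ℝ => om η t *
        ‖∑ n ∈ Finset.Icc 1 (A' ^ k), (IK3.cnt k R n : ℂ) * ee (-(t * Real.log n))‖ ^ 2 := by
      funext t
      rw [hCA]
      simp only
      rw [pow_eq k A' R hR1 t]
    rw [c1]
    exact (h3 ℕ (Finset.Icc 1 (A' ^ k)) (fun m => Real.log m) (fun n => (IK3.cnt k R n : ℂ)) η hη).1
  have v1 : ∫ t : ℝ, om η t * ‖CB t‖ ^ 2 ≤ 8 * η * (1 + η * M) * (M * W) :=
    IX4.first h1 hη hη4 r q σ M hsum2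
  have v2 : ∫ t : ℝ, om η t * ‖CA t ^ k‖ ^ 2 ≤
      8 * (1 + 2 ^ k) * k.factorial * η ^ 2 * ((A : ℝ) ^ k) ^ 2 := by
    refine second h1 hη hη4 k A' A R hR1 hRP hRc hA2 ?_
    exact hηX1.trans (mul_le_mul_of_nonneg_left hAk hη.le)
  obtain ⟨hti, htv⟩ := IP4.tail ha0
  have hind : Integrable ((Set.Icc (-T₀) T₀).indicator
      (fun _ : ℝ => 4 * Real.pi ^ 2 * η ^ 4 * T₀ ^ 2 * (6 * X * D) ^ 2)) := by
    rw [integrable_indicator_iff measurableSet_Icc]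
    exact integrableOn_const measure_Icc_lt_top.ne enorm_ne_top
  have hb : ∫ t : ℝ, om η t * ‖CA t * CB t‖ ^ 2 ≤
      ∫ t : ℝ, ((Set.Icc (-T₀) T₀).indicator
        (fun _ : ℝ => 4 * Real.pi ^ 2 * η ^ 4 * T₀ ^ 2 * (6 * X * D) ^ 2) t +
        U ^ 2 * (om η t * ‖CB t‖ ^ 2) +
        (A : ℝ) ^ 2 * FR ^ 2 * ((U ^ k) ^ 2)⁻¹ * (om η t * ‖CA t ^ k‖ ^ 2) +
        8 * (6 * X * D) ^ 2 * (a ^ 2 + t ^ 2)⁻¹) := by
    refine integral_mono hint' (((hind.add (m1.const_mul _)).add (m2.const_mul _)).add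
      (hti.const_mul _)) fun t => ?_
    exact pointwise hη ha0 (bC t) (bA t) hU0 (bFR t)
  refine hb.trans ?_
  have e1 := integral_add ((hind.add (m1.const_mul (U ^ 2))).add
    (m2.const_mul ((A : ℝ) ^ 2 * FR ^ 2 * ((U ^ k) ^ 2)⁻¹))) (hti.const_mul (8 * (6 * X * D) ^ 2))
  have e2 := integral_add (hind.add (m1.const_mul (U ^ 2)))
    (m2.const_mul ((A : ℝ) ^ 2 * FR ^ 2 * ((U ^ k) ^ 2)⁻¹))
  have e3 := integral_add hind (m1.const_mul (U ^ 2))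
  simp only [Pi.add_apply] at e1 e2
  rw [e2, e3, integral_const_mul, integral_const_mul, integral_const_mul, htv,
    integral_indicator_const _ measurableSet_Icc] at e1
  refine e1.le.trans ?_
  have hvol : (volume : Measure ℝ).real (Set.Icc (-T₀) T₀) = 2 * T₀ := by
    rw [Real.volume_real_Icc_of_le (by linarith)]
    ring
  rw [hvol, smul_eq_mul]
  -- numbers
  set Y : ℝ := H ^ (-δw) with hY
  have hY0 : 0 < Y := Real.rpow_pos_of_pos hHp _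
  have hYY : H ^ (-(2 * δw)) = Y * Y := by
    rw [hY, ← Real.rpow_add hHp]
    congr 1
    ring
  have hKZ : K * W * Y ≤ 1 := by
    have c1 : H ^ δw * Y = 1 := by
      rw [hY, ← Real.rpow_add hHp, show δw + -δw = 0 by ring, Real.rpow_zero]
    rw [← c1]
    exact mul_le_mul_of_nonneg_right g2' hY0.le
  have hXs : ∀ s : ℝ, 2 * δw ≤ s → X ^ (-s) ≤ Y * Y := by
    intro s hs
    rw [← hYY]
    calc X ^ (-s) ≤ X ^ (-(2 * δw)) := Real.rpow_le_rpow_of_exponent_le hX1 (by linarith)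
      _ ≤ H ^ (-(2 * δw)) := Real.rpow_le_rpow_of_nonpos hHp hHX (by linarith)
  have hpi4 : Real.pi ≤ 4 := Real.pi_le_four
  have hpi0 := Real.pi_pos
  have t1 : 2 * T₀ * (4 * Real.pi ^ 2 * η ^ 4 * T₀ ^ 2 * (6 * X * D) ^ 2) ≤
      4608 * (η ^ 2 * X ^ 2) * (W * (Y * Y)) := by
    have c1 : T₀ ^ 3 = X ^ (3 * δ₅ / 4) := by
      rw [hT₀, ← Real.rpow_natCast, ← Real.rpow_mul hXp.le]
      congr 1
      push_cast
      ring
    have c2 : η ^ 2 * T₀ ^ 3 ≤ Y * Y := by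
      have c3 : η ^ 2 ≤ X ^ (-(2 * δ₅)) := by
        calc η ^ 2 ≤ (X ^ (-δ₅)) ^ 2 := by gcongr
          _ = X ^ (-(2 * δ₅)) := by
              rw [← Real.rpow_natCast, ← Real.rpow_mul hXp.le]
              congr 1
              push_cast
              ring
      rw [c1]
      calc η ^ 2 * X ^ (3 * δ₅ / 4) ≤ X ^ (-(2 * δ₅)) * X ^ (3 * δ₅ / 4) := by gcongr
        _ ≤ X ^ (-δ₅) := rp hX1 (by linarith)
        _ ≤ Y * Y := hXs δ₅ (by linarith)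
    calc 2 * T₀ * (4 * Real.pi ^ 2 * η ^ 4 * T₀ ^ 2 * (6 * X * D) ^ 2) =
          288 * Real.pi ^ 2 * (η ^ 2 * X ^ 2) * (D ^ 2 * (η ^ 2 * T₀ ^ 3)) := by ring
      _ ≤ 288 * 4 ^ 2 * (η ^ 2 * X ^ 2) * (W * (Y * Y)) := by gcongr
      _ = 4608 * (η ^ 2 * X ^ 2) * (W * (Y * Y)) := by ring
  have hX2α : (X ^ (-α)) ^ 2 ≤ Y * Y := by
    have c1 : (X ^ (-α)) ^ 2 = X ^ (-(δ' / k)) := by
      rw [← hα2, ← Real.rpow_natCast, ← Real.rpow_mul hXp.le]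
      congr 1
      push_cast
      ring
    rw [c1, ← hYY]
    refine hkl.trans ?_
    exact Real.rpow_le_rpow_of_exponent_le hH1 (by linarith)
  have t2 : U ^ 2 * ∫ t : ℝ, om η t * ‖CB t‖ ^ 2 ≤ 336 * (η ^ 2 * X ^ 2) * (W * (Y * Y)) := by
    have c1 : η * A * (A * M) + η ^ 2 * (A * M) ^ 2 ≤ 42 * (η ^ 2 * X ^ 2) := by
      have d0 : (0 : ℝ) ≤ A * M := by positivity
      have d1 : η * A * (A * M) ≤ η * (η * X) * (6 * X) := by gcongr
      have d2 : η ^ 2 * (A * M) ^ 2 ≤ η ^ 2 * (6 * X) ^ 2 := by gcongr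
      have d3 : η * (η * X) * (6 * X) = 6 * (η ^ 2 * X ^ 2) := by ring
      have d4 : η ^ 2 * (6 * X) ^ 2 = 36 * (η ^ 2 * X ^ 2) := by ring
      linarith
    calc U ^ 2 * ∫ t : ℝ, om η t * ‖CB t‖ ^ 2 ≤ U ^ 2 * (8 * η * (1 + η * M) * (M * W)) :=
          mul_le_mul_of_nonneg_left v1 (sq_nonneg U)
      _ = 8 * (W * (X ^ (-α)) ^ 2) * (η * A * (A * M) + η ^ 2 * (A * M) ^ 2) := by
          rw [hU]
          ring
      _ ≤ 8 * (W * (Y * Y)) * (42 * (η ^ 2 * X ^ 2)) := by gcongr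
      _ = 336 * (η ^ 2 * X ^ 2) * (W * (Y * Y)) := by ring
  have t3 : (A : ℝ) ^ 2 * FR ^ 2 * ((U ^ k) ^ 2)⁻¹ * ∫ t : ℝ, om η t * ‖CA t ^ k‖ ^ 2 ≤
      576 * (η ^ 2 * X ^ 2) * (W * (Y * Y)) := by
    have c1 : (U ^ k) ^ 2 = ((A : ℝ) ^ k) ^ 2 * X ^ (-δ') := by
      rw [hU, mul_pow, mul_pow, ← Real.rpow_natCast (X ^ (-α)), ← Real.rpow_mul hXp.le,
        ← Real.rpow_natCast (X ^ (-α * (k : ℝ))), ← Real.rpow_mul hXp.le]
      congr 2
      push_cast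
      linarith
    have c2 : (X ^ (-δ')) ^ 2 = X ^ (-δ') * X ^ (-δ') := sq _
    have c3 : 0 < X ^ (-δ') := Real.rpow_pos_of_pos hXp _
    have c4 : 0 < (A : ℝ) ^ k := by positivity
    have c6 : ((A : ℝ) * M) ^ 2 ≤ 36 * X ^ 2 := by
      calc ((A : ℝ) * M) ^ 2 ≤ (6 * X) ^ 2 := by gcongr
        _ = 36 * X ^ 2 := by ring
    have c7 : (1 + (2 : ℝ) ^ k) * k.factorial ≤ 2 * X ^ (δ' / 4) := by
      have d1 : (1 : ℝ) ≤ 2 ^ k := one_le_pow₀ (by norm_num)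
      have d2 : (0 : ℝ) ≤ k.factorial := Nat.cast_nonneg _
      calc (1 + (2 : ℝ) ^ k) * k.factorial ≤ (2 ^ k + 2 ^ k) * k.factorial := by gcongr
        _ = 2 * (2 ^ k * k.factorial) := by ring
        _ ≤ 2 * X ^ (δ' / 4) := by gcongr
    have c8 : X ^ (δ' / 4) * X ^ (-δ') ≤ Y * Y :=
      (rp hX1 (show δ' / 4 + -δ' ≤ -(3 * δ' / 4) by linarith)).trans (hXs _ (by linarith))
    calc (A : ℝ) ^ 2 * FR ^ 2 * ((U ^ k) ^ 2)⁻¹ * ∫ t : ℝ, om η t * ‖CA t ^ k‖ ^ 2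
        ≤ (A : ℝ) ^ 2 * FR ^ 2 * ((U ^ k) ^ 2)⁻¹ *
          (8 * (1 + 2 ^ k) * k.factorial * η ^ 2 * ((A : ℝ) ^ k) ^ 2) :=
          mul_le_mul_of_nonneg_left v2 (by positivity)
      _ = 8 * ((1 + 2 ^ k) * k.factorial) * η ^ 2 * ((A : ℝ) * M) ^ 2 * X ^ (-δ') := by
          rw [c1, hFR, mul_pow (M : ℝ), c2]
          field_simp
      _ ≤ 8 * (2 * X ^ (δ' / 4)) * η ^ 2 * (36 * X ^ 2) * X ^ (-δ') := by gcongr
      _ = 576 * (η ^ 2 * X ^ 2) * (X ^ (δ' / 4) * X ^ (-δ')) := by ring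
      _ ≤ 576 * (η ^ 2 * X ^ 2) * (1 * (Y * Y)) := by
          rw [one_mul]
          gcongr
      _ ≤ 576 * (η ^ 2 * X ^ 2) * (W * (Y * Y)) := by gcongr
  have t4 : 8 * (6 * X * D) ^ 2 * (Real.pi / a) ≤ 1152 * (η ^ 2 * X ^ 2) * (W * (Y * Y)) := by
    have c1 : 8 * (6 * X * D) ^ 2 * (Real.pi / a) = 288 * Real.pi * (D ^ 2 * (1 / X ^ 3)) := by
      rw [ha]
      field_simp
      ring
    have c2 : 1 / X ^ 3 = X ^ (-(3 : ℝ)) := by
      rw [Real.rpow_neg hXp.le, one_div]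
      norm_cast
    have c3 := hXs 3 (by linarith)
    have c4 : 0 ≤ W * (Y * Y) := by positivity
    calc 8 * (6 * X * D) ^ 2 * (Real.pi / a) = 288 * Real.pi * (D ^ 2 * (1 / X ^ 3)) := c1
      _ ≤ 288 * 4 * (W * (Y * Y)) := by
          rw [c2]
          gcongr
      _ = 1152 * (W * (Y * Y)) := by ring
      _ ≤ 1152 * (W * (Y * Y)) * (η ^ 2 * X ^ 2) :=
          le_mul_of_one_le_right (by positivity) hηX2
      _ = 1152 * (η ^ 2 * X ^ 2) * (W * (Y * Y)) := by ring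
  have hs : 4608 * (η ^ 2 * X ^ 2) * (W * (Y * Y)) + 336 * (η ^ 2 * X ^ 2) * (W * (Y * Y)) +
      576 * (η ^ 2 * X ^ 2) * (W * (Y * Y)) +
      1152 * (η ^ 2 * X ^ 2) * (W * (Y * Y)) = η ^ 2 * X ^ 2 * Y * (K * W * Y) := by
    rw [hK]
    ring
  have hs2 : η ^ 2 * X ^ 2 * Y * (K * W * Y) ≤ η ^ 2 * X ^ 2 * Y :=
    mul_le_of_le_one_right (by positivity) hKZ
  linarith

end Pool.Agent.Work.MP_122e00_nt.TS
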