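import Pool.Agent.Work.MP_122e00_nt.TS.Stmts11
import Pool.Agent.Work.MP_122e00_nt.TS.I_P5

/-!
# Thin shifts, item X5
-/

namespace Pool.Agent.Work.MP_122e00_nt.TS

open Finset Filter Topology ArithmeticFunction MeasureTheory

namespace IX5

theorem card_le (S : Finset ℕ) (t g : ℝ) (hg : 0 ≤ g) (hS : ∀ n ∈ S, |(n : ℝ) - t| ≤ g) :
    (S.card : ℝ) ≤ 2 * g + 1 := by
  rcases S.eq_empty_or_nonempty with h | h
  · rw [h, Finset.card_empty, Nat.cast_zero]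
    linarith
  · have h1 : S ⊆ Finset.Icc (S.min' h) (S.max' h) := fun n hn =>
      Finset.mem_Icc.2 ⟨S.min'_le n hn, S.le_max' n hn⟩
    have h2 := Finset.card_le_card h1
    rw [Nat.card_Icc] at h2
    have h3 : S.min' h ≤ S.max' h := S.min'_le_max' h
    have h4 : (S.card : ℝ) ≤ ((S.max' h + 1 - S.min' h : ℕ) : ℝ) := by exact_mod_cast h2
    rw [Nat.cast_sub (by omega)] at h4
    push_cast at h4
    have h5 := (abs_le.1 (hS _ (S.max'_mem h))).2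
    have h6 := (abs_le.1 (hS _ (S.min'_mem h))).1
    linarith

/-- the window around `t` -/
noncomputable def win (lo hi : ℕ) (t g : ℝ) : Finset ℕ :=
  (Finset.Ioc lo hi).filter (fun n => |(n : ℝ) - t| ≤ g)

theorem win_card (lo hi : ℕ) (t g : ℝ) (hg : 0 ≤ g) : ((win lo hi t g).card : ℝ) ≤ 2 * g + 1 :=
  card_le _ t g hg fun _ hn => (Finset.mem_filter.1 hn).2

theorem G_win (c : ℕ → ℂ) (lo hi : ℕ) (t g : ℝ) {i j : ℕ} (hi1 : lo ≤ i) (hi2 : i ≤ hi)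
    (hj1 : lo ≤ j) (hj2 : j ≤ hi) (ht1 : |(i : ℝ) - t| ≤ g) (ht2 : |(j : ℝ) - t| ≤ g) :
    ‖IP5.G c j - IP5.G c i‖ ≤ ∑ n ∈ win lo hi t g, ‖c n‖ := by
  have key : ∀ i j : ℕ, i ≤ j → lo ≤ i → j ≤ hi → |(i : ℝ) - t| ≤ g → |(j : ℝ) - t| ≤ g →
      ‖IP5.G c j - IP5.G c i‖ ≤ ∑ n ∈ win lo hi t g, ‖c n‖ := by
    intro i j hij h1 h2 h3 h4
    rw [← IP5.sum_Ioc c hij]
    refine (norm_sum_le _ _).trans (Finset.sum_le_sum_of_subset_of_nonneg ?_
      fun _ _ _ => norm_nonneg _)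
    intro n hn
    rw [Finset.mem_Ioc] at hn
    refine Finset.mem_filter.2 ⟨Finset.mem_Ioc.2 ⟨by omega, by omega⟩, ?_⟩
    have h5 : (i : ℝ) ≤ n := by exact_mod_cast hn.1.le
    have h6 : (n : ℝ) ≤ j := by exact_mod_cast hn.2
    rw [abs_le] at h3 h4 ⊢
    exact ⟨by linarith [h3.1], by linarith [h4.2]⟩
  rcases le_total i j with h | h
  · exact key i j h hi1 hj2 ht1 ht2
  · rw [norm_sub_rev]
    exact key j i h hj1 hi2 ht2 ht1

theorem win_sq (c : ℕ → ℂ) (lo hi : ℕ) (t g K : ℝ) (hg : 0 ≤ g) (hK : 2 * g + 1 ≤ K) :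
    (∑ n ∈ win lo hi t g, ‖c n‖) ^ 2 ≤ K * ∑ n ∈ win lo hi t g, ‖c n‖ ^ 2 := by
  refine (sq_sum_le_card_mul_sum_sq (s := win lo hi t g) (f := fun n => ‖c n‖)).trans ?_
  exact mul_le_mul_of_nonneg_right ((win_card lo hi t g hg).trans hK)
    (Finset.sum_nonneg fun _ _ => sq_nonneg _)

/-- double counting -/
theorem win_sum (f : ℕ → ℝ) (hf : ∀ n, 0 ≤ f n) (lo hi : ℕ) (A : Finset ℕ) (s g K : ℝ)
    (hg : 0 ≤ g) (hK : 2 * g + 1 ≤ K) :
    ∑ x ∈ A, ∑ n ∈ win lo hi ((x : ℝ) - s) g, f n ≤ K * ∑ n ∈ Finset.Ioc lo hi, f n := by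
  unfold win
  have h1 : ∀ x ∈ A, ∑ n ∈ (Finset.Ioc lo hi).filter
      (fun n : ℕ => |(n : ℝ) - ((x : ℝ) - s)| ≤ g), f n =
      ∑ n ∈ Finset.Ioc lo hi, if |(n : ℝ) - ((x : ℝ) - s)| ≤ g then f n else 0 := fun x _ =>
    Finset.sum_filter _ _
  rw [Finset.sum_congr rfl h1, Finset.sum_comm, Finset.mul_sum]
  refine Finset.sum_le_sum fun n _ => ?_
  rw [← Finset.sum_filter, Finset.sum_const, nsmul_eq_mul]
  refine mul_le_mul_of_nonneg_right (le_trans ?_ hK) (hf n)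
  refine card_le _ ((n : ℝ) + s) g hg fun x hx => ?_
  have h2 := (Finset.mem_filter.1 hx).2
  rw [abs_le] at h2 ⊢
  exact ⟨by linarith [h2.2], by linarith [h2.1]⟩

theorem point (c : ℕ → ℂ) (a b l N : ℕ) (hl : 1 ≤ l) (hla : 2 * l ≤ a)
    (hb2 : b ≤ 2 * a) (hbN : b ≤ N) (E : ℝ)
    (hEd : E = 1 + l * ((b : ℝ) - a) / a + (l : ℝ) ^ 2 / a) (x : ℕ) (hx : a + 2 * l ≤ x)
    (hxb : x ≤ b) (u : ℝ) (hu1 : Real.log x ≤ u) (hu2 : u < Real.log ((x : ℝ) + 1)) :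
    ‖∑ n ∈ Finset.Ioc (x - l) x, c n - ∑ n ∈ Finset.Ioc (x - 2 * l) (x - l), c n‖ ≤
      ‖∑ n ∈ Finset.Icc 1 N, c n * ((psi ((l : ℝ) / a) (u - Real.log n) : ℝ) : ℂ)‖ +
        (2 * (∑ n ∈ win (a - 2 * l) b ((x : ℝ) - l) (13 * E), ‖c n‖) +
          ∑ n ∈ win (a - 2 * l) b ((x : ℝ) - 2 * l) (13 * E), ‖c n‖) := by
  have hx0 : 0 < x := by omega
  have hxr : (0 : ℝ) < x := by exact_mod_cast hx0
  have ha0 : 0 < a := by omega
  have har : (0 : ℝ) < a := by exact_mod_cast ha0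
  have hlr : (1 : ℝ) ≤ l := by exact_mod_cast hl
  have hη : (0 : ℝ) < (l : ℝ) / a := by positivity
  have hy1 : (x : ℝ) ≤ Real.exp u := (Real.log_le_iff_le_exp hxr).1 hu1
  have hy2 : Real.exp u < (x : ℝ) + 1 := (Real.lt_log_iff_exp_lt (by linarith)).1 hu2
  have hfl : ⌊Real.exp u⌋₊ = x := (Nat.floor_eq_iff (Real.exp_pos u).le).2 ⟨hy1, hy2⟩
  rw [IP5.V_eq c N _ u hη (by rw [hfl]; omega), hfl, IP5.sum_Ioc c (Nat.sub_le x l),
    IP5.sum_Ioc c (by omega : x - 2 * l ≤ x - l)]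
  have hE := IP5.ends a b l x (Real.exp u) hlr (by exact_mod_cast hla) (by exact_mod_cast hb2)
    (by exact_mod_cast (by omega : a ≤ x)) (by exact_mod_cast hxb) hy1 hy2.le
  rw [← hEd] at hE
  have hE1 : 1 ≤ E := by
    have h1 : (0 : ℝ) ≤ (b : ℝ) - a := by
      have : (a : ℝ) ≤ b := by exact_mod_cast (by omega : a ≤ b)
      linarith
    have h2 : (0 : ℝ) ≤ l * ((b : ℝ) - a) / a := by positivity
    have h3 : (0 : ℝ) ≤ (l : ℝ) ^ 2 / a := by positivity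
    rw [hEd]
    linarith
  have c1 : ((x - l : ℕ) : ℝ) = x - l := Nat.cast_sub (by omega)
  have c2 : ((x - 2 * l : ℕ) : ℝ) = x - 2 * l := by
    rw [Nat.cast_sub (by omega : 2 * l ≤ x)]
    push_cast
    ring
  have x1 : Real.exp (u - (l : ℝ) / a) = Real.exp u * Real.exp (-((l : ℝ) / a)) := by
    rw [← Real.exp_add]
    ring_nf
  have x2 : Real.exp (u - 2 * ((l : ℝ) / a)) = Real.exp u * Real.exp (-(2 * ((l : ℝ) / a))) := by
    rw [← Real.exp_add]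
    ring_nf
  -- the positions of the two floors
  have hm : ∀ s : ℝ, 0 ≤ s → s ≤ 2 * ((l : ℝ) / a) →
      a - 2 * l ≤ ⌊Real.exp u * Real.exp (-s)⌋₊ ∧ ⌊Real.exp u * Real.exp (-s)⌋₊ ≤ b := by
    intro s hs0 hs
    constructor
    · rw [Nat.le_floor_iff (mul_pos (Real.exp_pos _) (Real.exp_pos _)).le,
        Nat.cast_sub hla]
      push_cast
      have h1 : 1 - s ≤ Real.exp (-s) := Real.one_sub_le_exp_neg s
      have h2 : 1 - 2 * ((l : ℝ) / a) ≤ Real.exp (-s) := by linarith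
      have hla' : 2 * (l : ℝ) ≤ a := by exact_mod_cast hla
      have h3 : 0 ≤ 1 - 2 * ((l : ℝ) / a) := by
        rw [sub_nonneg, ← mul_div_assoc, div_le_one har]
        exact hla'
      have hxa : (a : ℝ) + 2 * l ≤ x := by exact_mod_cast hx
      have h4 : ((a : ℝ) + 2 * l) * (1 - 2 * ((l : ℝ) / a)) ≤ Real.exp u * Real.exp (-s) :=
        mul_le_mul (by linarith) h2 h3 (Real.exp_pos u).le
      have h5 : ((a : ℝ) + 2 * l) * (1 - 2 * ((l : ℝ) / a)) = a - 2 * l * (2 * ((l : ℝ) / a)) := by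
        field_simp
        ring
      have h6 : 2 * (l : ℝ) * (2 * ((l : ℝ) / a)) ≤ 2 * l * 1 :=
        mul_le_mul_of_nonneg_left (by linarith) (by linarith)
      linarith
    · have h1 : Real.exp u * Real.exp (-s) ≤ Real.exp u := by
        have : Real.exp (-s) ≤ 1 := Real.exp_le_one_iff.2 (by linarith)
        exact mul_le_of_le_one_right (Real.exp_pos u).le this
      have h2 := Nat.floor_mono h1
      rw [hfl] at h2
      exact h2.trans hxb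
  have hfloor : ∀ t : ℝ, 0 ≤ t → |(⌊t⌋₊ : ℝ) - t| ≤ 1 := by
    intro t ht
    rw [abs_le]
    exact ⟨by linarith [Nat.lt_floor_add_one t], by linarith [Nat.floor_le ht]⟩
  have g1 : ‖IP5.G c (x - l) - IP5.G c ⌊Real.exp u * Real.exp (-((l : ℝ) / a))⌋₊‖ ≤
      ∑ n ∈ win (a - 2 * l) b ((x : ℝ) - l) (13 * E), ‖c n‖ := by
    have hm1 := hm ((l : ℝ) / a) hη.le (by linarith)
    refine G_win c (a - 2 * l) b _ _ hm1.1 hm1.2 (by omega) (by omega) ?_ ?_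
    · have h1 := hfloor (Real.exp u * Real.exp (-((l : ℝ) / a)))
        (mul_pos (Real.exp_pos _) (Real.exp_pos _)).le
      have h2 := hE.1
      rw [abs_le] at h1 h2 ⊢
      exact ⟨by linarith [h1.1, h2.2], by linarith [h1.2, h2.1]⟩
    · rw [c1, sub_self, abs_zero]
      linarith
  have g2 : ‖IP5.G c (x - 2 * l) - IP5.G c ⌊Real.exp u * Real.exp (-(2 * ((l : ℝ) / a)))⌋₊‖ ≤
      ∑ n ∈ win (a - 2 * l) b ((x : ℝ) - 2 * l) (13 * E), ‖c n‖ := by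
    have hm1 := hm (2 * ((l : ℝ) / a)) (by linarith) le_rfl
    refine G_win c (a - 2 * l) b _ _ hm1.1 hm1.2 (by omega) (by omega) ?_ ?_
    · have h1 := hfloor (Real.exp u * Real.exp (-(2 * ((l : ℝ) / a))))
        (mul_pos (Real.exp_pos _) (Real.exp_pos _)).le
      have h2 := hE.2
      rw [abs_le] at h1 h2 ⊢
      exact ⟨by linarith [h1.1, h2.2], by linarith [h1.2, h2.1]⟩
    · rw [c2, sub_self, abs_zero]
      linarith
  rw [x1, x2]
  obtain ⟨P, hP⟩ : ∃ P : ℂ, P = IP5.G c ⌊Real.exp u * Real.exp (-((l : ℝ) / a))⌋₊ := ⟨_, rfl⟩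
  obtain ⟨Q, hQ⟩ : ∃ Q : ℂ, Q = IP5.G c ⌊Real.exp u * Real.exp (-(2 * ((l : ℝ) / a)))⌋₊ :=
    ⟨_, rfl⟩
  rw [← hP, ← hQ]
  rw [← hP] at g1
  rw [← hQ] at g2
  have key : IP5.G c x - IP5.G c (x - l) - (IP5.G c (x - l) - IP5.G c (x - 2 * l)) =
      (IP5.G c x - 2 * P + Q) + (-2 * (IP5.G c (x - l) - P) + (IP5.G c (x - 2 * l) - Q)) := by
    ring
  rw [key]
  refine (norm_add_le _ _).trans (add_le_add le_rfl ((norm_add_le _ _).trans (add_le_add ?_ g2)))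
  rw [norm_mul, norm_neg, Complex.norm_ofNat]
  exact mul_le_mul_of_nonneg_left g1 (by norm_num)

end IX5

open IX5 in
theorem prX5 : tsX5 := by
  refine ⟨14580, by norm_num, ?_⟩
  intro c a b l N hl hla hab hb2 hbN
  have ha0 : 0 < a := by omega
  have har : (0 : ℝ) < a := by exact_mod_cast ha0
  have habr : (a : ℝ) ≤ b := by exact_mod_cast hab
  have hb1 : (1 : ℝ) ≤ b := by exact_mod_cast (by omega : 1 ≤ b)
  obtain ⟨f, hf⟩ : ∃ f : ℝ → ℝ, f = fun u : ℝ => ‖∑ n ∈ Finset.Icc 1 N,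
      c n * ((psi ((l : ℝ) / a) (u - Real.log n) : ℝ) : ℂ)‖ ^ 2 := ⟨_, rfl⟩
  have hfi : Integrable f := by
    rw [hf]
    exact IP5.V_int c _ N
  have hf0 : ∀ u, 0 ≤ f u := by
    intro u
    rw [hf]
    positivity
  have hfe : (∫ u : ℝ, ‖∑ n ∈ Finset.Icc 1 N,
      c n * ((psi ((l : ℝ) / a) (u - Real.log n) : ℝ) : ℂ)‖ ^ 2) = ∫ u, f u := by
    rw [hf]
  rw [hfe]
  obtain ⟨E, hE⟩ : ∃ E : ℝ, E = 1 + l * ((b : ℝ) - a) / a + (l : ℝ) ^ 2 / a := ⟨_, rfl⟩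
  have hE1 : 1 ≤ E := by
    have h1 : (0 : ℝ) ≤ (b : ℝ) - a := by linarith
    have h2 : (0 : ℝ) ≤ l * ((b : ℝ) - a) / a := by positivity
    have h3 : (0 : ℝ) ≤ (l : ℝ) ^ 2 / a := by positivity
    rw [hE]
    linarith
  have hg0 : (0 : ℝ) ≤ 13 * E := by linarith
  have hgK : 2 * (13 * E) + 1 ≤ 27 * E := by linarith
  have hI0 : 0 ≤ ∫ u, f u := integral_nonneg hf0
  obtain ⟨Q1, hQ1⟩ : ∃ Q1 : ℕ → ℝ, Q1 = fun x : ℕ =>
    ∑ n ∈ win (a - 2 * l) b ((x : ℝ) - l) (13 * E), ‖c n‖ ^ 2 := ⟨_, rfl⟩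
  obtain ⟨Q2, hQ2⟩ : ∃ Q2 : ℕ → ℝ, Q2 = fun x : ℕ =>
    ∑ n ∈ win (a - 2 * l) b ((x : ℝ) - 2 * l) (13 * E), ‖c n‖ ^ 2 := ⟨_, rfl⟩
  -- one `x`
  have hone : ∀ x ∈ Finset.Icc (a + 2 * l) b,
      ‖∑ n ∈ Finset.Ioc (x - l) x, c n - ∑ n ∈ Finset.Ioc (x - 2 * l) (x - l), c n‖ ^ 2 ≤
        4 * b * (∫ u in (Real.log (x : ℝ))..(Real.log ((x + 1 : ℕ) : ℝ)), f u) +
          (16 * (27 * E) * Q1 x + 4 * (27 * E) * Q2 x) := by
    intro x hx
    rw [Finset.mem_Icc] at hx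
    have hx0 : 0 < x := by omega
    have hxr : (0 : ℝ) < x := by exact_mod_cast hx0
    have h1 := IP5.one_int f hfi hf0 x hx0
      (‖∑ n ∈ Finset.Ioc (x - l) x, c n - ∑ n ∈ Finset.Ioc (x - 2 * l) (x - l), c n‖ ^ 2)
      (16 * (27 * E) * Q1 x + 4 * (27 * E) * Q2 x) (by
        intro u hu1 hu2
        have h2 := point c a b l N hl hla hb2 hbN E hE x hx.1 hx.2 u hu1 hu2
        have s1 := win_sq c (a - 2 * l) b ((x : ℝ) - l) (13 * E) (27 * E) hg0 hgK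
        have s2 := win_sq c (a - 2 * l) b ((x : ℝ) - 2 * l) (13 * E) (27 * E) hg0 hgK
        have h3 := pow_le_pow_left₀ (norm_nonneg _) h2 2
        rw [hf, hQ1, hQ2]
        dsimp only
        refine h3.trans ?_
        obtain ⟨A, hA⟩ : ∃ A : ℝ, A = ‖∑ n ∈ Finset.Icc 1 N, c n *
          ((psi ((l : ℝ) / a) (u - Real.log n) : ℝ) : ℂ)‖ := ⟨_, rfl⟩
        obtain ⟨B, hB⟩ : ∃ B : ℝ, B = ∑ n ∈ win (a - 2 * l) b ((x : ℝ) - l) (13 * E), ‖c n‖ :=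
          ⟨_, rfl⟩
        obtain ⟨D, hD⟩ : ∃ D : ℝ, D = ∑ n ∈ win (a - 2 * l) b ((x : ℝ) - 2 * l) (13 * E), ‖c n‖ :=
          ⟨_, rfl⟩
        rw [← hB] at s1
        rw [← hD] at s2
        rw [← hA, ← hB, ← hD]
        nlinarith [sq_nonneg (A - (2 * B + D)), sq_nonneg (2 * B - D)])
    have h4 : 0 ≤ ∫ u in (Real.log (x : ℝ))..(Real.log ((x : ℝ) + 1)), f u :=
      intervalIntegral.integral_nonneg (Real.log_le_log hxr (by linarith)) fun u _ => hf0 u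
    have h5 : 2 * ((x : ℝ) + 1) ≤ 4 * b := by
      have : (x : ℝ) ≤ b := by exact_mod_cast hx.2
      linarith
    have h6 : ((x + 1 : ℕ) : ℝ) = (x : ℝ) + 1 := by push_cast; ring
    rw [h6]
    refine h1.trans (add_le_add (mul_le_mul_of_nonneg_right h5 h4) le_rfl)
  refine (Finset.sum_le_sum hone).trans ?_
  rw [Finset.sum_add_distrib, ← Finset.mul_sum]
  refine add_le_add ?_ ?_
  · have h1 : ∑ x ∈ Finset.Icc (a + 2 * l) b,
        (∫ u in (Real.log (x : ℝ))..(Real.log ((x + 1 : ℕ) : ℝ)), f u) ≤ ∫ u, f u := by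
      by_cases hle : a + 2 * l ≤ b + 1
      · have h2 : Finset.Icc (a + 2 * l) b = Finset.Ico (a + 2 * l) (b + 1) := by
          ext n
          rw [Finset.mem_Icc, Finset.mem_Ico]
          omega
        rw [h2, intervalIntegral.sum_integral_adjacent_intervals_Ico
          (a := fun n : ℕ => Real.log (n : ℝ)) hle fun k _ => hfi.intervalIntegrable]
        have h3 : Real.log ((a + 2 * l : ℕ) : ℝ) ≤ Real.log ((b + 1 : ℕ) : ℝ) :=
          Real.log_le_log (by exact_mod_cast (by omega : 0 < a + 2 * l)) (by exact_mod_cast hle)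
        rw [intervalIntegral.integral_of_le h3]
        exact setIntegral_le_integral hfi (Filter.Eventually.of_forall hf0)
      · rw [Finset.Icc_eq_empty (by omega), Finset.sum_empty]
        exact hI0
    have h2 : 4 * (b : ℝ) * ∑ x ∈ Finset.Icc (a + 2 * l) b,
        (∫ u in (Real.log (x : ℝ))..(Real.log ((x + 1 : ℕ) : ℝ)), f u) ≤
        4 * b * ∫ u, f u := mul_le_mul_of_nonneg_left h1 (by linarith)
    have h3 : 0 ≤ (b : ℝ) * ∫ u, f u := mul_nonneg (by linarith) hI0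
    linarith
  · have t1 := win_sum (fun n => ‖c n‖ ^ 2) (fun n => sq_nonneg _) (a - 2 * l) b
      (Finset.Icc (a + 2 * l) b) (l : ℝ) (13 * E) (27 * E) hg0 hgK
    have t2 := win_sum (fun n => ‖c n‖ ^ 2) (fun n => sq_nonneg _) (a - 2 * l) b
      (Finset.Icc (a + 2 * l) b) (2 * (l : ℝ)) (13 * E) (27 * E) hg0 hgK
    have t1' : ∑ x ∈ Finset.Icc (a + 2 * l) b, Q1 x ≤
        27 * E * ∑ n ∈ Finset.Ioc (a - 2 * l) b, ‖c n‖ ^ 2 := by
      rw [hQ1]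
      exact t1
    have t2' : ∑ x ∈ Finset.Icc (a + 2 * l) b, Q2 x ≤
        27 * E * ∑ n ∈ Finset.Ioc (a - 2 * l) b, ‖c n‖ ^ 2 := by
      rw [hQ2]
      exact t2
    rw [Finset.sum_add_distrib, ← Finset.mul_sum, ← Finset.mul_sum, ← hE]
    have m1 := mul_le_mul_of_nonneg_left t1' (by linarith : (0 : ℝ) ≤ 16 * (27 * E))
    have m2 := mul_le_mul_of_nonneg_left t2' (by linarith : (0 : ℝ) ≤ 4 * (27 * E))
    nlinarith

end Pool.Agent.Work.MP_122e00_nt.TS
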