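import Pool.Agent.Work.MP_122e00_nt.TS.Stmts7
import Pool.Agent.Work.MP_122e00_nt.TS.I_P6

/-!
Item K4 of block TS: adjacent windows of `u`, rational frequency with small denominator.
-/

set_option autoImplicit false

namespace Pool.Agent.Work.MP_122e00_nt.TS

open Finset Filter Topology ArithmeticFunction MeasureTheory
open scoped ArithmeticFunction.zeta ArithmeticFunction.Moebius

namespace IK4

open IP6

/-- the coefficients -/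
noncomputable def cc (r a0 w0 I q : ℕ) (b' : ℤ) (M : ℕ → ℕ) (n : ℕ) : ℂ :=
  ∑ i ∈ Finset.range I, ∑ ρ ∈ Finset.range q, ∑ σ ∈ Finset.range q,
    ∑ p ∈ ((Finset.Ioc (Ai a0 w0 i) (Ai a0 w0 (i + 1))).filter
        (fun a => a.Prime ∧ a % q = ρ % q)) ×ˢ
      ((Finset.Icc 1 (M i)).filter (fun m => m % q = σ % q)),
      (if p.1 * p.2 = n then ee ((b' : ℝ) * ρ * σ / q) * (dr r p.2 : ℂ) else 0)

theorem cc_eq (r a0 w0 I q : ℕ) (b' : ℤ) (M : ℕ → ℕ) (n : ℕ) (hq : 1 ≤ q) :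
    cc r a0 w0 I q b' M n = ∑ i ∈ Finset.range I,
      ∑ a ∈ (Finset.Ioc (Ai a0 w0 i) (Ai a0 w0 (i + 1))).filter Nat.Prime,
        ∑ m ∈ Finset.Icc 1 (M i),
        (if a * m = n then ee ((b' : ℝ) * ((a % q : ℕ) : ℝ) * ((m % q : ℕ) : ℝ) / q) *
          (dr r m : ℂ) else 0) := by
  unfold cc
  apply Finset.sum_congr rfl
  intro i _
  rw [← sum_resid q hq ((Finset.Ioc (Ai a0 w0 i) (Ai a0 w0 (i + 1))).filter Nat.Prime)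
    (fun ρ a => ∑ m ∈ Finset.Icc 1 (M i),
        (if a * m = n then ee ((b' : ℝ) * (ρ : ℝ) * ((m % q : ℕ) : ℝ) / q) *
          (dr r m : ℂ) else 0))]
  apply Finset.sum_congr rfl
  intro ρ _
  rw [Finset.filter_filter]
  have h1 : ∀ a ∈ (Finset.Ioc (Ai a0 w0 i) (Ai a0 w0 (i + 1))).filter
        (fun a => a.Prime ∧ a % q = ρ % q),
      ∑ m ∈ Finset.Icc 1 (M i),
        (if a * m = n then ee ((b' : ℝ) * (ρ : ℝ) * ((m % q : ℕ) : ℝ) / q) *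
          (dr r m : ℂ) else 0) =
      ∑ σ ∈ Finset.range q, ∑ m ∈ (Finset.Icc 1 (M i)).filter (fun m => m % q = σ % q),
        (if a * m = n then ee ((b' : ℝ) * ρ * σ / q) * (dr r m : ℂ) else 0) := by
    intro a _
    exact (sum_resid q hq (Finset.Icc 1 (M i))
      (fun σ m => (if a * m = n then ee ((b' : ℝ) * ρ * σ / q) * (dr r m : ℂ) else 0))).symm
  rw [Finset.sum_congr rfl h1, Finset.sum_comm]
  apply Finset.sum_congr rfl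
  intro σ _
  rw [Finset.sum_product]

theorem cc_norm (r a0 w0 I q : ℕ) (b' : ℤ) (M : ℕ → ℕ) (n : ℕ) (hq : 1 ≤ q)
    (h0 : 1 ≤ a0) (hw : a0 ≤ w0) (hI : w0 ≤ 2 ^ I) (D : ℝ) (hD : 0 ≤ D)
    (hB : ∀ i < I, ∀ m ∈ Finset.Icc 1 (M i), |dr r m| ≤ D) (hn : 1 ≤ n) :
    ‖cc r a0 w0 I q b' M n‖ ≤ (n.divisors.card : ℝ) * D := by
  rw [cc_eq r a0 w0 I q b' M n hq]
  have h1 : ∀ i ∈ Finset.range I,
      ‖∑ a ∈ (Finset.Ioc (Ai a0 w0 i) (Ai a0 w0 (i + 1))).filter Nat.Prime,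
      ∑ m ∈ Finset.Icc 1 (M i),
        (if a * m = n then ee ((b' : ℝ) * ((a % q : ℕ) : ℝ) * ((m % q : ℕ) : ℝ) / q) *
          (dr r m : ℂ) else 0)‖ ≤
      ∑ a ∈ Finset.Ioc (Ai a0 w0 i) (Ai a0 w0 (i + 1)), (if a ∣ n then D else 0) := by
    intro i hi
    refine le_trans (norm_sum_le _ _) ?_
    refine le_trans (Finset.sum_le_sum (g := fun a => (if a ∣ n then D else 0)) fun a ha => ?_) ?_
    · apply fib_norm a (M i) n _ _ D hD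
      · intro m hm
        rw [norm_mul, IP6.norm_ee, one_mul, Complex.norm_real, Real.norm_eq_abs]
        exact hB i (Finset.mem_range.mp hi) m hm
      · exact le_trans h0 (le_trans (Ai_ge a0 w0 i hw)
          (Finset.mem_Ioc.mp (Finset.mem_filter.mp ha).1).1.le)
    · apply Finset.sum_le_sum_of_subset_of_nonneg (Finset.filter_subset _ _)
      intro a _ _
      split_ifs
      · exact hD
      · exact le_rfl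
  refine le_trans (norm_sum_le _ _) (le_trans (Finset.sum_le_sum h1) ?_)
  rw [sum_cover (Ai a0 w0) (Ai_mono a0 w0), Ai_zero a0 w0 hw, Ai_last a0 w0 I h0 hI,
    ← Finset.sum_filter, Finset.sum_const, nsmul_eq_mul]
  apply mul_le_mul_of_nonneg_right _ hD
  have h2 : ((Finset.Ioc a0 w0).filter (fun a => a ∣ n)).card ≤ n.divisors.card := by
    apply Finset.card_le_card
    intro a ha
    rw [Nat.mem_divisors]
    exact ⟨(Finset.mem_filter.mp ha).2, by omega⟩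
  exact_mod_cast h2

theorem ee_mod2 (b' : ℤ) (a q m : ℕ) (hq : 1 ≤ q) :
    ee ((b' : ℝ) * ((a % q : ℕ) : ℝ) * ((m % q : ℕ) : ℝ) / q) =
      ee (((a * m : ℕ) : ℝ) * ((b' : ℝ) / q)) := by
  rw [← ee_mod b' a q m hq]
  have h := ee_mod b' m q (a % q) hq
  have h1 : (b' : ℝ) * ((a % q : ℕ) : ℝ) * ((m % q : ℕ) : ℝ) / q =
      (b' : ℝ) * ((m % q : ℕ) : ℝ) * ((a % q : ℕ) : ℝ) / q := by ring
  have h2 : (((m * (a % q) : ℕ)) : ℝ) * ((b' : ℝ) / q) =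
      (b' : ℝ) * ((a % q : ℕ) : ℝ) * (m : ℝ) / q := by
    push_cast
    ring
  rw [h1, h, h2]

/-- `up` as a sum over an interval -/
theorem up_eq (r : ℕ) (z w : ℝ) (n : ℕ) (hz : 0 ≤ z) :
    up r z w n = ∑ a ∈ (Finset.Ioc ⌊z⌋₊ ⌊w⌋₊).filter Nat.Prime,
      (if a ∣ n then dr r (n / a) else 0) := by
  unfold up PW
  rw [Finset.sum_filter]
  apply Finset.sum_congr _ (fun _ _ => rfl)
  ext p
  rw [Finset.mem_filter, Finset.mem_filter, Finset.mem_Icc, Finset.mem_Ioc, Nat.floor_lt hz]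
  constructor
  · rintro ⟨⟨_, h2⟩, h3, h4⟩
    exact ⟨⟨h4, h2⟩, h3⟩
  · rintro ⟨⟨h4, h2⟩, h3⟩
    exact ⟨⟨h3.one_lt.le, h2⟩, h3, h4⟩

theorem cc_val (r : ℕ) (z w X : ℝ) (I q : ℕ) (b' : ℤ) (M : ℕ → ℕ) (n : ℕ) (hq : 1 ≤ q)
    (hz : 1 ≤ z) (hzw : z ≤ w) (hI : ⌊w⌋₊ ≤ 2 ^ I) (hn : 1 ≤ n) (hnX : (n : ℝ) ≤ 3 * X)
    (hM : ∀ i < I, M i = ⌊6 * X / (Ai ⌊z⌋₊ ⌊w⌋₊ i : ℝ)⌋₊) :
    cc r ⌊z⌋₊ ⌊w⌋₊ I q b' M n = (up r z w n : ℂ) * ee ((n : ℝ) * ((b' : ℝ) / q)) := by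
  have h0 : 1 ≤ ⌊z⌋₊ := Nat.le_floor (by simpa using hz)
  have hw : ⌊z⌋₊ ≤ ⌊w⌋₊ := Nat.floor_le_floor hzw
  have hn0 : (0 : ℝ) ≤ n := by positivity
  rw [cc_eq r _ _ I q b' M n hq]
  have h1 : ∀ i ∈ Finset.range I,
      ∑ a ∈ (Finset.Ioc (Ai ⌊z⌋₊ ⌊w⌋₊ i) (Ai ⌊z⌋₊ ⌊w⌋₊ (i + 1))).filter Nat.Prime,
      ∑ m ∈ Finset.Icc 1 (M i),
        (if a * m = n then ee ((b' : ℝ) * ((a % q : ℕ) : ℝ) * ((m % q : ℕ) : ℝ) / q) *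
          (dr r m : ℂ) else 0) =
      ∑ a ∈ Finset.Ioc (Ai ⌊z⌋₊ ⌊w⌋₊ i) (Ai ⌊z⌋₊ ⌊w⌋₊ (i + 1)),
        (if a.Prime then (((if a ∣ n then dr r (n / a) else 0 : ℝ) : ℂ) *
          ee ((n : ℝ) * ((b' : ℝ) / q))) else 0) := by
    intro i hi
    rw [← Finset.sum_filter]
    apply Finset.sum_congr rfl
    intro a ha
    have ha' := (Finset.mem_filter.mp ha).1
    have hAi : 1 ≤ Ai ⌊z⌋₊ ⌊w⌋₊ i := le_trans h0 (Ai_ge _ _ i hw)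
    have hAa : Ai ⌊z⌋₊ ⌊w⌋₊ i ≤ a := (Finset.mem_Ioc.mp ha').1.le
    have ha1 : 1 ≤ a := le_trans hAi hAa
    have hnM : n / a ≤ M i := by
      rw [hM i (Finset.mem_range.mp hi)]
      apply Nat.le_floor
      have hp : (0 : ℝ) < (Ai ⌊z⌋₊ ⌊w⌋₊ i : ℝ) := by exact_mod_cast hAi
      calc ((n / a : ℕ) : ℝ) ≤ (n : ℝ) / a := Nat.cast_div_le
        _ ≤ 6 * X / a := by
            apply div_le_div_of_nonneg_right (by linarith)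
            positivity
        _ ≤ 6 * X / (Ai ⌊z⌋₊ ⌊w⌋₊ i : ℝ) := by
            apply div_le_div_of_nonneg_left _ hp (by exact_mod_cast hAa)
            linarith
    rw [fib_val a (M i) n ha1 hn hnM
      (fun m => ee ((b' : ℝ) * ((a % q : ℕ) : ℝ) * ((m % q : ℕ) : ℝ) / q) * (dr r m : ℂ))]
    split_ifs with h
    · obtain ⟨m, rfl⟩ := h
      rw [Nat.mul_div_cancel_left m ha1, ee_mod2 b' a q m hq, mul_comm]
    · simp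
  rw [Finset.sum_congr rfl h1, sum_cover (Ai ⌊z⌋₊ ⌊w⌋₊) (Ai_mono _ _), Ai_zero _ _ hw,
    Ai_last _ _ I h0 hI, ← Finset.sum_filter, ← Finset.sum_mul, up_eq r z w n (by linarith)]
  congr 1
  push_cast
  rfl

theorem psi_sum (r a0 w0 I q : ℕ) (b' : ℤ) (M : ℕ → ℕ) (N : ℕ) (ψ : ℕ → ℂ)
    (hN : ∀ i < I, Ai a0 w0 (i + 1) * M i ≤ N) :
    ∑ n ∈ Finset.Icc 1 N, cc r a0 w0 I q b' M n * ψ n =
      ∑ j ∈ Finset.range I ×ˢ (Finset.range q ×ˢ Finset.range q),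
        ee ((b' : ℝ) * j.2.1 * j.2.2 / q) *
        ∑ p ∈ ((Finset.Ioc (Ai a0 w0 j.1) (Ai a0 w0 (j.1 + 1))).filter
          (fun a => a.Prime ∧ a % q = j.2.1 % q)) ×ˢ
          ((Finset.Icc 1 (M j.1)).filter (fun m => m % q = j.2.2 % q)),
          (dr r p.2 : ℂ) * ψ (p.1 * p.2) := by
  unfold cc
  rw [Finset.sum_product]
  simp only [Finset.sum_mul]
  rw [Finset.sum_comm]
  apply Finset.sum_congr rfl
  intro i hi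
  rw [Finset.sum_product, Finset.sum_comm]
  apply Finset.sum_congr rfl
  intro ρ _
  rw [Finset.sum_comm]
  apply Finset.sum_congr rfl
  intro σ _
  rw [Finset.sum_comm, Finset.mul_sum]
  apply Finset.sum_congr rfl
  intro p hp
  rw [Finset.mem_product, Finset.mem_filter, Finset.mem_Ioc, Finset.mem_filter,
    Finset.mem_Icc] at hp
  rw [Finset.sum_eq_single (p.1 * p.2)]
  · simp only [if_true]
    ring
  · intro n _ hn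
    rw [if_neg (fun h => hn h.symm), zero_mul]
  · intro h
    exfalso
    apply h
    rw [Finset.mem_Icc]
    refine ⟨Nat.mul_pos (by omega) (by omega), ?_⟩
    exact le_trans (Nat.mul_le_mul hp.1.1.2 hp.2.1.2) (hN i (Finset.mem_range.mp hi))

theorem two_mul_six (A X : ℝ) (hA : 0 < A) : (2 * A) * (6 * X / A) = 12 * X := by
  field_simp
  ring

/-- the deterministic part -/
theorem core (r : ℕ) (ε₂ θw δ₅ δw C5 X D0 D1 : ℝ) (hε₂ : 0 < ε₂) (hεθ : ε₂ < θw)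
    (hθw : θw ≤ 1 / 4) (hX : 1 ≤ X) (hD0 : 0 ≤ D0)
    (h3 : ∀ (η : ℝ) (A A' q ρ σ M : ℕ), X ^ (ε₂ / 2) ≤ A → A ≤ A' → A' ≤ 2 * A → 1 ≤ q →
      (q : ℝ) ≤ X ^ δw → X ^ (2 / 3 : ℝ) ≤ M → (M : ℝ) ≤ 6 * X / A → (A : ℝ) ≤ η * X →
      η ≤ X ^ (-(δ₅ / 2)) →
      ∫ u : ℝ, ‖∑ p ∈ ((Finset.Ioc A A').filter (fun a => a.Prime ∧ a % q = ρ % q)) ×ˢ
          ((Finset.Icc 1 M).filter (fun m => m % q = σ % q)),
        (dr r p.2 : ℂ) * ((psi η (u - Real.log ((p.1 : ℝ) * p.2)) : ℝ) : ℂ)‖ ^ 2 ≤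
      η ^ 2 * X ^ (2 - δw))
    (h5 : ∀ (c : ℕ → ℂ) (D : ℝ) (a b ℓ N : ℕ), 1 ≤ ℓ → 2 * ℓ ≤ a → a ≤ b →
      b ≤ 2 * a → b ≤ N → (∀ n, ‖c n‖ ≤ D) →
      ∑ x ∈ Finset.Icc (a + 2 * ℓ) b, ‖∑ n ∈ Finset.Ioc (x - ℓ) x, c n -
        ∑ n ∈ Finset.Ioc (x - 2 * ℓ) (x - ℓ), c n‖ ^ 2 ≤
      8 * b * (∫ u : ℝ, ‖∑ n ∈ Finset.Icc 1 N,
        c n * ((psi ((ℓ : ℝ) / a) (u - Real.log n) : ℝ) : ℂ)‖ ^ 2) +
        C5 * ((b : ℝ) - a + 1) * D ^ 2 * (1 + ℓ * ((b : ℝ) - a) / a + (ℓ : ℝ) ^ 2 / a) ^ 2)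
    (hz1 : X ^ (ε₂ / 2) + 1 ≤ X ^ ε₂)
    (hB : ∀ m : ℕ, 1 ≤ m → (m : ℝ) ≤ 6 * X → |dr r m| ≤ D0)
    (hD1 : ∀ n : ℕ, 1 ≤ n → (n : ℝ) ≤ 12 * X → (n.divisors.card : ℝ) * D0 ≤ D1)
    (a b ℓ q : ℕ) (b' : ℤ) (hℓ1 : 1 ≤ ℓ) (hℓa : 2 * ℓ ≤ a) (hab : a ≤ b) (hb2 : b ≤ 2 * a)
    (hb3 : (b : ℝ) ≤ 3 * X) (hq1 : 1 ≤ q) (hqw : (q : ℝ) ≤ X ^ δw)
    (hη : (ℓ : ℝ) / a ≤ X ^ (-(δ₅ / 2))) (hℓ : 3 * X ^ θw ≤ ℓ)
    (I : ℕ) (hI : ⌊X ^ θw⌋₊ ≤ 2 ^ I) :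
    ∑ x ∈ Finset.Icc (a + 2 * ℓ) b, ‖ws (up r (X ^ ε₂) (X ^ θw)) (b' / q) ℓ x -
      ws (up r (X ^ ε₂) (X ^ θw)) (b' / q) ℓ (x - ℓ)‖ ^ 2 ≤
    8 * b * (((I : ℝ) * (q * q)) ^ 2 * (((ℓ : ℝ) / a) ^ 2 * X ^ (2 - δw))) +
      C5 * ((b : ℝ) - a + 1) * D1 ^ 2 *
        (1 + ℓ * ((b : ℝ) - a) / a + (ℓ : ℝ) ^ 2 / a) ^ 2 := by
  have hX0 : (0 : ℝ) < X := by linarith
  have hzpos : 1 ≤ X ^ (ε₂ / 2) := Real.one_le_rpow hX (by linarith)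
  have hz : 1 ≤ X ^ ε₂ := by linarith
  have hzw : X ^ ε₂ ≤ X ^ θw := Real.rpow_le_rpow_of_exponent_le hX hεθ.le
  have h0 : 1 ≤ ⌊X ^ ε₂⌋₊ := Nat.le_floor (by simpa using hz)
  have hw : ⌊X ^ ε₂⌋₊ ≤ ⌊X ^ θw⌋₊ := Nat.floor_le_floor hzw
  have haN : 1 ≤ a := by omega
  have ha0 : (0 : ℝ) < a := by exact_mod_cast haN
  have hη0 : (0 : ℝ) < (ℓ : ℝ) / a := by
    apply div_pos _ ha0
    exact_mod_cast hℓ1
  have hAge : ∀ i, 1 ≤ Ai ⌊X ^ ε₂⌋₊ ⌊X ^ θw⌋₊ i := fun i =>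
    le_trans h0 (Ai_ge _ _ i hw)
  obtain ⟨M, hM⟩ : ∃ M : ℕ → ℕ, ∀ i, M i = ⌊6 * X / (Ai ⌊X ^ ε₂⌋₊ ⌊X ^ θw⌋₊ i : ℝ)⌋₊ :=
    ⟨fun i => ⌊6 * X / (Ai ⌊X ^ ε₂⌋₊ ⌊X ^ θw⌋₊ i : ℝ)⌋₊, fun i => rfl⟩
  have hMle : ∀ i, (M i : ℝ) ≤ 6 * X / (Ai ⌊X ^ ε₂⌋₊ ⌊X ^ θw⌋₊ i : ℝ) := by
    intro i
    rw [hM i]
    exact Nat.floor_le (by positivity)
  have hM6 : ∀ i, (M i : ℝ) ≤ 6 * X := by
    intro i
    refine le_trans (hMle i) ?_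
    apply div_le_self (by linarith)
    exact_mod_cast hAge i
  have hAw : ∀ i, (Ai ⌊X ^ ε₂⌋₊ ⌊X ^ θw⌋₊ i : ℝ) ≤ X ^ θw := by
    intro i
    refine le_trans ?_ (Nat.floor_le (by positivity))
    exact_mod_cast Ai_le _ _ _
  have hMge : ∀ i, X ^ (2 / 3 : ℝ) ≤ M i := by
    intro i
    have hp : (0 : ℝ) < (Ai ⌊X ^ ε₂⌋₊ ⌊X ^ θw⌋₊ i : ℝ) := by exact_mod_cast hAge i
    have e1 : 6 * X ^ (2 / 3 : ℝ) ≤ 6 * X / (Ai ⌊X ^ ε₂⌋₊ ⌊X ^ θw⌋₊ i : ℝ) := by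
      rw [le_div_iff₀ hp]
      have e2 : X ^ (2 / 3 : ℝ) * X ^ θw ≤ X := by
        rw [← Real.rpow_add hX0]
        calc X ^ (2 / 3 + θw) ≤ X ^ (1 : ℝ) :=
              Real.rpow_le_rpow_of_exponent_le hX (by linarith)
          _ = X := Real.rpow_one X
      have e3 : X ^ (2 / 3 : ℝ) * (Ai ⌊X ^ ε₂⌋₊ ⌊X ^ θw⌋₊ i : ℝ) ≤
          X ^ (2 / 3 : ℝ) * X ^ θw := mul_le_mul_of_nonneg_left (hAw i) (by positivity)
      linarith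
    have e4 : 6 * X / (Ai ⌊X ^ ε₂⌋₊ ⌊X ^ θw⌋₊ i : ℝ) - 1 ≤ (M i : ℝ) := by
      rw [hM i]
      exact (Nat.sub_one_lt_floor _).le
    have e5 : 1 ≤ X ^ (2 / 3 : ℝ) := Real.one_le_rpow hX (by norm_num)
    linarith
  have hMB : ∀ i < I, ∀ m ∈ Finset.Icc 1 (M i), |dr r m| ≤ D0 := by
    intro i _ m hm
    rw [Finset.mem_Icc] at hm
    apply hB m hm.1
    refine le_trans ?_ (hM6 i)
    exact_mod_cast hm.2
  have hN : ∀ i < I, Ai ⌊X ^ ε₂⌋₊ ⌊X ^ θw⌋₊ (i + 1) * M i ≤ ⌊12 * X⌋₊ := by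
    intro i _
    apply Nat.le_floor
    have hp : (0 : ℝ) < (Ai ⌊X ^ ε₂⌋₊ ⌊X ^ θw⌋₊ i : ℝ) := by exact_mod_cast hAge i
    have h1 : (Ai ⌊X ^ ε₂⌋₊ ⌊X ^ θw⌋₊ (i + 1) : ℝ) ≤
        2 * (Ai ⌊X ^ ε₂⌋₊ ⌊X ^ θw⌋₊ i : ℝ) := by
      exact_mod_cast Ai_double _ _ i
    push_cast
    calc (Ai ⌊X ^ ε₂⌋₊ ⌊X ^ θw⌋₊ (i + 1) : ℝ) * (M i : ℝ)
        ≤ (2 * (Ai ⌊X ^ ε₂⌋₊ ⌊X ^ θw⌋₊ i : ℝ)) *
          (6 * X / (Ai ⌊X ^ ε₂⌋₊ ⌊X ^ θw⌋₊ i : ℝ)) :=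
          mul_le_mul h1 (hMle i) (by positivity) (by positivity)
      _ = 12 * X := two_mul_six _ X hp
  obtain ⟨c, hc⟩ : ∃ c : ℕ → ℂ, ∀ n, c n = if 1 ≤ n ∧ n ≤ ⌊12 * X⌋₊ then
      cc r ⌊X ^ ε₂⌋₊ ⌊X ^ θw⌋₊ I q b' M n else 0 := ⟨_, fun n => rfl⟩
  have hb6 : b ≤ ⌊12 * X⌋₊ := by
    apply Nat.le_floor
    linarith
  have hD1nn : 0 ≤ D1 := le_trans (by positivity) (hD1 1 le_rfl (by push_cast; linarith))
  have hcD : ∀ n, ‖c n‖ ≤ D1 := by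
    intro n
    rw [hc n]
    split_ifs with h
    · refine le_trans (cc_norm r _ _ I q b' M n hq1 h0 hw hI D0 hD0 hMB h.1) (hD1 n h.1 ?_)
      exact (Nat.le_floor_iff (by linarith)).mp h.2
    · simpa using hD1nn
  have hcv : ∀ n, 1 ≤ n → n ≤ b → c n =
      (up r (X ^ ε₂) (X ^ θw) n : ℂ) * ee ((n : ℝ) * ((b' : ℝ) / q)) := by
    intro n hn1 hnb
    rw [hc n, if_pos ⟨hn1, le_trans hnb hb6⟩]
    apply cc_val r _ _ X I q b' M n hq1 hz hzw hI hn1 _ (fun i _ => hM i)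
    refine le_trans ?_ hb3
    exact_mod_cast hnb
  have hmain := h5 c D1 a b ℓ ⌊12 * X⌋₊ hℓ1 hℓa hab hb2 hb6 hcD
  have hL : ∑ x ∈ Finset.Icc (a + 2 * ℓ) b, ‖ws (up r (X ^ ε₂) (X ^ θw)) (b' / q) ℓ x -
      ws (up r (X ^ ε₂) (X ^ θw)) (b' / q) ℓ (x - ℓ)‖ ^ 2 =
      ∑ x ∈ Finset.Icc (a + 2 * ℓ) b, ‖∑ n ∈ Finset.Ioc (x - ℓ) x, c n -
        ∑ n ∈ Finset.Ioc (x - 2 * ℓ) (x - ℓ), c n‖ ^ 2 := by
    apply Finset.sum_congr rfl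
    intro x hx
    rw [Finset.mem_Icc] at hx
    have e1 : ws (up r (X ^ ε₂) (X ^ θw)) (b' / q) ℓ x =
        ∑ n ∈ Finset.Ioc (x - ℓ) x, c n := by
      unfold ws
      apply Finset.sum_congr rfl
      intro n hn
      rw [Finset.mem_Ioc] at hn
      rw [hcv n (by omega) (by omega)]
    have e2 : ws (up r (X ^ ε₂) (X ^ θw)) (b' / q) ℓ (x - ℓ) =
        ∑ n ∈ Finset.Ioc (x - 2 * ℓ) (x - ℓ), c n := by
      unfold ws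
      have e3 : x - ℓ - ℓ = x - 2 * ℓ := by omega
      rw [e3]
      apply Finset.sum_congr rfl
      intro n hn
      rw [Finset.mem_Ioc] at hn
      rw [hcv n (by omega) (by omega)]
    rw [e1, e2]
  rw [hL]
  refine le_trans hmain ?_
  have hint : ∫ u : ℝ, ‖∑ n ∈ Finset.Icc 1 ⌊12 * X⌋₊,
        c n * ((psi ((ℓ : ℝ) / a) (u - Real.log n) : ℝ) : ℂ)‖ ^ 2 ≤
      ((I : ℝ) * (q * q)) ^ 2 * (((ℓ : ℝ) / a) ^ 2 * X ^ (2 - δw)) := by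
    have e1 : (fun u : ℝ => ‖∑ n ∈ Finset.Icc 1 ⌊12 * X⌋₊,
        c n * ((psi ((ℓ : ℝ) / a) (u - Real.log n) : ℝ) : ℂ)‖ ^ 2) = fun u : ℝ =>
        ‖∑ j ∈ Finset.range I ×ˢ (Finset.range q ×ˢ Finset.range q),
          ee ((b' : ℝ) * j.2.1 * j.2.2 / q) *
          ∑ p ∈ ((Finset.Ioc (Ai ⌊X ^ ε₂⌋₊ ⌊X ^ θw⌋₊ j.1)
            (Ai ⌊X ^ ε₂⌋₊ ⌊X ^ θw⌋₊ (j.1 + 1))).filter
            (fun a => a.Prime ∧ a % q = j.2.1 % q)) ×ˢ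
            ((Finset.Icc 1 (M j.1)).filter (fun m => m % q = j.2.2 % q)),
            (dr r p.2 : ℂ) *
            ((psi ((ℓ : ℝ) / a) (u - Real.log ((p.1 : ℝ) * p.2)) : ℝ) : ℂ)‖ ^ 2 := by
      funext u
      have e2 := psi_sum r ⌊X ^ ε₂⌋₊ ⌊X ^ θw⌋₊ I q b' M ⌊12 * X⌋₊
        (fun n => ((psi ((ℓ : ℝ) / a) (u - Real.log n) : ℝ) : ℂ)) hN
      have e3 : ∑ n ∈ Finset.Icc 1 ⌊12 * X⌋₊,
          c n * ((psi ((ℓ : ℝ) / a) (u - Real.log n) : ℝ) : ℂ) =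
          ∑ n ∈ Finset.Icc 1 ⌊12 * X⌋₊, cc r ⌊X ^ ε₂⌋₊ ⌊X ^ θw⌋₊ I q b' M n *
            ((psi ((ℓ : ℝ) / a) (u - Real.log n) : ℝ) : ℂ) := by
        apply Finset.sum_congr rfl
        intro n hn
        rw [hc n, if_pos (Finset.mem_Icc.mp hn)]
      rw [e3, e2]
      simp only [Nat.cast_mul]
    rw [e1]
    have e4 := int_sum (Finset.range I ×ˢ (Finset.range q ×ˢ Finset.range q))
      (fun (j : ℕ × ℕ × ℕ) (u : ℝ) => ee ((b' : ℝ) * j.2.1 * j.2.2 / q) *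
          ∑ p ∈ ((Finset.Ioc (Ai ⌊X ^ ε₂⌋₊ ⌊X ^ θw⌋₊ j.1)
            (Ai ⌊X ^ ε₂⌋₊ ⌊X ^ θw⌋₊ (j.1 + 1))).filter
            (fun a => a.Prime ∧ a % q = j.2.1 % q)) ×ˢ
            ((Finset.Icc 1 (M j.1)).filter (fun m => m % q = j.2.2 % q)),
            (dr r p.2 : ℂ) *
            ((psi ((ℓ : ℝ) / a) (u - Real.log ((p.1 : ℝ) * p.2)) : ℝ) : ℂ))
      (((ℓ : ℝ) / a) ^ 2 * X ^ (2 - δw)) ?_ ?_
    · rw [Finset.card_product, Finset.card_product, Finset.card_range, Finset.card_range] at e4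
      push_cast at e4
      exact e4
    · intro j _
      simp only [norm_mul, IP6.norm_ee, one_mul]
      exact psi_integrable _ (fun p : ℕ × ℕ => (dr r p.2 : ℂ))
        (fun p : ℕ × ℕ => Real.log ((p.1 : ℝ) * p.2)) _
    · intro j hj
      simp only [norm_mul, IP6.norm_ee, one_mul]
      have key := h3 ((ℓ : ℝ) / a) (Ai ⌊X ^ ε₂⌋₊ ⌊X ^ θw⌋₊ j.1)
        (Ai ⌊X ^ ε₂⌋₊ ⌊X ^ θw⌋₊ (j.1 + 1)) q j.2.1 j.2.2 (M j.1) ?_ (Ai_mono _ _ _)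
        (Ai_double _ _ _) hq1 hqw (hMge j.1) (hMle j.1) ?_ hη
      · simpa only [norm_mul] using key
      · have g1 : X ^ ε₂ - 1 ≤ (⌊X ^ ε₂⌋₊ : ℝ) := (Nat.sub_one_lt_floor _).le
        have g2 : (⌊X ^ ε₂⌋₊ : ℝ) ≤ (Ai ⌊X ^ ε₂⌋₊ ⌊X ^ θw⌋₊ j.1 : ℝ) := by
          exact_mod_cast Ai_ge _ _ j.1 hw
        linarith
      · have g3 : (a : ℝ) ≤ 3 * X := le_trans (by exact_mod_cast hab) hb3
        calc (Ai ⌊X ^ ε₂⌋₊ ⌊X ^ θw⌋₊ j.1 : ℝ) ≤ X ^ θw := hAw _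
          _ ≤ (ℓ : ℝ) / 3 := by linarith
          _ = (ℓ : ℝ) / a * (a / 3) := by field_simp
          _ ≤ (ℓ : ℝ) / a * X := by
              apply mul_le_mul_of_nonneg_left _ hη0.le
              linarith
  have hb0 : (0 : ℝ) ≤ 8 * (b : ℝ) := by positivity
  have := mul_le_mul_of_nonneg_left hint hb0
  linarith

/-- second numerical condition -/
theorem ev_second (c K ε e1 e2 : ℝ) (h : 4 * ε + e1 < e2) : ∀ᶠ X : ℝ in atTop,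
    K * (c * ((12 * X) ^ ε * (6 * X) ^ ε)) ^ 2 * X ^ e1 ≤ X ^ e2 / 2 := by
  filter_upwards [ev_const (2 * K * (c * (12 ^ ε * 6 ^ ε)) ^ 2) (e2 - (4 * ε + e1)) (by linarith),
    eventually_gt_atTop 0] with X hX hX0
  have h1 : (12 * X) ^ ε = 12 ^ ε * X ^ ε := Real.mul_rpow (by norm_num) hX0.le
  have h1' : (6 * X) ^ ε = 6 ^ ε * X ^ ε := Real.mul_rpow (by norm_num) hX0.le
  have h2 : X ^ ε * X ^ ε * (X ^ ε * X ^ ε) * X ^ e1 = X ^ (4 * ε + e1) := by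
    rw [← Real.rpow_add hX0, ← Real.rpow_add hX0, ← Real.rpow_add hX0]
    congr 1
    ring
  have h3 : X ^ (e2 - (4 * ε + e1)) * X ^ (4 * ε + e1) = X ^ e2 := by
    rw [← Real.rpow_add hX0]
    congr 1
    ring
  calc K * (c * ((12 * X) ^ ε * (6 * X) ^ ε)) ^ 2 * X ^ e1
      = (2 * K * (c * (12 ^ ε * 6 ^ ε)) ^ 2) * (X ^ ε * X ^ ε * (X ^ ε * X ^ ε) * X ^ e1) / 2 := by
        rw [h1, h1']; ring
    _ = (2 * K * (c * (12 ^ ε * 6 ^ ε)) ^ 2) * X ^ (4 * ε + e1) / 2 := by rw [h2]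
    _ ≤ X ^ (e2 - (4 * ε + e1)) * X ^ (4 * ε + e1) / 2 := by
        apply div_le_div_of_nonneg_right _ (by norm_num)
        exact mul_le_mul_of_nonneg_right hX (by positivity)
    _ = X ^ e2 / 2 := by rw [h3]

theorem second_bound (X b a ℓ C5 D1 δ₁ δ₅ : ℝ) (hX : 1 ≤ X) (hδ₁ : 0 < δ₁) (hδ : δ₁ ≤ δ₅)
    (hδ₅ : δ₅ ≤ 1 / 20) (hC5 : 0 ≤ C5) (hab : a ≤ b) (hba : b ≤ a + X ^ (1 - δ₁))
    (ha : X ^ (1 - δ₁ / 2) ≤ a) (hℓ : X ^ (δ₁ / 2) ≤ ℓ) (hℓ' : ℓ ≤ X ^ (1 - δ₅)) :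
    C5 * (b - a + 1) * D1 ^ 2 * (1 + ℓ * (b - a) / a + ℓ ^ 2 / a) ^ 2 ≤
      ℓ ^ 2 * (18 * C5 * D1 ^ 2 * X ^ (1 - 2 * δ₁)) := by
  have hX0 : 0 < X := by linarith
  have hpa : 0 < X ^ (1 - δ₁ / 2) := by positivity
  have ha0 : 0 < a := lt_of_lt_of_le hpa ha
  have hℓ0 : 0 < ℓ := lt_of_lt_of_le (by positivity) hℓ
  have g1 : b - a + 1 ≤ 2 * X ^ (1 - δ₁) := by
    have : 1 ≤ X ^ (1 - δ₁) := Real.one_le_rpow hX (by linarith)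
    linarith
  have g2 : 1 ≤ ℓ * X ^ (-(δ₁ / 2)) := by
    calc (1 : ℝ) = X ^ (δ₁ / 2 + -(δ₁ / 2)) := by
          rw [add_neg_cancel, Real.rpow_zero]
      _ = X ^ (δ₁ / 2) * X ^ (-(δ₁ / 2)) := Real.rpow_add hX0 _ _
      _ ≤ ℓ * X ^ (-(δ₁ / 2)) := mul_le_mul_of_nonneg_right hℓ (by positivity)
  have g3 : ℓ * (b - a) / a ≤ ℓ * X ^ (-(δ₁ / 2)) := by
    rw [div_le_iff₀ ha0]
    calc ℓ * (b - a) ≤ ℓ * X ^ (1 - δ₁) := by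
          apply mul_le_mul_of_nonneg_left (by linarith) hℓ0.le
      _ = ℓ * (X ^ (-(δ₁ / 2)) * X ^ (1 - δ₁ / 2)) := by
          rw [← Real.rpow_add hX0]
          congr 2
          ring
      _ ≤ ℓ * (X ^ (-(δ₁ / 2)) * a) := by
          apply mul_le_mul_of_nonneg_left _ hℓ0.le
          exact mul_le_mul_of_nonneg_left ha (by positivity)
      _ = ℓ * X ^ (-(δ₁ / 2)) * a := by ring
  have g4 : ℓ ^ 2 / a ≤ ℓ * X ^ (-(δ₁ / 2)) := by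
    rw [div_le_iff₀ ha0]
    calc ℓ ^ 2 = ℓ * ℓ := by ring
      _ ≤ ℓ * X ^ (1 - δ₅) := mul_le_mul_of_nonneg_left hℓ' hℓ0.le
      _ ≤ ℓ * X ^ (1 - δ₁) := by
          apply mul_le_mul_of_nonneg_left _ hℓ0.le
          exact Real.rpow_le_rpow_of_exponent_le hX (by linarith)
      _ = ℓ * (X ^ (-(δ₁ / 2)) * X ^ (1 - δ₁ / 2)) := by
          rw [← Real.rpow_add hX0]
          congr 2
          ring
      _ ≤ ℓ * (X ^ (-(δ₁ / 2)) * a) := by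
          apply mul_le_mul_of_nonneg_left _ hℓ0.le
          exact mul_le_mul_of_nonneg_left ha (by positivity)
      _ = ℓ * X ^ (-(δ₁ / 2)) * a := by ring
  have g5 : 0 ≤ ℓ * (b - a) / a := by
    apply div_nonneg _ ha0.le
    exact mul_nonneg hℓ0.le (by linarith)
  have g6 : 0 ≤ ℓ ^ 2 / a := by positivity
  have g7 : (1 + ℓ * (b - a) / a + ℓ ^ 2 / a) ^ 2 ≤ 9 * (ℓ ^ 2 * X ^ (-δ₁)) := by
    calc (1 + ℓ * (b - a) / a + ℓ ^ 2 / a) ^ 2 ≤ (3 * (ℓ * X ^ (-(δ₁ / 2)))) ^ 2 := by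
          apply pow_le_pow_left₀ (by linarith)
          linarith
      _ = 9 * (ℓ ^ 2 * (X ^ (-(δ₁ / 2)) * X ^ (-(δ₁ / 2)))) := by ring
      _ = 9 * (ℓ ^ 2 * X ^ (-δ₁)) := by
          rw [← Real.rpow_add hX0]
          congr 3
          ring
  have g8 : X ^ (1 - δ₁) * X ^ (-δ₁) = X ^ (1 - 2 * δ₁) := by
    rw [← Real.rpow_add hX0]
    congr 1
    ring
  calc C5 * (b - a + 1) * D1 ^ 2 * (1 + ℓ * (b - a) / a + ℓ ^ 2 / a) ^ 2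
      ≤ C5 * (2 * X ^ (1 - δ₁)) * D1 ^ 2 * (9 * (ℓ ^ 2 * X ^ (-δ₁))) := by
        apply mul_le_mul _ g7 (by positivity) (by positivity)
        apply mul_le_mul_of_nonneg_right _ (sq_nonneg _)
        exact mul_le_mul_of_nonneg_left g1 hC5
    _ = ℓ ^ 2 * (18 * C5 * D1 ^ 2 * (X ^ (1 - δ₁) * X ^ (-δ₁))) := by ring
    _ = _ := by rw [g8]

end IK4

theorem prK4 (hL0 : tsL0) (hP5 : tsP5) (hK3 : tsK3) : tsK4 := by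
  intro r ε₂ θw θ₁ δ₅ hr hε₂ hεθ hθθ hθw hδ₅ hδ₅'
  obtain ⟨δw, X03, hδw, h3⟩ := hK3 r (ε₂ / 2) (δ₅ / 2) hr (by linarith) (by linarith)
    (by linarith) (by linarith)
  obtain ⟨C5, hC5, h5⟩ := hP5
  obtain ⟨δm, hδmdef⟩ : ∃ δm : ℝ, δm = min (δw / 32) (min (δ₅ / 4) θ₁) := ⟨_, rfl⟩
  have hm1 : δm ≤ δw / 32 := by rw [hδmdef]; exact min_le_left _ _
  have hm2 : δm ≤ δ₅ / 4 := by
    rw [hδmdef]; exact le_trans (min_le_right _ _) (min_le_left _ _)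
  have hm3 : δm ≤ θ₁ := by
    rw [hδmdef]; exact le_trans (min_le_right _ _) (min_le_right _ _)
  have hm0 : 0 < δm := by
    rw [hδmdef]
    exact lt_min (by linarith) (lt_min (by linarith) (by linarith))
  refine ⟨δm, hm0, ?_⟩
  intro δ₁ hδ₁ hδ₁m
  obtain ⟨C0, hC0, hLr⟩ := hL0 r (δ₁ / 100) (by linarith)
  obtain ⟨C2, hC2, hL2⟩ := hL0 2 (δ₁ / 100) (by linarith)
  have F1 := IP6.ev_const 2 (ε₂ / 2) (by linarith)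
  have F2 := IP6.ev_const 2 (δ₅ - δ₁ / 2) (by linarith)
  have F5 := IP6.ev_const 3 (θ₁ - θw) (by linarith)
  have F3 := IP6.ev_first 1 0 (1 + 2 * (2 * δm) + δ₁ - δw) (1 - δ₁ - δ₁ / 40)
    (by linarith)
  have F4 := IK4.ev_second (C2 * C0) (18 * C5) (δ₁ / 100) (1 - 2 * δ₁)
    (1 - δ₁ - δ₁ / 40) (by linarith)
  obtain ⟨X0, hX0⟩ := Filter.eventually_atTop.mp ((F1.and (F2.and F5)).and ((F3.and F4).and
    ((eventually_ge_atTop X03).and (eventually_ge_atTop (1 : ℝ)))))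
  refine ⟨X0, ?_⟩
  intro X hX a b hBlk ℓ q b' hℓ hℓ' hq1 hqm
  obtain ⟨⟨f1, f2, f7⟩, ⟨f3, f4⟩, f5, f6⟩ := hX0 X hX
  obtain ⟨hB1, hB2, hB3, hB4⟩ := hBlk
  have hXp : 0 < X := by linarith
  have hℓδ : X ^ (δ₁ / 2) ≤ ℓ :=
    le_trans (Real.rpow_le_rpow_of_exponent_le f6 (by linarith)) hℓ
  have hℓ1 : 1 ≤ ℓ := by
    have : (1 : ℝ) ≤ ℓ := le_trans (Real.one_le_rpow f6 (by linarith)) hℓδ
    exact_mod_cast this
  have hℓ3 : 3 * X ^ θw ≤ ℓ := by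
    calc 3 * X ^ θw ≤ X ^ (θ₁ - θw) * X ^ θw :=
          mul_le_mul_of_nonneg_right f7 (by positivity)
      _ = X ^ θ₁ := by
          rw [← Real.rpow_add hXp]
          congr 1
          ring
      _ ≤ ℓ := hℓ
  have hpow : X ^ (1 - δ₁) ≤ X ^ (1 - δ₁ / 2) :=
    Real.rpow_le_rpow_of_exponent_le f6 (by linarith)
  have hab' : (a : ℝ) ≤ b := by
    have : 0 ≤ X ^ (1 - δ₁) := by positivity
    linarith
  have hab : a ≤ b := by exact_mod_cast hab'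
  have hb2 : b ≤ 2 * a := by
    have : (b : ℝ) ≤ 2 * a := by linarith
    exact_mod_cast this
  have hℓa : 2 * ℓ ≤ a := by
    have h1 : (2 : ℝ) * ℓ ≤ a := by
      calc (2 : ℝ) * ℓ ≤ X ^ (δ₅ - δ₁ / 2) * X ^ (1 - δ₅) :=
            mul_le_mul f2 hℓ' (by positivity) (by positivity)
        _ = X ^ (1 - δ₁ / 2) := by
            rw [← Real.rpow_add hXp]
            congr 1
            ring
        _ ≤ a := hB1
    exact_mod_cast h1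
  have ha0 : (0 : ℝ) < a := lt_of_lt_of_le (by positivity) hB1
  have hη : (ℓ : ℝ) / a ≤ X ^ (-(δ₅ / 2)) := by
    rw [div_le_iff₀ ha0]
    calc (ℓ : ℝ) ≤ X ^ (1 - δ₅) := hℓ'
      _ ≤ X ^ (-(δ₅ / 2) + (1 - δ₁ / 2)) :=
          Real.rpow_le_rpow_of_exponent_le f6 (by linarith)
      _ = X ^ (-(δ₅ / 2)) * X ^ (1 - δ₁ / 2) := Real.rpow_add hXp _ _
      _ ≤ X ^ (-(δ₅ / 2)) * a := mul_le_mul_of_nonneg_left hB1 (by positivity)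
  have hz1 : X ^ (ε₂ / 2) + 1 ≤ X ^ ε₂ := by
    have h1 : X ^ ε₂ = X ^ (ε₂ / 2) * X ^ (ε₂ / 2) := by
      rw [← Real.rpow_add hXp]
      congr 1
      ring
    rw [h1]
    nlinarith
  have hBd : ∀ m : ℕ, 1 ≤ m → (m : ℝ) ≤ 6 * X → |dr r m| ≤ C0 * (6 * X) ^ (δ₁ / 100) := by
    intro m hm1 hm3
    have h0 : 0 ≤ dr r m := by
      unfold dr
      positivity
    rw [abs_of_nonneg h0]
    refine le_trans (hLr m hm1) ?_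
    apply mul_le_mul_of_nonneg_left _ hC0.le
    exact Real.rpow_le_rpow (by positivity) hm3 (by linarith)
  have hD1 : ∀ n : ℕ, 1 ≤ n → (n : ℝ) ≤ 12 * X →
      (n.divisors.card : ℝ) * (C0 * (6 * X) ^ (δ₁ / 100)) ≤
        C2 * C0 * ((12 * X) ^ (δ₁ / 100) * (6 * X) ^ (δ₁ / 100)) := by
    intro n hn1 hn6
    have h1 : (n.divisors.card : ℝ) ≤ C2 * (12 * X) ^ (δ₁ / 100) := by
      rw [← IP6.dr_two]
      refine le_trans (hL2 n hn1) ?_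
      apply mul_le_mul_of_nonneg_left _ hC2.le
      exact Real.rpow_le_rpow (by positivity) hn6 (by linarith)
    calc (n.divisors.card : ℝ) * (C0 * (6 * X) ^ (δ₁ / 100))
        ≤ (C2 * (12 * X) ^ (δ₁ / 100)) * (C0 * (6 * X) ^ (δ₁ / 100)) :=
          mul_le_mul_of_nonneg_right h1 (by positivity)
      _ = _ := by ring
  have hcore := IK4.core r ε₂ θw δ₅ δw C5 X (C0 * (6 * X) ^ (δ₁ / 100))
    (C2 * C0 * ((12 * X) ^ (δ₁ / 100) * (6 * X) ^ (δ₁ / 100))) hε₂ hεθ hθw f6 (by positivity)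
    (fun η A A' q ρ σ M => h3 X η A A' q ρ σ M f5) h5 hz1 hBd hD1 a b ℓ q b' hℓ1 hℓa hab
    hb2 hB2 hq1 (le_trans hqm (Real.rpow_le_rpow_of_exponent_le f6 (by linarith))) hη hℓ3
    (Nat.log 2 ⌊X ^ θw⌋₊ + 1) (Nat.lt_pow_succ_log_self one_lt_two _).le
  refine le_trans hcore ?_
  have hqq : (q : ℝ) * q ≤ X ^ (2 * δm) := by
    calc (q : ℝ) * q ≤ X ^ δm * X ^ δm :=
          mul_le_mul hqm hqm (by positivity) (by positivity)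
      _ = X ^ (2 * δm) := by
          rw [← Real.rpow_add hXp]
          congr 1
          ring
  have g1 := IP6.first_bound X b ((Nat.log 2 ⌊X ^ θw⌋₊ + 1 : ℕ) : ℝ) ((q : ℝ) * q)
    1 ℓ a (2 * δm) δ₁ δw f6 hB2 (by positivity)
    (IP6.log_bound X _ f6 (by linarith)) (by positivity) hqq (by positivity) hB1
  have g2 := IK4.second_bound X b a ℓ C5
    (C2 * C0 * ((12 * X) ^ (δ₁ / 100) * (6 * X) ^ (δ₁ / 100))) δ₁ δ₅ f6 hδ₁ (by linarith)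
    hδ₅' hC5.le hab' hB4 hB1 hℓδ hℓ'
  have f3' : 24 * (2 * Real.log X + 1) ^ 2 * (1 : ℝ) ^ 2 *
      X ^ (1 + 2 * (2 * δm) + δ₁ - δw) ≤ X ^ (1 - δ₁ - δ₁ / 40) / 2 := by
    have e : (1 : ℝ) * (3 * X) ^ (0 : ℝ) = 1 := by rw [Real.rpow_zero, mul_one]
    rw [e] at f3
    exact f3
  have g3 := mul_le_mul_of_nonneg_left f3' (sq_nonneg (ℓ : ℝ))
  have g4 := mul_le_mul_of_nonneg_left f4 (sq_nonneg (ℓ : ℝ))
  have g5 : (1 : ℝ) ^ 2 * ((ℓ : ℝ) / a) ^ 2 * X ^ (2 - δw) = ((ℓ : ℝ) / a) ^ 2 * X ^ (2 - δw) := by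
    ring
  rw [g5] at g1
  linarith

end Pool.Agent.Work.MP_122e00_nt.TS
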