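import Pool.Agent.Work.MP_122e00_nt.TS.Stmts11
import Pool.Agent.Work.MP_122e00_nt.TS.I_K4

/-!
Item X6 of block TS: adjacent windows of `u`, shifts down to a power of `log X`.
-/

set_option autoImplicit false

namespace Pool.Agent.Work.MP_122e00_nt.TS

open Finset Filter Topology ArithmeticFunction MeasureTheory
open scoped ArithmeticFunction.zeta ArithmeticFunction.Moebius

namespace IX6

open IP6 IK4

/-- the deterministic part -/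
theorem core (r : ℕ) (z w X Bd C5 : ℝ) (hX : 1 ≤ X) (hz : 1 ≤ z) (hzw : z ≤ w)
    (hwX : X ^ (2 / 3 : ℝ) * w ≤ X) (a b ℓ q : ℕ) (b' : ℤ)
    (h3 : ∀ A A' ρ σ M : ℕ, z - 1 ≤ A → A ≤ A' → A' ≤ 2 * A →
      X ^ (2 / 3 : ℝ) ≤ M → (M : ℝ) ≤ 6 * X / A → (A : ℝ) ≤ (ℓ : ℝ) / a * X →
      ∫ u : ℝ, ‖∑ p ∈ ((Finset.Ioc A A').filter (fun a => a.Prime ∧ a % q = ρ % q)) ×ˢ
          ((Finset.Icc 1 M).filter (fun m => m % q = σ % q)),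
        (dr r p.2 : ℂ) * ((psi ((ℓ : ℝ) / a) (u - Real.log ((p.1 : ℝ) * p.2)) : ℝ) : ℂ)‖ ^ 2 ≤ Bd)
    (h5 : ∀ (c : ℕ → ℂ) (a b ℓ N : ℕ), 1 ≤ ℓ → 2 * ℓ ≤ a → a ≤ b →
      b ≤ 2 * a → b ≤ N →
      ∑ x ∈ Finset.Icc (a + 2 * ℓ) b, ‖∑ n ∈ Finset.Ioc (x - ℓ) x, c n -
        ∑ n ∈ Finset.Ioc (x - 2 * ℓ) (x - ℓ), c n‖ ^ 2 ≤
      8 * b * (∫ u : ℝ, ‖∑ n ∈ Finset.Icc 1 N,
        c n * ((psi ((ℓ : ℝ) / a) (u - Real.log n) : ℝ) : ℂ)‖ ^ 2) +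
        C5 * (1 + ℓ * ((b : ℝ) - a) / a + (ℓ : ℝ) ^ 2 / a) ^ 2 *
          ∑ n ∈ Finset.Ioc (a - 2 * ℓ) b, ‖c n‖ ^ 2)
    (hℓ1 : 1 ≤ ℓ) (hℓa : 2 * ℓ ≤ a) (hab : a ≤ b) (hb2 : b ≤ 2 * a)
    (hb3 : (b : ℝ) ≤ 3 * X) (hq1 : 1 ≤ q) (hℓ : 3 * w ≤ ℓ)
    (I : ℕ) (hI : ⌊w⌋₊ ≤ 2 ^ I) :
    ∑ x ∈ Finset.Icc (a + 2 * ℓ) b, ‖ws (up r z w) (b' / q) ℓ x -
      ws (up r z w) (b' / q) ℓ (x - ℓ)‖ ^ 2 ≤
    8 * b * (((I : ℝ) * (q * q)) ^ 2 * Bd) +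
      C5 * (1 + ℓ * ((b : ℝ) - a) / a + (ℓ : ℝ) ^ 2 / a) ^ 2 *
        ∑ n ∈ Finset.Ioc (a - 2 * ℓ) b, up r z w n ^ 2 := by
  have hX0 : (0 : ℝ) < X := by linarith
  have hw0 : 0 ≤ w := by linarith
  have h0 : 1 ≤ ⌊z⌋₊ := Nat.le_floor (by simpa using hz)
  have hw : ⌊z⌋₊ ≤ ⌊w⌋₊ := Nat.floor_le_floor hzw
  have haN : 1 ≤ a := by omega
  have ha0 : (0 : ℝ) < a := by exact_mod_cast haN
  have hη0 : (0 : ℝ) < (ℓ : ℝ) / a := by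
    apply div_pos _ ha0
    exact_mod_cast hℓ1
  have hAge : ∀ i, 1 ≤ Ai ⌊z⌋₊ ⌊w⌋₊ i := fun i => le_trans h0 (Ai_ge _ _ i hw)
  obtain ⟨M, hM⟩ : ∃ M : ℕ → ℕ, ∀ i, M i = ⌊6 * X / (Ai ⌊z⌋₊ ⌊w⌋₊ i : ℝ)⌋₊ :=
    ⟨fun i => ⌊6 * X / (Ai ⌊z⌋₊ ⌊w⌋₊ i : ℝ)⌋₊, fun i => rfl⟩
  have hMle : ∀ i, (M i : ℝ) ≤ 6 * X / (Ai ⌊z⌋₊ ⌊w⌋₊ i : ℝ) := by
    intro i
    rw [hM i]
    exact Nat.floor_le (by positivity)
  have hAw : ∀ i, (Ai ⌊z⌋₊ ⌊w⌋₊ i : ℝ) ≤ w := by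
    intro i
    refine le_trans ?_ (Nat.floor_le hw0)
    exact_mod_cast Ai_le _ _ _
  have hMge : ∀ i, X ^ (2 / 3 : ℝ) ≤ M i := by
    intro i
    have hp : (0 : ℝ) < (Ai ⌊z⌋₊ ⌊w⌋₊ i : ℝ) := by exact_mod_cast hAge i
    have e1 : 6 * X ^ (2 / 3 : ℝ) ≤ 6 * X / (Ai ⌊z⌋₊ ⌊w⌋₊ i : ℝ) := by
      rw [le_div_iff₀ hp]
      have e3 : X ^ (2 / 3 : ℝ) * (Ai ⌊z⌋₊ ⌊w⌋₊ i : ℝ) ≤
          X ^ (2 / 3 : ℝ) * w := mul_le_mul_of_nonneg_left (hAw i) (by positivity)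
      linarith
    have e4 : 6 * X / (Ai ⌊z⌋₊ ⌊w⌋₊ i : ℝ) - 1 ≤ (M i : ℝ) := by
      rw [hM i]
      exact (Nat.sub_one_lt_floor _).le
    have e5 : 1 ≤ X ^ (2 / 3 : ℝ) := Real.one_le_rpow hX (by norm_num)
    linarith
  have hN : ∀ i < I, Ai ⌊z⌋₊ ⌊w⌋₊ (i + 1) * M i ≤ ⌊12 * X⌋₊ := by
    intro i _
    apply Nat.le_floor
    have hp : (0 : ℝ) < (Ai ⌊z⌋₊ ⌊w⌋₊ i : ℝ) := by exact_mod_cast hAge i
    have h1 : (Ai ⌊z⌋₊ ⌊w⌋₊ (i + 1) : ℝ) ≤ 2 * (Ai ⌊z⌋₊ ⌊w⌋₊ i : ℝ) := by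
      exact_mod_cast Ai_double _ _ i
    push_cast
    calc (Ai ⌊z⌋₊ ⌊w⌋₊ (i + 1) : ℝ) * (M i : ℝ)
        ≤ (2 * (Ai ⌊z⌋₊ ⌊w⌋₊ i : ℝ)) *
          (6 * X / (Ai ⌊z⌋₊ ⌊w⌋₊ i : ℝ)) :=
          mul_le_mul h1 (hMle i) (by positivity) (by positivity)
      _ = 12 * X := IK4.two_mul_six _ X hp
  obtain ⟨c, hc⟩ : ∃ c : ℕ → ℂ, ∀ n, c n = if 1 ≤ n ∧ n ≤ ⌊12 * X⌋₊ then
      IK4.cc r ⌊z⌋₊ ⌊w⌋₊ I q b' M n else 0 := ⟨_, fun n => rfl⟩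
  have hb6 : b ≤ ⌊12 * X⌋₊ := by
    apply Nat.le_floor
    linarith
  have hcv : ∀ n, 1 ≤ n → n ≤ b → c n =
      (up r z w n : ℂ) * ee ((n : ℝ) * ((b' : ℝ) / q)) := by
    intro n hn1 hnb
    rw [hc n, if_pos ⟨hn1, le_trans hnb hb6⟩]
    apply IK4.cc_val r _ _ X I q b' M n hq1 hz hzw hI hn1 _ (fun i _ => hM i)
    refine le_trans ?_ hb3
    exact_mod_cast hnb
  have hmain := h5 c a b ℓ ⌊12 * X⌋₊ hℓ1 hℓa hab hb2 hb6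
  have hsq : ∑ n ∈ Finset.Ioc (a - 2 * ℓ) b, ‖c n‖ ^ 2 =
      ∑ n ∈ Finset.Ioc (a - 2 * ℓ) b, up r z w n ^ 2 := by
    apply Finset.sum_congr rfl
    intro n hn
    rw [Finset.mem_Ioc] at hn
    rw [hcv n (by omega) (by omega), norm_mul, IP6.norm_ee, mul_one, Complex.norm_real,
      Real.norm_eq_abs, sq_abs]
  rw [hsq] at hmain
  have hL : ∑ x ∈ Finset.Icc (a + 2 * ℓ) b, ‖ws (up r z w) (b' / q) ℓ x -
      ws (up r z w) (b' / q) ℓ (x - ℓ)‖ ^ 2 =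
      ∑ x ∈ Finset.Icc (a + 2 * ℓ) b, ‖∑ n ∈ Finset.Ioc (x - ℓ) x, c n -
        ∑ n ∈ Finset.Ioc (x - 2 * ℓ) (x - ℓ), c n‖ ^ 2 := by
    apply Finset.sum_congr rfl
    intro x hx
    rw [Finset.mem_Icc] at hx
    have e1 : ws (up r z w) (b' / q) ℓ x = ∑ n ∈ Finset.Ioc (x - ℓ) x, c n := by
      unfold ws
      apply Finset.sum_congr rfl
      intro n hn
      rw [Finset.mem_Ioc] at hn
      rw [hcv n (by omega) (by omega)]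
    have e2 : ws (up r z w) (b' / q) ℓ (x - ℓ) =
        ∑ n ∈ Finset.Ioc (x - 2 * ℓ) (x - ℓ), c n := by
      unfold ws
      have e3 : x - ℓ - ℓ = x - 2 * ℓ := by omega
      rw [e3]
      apply Finset.sum_congr rfl
      intro n hn
      rw [Finset.mem_Ioc] at hn
      rw [hcv n (by omega) (by omega)]
    rw [e1, e2]
  rw [hL]
  refine le_trans hmain ?_
  have hint : ∫ u : ℝ, ‖∑ n ∈ Finset.Icc 1 ⌊12 * X⌋₊,
        c n * ((psi ((ℓ : ℝ) / a) (u - Real.log n) : ℝ) : ℂ)‖ ^ 2 ≤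
      ((I : ℝ) * (q * q)) ^ 2 * Bd := by
    have e1 : (fun u : ℝ => ‖∑ n ∈ Finset.Icc 1 ⌊12 * X⌋₊,
        c n * ((psi ((ℓ : ℝ) / a) (u - Real.log n) : ℝ) : ℂ)‖ ^ 2) = fun u : ℝ =>
        ‖∑ j ∈ Finset.range I ×ˢ (Finset.range q ×ˢ Finset.range q),
          ee ((b' : ℝ) * j.2.1 * j.2.2 / q) *
          ∑ p ∈ ((Finset.Ioc (Ai ⌊z⌋₊ ⌊w⌋₊ j.1)
            (Ai ⌊z⌋₊ ⌊w⌋₊ (j.1 + 1))).filter
            (fun a => a.Prime ∧ a % q = j.2.1 % q)) ×ˢ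
            ((Finset.Icc 1 (M j.1)).filter (fun m => m % q = j.2.2 % q)),
            (dr r p.2 : ℂ) *
            ((psi ((ℓ : ℝ) / a) (u - Real.log ((p.1 : ℝ) * p.2)) : ℝ) : ℂ)‖ ^ 2 := by
      funext u
      have e2 := IK4.psi_sum r ⌊z⌋₊ ⌊w⌋₊ I q b' M ⌊12 * X⌋₊
        (fun n => ((psi ((ℓ : ℝ) / a) (u - Real.log n) : ℝ) : ℂ)) hN
      have e3 : ∑ n ∈ Finset.Icc 1 ⌊12 * X⌋₊,
          c n * ((psi ((ℓ : ℝ) / a) (u - Real.log n) : ℝ) : ℂ) =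
          ∑ n ∈ Finset.Icc 1 ⌊12 * X⌋₊, IK4.cc r ⌊z⌋₊ ⌊w⌋₊ I q b' M n *
            ((psi ((ℓ : ℝ) / a) (u - Real.log n) : ℝ) : ℂ) := by
        apply Finset.sum_congr rfl
        intro n hn
        rw [hc n, if_pos (Finset.mem_Icc.mp hn)]
      rw [e3, e2]
      simp only [Nat.cast_mul]
    rw [e1]
    have e4 := int_sum (Finset.range I ×ˢ (Finset.range q ×ˢ Finset.range q))
      (fun (j : ℕ × ℕ × ℕ) (u : ℝ) => ee ((b' : ℝ) * j.2.1 * j.2.2 / q) *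
          ∑ p ∈ ((Finset.Ioc (Ai ⌊z⌋₊ ⌊w⌋₊ j.1)
            (Ai ⌊z⌋₊ ⌊w⌋₊ (j.1 + 1))).filter
            (fun a => a.Prime ∧ a % q = j.2.1 % q)) ×ˢ
            ((Finset.Icc 1 (M j.1)).filter (fun m => m % q = j.2.2 % q)),
            (dr r p.2 : ℂ) *
            ((psi ((ℓ : ℝ) / a) (u - Real.log ((p.1 : ℝ) * p.2)) : ℝ) : ℂ))
      Bd ?_ ?_
    · rw [Finset.card_product, Finset.card_product, Finset.card_range, Finset.card_range] at e4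
      push_cast at e4
      exact e4
    · intro j _
      simp only [norm_mul, IP6.norm_ee, one_mul]
      exact psi_integrable _ (fun p : ℕ × ℕ => (dr r p.2 : ℂ))
        (fun p : ℕ × ℕ => Real.log ((p.1 : ℝ) * p.2)) _
    · intro j hj
      simp only [norm_mul, IP6.norm_ee, one_mul]
      have key := h3 (Ai ⌊z⌋₊ ⌊w⌋₊ j.1)
        (Ai ⌊z⌋₊ ⌊w⌋₊ (j.1 + 1)) j.2.1 j.2.2 (M j.1) ?_ (Ai_mono _ _ _)
        (Ai_double _ _ _) (hMge j.1) (hMle j.1) ?_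
      · simpa only [norm_mul] using key
      · have g1 : z - 1 ≤ (⌊z⌋₊ : ℝ) := (Nat.sub_one_lt_floor _).le
        have g2 : (⌊z⌋₊ : ℝ) ≤ (Ai ⌊z⌋₊ ⌊w⌋₊ j.1 : ℝ) := by
          exact_mod_cast Ai_ge _ _ j.1 hw
        linarith
      · have g3 : (a : ℝ) ≤ 3 * X := le_trans (by exact_mod_cast hab) hb3
        calc (Ai ⌊z⌋₊ ⌊w⌋₊ j.1 : ℝ) ≤ w := hAw _
          _ ≤ (ℓ : ℝ) / 3 := by linarith
          _ = (ℓ : ℝ) / a * (a / 3) := by field_simp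
          _ ≤ (ℓ : ℝ) / a * X := by
              apply mul_le_mul_of_nonneg_left _ hη0.le
              linarith
  have hb0 : (0 : ℝ) ≤ 8 * (b : ℝ) := by positivity
  have := mul_le_mul_of_nonneg_left hint hb0
  linarith

/-- powers of `log X` are absorbed by powers of `H` -/
theorem absorb (L H A₀ κ C' K : ℝ) (hL : 1 ≤ L) (hK : K ≤ L) (hκ : 0 < κ)
    (hA : (C' + 1) / κ ≤ A₀) (hH : L ^ A₀ ≤ H) : K * L ^ C' ≤ H ^ κ := by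
  have hL0 : 0 < L := by linarith
  have h1 : C' + 1 ≤ A₀ * κ := by rwa [div_le_iff₀ hκ] at hA
  calc K * L ^ C' ≤ L * L ^ C' := mul_le_mul_of_nonneg_right hK (by positivity)
    _ = L ^ (C' + 1) := by
        rw [Real.rpow_add hL0, Real.rpow_one]
        ring
    _ ≤ L ^ (A₀ * κ) := Real.rpow_le_rpow_of_exponent_le hL h1
    _ = (L ^ A₀) ^ κ := Real.rpow_mul hL0.le _ _
    _ ≤ H ^ κ := Real.rpow_le_rpow (by positivity) hH hκ.le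

theorem first_bound (X H L b I Q ℓ a δm δ₁ δw : ℝ) (hH : 1 ≤ H) (hX : 1 ≤ X) (hL : 1 ≤ L)
    (hδ₁ : 0 < δ₁) (hδ : δ₁ ≤ δm) (hδm : δm ≤ δw / 32) (hb : b ≤ 3 * X)
    (hI0 : 0 ≤ I) (hI : I ≤ 3 * L) (hq0 : 0 ≤ Q) (hq : Q ≤ H ^ (2 * δm))
    (_hℓ : 0 ≤ ℓ) (ha : X * H ^ (-(δ₁ / 2)) ≤ a)
    (habs : 432 * L ^ (2 : ℝ) ≤ H ^ (δw / 2)) :
    8 * b * ((I * Q) ^ 2 * ((ℓ / a) ^ 2 * X ^ 2 * H ^ (-δw))) ≤
      ℓ ^ 2 * X * H ^ (-δ₁ - δ₁ / 40) / 2 := by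
  have hH0 : 0 < H := by linarith
  have hX0 : 0 < X := by linarith
  have hpa : 0 < X * H ^ (-(δ₁ / 2)) := by positivity
  have ha0 : 0 < a := lt_of_lt_of_le hpa ha
  have h1 : (ℓ / a) ^ 2 * X ^ 2 ≤ ℓ ^ 2 * H ^ δ₁ := by
    have h2 : X / a ≤ H ^ (δ₁ / 2) := by
      rw [div_le_iff₀ ha0]
      calc X = H ^ (δ₁ / 2) * (X * H ^ (-(δ₁ / 2))) := by
            have : H ^ (δ₁ / 2) * H ^ (-(δ₁ / 2)) = 1 := by
              rw [← Real.rpow_add hH0, add_neg_cancel, Real.rpow_zero]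
            calc X = X * (H ^ (δ₁ / 2) * H ^ (-(δ₁ / 2))) := by rw [this, mul_one]
              _ = _ := by ring
        _ ≤ H ^ (δ₁ / 2) * a := mul_le_mul_of_nonneg_left ha (by positivity)
    calc (ℓ / a) ^ 2 * X ^ 2 = ℓ ^ 2 * (X / a) ^ 2 := by ring
      _ ≤ ℓ ^ 2 * (H ^ (δ₁ / 2)) ^ 2 := by
          apply mul_le_mul_of_nonneg_left _ (sq_nonneg _)
          exact pow_le_pow_left₀ (by positivity) h2 2
      _ = ℓ ^ 2 * (H ^ (δ₁ / 2) * H ^ (δ₁ / 2)) := by ring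
      _ = ℓ ^ 2 * H ^ δ₁ := by
          rw [← Real.rpow_add hH0]
          congr 2
          ring
  have h4 : (I * Q) ^ 2 ≤ 9 * L ^ 2 * H ^ (4 * δm) := by
    calc (I * Q) ^ 2 ≤ ((3 * L) * H ^ (2 * δm)) ^ 2 := by
          apply pow_le_pow_left₀ (by positivity)
          exact mul_le_mul hI hq hq0 (by positivity)
      _ = 9 * L ^ 2 * (H ^ (2 * δm) * H ^ (2 * δm)) := by ring
      _ = 9 * L ^ 2 * H ^ (4 * δm) := by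
          rw [← Real.rpow_add hH0]
          congr 2
          ring
  have h5 : H ^ (4 * δm) * (H ^ δ₁ * H ^ (-δw)) * H ^ (δw / 2) ≤ H ^ (-δ₁ - δ₁ / 40) := by
    rw [← Real.rpow_add hH0, ← Real.rpow_add hH0, ← Real.rpow_add hH0]
    apply Real.rpow_le_rpow_of_exponent_le hH
    linarith
  have hL2 : L ^ (2 : ℝ) = L ^ 2 := by
    rw [show (2 : ℝ) = ((2 : ℕ) : ℝ) by norm_num, Real.rpow_natCast]
  rw [hL2] at habs
  calc 8 * b * ((I * Q) ^ 2 * ((ℓ / a) ^ 2 * X ^ 2 * H ^ (-δw)))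
      ≤ 8 * (3 * X) * ((9 * L ^ 2 * H ^ (4 * δm)) * (ℓ ^ 2 * H ^ δ₁ * H ^ (-δw))) := by
        apply mul_le_mul (by linarith) _ (by positivity) (by positivity)
        apply mul_le_mul h4 _ (by positivity) (by positivity)
        exact mul_le_mul_of_nonneg_right h1 (by positivity)
    _ = ℓ ^ 2 * X * (H ^ (4 * δm) * (H ^ δ₁ * H ^ (-δw)) * (432 * L ^ 2)) / 2 := by ring
    _ ≤ ℓ ^ 2 * X * (H ^ (4 * δm) * (H ^ δ₁ * H ^ (-δw)) * H ^ (δw / 2)) / 2 := by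
        apply div_le_div_of_nonneg_right _ (by norm_num)
        apply mul_le_mul_of_nonneg_left _ (by positivity)
        exact mul_le_mul_of_nonneg_left habs (by positivity)
    _ ≤ ℓ ^ 2 * X * H ^ (-δ₁ - δ₁ / 40) / 2 := by
        apply div_le_div_of_nonneg_right _ (by norm_num)
        exact mul_le_mul_of_nonneg_left h5 (by positivity)

theorem second_bound (X H L S b a ℓ C5 C1 δ₁ : ℝ) (hH : 1 ≤ H) (hX : 1 ≤ X)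
    (hδ₁ : 0 < δ₁) (hδ : δ₁ ≤ 1) (hC5 : 0 ≤ C5) (hC1 : 0 ≤ C1) (hL : 1 ≤ L)
    (hab : a ≤ b) (hba : b ≤ a + X * H ^ (-δ₁))
    (ha : X * H ^ (-(δ₁ / 2)) ≤ a) (hℓ : H ^ (1 / 2 : ℝ) ≤ ℓ) (hℓ' : ℓ ≤ X * H ^ (-δ₁))
    (hS : S ≤ C1 * (2 * (X * H ^ (-δ₁))) * L ^ C1)
    (habs : 36 * C5 * C1 * L ^ C1 ≤ H ^ (δ₁ / 2)) :
    C5 * (1 + ℓ * (b - a) / a + ℓ ^ 2 / a) ^ 2 * S ≤ ℓ ^ 2 * X * H ^ (-δ₁ - δ₁ / 40) / 2 := by
  have hH0 : 0 < H := by linarith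
  have hX0 : 0 < X := by linarith
  have hpa : 0 < X * H ^ (-(δ₁ / 2)) := by positivity
  have ha0 : 0 < a := lt_of_lt_of_le hpa ha
  have hℓ0 : 0 < ℓ := lt_of_lt_of_le (by positivity) hℓ
  have hsplit : X * H ^ (-δ₁) ≤ H ^ (-(δ₁ / 2)) * a := by
    calc X * H ^ (-δ₁) = H ^ (-(δ₁ / 2)) * (X * H ^ (-(δ₁ / 2))) := by
          have : H ^ (-(δ₁ / 2)) * H ^ (-(δ₁ / 2)) = H ^ (-δ₁) := by
            rw [← Real.rpow_add hH0]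
            congr 1
            ring
          rw [← this]
          ring
      _ ≤ H ^ (-(δ₁ / 2)) * a := mul_le_mul_of_nonneg_left ha (by positivity)
  have g2 : 1 ≤ ℓ * H ^ (-(δ₁ / 2)) := by
    calc (1 : ℝ) ≤ H ^ (1 / 2 + -(δ₁ / 2)) := Real.one_le_rpow hH (by linarith)
      _ = H ^ (1 / 2 : ℝ) * H ^ (-(δ₁ / 2)) := Real.rpow_add hH0 _ _
      _ ≤ ℓ * H ^ (-(δ₁ / 2)) := mul_le_mul_of_nonneg_right hℓ (by positivity)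
  have g3 : ℓ * (b - a) / a ≤ ℓ * H ^ (-(δ₁ / 2)) := by
    rw [div_le_iff₀ ha0]
    calc ℓ * (b - a) ≤ ℓ * (X * H ^ (-δ₁)) := by
          apply mul_le_mul_of_nonneg_left (by linarith) hℓ0.le
      _ ≤ ℓ * (H ^ (-(δ₁ / 2)) * a) := mul_le_mul_of_nonneg_left hsplit hℓ0.le
      _ = ℓ * H ^ (-(δ₁ / 2)) * a := by ring
  have g4 : ℓ ^ 2 / a ≤ ℓ * H ^ (-(δ₁ / 2)) := by
    rw [div_le_iff₀ ha0]
    calc ℓ ^ 2 = ℓ * ℓ := by ring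
      _ ≤ ℓ * (X * H ^ (-δ₁)) := mul_le_mul_of_nonneg_left hℓ' hℓ0.le
      _ ≤ ℓ * (H ^ (-(δ₁ / 2)) * a) := mul_le_mul_of_nonneg_left hsplit hℓ0.le
      _ = ℓ * H ^ (-(δ₁ / 2)) * a := by ring
  have g5 : 0 ≤ ℓ * (b - a) / a := by
    apply div_nonneg _ ha0.le
    exact mul_nonneg hℓ0.le (by linarith)
  have g6 : 0 ≤ ℓ ^ 2 / a := by positivity
  have g7 : (1 + ℓ * (b - a) / a + ℓ ^ 2 / a) ^ 2 ≤ 9 * (ℓ ^ 2 * H ^ (-δ₁)) := by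
    calc (1 + ℓ * (b - a) / a + ℓ ^ 2 / a) ^ 2 ≤ (3 * (ℓ * H ^ (-(δ₁ / 2)))) ^ 2 := by
          apply pow_le_pow_left₀ (by linarith)
          linarith
      _ = 9 * (ℓ ^ 2 * (H ^ (-(δ₁ / 2)) * H ^ (-(δ₁ / 2)))) := by ring
      _ = 9 * (ℓ ^ 2 * H ^ (-δ₁)) := by
          rw [← Real.rpow_add hH0]
          congr 3
          ring
  have g8 : H ^ (-δ₁) * H ^ (-δ₁) * H ^ (δ₁ / 2) ≤ H ^ (-δ₁ - δ₁ / 40) := by
    rw [← Real.rpow_add hH0, ← Real.rpow_add hH0]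
    apply Real.rpow_le_rpow_of_exponent_le hH
    linarith
  have hLC : 0 ≤ L ^ C1 := by positivity
  calc C5 * (1 + ℓ * (b - a) / a + ℓ ^ 2 / a) ^ 2 * S
      ≤ C5 * (1 + ℓ * (b - a) / a + ℓ ^ 2 / a) ^ 2 * (C1 * (2 * (X * H ^ (-δ₁))) * L ^ C1) :=
        mul_le_mul_of_nonneg_left hS (by positivity)
    _ ≤ C5 * (9 * (ℓ ^ 2 * H ^ (-δ₁))) * (C1 * (2 * (X * H ^ (-δ₁))) * L ^ C1) := by
        apply mul_le_mul_of_nonneg_right _ (by positivity)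
        exact mul_le_mul_of_nonneg_left g7 hC5
    _ = ℓ ^ 2 * X * (H ^ (-δ₁) * H ^ (-δ₁) * (36 * C5 * C1 * L ^ C1)) / 2 := by ring
    _ ≤ ℓ ^ 2 * X * (H ^ (-δ₁) * H ^ (-δ₁) * H ^ (δ₁ / 2)) / 2 := by
        apply div_le_div_of_nonneg_right _ (by norm_num)
        apply mul_le_mul_of_nonneg_left _ (by positivity)
        exact mul_le_mul_of_nonneg_left habs (by positivity)
    _ ≤ ℓ ^ 2 * X * H ^ (-δ₁ - δ₁ / 40) / 2 := by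
        apply div_le_div_of_nonneg_right _ (by norm_num)
        exact mul_le_mul_of_nonneg_left g8 (by positivity)

end IX6

theorem prX6 (hX1 : tsX1) (hX2 : tsX2) (hX4 : tsX4) (hX5 : tsX5) : tsX6 := by
  intro r ε₂ δ₅ hr hε₂ hε₂' hδ₅ hδ₅'
  obtain ⟨δw, A4, X04, hδw, h4⟩ := hX4 r (ε₂ / 2) (δ₅ / 2) hr (by linarith) (by linarith)
    (by linarith) (by linarith)
  obtain ⟨C5, hC5, h5⟩ := hX5
  obtain ⟨δs, C1, hδs, hC1, h1⟩ := hX1 ((r + 1) * (r + 1)) (Nat.mul_pos (by omega) (by omega))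
  obtain ⟨δm, hδmdef⟩ : ∃ δm : ℝ, δm = min (min (δw / 32) (δ₅ / 4)) (δs / 2) := ⟨_, rfl⟩
  have hm1 : δm ≤ δw / 32 := by
    rw [hδmdef]; exact le_trans (min_le_left _ _) (min_le_left _ _)
  have hm2 : δm ≤ δ₅ / 4 := by
    rw [hδmdef]; exact le_trans (min_le_left _ _) (min_le_right _ _)
  have hm3 : δm ≤ δs / 2 := by rw [hδmdef]; exact min_le_right _ _
  have hm0 : 0 < δm := by
    rw [hδmdef]
    exact lt_min (lt_min (by linarith) (by linarith)) (by linarith)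
  refine ⟨δm, hm0, ?_⟩
  intro δ₁ hδ₁ hδ₁m
  -- the threshold for the exponent
  obtain ⟨A₀, hA₀⟩ : ∃ A₀ : ℝ, A₀ = max (max A4 ((2 + 1) / (δw / 2)))
      (max ((C1 + 1) / (δ₁ / 2)) (max ((0 + 1) / (ε₂ / 2)) ((0 + 1) / (1 / 4)))) := ⟨_, rfl⟩
  have a1 : A4 ≤ A₀ := by rw [hA₀]; exact le_trans (le_max_left _ _) (le_max_left _ _)
  have a2 : (2 + 1) / (δw / 2) ≤ A₀ := by
    rw [hA₀]; exact le_trans (le_max_right _ _) (le_max_left _ _)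
  have a3 : (C1 + 1) / (δ₁ / 2) ≤ A₀ := by
    rw [hA₀]; exact le_trans (le_max_left _ _) (le_max_right _ _)
  have a4 : (0 + 1) / (ε₂ / 2) ≤ A₀ := by
    rw [hA₀]
    exact le_trans (le_trans (le_max_left _ _) (le_max_right _ _)) (le_max_right _ _)
  have a5 : (0 + 1) / (1 / 4 : ℝ) ≤ A₀ := by
    rw [hA₀]
    exact le_trans (le_trans (le_max_right _ _) (le_max_right _ _)) (le_max_right _ _)
  have F1 := IP6.ev_const 2 (δ₅ - δ₁) (by linarith)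
  have F2 := IP6.ev_const 2 (δs - δ₁) (by linarith)
  have F3 : ∀ᶠ X : ℝ in atTop, max 432 (36 * C5 * C1) ≤ Real.log X :=
    Real.tendsto_log_atTop.eventually_ge_atTop _
  obtain ⟨X0, hX0⟩ := Filter.eventually_atTop.mp ((F1.and F2).and (F3.and
    ((eventually_ge_atTop X04).and (eventually_ge_atTop (3 : ℝ)))))
  refine ⟨A₀, X0, ?_⟩
  intro X H hX hHl hHX a b hBlk ℓ q b' hℓ hℓ' hq1 hqm
  obtain ⟨⟨f1, f2⟩, f3, f4, f5⟩ := hX0 X hX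
  obtain ⟨hB1, hB2, hB3, hB4⟩ := hBlk
  have hX1' : 1 ≤ X := by linarith
  have hXp : 0 < X := by linarith
  have hL432 : 432 ≤ Real.log X := le_trans (le_max_left _ _) f3
  have hLC : 36 * C5 * C1 ≤ Real.log X := le_trans (le_max_right _ _) f3
  have hL1 : 1 ≤ Real.log X := by linarith
  have hL2 : 2 ≤ Real.log X := by linarith
  have hL3 : 3 ≤ Real.log X := by linarith
  have hA0pos : 0 ≤ A₀ := by
    refine le_trans ?_ a5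
    norm_num
  have hH1 : 1 ≤ H := le_trans (Real.one_le_rpow hL1 hA0pos) hHl
  have hHp : 0 < H := by linarith
  have hHl4 : Real.log X ^ A4 ≤ H :=
    le_trans (Real.rpow_le_rpow_of_exponent_le hL1 a1) hHl
  have n1 : 432 * Real.log X ^ (2 : ℝ) ≤ H ^ (δw / 2) :=
    IX6.absorb _ H A₀ (δw / 2) 2 432 hL1 hL432 (by linarith) a2 hHl
  have n2 : 36 * C5 * C1 * Real.log X ^ C1 ≤ H ^ (δ₁ / 2) :=
    IX6.absorb _ H A₀ (δ₁ / 2) C1 _ hL1 hLC (by linarith) a3 hHl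
  have n3 : 2 ≤ H ^ (ε₂ / 2) := by
    have := IX6.absorb _ H A₀ (ε₂ / 2) 0 2 hL1 hL2 (by linarith) a4 hHl
    rwa [Real.rpow_zero, mul_one] at this
  have n4 : 3 ≤ H ^ (1 / 4 : ℝ) := by
    have := IX6.absorb _ H A₀ (1 / 4) 0 3 hL1 hL3 (by norm_num) a5 hHl
    rwa [Real.rpow_zero, mul_one] at this
  -- comparison of powers of `H` and of `X`
  have hneg : ∀ t : ℝ, 0 ≤ t → X ^ (-t) ≤ H ^ (-t) := by
    intro t ht
    rw [Real.rpow_neg hXp.le, Real.rpow_neg hHp.le]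
    apply inv_anti₀ (by positivity)
    exact Real.rpow_le_rpow hHp.le hHX ht
  have hXmul : ∀ t : ℝ, X * X ^ (-t) = X ^ (1 - t) := by
    intro t
    rw [sub_eq_add_neg, Real.rpow_add hXp, Real.rpow_one]
  have hXH : X ^ (1 - δ₁ / 2) ≤ X * H ^ (-(δ₁ / 2)) := by
    rw [← hXmul]
    exact mul_le_mul_of_nonneg_left (hneg _ (by linarith)) hXp.le
  have hXH1 : X ^ (1 - δ₁) ≤ X * H ^ (-δ₁) := by
    rw [← hXmul]
    exact mul_le_mul_of_nonneg_left (hneg _ hδ₁.le) hXp.le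
  have hℓw : 3 * H ^ (1 / 4 : ℝ) ≤ ℓ := by
    calc 3 * H ^ (1 / 4 : ℝ) ≤ H ^ (1 / 4 : ℝ) * H ^ (1 / 4 : ℝ) :=
          mul_le_mul_of_nonneg_right n4 (by positivity)
      _ = H ^ (1 / 2 : ℝ) := by
          rw [← Real.rpow_add hHp]
          congr 1
          norm_num
      _ ≤ ℓ := hℓ
  have hℓ1 : 1 ≤ ℓ := by
    have : (1 : ℝ) ≤ ℓ := le_trans (Real.one_le_rpow hH1 (by norm_num)) hℓ
    exact_mod_cast this
  have hdiff : (0 : ℝ) < X * H ^ (-δ₁) / 2 := by positivity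
  have hab' : (a : ℝ) ≤ b := by linarith
  have hab : a ≤ b := by exact_mod_cast hab'
  have hHH : X * H ^ (-δ₁) ≤ X * H ^ (-(δ₁ / 2)) := by
    apply mul_le_mul_of_nonneg_left _ hXp.le
    exact Real.rpow_le_rpow_of_exponent_le hH1 (by linarith)
  have hb2 : b ≤ 2 * a := by
    have : (b : ℝ) ≤ 2 * a := by linarith
    exact_mod_cast this
  -- `2ℓ ≤ X H^(-δ₁)`
  have hℓ2 : 2 * (ℓ : ℝ) ≤ X * H ^ (-δ₁) := by
    calc 2 * (ℓ : ℝ) ≤ X ^ (δ₅ - δ₁) * X ^ (1 - δ₅) :=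
          mul_le_mul f1 hℓ' (by positivity) (by positivity)
      _ = X ^ (1 - δ₁) := by
          rw [← Real.rpow_add hXp]
          congr 1
          ring
      _ ≤ X * H ^ (-δ₁) := hXH1
  have hℓa : 2 * ℓ ≤ a := by
    have h1 : (2 : ℝ) * ℓ ≤ a := by linarith
    exact_mod_cast h1
  have ha0 : (0 : ℝ) < a := lt_of_lt_of_le (by positivity) hB1
  have hη : (ℓ : ℝ) / a ≤ X ^ (-(δ₅ / 2)) := by
    rw [div_le_iff₀ ha0]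
    calc (ℓ : ℝ) ≤ X ^ (1 - δ₅) := hℓ'
      _ ≤ X ^ (-(δ₅ / 2) + (1 - δ₁ / 2)) :=
          Real.rpow_le_rpow_of_exponent_le hX1' (by linarith)
      _ = X ^ (-(δ₅ / 2)) * X ^ (1 - δ₁ / 2) := Real.rpow_add hXp _ _
      _ ≤ X ^ (-(δ₅ / 2)) * a := mul_le_mul_of_nonneg_left (le_trans hXH hB1) (by positivity)
  have hz : 1 ≤ H ^ ε₂ := Real.one_le_rpow hH1 hε₂.le
  have hzw : H ^ ε₂ ≤ H ^ (1 / 4 : ℝ) := Real.rpow_le_rpow_of_exponent_le hH1 hε₂'.le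
  have hz1 : H ^ (ε₂ / 2) ≤ H ^ ε₂ - 1 := by
    have h1 : H ^ ε₂ = H ^ (ε₂ / 2) * H ^ (ε₂ / 2) := by
      rw [← Real.rpow_add hHp]
      congr 1
      ring
    rw [h1]
    nlinarith
  have hwX : X ^ (2 / 3 : ℝ) * H ^ (1 / 4 : ℝ) ≤ X := by
    calc X ^ (2 / 3 : ℝ) * H ^ (1 / 4 : ℝ) ≤ X ^ (2 / 3 : ℝ) * X ^ (1 / 4 : ℝ) := by
          apply mul_le_mul_of_nonneg_left _ (by positivity)
          exact Real.rpow_le_rpow hHp.le hHX (by norm_num)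
      _ = X ^ (2 / 3 + 1 / 4 : ℝ) := (Real.rpow_add hXp _ _).symm
      _ ≤ X ^ (1 : ℝ) := Real.rpow_le_rpow_of_exponent_le hX1' (by norm_num)
      _ = X := Real.rpow_one X
  have hcore := IX6.core r (H ^ ε₂) (H ^ (1 / 4 : ℝ)) X
    (((ℓ : ℝ) / a) ^ 2 * X ^ (2 : ℕ) * H ^ (-δw)) C5 hX1' hz hzw hwX a b ℓ q b'
    (fun A A' ρ σ M hA hAA' hA2 hM1 hM2 hA3 => h4 X H ((ℓ : ℝ) / a) A A' q ρ σ M f4 hHl4 hHX
      (le_trans hz1 hA) hAA' hA2 hq1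
      (le_trans hqm (Real.rpow_le_rpow_of_exponent_le hH1 (by linarith))) hM1 hM2 hA3 hη)
    h5 hℓ1 hℓa hab hb2 hB2 hq1 hℓw
    (Nat.log 2 ⌊H ^ (1 / 4 : ℝ)⌋₊ + 1) (Nat.lt_pow_succ_log_self one_lt_two _).le
  refine le_trans hcore ?_
  -- first term
  have hI : ((Nat.log 2 ⌊H ^ (1 / 4 : ℝ)⌋₊ + 1 : ℕ) : ℝ) ≤ 3 * Real.log X := by
    have g1 := IP6.log_bound H (1 / 4) hH1 (by norm_num)
    have g2 : Real.log H ≤ Real.log X := Real.log_le_log hHp hHX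
    linarith
  have hqq : (q : ℝ) * q ≤ H ^ (2 * δm) := by
    calc (q : ℝ) * q ≤ H ^ δm * H ^ δm :=
          mul_le_mul hqm hqm (by positivity) (by positivity)
      _ = H ^ (2 * δm) := by
          rw [← Real.rpow_add hHp]
          congr 1
          ring
  have g1 := IX6.first_bound X H (Real.log X) b
    ((Nat.log 2 ⌊H ^ (1 / 4 : ℝ)⌋₊ + 1 : ℕ) : ℝ) ((q : ℝ) * q) ℓ a δm δ₁ δw hH1 hX1' hL1 hδ₁
    hδ₁m hm1 hB2 (by positivity) hI (by positivity) hqq (by positivity) hB1 n1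
  -- second term
  have hsum : ∑ n ∈ Finset.Ioc (a - 2 * ℓ) b, up r (H ^ ε₂) (H ^ (1 / 4 : ℝ)) n ^ 2 ≤
      C1 * (2 * (X * H ^ (-δ₁))) * Real.log X ^ C1 := by
    have e1 : ∑ n ∈ Finset.Ioc (a - 2 * ℓ) b, up r (H ^ ε₂) (H ^ (1 / 4 : ℝ)) n ^ 2 ≤
        ∑ n ∈ Finset.Ioc (a - 2 * ℓ) b, dr ((r + 1) * (r + 1)) n := by
      apply Finset.sum_le_sum
      intro n hn
      rw [Finset.mem_Ioc] at hn
      have hn1 : 1 ≤ n := by omega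
      obtain ⟨u0, u1⟩ := hX2.2.2 r n (H ^ ε₂) (H ^ (1 / 4 : ℝ)) hn1
      calc up r (H ^ ε₂) (H ^ (1 / 4 : ℝ)) n ^ 2 ≤ dr (r + 1) n ^ 2 :=
            pow_le_pow_left₀ u0 u1 2
        _ = dr (r + 1) n * dr (r + 1) n := by ring
        _ ≤ dr ((r + 1) * (r + 1)) n := hX2.1 (r + 1) (r + 1) n (by omega) (by omega)
    have ecast : ((a - 2 * ℓ : ℕ) : ℝ) = (a : ℝ) - 2 * ℓ := by
      rw [Nat.cast_sub hℓa]
      push_cast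
      ring
    have e2 := h1 X (a - 2 * ℓ) b f5 (by omega) hB2 (by
      rw [ecast]
      have e3 : X ^ (1 - δs) ≤ X ^ (1 - δ₁) / 2 := by
        rw [le_div_iff₀ (by norm_num)]
        calc X ^ (1 - δs) * 2 ≤ X ^ (1 - δs) * X ^ (δs - δ₁) :=
              mul_le_mul_of_nonneg_left f2 (by positivity)
          _ = X ^ (1 - δ₁) := by
              rw [← Real.rpow_add hXp]
              congr 1
              ring
      have e4 : (0 : ℝ) ≤ ℓ := by positivity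
      linarith)
    refine le_trans e1 (le_trans e2 ?_)
    rw [ecast]
    have hLpos : 0 ≤ Real.log X ^ C1 := by positivity
    apply mul_le_mul_of_nonneg_right _ hLpos
    apply mul_le_mul_of_nonneg_left _ hC1.le
    linarith
  have g2 := IX6.second_bound X H (Real.log X)
    (∑ n ∈ Finset.Ioc (a - 2 * ℓ) b, up r (H ^ ε₂) (H ^ (1 / 4 : ℝ)) n ^ 2) b a ℓ C5 C1 δ₁
    hH1 hX1' hδ₁ (by linarith) hC5.le hC1.le hL1 hab' hB4 hB1 hℓ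
    (by
      have e4 : (0 : ℝ) ≤ ℓ := by positivity
      linarith) hsum n2
  linarith

end Pool.Agent.Work.MP_122e00_nt.TS
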