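import Pool.Agent.Work.MP_122e00_nt.TS.Stmts11

/-!
# Item X7: the mean of `u(n) e(a n / q)` (copy of the proof of item K6)
-/

namespace Pool.Agent.Work.MP_122e00_nt.TS

open Finset Filter Topology ArithmeticFunction MeasureTheory
open scoped ArithmeticFunction.zeta ArithmeticFunction.Moebius

namespace IX7

theorem mem_PW {z w : ℝ} {p : ℕ} (hp : p ∈ PW z w) : p.Prime ∧ z < (p : ℝ) ∧ (p : ℝ) ≤ w := by
  rw [PW, Finset.mem_filter, Finset.mem_Icc] at hp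
  have hw : 0 ≤ w := by
    by_contra h
    push Not at h
    rw [Nat.floor_of_nonpos h.le] at hp
    omega
  exact ⟨hp.2.1, hp.2.2, (Nat.cast_le.2 hp.1.2).trans (Nat.floor_le hw)⟩

theorem SS_up (r : ℕ) (z w : ℝ) (N : ℕ) (α : ℝ) :
    SS (up r z w) N α = ∑ p ∈ PW z w, SS (dr r) (N / p) (p * α) := by
  have h1 : SS (up r z w) N α = ∑ n ∈ Finset.Icc 1 N, ∑ p ∈ PW z w,
      if p ∣ n then (dr r (n / p) : ℂ) * ee (n * α) else 0 := by
    rw [SS]
    refine Finset.sum_congr rfl fun n _ => ?_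
    rw [up, Finset.sum_filter]
    push_cast
    rw [Finset.sum_mul]
    refine Finset.sum_congr rfl fun p _ => ?_
    split_ifs
    · rfl
    · simp
  rw [h1, Finset.sum_comm]
  refine Finset.sum_congr rfl fun p hp => ?_
  have hp0 : 0 < p := (mem_PW hp).1.pos
  rw [← Finset.sum_filter, SS]
  refine Finset.sum_nbij' (fun n => n / p) (fun m => p * m) ?_ ?_ ?_ ?_ ?_
  · intro n hn
    rw [Finset.mem_filter, Finset.mem_Icc] at hn
    obtain ⟨⟨h1, h2⟩, m, rfl⟩ := hn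
    rw [Nat.mul_div_cancel_left _ hp0, Finset.mem_Icc]
    have hm : 0 < m := by
      rcases Nat.eq_zero_or_pos m with h | h
      · subst h; simp at h1
      · exact h
    exact ⟨hm, (Nat.le_div_iff_mul_le hp0).2 (by rwa [mul_comm])⟩
  · intro m hm
    rw [Finset.mem_Icc] at hm
    rw [Finset.mem_filter, Finset.mem_Icc]
    refine ⟨⟨Nat.mul_pos hp0 hm.1, ?_⟩, dvd_mul_right _ _⟩
    have := (Nat.le_div_iff_mul_le hp0).1 hm.2
    rwa [mul_comm] at this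
  · intro n hn
    rw [Finset.mem_filter] at hn
    exact Nat.mul_div_cancel' hn.2
  · intro m _
    exact Nat.mul_div_cancel_left _ hp0
  · intro n hn
    rw [Finset.mem_filter] at hn
    obtain ⟨_, m, rfl⟩ := hn
    simp only [Nat.mul_div_cancel_left _ hp0]
    congr 2
    push_cast
    ring

theorem eval_Eu (E : ℕ → Polynomial ℝ) (z w y : ℝ) (q : ℕ) :
    (Eu E z w q).eval y = ∑ p ∈ PW z w, 1 / (p : ℝ) * (E q).eval (y - Real.log p) := by
  rw [Eu, Polynomial.eval_finsetSum]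
  refine Finset.sum_congr rfl fun p _ => ?_
  simp [Polynomial.eval_comp]

theorem sum_inv_le {z w : ℝ} (hw : 1 ≤ w) :
    ∑ p ∈ PW z w, 1 / (p : ℝ) ≤ 1 + Real.log w := by
  have h1 : ∑ p ∈ PW z w, 1 / (p : ℝ) ≤ ∑ p ∈ Finset.Icc 1 ⌊w⌋₊, 1 / (p : ℝ) := by
    apply Finset.sum_le_sum_of_subset_of_nonneg (Finset.filter_subset _ _)
    intro i _ _
    positivity
  have h2 : ∑ p ∈ Finset.Icc 1 ⌊w⌋₊, 1 / (p : ℝ) = ((harmonic ⌊w⌋₊ : ℚ) : ℝ) := by
    rw [harmonic_eq_sum_Icc]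
    push_cast
    refine Finset.sum_congr rfl fun p _ => ?_
    rw [one_div]
  have h3 := harmonic_floor_le_one_add_log w hw
  linarith

theorem log_small (c : ℝ) (hc : 0 < c) : ∃ X0 : ℝ, 1 ≤ X0 ∧ ∀ X : ℝ, X0 ≤ X →
    1 + Real.log X ≤ X ^ c := by
  have h1 : (fun X : ℝ => 1 + Real.log X) =o[atTop] fun X => X ^ c := by
    apply Asymptotics.IsLittleO.add
    · apply (Asymptotics.isLittleO_const_left_of_ne (one_ne_zero (α := ℝ))).2
      exact tendsto_norm_atTop_atTop.comp (tendsto_rpow_atTop hc)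
    · exact isLittleO_log_rpow_atTop hc
  have h2 := h1.bound (one_pos)
  obtain ⟨X0, hX0⟩ := Filter.eventually_atTop.1 h2
  refine ⟨max X0 1, le_max_right _ _, fun X hX => ?_⟩
  have h3 := hX0 X ((le_max_left _ _).trans hX)
  have hX1 : 1 ≤ X := (le_max_right _ _).trans hX
  rw [Real.norm_eq_abs, Real.norm_eq_abs, one_mul] at h3
  have h4 : 0 ≤ X ^ c := Real.rpow_nonneg (by linarith) _
  rw [abs_of_nonneg h4] at h3
  exact (le_abs_self _).trans h3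

end IX7

open IX7 in
/-- Item X7. -/
theorem prX7 : tsX7 := by
  intro r E hr hAP _
  obtain ⟨-, -, c₀, C₀, hc0, hc1, hC0, hA⟩ := hAP
  obtain ⟨X1, hX1, hlog⟩ := log_small (c₀ / 4) (by positivity)
  refine ⟨c₀ / 2, 3 * C₀, X1, by positivity, by linarith, by positivity, ?_⟩
  intro X x z w q a hX hx1 hx2 hw1 hwX hq hqX ha
  have hXone : 1 ≤ X := hX1.trans hX
  have hX0 : 0 < X := by linarith
  have hw0 : 0 < w := by linarith
  have hwx : w ≤ x := by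
    refine hwX.trans (le_trans ?_ hx1)
    exact Real.rpow_le_rpow_of_exponent_le hXone (by norm_num)
  have hx0 : 0 < x := by linarith
  have hqR : (1 : ℝ) ≤ q := by exact_mod_cast hq
  rw [SS_up, eval_Eu, Finset.mul_sum]
  push_cast
  rw [← Finset.sum_sub_distrib]
  have hterm : ∀ p ∈ PW z w, ‖SS (dr r) (⌊x⌋₊ / p) (p * ((a : ℝ) / q)) -
      (x : ℂ) * (1 / (p : ℂ) * (((E q).eval (Real.log x - Real.log p) : ℝ) : ℂ))‖ ≤
      C₀ * (q : ℝ) ^ C₀ * (x ^ (1 - c₀) * w ^ c₀) * (1 / (p : ℝ)) := by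
    intro p hp
    obtain ⟨hpp, hpz, hpw⟩ := mem_PW hp
    have hp0 : (0 : ℝ) < p := by exact_mod_cast hpp.pos
    have hcop : IsCoprime ((p : ℤ) * a) (q : ℤ) := by
      apply IsCoprime.mul_left _ ha
      rw [Nat.isCoprime_iff_coprime]
      apply (Nat.Prime.coprime_iff_not_dvd hpp).2
      intro hdvd
      have h1 := Nat.le_of_dvd (by omega) hdvd
      have h2 : (p : ℝ) ≤ q := by exact_mod_cast h1
      linarith
    have hxp : 1 ≤ x / p := by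
      rw [le_div_iff₀ hp0]
      linarith
    have h1 := hA q ((p : ℤ) * a) (x / p) hq hcop hxp
    have h2 : ⌊x / p⌋₊ = ⌊x⌋₊ / p := Nat.floor_div_natCast x p
    have h3 : ((((p : ℤ) * a : ℤ) : ℝ) / (q : ℝ)) = (p : ℝ) * ((a : ℝ) / q) := by
      push_cast
      ring
    rw [h2, h3, Real.log_div hx0.ne' hp0.ne'] at h1
    have h4 : (((x / p * (E q).eval (Real.log x - Real.log p) : ℝ)) : ℂ) =
        (x : ℂ) * (1 / (p : ℂ) * (((E q).eval (Real.log x - Real.log p) : ℝ) : ℂ)) := by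
      push_cast
      ring
    rw [h4] at h1
    refine h1.trans ?_
    have h5 : (x / p) ^ (1 - c₀) ≤ x ^ (1 - c₀) * w ^ c₀ * (1 / (p : ℝ)) := by
      rw [Real.div_rpow hx0.le hp0.le, div_eq_mul_inv, ← Real.rpow_neg hp0.le]
      have h6 : (p : ℝ) ^ (-(1 - c₀)) = (p : ℝ) ^ c₀ * (1 / (p : ℝ)) := by
        have : -(1 - c₀) = c₀ + (-1 : ℝ) := by ring
        rw [this, Real.rpow_add hp0, Real.rpow_neg_one, one_div]
      rw [h6]
      have h7 : (p : ℝ) ^ c₀ ≤ w ^ c₀ := Real.rpow_le_rpow hp0.le hpw hc0.le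
      have h8 : 0 ≤ x ^ (1 - c₀) := Real.rpow_nonneg hx0.le _
      have h9 : 0 ≤ 1 / (p : ℝ) := by positivity
      calc x ^ (1 - c₀) * ((p : ℝ) ^ c₀ * (1 / (p : ℝ)))
          ≤ x ^ (1 - c₀) * (w ^ c₀ * (1 / (p : ℝ))) := by gcongr
        _ = _ := by ring
    have h10 : 0 ≤ C₀ * (q : ℝ) ^ C₀ := by positivity
    calc C₀ * (q : ℝ) ^ C₀ * (x / p) ^ (1 - c₀)
        ≤ C₀ * (q : ℝ) ^ C₀ * (x ^ (1 - c₀) * w ^ c₀ * (1 / (p : ℝ))) := by gcongr
      _ = _ := by ring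
  refine (norm_sum_le _ _).trans ((Finset.sum_le_sum hterm).trans ?_)
  rw [← Finset.mul_sum]
  have hs := sum_inv_le (z := z) hw1
  have hlw : 1 + Real.log w ≤ X ^ (c₀ / 4) := by
    refine le_trans ?_ (hlog X hX)
    have h1 : Real.log w ≤ Real.log X := by
      apply Real.log_le_log hw0
      refine hwX.trans ?_
      have := Real.rpow_le_rpow_of_exponent_le hXone (by norm_num : (1 / 4 : ℝ) ≤ 1)
      simpa using this
    linarith
  have hwc : w ^ c₀ ≤ X ^ (c₀ / 4) := by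
    have h1 : w ^ c₀ ≤ (X ^ (1 / 4 : ℝ)) ^ c₀ := Real.rpow_le_rpow hw0.le hwX hc0.le
    rw [← Real.rpow_mul hX0.le] at h1
    refine h1.trans (Real.rpow_le_rpow_of_exponent_le hXone ?_)
    linarith
  have hxc : x ^ (1 - c₀) ≤ 3 * X ^ (1 - c₀) := by
    have h1 : x ^ (1 - c₀) ≤ (3 * X) ^ (1 - c₀) := Real.rpow_le_rpow hx0.le hx2 (by linarith)
    rw [Real.mul_rpow (by norm_num) hX0.le] at h1
    have h2 : (3 : ℝ) ^ (1 - c₀) ≤ 3 := by
      have : (3 : ℝ) ^ (1 - c₀) ≤ (3 : ℝ) ^ (1 : ℝ) :=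
        Real.rpow_le_rpow_of_exponent_le (by norm_num) (by linarith)
      simpa using this
    have h3 : 0 ≤ X ^ (1 - c₀) := Real.rpow_nonneg hX0.le _
    nlinarith
  have hqC : (q : ℝ) ^ C₀ ≤ (q : ℝ) ^ (3 * C₀) :=
    Real.rpow_le_rpow_of_exponent_le hqR (by linarith)
  have hXe : 3 * X ^ (1 - c₀) * X ^ (c₀ / 4) * X ^ (c₀ / 4) = 3 * X ^ (1 - c₀ / 2) := by
    rw [mul_assoc, mul_assoc, ← Real.rpow_add hX0, ← Real.rpow_add hX0]
    congr 2
    ring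
  have hsnn : 0 ≤ ∑ p ∈ PW z w, 1 / (p : ℝ) := Finset.sum_nonneg fun p _ => by positivity
  have hwnn : 0 ≤ w ^ c₀ := Real.rpow_nonneg hw0.le _
  have hxnn : 0 ≤ x ^ (1 - c₀) := Real.rpow_nonneg hx0.le _
  have hXnn : 0 ≤ X ^ (1 - c₀) := Real.rpow_nonneg hX0.le _
  have hXnn2 : 0 ≤ X ^ (1 - c₀ / 2) := Real.rpow_nonneg hX0.le _
  have hqnn : 0 ≤ (q : ℝ) ^ C₀ := by positivity
  calc C₀ * (q : ℝ) ^ C₀ * (x ^ (1 - c₀) * w ^ c₀) * ∑ p ∈ PW z w, 1 / (p : ℝ)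
      ≤ C₀ * (q : ℝ) ^ C₀ * ((3 * X ^ (1 - c₀)) * X ^ (c₀ / 4)) * X ^ (c₀ / 4) := by
        gcongr
        exact hs.trans hlw
    _ = C₀ * (q : ℝ) ^ C₀ * (3 * X ^ (1 - c₀ / 2)) := by rw [← hXe]; ring
    _ = 3 * C₀ * (q : ℝ) ^ C₀ * X ^ (1 - c₀ / 2) := by ring
    _ ≤ 3 * C₀ * (q : ℝ) ^ (3 * C₀) * X ^ (1 - c₀ / 2) := by gcongr

end Pool.Agent.Work.MP_122e00_nt.TS
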