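import Pool.Agent.Work.MP_122e00_nt.TS.Stmts11
import Pool.Agent.Work.MP_122e00_nt.TS.I_U2

/-!
# Thin shifts, item X8: windows of `u` at rational frequencies against the main term, scale `H`
-/

set_option autoImplicit false

namespace Pool.Agent.Work.MP_122e00_nt.TS

open Finset Filter Topology ArithmeticFunction
open scoped ArithmeticFunction.zeta ArithmeticFunction.Moebius

namespace IX8

/-- a power of the logarithm is at most a small power of `H` -/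
theorem ev_logH (K : ℝ) (k : ℕ) (e : ℝ) (he : 0 < e) : ∃ A : ℝ, 0 ≤ A ∧
    ∀ᶠ X : ℝ in atTop, ∀ H : ℝ, Real.log X ^ A ≤ H →
      K * (1 + Real.log (6 * X)) ^ k ≤ H ^ e := by
  refine ⟨(k + 1) / e, by positivity, ?_⟩
  filter_upwards [eventually_ge_atTop (Real.exp 1),
    Real.tendsto_log_atTop.eventually_ge_atTop (|K| * 7 ^ k)] with X hX1 hX2 H hH
  have hXpos : 0 < X := lt_of_lt_of_le (Real.exp_pos 1) hX1
  have hl1 : 1 ≤ Real.log X := by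
    have h := Real.log_le_log (Real.exp_pos 1) hX1
    rwa [Real.log_exp] at h
  have hl0 : 0 < Real.log X := by linarith
  have h6 : Real.log 6 ≤ 6 - 1 := Real.log_le_sub_one_of_pos (by norm_num)
  have h7 : 1 + Real.log (6 * X) ≤ 7 * Real.log X := by
    rw [Real.log_mul (by norm_num) hXpos.ne']
    linarith
  have h8 : 0 ≤ 1 + Real.log (6 * X) := by
    rw [Real.log_mul (by norm_num) hXpos.ne']
    have : 0 ≤ Real.log 6 := Real.log_nonneg (by norm_num)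
    linarith
  have h9 : Real.log X ^ (k + 1) ≤ H ^ e := by
    have e1 : Real.log X ^ (k + 1) = (Real.log X ^ (((k : ℝ) + 1) / e)) ^ e := by
      rw [← Real.rpow_mul hl0.le, div_mul_cancel₀ _ he.ne']
      rw [← Real.rpow_natCast]
      congr 1
      push_cast
      ring
    rw [e1]
    exact Real.rpow_le_rpow (Real.rpow_nonneg hl0.le _) hH he.le
  refine le_trans ?_ h9
  calc K * (1 + Real.log (6 * X)) ^ k ≤ |K| * (7 * Real.log X) ^ k :=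
        mul_le_mul (le_abs_self K) (pow_le_pow_left₀ h8 h7 k) (pow_nonneg h8 k) (abs_nonneg K)
    _ = (|K| * 7 ^ k) * Real.log X ^ k := by rw [mul_pow]; ring
    _ ≤ Real.log X * Real.log X ^ k := mul_le_mul_of_nonneg_right hX2 (by positivity)
    _ = Real.log X ^ (k + 1) := by rw [pow_succ]; ring

end IX8

/-- X8. Windows of `u` at rational frequencies against the main term, scale `H`. -/
theorem prX8 (hK5 : tsK5) (hK7 : tsK7) (hX6 : tsX6) (hX7 : tsX7) : tsX8 := by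
  intro r E hr hAP hCB ε₂ θ₂ hε₂ hε4 hθ0 hθ
  obtain ⟨c, CA, X6, hc0, hc4, hCA, hAPb⟩ := hX7 r E hr hAP hCB
  have hdeg0 := hAP.1
  obtain ⟨hdeg, hco⟩ := hK5 r E hr hdeg0 hCB
  obtain ⟨CB1, hCB10, hCB1⟩ := hco 1 one_pos
  obtain ⟨δ₅, hδ₅0, h51, h52, h53⟩ : ∃ δ₅ : ℝ, 0 < δ₅ ∧ δ₅ ≤ c / 4 ∧ δ₅ ≤ (1 - θ₂) / 2 ∧
      δ₅ ≤ 1 / 20 := by
    refine ⟨min (c / 4) (min ((1 - θ₂) / 2) (1 / 20)), ?_, min_le_left _ _,
      (min_le_right _ _).trans (min_le_left _ _), (min_le_right _ _).trans (min_le_right _ _)⟩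
    refine lt_min (by positivity) (lt_min (by linarith) (by norm_num))
  obtain ⟨δu, hδu0, hU⟩ := hX6 r ε₂ δ₅ hr hε₂ hε4 hδ₅0 h53
  obtain ⟨δm, hδm0, hm1, hm2, hm3, hm4⟩ : ∃ δm : ℝ, 0 < δm ∧ δm ≤ δu ∧ δm ≤ c / (4 * CA) ∧
      δm ≤ δ₅ / 4 ∧ δm ≤ ε₂ / 2 := by
    refine ⟨min δu (min (c / (4 * CA)) (min (δ₅ / 4) (ε₂ / 2))), ?_, min_le_left _ _,
      (min_le_right _ _).trans (min_le_left _ _),
      (min_le_right _ _).trans ((min_le_right _ _).trans (min_le_left _ _)),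
      (min_le_right _ _).trans ((min_le_right _ _).trans (min_le_right _ _))⟩
    refine lt_min hδu0 (lt_min (by positivity) (lt_min (by positivity) (by positivity)))
  refine ⟨δm, hδm0, fun δ₁ hδ₁ hδ₁m => ?_⟩
  have hδ₁5 : δ₁ ≤ δ₅ / 4 := hδ₁m.trans hm3
  obtain ⟨B1, X1, hX1⟩ := hU δ₁ hδ₁ (hδ₁m.trans hm1)
  obtain ⟨B2, hB20, hB2ev⟩ := IX8.ev_logH 8 2 (δ₁ / 120) (by positivity)
  obtain ⟨CL, hCL0, hCL⟩ := hK7 r E hr hdeg0 hCB (δ₅ / 8) (by positivity)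
  obtain ⟨d, hd⟩ : ∃ d : ℕ, d = r - 1 := ⟨_, rfl⟩
  rw [← hd] at hdeg
  obtain ⟨K1, hK1⟩ : ∃ K1 : ℝ, K1 = (d + 1) * (d * ((d + 1) * CB1)) := ⟨_, rfl⟩
  obtain ⟨K2, hK2⟩ : ∃ K2 : ℝ, K2 = (d + 1) * ((d + 1) * CB1) := ⟨_, rfl⟩
  have hK10 : 0 ≤ K1 := by rw [hK1]; positivity
  have hK20 : 0 ≤ K2 := by rw [hK2]; positivity
  have ev : ∀ᶠ X : ℝ in atTop, (X1 ≤ X ∧ X6 ≤ X ∧ 2 ≤ X ∧ 1 ≤ Real.log X) ∧ 1 ≤ X ∧
      (12 * CA + K1) * (1 + Real.log (6 * X)) ^ (r + 1 + d) ≤ X ^ (δ₅ / 8) ∧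
      (∀ H : ℝ, Real.log X ^ B2 ≤ H → 8 * (1 + Real.log (6 * X)) ^ 2 ≤ H ^ (δ₁ / 120)) ∧
      K2 * (1 + Real.log (6 * X)) ^ (r + 1 + d) ≤ X ^ (δ₅ / 8) ∧
      4 * (3 * CL + 1) ^ 2 ≤ X ^ (δ₅ / 4) ∧ 8 ≤ X ^ (δ₅ / 2) := by
    filter_upwards [eventually_ge_atTop X1, eventually_ge_atTop X6, eventually_ge_atTop (2 : ℝ),
      IU2.ev_log (12 * CA + K1) (r + 1 + d) (δ₅ / 8) (by positivity),
      hB2ev,
      IU2.ev_log K2 (r + 1 + d) (δ₅ / 8) (by positivity),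
      (tendsto_rpow_atTop (by positivity : 0 < δ₅ / 4)).eventually_ge_atTop (4 * (3 * CL + 1) ^ 2),
      (tendsto_rpow_atTop (by positivity : 0 < δ₅ / 2)).eventually_ge_atTop 8,
      Real.tendsto_log_atTop.eventually_ge_atTop 1]
      with X a1 a1' a2 a3 a4 a5 a6 a7 a8
    exact ⟨⟨a1, a1', a2, a8⟩, by linarith, a3, a4, a5, a6, a7⟩
  obtain ⟨X0, hX0⟩ := eventually_atTop.mp ev
  refine ⟨max B1 B2, X0, fun X H hX hHlog hHX a b hBlk L q b' hL1 hL2 hq1 hq2 hcop => ?_⟩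
  obtain ⟨⟨hXX1, hXX6, hXtwo, hXlog⟩, hXone, A1, A2', A3, A4, A5⟩ := hX0 X hX
  have hXpos : 0 < X := by linarith
  have hHB1 : Real.log X ^ B1 ≤ H :=
    (Real.rpow_le_rpow_of_exponent_le hXlog (le_max_left _ _)).trans hHlog
  have hHB2 : Real.log X ^ B2 ≤ H :=
    (Real.rpow_le_rpow_of_exponent_le hXlog (le_max_right _ _)).trans hHlog
  have A2 := A2' H hHB2
  have hHone : 1 ≤ H := (Real.one_le_rpow hXlog hB20).trans hHB2
  have hHpos : 0 < H := by linarith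
  obtain ⟨hB1', hB2, hB3, hB4⟩ := hBlk
  have mono : ∀ u v : ℝ, u ≤ v → X ^ u ≤ X ^ v := fun u v h =>
    Real.rpow_le_rpow_of_exponent_le hXone h
  have pos : ∀ u : ℝ, 0 < X ^ u := fun u => Real.rpow_pos_of_pos hXpos u
  have mulX : ∀ u v : ℝ, X ^ u * X ^ v = X ^ (u + v) := fun u v => (Real.rpow_add hXpos u v).symm
  have monoH : ∀ u v : ℝ, u ≤ v → H ^ u ≤ H ^ v := fun u v h =>
    Real.rpow_le_rpow_of_exponent_le hHone h
  have posH : ∀ u : ℝ, 0 < H ^ u := fun u => Real.rpow_pos_of_pos hHpos u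
  have mulH : ∀ u v : ℝ, H ^ u * H ^ v = H ^ (u + v) := fun u v => (Real.rpow_add hHpos u v).symm
  have hHX1 : H ≤ X := by
    have h := mono θ₂ 1 hθ.le
    rw [Real.rpow_one] at h
    exact hHX.trans h
  have HX : ∀ u : ℝ, 0 ≤ u → H ^ u ≤ X ^ u := fun u hu => Real.rpow_le_rpow hHpos.le hHX1 hu
  have XH : ∀ u : ℝ, 0 ≤ u → X ^ (-u) ≤ H ^ (-u) := by
    intro u hu
    rw [Real.rpow_neg hXpos.le, Real.rpow_neg hHpos.le]
    exact inv_anti₀ (posH u) (HX u hu)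
  have hB1 : X ^ (1 - δ₁ / 2) ≤ a := by
    refine le_trans ?_ hB1'
    calc X ^ (1 - δ₁ / 2) = X * X ^ (-(δ₁ / 2)) := by
          rw [sub_eq_add_neg, Real.rpow_add hXpos, Real.rpow_one]
      _ ≤ X * H ^ (-(δ₁ / 2)) := mul_le_mul_of_nonneg_left (XH _ (by positivity)) hXpos.le
  have hqX : (q : ℝ) ≤ X ^ δm := hq2.trans (HX _ hδm0.le)
  have ha12 : X ^ (1 / 2 : ℝ) ≤ a := (mono _ _ (by linarith)).trans hB1
  have hqlt : (q : ℝ) ≤ H ^ ε₂ := hq2.trans (monoH _ _ (by linarith))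
  have hLone : (1 : ℝ) ≤ L := (Real.one_le_rpow hHone (by norm_num)).trans hL1
  have hL1n : 1 ≤ L := by exact_mod_cast hLone
  have hLpos : (0 : ℝ) < L := by linarith
  have hLY : (L : ℝ) ≤ X ^ (1 - δ₅) := (hL2.trans hHX).trans (mono _ _ (by linarith))
  obtain ⟨J, hJ1, hJ2⟩ := IU2.scales L (X ^ (1 - δ₅)) hLpos hLY
  have haone : (1 : ℝ) ≤ a := (Real.one_le_rpow hXone (by linarith)).trans hB1
  have hapos : (0 : ℝ) < a := by linarith
  -- the large scale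
  obtain ⟨lJ, hlJ⟩ : ∃ lJ : ℕ, lJ = 2 ^ J * L := ⟨_, rfl⟩
  have hlJr : (lJ : ℝ) = 2 ^ J * L := by rw [hlJ]; push_cast; ring
  have hlJ1 : (lJ : ℝ) ≤ X ^ (1 - δ₅) := by rw [hlJr]; exact hJ1
  have hlJ2 : X ^ (1 - δ₅) / 2 ≤ lJ := by
    rw [hlJr]
    rw [pow_succ] at hJ2
    linarith
  have hLlJ : L ≤ lJ := by
    rw [hlJ]
    exact Nat.le_mul_of_pos_left L (by positivity)
  have hlJpos : (0 : ℝ) < lJ := by
    have : (L : ℝ) ≤ lJ := by exact_mod_cast hLlJ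
    linarith
  obtain ⟨γ, hγ⟩ : ∃ γ : ℝ, γ = (b' : ℝ) / q := ⟨_, rfl⟩
  have hwone : 1 ≤ H ^ (1 / 4 : ℝ) := Real.one_le_rpow hHone (by norm_num)
  have hwX4 : H ^ (1 / 4 : ℝ) ≤ X ^ (1 / 4 : ℝ) := HX _ (by norm_num)
  have hwX : H ^ (1 / 4 : ℝ) ≤ X := by
    have h := mono (1 / 4) 1 (by norm_num)
    rw [Real.rpow_one] at h
    exact hwX4.trans h
  obtain ⟨U, hU'⟩ : ∃ U : ℕ → ℝ, U = up r (H ^ ε₂) (H ^ (1 / 4 : ℝ)) := ⟨_, rfl⟩
  obtain ⟨P, hP'⟩ : ∃ P : Polynomial ℝ, P = Eu E (H ^ ε₂) (H ^ (1 / 4 : ℝ)) q := ⟨_, rfl⟩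
  have hlog3 : ∀ x : ℕ, 1 ≤ x → (x : ℝ) ≤ 3 * X → 0 ≤ Real.log x ∧
      Real.log x ≤ Real.log (6 * X) := by
    intro x hx hx3
    have h1 : (1 : ℝ) ≤ x := by exact_mod_cast hx
    exact ⟨Real.log_nonneg h1, Real.log_le_log (by linarith) (by linarith)⟩
  have hlog6 : 0 ≤ Real.log (6 * X) := Real.log_nonneg (by linarith)
  -- AP
  have hqCA : (q : ℝ) ^ CA ≤ X ^ (c / 4) := by
    calc (q : ℝ) ^ CA ≤ (X ^ δm) ^ CA := Real.rpow_le_rpow (Nat.cast_nonneg q) hqX hCA.le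
      _ = X ^ (δm * CA) := (Real.rpow_mul hXpos.le _ _).symm
      _ ≤ X ^ (c / 4) := by
          refine mono _ _ ?_
          rw [le_div_iff₀ (by positivity)] at hm2
          linarith
  have hap : ∀ n : ℕ, X ^ (1 / 2 : ℝ) ≤ n → (n : ℝ) ≤ 3 * X →
      ‖SS U n γ - (((n * P.eval (Real.log n) : ℝ)) : ℂ)‖ ≤ 3 * CA * X ^ (1 - 3 * c / 4) := by
    intro n hn hn3
    have h := hAPb X n (H ^ ε₂) (H ^ (1 / 4 : ℝ)) q b' hXX6 hn hn3 hwone hwX4 hq1 hqlt hcop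
    rw [Nat.floor_natCast, ← hγ, ← hU', ← hP'] at h
    refine h.trans ?_
    have h1 : X ^ (1 - c) ≤ 3 * X ^ (1 - c) := by
      have := pos (1 - c)
      linarith
    calc CA * (q : ℝ) ^ CA * X ^ (1 - c) ≤ CA * X ^ (c / 4) * (3 * X ^ (1 - c)) :=
          mul_le_mul (mul_le_mul_of_nonneg_left hqCA hCA.le) h1
            (pos _).le (by have := pos (c / 4); positivity)
      _ = 3 * CA * (X ^ (c / 4) * X ^ (1 - c)) := by ring
      _ = 3 * CA * X ^ (1 - 3 * c / 4) := by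
          rw [mulX]
          congr 2
          ring
  obtain ⟨G, hG⟩ : ∃ G : ℝ, G = 1 + Real.log (6 * X) := ⟨_, rfl⟩
  have hG1 : 1 ≤ G := by rw [hG]; linarith
  have hG0 : 0 ≤ G := by linarith
  have hlw : Real.log (H ^ (1 / 4 : ℝ)) ≤ Real.log (6 * X) :=
    Real.log_le_log (posH _) (by linarith)
  have hlw0 : 0 ≤ Real.log (H ^ (1 / 4 : ℝ)) := Real.log_nonneg hwone
  have hCBs : ∀ j, |P.coeff j| ≤ CB1 * G ^ (r + 1) := by
    intro j
    have h := hCB1 (H ^ ε₂) (H ^ (1 / 4 : ℝ)) q j hwone hq1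
    rw [sub_self, Real.rpow_zero, mul_one, ← hP'] at h
    refine h.trans (mul_le_mul_of_nonneg_left ?_ hCB10.le)
    exact pow_le_pow_left₀ (by linarith) (by rw [hG]; linarith) _
  have hPd : P.natDegree ≤ d := by
    rw [hP']
    exact hdeg _ _ _
  -- the three bounds
  have hD : ∀ j < J, ∑ x ∈ Finset.Icc (a + 2 * (2 ^ j * L)) b,
      ‖ws U γ (2 ^ j * L) x - ws U γ (2 ^ j * L) (x - 2 ^ j * L)‖ ^ 2 ≤
        ((2 ^ j * L : ℕ) : ℝ) ^ 2 * (X * H ^ (-δ₁ - δ₁ / 40)) := by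
    intro j hj
    have h1 : (L : ℝ) ≤ ((2 ^ j * L : ℕ) : ℝ) := by
      have : L ≤ 2 ^ j * L := Nat.le_mul_of_pos_left L (by positivity)
      exact_mod_cast this
    have h2 : ((2 ^ j * L : ℕ) : ℝ) ≤ lJ := by
      have : 2 ^ j * L ≤ lJ := by
        rw [hlJ]
        exact Nat.mul_le_mul_right _ (Nat.pow_le_pow_right (by norm_num) hj.le)
      exact_mod_cast this
    rw [hγ, hU']
    refine (hX1 X H hXX1 hHB1 hHX1 a b ⟨hB1', hB2, hB3, hB4⟩ (2 ^ j * L) q b' (hL1.trans h1)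
      (h2.trans hlJ1) hq1 (hq2.trans (monoH _ _ hm1))).trans (le_of_eq ?_)
    ring
  have hκ : ∀ x ∈ Finset.Icc (a + 2 ^ J * L) b,
      ‖ws U γ (2 ^ J * L) x -
        ((((2 ^ J * L : ℕ) : ℝ) * (ed P).eval (Real.log (x : ℝ)) : ℝ) : ℂ)‖ ≤
        ((2 ^ J * L : ℕ) : ℝ) * X ^ (-(δ₅ / 2)) := by
    intro x hx
    rw [← hlJ] at hx ⊢
    rw [Finset.mem_Icc] at hx
    have ha1 : 1 ≤ a := by exact_mod_cast haone
    have hxb : (x : ℝ) ≤ b := by exact_mod_cast hx.2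
    have hx3 : (x : ℝ) ≤ 3 * X := by linarith
    have hx1 : 1 ≤ x := by omega
    have hsub1 : 1 ≤ x - lJ := by omega
    have hsuba : a ≤ x - lJ := by omega
    have hsubr : ((x - lJ : ℕ) : ℝ) = (x : ℝ) - lJ := by
      rw [Nat.cast_sub (by omega)]
    have hsubar : (a : ℝ) ≤ ((x - lJ : ℕ) : ℝ) := by exact_mod_cast hsuba
    have hsub3 : ((x - lJ : ℕ) : ℝ) ≤ 3 * X := by
      rw [hsubr]
      linarith
    have hxa : (a : ℝ) ≤ x := by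
      rw [hsubr] at hsubar
      linarith
    have p1 := hap x (ha12.trans hxa) hx3
    have p2 := hap (x - lJ) (ha12.trans hsubar) hsub3
    have p3 := IU2.mean d P (CB1 * G ^ (r + 1)) hPd hCBs ((x - lJ : ℕ) : ℝ) x (by linarith)
      (by rw [hsubr]; linarith)
    have hK1G : ((d : ℝ) + 1) * (d * ((d + 1) * (CB1 * G ^ (r + 1)))) = K1 * G ^ (r + 1) := by
      rw [hK1]
      ring
    rw [hK1G] at p3
    have hdiff : (x : ℝ) - ((x - lJ : ℕ) : ℝ) = lJ := by rw [hsubr]; ring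
    rw [hdiff] at p3
    obtain ⟨l1, l2⟩ := hlog3 x hx1 hx3
    have p4 : (1 + Real.log (x : ℝ)) ^ d ≤ G ^ d :=
      pow_le_pow_left₀ (by linarith) (by rw [hG]; linarith) d
    have p5 : (lJ : ℝ) / ((x - lJ : ℕ) : ℝ) ≤ X ^ (-(7 * δ₅ / 8)) := by
      rw [div_le_iff₀ (by linarith)]
      calc (lJ : ℝ) ≤ X ^ (1 - δ₅) := hlJ1
        _ ≤ X ^ (-(7 * δ₅ / 8) + (1 - δ₁ / 2)) := mono _ _ (by linarith)
        _ = X ^ (-(7 * δ₅ / 8)) * X ^ (1 - δ₁ / 2) := (mulX _ _).symm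
        _ ≤ X ^ (-(7 * δ₅ / 8)) * ((x - lJ : ℕ) : ℝ) :=
            mul_le_mul_of_nonneg_left (hB1.trans hsubar) (pos _).le
    have hsp : 0 < ((x - lJ : ℕ) : ℝ) := by linarith
    have p6 : K1 * G ^ (r + 1) * (1 + Real.log (x : ℝ)) ^ d * (lJ / ((x - lJ : ℕ) : ℝ)) ≤
        K1 * G ^ (r + 1 + d) * X ^ (-(7 * δ₅ / 8)) := by
      rw [pow_add G (r + 1) d, ← mul_assoc K1]
      exact mul_le_mul (mul_le_mul_of_nonneg_left p4 (by positivity)) p5 (by positivity)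
        (by positivity)
    have p7 : 2 * (3 * CA * X ^ (1 - 3 * c / 4)) ≤ lJ * (12 * CA * X ^ (-(7 * δ₅ / 8))) := by
      calc 2 * (3 * CA * X ^ (1 - 3 * c / 4)) ≤
            2 * (3 * CA * X ^ ((1 - δ₅) + -(7 * δ₅ / 8))) := by
            refine mul_le_mul_of_nonneg_left (mul_le_mul_of_nonneg_left (mono _ _ ?_)
              (by positivity)) (by norm_num)
            linarith
        _ = X ^ (1 - δ₅) / 2 * (12 * CA * X ^ (-(7 * δ₅ / 8))) := by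
            rw [← mulX]
            ring
        _ ≤ lJ * (12 * CA * X ^ (-(7 * δ₅ / 8))) :=
            mul_le_mul_of_nonneg_right hlJ2 (by have := pos (-(7 * δ₅ / 8)); positivity)
    have p8 : 12 * CA * X ^ (-(7 * δ₅ / 8)) +
        K1 * G ^ (r + 1 + d) * X ^ (-(7 * δ₅ / 8)) ≤ X ^ (-(δ₅ / 2)) := by
      have q1 : (1 : ℝ) ≤ G ^ (r + 1 + d) := one_le_pow₀ hG1
      rw [← hG] at A1
      calc 12 * CA * X ^ (-(7 * δ₅ / 8)) +
          K1 * G ^ (r + 1 + d) * X ^ (-(7 * δ₅ / 8)) ≤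
          12 * CA * G ^ (r + 1 + d) * X ^ (-(7 * δ₅ / 8)) +
          K1 * G ^ (r + 1 + d) * X ^ (-(7 * δ₅ / 8)) := by
            have : 12 * CA * 1 ≤ 12 * CA * G ^ (r + 1 + d) :=
              mul_le_mul_of_nonneg_left q1 (by positivity)
            have := mul_le_mul_of_nonneg_right this (pos (-(7 * δ₅ / 8))).le
            linarith
        _ = (12 * CA + K1) * G ^ (r + 1 + d) * X ^ (-(7 * δ₅ / 8)) := by ring
        _ ≤ X ^ (δ₅ / 8) * X ^ (-(7 * δ₅ / 8)) := mul_le_mul_of_nonneg_right A1 (pos _).le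
        _ = X ^ (δ₅ / 8 + -(7 * δ₅ / 8)) := mulX _ _
        _ ≤ X ^ (-(δ₅ / 2)) := mono _ _ (by linarith)
    have hid : ws U γ lJ x - (((lJ : ℝ) * (ed P).eval (Real.log (x : ℝ)) : ℝ) : ℂ) =
        (SS U x γ - (((x * P.eval (Real.log x) : ℝ)) : ℂ)) -
        (SS U (x - lJ) γ -
          (((((x - lJ : ℕ) : ℝ) * P.eval (Real.log ((x - lJ : ℕ) : ℝ)) : ℝ)) : ℂ)) +
        ((x * P.eval (Real.log x) -
          ((x - lJ : ℕ) : ℝ) * P.eval (Real.log ((x - lJ : ℕ) : ℝ)) -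
          lJ * (ed P).eval (Real.log (x : ℝ)) : ℝ) : ℂ) := by
      rw [IU2.ws_SS]
      push_cast
      ring
    rw [hid]
    have p9 : ‖((x * P.eval (Real.log x) -
          ((x - lJ : ℕ) : ℝ) * P.eval (Real.log ((x - lJ : ℕ) : ℝ)) -
          lJ * (ed P).eval (Real.log (x : ℝ)) : ℝ) : ℂ)‖ ≤
        lJ * (K1 * G ^ (r + 1 + d) * X ^ (-(7 * δ₅ / 8))) := by
      rw [Complex.norm_real, Real.norm_eq_abs]
      exact p3.trans (mul_le_mul_of_nonneg_left p6 hlJpos.le)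
    have p10 := norm_add_le ((SS U x γ - (((x * P.eval (Real.log x) : ℝ)) : ℂ)) -
        (SS U (x - lJ) γ -
          (((((x - lJ : ℕ) : ℝ) * P.eval (Real.log ((x - lJ : ℕ) : ℝ)) : ℝ)) : ℂ)))
        ((x * P.eval (Real.log x) -
          ((x - lJ : ℕ) : ℝ) * P.eval (Real.log ((x - lJ : ℕ) : ℝ)) -
          lJ * (ed P).eval (Real.log (x : ℝ)) : ℝ) : ℂ)
    have p11 := norm_sub_le (SS U x γ - (((x * P.eval (Real.log x) : ℝ)) : ℂ))
        (SS U (x - lJ) γ -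
          (((((x - lJ : ℕ) : ℝ) * P.eval (Real.log ((x - lJ : ℕ) : ℝ)) : ℝ)) : ℂ))
    have p12 := mul_le_mul_of_nonneg_left p8 hlJpos.le
    linarith
  have hBd : ∀ x ∈ Finset.Icc (a + L) b,
      ‖ws U γ L x - (((L : ℝ) * (ed P).eval (Real.log (x : ℝ)) : ℝ) : ℂ)‖ ≤
        L * ((3 * CL + 1) * X ^ (δ₅ / 8)) := by
    intro x hx
    rw [Finset.mem_Icc] at hx
    have ha1 : 1 ≤ a := by exact_mod_cast haone
    have hxb : (x : ℝ) ≤ b := by exact_mod_cast hx.2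
    have hx3 : (x : ℝ) ≤ 3 * X := by linarith
    have hx1 : 1 ≤ x := by omega
    obtain ⟨l1, l2⟩ := hlog3 x hx1 hx3
    have hXe := pos (δ₅ / 8)
    have h1 : ‖ws U γ L x‖ ≤ L * (3 * CL * X ^ (δ₅ / 8)) := by
      refine IU2.ws_le U γ L x _ (by positivity) fun n hn => ?_
      rw [Finset.mem_Ioc] at hn
      have hn1 : 1 ≤ n := by omega
      have hnx : (n : ℝ) ≤ x := by exact_mod_cast hn.2
      have hcl := (hCL X (H ^ ε₂) (H ^ (1 / 4 : ℝ)) 0 n hXone hwone hwX (by rw [Nat.cast_zero]; linarith)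
        hn1 (by linarith)).1
      rw [hU']
      refine hcl.trans ?_
      have : 0 ≤ CL * X ^ (δ₅ / 8) := by positivity
      linarith
    have h2 : |(ed P).eval (Real.log (x : ℝ))| ≤ X ^ (δ₅ / 8) := by
      have e1 := IF3.eval_bd d (ed P) ((d + 1) * (CB1 * G ^ (r + 1))) (Real.log (x : ℝ))
        (IF3.deg_ed d _ hPd) (IF3.ed_bd d P (CB1 * G ^ (r + 1)) hPd hCBs) l1
      have hK2G : ((d : ℝ) + 1) * ((d + 1) * (CB1 * G ^ (r + 1))) = K2 * G ^ (r + 1) := by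
        rw [hK2]
        ring
      rw [hK2G] at e1
      refine e1.trans (le_trans ?_ A3)
      rw [← hG, pow_add G (r + 1) d, ← mul_assoc K2]
      exact mul_le_mul_of_nonneg_left (pow_le_pow_left₀ (by linarith) (by rw [hG]; linarith) d)
        (by positivity)
    refine (norm_sub_le _ _).trans ?_
    rw [Complex.norm_real, Real.norm_eq_abs, abs_mul, abs_of_pos hLpos]
    have h3 := mul_le_mul_of_nonneg_left h2 hLpos.le
    calc ‖ws U γ L x‖ + L * |(ed P).eval (Real.log (x : ℝ))| ≤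
        L * (3 * CL * X ^ (δ₅ / 8)) + L * X ^ (δ₅ / 8) := add_le_add h1 h3
      _ = L * ((3 * CL + 1) * X ^ (δ₅ / 8)) := by ring
  have hcore := IU2.core U γ (fun x => (ed P).eval (Real.log (x : ℝ))) a b L J
    (X * H ^ (-δ₁ - δ₁ / 40)) (X ^ (-(δ₅ / 2))) ((3 * CL + 1) * X ^ (δ₅ / 8)) hL1n hD hκ hBd
  rw [← hlJ] at hcore
  rw [← hγ, ← hU', ← hP']
  have hfin : (L : ℝ) ^ 2 * X * H ^ (-δ₁ - δ₁ / 60) = (L : ℝ) ^ 2 * (X * H ^ (-δ₁ - δ₁ / 60)) := by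
    ring
  rw [hfin]
  refine hcore.trans (mul_le_mul_of_nonneg_left ?_ (by positivity))
  -- the three terms
  have hZ := posH (-δ₁ - δ₁ / 60)
  have t1 : 2 * ((J : ℝ) ^ 2 * (X * H ^ (-δ₁ - δ₁ / 40) / 4)) ≤
      X * H ^ (-δ₁ - δ₁ / 60) / 4 := by
    have j1 : (2 : ℝ) ^ J ≤ X := by
      have e1 : (2 : ℝ) ^ J * 1 ≤ 2 ^ J * L := mul_le_mul_of_nonneg_left hLone (by positivity)
      have e2 : X ^ (1 - δ₅) ≤ X ^ (1 : ℝ) := mono _ _ (by linarith)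
      rw [Real.rpow_one] at e2
      linarith
    have j2 : (J : ℝ) * Real.log 2 ≤ Real.log X := by
      rw [← Real.log_pow]
      exact Real.log_le_log (by positivity) j1
    have j3 : (1 / 2 : ℝ) ≤ Real.log 2 := by
      have := Real.log_two_gt_d9
      linarith
    have j4 : (J : ℝ) ≤ 2 * (1 + Real.log (6 * X)) := by
      have e1 : (J : ℝ) * (1 / 2) ≤ J * Real.log 2 :=
        mul_le_mul_of_nonneg_left j3 (Nat.cast_nonneg J)
      have e2 : Real.log X ≤ Real.log (6 * X) := Real.log_le_log hXpos (by linarith)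
      linarith
    have j5 : (J : ℝ) ^ 2 ≤ (2 * (1 + Real.log (6 * X))) ^ 2 :=
      pow_le_pow_left₀ (Nat.cast_nonneg J) j4 2
    have hZ' := posH (-δ₁ - δ₁ / 40)
    have hXZ' : 0 ≤ X * H ^ (-δ₁ - δ₁ / 40) := by positivity
    calc 2 * ((J : ℝ) ^ 2 * (X * H ^ (-δ₁ - δ₁ / 40) / 4)) ≤
        2 * ((2 * (1 + Real.log (6 * X))) ^ 2 * (X * H ^ (-δ₁ - δ₁ / 40) / 4)) :=
          mul_le_mul_of_nonneg_left (mul_le_mul_of_nonneg_right j5 (by positivity)) (by norm_num)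
      _ = (8 * (1 + Real.log (6 * X)) ^ 2) * (X * H ^ (-δ₁ - δ₁ / 40)) / 4 := by ring
      _ ≤ H ^ (δ₁ / 120) * (X * H ^ (-δ₁ - δ₁ / 40)) / 4 := by
          have := mul_le_mul_of_nonneg_right A2 hXZ'
          linarith
      _ = X * (H ^ (δ₁ / 120) * H ^ (-δ₁ - δ₁ / 40)) / 4 := by ring
      _ = X * H ^ (-δ₁ - δ₁ / 60) / 4 := by
          rw [mulH]
          congr 3
          ring
  have t2 : 2 * (((Finset.Icc (a + lJ) b).card : ℝ) * (X ^ (-(δ₅ / 2))) ^ 2) ≤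
      X * H ^ (-δ₁ - δ₁ / 60) / 4 := by
    have c1 : ((Finset.Icc (a + lJ) b).card : ℝ) ≤ X * H ^ (-δ₁) := by
      rw [Nat.card_Icc]
      have hlJ1n : 1 ≤ lJ := hL1n.trans hLlJ
      have e1 : b + 1 - (a + lJ) ≤ b - a := by omega
      have e2 : ((b + 1 - (a + lJ) : ℕ) : ℝ) ≤ ((b - a : ℕ) : ℝ) := by exact_mod_cast e1
      refine e2.trans ?_
      have hab : a ≤ b := by
        have : (a : ℝ) ≤ b := by
          have h1 := posH (-δ₁)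
          have h2 : 0 ≤ X * H ^ (-δ₁) := by positivity
          linarith
        exact_mod_cast this
      rw [Nat.cast_sub hab]
      linarith
    have c2 : (X ^ (-(δ₅ / 2))) ^ 2 = X ^ (-δ₅) := by
      rw [← Real.rpow_natCast, ← Real.rpow_mul hXpos.le]
      congr 1
      push_cast
      ring
    rw [c2]
    have hZ5 := pos (-δ₅)
    have hH1 := posH (-δ₁)
    have c3 : 8 * X ^ (-δ₅) ≤ H ^ (-(δ₁ / 60)) := by
      calc 8 * X ^ (-δ₅) ≤ X ^ (δ₅ / 2) * X ^ (-δ₅) := mul_le_mul_of_nonneg_right A5 hZ5.le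
        _ = X ^ (δ₅ / 2 + -δ₅) := mulX _ _
        _ ≤ X ^ (-(δ₁ / 60)) := mono _ _ (by linarith)
        _ ≤ H ^ (-(δ₁ / 60)) := XH _ (by positivity)
    calc 2 * (((Finset.Icc (a + lJ) b).card : ℝ) * X ^ (-δ₅)) ≤
          2 * ((X * H ^ (-δ₁)) * X ^ (-δ₅)) :=
          mul_le_mul_of_nonneg_left (mul_le_mul_of_nonneg_right c1 hZ5.le) (by norm_num)
      _ = (X * H ^ (-δ₁)) * (8 * X ^ (-δ₅)) / 4 := by ring
      _ ≤ (X * H ^ (-δ₁)) * H ^ (-(δ₁ / 60)) / 4 := by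
          have := mul_le_mul_of_nonneg_left c3 (by positivity : 0 ≤ X * H ^ (-δ₁))
          linarith
      _ = X * (H ^ (-δ₁) * H ^ (-(δ₁ / 60))) / 4 := by ring
      _ = X * H ^ (-δ₁ - δ₁ / 60) / 4 := by
          rw [mulH, ← sub_eq_add_neg]
  have t3 : (lJ : ℝ) * ((3 * CL + 1) * X ^ (δ₅ / 8)) ^ 2 ≤ X * H ^ (-δ₁ - δ₁ / 60) / 4 := by
    have c2 : (X ^ (δ₅ / 8)) ^ 2 = X ^ (δ₅ / 4) := by
      rw [← Real.rpow_natCast, ← Real.rpow_mul hXpos.le]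
      congr 1
      push_cast
      ring
    rw [mul_pow, c2]
    have hZ4 := pos (δ₅ / 4)
    have hZ5 := pos (1 - δ₅)
    calc (lJ : ℝ) * ((3 * CL + 1) ^ 2 * X ^ (δ₅ / 4)) ≤
        X ^ (1 - δ₅) * ((3 * CL + 1) ^ 2 * X ^ (δ₅ / 4)) :=
          mul_le_mul_of_nonneg_right hlJ1 (by positivity)
      _ = (4 * (3 * CL + 1) ^ 2) * (X ^ (1 - δ₅) * X ^ (δ₅ / 4)) / 4 := by ring
      _ ≤ X ^ (δ₅ / 4) * (X ^ (1 - δ₅) * X ^ (δ₅ / 4)) / 4 := by
          have := mul_le_mul_of_nonneg_right A4 (by positivity : 0 ≤ X ^ (1 - δ₅) * X ^ (δ₅ / 4))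
          linarith
      _ = X ^ (δ₅ / 4 + (1 - δ₅ + δ₅ / 4)) / 4 := by rw [mulX, mulX]
      _ ≤ X ^ (1 + -(δ₁ + δ₁ / 60)) / 4 := by
          have := mono (δ₅ / 4 + (1 - δ₅ + δ₅ / 4)) (1 + -(δ₁ + δ₁ / 60)) (by linarith)
          linarith
      _ = X * X ^ (-(δ₁ + δ₁ / 60)) / 4 := by rw [Real.rpow_add hXpos, Real.rpow_one]
      _ ≤ X * H ^ (-(δ₁ + δ₁ / 60)) / 4 := by
          have := mul_le_mul_of_nonneg_left (XH (δ₁ + δ₁ / 60) (by positivity)) hXpos.le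
          linarith
      _ = X * H ^ (-δ₁ - δ₁ / 60) / 4 := by
          congr 3
          ring
  have hXZ : 0 ≤ X * H ^ (-δ₁ - δ₁ / 60) := by positivity
  linarith

end Pool.Agent.Work.MP_122e00_nt.TS
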