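import Mathlib
import Pool.Agent.Work.MP_122e00_nt.TS.Stmts11
import Pool.Agent.Work.MP_122e00_nt.TS.I_U3

/-!
# MP_122e00_nt, block TS, item X9: windows of a model at rational frequencies, the scale `H`
-/

set_option autoImplicit false

namespace Pool.Agent.Work.MP_122e00_nt.TS

open Finset Filter Topology ArithmeticFunction

namespace IX9

theorem loglog (k : ℕ) (A : ℝ) (hA : 0 ≤ A) :
    ∀ᶠ X : ℝ in atTop, A * (1 + Real.log (2 * (3 * X / 2))) ^ k ≤ Real.log X ^ (k + 1) := by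
  filter_upwards [Real.tendsto_log_atTop.eventually_ge_atTop (3 : ℝ),
    Real.tendsto_log_atTop.eventually_ge_atTop (A * 2 ^ k), eventually_ge_atTop (1 : ℝ)]
    with X h1 h2 h3
  have hX : 0 < X := by linarith
  have e1 : Real.log (2 * (3 * X / 2)) = Real.log 3 + Real.log X := by
    rw [show 2 * (3 * X / 2) = 3 * X by ring, Real.log_mul (by norm_num) hX.ne']
  have h4 : Real.log 3 ≤ 2 := by
    have := Real.log_le_sub_one_of_pos (show (0 : ℝ) < 3 by norm_num)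
    linarith
  have h5 : 0 ≤ Real.log 3 := Real.log_nonneg (by norm_num)
  have h6 : 1 + Real.log (2 * (3 * X / 2)) ≤ 2 * Real.log X := by
    rw [e1]
    linarith
  have h7 : 0 ≤ Real.log X := by linarith
  calc A * (1 + Real.log (2 * (3 * X / 2))) ^ k ≤ A * (2 * Real.log X) ^ k := by
        refine mul_le_mul_of_nonneg_left (pow_le_pow_left₀ ?_ h6 k) hA
        rw [e1]
        linarith
    _ = (A * 2 ^ k) * Real.log X ^ k := by rw [mul_pow]; ring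
    _ ≤ Real.log X * Real.log X ^ k := mul_le_mul_of_nonneg_right h2 (pow_nonneg h7 k)
    _ = Real.log X ^ (k + 1) := by rw [pow_succ]; ring

end IX9

open IU3 in
theorem prX9 (hE1 : tsE1) (hF1 : tsF1) (hF2 : tsF2) : tsX9 := by
  intro r θ₂ hr hθ hθ1
  obtain ⟨CF, hCF, hF2'⟩ := hF2 r
  obtain ⟨κ, hκ⟩ : ∃ κ : ℝ, κ = (1 - θ₂) / 8 := ⟨_, rfl⟩
  have hκ0 : 0 < κ := by rw [hκ]; linarith
  have hκ1 : κ ≤ 1 / 8 := by rw [hκ]; linarith
  have hθκ : θ₂ = 1 - 8 * κ := by rw [hκ]; ring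
  have ev : ∀ᶠ X : ℝ in atTop, 1 ≤ X ∧ 1 ≤ Real.log X ∧
      4 * (CF * (r + 1)) * (1 + Real.log (2 * (3 * X / 2))) ^ (2 * r) ≤
        Real.log X ^ (2 * r + 1) ∧
      4 * (r + 1) ^ 3 * (1 + Real.log (2 * (3 * X / 2))) ^ r ≤ X ^ κ ∧ 2 ≤ X ^ (6 * κ) := by
    refine (eventually_ge_atTop 1).and ((Real.tendsto_log_atTop.eventually_ge_atTop 1).and
      ((IX9.loglog (2 * r) (4 * (CF * (r + 1))) (by positivity)).and
      ((logpow r (4 * (r + 1) ^ 3) κ (by positivity) hκ0).and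
      ((tendsto_rpow_atTop (by positivity)).eventually_ge_atTop 2))))
  obtain ⟨X0, hX0⟩ := eventually_atTop.mp ev
  refine ⟨2 * κ, 8 * (2 * r + 1), X0, by positivity,
    fun E' M X H Q x L q b' hX hH1 hH2 hM hdeg hE' hQH hx1 hx2 hL1 hL2 hq1 hq2 hb => ?_⟩
  obtain ⟨h1X, hlX, hVX, hBX, h2X⟩ := hX0 X hX
  have hXp : 0 < X := by linarith
  have hlp : 0 < Real.log X := by linarith
  have hH0 : (1 : ℝ) ≤ H := le_trans (Real.one_le_rpow hlX (by positivity)) hH1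
  have hHp : 0 < H := by linarith
  have hH8 : Real.log X ^ (2 * r + 1) ≤ H ^ (1 / 8 : ℝ) := by
    have h1 := Real.rpow_le_rpow (Real.rpow_nonneg hlp.le _) hH1
      (show (0 : ℝ) ≤ 1 / 8 by norm_num)
    refine le_trans (le_of_eq ?_) h1
    rw [← Real.rpow_mul hlp.le, ← Real.rpow_natCast]
    congr 1
    push_cast
    ring
  have hHX : H ≤ X := by
    refine hH2.trans ?_
    calc X ^ θ₂ ≤ X ^ (1 : ℝ) := Real.rpow_le_rpow_of_exponent_le h1X hθ1.le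
      _ = X := Real.rpow_one X
  obtain ⟨M', hMd⟩ : ∃ M' : ℝ, M' = (r + 1) * M := ⟨_, rfl⟩
  have hM0 : 0 ≤ M' := by rw [hMd]; positivity
  have hMc : ∀ s, 1 ≤ s → ∀ j, |(ed (E' s)).coeff j| ≤ M' := by
    intro s hs j
    rw [hMd]
    exact IF5.ed_coeff r (E' s) M hM (hdeg s) (fun j => hE' s j hs) j
  have hP : ∀ s, 1 ≤ s → (ed (E' s)).natDegree ≤ r := fun s _ => IF5.ed_deg r (E' s) (hdeg s)
  rw [hθκ] at hH2
  have hL3 : (L : ℝ) ≤ X ^ (1 - 8 * κ) := hL2.trans hH2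
  have hx1' : X ^ (1 - 2 * κ) ≤ x := by
    refine le_trans (le_of_eq ?_) hx1
    congr 1
    rw [hκ]
    ring
  have e1 : X ^ (1 - 2 * κ) = X ^ (1 - 8 * κ) * X ^ (6 * κ) := by
    rw [← Real.rpow_add hXp]
    congr 1
    ring
  have hp8 : 0 < X ^ (1 - 8 * κ) := Real.rpow_pos_of_pos hXp _
  have hxL : 2 * (L : ℝ) ≤ x := by
    refine le_trans ?_ hx1'
    rw [e1]
    calc 2 * (L : ℝ) ≤ 2 * X ^ (1 - 8 * κ) := by linarith
      _ = X ^ (1 - 8 * κ) * 2 := by ring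
      _ ≤ _ := mul_le_mul_of_nonneg_left h2X hp8.le
  have hL1' : (1 : ℝ) ≤ L := (Real.one_le_rpow hH0 (by norm_num)).trans hL1
  have hLn : 1 ≤ L := by exact_mod_cast hL1'
  have hLx : L + 1 ≤ x := by
    have h : 2 * L ≤ x := by exact_mod_cast hxL
    omega
  obtain ⟨V, hV⟩ : ∃ V : ℝ, V = CF * M' * (1 + Real.log (2 * (3 * X / 2))) ^ (2 * r) := ⟨_, rfl⟩
  have hlog : 0 ≤ Real.log (2 * (3 * X / 2)) := Real.log_nonneg (by linarith)
  have hV0 : 0 ≤ V := by rw [hV]; positivity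
  have hx0 : (0 : ℝ) < x := by linarith
  have key := total hE1 r E' M' V Q hP hMc L x q b' hLx hq1 hb (by
    intro s hs N γ hN hNx
    rw [hV]
    refine IF5.Tbound hF1 r CF hCF hF2' (ed (E' s)) M' (3 * X / 2) γ N hM0 (hP s hs) (hMc s hs) hN ?_
    have : (N : ℝ) ≤ x := by exact_mod_cast hNx
    linarith)
  refine key.trans ?_
  have hLp : 0 ≤ (L : ℝ) := by linarith
  -- first term
  have t1 : 2 * V * q * (Q : ℝ) ^ 3 ≤ (1 / 2) * (M * L * H ^ (-(2 * κ))) := by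
    have hp : 0 ≤ H ^ (1 / 32 : ℝ) := Real.rpow_nonneg hHp.le _
    have a0 : 4 * V ≤ M * H ^ (1 / 8 : ℝ) := by
      have h := mul_le_mul_of_nonneg_left (hVX.trans hH8) hM
      refine le_trans (le_of_eq ?_) h
      rw [hV, hMd]
      ring
    have a1 : 4 * V * q * (Q : ℝ) ^ 3 ≤
        M * H ^ (1 / 8 : ℝ) * H ^ (1 / 32 : ℝ) * (H ^ (1 / 32 : ℝ)) ^ 3 := by
      have h0 : 0 ≤ M * H ^ (1 / 8 : ℝ) := mul_nonneg hM (Real.rpow_nonneg hHp.le _)
      gcongr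
    have a2 : M * H ^ (1 / 8 : ℝ) * H ^ (1 / 32 : ℝ) * (H ^ (1 / 32 : ℝ)) ^ 3 =
        M * H ^ (1 / 4 : ℝ) := by
      rw [← Real.rpow_natCast (H ^ (1 / 32 : ℝ)) 3, ← Real.rpow_mul hHp.le, mul_assoc, mul_assoc,
        ← Real.rpow_add hHp, ← Real.rpow_add hHp]
      congr 2
      push_cast
      norm_num
    have a4 : H ^ (1 / 4 : ℝ) ≤ H ^ (1 / 2 : ℝ) * H ^ (-(2 * κ)) := by
      rw [← Real.rpow_add hHp]
      exact Real.rpow_le_rpow_of_exponent_le hH0 (by linarith)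
    have a5 : H ^ (1 / 2 : ℝ) * H ^ (-(2 * κ)) ≤ L * H ^ (-(2 * κ)) :=
      mul_le_mul_of_nonneg_right hL1 (Real.rpow_nonneg hHp.le _)
    have a6 : M * H ^ (1 / 4 : ℝ) ≤ M * (L * H ^ (-(2 * κ))) :=
      mul_le_mul_of_nonneg_left (a4.trans a5) hM
    have a7 : 4 * V * q * (Q : ℝ) ^ 3 ≤ M * (L * H ^ (-(2 * κ))) :=
      (a1.trans (le_of_eq a2)).trans a6
    have a8 : 2 * V * q * (Q : ℝ) ^ 3 = (1 / 2) * (4 * V * q * (Q : ℝ) ^ 3) := by ring
    rw [a8]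
    refine mul_le_mul_of_nonneg_left (a7.trans (le_of_eq ?_)) (by norm_num)
    ring
  -- second term
  have t2 : L * ((r + 1) ^ 2 * M' * (1 + Real.log x) ^ r * (L / ((x : ℝ) - L))) ≤
      (1 / 2) * (M * L * H ^ (-(2 * κ))) := by
    have b1 : (L : ℝ) / ((x : ℝ) - L) ≤ 2 * X ^ (-(6 * κ)) := by
      rw [div_le_iff₀ (by linarith)]
      have c1 : (x : ℝ) / 2 ≤ x - L := by linarith
      have c2 : X ^ (-(6 * κ)) * X ^ (1 - 2 * κ) = X ^ (1 - 8 * κ) := by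
        rw [← Real.rpow_add hXp]
        congr 1
        ring
      have c3 : 0 ≤ X ^ (-(6 * κ)) := Real.rpow_nonneg hXp.le _
      calc (L : ℝ) ≤ X ^ (1 - 8 * κ) := hL3
        _ = X ^ (-(6 * κ)) * X ^ (1 - 2 * κ) := c2.symm
        _ ≤ X ^ (-(6 * κ)) * x := mul_le_mul_of_nonneg_left hx1' c3
        _ = 2 * X ^ (-(6 * κ)) * (x / 2) := by ring
        _ ≤ 2 * X ^ (-(6 * κ)) * (x - L) := mul_le_mul_of_nonneg_left c1 (by positivity)
    have b2 : 1 + Real.log x ≤ 1 + Real.log (2 * (3 * X / 2)) := by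
      have := Real.log_le_log hx0 (by linarith : (x : ℝ) ≤ 2 * (3 * X / 2))
      linarith
    have hx1r : (1 : ℝ) ≤ x := by linarith
    have hlx : 0 ≤ Real.log x := Real.log_nonneg hx1r
    have b3 : (r + 1) ^ 2 * M' * (1 + Real.log x) ^ r ≤ M * (X ^ κ / 4) := by
      have c1 : (r + 1) ^ 2 * M' * (1 + Real.log x) ^ r ≤
          (r + 1) ^ 2 * M' * (1 + Real.log (2 * (3 * X / 2))) ^ r :=
        mul_le_mul_of_nonneg_left (pow_le_pow_left₀ (by linarith) b2 r) (by positivity)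
      have c2 := mul_le_mul_of_nonneg_left hBX hM
      have c3 : (r + 1) ^ 2 * M' * (1 + Real.log (2 * (3 * X / 2))) ^ r =
          (1 / 4) * (M * (4 * (r + 1) ^ 3 * (1 + Real.log (2 * (3 * X / 2))) ^ r)) := by
        rw [hMd]
        ring
      rw [c3] at c1
      linarith
    have b4 : 0 ≤ (L : ℝ) / ((x : ℝ) - L) := div_nonneg hLp (by linarith)
    have b5 : (r + 1) ^ 2 * M' * (1 + Real.log x) ^ r * (L / ((x : ℝ) - L)) ≤
        (M * (X ^ κ / 4)) * (2 * X ^ (-(6 * κ))) :=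
      mul_le_mul b3 b1 b4 (by positivity)
    have b6 : (M * (X ^ κ / 4)) * (2 * X ^ (-(6 * κ))) = (1 / 2) * (M * X ^ (-(5 * κ))) := by
      have : X ^ κ * X ^ (-(6 * κ)) = X ^ (-(5 * κ)) := by
        rw [← Real.rpow_add hXp]
        congr 1
        ring
      calc (M * (X ^ κ / 4)) * (2 * X ^ (-(6 * κ))) =
          (1 / 2) * (M * (X ^ κ * X ^ (-(6 * κ)))) := by ring
        _ = _ := by rw [this]
    have b7 : X ^ (-(5 * κ)) ≤ H ^ (-(2 * κ)) := by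
      refine (Real.rpow_le_rpow_of_exponent_le h1X (by linarith : -(5 * κ) ≤ -(2 * κ))).trans ?_
      exact Real.rpow_le_rpow_of_nonpos hHp hHX (by linarith)
    have b8 : M * X ^ (-(5 * κ)) ≤ M * H ^ (-(2 * κ)) := mul_le_mul_of_nonneg_left b7 hM
    calc L * ((r + 1) ^ 2 * M' * (1 + Real.log x) ^ r * (L / ((x : ℝ) - L)))
        ≤ L * ((1 / 2) * (M * H ^ (-(2 * κ)))) := by
          refine mul_le_mul_of_nonneg_left ?_ hLp
          linarith
      _ = (1 / 2) * (M * L * H ^ (-(2 * κ))) := by ring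
  linarith

end Pool.Agent.Work.MP_122e00_nt.TS
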