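import Mathlib
import Pool.Agent.Work.MP_122e00_nt.TS.Stmts9

/-!
# All powers, item Y4: partial sums of the singular series
-/

namespace Pool.Agent.Work.MP_122e00_nt.TS

open Finset Filter Topology ArithmeticFunction
open scoped ArithmeticFunction.zeta ArithmeticFunction.Moebius

namespace IY4

theorem abs_Gh (h k : ℕ) : |Gh h k| ≤ ∑ g ∈ k.divisors.filter (· ∣ h), (g : ℝ) := by
  unfold Gh
  rw [ArithmeticFunction.mul_apply]
  calc |∑ x ∈ k.divisorsAntidiagonal, (μ : ArithmeticFunction ℝ) x.1 * Fh h x.2|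
      ≤ ∑ x ∈ k.divisorsAntidiagonal, |(μ : ArithmeticFunction ℝ) x.1 * Fh h x.2| :=
        Finset.abs_sum_le_sum_abs _ _
    _ ≤ ∑ x ∈ k.divisorsAntidiagonal, Fh h x.2 := by
        apply Finset.sum_le_sum
        intro x _
        rw [abs_mul]
        have h1 : |(μ : ArithmeticFunction ℝ) x.1| ≤ 1 := by
          rw [intCoe_apply, ← Int.cast_abs]
          exact_mod_cast abs_moebius_le_one
        have h2 : 0 ≤ Fh h x.2 := by
          rw [Fh_apply]; split_ifs <;> positivity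
        rw [abs_of_nonneg h2]
        exact mul_le_of_le_one_left h2 h1
    _ = ∑ g ∈ k.divisors, Fh h g := by
        rw [← Nat.map_div_left_divisors, Finset.sum_map]
        rfl
    _ = ∑ g ∈ k.divisors.filter (· ∣ h), (g : ℝ) := by
        rw [Finset.sum_filter]
        rfl

theorem sum_le (τ : ℝ) (hτ : 1 < τ) : ∃ C : ℝ, 0 < C ∧ ∀ h Q : ℕ, 1 ≤ h →
    ∑ q ∈ Finset.Icc 1 Q, |Gh h q| * (q : ℝ) ^ (-τ) ≤
      C * ∑ g ∈ h.divisors, (g : ℝ) ^ (1 - τ) := by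
  have hs : Summable (fun m : ℕ => (m : ℝ) ^ (-τ)) := Real.summable_nat_rpow.2 (by linarith)
  have hs0 : 0 ≤ ∑' m : ℕ, (m : ℝ) ^ (-τ) := tsum_nonneg fun m => by positivity
  refine ⟨(∑' m : ℕ, (m : ℝ) ^ (-τ)) + 1, by linarith, fun h Q hh => ?_⟩
  have hle : ∑ q ∈ Finset.Icc 1 Q, |Gh h q| * (q : ℝ) ^ (-τ) ≤
      ∑ q ∈ Finset.Icc 1 Q, ∑ g ∈ h.divisors, if g ∣ q then (g : ℝ) * (q : ℝ) ^ (-τ) else 0 := by
    refine Finset.sum_le_sum fun q hq => ?_
    have hq0 : q ≠ 0 := by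
      have := (Finset.mem_Icc.1 hq).1
      omega
    calc |Gh h q| * (q : ℝ) ^ (-τ) ≤
        (∑ g ∈ q.divisors.filter (· ∣ h), (g : ℝ)) * (q : ℝ) ^ (-τ) :=
          mul_le_mul_of_nonneg_right (abs_Gh h q) (by positivity)
      _ = ∑ g ∈ h.divisors, if g ∣ q then (g : ℝ) * (q : ℝ) ^ (-τ) else 0 := by
          rw [← Finset.sum_filter, Finset.sum_mul]
          refine Finset.sum_congr ?_ fun _ _ => rfl
          ext g
          rw [Finset.mem_filter, Finset.mem_filter, Nat.mem_divisors, Nat.mem_divisors]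
          have : h ≠ 0 := by omega
          tauto
  refine hle.trans ?_
  rw [Finset.sum_comm, Finset.mul_sum]
  refine Finset.sum_le_sum fun g hg => ?_
  have hg0 : 0 < g := Nat.pos_of_mem_divisors hg
  have hgR : (0 : ℝ) < g := by exact_mod_cast hg0
  rw [← Finset.sum_filter]
  have h1 : ∑ q ∈ (Finset.Icc 1 Q).filter (g ∣ ·), (g : ℝ) * (q : ℝ) ^ (-τ) =
      ∑ q ∈ (Finset.Icc 1 Q).filter (g ∣ ·), (g : ℝ) ^ (1 - τ) * ((q / g : ℕ) : ℝ) ^ (-τ) := by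
    refine Finset.sum_congr rfl fun q hq => ?_
    obtain ⟨m, rfl⟩ := (Finset.mem_filter.1 hq).2
    rw [Nat.mul_div_cancel_left m hg0]
    push_cast
    rw [Real.mul_rpow hgR.le (by positivity), ← mul_assoc]
    congr 1
    rw [sub_eq_add_neg, Real.rpow_add hgR, Real.rpow_one]
  rw [h1, ← Finset.mul_sum, mul_comm]
  refine mul_le_mul_of_nonneg_right ?_ (by positivity)
  have hinj : Set.InjOn (fun q : ℕ => q / g) ((Finset.Icc 1 Q).filter (g ∣ ·) : Finset ℕ) := by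
    intro a ha b hb hab
    obtain ⟨m, rfl⟩ := (Finset.mem_filter.1 ha).2
    obtain ⟨n, rfl⟩ := (Finset.mem_filter.1 hb).2
    simp only [Nat.mul_div_cancel_left _ hg0] at hab
    rw [hab]
  rw [← Finset.sum_image (f := fun m : ℕ => (m : ℝ) ^ (-τ)) hinj]
  have h2 := hs.sum_le_tsum (((Finset.Icc 1 Q).filter (g ∣ ·)).image fun q : ℕ => q / g)
    (fun m _ => by positivity)
  linarith

theorem tail (f : ℕ → ℝ) (hf : Summable f) (f0 : f 0 = 0) (Q : ℕ) (B : ℝ)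
    (hB : ∀ N, Q ≤ N → |∑ q ∈ Finset.Ioc Q N, f q| ≤ B) :
    |∑' k, f k - ∑ q ∈ Finset.Icc 1 Q, f q| ≤ B := by
  have h1 : Tendsto (fun N => ∑ q ∈ Finset.range (N + 1), f q) atTop (𝓝 (∑' k, f k)) :=
    (tendsto_add_atTop_iff_nat (f := fun N => ∑ q ∈ Finset.range N, f q) 1).2
      hf.hasSum.tendsto_sum_nat
  have h2 : Tendsto (fun N => |∑ q ∈ Finset.range (N + 1), f q - ∑ q ∈ Finset.Icc 1 Q, f q|)
      atTop (𝓝 |∑' k, f k - ∑ q ∈ Finset.Icc 1 Q, f q|) := (h1.sub_const _).abs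
  refine le_of_tendsto h2 ?_
  filter_upwards [eventually_ge_atTop Q] with N hN
  have e : Finset.range (N + 1) = insert 0 (Finset.Ioc 0 N) := by
    ext x
    simp only [Finset.mem_range, Finset.mem_insert, Finset.mem_Ioc]
    omega
  have e2 : Finset.Icc 1 Q = Finset.Ioc 0 Q := by
    ext x
    simp only [Finset.mem_Icc, Finset.mem_Ioc]
    omega
  rw [e, Finset.sum_insert (by simp), f0, zero_add, e2,
    ← Finset.sum_Ioc_consecutive f (Nat.zero_le Q) hN, add_sub_cancel_left]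
  exact hB N hN

theorem rho_bd (hL0 : tsL0) (s : ℕ) : ∃ C : ℝ, 0 < C ∧ ∀ q : ℕ, 1 ≤ q →
    rho s q ^ 2 ≤ C * (q : ℝ) ^ (-(7 / 4) : ℝ) := by
  obtain ⟨C, hC, h⟩ := hL0 s (1 / 8) (by norm_num)
  refine ⟨C ^ 2, by positivity, fun q hq => ?_⟩
  have hqR : (0 : ℝ) < q := by exact_mod_cast hq
  have h1 : rho s q ≤ dr s q / q := by
    have := rho_le s q (by omega)
    unfold dr
    rw [zeta_pow_apply]
    exact this
  have h2 : rho s q ≤ C * (q : ℝ) ^ (1 / 8 : ℝ) / q :=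
    h1.trans (div_le_div_of_nonneg_right (h q hq) hqR.le)
  have h3 : rho s q ^ 2 ≤ (C * (q : ℝ) ^ (1 / 8 : ℝ) / q) ^ 2 :=
    pow_le_pow_left₀ (rho_nonneg s q) h2 2
  refine h3.trans (le_of_eq ?_)
  rw [div_pow, mul_pow, mul_div_assoc]
  congr 1
  rw [← Real.rpow_natCast ((q : ℝ) ^ (1 / 8 : ℝ)) 2, ← Real.rpow_natCast (q : ℝ) 2,
    ← Real.rpow_mul hqR.le, ← Real.rpow_sub hqR]
  norm_num

end IY4

open IY4 in
theorem prY4 (hL0 : tsL0) : tsY4 := by
  intro s _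
  obtain ⟨C1, hC1, h1⟩ := sum_le (3 / 2) (by norm_num)
  obtain ⟨C2, hC2, h2⟩ := sum_le (13 / 8) (by norm_num)
  obtain ⟨C3, hC3, h3⟩ := rho_bd hL0 s
  refine ⟨C1 + C3 * C2, by positivity, fun h Q hh => ?_⟩
  have hta : 0 ≤ ta h := Finset.sum_nonneg fun _ _ => by positivity
  constructor
  · have h4 := h1 h Q hh
    have h5 : ∑ g ∈ h.divisors, (g : ℝ) ^ (1 - 3 / 2 : ℝ) = ta h := by
      unfold ta
      norm_num
    rw [h5] at h4
    refine h4.trans ?_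
    have : 0 ≤ C3 * C2 * ta h := by positivity
    linarith
  · unfold Csing
    refine tail _ ?_ (by simp) Q _ fun N hN => ?_
    · exact (summable_term s h (by omega)).of_norm
    have hQ : (0 : ℝ) < (Q : ℝ) + 1 := by positivity
    have h6 : |∑ q ∈ Finset.Ioc Q N, Gh h q * rho s q ^ 2| ≤
        ∑ q ∈ Finset.Ioc Q N, C3 * ((Q : ℝ) + 1) ^ (-(1 / 8) : ℝ) *
          (|Gh h q| * (q : ℝ) ^ (-(13 / 8) : ℝ)) := by
      refine (Finset.abs_sum_le_sum_abs _ _).trans (Finset.sum_le_sum fun q hq => ?_)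
      have hq1 : Q + 1 ≤ q := (Finset.mem_Ioc.1 hq).1
      have hqR : (0 : ℝ) < q := by exact_mod_cast (by omega : 0 < q)
      have hQq : (Q : ℝ) + 1 ≤ q := by exact_mod_cast hq1
      rw [abs_mul, abs_of_nonneg (sq_nonneg (rho s q))]
      have h7 : (q : ℝ) ^ (-(7 / 4) : ℝ) ≤
          ((Q : ℝ) + 1) ^ (-(1 / 8) : ℝ) * (q : ℝ) ^ (-(13 / 8) : ℝ) := by
        have h8 : (q : ℝ) ^ (-(7 / 4) : ℝ) =
            (q : ℝ) ^ (-(1 / 8) : ℝ) * (q : ℝ) ^ (-(13 / 8) : ℝ) := by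
          rw [← Real.rpow_add hqR]
          norm_num
        rw [h8]
        refine mul_le_mul_of_nonneg_right ?_ (by positivity)
        exact Real.rpow_le_rpow_of_nonpos hQ hQq (by norm_num)
      calc |Gh h q| * rho s q ^ 2 ≤ |Gh h q| * (C3 * (q : ℝ) ^ (-(7 / 4) : ℝ)) :=
            mul_le_mul_of_nonneg_left (h3 q (by omega)) (abs_nonneg _)
        _ ≤ |Gh h q| * (C3 * (((Q : ℝ) + 1) ^ (-(1 / 8) : ℝ) * (q : ℝ) ^ (-(13 / 8) : ℝ))) := by
            gcongr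
        _ = _ := by ring
    refine h6.trans ?_
    rw [← Finset.mul_sum]
    have h9 : ∑ q ∈ Finset.Ioc Q N, |Gh h q| * (q : ℝ) ^ (-(13 / 8) : ℝ) ≤ C2 * ta h := by
      have h10 : ∑ q ∈ Finset.Ioc Q N, |Gh h q| * (q : ℝ) ^ (-(13 / 8) : ℝ) ≤
          ∑ q ∈ Finset.Icc 1 N, |Gh h q| * (q : ℝ) ^ (-(13 / 8) : ℝ) := by
        refine Finset.sum_le_sum_of_subset_of_nonneg ?_ fun _ _ _ => by positivity
        intro q hq
        rw [Finset.mem_Ioc] at hq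
        rw [Finset.mem_Icc]
        omega
      refine h10.trans ((h2 h N hh).trans ?_)
      refine mul_le_mul_of_nonneg_left ?_ hC2.le
      unfold ta
      refine Finset.sum_le_sum fun g hg => ?_
      have hg1 : (1 : ℝ) ≤ g := by exact_mod_cast Nat.pos_of_mem_divisors hg
      exact Real.rpow_le_rpow_of_exponent_le hg1 (by norm_num)
    calc C3 * ((Q : ℝ) + 1) ^ (-(1 / 8) : ℝ) *
          ∑ q ∈ Finset.Ioc Q N, |Gh h q| * (q : ℝ) ^ (-(13 / 8) : ℝ)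
        ≤ C3 * ((Q : ℝ) + 1) ^ (-(1 / 8) : ℝ) * (C2 * ta h) := by gcongr
      _ = (C3 * C2) * ta h * ((Q : ℝ) + 1) ^ (-(1 / 8) : ℝ) := by ring
      _ ≤ (C1 + C3 * C2) * ta h * ((Q : ℝ) + 1) ^ (-(1 / 8) : ℝ) := by
          gcongr
          linarith

end Pool.Agent.Work.MP_122e00_nt.TS
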