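import Pool.Agent.Work.MP_122e00_nt.TS.Stmts10

/-!
# All powers, item Z1: a sharper bound for the coefficients of `E q`
-/

namespace Pool.Agent.Work.MP_122e00_nt.TS

open Finset Filter Topology ArithmeticFunction
open scoped ArithmeticFunction.zeta ArithmeticFunction.Moebius

namespace IZ1

/-- the residues coprime to `q` -/
def R (q : ℕ) : Finset ℕ := (Finset.range q).filter (fun a => Nat.Coprime a q)

theorem card_R (q : ℕ) : (R q).card = Nat.totient q := by
  rw [Nat.totient_eq_card_coprime]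
  unfold R
  congr 1
  exact Finset.filter_congr fun a _ => Nat.coprime_comm

/-- the mean over the residues -/
theorem mean (h1 : tsE1) (r N q : ℕ) (hq : 1 ≤ q) :
    ∑ a ∈ R q, SS (dr r) N (((a : ℕ) : ℤ) / q) =
      ((∑ n ∈ Finset.Icc 1 N, dr r n * Gh n q : ℝ) : ℂ) := by
  unfold SS
  rw [Finset.sum_comm]
  push_cast
  refine Finset.sum_congr rfl fun n _ => ?_
  rw [← h1 q n hq, Finset.mul_sum]
  refine Finset.sum_congr rfl fun a _ => ?_
  congr 2
  ring

theorem abs_Gh (h k : ℕ) : |Gh h k| ≤ ∑ g ∈ k.divisors.filter (· ∣ h), (g : ℝ) := by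
  unfold Gh
  rw [ArithmeticFunction.mul_apply]
  calc |∑ x ∈ k.divisorsAntidiagonal, (μ : ArithmeticFunction ℝ) x.1 * Fh h x.2|
      ≤ ∑ x ∈ k.divisorsAntidiagonal, |(μ : ArithmeticFunction ℝ) x.1 * Fh h x.2| :=
        Finset.abs_sum_le_sum_abs _ _
    _ ≤ ∑ x ∈ k.divisorsAntidiagonal, Fh h x.2 := by
        apply Finset.sum_le_sum
        intro x _
        rw [abs_mul]
        have h1 : |(μ : ArithmeticFunction ℝ) x.1| ≤ 1 := by
          rw [intCoe_apply, ← Int.cast_abs]
          exact_mod_cast abs_moebius_le_one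
        have h2 : 0 ≤ Fh h x.2 := by
          rw [Fh_apply]; split_ifs <;> positivity
        rw [abs_of_nonneg h2]
        exact mul_le_of_le_one_left h2 h1
    _ = ∑ g ∈ k.divisors, Fh h g := by
        rw [← Nat.map_div_left_divisors, Finset.sum_map]
        rfl
    _ = ∑ g ∈ k.divisors.filter (· ∣ h), (g : ℝ) := by
        rw [Finset.sum_filter]
        rfl

/-! ### The divisor functions -/

theorem dr_nonneg (r n : ℕ) : 0 ≤ dr r n := Nat.cast_nonneg _

theorem z_succ (r n : ℕ) :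
    ((ζ : ArithmeticFunction ℕ) ^ (r + 1)) n = ∑ d ∈ n.divisors, ((ζ : ArithmeticFunction ℕ) ^ r) d := by
  rw [pow_succ, mul_zeta_apply]

theorem z_mono (r g q : ℕ) (h : g ∣ q) (hq : q ≠ 0) :
    ((ζ : ArithmeticFunction ℕ) ^ (r + 1)) g ≤ ((ζ : ArithmeticFunction ℕ) ^ (r + 1)) q := by
  rw [z_succ, z_succ]
  exact Finset.sum_le_sum_of_subset (Nat.divisors_subset_of_dvd hq h)

theorem z_one (r : ℕ) : ((ζ : ArithmeticFunction ℕ) ^ r) 1 = 1 := by
  induction r with
  | zero => simp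
  | succ r ih => rw [z_succ, Nat.divisors_one, Finset.sum_singleton, ih]

theorem z_sub (r a b : ℕ) : ((ζ : ArithmeticFunction ℕ) ^ r) (a * b) ≤
    ((ζ : ArithmeticFunction ℕ) ^ r) a * ((ζ : ArithmeticFunction ℕ) ^ r) b := by
  induction r generalizing a b with
  | zero =>
    rw [pow_zero]
    by_cases h : a * b = 1
    · have h1 : a = 1 := Nat.eq_one_of_mul_eq_one_right h
      have h2 : b = 1 := Nat.eq_one_of_mul_eq_one_left h
      rw [h1, h2]
      simp
    · rw [ArithmeticFunction.one_apply_ne h]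
      exact Nat.zero_le _
  | succ r ih =>
    rcases Nat.eq_zero_or_pos (a * b) with h0 | h0
    · rw [h0]
      simp
    · have ha : a ≠ 0 := by
        rintro rfl
        simp at h0
      have hb : b ≠ 0 := by
        rintro rfl
        simp at h0
      rw [z_succ, z_succ, z_succ, Finset.sum_mul_sum, ← Finset.sum_product']
      have h1 : (a * b).divisors ⊆
          (a.divisors ×ˢ b.divisors).image fun x => x.1 * x.2 := by
        intro d hd
        obtain ⟨d1, d2, h2, h3, h4⟩ := Nat.dvd_mul.1 (Nat.dvd_of_mem_divisors hd)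
        exact Finset.mem_image.2 ⟨(d1, d2), Finset.mem_product.2
          ⟨Nat.mem_divisors.2 ⟨h2, ha⟩, Nat.mem_divisors.2 ⟨h3, hb⟩⟩, h4⟩
      refine (Finset.sum_le_sum_of_subset h1).trans ?_
      refine (Finset.sum_image_le_of_nonneg ?_).trans ?_
      · intro _ _
        exact Nat.zero_le _
      · exact Finset.sum_le_sum fun x _ => ih x.1 x.2

theorem harm (Q : ℕ) : ∑ a ∈ Finset.Ioc 0 Q, 1 / (a : ℝ) ≤ 1 + Real.log Q := by
  have h := harmonic_le_one_add_log Q
  have h1 : Finset.Icc 1 Q = Finset.Ioc 0 Q := by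
    ext n
    rw [Finset.mem_Icc, Finset.mem_Ioc]
    omega
  rw [harmonic_eq_sum_Icc, h1] at h
  push_cast at h
  simpa only [one_div] using h

theorem log_le {M : ℕ} {x : ℝ} (hM : (M : ℝ) ≤ x) (hx : 1 ≤ x) : Real.log M ≤ Real.log x := by
  rcases Nat.eq_zero_or_pos M with h | h
  · rw [h, Nat.cast_zero, Real.log_zero]
    exact Real.log_nonneg hx
  · exact Real.log_le_log (Nat.cast_pos.2 h) hM

/-- the sum of the divisor function -/
theorem sum_z (r N : ℕ) : ((∑ n ∈ Finset.Ioc 0 N, ((ζ : ArithmeticFunction ℕ) ^ (r + 1)) n : ℕ) : ℝ) ≤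
    N * (1 + Real.log N) ^ r := by
  induction r generalizing N with
  | zero =>
    rw [pow_zero, mul_one, zero_add, pow_one, sum_Ioc_zeta]
  | succ r ih =>
    rw [pow_succ' (ζ : ArithmeticFunction ℕ) (r + 1), sum_Ioc_mul_eq_sum_sum]
    push_cast
    have hlogN : 0 ≤ Real.log N := Real.log_natCast_nonneg N
    have h1 : ∀ n ∈ Finset.Ioc 0 N, (((ζ : ArithmeticFunction ℕ) n : ℕ) : ℝ) *
        ∑ m ∈ Finset.Ioc 0 (N / n), ((((ζ : ArithmeticFunction ℕ) ^ (r + 1)) m : ℕ) : ℝ) ≤
        (N : ℝ) * (1 + Real.log N) ^ r * (1 / (n : ℝ)) := by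
      intro n hn
      obtain ⟨hn0, hnN⟩ := Finset.mem_Ioc.1 hn
      have hn0' : (0 : ℝ) < n := Nat.cast_pos.2 hn0
      have hN1 : (1 : ℝ) ≤ N := by exact_mod_cast hn0.trans_le hnN
      rw [zeta_apply_ne hn0.ne', Nat.cast_one, one_mul]
      have h2 := ih (N / n)
      push_cast at h2
      refine h2.trans ?_
      have h3 : (((N / n : ℕ)) : ℝ) ≤ (N : ℝ) / n := Nat.cast_div_le
      have h4 : (((N / n : ℕ)) : ℝ) ≤ (N : ℝ) := by
        exact_mod_cast Nat.div_le_self N n
      have h5 : (1 + Real.log ((N / n : ℕ) : ℝ)) ^ r ≤ (1 + Real.log N) ^ r := by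
        refine pow_le_pow_left₀ ?_ ?_ r
        · have := Real.log_natCast_nonneg (N / n)
          linarith
        · have := log_le h4 hN1
          linarith
      calc (((N / n : ℕ)) : ℝ) * (1 + Real.log ((N / n : ℕ) : ℝ)) ^ r
          ≤ (N : ℝ) / n * (1 + Real.log N) ^ r := by
            refine mul_le_mul h3 h5 ?_ (by positivity)
            have := Real.log_natCast_nonneg (N / n)
            positivity
        _ = (N : ℝ) * (1 + Real.log N) ^ r * (1 / (n : ℝ)) := by ring
    refine (Finset.sum_le_sum h1).trans ?_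
    rw [← Finset.mul_sum]
    calc (N : ℝ) * (1 + Real.log N) ^ r * ∑ a ∈ Finset.Ioc 0 N, 1 / (a : ℝ)
        ≤ (N : ℝ) * (1 + Real.log N) ^ r * (1 + Real.log N) :=
          mul_le_mul_of_nonneg_left (harm N) (by positivity)
      _ = (N : ℝ) * (1 + Real.log N) ^ (r + 1) := by ring

/-- the sum over the multiples of `g` -/
theorem sum_mult (r N g : ℕ) (hg : 1 ≤ g) (x : ℝ) (hN : (N : ℝ) ≤ x) (hx : 1 ≤ x) :
    ∑ n ∈ (Finset.Icc 1 N).filter (g ∣ ·), dr (r + 1) n ≤
      dr (r + 1) g * (x / g * (1 + Real.log x) ^ r) := by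
  have hg0 : (0 : ℝ) < g := Nat.cast_pos.2 hg
  have h1 : (Finset.Icc 1 N).filter (g ∣ ·) ⊆ (Finset.Ioc 0 (N / g)).image (g * ·) := by
    intro n hn
    obtain ⟨hn1, ⟨m, rfl⟩⟩ := Finset.mem_filter.1 hn
    obtain ⟨hn2, hn3⟩ := Finset.mem_Icc.1 hn1
    refine Finset.mem_image.2 ⟨m, Finset.mem_Ioc.2 ⟨?_, ?_⟩, rfl⟩
    · rcases Nat.eq_zero_or_pos m with h | h
      · rw [h, mul_zero] at hn2
        omega
      · exact h
    · exact (Nat.le_div_iff_mul_le hg).2 (by rw [mul_comm]; exact hn3)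
  have h2 : ∑ n ∈ (Finset.Icc 1 N).filter (g ∣ ·), dr (r + 1) n ≤
      ∑ m ∈ Finset.Ioc 0 (N / g), dr (r + 1) (g * m) := by
    refine (Finset.sum_le_sum_of_subset_of_nonneg h1 fun _ _ _ => dr_nonneg _ _).trans ?_
    exact Finset.sum_image_le_of_nonneg fun _ _ => dr_nonneg _ _
  have h3 : ∑ m ∈ Finset.Ioc 0 (N / g), dr (r + 1) (g * m) ≤
      dr (r + 1) g * ∑ m ∈ Finset.Ioc 0 (N / g), dr (r + 1) m := by
    rw [Finset.mul_sum]
    refine Finset.sum_le_sum fun m _ => ?_
    unfold dr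
    exact_mod_cast z_sub (r + 1) g m
  have h4 := sum_z r (N / g)
  push_cast at h4
  have h5 : (((N / g : ℕ)) : ℝ) ≤ x / g := by
    refine (Nat.cast_div_le (α := ℝ)).trans ?_
    exact div_le_div_of_nonneg_right hN hg0.le
  have h6 : (((N / g : ℕ)) : ℝ) ≤ x := by
    refine le_trans ?_ hN
    exact_mod_cast Nat.div_le_self N g
  have h7 : (1 + Real.log ((N / g : ℕ) : ℝ)) ^ r ≤ (1 + Real.log x) ^ r := by
    refine pow_le_pow_left₀ ?_ ?_ r
    · have := Real.log_natCast_nonneg (N / g)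
      linarith
    · have := log_le h6 hx
      linarith
  refine (h2.trans h3).trans (mul_le_mul_of_nonneg_left ?_ (dr_nonneg _ _))
  refine h4.trans ?_
  refine mul_le_mul h5 h7 ?_ ?_
  · have := Real.log_natCast_nonneg (N / g)
    positivity
  · positivity

/-- the sum over all residues -/
theorem main_sum (r N q : ℕ) (hq : 1 ≤ q) (x : ℝ) (hN : (N : ℝ) ≤ x) (hx : 1 ≤ x) :
    |∑ n ∈ Finset.Icc 1 N, dr (r + 1) n * Gh n q| ≤
      (q.divisors.card : ℝ) * dr (r + 1) q * (x * (1 + Real.log x) ^ r) := by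
  have hlx : 0 ≤ Real.log x := Real.log_nonneg hx
  calc |∑ n ∈ Finset.Icc 1 N, dr (r + 1) n * Gh n q|
      ≤ ∑ n ∈ Finset.Icc 1 N, |dr (r + 1) n * Gh n q| := Finset.abs_sum_le_sum_abs _ _
    _ ≤ ∑ n ∈ Finset.Icc 1 N, ∑ g ∈ q.divisors, if g ∣ n then (g : ℝ) * dr (r + 1) n else 0 := by
        refine Finset.sum_le_sum fun n _ => ?_
        rw [abs_mul, abs_of_nonneg (dr_nonneg _ _)]
        refine (mul_le_mul_of_nonneg_left (abs_Gh n q) (dr_nonneg _ _)).trans (le_of_eq ?_)
        rw [← Finset.sum_filter, Finset.mul_sum]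
        exact Finset.sum_congr rfl fun g _ => mul_comm _ _
    _ = ∑ g ∈ q.divisors, (g : ℝ) * ∑ n ∈ (Finset.Icc 1 N).filter (g ∣ ·), dr (r + 1) n := by
        rw [Finset.sum_comm]
        refine Finset.sum_congr rfl fun g _ => ?_
        rw [← Finset.sum_filter, Finset.mul_sum]
    _ ≤ ∑ g ∈ q.divisors, dr (r + 1) q * (x * (1 + Real.log x) ^ r) := by
        refine Finset.sum_le_sum fun g hg => ?_
        have hgq := Nat.dvd_of_mem_divisors hg
        have hg1 : 1 ≤ g := Nat.pos_of_mem_divisors hg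
        have hg0 : (0 : ℝ) < g := Nat.cast_pos.2 hg1
        refine (mul_le_mul_of_nonneg_left (sum_mult r N g hg1 x hN hx) hg0.le).trans ?_
        have h1 : (g : ℝ) * (dr (r + 1) g * (x / g * (1 + Real.log x) ^ r)) =
            dr (r + 1) g * (x * (1 + Real.log x) ^ r) := by
          field_simp
        rw [h1]
        refine mul_le_mul_of_nonneg_right ?_ (by positivity)
        unfold dr
        exact_mod_cast z_mono r g q hgq (by omega)
    _ = (q.divisors.card : ℝ) * dr (r + 1) q * (x * (1 + Real.log x) ^ r) := by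
        rw [Finset.sum_const, nsmul_eq_mul]
        ring

/-- a coefficient is at most the sum of all coefficients -/
theorem coeff_le (p : Polynomial ℝ) (j : ℕ) :
    |p.coeff j| ≤ ∑ i ∈ Finset.range (p.natDegree + 1), |p.coeff i| := by
  by_cases hj : j ≤ p.natDegree
  · exact Finset.single_le_sum (f := fun i => |p.coeff i|) (fun i _ => abs_nonneg _)
      (Finset.mem_range.2 (by omega))
  · rw [Polynomial.coeff_eq_zero_of_natDegree_lt (by omega), abs_zero]
    exact Finset.sum_nonneg fun i _ => abs_nonneg _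

theorem be_one (r : ℕ) : be r 1 = 1 := by
  unfold be dr
  rw [z_one]
  simp

theorem one_div_le_be (r q : ℕ) (hq : 1 ≤ q) : 1 / (q : ℝ) ≤ be (r + 1) q := by
  unfold be
  have hφ : (0 : ℝ) < (Nat.totient q : ℝ) := Nat.cast_pos.2 (Nat.totient_pos.2 hq)
  have hφq : (Nat.totient q : ℝ) ≤ q := by exact_mod_cast Nat.totient_le q
  have h1 : (1 : ℝ) ≤ (q.divisors.card : ℝ) := by
    have : 0 < q.divisors.card := Finset.card_pos.2 ⟨1, Nat.one_mem_divisors.2 (by omega)⟩
    exact_mod_cast this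
  have h2 : (1 : ℝ) ≤ dr (r + 1) q := by
    have h3 := z_mono r 1 q (one_dvd q) (by omega)
    rw [z_one] at h3
    unfold dr
    exact_mod_cast h3
  have h4 : (1 : ℝ) ≤ (1 + Real.log q) ^ (r + 1) := by
    refine one_le_pow₀ ?_
    have := Real.log_natCast_nonneg q
    linarith
  have h5 : (1 : ℝ) ≤ (q.divisors.card : ℝ) * dr (r + 1) q * (1 + Real.log q) ^ (r + 1) := by
    calc (1 : ℝ) = 1 * 1 * 1 := by ring
      _ ≤ _ := mul_le_mul (mul_le_mul h1 h2 zero_le_one (by linarith)) h4 zero_le_one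
          (mul_nonneg (by linarith) (by linarith))
  exact div_le_div₀ (by linarith) h5 hφ hφq

end IZ1

theorem prZ1 (hE1 : tsE1) (hE4 : tsE4) : tsZ1 := by
  intro r E hr hAP
  obtain ⟨hdeg, -, c, C, hc, hc4, hC, hap⟩ := hAP
  obtain ⟨s, rfl⟩ : ∃ s, r = s + 1 := ⟨r - 1, by omega⟩
  obtain ⟨K, hK2, hK3⟩ : ∃ K : ℝ, 2 ≤ K ∧ C + 1 ≤ K * c := by
    refine ⟨max 2 ((C + 1) / c), le_max_left _ _, ?_⟩
    have h : (C + 1) / c ≤ max 2 ((C + 1) / c) := le_max_right _ _
    rwa [div_le_iff₀ hc] at h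
  have hK0 : 0 < K := by linarith
  obtain ⟨C₅, hC₅, h5⟩ := hE4 (s + 1 - 1)
  obtain ⟨S, hS⟩ : ∃ S, S = ∑ i ∈ Finset.range ((E 1).natDegree + 1), |(E 1).coeff i| := ⟨_, rfl⟩
  have hS0 : 0 ≤ S := by
    rw [hS]
    exact Finset.sum_nonneg fun i _ => abs_nonneg _
  refine ⟨C₅ * ((2 * K) ^ s + C) + S, by positivity, ?_⟩
  intro q j hq
  rcases Nat.lt_or_ge q 2 with hq2 | hq2
  · have : q = 1 := by omega
    subst this
    rw [IZ1.be_one, mul_one]
    have h : |(E 1).coeff j| ≤ S := by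
      rw [hS]
      exact IZ1.coeff_le (E 1) j
    have h' : 0 ≤ C₅ * ((2 * K) ^ s + C) := by positivity
    linarith
  have hqR : (2 : ℝ) ≤ q := by exact_mod_cast hq2
  have hq1 : (1 : ℝ) ≤ q := by linarith
  have hq0 : (0 : ℝ) < q := by linarith
  have hlog : Real.log 2 ≤ Real.log q := Real.log_le_log (by norm_num) hqR
  have hlog2 : (0.6931471803 : ℝ) < Real.log 2 := Real.log_two_gt_d9
  have hA : 1 ≤ K * Real.log q := by nlinarith
  have hlq : 0 < Real.log q := by linarith
  have hφ : (0 : ℝ) < (Nat.totient q : ℝ) := Nat.cast_pos.2 (Nat.totient_pos.2 (by omega))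
  have hbe := IZ1.one_div_le_be s q hq
  have hbe0 : 0 ≤ be (s + 1) q := le_trans (by positivity) hbe
  have hb := h5 (E q) (hdeg q) (K * Real.log q) (((2 * K) ^ s + C) * be (s + 1) q) hA
    (by positivity) (by
      intro t ht
      obtain ⟨ht1, ht2⟩ := ht
      obtain ⟨x, hx⟩ : ∃ x, x = Real.exp t := ⟨_, rfl⟩
      have hlogx : Real.log x = t := by
        rw [hx]
        exact Real.log_exp t
      have hx1 : (q : ℝ) ^ K ≤ x := by
        rw [hx, Real.rpow_def_of_pos hq0]
        apply Real.exp_le_exp.2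
        linarith [mul_comm K (Real.log q)]
      have hx0 : 0 < x := by
        rw [hx]
        exact Real.exp_pos t
      have hqK : (q : ℝ) ≤ (q : ℝ) ^ K := by
        calc (q : ℝ) = (q : ℝ) ^ (1 : ℝ) := (Real.rpow_one _).symm
          _ ≤ (q : ℝ) ^ K := Real.rpow_le_rpow_of_exponent_le hq1 (by linarith)
      have hqx : (q : ℝ) ≤ x := hqK.trans hx1
      have hx1' : 1 ≤ x := hq1.trans hqx
      have hlx : 0 ≤ Real.log x := Real.log_nonneg hx1'
      -- the error term of AP
      have herr : (q : ℝ) ^ C * x ^ (1 - c) ≤ x / q := by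
        have h5 : (q : ℝ) ^ C * q ≤ x ^ c := by
          calc (q : ℝ) ^ C * q = (q : ℝ) ^ (C + 1) := by rw [Real.rpow_add hq0, Real.rpow_one]
            _ ≤ (q : ℝ) ^ (K * c) := Real.rpow_le_rpow_of_exponent_le hq1 hK3
            _ = ((q : ℝ) ^ K) ^ c := Real.rpow_mul hq0.le _ _
            _ ≤ x ^ c := Real.rpow_le_rpow (Real.rpow_nonneg hq0.le _) hx1 hc.le
        rw [Real.rpow_sub hx0, Real.rpow_one, le_div_iff₀ hq0]
        have hxc : 0 < x ^ c := Real.rpow_pos_of_pos hx0 c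
        rw [show (q : ℝ) ^ C * (x / x ^ c) * q = ((q : ℝ) ^ C * q) * x / x ^ c by ring,
          div_le_iff₀ hxc]
        rw [mul_comm x]
        exact mul_le_mul_of_nonneg_right h5 hx0.le
      -- the sum over the residues
      have hsum : ‖∑ a ∈ IZ1.R q, (SS (dr (s + 1)) ⌊x⌋₊ (((a : ℕ) : ℤ) / q) -
          ((x * (E q).eval (Real.log x) : ℝ) : ℂ))‖ ≤ (Nat.totient q : ℝ) * (C * (x / q)) := by
        refine (norm_sum_le _ _).trans ?_
        have h6 : ∀ a ∈ IZ1.R q, ‖SS (dr (s + 1)) ⌊x⌋₊ (((a : ℕ) : ℤ) / q) -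
            ((x * (E q).eval (Real.log x) : ℝ) : ℂ)‖ ≤ C * (x / q) := by
          intro a ha
          have hcop : IsCoprime ((a : ℕ) : ℤ) (q : ℤ) :=
            Nat.isCoprime_iff_coprime.2 (Finset.mem_filter.1 ha).2
          refine (hap q (a : ℤ) x hq hcop hx1').trans ?_
          rw [mul_assoc]
          exact mul_le_mul_of_nonneg_left herr hC.le
        refine (Finset.sum_le_sum h6).trans (le_of_eq ?_)
        rw [Finset.sum_const, IZ1.card_R, nsmul_eq_mul]
      rw [Finset.sum_sub_distrib, IZ1.mean hE1 (s + 1) ⌊x⌋₊ q hq, Finset.sum_const, IZ1.card_R,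
        nsmul_eq_mul] at hsum
      have hmain := IZ1.main_sum s ⌊x⌋₊ q hq x (Nat.floor_le hx0.le) hx1'
      have h7 : (Nat.totient q : ℝ) * (x * |(E q).eval (Real.log x)|) ≤
          (q.divisors.card : ℝ) * dr (s + 1) q * (x * (1 + Real.log x) ^ s) +
            (Nat.totient q : ℝ) * (C * (x / q)) := by
        have h8 : ((∑ n ∈ Finset.Icc 1 ⌊x⌋₊, dr (s + 1) n * Gh n q : ℝ) : ℂ) -
            ((Nat.totient q : ℕ) : ℂ) * ((x * (E q).eval (Real.log x) : ℝ) : ℂ) =
            ((∑ n ∈ Finset.Icc 1 ⌊x⌋₊, dr (s + 1) n * Gh n q -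
              (Nat.totient q : ℝ) * (x * (E q).eval (Real.log x)) : ℝ) : ℂ) := by
          push_cast
          ring
        rw [h8, Complex.norm_real, Real.norm_eq_abs] at hsum
        have h9 : |(Nat.totient q : ℝ) * (x * (E q).eval (Real.log x))| =
            (Nat.totient q : ℝ) * (x * |(E q).eval (Real.log x)|) := by
          rw [abs_mul, abs_mul, abs_of_pos hφ, abs_of_pos hx0]
        rw [← h9]
        have h10 := abs_sub_abs_le_abs_sub ((Nat.totient q : ℝ) * (x * (E q).eval (Real.log x)))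
          (∑ n ∈ Finset.Icc 1 ⌊x⌋₊, dr (s + 1) n * Gh n q)
        rw [abs_sub_comm] at h10
        linarith
      -- the logarithm
      have h11 : (1 + Real.log x) ^ s ≤ (2 * K) ^ s * (1 + Real.log q) ^ (s + 1) := by
        have h12 : 1 + Real.log x ≤ 2 * K * (1 + Real.log q) := by
          rw [hlogx]
          nlinarith
        calc (1 + Real.log x) ^ s ≤ (2 * K * (1 + Real.log q)) ^ s :=
              pow_le_pow_left₀ (by linarith) h12 s
          _ = (2 * K) ^ s * (1 + Real.log q) ^ s := mul_pow _ _ _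
          _ ≤ (2 * K) ^ s * (1 + Real.log q) ^ (s + 1) := by
              refine mul_le_mul_of_nonneg_left ?_ (by positivity)
              exact pow_le_pow_right₀ (by linarith) (Nat.le_succ s)
      rw [← hlogx]
      have h13 : (q.divisors.card : ℝ) * dr (s + 1) q * (x * (1 + Real.log x) ^ s) ≤
          (Nat.totient q : ℝ) * (x * ((2 * K) ^ s * be (s + 1) q)) := by
        have h14 : (Nat.totient q : ℝ) * (x * ((2 * K) ^ s * be (s + 1) q)) =
            (q.divisors.card : ℝ) * dr (s + 1) q *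
              (x * ((2 * K) ^ s * (1 + Real.log q) ^ (s + 1))) := by
          unfold be
          field_simp
        rw [h14]
        refine mul_le_mul_of_nonneg_left (mul_le_mul_of_nonneg_left h11 hx0.le) ?_
        exact mul_nonneg (Nat.cast_nonneg _) (IZ1.dr_nonneg _ _)
      have h15 : (Nat.totient q : ℝ) * (C * (x / q)) ≤
          (Nat.totient q : ℝ) * (x * (C * be (s + 1) q)) := by
        refine mul_le_mul_of_nonneg_left ?_ hφ.le
        have h16 : C * (x / q) = x * (C * (1 / (q : ℝ))) := by ring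
        rw [h16]
        exact mul_le_mul_of_nonneg_left (mul_le_mul_of_nonneg_left hbe hC.le) hx0.le
      have h17 : (Nat.totient q : ℝ) * (x * |(E q).eval (Real.log x)|) ≤
          (Nat.totient q : ℝ) * (x * (((2 * K) ^ s + C) * be (s + 1) q)) := by
        refine (h7.trans (add_le_add h13 h15)).trans (le_of_eq ?_)
        ring
      exact le_of_mul_le_mul_left (le_of_mul_le_mul_left h17 hφ) hx0) j
  calc |(E q).coeff j| ≤ C₅ * (((2 * K) ^ s + C) * be (s + 1) q) := hb
    _ = C₅ * ((2 * K) ^ s + C) * be (s + 1) q := by ring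
    _ ≤ (C₅ * ((2 * K) ^ s + C) + S) * be (s + 1) q :=
        mul_le_mul_of_nonneg_right (by linarith) hbe0

end Pool.Agent.Work.MP_122e00_nt.TS
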