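import Mathlib
import Pool.Agent.Work.MP_122e00_nt.TS.Stmts10
import Pool.Agent.Work.MP_122e00_nt.TS.I_L0
import Pool.Agent.Work.MP_122e00_nt.TS.I_Y4
import Pool.Agent.Work.MP_122e00_nt.BV6

/-!
# All powers, item Z3: the sum of the error terms
-/

namespace Pool.Agent.Work.MP_122e00_nt.TS

open Finset Filter Topology ArithmeticFunction
open scoped ArithmeticFunction.zeta ArithmeticFunction.Moebius

namespace IZ3

theorem card_mul_le' (a b : ℕ) :
    (a * b).divisors.card ≤ a.divisors.card * b.divisors.card := by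
  classical
  have h : (a * b).divisors ⊆ (a.divisors ×ˢ b.divisors).image (fun x => x.1 * x.2) := by
    intro d hd
    obtain ⟨h1, h2⟩ := Nat.mem_divisors.1 hd
    obtain ⟨x, y, hx, hy, hxy⟩ := exists_dvd_and_dvd_of_dvd_mul h1
    have ha : a ≠ 0 := left_ne_zero_of_mul h2
    have hb : b ≠ 0 := right_ne_zero_of_mul h2
    exact Finset.mem_image.2 ⟨(x, y), Finset.mem_product.2
      ⟨Nat.mem_divisors.2 ⟨hx, ha⟩, Nat.mem_divisors.2 ⟨hy, hb⟩⟩, hxy.symm⟩
  calc (a * b).divisors.card ≤ ((a.divisors ×ˢ b.divisors).image (fun x => x.1 * x.2)).card :=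
        Finset.card_le_card h
    _ ≤ (a.divisors ×ˢ b.divisors).card := Finset.card_image_le
    _ = _ := Finset.card_product _ _

theorem zeta_pow_le_card (s q : ℕ) (hq : q ≠ 0) :
    ((ζ : ArithmeticFunction ℕ) ^ (s + 1)) q ≤ q.divisors.card ^ s := by
  induction s generalizing q with
  | zero => simp [hq]
  | succ s ih =>
    rw [pow_succ, ArithmeticFunction.mul_apply]
    calc ∑ x ∈ q.divisorsAntidiagonal,
          ((ζ : ArithmeticFunction ℕ) ^ (s + 1)) x.1 * (ζ : ArithmeticFunction ℕ) x.2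
        ≤ ∑ x ∈ q.divisorsAntidiagonal, q.divisors.card ^ s := by
          refine Finset.sum_le_sum fun x hx => ?_
          obtain ⟨hx1, _⟩ := Nat.mem_divisorsAntidiagonal.1 hx
          have h1 : x.1 ≠ 0 := by
            rintro h0
            rw [h0, zero_mul] at hx1
            exact hq hx1.symm
          have h2 : x.2 ≠ 0 := by
            rintro h0
            rw [h0, mul_zero] at hx1
            exact hq hx1.symm
          rw [ArithmeticFunction.zeta_apply_ne h2, mul_one]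
          refine (ih x.1 h1).trans (Nat.pow_le_pow_left ?_ s)
          exact Finset.card_le_card (Nat.divisors_subset_of_dvd hq ⟨x.2, hx1.symm⟩)
      _ = q.divisors.card ^ (s + 1) := by
          rw [Finset.sum_const, smul_eq_mul, ← Nat.map_div_right_divisors, Finset.card_map,
            pow_succ']

theorem dr_le_card (r q : ℕ) (hr : 1 ≤ r) (hq : q ≠ 0) :
    dr r q ≤ (q.divisors.card : ℝ) ^ (r - 1) := by
  obtain ⟨s, rfl⟩ : ∃ s, r = s + 1 := ⟨r - 1, by omega⟩
  unfold dr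
  have := zeta_pow_le_card s q hq
  rw [Nat.add_sub_cancel]
  exact_mod_cast this

theorem dr_nonneg' (r q : ℕ) : 0 ≤ dr r q := by
  unfold dr
  positivity

/-- the weight -/
noncomputable def w (r q : ℕ) : ℝ :=
  (q.divisors.card : ℝ) ^ (2 * r) * ((q : ℝ) / (Nat.totient q : ℝ)) ^ 2 *
    (1 + Real.log q) ^ (2 * r)

theorem w_nonneg (r q : ℕ) : 0 ≤ w r q := by
  unfold w
  have : 0 ≤ Real.log q := Real.log_natCast_nonneg q
  positivity

theorem be_sq (r q : ℕ) (hr : 1 ≤ r) (hq : 1 ≤ q) : be r q ^ 2 ≤ w r q / (q : ℝ) ^ 2 := by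
  have hq0 : (0 : ℝ) < q := by exact_mod_cast hq
  have hφ : (0 : ℝ) < (Nat.totient q : ℝ) := by exact_mod_cast Nat.totient_pos.2 hq
  have hl : 0 ≤ Real.log q := Real.log_natCast_nonneg q
  have h1 := dr_le_card r q hr (by omega)
  have h2 := dr_nonneg' r q
  have hd : (0 : ℝ) ≤ (q.divisors.card : ℝ) := by positivity
  have e1 : (q.divisors.card : ℝ) * dr r q ≤ (q.divisors.card : ℝ) ^ r := by
    calc (q.divisors.card : ℝ) * dr r q
        ≤ (q.divisors.card : ℝ) * (q.divisors.card : ℝ) ^ (r - 1) := by gcongr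
      _ = (q.divisors.card : ℝ) ^ r := by
          rw [← pow_succ']
          congr 1
          omega
  have e2 : be r q ≤ (q.divisors.card : ℝ) ^ r * (1 + Real.log q) ^ r / (Nat.totient q : ℝ) := by
    unfold be
    gcongr
  have e3 : 0 ≤ be r q := by
    unfold be
    positivity
  calc be r q ^ 2
      ≤ ((q.divisors.card : ℝ) ^ r * (1 + Real.log q) ^ r / (Nat.totient q : ℝ)) ^ 2 :=
        pow_le_pow_left₀ e3 e2 2
    _ = w r q / (q : ℝ) ^ 2 := by
        unfold w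
        rw [div_pow, mul_pow, ← pow_mul, ← pow_mul, div_pow, mul_comm r 2]
        field_simp

theorem w_mul (r g m : ℕ) (hg : 1 ≤ g) (hm : 1 ≤ m) : w r (g * m) ≤ w r g * w r m := by
  have hg0 : (0 : ℝ) < g := by exact_mod_cast hg
  have hm0 : (0 : ℝ) < m := by exact_mod_cast hm
  have hφg : (0 : ℝ) < (Nat.totient g : ℝ) := by exact_mod_cast Nat.totient_pos.2 hg
  have hφm : (0 : ℝ) < (Nat.totient m : ℝ) := by exact_mod_cast Nat.totient_pos.2 hm
  have hlg : 0 ≤ Real.log g := Real.log_natCast_nonneg g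
  have hlm : 0 ≤ Real.log m := Real.log_natCast_nonneg m
  have h1 : ((g * m).divisors.card : ℝ) ≤ (g.divisors.card : ℝ) * (m.divisors.card : ℝ) := by
    exact_mod_cast card_mul_le' g m
  have h2 : (Nat.totient g : ℝ) * (Nat.totient m : ℝ) ≤ (Nat.totient (g * m) : ℝ) := by
    exact_mod_cast Nat.totient_super_multiplicative g m
  have h3 : ((g * m : ℕ) : ℝ) / (Nat.totient (g * m) : ℝ) ≤
      ((g : ℝ) / (Nat.totient g : ℝ)) * ((m : ℝ) / (Nat.totient m : ℝ)) := by
    rw [div_mul_div_comm]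
    push_cast
    exact div_le_div_of_nonneg_left (by positivity) (by positivity) h2
  have h4 : 1 + Real.log ((g * m : ℕ) : ℝ) ≤ (1 + Real.log g) * (1 + Real.log m) := by
    push_cast
    rw [Real.log_mul hg0.ne' hm0.ne']
    nlinarith [mul_nonneg hlg hlm]
  have h5 : 0 ≤ Real.log ((g * m : ℕ) : ℝ) := Real.log_natCast_nonneg _
  unfold w
  calc ((g * m).divisors.card : ℝ) ^ (2 * r) *
        (((g * m : ℕ) : ℝ) / (Nat.totient (g * m) : ℝ)) ^ 2 *
        (1 + Real.log ((g * m : ℕ) : ℝ)) ^ (2 * r)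
      ≤ ((g.divisors.card : ℝ) * (m.divisors.card : ℝ)) ^ (2 * r) *
        (((g : ℝ) / (Nat.totient g : ℝ)) * ((m : ℝ) / (Nat.totient m : ℝ))) ^ 2 *
        ((1 + Real.log g) * (1 + Real.log m)) ^ (2 * r) := by
        gcongr
    _ = _ := by
        rw [mul_pow, mul_pow, mul_pow]
        ring

theorem w_bound (r : ℕ) : ∃ C : ℝ, 0 < C ∧ ∀ m : ℕ, 1 ≤ m → w r m ≤ C * (m : ℝ) ^ (1 / 2 : ℝ) := by
  set ε : ℝ := 1 / (4 * (2 * r + 2)) with hε
  have hε0 : 0 < ε := by positivity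
  obtain ⟨C1, hC1, h1⟩ := prL0 2 ε hε0
  refine ⟨C1 ^ (2 * r + 2) * (1 + 1 / ε) ^ (2 * r), by positivity, fun m hm => ?_⟩
  have hm0 : (0 : ℝ) < m := by exact_mod_cast hm
  have hm1 : (1 : ℝ) ≤ m := by exact_mod_cast hm
  have hφm : (0 : ℝ) < (Nat.totient m : ℝ) := by exact_mod_cast Nat.totient_pos.2 hm
  have hlm : 0 ≤ Real.log m := Real.log_natCast_nonneg m
  have hd : (m.divisors.card : ℝ) ≤ C1 * (m : ℝ) ^ ε := by
    have h2 := h1 m hm
    have h3 : dr 2 m = (m.divisors.card : ℝ) := by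
      unfold dr
      rw [pow_two, ArithmeticFunction.mul_apply]
      have h4 : ∑ x ∈ m.divisorsAntidiagonal,
          (ζ : ArithmeticFunction ℕ) x.1 * (ζ : ArithmeticFunction ℕ) x.2 =
          ∑ x ∈ m.divisorsAntidiagonal, 1 := by
        refine Finset.sum_congr rfl fun x hx => ?_
        obtain ⟨hx1, hx2⟩ := Nat.mem_divisorsAntidiagonal.1 hx
        have h5 : x.1 ≠ 0 := by
          rintro h0
          rw [h0, zero_mul] at hx1
          exact hx2 hx1.symm
        have h6 : x.2 ≠ 0 := by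
          rintro h0
          rw [h0, mul_zero] at hx1
          exact hx2 hx1.symm
        rw [ArithmeticFunction.zeta_apply_ne h5, ArithmeticFunction.zeta_apply_ne h6]
      rw [h4, Finset.sum_const, smul_eq_mul, mul_one, ← Nat.map_div_right_divisors,
        Finset.card_map]
    rwa [h3] at h2
  have hf : (m : ℝ) / (Nat.totient m : ℝ) ≤ (m.divisors.card : ℝ) := by
    rw [div_le_iff₀ hφm]
    exact_mod_cast self_le_card_divisors_mul_totient m (by omega)
  have hl : 1 + Real.log m ≤ (1 + 1 / ε) * (m : ℝ) ^ ε := by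
    have h2 := Real.log_le_rpow_div hm0.le hε0
    have h3 : (1 : ℝ) ≤ (m : ℝ) ^ ε := Real.one_le_rpow hm1 hε0.le
    calc 1 + Real.log m ≤ (m : ℝ) ^ ε + (m : ℝ) ^ ε / ε := add_le_add h3 h2
      _ = _ := by ring
  have hmε : ((m : ℝ) ^ ε) ^ (2 * r + 2) * ((m : ℝ) ^ ε) ^ (2 * r) ≤ (m : ℝ) ^ (1 / 2 : ℝ) := by
    rw [← pow_add, ← Real.rpow_natCast, ← Real.rpow_mul hm0.le]
    refine Real.rpow_le_rpow_of_exponent_le hm1 ?_
    rw [hε]
    push_cast
    rw [one_div_mul_eq_div, div_le_iff₀ (by positivity)]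
    linarith
  unfold w
  calc (m.divisors.card : ℝ) ^ (2 * r) * ((m : ℝ) / (Nat.totient m : ℝ)) ^ 2 *
        (1 + Real.log m) ^ (2 * r)
      ≤ (m.divisors.card : ℝ) ^ (2 * r) * (m.divisors.card : ℝ) ^ 2 *
        (1 + Real.log m) ^ (2 * r) := by gcongr
    _ = (m.divisors.card : ℝ) ^ (2 * r + 2) * (1 + Real.log m) ^ (2 * r) := by
        rw [← pow_add]
    _ ≤ (C1 * (m : ℝ) ^ ε) ^ (2 * r + 2) * ((1 + 1 / ε) * (m : ℝ) ^ ε) ^ (2 * r) := by gcongr
    _ = C1 ^ (2 * r + 2) * (1 + 1 / ε) ^ (2 * r) *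
        (((m : ℝ) ^ ε) ^ (2 * r + 2) * ((m : ℝ) ^ ε) ^ (2 * r)) := by
        rw [mul_pow, mul_pow]
        ring
    _ ≤ C1 ^ (2 * r + 2) * (1 + 1 / ε) ^ (2 * r) * (m : ℝ) ^ (1 / 2 : ℝ) := by gcongr

theorem summable_w (r : ℕ) : Summable (fun m : ℕ => w r m / (m : ℝ) ^ 2) := by
  obtain ⟨C, hC, h⟩ := w_bound r
  have hs : Summable (fun m : ℕ => C * (m : ℝ) ^ (-(3 / 2) : ℝ)) :=
    (Real.summable_nat_rpow.2 (by norm_num)).mul_left C
  refine Summable.of_nonneg_of_le (fun m => ?_) (fun m => ?_) hs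
  · exact div_nonneg (w_nonneg r m) (by positivity)
  · rcases Nat.eq_zero_or_pos m with hm | hm
    · subst hm
      norm_num
    · have hm0 : (0 : ℝ) < m := by exact_mod_cast hm
      calc w r m / (m : ℝ) ^ 2 ≤ C * (m : ℝ) ^ (1 / 2 : ℝ) / (m : ℝ) ^ 2 := by
            gcongr
            exact h m hm
        _ = C * (m : ℝ) ^ (-(3 / 2) : ℝ) := by
            rw [mul_div_assoc]
            congr 1
            rw [← Real.rpow_natCast (m : ℝ) 2, ← Real.rpow_sub hm0]
            norm_num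

theorem one_le_ll (h : ℕ) : 1 ≤ ll h := by
  unfold ll
  have h0 : (0 : ℝ) ≤ (h : ℝ) := by positivity
  have h1 : Real.exp 1 ≤ Real.log ((h : ℝ) + 16) := by
    have h2 : Real.log 16 ≤ Real.log ((h : ℝ) + 16) :=
      Real.log_le_log (by norm_num) (by linarith)
    have h3 : Real.log 16 = 4 * Real.log 2 := by
      rw [show (16 : ℝ) = 2 ^ 4 by norm_num, Real.log_pow]
      norm_num
    have h4 := Real.log_two_gt_d9
    have h5 := Real.exp_one_lt_d9
    linarith
  calc (1 : ℝ) = Real.log (Real.exp 1) := (Real.log_exp 1).symm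
    _ ≤ _ := Real.log_le_log (Real.exp_pos 1) h1

theorem sum_le' (r : ℕ) (hr : 1 ≤ r) : ∃ S : ℝ, 0 < S ∧ ∀ h Q : ℕ, 1 ≤ h →
    ∑ q ∈ Finset.Icc 1 Q, |Gh h q| * be r q ^ 2 ≤ S * ∑ g ∈ h.divisors, w r g / (g : ℝ) := by
  have hs := summable_w r
  have hs0 : 0 ≤ ∑' m : ℕ, w r m / (m : ℝ) ^ 2 :=
    tsum_nonneg fun m => div_nonneg (w_nonneg r m) (by positivity)
  refine ⟨(∑' m : ℕ, w r m / (m : ℝ) ^ 2) + 1, by linarith, fun h Q hh => ?_⟩
  have hle : ∑ q ∈ Finset.Icc 1 Q, |Gh h q| * be r q ^ 2 ≤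
      ∑ q ∈ Finset.Icc 1 Q, ∑ g ∈ h.divisors,
        if g ∣ q then (g : ℝ) * (w r q / (q : ℝ) ^ 2) else 0 := by
    refine Finset.sum_le_sum fun q hq => ?_
    have hq1 : 1 ≤ q := (Finset.mem_Icc.1 hq).1
    have hq0 : q ≠ 0 := by omega
    have hw0 : 0 ≤ w r q / (q : ℝ) ^ 2 := div_nonneg (w_nonneg r q) (by positivity)
    calc |Gh h q| * be r q ^ 2 ≤ |Gh h q| * (w r q / (q : ℝ) ^ 2) :=
          mul_le_mul_of_nonneg_left (be_sq r q hr hq1) (abs_nonneg _)
      _ ≤ (∑ g ∈ q.divisors.filter (· ∣ h), (g : ℝ)) * (w r q / (q : ℝ) ^ 2) :=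
          mul_le_mul_of_nonneg_right (IY4.abs_Gh h q) hw0
      _ = ∑ g ∈ h.divisors, if g ∣ q then (g : ℝ) * (w r q / (q : ℝ) ^ 2) else 0 := by
          rw [← Finset.sum_filter, Finset.sum_mul]
          refine Finset.sum_congr ?_ fun _ _ => rfl
          ext g
          rw [Finset.mem_filter, Finset.mem_filter, Nat.mem_divisors, Nat.mem_divisors]
          have : h ≠ 0 := by omega
          tauto
  refine hle.trans ?_
  rw [Finset.sum_comm, Finset.mul_sum]
  refine Finset.sum_le_sum fun g hg => ?_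
  have hg0 : 0 < g := Nat.pos_of_mem_divisors hg
  have hgR : (0 : ℝ) < g := by exact_mod_cast hg0
  rw [← Finset.sum_filter]
  have h1 : ∑ q ∈ (Finset.Icc 1 Q).filter (g ∣ ·), (g : ℝ) * (w r q / (q : ℝ) ^ 2) ≤
      ∑ q ∈ (Finset.Icc 1 Q).filter (g ∣ ·),
        (w r g / (g : ℝ)) * (w r (q / g) / ((q / g : ℕ) : ℝ) ^ 2) := by
    refine Finset.sum_le_sum fun q hq => ?_
    obtain ⟨hq1, m, rfl⟩ := Finset.mem_filter.1 hq
    have hm : 1 ≤ m := by
      rcases Nat.eq_zero_or_pos m with h0 | h0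
      · subst h0
        simp at hq1
      · exact h0
    have hm0 : (0 : ℝ) < m := by exact_mod_cast hm
    rw [Nat.mul_div_cancel_left m hg0]
    calc (g : ℝ) * (w r (g * m) / ((g * m : ℕ) : ℝ) ^ 2)
        ≤ (g : ℝ) * (w r g * w r m / ((g * m : ℕ) : ℝ) ^ 2) := by
          gcongr
          exact w_mul r g m hg0 hm
      _ = (w r g / (g : ℝ)) * (w r m / (m : ℝ) ^ 2) := by
          push_cast
          field_simp
  refine h1.trans ?_
  rw [← Finset.mul_sum, mul_comm]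
  refine mul_le_mul_of_nonneg_right ?_ (div_nonneg (w_nonneg r g) hgR.le)
  have hinj : Set.InjOn (fun q : ℕ => q / g) ((Finset.Icc 1 Q).filter (g ∣ ·) : Finset ℕ) := by
    intro a ha b hb hab
    obtain ⟨m, rfl⟩ := (Finset.mem_filter.1 ha).2
    obtain ⟨n, rfl⟩ := (Finset.mem_filter.1 hb).2
    simp only [Nat.mul_div_cancel_left _ hg0] at hab
    rw [hab]
  rw [← Finset.sum_image (f := fun m : ℕ => w r m / (m : ℝ) ^ 2) hinj]
  have h2 := hs.sum_le_tsum (((Finset.Icc 1 Q).filter (g ∣ ·)).image fun q : ℕ => q / g)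
    (fun m _ => div_nonneg (w_nonneg r m) (by positivity))
  linarith

end IZ3

open IZ3 in
theorem prZ3 (hZ2 : tsZ2) : tsZ3 := by
  intro r hr
  obtain ⟨S, hS, h1⟩ := sum_le' r hr
  obtain ⟨C, hC, h2⟩ := hZ2 (2 * r) r
  refine ⟨S * C + C, by positivity, fun h Q hh => ?_⟩
  have h3 := h1 h Q hh
  have h4 := h2 h hh
  have hl := one_le_ll h
  have hl0 : 0 < ll h := by linarith
  have h5 : ∑ g ∈ h.divisors, w r g / (g : ℝ) ≤ C * ll h ^ C := h4
  calc ∑ q ∈ Finset.Icc 1 Q, |Gh h q| * be r q ^ 2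
      ≤ S * ∑ g ∈ h.divisors, w r g / (g : ℝ) := h3
    _ ≤ S * (C * ll h ^ C) := by gcongr
    _ = (S * C) * ll h ^ C := by ring
    _ ≤ (S * C + C) * ll h ^ (S * C + C) := by
        have h6 : ll h ^ C ≤ ll h ^ (S * C + C) :=
          Real.rpow_le_rpow_of_exponent_le hl (by nlinarith [mul_pos hS hC])
        have h7 : S * C ≤ S * C + C := by linarith
        have h8 : 0 ≤ ll h ^ C := by positivity
        exact mul_le_mul h7 h6 h8 (by positivity)

end Pool.Agent.Work.MP_122e00_nt.TS
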