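import Mathlib
import Pool.Agent.Work.MP_122e00_nt.TS.Stmts10

/-!
# Thin shifts, item Z4: the integral for one `q`, general bound
-/

set_option autoImplicit false

namespace Pool.Agent.Work.MP_122e00_nt.TS

open Finset Filter Topology ArithmeticFunction MeasureTheory
open scoped ArithmeticFunction.zeta ArithmeticFunction.Moebius

namespace IZ4

/-- the lower coefficients of `ed e` -/
noncomputable def lw (e : Polynomial ℝ) (s : ℕ) (y : ℝ) : ℝ :=
  ∑ i ∈ Finset.range (s + 1), (e.coeff i + e.coeff (i + 1) * ((i : ℝ) + 1)) * y ^ i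

theorem ed_eval (e : Polynomial ℝ) (s : ℕ) (h : e.natDegree ≤ s + 1) (y : ℝ) :
    (ed e).eval y = e.coeff (s + 1) * y ^ (s + 1) + lw e s y := by
  unfold ed lw
  rw [Polynomial.eval_add,
    Polynomial.eval_eq_sum_range' (show e.natDegree < s + 2 by omega) y,
    Polynomial.eval_eq_sum_range' (show (Polynomial.derivative e).natDegree < s + 1 by
      have := Polynomial.natDegree_derivative_le e
      omega) y, Finset.sum_range_succ]
  have : ∀ i, (Polynomial.derivative e).coeff i = e.coeff (i + 1) * ((i : ℝ) + 1) :=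
    fun i => Polynomial.coeff_derivative e i
  simp only [this, add_mul, Finset.sum_add_distrib]
  ring

theorem lw_le (e : Polynomial ℝ) (s : ℕ) (β y L : ℝ) (hβ : ∀ j, |e.coeff j| ≤ β) (hL : 1 ≤ L)
    (hy : |y| ≤ L) : |lw e s y| ≤ ((s : ℝ) + 1) * ((s : ℝ) + 2) * β * L ^ s := by
  have hβ0 : 0 ≤ β := le_trans (abs_nonneg _) (hβ 0)
  unfold lw
  refine (Finset.abs_sum_le_sum_abs _ _).trans ?_
  have h1 : ∀ i ∈ Finset.range (s + 1),
      |(e.coeff i + e.coeff (i + 1) * ((i : ℝ) + 1)) * y ^ i| ≤ (((s : ℝ) + 2) * β) * L ^ s := by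
    intro i hi
    rw [Finset.mem_range] at hi
    have hi' : (i : ℝ) ≤ s := by exact_mod_cast Nat.lt_succ_iff.1 hi
    have hi0 : (0 : ℝ) ≤ i := Nat.cast_nonneg i
    rw [abs_mul, abs_pow]
    have h2 : |e.coeff i + e.coeff (i + 1) * ((i : ℝ) + 1)| ≤ ((s : ℝ) + 2) * β := by
      refine (abs_add_le _ _).trans ?_
      rw [abs_mul, abs_of_nonneg (show (0 : ℝ) ≤ (i : ℝ) + 1 by linarith)]
      have h3 : |e.coeff (i + 1)| * ((i : ℝ) + 1) ≤ β * ((s : ℝ) + 1) :=
        mul_le_mul (hβ _) (by linarith) (by linarith) hβ0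
      have := hβ i
      linarith
    have h4 : |y| ^ i ≤ L ^ s :=
      (pow_le_pow_left₀ (abs_nonneg y) hy i).trans (pow_le_pow_right₀ hL (by omega))
    exact mul_le_mul h2 h4 (by positivity) (by positivity)
  refine (Finset.sum_le_sum h1).trans ?_
  rw [Finset.sum_const, Finset.card_range, nsmul_eq_mul]
  push_cast
  linarith

/-- the polynomial of the main term -/
noncomputable def P (s : ℕ) (l : ℝ) : Polynomial ℝ :=
  (Polynomial.X - Polynomial.C l) ^ (s + 1) * Polynomial.X ^ (s + 1)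

theorem P_eval (s : ℕ) (l y : ℝ) : (P s l).eval y = (y - l) ^ (s + 1) * y ^ (s + 1) := by
  unfold P
  simp

theorem P'_eval (s : ℕ) (l y : ℝ) : (Polynomial.derivative (P s l)).eval y =
    ((s : ℝ) + 1) * (y - l) ^ s * y ^ (s + 1) + (y - l) ^ (s + 1) * (((s : ℝ) + 1) * y ^ s) := by
  unfold P
  simp [Polynomial.derivative_mul, Polynomial.derivative_pow]

theorem P'_le (s : ℕ) (l y L : ℝ) (h1 : |y| ≤ L) (h2 : |y - l| ≤ L) :
    |(Polynomial.derivative (P s l)).eval y| ≤ 2 * ((s : ℝ) + 1) * L ^ (2 * s + 1) := by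
  have hL : 0 ≤ L := (abs_nonneg y).trans h1
  rw [P'_eval]
  refine (abs_add_le _ _).trans ?_
  rw [abs_mul, abs_mul, abs_mul, abs_mul, abs_pow, abs_pow, abs_pow, abs_pow,
    abs_of_nonneg (show (0 : ℝ) ≤ (s : ℝ) + 1 by positivity)]
  have e1 : |y - l| ^ s ≤ L ^ s := pow_le_pow_left₀ (abs_nonneg _) h2 s
  have e2 : |y| ^ (s + 1) ≤ L ^ (s + 1) := pow_le_pow_left₀ (abs_nonneg _) h1 _
  have e3 : |y - l| ^ (s + 1) ≤ L ^ (s + 1) := pow_le_pow_left₀ (abs_nonneg _) h2 _
  have e4 : |y| ^ s ≤ L ^ s := pow_le_pow_left₀ (abs_nonneg _) h1 _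
  have f1 : ((s : ℝ) + 1) * |y - l| ^ s * |y| ^ (s + 1) ≤ ((s : ℝ) + 1) * L ^ s * L ^ (s + 1) := by
    gcongr
  have f2 : |y - l| ^ (s + 1) * (((s : ℝ) + 1) * |y| ^ s) ≤
      L ^ (s + 1) * (((s : ℝ) + 1) * L ^ s) := by
    gcongr
  have e5 : L ^ (2 * s + 1) = L ^ s * L ^ (s + 1) := by
    rw [← pow_add]
    congr 1
    ring
  rw [e5]
  nlinarith

/-- the constant -/
noncomputable def K (s : ℕ) : ℝ := ((s : ℝ) + 1) * ((s : ℝ) + 2)

theorem K_nonneg (s : ℕ) : 0 ≤ K s := by
  unfold K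
  positivity

/-- the pointwise bound -/
theorem pt (e : Polynomial ℝ) (s : ℕ) (β y l L : ℝ) (h : e.natDegree ≤ s + 1)
    (hβ : ∀ j, |e.coeff j| ≤ β) (hL : 1 ≤ L) (h1 : |y| ≤ L) (h2 : |y - l| ≤ L) :
    |(ed e).eval (y - l) * (ed e).eval y - e.coeff (s + 1) ^ 2 *
      ((P s l).eval y + (Polynomial.derivative (P s l)).eval y)| ≤
    (2 * K s + K s ^ 2 + 2 * ((s : ℝ) + 1)) * β ^ 2 * L ^ (2 * s + 1) := by
  have hβ0 : 0 ≤ β := le_trans (abs_nonneg _) (hβ 0)
  have hL0 : 0 ≤ L := by linarith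
  have hK := K_nonneg s
  rw [ed_eval e s h, ed_eval e s h, P_eval]
  have hc := hβ (s + 1)
  have hl1 := lw_le e s β y L hβ hL h1
  have hl2 := lw_le e s β (y - l) L hβ hL h2
  have hp := P'_le s l y L h1 h2
  have hy1 : |y ^ (s + 1)| ≤ L ^ (s + 1) := by
    rw [abs_pow]
    exact pow_le_pow_left₀ (abs_nonneg _) h1 _
  have hy2 : |(y - l) ^ (s + 1)| ≤ L ^ (s + 1) := by
    rw [abs_pow]
    exact pow_le_pow_left₀ (abs_nonneg _) h2 _
  generalize hA : e.coeff (s + 1) = c at *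
  generalize lw e s y = a at *
  generalize lw e s (y - l) = b at *
  generalize (Polynomial.derivative (P s l)).eval y = d at *
  generalize y ^ (s + 1) = u at *
  generalize (y - l) ^ (s + 1) = v at *
  change |a| ≤ K s * β * L ^ s at hl1
  change |b| ≤ K s * β * L ^ s at hl2
  have heq : (c * v + b) * (c * u + a) - c ^ 2 * (v * u + d) =
      c * v * a + b * (c * u) + b * a - c ^ 2 * d := by ring
  rw [heq]
  have t1 : |c * v * a| ≤ β * L ^ (s + 1) * (K s * β * L ^ s) := by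
    rw [abs_mul, abs_mul]
    gcongr
  have t2 : |b * (c * u)| ≤ K s * β * L ^ s * (β * L ^ (s + 1)) := by
    rw [abs_mul, abs_mul]
    gcongr
  have t3 : |b * a| ≤ K s * β * L ^ s * (K s * β * L ^ s) := by
    rw [abs_mul]
    gcongr
  have t4 : |c ^ 2 * d| ≤ β ^ 2 * (2 * ((s : ℝ) + 1) * L ^ (2 * s + 1)) := by
    rw [abs_mul, abs_pow]
    gcongr
  have e5 : L ^ (2 * s + 1) = L ^ s * L ^ (s + 1) := by
    rw [← pow_add]
    congr 1
    ring
  have e6 : L ^ s ≤ L ^ (s + 1) := pow_le_pow_right₀ hL (by omega)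
  have e7 : L ^ s * L ^ s ≤ L ^ s * L ^ (s + 1) := by gcongr
  have t3' : K s * β * L ^ s * (K s * β * L ^ s) ≤ K s ^ 2 * β ^ 2 * L ^ (2 * s + 1) := by
    rw [e5]
    have : K s * β * L ^ s * (K s * β * L ^ s) = K s ^ 2 * β ^ 2 * (L ^ s * L ^ s) := by ring
    rw [this]
    gcongr
  have t1' : β * L ^ (s + 1) * (K s * β * L ^ s) = K s * β ^ 2 * L ^ (2 * s + 1) := by
    rw [e5]
    ring
  have t2' : K s * β * L ^ s * (β * L ^ (s + 1)) = K s * β ^ 2 * L ^ (2 * s + 1) := by
    rw [e5]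
    ring
  have hs : |c * v * a + b * (c * u) + b * a - c ^ 2 * d| ≤
      |c * v * a| + |b * (c * u)| + |b * a| + |c ^ 2 * d| := by
    refine (abs_sub _ _).trans ?_
    have h5 := abs_add_le (c * v * a + b * (c * u)) (b * a)
    have h6 := abs_add_le (c * v * a) (b * (c * u))
    linarith
  have hfin : (2 * K s + K s ^ 2 + 2 * ((s : ℝ) + 1)) * β ^ 2 * L ^ (2 * s + 1) =
      K s * β ^ 2 * L ^ (2 * s + 1) + K s * β ^ 2 * L ^ (2 * s + 1) +
      K s ^ 2 * β ^ 2 * L ^ (2 * s + 1) + β ^ 2 * (2 * ((s : ℝ) + 1) * L ^ (2 * s + 1)) := by ring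
  rw [hfin]
  linarith

theorem cont (p : Polynomial ℝ) (l X : ℝ) (hX : 1 ≤ X) :
    ContinuousOn (fun t : ℝ => p.eval (Real.log t - l)) (Set.uIcc 1 X) := by
  refine p.continuous.comp_continuousOn ?_
  refine ContinuousOn.sub ?_ continuousOn_const
  refine Real.continuousOn_log.mono ?_
  intro t ht
  rw [Set.uIcc_of_le hX] at ht
  have := ht.1
  show t ≠ 0
  linarith

theorem cont0 (p : Polynomial ℝ) (X : ℝ) (hX : 1 ≤ X) :
    ContinuousOn (fun t : ℝ => p.eval (Real.log t)) (Set.uIcc 1 X) := by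
  simpa using cont p 0 X hX

/-- the fundamental theorem -/
theorem ftc (p : Polynomial ℝ) (X : ℝ) (hX : 1 ≤ X) (hp : p.eval 0 = 0) :
    ∫ t in (1 : ℝ)..X, (p.eval (Real.log t) + (Polynomial.derivative p).eval (Real.log t)) =
      X * p.eval (Real.log X) := by
  have h := intervalIntegral.integral_eq_sub_of_hasDerivAt
    (f := fun t : ℝ => t * p.eval (Real.log t))
    (f' := fun t : ℝ => p.eval (Real.log t) + (Polynomial.derivative p).eval (Real.log t))
    (a := 1) (b := X) ?_ ?_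
  · rw [h]
    simp [hp]
  · intro t ht
    rw [Set.uIcc_of_le hX] at ht
    have ht0 : t ≠ 0 := by
      have := ht.1
      linarith
    have h1 : HasDerivAt (fun t : ℝ => p.eval (Real.log t))
        ((Polynomial.derivative p).eval (Real.log t) * t⁻¹) t :=
      (p.hasDerivAt (Real.log t)).comp t (Real.hasDerivAt_log ht0)
    have h2 := (hasDerivAt_id t).mul h1
    have h3 : (1 : ℝ) * p.eval (Real.log t) +
        id t * ((Polynomial.derivative p).eval (Real.log t) * t⁻¹) =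
        p.eval (Real.log t) + (Polynomial.derivative p).eval (Real.log t) := by
      show (1 : ℝ) * p.eval (Real.log t) +
        t * ((Polynomial.derivative p).eval (Real.log t) * t⁻¹) =
        p.eval (Real.log t) + (Polynomial.derivative p).eval (Real.log t)
      field_simp
    rw [h3] at h2
    exact h2
  · exact ((cont0 p X hX).add (cont0 _ X hX)).intervalIntegrable

/-- one prime of the window -/
theorem one (e : Polynomial ℝ) (s : ℕ) (β X l : ℝ) (h : e.natDegree ≤ s + 1)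
    (hβ : ∀ j, |e.coeff j| ≤ β) (hX : 3 ≤ X) (hl0 : 0 ≤ l) (hl : l ≤ Real.log X) :
    |(∫ t in (1 : ℝ)..X, (ed e).eval (Real.log t - l) * (ed e).eval (Real.log t)) -
      e.coeff (s + 1) ^ 2 * (X * ((Real.log X - l) ^ (s + 1) * Real.log X ^ (s + 1)))| ≤
    (2 * K s + K s ^ 2 + 2 * ((s : ℝ) + 1)) * β ^ 2 * Real.log X ^ (2 * s + 1) * X := by
  have hL : 1 ≤ Real.log X := by
    rw [Real.le_log_iff_exp_le (by linarith)]
    have := Real.exp_one_lt_d9
    linarith
  have hX1 : (1 : ℝ) ≤ X := by linarith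
  have hf := ftc (P s l) X hX1 (by rw [P_eval]; simp)
  rw [P_eval] at hf
  rw [← hf, ← intervalIntegral.integral_const_mul, ← intervalIntegral.integral_sub]
  · have hb := intervalIntegral.norm_integral_le_of_norm_le_const (a := (1 : ℝ)) (b := X)
      (C := (2 * K s + K s ^ 2 + 2 * ((s : ℝ) + 1)) * β ^ 2 * Real.log X ^ (2 * s + 1))
      (f := fun t : ℝ => (ed e).eval (Real.log t - l) * (ed e).eval (Real.log t) -
        e.coeff (s + 1) ^ 2 * ((P s l).eval (Real.log t) +
          (Polynomial.derivative (P s l)).eval (Real.log t))) ?_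
    · rw [Real.norm_eq_abs] at hb
      refine hb.trans ?_
      have hK := K_nonneg s
      refine mul_le_mul_of_nonneg_left ?_ (by positivity)
      rw [abs_of_nonneg (by linarith)]
      linarith
    · intro t ht
      rw [Set.uIoc_of_le hX1] at ht
      rw [Real.norm_eq_abs]
      have ht0 : 0 ≤ Real.log t := Real.log_nonneg ht.1.le
      have ht1 : Real.log t ≤ Real.log X := Real.log_le_log (by linarith [ht.1]) ht.2
      refine pt e s β (Real.log t) l (Real.log X) h hβ hL ?_ ?_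
      · rw [abs_of_nonneg ht0]
        exact ht1
      · rw [abs_le]
        constructor <;> linarith
  · exact ((cont _ l X hX1).mul (cont0 _ X hX1)).intervalIntegrable
  · exact (continuousOn_const.mul ((cont0 _ X hX1).add (cont0 _ X hX1))).intervalIntegrable

theorem eval_Eu (E : ℕ → Polynomial ℝ) (z w y : ℝ) (q : ℕ) :
    (ed (Eu E z w q)).eval y =
      ∑ p ∈ PW z w, 1 / (p : ℝ) * (ed (E q)).eval (y - Real.log p) := by
  unfold ed Eu
  simp only [Polynomial.derivative_sum, Polynomial.eval_add, Polynomial.eval_finsetSum,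
    Polynomial.derivative_C_mul, Polynomial.derivative_comp, Polynomial.derivative_sub,
    Polynomial.derivative_X, Polynomial.derivative_C, sub_zero, Polynomial.eval_mul,
    Polynomial.eval_C, Polynomial.eval_comp, Polynomial.eval_sub, Polynomial.eval_X,
    one_mul, mul_add, Finset.sum_add_distrib]

end IZ4

theorem prZ4 : tsZ4 := by
  intro r hr
  obtain ⟨s, rfl⟩ : ∃ s, r = s + 2 := ⟨r - 2, by omega⟩
  have hK := IZ4.K_nonneg s
  refine ⟨2 * IZ4.K s + IZ4.K s ^ 2 + 2 * ((s : ℝ) + 1), by positivity, ?_⟩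
  intro E β X z w q hE hβ hX hw hwX
  have hX1 : (1 : ℝ) ≤ X := by linarith
  have hL : 0 < Real.log X := Real.log_pos (by linarith)
  have e1 : s + 2 - 1 = s + 1 := by omega
  have e2 : 2 * (s + 2) - 2 = (s + 1) + (s + 1) := by omega
  have e3 : 2 * (s + 2) - 3 = 2 * s + 1 := by omega
  rw [e1] at hE
  have hj : jw (s + 2) X z w = ∑ p ∈ PW z w, 1 / (p : ℝ) *
      (1 - Real.log p / Real.log X) ^ (s + 1) := rfl
  have hP : pw z w = ∑ p ∈ PW z w, 1 / (p : ℝ) := rfl
  rw [e1, e2, e3, hj, hP]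
  have hmain : (∑ p ∈ PW z w, 1 / (p : ℝ) * (1 - Real.log p / Real.log X) ^ (s + 1)) *
      (E q).coeff (s + 1) ^ 2 * X * Real.log X ^ ((s + 1) + (s + 1)) =
      ∑ p ∈ PW z w, 1 / (p : ℝ) * ((E q).coeff (s + 1) ^ 2 *
        (X * ((Real.log X - Real.log p) ^ (s + 1) * Real.log X ^ (s + 1)))) := by
    rw [Finset.sum_mul, Finset.sum_mul, Finset.sum_mul]
    refine Finset.sum_congr rfl fun p _ => ?_
    have : (Real.log X - Real.log p) ^ (s + 1) =
        (1 - Real.log p / Real.log X) ^ (s + 1) * Real.log X ^ (s + 1) := by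
      rw [← mul_pow]
      congr 1
      field_simp
    rw [this, pow_add]
    ring
  have hint : (∫ t in (1 : ℝ)..X, (ed (Eu E z w q)).eval (Real.log t) *
      (ed (E q)).eval (Real.log t)) = ∑ p ∈ PW z w, 1 / (p : ℝ) *
      ∫ t in (1 : ℝ)..X, (ed (E q)).eval (Real.log t - Real.log p) *
        (ed (E q)).eval (Real.log t) := by
    have h1 : (fun t : ℝ => (ed (Eu E z w q)).eval (Real.log t) * (ed (E q)).eval (Real.log t)) =
        fun t : ℝ => ∑ p ∈ PW z w, 1 / (p : ℝ) *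
          ((ed (E q)).eval (Real.log t - Real.log p) * (ed (E q)).eval (Real.log t)) := by
      funext t
      rw [IZ4.eval_Eu, Finset.sum_mul]
      refine Finset.sum_congr rfl fun p _ => ?_
      ring
    rw [h1, intervalIntegral.integral_finsetSum]
    · refine Finset.sum_congr rfl fun p _ => ?_
      rw [intervalIntegral.integral_const_mul]
    · intro p _
      exact (continuousOn_const.mul
        ((IZ4.cont _ _ X hX1).mul (IZ4.cont0 _ X hX1))).intervalIntegrable
  rw [hint, hmain, ← Finset.sum_sub_distrib]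
  refine (Finset.abs_sum_le_sum_abs _ _).trans ?_
  have hb : ∀ p ∈ PW z w, |1 / (p : ℝ) * (∫ t in (1 : ℝ)..X,
      (ed (E q)).eval (Real.log t - Real.log p) * (ed (E q)).eval (Real.log t)) -
      1 / (p : ℝ) * ((E q).coeff (s + 1) ^ 2 *
        (X * ((Real.log X - Real.log p) ^ (s + 1) * Real.log X ^ (s + 1))))| ≤
      1 / (p : ℝ) * ((2 * IZ4.K s + IZ4.K s ^ 2 + 2 * ((s : ℝ) + 1)) * β ^ 2 *
        Real.log X ^ (2 * s + 1) * X) := by
    intro p hp
    unfold PW at hp
    rw [Finset.mem_filter, Finset.mem_Icc] at hp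
    obtain ⟨⟨hp1, hp2⟩, _⟩ := hp
    have hp1' : (1 : ℝ) ≤ p := by exact_mod_cast hp1
    have hpw : (p : ℝ) ≤ w := (Nat.le_floor_iff (by linarith)).1 hp2
    rw [← mul_sub, abs_mul, abs_of_nonneg (show (0 : ℝ) ≤ 1 / (p : ℝ) by positivity)]
    refine mul_le_mul_of_nonneg_left ?_ (by positivity)
    exact IZ4.one (E q) s β X (Real.log p) hE hβ hX (Real.log_nonneg hp1')
      (Real.log_le_log (by linarith) (by linarith))
  refine (Finset.sum_le_sum hb).trans ?_
  rw [← Finset.sum_mul]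
  apply le_of_eq
  ring

end Pool.Agent.Work.MP_122e00_nt.TS
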