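import Mathlib
import Pool.Agent.Work.MP_122e00_nt.TS.Stmts9

/-!
# Item Y6: the main term
-/

set_option autoImplicit false

namespace Pool.Agent.Work.MP_122e00_nt.TS

open Finset Filter Topology ArithmeticFunction MeasureTheory
open scoped ArithmeticFunction.zeta ArithmeticFunction.Moebius

namespace IY6

/-- the abstract estimate -/
theorem core (s : Finset ℕ) (G I R Z : ℕ → ℝ) (J P X M M' L f S T Y C4 C5 : ℝ)
    (hJ0 : 0 ≤ J) (hJP : J ≤ P) (hX : 0 ≤ X) (hM' : 0 ≤ M') (hL : 0 < L) (hM : M = M' * L)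
    (hf : 1 ≤ f) (hT : 0 ≤ T) (hY : 0 ≤ Y) (hC4 : 0 ≤ C4) (hC5 : 0 ≤ C5)
    (h5 : ∀ q ∈ s, |I q - J * (R q / f) ^ 2 * X * M| ≤ C5 * P * Z q * X * M')
    (h4a : ∑ q ∈ s, |G q| * Z q ≤ C4 * T)
    (h4b : |S - ∑ q ∈ s, G q * R q ^ 2| ≤ C4 * T * Y) :
    |(∑ q ∈ s, G q * I q) - J * (S / f ^ 2) * X * M| ≤
      (C5 * C4 + C4) * T * P * X * M * (1 / L + Y) := by
  have hP : 0 ≤ P := hJ0.trans hJP
  have hM0 : 0 ≤ M := by rw [hM]; positivity
  have hf0 : 0 < f := by linarith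
  have e1 : (∑ q ∈ s, G q * I q) - J * (S / f ^ 2) * X * M =
      (∑ q ∈ s, G q * (I q - J * (R q / f) ^ 2 * X * M)) +
        (J / f ^ 2) * X * M * ((∑ q ∈ s, G q * R q ^ 2) - S) := by
    have e2 : ∑ q ∈ s, G q * (I q - J * (R q / f) ^ 2 * X * M) =
        (∑ q ∈ s, G q * I q) - (J / f ^ 2) * X * M * ∑ q ∈ s, G q * R q ^ 2 := by
      rw [Finset.mul_sum, ← Finset.sum_sub_distrib]
      refine Finset.sum_congr rfl fun q _ => ?_
      field_simp
    rw [e2]
    field_simp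
    ring
  have b1 : |∑ q ∈ s, G q * (I q - J * (R q / f) ^ 2 * X * M)| ≤
      C5 * P * X * M' * (C4 * T) := by
    calc |∑ q ∈ s, G q * (I q - J * (R q / f) ^ 2 * X * M)|
        ≤ ∑ q ∈ s, |G q * (I q - J * (R q / f) ^ 2 * X * M)| := Finset.abs_sum_le_sum_abs _ _
      _ ≤ ∑ q ∈ s, C5 * P * X * M' * (|G q| * Z q) := by
          refine Finset.sum_le_sum fun q hq => ?_
          rw [abs_mul]
          calc |G q| * |I q - J * (R q / f) ^ 2 * X * M|
              ≤ |G q| * (C5 * P * Z q * X * M') :=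
                mul_le_mul_of_nonneg_left (h5 q hq) (abs_nonneg _)
            _ = C5 * P * X * M' * (|G q| * Z q) := by ring
      _ = C5 * P * X * M' * ∑ q ∈ s, |G q| * Z q := by rw [Finset.mul_sum]
      _ ≤ C5 * P * X * M' * (C4 * T) := mul_le_mul_of_nonneg_left h4a (by positivity)
  have b2 : |(J / f ^ 2) * X * M * ((∑ q ∈ s, G q * R q ^ 2) - S)| ≤
      P * X * M * (C4 * T * Y) := by
    rw [abs_mul, abs_sub_comm]
    have hJf : J / f ^ 2 ≤ P := by
      have hf2 : 1 ≤ f ^ 2 := by nlinarith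
      exact (div_le_self hJ0 hf2).trans hJP
    have hJf0 : 0 ≤ J / f ^ 2 := by positivity
    have hk : |J / f ^ 2 * X * M| ≤ P * X * M := by
      rw [abs_of_nonneg (by positivity)]
      exact mul_le_mul_of_nonneg_right (mul_le_mul_of_nonneg_right hJf hX) hM0
    exact mul_le_mul hk h4b (abs_nonneg _) (by positivity)
  have b3 : C5 * P * X * M' * (C4 * T) = C5 * C4 * T * P * X * M * (1 / L) := by
    rw [hM]
    field_simp
  have b4 : 0 ≤ T * P * X * M * Y := by positivity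
  have b5 : 0 ≤ T * P * X * M * (1 / L) := by positivity
  calc |(∑ q ∈ s, G q * I q) - J * (S / f ^ 2) * X * M|
      ≤ |∑ q ∈ s, G q * (I q - J * (R q / f) ^ 2 * X * M)| +
        |(J / f ^ 2) * X * M * ((∑ q ∈ s, G q * R q ^ 2) - S)| := by
        rw [e1]; exact abs_add_le _ _
    _ ≤ C5 * P * X * M' * (C4 * T) + P * X * M * (C4 * T * Y) := add_le_add b1 b2
    _ = C5 * C4 * (T * P * X * M * (1 / L)) + C4 * (T * P * X * M * Y) := by rw [b3]; ring
    _ ≤ (C5 * C4 * (T * P * X * M * (1 / L)) + C4 * (T * P * X * M * Y)) +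
        (C5 * C4 * (T * P * X * M * Y) + C4 * (T * P * X * M * (1 / L))) := by
        have : 0 ≤ C5 * C4 * (T * P * X * M * Y) + C4 * (T * P * X * M * (1 / L)) := by
          positivity
        linarith
    _ = (C5 * C4 + C4) * T * P * X * M * (1 / L + Y) := by ring

/-- `0 ≤ jw ≤ pw` -/
theorem jw_bd (r : ℕ) (X z w : ℝ) (hX : 3 ≤ X) (hw1 : 1 ≤ w) (hw : w ≤ X) :
    0 ≤ jw r X z w ∧ jw r X z w ≤ pw z w := by
  have key : ∀ p ∈ PW z w, 0 ≤ 1 / (p : ℝ) ∧ 0 ≤ 1 - Real.log p / Real.log X ∧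
      1 - Real.log p / Real.log X ≤ 1 := by
    intro p hp
    unfold PW at hp
    rw [Finset.mem_filter, Finset.mem_Icc] at hp
    obtain ⟨⟨hp1, hp2⟩, -⟩ := hp
    have hp1' : (1 : ℝ) ≤ p := by exact_mod_cast hp1
    have hpw : (p : ℝ) ≤ w := (Nat.le_floor_iff (by linarith)).1 hp2
    have hlog : 0 < Real.log X := Real.log_pos (by linarith)
    have hlp : 0 ≤ Real.log p := Real.log_nonneg hp1'
    have hlpX : Real.log p ≤ Real.log X := Real.log_le_log (by linarith) (by linarith)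
    refine ⟨by positivity, ?_, ?_⟩
    · have := (div_le_one hlog).2 hlpX
      linarith
    · have := div_nonneg hlp hlog.le
      linarith
  constructor
  · unfold jw
    exact Finset.sum_nonneg fun p hp => mul_nonneg (key p hp).1 (pow_nonneg (key p hp).2.1 _)
  · unfold jw pw
    refine Finset.sum_le_sum fun p hp => ?_
    have := pow_le_one₀ (n := r - 1) (key p hp).2.1 (key p hp).2.2
    exact mul_le_of_le_one_right (key p hp).1 this

end IY6

/-- THE MAIN TERM. -/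
theorem prY6 (h4 : tsY4) (h5 : tsY5) : tsY6 := by
  intro r E hr hAP hCB
  obtain ⟨C4, hC4, H4⟩ := h4 (r - 1) (by omega)
  obtain ⟨C5, hC5, H5⟩ := h5 r E hr hAP hCB
  refine ⟨C5 * C4 + C4, by positivity, ?_⟩
  intro X z w Q h hX hw1 hw hh
  obtain ⟨H4a, H4b⟩ := H4 h Q hh
  obtain ⟨hJ0, hJP⟩ := IY6.jw_bd r X z w hX hw1 hw
  have hL : 0 < Real.log X := Real.log_pos (by linarith)
  have hT : 0 ≤ ta h := by
    unfold ta
    exact Finset.sum_nonneg fun g _ => Real.rpow_nonneg (Nat.cast_nonneg _) _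
  have hf : (1 : ℝ) ≤ ((r - 1).factorial : ℝ) := by
    exact_mod_cast Nat.one_le_iff_ne_zero.2 (Nat.factorial_ne_zero _)
  have hM : Real.log X ^ (2 * r - 2) = Real.log X ^ (2 * r - 3) * Real.log X := by
    rw [← pow_succ]
    congr 1
    omega
  have hY : 0 ≤ ((Q : ℝ) + 1) ^ (-(1 / 8) : ℝ) := Real.rpow_nonneg (by positivity) _
  have := IY6.core (Finset.Icc 1 Q) (fun q => Gh h q)
    (fun q => ∫ t in (1 : ℝ)..X, (ed (Eu E z w q)).eval (Real.log t) *
      (ed (E q)).eval (Real.log t)) (fun q => rho (r - 1) q)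
    (fun q => (q : ℝ) ^ (-(3 / 2) : ℝ)) (jw r X z w) (pw z w) X (Real.log X ^ (2 * r - 2))
    (Real.log X ^ (2 * r - 3)) (Real.log X) ((r - 1).factorial : ℝ) (Csing (r - 1) h) (ta h)
    (((Q : ℝ) + 1) ^ (-(1 / 8) : ℝ)) C4 C5 hJ0 hJP (by linarith) (by positivity) hL hM hf hT hY
    hC4.le hC5.le (fun q hq => H5 X z w q hX hw1 hw (Finset.mem_Icc.1 hq).1) H4a H4b
  exact this

end Pool.Agent.Work.MP_122e00_nt.TS
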