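import Mathlib
import Pool.Agent.Work.MP_122e00_nt.TS.Stmts10
import Pool.Agent.Work.MP_122e00_nt.TS.I_Y6

/-!
# Item Z5: the main term for every shift
-/

set_option autoImplicit false

namespace Pool.Agent.Work.MP_122e00_nt.TS

open Finset Filter Topology ArithmeticFunction MeasureTheory
open scoped ArithmeticFunction.zeta ArithmeticFunction.Moebius

namespace IZ5

/-- the abstract estimate -/
theorem core (s : Finset ℕ) (G I R B : ℕ → ℝ) (J P X M M' L f S T Y C1 C2 C3 C4 W : ℝ)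
    (hJ0 : 0 ≤ J) (hJP : J ≤ P) (hX : 0 ≤ X) (hM' : 0 ≤ M') (hL : 0 < L) (hM : M = M' * L)
    (hf : 1 ≤ f) (hT : 0 ≤ T) (hY : 0 ≤ Y) (hC2 : 0 ≤ C2) (hC4 : 0 ≤ C4)
    (h5 : ∀ q ∈ s, |I q - J * (R q / f) ^ 2 * X * M| ≤ C4 * (C1 * B q) ^ 2 * P * X * M')
    (h4a : ∑ q ∈ s, |G q| * B q ^ 2 ≤ C3 * W)
    (h4b : |S - ∑ q ∈ s, G q * R q ^ 2| ≤ C2 * T * Y) :
    |(∑ q ∈ s, G q * I q) - J * (S / f ^ 2) * X * M| ≤
      P * X * M * (C4 * C1 ^ 2 * C3 * W / L + C2 * T * Y) := by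
  have hP : 0 ≤ P := hJ0.trans hJP
  have hM0 : 0 ≤ M := by rw [hM]; positivity
  have hf0 : 0 < f := by linarith
  have e1 : (∑ q ∈ s, G q * I q) - J * (S / f ^ 2) * X * M =
      (∑ q ∈ s, G q * (I q - J * (R q / f) ^ 2 * X * M)) +
        (J / f ^ 2) * X * M * ((∑ q ∈ s, G q * R q ^ 2) - S) := by
    have e2 : ∑ q ∈ s, G q * (I q - J * (R q / f) ^ 2 * X * M) =
        (∑ q ∈ s, G q * I q) - (J / f ^ 2) * X * M * ∑ q ∈ s, G q * R q ^ 2 := by
      rw [Finset.mul_sum, ← Finset.sum_sub_distrib]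
      refine Finset.sum_congr rfl fun q _ => ?_
      field_simp
    rw [e2]
    field_simp
    ring
  have b1 : |∑ q ∈ s, G q * (I q - J * (R q / f) ^ 2 * X * M)| ≤
      C4 * C1 ^ 2 * P * X * M' * (C3 * W) := by
    calc |∑ q ∈ s, G q * (I q - J * (R q / f) ^ 2 * X * M)|
        ≤ ∑ q ∈ s, |G q * (I q - J * (R q / f) ^ 2 * X * M)| := Finset.abs_sum_le_sum_abs _ _
      _ ≤ ∑ q ∈ s, C4 * C1 ^ 2 * P * X * M' * (|G q| * B q ^ 2) := by
          refine Finset.sum_le_sum fun q hq => ?_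
          rw [abs_mul]
          calc |G q| * |I q - J * (R q / f) ^ 2 * X * M|
              ≤ |G q| * (C4 * (C1 * B q) ^ 2 * P * X * M') :=
                mul_le_mul_of_nonneg_left (h5 q hq) (abs_nonneg _)
            _ = C4 * C1 ^ 2 * P * X * M' * (|G q| * B q ^ 2) := by ring
      _ = C4 * C1 ^ 2 * P * X * M' * ∑ q ∈ s, |G q| * B q ^ 2 := by rw [Finset.mul_sum]
      _ ≤ C4 * C1 ^ 2 * P * X * M' * (C3 * W) := mul_le_mul_of_nonneg_left h4a (by positivity)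
  have b2 : |(J / f ^ 2) * X * M * ((∑ q ∈ s, G q * R q ^ 2) - S)| ≤
      P * X * M * (C2 * T * Y) := by
    rw [abs_mul, abs_sub_comm]
    have hJf : J / f ^ 2 ≤ P := by
      have hf2 : 1 ≤ f ^ 2 := by nlinarith
      exact (div_le_self hJ0 hf2).trans hJP
    have hJf0 : 0 ≤ J / f ^ 2 := by positivity
    have hk : |J / f ^ 2 * X * M| ≤ P * X * M := by
      rw [abs_of_nonneg (by positivity)]
      exact mul_le_mul_of_nonneg_right (mul_le_mul_of_nonneg_right hJf hX) hM0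
    exact mul_le_mul hk h4b (abs_nonneg _) (by positivity)
  have b3 : C4 * C1 ^ 2 * P * X * M' * (C3 * W) = P * X * M * (C4 * C1 ^ 2 * C3 * W / L) := by
    rw [hM]
    field_simp
  calc |(∑ q ∈ s, G q * I q) - J * (S / f ^ 2) * X * M|
      ≤ |∑ q ∈ s, G q * (I q - J * (R q / f) ^ 2 * X * M)| +
        |(J / f ^ 2) * X * M * ((∑ q ∈ s, G q * R q ^ 2) - S)| := by
        rw [e1]; exact abs_add_le _ _
    _ ≤ C4 * C1 ^ 2 * P * X * M' * (C3 * W) + P * X * M * (C2 * T * Y) := add_le_add b1 b2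
    _ = P * X * M * (C4 * C1 ^ 2 * C3 * W / L + C2 * T * Y) := by rw [b3]; ring

/-- `ll h ≥ 1` -/
theorem ll_one (h : ℕ) : 1 ≤ ll h := by
  unfold ll
  have h0 : (0 : ℝ) ≤ h := Nat.cast_nonneg _
  have he : Real.exp 1 < 2.7182818286 := Real.exp_one_lt_d9
  have h1 : Real.exp 1 ≤ Real.log ((h : ℝ) + 16) := by
    have h2 : (2.7182818286 : ℝ) ≤ Real.log 16 := by
      have h3 : Real.log 16 = 4 * Real.log 2 := by
        rw [show (16 : ℝ) = 2 ^ 4 by norm_num, Real.log_pow]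
        norm_num
      have h4 := Real.log_two_gt_d9
      rw [h3]
      linarith
    have h5 : Real.log 16 ≤ Real.log ((h : ℝ) + 16) := Real.log_le_log (by norm_num) (by linarith)
    linarith
  rw [Real.le_log_iff_exp_le (by linarith [Real.exp_pos 1])]
  exact h1

end IZ5

/-- THE MAIN TERM, for every shift. -/
theorem prZ5 (h4 : tsY4) (hZ1 : tsZ1) (hZ3 : tsZ3) (hZ4 : tsZ4) : tsZ5 := by
  intro r E hr hAP _
  obtain ⟨C2, hC2, H2⟩ := h4 (r - 1) (by omega)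
  obtain ⟨C1, hC1, H1⟩ := hZ1 r E (by omega) hAP
  obtain ⟨C3, hC3, H3⟩ := hZ3 r (by omega)
  obtain ⟨C4, hC4, H4⟩ := hZ4 r hr
  refine ⟨C4 * C1 ^ 2 * C3 + C2 + C3, by positivity, ?_⟩
  intro X z w Q h hX hw1 hw hh
  obtain ⟨-, H2b⟩ := H2 h Q hh
  have H3a := H3 h Q hh
  obtain ⟨hJ0, hJP⟩ := IY6.jw_bd r X z w hX hw1 hw
  have hL : 0 < Real.log X := Real.log_pos (by linarith)
  have hT : 0 ≤ ta h := by
    unfold ta
    exact Finset.sum_nonneg fun g _ => Real.rpow_nonneg (Nat.cast_nonneg _) _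
  have hf : (1 : ℝ) ≤ ((r - 1).factorial : ℝ) := by
    exact_mod_cast Nat.one_le_iff_ne_zero.2 (Nat.factorial_ne_zero _)
  have hM : Real.log X ^ (2 * r - 2) = Real.log X ^ (2 * r - 3) * Real.log X := by
    rw [← pow_succ]
    congr 1
    omega
  have hY : 0 ≤ ((Q : ℝ) + 1) ^ (-(1 / 8) : ℝ) := Real.rpow_nonneg (by positivity) _
  have hP : 0 ≤ pw z w := hJ0.trans hJP
  have key := IZ5.core (Finset.Icc 1 Q) (fun q => Gh h q)
    (fun q => ∫ t in (1 : ℝ)..X, (ed (Eu E z w q)).eval (Real.log t) *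
      (ed (E q)).eval (Real.log t)) (fun q => rho (r - 1) q)
    (fun q => be r q) (jw r X z w) (pw z w) X (Real.log X ^ (2 * r - 2))
    (Real.log X ^ (2 * r - 3)) (Real.log X) ((r - 1).factorial : ℝ) (Csing (r - 1) h) (ta h)
    (((Q : ℝ) + 1) ^ (-(1 / 8) : ℝ)) C1 C2 C3 C4 (ll h ^ C3) hJ0 hJP (by linarith) (by positivity)
    hL hM hf hT hY hC2.le hC4.le (fun q hq => by
      have hq1 := (Finset.mem_Icc.1 hq).1
      have h5 := H4 E (C1 * be r q) X z w q (hAP.1 q) (fun j => H1 q j hq1) hX hw1 hw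
      rw [hAP.2.1 q hq1] at h5
      exact h5) H3a H2b
  refine key.trans ?_
  have h1 := IZ5.ll_one h
  have h2 : ll h ^ C3 ≤ ll h ^ (C4 * C1 ^ 2 * C3 + C2 + C3) :=
    Real.rpow_le_rpow_of_exponent_le h1 (by nlinarith [mul_pos (mul_pos hC4 (pow_pos hC1 2)) hC3])
  set Cf := C4 * C1 ^ 2 * C3 + C2 + C3 with hCf
  have hpos : 0 < C4 * C1 ^ 2 * C3 := by positivity
  have hll0 : 0 ≤ ll h ^ C3 := Real.rpow_nonneg (by linarith) _
  have h3 : C4 * C1 ^ 2 * C3 * ll h ^ C3 / Real.log X ≤ Cf * (ll h ^ Cf / Real.log X) := by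
    rw [← mul_div_assoc]
    refine div_le_div_of_nonneg_right ?_ hL.le
    have h4 : C4 * C1 ^ 2 * C3 ≤ Cf := by rw [hCf]; linarith
    have h5 : 0 ≤ Cf := by rw [hCf]; positivity
    exact mul_le_mul h4 h2 hll0 h5
  have h6 : C2 * ta h * ((Q : ℝ) + 1) ^ (-(1 / 8) : ℝ) ≤
      Cf * (ta h * ((Q : ℝ) + 1) ^ (-(1 / 8) : ℝ)) := by
    rw [mul_assoc]
    refine mul_le_mul_of_nonneg_right ?_ (mul_nonneg hT hY)
    rw [hCf]
    linarith
  have hPM : 0 ≤ pw z w * X * Real.log X ^ (2 * r - 2) := by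
    have : 0 ≤ X := by linarith
    positivity
  calc pw z w * X * Real.log X ^ (2 * r - 2) *
        (C4 * C1 ^ 2 * C3 * ll h ^ C3 / Real.log X +
          C2 * ta h * ((Q : ℝ) + 1) ^ (-(1 / 8) : ℝ))
      ≤ pw z w * X * Real.log X ^ (2 * r - 2) *
        (Cf * (ll h ^ Cf / Real.log X) + Cf * (ta h * ((Q : ℝ) + 1) ^ (-(1 / 8) : ℝ))) :=
        mul_le_mul_of_nonneg_left (add_le_add h3 h6) hPM
    _ = Cf * pw z w * X * Real.log X ^ (2 * r - 2) *
        (ll h ^ Cf / Real.log X + ta h * ((Q : ℝ) + 1) ^ (-(1 / 8) : ℝ)) := by ring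

end Pool.Agent.Work.MP_122e00_nt.TS
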