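import Mathlib
import Pool.Agent.Work.MP_122e00_nt.TS.FinC
import Pool.Agent.Work.MP_122e00_nt.TS.AllS
import Pool.Agent.Work.MP_122e00_nt.TS.I_K1
import Pool.Agent.Work.MP_122e00_nt.TS.I_K2
import Pool.Agent.Work.MP_122e00_nt.TS.I_K5
import Pool.Agent.Work.MP_122e00_nt.TS.I_K7
import Pool.Agent.Work.MP_122e00_nt.TS.I_N1
import Pool.Agent.Work.MP_122e00_nt.TS.I_N2
import Pool.Agent.Work.MP_122e00_nt.TS.I_N3
import Pool.Agent.Work.MP_122e00_nt.TS.I_N4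
import Pool.Agent.Work.MP_122e00_nt.TS.I_N5
import Pool.Agent.Work.MP_122e00_nt.TS.I_N6
import Pool.Agent.Work.MP_122e00_nt.TS.I_N7
import Pool.Agent.Work.MP_122e00_nt.TS.I_N8
import Pool.Agent.Work.MP_122e00_nt.TS.I_N9
import Pool.Agent.Work.MP_122e00_nt.TS.I_N10
import Pool.Agent.Work.MP_122e00_nt.TS.I_N11
import Pool.Agent.Work.MP_122e00_nt.TS.I_N13
import Pool.Agent.Work.MP_122e00_nt.TS.I_N14
import Pool.Agent.Work.MP_122e00_nt.TS.I_Y2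
import Pool.Agent.Work.MP_122e00_nt.TS.I_Y3
import Pool.Agent.Work.MP_122e00_nt.TS.I_Y4
import Pool.Agent.Work.MP_122e00_nt.TS.I_Z1
import Pool.Agent.Work.MP_122e00_nt.TS.I_Z2
import Pool.Agent.Work.MP_122e00_nt.TS.I_Z3
import Pool.Agent.Work.MP_122e00_nt.TS.I_Z4
import Pool.Agent.Work.MP_122e00_nt.TS.I_Z5
import Pool.Agent.Work.MP_122e00_nt.TS.I_X1
import Pool.Agent.Work.MP_122e00_nt.TS.I_X2
import Pool.Agent.Work.MP_122e00_nt.TS.I_X3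
import Pool.Agent.Work.MP_122e00_nt.TS.I_X4
import Pool.Agent.Work.MP_122e00_nt.TS.I_X5
import Pool.Agent.Work.MP_122e00_nt.TS.I_X6
import Pool.Agent.Work.MP_122e00_nt.TS.I_X7
import Pool.Agent.Work.MP_122e00_nt.TS.I_X8
import Pool.Agent.Work.MP_122e00_nt.TS.I_X9
import Pool.Agent.Work.MP_122e00_nt.TS.I_X10
import Pool.Agent.Work.MP_122e00_nt.TS.I_X11
import Pool.Agent.Work.MP_122e00_nt.TS.I_X12
import Pool.Agent.Work.MP_122e00_nt.TS.I_X13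
import Pool.Agent.Work.MP_122e00_nt.TS.I_X14
import Pool.Agent.Work.MP_122e00_nt.TS.I_X15
import Pool.Agent.Work.MP_122e00_nt.TS.I_X16
import Pool.Agent.Work.MP_122e00_nt.TS.I_X17
import Pool.Agent.Work.MP_122e00_nt.TS.I_X18
import Pool.Agent.Work.MP_122e00_nt.TS.I_X19
import Pool.Agent.Work.MP_122e00_nt.TS.I_X20
import Pool.Agent.Work.MP_122e00_nt.TS.I_X21
import Pool.Agent.Work.MP_122e00_nt.TS.I_X22
import Pool.Agent.Work.MP_122e00_nt.TS.I_X23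

/-!
# Shifts down to a power of the logarithm: all items together
-/

namespace Pool.Agent.Work.MP_122e00_nt.TS

theorem tK1 : tsK1 := prK1 tP3
theorem tK2 : tsK2 := prK2 tL0 tL1 tP1
theorem tK5 : tsK5 := prK5
theorem tK7 : tsK7 := prK7 tL0 tK5
theorem tN1 : tsN1 := prN1
theorem tN2 : tsN2 := prN2
theorem tN3 : tsN3 := prN3 tN2
theorem tN4 : tsN4 := prN4 tN3
theorem tN5 : tsN5 := prN5
theorem tN6 : tsN6 := prN6
theorem tN7 : tsN7 := prN7 tN1 tN5 tN6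
theorem tN8 : tsN8 := prN8
theorem tN9 : tsN9 := prN9 tN1 tN4 tN7 tN8
theorem tN10 : tsN10 := prN10
theorem tN11 : tsN11 := prN11 tN8
theorem tN13 : tsN13 := prN13
theorem tN14 : tsN14 := prN14 tN1
theorem tY2 : tsY2 := prY2
theorem tY3 : tsY3 := prY3 tE1 tY2
theorem tY4 : tsY4 := prY4 tL0
theorem tZ1 : tsZ1 := prZ1 tE1 tE4
theorem tZ2 : tsZ2 := prZ2 tN1
theorem tZ3 : tsZ3 := prZ3 tZ2
theorem tZ4 : tsZ4 := prZ4
theorem tZ5 : tsZ5 := prZ5 tY4 tZ1 tZ3 tZ4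
theorem tX1 : tsX1 := prX1
theorem tX2 : tsX2 := prX2
theorem tX3 : tsX3 := prX3 tK5 tX1 tX2
theorem tX4 : tsX4 := prX4 tP3 tK1 tK2 tX2
theorem tX5 : tsX5 := prX5
theorem tX6 : tsX6 := prX6 tX1 tX2 tX4 tX5
theorem tX7 : tsX7 := prX7
theorem tX8 : tsX8 := prX8 tK5 tK7 tX6 tX7
theorem tX9 : tsX9 := prX9 tE1 tF1 tF2
theorem tX10 : tsX10 := prX10 tK5 tX8 tX9
theorem tX11 : tsX11 := prX11 tX3 tX10
theorem tX12 : tsX12 := prX12 tGS tL2
theorem tX13 : tsX13 := prX13 tX2 tX12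
theorem tX14 : tsX14 := prX14 tE1 tF1 tF2
theorem tX15 : tsX15 := prX15 tK5 tX11 tX13 tX14
theorem tX16 : tsX16 := prX16 tK7 tX3 tX15
theorem tX17 : tsX17 := prX17 tQ5 tH2 tT1 tX3
theorem tX18 : tsX18 := prX18 tL0 tN1 tN9 tN10 tN11
theorem tX19 : tsX19 := prX19 tX2
theorem tX20 : tsX20 := prX20 tN1 tN14 tX18 tX19
theorem tX21 : tsX21 := prX21 tL0 tK5 tN13 tN14 tX20 tY3 tZ5
theorem tX22 : tsX22 := prX22 tH2 tX16 tX17 tX21
theorem tX23 : tsX23 := prX23 tH2 tX22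

/-- the final theorem -/
theorem mainC : StFinC := finC tM4 tE3 tE5 tH6 tX23

end Pool.Agent.Work.MP_122e00_nt.TS
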