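import Mathlib
import Pool.Agent.Work.MP_122e00_nt.TS.Stmts9
import Pool.Agent.Work.MP_122e00_nt.Euler4

/-!
# All powers: assembly
-/

namespace Pool.Agent.Work.MP_122e00_nt.TS

open Finset Filter Topology ArithmeticFunction
open scoped ArithmeticFunction.zeta ArithmeticFunction.Moebius

/-- the final theorem: the asymptotic formula for almost all values of a polynomial, on the whole
range of powers -/
def StFinA : Prop := ∀ r : ℕ, 2 ≤ r → ∀ F : Polynomial ℤ, 1 ≤ F.natDegree → 0 < F.leadingCoeff →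
  ∃ S : Set ℕ, (∀ B : ℕ, ∃ C : ℝ, ∀ K : ℕ, 2 ≤ K →
    (Set.ncard {k : ℕ | k ∈ S ∧ 1 ≤ k ∧ k ≤ K} : ℝ) ≤ C * K / Real.log K ^ B) ∧
  ∀ a b η : ℝ, 0 < a → a < b → b < 1 → 0 < η → ∃ k₀ : ℕ, ∀ k : ℕ, k₀ ≤ k → k ∉ S →
    1 ≤ F.eval (k : ℤ) ∧ ∀ X : ℝ, 1 ≤ X → X ^ a ≤ ((F.eval (k : ℤ) : ℤ) : ℝ) →
      ((F.eval (k : ℤ) : ℤ) : ℝ) ≤ X ^ b → Gx r η X (fv F k)

namespace FinA

theorem bad_mono {r : ℕ} (hr : 2 ≤ r) (F : Polynomial ℤ) {a b η a' b' η' : ℝ} (ha : a' ≤ a)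
    (hb : b ≤ b') (hη : η' ≤ η) {k : ℕ} (h : Bad r F a b η k) : Bad r F a' b' η' k := by
  by_cases h1 : 1 ≤ F.eval (k : ℤ)
  · rcases h with h | ⟨X, hX, hXa, hXb, hG⟩
    · exact absurd h1 h
    · refine Or.inr ⟨X, hX, ?_, ?_, fun hG' => hG ?_⟩
      · exact (Real.rpow_le_rpow_of_exponent_le hX ha).trans hXa
      · exact hXb.trans (Real.rpow_le_rpow_of_exponent_le hX hb)
      · have hfv : fv F k ≠ 0 := by
          unfold fv
          omega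
        have hc : 0 < Csing (r - 1) (fv F k) := Csing_pos (by omega : 1 ≤ r - 1) _ hfv
        have hl : 0 ≤ Real.log X := Real.log_nonneg hX
        have h0 : 0 ≤ lc r (fv F k) * (X * Real.log X ^ (2 * (r - 1))) := by
          unfold lc
          positivity
        unfold Gx at hG' ⊢
        exact hG'.trans (mul_le_mul_of_nonneg_right hη h0)
  · exact Or.inl h1

end FinA

open FinA in
theorem finA (hM4 : tsM4) (hE3 : tsE3) (hE5 : tsE5) (hY12 : tsY12) (hY13 : tsY13)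
    (hY14 : tsY14) : StFinA := by
  intro r hr F hF hFl
  have hr1 : 1 ≤ r := by omega
  obtain ⟨B, hB⟩ := hM4 r hr1
  obtain ⟨E, hE⟩ := hE3 r B hr1 hB
  have hCB := hE5 r E hr1 hE
  set S : ℕ → Set ℕ := fun j =>
    {k | Bad r F (1 / ((j : ℝ) + 3)) (1 - 1 / ((j : ℝ) + 3)) (1 / ((j : ℝ) + 1)) k} with hS
  have hmono : ∀ j, S j ⊆ S (j + 1) := by
    intro j k hk
    have h1 : (1 : ℝ) / (((j + 1 : ℕ) : ℝ) + 3) ≤ 1 / ((j : ℝ) + 3) := by
      apply one_div_le_one_div_of_le (by positivity)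
      push_cast
      linarith
    have h2 : (1 : ℝ) / (((j + 1 : ℕ) : ℝ) + 1) ≤ 1 / ((j : ℝ) + 1) := by
      apply one_div_le_one_div_of_le (by positivity)
      push_cast
      linarith
    exact bad_mono hr F h1 (by linarith) h2 hk
  have hcount : ∀ j B : ℕ, ∃ C : ℝ, ∀ K : ℕ, 2 ≤ K →
      (Set.ncard {k : ℕ | k ∈ S j ∧ 1 ≤ k ∧ k ≤ K} : ℝ) ≤ C * K / Real.log K ^ B := by
    intro j B
    have hj : (0 : ℝ) ≤ j := Nat.cast_nonneg j
    have h3 : (1 : ℝ) / ((j : ℝ) + 3) ≤ 1 / 3 :=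
      one_div_le_one_div_of_le (by norm_num) (by linarith)
    have h4 : (0 : ℝ) < 1 / ((j : ℝ) + 3) := by positivity
    obtain ⟨C, K0, h⟩ := hY12 r E hr hE hCB F hF hFl (1 / ((j : ℝ) + 3)) (1 - 1 / ((j : ℝ) + 3))
      (1 / ((j : ℝ) + 1)) B h4 (by linarith) (by linarith) (by positivity)
    exact hY13 (S j) C K0 B h
  obtain ⟨T, hT, hTS⟩ := hY14 S hmono hcount
  refine ⟨T, hT, ?_⟩
  intro a b η ha hab hb hη
  obtain ⟨n1, hn1⟩ := exists_nat_gt (1 / a)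
  obtain ⟨n2, hn2⟩ := exists_nat_gt (1 / (1 - b))
  obtain ⟨n3, hn3⟩ := exists_nat_gt (1 / η)
  set j := n1 + n2 + n3 with hj
  have hn1' : (0 : ℝ) ≤ n1 := Nat.cast_nonneg _
  have hn2' : (0 : ℝ) ≤ n2 := Nat.cast_nonneg _
  have hn3' : (0 : ℝ) ≤ n3 := Nat.cast_nonneg _
  have hjr : (j : ℝ) = n1 + n2 + n3 := by
    rw [hj]
    push_cast
    ring
  have e1 : 1 / ((j : ℝ) + 3) ≤ a := by
    rw [div_le_iff₀ (by positivity)]
    have := (div_lt_iff₀ ha).1 hn1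
    nlinarith
  have e2 : b ≤ 1 - 1 / ((j : ℝ) + 3) := by
    have hb1 : 0 < 1 - b := by linarith
    have h5 : 1 / ((j : ℝ) + 3) ≤ 1 - b := by
      rw [div_le_iff₀ (by positivity)]
      have := (div_lt_iff₀ hb1).1 hn2
      nlinarith
    linarith
  have e3 : 1 / ((j : ℝ) + 1) ≤ η := by
    rw [div_le_iff₀ (by positivity)]
    have := (div_lt_iff₀ hη).1 hn3
    nlinarith
  obtain ⟨k₀, hk₀⟩ := hTS j
  refine ⟨k₀, fun k hk hkT => ?_⟩
  have hnS : ¬ Bad r F a b η k := fun hbad => hkT (hk₀ k hk (bad_mono hr F e1 e2 e3 hbad))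
  have h1 : 1 ≤ F.eval (k : ℤ) := by
    by_contra h
    exact hnS (Or.inl h)
  refine ⟨h1, fun X hX hXa hXb => ?_⟩
  by_contra hG
  exact hnS (Or.inr ⟨X, hX, hXa, hXb, hG⟩)

end Pool.Agent.Work.MP_122e00_nt.TS
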