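import Mathlib
import Pool.Agent.Work.MP_122e00_nt.TS.Stmts2

/-!
# Thin shifts, item D2: logarithmic sums of a polynomial
-/

namespace Pool.Agent.Work.MP_122e00_nt.TS

open Finset Filter Topology ArithmeticFunction
open scoped ArithmeticFunction.zeta ArithmeticFunction.Moebius

namespace ID2

/-- Taylor expansion at `L` in the variable `-u` -/
theorem tay (P : Polynomial ℝ) (L u : ℝ) : P.eval (L - u) =
    ∑ j ∈ Finset.range (P.natDegree + 1), (Polynomial.hasseDeriv j P).eval L * (-1) ^ j * u ^ j := by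
  have h1 : P.eval (L - u) = (Polynomial.taylor L P).eval (-u) := by
    rw [Polynomial.taylor_eval]
    congr 1
    ring
  rw [h1, Polynomial.eval_eq_sum_range, Polynomial.natDegree_taylor]
  refine Finset.sum_congr rfl fun j _ => ?_
  rw [Polynomial.taylor_coeff, neg_pow]
  ring

/-- bound of a polynomial on the positive half line -/
theorem bd (Q : Polynomial ℝ) (d : ℕ) (hQ : Q.natDegree ≤ d) : ∃ A : ℝ, 0 ≤ A ∧
    ∀ L : ℝ, 0 ≤ L → |Q.eval L| ≤ A * (1 + L) ^ d := by
  refine ⟨∑ i ∈ Finset.range (Q.natDegree + 1), |Q.coeff i|,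
    Finset.sum_nonneg fun i _ => abs_nonneg _, fun L hL => ?_⟩
  rw [Polynomial.eval_eq_sum_range, Finset.sum_mul]
  refine (Finset.abs_sum_le_sum_abs _ _).trans (Finset.sum_le_sum fun i hi => ?_)
  rw [abs_mul, abs_pow, abs_of_nonneg hL]
  refine mul_le_mul_of_nonneg_left ?_ (abs_nonneg _)
  have hi' : i ≤ d := by
    have := Finset.mem_range.1 hi
    omega
  calc L ^ i ≤ (1 + L) ^ i := pow_le_pow_left₀ hL (by linarith) i
    _ ≤ (1 + L) ^ d := pow_le_pow_right₀ (by linarith) hi'

end ID2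

open ID2 in
/-- item D2 -/
theorem prD2 (h : tsD1) : tsD2 := by
  intro P
  choose γ C hC hD using h
  have hdeg : ∀ j, (Polynomial.hasseDeriv j P).natDegree ≤ P.natDegree := fun j =>
    (Polynomial.natDegree_hasseDeriv_le P j).trans (Nat.sub_le _ _)
  choose A hA0 hA using fun j => bd (Polynomial.hasseDeriv j P) P.natDegree (hdeg j)
  refine ⟨∑ j ∈ Finset.range (P.natDegree + 1),
    Polynomial.C ((-1) ^ j * γ j) * Polynomial.hasseDeriv j P, ?_,
    ∑ j ∈ Finset.range (P.natDegree + 1), A j * C j + 1, ?_, ?_⟩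
  · refine Polynomial.natDegree_sum_le_of_forall_le _ _ fun j _ => ?_
    exact (Polynomial.natDegree_C_mul_le _ _).trans (hdeg j)
  · have : 0 ≤ ∑ j ∈ Finset.range (P.natDegree + 1), A j * C j :=
      Finset.sum_nonneg fun j _ => mul_nonneg (hA0 j) (hC j).le
    linarith
  intro z L hz hL
  have e1 : ∑ m ∈ Finset.Icc 1 ⌊z⌋₊, P.eval (L - Real.log m) / m =
      ∑ j ∈ Finset.range (P.natDegree + 1), (Polynomial.hasseDeriv j P).eval L * (-1) ^ j *
        ∑ m ∈ Finset.Icc 1 ⌊z⌋₊, (Real.log m) ^ j / m := by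
    simp_rw [tay P L, Finset.sum_div, Finset.mul_sum]
    rw [Finset.sum_comm]
    refine Finset.sum_congr rfl fun j _ => Finset.sum_congr rfl fun m _ => ?_
    ring
  have e2 : (∫ u in (0 : ℝ)..Real.log z, P.eval (L - u)) =
      ∑ j ∈ Finset.range (P.natDegree + 1), (Polynomial.hasseDeriv j P).eval L * (-1) ^ j *
        ((Real.log z) ^ (j + 1) / (j + 1)) := by
    simp_rw [tay P L]
    rw [intervalIntegral.integral_finset_sum]
    · refine Finset.sum_congr rfl fun j _ => ?_
      rw [intervalIntegral.integral_const_mul, integral_pow]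
      congr 1
      simp
    · intro j _
      exact (Continuous.intervalIntegrable (by fun_prop) _ _)
  have e3 : (∑ j ∈ Finset.range (P.natDegree + 1),
      Polynomial.C ((-1) ^ j * γ j) * Polynomial.hasseDeriv j P).eval L =
      ∑ j ∈ Finset.range (P.natDegree + 1), (Polynomial.hasseDeriv j P).eval L * (-1) ^ j *
        γ j := by
    rw [Polynomial.eval_finset_sum]
    refine Finset.sum_congr rfl fun j _ => ?_
    rw [Polynomial.eval_mul, Polynomial.eval_C]
    ring
  have e4 : ∑ m ∈ Finset.Icc 1 ⌊z⌋₊, P.eval (L - Real.log m) / m -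
      (∫ u in (0 : ℝ)..Real.log z, P.eval (L - u)) - (∑ j ∈ Finset.range (P.natDegree + 1),
        Polynomial.C ((-1) ^ j * γ j) * Polynomial.hasseDeriv j P).eval L =
      ∑ j ∈ Finset.range (P.natDegree + 1), (Polynomial.hasseDeriv j P).eval L * (-1) ^ j *
        (∑ m ∈ Finset.Icc 1 ⌊z⌋₊, (Real.log m) ^ j / m - (Real.log z) ^ (j + 1) / (j + 1) -
          γ j) := by
    rw [e1, e2, e3, ← Finset.sum_sub_distrib, ← Finset.sum_sub_distrib]
    refine Finset.sum_congr rfl fun j _ => ?_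
    ring
  rw [e4]
  have hz0 : 0 ≤ z ^ (-(1 / 2) : ℝ) := Real.rpow_nonneg (by linarith) _
  have hL0 : 0 ≤ (1 + L) ^ P.natDegree := by positivity
  calc |∑ j ∈ Finset.range (P.natDegree + 1), (Polynomial.hasseDeriv j P).eval L * (-1) ^ j *
        (∑ m ∈ Finset.Icc 1 ⌊z⌋₊, (Real.log m) ^ j / m - (Real.log z) ^ (j + 1) / (j + 1) - γ j)|
      ≤ ∑ j ∈ Finset.range (P.natDegree + 1), A j * C j * (1 + L) ^ P.natDegree *
          z ^ (-(1 / 2) : ℝ) := by
        refine (Finset.abs_sum_le_sum_abs _ _).trans (Finset.sum_le_sum fun j _ => ?_)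
        rw [abs_mul, abs_mul, abs_pow, abs_neg, abs_one, one_pow, mul_one]
        calc |(Polynomial.hasseDeriv j P).eval L| *
              |∑ m ∈ Finset.Icc 1 ⌊z⌋₊, (Real.log m) ^ j / m -
                (Real.log z) ^ (j + 1) / (j + 1) - γ j|
            ≤ (A j * (1 + L) ^ P.natDegree) * (C j * z ^ (-(1 / 2) : ℝ)) :=
              mul_le_mul (hA j L hL) (hD j z hz) (abs_nonneg _) (mul_nonneg (hA0 j) hL0)
          _ = A j * C j * (1 + L) ^ P.natDegree * z ^ (-(1 / 2) : ℝ) := by ring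
    _ = (∑ j ∈ Finset.range (P.natDegree + 1), A j * C j) * (1 + L) ^ P.natDegree *
          z ^ (-(1 / 2) : ℝ) := by
        rw [Finset.sum_mul, Finset.sum_mul]
    _ ≤ (∑ j ∈ Finset.range (P.natDegree + 1), A j * C j + 1) * (1 + L) ^ P.natDegree *
          z ^ (-(1 / 2) : ℝ) :=
        mul_le_mul_of_nonneg_right (mul_le_mul_of_nonneg_right (by linarith) hL0) hz0

end Pool.Agent.Work.MP_122e00_nt.TS
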