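import Pool.Agent.Work.MP_122e00_nt.TS.Stmts2

/-!
# Thin shifts, item E2: the recursion of `rho`
-/

namespace Pool.Agent.Work.MP_122e00_nt.TS

open Finset Filter Topology ArithmeticFunction

namespace IE2

/-- solutions of `c₀ m = 0` modulo `q`, counted by their additive order -/
theorem card_ann (q : ℕ) [NeZero q] (m : ZMod q) :
    ((Finset.univ.filter (fun x : ZMod q => x * m = 0)).card) =
      ∑ d ∈ q.divisors, if ZMod.cast m = (0 : ZMod d) then Nat.totient d else 0 := by
  classical
  have hq : q ≠ 0 := NeZero.ne q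
  have h1 : ∀ x : ZMod q, addOrderOf x ∈ q.divisors := by
    intro x
    rw [Nat.mem_divisors]
    refine ⟨?_, hq⟩
    have := addOrderOf_dvd_card (x := x)
    rwa [ZMod.card] at this
  rw [Finset.card_eq_sum_card_fiberwise (f := fun x : ZMod q => addOrderOf x) (t := q.divisors)
    (fun x _ => h1 x)]
  apply Finset.sum_congr rfl
  intro d hd
  have hdq : d ∣ q := Nat.dvd_of_mem_divisors hd
  have hd0 : d ≠ 0 := fun h => hq (by rw [h] at hdq; exact Nat.eq_zero_of_zero_dvd hdq)
  have hm : m = ((m.val : ℕ) : ZMod q) := (ZMod.natCast_zmod_val m).symm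
  have hiff : (ZMod.cast m = (0 : ZMod d)) ↔ d ∣ m.val := by
    rw [← ZMod.natCast_eq_zero_iff]
    have : NeZero d := ⟨hd0⟩
    rw [ZMod.natCast_val]
  have h2 : ∀ x : ZMod q, addOrderOf x = d → (x * m = 0 ↔ d ∣ m.val) := by
    intro x hx
    rw [← hx, addOrderOf_dvd_iff_nsmul_eq_zero, nsmul_eq_mul, mul_comm x m]
    conv_lhs => rw [hm]
  by_cases h : ZMod.cast m = (0 : ZMod d)
  · rw [if_pos h]
    have h3 : (Finset.filter (fun x => addOrderOf x = d)
        (Finset.univ.filter (fun x : ZMod q => x * m = 0))) =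
        Finset.univ.filter (fun x : ZMod q => addOrderOf x = d) := by
      ext x
      simp only [Finset.mem_filter, Finset.mem_univ, true_and]
      constructor
      · exact fun hx => hx.2
      · intro hx
        exact ⟨(h2 x hx).2 (hiff.1 h), hx⟩
    rw [h3]
    apply IsAddCyclic.card_addOrderOf_eq_totient
    rw [ZMod.card]
    exact hdq
  · rw [if_neg h, Finset.card_eq_zero]
    ext x
    simp only [Finset.mem_filter, Finset.mem_univ, true_and, Finset.notMem_empty, iff_false,
      not_and]
    intro hx hxd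
    exact h (hiff.2 ((h2 x hxd).1 hx))

/-- tuples modulo `q` whose product vanishes modulo the divisor `d` -/
theorem card_lift (s q d : ℕ) [NeZero q] [NeZero d] (hdq : d ∣ q) :
    ((Finset.univ.filter (fun c : Fin s → ZMod q => ZMod.cast (∏ i, c i) = (0 : ZMod d))).card : ℝ) =
      (q : ℝ) ^ s * rho s d := by
  classical
  let f : (Fin s → ZMod q) →+ (Fin s → ZMod d) :=
    { toFun := fun c i => ZMod.castHom hdq (ZMod d) (c i)
      map_zero' := by
        funext i
        simp
      map_add' := by
        intro x y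
        funext i
        exact map_add (ZMod.castHom hdq (ZMod d)) (x i) (y i) }
  have hfs : Function.Surjective f := by
    intro y
    have h1 : ∀ i, ∃ x : ZMod q, ZMod.castHom hdq (ZMod d) x = y i := fun i =>
      ZMod.castHom_surjective hdq (y i)
    choose g hg using h1
    exact ⟨g, funext hg⟩
  have hfib : ∀ y, (Finset.univ.filter (fun c => f c = y)).card =
      (Finset.univ.filter (fun c => f c = 0)).card := fun y =>
    AddMonoidHom.card_fiber_eq_of_mem_range f (hfs y) (hfs 0)
  set N := (Finset.univ.filter (fun c => f c = 0)).card with hN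
  have htot : q ^ s = d ^ s * N := by
    have h1 : (Finset.univ : Finset (Fin s → ZMod q)).card =
        ∑ y ∈ (Finset.univ : Finset (Fin s → ZMod d)), (Finset.univ.filter (fun c => f c = y)).card :=
      Finset.card_eq_sum_card_fiberwise (fun c _ => Finset.mem_univ _)
    rw [Finset.sum_congr rfl (fun y _ => hfib y), Finset.sum_const, smul_eq_mul] at h1
    simpa [ZMod.card] using h1
  have hset : (Finset.univ.filter (fun c : Fin s → ZMod q => ZMod.cast (∏ i, c i) = (0 : ZMod d))) =
      (Finset.univ.filter (fun c : Fin s → ZMod q => ∏ i, (f c) i = 0)) := by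
    ext c
    simp only [Finset.mem_filter, Finset.mem_univ, true_and]
    have : (ZMod.cast (∏ i, c i) : ZMod d) = ∏ i, (f c) i := by
      have h1 : ZMod.castHom hdq (ZMod d) (∏ i, c i) = ∏ i, ZMod.castHom hdq (ZMod d) (c i) :=
        map_prod _ _ _
      exact h1
    rw [this]
  have hcount : (Finset.univ.filter (fun c : Fin s → ZMod q => ∏ i, (f c) i = 0)).card =
      (Finset.univ.filter (fun y : Fin s → ZMod d => ∏ i, y i = 0)).card * N := by
    have h1 : (Finset.univ.filter (fun c : Fin s → ZMod q => ∏ i, (f c) i = 0)).card =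
        ∑ y ∈ (Finset.univ.filter (fun y : Fin s → ZMod d => ∏ i, y i = 0)),
          (Finset.filter (fun c => f c = y)
            (Finset.univ.filter (fun c : Fin s → ZMod q => ∏ i, (f c) i = 0))).card := by
      apply Finset.card_eq_sum_card_fiberwise
      intro c hc
      simp only [Finset.coe_filter, Finset.mem_univ, true_and, Set.mem_ofPred_eq] at hc ⊢
      exact hc
    rw [h1]
    rw [Finset.sum_congr rfl (g := fun _ => N), Finset.sum_const, smul_eq_mul]
    intro y hy
    rw [← hfib y]
    congr 1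
    ext c
    simp only [Finset.mem_filter, Finset.mem_univ, true_and] at hy ⊢
    constructor
    · exact fun h => h.2
    · intro h
      exact ⟨by rw [h]; exact hy, h⟩
  rw [hset, hcount]
  unfold rho
  rw [Nat.card_eq_fintype_card, Fintype.card_subtype]
  have hd : (d : ℝ) ≠ 0 := Nat.cast_ne_zero.2 (NeZero.ne d)
  have htotR : (q : ℝ) ^ s = (d : ℝ) ^ s * N := by exact_mod_cast htot
  rw [htotR]
  push_cast
  field_simp

theorem card_succ (s q : ℕ) [NeZero q] :
    (Finset.univ.filter (fun c : Fin (s + 1) → ZMod q => ∏ i, c i = 0)).card =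
      ∑ c : Fin s → ZMod q, (Finset.univ.filter (fun x : ZMod q => x * ∏ i, c i = 0)).card := by
  classical
  have h1 : (Finset.univ.filter (fun c : Fin (s + 1) → ZMod q => ∏ i, c i = 0)).card =
      ∑ c : Fin (s + 1) → ZMod q, if ∏ i, c i = 0 then 1 else 0 := by
    rw [Finset.card_filter]
  rw [h1]
  rw [← (Fin.consEquiv (fun _ : Fin (s + 1) => ZMod q)).sum_comp]
  rw [Fintype.sum_prod_type_right]
  apply Finset.sum_congr rfl
  intro c _
  rw [Finset.card_filter]
  apply Finset.sum_congr rfl
  intro x _
  simp [Fin.consEquiv, Fin.prod_univ_succ]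

end IE2

theorem prE2 : tsE2 := by
  classical
  intro s q hq
  have : NeZero q := ⟨by omega⟩
  have hqR : (q : ℝ) ≠ 0 := Nat.cast_ne_zero.2 (NeZero.ne q)
  have h1 : (q : ℝ) ^ (s + 1) * rho (s + 1) q =
      ((Finset.univ.filter (fun c : Fin (s + 1) → ZMod q => ∏ i, c i = 0)).card : ℝ) := by
    unfold rho
    rw [Nat.card_eq_fintype_card, Fintype.card_subtype]
    field_simp
  have h2 : ((Finset.univ.filter (fun c : Fin (s + 1) → ZMod q => ∏ i, c i = 0)).card : ℝ) =
      ∑ d ∈ q.divisors, (Nat.totient d : ℝ) * ((q : ℝ) ^ s * rho s d) := by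
    rw [IE2.card_succ]
    push_cast
    have h3 : ∀ c : Fin s → ZMod q,
        ((Finset.univ.filter (fun x : ZMod q => x * ∏ i, c i = 0)).card : ℝ) =
        ∑ d ∈ q.divisors, if ZMod.cast (∏ i, c i) = (0 : ZMod d) then (Nat.totient d : ℝ) else 0 := by
      intro c
      rw [IE2.card_ann]
      push_cast
      rfl
    rw [Finset.sum_congr rfl (fun c _ => h3 c), Finset.sum_comm]
    apply Finset.sum_congr rfl
    intro d hd
    have hdq : d ∣ q := Nat.dvd_of_mem_divisors hd
    have : NeZero d := ⟨fun h => by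
      rw [h] at hdq
      have := Nat.eq_zero_of_zero_dvd hdq
      omega⟩
    rw [← IE2.card_lift s q d hdq, ← Finset.sum_filter, Finset.sum_const, nsmul_eq_mul, mul_comm]
  have h4 : (q : ℝ) ^ s * ((q : ℝ) * rho (s + 1) q) =
      (q : ℝ) ^ s * ∑ d ∈ q.divisors, (Nat.totient d : ℝ) * rho s d := by
    rw [← mul_assoc, ← pow_succ, h1, h2, Finset.mul_sum]
    apply Finset.sum_congr rfl
    intro d _
    ring
  exact mul_left_cancel₀ (pow_ne_zero _ hqR) h4

end Pool.Agent.Work.MP_122e00_nt.TS
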