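import Mathlib
import Pool.Agent.Work.MP_122e00_nt.TS.Stmts7

/-!
# Thin shifts, item K13: `u` on the minor arcs

Author: helper57 (the auxiliary lemmas are adapted from `I_V4.lean` by helper5).
-/

set_option autoImplicit false

namespace Pool.Agent.Work.MP_122e00_nt.TS

open Finset Filter Topology ArithmeticFunction MeasureTheory
open scoped ArithmeticFunction.zeta ArithmeticFunction.Moebius

namespace IK13

theorem tele {M : Type} [AddCommMonoid M] (c : ℕ → ℕ) (hc : Monotone c) (n : ℕ) (v : M) (I : ℕ) :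
    ∑ i ∈ Finset.range I, (if c i < n ∧ n ≤ c (i + 1) then v else 0) =
      if c 0 < n ∧ n ≤ c I then v else 0 := by
  induction I with
  | zero =>
    rw [Finset.sum_range_zero, if_neg]
    omega
  | succ I ih =>
    rw [Finset.sum_range_succ, ih]
    have h1 : c 0 ≤ c I := hc (Nat.zero_le _)
    have h2 : c I ≤ c (I + 1) := hc (Nat.le_succ _)
    by_cases h : n ≤ c I
    · by_cases h0 : c 0 < n
      · rw [if_pos ⟨h0, h⟩, if_neg (by omega), if_pos ⟨h0, by omega⟩, add_zero]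
      · rw [if_neg (by omega), if_neg (by omega), if_neg (by omega), add_zero]
    · by_cases h0 : n ≤ c (I + 1)
      · rw [if_neg (by omega), if_pos ⟨by omega, h0⟩, if_pos ⟨by omega, h0⟩, zero_add]
      · rw [if_neg (by omega), if_neg (by omega), if_neg (by omega), add_zero]

/-- the end points of the dyadic ranges -/
def As (a w i : ℕ) : ℕ := min (2 ^ i * a) w

theorem As_mono (a w : ℕ) : Monotone (As a w) := by
  intro i j hij
  exact min_le_min_right _ (Nat.mul_le_mul_right _ (Nat.pow_le_pow_right (by norm_num) hij))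

theorem As_zero {a w : ℕ} (h : a ≤ w) : As a w 0 = a := by
  simp [As, h]

theorem As_top {a w I : ℕ} (h : w ≤ 2 ^ I * a) : As a w I = w := by
  simp [As, h]

theorem As_succ (a w i : ℕ) : As a w (i + 1) ≤ 2 * As a w i := by
  unfold As
  rw [pow_succ]
  rcases le_total (2 ^ i * a) w with h | h
  · rw [min_eq_left h]
    exact (min_le_left _ _).trans (by nlinarith)
  · rw [min_eq_right h]
    exact (min_le_right _ _).trans (by omega)

theorem le_As {a w : ℕ} (h : a ≤ w) (i : ℕ) : a ≤ As a w i := by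
  have := As_mono a w (Nat.zero_le i)
  rwa [As_zero h] at this

/-- `u` as a sum over the cofactor of the prime -/
theorem up_eq (r : ℕ) {z w : ℝ} (hz : 0 ≤ z) {n : ℕ} (hn : 0 < n) :
    up r z w n = ∑ m ∈ n.divisors.filter (fun m => ⌊z⌋₊ * m < n ∧ n ≤ ⌊w⌋₊ * m),
      (if (n / m).Prime then (1 : ℝ) else 0) * dr r m := by
  have h1 : up r z w n = ∑ p ∈ n.divisors,
      (if (⌊z⌋₊ < p ∧ p ≤ ⌊w⌋₊) then (if p.Prime then (1 : ℝ) else 0) * dr r (n / p) else 0) := by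
    unfold up PW
    rw [Finset.filter_filter]
    have e1 : (Finset.Icc 1 ⌊w⌋₊).filter (fun p : ℕ => (p.Prime ∧ z < (p : ℝ)) ∧ p ∣ n) =
        n.divisors.filter (fun p => (⌊z⌋₊ < p ∧ p ≤ ⌊w⌋₊) ∧ p.Prime) := by
      ext p
      simp only [Finset.mem_filter, Finset.mem_Icc, Nat.mem_divisors]
      rw [← Nat.floor_lt hz]
      constructor
      · rintro ⟨⟨_, h2⟩, ⟨h3, h4⟩, h5⟩
        exact ⟨⟨h5, hn.ne'⟩, ⟨h4, h2⟩, h3⟩
      · rintro ⟨⟨h5, _⟩, ⟨h4, h2⟩, h3⟩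
        exact ⟨⟨h3.one_lt.le, h2⟩, ⟨h3, h4⟩, h5⟩
    rw [e1, Finset.sum_filter]
    refine Finset.sum_congr rfl fun p _ => ?_
    by_cases h2 : ⌊z⌋₊ < p ∧ p ≤ ⌊w⌋₊
    · by_cases h3 : p.Prime
      · rw [if_pos ⟨h2, h3⟩, if_pos h2, if_pos h3, one_mul]
      · rw [if_neg (fun h => h3 h.2), if_pos h2, if_neg h3, zero_mul]
    · rw [if_neg (fun h => h2 h.1), if_neg h2]
  rw [h1, ← Nat.sum_div_divisors n (fun p => (if (⌊z⌋₊ < p ∧ p ≤ ⌊w⌋₊) then
    (if p.Prime then (1 : ℝ) else 0) * dr r (n / p) else 0)), Finset.sum_filter]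
  refine Finset.sum_congr rfl fun m hm => ?_
  obtain ⟨a, rfl⟩ := Nat.dvd_of_mem_divisors hm
  have hm0 : 0 < m := Nat.pos_of_mem_divisors hm
  have ha0 : 0 < a := Nat.pos_of_mul_pos_left hn
  rw [Nat.mul_div_cancel_left a hm0, Nat.mul_div_cancel m ha0]
  refine if_congr (and_congr ?_ ?_) rfl rfl
  · rw [mul_comm ⌊z⌋₊ m, Nat.mul_lt_mul_left hm0]
  · rw [mul_comm ⌊w⌋₊ m, Nat.mul_le_mul_left_iff hm0]

theorem dec (B : ℕ → ℝ) {a w I : ℕ} (h1 : a ≤ w) (h2 : w ≤ 2 ^ I * a) (n : ℕ) :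
    ∑ m ∈ n.divisors.filter (fun m => a * m < n ∧ n ≤ w * m), B m =
      ∑ i ∈ Finset.range I, ∑ m ∈ n.divisors.filter
        (fun m => As a w i * m < n ∧ n ≤ As a w (i + 1) * m), B m := by
  simp_rw [Finset.sum_filter]
  rw [Finset.sum_comm]
  refine Finset.sum_congr rfl fun m _ => ?_
  have := tele (fun i => As a w i * m) (fun i j hij => Nat.mul_le_mul_right _ (As_mono a w hij))
    n (B m) I
  simp only [As_zero h1, As_top h2] at this
  exact this.symm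

theorem ws_sum {f : ℕ → ℝ} {g : ℕ → ℕ → ℝ} {I : ℕ} (γ : ℝ) (L x : ℕ)
    (h : ∀ n ∈ Finset.Ioc (x - L) x, f n = ∑ i ∈ Finset.range I, g i n) :
    ws f γ L x = ∑ i ∈ Finset.range I, ws (g i) γ L x := by
  unfold ws
  rw [Finset.sum_comm]
  refine Finset.sum_congr rfl fun n hn => ?_
  rw [h n hn]
  push_cast
  rw [Finset.sum_mul]

theorem norm_sq_sum_le (I : ℕ) (f : ℕ → ℂ) :
    ‖∑ i ∈ Finset.range I, f i‖ ^ 2 ≤ I * ∑ i ∈ Finset.range I, ‖f i‖ ^ 2 := by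
  have h1 : ‖∑ i ∈ Finset.range I, f i‖ ≤ ∑ i ∈ Finset.range I, ‖f i‖ := norm_sum_le _ _
  have h2 : (∑ i ∈ Finset.range I, ‖f i‖) ^ 2 ≤
      (Finset.range I).card * ∑ i ∈ Finset.range I, ‖f i‖ ^ 2 := sq_sum_le_card_mul_sum_sq
  rw [Finset.card_range] at h2
  exact (pow_le_pow_left₀ (norm_nonneg _) h1 2).trans h2

theorem dr_zero (r : ℕ) : dr r 0 = 0 := by
  simp [dr]

theorem clog_le {X : ℝ} {w : ℕ} (hX : 1 ≤ X) (hw : (w : ℝ) ≤ X) :
    ((Nat.clog 2 w : ℕ) : ℝ) ≤ 1 + 2 * Real.log X := by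
  have hl : 0 ≤ Real.log X := Real.log_nonneg hX
  rcases Nat.lt_or_ge 1 w with h | h
  · have h1 := Nat.pow_pred_clog_lt_self (b := 2) (by norm_num) h
    have h2 : ((2 : ℝ) ^ (Nat.clog 2 w).pred) ≤ X := by
      have h3 : ((2 ^ (Nat.clog 2 w).pred : ℕ) : ℝ) ≤ w := by exact_mod_cast h1.le
      push_cast at h3
      exact h3.trans hw
    have h4 := Real.log_le_log (by positivity) h2
    rw [Real.log_pow] at h4
    have h5 := Real.log_two_gt_d9
    have h6 : (0 : ℝ) ≤ ((Nat.clog 2 w).pred : ℕ) := Nat.cast_nonneg _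
    have h7 : ((Nat.clog 2 w : ℕ) : ℝ) ≤ ((Nat.clog 2 w).pred : ℕ) + 1 := by
      exact_mod_cast (by rw [Nat.pred_eq_sub_one]; omega :
        Nat.clog 2 w ≤ (Nat.clog 2 w).pred + 1)
    nlinarith
  · rw [Nat.clog_of_right_le_one h]
    push_cast
    linarith

/-- the final computation -/
theorem fin_calc {X s η C3 E I Z L lq : ℝ} (hX : 1 ≤ X) (hη : 0 < η) (hs : s = η / 24)
    (hC3 : 0 < C3) (hE : 0 ≤ E) (hI0 : 0 ≤ I) (hI : I ≤ X ^ s) (hZ0 : 0 ≤ Z) (hZ : Z ≤ 3 * X)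
    (hl0 : 0 ≤ lq) (hl : lq ≤ X ^ s) (hK : C3 * E ^ 2 * 15 ≤ X ^ s) :
    I * (I * (C3 * (E * X ^ s) ^ 2 * Z * L ^ 2 * lq * (5 * X ^ (-η)))) ≤ L ^ 2 * X ^ (1 - η / 2) := by
  have hX0 : 0 < X := by linarith
  have hs0 : 0 < s := by rw [hs]; positivity
  have p0 : 0 ≤ X ^ s := (Real.rpow_pos_of_pos hX0 s).le
  have p1 : 0 ≤ X ^ (-η) := (Real.rpow_pos_of_pos hX0 _).le
  have hL : 0 ≤ L ^ 2 := sq_nonneg L
  calc I * (I * (C3 * (E * X ^ s) ^ 2 * Z * L ^ 2 * lq * (5 * X ^ (-η))))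
      ≤ X ^ s * (X ^ s * (C3 * (E * X ^ s) ^ 2 * (3 * X) * L ^ 2 * X ^ s * (5 * X ^ (-η)))) := by
        gcongr
    _ = L ^ 2 * ((C3 * E ^ 2 * 15) * (X ^ s) ^ 5 * X * X ^ (-η)) := by ring
    _ ≤ L ^ 2 * (X ^ s * (X ^ s) ^ 5 * X * X ^ (-η)) := by
        gcongr
    _ = L ^ 2 * X ^ (6 * s + 1 - η) := by
        congr 1
        have e1 : X ^ s * (X ^ s) ^ 5 = X ^ (6 * s) := by
          rw [← pow_succ', ← Real.rpow_natCast, ← Real.rpow_mul hX0.le]
          congr 1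
          push_cast
          ring
        rw [e1, sub_eq_add_neg, Real.rpow_add hX0, Real.rpow_add hX0, Real.rpow_one]
    _ ≤ L ^ 2 * X ^ (1 - η / 2) := by
        apply mul_le_mul_of_nonneg_left _ hL
        apply Real.rpow_le_rpow_of_exponent_le hX
        rw [hs]
        linarith

theorem ev_log (s : ℝ) (hs : 0 < s) :
    ∀ᶠ X : ℝ in atTop, 1 + 2 * Real.log (3 * X) ≤ X ^ s ∧ 1 + Real.log (3 * X) ≤ X ^ s := by
  have h1 := (isLittleO_log_rpow_atTop hs).def (show (0 : ℝ) < 1 / 8 by norm_num)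
  have h2 : ∀ᶠ X : ℝ in atTop, 8 * (3 : ℝ) ≤ X ^ s :=
    (tendsto_rpow_atTop hs).eventually_ge_atTop _
  filter_upwards [h1, h2, eventually_ge_atTop (1 : ℝ)] with X h3 h4 h5
  have h6 : 0 ≤ Real.log X := Real.log_nonneg h5
  have h7 : 0 < X ^ s := Real.rpow_pos_of_pos (by linarith) s
  rw [Real.norm_of_nonneg h6, Real.norm_of_nonneg h7.le] at h3
  have h8 : Real.log (3 * X) = Real.log 3 + Real.log X :=
    Real.log_mul (by norm_num) (by linarith)
  have h9 : Real.log 3 ≤ 3 - 1 := Real.log_le_sub_one_of_pos (by norm_num)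
  rw [h8]
  constructor <;> linarith

end IK13

theorem prK13 (h0 : tsL0) (h12 : tsK12) : tsK13 := by
  intro r ε₂ θw θ₁ δ₂ hr hε hεw hwθ hδ₂ hδ₂'
  obtain ⟨C3, hC3, hV⟩ := h12
  obtain ⟨η, hηdef⟩ : ∃ η : ℝ, η = min (min ε₂ (θ₁ - θw)) δ₂ := ⟨_, rfl⟩
  have hη : 0 < η := by rw [hηdef]; exact lt_min (lt_min hε (by linarith)) hδ₂
  have hη1 : η ≤ ε₂ := by rw [hηdef]; exact (min_le_left _ _).trans (min_le_left _ _)
  have hη3 : η ≤ θ₁ - θw := by rw [hηdef]; exact (min_le_left _ _).trans (min_le_right _ _)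
  have hη2 : η ≤ δ₂ := by rw [hηdef]; exact min_le_right _ _
  obtain ⟨s, hs⟩ : ∃ s : ℝ, s = η / 24 := ⟨_, rfl⟩
  have hs0 : 0 < s := by rw [hs]; positivity
  obtain ⟨C, hC, hd⟩ := h0 r s hs0
  obtain ⟨E, hE⟩ : ∃ E : ℝ, E = C * 3 ^ s := ⟨_, rfl⟩
  have hE0 : 0 ≤ E := by rw [hE]; positivity
  obtain ⟨X0, hX0⟩ := eventually_atTop.1 (((IK13.ev_log s hs0).and
    ((tendsto_rpow_atTop hs0).eventually_ge_atTop (C3 * E ^ 2 * 15))).and
      (eventually_ge_atTop (1 : ℝ)))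
  refine ⟨η / 2, X0, by positivity, ?_⟩
  intro X hX L q b γ hL1 hL2 hq1 hq2 hbq hγ
  obtain ⟨⟨⟨hlog1, hlog2⟩, hK⟩, hX1⟩ := hX0 X hX
  have hXpos : 0 < X := by linarith
  -- the end points
  obtain ⟨a, ha⟩ : ∃ a : ℕ, a = ⌊X ^ ε₂⌋₊ := ⟨_, rfl⟩
  obtain ⟨w, hw⟩ : ∃ w : ℕ, w = ⌊X ^ θw⌋₊ := ⟨_, rfl⟩
  have hz1 : 1 ≤ X ^ ε₂ := Real.one_le_rpow hX1 hε.le
  have ha1 : 1 ≤ a := by
    rw [ha]
    exact (Nat.le_floor_iff' one_ne_zero).2 (by exact_mod_cast hz1)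
  have ha2 : X ^ ε₂ ≤ 2 * (a : ℝ) := by
    have h1 := Nat.lt_floor_add_one (X ^ ε₂)
    rw [← ha] at h1
    have h2 : (1 : ℝ) ≤ a := by exact_mod_cast ha1
    linarith
  have haw : a ≤ w := by
    rw [ha, hw]
    exact Nat.floor_le_floor (Real.rpow_le_rpow_of_exponent_le hX1 (by linarith))
  have hwle : (w : ℝ) ≤ X ^ θw := by
    rw [hw]
    exact Nat.floor_le (Real.rpow_nonneg hXpos.le _)
  have hwL : (w : ℝ) ≤ L :=
    (hwle.trans (Real.rpow_le_rpow_of_exponent_le hX1 (by linarith))).trans hL1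
  have hwX : (w : ℝ) ≤ 3 * X := hwL.trans hL2
  obtain ⟨I, hI⟩ : ∃ I : ℕ, I = Nat.clog 2 w := ⟨_, rfl⟩
  have hIw : w ≤ 2 ^ I * a := by
    rw [hI]
    have h1 := Nat.le_pow_clog (b := 2) (by norm_num) w
    calc w ≤ 2 ^ Nat.clog 2 w * 1 := by rw [mul_one]; exact h1
      _ ≤ 2 ^ Nat.clog 2 w * a := Nat.mul_le_mul_left _ ha1
  have hIlog : (I : ℝ) ≤ X ^ s := by
    rw [hI]
    exact (IK13.clog_le (by linarith) hwX).trans hlog1
  obtain ⟨Z, hZ⟩ : ∃ Z : ℕ, Z = ⌊3 * X⌋₊ := ⟨_, rfl⟩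
  have hZle : (Z : ℝ) ≤ 3 * X := by
    rw [hZ]
    exact Nat.floor_le (by linarith)
  -- the truncated weights
  obtain ⟨B', hB'⟩ : ∃ B' : ℕ → ℝ, ∀ m, B' m = if m ≤ Z then dr r m else 0 := ⟨_, fun _ => rfl⟩
  have hD : ∀ m, |B' m| ≤ E * X ^ s := by
    intro m
    have hD0 : 0 ≤ E * X ^ s := mul_nonneg hE0 (Real.rpow_nonneg hXpos.le _)
    have hdr : 0 ≤ dr r m := Nat.cast_nonneg _
    rw [hB']
    split_ifs with h
    · rw [abs_of_nonneg hdr]
      rcases Nat.eq_zero_or_pos m with h0 | h0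
      · rw [h0, IK13.dr_zero]
        exact hD0
      · have h2 := hd m h0
        have h3 : (m : ℝ) ^ s ≤ (3 * X) ^ s := by
          apply Real.rpow_le_rpow (Nat.cast_nonneg m) _ hs0.le
          have h4 : (m : ℝ) ≤ Z := by exact_mod_cast h
          exact h4.trans hZle
        rw [Real.mul_rpow (by norm_num) hXpos.le] at h3
        calc dr r m ≤ C * (m : ℝ) ^ s := h2
          _ ≤ C * (3 ^ s * X ^ s) := by gcongr
          _ = E * X ^ s := by rw [hE]; ring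
    · rw [abs_zero]
      exact hD0
  obtain ⟨c, hc⟩ : ∃ c : ℕ → ℝ, ∀ m, c m = if m.Prime then (1 : ℝ) else 0 := ⟨_, fun _ => rfl⟩
  have hc1 : ∀ m, |c m| ≤ 1 := by
    intro m
    rw [hc]
    split_ifs <;> simp
  -- sizes
  have hLpos : (0 : ℝ) < L := lt_of_lt_of_le (Real.rpow_pos_of_pos hXpos _) hL1
  have hLpos' : 0 < L := by exact_mod_cast hLpos
  have hqpos : (0 : ℝ) < q := lt_of_lt_of_le (Real.rpow_pos_of_pos hXpos _) hq1
  have hq1' : 1 ≤ q := by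
    have : 0 < q := by exact_mod_cast hqpos
    omega
  have hq1R : (1 : ℝ) ≤ q := by exact_mod_cast hq1'
  -- the decomposition
  have hdec : ∀ x ∈ Finset.Icc L Z, ws (up r (X ^ ε₂) (X ^ θw)) γ L x =
      ∑ i ∈ Finset.range I, ws (fun n => ∑ m ∈ n.divisors.filter
        (fun m => IK13.As a w i * m < n ∧ n ≤ IK13.As a w (i + 1) * m), c (n / m) * B' m)
          γ L x := by
    intro x hx
    apply IK13.ws_sum
    intro n hn
    have hn0 : 0 < n := by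
      have := (Finset.mem_Ioc.1 hn).1
      omega
    have hnZ : n ≤ Z := (Finset.mem_Ioc.1 hn).2.trans (Finset.mem_Icc.1 hx).2
    rw [IK13.up_eq r (Real.rpow_nonneg hXpos.le _) hn0, ← ha, ← hw,
      ← IK13.dec (fun m => c (n / m) * B' m) haw hIw n]
    refine Finset.sum_congr rfl fun m hm => ?_
    rw [hB', if_pos ((Nat.divisor_le (Finset.mem_filter.1 hm).1).trans hnZ), hc]
  have hlq : 1 + Real.log q ≤ X ^ s := by
    have h1 : (q : ℝ) ≤ 3 * X := by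
      have h2 : X ^ (-δ₂) ≤ 1 := Real.rpow_le_one_of_one_le_of_nonpos hX1 (by linarith)
      calc (q : ℝ) ≤ L * X ^ (-δ₂) := hq2
        _ ≤ L * 1 := by gcongr
        _ ≤ 3 * X := by linarith
    have h2 := Real.log_le_log hqpos h1
    linarith
  have hone : ∀ i, 1 / (IK13.As a w i : ℝ) + (IK13.As a w i : ℝ) / L + 1 / (q : ℝ) +
      (q : ℝ) / L ≤ 5 * X ^ (-η) := by
    intro i
    have hAi : (a : ℝ) ≤ IK13.As a w i := by exact_mod_cast IK13.le_As haw i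
    have haR : (1 : ℝ) ≤ a := by exact_mod_cast ha1
    have hAw : (IK13.As a w i : ℝ) ≤ w := by exact_mod_cast min_le_right _ _
    have k1 : 1 / (IK13.As a w i : ℝ) ≤ 2 * X ^ (-η) := by
      have h1 : 1 / (IK13.As a w i : ℝ) ≤ 1 / a := one_div_le_one_div_of_le (by linarith) hAi
      have h2 : 1 / (a : ℝ) ≤ 2 * X ^ (-ε₂) := by
        rw [Real.rpow_neg hXpos.le, div_le_iff₀ (by linarith), mul_assoc, mul_comm _ (a : ℝ),
          ← mul_assoc, ← div_eq_mul_inv, le_div_iff₀ (by positivity)]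
        linarith
      have h3 : X ^ (-ε₂) ≤ X ^ (-η) := Real.rpow_le_rpow_of_exponent_le hX1 (by linarith)
      linarith
    have k2 : (IK13.As a w i : ℝ) / L ≤ X ^ (-η) := by
      rw [div_le_iff₀ hLpos]
      calc (IK13.As a w i : ℝ) ≤ X ^ θw := hAw.trans hwle
        _ = X ^ (θw - θ₁) * X ^ θ₁ := by
            rw [← Real.rpow_add hXpos]
            congr 1
            ring
        _ ≤ X ^ (-η) * L := by
            apply mul_le_mul _ hL1 (Real.rpow_nonneg hXpos.le _) (Real.rpow_nonneg hXpos.le _)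
            exact Real.rpow_le_rpow_of_exponent_le hX1 (by linarith)
    have k3 : 1 / (q : ℝ) ≤ X ^ (-η) := by
      have h1 : 1 / (q : ℝ) ≤ 1 / X ^ δ₂ :=
        one_div_le_one_div_of_le (Real.rpow_pos_of_pos hXpos _) hq1
      rw [one_div (X ^ δ₂), ← Real.rpow_neg hXpos.le] at h1
      exact h1.trans (Real.rpow_le_rpow_of_exponent_le hX1 (by linarith))
    have k4 : (q : ℝ) / L ≤ X ^ (-η) := by
      rw [div_le_iff₀ hLpos]
      calc (q : ℝ) ≤ L * X ^ (-δ₂) := hq2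
        _ ≤ L * X ^ (-η) := by
            apply mul_le_mul_of_nonneg_left _ hLpos.le
            exact Real.rpow_le_rpow_of_exponent_le hX1 (by linarith)
        _ = X ^ (-η) * L := mul_comm _ _
    linarith
  have hlq0 : 0 ≤ 1 + Real.log q := by
    have := Real.log_nonneg hq1R
    linarith
  have hpiece : ∀ i ∈ Finset.range I, ∑ x ∈ Finset.Icc L Z,
      ‖ws (fun n => ∑ m ∈ n.divisors.filter
        (fun m => IK13.As a w i * m < n ∧ n ≤ IK13.As a w (i + 1) * m), c (n / m) * B' m)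
          γ L x‖ ^ 2 ≤
      C3 * (E * X ^ s) ^ 2 * Z * (L : ℝ) ^ 2 * (1 + Real.log q) * (5 * X ^ (-η)) := by
    intro i _
    have hAL : IK13.As a w i ≤ L := by
      have h1 : (IK13.As a w i : ℝ) ≤ w := by exact_mod_cast min_le_right _ _
      exact_mod_cast h1.trans hwL
    refine (hV (IK13.As a w i) (IK13.As a w (i + 1)) L q Z b γ (E * X ^ s) B' c
      (ha1.trans (IK13.le_As haw i)) (IK13.As_mono a w (Nat.le_succ i)) (IK13.As_succ a w i) hAL
      hq1' hbq hγ hD hc1).trans ?_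
    apply mul_le_mul_of_nonneg_left (hone i)
    positivity
  rw [← hZ]
  calc ∑ x ∈ Finset.Icc L Z, ‖ws (up r (X ^ ε₂) (X ^ θw)) γ L x‖ ^ 2
      ≤ ∑ x ∈ Finset.Icc L Z, (I : ℝ) * ∑ i ∈ Finset.range I, ‖ws (fun n =>
        ∑ m ∈ n.divisors.filter
        (fun m => IK13.As a w i * m < n ∧ n ≤ IK13.As a w (i + 1) * m), c (n / m) * B' m)
          γ L x‖ ^ 2 := by
        refine Finset.sum_le_sum fun x hx => ?_
        rw [hdec x hx]
        exact IK13.norm_sq_sum_le I _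
    _ = (I : ℝ) * ∑ i ∈ Finset.range I, ∑ x ∈ Finset.Icc L Z,
        ‖ws (fun n => ∑ m ∈ n.divisors.filter
        (fun m => IK13.As a w i * m < n ∧ n ≤ IK13.As a w (i + 1) * m), c (n / m) * B' m)
          γ L x‖ ^ 2 := by
        rw [← Finset.mul_sum, Finset.sum_comm]
    _ ≤ (I : ℝ) * ∑ i ∈ Finset.range I,
        (C3 * (E * X ^ s) ^ 2 * Z * (L : ℝ) ^ 2 * (1 + Real.log q) * (5 * X ^ (-η))) := by
        apply mul_le_mul_of_nonneg_left _ (Nat.cast_nonneg I)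
        exact Finset.sum_le_sum hpiece
    _ = (I : ℝ) * ((I : ℝ) * (C3 * (E * X ^ s) ^ 2 * Z * (L : ℝ) ^ 2 * (1 + Real.log q) *
          (5 * X ^ (-η)))) := by
        rw [Finset.sum_const, Finset.card_range, nsmul_eq_mul]
    _ ≤ (L : ℝ) ^ 2 * X ^ (1 - η / 2) :=
        IK13.fin_calc hX1 hη hs hC3 hE0 (Nat.cast_nonneg I) hIlog (Nat.cast_nonneg Z) hZle hlq0
          hlq hK

end Pool.Agent.Work.MP_122e00_nt.TS
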