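import Pool.Agent.Work.MP_122e00_nt.TS.Stmts7
import Pool.Agent.Work.MP_122e00_nt.TS.I_F5

set_option autoImplicit false

/-!
# Thin shifts, item K15 (helper66): one block, all frequencies, for `u`
-/

namespace Pool.Agent.Work.MP_122e00_nt.TS

open Finset Filter Topology ArithmeticFunction
open scoped ArithmeticFunction.zeta ArithmeticFunction.Moebius

namespace IK15

theorem big (K e : ℝ) (he : 0 < e) : ∃ X0 : ℝ, ∀ X : ℝ, X0 ≤ X → K ≤ X ^ e :=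
  Filter.eventually_atTop.mp ((tendsto_rpow_atTop he).eventually_ge_atTop K)

theorem ws_fu (r : ℕ) (E : ℕ → Polynomial ℝ) (z w : ℝ) (Q : ℕ) (γ : ℝ) (L x : ℕ) :
    ws (fu r E z w Q) γ L x = ws (up r z w) γ L x - ws (fs (Eu E z w) Q) γ L x := by
  unfold ws
  rw [← Finset.sum_sub_distrib]
  refine Finset.sum_congr rfl fun n _ => ?_
  unfold fu
  push_cast
  ring

theorem sq2 (A B : ℂ) : ‖A - B‖ ^ 2 ≤ 2 * ‖A‖ ^ 2 + 2 * ‖B‖ ^ 2 := by
  have h1 : ‖A - B‖ ^ 2 ≤ (‖A‖ + ‖B‖) ^ 2 :=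
    pow_le_pow_left₀ (norm_nonneg _) (norm_sub_le _ _) 2
  nlinarith [sq_nonneg (‖A‖ - ‖B‖)]

end IK15

theorem prK15 (h5 : tsK5) (h11 : tsK11) (h13 : tsK13) (h14 : tsK14) : tsK15 := by
  intro r E hr hAP hCB ε₂ θw θ₁ θ₂ hε hεw hw1 hw4 h12 h2
  have hθ1 : 0 < θ₁ := by linarith
  obtain ⟨δm, hδm, H11⟩ := h11 r E hr hAP hCB ε₂ θw θ₁ θ₂ hε hεw hw1 hw4 h2
  obtain ⟨δ₂, hδ20, hδ2m, hδ21, hδ2θ⟩ :
      ∃ δ₂ : ℝ, 0 < δ₂ ∧ δ₂ ≤ δm ∧ δ₂ ≤ 1 / 10 ∧ δ₂ ≤ θ₁ / 4 :=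
    ⟨min δm (min (1 / 10) (θ₁ / 4)), lt_min hδm (lt_min (by norm_num) (by linarith)),
      min_le_left _ _, (min_le_right _ _).trans (min_le_left _ _),
      (min_le_right _ _).trans (min_le_right _ _)⟩
  obtain ⟨δ, X13, hδ, H13⟩ := h13 r ε₂ θw θ₁ δ₂ hr hε hεw hw1 hδ20 (by linarith)
  obtain ⟨X14, H14⟩ := h14 r δ₂ hr hδ20
  obtain ⟨hdeg, hco⟩ := h5 r E hr hAP.1 hCB
  obtain ⟨C, hC, hcoef⟩ := hco 1 one_pos
  refine ⟨min (min δm (δ / 4)) (min (δ₂ / 8) (min ((1 - θ₂) / 8) (1 / 10))),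
    lt_min (lt_min hδm (by linarith)) (lt_min (by linarith) (lt_min (by linarith) (by norm_num))),
    (min_le_right _ _).trans ((min_le_right _ _).trans (min_le_right _ _)),
    (min_le_right _ _).trans ((min_le_right _ _).trans (min_le_left _ _)), ?_⟩
  intro δ₁ hδ1 hδ1'
  simp only [le_min_iff] at hδ1'
  obtain ⟨⟨k1, k2⟩, k3, k4, k5⟩ := hδ1'
  obtain ⟨X11, HX11⟩ := H11 δ₁ hδ1 k1
  obtain ⟨K, hK, hKX⟩ := IF5.log_pow (r + 1) (δ₁ / 2) (by positivity)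
  obtain ⟨Xa, hXa⟩ := IK15.big 4 δ₁ hδ1
  obtain ⟨Xb, hXb⟩ := IK15.big (4 * (C * K) ^ 2) δ₁ hδ1
  refine ⟨max 1 (max X11 (max X13 (max X14 (max Xa Xb)))), ?_⟩
  intro X γ a b L hX hBlk hL1 hL2
  simp only [max_le_iff] at hX
  obtain ⟨hX1, hX11, hX13, hX14, hXa', hXb'⟩ := hX
  have hXp : 0 < X := by linarith
  have mono : ∀ u v : ℝ, u ≤ v → X ^ u ≤ X ^ v := fun u v h =>
    Real.rpow_le_rpow_of_exponent_le hX1 h
  have pos : ∀ u : ℝ, 0 < X ^ u := fun u => Real.rpow_pos_of_pos hXp u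
  have mulX : ∀ u v : ℝ, X ^ u * X ^ v = X ^ (u + v) := fun u v => (Real.rpow_add hXp u v).symm
  have hLr1 : (1 : ℝ) ≤ L := (Real.one_le_rpow hX1 hθ1.le).trans hL1
  have hLpos : (0 : ℝ) < L := by linarith
  have hLn : 1 ≤ L := by exact_mod_cast hLr1
  have hLX : (L : ℝ) ≤ X := by
    have h := hL2.trans (mono θ₂ 1 h2.le)
    rwa [Real.rpow_one] at h
  have hQ : 1 ≤ (L : ℝ) * X ^ (-δ₂) := by
    have e1 : X ^ θ₁ * X ^ (-δ₂) ≤ (L : ℝ) * X ^ (-δ₂) :=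
      mul_le_mul_of_nonneg_right hL1 (pos _).le
    have e3 : 1 ≤ X ^ (θ₁ + -δ₂) := Real.one_le_rpow hX1 (by linarith)
    rw [mulX] at e1
    linarith
  have hQ1 : 1 ≤ ⌊(L : ℝ) * X ^ (-δ₂)⌋₊ := Nat.one_le_floor_iff _ |>.mpr hQ
  obtain ⟨ρ, hρ1, hρ2⟩ := Real.exists_rat_abs_sub_le_and_den_le γ (lt_of_lt_of_le Nat.zero_lt_one hQ1)
  have hden : 1 ≤ ρ.den := ρ.den_pos
  have hden' : (1 : ℝ) ≤ (ρ.den : ℝ) := by exact_mod_cast hden
  have hcop : IsCoprime ρ.num (ρ.den : ℤ) := by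
    rw [Int.isCoprime_iff_gcd_eq_one, Int.gcd_def]
    exact ρ.reduced
  have hρc : (ρ : ℝ) = (ρ.num : ℝ) / (ρ.den : ℝ) := Rat.cast_def ρ
  rw [hρc] at hρ1
  have hfl : (L : ℝ) * X ^ (-δ₂) < (⌊(L : ℝ) * X ^ (-δ₂)⌋₊ : ℝ) + 1 := Nat.lt_floor_add_one _
  have hfl2 : (⌊(L : ℝ) * X ^ (-δ₂)⌋₊ : ℝ) ≤ (L : ℝ) * X ^ (-δ₂) :=
    Nat.floor_le (by linarith)
  have hρ3 : (ρ.den : ℝ) ≤ (⌊(L : ℝ) * X ^ (-δ₂)⌋₊ : ℝ) := by exact_mod_cast hρ2
  rcases le_or_gt (ρ.den : ℝ) (X ^ δ₂) with hq | hq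
  · refine HX11 X hX11 a b hBlk L ρ.den ρ.num γ hL1 hL2 hden
      (hq.trans (mono _ _ hδ2m)) hcop (hρ1.trans ?_)
    calc (1 : ℝ) / (((⌊(L : ℝ) * X ^ (-δ₂)⌋₊ : ℝ) + 1) * (ρ.den : ℝ))
        ≤ 1 / ((L : ℝ) * X ^ (-δ₂) * 1) := by
          apply one_div_le_one_div_of_le (by positivity)
          exact mul_le_mul hfl.le hden' (by norm_num) (by linarith)
      _ = X ^ δ₂ / L := by
          rw [mul_one, Real.rpow_neg hXp.le]
          have := (Real.rpow_pos_of_pos hXp δ₂).ne'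
          field_simp
      _ ≤ X ^ δm / L := by
          apply div_le_div_of_nonneg_right _ hLpos.le
          exact mono _ _ hδ2m
  · obtain ⟨hb1, hb2, hb3, hb4⟩ := hBlk
    have hγ : |γ - (ρ.num : ℝ) / (ρ.den : ℝ)| ≤ 1 / (ρ.den : ℝ) ^ 2 := by
      refine hρ1.trans ?_
      apply one_div_le_one_div_of_le (by positivity)
      rw [pow_two]
      exact mul_le_mul_of_nonneg_right (by linarith) (by linarith)
    have hqL : (ρ.den : ℝ) ≤ L * X ^ (-δ₂) := hρ3.trans hfl2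
    set z : ℝ := X ^ ε₂ with hz
    set w : ℝ := X ^ θw with hw
    have hw1' : 1 ≤ w := Real.one_le_rpow hX1 (by linarith)
    set Q : ℕ := ⌊X ^ (δ₁ / 20)⌋₊ with hQd
    have hQle : (Q : ℝ) ≤ X ^ (δ₂ / 8) :=
      (Nat.floor_le (pos _).le).trans (mono _ _ (by linarith))
    obtain ⟨M, hM⟩ : ∃ M : ℝ, M = C * (1 + Real.log w) ^ (r + 1) := ⟨_, rfl⟩
    have hlw : 0 ≤ Real.log w := Real.log_nonneg hw1'
    have hM0 : 0 ≤ M := by rw [hM]; positivity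
    have hlX : 0 ≤ Real.log X := Real.log_nonneg hX1
    have hMle : M ≤ C * K * X ^ (δ₁ / 2) := by
      have e1 : Real.log w ≤ Real.log (2 * X) := by
        rw [hw, Real.log_rpow hXp, Real.log_mul (by norm_num) hXp.ne']
        have e2 : 0 ≤ Real.log 2 := Real.log_nonneg (by norm_num)
        have e3 : θw * Real.log X ≤ 1 * Real.log X :=
          mul_le_mul_of_nonneg_right (by linarith) hlX
        linarith
      have e4 : (1 + Real.log w) ^ (r + 1) ≤ K * X ^ (δ₁ / 2) :=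
        (pow_le_pow_left₀ (by linarith) (by linarith) _).trans (hKX X hX1)
      calc M = C * (1 + Real.log w) ^ (r + 1) := hM
        _ ≤ C * (K * X ^ (δ₁ / 2)) := mul_le_mul_of_nonneg_left e4 hC.le
        _ = C * K * X ^ (δ₁ / 2) := by ring
    have hcard : ((Finset.Icc (a + L) b).card : ℝ) ≤ X ^ (1 - δ₁) := by
      rw [Nat.card_Icc]
      rcases le_or_gt a b with hab | hab
      · have h1 : b + 1 - (a + L) ≤ b - a := by omega
        have h3 : ((b + 1 - (a + L) : ℕ) : ℝ) ≤ ((b - a : ℕ) : ℝ) := by exact_mod_cast h1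
        have h5 : ((b - a : ℕ) : ℝ) = b - a := Nat.cast_sub hab
        linarith
      · have h1 : b + 1 - (a + L) = 0 := by omega
        rw [h1, Nat.cast_zero]
        exact (pos _).le
    have p1 : ∑ x ∈ Finset.Icc (a + L) b, ‖ws (up r z w) γ L x‖ ^ 2 ≤
        (L : ℝ) ^ 2 * X ^ (1 - 4 * δ₁) := by
      refine (Finset.sum_le_sum_of_subset_of_nonneg ?_ (fun _ _ _ => by positivity)).trans
        ((H13 X hX13 L ρ.den ρ.num γ hL1 (by linarith) hq.le hqL hcop hγ).trans ?_)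
      · intro x hx
        rw [Finset.mem_Icc] at hx ⊢
        exact ⟨by omega, Nat.le_floor (le_trans (by exact_mod_cast hx.2) hb2)⟩
      · exact mul_le_mul_of_nonneg_left (mono _ _ (by linarith)) (by positivity)
    have p2 : ∑ x ∈ Finset.Icc (a + L) b, ‖ws (fs (Eu E z w) Q) γ L x‖ ^ 2 ≤
        (L : ℝ) ^ 2 * ((C * K) ^ 2 * X ^ (1 - 4 * δ₁)) := by
      have h1 : ∀ x ∈ Finset.Icc (a + L) b, ‖ws (fs (Eu E z w) Q) γ L x‖ ^ 2 ≤
          (M * L * X ^ (-(δ₂ / 4))) ^ 2 := by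
        intro x hx
        rw [Finset.mem_Icc] at hx
        refine pow_le_pow_left₀ (norm_nonneg _) ?_ 2
        refine H14 (Eu E z w) M X γ Q x L ρ.den ρ.num hX14 hM0 (fun s => hdeg z w s) ?_ hQle
          (by omega) (le_trans (by exact_mod_cast hx.2) hb2) hq.le hqL hcop hγ
        intro s j hs
        have h := hcoef z w s j hw1' hs
        rwa [sub_self, Real.rpow_zero, mul_one, ← hM] at h
      refine (Finset.sum_le_card_nsmul _ _ _ h1).trans ?_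
      rw [nsmul_eq_mul]
      have e1 : M ^ 2 ≤ (C * K) ^ 2 * X ^ δ₁ := by
        calc M ^ 2 ≤ (C * K * X ^ (δ₁ / 2)) ^ 2 := pow_le_pow_left₀ hM0 hMle 2
          _ = (C * K) ^ 2 * (X ^ (δ₁ / 2) * X ^ (δ₁ / 2)) := by ring
          _ = (C * K) ^ 2 * X ^ δ₁ := by rw [mulX, add_halves]
      have e2 : (X ^ (-(δ₂ / 4))) ^ 2 ≤ X ^ (-(4 * δ₁)) := by
        rw [pow_two, mulX]
        exact mono _ _ (by linarith)
      calc ((Finset.Icc (a + L) b).card : ℝ) * (M * L * X ^ (-(δ₂ / 4))) ^ 2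
          ≤ X ^ (1 - δ₁) * (M * L * X ^ (-(δ₂ / 4))) ^ 2 :=
            mul_le_mul_of_nonneg_right hcard (by positivity)
        _ = (L : ℝ) ^ 2 * (X ^ (1 - δ₁) * (M ^ 2 * (X ^ (-(δ₂ / 4))) ^ 2)) := by ring
        _ ≤ (L : ℝ) ^ 2 * (X ^ (1 - δ₁) * ((C * K) ^ 2 * X ^ δ₁ * X ^ (-(4 * δ₁)))) := by
            have hp := pos (1 - δ₁)
            refine mul_le_mul_of_nonneg_left (mul_le_mul_of_nonneg_left
              (mul_le_mul e1 e2 (by positivity) ?_) hp.le) (by positivity)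
            have := pos δ₁
            positivity
        _ = (L : ℝ) ^ 2 * ((C * K) ^ 2 * (X ^ (1 - δ₁) * X ^ δ₁ * X ^ (-(4 * δ₁)))) := by ring
        _ = (L : ℝ) ^ 2 * ((C * K) ^ 2 * X ^ (1 - 4 * δ₁)) := by
            rw [mulX, mulX]
            congr 3
            ring
    have hsum : ∑ x ∈ Finset.Icc (a + L) b, ‖ws (fu r E z w Q) γ L x‖ ^ 2 ≤
        2 * ((L : ℝ) ^ 2 * X ^ (1 - 4 * δ₁)) +
          2 * ((L : ℝ) ^ 2 * ((C * K) ^ 2 * X ^ (1 - 4 * δ₁))) := by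
      calc ∑ x ∈ Finset.Icc (a + L) b, ‖ws (fu r E z w Q) γ L x‖ ^ 2
          ≤ ∑ x ∈ Finset.Icc (a + L) b, (2 * ‖ws (up r z w) γ L x‖ ^ 2 +
              2 * ‖ws (fs (Eu E z w) Q) γ L x‖ ^ 2) := by
            refine Finset.sum_le_sum fun x _ => ?_
            rw [IK15.ws_fu]
            exact IK15.sq2 _ _
        _ = 2 * ∑ x ∈ Finset.Icc (a + L) b, ‖ws (up r z w) γ L x‖ ^ 2 +
              2 * ∑ x ∈ Finset.Icc (a + L) b, ‖ws (fs (Eu E z w) Q) γ L x‖ ^ 2 := by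
            rw [Finset.sum_add_distrib, ← Finset.mul_sum, ← Finset.mul_sum]
        _ ≤ _ := add_le_add (mul_le_mul_of_nonneg_left p1 (by norm_num))
            (mul_le_mul_of_nonneg_left p2 (by norm_num))
    refine hsum.trans ?_
    have ha4 := hXa X hXa'
    have hb4' := hXb X hXb'
    have hpX := pos (1 - 4 * δ₁)
    calc 2 * ((L : ℝ) ^ 2 * X ^ (1 - 4 * δ₁)) +
          2 * ((L : ℝ) ^ 2 * ((C * K) ^ 2 * X ^ (1 - 4 * δ₁)))
        = (L : ℝ) ^ 2 * (X ^ (1 - 4 * δ₁) * (2 + 2 * (C * K) ^ 2)) := by ring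
      _ ≤ (L : ℝ) ^ 2 * (X ^ (1 - 4 * δ₁) * X ^ δ₁) :=
          mul_le_mul_of_nonneg_left (mul_le_mul_of_nonneg_left (by linarith) hpX.le)
            (by positivity)
      _ = (L : ℝ) ^ 2 * X ^ (1 - 4 * δ₁ + δ₁) := by rw [mulX]
      _ ≤ (L : ℝ) ^ 2 * X ^ (1 - δ₁ - δ₁ / 80) :=
          mul_le_mul_of_nonneg_left (mono _ _ (by linarith)) (by positivity)

end Pool.Agent.Work.MP_122e00_nt.TS
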