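import Pool.Agent.Work.MP_122e00_nt.TS.Stmts7
import Pool.Agent.Work.MP_122e00_nt.TS.I_R10

/-!
# Thin shifts, item K16: the mean square over short intervals of `u` minus its model
-/

namespace Pool.Agent.Work.MP_122e00_nt.TS

open Finset Filter Topology

namespace IK16

/-- pointwise bound -/
lemma fu_le (hK7 : tsK7) (r : ℕ) (E : ℕ → Polynomial ℝ) (hr : 1 ≤ r)
    (hE : ∀ q, (E q).natDegree ≤ r - 1) (hCB : CB E) (ε : ℝ) (hε : 0 < ε) :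
    ∃ C : ℝ, 0 < C ∧ ∀ (X z w : ℝ) (Q n : ℕ), 1 ≤ X → 1 ≤ w → w ≤ X → (Q : ℝ) ≤ X → 1 ≤ n →
      (n : ℝ) ≤ 2 * X → |fu r E z w Q n| ≤ C * X ^ ε := by
  obtain ⟨C, hC, h⟩ := hK7 r E hr hE hCB ε hε
  refine ⟨2 * C, by positivity, fun X z w Q n hX hw1 hw2 hQ hn hnX => ?_⟩
  obtain ⟨h1, h2⟩ := h X z w Q n hX hw1 hw2 hQ hn (by linarith)
  unfold fu
  have h3 : |up r z w n - fs (Eu E z w) Q n| ≤ |up r z w n| + |fs (Eu E z w) Q n| := abs_sub _ _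
  calc |up r z w n - fs (Eu E z w) Q n| ≤ C * X ^ ε + C * X ^ ε := by linarith
    _ = 2 * C * X ^ ε := by ring

end IK16

open IR10 in
theorem prK16 (hK7 : tsK7) (hK15 : tsK15) : tsK16 := by
  intro r E hr hAP hCB ε₂ θw θ₁ θ₂ hε₂ hεw hw₁ hw4 hθ hθ₂
  obtain ⟨δ₀, hd0, hd1, hd2, h9⟩ := hK15 r E hr hAP hCB ε₂ θw θ₁ θ₂ hε₂ hεw hw₁ hw4 hθ hθ₂
  obtain ⟨δ₁, hδdef⟩ : ∃ δ₁ : ℝ, δ₁ = min δ₀ ε₂ := ⟨_, rfl⟩
  have hδ₀ : δ₁ ≤ δ₀ := by rw [hδdef]; exact min_le_left _ _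
  have hδε : δ₁ ≤ ε₂ := by rw [hδdef]; exact min_le_right _ _
  have hδ0 : 0 < δ₁ := by rw [hδdef]; exact lt_min hd0 hε₂
  have hδ1 : δ₁ ≤ 1 / 10 := by linarith
  have hδ2 : δ₁ ≤ (1 - θ₂) / 8 := by linarith
  obtain ⟨X9, h9⟩ := h9 δ₁ hδ0 hδ₀
  obtain ⟨C, hC, hfl⟩ := IK16.fu_le hK7 r E hr hAP.1 hCB (δ₁ / 16) (by positivity)
  have hev : ∀ᶠ X : ℝ in atTop, 2 ≤ X ^ (1 - δ₁) ∧ 5 + 8 * C ^ 2 ≤ X ^ (δ₁ / 400) ∧ 1 ≤ X ∧
      X9 ≤ X :=
    ((tendsto_rpow_atTop (by linarith)).eventually_ge_atTop 2).and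
      (((tendsto_rpow_atTop (by positivity)).eventually_ge_atTop (5 + 8 * C ^ 2)).and
        ((eventually_ge_atTop 1).and (eventually_ge_atTop X9)))
  obtain ⟨X0, hX0⟩ := Filter.eventually_atTop.1 hev
  refine ⟨δ₁ / 20, δ₁ / 100, X0, by positivity, by linarith, by linarith, by positivity, ?_⟩
  intro X γ N L hX hN hL1 hL2
  obtain ⟨hX2, hXC, hX1, hX9⟩ := hX0 X hX
  have hXpos : 0 < X := by linarith
  set Q : ℕ := ⌊X ^ (δ₁ / 20)⌋₊ with hQ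
  have hQX : (Q : ℝ) ≤ X := by
    refine (Nat.floor_le (Real.rpow_nonneg hXpos.le _)).trans ?_
    calc X ^ (δ₁ / 20) ≤ X ^ (1 : ℝ) := Real.rpow_le_rpow_of_exponent_le hX1 (by linarith)
      _ = X := Real.rpow_one X
  have hw1 : 1 ≤ X ^ θw := Real.one_le_rpow hX1 (by linarith)
  have hw2 : X ^ θw ≤ X := by
    calc X ^ θw ≤ X ^ (1 : ℝ) := Real.rpow_le_rpow_of_exponent_le hX1 (by linarith)
      _ = X := Real.rpow_one X
  set β : ℕ := ⌊X ^ (1 - δ₁)⌋₊ with hβ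
  have hβle : (β : ℝ) ≤ X ^ (1 - δ₁) := Nat.floor_le (Real.rpow_nonneg hXpos.le _)
  have hβge : X ^ (1 - δ₁) / 2 ≤ β := by
    have h1 := Nat.lt_floor_add_one (X ^ (1 - δ₁))
    rw [← hβ] at h1
    linarith
  have hβ0 : 0 < β := by
    have h1 : (0 : ℝ) < β := by linarith
    exact_mod_cast h1
  have hβpos : (0 : ℝ) < β := by exact_mod_cast hβ0
  set P : ℝ := X ^ (1 - δ₁ / 2) with hP
  have hP0 : 0 < P := Real.rpow_pos_of_pos hXpos _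
  have hβP : (β : ℝ) ≤ P :=
    hβle.trans (Real.rpow_le_rpow_of_exponent_le hX1 (by linarith))
  set i₀ : ℕ := ⌈P / β⌉₊ with hi₀
  have hi₀1 : P ≤ i₀ * β := by
    rw [← div_le_iff₀ hβpos]
    exact Nat.le_ceil _
  have hi₀2 : (i₀ : ℝ) * β ≤ 2 * P := by
    have h1 := Nat.ceil_lt_add_one (div_nonneg hP0.le hβpos.le)
    rw [← hi₀] at h1
    have h2 : (i₀ : ℝ) * β ≤ (P / β + 1) * β := mul_le_mul_of_nonneg_right h1.le hβpos.le
    rw [add_mul, div_mul_cancel₀ _ hβpos.ne', one_mul] at h2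
    linarith
  set D : ℝ := X ^ δ₁ with hD
  have hD1 : 1 ≤ D := Real.one_le_rpow hX1 hδ0.le
  have hXD : X = X ^ (1 - δ₁) * D := by
    rw [hD, ← Real.rpow_add hXpos]
    norm_num
  have hblocks : ((N / β : ℕ) : ℝ) + 1 ≤ 5 * D := by
    have h1 : ((N / β : ℕ) : ℝ) ≤ N / β := Nat.cast_div_le
    have h2 : (N : ℝ) / β ≤ 4 * D := by
      rw [div_le_iff₀ hβpos]
      calc (N : ℝ) ≤ 2 * X := hN
        _ = 4 * D * (X ^ (1 - δ₁) / 2) := by linear_combination 2 * hXD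
        _ ≤ 4 * D * β := mul_le_mul_of_nonneg_left hβge (by positivity)
    linarith
  set Y : ℝ := (L : ℝ) ^ 2 * X ^ (1 - δ₁ - δ₁ / 80) with hY
  set Z : ℝ := ((L : ℝ) * (C * X ^ (δ₁ / 16))) ^ 2 with hZ
  have hY0 : 0 ≤ Y := by positivity
  have hZ0 : 0 ≤ Z := by positivity
  have hLpos : 1 ≤ L := by
    have h1 : (0 : ℝ) < L := lt_of_lt_of_le (Real.rpow_pos_of_pos hXpos _) hL1
    exact_mod_cast h1
  have hsplit := split (f := fun x => ‖wn (fu r E (X ^ ε₂) (X ^ θw) Q) N L x γ‖ ^ 2) (N := N) (L := L) (β := β)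
    (i₀ := i₀) (Y := Y) (Z := Z) hβ0 (by
      intro i hi1 hi2
      have hiβ : i * β ≤ N := (Nat.mul_le_mul_right β hi2).trans (Nat.div_mul_le_self N β)
      have hiβ' : (i : ℝ) * β ≤ N := by exact_mod_cast hiβ
      have hPi : P ≤ ((i * β : ℕ) : ℝ) := by
        push_cast
        refine hi₀1.trans (mul_le_mul_of_nonneg_right ?_ hβpos.le)
        exact_mod_cast hi1
      have h1 := h9 X γ (i * β) (i * β + β) L hX9 ⟨hPi, by
          push_cast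
          have h2 : X ^ (1 - δ₁) ≤ X := by
            calc X ^ (1 - δ₁) ≤ X ^ (1 : ℝ) :=
                  Real.rpow_le_rpow_of_exponent_le hX1 (by linarith)
              _ = X := Real.rpow_one X
          linarith, by push_cast; linarith, by push_cast; linarith⟩ hL1 hL2
      refine le_trans ?_ h1
      refine le_trans (Finset.sum_le_sum (g := fun x => ‖∑ n ∈ Finset.Ioc (x - L) x,
        ((fu r E (X ^ ε₂) (X ^ θw) Q n : ℝ) : ℂ) * ee (n * γ)‖ ^ 2) fun x hx => ?_)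
        (Finset.sum_le_sum_of_subset_of_nonneg (Finset.filter_subset _ _)
          fun x _ _ => by positivity)
      rw [Finset.mem_filter, Finset.mem_Icc] at hx
      rw [wn_eq _ _ hx.2 (by omega)])
    (fun x => by positivity) (fun x => by
      rw [hZ]
      refine pow_le_pow_left₀ (norm_nonneg _) (wn_le (by positivity) fun n hn1 hn2 => ?_) 2
      exact hfl X (X ^ ε₂) (X ^ θw) Q n hX1 hw1 hw2 hQX hn1 (le_trans (by exact_mod_cast hn2) hN)) hY0 hZ0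
  unfold SI
  refine hsplit.trans ?_
  -- the good positions
  have hg : (((N / β : ℕ) : ℝ) + 1) * Y ≤ 5 * ((L : ℝ) ^ 2 * X ^ (1 - δ₁ / 80)) := by
    refine (mul_le_mul_of_nonneg_right hblocks hY0).trans (le_of_eq ?_)
    have h1 : X ^ (1 - δ₁ / 80) = D * X ^ (1 - δ₁ - δ₁ / 80) := by
      rw [hD, ← Real.rpow_add hXpos]
      congr 1
      ring
    rw [h1, hY]
    ring
  -- the bad positions
  have hDT : D * L ≤ P := by
    calc D * (L : ℝ) ≤ D * X ^ θ₂ := mul_le_mul_of_nonneg_left hL2 (by linarith)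
      _ = X ^ (δ₁ + θ₂) := by rw [hD, ← Real.rpow_add hXpos]
      _ ≤ P := Real.rpow_le_rpow_of_exponent_le hX1 (by linarith)
  have hcount : (i₀ : ℝ) * β + (((N / β : ℕ) : ℝ) + 1) * L + L ≤ 8 * P := by
    have hL0' : (0 : ℝ) ≤ L := Nat.cast_nonneg L
    have h1 : (((N / β : ℕ) : ℝ) + 1) * L ≤ 5 * D * L := mul_le_mul_of_nonneg_right hblocks hL0'
    have h2 : (L : ℝ) ≤ D * L := le_mul_of_one_le_left hL0' hD1
    linarith
  have hb : ((i₀ : ℝ) * β + (((N / β : ℕ) : ℝ) + 1) * L + L) * Z ≤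
      8 * C ^ 2 * ((L : ℝ) ^ 2 * X ^ (1 - δ₁ / 80)) := by
    refine (mul_le_mul_of_nonneg_right hcount hZ0).trans ?_
    have h1 : P * (X ^ (δ₁ / 16)) ^ 2 ≤ X ^ (1 - δ₁ / 80) := by
      rw [hP, pow_two, ← Real.rpow_add hXpos, ← Real.rpow_add hXpos]
      exact Real.rpow_le_rpow_of_exponent_le hX1 (by linarith)
    calc 8 * P * Z = 8 * C ^ 2 * ((L : ℝ) ^ 2 * (P * (X ^ (δ₁ / 16)) ^ 2)) := by rw [hZ]; ring
      _ ≤ 8 * C ^ 2 * ((L : ℝ) ^ 2 * X ^ (1 - δ₁ / 80)) := by gcongr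
  refine (add_le_add hg hb).trans ?_
  have h2 : X ^ (1 - δ₁ / 100) = X ^ (δ₁ / 400) * X ^ (1 - δ₁ / 80) := by
    rw [← Real.rpow_add hXpos]
    congr 1
    ring
  rw [h2]
  have h3 : 0 ≤ (L : ℝ) ^ 2 * X ^ (1 - δ₁ / 80) := by positivity
  calc 5 * ((L : ℝ) ^ 2 * X ^ (1 - δ₁ / 80)) + 8 * C ^ 2 * ((L : ℝ) ^ 2 * X ^ (1 - δ₁ / 80)) =
        (5 + 8 * C ^ 2) * ((L : ℝ) ^ 2 * X ^ (1 - δ₁ / 80)) := by ring
    _ ≤ X ^ (δ₁ / 400) * ((L : ℝ) ^ 2 * X ^ (1 - δ₁ / 80)) := mul_le_mul_of_nonneg_right hXC h3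
    _ = (L : ℝ) ^ 2 * (X ^ (δ₁ / 400) * X ^ (1 - δ₁ / 80)) := by ring

end Pool.Agent.Work.MP_122e00_nt.TS
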