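import Pool.Agent.Work.MP_122e00_nt.TS.Stmts8
import Pool.Agent.Work.MP_0f91f8_co.FC.I_LSb
import Pool.Agent.Work.MP_0f91f8_co.FC.I_LSp
import Pool.Agent.Work.MP_0f91f8_co.FC.I_LSq

/-!
# Block TS, item N4: the sieve bound
-/

set_option autoImplicit false

namespace Pool.Agent.Work.MP_122e00_nt.TS

open Finset

namespace IN4

/-- the large sieve -/
theorem lsb : Pool.Agent.F0f91f8.FC.StLSb :=
  Pool.Agent.F0f91f8.FC.pr_LSb (Pool.Agent.F0f91f8.FC.pr_LSq Pool.Agent.F0f91f8.FC.pr_LSp)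

/-- the residue classes which are avoided -/
theorem resid (p n₀ h L : ℕ) (hp : p.Prime) (hL : ¬ p ∣ L) (T : Finset ℕ)
    (h1 : ∀ t ∈ T, ¬ p ∣ n₀ + L * t) (h2 : ∀ t ∈ T, ¬ p ∣ n₀ + L * t + h) :
    (T.image fun z => z % p).card + oh h p ≤ p := by
  classical
  have : Fact p.Prime := ⟨hp⟩
  have hL0 : (L : ZMod p) ≠ 0 := fun h => hL ((ZMod.natCast_eq_zero_iff L p).1 h)
  set r1 : ℕ := (-(n₀ : ZMod p) * (L : ZMod p)⁻¹).val with hr1
  set r2 : ℕ := (-((n₀ : ZMod p) + h) * (L : ZMod p)⁻¹).val with hr2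
  have hr1p : r1 < p := ZMod.val_lt _
  have hr2p : r2 < p := ZMod.val_lt _
  have c1 : (L : ZMod p) * (r1 : ZMod p) = -(n₀ : ZMod p) := by
    rw [hr1, ZMod.natCast_val, ZMod.cast_id', id]
    field_simp
  have c2 : (L : ZMod p) * (r2 : ZMod p) = -((n₀ : ZMod p) + h) := by
    rw [hr2, ZMod.natCast_val, ZMod.cast_id', id]
    field_simp
  have hmod : ∀ t : ℕ, ((t % p : ℕ) : ZMod p) = (t : ZMod p) := fun t => ZMod.natCast_mod t p
  have hsub : (T.image fun z => z % p) ⊆ Finset.range p \ {r1, r2} := by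
    intro x hx
    rw [Finset.mem_image] at hx
    obtain ⟨t, ht, rfl⟩ := hx
    rw [Finset.mem_sdiff, Finset.mem_range]
    refine ⟨Nat.mod_lt _ hp.pos, ?_⟩
    rw [Finset.mem_insert, Finset.mem_singleton]
    rintro (h3 | h3)
    · apply h1 t ht
      rw [← ZMod.natCast_eq_zero_iff]
      push_cast
      rw [← hmod t, h3, c1]
      ring
    · apply h2 t ht
      rw [← ZMod.natCast_eq_zero_iff]
      push_cast
      rw [← hmod t, h3, c2]
      ring
  have hsub2 : ({r1, r2} : Finset ℕ) ⊆ Finset.range p := by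
    intro x hx
    rw [Finset.mem_insert, Finset.mem_singleton] at hx
    rw [Finset.mem_range]
    rcases hx with rfl | rfl
    · exact hr1p
    · exact hr2p
  have hc : oh h p ≤ ({r1, r2} : Finset ℕ).card := by
    unfold oh
    split_ifs with hd
    · exact Finset.card_pos.2 ⟨r1, Finset.mem_insert_self _ _⟩
    · rw [Finset.card_pair]
      intro h3
      apply hd
      rw [← ZMod.natCast_eq_zero_iff]
      have h4 : (r1 : ZMod p) = (r2 : ZMod p) := by rw [h3]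
      rw [h4, c2] at c1
      linear_combination -c1
  have h5 := Finset.card_le_card hsub
  rw [Finset.card_sdiff_of_subset hsub2, Finset.card_range] at h5
  have h6 := Finset.card_le_card hsub2
  rw [Finset.card_range] at h6
  omega

end IN4

open IN4 in
theorem prN4 (h3 : tsN3) : tsN4 := by
  obtain ⟨c, hc, hN3⟩ := h3
  refine ⟨4 / c, by positivity, ?_⟩
  intro X h a a' Z hX hh ha ha' hlcm hZ hZX
  classical
  set L := Nat.lcm a a' with hLdef
  have hL0 : 0 < L := Nat.lcm_pos ha ha'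
  have hL0' : (0 : ℝ) < (L : ℝ) := by exact_mod_cast hL0
  have hD0 : 0 < a * a' := Nat.mul_pos ha ha'
  have hX0 : (0 : ℝ) < X := by linarith
  have hlogZ : 0 < Real.log Z := Real.log_pos (by exact_mod_cast (by omega : 1 < Z))
  have hφD : (0 : ℝ) < (Nat.totient (a * a') : ℝ) := by
    exact_mod_cast Nat.totient_pos.2 hD0
  have hDr : (0 : ℝ) < ((a * a' : ℕ) : ℝ) := by exact_mod_cast hD0
  have hφh : (0 : ℝ) < (Nat.totient h : ℝ) := by
    exact_mod_cast Nat.totient_pos.2 (by omega : 0 < h)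
  have hhr : (0 : ℝ) < (h : ℝ) := by exact_mod_cast (by omega : 0 < h)
  rcases (Ns X h a a' Z).eq_empty_or_nonempty with hemp | hne
  · rw [hemp, Finset.card_empty, Nat.cast_zero]
    positivity
  -- the least element
  set n₀ := (Ns X h a a' Z).min' hne with hn₀
  have hn₀m : n₀ ∈ Ns X h a a' Z := Finset.min'_mem _ _
  have hmin : ∀ n ∈ Ns X h a a' Z, n₀ ≤ n := fun n hn => Finset.min'_le _ _ hn
  have hprop : ∀ n ∈ Ns X h a a' Z, n ≤ ⌊X⌋₊ ∧ a ∣ n ∧ a' ∣ n + h ∧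
      ∀ p ∈ pr1 Z, p ∣ n * (n + h) → p ∣ a * a' := by
    intro n hn
    unfold Ns at hn
    rw [Finset.mem_filter, Finset.mem_Icc] at hn
    exact ⟨hn.1.2, hn.2⟩
  obtain ⟨-, h0a, h0a', -⟩ := hprop n₀ hn₀m
  have hdiv : ∀ n ∈ Ns X h a a' Z, n = n₀ + L * ((n - n₀) / L) := by
    intro n hn
    obtain ⟨-, h1a, h1a', -⟩ := hprop n hn
    have h1 := hmin n hn
    have h2 : a ∣ n - n₀ := Nat.dvd_sub h1a h0a
    have h3 : a' ∣ n - n₀ := by
      have := Nat.dvd_sub h1a' h0a'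
      rwa [Nat.add_sub_add_right] at this
    have h4 : L ∣ n - n₀ := Nat.lcm_dvd h2 h3
    rw [Nat.mul_div_cancel' h4]
    omega
  set T := (Ns X h a a' Z).image fun n => (n - n₀) / L with hT
  have hTcard : T.card = (Ns X h a a' Z).card := by
    rw [hT]
    apply Finset.card_image_of_injOn
    intro n hn m hm hnm
    have hnm' : (n - n₀) / L = (m - n₀) / L := hnm
    rw [hdiv n hn, hdiv m hm, hnm']
  have hTn : ∀ t ∈ T, n₀ + L * t ∈ Ns X h a a' Z := by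
    intro t ht
    rw [hT, Finset.mem_image] at ht
    obtain ⟨n, hn, rfl⟩ := ht
    rw [← hdiv n hn]
    exact hn
  have hTN : ∀ t ∈ T, t < ⌊X⌋₊ / L + 1 := by
    intro t ht
    rw [hT, Finset.mem_image] at ht
    obtain ⟨n, hn, rfl⟩ := ht
    have h1 := (hprop n hn).1
    have h2 : (n - n₀) / L ≤ ⌊X⌋₊ / L := Nat.div_le_div_right (by omega)
    omega
  -- the sieve
  have hsieve := lsb (PD (a * a') Z) (oh h) T (⌊X⌋₊ / L + 1) Z (by
    intro p hp
    unfold PD at hp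
    rw [Finset.mem_filter, Finset.mem_Icc] at hp
    obtain ⟨⟨hp1, hpZ⟩, hpp, hp2, hpD⟩ := hp
    have hpr1 : p ∈ pr1 Z := by
      unfold pr1
      rw [Finset.mem_filter, Finset.mem_Icc]
      exact ⟨⟨hp1, hpZ⟩, hpp⟩
    refine ⟨hpp, ?_, ?_⟩
    · unfold oh
      split_ifs <;> omega
    · apply resid p n₀ h L hpp
      · intro hpl
        exact hpD (hpl.trans (Nat.lcm_dvd_mul a a'))
      · intro t ht hd
        exact hpD ((hprop _ (hTn t ht)).2.2.2 p hpr1 (Dvd.dvd.mul_right hd _))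
      · intro t ht hd
        exact hpD ((hprop _ (hTn t ht)).2.2.2 p hpr1 (Dvd.dvd.mul_left hd _)))
    hTN (by omega)
  have hG := hN3 h (a * a') Z hh hD0 hZ
  rw [hTcard] at hsieve
  -- the right side
  set Y : ℝ := X ^ (1 / 4 : ℝ) with hY
  have hY4 : Y ^ 4 = X := by
    rw [hY, ← Real.rpow_natCast, ← Real.rpow_mul hX0.le]
    norm_num
  have hY1 : 1 ≤ Y := by
    rw [hY]; exact Real.one_le_rpow hX (by norm_num)
  have hQ : Y ^ 3 ≤ X / L := by
    rw [le_div_iff₀ hL0', ← hY4]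
    calc Y ^ 3 * (L : ℝ) ≤ Y ^ 3 * Y := by gcongr
      _ = Y ^ 4 := by ring
  have hN : (((⌊X⌋₊ / L + 1 : ℕ) : ℕ) : ℝ) ≤ X / L + Y ^ 3 := by
    push_cast
    have h1 : ((⌊X⌋₊ / L : ℕ) : ℝ) ≤ (⌊X⌋₊ : ℝ) / (L : ℝ) := Nat.cast_div_le
    have h2 : (⌊X⌋₊ : ℝ) / (L : ℝ) ≤ X / L := by
      gcongr
      exact Nat.floor_le hX0.le
    have h3 : 1 ≤ Y ^ 3 := one_le_pow₀ hY1
    linarith
  have hH : ((Z ^ 2 : ℕ) : ℝ) * (harmonic (Z ^ 2) : ℝ) ≤ 2 * Y ^ 3 := by
    have h1 := harmonic_le_one_add_log (Z ^ 2)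
    have hZ0 : (0 : ℝ) < (Z : ℝ) := by exact_mod_cast (by omega : 0 < Z)
    have h2 : Real.log ((Z ^ 2 : ℕ) : ℝ) ≤ 2 * (Y - 1) := by
      push_cast
      rw [Real.log_pow]
      have h4 : Real.log Z ≤ Z - 1 := Real.log_le_sub_one_of_pos hZ0
      push_cast
      linarith
    have h3 : (harmonic (Z ^ 2) : ℝ) ≤ 2 * Y := by linarith
    have h4 : ((Z ^ 2 : ℕ) : ℝ) ≤ Y ^ 2 := by
      push_cast
      gcongr
    calc ((Z ^ 2 : ℕ) : ℝ) * (harmonic (Z ^ 2) : ℝ) ≤ ((Z ^ 2 : ℕ) : ℝ) * (2 * Y) := by gcongr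
      _ ≤ Y ^ 2 * (2 * Y) := by gcongr
      _ = 2 * Y ^ 3 := by ring
  have hmain : ((Ns X h a a' Z).card : ℝ) *
      (c * ((Nat.totient (a * a') : ℝ) / ((a * a' : ℕ) : ℝ)) ^ 2 * ((Nat.totient h : ℝ) / h) *
        Real.log Z ^ 2) ≤ 4 * (X / L) := by
    have h1 := mul_le_mul_of_nonneg_left hG
      (Nat.cast_nonneg (α := ℝ) (Ns X h a a' Z).card)
    linarith
  set g : ℝ := c * ((Nat.totient (a * a') : ℝ) / ((a * a' : ℕ) : ℝ)) ^ 2 *
    ((Nat.totient h : ℝ) / h) * Real.log Z ^ 2 with hg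
  have hg0 : 0 < g := by rw [hg]; positivity
  have hfin : ((Ns X h a a' Z).card : ℝ) ≤ 4 * (X / L) / g := by
    rw [le_div_iff₀ hg0]; exact hmain
  refine hfin.trans (le_of_eq ?_)
  rw [hg]
  field_simp

end Pool.Agent.Work.MP_122e00_nt.TS
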