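import Pool.Agent.Work.MP_122e00_nt.TS.Stmts4

/-!
# Thin shifts, item R2 (helper6): truncated divisor sums in Ramanujan sums
-/

set_option autoImplicit false

namespace Pool.Agent.Work.MP_122e00_nt.TS

open Finset Filter Topology ArithmeticFunction
open scoped ArithmeticFunction.zeta ArithmeticFunction.Moebius

namespace IR2

/-- the inner sum over `s ∣ m` -/
theorem inner (w : ℕ → ℝ) (M n m : ℕ) (hm : m ∈ Finset.Icc 1 M) :
    ∑ s ∈ Finset.Icc 1 M, (if s ∣ m then w m / m * Gh n s else 0) =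
      if m ∣ n then w m else 0 := by
  obtain ⟨h1, h2⟩ := Finset.mem_Icc.1 hm
  have hm0 : (m : ℝ) ≠ 0 := Nat.cast_ne_zero.2 (by omega)
  have h3 : (Finset.Icc 1 M).filter (· ∣ m) = m.divisors := by
    ext s
    simp only [Finset.mem_filter, Finset.mem_Icc, Nat.mem_divisors]
    constructor
    · rintro ⟨_, h⟩
      exact ⟨h, by omega⟩
    · rintro ⟨h, _⟩
      have h4 := Nat.le_of_dvd (by omega) h
      have h5 := Nat.pos_of_dvd_of_pos h (by omega)
      exact ⟨⟨h5, by omega⟩, h⟩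
  rw [← Finset.sum_filter, h3, ← Finset.mul_sum, sum_Gh, Fh_apply]
  split_ifs
  · field_simp
  · rw [mul_zero]

end IR2

theorem prR2 : tsR2 := by
  intro w M n hn
  have h1 : n.divisors.filter (fun m => m ≤ M) = (Finset.Icc 1 M).filter (· ∣ n) := by
    ext m
    simp only [Finset.mem_filter, Finset.mem_Icc, Nat.mem_divisors]
    constructor
    · rintro ⟨⟨h, _⟩, h2⟩
      exact ⟨⟨Nat.pos_of_dvd_of_pos h (by omega), h2⟩, h⟩
    · rintro ⟨⟨_, h2⟩, h⟩
      exact ⟨⟨h, by omega⟩, h2⟩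
  rw [h1, Finset.sum_filter]
  have h2 : ∀ s ∈ Finset.Icc 1 M,
      (∑ m ∈ (Finset.Icc 1 M).filter (s ∣ ·), w m / m) * Gh n s =
      ∑ m ∈ Finset.Icc 1 M, (if s ∣ m then w m / m * Gh n s else 0) := by
    intro s _
    rw [Finset.sum_mul, Finset.sum_filter]
  rw [Finset.sum_congr rfl h2, Finset.sum_comm]
  exact Finset.sum_congr rfl fun m hm => (IR2.inner w M n m hm).symm

end Pool.Agent.Work.MP_122e00_nt.TS
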