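import Mathlib
import Pool.Agent.Work.MP_122e00_nt.TS.Stmts4

/-!
# Thin shifts, item T3: the second moment (adapted from `TS/I_H4.lean`)
-/

namespace Pool.Agent.Work.MP_122e00_nt.TS

open Finset Filter Topology ArithmeticFunction
open scoped ArithmeticFunction.zeta ArithmeticFunction.Moebius

namespace IT3

/-- the decomposition of the correlation -/
theorem cor_split (r : ℕ) (E : ℕ → Polynomial ℝ) (Q N h : ℕ) :
    cor (dr r) (dr r) N h = cor (fs E Q) (fs E Q) N h + cor (fl r E Q) (dr r) N h +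
      cor (fs E Q) (fl r E Q) N h := by
  unfold cor
  rw [← Finset.sum_add_distrib, ← Finset.sum_add_distrib]
  refine Finset.sum_congr rfl fun n _ => ?_
  unfold fl
  ring

/-- the square of a sum of three terms -/
theorem sq3 (a b c : ℝ) : (a + b + c) ^ 2 ≤ 3 * (a ^ 2 + b ^ 2 + c ^ 2) := by
  nlinarith [sq_nonneg (a - b), sq_nonneg (b - c), sq_nonneg (a - c)]

/-- the value as a real number -/
theorem fv_cast (F : Polynomial ℤ) (k : ℕ) (h : 1 ≤ F.eval (k : ℤ)) :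
    ((fv F k : ℕ) : ℝ) = ((F.eval (k : ℤ) : ℤ) : ℝ) := by
  have h1 : ((fv F k : ℕ) : ℤ) = F.eval (k : ℤ) := by
    unfold fv
    exact Int.toNat_of_nonneg (by omega)
  exact_mod_cast congrArg (fun z : ℤ => (z : ℝ)) h1

end IT3

/-- T3. The second moment. -/
theorem prT3 (hG3 : tsG3) (hH2 : tsH2) (hT2 : tsT2) : tsT3 := by
  intro r E η₂ δ X0 α₁ α₂ θa θ hr hAP hCB hη₂ hη₂' hδ hα₁ hα₁a hθα hα₂ hSI F A hF hlc hA
  have hθ : θ < 1 := lt_of_le_of_lt hθα hα₂
  -- a positive exponent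
  set θ₁ : ℝ := max θ (1 / 2) with hθ₁
  have hθ₁1 : θ₁ < 1 := max_lt hθ (by norm_num)
  have hθ₁0 : 1 / 2 ≤ θ₁ := le_max_right _ _
  have hθθ₁ : θ ≤ θ₁ := le_max_left _ _
  obtain ⟨δ₃, X₃, hδ₃, h3⟩ := hT2 r E η₂ δ X0 α₁ α₂ θa θ hr hAP hCB hη₂ hη₂' hδ hα₁ hα₁a hθα
    hα₂ hSI F A hF hlc hA
  obtain ⟨δg, Xg, hδg, hg⟩ := hG3 r E (by omega) hAP.1 hCB ((1 + θ₁) / 2) η₂ (by linarith) (by linarith)
    hη₂ hη₂'
  obtain ⟨A', c, C, hc, hC, _, hub⟩ := hH2 F hF hlc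
  set m : ℝ := min δg δ₃ with hm
  have hm0 : 0 < m := lt_min hδg hδ₃
  have hmg : m ≤ δg := min_le_left _ _
  have hm3 : m ≤ δ₃ := min_le_right _ _
  obtain ⟨Xa, hXa⟩ := Filter.eventually_atTop.mp
    ((tendsto_rpow_atTop (show (0 : ℝ) < (1 - θ₁) / 2 by linarith)).eventually_ge_atTop C)
  obtain ⟨Xb, hXb⟩ := Filter.eventually_atTop.mp
    ((tendsto_rpow_atTop (show (0 : ℝ) < m / 2 by linarith)).eventually_ge_atTop (9 : ℝ))
  refine ⟨m / 2, max (max X₃ Xg) (max (max Xa Xb) 1), by linarith, ?_⟩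
  intro X K hX hK1 hK2
  have hX3 : X₃ ≤ X := le_trans (le_trans (le_max_left _ _) (le_max_left _ _)) hX
  have hXg : Xg ≤ X := le_trans (le_trans (le_max_right _ _) (le_max_left _ _)) hX
  have hXa' : Xa ≤ X := le_trans (le_trans (le_trans (le_max_left _ _) (le_max_left _ _))
    (le_max_right _ _)) hX
  have hXb' : Xb ≤ X := le_trans (le_trans (le_trans (le_max_right _ _) (le_max_left _ _))
    (le_max_right _ _)) hX
  have hX1 : 1 ≤ X := le_trans (le_trans (le_max_right _ _) (le_max_right _ _)) hX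
  have hX0 : 0 < X := by linarith
  obtain ⟨hb, hd⟩ := h3 X K hX3 hK1 hK2
  set Q : ℕ := ⌊X ^ η₂⌋₊ with hQ
  set N : ℕ := ⌊X⌋₊ with hN
  -- the first error term
  have ha : ∀ k ∈ Finset.Ioc A K,
      (cor (fs E Q) (fs E Q) N (fv F k) - X * (PH r E (fv F k)).eval (Real.log X)) ^ 2 ≤
        X ^ (2 - m) := by
    intro k hk
    rw [Finset.mem_Ioc] at hk
    have hk1 : 1 ≤ k := by omega
    have hFk : 1 ≤ F.eval (k : ℤ) := hA k hk.1
    have hfv : ((fv F k : ℕ) : ℝ) = ((F.eval (k : ℤ) : ℤ) : ℝ) := IT3.fv_cast F k hFk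
    have hfv1 : 1 ≤ fv F k := by
      have : (1 : ℝ) ≤ ((fv F k : ℕ) : ℝ) := by
        rw [hfv]
        exact_mod_cast hFk
      exact_mod_cast this
    have hkK : (k : ℝ) ^ F.natDegree ≤ (K : ℝ) ^ F.natDegree :=
      pow_le_pow_left₀ (Nat.cast_nonneg k) (by exact_mod_cast hk.2) _
    have hle : ((fv F k : ℕ) : ℝ) ≤ X ^ ((1 + θ₁) / 2) := by
      rw [hfv]
      calc ((F.eval (k : ℤ) : ℤ) : ℝ) ≤ |((F.eval (k : ℤ) : ℤ) : ℝ)| := le_abs_self _
        _ ≤ C * (k : ℝ) ^ F.natDegree := hub k hk1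
        _ ≤ C * (K : ℝ) ^ F.natDegree := mul_le_mul_of_nonneg_left hkK hC.le
        _ ≤ C * X ^ θ := mul_le_mul_of_nonneg_left hK2 hC.le
        _ ≤ C * X ^ θ₁ := mul_le_mul_of_nonneg_left (Real.rpow_le_rpow_of_exponent_le hX1 hθθ₁) hC.le
        _ ≤ X ^ ((1 - θ₁) / 2) * X ^ θ₁ :=
            mul_le_mul_of_nonneg_right (hXa X hXa') (Real.rpow_nonneg hX0.le _)
        _ = X ^ ((1 + θ₁) / 2) := by
            rw [← Real.rpow_add hX0]
            congr 1
            ring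
    have h4 := hg X (fv F k) hXg hfv1 hle
    have h5 : (cor (fs E Q) (fs E Q) N (fv F k) - X * (PH r E (fv F k)).eval (Real.log X)) ^ 2 ≤
        (X ^ (1 - δg)) ^ 2 := by
      rw [← sq_abs]
      exact pow_le_pow_left₀ (abs_nonneg _) h4 2
    refine h5.trans ?_
    rw [← Real.rpow_natCast (X ^ (1 - δg)) 2, ← Real.rpow_mul hX0.le]
    apply Real.rpow_le_rpow_of_exponent_le hX1
    push_cast
    linarith
  have hasum : ∑ k ∈ Finset.Ioc A K,
      (cor (fs E Q) (fs E Q) N (fv F k) - X * (PH r E (fv F k)).eval (Real.log X)) ^ 2 ≤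
        K * X ^ (2 - m) := by
    calc _ ≤ ∑ k ∈ Finset.Ioc A K, X ^ (2 - m) := Finset.sum_le_sum ha
      _ = ((Finset.Ioc A K).card : ℝ) * X ^ (2 - m) := by rw [Finset.sum_const, nsmul_eq_mul]
      _ ≤ K * X ^ (2 - m) := by
        apply mul_le_mul_of_nonneg_right _ (Real.rpow_nonneg hX0.le _)
        rw [Nat.card_Ioc]
        exact_mod_cast Nat.sub_le K A
  have hpow : X ^ (2 - δ₃) ≤ X ^ (2 - m) :=
    Real.rpow_le_rpow_of_exponent_le hX1 (by linarith)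
  have hb' : ∑ k ∈ Finset.Ioc A K, cor (fl r E Q) (dr r) N (fv F k) ^ 2 ≤ K * X ^ (2 - m) :=
    hb.trans (mul_le_mul_of_nonneg_left hpow (Nat.cast_nonneg K))
  have hd' : ∑ k ∈ Finset.Ioc A K, cor (fs E Q) (fl r E Q) N (fv F k) ^ 2 ≤ K * X ^ (2 - m) :=
    hd.trans (mul_le_mul_of_nonneg_left hpow (Nat.cast_nonneg K))
  calc ∑ k ∈ Finset.Ioc A K, (cor (dr r) (dr r) N (fv F k) -
        X * (PH r E (fv F k)).eval (Real.log X)) ^ 2
      ≤ ∑ k ∈ Finset.Ioc A K, 3 * ((cor (fs E Q) (fs E Q) N (fv F k) -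
          X * (PH r E (fv F k)).eval (Real.log X)) ^ 2 +
          cor (fl r E Q) (dr r) N (fv F k) ^ 2 + cor (fs E Q) (fl r E Q) N (fv F k) ^ 2) := by
        refine Finset.sum_le_sum fun k _ => ?_
        rw [IT3.cor_split r E Q N (fv F k)]
        have := IT3.sq3 (cor (fs E Q) (fs E Q) N (fv F k) -
          X * (PH r E (fv F k)).eval (Real.log X)) (cor (fl r E Q) (dr r) N (fv F k))
          (cor (fs E Q) (fl r E Q) N (fv F k))
        refine le_trans (le_of_eq ?_) this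
        ring
    _ = 3 * (∑ k ∈ Finset.Ioc A K, (cor (fs E Q) (fs E Q) N (fv F k) -
          X * (PH r E (fv F k)).eval (Real.log X)) ^ 2 +
          ∑ k ∈ Finset.Ioc A K, cor (fl r E Q) (dr r) N (fv F k) ^ 2 +
          ∑ k ∈ Finset.Ioc A K, cor (fs E Q) (fl r E Q) N (fv F k) ^ 2) := by
        rw [← Finset.mul_sum, Finset.sum_add_distrib, Finset.sum_add_distrib]
    _ ≤ 3 * (K * X ^ (2 - m) + K * X ^ (2 - m) + K * X ^ (2 - m)) := by
        apply mul_le_mul_of_nonneg_left _ (by norm_num)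
        exact add_le_add (add_le_add hasum hb') hd'
    _ = K * (9 * X ^ (2 - m)) := by ring
    _ ≤ K * (X ^ (m / 2) * X ^ (2 - m)) := by
        apply mul_le_mul_of_nonneg_left _ (Nat.cast_nonneg K)
        exact mul_le_mul_of_nonneg_right (hXb X hXb') (Real.rpow_nonneg hX0.le _)
    _ = K * X ^ (2 - m / 2) := by
        rw [← Real.rpow_add hX0]
        congr 2
        ring

end Pool.Agent.Work.MP_122e00_nt.TS
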