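import Mathlib
import Pool.Agent.Work.MP_122e00_nt.TS.Stmts11
import Pool.Agent.Work.MP_122e00_nt.TS.I_K13

/-!
# Very short scales, item X13: `u` on the minor arcs
-/

set_option autoImplicit false

namespace Pool.Agent.Work.MP_122e00_nt.TS

open Finset Filter Topology ArithmeticFunction MeasureTheory
open scoped ArithmeticFunction.zeta ArithmeticFunction.Moebius

namespace IX13

/-- second moment of `d_r` over the cofactors -/
theorem mom (h2 : tsX2) (r : ℕ) (hr : 1 ≤ r) (A Z : ℕ) (Y : ℝ) (hA : 1 ≤ A) (hZ : (Z : ℝ) ≤ Y)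
    (hY : 1 ≤ Y) :
    (A : ℝ) * ∑ m ∈ Finset.Icc 1 (Z / A), dr r m ^ 2 ≤ Y * (1 + Real.log Y) ^ (r * r - 1) := by
  have hlY : 0 ≤ Real.log Y := Real.log_nonneg hY
  rcases Nat.eq_zero_or_pos (Z / A) with h0 | h0
  · rw [h0, Finset.Icc_eq_empty_of_lt Nat.zero_lt_one, Finset.sum_empty, mul_zero]
    positivity
  · have h3 : ∑ m ∈ Finset.Icc 1 (Z / A), dr r m ^ 2 ≤
        ∑ m ∈ Finset.Icc 1 (Z / A), dr (r * r) m := by
      refine Finset.sum_le_sum fun m _ => ?_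
      rw [sq]
      exact h2.1 r r m hr hr
    have h4 := h2.2.1 (r * r) (Z / A) (Nat.mul_pos hr hr) h0
    have h5 : ((Z / A : ℕ) : ℝ) * A ≤ Z := by exact_mod_cast Nat.div_mul_le_self Z A
    have hA' : (1 : ℝ) ≤ A := by exact_mod_cast hA
    have h6 : ((Z / A : ℕ) : ℝ) ≤ Y := by
      have : ((Z / A : ℕ) : ℝ) ≤ Z := by exact_mod_cast Nat.div_le_self Z A
      linarith
    have h7 : (1 : ℝ) ≤ ((Z / A : ℕ) : ℝ) := by exact_mod_cast h0
    have h8 : Real.log ((Z / A : ℕ) : ℝ) ≤ Real.log Y := Real.log_le_log (by linarith) h6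
    have h8' : 0 ≤ Real.log ((Z / A : ℕ) : ℝ) := Real.log_nonneg h7
    calc (A : ℝ) * ∑ m ∈ Finset.Icc 1 (Z / A), dr r m ^ 2
        ≤ A * (((Z / A : ℕ) : ℝ) * (1 + Real.log ((Z / A : ℕ) : ℝ)) ^ (r * r - 1)) :=
          mul_le_mul_of_nonneg_left (h3.trans h4) (by linarith)
      _ = (((Z / A : ℕ) : ℝ) * A) * (1 + Real.log ((Z / A : ℕ) : ℝ)) ^ (r * r - 1) := by ring
      _ ≤ Y * (1 + Real.log Y) ^ (r * r - 1) := by
          refine mul_le_mul (h5.trans hZ) (pow_le_pow_left₀ (by linarith) (by linarith) _)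
            (by positivity) (by linarith)

/-- powers of the logarithm -/
theorem ev (C3 : ℝ) (k : ℕ) : ∃ X0 : ℝ, ∀ X : ℝ, X0 ≤ X → 1 ≤ X ∧ 1 ≤ Real.log X ∧
    15 * C3 * (1 + 2 * Real.log (3 * X)) ^ (k + 3) ≤ Real.log X ^ (k + 4) := by
  refine ⟨Real.exp (7 + 15 * |C3| * 3 ^ (k + 3)), fun X hX => ?_⟩
  have hX0 : 0 < X := (Real.exp_pos _).trans_le hX
  have h1 : 7 + 15 * |C3| * 3 ^ (k + 3) ≤ Real.log X := (Real.le_log_iff_exp_le hX0).2 hX
  have h2 : 0 ≤ 15 * |C3| * 3 ^ (k + 3) := by positivity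
  have h3 : 1 ≤ X := by
    have := Real.add_one_le_exp (7 + 15 * |C3| * 3 ^ (k + 3))
    linarith
  refine ⟨h3, by linarith, ?_⟩
  have h9 : Real.log 3 ≤ 3 - 1 := Real.log_le_sub_one_of_pos (by norm_num)
  have h9' : 0 ≤ Real.log 3 := Real.log_nonneg (by norm_num)
  have h10 : Real.log (3 * X) = Real.log 3 + Real.log X := Real.log_mul (by norm_num) hX0.ne'
  have h11 : 1 + 2 * Real.log (3 * X) ≤ 3 * Real.log X := by
    rw [h10]
    linarith
  have h12 : 0 ≤ 1 + 2 * Real.log (3 * X) := by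
    rw [h10]
    linarith
  have h13 : 0 ≤ Real.log X := by linarith
  calc 15 * C3 * (1 + 2 * Real.log (3 * X)) ^ (k + 3)
      ≤ 15 * |C3| * (3 * Real.log X) ^ (k + 3) := by
        refine mul_le_mul (by have := le_abs_self C3; linarith) (pow_le_pow_left₀ h12 h11 _)
          (by positivity) (by positivity)
    _ = (15 * |C3| * 3 ^ (k + 3)) * Real.log X ^ (k + 3) := by
        rw [mul_pow]
        ring
    _ ≤ Real.log X * Real.log X ^ (k + 3) :=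
        mul_le_mul_of_nonneg_right (by linarith) (by positivity)
    _ = Real.log X ^ (k + 4) := by rw [← pow_succ']

/-- `H` beats powers of the logarithm -/
theorem Hbig {X H η : ℝ} {k : ℕ} (hη : 0 < η) (hl : 1 ≤ Real.log X)
    (hH : Real.log X ^ (((k + 4 : ℕ) : ℝ) * (2 / η)) ≤ H) :
    1 ≤ H ∧ Real.log X ^ (k + 4) ≤ H ^ (η / 2) := by
  have h0 : 0 ≤ Real.log X := by linarith
  refine ⟨(Real.one_le_rpow hl (by positivity)).trans hH, ?_⟩
  have h1 : Real.log X ^ (k + 4) =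
      (Real.log X ^ (((k + 4 : ℕ) : ℝ) * (2 / η))) ^ (η / 2) := by
    rw [← Real.rpow_mul h0, ← Real.rpow_natCast]
    congr 1
    field_simp
  rw [h1]
  exact Real.rpow_le_rpow (Real.rpow_nonneg h0 _) hH (by positivity)

/-- the final computation -/
theorem fin_calc {X H η C3 I l L T S : ℝ} {k : ℕ} (hX : 0 ≤ X) (hH : 0 < H) (hC3 : 0 < C3)
    (hI0 : 0 ≤ I) (hI : I ≤ T) (hl0 : 0 ≤ l) (hl : l ≤ T) (hS0 : 0 ≤ S)
    (hS : S ≤ 3 * X * T ^ k) (hK : 15 * C3 * T ^ (k + 3) ≤ H ^ (η / 2)) :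
    I * (I * (C3 * S * L ^ 2 * l * (5 * H ^ (-η)))) ≤ L ^ 2 * X * H ^ (-(η / 2)) := by
  have hT0 : 0 ≤ T := hI0.trans hI
  have p1 : 0 < H ^ (-η) := Real.rpow_pos_of_pos hH _
  have hL : 0 ≤ L ^ 2 := sq_nonneg L
  calc I * (I * (C3 * S * L ^ 2 * l * (5 * H ^ (-η))))
      ≤ T * (T * (C3 * (3 * X * T ^ k) * L ^ 2 * T * (5 * H ^ (-η)))) := by
        gcongr
    _ = L ^ 2 * X * ((15 * C3 * T ^ (k + 3)) * H ^ (-η)) := by ring
    _ ≤ L ^ 2 * X * (H ^ (η / 2) * H ^ (-η)) := by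
        gcongr
    _ = L ^ 2 * X * H ^ (-(η / 2)) := by
        rw [← Real.rpow_add hH]
        congr 2
        ring

end IX13

theorem prX13 (h2 : tsX2) (h12 : tsX12) : tsX13 := by
  intro r ε₂ δ₂ hr hε hε' hδ₂ hδ₂'
  obtain ⟨C3, hC3, hV⟩ := h12
  obtain ⟨η, hηdef⟩ : ∃ η : ℝ, η = min ε₂ δ₂ := ⟨_, rfl⟩
  have hη : 0 < η := by rw [hηdef]; exact lt_min hε hδ₂
  have hη1 : η ≤ ε₂ := by rw [hηdef]; exact min_le_left _ _
  have hη2 : η ≤ δ₂ := by rw [hηdef]; exact min_le_right _ _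
  obtain ⟨k, hk⟩ : ∃ k : ℕ, k = r * r - 1 := ⟨_, rfl⟩
  obtain ⟨X0, hX0⟩ := IX13.ev C3 k
  refine ⟨η / 2, ((k + 4 : ℕ) : ℝ) * (2 / η), X0, by positivity, ?_⟩
  intro X H hX hXH hHX L q b γ hL1 hL2 hq1 hq2 hbq hγ
  obtain ⟨hX1, hlX, hlog⟩ := hX0 X hX
  obtain ⟨hH1, hHlog⟩ := IX13.Hbig hη hlX hXH
  have hXpos : 0 < X := by linarith
  have hHpos : 0 < H := by linarith
  have hl3 : 0 ≤ Real.log (3 * X) := Real.log_nonneg (by linarith)
  obtain ⟨T, hT⟩ : ∃ T : ℝ, T = 1 + 2 * Real.log (3 * X) := ⟨_, rfl⟩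
  have hT1 : 1 + Real.log (3 * X) ≤ T := by
    rw [hT]
    linarith
  have hK : 15 * C3 * T ^ (k + 3) ≤ H ^ (η / 2) := by
    rw [hT]
    exact hlog.trans hHlog
  -- the end points
  obtain ⟨a, ha⟩ : ∃ a : ℕ, a = ⌊H ^ ε₂⌋₊ := ⟨_, rfl⟩
  obtain ⟨w, hw⟩ : ∃ w : ℕ, w = ⌊H ^ (1 / 4 : ℝ)⌋₊ := ⟨_, rfl⟩
  have hz1 : 1 ≤ H ^ ε₂ := Real.one_le_rpow hH1 hε.le
  have ha1 : 1 ≤ a := by
    rw [ha]
    exact (Nat.le_floor_iff' one_ne_zero).2 (by exact_mod_cast hz1)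
  have ha2 : H ^ ε₂ ≤ 2 * (a : ℝ) := by
    have h1 := Nat.lt_floor_add_one (H ^ ε₂)
    rw [← ha] at h1
    have h2 : (1 : ℝ) ≤ a := by exact_mod_cast ha1
    linarith
  have haw : a ≤ w := by
    rw [ha, hw]
    exact Nat.floor_le_floor (Real.rpow_le_rpow_of_exponent_le hH1 (by linarith))
  have hwle : (w : ℝ) ≤ H ^ (1 / 4 : ℝ) := by
    rw [hw]
    exact Nat.floor_le (Real.rpow_nonneg hHpos.le _)
  have hwL : (w : ℝ) ≤ L :=
    (hwle.trans (Real.rpow_le_rpow_of_exponent_le hH1 (by norm_num))).trans hL1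
  have hwX : (w : ℝ) ≤ 3 * X := hwL.trans hL2
  obtain ⟨I, hI⟩ : ∃ I : ℕ, I = Nat.clog 2 w := ⟨_, rfl⟩
  have hIw : w ≤ 2 ^ I * a := by
    rw [hI]
    have h1 := Nat.le_pow_clog (b := 2) (by norm_num) w
    calc w ≤ 2 ^ Nat.clog 2 w * 1 := by rw [mul_one]; exact h1
      _ ≤ 2 ^ Nat.clog 2 w * a := Nat.mul_le_mul_left _ ha1
  have hIlog : (I : ℝ) ≤ T := by
    rw [hI, hT]
    exact IK13.clog_le (by linarith) hwX
  obtain ⟨Z, hZ⟩ : ∃ Z : ℕ, Z = ⌊3 * X⌋₊ := ⟨_, rfl⟩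
  have hZle : (Z : ℝ) ≤ 3 * X := by
    rw [hZ]
    exact Nat.floor_le (by linarith)
  obtain ⟨c, hc⟩ : ∃ c : ℕ → ℝ, ∀ m, c m = if m.Prime then (1 : ℝ) else 0 := ⟨_, fun _ => rfl⟩
  have hc1 : ∀ m, |c m| ≤ 1 := by
    intro m
    rw [hc]
    split_ifs <;> simp
  -- sizes
  have hLpos : (0 : ℝ) < L := lt_of_lt_of_le (Real.rpow_pos_of_pos hHpos _) hL1
  have hLpos' : 0 < L := by exact_mod_cast hLpos
  have hqpos : (0 : ℝ) < q := lt_of_lt_of_le (Real.rpow_pos_of_pos hHpos _) hq1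
  have hq1' : 1 ≤ q := by
    have : 0 < q := by exact_mod_cast hqpos
    omega
  have hq1R : (1 : ℝ) ≤ q := by exact_mod_cast hq1'
  -- the decomposition
  have hdec : ∀ x ∈ Finset.Icc L Z, ws (up r (H ^ ε₂) (H ^ (1 / 4 : ℝ))) γ L x =
      ∑ i ∈ Finset.range I, ws (fun n => ∑ m ∈ n.divisors.filter
        (fun m => IK13.As a w i * m < n ∧ n ≤ IK13.As a w (i + 1) * m), c (n / m) * dr r m)
          γ L x := by
    intro x hx
    apply IK13.ws_sum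
    intro n hn
    have hn0 : 0 < n := by
      have := (Finset.mem_Ioc.1 hn).1
      omega
    rw [IK13.up_eq r (Real.rpow_nonneg hHpos.le _) hn0, ← ha, ← hw,
      ← IK13.dec (fun m => c (n / m) * dr r m) haw hIw n]
    refine Finset.sum_congr rfl fun m hm => ?_
    rw [hc]
  have hlq : 1 + Real.log q ≤ T := by
    have h1 : (q : ℝ) ≤ 3 * X := by
      have h2 : H ^ (-δ₂) ≤ 1 := Real.rpow_le_one_of_one_le_of_nonpos hH1 (by linarith)
      calc (q : ℝ) ≤ L * H ^ (-δ₂) := hq2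
        _ ≤ L * 1 := by gcongr
        _ ≤ 3 * X := by linarith
    have h2 := Real.log_le_log hqpos h1
    linarith
  have hone : ∀ i, 1 / (IK13.As a w i : ℝ) + (IK13.As a w i : ℝ) / L + 1 / (q : ℝ) +
      (q : ℝ) / L ≤ 5 * H ^ (-η) := by
    intro i
    have hAi : (a : ℝ) ≤ IK13.As a w i := by exact_mod_cast IK13.le_As haw i
    have haR : (1 : ℝ) ≤ a := by exact_mod_cast ha1
    have hAw : (IK13.As a w i : ℝ) ≤ w := by exact_mod_cast min_le_right _ _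
    have k1 : 1 / (IK13.As a w i : ℝ) ≤ 2 * H ^ (-η) := by
      have h1 : 1 / (IK13.As a w i : ℝ) ≤ 1 / a := one_div_le_one_div_of_le (by linarith) hAi
      have h2 : 1 / (a : ℝ) ≤ 2 * H ^ (-ε₂) := by
        rw [Real.rpow_neg hHpos.le, div_le_iff₀ (by linarith), mul_assoc, mul_comm _ (a : ℝ),
          ← mul_assoc, ← div_eq_mul_inv, le_div_iff₀ (by positivity)]
        linarith
      have h3 : H ^ (-ε₂) ≤ H ^ (-η) := Real.rpow_le_rpow_of_exponent_le hH1 (by linarith)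
      linarith
    have k2 : (IK13.As a w i : ℝ) / L ≤ H ^ (-η) := by
      rw [div_le_iff₀ hLpos]
      calc (IK13.As a w i : ℝ) ≤ H ^ (1 / 4 : ℝ) := hAw.trans hwle
        _ = H ^ (-(1 / 4) : ℝ) * H ^ (1 / 2 : ℝ) := by
            rw [← Real.rpow_add hHpos]
            congr 1
            norm_num
        _ ≤ H ^ (-η) * L := by
            apply mul_le_mul _ hL1 (Real.rpow_nonneg hHpos.le _) (Real.rpow_nonneg hHpos.le _)
            exact Real.rpow_le_rpow_of_exponent_le hH1 (by linarith)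
    have k3 : 1 / (q : ℝ) ≤ H ^ (-η) := by
      have h1 : 1 / (q : ℝ) ≤ 1 / H ^ δ₂ :=
        one_div_le_one_div_of_le (Real.rpow_pos_of_pos hHpos _) hq1
      rw [one_div (H ^ δ₂), ← Real.rpow_neg hHpos.le] at h1
      exact h1.trans (Real.rpow_le_rpow_of_exponent_le hH1 (by linarith))
    have k4 : (q : ℝ) / L ≤ H ^ (-η) := by
      rw [div_le_iff₀ hLpos]
      calc (q : ℝ) ≤ L * H ^ (-δ₂) := hq2
        _ ≤ L * H ^ (-η) := by
            apply mul_le_mul_of_nonneg_left _ hLpos.le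
            exact Real.rpow_le_rpow_of_exponent_le hH1 (by linarith)
        _ = H ^ (-η) * L := mul_comm _ _
    linarith
  have hlq0 : 0 ≤ 1 + Real.log q := by
    have := Real.log_nonneg hq1R
    linarith
  have hS0 : 0 ≤ 3 * X * T ^ k := by
    have : 0 ≤ T := (Nat.cast_nonneg I).trans hIlog
    positivity
  have hpiece : ∀ i ∈ Finset.range I, ∑ x ∈ Finset.Icc L Z,
      ‖ws (fun n => ∑ m ∈ n.divisors.filter
        (fun m => IK13.As a w i * m < n ∧ n ≤ IK13.As a w (i + 1) * m), c (n / m) * dr r m)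
          γ L x‖ ^ 2 ≤
      C3 * (3 * X * T ^ k) * (L : ℝ) ^ 2 * (1 + Real.log q) * (5 * H ^ (-η)) := by
    intro i _
    have hAL : IK13.As a w i ≤ L := by
      have h1 : (IK13.As a w i : ℝ) ≤ w := by exact_mod_cast min_le_right _ _
      exact_mod_cast h1.trans hwL
    have hA1 : 1 ≤ IK13.As a w i := ha1.trans (IK13.le_As haw i)
    have hm := IX13.mom h2 r hr (IK13.As a w i) Z (3 * X) hA1 hZle (by linarith)
    rw [← hk] at hm
    have hm2 : (IK13.As a w i : ℝ) * ∑ m ∈ Finset.Icc 1 (Z / IK13.As a w i), dr r m ^ 2 ≤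
        3 * X * T ^ k := by
      refine hm.trans (mul_le_mul_of_nonneg_left ?_ (by linarith))
      exact pow_le_pow_left₀ (by linarith) hT1 _
    have hm0 : 0 ≤ ∑ m ∈ Finset.Icc 1 (Z / IK13.As a w i), dr r m ^ 2 :=
      Finset.sum_nonneg fun m _ => sq_nonneg _
    refine (hV (IK13.As a w i) (IK13.As a w (i + 1)) L q Z b γ (dr r) c
      hA1 (IK13.As_mono a w (Nat.le_succ i)) (IK13.As_succ a w i) hAL
      hq1' hbq hγ hc1).trans ?_
    rw [mul_assoc C3 _ (∑ m ∈ Finset.Icc 1 (Z / IK13.As a w i), dr r m ^ 2)]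
    refine mul_le_mul ?_ (hone i) (by positivity) (by positivity)
    gcongr
  rw [← hZ]
  calc ∑ x ∈ Finset.Icc L Z, ‖ws (up r (H ^ ε₂) (H ^ (1 / 4 : ℝ))) γ L x‖ ^ 2
      ≤ ∑ x ∈ Finset.Icc L Z, (I : ℝ) * ∑ i ∈ Finset.range I, ‖ws (fun n =>
        ∑ m ∈ n.divisors.filter
        (fun m => IK13.As a w i * m < n ∧ n ≤ IK13.As a w (i + 1) * m), c (n / m) * dr r m)
          γ L x‖ ^ 2 := by
        refine Finset.sum_le_sum fun x hx => ?_
        rw [hdec x hx]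
        exact IK13.norm_sq_sum_le I _
    _ = (I : ℝ) * ∑ i ∈ Finset.range I, ∑ x ∈ Finset.Icc L Z,
        ‖ws (fun n => ∑ m ∈ n.divisors.filter
        (fun m => IK13.As a w i * m < n ∧ n ≤ IK13.As a w (i + 1) * m), c (n / m) * dr r m)
          γ L x‖ ^ 2 := by
        rw [← Finset.mul_sum, Finset.sum_comm]
    _ ≤ (I : ℝ) * ∑ i ∈ Finset.range I,
        (C3 * (3 * X * T ^ k) * (L : ℝ) ^ 2 * (1 + Real.log q) * (5 * H ^ (-η))) := by
        apply mul_le_mul_of_nonneg_left _ (Nat.cast_nonneg I)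
        exact Finset.sum_le_sum hpiece
    _ = (I : ℝ) * ((I : ℝ) * (C3 * (3 * X * T ^ k) * (L : ℝ) ^ 2 * (1 + Real.log q) *
          (5 * H ^ (-η)))) := by
        rw [Finset.sum_const, Finset.card_range, nsmul_eq_mul]
    _ ≤ (L : ℝ) ^ 2 * X * H ^ (-(η / 2)) :=
        IX13.fin_calc hXpos.le hHpos hC3 (Nat.cast_nonneg I) hIlog hlq0 hlq hS0 le_rfl hK

end Pool.Agent.Work.MP_122e00_nt.TS
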