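import Pool.Agent.Work.MP_122e00_nt.TS.Stmts9

/-! Item Y12: all `X` at once. -/

namespace Pool.Agent.Work.MP_122e00_nt.TS

open Finset Filter Topology ArithmeticFunction MeasureTheory
open scoped ArithmeticFunction.zeta ArithmeticFunction.Moebius

namespace IY12

theorem cor_mono (r h : ℕ) {N N' : ℕ} (hN : N ≤ N') :
    cor (dr r) (dr r) N h ≤ cor (dr r) (dr r) N' h := by
  unfold cor
  refine Finset.sum_le_sum_of_subset_of_nonneg (Finset.Icc_subset_Icc_right hN) fun n _ _ => ?_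
  unfold dr
  positivity

/-- the formula at two neighbouring points of the grid gives it in between -/
theorem interp {r h : ℕ} (hr : 2 ≤ r) (hh : 1 ≤ h) {e η κ X Y : ℝ} (he : 0 < e) (he1 : e ≤ 1)
    (heη : e ≤ η) (hκ : 0 < κ) (hk : (1 + κ) ^ (2 * r) ≤ 1 + e / 4) (hY : 1 ≤ Real.log Y)
    (hY0 : 1 ≤ Y) (h1 : Y ≤ X) (h2 : X ≤ (1 + κ) * Y) (hg1 : Gx r (e / 4) Y h)
    (hg2 : Gx r (e / 4) ((1 + κ) * Y) h) : Gx r η X h := by
  have hlc : 0 ≤ lc r h := by
    unfold lc
    have := (Csing_pos (by omega : 1 ≤ r - 1) h (by omega)).le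
    positivity
  have hX0 : 1 ≤ X := hY0.trans h1
  have hlX : Real.log Y ≤ Real.log X := Real.log_le_log (by linarith) h1
  have hlZ : Real.log X ≤ Real.log ((1 + κ) * Y) := Real.log_le_log (by linarith) h2
  have hlog : Real.log ((1 + κ) * Y) ≤ (1 + κ) * Real.log Y := by
    rw [Real.log_mul (by positivity) (by positivity)]
    have := Real.log_le_sub_one_of_pos (by positivity : 0 < 1 + κ)
    nlinarith
  set m := 2 * (r - 1) with hm
  have hPQ : Y * Real.log Y ^ m ≤ X * Real.log X ^ m := by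
    have : Real.log Y ^ m ≤ Real.log X ^ m := pow_le_pow_left₀ (by linarith) hlX m
    exact mul_le_mul h1 this (by positivity) (by linarith)
  have hQR : X * Real.log X ^ m ≤ ((1 + κ) * Y) * Real.log ((1 + κ) * Y) ^ m := by
    have : Real.log X ^ m ≤ Real.log ((1 + κ) * Y) ^ m := pow_le_pow_left₀ (by linarith) hlZ m
    exact mul_le_mul h2 this (pow_nonneg (by linarith) m) (by positivity)
  have hRP : ((1 + κ) * Y) * Real.log ((1 + κ) * Y) ^ m ≤ (1 + e / 4) * (Y * Real.log Y ^ m) := by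
    have h3 : Real.log ((1 + κ) * Y) ^ m ≤ ((1 + κ) * Real.log Y) ^ m :=
      pow_le_pow_left₀ (by linarith) hlog m
    have hY' : 0 ≤ Y * Real.log Y ^ m := mul_nonneg (by linarith) (pow_nonneg (by linarith) m)
    calc ((1 + κ) * Y) * Real.log ((1 + κ) * Y) ^ m
        ≤ ((1 + κ) * Y) * ((1 + κ) * Real.log Y) ^ m := by
          exact mul_le_mul_of_nonneg_left h3 (by positivity)
      _ = (1 + κ) ^ (m + 1) * (Y * Real.log Y ^ m) := by
          rw [mul_pow, pow_succ (1 + κ) m]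
          generalize (1 + κ) ^ m = g
          ring
      _ ≤ (1 + κ) ^ (2 * r) * (Y * Real.log Y ^ m) := by
          refine mul_le_mul_of_nonneg_right ?_ hY'
          exact pow_le_pow_right₀ (by linarith) (by omega)
      _ ≤ (1 + e / 4) * (Y * Real.log Y ^ m) := mul_le_mul_of_nonneg_right hk hY'
  have hD1 : cor (dr r) (dr r) ⌊Y⌋₊ h ≤ cor (dr r) (dr r) ⌊X⌋₊ h :=
    cor_mono r h (Nat.floor_mono h1)
  have hD2 : cor (dr r) (dr r) ⌊X⌋₊ h ≤ cor (dr r) (dr r) ⌊(1 + κ) * Y⌋₊ h :=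
    cor_mono r h (Nat.floor_mono h2)
  unfold Gx at *
  rw [← hm] at *
  set P := lc r h * (Y * Real.log Y ^ m) with hP
  set Q := lc r h * (X * Real.log X ^ m) with hQ
  set R := lc r h * (((1 + κ) * Y) * Real.log ((1 + κ) * Y) ^ m) with hR
  have hP0 : 0 ≤ P := mul_nonneg hlc (mul_nonneg (by linarith) (pow_nonneg (by linarith) m))
  have hPQ' : P ≤ Q := mul_le_mul_of_nonneg_left hPQ hlc
  have hQR' : Q ≤ R := mul_le_mul_of_nonneg_left hQR hlc
  have hRP' : R ≤ (1 + e / 4) * P := by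
    have := mul_le_mul_of_nonneg_left hRP hlc
    calc R ≤ lc r h * ((1 + e / 4) * (Y * Real.log Y ^ m)) := this
      _ = (1 + e / 4) * P := by rw [hP]; ring
  set D := cor (dr r) (dr r) ⌊X⌋₊ h
  set D1 := cor (dr r) (dr r) ⌊Y⌋₊ h
  set D2 := cor (dr r) (dr r) ⌊(1 + κ) * Y⌋₊ h
  rw [abs_le] at hg1 hg2
  have hQ0 : 0 ≤ Q := hP0.trans hPQ'
  have hup : D ≤ (1 + e) * Q := by
    have a1 : D ≤ (1 + e / 4) * R := by linarith [hg2.2]
    have a2 : (1 + e / 4) * R ≤ (1 + e / 4) * ((1 + e / 4) * Q) := by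
      refine mul_le_mul_of_nonneg_left ?_ (by linarith)
      exact hRP'.trans (mul_le_mul_of_nonneg_left hPQ' (by linarith))
    have a3 : (1 + e / 4) * (1 + e / 4) ≤ 1 + e := by nlinarith
    calc D ≤ (1 + e / 4) * ((1 + e / 4) * Q) := a1.trans a2
      _ = ((1 + e / 4) * (1 + e / 4)) * Q := by ring
      _ ≤ (1 + e) * Q := mul_le_mul_of_nonneg_right a3 hQ0
  have hlo : (1 - e) * Q ≤ D := by
    have a1 : (1 - e / 4) * P ≤ D := by linarith [hg1.1]
    have a2 : (1 - e) * Q ≤ (1 - e) * ((1 + e / 4) * P) :=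
      mul_le_mul_of_nonneg_left (hQR'.trans hRP') (by linarith)
    have a3 : (1 - e) * (1 + e / 4) ≤ 1 - e / 4 := by nlinarith
    calc (1 - e) * Q ≤ (1 - e) * ((1 + e / 4) * P) := a2
      _ = ((1 - e) * (1 + e / 4)) * P := by ring
      _ ≤ (1 - e / 4) * P := mul_le_mul_of_nonneg_right a3 hP0
      _ ≤ D := a1
  have heQ : e * Q ≤ η * Q := mul_le_mul_of_nonneg_right heη hQ0
  rw [abs_le]
  constructor <;> nlinarith

/-- the constant of the grid -/
theorem kappa {r : ℕ} (hr : 2 ≤ r) {e : ℝ} (he : 0 < e) (he1 : e ≤ 1) :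
    (1 + e / (16 * r)) ^ (2 * r) ≤ 1 + e / 4 := by
  have hr0 : (0 : ℝ) < r := by exact_mod_cast (by omega : 0 < r)
  have h1 : 1 + e / (16 * r) ≤ Real.exp (e / (16 * r)) := by
    have := Real.add_one_le_exp (e / (16 * r)); linarith
  have h2 : (1 + e / (16 * r)) ^ (2 * r) ≤ Real.exp (e / 8) := by
    calc (1 + e / (16 * r)) ^ (2 * r) ≤ Real.exp (e / (16 * r)) ^ (2 * r) :=
          pow_le_pow_left₀ (by positivity) h1 _
      _ = Real.exp (e / 8) := by
          rw [← Real.exp_nat_mul]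
          congr 1
          push_cast
          field_simp
          ring
  have h3 : Real.exp (e / 8) ≤ 1 + e / 4 := by
    have := Real.abs_exp_sub_one_le (x := e / 8) (by rw [abs_of_pos (by positivity)]; linarith)
    rw [abs_of_pos (by positivity : 0 < e / 8)] at this
    have := le_abs_self (Real.exp (e / 8) - 1)
    linarith
  exact h2.trans h3

/-- the conditions of Y11 at a point near `X` -/
theorem range_ok {a b c C T X Y hv : ℝ} (ha : 0 < a) (hab : a < b) (hb : b < 1)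
    (hc : 0 < c) (hT1 : 1 ≤ T) (hC : 0 < C) (hT : 4 * C ≤ T)
    (hT2 : 2 / c ^ ((1 + b) / 2 / b) ≤ T ^ ((1 + b) / 2 / b - 1)) (hX : 1 ≤ X)
    (h1 : X ^ a ≤ hv) (h2 : hv ≤ X ^ b) (h3 : c * T ≤ hv) (h4 : hv ≤ C * T)
    (hY1 : X / 2 ≤ Y) (hY2 : Y ≤ 2 * X) (hY : 1 ≤ Y) :
    Y ^ (a / 2) ≤ T ∧ T ≤ Y ^ ((1 + b) / 2) ∧ T ≤ Y := by
  have hb0 : 0 < b := ha.trans hab
  have hs : 1 < (1 + b) / 2 / b := by
    rw [lt_div_iff₀ hb0]; linarith
  set s := (1 + b) / 2 / b with hsdef
  have hup : Y ^ (a / 2) ≤ T := by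
    have e1 : Y ^ (a / 2) ≤ (2 * X) ^ (a / 2) :=
      Real.rpow_le_rpow (by linarith) hY2 (by positivity)
    have e2 : (2 * X) ^ (a / 2) = (2 : ℝ) ^ (a / 2) * X ^ (a / 2) :=
      Real.mul_rpow (by norm_num) (by linarith)
    have e3 : (2 : ℝ) ^ (a / 2) ≤ 2 := by
      calc (2 : ℝ) ^ (a / 2) ≤ (2 : ℝ) ^ (1 : ℝ) :=
            Real.rpow_le_rpow_of_exponent_le (by norm_num) (by linarith)
        _ = 2 := Real.rpow_one 2
    have e4 : X ^ (a / 2) = Real.sqrt (X ^ a) := by
      rw [Real.sqrt_eq_rpow, ← Real.rpow_mul (by linarith)]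
      congr 1
      ring
    have e5 : Real.sqrt (X ^ a) ≤ Real.sqrt (C * T) := Real.sqrt_le_sqrt (h1.trans h4)
    have e6 : Real.sqrt (C * T) ≤ T / 2 := by
      rw [Real.sqrt_le_left (by linarith)]
      nlinarith
    calc Y ^ (a / 2) ≤ (2 : ℝ) ^ (a / 2) * X ^ (a / 2) := e1.trans_eq e2
      _ ≤ 2 * (T / 2) := by
          refine mul_le_mul e3 ?_ (Real.rpow_nonneg (by linarith) _) (by norm_num)
          rw [e4]; exact e5.trans e6
      _ = T := by ring
  have hlow : T ≤ Y ^ ((1 + b) / 2) := by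
    have e1 : (X / 2) ^ ((1 + b) / 2) ≤ Y ^ ((1 + b) / 2) :=
      Real.rpow_le_rpow (by linarith) hY1 (by positivity)
    have e2 : (X / 2) ^ ((1 + b) / 2) = X ^ ((1 + b) / 2) / (2 : ℝ) ^ ((1 + b) / 2) :=
      Real.div_rpow (by linarith) (by norm_num) _
    have e3 : (2 : ℝ) ^ ((1 + b) / 2) ≤ 2 := by
      calc (2 : ℝ) ^ ((1 + b) / 2) ≤ (2 : ℝ) ^ (1 : ℝ) :=
            Real.rpow_le_rpow_of_exponent_le (by norm_num) (by linarith)
        _ = 2 := Real.rpow_one 2
    have e4 : X ^ ((1 + b) / 2) = (X ^ b) ^ s := by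
      rw [← Real.rpow_mul (by linarith)]
      congr 1
      rw [hsdef]
      field_simp
    have e5 : (c * T) ^ s ≤ (X ^ b) ^ s :=
      Real.rpow_le_rpow (by positivity) (h3.trans h2) (by linarith)
    have e6 : (c * T) ^ s = c ^ s * T ^ s := Real.mul_rpow hc.le (by linarith)
    have e7 : T ^ s = T ^ (s - 1) * T := by
      rw [Real.rpow_sub_one (by linarith)]
      field_simp
    have hcs : 0 < c ^ s := Real.rpow_pos_of_pos hc s
    have e8 : 2 * T ≤ c ^ s * T ^ s := by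
      rw [e7]
      rw [div_le_iff₀ hcs] at hT2
      nlinarith
    have e9 : 2 * T ≤ X ^ ((1 + b) / 2) := by
      rw [e4]
      calc 2 * T ≤ c ^ s * T ^ s := e8
        _ = (c * T) ^ s := e6.symm
        _ ≤ (X ^ b) ^ s := e5
    have e10 : T ≤ X ^ ((1 + b) / 2) / (2 : ℝ) ^ ((1 + b) / 2) := by
      rw [le_div_iff₀ (by positivity)]
      calc T * (2 : ℝ) ^ ((1 + b) / 2) ≤ T * 2 :=
            mul_le_mul_of_nonneg_left e3 (by linarith)
        _ = 2 * T := by ring
        _ ≤ _ := e9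
    calc T ≤ (X / 2) ^ ((1 + b) / 2) := by rw [e2]; exact e10
      _ ≤ _ := e1
  refine ⟨hup, hlow, hlow.trans ?_⟩
  calc Y ^ ((1 + b) / 2) ≤ Y ^ (1 : ℝ) :=
        Real.rpow_le_rpow_of_exponent_le hY (by linarith)
    _ = Y := Real.rpow_one Y

end IY12

open IY12 in
theorem prY12 (h2 : tsH2) (h11 : tsY11) : tsY12 := by
  classical
  intro r E hr hAP hCB F hF1 hF2 a b η B ha hab hb hη
  obtain ⟨A, c, C, hc, hC, hA, hCk⟩ := h2 F hF1 hF2
  set d := F.natDegree with hd
  have hb0 : 0 < b := ha.trans hab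
  set e := min η 1 with he
  have he0 : 0 < e := lt_min hη one_pos
  have he1 : e ≤ 1 := min_le_right _ _
  have heη : e ≤ η := min_le_left _ _
  obtain ⟨C', X0, hC', hmain⟩ := h11 r E hr hAP hCB F A hF1 hF2 (fun k hk => (hA k hk).1)
    (a / 2) ((1 + b) / 2) (e / 4) (B + 1) (by positivity) (by linarith) (by linarith)
    (by positivity)
  have hr0 : (0 : ℝ) < r := by exact_mod_cast (by omega : 0 < r)
  set κ := e / (16 * r) with hκ
  have hκ0 : 0 < κ := by positivity
  have hκ1 : κ ≤ 1 := by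
    rw [hκ, div_le_one (by positivity)]
    have : (1 : ℝ) ≤ r := by exact_mod_cast (by omega : 1 ≤ r)
    linarith
  have hk := kappa hr he0 he1
  rw [← hκ] at hk
  have hl : 0 < Real.log (1 + κ) := Real.log_pos (by linarith)
  set s := (1 + b) / 2 / b with hs
  have hs1 : 1 < s := by rw [hs, lt_div_iff₀ hb0]; linarith
  set u := c / 2 ^ d with hu
  have hu0 : 0 < u := by positivity
  set W := 2 / u ^ s with hW
  have hW0 : 0 < W := div_pos two_pos (Real.rpow_pos_of_pos hu0 s)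
  set C1 := 2 * d / (a * Real.log (1 + κ)) + 1 with hC1
  have hC10 : 0 ≤ C1 := by positivity
  refine ⟨(C1 + 1) * C', max (max 3 (2 * (A + 1))) (max X0 (max (4 * C) (W ^ (1 / (s - 1))))),
    fun K hK _ => ?_⟩
  have hK3 : (3 : ℝ) ≤ K := ((le_max_left _ _).trans (le_max_left _ _)).trans hK
  have hKA : (2 * (A + 1) : ℝ) ≤ K := ((le_max_right _ _).trans (le_max_left _ _)).trans hK
  have hKX : X0 ≤ K := ((le_max_left _ _).trans (le_max_right _ _)).trans hK
  have hKC : 4 * C ≤ K :=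
    (((le_max_left _ _).trans (le_max_right _ _)).trans (le_max_right _ _)).trans hK
  have hKW : W ^ (1 / (s - 1)) ≤ K :=
    (((le_max_right _ _).trans (le_max_right _ _)).trans (le_max_right _ _)).trans hK
  have hK0 : (0 : ℝ) < K := by linarith
  set T := (K : ℝ) ^ d with hT
  have hTK : (K : ℝ) ≤ T := by
    calc (K : ℝ) = (K : ℝ) ^ 1 := (pow_one _).symm
      _ ≤ T := pow_le_pow_right₀ (by linarith) hF1
  have hT1 : 1 ≤ T := by linarith
  have hlK : 1 ≤ Real.log K := by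
    rw [Real.le_log_iff_exp_le hK0]
    exact (Real.exp_one_lt_d9.le.trans (by norm_num)).trans hK3
  have hTW : W ≤ T ^ (s - 1) := by
    have h1 : W = (W ^ (1 / (s - 1))) ^ (s - 1) := by
      rw [← Real.rpow_mul hW0.le, one_div, inv_mul_cancel₀ (by linarith), Real.rpow_one]
    rw [h1]
    exact Real.rpow_le_rpow (Real.rpow_nonneg hW0.le _) (hKW.trans hTK) (by linarith)
  -- the grid
  set J := (Finset.range (⌊C1 * Real.log K⌋₊ + 1)).filter (fun j =>
    ((1 + κ) ^ j) ^ (a / 2) ≤ T ∧ T ≤ ((1 + κ) ^ j) ^ ((1 + b) / 2) ∧ (K : ℝ) ≤ (1 + κ) ^ j) with hJ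
  set Ex := fun j : ℕ => (Finset.Ioc A K).filter (fun k => ¬ Gx r (e / 4) ((1 + κ) ^ j) (fv F k))
    with hEx
  have hcover : {k : ℕ | Bad r F a b η k ∧ K < 2 * k ∧ k ≤ K} ⊆ ((J.biUnion Ex : Finset ℕ) : Set ℕ) := by
    rintro k ⟨hbad, hk1, hk2⟩
    have hkA : A < k := by
      have h1 : (2 * (A + 1) : ℝ) < 2 * k := lt_of_le_of_lt hKA (by exact_mod_cast hk1)
      have h2 : 2 * (A + 1) < 2 * k := by exact_mod_cast h1
      omega
    have hFk := hA k hkA
    rcases hbad with hbad | ⟨X, hX1, hXa, hXb, hG⟩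
    · exact absurd hFk.1 hbad
    have hfv : 1 ≤ fv F k := by
      unfold fv
      have := hFk.1
      omega
    set hv : ℝ := ((F.eval (k : ℤ) : ℤ) : ℝ) with hhv
    have hk0 : 1 ≤ k := by omega
    have hkR : (K : ℝ) / 2 ≤ k := by
      have : (K : ℝ) ≤ 2 * k := by exact_mod_cast hk1.le
      linarith
    have hkK : (k : ℝ) ≤ K := by exact_mod_cast hk2
    have h3 : u * T ≤ hv := by
      calc u * T = c * ((K : ℝ) / 2) ^ d := by rw [hu, hT, div_pow]; ring
        _ ≤ c * (k : ℝ) ^ d :=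
            mul_le_mul_of_nonneg_left (pow_le_pow_left₀ (by positivity) hkR d) hc.le
        _ ≤ hv := hFk.2
    have h4 : hv ≤ C * T := by
      calc hv ≤ |hv| := le_abs_self _
        _ ≤ C * (k : ℝ) ^ d := hCk k hk0
        _ ≤ C * T := mul_le_mul_of_nonneg_left (pow_le_pow_left₀ (by positivity) hkK d) hC.le
    -- the place in the grid
    set i := ⌊Real.log X / Real.log (1 + κ)⌋₊ with hi
    have hlX0 : 0 ≤ Real.log X := Real.log_nonneg hX1
    have hi1 : (i : ℝ) * Real.log (1 + κ) ≤ Real.log X := by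
      have := Nat.floor_le (div_nonneg hlX0 hl.le)
      rwa [← hi, le_div_iff₀ hl] at this
    have hi2 : Real.log X ≤ ((i : ℝ) + 1) * Real.log (1 + κ) := by
      have := (Nat.lt_floor_add_one (Real.log X / Real.log (1 + κ))).le
      rwa [← hi, div_le_iff₀ hl] at this
    have hp : ∀ j : ℕ, Real.log ((1 + κ) ^ j) = j * Real.log (1 + κ) := fun j => Real.log_pow _ _
    have hpp : ∀ j : ℕ, 1 ≤ (1 + κ) ^ j := fun j => one_le_pow₀ (by linarith)
    have hXi : (1 + κ) ^ i ≤ X := by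
      rw [← Real.log_le_log_iff (by positivity) (by linarith), hp]
      exact hi1
    have hXi1 : X ≤ (1 + κ) * (1 + κ) ^ i := by
      rw [← pow_succ', ← Real.log_le_log_iff (by linarith) (by positivity), hp]
      push_cast
      exact hi2
    have hn1 : X / 2 ≤ (1 + κ) ^ i := by
      have : (1 + κ) * (1 + κ) ^ i ≤ 2 * (1 + κ) ^ i :=
        mul_le_mul_of_nonneg_right (by linarith) (by positivity)
      linarith
    have hn2 : (1 + κ) ^ i ≤ 2 * X := by linarith
    have hn3 : X / 2 ≤ (1 + κ) ^ (i + 1) := by rw [pow_succ']; linarith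
    have hn4 : (1 + κ) ^ (i + 1) ≤ 2 * X := by
      rw [pow_succ']
      calc (1 + κ) * (1 + κ) ^ i ≤ 2 * X :=
            mul_le_mul (by linarith) hXi (by positivity) (by norm_num)
        _ = 2 * X := rfl
    have r1 := range_ok ha hab hb hu0 hT1 hC (hKC.trans hTK) hTW hX1 hXa hXb h3 h4 hn1 hn2 (hpp i)
    have r2 := range_ok ha hab hb hu0 hT1 hC (hKC.trans hTK) hTW hX1 hXa hXb h3 h4 hn3 hn4
      (hpp (i + 1))
    -- number of the grid points
    have hcount : ((i : ℝ) + 1) ≤ C1 * Real.log K := by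
      have g1 : X ^ a ≤ T ^ 2 := by
        calc X ^ a ≤ C * T := hXa.trans h4
          _ ≤ T * T := mul_le_mul_of_nonneg_right (by linarith) (by linarith)
          _ = T ^ 2 := by ring
      have g2 : a * Real.log X ≤ 2 * (d * Real.log K) := by
        have := Real.log_le_log (Real.rpow_pos_of_pos (by linarith) a) g1
        rw [Real.log_rpow (by linarith), Real.log_pow, hT, Real.log_pow] at this
        exact_mod_cast this
      have g3 : (i : ℝ) ≤ 2 * d / (a * Real.log (1 + κ)) * Real.log K := by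
        rw [div_mul_eq_mul_div, le_div_iff₀ (by positivity)]
        calc (i : ℝ) * (a * Real.log (1 + κ)) = a * (i * Real.log (1 + κ)) := by ring
          _ ≤ a * Real.log X := mul_le_mul_of_nonneg_left hi1 ha.le
          _ ≤ 2 * (d * Real.log K) := g2
          _ = 2 * d * Real.log K := by ring
      rw [hC1, add_mul, one_mul]
      linarith
    have hmem : ∀ j : ℕ, j ≤ i + 1 → ((1 + κ) ^ j) ^ (a / 2) ≤ T ∧
        T ≤ ((1 + κ) ^ j) ^ ((1 + b) / 2) ∧ T ≤ (1 + κ) ^ j → j ∈ J := by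
      intro j hj hjc
      rw [hJ, Finset.mem_filter, Finset.mem_range]
      refine ⟨?_, hjc.1, hjc.2.1, hTK.trans hjc.2.2⟩
      have : j ≤ ⌊C1 * Real.log K⌋₊ := by
        rw [Nat.le_floor_iff (by positivity)]
        have : (j : ℝ) ≤ i + 1 := by exact_mod_cast hj
        linarith
      omega
    have hiJ : i ∈ J := hmem i (by omega) r1
    have hi1J : i + 1 ∈ J := hmem (i + 1) le_rfl r2
    by_contra hcon
    have hno : ∀ j ∈ J, Gx r (e / 4) ((1 + κ) ^ j) (fv F k) := by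
      intro j hj
      by_contra hg
      apply hcon
      rw [Finset.mem_coe, Finset.mem_biUnion]
      exact ⟨j, hj, Finset.mem_filter.2 ⟨Finset.mem_Ioc.2 ⟨hkA, hk2⟩, hg⟩⟩
    apply hG
    have hKi : (K : ℝ) ≤ (1 + κ) ^ i := hTK.trans r1.2.2
    have hg2 := hno (i + 1) hi1J
    rw [pow_succ'] at hg2
    exact interp hr hfv he0 he1 heη hκ0 hk
      (hlK.trans (Real.log_le_log hK0 hKi)) (hpp i) hXi hXi1 (hno i hiJ) hg2
  have hcard : ∀ j ∈ J, ((Ex j).card : ℝ) ≤ C' * K / Real.log K ^ (B + 1) := by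
    intro j hj
    rw [hJ, Finset.mem_filter] at hj
    obtain ⟨-, hj1, hj2, hj3⟩ := hj
    have h := hmain ((1 + κ) ^ j) K (hKX.trans hj3) hj1 hj2
    have h' : ((Ex j).card : ℝ) ≤ C' * K / Real.log ((1 + κ) ^ j) ^ (B + 1) := by
      have hcg : (Ex j).card = ((Finset.Ioc A K).filter
          (fun k => ¬ Gx r (e / 4) ((1 + κ) ^ j) (fv F k))).card := rfl
      rw [hcg]
      exact h
    refine h'.trans ?_
    refine div_le_div_of_nonneg_left (by positivity) (by positivity) ?_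
    exact pow_le_pow_left₀ (by linarith) (Real.log_le_log hK0 hj3) _
  have hJcard : (J.card : ℝ) ≤ (C1 + 1) * Real.log K := by
    have h1 : J.card ≤ ⌊C1 * Real.log K⌋₊ + 1 := by
      refine (Finset.card_filter_le _ _).trans ?_
      rw [Finset.card_range]
    have h2 : (⌊C1 * Real.log K⌋₊ : ℝ) ≤ C1 * Real.log K := Nat.floor_le (by positivity)
    have h3 : (J.card : ℝ) ≤ (⌊C1 * Real.log K⌋₊ : ℝ) + 1 := by exact_mod_cast h1
    linarith
  calc (Set.ncard {k : ℕ | Bad r F a b η k ∧ K < 2 * k ∧ k ≤ K} : ℝ)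
      ≤ ((J.biUnion Ex).card : ℝ) := by
        have := Set.ncard_le_ncard hcover (Finset.finite_toSet _)
        rw [Set.ncard_coe_finset] at this
        exact_mod_cast this
    _ ≤ ∑ j ∈ J, ((Ex j).card : ℝ) := by exact_mod_cast Finset.card_biUnion_le
    _ ≤ ∑ _j ∈ J, C' * K / Real.log K ^ (B + 1) := Finset.sum_le_sum hcard
    _ = J.card * (C' * K / Real.log K ^ (B + 1)) := by rw [Finset.sum_const, nsmul_eq_mul]
    _ ≤ ((C1 + 1) * Real.log K) * (C' * K / Real.log K ^ (B + 1)) :=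
        mul_le_mul_of_nonneg_right hJcard (by positivity)
    _ = (C1 + 1) * C' * K / Real.log K ^ B := by
        have hne : Real.log K ≠ 0 := by linarith
        rw [pow_succ (Real.log K) B]
        generalize Real.log (K : ℝ) = L at hne
        generalize C1 = z
        field_simp

end Pool.Agent.Work.MP_122e00_nt.TS
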