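import Pool.Agent.Work.MP_122e00_nt.TS.Stmts12
import Pool.Agent.Work.MP_122e00_nt.TS.I_Y12

/-! Item X23: all `X` at once, logarithmic range. -/

namespace Pool.Agent.Work.MP_122e00_nt.TS

open Finset Filter Topology ArithmeticFunction MeasureTheory
open scoped ArithmeticFunction.zeta ArithmeticFunction.Moebius

namespace IX23

/-- the lower condition at a point near `X` -/
theorem low_ok {b c T X Y hv : ℝ} (hb0 : 0 < b) (hb : b < 1)
    (hc : 0 < c) (hT1 : 1 ≤ T)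
    (hT2 : 2 / c ^ ((1 + b) / 2 / b) ≤ T ^ ((1 + b) / 2 / b - 1)) (hX : 1 ≤ X)
    (h2 : hv ≤ X ^ b) (h3 : c * T ≤ hv) (hY1 : X / 2 ≤ Y) (hY : 1 ≤ Y) :
    T ≤ Y ^ ((1 + b) / 2) ∧ T ≤ Y := by
  have hs : 1 < (1 + b) / 2 / b := by
    rw [lt_div_iff₀ hb0]; linarith
  set s := (1 + b) / 2 / b with hsdef
  have hlow : T ≤ Y ^ ((1 + b) / 2) := by
    have e1 : (X / 2) ^ ((1 + b) / 2) ≤ Y ^ ((1 + b) / 2) :=
      Real.rpow_le_rpow (by linarith) hY1 (by positivity)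
    have e2 : (X / 2) ^ ((1 + b) / 2) = X ^ ((1 + b) / 2) / (2 : ℝ) ^ ((1 + b) / 2) :=
      Real.div_rpow (by linarith) (by norm_num) _
    have e3 : (2 : ℝ) ^ ((1 + b) / 2) ≤ 2 := by
      calc (2 : ℝ) ^ ((1 + b) / 2) ≤ (2 : ℝ) ^ (1 : ℝ) :=
            Real.rpow_le_rpow_of_exponent_le (by norm_num) (by linarith)
        _ = 2 := Real.rpow_one 2
    have e4 : X ^ ((1 + b) / 2) = (X ^ b) ^ s := by
      rw [← Real.rpow_mul (by linarith)]
      congr 1
      rw [hsdef]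
      field_simp
    have e5 : (c * T) ^ s ≤ (X ^ b) ^ s :=
      Real.rpow_le_rpow (by positivity) (h3.trans h2) (by linarith)
    have e6 : (c * T) ^ s = c ^ s * T ^ s := Real.mul_rpow hc.le (by linarith)
    have e7 : T ^ s = T ^ (s - 1) * T := by
      rw [Real.rpow_sub_one (by linarith)]
      field_simp
    have hcs : 0 < c ^ s := Real.rpow_pos_of_pos hc s
    have e8 : 2 * T ≤ c ^ s * T ^ s := by
      rw [e7]
      rw [div_le_iff₀ hcs] at hT2
      nlinarith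
    have e9 : 2 * T ≤ X ^ ((1 + b) / 2) := by
      rw [e4]
      calc 2 * T ≤ c ^ s * T ^ s := e8
        _ = (c * T) ^ s := e6.symm
        _ ≤ (X ^ b) ^ s := e5
    have e10 : T ≤ X ^ ((1 + b) / 2) / (2 : ℝ) ^ ((1 + b) / 2) := by
      rw [le_div_iff₀ (by positivity)]
      calc T * (2 : ℝ) ^ ((1 + b) / 2) ≤ T * 2 :=
            mul_le_mul_of_nonneg_left e3 (by linarith)
        _ = 2 * T := by ring
        _ ≤ _ := e9
    calc T ≤ (X / 2) ^ ((1 + b) / 2) := by rw [e2]; exact e10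
      _ ≤ _ := e1
  refine ⟨hlow, hlow.trans ?_⟩
  calc Y ^ ((1 + b) / 2) ≤ Y ^ (1 : ℝ) :=
        Real.rpow_le_rpow_of_exponent_le hY (by linarith)
    _ = Y := Real.rpow_one Y

/-- the upper condition at a point near `X` -/
theorem up_ok {A A' Ao C T X Y hv : ℝ} (hA : A ≤ A') (hA1 : 1 ≤ A') (hAo : 2 * A' ≤ Ao)
    (hT : ((2 : ℝ) ^ A') ^ 2 * C ≤ T) (hT1 : 1 ≤ T) (hX : 0 < X) (hlX : 1 ≤ Real.log X)
    (hY : 0 < Y) (hlY : 1 ≤ Real.log Y) (hY2 : Y ≤ 2 * X) (h1 : Real.log X ^ Ao ≤ hv)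
    (h4 : hv ≤ C * T) : Real.log Y ^ A ≤ T := by
  have e1 : Real.log Y ≤ 2 * Real.log X := by
    have h5 : Real.log Y ≤ Real.log (2 * X) := Real.log_le_log hY hY2
    rw [Real.log_mul (by norm_num) hX.ne'] at h5
    have h6 : Real.log 2 ≤ 1 := by
      have := Real.log_two_lt_d9
      linarith
    linarith
  have e2 : Real.log Y ^ A ≤ (2 : ℝ) ^ A' * Real.log X ^ (Ao / 2) := by
    calc Real.log Y ^ A ≤ Real.log Y ^ A' := Real.rpow_le_rpow_of_exponent_le hlY hA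
      _ ≤ (2 * Real.log X) ^ A' := Real.rpow_le_rpow (by linarith) e1 (by linarith)
      _ = (2 : ℝ) ^ A' * Real.log X ^ A' := Real.mul_rpow (by norm_num) (by linarith)
      _ ≤ (2 : ℝ) ^ A' * Real.log X ^ (Ao / 2) :=
          mul_le_mul_of_nonneg_left
            (Real.rpow_le_rpow_of_exponent_le hlX (by linarith)) (by positivity)
  refine e2.trans ?_
  have e3 : ((2 : ℝ) ^ A' * Real.log X ^ (Ao / 2)) ^ 2 ≤ T ^ 2 := by
    have e4 : (Real.log X ^ (Ao / 2)) ^ 2 = Real.log X ^ Ao := by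
      rw [sq, ← Real.rpow_add (by linarith)]
      congr 1
      ring
    rw [mul_pow, e4]
    calc ((2 : ℝ) ^ A') ^ 2 * Real.log X ^ Ao ≤ ((2 : ℝ) ^ A') ^ 2 * (C * T) :=
          mul_le_mul_of_nonneg_left (h1.trans h4) (by positivity)
      _ = (((2 : ℝ) ^ A') ^ 2 * C) * T := by ring
      _ ≤ T * T := mul_le_mul_of_nonneg_right hT (by linarith)
      _ = T ^ 2 := (sq T).symm
  have e5 : 0 ≤ (2 : ℝ) ^ A' * Real.log X ^ (Ao / 2) :=
    mul_nonneg (by positivity) (Real.rpow_nonneg (by linarith) _)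
  exact (pow_le_pow_iff_left₀ e5 (by linarith) two_ne_zero).mp e3

/-- the logarithm is small -/
theorem log_ok {Ao C δ K X hv : ℝ} {d : ℕ} (hAo : 0 < Ao) (hAd : 4 * d / δ ≤ Ao) (hδ : 0 < δ)
    (hC : 0 < C) (hK : 1 ≤ K) (hlX : 0 ≤ Real.log X) (h1 : Real.log X ^ Ao ≤ hv)
    (h4 : hv ≤ C * K ^ d) : Real.log X ≤ C ^ (1 / Ao) * K ^ (δ / 4) := by
  have e1 : Real.log X = (Real.log X ^ Ao) ^ (1 / Ao) := by
    rw [← Real.rpow_mul hlX, mul_one_div_cancel hAo.ne', Real.rpow_one]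
  have e2 : (Real.log X ^ Ao) ^ (1 / Ao) ≤ (C * K ^ d) ^ (1 / Ao) :=
    Real.rpow_le_rpow (Real.rpow_nonneg hlX _) (h1.trans h4) (by positivity)
  have e3 : (C * K ^ d) ^ (1 / Ao) = C ^ (1 / Ao) * (K ^ d) ^ (1 / Ao) :=
    Real.mul_rpow hC.le (by positivity)
  have e4 : (K ^ d) ^ (1 / Ao) ≤ K ^ (δ / 4) := by
    rw [← Real.rpow_natCast K d, ← Real.rpow_mul (by linarith)]
    refine Real.rpow_le_rpow_of_exponent_le hK ?_
    rw [div_le_iff₀ hδ] at hAd
    rw [mul_one_div, div_le_div_iff₀ hAo (by norm_num)]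
    linarith
  rw [e1]
  refine e2.trans ?_
  rw [e3]
  exact mul_le_mul_of_nonneg_left e4 (Real.rpow_nonneg hC.le _)

end IX23

open IY12 IX23 in
theorem prX23 (h2 : tsH2) (h22 : tsX22) : tsX23 := by
  classical
  intro r E hr hAP hCB F hF1 hF2 b η hb0 hb hη
  obtain ⟨A, c, C, hc, hC, hA, hCk⟩ := h2 F hF1 hF2
  set d := F.natDegree with hd
  set e := min η 1 with he
  have he0 : 0 < e := lt_min hη one_pos
  have he1 : e ≤ 1 := min_le_right _ _
  have heη : e ≤ η := min_le_left _ _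
  obtain ⟨δ, A₁, X0, hδ, hδ1, hmain⟩ := h22 r E hr hAP hCB F A hF1 hF2 (fun k hk => (hA k hk).1)
    ((1 + b) / 2) (e / 4) (by positivity) (by linarith) (by positivity)
  have hr0 : (0 : ℝ) < r := by exact_mod_cast (by omega : 0 < r)
  set κ := e / (16 * r) with hκ
  have hκ0 : 0 < κ := by positivity
  have hκ1 : κ ≤ 1 := by
    rw [hκ, div_le_one (by positivity)]
    have : (1 : ℝ) ≤ r := by exact_mod_cast (by omega : 1 ≤ r)
    linarith
  have hk := kappa hr he0 he1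
  rw [← hκ] at hk
  have hl : 0 < Real.log (1 + κ) := Real.log_pos (by linarith)
  set s := (1 + b) / 2 / b with hs
  have hs1 : 1 < s := by rw [hs, lt_div_iff₀ hb0]; linarith
  set u := c / 2 ^ d with hu
  have hu0 : 0 < u := by positivity
  set W := 2 / u ^ s with hW
  have hW0 : 0 < W := div_pos two_pos (Real.rpow_pos_of_pos hu0 s)
  -- the exponents
  set A' := max A₁ 1 with hA'
  have hA'1 : 1 ≤ A' := le_max_right _ _
  have hA1' : A₁ ≤ A' := le_max_left _ _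
  set Ao := max (2 * A') (4 * d / δ) with hAo
  have hAo1 : 2 * A' ≤ Ao := le_max_left _ _
  have hAo2 : 4 * d / δ ≤ Ao := le_max_right _ _
  have hAo0 : 0 < Ao := by linarith
  set D := C ^ (1 / Ao) with hD
  have hD0 : 0 ≤ D := Real.rpow_nonneg hC.le _
  set C1 := D / Real.log (1 + κ) + 1 with hC1
  have hC10 : 0 ≤ C1 := by positivity
  set V := C1 + 1 with hV
  have hV0 : 0 < V := by positivity
  refine ⟨Ao, δ / 2, max (V ^ (1 / (δ / 4)))
    (max (max 3 (2 * (A + 1))) (max X0 (max (max (3 / u) (((2 : ℝ) ^ A') ^ 2 * C))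
      (W ^ (1 / (s - 1)))))), hAo0, by positivity, by linarith, fun K hK' => ?_⟩
  have hKV : V ^ (1 / (δ / 4)) ≤ K := (le_max_left _ _).trans hK'
  have hK := (le_max_right _ _).trans hK'
  have hK3 : (3 : ℝ) ≤ K := ((le_max_left _ _).trans (le_max_left _ _)).trans hK
  have hKA : (2 * (A + 1) : ℝ) ≤ K := ((le_max_right _ _).trans (le_max_left _ _)).trans hK
  have hKX : X0 ≤ K := ((le_max_left _ _).trans (le_max_right _ _)).trans hK
  have hKuC : max (3 / u) (((2 : ℝ) ^ A') ^ 2 * C) ≤ K :=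
    (((le_max_left _ _).trans (le_max_right _ _)).trans (le_max_right _ _)).trans hK
  have hKu : 3 / u ≤ K := (le_max_left _ _).trans hKuC
  have hKC : ((2 : ℝ) ^ A') ^ 2 * C ≤ K := (le_max_right _ _).trans hKuC
  have hKW : W ^ (1 / (s - 1)) ≤ K :=
    (((le_max_right _ _).trans (le_max_right _ _)).trans (le_max_right _ _)).trans hK
  have hK0 : (0 : ℝ) < K := by linarith
  set T := (K : ℝ) ^ d with hT
  have hTK : (K : ℝ) ≤ T := by
    calc (K : ℝ) = (K : ℝ) ^ 1 := (pow_one _).symm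
      _ ≤ T := pow_le_pow_right₀ (by linarith) hF1
  have hT1 : 1 ≤ T := by linarith
  have hlK : 1 ≤ Real.log K := by
    rw [Real.le_log_iff_exp_le hK0]
    exact (Real.exp_one_lt_d9.le.trans (by norm_num)).trans hK3
  have hTW : W ≤ T ^ (s - 1) := by
    have h1 : W = (W ^ (1 / (s - 1))) ^ (s - 1) := by
      rw [← Real.rpow_mul hW0.le, one_div, inv_mul_cancel₀ (by linarith), Real.rpow_one]
    rw [h1]
    exact Real.rpow_le_rpow (Real.rpow_nonneg hW0.le _) (hKW.trans hTK) (by linarith)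
  have huT : 3 ≤ u * T := by
    rw [div_le_iff₀ hu0] at hKu
    calc (3 : ℝ) ≤ K * u := hKu
      _ ≤ T * u := mul_le_mul_of_nonneg_right hTK hu0.le
      _ = u * T := mul_comm _ _
  have hKδ : 1 ≤ (K : ℝ) ^ (δ / 4) := Real.one_le_rpow (by linarith) (by positivity)
  -- the grid
  set J := (Finset.range (⌊C1 * (K : ℝ) ^ (δ / 4)⌋₊ + 1)).filter (fun j =>
    Real.log ((1 + κ) ^ j) ^ A₁ ≤ T ∧ T ≤ ((1 + κ) ^ j) ^ ((1 + b) / 2) ∧
      (K : ℝ) ≤ (1 + κ) ^ j) with hJ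
  set Ex := fun j : ℕ => (Finset.Ioc A K).filter (fun k => ¬ Gx r (e / 4) ((1 + κ) ^ j) (fv F k))
    with hEx
  have hcover : {k : ℕ | BadL r F Ao b η k ∧ K < 2 * k ∧ k ≤ K} ⊆
      ((J.biUnion Ex : Finset ℕ) : Set ℕ) := by
    rintro k ⟨hbad, hk1, hk2⟩
    have hkA : A < k := by
      have h1 : (2 * (A + 1) : ℝ) < 2 * k := lt_of_le_of_lt hKA (by exact_mod_cast hk1)
      have h2 : 2 * (A + 1) < 2 * k := by exact_mod_cast h1
      omega
    have hFk := hA k hkA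
    rcases hbad with hbad | ⟨X, hX1, hXa, hXb, hG⟩
    · exact absurd hFk.1 hbad
    have hfv : 1 ≤ fv F k := by
      unfold fv
      have := hFk.1
      omega
    set hv : ℝ := ((F.eval (k : ℤ) : ℤ) : ℝ) with hhv
    have hk0 : 1 ≤ k := by omega
    have hkR : (K : ℝ) / 2 ≤ k := by
      have : (K : ℝ) ≤ 2 * k := by exact_mod_cast hk1.le
      linarith
    have hkK : (k : ℝ) ≤ K := by exact_mod_cast hk2
    have h3 : u * T ≤ hv := by
      calc u * T = c * ((K : ℝ) / 2) ^ d := by rw [hu, hT, div_pow]; ring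
        _ ≤ c * (k : ℝ) ^ d :=
            mul_le_mul_of_nonneg_left (pow_le_pow_left₀ (by positivity) hkR d) hc.le
        _ ≤ hv := hFk.2
    have h4 : hv ≤ C * T := by
      calc hv ≤ |hv| := le_abs_self _
        _ ≤ C * (k : ℝ) ^ d := hCk k hk0
        _ ≤ C * T := mul_le_mul_of_nonneg_left (pow_le_pow_left₀ (by positivity) hkK d) hC.le
    -- `X` is large
    have hX3 : 3 ≤ X := by
      calc (3 : ℝ) ≤ u * T := huT
        _ ≤ hv := h3
        _ ≤ X ^ b := hXb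
        _ ≤ X ^ (1 : ℝ) := Real.rpow_le_rpow_of_exponent_le hX1 hb.le
        _ = X := Real.rpow_one X
    have hlX1 : 1 ≤ Real.log X := by
      rw [Real.le_log_iff_exp_le (by linarith)]
      exact (Real.exp_one_lt_d9.le.trans (by norm_num)).trans hX3
    -- the place in the grid
    set i := ⌊Real.log X / Real.log (1 + κ)⌋₊ with hi
    have hlX0 : 0 ≤ Real.log X := Real.log_nonneg hX1
    have hi1 : (i : ℝ) * Real.log (1 + κ) ≤ Real.log X := by
      have := Nat.floor_le (div_nonneg hlX0 hl.le)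
      rwa [← hi, le_div_iff₀ hl] at this
    have hi2 : Real.log X ≤ ((i : ℝ) + 1) * Real.log (1 + κ) := by
      have := (Nat.lt_floor_add_one (Real.log X / Real.log (1 + κ))).le
      rwa [← hi, div_le_iff₀ hl] at this
    have hp : ∀ j : ℕ, Real.log ((1 + κ) ^ j) = j * Real.log (1 + κ) := fun j => Real.log_pow _ _
    have hpp : ∀ j : ℕ, 1 ≤ (1 + κ) ^ j := fun j => one_le_pow₀ (by linarith)
    have hXi : (1 + κ) ^ i ≤ X := by
      rw [← Real.log_le_log_iff (by positivity) (by linarith), hp]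
      exact hi1
    have hXi1 : X ≤ (1 + κ) * (1 + κ) ^ i := by
      rw [← pow_succ', ← Real.log_le_log_iff (by linarith) (by positivity), hp]
      push_cast
      exact hi2
    have hn1 : X / 2 ≤ (1 + κ) ^ i := by
      have : (1 + κ) * (1 + κ) ^ i ≤ 2 * (1 + κ) ^ i :=
        mul_le_mul_of_nonneg_right (by linarith) (by positivity)
      linarith
    have hn2 : (1 + κ) ^ i ≤ 2 * X := by linarith
    have hn3 : X / 2 ≤ (1 + κ) ^ (i + 1) := by rw [pow_succ']; linarith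
    have hn4 : (1 + κ) ^ (i + 1) ≤ 2 * X := by
      rw [pow_succ']
      calc (1 + κ) * (1 + κ) ^ i ≤ 2 * X :=
            mul_le_mul (by linarith) hXi (by positivity) (by norm_num)
        _ = 2 * X := rfl
    have hrange : ∀ j : ℕ, X / 2 ≤ (1 + κ) ^ j → (1 + κ) ^ j ≤ 2 * X →
        Real.log ((1 + κ) ^ j) ^ A₁ ≤ T ∧ T ≤ ((1 + κ) ^ j) ^ ((1 + b) / 2) ∧
          T ≤ (1 + κ) ^ j := by
      intro j hj1 hj2
      have q1 := low_ok hb0 hb hu0 hT1 hTW hX1 hXb h3 hj1 (hpp j)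
      refine ⟨?_, q1.1, q1.2⟩
      have hj3 : (0 : ℝ) < (1 + κ) ^ j := by positivity
      have hlj : 1 ≤ Real.log ((1 + κ) ^ j) :=
        hlK.trans (Real.log_le_log hK0 (hTK.trans q1.2))
      exact up_ok hA1' hA'1 hAo1 (hKC.trans hTK) hT1 (by linarith) hlX1 hj3 hlj hj2 hXa h4
    have r1 := hrange i hn1 hn2
    have r2 := hrange (i + 1) hn3 hn4
    -- number of the grid points
    have hcount : ((i : ℝ) + 1) ≤ C1 * (K : ℝ) ^ (δ / 4) := by
      have g1 : Real.log X ≤ D * (K : ℝ) ^ (δ / 4) :=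
        log_ok hAo0 hAo2 hδ hC (by linarith) hlX0 hXa h4
      have g3 : (i : ℝ) ≤ D / Real.log (1 + κ) * (K : ℝ) ^ (δ / 4) := by
        rw [div_mul_eq_mul_div, le_div_iff₀ hl]
        exact hi1.trans g1
      rw [hC1, add_mul, one_mul]
      linarith
    have hmem : ∀ j : ℕ, j ≤ i + 1 → Real.log ((1 + κ) ^ j) ^ A₁ ≤ T ∧
        T ≤ ((1 + κ) ^ j) ^ ((1 + b) / 2) ∧ T ≤ (1 + κ) ^ j → j ∈ J := by
      intro j hj hjc
      rw [hJ, Finset.mem_filter, Finset.mem_range]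
      refine ⟨?_, hjc.1, hjc.2.1, hTK.trans hjc.2.2⟩
      have : j ≤ ⌊C1 * (K : ℝ) ^ (δ / 4)⌋₊ := by
        rw [Nat.le_floor_iff (by positivity)]
        have : (j : ℝ) ≤ i + 1 := by exact_mod_cast hj
        linarith
      omega
    have hiJ : i ∈ J := hmem i (by omega) r1
    have hi1J : i + 1 ∈ J := hmem (i + 1) le_rfl r2
    by_contra hcon
    have hno : ∀ j ∈ J, Gx r (e / 4) ((1 + κ) ^ j) (fv F k) := by
      intro j hj
      by_contra hg
      apply hcon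
      rw [Finset.mem_coe, Finset.mem_biUnion]
      exact ⟨j, hj, Finset.mem_filter.2 ⟨Finset.mem_Ioc.2 ⟨hkA, hk2⟩, hg⟩⟩
    apply hG
    have hKi : (K : ℝ) ≤ (1 + κ) ^ i := hTK.trans r1.2.2
    have hg2 := hno (i + 1) hi1J
    rw [pow_succ'] at hg2
    exact interp hr hfv he0 he1 heη hκ0 hk
      (hlK.trans (Real.log_le_log hK0 hKi)) (hpp i) hXi hXi1 (hno i hiJ) hg2
  have hcard : ∀ j ∈ J, ((Ex j).card : ℝ) ≤ (K : ℝ) ^ (1 - δ) := by
    intro j hj
    rw [hJ, Finset.mem_filter] at hj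
    obtain ⟨-, hj1, hj2, hj3⟩ := hj
    exact hmain ((1 + κ) ^ j) K (hKX.trans hj3) hj1 hj2
  have hJcard : (J.card : ℝ) ≤ V * (K : ℝ) ^ (δ / 4) := by
    have h1 : J.card ≤ ⌊C1 * (K : ℝ) ^ (δ / 4)⌋₊ + 1 := by
      refine (Finset.card_filter_le _ _).trans ?_
      rw [Finset.card_range]
    have h2 : (⌊C1 * (K : ℝ) ^ (δ / 4)⌋₊ : ℝ) ≤ C1 * (K : ℝ) ^ (δ / 4) :=
      Nat.floor_le (by positivity)
    have h3 : (J.card : ℝ) ≤ (⌊C1 * (K : ℝ) ^ (δ / 4)⌋₊ : ℝ) + 1 := by exact_mod_cast h1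
    rw [hV, add_mul, one_mul]
    linarith
  have hlog : V * (K : ℝ) ^ (δ / 4) ≤ (K : ℝ) ^ (δ / 2) := by
    have e2 : V ≤ (K : ℝ) ^ (δ / 4) := by
      have h1 : V = (V ^ (1 / (δ / 4))) ^ (δ / 4) := by
        rw [← Real.rpow_mul hV0.le, one_div, inv_mul_cancel₀ (by positivity), Real.rpow_one]
      rw [h1]
      exact Real.rpow_le_rpow (Real.rpow_nonneg hV0.le _) hKV (by positivity)
    calc V * (K : ℝ) ^ (δ / 4) ≤ (K : ℝ) ^ (δ / 4) * (K : ℝ) ^ (δ / 4) :=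
          mul_le_mul_of_nonneg_right e2 (Real.rpow_nonneg hK0.le _)
      _ = (K : ℝ) ^ (δ / 2) := by
          rw [← Real.rpow_add hK0]
          congr 1
          ring
  calc (Set.ncard {k : ℕ | BadL r F Ao b η k ∧ K < 2 * k ∧ k ≤ K} : ℝ)
      ≤ ((J.biUnion Ex).card : ℝ) := by
        have := Set.ncard_le_ncard hcover (Finset.finite_toSet _)
        rw [Set.ncard_coe_finset] at this
        exact_mod_cast this
    _ ≤ ∑ j ∈ J, ((Ex j).card : ℝ) := by exact_mod_cast Finset.card_biUnion_le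
    _ ≤ ∑ _j ∈ J, (K : ℝ) ^ (1 - δ) := Finset.sum_le_sum hcard
    _ = J.card * (K : ℝ) ^ (1 - δ) := by rw [Finset.sum_const, nsmul_eq_mul]
    _ ≤ (V * (K : ℝ) ^ (δ / 4)) * (K : ℝ) ^ (1 - δ) :=
        mul_le_mul_of_nonneg_right hJcard (Real.rpow_nonneg hK0.le _)
    _ ≤ (K : ℝ) ^ (δ / 2) * (K : ℝ) ^ (1 - δ) :=
        mul_le_mul_of_nonneg_right hlog (Real.rpow_nonneg hK0.le _)
    _ = (K : ℝ) ^ (1 - δ / 2) := by
        rw [← Real.rpow_add hK0]
        congr 1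
        ring

end Pool.Agent.Work.MP_122e00_nt.TS
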