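import Pool.Agent.Work.MP_122e00_nt.TS.Stmts11
import Pool.Agent.Work.MP_122e00_nt.TS.I_K7

set_option autoImplicit false

/-!
Item X3 (helper58): second moments in short intervals.
-/

namespace Pool.Agent.Work.MP_122e00_nt.TS

open Finset Filter Topology ArithmeticFunction
open scoped ArithmeticFunction.zeta ArithmeticFunction.Moebius

namespace IX3

theorem mono {c C D l : ℝ} (hc : 0 ≤ c) (hC : c ≤ C) (hD : 0 ≤ D) (hl : 1 ≤ l) :
    c * D * l ^ c ≤ C * D * l ^ C := by
  have h1 : l ^ c ≤ l ^ C := Real.rpow_le_rpow_of_exponent_le hl hC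
  have h2 : (0 : ℝ) ≤ l ^ c := Real.rpow_nonneg (by linarith) _
  exact mul_le_mul (mul_le_mul_of_nonneg_right hC hD) h1 h2
    (mul_nonneg (hc.trans hC) hD)

theorem one_le_log {X : ℝ} (hX : 3 ≤ X) : 1 ≤ Real.log X := by
  have h1 : Real.exp 1 ≤ 3 := by linarith [Real.exp_one_lt_d9]
  rw [Real.le_log_iff_exp_le (by linarith)]
  linarith

theorem L_le {X : ℝ} (hX : 3 ≤ X) : 1 + Real.log (3 * X) ≤ 4 * Real.log X := by
  have h1 := one_le_log hX
  rw [Real.log_mul (by norm_num) (by linarith)]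
  have h2 : Real.log 3 ≤ Real.log X := Real.log_le_log (by norm_num) hX
  linarith

/-- the sum of a function bounded by `dr R` -/
theorem sum_bd {R : ℕ} {δs δ C : ℝ} (hδ : δs ≤ δ)
    (h : ∀ (X : ℝ) (a b : ℕ), 3 ≤ X → a ≤ b → (b : ℝ) ≤ 3 * X → X ^ (1 - δ) ≤ (b : ℝ) - a →
      ∑ n ∈ Finset.Ioc a b, dr R n ≤ C * ((b : ℝ) - a) * Real.log X ^ C)
    {X : ℝ} {a b : ℕ} (hX : 3 ≤ X) (hab : a ≤ b) (hb : (b : ℝ) ≤ 3 * X)
    (hl : X ^ (1 - δs) ≤ (b : ℝ) - a) (f : ℕ → ℝ) (hf : ∀ n, 1 ≤ n → f n ≤ dr R n) :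
    ∑ n ∈ Finset.Ioc a b, f n ≤ C * ((b : ℝ) - a) * Real.log X ^ C := by
  refine le_trans (Finset.sum_le_sum fun n hn => hf n ?_) (h X a b hX hab hb ?_)
  · rw [Finset.mem_Ioc] at hn
    omega
  · exact (Real.rpow_le_rpow_of_exponent_le (by linarith) (by linarith)).trans hl

end IX3

open IX3 in
theorem prX3 (hK5 : tsK5) (hX1 : tsX1) (hX2 : tsX2) : tsX3 := by
  intro r E hr hE hCB
  obtain ⟨hdeg, hK⟩ := hK5 r E hr hE hCB
  obtain ⟨hmul, -, hup⟩ := hX2
  obtain ⟨δ1, C1, hδ1, hC1, h1⟩ := hX1 ((r + 1) * (r + 1)) (Nat.one_le_iff_ne_zero.2 (by positivity))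
  obtain ⟨δ2, C2, hδ2, hC2, h2⟩ := hX1 (r * r) (Nat.one_le_iff_ne_zero.2 (by positivity))
  obtain ⟨δ3, C3, hδ3, hC3, h3⟩ := hX1 (2 * 2) (by norm_num)
  refine ⟨min δ1 (min δ2 δ3), by positivity, ?_⟩
  intro ε hε
  obtain ⟨C0, hC0, hCB'⟩ := hK (ε / 2) (by positivity)
  set A : ℝ := ((r : ℝ) + 1) * ((r : ℝ) + 2) * C0 with hA
  have hA0 : 0 < A := by positivity
  set B : ℝ := A ^ 2 * 4 ^ (4 * r + 4) * C3 with hB
  have hB0 : 0 < B := by positivity
  refine ⟨C1 + C2 + B + (C3 + (4 * r + 4)), by positivity, ?_⟩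
  intro X z w Q a b hX hw hwX hQX hab hb hl
  have hlog := one_le_log hX
  have hD : (0 : ℝ) ≤ (b : ℝ) - a := by
    have : (a : ℝ) ≤ b := by exact_mod_cast hab
    linarith
  refine ⟨?_, ?_, ?_⟩
  · refine (sum_bd (min_le_left _ _) h1 hX hab hb hl (fun n => up r z w n ^ 2) ?_).trans ?_
    · intro n hn
      obtain ⟨u0, u1⟩ := hup r n z w hn
      calc up r z w n ^ 2 ≤ dr (r + 1) n ^ 2 := pow_le_pow_left₀ u0 u1 2
        _ = dr (r + 1) n * dr (r + 1) n := by ring
        _ ≤ _ := hmul (r + 1) (r + 1) n (by omega) (by omega)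
    · refine mono hC1.le ?_ hD hlog
      have : (0 : ℝ) ≤ C3 + (4 * r + 4) := by positivity
      linarith
  · refine (sum_bd ((min_le_right _ _).trans (min_le_left _ _)) h2 hX hab hb hl
      (fun n => dr r n ^ 2) ?_).trans ?_
    · intro n hn
      show dr r n ^ 2 ≤ _
      rw [pow_two]
      exact hmul r r n hr hr
    · refine mono hC2.le ?_ hD hlog
      have : (0 : ℝ) ≤ C3 + (4 * r + 4) := by positivity
      linarith
  · rcases Nat.eq_zero_or_pos Q with rfl | hQ
    · have h0 : ∀ n, fs (Eu E z w) 0 n = 0 := fun n => by unfold fs; simp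
      rw [Nat.cast_zero, Real.zero_rpow hε.ne', mul_zero]
      refine le_of_eq (Finset.sum_eq_zero fun n _ => ?_)
      rw [h0]
      norm_num
    · have hQ1 : (1 : ℝ) ≤ Q := by exact_mod_cast hQ
      have hX0 : (0 : ℝ) < X := by linarith
      set L : ℝ := 1 + Real.log (3 * X) with hL
      have hlog0 : 0 ≤ Real.log (3 * X) := Real.log_nonneg (by linarith)
      have hL1 : 1 ≤ L := by linarith
      have hwL : 1 + Real.log w ≤ L := by
        have := Real.log_le_log (by linarith) (show w ≤ 3 * X by linarith)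
        linarith
      have hw0 : 0 ≤ 1 + Real.log w := by
        have := Real.log_nonneg hw
        linarith
      have hQL : 1 + Real.log Q ≤ L := by
        have := Real.log_le_log (by linarith) (show (Q : ℝ) ≤ 3 * X by linarith)
        linarith
      have hc : ∀ q j : ℕ, 1 ≤ q →
          |(Eu E z w q).coeff j| ≤ (C0 * L ^ (r + 1)) * (q : ℝ) ^ (ε / 2 - 1) := by
        intro q j hq
        refine (hCB' z w q j hw hq).trans ?_
        refine mul_le_mul_of_nonneg_right ?_ (by positivity)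
        exact mul_le_mul_of_nonneg_left (pow_le_pow_left₀ hw0 hwL _) hC0.le
      have hQe : (Q : ℝ) ^ (ε / 2) * (Q : ℝ) ^ (ε / 2) = (Q : ℝ) ^ ε := by
        rw [← Real.rpow_add (by linarith)]
        congr 1
        ring
      have hQ0 : (0 : ℝ) ≤ (Q : ℝ) ^ ε := by positivity
      have hK2 : 0 ≤ A ^ 2 * L ^ (4 * r + 4) * (Q : ℝ) ^ ε := by positivity
      have hpt : ∀ n ∈ Finset.Ioc a b, fs (Eu E z w) Q n ^ 2 ≤
          (A ^ 2 * L ^ (4 * r + 4) * (Q : ℝ) ^ ε) * dr (2 * 2) n := by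
        intro n hn
        rw [Finset.mem_Ioc] at hn
        have hn1 : 1 ≤ n := by omega
        have hn1R : (1 : ℝ) ≤ n := by exact_mod_cast hn1
        have hnb : (n : ℝ) ≤ 3 * X := le_trans (by exact_mod_cast hn.2) hb
        have huL : Real.log n ≤ L := by
          have := Real.log_le_log (by linarith) hnb
          linarith
        have k1 := IK7.fs_bd r (Eu E z w) (fun q => hdeg z w q) (C0 * L ^ (r + 1)) (ε / 2) L Q
          (by positivity) (by positivity) hQ1 hL1 hc Q n le_rfl hn1 huL hQL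
        have k2 : fs (Eu E z w) Q n ^ 2 ≤ (((r : ℝ) + 1) * ((r : ℝ) + 2) * (C0 * L ^ (r + 1)) *
            L ^ r * (Q : ℝ) ^ (ε / 2) * (L * dr 2 n)) ^ 2 := by
          rw [← sq_abs (fs (Eu E z w) Q n)]
          exact pow_le_pow_left₀ (abs_nonneg _) k1 2
        refine k2.trans ?_
        have k3 : (((r : ℝ) + 1) * ((r : ℝ) + 2) * (C0 * L ^ (r + 1)) *
            L ^ r * (Q : ℝ) ^ (ε / 2) * (L * dr 2 n)) ^ 2 =
            A ^ 2 * L ^ (4 * r + 4) * ((Q : ℝ) ^ (ε / 2) * (Q : ℝ) ^ (ε / 2)) *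
              (dr 2 n * dr 2 n) := by
          rw [hA]
          ring
        rw [k3, hQe]
        exact mul_le_mul_of_nonneg_left (hmul 2 2 n (by norm_num) (by norm_num)) hK2
      refine (Finset.sum_le_sum hpt).trans ?_
      rw [← Finset.mul_sum]
      have k4 := sum_bd ((min_le_right _ _).trans (min_le_right _ _)) h3 hX hab hb hl
        (fun n => dr (2 * 2) n) (fun n _ => le_rfl)
      refine (mul_le_mul_of_nonneg_left k4 hK2).trans ?_
      have hL4 : L ^ (4 * r + 4) ≤ (4 * Real.log X) ^ (4 * r + 4) :=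
        pow_le_pow_left₀ (by linarith) (L_le hX) _
      have hlC : (0 : ℝ) ≤ Real.log X ^ C3 := Real.rpow_nonneg (by linarith) _
      calc A ^ 2 * L ^ (4 * r + 4) * (Q : ℝ) ^ ε * (C3 * ((b : ℝ) - a) * Real.log X ^ C3)
          ≤ A ^ 2 * (4 * Real.log X) ^ (4 * r + 4) * (Q : ℝ) ^ ε *
            (C3 * ((b : ℝ) - a) * Real.log X ^ C3) := by gcongr
        _ = B * ((b : ℝ) - a) * (Real.log X ^ C3 * Real.log X ^ (4 * r + 4)) * (Q : ℝ) ^ ε := by
            rw [hB, mul_pow]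
            ring
        _ = B * ((b : ℝ) - a) * Real.log X ^ (C3 + (4 * r + 4)) * (Q : ℝ) ^ ε := by
            rw [Real.rpow_add (by linarith)]
            congr 3
            rw [← Real.rpow_natCast]
            push_cast
            rfl
        _ ≤ (C1 + C2 + B + (C3 + (4 * r + 4))) * ((b : ℝ) - a) *
            Real.log X ^ (C1 + C2 + B + (C3 + (4 * r + 4))) * (Q : ℝ) ^ ε := by
            refine mul_le_mul_of_nonneg_right ?_ hQ0
            have hr0 : (0 : ℝ) ≤ C3 + (4 * r + 4) := by positivity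
            refine mul_le_mul (mul_le_mul_of_nonneg_right (by linarith) hD) ?_
              (Real.rpow_nonneg (by linarith) _) (mul_nonneg (by positivity) hD)
            exact Real.rpow_le_rpow_of_exponent_le hlog (by linarith)

end Pool.Agent.Work.MP_122e00_nt.TS
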