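import Pool.Agent.Work.MP_122e00_nt.TS.Stmts9
import Pool.Agent.Work.MP_122e00_nt.TS.I_T2

/-!
# All powers, item Y1 (helper55); model: `TS/I_T2.lean` (helper22)
-/

namespace Pool.Agent.Work.MP_122e00_nt.TS

open Finset Filter Topology ArithmeticFunction
open scoped ArithmeticFunction.zeta ArithmeticFunction.Moebius

open IT2

theorem prY1 (hQ5 : tsQ5) (hL0 : tsL0) (hK7 : tsK7) (hH2 : tsH2) (hT1 : tsT1) : tsY1 := by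
  intro r E ε₂ θw η₂ δ X0 θ₁ θ₂ θa θ hr hAP hCB hε₂ hεθ hθw hη₂ hη₂' hδ hθ₁ hθa hθ hθ₂ hhyp
    F A hd hlc hpos
  obtain ⟨A', c, CF, hc, hCF, -, hCFb⟩ := hH2 F hd hlc
  have hθa0 : 0 < θa := by linarith
  obtain ⟨δ', hδ'0, hδ'1, hδ'2, hδ'3⟩ : ∃ δ' : ℝ, 0 < δ' ∧ δ' ≤ δ / 8 ∧ δ' * (2 * θa) ≤ θa - θ₁ ∧
      δ' ≤ 1 / 2 := by
    refine ⟨min (δ / 8) (min ((θa - θ₁) / (2 * θa)) (1 / 2)), ?_, min_le_left _ _, ?_, ?_⟩
    · have : 0 < (θa - θ₁) / (2 * θa) := div_pos (by linarith) (by linarith)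
      exact lt_min (by positivity) (lt_min this (by norm_num))
    · have h1 : min (δ / 8) (min ((θa - θ₁) / (2 * θa)) (1 / 2)) ≤ (θa - θ₁) / (2 * θa) :=
        (min_le_right _ _).trans (min_le_left _ _)
      rwa [le_div_iff₀ (by linarith)] at h1
    · exact (min_le_right _ _).trans (min_le_right _ _)
  obtain ⟨δ₁, K0, hδ₁, hT1'⟩ := hT1 F A hd hlc hpos δ' hδ'0 (by linarith)
  have hd0 : (0 : ℝ) < (F.natDegree : ℝ) := by exact_mod_cast hd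
  obtain ⟨ε, hε, hε1, hε2, hε3⟩ : ∃ ε : ℝ, 0 < ε ∧ ε ≤ δ / 16 ∧
      ε ≤ δ₁ * θa / (16 * (F.natDegree : ℝ)) ∧ ε ≤ 1 :=
    ⟨min (δ / 16) (min (δ₁ * θa / (16 * (F.natDegree : ℝ))) 1),
      lt_min (by positivity) (lt_min (by positivity) one_pos),
      min_le_left _ _, (min_le_right _ _).trans (min_le_left _ _),
      (min_le_right _ _).trans (min_le_right _ _)⟩
  obtain ⟨δ'', hδ'', hδ1, hδ2⟩ : ∃ δ'' : ℝ, 0 < δ'' ∧ δ'' ≤ δ / 2 ∧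
      δ'' ≤ δ₁ * θa / (2 * (F.natDegree : ℝ)) :=
    ⟨min (δ / 2) (δ₁ * θa / (2 * (F.natDegree : ℝ))), lt_min (by positivity) (by positivity),
      min_le_left _ _, min_le_right _ _⟩
  obtain ⟨CL, hCL, hL⟩ := hL0 r ε hε
  obtain ⟨CM, hCM, hM⟩ := hK7 r E (by omega) hAP.1 hCB ε hε
  obtain ⟨C1, hC1def⟩ : ∃ C1 : ℝ, C1 = 2 * CL + 2 * CM := ⟨_, rfl⟩
  have hC1 : 0 < C1 := by rw [hC1def]; positivity
  have hθ1 : θ < 1 := by linarith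
  -- the conditions on `X`
  have ev1 : ∀ᶠ X : ℝ in atTop, CF * X ^ θ ≤ X / 2 - 1 := by
    have h1 : ∀ᶠ X : ℝ in atTop, 4 * CF ≤ X ^ (1 - θ) :=
      (tendsto_rpow_atTop (by linarith : 0 < 1 - θ)).eventually_ge_atTop _
    filter_upwards [h1, eventually_ge_atTop (4 : ℝ)] with X hX1 hX4
    have hX0 : 0 < X := by linarith
    have e1 : X ^ (1 - θ) * X ^ θ = X := by
      rw [← Real.rpow_add hX0]; simp
    have e2 : 0 < X ^ θ := by positivity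
    nlinarith
  have ev2 : ∀ᶠ X : ℝ in atTop, (max K0 1) ^ F.natDegree ≤ X ^ θa :=
    (tendsto_rpow_atTop hθa0).eventually_ge_atTop _
  have ev3 : ∀ᶠ X : ℝ in atTop, 8 * C1 ^ 4 ≤ X ^ (δ₁ * θa / (4 * (F.natDegree : ℝ))) :=
    (tendsto_rpow_atTop (by positivity)).eventually_ge_atTop _
  have ev4 : ∀ᶠ X : ℝ in atTop, 64 * C1 ^ 2 ≤ X ^ (δ / 8) :=
    (tendsto_rpow_atTop (by positivity)).eventually_ge_atTop _
  have ev5 : ∀ᶠ X : ℝ in atTop, 16 ≤ X ^ ((θa - θ₁) / 2) :=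
    (tendsto_rpow_atTop (by linarith)).eventually_ge_atTop _
  obtain ⟨X1, hX1⟩ := (((ev1.and ev2).and (ev3.and ev4)).and
    ((ev5.and (eventually_ge_atTop X0)).and (eventually_ge_atTop (2 : ℝ)))).exists_forall_of_atTop
  refine ⟨δ'', X1, hδ'', ?_⟩
  intro X K hXX hK1 hK2
  obtain ⟨⟨⟨c1, c2⟩, c3, c4⟩, ⟨c7, c5⟩, c6⟩ := hX1 X hXX
  have hX1' : 1 ≤ X := by linarith
  have hX0' : 0 < X := by linarith
  -- `K`
  have hKmax : max K0 1 ≤ (K : ℝ) := by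
    have h1 : (max K0 1) ^ F.natDegree ≤ (K : ℝ) ^ F.natDegree := c2.trans hK1
    exact (pow_le_pow_iff_left₀ (by positivity) (by positivity) (by omega)).1 h1
  have hK0 : K0 ≤ (K : ℝ) := (le_max_left _ _).trans hKmax
  have hK1r : (1 : ℝ) ≤ K := (le_max_right _ _).trans hKmax
  have hK1n : 1 ≤ K := by exact_mod_cast hK1r
  have hXθ : X ^ θ ≤ X := by
    have := Real.rpow_le_rpow_of_exponent_le hX1' hθ1.le
    rwa [Real.rpow_one] at this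
  have hKX : (K : ℝ) ≤ X :=
    (le_self_pow₀ hK1r (by omega)).trans (hK2.trans hXθ)
  -- the numbers `N`, `H`, `L`
  obtain ⟨N, hN⟩ : ∃ N : ℕ, N = ⌊X⌋₊ := ⟨_, rfl⟩
  obtain ⟨H, hH⟩ : ∃ H : ℕ, H = ⌊X / 2⌋₊ := ⟨_, rfl⟩
  obtain ⟨hL1, hL2, hL3, hL4⟩ := length (K : ℝ) X θ₁ θa δ' F.natDegree hd hK1r hX1' hθ₁ hθa hδ'0
    hδ'2 hK1 c7
  obtain ⟨L, hLdef⟩ : ∃ L : ℕ, L = ⌊(K : ℝ) ^ ((F.natDegree : ℝ) - δ') / 8⌋₊ := ⟨_, rfl⟩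
  rw [← hLdef] at hL1 hL2 hL3 hL4
  have hL5 : (L : ℝ) ≤ X ^ θ₂ :=
    hL3.trans (hK2.trans (Real.rpow_le_rpow_of_exponent_le hX1' hθ))
  have hL1r : (1 : ℝ) ≤ L := by exact_mod_cast hL1
  have hNX : (N : ℝ) ≤ X := by rw [hN]; exact Nat.floor_le hX0'.le
  have hHX : (H : ℝ) ≤ X / 2 := by rw [hH]; exact Nat.floor_le (by positivity)
  have hHX' : X / 2 < H + 1 := by rw [hH]; exact Nat.lt_floor_add_one _
  have hNH : ((N + H : ℕ) : ℝ) ≤ 2 * X := by push_cast; linarith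
  have hN2 : (N : ℝ) ≤ 2 * X := by linarith
  have hsh : ∀ k ∈ Finset.Ioc A K, fv F k ≤ H := by
    intro k hk
    rw [Finset.mem_Ioc] at hk
    have hk1 : 1 ≤ k := by omega
    have h1 := hpos k hk.1
    have h2 : ((fv F k : ℕ) : ℝ) = ((F.eval (k : ℤ) : ℤ) : ℝ) := by
      unfold fv
      have : (((F.eval (k : ℤ)).toNat : ℕ) : ℤ) = F.eval (k : ℤ) := Int.toNat_of_nonneg (by omega)
      exact_mod_cast this
    have h3 : ((F.eval (k : ℤ) : ℤ) : ℝ) ≤ CF * (k : ℝ) ^ F.natDegree :=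
      (le_abs_self _).trans (hCFb k hk1)
    have h4 : CF * (k : ℝ) ^ F.natDegree ≤ CF * (K : ℝ) ^ F.natDegree := by
      have : (k : ℝ) ≤ K := by exact_mod_cast hk.2
      gcongr
    have h5 : CF * (K : ℝ) ^ F.natDegree ≤ CF * X ^ θ := by gcongr
    have h6 : ((fv F k : ℕ) : ℝ) < H + 1 := by rw [h2]; linarith
    have h7 : fv F k < H + 1 := by exact_mod_cast h6
    omega
  obtain ⟨w, hw⟩ : ∃ w : ℝ, w = (K : ℝ) ^ (1 - δ₁) := ⟨_, rfl⟩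
  have hw0 : 0 ≤ w := by rw [hw]; positivity
  obtain ⟨Y, hY⟩ : ∃ Y : ℝ, Y = (L : ℝ) ^ 2 * X ^ (1 - δ) := ⟨_, rfl⟩
  have hY0 : 0 ≤ Y := by rw [hY]; positivity
  have hY4 : 4 / (L : ℝ) ^ 2 * Y = 4 * X ^ (1 - δ) := by
    rw [hY]; field_simp
  obtain ⟨Γ, hΓ1, hΓ2⟩ := hT1' K hK0 hK1n
  have hbad : ∀ t < N + H + L + 1, w < ‖∑ k ∈ Finset.Ioc A K,
      ee ((fv F k : ℝ) * (t : ℕ) / ((N + H + L + 1 : ℕ) : ℝ))‖ →
      ∃ g ∈ Γ, nn ((t : ℝ) / ((N + H + L + 1 : ℕ) : ℝ) - g) ≤ 1 / (8 * (L : ℝ)) := by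
    intro t ht hwt
    rw [hw] at hwt
    obtain ⟨g, hg, hgt⟩ := hΓ2 (N + H + L + 1) t ht hwt
    exact ⟨g, hg, (nn_le_abs _).trans (hgt.trans hL4)⟩
  -- pointwise bounds
  have hQ : ((⌊X ^ η₂⌋₊ : ℕ) : ℝ) ≤ X := by
    refine (Nat.floor_le (by positivity)).trans ?_
    have := Real.rpow_le_rpow_of_exponent_le hX1' (by linarith : η₂ ≤ 1)
    rwa [Real.rpow_one] at this
  have hD0 : 0 ≤ C1 * X ^ ε := by positivity
  have hdr0 : ∀ n, 0 ≤ dr r n := fun n => by unfold dr; positivity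
  have hdr : ∀ n : ℕ, 1 ≤ n → (n : ℝ) ≤ 2 * X → |dr r n| ≤ 2 * CL * X ^ ε := by
    intro n hn1 hn2
    rw [abs_of_nonneg (hdr0 n)]
    refine (hL n hn1).trans ?_
    have e1 : (n : ℝ) ^ ε ≤ (2 * X) ^ ε := Real.rpow_le_rpow (by positivity) hn2 hε.le
    rw [Real.mul_rpow (by norm_num) hX0'.le] at e1
    have e2 : (2 : ℝ) ^ ε ≤ 2 := by
      have := Real.rpow_le_rpow_of_exponent_le (by norm_num : (1 : ℝ) ≤ 2) hε3
      rwa [Real.rpow_one] at this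
    calc CL * (n : ℝ) ^ ε ≤ CL * (2 ^ ε * X ^ ε) := by gcongr
      _ ≤ CL * (2 * X ^ ε) := by gcongr
      _ = 2 * CL * X ^ ε := by ring
  have hw1 : 1 ≤ X ^ θw := Real.one_le_rpow hX1' (by linarith)
  have hwX : X ^ θw ≤ X := by
    have := Real.rpow_le_rpow_of_exponent_le hX1' (by linarith : θw ≤ 1)
    rwa [Real.rpow_one] at this
  have hup : ∀ n : ℕ, 1 ≤ n → (n : ℝ) ≤ 2 * X →
      |up r (X ^ ε₂) (X ^ θw) n| ≤ CM * X ^ ε ∧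
      |fs (Eu E (X ^ ε₂) (X ^ θw)) ⌊X ^ η₂⌋₊ n| ≤ CM * X ^ ε :=
    fun n hn1 hn2 => hM X _ _ _ n hX1' hw1 hwX hQ hn1 (by linarith)
  have hXε : 0 < X ^ ε := by positivity
  have b1 : ∀ n : ℕ, 1 ≤ n → (n : ℝ) ≤ 2 * X → |dr r n| ≤ C1 * X ^ ε := by
    intro n hn1 hn2
    refine (hdr n hn1 hn2).trans ?_
    rw [hC1def]
    nlinarith
  have b3 : ∀ n : ℕ, 1 ≤ n → (n : ℝ) ≤ 2 * X →
      |fu r E (X ^ ε₂) (X ^ θw) ⌊X ^ η₂⌋₊ n| ≤ C1 * X ^ ε := by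
    intro n hn1 hn2
    unfold fu
    refine (abs_sub _ _).trans ?_
    rw [hC1def]
    have h1 := (hup n hn1 hn2).1
    have h2 := (hup n hn1 hn2).2
    nlinarith
  obtain ⟨S, hS⟩ : ∃ S : ℝ, S = 2 * C1 ^ 2 * X ^ (1 + 2 * ε) := ⟨_, rfl⟩
  have hS0 : 0 ≤ S := by rw [hS]; positivity
  have hSeq : 2 * X * (C1 * X ^ ε) ^ 2 = S := by
    rw [hS, mul_pow, ← Real.rpow_natCast (X ^ ε) 2, ← Real.rpow_mul hX0'.le,
      Real.rpow_add hX0', Real.rpow_one]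
    push_cast
    rw [mul_comm ε 2]
    ring
  have s : ∀ (f : ℕ → ℝ) (n : ℕ), (n : ℝ) ≤ 2 * X →
      (∀ m : ℕ, 1 ≤ m → (m : ℝ) ≤ 2 * X → |f m| ≤ C1 * X ^ ε) →
      ∑ m ∈ Finset.Icc 1 n, f m ^ 2 ≤ S := by
    intro f n hn hf
    rw [← hSeq]
    refine sumsq f n X _ hn hD0 fun m hm1 hm2 => hf m hm1 ?_
    have : (m : ℝ) ≤ n := by exact_mod_cast hm2
    linarith
  have hnn : ∀ (f : ℕ → ℝ) (n : ℕ), 0 ≤ ∑ m ∈ Finset.Icc 1 n, f m ^ 2 :=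
    fun f n => Finset.sum_nonneg fun m _ => sq_nonneg _
  have hcard : ((Finset.Ioc A K).card : ℝ) ≤ K := by
    rw [Nat.card_Ioc]
    exact_mod_cast Nat.sub_le K A
  have hfin := numer (K : ℝ) X C1 δ₁ δ ε δ'' δ' θa F.natDegree hd hK1r hX1' hC1 hδ₁ hδ'0 hδ'1
    hθa0 hKX hK1 hε1 hε2 hδ1 hδ2 c3 c4
  have key : ∀ s1 s2 s3 : ℝ, 0 ≤ s1 → 0 ≤ s2 → 0 ≤ s3 → s1 ≤ S → s2 ≤ S → s3 ≤ S →
      w * s1 * s2 + ((Finset.Ioc A K).card : ℝ) * ((Γ.card : ℝ) * (4 / (L : ℝ) ^ 2 * Y)) * s3 ≤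
        K * X ^ (2 - δ'') := by
    intro s1 s2 s3 h1 h2 h3 h4 h5 h6
    refine le_trans ?_ hfin
    rw [← hS, ← hw, hY4]
    gcongr
  have h1 := (hQ5 (Finset.Ioc A K) (fv F) (fu r E (X ^ ε₂) (X ^ θw) ⌊X ^ η₂⌋₊) (dr r) N H L
    (N + H + L + 1) w Y Γ hL1 (Nat.lt_succ_self _) hsh hw0 hY0 hbad).1
    (fun γ => by rw [hY]; exact hhyp X γ N L c5 hN2 hL2 hL5)
  rw [← hN]
  exact h1.trans (key _ _ _ (hnn _ _) (hnn _ _) (hnn _ _) (s _ _ hN2 b3) (s _ _ hNH b1)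
    (s _ _ hNH b1))

end Pool.Agent.Work.MP_122e00_nt.TS
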