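import Pool.Agent.Work.MP_122e00_nt.TS.Stmts9

/-!
# Thin shifts, item Y11: few exceptions for fixed `X`
-/

set_option autoImplicit false

namespace Pool.Agent.Work.MP_122e00_nt.TS

open Finset Filter Topology ArithmeticFunction MeasureTheory
open scoped ArithmeticFunction.zeta ArithmeticFunction.Moebius

namespace IY11

lemma cheb (s : Finset ℕ) (g : ℕ → ℝ) (t T : ℝ) (p : ℕ → Prop) [DecidablePred p] (ht : 0 < t)
    (h0 : ∀ k ∈ s, 0 ≤ g k) (hp : ∀ k ∈ s, p k → t ≤ g k) (hT : ∑ k ∈ s, g k ≤ T) :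
    ((s.filter p).card : ℝ) ≤ T / t := by
  rw [le_div_iff₀ ht]
  calc ((s.filter p).card : ℝ) * t = ∑ k ∈ s.filter p, t := by
        rw [Finset.sum_const, nsmul_eq_mul]
    _ ≤ ∑ k ∈ s.filter p, g k := Finset.sum_le_sum (fun k hk => by
        rw [Finset.mem_filter] at hk; exact hp k hk.1 hk.2)
    _ ≤ ∑ k ∈ s, g k := Finset.sum_le_sum_of_subset_of_nonneg (Finset.filter_subset _ _)
        (fun k hk _ => h0 k hk)
    _ ≤ T := hT

lemma large (δ CF θ : ℝ) (B : ℕ) (hδ : 0 < δ) (hθ : θ < 1) : ∃ X0 : ℝ, ∀ X : ℝ, X0 ≤ X →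
    3 ≤ X ∧ CF ≤ X ^ ((1 - θ) / 2) ∧ (Real.log X) ^ B ≤ X ^ (δ / 2) := by
  have e1 : ∀ᶠ X : ℝ in atTop, 3 ≤ X := eventually_ge_atTop 3
  have e2 : ∀ᶠ X : ℝ in atTop, CF ≤ X ^ ((1 - θ) / 2) :=
    (tendsto_rpow_atTop (by linarith)).eventually_ge_atTop CF
  have e3 : ∀ᶠ X : ℝ in atTop, (Real.log X) ^ B ≤ X ^ (δ / 2) := by
    have h := (isLittleO_log_rpow_rpow_atTop (B : ℝ) (show 0 < δ / 2 by linarith)).bound
      (show (0 : ℝ) < 1 by norm_num)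
    filter_upwards [h, eventually_ge_atTop 1] with X hX hX1
    have hl : 0 ≤ Real.log X := Real.log_nonneg hX1
    have hX0 : 0 ≤ X := by linarith
    rw [Real.norm_eq_abs, Real.norm_eq_abs, one_mul, Real.rpow_natCast,
      abs_of_nonneg (pow_nonneg hl B), abs_of_nonneg (Real.rpow_nonneg hX0 _)] at hX
    exact hX
  obtain ⟨X0, h⟩ := eventually_atTop.1 (e1.and (e2.and e3))
  exact ⟨X0, fun X hX => h X hX⟩

lemma ta_nonneg (h : ℕ) : 0 ≤ ta h :=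
  Finset.sum_nonneg fun g _ => Real.rpow_nonneg (Nat.cast_nonneg g) _

end IY11

open Classical in
theorem prY11 (hH2 : tsH2) (hK17 : tsK17) (hY1 : tsY1) (hY8 : tsY8) (hY9 : tsY9)
    (hY10 : tsY10) : tsY11 := by
  intro r E hr hAP hCB F A hF1 hF2 hF3 θa θ η B hθa hθaθ hθ hη
  have hθ0 : 0 < θ := hθa.trans hθaθ
  obtain ⟨θw, hθw⟩ : ∃ θw : ℝ, θw = min (θa / 3) (1 / 4) := ⟨_, rfl⟩
  have hw0 : 0 < θw := by rw [hθw]; exact lt_min (by linarith) (by norm_num)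
  have hw1 : θw ≤ 1 / 4 := by rw [hθw]; exact min_le_right _ _
  have hw2 : θw ≤ θa / 3 := by rw [hθw]; exact min_le_left _ _
  obtain ⟨ε₂, η₁, hε0, hεw, hη₁, h10⟩ := hY10 r E hr hAP hCB θw ((1 + θ) / 2) η hw0 hw1
    (by linarith) (by linarith) hη
  obtain ⟨η₀, hη₀, h17⟩ := hK17 r E (by omega) hAP hCB ε₂ θw (2 * θa / 3) ((1 + θ) / 2) hε0 hεw
    (by linarith) hw1 (by linarith) (by linarith)
  obtain ⟨η₂, hη₂⟩ : ∃ η₂ : ℝ, η₂ = min (min η₁ η₀) (1 / 100) := ⟨_, rfl⟩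
  have h20 : 0 < η₂ := by rw [hη₂]; exact lt_min (lt_min hη₁ hη₀) (by norm_num)
  have h2c : η₂ ≤ 1 / 100 := by rw [hη₂]; exact min_le_right _ _
  have h2a : η₂ ≤ η₁ := by rw [hη₂]; exact (min_le_left _ _).trans (min_le_left _ _)
  have h2b : η₂ ≤ η₀ := by rw [hη₂]; exact (min_le_left _ _).trans (min_le_right _ _)
  obtain ⟨δ, X0, hδ, hSI⟩ := h17 η₂ h20 h2b
  obtain ⟨δ'', X1, hδ'', h1⟩ := hY1 r E ε₂ θw η₂ δ X0 (2 * θa / 3) ((1 + θ) / 2) θa θ hr hAP hCB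
    hε0 hεw hw1 h20 h2c hδ (by linarith) (by linarith) (by linarith) (by linarith) hSI F A hF1 hF2
    hF3
  obtain ⟨X2, h10'⟩ := h10 η₂ (δ'' / 4) h20 h2a (by linarith)
  obtain ⟨C8, h8⟩ := hY8 F A hF1 hF2 hF3
  obtain ⟨C9, hC9, h9⟩ := hY9 (2 * B)
  obtain ⟨A', c, CF, hc, hCF, -, hCF'⟩ := hH2 F hF1 hF2
  obtain ⟨X3, h3⟩ := IY11.large δ'' CF θ B hδ'' hθ
  refine ⟨1 + C9 * |C8|, max (max X1 X2) X3, by positivity, fun X K hX hXa hXb => ?_⟩
  have hX1 : X1 ≤ X := (le_max_left _ _).trans ((le_max_left _ _).trans hX)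
  have hX2 : X2 ≤ X := (le_max_right _ _).trans ((le_max_left _ _).trans hX)
  obtain ⟨hX3, hXF, hXlog⟩ := h3 X ((le_max_right _ _).trans hX)
  have hXpos : 0 < X := by linarith
  have hlog : 0 < Real.log X := Real.log_pos (by linarith)
  have hlogB : 0 < Real.log X ^ B := pow_pos hlog B
  -- `K ≥ 1`
  have hK1 : 1 ≤ K := by
    by_contra hK
    have hK0 : K = 0 := by omega
    rw [hK0, Nat.cast_zero, zero_pow (by omega)] at hXa
    exact absurd hXa (not_le.2 (Real.rpow_pos_of_pos hXpos _))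
  have hKpos : (0 : ℝ) < K := by exact_mod_cast hK1
  -- the size of the shifts
  have hsize : ∀ k ∈ Finset.Ioc A K, 1 ≤ fv F k ∧ ((fv F k : ℕ) : ℝ) ≤ X ^ ((1 + θ) / 2) := by
    intro k hk
    rw [Finset.mem_Ioc] at hk
    have hF := hF3 k hk.1
    have hcast : ((fv F k : ℕ) : ℤ) = F.eval (k : ℤ) := by
      unfold fv
      exact Int.toNat_of_nonneg (by omega)
    have h1' : 1 ≤ fv F k := by omega
    refine ⟨h1', ?_⟩
    have hcastR : ((fv F k : ℕ) : ℝ) = ((F.eval (k : ℤ) : ℤ) : ℝ) := by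
      rw [← hcast]; push_cast; rfl
    rw [hcastR]
    have hk1 : 1 ≤ k := by omega
    calc ((F.eval (k : ℤ) : ℤ) : ℝ) ≤ |((F.eval (k : ℤ) : ℤ) : ℝ)| := le_abs_self _
      _ ≤ CF * (k : ℝ) ^ F.natDegree := hCF' k hk1
      _ ≤ CF * (K : ℝ) ^ F.natDegree := by
          have : (k : ℝ) ≤ K := by exact_mod_cast hk.2
          gcongr
      _ ≤ X ^ ((1 - θ) / 2) * X ^ θ := by
          gcongr
      _ = X ^ ((1 + θ) / 2) := by
          rw [← Real.rpow_add hXpos]; congr 1; ring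
  -- the two exceptional sets
  have hsub : (Finset.Ioc A K).filter (fun k => ¬ Gx r η X (fv F k)) ⊆
      (Finset.Ioc A K).filter (fun k => X ^ (1 - δ'' / 4) <
        |cor (fu r E (X ^ ε₂) (X ^ θw) ⌊X ^ η₂⌋₊) (dr r) ⌊X⌋₊ (fv F k)|) ∪
      (Finset.Ioc A K).filter (fun k => Real.log X ^ (1 / 2 : ℝ) < ta (fv F k)) := by
    intro k hk
    rw [Finset.mem_filter] at hk
    rw [Finset.mem_union, Finset.mem_filter, Finset.mem_filter]
    by_contra hcon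
    push Not at hcon
    obtain ⟨hc1, hc2⟩ := hcon
    obtain ⟨hs1, hs2⟩ := hsize k hk.1
    exact hk.2 (h10' X (fv F k) hX2 hs1 hs2 (hc2 hk.1) (hc1 hk.1))
  have hcard1 : (((Finset.Ioc A K).filter (fun k => X ^ (1 - δ'' / 4) <
        |cor (fu r E (X ^ ε₂) (X ^ θw) ⌊X ^ η₂⌋₊) (dr r) ⌊X⌋₊ (fv F k)|)).card : ℝ) ≤
      K / Real.log X ^ B := by
    have hc := IY11.cheb (Finset.Ioc A K)
      (fun k => cor (fu r E (X ^ ε₂) (X ^ θw) ⌊X ^ η₂⌋₊) (dr r) ⌊X⌋₊ (fv F k) ^ 2)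
      (X ^ (2 - δ'' / 2)) (K * X ^ (2 - δ''))
      (fun k => X ^ (1 - δ'' / 4) <
        |cor (fu r E (X ^ ε₂) (X ^ θw) ⌊X ^ η₂⌋₊) (dr r) ⌊X⌋₊ (fv F k)|)
      (Real.rpow_pos_of_pos hXpos _) (fun k _ => sq_nonneg _)
      (fun k _ hk => by
        have e1 : X ^ (2 - δ'' / 2) = (X ^ (1 - δ'' / 4)) ^ 2 := by
          rw [← Real.rpow_natCast, ← Real.rpow_mul hXpos.le]; congr 1; push_cast; ring
        rw [e1, ← sq_abs (cor _ _ _ _)]
        exact pow_le_pow_left₀ (Real.rpow_nonneg hXpos.le _) hk.le 2)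
      (h1 X K hX1 hXa hXb)
    refine hc.trans ?_
    have e2 : X ^ (2 - δ'') = X ^ (2 - δ'' / 2) * (X ^ (δ'' / 2))⁻¹ := by
      rw [← Real.rpow_neg hXpos.le, ← Real.rpow_add hXpos]; congr 1; ring
    have hp1 : 0 < X ^ (2 - δ'' / 2) := Real.rpow_pos_of_pos hXpos _
    have hp2 : 0 < X ^ (δ'' / 2) := Real.rpow_pos_of_pos hXpos _
    have e3 : (K : ℝ) * X ^ (2 - δ'') / X ^ (2 - δ'' / 2) = K / X ^ (δ'' / 2) := by
      rw [e2]; field_simp
    rw [e3]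
    exact div_le_div_of_nonneg_left hKpos.le hlogB hXlog
  have hcard2 : (((Finset.Ioc A K).filter (fun k => Real.log X ^ (1 / 2 : ℝ) <
      ta (fv F k))).card : ℝ) ≤ C9 * |C8| * K / Real.log X ^ B := by
    have hsum : ∑ k ∈ Finset.Ioc A K, ta (fv F k) ^ (2 * B) ≤ C9 * |C8| * K := by
      calc ∑ k ∈ Finset.Ioc A K, ta (fv F k) ^ (2 * B)
          ≤ ∑ k ∈ Finset.Ioc A K, C9 * ∑ L ∈ (fv F k).divisors, (L : ℝ) ^ (-(1 / 4) : ℝ) :=
            Finset.sum_le_sum fun k hk => h9 (fv F k) (hsize k hk).1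
        _ = C9 * ∑ k ∈ Finset.Ioc A K, ∑ L ∈ (fv F k).divisors, (L : ℝ) ^ (-(1 / 4) : ℝ) := by
            rw [Finset.mul_sum]
        _ ≤ C9 * (C8 * K) := mul_le_mul_of_nonneg_left (h8 K hK1) hC9.le
        _ ≤ C9 * (|C8| * K) := by
            have := le_abs_self C8
            gcongr
        _ = C9 * |C8| * K := by ring
    refine IY11.cheb (Finset.Ioc A K) (fun k => ta (fv F k) ^ (2 * B)) (Real.log X ^ B)
      (C9 * |C8| * K) (fun k => Real.log X ^ (1 / 2 : ℝ) < ta (fv F k)) hlogB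
      (fun k _ => pow_nonneg (IY11.ta_nonneg _) _) (fun k _ hk => ?_) hsum
    have e1 : Real.log X ^ B = (Real.log X ^ (1 / 2 : ℝ)) ^ (2 * B) := by
      rw [pow_mul]
      congr 1
      rw [← Real.rpow_natCast, ← Real.rpow_mul hlog.le]
      norm_num
    rw [e1]
    exact pow_le_pow_left₀ (Real.rpow_nonneg hlog.le _) (le_of_lt hk) _
  calc (((Finset.Ioc A K).filter (fun k => ¬ Gx r η X (fv F k))).card : ℝ)
      ≤ (((Finset.Ioc A K).filter (fun k => X ^ (1 - δ'' / 4) <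
          |cor (fu r E (X ^ ε₂) (X ^ θw) ⌊X ^ η₂⌋₊) (dr r) ⌊X⌋₊ (fv F k)|) ∪
        (Finset.Ioc A K).filter (fun k => Real.log X ^ (1 / 2 : ℝ) < ta (fv F k))).card : ℝ) := by
          exact_mod_cast Finset.card_le_card hsub
    _ ≤ (((Finset.Ioc A K).filter (fun k => X ^ (1 - δ'' / 4) <
          |cor (fu r E (X ^ ε₂) (X ^ θw) ⌊X ^ η₂⌋₊) (dr r) ⌊X⌋₊ (fv F k)|)).card : ℝ) +
        (((Finset.Ioc A K).filter (fun k => Real.log X ^ (1 / 2 : ℝ) < ta (fv F k))).card : ℝ) := by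
          exact_mod_cast Finset.card_union_le _ _
    _ ≤ K / Real.log X ^ B + C9 * |C8| * K / Real.log X ^ B := add_le_add hcard1 hcard2
    _ = (1 + C9 * |C8|) * K / Real.log X ^ B := by ring

end Pool.Agent.Work.MP_122e00_nt.TS
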