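import Pool.Agent.Work.MP_122e00_nt.TS.Stmts9

/-!
Item Y13 of block TS: from dyadic blocks to `[1, K]`.
-/

namespace Pool.Agent.Work.MP_122e00_nt.TS

namespace IY13

theorem fin1 (S : Set ℕ) (K : ℕ) : {k : ℕ | k ∈ S ∧ 1 ≤ k ∧ k ≤ K}.Finite :=
  (Set.finite_Icc 1 K).subset fun _ hk => ⟨hk.2.1, hk.2.2⟩

theorem fin2 (S : Set ℕ) (K : ℕ) : {k : ℕ | k ∈ S ∧ K < 2 * k ∧ k ≤ K}.Finite :=
  (Set.finite_Icc 0 K).subset fun _ hk => ⟨Nat.zero_le _, hk.2.2⟩

theorem trivial_bound (S : Set ℕ) (K : ℕ) :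
    Set.ncard {k : ℕ | k ∈ S ∧ 1 ≤ k ∧ k ≤ K} ≤ K := by
  have h1 : Set.ncard {k : ℕ | k ∈ S ∧ 1 ≤ k ∧ k ≤ K} ≤ (Set.Icc 1 K).ncard :=
    Set.ncard_le_ncard (fun _ hk => ⟨hk.2.1, hk.2.2⟩) (Set.finite_Icc 1 K)
  have h2 : (Set.Icc 1 K).ncard = K := by
    rw [← Finset.coe_Icc, Set.ncard_coe_finset, Nat.card_Icc, Nat.add_sub_cancel]
  omega

theorem split (S : Set ℕ) (K : ℕ) :
    Set.ncard {k : ℕ | k ∈ S ∧ 1 ≤ k ∧ k ≤ K} ≤
      Set.ncard {k : ℕ | k ∈ S ∧ 1 ≤ k ∧ k ≤ K / 2} +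
        Set.ncard {k : ℕ | k ∈ S ∧ K < 2 * k ∧ k ≤ K} := by
  refine le_trans (Set.ncard_le_ncard ?_ ((fin1 S (K / 2)).union (fin2 S K)))
    (Set.ncard_union_le _ _)
  rintro k ⟨hS, h1, h2⟩
  by_cases h : K < 2 * k
  · exact Or.inr ⟨hS, h, h2⟩
  · exact Or.inl ⟨hS, h1, by omega⟩

theorem log_bound (B : ℕ) (x c : ℝ) (hc : 0 < c) (hx : 3 * ((B : ℝ) + 1) * c ≤ x) :
    x ^ B ≤ 3 / 2 * (x - c) ^ B := by
  have hB : (0 : ℝ) ≤ (B : ℝ) := Nat.cast_nonneg B
  have hx0 : 0 < x := lt_of_lt_of_le (by positivity) hx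
  have hcx : c / x ≤ 1 / (3 * ((B : ℝ) + 1)) := by
    rw [div_le_div_iff₀ hx0 (by positivity)]
    linarith
  have h13 : 1 / (3 * ((B : ℝ) + 1)) ≤ 1 := by
    rw [div_le_one (by positivity)]
    linarith
  have h1 : 1 + (B : ℝ) * (-(c / x)) ≤ (1 + -(c / x)) ^ B :=
    one_add_mul_le_pow (by linarith) B
  have h2 : (B : ℝ) * (c / x) ≤ 1 / 3 := by
    calc (B : ℝ) * (c / x) ≤ B * (1 / (3 * ((B : ℝ) + 1))) := mul_le_mul_of_nonneg_left hcx hB
      _ ≤ 1 / 3 := by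
          rw [mul_one_div, div_le_div_iff₀ (by positivity) (by norm_num)]
          linarith
  have h3 : 2 / 3 ≤ (1 + -(c / x)) ^ B := by linarith
  have h4 : (x - c) ^ B = x ^ B * (1 + -(c / x)) ^ B := by
    rw [← mul_pow]
    congr 1
    field_simp
    ring
  rw [h4]
  have h5 : 0 < x ^ B := by positivity
  nlinarith

end IY13

theorem prY13 : tsY13 := by
  intro S C K0 B hyp
  have hl3 : 0 < Real.log 3 := Real.log_pos (by norm_num)
  obtain ⟨N1, hN1⟩ := exists_nat_ge K0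
  obtain ⟨N2, hN2⟩ := exists_nat_ge (Real.exp (3 * ((B : ℝ) + 1) * Real.log 3))
  set K1 : ℕ := max N1 (max N2 9) with hK1
  refine ⟨max (4 * |C|) (Real.log K1 ^ B), ?_⟩
  set C' : ℝ := max (4 * |C|) (Real.log K1 ^ B) with hC'
  have hC'1 : 4 * |C| ≤ C' := le_max_left _ _
  have hC'2 : Real.log K1 ^ B ≤ C' := le_max_right _ _
  have hC'0 : 0 ≤ C' := le_trans (by positivity) hC'1
  intro K
  induction K using Nat.strong_induction_on with
  | _ K ih =>
    intro hK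
    have hKr : (2 : ℝ) ≤ (K : ℝ) := by exact_mod_cast hK
    have hlogK : 0 < Real.log K := Real.log_pos (by linarith)
    have hpow : 0 < Real.log K ^ B := pow_pos hlogK B
    rcases Nat.lt_or_ge K K1 with hlt | hge
    · rw [le_div_iff₀ hpow]
      have h1 : (Set.ncard {k : ℕ | k ∈ S ∧ 1 ≤ k ∧ k ≤ K} : ℝ) ≤ (K : ℝ) := by
        exact_mod_cast IY13.trivial_bound S K
      have h2 : Real.log K ^ B ≤ C' := by
        refine le_trans (pow_le_pow_left₀ hlogK.le ?_ B) hC'2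
        exact Real.log_le_log (by linarith) (by exact_mod_cast hlt.le)
      calc (Set.ncard {k : ℕ | k ∈ S ∧ 1 ≤ k ∧ k ≤ K} : ℝ) * Real.log K ^ B
          ≤ (K : ℝ) * C' := mul_le_mul h1 h2 hpow.le (by positivity)
        _ = C' * K := mul_comm _ _
    · have hge1 : N1 ≤ K := le_trans (le_max_left _ _) hge
      have hge2 : N2 ≤ K := le_trans (le_trans (le_max_left _ _) (le_max_right _ _)) hge
      have hge9 : 9 ≤ K := le_trans (le_trans (le_max_right _ _) (le_max_right _ _)) hge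
      have hK0 : K0 ≤ (K : ℝ) := le_trans hN1 (by exact_mod_cast hge1)
      have hKexp : Real.exp (3 * ((B : ℝ) + 1) * Real.log 3) ≤ (K : ℝ) :=
        le_trans hN2 (by exact_mod_cast hge2)
      have hKlog : 3 * ((B : ℝ) + 1) * Real.log 3 ≤ Real.log K := by
        rw [← Real.log_exp (3 * ((B : ℝ) + 1) * Real.log 3)]
        exact Real.log_le_log (Real.exp_pos _) hKexp
      have h1 := hyp K hK0 hK
      have h2 := ih (K / 2) (by omega) (by omega)
      have h3 : (Set.ncard {k : ℕ | k ∈ S ∧ 1 ≤ k ∧ k ≤ K} : ℝ) ≤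
          (Set.ncard {k : ℕ | k ∈ S ∧ 1 ≤ k ∧ k ≤ K / 2} : ℝ) +
            (Set.ncard {k : ℕ | k ∈ S ∧ K < 2 * k ∧ k ≤ K} : ℝ) := by
        exact_mod_cast IY13.split S K
      have hhalf : (K : ℝ) / 3 ≤ ((K / 2 : ℕ) : ℝ) := by
        have h4 : K ≤ 3 * (K / 2) := by omega
        have h5 : (K : ℝ) ≤ 3 * ((K / 2 : ℕ) : ℝ) := by exact_mod_cast h4
        linarith
      have hhalf2 : ((K / 2 : ℕ) : ℝ) ≤ (K : ℝ) / 2 := Nat.cast_div_le
      have hlog3 : Real.log K - Real.log 3 ≤ Real.log ((K / 2 : ℕ) : ℝ) := by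
        rw [← Real.log_div (by linarith) (by norm_num)]
        exact Real.log_le_log (by positivity) hhalf
      have hpos3 : 0 < Real.log K - Real.log 3 := by
        have : (0 : ℝ) ≤ (B : ℝ) := Nat.cast_nonneg B
        nlinarith
      have h6 : Real.log K ^ B ≤ 3 / 2 * Real.log ((K / 2 : ℕ) : ℝ) ^ B := by
        refine le_trans (IY13.log_bound B (Real.log K) (Real.log 3) hl3 hKlog) ?_
        exact mul_le_mul_of_nonneg_left (pow_le_pow_left₀ hpos3.le hlog3 B) (by norm_num)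
      have h7 : C' * ((K / 2 : ℕ) : ℝ) / Real.log ((K / 2 : ℕ) : ℝ) ^ B ≤
          3 / 4 * (C' * K / Real.log K ^ B) := by
        have h8 : 0 < Real.log ((K / 2 : ℕ) : ℝ) ^ B := pow_pos (lt_of_lt_of_le hpos3 hlog3) B
        have h9 : 3 / 4 * (C' * K / Real.log K ^ B) = (3 / 4 * (C' * K)) / Real.log K ^ B := by
          ring
        rw [h9, div_le_div_iff₀ h8 hpow]
        calc C' * ((K / 2 : ℕ) : ℝ) * Real.log K ^ B
            ≤ C' * ((K : ℝ) / 2) * (3 / 2 * Real.log ((K / 2 : ℕ) : ℝ) ^ B) :=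
              mul_le_mul (mul_le_mul_of_nonneg_left hhalf2 hC'0) h6 hpow.le (by positivity)
          _ = 3 / 4 * (C' * K) * Real.log ((K / 2 : ℕ) : ℝ) ^ B := by ring
      have h10 : C * K / Real.log K ^ B ≤ 1 / 4 * (C' * K / Real.log K ^ B) := by
        have h11 : 1 / 4 * (C' * K / Real.log K ^ B) = (1 / 4 * C') * K / Real.log K ^ B := by
          ring
        rw [h11]
        apply div_le_div_of_nonneg_right _ hpow.le
        apply mul_le_mul_of_nonneg_right _ (by positivity)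
        have := le_abs_self C
        linarith
      linarith

end Pool.Agent.Work.MP_122e00_nt.TS
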