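import Mathlib
import Pool.Agent.Work.MP_122e00_nt.TS.Stmts9

/-!
# Item Y14: one set for all parameters
-/

namespace Pool.Agent.Work.MP_122e00_nt.TS

open Finset Filter Topology

namespace IY14

theorem fin (S : Set ℕ) (K : ℕ) : {k : ℕ | k ∈ S ∧ 1 ≤ k ∧ k ≤ K}.Finite :=
  (Set.finite_Icc 1 K).subset fun _ hk => hk.2

theorem ncard_le (S : Set ℕ) (K : ℕ) : ({k : ℕ | k ∈ S ∧ 1 ≤ k ∧ k ≤ K}.ncard : ℝ) ≤ K := by
  have h1 : {k : ℕ | k ∈ S ∧ 1 ≤ k ∧ k ≤ K}.ncard ≤ (Set.Icc 1 K).ncard :=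
    Set.ncard_le_ncard (fun _ hk => hk.2) (Set.finite_Icc 1 K)
  have h2 : (Set.Icc 1 K).ncard = K := by
    rw [← Nat.card_coe_set_eq]
    simp
  rw [h2] at h1
  exact_mod_cast h1

theorem one_le_log {K : ℕ} (hK : 3 ≤ K) : 1 ≤ Real.log K := by
  rw [Real.le_log_iff_exp_le (by positivity)]
  have h1 := Real.exp_one_lt_d9
  have h2 : (3 : ℝ) ≤ K := by exact_mod_cast hK
  linarith

/-- the index of the block of `K` -/
theorem exists_block (M : ℕ → ℕ) (hM : StrictMono M) (K : ℕ) (hK : M 0 ≤ K) :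
    ∃ J, M J ≤ K ∧ K < M (J + 1) := by
  classical
  have hex : ∃ J, K < M (J + 1) := ⟨K, hM.le_apply⟩
  refine ⟨Nat.find hex, ?_, Nat.find_spec hex⟩
  rcases Nat.eq_zero_or_pos (Nat.find hex) with h | h
  · rwa [h]
  · have h1 := Nat.find_min hex (m := Nat.find hex - 1) (by omega)
    rw [Nat.sub_add_cancel h] at h1
    exact not_lt.1 h1

theorem exists_start (S : Set ℕ) (j : ℕ)
    (h : ∃ C : ℝ, ∀ K : ℕ, 2 ≤ K → (Set.ncard {k : ℕ | k ∈ S ∧ 1 ≤ k ∧ k ≤ K} : ℝ) ≤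
      C * K / Real.log K ^ (j + 1)) :
    ∃ N : ℕ, 3 ≤ N ∧ ∀ K : ℕ, N ≤ K →
      (Set.ncard {k : ℕ | k ∈ S ∧ 1 ≤ k ∧ k ≤ K} : ℝ) ≤ K / Real.log K ^ j := by
  obtain ⟨C, hC⟩ := h
  refine ⟨max 3 ⌈Real.exp C⌉₊, le_max_left _ _, fun K hK => ?_⟩
  have hK3 : 3 ≤ K := (le_max_left _ _).trans hK
  have hKC : Real.exp C ≤ K := (Nat.le_ceil _).trans (by exact_mod_cast (le_max_right _ _).trans hK)
  have hlog := one_le_log hK3
  have hlog0 : 0 < Real.log K := by linarith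
  have hCl : C ≤ Real.log K := (Real.le_log_iff_exp_le (by positivity)).2 hKC
  refine (hC K (by omega)).trans ?_
  rw [div_le_div_iff₀ (by positivity) (by positivity), pow_succ]
  have h1 : 0 ≤ (K : ℝ) * Real.log K ^ j := by positivity
  nlinarith [mul_le_mul_of_nonneg_right hCl h1]

end IY14

open IY14 in
/-- Item Y14. -/
theorem prY14 : tsY14 := by
  intro S hS hb
  have hmono : ∀ i j, i ≤ j → S i ⊆ S j := by
    intro i j hij
    induction hij with
    | refl => exact subset_rfl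
    | step _ ih => exact ih.trans (hS _)
  choose N hN3 hN using fun j => exists_start (S j) j (hb j (j + 1))
  let M : ℕ → ℕ := fun j => ∑ i ∈ Finset.range (j + 1), N i
  have hM : StrictMono M := by
    apply strictMono_nat_of_lt_succ
    intro j
    show ∑ i ∈ Finset.range (j + 1), N i < ∑ i ∈ Finset.range (j + 1 + 1), N i
    rw [Finset.sum_range_succ _ (j + 1)]
    have := hN3 (j + 1)
    omega
  have hNM : ∀ j, N j ≤ M j := fun j =>
    Finset.single_le_sum (f := N) (fun _ _ => Nat.zero_le _) (Finset.self_mem_range_succ j)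
  let T : Set ℕ := {k | ∃ j, M j ≤ k ∧ k < M (j + 1) ∧ k ∈ S j}
  have hmain : ∀ J K : ℕ, M J ≤ K → K < M (J + 1) →
      (Set.ncard {k : ℕ | k ∈ T ∧ 1 ≤ k ∧ k ≤ K} : ℝ) ≤ K / Real.log K ^ J := by
    intro J K h1 h2
    have h3 : {k : ℕ | k ∈ T ∧ 1 ≤ k ∧ k ≤ K} ⊆ {k : ℕ | k ∈ S J ∧ 1 ≤ k ∧ k ≤ K} := by
      rintro k ⟨⟨j, hj1, _, hj3⟩, hk1, hk2⟩
      refine ⟨?_, hk1, hk2⟩
      have h4 : j < J + 1 := hM.lt_iff_lt.1 ((hj1.trans hk2).trans_lt h2)
      exact hmono j J (by omega) hj3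
    have h5 : Set.ncard {k : ℕ | k ∈ T ∧ 1 ≤ k ∧ k ≤ K} ≤
        Set.ncard {k : ℕ | k ∈ S J ∧ 1 ≤ k ∧ k ≤ K} := Set.ncard_le_ncard h3 (fin _ _)
    exact (Nat.cast_le.2 h5).trans (hN J K ((hNM J).trans h1))
  refine ⟨T, ?_, ?_⟩
  · intro B
    refine ⟨1 + Real.log (M B) ^ B, fun K hK => ?_⟩
    have hMB3 : 3 ≤ M B := (hN3 B).trans (hNM B)
    have hlB : 0 ≤ Real.log (M B) := by linarith [one_le_log hMB3]
    have hK0 : (0 : ℝ) ≤ K := Nat.cast_nonneg K
    have hlogpos : 0 < Real.log K := Real.log_pos (by exact_mod_cast (by omega : 1 < K))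
    have hpow : 0 < Real.log K ^ B := by positivity
    by_cases hKB : M B ≤ K
    · obtain ⟨J, h1, h2⟩ := exists_block M hM K ((hM.monotone (Nat.zero_le B)).trans hKB)
      have h3 : B < J + 1 := hM.lt_iff_lt.1 (hKB.trans_lt h2)
      have h4 : 1 ≤ Real.log K := one_le_log (hMB3.trans hKB)
      have h5 : Real.log K ^ B ≤ Real.log K ^ J := pow_le_pow_right₀ h4 (by omega)
      refine (hmain J K h1 h2).trans ?_
      refine (div_le_div_of_nonneg_left hK0 hpow h5).trans ?_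
      apply div_le_div_of_nonneg_right _ hpow.le
      have h6 : 0 ≤ Real.log (M B) ^ B := by positivity
      nlinarith [mul_nonneg h6 hK0]
    · push Not at hKB
      refine (ncard_le T K).trans ?_
      rw [le_div_iff₀ hpow]
      have h1 : Real.log K ≤ Real.log (M B) :=
        Real.log_le_log (by positivity) (by exact_mod_cast hKB.le)
      have h2 : Real.log K ^ B ≤ Real.log (M B) ^ B := pow_le_pow_left₀ hlogpos.le h1 B
      nlinarith [mul_le_mul_of_nonneg_left h2 hK0]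
  · intro j
    refine ⟨M j, fun k hk hkS => ?_⟩
    obtain ⟨J, h1, h2⟩ := exists_block M hM k ((hM.monotone (Nat.zero_le j)).trans hk)
    have h3 : j < J + 1 := hM.lt_iff_lt.1 (hk.trans_lt h2)
    exact ⟨J, h1, h2, hmono j J (by omega) hkS⟩

end Pool.Agent.Work.MP_122e00_nt.TS
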