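import Mathlib
import Pool.Agent.Work.MP_122e00_nt.TS.Stmts9

/-!
# Item Y5: the integral for one `q`
-/

set_option autoImplicit false

namespace Pool.Agent.Work.MP_122e00_nt.TS

open Finset Filter Topology ArithmeticFunction MeasureTheory
open scoped ArithmeticFunction.zeta ArithmeticFunction.Moebius

namespace IY5

/-- evaluation of a polynomial against its leading term -/
theorem eval_top (k : ℕ) (P : Polynomial ℝ) (B L T : ℝ) (hP : P.natDegree ≤ k + 1)
    (hB : ∀ j, |P.coeff j| ≤ B) (hL : 1 ≤ L) (hT : |T| ≤ L) :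
    |P.eval T - P.coeff (k + 1) * T ^ (k + 1)| ≤ (k + 1) * B * L ^ k := by
  have hB0 : 0 ≤ B := le_trans (abs_nonneg _) (hB 0)
  have h1 : P.eval T = ∑ j ∈ Finset.range (k + 2), P.coeff j * T ^ j :=
    Polynomial.eval_eq_sum_range' (by omega) T
  rw [h1, Finset.sum_range_succ, add_sub_cancel_right]
  calc |∑ j ∈ Finset.range (k + 1), P.coeff j * T ^ j|
      ≤ ∑ j ∈ Finset.range (k + 1), |P.coeff j * T ^ j| := Finset.abs_sum_le_sum_abs _ _
    _ ≤ ∑ _j ∈ Finset.range (k + 1), B * L ^ k := by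
        refine Finset.sum_le_sum fun j hj => ?_
        have hj' : j ≤ k := Nat.lt_succ_iff.mp (Finset.mem_range.mp hj)
        rw [abs_mul, abs_pow]
        refine mul_le_mul (hB j) ?_ (by positivity) hB0
        calc |T| ^ j ≤ L ^ j := pow_le_pow_left₀ (abs_nonneg _) hT j
          _ ≤ L ^ k := pow_le_pow_right₀ hL hj'
    _ = (k + 1) * B * L ^ k := by
        rw [Finset.sum_const, Finset.card_range, nsmul_eq_mul]
        push_cast
        ring

/-- the derivative -/
theorem eval_der (k : ℕ) (P : Polynomial ℝ) (B L T : ℝ) (hP : P.natDegree ≤ k + 1)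
    (hB : ∀ j, |P.coeff j| ≤ B) (hL : 1 ≤ L) (hT : |T| ≤ L) :
    |(Polynomial.derivative P).eval T| ≤ (k + 1) ^ 2 * B * L ^ k := by
  have hB0 : 0 ≤ B := le_trans (abs_nonneg _) (hB 0)
  have hd : (Polynomial.derivative P).natDegree ≤ k :=
    le_trans (Polynomial.natDegree_derivative_le P) (by omega)
  have h1 : (Polynomial.derivative P).eval T
      = ∑ j ∈ Finset.range (k + 1), (Polynomial.derivative P).coeff j * T ^ j :=
    Polynomial.eval_eq_sum_range' (by omega) T
  rw [h1]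
  calc |∑ j ∈ Finset.range (k + 1), (Polynomial.derivative P).coeff j * T ^ j|
      ≤ ∑ j ∈ Finset.range (k + 1), |(Polynomial.derivative P).coeff j * T ^ j| :=
        Finset.abs_sum_le_sum_abs _ _
    _ ≤ ∑ _j ∈ Finset.range (k + 1), (B * (k + 1)) * L ^ k := by
        refine Finset.sum_le_sum fun j hj => ?_
        have hj' : j ≤ k := Nat.lt_succ_iff.mp (Finset.mem_range.mp hj)
        rw [abs_mul, abs_pow, Polynomial.coeff_derivative, abs_mul]
        have hjk : |((j : ℝ) + 1)| ≤ (k : ℝ) + 1 := by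
          rw [abs_of_nonneg (by positivity)]
          have : (j : ℝ) ≤ k := by exact_mod_cast hj'
          linarith
        refine mul_le_mul (mul_le_mul (hB _) hjk (abs_nonneg _) hB0) ?_ (by positivity)
          (by positivity)
        calc |T| ^ j ≤ L ^ j := pow_le_pow_left₀ (abs_nonneg _) hT j
          _ ≤ L ^ k := pow_le_pow_right₀ hL hj'
    _ = (k + 1) ^ 2 * B * L ^ k := by
        rw [Finset.sum_const, Finset.card_range, nsmul_eq_mul]
        push_cast
        ring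

/-- both together -/
theorem ed_top (k : ℕ) (P : Polynomial ℝ) (B L T : ℝ) (hP : P.natDegree ≤ k + 1)
    (hB : ∀ j, |P.coeff j| ≤ B) (hL : 1 ≤ L) (hT : |T| ≤ L) :
    |(ed P).eval T - P.coeff (k + 1) * T ^ (k + 1)| ≤ 2 * (k + 1) ^ 2 * B * L ^ k := by
  have hB0 : 0 ≤ B := le_trans (abs_nonneg _) (hB 0)
  have h1 := eval_top k P B L T hP hB hL hT
  have h2 := eval_der k P B L T hP hB hL hT
  have h3 : (ed P).eval T - P.coeff (k + 1) * T ^ (k + 1)
      = (P.eval T - P.coeff (k + 1) * T ^ (k + 1)) + (Polynomial.derivative P).eval T := by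
    unfold ed
    rw [Polynomial.eval_add]
    ring
  rw [h3]
  have hk : ((k : ℝ) + 1) * B * L ^ k ≤ ((k : ℝ) + 1) ^ 2 * B * L ^ k := by
    have hL0 : 0 ≤ L ^ k := by positivity
    have hk1 : (1 : ℝ) ≤ (k : ℝ) + 1 := by
      have : (0 : ℝ) ≤ k := Nat.cast_nonneg k
      linarith
    have : ((k : ℝ) + 1) ≤ ((k : ℝ) + 1) ^ 2 := by nlinarith
    exact mul_le_mul_of_nonneg_right (mul_le_mul_of_nonneg_right this hB0) hL0
  calc |(P.eval T - P.coeff (k + 1) * T ^ (k + 1)) + (Polynomial.derivative P).eval T|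
      ≤ |P.eval T - P.coeff (k + 1) * T ^ (k + 1)| + |(Polynomial.derivative P).eval T| :=
        abs_add_le _ _
    _ ≤ ((k : ℝ) + 1) * B * L ^ k + ((k : ℝ) + 1) ^ 2 * B * L ^ k := add_le_add h1 h2
    _ ≤ ((k : ℝ) + 1) ^ 2 * B * L ^ k + ((k : ℝ) + 1) ^ 2 * B * L ^ k := by linarith
    _ = 2 * (k + 1) ^ 2 * B * L ^ k := by ring

/-- the model with a window prime -/
theorem ed_Eu (E : ℕ → Polynomial ℝ) (z w : ℝ) (q : ℕ) (T : ℝ) :
    (ed (Eu E z w q)).eval T
      = ∑ p ∈ PW z w, 1 / (p : ℝ) * (ed (E q)).eval (T - Real.log p) := by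
  unfold ed Eu
  rw [Polynomial.derivative_sum, Polynomial.eval_add, Polynomial.eval_finset_sum,
    Polynomial.eval_finset_sum, ← Finset.sum_add_distrib]
  refine Finset.sum_congr rfl fun p _ => ?_
  rw [Polynomial.derivative_C_mul, Polynomial.derivative_comp]
  simp only [Polynomial.eval_mul, Polynomial.eval_C, Polynomial.eval_comp, Polynomial.eval_sub,
    Polynomial.eval_X, Polynomial.derivative_sub, Polynomial.derivative_X,
    Polynomial.derivative_C, Polynomial.eval_one, Polynomial.eval_zero, Polynomial.eval_add]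
  ring

/-- the primes of the window -/
theorem PW_log {X z w : ℝ} (hw : 1 ≤ w) (hwX : w ≤ X) {p : ℕ} (hp : p ∈ PW z w) :
    0 ≤ Real.log p ∧ Real.log p ≤ Real.log X ∧ (0 : ℝ) < p := by
  unfold PW at hp
  obtain ⟨h1, h2⟩ := Finset.mem_filter.mp hp
  have h3 := (Finset.mem_Icc.mp h1).2
  have h4 : 1 ≤ p := (Finset.mem_Icc.mp h1).1
  have h5 : (p : ℝ) ≤ w := le_trans (by exact_mod_cast h3) (Nat.floor_le (by linarith))
  have h6 : (1 : ℝ) ≤ p := by exact_mod_cast h4
  exact ⟨Real.log_nonneg h6, Real.log_le_log (by linarith) (by linarith), by linarith⟩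

/-- the polynomial of the main term -/
noncomputable def Hp (k : ℕ) (z w : ℝ) : Polynomial ℝ :=
  (∑ p ∈ PW z w, Polynomial.C (1 / (p : ℝ)) *
    (Polynomial.X - Polynomial.C (Real.log p)) ^ (k + 1)) * Polynomial.X ^ (k + 1)

theorem Hp_eval (k : ℕ) (z w T : ℝ) : (Hp k z w).eval T
    = (∑ p ∈ PW z w, 1 / (p : ℝ) * (T - Real.log p) ^ (k + 1)) * T ^ (k + 1) := by
  unfold Hp
  rw [Polynomial.eval_mul, Polynomial.eval_finset_sum]
  simp

theorem Hp_zero (k : ℕ) (z w : ℝ) : (Hp k z w).eval 0 = 0 := by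
  rw [Hp_eval]
  simp

theorem Hp_der (k : ℕ) (z w T : ℝ) : (Polynomial.derivative (Hp k z w)).eval T
    = (∑ p ∈ PW z w, 1 / (p : ℝ) * ((k + 1) * (T - Real.log p) ^ k)) * T ^ (k + 1)
      + (∑ p ∈ PW z w, 1 / (p : ℝ) * (T - Real.log p) ^ (k + 1)) * ((k + 1) * T ^ k) := by
  unfold Hp
  rw [Polynomial.derivative_mul, Polynomial.eval_add, Polynomial.eval_mul, Polynomial.eval_mul,
    Polynomial.derivative_sum, Polynomial.eval_finset_sum, Polynomial.eval_finset_sum]
  congr 1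
  · congr 1
    · refine Finset.sum_congr rfl fun p _ => ?_
      rw [Polynomial.derivative_C_mul, Polynomial.derivative_pow]
      simp
    · simp
  · congr 1
    · refine Finset.sum_congr rfl fun p _ => ?_
      simp
    · rw [Polynomial.derivative_X_pow]
      simp

/-- `t P(log t)` is a primitive of `(ed P)(log t)` -/
theorem ftc (P : Polynomial ℝ) (X : ℝ) (hX : 1 ≤ X) :
    ∫ t in (1 : ℝ)..X, (ed P).eval (Real.log t) = X * P.eval (Real.log X) - P.eval 0 := by
  have hd : ∀ t ∈ Set.uIcc (1 : ℝ) X,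
      HasDerivAt (fun t => t * P.eval (Real.log t)) ((ed P).eval (Real.log t)) t := by
    intro t ht
    rw [Set.uIcc_of_le hX] at ht
    have ht0 : t ≠ 0 := by
      have := ht.1
      intro h
      linarith
    have h1 := (hasDerivAt_id t).mul
      ((P.hasDerivAt (Real.log t)).comp t (Real.hasDerivAt_log ht0))
    have h2 : 1 * (Polynomial.eval (Real.log t) P) +
        t * (Polynomial.eval (Real.log t) (Polynomial.derivative P) * t⁻¹)
        = (ed P).eval (Real.log t) := by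
      unfold ed
      rw [Polynomial.eval_add]
      field_simp
    rw [← h2]
    exact h1
  have hc : ContinuousOn (fun t : ℝ => (ed P).eval (Real.log t)) (Set.uIcc (1 : ℝ) X) := by
    intro t ht
    rw [Set.uIcc_of_le hX] at ht
    have ht0 : t ≠ 0 := by
      have := ht.1
      intro h
      linarith
    exact ((ed P).continuous.continuousAt.comp (Real.continuousAt_log ht0)).continuousWithinAt
  rw [intervalIntegral.integral_eq_sub_of_hasDerivAt hd hc.intervalIntegrable]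
  simp

end IY5

open IY5 in
/-- **Y5**: the integral for one `q` -/
theorem prY5 : tsY5 := by
  intro r E hr hAP hCB
  obtain ⟨hdeg, hlead, _⟩ := hAP
  obtain ⟨C1, hC1, hCoef⟩ := hCB (1 / 4) (by norm_num)
  obtain ⟨k, rfl⟩ : ∃ k, r = k + 2 := ⟨r - 2, by omega⟩
  have er1 : k + 2 - 1 = k + 1 := rfl
  have er2 : 2 * (k + 2) - 2 = 2 * k + 2 := by omega
  have er3 : 2 * (k + 2) - 3 = 2 * k + 1 := by omega
  rw [er1] at hdeg hlead ⊢
  rw [er2, er3]
  set K : ℝ := 2 * ((k : ℝ) + 1) ^ 2 with hK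
  have hK0 : 0 ≤ K := by positivity
  refine ⟨(2 * K + K ^ 2 + 2 * ((k : ℝ) + 1)) * C1 ^ 2, by positivity, ?_⟩
  intro X z w q hX hw hwX hq
  set L : ℝ := Real.log X with hLdef
  have hL : 1 ≤ L := by
    rw [hLdef, Real.le_log_iff_exp_le (by linarith)]
    have := Real.exp_one_lt_d9
    linarith
  have hL0 : 0 < L := by linarith
  have hX1 : 1 ≤ X := by linarith
  have hq0 : (0 : ℝ) < q := by exact_mod_cast hq
  set B : ℝ := C1 * (q : ℝ) ^ ((1 : ℝ) / 4 - 1) with hBdef
  have hB0 : 0 ≤ B := by positivity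
  have hB : ∀ j, |(E q).coeff j| ≤ B := fun j => hCoef q j hq
  have hB2 : B ^ 2 = C1 ^ 2 * (q : ℝ) ^ (-(3 / 2) : ℝ) := by
    rw [hBdef, mul_pow, ← Real.rpow_natCast ((q : ℝ) ^ ((1 : ℝ) / 4 - 1)) 2,
      ← Real.rpow_mul hq0.le]
    norm_num
  set e : ℝ := (E q).coeff (k + 1) with hedef
  have he : e = rho (k + 1) q / ((k + 1).factorial : ℝ) := hlead q hq
  have heB : |e| ≤ B := hB (k + 1)
  set W : ℝ := pw z w with hWdef
  have hW0 : 0 ≤ W := Finset.sum_nonneg fun p _ => by positivity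
  -- bounds for sums over the window
  have hsum : ∀ (g : ℕ → ℝ) (M : ℝ), (∀ p ∈ PW z w, |g p| ≤ M) →
      |∑ p ∈ PW z w, 1 / (p : ℝ) * g p| ≤ W * M := by
    intro g M hg
    calc |∑ p ∈ PW z w, 1 / (p : ℝ) * g p| ≤ ∑ p ∈ PW z w, |1 / (p : ℝ) * g p| :=
          Finset.abs_sum_le_sum_abs _ _
      _ ≤ ∑ p ∈ PW z w, 1 / (p : ℝ) * M := by
          refine Finset.sum_le_sum fun p hp => ?_
          rw [abs_mul, abs_of_nonneg (by positivity : (0 : ℝ) ≤ 1 / (p : ℝ))]
          exact mul_le_mul_of_nonneg_left (hg p hp) (by positivity)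
      _ = W * M := by rw [← Finset.sum_mul]; rfl
  -- the main term
  have hmain : jw (k + 2) X z w * (rho (k + 1) q / ((k + 1).factorial : ℝ)) ^ 2 * X *
      L ^ (2 * k + 2) = e ^ 2 * ∫ t in (1 : ℝ)..X, (ed (Hp k z w)).eval (Real.log t) := by
    rw [ftc _ X hX1, Hp_zero, sub_zero, Hp_eval, ← he]
    have hj : (∑ p ∈ PW z w, 1 / (p : ℝ) * (Real.log X - Real.log p) ^ (k + 1))
        = L ^ (k + 1) * jw (k + 2) X z w := by
      unfold jw
      rw [Finset.mul_sum]
      refine Finset.sum_congr rfl fun p _ => ?_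
      have h1 : Real.log X - Real.log p = L * (1 - Real.log p / Real.log X) := by
        rw [← hLdef]
        field_simp
      rw [h1, mul_pow, er1]
      ring
    rw [hj, ← hLdef]
    have h2 : L ^ (2 * k + 2) = L ^ (k + 1) * L ^ (k + 1) := by
      rw [← pow_add]
      congr 1
      ring
    rw [h2]
    ring
  -- continuity
  have hcont : ∀ P : Polynomial ℝ, ContinuousOn (fun t : ℝ => P.eval (Real.log t))
      (Set.uIcc (1 : ℝ) X) := by
    intro P t ht
    rw [Set.uIcc_of_le hX1] at ht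
    have ht0 : t ≠ 0 := by
      have := ht.1
      intro h
      linarith
    exact (P.continuous.continuousAt.comp (Real.continuousAt_log ht0)).continuousWithinAt
  have hint1 : IntervalIntegrable (fun t : ℝ => (ed (Eu E z w q)).eval (Real.log t) *
      (ed (E q)).eval (Real.log t)) volume 1 X :=
    ((hcont _).mul (hcont _)).intervalIntegrable
  have hint2 : IntervalIntegrable (fun t : ℝ => e ^ 2 * (ed (Hp k z w)).eval (Real.log t))
      volume 1 X := (continuousOn_const.mul (hcont _)).intervalIntegrable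
  rw [hmain, ← intervalIntegral.integral_const_mul, ← intervalIntegral.integral_sub hint1 hint2]
  -- the pointwise bound
  have hpt : ∀ t ∈ Set.uIoc (1 : ℝ) X, ‖(ed (Eu E z w q)).eval (Real.log t) *
      (ed (E q)).eval (Real.log t) - e ^ 2 * (ed (Hp k z w)).eval (Real.log t)‖
      ≤ (2 * K + K ^ 2 + 2 * ((k : ℝ) + 1)) * B ^ 2 * W * L ^ (2 * k + 1) := by
    intro t ht
    rw [Set.uIoc_of_le hX1] at ht
    set T : ℝ := Real.log t with hTdef
    have hT0 : 0 ≤ T := Real.log_nonneg ht.1.le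
    have hTL : T ≤ L := Real.log_le_log (by linarith [ht.1]) ht.2
    have hTabs : |T| ≤ L := by rw [abs_of_nonneg hT0]; exact hTL
    have hTp : ∀ p ∈ PW z w, |T - Real.log p| ≤ L := by
      intro p hp
      obtain ⟨h1, h2, _⟩ := PW_log hw hwX hp
      rw [abs_le]
      constructor <;> linarith
    have hTpk : ∀ m : ℕ, ∀ p ∈ PW z w, |(T - Real.log p) ^ m| ≤ L ^ m := by
      intro m p hp
      rw [abs_pow]
      exact pow_le_pow_left₀ (abs_nonneg _) (hTp p hp) m
    set A : ℝ := ∑ p ∈ PW z w, 1 / (p : ℝ) * (T - Real.log p) ^ (k + 1) with hA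
    set A' : ℝ := ∑ p ∈ PW z w, 1 / (p : ℝ) * (((k : ℝ) + 1) * (T - Real.log p) ^ k) with hA'
    have hAle : |A| ≤ W * L ^ (k + 1) := hsum _ _ (hTpk (k + 1))
    have hA'le : |A'| ≤ W * (((k : ℝ) + 1) * L ^ k) := by
      refine hsum _ _ fun p hp => ?_
      rw [abs_mul, abs_of_nonneg (by positivity : (0 : ℝ) ≤ (k : ℝ) + 1)]
      exact mul_le_mul_of_nonneg_left (hTpk k p hp) (by positivity)
    -- `U = e A + d1`, `V = e T^(k+1) + d2`
    have hd2 := ed_top k (E q) B L T (hdeg q) hB hL hTabs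
    have hd1 : |(ed (Eu E z w q)).eval T - e * A| ≤ W * (K * B * L ^ k) := by
      have h1 : (ed (Eu E z w q)).eval T - e * A = ∑ p ∈ PW z w, 1 / (p : ℝ) *
          ((ed (E q)).eval (T - Real.log p) - e * (T - Real.log p) ^ (k + 1)) := by
        rw [ed_Eu, hA, Finset.mul_sum, ← Finset.sum_sub_distrib]
        refine Finset.sum_congr rfl fun p _ => ?_
        ring
      rw [h1]
      exact hsum _ _ fun p hp => ed_top k (E q) B L _ (hdeg q) hB hL (hTp p hp)
    set d1 : ℝ := (ed (Eu E z w q)).eval T - e * A with hd1def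
    set d2 : ℝ := (ed (E q)).eval T - e * T ^ (k + 1) with hd2def
    have hd2' : |d2| ≤ K * B * L ^ k := hd2
    have hU : (ed (Eu E z w q)).eval T = e * A + d1 := by rw [hd1def]; ring
    have hV : (ed (E q)).eval T = e * T ^ (k + 1) + d2 := by rw [hd2def]; ring
    have hHed : (ed (Hp k z w)).eval T
        = A * T ^ (k + 1) + (A' * T ^ (k + 1) + A * (((k : ℝ) + 1) * T ^ k)) := by
      unfold ed
      rw [Polynomial.eval_add, Hp_eval, Hp_der]
    have hTk : |T ^ k| ≤ L ^ k := by rw [abs_pow]; exact pow_le_pow_left₀ (abs_nonneg _) hTabs k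
    have hTk1 : |T ^ (k + 1)| ≤ L ^ (k + 1) := by
      rw [abs_pow]; exact pow_le_pow_left₀ (abs_nonneg _) hTabs (k + 1)
    have hLk : 0 ≤ L ^ k := by positivity
    have hLk1 : 0 ≤ L ^ (k + 1) := by positivity
    have hL2 : L ^ k * L ^ (k + 1) = L ^ (2 * k + 1) := by
      rw [← pow_add]
      congr 1
      ring
    have hLL : L ^ k * L ^ k ≤ L ^ (2 * k + 1) := by
      rw [← hL2]
      exact mul_le_mul_of_nonneg_left (pow_le_pow_right₀ hL (by omega)) hLk
    have he0 := abs_nonneg e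
    have hWL : 0 ≤ L ^ (2 * k + 1) := by positivity
    have hid : (ed (Eu E z w q)).eval T * (ed (E q)).eval T - e ^ 2 * (ed (Hp k z w)).eval T
        = e * A * d2 + d1 * (e * T ^ (k + 1)) + d1 * d2
          - e ^ 2 * (A' * T ^ (k + 1)) - e ^ 2 * (A * (((k : ℝ) + 1) * T ^ k)) := by
      rw [hU, hV, hHed]
      ring
    have t1 : |e * A * d2| ≤ K * B ^ 2 * W * L ^ (2 * k + 1) := by
      rw [abs_mul, abs_mul]
      calc |e| * |A| * |d2| ≤ B * (W * L ^ (k + 1)) * (K * B * L ^ k) :=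
            mul_le_mul (mul_le_mul heB hAle (abs_nonneg _) hB0) hd2' (abs_nonneg _)
              (by positivity)
        _ = K * B ^ 2 * W * (L ^ k * L ^ (k + 1)) := by ring
        _ = K * B ^ 2 * W * L ^ (2 * k + 1) := by rw [hL2]
    have t2 : |d1 * (e * T ^ (k + 1))| ≤ K * B ^ 2 * W * L ^ (2 * k + 1) := by
      rw [abs_mul, abs_mul]
      calc |d1| * (|e| * |T ^ (k + 1)|) ≤ (W * (K * B * L ^ k)) * (B * L ^ (k + 1)) :=
            mul_le_mul hd1 (mul_le_mul heB hTk1 (abs_nonneg _) hB0) (by positivity)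
              (by positivity)
        _ = K * B ^ 2 * W * (L ^ k * L ^ (k + 1)) := by ring
        _ = K * B ^ 2 * W * L ^ (2 * k + 1) := by rw [hL2]
    have t3 : |d1 * d2| ≤ K ^ 2 * B ^ 2 * W * L ^ (2 * k + 1) := by
      rw [abs_mul]
      calc |d1| * |d2| ≤ (W * (K * B * L ^ k)) * (K * B * L ^ k) :=
            mul_le_mul hd1 hd2' (abs_nonneg _) (by positivity)
        _ = K ^ 2 * B ^ 2 * W * (L ^ k * L ^ k) := by ring
        _ ≤ K ^ 2 * B ^ 2 * W * L ^ (2 * k + 1) :=
            mul_le_mul_of_nonneg_left hLL (by positivity)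
    have he2 : |e ^ 2| ≤ B ^ 2 := by
      rw [abs_pow]
      exact pow_le_pow_left₀ he0 heB 2
    have t4 : |e ^ 2 * (A' * T ^ (k + 1))| ≤ ((k : ℝ) + 1) * B ^ 2 * W * L ^ (2 * k + 1) := by
      rw [abs_mul, abs_mul]
      calc |e ^ 2| * (|A'| * |T ^ (k + 1)|)
          ≤ B ^ 2 * ((W * (((k : ℝ) + 1) * L ^ k)) * L ^ (k + 1)) :=
            mul_le_mul he2 (mul_le_mul hA'le hTk1 (abs_nonneg _) (by positivity))
              (by positivity) (by positivity)
        _ = ((k : ℝ) + 1) * B ^ 2 * W * (L ^ k * L ^ (k + 1)) := by ring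
        _ = ((k : ℝ) + 1) * B ^ 2 * W * L ^ (2 * k + 1) := by rw [hL2]
    have t5 : |e ^ 2 * (A * (((k : ℝ) + 1) * T ^ k))|
        ≤ ((k : ℝ) + 1) * B ^ 2 * W * L ^ (2 * k + 1) := by
      rw [abs_mul, abs_mul, abs_mul, abs_of_nonneg (by positivity : (0 : ℝ) ≤ (k : ℝ) + 1)]
      calc |e ^ 2| * (|A| * (((k : ℝ) + 1) * |T ^ k|))
          ≤ B ^ 2 * ((W * L ^ (k + 1)) * (((k : ℝ) + 1) * L ^ k)) :=
            mul_le_mul he2 (mul_le_mul hAle (mul_le_mul_of_nonneg_left hTk (by positivity))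
              (by positivity) (by positivity)) (by positivity) (by positivity)
        _ = ((k : ℝ) + 1) * B ^ 2 * W * (L ^ k * L ^ (k + 1)) := by ring
        _ = ((k : ℝ) + 1) * B ^ 2 * W * L ^ (2 * k + 1) := by rw [hL2]
    rw [hid, Real.norm_eq_abs]
    have s1 := abs_sub (e * A * d2 + d1 * (e * T ^ (k + 1)) + d1 * d2
      - e ^ 2 * (A' * T ^ (k + 1))) (e ^ 2 * (A * (((k : ℝ) + 1) * T ^ k)))
    have s2 := abs_sub (e * A * d2 + d1 * (e * T ^ (k + 1)) + d1 * d2)
      (e ^ 2 * (A' * T ^ (k + 1)))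
    have s3 := abs_add_le (e * A * d2 + d1 * (e * T ^ (k + 1))) (d1 * d2)
    have s4 := abs_add_le (e * A * d2) (d1 * (e * T ^ (k + 1)))
    calc _ ≤ |e * A * d2| + |d1 * (e * T ^ (k + 1))| + |d1 * d2|
          + |e ^ 2 * (A' * T ^ (k + 1))| + |e ^ 2 * (A * (((k : ℝ) + 1) * T ^ k))| := by
            linarith
      _ ≤ K * B ^ 2 * W * L ^ (2 * k + 1) + K * B ^ 2 * W * L ^ (2 * k + 1)
          + K ^ 2 * B ^ 2 * W * L ^ (2 * k + 1)
          + ((k : ℝ) + 1) * B ^ 2 * W * L ^ (2 * k + 1)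
          + ((k : ℝ) + 1) * B ^ 2 * W * L ^ (2 * k + 1) := by linarith
      _ = (2 * K + K ^ 2 + 2 * ((k : ℝ) + 1)) * B ^ 2 * W * L ^ (2 * k + 1) := by ring
  have hfin := intervalIntegral.norm_integral_le_of_norm_le_const hpt
  rw [Real.norm_eq_abs] at hfin
  have hXabs : |X - 1| ≤ X := by
    rw [abs_of_nonneg (by linarith)]
    linarith
  calc _ ≤ (2 * K + K ^ 2 + 2 * ((k : ℝ) + 1)) * B ^ 2 * W * L ^ (2 * k + 1) * |X - 1| := hfin
    _ ≤ (2 * K + K ^ 2 + 2 * ((k : ℝ) + 1)) * B ^ 2 * W * L ^ (2 * k + 1) * X :=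
        mul_le_mul_of_nonneg_left hXabs (by positivity)
    _ = (2 * K + K ^ 2 + 2 * ((k : ℝ) + 1)) * C1 ^ 2 * W * (q : ℝ) ^ (-(3 / 2) : ℝ) * X *
        L ^ (2 * k + 1) := by
        rw [hB2]
        ring

end Pool.Agent.Work.MP_122e00_nt.TS
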