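import Pool.Agent.Work.MP_122e00_nt.TS.Stmts9

/-!
# Thin shifts, item Y7: values of a polynomial divisible by `L`
-/

namespace Pool.Agent.Work.MP_122e00_nt.TS

open Finset

namespace IY7

theorem dvd_mod (F : Polynomial ℤ) (p m x : ℕ) (hpm : p ∣ m) :
    (p : ℤ) ∣ F.eval ((x % m : ℕ) : ℤ) ↔ (p : ℤ) ∣ F.eval (x : ℤ) := by
  have h1 : ((x % m : ℕ) : ℤ) - (x : ℤ) ∣ F.eval ((x % m : ℕ) : ℤ) - F.eval (x : ℤ) :=
    Polynomial.sub_dvd_eval_sub _ _ F
  have h2 : (p : ℤ) ∣ ((x % m : ℕ) : ℤ) - (x : ℤ) := by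
    have h3 : (m : ℤ) ∣ ((x % m : ℕ) : ℤ) - (x : ℤ) := by
      refine ⟨-((x / m : ℕ) : ℤ), ?_⟩
      have h4 : ((m * (x / m) + x % m : ℕ) : ℤ) = (x : ℤ) := by rw [Nat.div_add_mod]
      push_cast at h4 ⊢
      linarith
    exact (Int.natCast_dvd_natCast.2 hpm).trans h3
  exact dvd_iff_dvd_of_dvd_sub (h2.trans h1)

/-- the solutions modulo `m` for the primes of `P` -/
noncomputable def SP (F : Polynomial ℤ) (P : Finset ℕ) (m : ℕ) : Finset ℕ :=
  (Finset.range m).filter fun x => ∀ p ∈ P, (p : ℤ) ∣ F.eval (x : ℤ)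

theorem mem_SP (F : Polynomial ℤ) (P : Finset ℕ) (m x : ℕ) :
    x ∈ SP F P m ↔ x < m ∧ ∀ p ∈ P, (p : ℤ) ∣ F.eval (x : ℤ) := by
  unfold SP
  rw [Finset.mem_filter, Finset.mem_range]

theorem crt (F : Polynomial ℤ) (P : Finset ℕ) (hP : ∀ p ∈ P, p.Prime) :
    (SP F P (∏ p ∈ P, p)).card ≤ ∏ p ∈ P, (SP F {p} p).card := by
  classical
  induction P using Finset.induction_on with
  | empty =>
    rw [Finset.prod_empty, Finset.prod_empty]
    refine (Finset.card_le_card (Finset.filter_subset _ _)).trans ?_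
    rw [Finset.card_range]
  | insert q P hq ih =>
    rw [Finset.prod_insert hq, Finset.prod_insert hq]
    have hP' : ∀ p ∈ P, p.Prime := fun p hp => hP p (Finset.mem_insert_of_mem hp)
    refine le_trans ?_ (Nat.mul_le_mul_left _ (ih hP'))
    have hqp : q.Prime := hP q (Finset.mem_insert_self _ _)
    have hcop : Nat.Coprime q (∏ p ∈ P, p) := by
      refine Nat.Coprime.prod_right ?_
      intro p hp
      refine (Nat.coprime_primes hqp (hP' p hp)).2 ?_
      rintro rfl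
      exact hq hp
    have hR : 0 < ∏ p ∈ P, p := Finset.prod_pos fun p hp => (hP' p hp).pos
    rw [← Finset.card_product]
    refine Finset.card_le_card_of_injOn (fun x => (x % q, x % ∏ p ∈ P, p)) ?_ ?_
    · intro x hx
      have hx' := (mem_SP F _ _ x).1 (Finset.mem_coe.1 hx)
      refine Finset.mem_coe.2 (Finset.mem_product.2 ⟨?_, ?_⟩)
      · refine (mem_SP F _ _ _).2 ⟨Nat.mod_lt _ hqp.pos, ?_⟩
        intro p hp
        rw [Finset.mem_singleton.1 hp]
        exact (dvd_mod F q q x dvd_rfl).2 (hx'.2 q (Finset.mem_insert_self _ _))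
      · refine (mem_SP F _ _ _).2 ⟨Nat.mod_lt _ hR, ?_⟩
        intro p hp
        exact (dvd_mod F p _ x (Finset.dvd_prod_of_mem _ hp)).2
          (hx'.2 p (Finset.mem_insert_of_mem hp))
    · intro x hx y hy hxy
      have hx' := (mem_SP F _ _ x).1 (Finset.mem_coe.1 hx)
      have hy' := (mem_SP F _ _ y).1 (Finset.mem_coe.1 hy)
      have h1 : x ≡ y [MOD q] := congrArg Prod.fst hxy
      have h2 : x ≡ y [MOD ∏ p ∈ P, p] := congrArg Prod.snd hxy
      have h3 := (Nat.modEq_and_modEq_iff_modEq_mul hcop).1 ⟨h1, h2⟩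
      exact Nat.ModEq.eq_of_lt_of_lt h3 hx'.1 hy'.1

theorem blocks (T S : Finset ℕ) (K R : ℕ) (hT : ∀ k ∈ T, k ≤ K ∧ k % R ∈ S) :
    T.card ≤ (K / R + 1) * S.card := by
  rw [← Finset.card_range (K / R + 1), ← Finset.card_product]
  refine Finset.card_le_card_of_injOn (fun x => (x / R, x % R)) ?_ ?_
  · intro x hx
    have h1 := hT x (Finset.mem_coe.1 hx)
    refine Finset.mem_coe.2 (Finset.mem_product.2 ⟨?_, h1.2⟩)
    exact Finset.mem_range.2 (Nat.lt_succ_of_le (Nat.div_le_div_right h1.1))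
  · intro x _ y _ hxy
    have h1 : x / R = y / R := congrArg Prod.fst hxy
    have h2 : x % R = y % R := congrArg Prod.snd hxy
    rw [← Nat.div_add_mod x R, ← Nat.div_add_mod y R, h1, h2]

theorem card_le_self (F : Polynomial ℤ) (p : ℕ) : (SP F {p} p).card ≤ p := by
  refine (Finset.card_le_card (Finset.filter_subset _ _)).trans ?_
  rw [Finset.card_range]

theorem card_le_deg (F : Polynomial ℤ) (p : ℕ) (hp : p.Prime) (hlc : ¬ (p : ℤ) ∣ F.leadingCoeff) :
    (SP F {p} p).card ≤ F.natDegree := by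
  classical
  have : Fact p.Prime := ⟨hp⟩
  have hG : F.map (Int.castRingHom (ZMod p)) ≠ 0 := by
    intro h0
    have h1 := congrArg (fun G => Polynomial.coeff G F.natDegree) h0
    simp only [Polynomial.coeff_map, Polynomial.coeff_zero, Polynomial.coeff_natDegree] at h1
    exact hlc ((ZMod.intCast_zmod_eq_zero_iff_dvd F.leadingCoeff p).1 (by simpa using h1))
  have h2 : (SP F {p} p).card ≤ (F.map (Int.castRingHom (ZMod p))).roots.toFinset.card := by
    refine Finset.card_le_card_of_injOn (fun x => ((x : ℕ) : ZMod p)) ?_ ?_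
    · intro x hx
      have hx' := (mem_SP F _ _ x).1 (Finset.mem_coe.1 hx)
      refine Finset.mem_coe.2 (Multiset.mem_toFinset.2 ?_)
      rw [Polynomial.mem_roots hG, Polynomial.IsRoot.def]
      have h3 := hx'.2 p (Finset.mem_singleton_self _)
      have h4 := (ZMod.intCast_zmod_eq_zero_iff_dvd (F.eval (x : ℤ)) p).2 h3
      have h5 : Polynomial.eval ((x : ℕ) : ZMod p) (F.map (Int.castRingHom (ZMod p))) =
          ((F.eval (x : ℤ) : ℤ) : ZMod p) := by
        simp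
      rw [h5]
      exact h4
    · intro x hx y hy hxy
      have hx' := (mem_SP F _ _ x).1 (Finset.mem_coe.1 hx)
      have hy' := (mem_SP F _ _ y).1 (Finset.mem_coe.1 hy)
      have h3 : ((x : ℕ) : ZMod p) = ((y : ℕ) : ZMod p) := hxy
      have h4 := (ZMod.natCast_eq_natCast_iff x y p).1 h3
      exact Nat.ModEq.eq_of_lt_of_lt h4 hx'.1 hy'.1
  refine h2.trans ?_
  refine (Multiset.toFinset_card_le _).trans ?_
  exact (Polynomial.card_roots' _).trans (Polynomial.natDegree_map_le)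

end IY7

theorem prY7 : tsY7 := by
  intro F hdeg hlc
  refine ⟨max (F.natDegree : ℝ) ((F.leadingCoeff : ℤ) : ℝ), ?_, ?_⟩
  · refine le_max_of_le_left ?_
    exact_mod_cast hdeg
  intro A K L hL hA
  set C : ℝ := max (F.natDegree : ℝ) ((F.leadingCoeff : ℤ) : ℝ) with hC
  have hprime : ∀ p ∈ L.primeFactors, p.Prime := fun p hp => (Nat.mem_primeFactors.1 hp).1
  obtain ⟨R, hR⟩ : ∃ R, R = ∏ p ∈ L.primeFactors, p := ⟨_, rfl⟩
  have hR0 : 0 < R := by
    rw [hR]
    exact Finset.prod_pos fun p hp => (hprime p hp).pos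
  have hRL : R ≤ L := by
    rw [hR]
    exact Nat.le_of_dvd hL (Nat.prod_primeFactors_dvd L)
  have h1 : ((Finset.Ioc A K).filter (fun k => L ∣ fv F k)).card ≤
      (K / R + 1) * ∏ p ∈ L.primeFactors, (IY7.SP F {p} p).card := by
    refine le_trans ?_ (Nat.mul_le_mul_left _ (IY7.crt F L.primeFactors hprime))
    rw [← hR]
    refine IY7.blocks _ _ K R ?_
    intro k hk
    obtain ⟨hk1, hk2⟩ := Finset.mem_filter.1 hk
    obtain ⟨hk3, hk4⟩ := Finset.mem_Ioc.1 hk1
    refine ⟨hk4, ?_⟩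
    refine (IY7.mem_SP F _ _ _).2 ⟨Nat.mod_lt _ hR0, ?_⟩
    intro p hp
    have hpR : p ∣ R := by
      rw [hR]
      exact Finset.dvd_prod_of_mem _ hp
    refine (IY7.dvd_mod F p R k hpR).2 ?_
    have h2 : p ∣ fv F k := (Nat.dvd_of_mem_primeFactors hp).trans hk2
    have h3 := hA k hk3
    have h4 : ((fv F k : ℕ) : ℤ) = F.eval (k : ℤ) := Int.toNat_of_nonneg (by omega)
    rw [← h4]
    exact Int.natCast_dvd_natCast.2 h2
  have h2 : (((Finset.Ioc A K).filter (fun k => L ∣ fv F k)).card : ℝ) ≤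
      (((K / R : ℕ) : ℝ) + 1) * ∏ p ∈ L.primeFactors, ((IY7.SP F {p} p).card : ℝ) := by
    exact_mod_cast h1
  refine h2.trans ?_
  have hRr : (0 : ℝ) < (R : ℝ) := Nat.cast_pos.2 hR0
  have h3 : (((K / R : ℕ) : ℝ) + 1) ≤ ((K : ℝ) + L) / R := by
    rw [le_div_iff₀ hRr, add_mul, one_mul]
    have h4 : ((K / R : ℕ) : ℝ) * R ≤ K := by
      exact_mod_cast Nat.div_mul_le_self K R
    have h5 : (R : ℝ) ≤ L := by exact_mod_cast hRL
    linarith
  have h4 : (0 : ℝ) ≤ ∏ p ∈ L.primeFactors, ((IY7.SP F {p} p).card : ℝ) :=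
    Finset.prod_nonneg fun p _ => Nat.cast_nonneg _
  refine (mul_le_mul_of_nonneg_right h3 h4).trans ?_
  have h5 : ((K : ℝ) + L) / R * ∏ p ∈ L.primeFactors, ((IY7.SP F {p} p).card : ℝ) =
      ((K : ℝ) + L) * ∏ p ∈ L.primeFactors, (((IY7.SP F {p} p).card : ℝ) / p) := by
    rw [Finset.prod_div_distrib]
    have h6 : (R : ℝ) = ∏ p ∈ L.primeFactors, (p : ℝ) := by
      rw [hR]
      push_cast
      rfl
    rw [← h6]
    ring
  rw [h5]
  refine mul_le_mul_of_nonneg_left ?_ (by positivity)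
  refine Finset.prod_le_prod (fun p _ => by positivity) ?_
  intro p hp
  have hpp := hprime p hp
  have hp0 : (0 : ℝ) < (p : ℝ) := Nat.cast_pos.2 hpp.pos
  have h7 : ((IY7.SP F {p} p).card : ℝ) ≤ p := by exact_mod_cast IY7.card_le_self F p
  refine le_min ?_ ?_
  · rw [div_le_one hp0]
    exact h7
  · refine div_le_div_of_nonneg_right ?_ hp0.le
    by_cases hd : (p : ℤ) ∣ F.leadingCoeff
    · have h8 : (p : ℤ) ≤ F.leadingCoeff := Int.le_of_dvd hlc hd
      have h9 : (p : ℝ) ≤ ((F.leadingCoeff : ℤ) : ℝ) := by exact_mod_cast h8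
      exact (h7.trans h9).trans (le_max_right _ _)
    · have h8 : ((IY7.SP F {p} p).card : ℝ) ≤ (F.natDegree : ℝ) := by
        exact_mod_cast IY7.card_le_deg F p hpp hd
      exact h8.trans (le_max_left _ _)

end Pool.Agent.Work.MP_122e00_nt.TS
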