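import Mathlib
import Pool.Agent.Work.MP_122e00_nt.TS.Stmts9

/-!
# Thin shifts, item Y8: first moment of a divisor sum over the values

Author: helper57.
-/

set_option autoImplicit false

namespace Pool.Agent.Work.MP_122e00_nt.TS

open Finset Filter Topology ArithmeticFunction MeasureTheory
open scoped ArithmeticFunction.zeta ArithmeticFunction.Moebius

namespace IY8

/-- the summand -/
noncomputable def g (C : ℝ) (L : ℕ) : ℝ :=
  (L : ℝ) ^ (-(1 / 4) : ℝ) * ∏ p ∈ L.primeFactors, min 1 (C / (p : ℝ))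

theorem g_nonneg {C : ℝ} (hC : 0 ≤ C) (L : ℕ) : 0 ≤ g C L :=
  mul_nonneg (Real.rpow_nonneg (Nat.cast_nonneg _) _)
    (Finset.prod_nonneg fun _ _ => le_min zero_le_one (div_nonneg hC (Nat.cast_nonneg _)))

theorem g_one (C : ℝ) : g C 1 = 1 := by
  simp [g]

theorem g_mul (C : ℝ) {m n : ℕ} (h : Nat.Coprime m n) : g C (m * n) = g C m * g C n := by
  unfold g
  rw [h.primeFactors_mul, Finset.prod_union h.disjoint_primeFactors, Nat.cast_mul,
    Real.mul_rpow (Nat.cast_nonneg _) (Nat.cast_nonneg _)]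
  ring

/-- the ratio of the geometric series -/
noncomputable def x (p : ℕ) : ℝ := (p : ℝ) ^ (-(1 / 4) : ℝ)

theorem g_pow (C : ℝ) {p : ℕ} (hp : p.Prime) (n : ℕ) :
    g C (p ^ (n + 1)) = min 1 (C / (p : ℝ)) * x p * x p ^ n := by
  unfold g x
  rw [Nat.primeFactors_prime_pow (Nat.succ_ne_zero n) hp, Finset.prod_singleton, Nat.cast_pow,
    ← Real.rpow_natCast, ← Real.rpow_natCast, ← Real.rpow_mul (Nat.cast_nonneg p),
    ← Real.rpow_mul (Nat.cast_nonneg p)]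
  have hp0 : (0 : ℝ) < p := by exact_mod_cast hp.pos
  have e : ((n + 1 : ℕ) : ℝ) * (-(1 / 4)) = -(1 / 4) + -(1 / 4) * (n : ℝ) := by
    push_cast
    ring
  rw [e, Real.rpow_add hp0]
  ring

theorem x_le {p : ℕ} (hp : p.Prime) : x p ≤ 6 / 7 := by
  have hp2 : (2 : ℝ) ≤ p := by exact_mod_cast hp.two_le
  have h1 : x p ^ 4 ≤ (6 / 7) ^ 4 := by
    unfold x
    rw [← Real.rpow_natCast, ← Real.rpow_mul (Nat.cast_nonneg p)]
    have e : (-(1 / 4) : ℝ) * ((4 : ℕ) : ℝ) = -1 := by norm_num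
    rw [e, Real.rpow_neg_one]
    calc (p : ℝ)⁻¹ ≤ (2 : ℝ)⁻¹ := by gcongr
      _ ≤ (6 / 7) ^ 4 := by norm_num
  exact le_of_pow_le_pow_left₀ (by norm_num) (by norm_num) h1

theorem x_nonneg (p : ℕ) : 0 ≤ x p := Real.rpow_nonneg (Nat.cast_nonneg _) _

theorem g_summable {C : ℝ} (hC : 0 ≤ C) {p : ℕ} (hp : p.Prime) :
    Summable (fun n : ℕ => g C (p ^ n)) := by
  rw [← summable_nat_add_iff 1]
  simp_rw [g_pow C hp]
  exact (summable_geometric_of_lt_one (x_nonneg p) (lt_of_le_of_lt (x_le hp) (by norm_num))).mul_left _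

theorem g_tsum {C : ℝ} (hC : 0 ≤ C) {p : ℕ} (hp : p.Prime) :
    ∑' n : ℕ, g C (p ^ n) ≤ Real.exp (7 * C * (p : ℝ) ^ (-(5 / 4) : ℝ)) := by
  rw [(g_summable hC hp).tsum_eq_zero_add, pow_zero, g_one]
  simp_rw [g_pow C hp]
  rw [tsum_mul_left, tsum_geometric_of_lt_one (x_nonneg p) (lt_of_le_of_lt (x_le hp) (by norm_num))]
  have hp0 : (0 : ℝ) < p := by exact_mod_cast hp.pos
  have h1 : (1 - x p)⁻¹ ≤ 7 := by
    have h2 : 1 / 7 ≤ 1 - x p := by linarith [x_le hp]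
    calc (1 - x p)⁻¹ ≤ (1 / 7)⁻¹ := by gcongr
      _ = 7 := by norm_num
  have h3 : min 1 (C / (p : ℝ)) ≤ C / p := min_le_right _ _
  have h4 : 0 ≤ C / (p : ℝ) := div_nonneg hC hp0.le
  have h5 : 0 ≤ (1 - x p)⁻¹ := by
    have h2 : 1 / 7 ≤ 1 - x p := by linarith [x_le hp]
    exact inv_nonneg.2 (by linarith)
  have h6 : min 1 (C / (p : ℝ)) * x p * (1 - x p)⁻¹ ≤ C / p * x p * 7 := by
    have := x_nonneg p
    gcongr
  have h7 : C / p * x p * 7 = 7 * C * (p : ℝ) ^ (-(5 / 4) : ℝ) := by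
    have e : (-(5 / 4) : ℝ) = -1 + -(1 / 4) := by norm_num
    rw [e, Real.rpow_add hp0, Real.rpow_neg_one]
    unfold x
    rw [div_eq_mul_inv]
    ring
  rw [h7] at h6
  have h8 := Real.add_one_le_exp (7 * C * (p : ℝ) ^ (-(5 / 4) : ℝ))
  linarith

/-- the Euler product bound -/
theorem sum_g_le {C : ℝ} (hC : 0 ≤ C) (S : ℕ) :
    ∑ L ∈ Finset.Icc 1 S, g C L ≤ Real.exp (7 * C * ∑' n : ℕ, (n : ℝ) ^ (-(5 / 4) : ℝ)) := by
  have hsum : ∀ {p : ℕ}, p.Prime → Summable (fun n : ℕ => ‖g C (p ^ n)‖) := by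
    intro p hp
    have := g_summable hC hp
    simpa only [Real.norm_eq_abs, abs_of_nonneg (g_nonneg hC _)] using this
  have h1 := (EulerProduct.summable_and_hasSum_smoothNumbers_prod_primesBelow_tsum
    (f := g C) (g_one C) (fun {m n} h => g_mul C h) hsum (S + 1)).2
  have h2 : HasSum ((S + 1).smoothNumbers.indicator (g C))
      (∏ p ∈ (S + 1).primesBelow, ∑' n : ℕ, g C (p ^ n)) :=
    hasSum_subtype_iff_indicator.1 h1
  have h3 : ∑ L ∈ Finset.Icc 1 S, (S + 1).smoothNumbers.indicator (g C) L ≤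
      ∏ p ∈ (S + 1).primesBelow, ∑' n : ℕ, g C (p ^ n) :=
    sum_le_hasSum _ (fun i _ => Set.indicator_nonneg (fun _ _ => g_nonneg hC _) _) h2
  have h4 : ∑ L ∈ Finset.Icc 1 S, g C L =
      ∑ L ∈ Finset.Icc 1 S, (S + 1).smoothNumbers.indicator (g C) L := by
    refine Finset.sum_congr rfl fun L hL => ?_
    rw [Finset.mem_Icc] at hL
    rw [Set.indicator_of_mem (Nat.mem_smoothNumbers_of_lt (by omega) (by omega))]
  have hs : Summable (fun n : ℕ => (n : ℝ) ^ (-(5 / 4) : ℝ)) :=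
    Real.summable_nat_rpow.2 (by norm_num)
  calc ∑ L ∈ Finset.Icc 1 S, g C L
      ≤ ∏ p ∈ (S + 1).primesBelow, ∑' n : ℕ, g C (p ^ n) := h4.trans_le h3
    _ ≤ ∏ p ∈ (S + 1).primesBelow, Real.exp (7 * C * (p : ℝ) ^ (-(5 / 4) : ℝ)) := by
        refine Finset.prod_le_prod (fun p _ => tsum_nonneg fun n => g_nonneg hC _) fun p hp => ?_
        exact g_tsum hC (Nat.prime_of_mem_primesBelow hp)
    _ = Real.exp (7 * C * ∑ p ∈ (S + 1).primesBelow, (p : ℝ) ^ (-(5 / 4) : ℝ)) := by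
        rw [← Real.exp_sum, Finset.mul_sum]
    _ ≤ Real.exp (7 * C * ∑' n : ℕ, (n : ℝ) ^ (-(5 / 4) : ℝ)) := by
        apply Real.exp_le_exp.2
        apply mul_le_mul_of_nonneg_left _ (by positivity)
        exact hs.sum_le_tsum _ (fun n _ => Real.rpow_nonneg (Nat.cast_nonneg _) _)

theorem card_div (n : ℕ) : ((n.divisors.card : ℕ) : ℝ) = dr 2 n := by
  unfold dr
  rw [← sigma_zero_apply, ← zeta_mul_pow_eq_sigma, pow_zero_eq_zeta, pow_two]

end IY8

theorem prY8 (hL0 : tsL0) (hH2 : tsH2) (hY7 : tsY7) : tsY8 := by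
  intro F A hF1 hF2 hA
  obtain ⟨C, hC1, hC⟩ := hY7 F hF1 hF2
  obtain ⟨_, _, C', _, hC', _, hsz⟩ := hH2 F hF1 hF2
  have hd0 : (0 : ℝ) < F.natDegree := by exact_mod_cast hF1
  obtain ⟨ε, hε⟩ : ∃ ε : ℝ, ε = 1 / (8 * F.natDegree) := ⟨_, rfl⟩
  have hε0 : 0 < ε := by rw [hε]; positivity
  obtain ⟨C₀, hC₀, hdiv⟩ := hL0 2 ε hε0
  obtain ⟨B, hB⟩ : ∃ B : ℝ, B = Real.exp (7 * C * ∑' n : ℕ, (n : ℝ) ^ (-(5 / 4) : ℝ)) := ⟨_, rfl⟩
  have hB0 : 0 < B := by rw [hB]; exact Real.exp_pos _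
  refine ⟨2 * B + C₀ * C' ^ ε, fun K hK => ?_⟩
  have hKR : (1 : ℝ) ≤ K := by exact_mod_cast hK
  have hK0 : (0 : ℝ) < K := by linarith
  obtain ⟨S, hS⟩ : ∃ S : ℕ, S = Nat.sqrt K := ⟨_, rfl⟩
  have hSK : S ≤ K := by rw [hS]; exact Nat.sqrt_le_self K
  have hS2 : K < (S + 1) * (S + 1) := by rw [hS]; exact Nat.lt_succ_sqrt K
  -- the small divisors
  have hsmall : ∑ k ∈ Finset.Ioc A K, ∑ L ∈ (fv F k).divisors.filter (fun L => L ≤ S),
      (L : ℝ) ^ (-(1 / 4) : ℝ) ≤ 2 * B * K := by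
    calc ∑ k ∈ Finset.Ioc A K, ∑ L ∈ (fv F k).divisors.filter (fun L => L ≤ S),
          (L : ℝ) ^ (-(1 / 4) : ℝ)
        ≤ ∑ k ∈ Finset.Ioc A K, ∑ L ∈ Finset.Icc 1 S,
          (if L ∣ fv F k then (L : ℝ) ^ (-(1 / 4) : ℝ) else 0) := by
          refine Finset.sum_le_sum fun k _ => ?_
          rw [← Finset.sum_filter]
          refine Finset.sum_le_sum_of_subset_of_nonneg ?_
            fun L _ _ => Real.rpow_nonneg (Nat.cast_nonneg _) _
          intro L hL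
          rw [Finset.mem_filter] at hL
          rw [Finset.mem_filter, Finset.mem_Icc]
          exact ⟨⟨Nat.pos_of_mem_divisors hL.1, hL.2⟩, Nat.dvd_of_mem_divisors hL.1⟩
      _ = ∑ L ∈ Finset.Icc 1 S, (((Finset.Ioc A K).filter (fun k => L ∣ fv F k)).card : ℝ) *
          (L : ℝ) ^ (-(1 / 4) : ℝ) := by
          rw [Finset.sum_comm]
          refine Finset.sum_congr rfl fun L _ => ?_
          rw [← Finset.sum_filter, Finset.sum_const, nsmul_eq_mul]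
      _ ≤ ∑ L ∈ Finset.Icc 1 S, 2 * K * IY8.g C L := by
          refine Finset.sum_le_sum fun L hL => ?_
          rw [Finset.mem_Icc] at hL
          have h1 := hC A K L hL.1 hA
          have h2 : (L : ℝ) ≤ K := by exact_mod_cast hL.2.trans hSK
          have h3 : 0 ≤ ∏ p ∈ L.primeFactors, min 1 (C / (p : ℝ)) :=
            Finset.prod_nonneg fun _ _ => le_min zero_le_one
              (div_nonneg (by linarith) (Nat.cast_nonneg _))
          have h4 : 0 ≤ (L : ℝ) ^ (-(1 / 4) : ℝ) := Real.rpow_nonneg (Nat.cast_nonneg _) _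
          unfold IY8.g
          calc (((Finset.Ioc A K).filter (fun k => L ∣ fv F k)).card : ℝ) *
                (L : ℝ) ^ (-(1 / 4) : ℝ)
              ≤ (((K : ℝ) + L) * ∏ p ∈ L.primeFactors, min 1 (C / (p : ℝ))) *
                (L : ℝ) ^ (-(1 / 4) : ℝ) := mul_le_mul_of_nonneg_right h1 h4
            _ ≤ ((2 * K) * ∏ p ∈ L.primeFactors, min 1 (C / (p : ℝ))) *
                (L : ℝ) ^ (-(1 / 4) : ℝ) := by
                apply mul_le_mul_of_nonneg_right _ h4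
                apply mul_le_mul_of_nonneg_right _ h3
                linarith
            _ = _ := by ring
      _ = 2 * K * ∑ L ∈ Finset.Icc 1 S, IY8.g C L := by rw [Finset.mul_sum]
      _ ≤ 2 * K * B := by
          rw [hB]
          exact mul_le_mul_of_nonneg_left (IY8.sum_g_le (by linarith) S) (by positivity)
      _ = 2 * B * K := by ring
  -- the large divisors
  have hlarge : ∀ k ∈ Finset.Ioc A K, ∑ L ∈ (fv F k).divisors.filter (fun L => ¬ L ≤ S),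
      (L : ℝ) ^ (-(1 / 4) : ℝ) ≤ C₀ * C' ^ ε := by
    intro k hk
    rw [Finset.mem_Ioc] at hk
    have hk1 : 1 ≤ k := by omega
    have hFk := hA k hk.1
    have hfv1 : 1 ≤ fv F k := by
      unfold fv
      omega
    have hfvR : ((fv F k : ℕ) : ℝ) = ((F.eval (k : ℤ) : ℤ) : ℝ) := by
      have h1 : ((fv F k : ℕ) : ℤ) = F.eval (k : ℤ) := by
        unfold fv
        exact Int.toNat_of_nonneg (by omega)
      exact_mod_cast h1
    have hfv2 : ((fv F k : ℕ) : ℝ) ≤ C' * (K : ℝ) ^ F.natDegree := by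
      rw [hfvR]
      have h1 := (le_abs_self _).trans (hsz k hk1)
      have h2 : (k : ℝ) ≤ K := by exact_mod_cast hk.2
      calc ((F.eval (k : ℤ) : ℤ) : ℝ) ≤ C' * (k : ℝ) ^ F.natDegree := h1
        _ ≤ C' * (K : ℝ) ^ F.natDegree := by gcongr
    have hpow : ((fv F k : ℕ) : ℝ) ^ ε ≤ C' ^ ε * (K : ℝ) ^ (1 / 8 : ℝ) := by
      calc ((fv F k : ℕ) : ℝ) ^ ε ≤ (C' * (K : ℝ) ^ F.natDegree) ^ ε :=
            Real.rpow_le_rpow (Nat.cast_nonneg _) hfv2 hε0.le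
        _ = C' ^ ε * (K : ℝ) ^ (1 / 8 : ℝ) := by
            rw [Real.mul_rpow hC'.le (by positivity), ← Real.rpow_natCast, ← Real.rpow_mul hK0.le]
            congr 2
            rw [hε]
            field_simp
    have hcard : (((fv F k).divisors.card : ℕ) : ℝ) ≤ C₀ * C' ^ ε * (K : ℝ) ^ (1 / 8 : ℝ) := by
      rw [IY8.card_div]
      calc dr 2 (fv F k) ≤ C₀ * ((fv F k : ℕ) : ℝ) ^ ε := hdiv _ hfv1
        _ ≤ C₀ * (C' ^ ε * (K : ℝ) ^ (1 / 8 : ℝ)) := by gcongr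
        _ = _ := by ring
    have hL : ∀ L ∈ (fv F k).divisors.filter (fun L => ¬ L ≤ S),
        (L : ℝ) ^ (-(1 / 4) : ℝ) ≤ (K : ℝ) ^ (-(1 / 8) : ℝ) := by
      intro L hL
      rw [Finset.mem_filter] at hL
      have h1 : S + 1 ≤ L := by omega
      have h2 : (K : ℝ) ≤ (L : ℝ) ^ 2 := by
        have h3 : K ≤ L ^ 2 := by
          calc K ≤ (S + 1) * (S + 1) := hS2.le
            _ ≤ L * L := Nat.mul_le_mul h1 h1
            _ = L ^ 2 := (pow_two L).symm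
        exact_mod_cast h3
      have hL0 : (0 : ℝ) < L := by
        have : 0 < L := by omega
        exact_mod_cast this
      calc (L : ℝ) ^ (-(1 / 4) : ℝ) = ((L : ℝ) ^ 2) ^ (-(1 / 8) : ℝ) := by
            rw [← Real.rpow_natCast, ← Real.rpow_mul hL0.le]
            norm_num
        _ ≤ (K : ℝ) ^ (-(1 / 8) : ℝ) :=
            Real.rpow_le_rpow_of_nonpos hK0 h2 (by norm_num)
    calc ∑ L ∈ (fv F k).divisors.filter (fun L => ¬ L ≤ S), (L : ℝ) ^ (-(1 / 4) : ℝ)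
        ≤ ∑ _L ∈ (fv F k).divisors.filter (fun L => ¬ L ≤ S), (K : ℝ) ^ (-(1 / 8) : ℝ) :=
          Finset.sum_le_sum hL
      _ = (((fv F k).divisors.filter (fun L => ¬ L ≤ S)).card : ℝ) * (K : ℝ) ^ (-(1 / 8) : ℝ) := by
          rw [Finset.sum_const, nsmul_eq_mul]
      _ ≤ (((fv F k).divisors.card : ℕ) : ℝ) * (K : ℝ) ^ (-(1 / 8) : ℝ) := by
          apply mul_le_mul_of_nonneg_right _ (Real.rpow_nonneg hK0.le _)
          exact_mod_cast Finset.card_filter_le _ _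
      _ ≤ (C₀ * C' ^ ε * (K : ℝ) ^ (1 / 8 : ℝ)) * (K : ℝ) ^ (-(1 / 8) : ℝ) :=
          mul_le_mul_of_nonneg_right hcard (Real.rpow_nonneg hK0.le _)
      _ = C₀ * C' ^ ε := by
          rw [mul_assoc, ← Real.rpow_add hK0]
          norm_num
  calc ∑ k ∈ Finset.Ioc A K, ∑ L ∈ (fv F k).divisors, (L : ℝ) ^ (-(1 / 4) : ℝ)
      = ∑ k ∈ Finset.Ioc A K, ∑ L ∈ (fv F k).divisors.filter (fun L => L ≤ S),
          (L : ℝ) ^ (-(1 / 4) : ℝ) +
        ∑ k ∈ Finset.Ioc A K, ∑ L ∈ (fv F k).divisors.filter (fun L => ¬ L ≤ S),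
          (L : ℝ) ^ (-(1 / 4) : ℝ) := by
        rw [← Finset.sum_add_distrib]
        refine Finset.sum_congr rfl fun k _ => ?_
        rw [Finset.sum_filter_add_sum_filter_not]
    _ ≤ 2 * B * K + ∑ _k ∈ Finset.Ioc A K, C₀ * C' ^ ε :=
        add_le_add hsmall (Finset.sum_le_sum hlarge)
    _ ≤ 2 * B * K + (K : ℝ) * (C₀ * C' ^ ε) := by
        rw [Finset.sum_const, nsmul_eq_mul, Nat.card_Ioc]
        have h1 : ((K - A : ℕ) : ℝ) ≤ K := by exact_mod_cast Nat.sub_le K A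
        have h2 : 0 ≤ C₀ * C' ^ ε := by positivity
        have h3 := mul_le_mul_of_nonneg_right h1 h2
        linarith
    _ = (2 * B + C₀ * C' ^ ε) * K := by ring

end Pool.Agent.Work.MP_122e00_nt.TS
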