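import Pool.Agent.Work.MP_122e00_nt.TS.Stmts9

/-!
# Thin shifts, item Y9: powers of `ta`
-/

set_option autoImplicit false

namespace Pool.Agent.Work.MP_122e00_nt.TS

open Finset Filter Topology ArithmeticFunction
open scoped ArithmeticFunction.zeta ArithmeticFunction.Moebius

namespace IY9

/-- the power function -/
noncomputable def pf (s : ℝ) : ArithmeticFunction ℝ :=
  ⟨fun n => if n = 0 then 0 else (n : ℝ) ^ s, by simp⟩

theorem pf_apply (s : ℝ) {n : ℕ} (hn : n ≠ 0) : pf s n = (n : ℝ) ^ s := by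
  show (if n = 0 then (0 : ℝ) else (n : ℝ) ^ s) = _
  rw [if_neg hn]

theorem pf_mult (s : ℝ) : (pf s).IsMultiplicative := by
  refine ⟨?_, ?_⟩
  · rw [pf_apply s one_ne_zero]
    simp
  · intro m n _
    by_cases hm : m = 0
    · subst hm
      simp
    by_cases hn : n = 0
    · subst hn
      simp
    rw [pf_apply s (mul_ne_zero hm hn), pf_apply s hm, pf_apply s hn, Nat.cast_mul,
      Real.mul_rpow (Nat.cast_nonneg _) (Nat.cast_nonneg _)]

/-- the divisor sum of the power function -/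
noncomputable def S (s : ℝ) (h : ℕ) : ℝ := ∑ L ∈ h.divisors, (L : ℝ) ^ s

theorem S_eq (s : ℝ) (h : ℕ) : S s h = (pf s * (ζ : ArithmeticFunction ℝ)) h := by
  rw [ArithmeticFunction.coe_mul_zeta_apply]
  unfold S
  exact Finset.sum_congr rfl fun L hL => (pf_apply s (Nat.pos_of_mem_divisors hL).ne').symm

theorem S_mul (s : ℝ) {a b : ℕ} (hab : Nat.Coprime a b) : S s (a * b) = S s a * S s b := by
  rw [S_eq, S_eq, S_eq]
  exact ((pf_mult s).mul isMultiplicative_zeta.natCast).map_mul_of_coprime hab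

theorem S_pp (s : ℝ) {p : ℕ} (hp : p.Prime) (k : ℕ) :
    S s (p ^ k) = ∑ j ∈ Finset.range (k + 1), ((p : ℝ) ^ s) ^ j := by
  unfold S
  rw [Nat.sum_divisors_prime_pow hp]
  refine Finset.sum_congr rfl fun j _ => ?_
  rw [Nat.cast_pow, ← Real.rpow_natCast, ← Real.rpow_mul (Nat.cast_nonneg _),
    ← Real.rpow_natCast, ← Real.rpow_mul (Nat.cast_nonneg _), mul_comm]

theorem S_pos (s : ℝ) {h : ℕ} (hh : 1 ≤ h) : 1 ≤ S s h := by
  unfold S
  have h1 : (1 : ℕ) ∈ h.divisors := Nat.mem_divisors.2 ⟨one_dvd _, by omega⟩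
  have h2 := Finset.single_le_sum (f := fun L : ℕ => (L : ℝ) ^ s)
    (fun L _ => Real.rpow_nonneg (Nat.cast_nonneg L) s) h1
  simpa using h2

theorem geo {a : ℝ} (h0 : 0 ≤ a) (h1 : a < 1) (k : ℕ) :
    ∑ j ∈ Finset.range (k + 1), a ^ j ≤ (1 - a)⁻¹ := by
  have h2 : (∑ j ∈ Finset.range (k + 1), a ^ j) * (1 - a) = 1 - a ^ (k + 1) := by
    have := geom_sum_mul a (k + 1)
    linarith
  rw [← one_div, le_div_iff₀ (by linarith), h2]
  have : 0 ≤ a ^ (k + 1) := by positivity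
  linarith

/-- large primes -/
theorem large (m : ℕ) {b : ℝ} (hb : 0 ≤ b) (hb1 : b < 1) (hm : (m : ℝ) * b * (1 + b) ≤ 1) :
    ((1 - b ^ 2)⁻¹) ^ m ≤ 1 + b := by
  have h1 : 0 < 1 - b ^ 2 := by nlinarith
  have h2 : 1 - (m : ℝ) * b ^ 2 ≤ (1 - b ^ 2) ^ m := by
    have := one_add_mul_le_pow (show (-2 : ℝ) ≤ -b ^ 2 by nlinarith) m
    have e : (1 : ℝ) + -b ^ 2 = 1 - b ^ 2 := by ring
    rw [e] at this
    linarith
  rw [inv_pow, ← one_div, div_le_iff₀ (pow_pos h1 m)]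
  calc (1 : ℝ) ≤ (1 + b) * (1 - (m : ℝ) * b ^ 2) := by nlinarith
    _ ≤ (1 + b) * (1 - b ^ 2) ^ m := mul_le_mul_of_nonneg_left h2 (by linarith)

/-- the exceptional factor -/
noncomputable def G (p0 : ℕ) (C0 : ℝ) (h : ℕ) : ℝ :=
  ∏ p ∈ h.primeFactors, if p < p0 then C0 else 1

theorem G_nonneg (p0 : ℕ) {C0 : ℝ} (hC : 1 ≤ C0) (h : ℕ) : 0 ≤ G p0 C0 h := by
  unfold G
  refine Finset.prod_nonneg fun p _ => ?_
  split_ifs <;> linarith

theorem G_mul (p0 : ℕ) (C0 : ℝ) {a b : ℕ} (hab : Nat.Coprime a b) :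
    G p0 C0 (a * b) = G p0 C0 a * G p0 C0 b := by
  unfold G
  rw [hab.primeFactors_mul, Finset.prod_union hab.disjoint_primeFactors]

theorem G_le (p0 : ℕ) {C0 : ℝ} (hC : 1 ≤ C0) (h : ℕ) : G p0 C0 h ≤ C0 ^ p0 := by
  unfold G
  rw [← Finset.prod_filter, Finset.prod_const]
  refine pow_le_pow_right₀ hC ?_
  calc (h.primeFactors.filter (· < p0)).card ≤ (Finset.range p0).card :=
        Finset.card_le_card fun p hp => Finset.mem_range.2 (Finset.mem_filter.1 hp).2
    _ = p0 := Finset.card_range p0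

end IY9

open IY9 in
theorem prY9 : tsY9 := by
  intro m
  set c : ℝ := (1 - (2 : ℝ) ^ (-(1 / 2) : ℝ))⁻¹ with hc
  have hr : (2 : ℝ) ^ (-(1 / 2) : ℝ) < 1 := by
    apply Real.rpow_lt_one_of_one_lt_of_neg <;> norm_num
  have hr0 : 0 < (2 : ℝ) ^ (-(1 / 2) : ℝ) := by positivity
  have hc1 : 1 ≤ c := by
    rw [hc]
    exact (one_le_inv₀ (by linarith)).2 (by linarith)
  have hC0 : 1 ≤ c ^ m := one_le_pow₀ hc1
  set p0 : ℕ := (2 * m) ^ 4 + 2 with hp0
  refine ⟨(c ^ m) ^ p0, by positivity, fun h hh => ?_⟩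
  have key : ∀ h : ℕ, 1 ≤ h →
      S (-(1 / 2)) h ^ m ≤ G p0 (c ^ m) h * S (-(1 / 4)) h := by
    intro h
    induction h using Nat.recOnPosPrimePosCoprime with
    | prime_pow p n hp hn =>
      intro _
      have hp1 : (1 : ℝ) < p := by exact_mod_cast hp.one_lt
      have hp2 : (2 : ℝ) ≤ p := by exact_mod_cast hp.two_le
      have hb0 : 0 < (p : ℝ) ^ (-(1 / 4) : ℝ) := by positivity
      have hb1 : (p : ℝ) ^ (-(1 / 4) : ℝ) < 1 :=
        Real.rpow_lt_one_of_one_lt_of_neg hp1 (by norm_num)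
      have hab : (p : ℝ) ^ (-(1 / 2) : ℝ) = ((p : ℝ) ^ (-(1 / 4) : ℝ)) ^ 2 := by
        rw [← Real.rpow_natCast, ← Real.rpow_mul (by positivity)]
        norm_num
      have ha0 : 0 ≤ (p : ℝ) ^ (-(1 / 2) : ℝ) := by positivity
      have ha1 : (p : ℝ) ^ (-(1 / 2) : ℝ) < 1 :=
        Real.rpow_lt_one_of_one_lt_of_neg hp1 (by norm_num)
      have hG : G p0 (c ^ m) (p ^ n) = if p < p0 then c ^ m else 1 := by
        unfold G
        rw [Nat.primeFactors_prime_pow hn.ne' hp, Finset.prod_singleton]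
      have hS : S (-(1 / 2)) (p ^ n) ≤ (1 - (p : ℝ) ^ (-(1 / 2) : ℝ))⁻¹ := by
        rw [S_pp _ hp]
        exact geo ha0 ha1 n
      have hS0 : 0 ≤ S (-(1 / 2)) (p ^ n) :=
        le_trans zero_le_one (S_pos _ (Nat.one_le_iff_ne_zero.2 (pow_ne_zero _ hp.ne_zero)))
      have hS1 : 1 ≤ S (-(1 / 4)) (p ^ n) :=
        S_pos _ (Nat.one_le_iff_ne_zero.2 (pow_ne_zero _ hp.ne_zero))
      rw [hG]
      split_ifs with hlt
      · have h1 : (1 - (p : ℝ) ^ (-(1 / 2) : ℝ))⁻¹ ≤ c := by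
          rw [hc]
          apply inv_anti₀ (by linarith)
          have : (p : ℝ) ^ (-(1 / 2) : ℝ) ≤ (2 : ℝ) ^ (-(1 / 2) : ℝ) :=
            Real.rpow_le_rpow_of_nonpos (by norm_num) hp2 (by norm_num)
          linarith
        calc S (-(1 / 2)) (p ^ n) ^ m ≤ c ^ m := pow_le_pow_left₀ hS0 (le_trans hS h1) m
          _ = c ^ m * 1 := (mul_one _).symm
          _ ≤ c ^ m * S (-(1 / 4)) (p ^ n) := mul_le_mul_of_nonneg_left hS1 (by positivity)
      · rw [one_mul]
        have hm : (m : ℝ) * (p : ℝ) ^ (-(1 / 4) : ℝ) * (1 + (p : ℝ) ^ (-(1 / 4) : ℝ)) ≤ 1 := by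
          rcases Nat.eq_zero_or_pos m with hm0 | hm0
          · subst hm0
            simp
          · have hm1 : (0 : ℝ) < m := by exact_mod_cast hm0
            have h2 : ((2 * m : ℕ) : ℝ) ^ (4 : ℕ) ≤ p := by
              have : (2 * m) ^ 4 ≤ p := by omega
              exact_mod_cast this
            have h3 : (p : ℝ) ^ (-(1 / 4) : ℝ) ≤ (2 * (m : ℝ))⁻¹ := by
              have h4 : (p : ℝ) ^ (-(1 / 4) : ℝ) ≤
                  (((2 * m : ℕ) : ℝ) ^ (4 : ℕ)) ^ (-(1 / 4) : ℝ) :=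
                Real.rpow_le_rpow_of_nonpos (by positivity) h2 (by norm_num)
              refine le_trans h4 (le_of_eq ?_)
              rw [← Real.rpow_natCast, ← Real.rpow_mul (by positivity)]
              have e : ((4 : ℕ) : ℝ) * (-(1 / 4)) = -1 := by norm_num
              rw [e, Real.rpow_neg_one]
              push_cast
              rfl
            have h5 : (m : ℝ) * (p : ℝ) ^ (-(1 / 4) : ℝ) ≤ 1 / 2 := by
              calc (m : ℝ) * (p : ℝ) ^ (-(1 / 4) : ℝ) ≤ m * (2 * (m : ℝ))⁻¹ :=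
                    mul_le_mul_of_nonneg_left h3 hm1.le
                _ = 1 / 2 := by field_simp
            have h6 : 0 ≤ (m : ℝ) * (p : ℝ) ^ (-(1 / 4) : ℝ) := by positivity
            nlinarith
        have h7 : S (-(1 / 2)) (p ^ n) ^ m ≤ 1 + (p : ℝ) ^ (-(1 / 4) : ℝ) := by
          refine le_trans (pow_le_pow_left₀ hS0 hS m) ?_
          rw [hab]
          exact large m hb0.le hb1 hm
        refine le_trans h7 ?_
        rw [S_pp _ hp]
        have h8 : Finset.range 2 ⊆ Finset.range (n + 1) := by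
          intro i hi
          rw [Finset.mem_range] at hi ⊢
          omega
        have h9 := Finset.sum_le_sum_of_subset_of_nonneg h8
          (f := fun j => ((p : ℝ) ^ (-(1 / 4) : ℝ)) ^ j) (fun j _ _ => by positivity)
        have h10 : ∑ j ∈ Finset.range 2, ((p : ℝ) ^ (-(1 / 4) : ℝ)) ^ j =
            1 + (p : ℝ) ^ (-(1 / 4) : ℝ) := by
          rw [Finset.sum_range_succ, Finset.sum_range_one, pow_zero, pow_one]
        rw [h10] at h9
        exact h9
    | zero => intro h0; omega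
    | one =>
      intro _
      have e1 : S (-(1 / 2)) 1 = 1 := by simp [S]
      have e2 : S (-(1 / 4)) 1 = 1 := by simp [S]
      have e3 : G p0 (c ^ m) 1 = 1 := by simp [G]
      rw [e1, e2, e3]
      simp
    | coprime a b ha hb hab iha ihb =>
      intro _
      rw [S_mul _ hab, S_mul _ hab, G_mul _ _ hab, mul_pow]
      have h1 := iha ha.le
      have h2 := ihb hb.le
      have h3 : 0 ≤ S (-(1 / 2)) b ^ m :=
        pow_nonneg (le_trans zero_le_one (S_pos _ hb.le)) m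
      have h4 : 0 ≤ G p0 (c ^ m) a * S (-(1 / 4)) a :=
        mul_nonneg (G_nonneg _ hC0 _) (le_trans zero_le_one (S_pos _ ha.le))
      calc S (-(1 / 2)) a ^ m * S (-(1 / 2)) b ^ m
          ≤ (G p0 (c ^ m) a * S (-(1 / 4)) a) * (G p0 (c ^ m) b * S (-(1 / 4)) b) :=
            mul_le_mul h1 h2 h3 h4
        _ = _ := by ring
  have h1 := key h hh
  have h2 : 0 ≤ S (-(1 / 4)) h := le_trans zero_le_one (S_pos _ hh)
  calc ta h ^ m = S (-(1 / 2)) h ^ m := rfl
    _ ≤ G p0 (c ^ m) h * S (-(1 / 4)) h := h1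
    _ ≤ (c ^ m) ^ p0 * S (-(1 / 4)) h := mul_le_mul_of_nonneg_right (G_le p0 hC0 h) h2

end Pool.Agent.Work.MP_122e00_nt.TS
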