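import Pool.Agent.Work.MP_122e00_nt.TS.Stmts10

/-!
# Thin shifts, item Z7: few exceptions for fixed `X`, power saving
-/

set_option autoImplicit false

namespace Pool.Agent.Work.MP_122e00_nt.TS

open Finset Filter Topology ArithmeticFunction MeasureTheory
open scoped ArithmeticFunction.zeta ArithmeticFunction.Moebius

namespace IZ7

lemma cheb (s : Finset ℕ) (g : ℕ → ℝ) (t T : ℝ) (p : ℕ → Prop) [DecidablePred p] (ht : 0 < t)
    (h0 : ∀ k ∈ s, 0 ≤ g k) (hp : ∀ k ∈ s, p k → t ≤ g k) (hT : ∑ k ∈ s, g k ≤ T) :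
    ((s.filter p).card : ℝ) ≤ T / t := by
  rw [le_div_iff₀ ht]
  calc ((s.filter p).card : ℝ) * t = ∑ k ∈ s.filter p, t := by
        rw [Finset.sum_const, nsmul_eq_mul]
    _ ≤ ∑ k ∈ s.filter p, g k := Finset.sum_le_sum (fun k hk => by
        rw [Finset.mem_filter] at hk; exact hp k hk.1 hk.2)
    _ ≤ ∑ k ∈ s, g k := Finset.sum_le_sum_of_subset_of_nonneg (Finset.filter_subset _ _)
        (fun k hk _ => h0 k hk)
    _ ≤ T := hT

lemma large (CF θ : ℝ) (hθ : θ < 1) : ∃ X0 : ℝ, ∀ X : ℝ, X0 ≤ X →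
    3 ≤ X ∧ CF ≤ X ^ ((1 - θ) / 2) := by
  have e1 : ∀ᶠ X : ℝ in atTop, 3 ≤ X := eventually_ge_atTop 3
  have e2 : ∀ᶠ X : ℝ in atTop, CF ≤ X ^ ((1 - θ) / 2) :=
    (tendsto_rpow_atTop (by linarith)).eventually_ge_atTop CF
  obtain ⟨X0, h⟩ := eventually_atTop.1 (e1.and e2)
  exact ⟨X0, fun X hX => h X hX⟩

end IZ7

open Classical in
theorem prZ7 (hH2 : tsH2) (hK17 : tsK17) (hY1 : tsY1) (hZ6 : tsZ6) : tsZ7 := by
  intro r E hr hAP hCB F A hF1 hF2 hF3 θa θ η hθa hθaθ hθ hη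
  have hθ0 : 0 < θ := hθa.trans hθaθ
  obtain ⟨θw, hθw⟩ : ∃ θw : ℝ, θw = min (θa / 3) (1 / 4) := ⟨_, rfl⟩
  have hw0 : 0 < θw := by rw [hθw]; exact lt_min (by linarith) (by norm_num)
  have hw1 : θw ≤ 1 / 4 := by rw [hθw]; exact min_le_right _ _
  have hw2 : θw ≤ θa / 3 := by rw [hθw]; exact min_le_left _ _
  obtain ⟨ε₂, η₁, hε0, hεw, hη₁, h10⟩ := hZ6 r E hr hAP hCB θw ((1 + θ) / 2) η hw0 hw1
    (by linarith) (by linarith) hη
  obtain ⟨η₀, hη₀, h17⟩ := hK17 r E (by omega) hAP hCB ε₂ θw (2 * θa / 3) ((1 + θ) / 2) hε0 hεw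
    (by linarith) hw1 (by linarith) (by linarith)
  obtain ⟨η₂, hη₂⟩ : ∃ η₂ : ℝ, η₂ = min (min η₁ η₀) (1 / 100) := ⟨_, rfl⟩
  have h20 : 0 < η₂ := by rw [hη₂]; exact lt_min (lt_min hη₁ hη₀) (by norm_num)
  have h2c : η₂ ≤ 1 / 100 := by rw [hη₂]; exact min_le_right _ _
  have h2a : η₂ ≤ η₁ := by rw [hη₂]; exact (min_le_left _ _).trans (min_le_left _ _)
  have h2b : η₂ ≤ η₀ := by rw [hη₂]; exact (min_le_left _ _).trans (min_le_right _ _)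
  obtain ⟨δ, X0, hδ, hSI⟩ := h17 η₂ h20 h2b
  obtain ⟨δ'', X1, hδ'', h1⟩ := hY1 r E ε₂ θw η₂ δ X0 (2 * θa / 3) ((1 + θ) / 2) θa θ hr hAP hCB
    hε0 hεw hw1 h20 h2c hδ (by linarith) (by linarith) (by linarith) (by linarith) hSI F A hF1 hF2
    hF3
  obtain ⟨X2, h10'⟩ := h10 η₂ (δ'' / 4) h20 h2a (by linarith)
  obtain ⟨A', c, CF, hc, hCF, -, hCF'⟩ := hH2 F hF1 hF2
  obtain ⟨X3, h3⟩ := IZ7.large CF θ hθ
  refine ⟨δ'' / 2, max (max X1 X2) X3, by positivity, fun X K hX hXa hXb => ?_⟩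
  have hX1 : X1 ≤ X := (le_max_left _ _).trans ((le_max_left _ _).trans hX)
  have hX2 : X2 ≤ X := (le_max_right _ _).trans ((le_max_left _ _).trans hX)
  obtain ⟨hX3, hXF⟩ := h3 X ((le_max_right _ _).trans hX)
  have hXpos : 0 < X := by linarith
  -- `K ≥ 1`
  have hK1 : 1 ≤ K := by
    by_contra hK
    have hK0 : K = 0 := by omega
    rw [hK0, Nat.cast_zero, zero_pow (by omega)] at hXa
    exact absurd hXa (not_le.2 (Real.rpow_pos_of_pos hXpos _))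
  have hKpos : (0 : ℝ) < K := by exact_mod_cast hK1
  -- the size of the shifts
  have hsize : ∀ k ∈ Finset.Ioc A K, 1 ≤ fv F k ∧ ((fv F k : ℕ) : ℝ) ≤ X ^ ((1 + θ) / 2) := by
    intro k hk
    rw [Finset.mem_Ioc] at hk
    have hF := hF3 k hk.1
    have hcast : ((fv F k : ℕ) : ℤ) = F.eval (k : ℤ) := by
      unfold fv
      exact Int.toNat_of_nonneg (by omega)
    have h1' : 1 ≤ fv F k := by omega
    refine ⟨h1', ?_⟩
    have hcastR : ((fv F k : ℕ) : ℝ) = ((F.eval (k : ℤ) : ℤ) : ℝ) := by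
      rw [← hcast]; push_cast; rfl
    rw [hcastR]
    have hk1 : 1 ≤ k := by omega
    calc ((F.eval (k : ℤ) : ℤ) : ℝ) ≤ |((F.eval (k : ℤ) : ℤ) : ℝ)| := le_abs_self _
      _ ≤ CF * (k : ℝ) ^ F.natDegree := hCF' k hk1
      _ ≤ CF * (K : ℝ) ^ F.natDegree := by
          have : (k : ℝ) ≤ K := by exact_mod_cast hk.2
          gcongr
      _ ≤ X ^ ((1 - θ) / 2) * X ^ θ := by
          gcongr
      _ = X ^ ((1 + θ) / 2) := by
          rw [← Real.rpow_add hXpos]; congr 1; ring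
  -- the exceptional set
  have hsub : (Finset.Ioc A K).filter (fun k => ¬ Gx r η X (fv F k)) ⊆
      (Finset.Ioc A K).filter (fun k => X ^ (1 - δ'' / 4) <
        |cor (fu r E (X ^ ε₂) (X ^ θw) ⌊X ^ η₂⌋₊) (dr r) ⌊X⌋₊ (fv F k)|) := by
    intro k hk
    rw [Finset.mem_filter] at hk
    rw [Finset.mem_filter]
    refine ⟨hk.1, ?_⟩
    by_contra hcon
    push Not at hcon
    obtain ⟨hs1, hs2⟩ := hsize k hk.1
    exact hk.2 (h10' X (fv F k) hX2 hs1 hs2 hcon)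
  have hcard1 : (((Finset.Ioc A K).filter (fun k => X ^ (1 - δ'' / 4) <
        |cor (fu r E (X ^ ε₂) (X ^ θw) ⌊X ^ η₂⌋₊) (dr r) ⌊X⌋₊ (fv F k)|)).card : ℝ) ≤
      K * X ^ (-(δ'' / 2)) := by
    have hc := IZ7.cheb (Finset.Ioc A K)
      (fun k => cor (fu r E (X ^ ε₂) (X ^ θw) ⌊X ^ η₂⌋₊) (dr r) ⌊X⌋₊ (fv F k) ^ 2)
      (X ^ (2 - δ'' / 2)) (K * X ^ (2 - δ''))
      (fun k => X ^ (1 - δ'' / 4) <
        |cor (fu r E (X ^ ε₂) (X ^ θw) ⌊X ^ η₂⌋₊) (dr r) ⌊X⌋₊ (fv F k)|)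
      (Real.rpow_pos_of_pos hXpos _) (fun k _ => sq_nonneg _)
      (fun k _ hk => by
        have e1 : X ^ (2 - δ'' / 2) = (X ^ (1 - δ'' / 4)) ^ 2 := by
          rw [← Real.rpow_natCast, ← Real.rpow_mul hXpos.le]; congr 1; push_cast; ring
        rw [e1, ← sq_abs (cor _ _ _ _)]
        exact pow_le_pow_left₀ (Real.rpow_nonneg hXpos.le _) hk.le 2)
      (h1 X K hX1 hXa hXb)
    refine hc.trans (le_of_eq ?_)
    have e2 : X ^ (2 - δ'') = X ^ (2 - δ'' / 2) * X ^ (-(δ'' / 2)) := by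
      rw [← Real.rpow_add hXpos]; congr 1; ring
    have hp1 : 0 < X ^ (2 - δ'' / 2) := Real.rpow_pos_of_pos hXpos _
    rw [e2]
    field_simp
  calc (((Finset.Ioc A K).filter (fun k => ¬ Gx r η X (fv F k))).card : ℝ)
      ≤ (((Finset.Ioc A K).filter (fun k => X ^ (1 - δ'' / 4) <
          |cor (fu r E (X ^ ε₂) (X ^ θw) ⌊X ^ η₂⌋₊) (dr r) ⌊X⌋₊ (fv F k)|)).card : ℝ) := by
          exact_mod_cast Finset.card_le_card hsub
    _ ≤ K * X ^ (-(δ'' / 2)) := hcard1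

end Pool.Agent.Work.MP_122e00_nt.TS
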