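import Pool.Agent.Work.MP_122e00_nt.TS.Stmts10
import Pool.Agent.Work.MP_122e00_nt.TS.I_Y12

/-! Item Z8: all `X` at once, with a power saving. -/

namespace Pool.Agent.Work.MP_122e00_nt.TS

open Finset Filter Topology ArithmeticFunction MeasureTheory
open scoped ArithmeticFunction.zeta ArithmeticFunction.Moebius

open IY12 in
theorem prZ8 (h2 : tsH2) (h7 : tsZ7) : tsZ8 := by
  classical
  intro r E hr hAP hCB F hF1 hF2 a b η ha hab hb hη
  obtain ⟨A, c, C, hc, hC, hA, hCk⟩ := h2 F hF1 hF2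
  set d := F.natDegree with hd
  have hb0 : 0 < b := ha.trans hab
  set e := min η 1 with he
  have he0 : 0 < e := lt_min hη one_pos
  have he1 : e ≤ 1 := min_le_right _ _
  have heη : e ≤ η := min_le_left _ _
  obtain ⟨δ, X0, hδ, hmain⟩ := h7 r E hr hAP hCB F A hF1 hF2 (fun k hk => (hA k hk).1)
    (a / 2) ((1 + b) / 2) (e / 4) (by positivity) (by linarith) (by linarith)
    (by positivity)
  have hr0 : (0 : ℝ) < r := by exact_mod_cast (by omega : 0 < r)
  set κ := e / (16 * r) with hκ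
  have hκ0 : 0 < κ := by positivity
  have hκ1 : κ ≤ 1 := by
    rw [hκ, div_le_one (by positivity)]
    have : (1 : ℝ) ≤ r := by exact_mod_cast (by omega : 1 ≤ r)
    linarith
  have hk := kappa hr he0 he1
  rw [← hκ] at hk
  have hl : 0 < Real.log (1 + κ) := Real.log_pos (by linarith)
  set s := (1 + b) / 2 / b with hs
  have hs1 : 1 < s := by rw [hs, lt_div_iff₀ hb0]; linarith
  set u := c / 2 ^ d with hu
  have hu0 : 0 < u := by positivity
  set W := 2 / u ^ s with hW
  have hW0 : 0 < W := div_pos two_pos (Real.rpow_pos_of_pos hu0 s)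
  set C1 := 2 * d / (a * Real.log (1 + κ)) + 1 with hC1
  have hC10 : 0 ≤ C1 := by positivity
  set V := (C1 + 1) / (δ / 4) with hV
  have hV0 : 0 < V := by positivity
  refine ⟨min (δ / 2) (1 / 2), max (V ^ (1 / (δ / 4)))
    (max (max 3 (2 * (A + 1))) (max X0 (max (4 * C) (W ^ (1 / (s - 1)))))),
    lt_min (by positivity) (by norm_num), (min_le_right _ _).trans_lt (by norm_num),
    fun K hK' => ?_⟩
  have hKV : V ^ (1 / (δ / 4)) ≤ K := (le_max_left _ _).trans hK'
  have hK := (le_max_right _ _).trans hK'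
  have hK3 : (3 : ℝ) ≤ K := ((le_max_left _ _).trans (le_max_left _ _)).trans hK
  have hKA : (2 * (A + 1) : ℝ) ≤ K := ((le_max_right _ _).trans (le_max_left _ _)).trans hK
  have hKX : X0 ≤ K := ((le_max_left _ _).trans (le_max_right _ _)).trans hK
  have hKC : 4 * C ≤ K :=
    (((le_max_left _ _).trans (le_max_right _ _)).trans (le_max_right _ _)).trans hK
  have hKW : W ^ (1 / (s - 1)) ≤ K :=
    (((le_max_right _ _).trans (le_max_right _ _)).trans (le_max_right _ _)).trans hK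
  have hK0 : (0 : ℝ) < K := by linarith
  set T := (K : ℝ) ^ d with hT
  have hTK : (K : ℝ) ≤ T := by
    calc (K : ℝ) = (K : ℝ) ^ 1 := (pow_one _).symm
      _ ≤ T := pow_le_pow_right₀ (by linarith) hF1
  have hT1 : 1 ≤ T := by linarith
  have hlK : 1 ≤ Real.log K := by
    rw [Real.le_log_iff_exp_le hK0]
    exact (Real.exp_one_lt_d9.le.trans (by norm_num)).trans hK3
  have hTW : W ≤ T ^ (s - 1) := by
    have h1 : W = (W ^ (1 / (s - 1))) ^ (s - 1) := by
      rw [← Real.rpow_mul hW0.le, one_div, inv_mul_cancel₀ (by linarith), Real.rpow_one]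
    rw [h1]
    exact Real.rpow_le_rpow (Real.rpow_nonneg hW0.le _) (hKW.trans hTK) (by linarith)
  -- the grid
  set J := (Finset.range (⌊C1 * Real.log K⌋₊ + 1)).filter (fun j =>
    ((1 + κ) ^ j) ^ (a / 2) ≤ T ∧ T ≤ ((1 + κ) ^ j) ^ ((1 + b) / 2) ∧ (K : ℝ) ≤ (1 + κ) ^ j) with hJ
  set Ex := fun j : ℕ => (Finset.Ioc A K).filter (fun k => ¬ Gx r (e / 4) ((1 + κ) ^ j) (fv F k))
    with hEx
  have hcover : {k : ℕ | Bad r F a b η k ∧ K < 2 * k ∧ k ≤ K} ⊆ ((J.biUnion Ex : Finset ℕ) : Set ℕ) := by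
    rintro k ⟨hbad, hk1, hk2⟩
    have hkA : A < k := by
      have h1 : (2 * (A + 1) : ℝ) < 2 * k := lt_of_le_of_lt hKA (by exact_mod_cast hk1)
      have h2 : 2 * (A + 1) < 2 * k := by exact_mod_cast h1
      omega
    have hFk := hA k hkA
    rcases hbad with hbad | ⟨X, hX1, hXa, hXb, hG⟩
    · exact absurd hFk.1 hbad
    have hfv : 1 ≤ fv F k := by
      unfold fv
      have := hFk.1
      omega
    set hv : ℝ := ((F.eval (k : ℤ) : ℤ) : ℝ) with hhv
    have hk0 : 1 ≤ k := by omega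
    have hkR : (K : ℝ) / 2 ≤ k := by
      have : (K : ℝ) ≤ 2 * k := by exact_mod_cast hk1.le
      linarith
    have hkK : (k : ℝ) ≤ K := by exact_mod_cast hk2
    have h3 : u * T ≤ hv := by
      calc u * T = c * ((K : ℝ) / 2) ^ d := by rw [hu, hT, div_pow]; ring
        _ ≤ c * (k : ℝ) ^ d :=
            mul_le_mul_of_nonneg_left (pow_le_pow_left₀ (by positivity) hkR d) hc.le
        _ ≤ hv := hFk.2
    have h4 : hv ≤ C * T := by
      calc hv ≤ |hv| := le_abs_self _
        _ ≤ C * (k : ℝ) ^ d := hCk k hk0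
        _ ≤ C * T := mul_le_mul_of_nonneg_left (pow_le_pow_left₀ (by positivity) hkK d) hC.le
    -- the place in the grid
    set i := ⌊Real.log X / Real.log (1 + κ)⌋₊ with hi
    have hlX0 : 0 ≤ Real.log X := Real.log_nonneg hX1
    have hi1 : (i : ℝ) * Real.log (1 + κ) ≤ Real.log X := by
      have := Nat.floor_le (div_nonneg hlX0 hl.le)
      rwa [← hi, le_div_iff₀ hl] at this
    have hi2 : Real.log X ≤ ((i : ℝ) + 1) * Real.log (1 + κ) := by
      have := (Nat.lt_floor_add_one (Real.log X / Real.log (1 + κ))).le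
      rwa [← hi, div_le_iff₀ hl] at this
    have hp : ∀ j : ℕ, Real.log ((1 + κ) ^ j) = j * Real.log (1 + κ) := fun j => Real.log_pow _ _
    have hpp : ∀ j : ℕ, 1 ≤ (1 + κ) ^ j := fun j => one_le_pow₀ (by linarith)
    have hXi : (1 + κ) ^ i ≤ X := by
      rw [← Real.log_le_log_iff (by positivity) (by linarith), hp]
      exact hi1
    have hXi1 : X ≤ (1 + κ) * (1 + κ) ^ i := by
      rw [← pow_succ', ← Real.log_le_log_iff (by linarith) (by positivity), hp]
      push_cast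
      exact hi2
    have hn1 : X / 2 ≤ (1 + κ) ^ i := by
      have : (1 + κ) * (1 + κ) ^ i ≤ 2 * (1 + κ) ^ i :=
        mul_le_mul_of_nonneg_right (by linarith) (by positivity)
      linarith
    have hn2 : (1 + κ) ^ i ≤ 2 * X := by linarith
    have hn3 : X / 2 ≤ (1 + κ) ^ (i + 1) := by rw [pow_succ']; linarith
    have hn4 : (1 + κ) ^ (i + 1) ≤ 2 * X := by
      rw [pow_succ']
      calc (1 + κ) * (1 + κ) ^ i ≤ 2 * X :=
            mul_le_mul (by linarith) hXi (by positivity) (by norm_num)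
        _ = 2 * X := rfl
    have r1 := range_ok ha hab hb hu0 hT1 hC (hKC.trans hTK) hTW hX1 hXa hXb h3 h4 hn1 hn2 (hpp i)
    have r2 := range_ok ha hab hb hu0 hT1 hC (hKC.trans hTK) hTW hX1 hXa hXb h3 h4 hn3 hn4
      (hpp (i + 1))
    -- number of the grid points
    have hcount : ((i : ℝ) + 1) ≤ C1 * Real.log K := by
      have g1 : X ^ a ≤ T ^ 2 := by
        calc X ^ a ≤ C * T := hXa.trans h4
          _ ≤ T * T := mul_le_mul_of_nonneg_right (by linarith) (by linarith)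
          _ = T ^ 2 := by ring
      have g2 : a * Real.log X ≤ 2 * (d * Real.log K) := by
        have := Real.log_le_log (Real.rpow_pos_of_pos (by linarith) a) g1
        rw [Real.log_rpow (by linarith), Real.log_pow, hT, Real.log_pow] at this
        exact_mod_cast this
      have g3 : (i : ℝ) ≤ 2 * d / (a * Real.log (1 + κ)) * Real.log K := by
        rw [div_mul_eq_mul_div, le_div_iff₀ (by positivity)]
        calc (i : ℝ) * (a * Real.log (1 + κ)) = a * (i * Real.log (1 + κ)) := by ring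
          _ ≤ a * Real.log X := mul_le_mul_of_nonneg_left hi1 ha.le
          _ ≤ 2 * (d * Real.log K) := g2
          _ = 2 * d * Real.log K := by ring
      rw [hC1, add_mul, one_mul]
      linarith
    have hmem : ∀ j : ℕ, j ≤ i + 1 → ((1 + κ) ^ j) ^ (a / 2) ≤ T ∧
        T ≤ ((1 + κ) ^ j) ^ ((1 + b) / 2) ∧ T ≤ (1 + κ) ^ j → j ∈ J := by
      intro j hj hjc
      rw [hJ, Finset.mem_filter, Finset.mem_range]
      refine ⟨?_, hjc.1, hjc.2.1, hTK.trans hjc.2.2⟩
      have : j ≤ ⌊C1 * Real.log K⌋₊ := by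
        rw [Nat.le_floor_iff (by positivity)]
        have : (j : ℝ) ≤ i + 1 := by exact_mod_cast hj
        linarith
      omega
    have hiJ : i ∈ J := hmem i (by omega) r1
    have hi1J : i + 1 ∈ J := hmem (i + 1) le_rfl r2
    by_contra hcon
    have hno : ∀ j ∈ J, Gx r (e / 4) ((1 + κ) ^ j) (fv F k) := by
      intro j hj
      by_contra hg
      apply hcon
      rw [Finset.mem_coe, Finset.mem_biUnion]
      exact ⟨j, hj, Finset.mem_filter.2 ⟨Finset.mem_Ioc.2 ⟨hkA, hk2⟩, hg⟩⟩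
    apply hG
    have hKi : (K : ℝ) ≤ (1 + κ) ^ i := hTK.trans r1.2.2
    have hg2 := hno (i + 1) hi1J
    rw [pow_succ'] at hg2
    exact interp hr hfv he0 he1 heη hκ0 hk
      (hlK.trans (Real.log_le_log hK0 hKi)) (hpp i) hXi hXi1 (hno i hiJ) hg2
  have hcard : ∀ j ∈ J, ((Ex j).card : ℝ) ≤ (K : ℝ) ^ (1 - δ) := by
    intro j hj
    rw [hJ, Finset.mem_filter] at hj
    obtain ⟨-, hj1, hj2, hj3⟩ := hj
    have h := hmain ((1 + κ) ^ j) K (hKX.trans hj3) hj1 hj2
    have h' : ((Ex j).card : ℝ) ≤ K * ((1 + κ) ^ j) ^ (-δ) := by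
      have hcg : (Ex j).card = ((Finset.Ioc A K).filter
          (fun k => ¬ Gx r (e / 4) ((1 + κ) ^ j) (fv F k))).card := rfl
      rw [hcg]
      exact h
    refine h'.trans ?_
    rw [sub_eq_add_neg, Real.rpow_add hK0, Real.rpow_one]
    exact mul_le_mul_of_nonneg_left
      (Real.rpow_le_rpow_of_nonpos hK0 hj3 (by linarith)) hK0.le
  have hJcard : (J.card : ℝ) ≤ (C1 + 1) * Real.log K := by
    have h1 : J.card ≤ ⌊C1 * Real.log K⌋₊ + 1 := by
      refine (Finset.card_filter_le _ _).trans ?_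
      rw [Finset.card_range]
    have h2 : (⌊C1 * Real.log K⌋₊ : ℝ) ≤ C1 * Real.log K := Nat.floor_le (by positivity)
    have h3 : (J.card : ℝ) ≤ (⌊C1 * Real.log K⌋₊ : ℝ) + 1 := by exact_mod_cast h1
    linarith
  -- the logarithm is small
  have hlog : (C1 + 1) * Real.log K ≤ (K : ℝ) ^ (δ / 2) := by
    have e1 : Real.log K ≤ (K : ℝ) ^ (δ / 4) / (δ / 4) :=
      Real.log_le_rpow_div hK0.le (by positivity)
    have e2 : V ≤ (K : ℝ) ^ (δ / 4) := by
      have h1 : V = (V ^ (1 / (δ / 4))) ^ (δ / 4) := by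
        rw [← Real.rpow_mul hV0.le, one_div, inv_mul_cancel₀ (by positivity), Real.rpow_one]
      rw [h1]
      exact Real.rpow_le_rpow (Real.rpow_nonneg hV0.le _) hKV (by positivity)
    calc (C1 + 1) * Real.log K ≤ (C1 + 1) * ((K : ℝ) ^ (δ / 4) / (δ / 4)) :=
          mul_le_mul_of_nonneg_left e1 (by positivity)
      _ = V * (K : ℝ) ^ (δ / 4) := by rw [hV]; ring
      _ ≤ (K : ℝ) ^ (δ / 4) * (K : ℝ) ^ (δ / 4) :=
          mul_le_mul_of_nonneg_right e2 (Real.rpow_nonneg hK0.le _)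
      _ = (K : ℝ) ^ (δ / 2) := by
          rw [← Real.rpow_add hK0]
          congr 1
          ring
  calc (Set.ncard {k : ℕ | Bad r F a b η k ∧ K < 2 * k ∧ k ≤ K} : ℝ)
      ≤ ((J.biUnion Ex).card : ℝ) := by
        have := Set.ncard_le_ncard hcover (Finset.finite_toSet _)
        rw [Set.ncard_coe_finset] at this
        exact_mod_cast this
    _ ≤ ∑ j ∈ J, ((Ex j).card : ℝ) := by exact_mod_cast Finset.card_biUnion_le
    _ ≤ ∑ _j ∈ J, (K : ℝ) ^ (1 - δ) := Finset.sum_le_sum hcard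
    _ = J.card * (K : ℝ) ^ (1 - δ) := by rw [Finset.sum_const, nsmul_eq_mul]
    _ ≤ ((C1 + 1) * Real.log K) * (K : ℝ) ^ (1 - δ) :=
        mul_le_mul_of_nonneg_right hJcard (Real.rpow_nonneg hK0.le _)
    _ ≤ (K : ℝ) ^ (δ / 2) * (K : ℝ) ^ (1 - δ) :=
        mul_le_mul_of_nonneg_right hlog (Real.rpow_nonneg hK0.le _)
    _ = (K : ℝ) ^ (1 - δ / 2) := by
        rw [← Real.rpow_add hK0]
        congr 1
        ring
    _ ≤ (K : ℝ) ^ (1 - min (δ / 2) (1 / 2)) := by
        refine Real.rpow_le_rpow_of_exponent_le (by linarith) ?_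
        have := min_le_left (δ / 2) (1 / 2 : ℝ)
        linarith

end Pool.Agent.Work.MP_122e00_nt.TS
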