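import Pool.Agent.Work.WI.W2

/-!
# The Fourier transform of the Fejér kernel
-/

set_option autoImplicit false

namespace Pool.Agent.Work.MP_122e00_nt.TS

open MeasureTheory Set Filter Topology Complex
open scoped FourierTransform

/-- the Fejér kernel `(sin (π η t) / (π t))²` -/
noncomputable def V2_K (η t : ℝ) : ℝ := (Real.sin (Real.pi * η * t) / (Real.pi * t)) ^ 2

/-- the triangle function -/
noncomputable def V2_T (η x : ℝ) : ℝ := max (η - |x|) 0

theorem V2_K_eq (η t : ℝ) (ht : t ≠ 0) (hη : 0 < η) :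
    V2_K η t = η ^ 2 * WI.ker (-(2 * Real.pi * t) * η) := by
  have hπ := Real.pi_pos
  have h0 : -(2 * Real.pi * t) * η ≠ 0 := by
    simp [hη.ne', ht, hπ.ne']
  unfold V2_K WI.ker
  rw [if_neg h0]
  have h1 : Real.cos (-(2 * Real.pi * t) * η) = 1 - 2 * Real.sin (Real.pi * η * t) ^ 2 := by
    have : -(2 * Real.pi * t) * η = -(2 * (Real.pi * η * t)) := by ring
    rw [this, Real.cos_neg, Real.cos_two_mul, Real.cos_sq']
    ring
  rw [h1]
  field_simp
  ring

theorem V2_T_cont (η : ℝ) : Continuous (V2_T η) := by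
  unfold V2_T
  fun_prop

theorem V2_T_supp (η : ℝ) : ∀ x : ℝ, x ∉ Icc (-η) η → V2_T η x = 0 := by
  intro x hx
  unfold V2_T
  refine max_eq_right ?_
  rw [mem_Icc, not_and_or, not_le, not_le] at hx
  rcases hx with h | h
  · have := neg_abs_le x
    linarith
  · have := le_abs_self x
    linarith

theorem V2_T_int (η : ℝ) : Integrable (fun x => (V2_T η x : ℂ)) := by
  have h1 : Continuous (fun x => (V2_T η x : ℂ)) := by
    have := V2_T_cont η
    fun_prop
  refine h1.integrable_of_hasCompactSupport ?_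
  refine HasCompactSupport.intro (isCompact_Icc (a := -η) (b := η)) ?_
  intro x hx
  rw [V2_T_supp η x hx]
  simp

theorem V2_fourier (η : ℝ) (hη : 0 < η) (ξ : ℝ) :
    𝓕 (fun x => (V2_T η x : ℂ)) ξ = ((η ^ 2 * WI.ker (-(2 * Real.pi * ξ) * η) : ℝ) : ℂ) := by
  rw [Real.fourier_eq']
  have h1 : ∫ v : ℝ, Complex.exp (↑(-2 * Real.pi * inner ℝ v ξ) * I) • (V2_T η v : ℂ) =
      ∫ v in (-η)..η, Complex.exp (↑(-2 * Real.pi * inner ℝ v ξ) * I) • (V2_T η v : ℂ) := by
    rw [intervalIntegral.integral_of_le (by linarith)]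
    rw [← integral_Icc_eq_integral_Ioc]
    rw [setIntegral_eq_integral_of_forall_compl_eq_zero]
    intro x hx
    rw [V2_T_supp η x hx]
    simp
  rw [h1]
  have h2 := WI.fejer_scaled hη (-(2 * Real.pi * ξ))
  have h3 : ∫ v in (-η)..η, Complex.exp (↑(-2 * Real.pi * inner ℝ v ξ) * I) • (V2_T η v : ℂ) =
      (η : ℂ) * ∫ y in (-η)..η, ((1 - |y| / η : ℝ) : ℂ) *
        Complex.exp (I * (y * ((-(2 * Real.pi * ξ) : ℝ) : ℂ))) := by
    rw [← intervalIntegral.integral_const_mul]
    refine intervalIntegral.integral_congr fun y hy => ?_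
    rw [uIcc_of_le (by linarith)] at hy
    have hy' : |y| ≤ η := abs_le.mpr hy
    have e1 : V2_T η y = η * (1 - |y| / η) := by
      unfold V2_T
      rw [max_eq_left (by linarith), mul_sub, mul_one, mul_div_cancel₀ _ hη.ne']
    show Complex.exp (↑(-2 * Real.pi * inner ℝ y ξ) * I) • (V2_T η y : ℂ) = _
    rw [e1, smul_eq_mul]
    have e2 : (inner ℝ y ξ : ℝ) = ξ * y := by simp [inner]
    rw [e2]
    push_cast
    have e3 : -2 * (Real.pi : ℂ) * (ξ * y) * I = I * (y * -(2 * Real.pi * ξ)) := by ring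
    rw [e3]
    ring
  rw [h3, h2]
  push_cast
  have e4 : (η : ℝ) * (-(2 * Real.pi * ξ)) = -(2 * Real.pi * ξ) * η := by ring
  rw [e4]
  ring

theorem V2_ae (η : ℝ) (hη : 0 < η) :
    (fun t => η ^ 2 * WI.ker (-(2 * Real.pi * t) * η)) =ᵐ[volume] V2_K η := by
  have h : ∀ᵐ t : ℝ ∂volume, t ≠ 0 := by
    rw [ae_iff]
    simp
  filter_upwards [h] with t ht
  exact (V2_K_eq η t ht hη).symm

theorem V2_ker_int (η : ℝ) (hη : 0 < η) :
    Integrable (fun t => η ^ 2 * WI.ker (-(2 * Real.pi * t) * η)) := by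
  have h1 := WI.ker_integrable.comp_mul_left' (R := -(2 * Real.pi) * η)
    (by simp [hη.ne', Real.pi_ne_zero])
  have h2 : (fun t => η ^ 2 * WI.ker (-(2 * Real.pi * t) * η)) =
      fun t => η ^ 2 * WI.ker (-(2 * Real.pi) * η * t) := by
    funext t
    congr 2
    ring
  rw [h2]
  exact h1.const_mul _

theorem V2_int (η : ℝ) (hη : 0 < η) : Integrable (V2_K η) :=
  (V2_ker_int η hη).congr (V2_ae η hη)

theorem V2_bdd (η : ℝ) (hη : 0 < η) {f : ℝ → ℂ} (hf : Continuous f) {B : ℝ}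
    (hB : ∀ t, ‖f t‖ ≤ B) : Integrable (fun t => (V2_K η t : ℂ) * f t) := by
  have h1 : Integrable (fun t => (V2_K η t : ℂ)) := (V2_int η hη).ofReal
  exact h1.mul_bdd (c := B) hf.aestronglyMeasurable (Filter.Eventually.of_forall hB)

/-- complex form of the inversion -/
theorem V2_inv (η : ℝ) (hη : 0 < η) (v : ℝ) :
    ∫ t : ℝ, (V2_K η t : ℂ) * Complex.exp (2 * Real.pi * t * v * I) = (V2_T η v : ℂ) := by
  have hc : Continuous (fun x => (V2_T η x : ℂ)) := by
    have := V2_T_cont η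
    fun_prop
  have hF : 𝓕 (fun x => (V2_T η x : ℂ)) =
      fun ξ => ((η ^ 2 * WI.ker (-(2 * Real.pi * ξ) * η) : ℝ) : ℂ) := by
    funext ξ
    exact V2_fourier η hη ξ
  have hFi : Integrable (𝓕 (fun x => (V2_T η x : ℂ))) := by
    rw [hF]
    exact (V2_ker_int η hη).ofReal
  have h1 := congrFun (hc.fourierInv_fourier_eq (V2_T_int η) hFi) v
  rw [hF, Real.fourierInv_eq'] at h1
  rw [← h1]
  refine integral_congr_ae ?_
  filter_upwards [V2_ae η hη] with t ht
  rw [← ht]
  have e2 : (inner ℝ t v : ℝ) = v * t := by simp [inner]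
  rw [e2, smul_eq_mul]
  push_cast
  have e3 : 2 * (Real.pi : ℂ) * t * v * I = 2 * Real.pi * (v * t) * I := by ring
  rw [e3]
  ring

/-- real form -/
theorem V2_main (η : ℝ) (hη : 0 < η) (v : ℝ) :
    Integrable (fun t => (Real.sin (Real.pi * η * t) / (Real.pi * t)) ^ 2) ∧
      ∫ t : ℝ, (Real.sin (Real.pi * η * t) / (Real.pi * t)) ^ 2 * Real.cos (2 * Real.pi * t * v) =
        max (η - |v|) 0 := by
  refine ⟨V2_int η hη, ?_⟩
  have h1 := congrArg Complex.re (V2_inv η hη v)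
  rw [Complex.ofReal_re] at h1
  have h2 : Integrable (fun t : ℝ => (V2_K η t : ℂ) * Complex.exp (2 * Real.pi * t * v * I)) := by
    refine V2_bdd η hη (by fun_prop) (B := 1) fun t => ?_
    have : 2 * (Real.pi : ℂ) * t * v * I = ((2 * Real.pi * t * v : ℝ) : ℂ) * I := by push_cast; ring
    rw [this, Complex.norm_exp_ofReal_mul_I]
  have h3 := integral_re h2
  simp only [RCLike.re_eq_complex_re] at h3
  rw [← h3] at h1
  unfold V2_T at h1
  rw [← h1]
  refine integral_congr_ae (Filter.Eventually.of_forall fun t => ?_)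
  show (Real.sin (Real.pi * η * t) / (Real.pi * t)) ^ 2 * Real.cos (2 * Real.pi * t * v) =
    ((V2_K η t : ℂ) * Complex.exp (2 * Real.pi * t * v * I)).re
  have : 2 * (Real.pi : ℂ) * t * v * I = ((2 * Real.pi * t * v : ℝ) : ℂ) * I := by push_cast; ring
  rw [this, Complex.re_ofReal_mul, Complex.exp_ofReal_mul_I_re]
  rfl

/-- the quadratic form -/
theorem V2_form (η : ℝ) (hη : 0 < η) {ι : Type} (S : Finset ι) (b : ι → ℂ) (x : ι → ℝ) :
    Integrable (fun t : ℝ => V2_K η t * ‖∑ i ∈ S, b i * Complex.exp (2 * Real.pi * t * x i * I)‖ ^ 2) ∧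
    ((∫ t : ℝ, V2_K η t * ‖∑ i ∈ S, b i * Complex.exp (2 * Real.pi * t * x i * I)‖ ^ 2 : ℝ) : ℂ) =
      ∑ i ∈ S, ∑ j ∈ S, b i * (starRingEnd ℂ) (b j) * (V2_T η (x i - x j) : ℂ) := by
  have hn : ∀ (t y : ℝ), ‖Complex.exp (2 * Real.pi * t * y * I)‖ = 1 := by
    intro t y
    have : 2 * (Real.pi : ℂ) * t * y * I = ((2 * Real.pi * t * y : ℝ) : ℂ) * I := by push_cast; ring
    rw [this, Complex.norm_exp_ofReal_mul_I]
  have hexp : ∀ t : ℝ, ((V2_K η t * ‖∑ i ∈ S, b i * Complex.exp (2 * Real.pi * t * x i * I)‖ ^ 2 : ℝ)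
      : ℂ) = ∑ i ∈ S, ∑ j ∈ S, b i * (starRingEnd ℂ) (b j) *
        ((V2_K η t : ℂ) * Complex.exp (2 * Real.pi * t * ((x i - x j : ℝ) : ℂ) * I)) := by
    intro t
    have h1 : ((‖∑ i ∈ S, b i * Complex.exp (2 * Real.pi * t * x i * I)‖ ^ 2 : ℝ) : ℂ) =
        (∑ i ∈ S, b i * Complex.exp (2 * Real.pi * t * x i * I)) *
          (starRingEnd ℂ) (∑ i ∈ S, b i * Complex.exp (2 * Real.pi * t * x i * I)) := by
      rw [Complex.mul_conj, Complex.normSq_eq_norm_sq]
    rw [Complex.ofReal_mul, h1, map_sum, Finset.sum_mul_sum, Finset.mul_sum]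
    refine Finset.sum_congr rfl fun i _ => ?_
    rw [Finset.mul_sum]
    refine Finset.sum_congr rfl fun j _ => ?_
    rw [map_mul, ← Complex.exp_conj]
    have h2 : (starRingEnd ℂ) (2 * Real.pi * t * x j * I) = -(2 * Real.pi * t * x j * I) := by
      simp only [map_mul, Complex.conj_ofReal, Complex.conj_I]
      have : (starRingEnd ℂ) 2 = 2 := Complex.conj_ofNat 2
      rw [this]
      ring
    rw [h2]
    have h3 : Complex.exp (2 * Real.pi * t * ((x i - x j : ℝ) : ℂ) * I) =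
        Complex.exp (2 * Real.pi * t * x i * I) * Complex.exp (-(2 * Real.pi * t * x j * I)) := by
      rw [← Complex.exp_add]
      congr 1
      push_cast
      ring
    rw [h3]
    ring
  have hint : ∀ y : ℝ, Integrable (fun t : ℝ => (V2_K η t : ℂ) *
      Complex.exp (2 * Real.pi * t * (y : ℂ) * I)) := fun y =>
    V2_bdd η hη (by fun_prop) (B := 1) fun t => (hn t y).le
  constructor
  · have hK := V2_int η hη
    have hcont : Continuous (fun t : ℝ =>
        ‖∑ i ∈ S, b i * Complex.exp (2 * Real.pi * t * x i * I)‖ ^ 2) := by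
      fun_prop
    refine hK.mul_bdd (c := (∑ i ∈ S, ‖b i‖) ^ 2) hcont.aestronglyMeasurable
      (Filter.Eventually.of_forall fun t => ?_)
    rw [Real.norm_of_nonneg (by positivity)]
    refine pow_le_pow_left₀ (norm_nonneg _) ((norm_sum_le _ _).trans
      (Finset.sum_le_sum fun i _ => ?_)) 2
    rw [norm_mul, hn, mul_one]
  · rw [← integral_complex_ofReal]
    rw [integral_congr_ae (Filter.Eventually.of_forall hexp)]
    rw [integral_finsetSum _ fun i _ => integrable_finsetSum _ fun j _ =>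
      (hint _).const_mul _]
    refine Finset.sum_congr rfl fun i _ => ?_
    rw [integral_finsetSum _ fun j _ => (hint _).const_mul _]
    refine Finset.sum_congr rfl fun j _ => ?_
    rw [integral_const_mul, V2_inv η hη]

end Pool.Agent.Work.MP_122e00_nt.TS
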